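import Mathlib

namespace Pool.Agent.VDW

open Polynomial

/-- The monic rational polynomial `X^n + a_1 X^(n-1) + ... + a_n` with integer coefficients;
the index `i : Fin n` stands for `a_(i+1)`. -/
noncomputable def poly {n : ℕ} (a : Fin n → ℤ) : ℚ[X] :=
  X ^ n + ∑ i : Fin n, C (a i : ℚ) * X ^ (n - 1 - (i : ℕ))

/-- The number of integer tuples of height at most `H` whose polynomial is irreducible over the
rationals and whose Galois group is not isomorphic to the symmetric group on `n` letters. -/
noncomputable def N (n : ℕ) (H : ℝ) : ℕ :=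
  Set.ncard {a : Fin n → ℤ | (∀ i, |(a i : ℝ)| ≤ H) ∧ Irreducible (poly a) ∧
    ¬ Nonempty ((poly a).Gal ≃* Equiv.Perm (Fin n))}

end Pool.Agent.VDW
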