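import Mathlib

namespace Pool.Agent.VDW

open Polynomial Finset
open scoped BigOperators

/-- the number of elements, as a real number -/
abbrev Q (F : Type) [Fintype F] : ℝ := (Fintype.card F : ℝ)

/-- indicator of a proposition -/
noncomputable def ind (P : Prop) : ℝ := by classical exact if P then 1 else 0

section Ind

lemma ind_pos {P : Prop} (h : P) : ind P = 1 := by simp [ind, h]
lemma ind_neg {P : Prop} (h : ¬ P) : ind P = 0 := by simp [ind, h]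
lemma ind_nonneg (P : Prop) : 0 ≤ ind P := by unfold ind; split_ifs <;> norm_num
lemma ind_le_one (P : Prop) : ind P ≤ 1 := by unfold ind; split_ifs <;> norm_num
lemma abs_ind_le_one (P : Prop) : |ind P| ≤ 1 := by
  rw [abs_of_nonneg (ind_nonneg P)]; exact ind_le_one P
lemma ind_mono {P R : Prop} (h : P → R) : ind P ≤ ind R := by
  by_cases hP : P
  · rw [ind_pos hP, ind_pos (h hP)]
  · rw [ind_neg hP]; exact ind_nonneg R
lemma ind_congr {P R : Prop} (h : P ↔ R) : ind P = ind R := by rw [propext h]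
lemma ind_and (P R : Prop) : ind (P ∧ R) = ind P * ind R := by
  by_cases hP : P <;> by_cases hR : R <;> simp [ind, hP, hR]
lemma ind_mul_self (P : Prop) : ind P * ind P = ind P := by
  by_cases hP : P <;> simp [ind, hP]
lemma ind_eq_ite (P : Prop) [Decidable P] : ind P = if P then 1 else 0 := by
  by_cases hP : P <;> simp [ind, hP]
lemma of_ind_ne_zero {P : Prop} (h : ind P ≠ 0) : P := by
  by_contra hP; exact h (ind_neg hP)
lemma sum_ind {ι : Type*} (s : Finset ι) (P : ι → Prop) [DecidablePred P] :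
    ∑ i ∈ s, ind (P i) = ((s.filter P).card : ℝ) := by
  simp only [ind_eq_ite]; rw [Finset.sum_boole]
lemma expect_ind {ι : Type*} (s : Finset ι) (P : ι → Prop) [DecidablePred P] :
    𝔼 i ∈ s, ind (P i) = ((s.filter P).card : ℝ) / s.card := by
  rw [expect_eq_sum_div_card, sum_ind]

end Ind

section Avg

variable {ι κ : Type*}

lemma expect_le' {s : Finset ι} {f : ι → ℝ} {a : ℝ} (ha : 0 ≤ a) (h : ∀ x ∈ s, f x ≤ a) :
    𝔼 i ∈ s, f i ≤ a := by
  rcases s.eq_empty_or_nonempty with rfl | hs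
  · simpa using ha
  · exact expect_le hs h

lemma expect_ind_nonneg (s : Finset ι) (P : ι → Prop) : 0 ≤ 𝔼 i ∈ s, ind (P i) :=
  expect_nonneg fun _ _ => ind_nonneg _

lemma expect_ind_le_one (s : Finset ι) (P : ι → Prop) : 𝔼 i ∈ s, ind (P i) ≤ 1 :=
  expect_le' zero_le_one fun _ _ => ind_le_one _

lemma abs_expect_le' {s : Finset ι} {f : ι → ℝ} {a : ℝ} (ha : 0 ≤ a) (h : ∀ x ∈ s, |f x| ≤ a) :
    |𝔼 i ∈ s, f i| ≤ a := (abs_expect_le s f).trans (expect_le' ha h)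

lemma ofReal_expect (s : Finset ι) (f : ι → ℝ) :
    ((𝔼 i ∈ s, f i : ℝ) : ℂ) = 𝔼 i ∈ s, (f i : ℂ) := by
  simp [expect_eq_sum_div_card]

lemma re_expect (s : Finset ι) (f : ι → ℂ) : (𝔼 i ∈ s, f i).re = 𝔼 i ∈ s, (f i).re := by
  simp only [expect_eq_sum_div_card]
  rw [← Complex.ofReal_natCast, Complex.div_ofReal_re, Complex.re_sum]

lemma im_expect (s : Finset ι) (f : ι → ℂ) : (𝔼 i ∈ s, f i).im = 𝔼 i ∈ s, (f i).im := by
  simp only [expect_eq_sum_div_card]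
  rw [← Complex.ofReal_natCast, Complex.div_ofReal_im, Complex.im_sum]

lemma conj_expect (s : Finset ι) (f : ι → ℂ) :
    (starRingEnd ℂ) (𝔼 i ∈ s, f i) = 𝔼 i ∈ s, (starRingEnd ℂ) (f i) := by
  simp [expect_eq_sum_div_card]

lemma norm_expect_le (s : Finset ι) (f : ι → ℂ) : ‖𝔼 i ∈ s, f i‖ ≤ 𝔼 i ∈ s, ‖f i‖ := by
  simp only [expect_eq_sum_div_card, norm_div, Complex.norm_natCast]
  gcongr
  exact norm_sum_le _ _

lemma norm_expect_le' {s : Finset ι} {f : ι → ℂ} {a : ℝ} (ha : 0 ≤ a) (h : ∀ x ∈ s, ‖f x‖ ≤ a) :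
    ‖𝔼 i ∈ s, f i‖ ≤ a := (norm_expect_le s f).trans (expect_le' ha h)

/-- the square of an average is at most the average of the squares -/
lemma sq_expect_le (s : Finset ι) (f : ι → ℝ) : (𝔼 i ∈ s, f i) ^ 2 ≤ 𝔼 i ∈ s, f i ^ 2 := by
  have h := expect_mul_sq_le_sq_mul_sq s f (fun _ => (1 : ℝ))
  simp only [mul_one, one_pow] at h
  refine h.trans ?_
  have h1 : 𝔼 _i ∈ s, (1 : ℝ) ≤ 1 := expect_le' zero_le_one fun _ _ => le_rfl
  have h0 : 0 ≤ 𝔼 i ∈ s, f i ^ 2 := expect_nonneg fun _ _ => sq_nonneg _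
  nlinarith

/-- Cauchy-Schwarz with a bounded weight -/
lemma cs_bdd (s : Finset ι) (f g : ι → ℂ) (K : ℝ) (hf : ∀ i ∈ s, ‖f i‖ ≤ K) :
    ‖𝔼 i ∈ s, f i * g i‖ ^ 2 ≤ K ^ 2 * 𝔼 i ∈ s, ‖g i‖ ^ 2 := by
  have h1 : ‖𝔼 i ∈ s, f i * g i‖ ≤ |K| * 𝔼 i ∈ s, ‖g i‖ := by
    refine (norm_expect_le _ _).trans ?_
    rw [mul_expect]
    refine expect_le_expect fun i hi => ?_
    rw [norm_mul]
    exact mul_le_mul_of_nonneg_right ((hf i hi).trans (le_abs_self K)) (norm_nonneg _)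
  calc _ ≤ (|K| * 𝔼 i ∈ s, ‖g i‖) ^ 2 := by gcongr
    _ = K ^ 2 * (𝔼 i ∈ s, ‖g i‖) ^ 2 := by rw [mul_pow, sq_abs]
    _ ≤ _ := by gcongr; exact sq_expect_le _ _

/-- opening a square -/
lemma norm_sq_expect (s : Finset ι) (g : ι → ℂ) :
    ((‖𝔼 i ∈ s, g i‖ ^ 2 : ℝ) : ℂ) = 𝔼 i ∈ s, 𝔼 j ∈ s, g i * (starRingEnd ℂ) (g j) := by
  rw [← Complex.normSq_eq_norm_sq, ← Complex.mul_conj, conj_expect, expect_mul_expect]

lemma sq_expect (s : Finset ι) (g : ι → ℝ) :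
    (𝔼 i ∈ s, g i) ^ 2 = 𝔼 i ∈ s, 𝔼 j ∈ s, g i * g j := by
  rw [sq, expect_mul_expect]

/-- popularity principle -/
lemma popular (s : Finset ι) (f : ι → ℝ) (δ : ℝ) (h1 : ∀ i ∈ s, f i ≤ 1) (hδ : 0 ≤ δ)
    (h : δ ≤ 𝔼 i ∈ s, f i) : δ / 2 ≤ 𝔼 i ∈ s, ind (δ / 2 ≤ f i) := by
  have h2 : 𝔼 i ∈ s, f i ≤ 𝔼 i ∈ s, (δ / 2 + ind (δ / 2 ≤ f i)) := by
    refine expect_le_expect fun i hi => ?_
    by_cases hc : δ / 2 ≤ f i
    · rw [ind_pos hc]; linarith [h1 i hi]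
    · rw [ind_neg hc]; push Not at hc; linarith
  rw [expect_add_distrib] at h2
  have h3 : 𝔼 _i ∈ s, δ / 2 ≤ δ / 2 := expect_le' (by linarith) fun _ _ => le_rfl
  linarith

/-- union bound -/
lemma ind_exists_le (S : Finset κ) (P : κ → Prop) : ind (∃ c ∈ S, P c) ≤ ∑ c ∈ S, ind (P c) := by
  by_cases h : ∃ c ∈ S, P c
  · obtain ⟨c, hc, hP⟩ := h
    refine (ind_le_one _).trans ?_
    rw [← ind_pos hP]
    exact single_le_sum (f := fun c => ind (P c)) (fun _ _ => ind_nonneg _) hc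
  · rw [ind_neg h]; exact sum_nonneg fun _ _ => ind_nonneg _

/-- pigeonhole principle -/
lemma pigeon (s : Finset ι) (S : Finset κ) (P : κ → ι → Prop) (δ N : ℝ) (hδ : 0 < δ)
    (hN : (S.card : ℝ) ≤ N) (h : δ ≤ 𝔼 i ∈ s, ind (∃ c ∈ S, P c i)) :
    ∃ c ∈ S, δ / N ≤ 𝔼 i ∈ s, ind (P c i) := by
  have h2 : δ ≤ ∑ c ∈ S, 𝔼 i ∈ s, ind (P c i) := by
    rw [← expect_sum_comm]
    exact h.trans (expect_le_expect fun i _ => ind_exists_le S fun c => P c i)
  have hS : S.Nonempty := by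
    rcases S.eq_empty_or_nonempty with rfl | hS
    · simp at h2; linarith
    · exact hS
  have hc : (0 : ℝ) < S.card := by exact_mod_cast hS.card_pos
  have h3 : ∑ _c ∈ S, δ / N ≤ ∑ c ∈ S, 𝔼 i ∈ s, ind (P c i) := by
    refine le_trans ?_ h2
    rw [sum_const, nsmul_eq_mul, mul_div_assoc', div_le_iff₀ (by linarith)]
    nlinarith
  exact exists_le_of_sum_le hS h3

end Avg

section Defs

variable (F : Type) [Field F] [Fintype F] [DecidableEq F]

/-- polynomials of degree less than `k` -/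
noncomputable def V (k : ℕ) : Finset F[X] := Finset.univ.map ⟨ofFn k, injective_ofFn k⟩

/-- monic polynomials of degree `k` -/
noncomputable def M (k : ℕ) : Finset F[X] := (V F k).map (addLeftEmbedding (X ^ k))

variable {F}

/-- the functional `g ↦ L (b g)` vanishes in degree less than `k` -/
def Kills (L : F[X] →ₗ[F] F) (b : F[X]) (k : ℕ) : Prop := ∀ g ∈ V F k, L (b * g) = 0

/-- Moebius function -/
noncomputable def mu (b : F[X]) : ℝ := ((UniqueFactorizationMonoid.moebius b : ℤ) : ℝ)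

/-- on monic polynomials of degree `j`, the function `g` depends only on the class modulo `B`
and on the top `k` coefficients -/
def Per (B : F[X]) (k j : ℕ) (g : F[X] → ℝ) : Prop :=
  ∀ b ∈ M F j, ∀ c ∈ V F (j - k), B ∣ c → g (b + c) = g b

/-- normalised indicator of the irreducible polynomials of degree `l` -/
noncomputable def alpha (l : ℕ) (a : F[X]) : ℝ :=
  ind (Irreducible a) / 𝔼 a' ∈ M F l, ind (Irreducible a')

noncomputable def beta (n : ℕ) (b : F[X]) : ℝ := 1 + (-1) ^ n * mu b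

/-- the test function -/
noncomputable def phi (l m : ℕ) (f : F[X]) : ℝ :=
  1 - ∑ a ∈ M F l, ∑ b ∈ M F m, ind (a * b = f) * (alpha l a * beta (l + m) b)

/-- eighth power of the third Gowers norm, on monic polynomials of degree `n` -/
noncomputable def PU3 (n : ℕ) (φ : F[X] → ℝ) : ℝ :=
  𝔼 h ∈ V F n, 𝔼 h' ∈ V F n,
    (𝔼 f ∈ M F n, φ f * φ (f + h) * (φ (f + h') * φ (f + h' + h))) ^ 2

/-- Fourier coefficient of a multiplicative derivative -/
noncomputable def T (ψ : AddChar F ℂ) (n : ℕ) (φ : F[X] → ℝ) (h : F[X]) (L : F[X] →ₗ[F] F) : ℂ :=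
  𝔼 f ∈ M F n, ((φ f * φ (f + h) : ℝ) : ℂ) * ψ (L f)

/-- `φ = 1 - α * β` in the weak sense -/
def Conv (l m : ℕ) (α β φ : F[X] → ℝ) : Prop :=
  ∀ G : F[X] → ℂ, 𝔼 f ∈ M F (l + m), (φ f : ℂ) * G f =
    𝔼 f ∈ M F (l + m), G f - 𝔼 a ∈ M F l, 𝔼 b ∈ M F m, ((α a * β b : ℝ) : ℂ) * G (a * b)

end Defs

/-- eighth power of the third Gowers norm on a finite abelian group -/
noncomputable def U3 {G : Type} [AddCommGroup G] [Fintype G] (Φ : G → ℝ) : ℝ :=
  𝔼 h, 𝔼 h', (𝔼 v, Φ v * Φ (v + h) * (Φ (v + h') * Φ (v + h' + h))) ^ 2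

/-- the monic polynomial `X^n + ∑ v_i X^i` -/
noncomputable def mon {R : Type} [CommRing R] {n : ℕ} (v : Fin n → R) : R[X] :=
  X ^ n + ∑ i : Fin n, C (v i) * X ^ (i : ℕ)

/-- the integer vector read in the ring `R` -/
def red (R : Type) [CommRing R] {n : ℕ} (a : Fin n → ℤ) : Fin n → R := fun i => (a i : R)

/-- Gaussian weight -/
noncomputable def gw {n : ℕ} (H : ℝ) (v : Fin n → ℤ) : ℝ := ∏ i, Real.exp (-((v i : ℝ) / H) ^ 2)

/-- majorant of the shifted Gaussian weight -/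
noncomputable def gW {n : ℕ} (H : ℝ) (v : Fin n → ℤ) : ℝ :=
  ∏ i, Real.exp (-((v i : ℝ) / H) ^ 2 + 6 * |(v i : ℝ)| / H)

instance factPrimes (p : Nat.Primes) : Fact (p : ℕ).Prime := ⟨p.2⟩

section API

variable {F : Type} [Field F] [Fintype F] [DecidableEq F]

lemma two_le_Q : (2 : ℝ) ≤ Q F := by
  have : 1 < Fintype.card F := Fintype.one_lt_card
  exact_mod_cast this

lemma one_le_Q : (1 : ℝ) ≤ Q F := by linarith [two_le_Q (F := F)]
lemma Q_pos : (0 : ℝ) < Q F := by linarith [two_le_Q (F := F)]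

lemma mem_V {k : ℕ} {g : F[X]} : g ∈ V F k ↔ g.degree < k := by
  constructor
  · intro h
    obtain ⟨v, -, rfl⟩ := Finset.mem_map.1 h
    exact ofFn_degree_lt v
  · intro h
    refine Finset.mem_map.2 ⟨toFn k g, mem_univ _, ?_⟩
    ext i
    by_cases hi : i < k
    · simp [hi, toFn]
    · have : g.coeff i = 0 := coeff_eq_zero_of_degree_lt (h.trans_le (by exact_mod_cast not_lt.1 hi))
      simp [not_lt.1 hi, this]

lemma mem_V_iff {k : ℕ} {g : F[X]} : g ∈ V F k ↔ g = 0 ∨ g.natDegree < k := by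
  rw [mem_V]
  by_cases h : g = 0
  · simp [h]
  · simp [h, natDegree_lt_iff_degree_lt h]

lemma mem_M' {k : ℕ} {g : F[X]} : g ∈ M F k ↔ g - X ^ k ∈ V F k := by
  simp only [M, Finset.mem_map, addLeftEmbedding_apply]
  constructor
  · rintro ⟨v, hv, rfl⟩; simpa using hv
  · intro h; exact ⟨_, h, by ring⟩

lemma mem_M {k : ℕ} {g : F[X]} : g ∈ M F k ↔ g.Monic ∧ g.natDegree = k := by
  rw [mem_M', mem_V]
  constructor
  · intro h
    have e : g = X ^ k + (g - X ^ k) := by ring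
    have hd : (g - X ^ k).degree < (X ^ k : F[X]).degree := by rwa [degree_X_pow]
    refine ⟨e ▸ (monic_X_pow k).add_of_left hd, ?_⟩
    rw [e]
    apply natDegree_eq_of_degree_eq_some
    rw [degree_add_eq_left_of_degree_lt hd, degree_X_pow]
  · rintro ⟨hm, rfl⟩
    have := degree_sub_lt (p := g) (q := X ^ g.natDegree)
      (by rw [degree_X_pow, degree_eq_natDegree hm.ne_zero]) hm.ne_zero (by simp [hm.leadingCoeff])
    rwa [degree_eq_natDegree hm.ne_zero] at this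

lemma card_V (k : ℕ) : (V F k).card = Fintype.card F ^ k := by simp [V]
lemma card_M (k : ℕ) : (M F k).card = Fintype.card F ^ k := by simp [M, card_V]
lemma card_V_real (k : ℕ) : ((V F k).card : ℝ) = Q F ^ k := by simp [card_V]
lemma card_M_real (k : ℕ) : ((M F k).card : ℝ) = Q F ^ k := by simp [card_M]

lemma zero_mem_V (k : ℕ) : (0 : F[X]) ∈ V F k := mem_V_iff.2 (Or.inl rfl)
lemma X_pow_mem_M (k : ℕ) : (X ^ k : F[X]) ∈ M F k := mem_M'.2 (by simpa using zero_mem_V k)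
lemma V_nonempty (k : ℕ) : (V F k).Nonempty := ⟨0, zero_mem_V k⟩
lemma M_nonempty (k : ℕ) : (M F k).Nonempty := ⟨_, X_pow_mem_M k⟩
lemma M_zero : M F 0 = {1} := by
  ext g; rw [mem_M, mem_singleton]
  constructor
  · rintro ⟨h1, h2⟩; exact h1.natDegree_eq_zero.1 h2
  · rintro rfl; simp

lemma V_mono {k k' : ℕ} (h : k ≤ k') {g : F[X]} (hg : g ∈ V F k) : g ∈ V F k' :=
  mem_V.2 ((mem_V.1 hg).trans_le (by exact_mod_cast h))
lemma X_pow_mem_V {i k : ℕ} (h : i < k) : (X ^ i : F[X]) ∈ V F k :=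
  mem_V_iff.2 (Or.inr (by simpa using h))
lemma M_mem_V {k k' : ℕ} (h : k < k') {g : F[X]} (hg : g ∈ M F k) : g ∈ V F k' :=
  mem_V_iff.2 (Or.inr (by rw [(mem_M.1 hg).2]; exact h))
lemma V_add {k : ℕ} {g h : F[X]} (hg : g ∈ V F k) (hh : h ∈ V F k) : g + h ∈ V F k :=
  mem_V.2 ((degree_add_le g h).trans_lt (max_lt (mem_V.1 hg) (mem_V.1 hh)))
lemma V_neg {k : ℕ} {g : F[X]} (hg : g ∈ V F k) : -g ∈ V F k :=
  mem_V.2 (by rw [degree_neg]; exact mem_V.1 hg)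
lemma V_sub {k : ℕ} {g h : F[X]} (hg : g ∈ V F k) (hh : h ∈ V F k) : g - h ∈ V F k := by
  rw [sub_eq_add_neg]; exact V_add hg (V_neg hh)
lemma V_smul {k : ℕ} (c : F) {g : F[X]} (hg : g ∈ V F k) : c • g ∈ V F k :=
  mem_V.2 ((degree_smul_le c g).trans_lt (mem_V.1 hg))
lemma M_add_V {k : ℕ} {g h : F[X]} (hg : g ∈ M F k) (hh : h ∈ V F k) : g + h ∈ M F k := by
  rw [mem_M'] at hg ⊢
  have := V_add hg hh
  rwa [show g - X ^ k + h = g + h - X ^ k by ring] at this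
lemma M_sub_V {k : ℕ} {g h : F[X]} (hg : g ∈ M F k) (hh : h ∈ V F k) : g - h ∈ M F k := by
  rw [sub_eq_add_neg]; exact M_add_V hg (V_neg hh)
lemma M_sub_M {k : ℕ} {g h : F[X]} (hg : g ∈ M F k) (hh : h ∈ M F k) : g - h ∈ V F k := by
  rw [mem_M'] at hg hh
  have := V_sub hg hh
  rwa [show g - X ^ k - (h - X ^ k) = g - h by ring] at this
lemma M_mul_M {k j : ℕ} {g h : F[X]} (hg : g ∈ M F k) (hh : h ∈ M F j) : g * h ∈ M F (k + j) := by
  rw [mem_M] at hg hh ⊢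
  exact ⟨hg.1.mul hh.1, by rw [hg.1.natDegree_mul hh.1, hg.2, hh.2]⟩
/-- a polynomial of degree at most `k` times one of degree less than `j` -/
lemma mul_mem_V {k j : ℕ} {g h : F[X]} (hg : g.natDegree ≤ k) (hh : h ∈ V F j) :
    g * h ∈ V F (k + j) := by
  rw [mem_V_iff] at hh ⊢
  rcases hh with rfl | hh
  · simp
  · right; exact natDegree_mul_le.trans_lt (by omega)
lemma natDegree_le_of_mem_V {k : ℕ} {g : F[X]} (hg : g ∈ V F (k + 1)) : g.natDegree ≤ k := by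
  rcases mem_V_iff.1 hg with rfl | h
  · simp
  · omega
lemma mem_V_of_natDegree_le {k : ℕ} {g : F[X]} (hg : g.natDegree ≤ k) : g ∈ V F (k + 1) :=
  mem_V_iff.2 (Or.inr (by omega))
lemma M_mul_V {k j : ℕ} {g h : F[X]} (hg : g ∈ M F k) (hh : h ∈ V F j) : g * h ∈ V F (k + j) :=
  mul_mem_V (mem_M.1 hg).2.le hh
lemma V_mul_M {k j : ℕ} {g h : F[X]} (hg : g ∈ V F k) (hh : h ∈ M F j) : g * h ∈ V F (k + j) := by
  rw [mul_comm, add_comm]; exact M_mul_V hh hg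
lemma V_mul_V {k j : ℕ} {g h : F[X]} (hg : g ∈ V F k) (hh : h ∈ V F j) : g * h ∈ V F (k + j) := by
  rcases mem_V_iff.1 hg with rfl | h1
  · simpa using zero_mem_V _
  · exact mul_mem_V h1.le hh

lemma Kills.mono {L : F[X] →ₗ[F] F} {b : F[X]} {k k' : ℕ} (h : Kills L b k) (hk : k' ≤ k) :
    Kills L b k' := fun g hg => h g (V_mono hk hg)
lemma Kills.mul {L : F[X] →ₗ[F] F} {b c : F[X]} {k k' j : ℕ} (h : Kills L b k)
    (hc : c.natDegree ≤ j) (hk : j + k' ≤ k) : Kills L (b * c) k' := fun g hg => by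
  rw [mul_assoc]; exact h _ (V_mono hk (mul_mem_V hc hg))
lemma kills_comp {L : F[X] →ₗ[F] F} {u w : F[X]} {k : ℕ} :
    Kills (L ∘ₗ LinearMap.mulLeft F u) w k ↔ Kills L (u * w) k := by
  simp [Kills, mul_assoc]

variable {E : Type*} [AddCommMonoid E] [Module ℚ≥0 E]

lemma expect_V_fn (k : ℕ) (f : F[X] → E) :
    𝔼 g ∈ V F k, f g = 𝔼 v : Fin k → F, f (ofFn k v) := by
  simp [V, expect]

lemma expect_V_add {k : ℕ} {h : F[X]} (hh : h ∈ V F k) (f : F[X] → E) :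
    𝔼 g ∈ V F k, f (g + h) = 𝔼 g ∈ V F k, f g :=
  expect_nbij' (fun g => g + h) (fun g => g - h) (fun _ hg => V_add hg hh)
    (fun _ hg => V_sub hg hh) (by simp) (by simp) (fun _ _ => rfl)

lemma expect_V_sub {k : ℕ} {h : F[X]} (hh : h ∈ V F k) (f : F[X] → E) :
    𝔼 g ∈ V F k, f (g - h) = 𝔼 g ∈ V F k, f g := by
  simp only [sub_eq_add_neg]; exact expect_V_add (V_neg hh) f

lemma expect_V_sub' {k : ℕ} {h : F[X]} (hh : h ∈ V F k) (f : F[X] → E) :
    𝔼 g ∈ V F k, f (h - g) = 𝔼 g ∈ V F k, f g :=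
  expect_nbij' (fun g => h - g) (fun g => h - g) (fun _ hg => V_sub hh hg)
    (fun _ hg => V_sub hh hg) (by simp) (by simp) (fun _ _ => rfl)

lemma expect_M_add {k : ℕ} {h : F[X]} (hh : h ∈ V F k) (f : F[X] → E) :
    𝔼 g ∈ M F k, f (g + h) = 𝔼 g ∈ M F k, f g :=
  expect_nbij' (fun g => g + h) (fun g => g - h) (fun _ hg => M_add_V hg hh)
    (fun _ hg => M_sub_V hg hh) (by simp) (by simp) (fun _ _ => rfl)

lemma expect_M_sub {k : ℕ} {h : F[X]} (hh : h ∈ V F k) (f : F[X] → E) :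
    𝔼 g ∈ M F k, f (g - h) = 𝔼 g ∈ M F k, f g := by
  simp only [sub_eq_add_neg]; exact expect_M_add (V_neg hh) f

/-- monic polynomials are a translate of `V` by any base point -/
lemma expect_M_base {k : ℕ} {b : F[X]} (hb : b ∈ M F k) (f : F[X] → E) :
    𝔼 g ∈ M F k, f g = 𝔼 v ∈ V F k, f (b + v) :=
  (expect_nbij' (fun v => b + v) (fun g => g - b) (fun _ hv => M_add_V hb hv)
    (fun _ hg => M_sub_M hg hb) (by simp) (by simp) (fun _ _ => rfl)).symm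

lemma expect_M_base' {k : ℕ} {b : F[X]} (hb : b ∈ M F k) (f : F[X] → E) :
    𝔼 g ∈ M F k, f g = 𝔼 v ∈ V F k, f (b - v) :=
  (expect_nbij' (fun v => b - v) (fun g => b - g) (fun _ hv => M_sub_V hb hv)
    (fun _ hg => M_sub_M hb hg) (by simp) (by simp) (fun _ _ => rfl)).symm

/-- pairs of monic polynomials: a base point and a difference -/
lemma expect_M_pair (k : ℕ) (f : F[X] → F[X] → E) :
    𝔼 a ∈ M F k, 𝔼 a' ∈ M F k, f a a' = 𝔼 a ∈ M F k, 𝔼 x ∈ V F k, f a (a + x) :=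
  expect_congr rfl fun _ ha => expect_M_base ha _

lemma mon_eq {n : ℕ} (v : Fin n → F) : mon v = X ^ n + ofFn n v := by
  rw [mon, ofFn_eq_sum_monomial]
  simp only [C_mul_X_pow_eq_monomial]

lemma U3_eq_PU3 (n : ℕ) (φ : F[X] → ℝ) : U3 (fun v : Fin n → F => φ (mon v)) = PU3 n φ := by
  unfold U3 PU3
  rw [expect_V_fn]
  refine expect_congr rfl fun h _ => ?_
  rw [expect_V_fn]
  refine expect_congr rfl fun h' _ => ?_
  rw [expect_M_base (X_pow_mem_M n), expect_V_fn]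
  simp only [mon_eq, map_add, add_assoc]

lemma norm_psi (ψ : AddChar F ℂ) (x : F) : ‖ψ x‖ = 1 := ψ.norm_apply x

lemma conj_psi (ψ : AddChar F ℂ) (x : F) : (starRingEnd ℂ) (ψ x) = ψ (-x) := by
  rw [AddChar.map_neg_eq_conj]

/-- orthogonality -/
lemma orth_V {ψ : AddChar F ℂ} (hψ : ψ ≠ 1) {L : F[X] →ₗ[F] F} {k : ℕ}
    (h : ¬ ∀ g ∈ V F k, L g = 0) : 𝔼 g ∈ V F k, ψ (L g) = 0 := by
  push Not at h
  obtain ⟨g0, hg0, hL⟩ := h
  obtain ⟨x, hx⟩ := AddChar.ne_one_iff.1 hψ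
  have h1 := expect_V_add (V_smul (x / L g0) hg0) (fun g => ψ (L g))
  simp only [map_add, map_smul, smul_eq_mul, div_mul_cancel₀ x hL, AddChar.map_add_eq_mul] at h1
  rw [← expect_mul] at h1
  by_contra hne
  exact hx (mul_left_cancel₀ hne (h1.trans (mul_one _).symm))

lemma orth_M {ψ : AddChar F ℂ} (hψ : ψ ≠ 1) {L : F[X] →ₗ[F] F} {k : ℕ}
    (h : ¬ ∀ g ∈ V F k, L g = 0) : 𝔼 g ∈ M F k, ψ (L g) = 0 := by
  rw [expect_M_base (X_pow_mem_M k)]
  simp only [map_add, AddChar.map_add_eq_mul]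
  rw [← mul_expect, orth_V hψ h, mul_zero]

lemma norm_orth_M {ψ : AddChar F ℂ} (hψ : ψ ≠ 1) (L : F[X] →ₗ[F] F) (k : ℕ) :
    ‖𝔼 g ∈ M F k, ψ (L g)‖ ≤ ind (∀ g ∈ V F k, L g = 0) := by
  by_cases h : ∀ g ∈ V F k, L g = 0
  · rw [ind_pos h]; exact norm_expect_le' zero_le_one fun g _ => (norm_psi ψ _).le
  · rw [ind_neg h, orth_M hψ h, norm_zero]

lemma Per.mul {B a : F[X]} {k i j : ℕ} {g : F[X] → ℝ} (h : Per B k (i + j) g) (ha : a ∈ M F i) :
    Per B k j (fun b => g (a * b)) := by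
  intro b hb c hc hB
  simp only [mul_add]
  refine h _ (M_mul_M ha hb) _ ?_ (hB.mul_left a)
  rcases mem_V_iff.1 hc with rfl | h1
  · simpa using zero_mem_V _
  · exact V_mono (by omega) (M_mul_V ha hc)

lemma abs_mu_le_one (b : F[X]) : |mu b| ≤ 1 := by
  unfold mu UniqueFactorizationMonoid.moebius
  split_ifs <;> simp

end API

end Pool.Agent.VDW
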