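import Pool.Agent.P.MP_b0ea37_nt.Base

namespace Pool.Agent.VDW

open Polynomial Finset
open scoped BigOperators

open scoped Pointwise in
/-- two elements of prime order `p` generate conjugate subgroups when `p ^ 2` does not divide
the order of the group -/
lemma jordan_sylow {H : Type} [Group H] [Finite H] {p : ℕ} (hp : p.Prime)
    (hH : ¬ p ^ 2 ∣ Nat.card H) (a b : H) (ha : orderOf a = p) (hb : orderOf b = p) :
    ∃ y : H, ∃ i : ℤ, y * b * y⁻¹ = a ^ i := by
  have : Fact p.Prime := ⟨hp⟩
  have hne : Nat.card H ≠ 0 := Nat.card_pos.ne'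
  have h1 : p ∣ Nat.card H := ha ▸ orderOf_dvd_natCard a
  have hf : (Nat.card H).factorization p = 1 := by
    have h2 : 1 ≤ (Nat.card H).factorization p :=
      (hp.dvd_iff_one_le_factorization hne).1 h1
    have h3 : ¬ 2 ≤ (Nat.card H).factorization p := fun h =>
      hH ((hp.pow_dvd_iff_le_factorization hne).2 h)
    omega
  have ca : Nat.card (Subgroup.zpowers a) = p ^ (Nat.card H).factorization p := by
    rw [hf, pow_one, Nat.card_zpowers, ha]
  have cb : Nat.card (Subgroup.zpowers b) = p ^ (Nat.card H).factorization p := by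
    rw [hf, pow_one, Nat.card_zpowers, hb]
  obtain ⟨y, hy⟩ := MulAction.exists_smul_eq H (Sylow.ofCard _ cb) (Sylow.ofCard _ ca)
  have hy' : (MulAut.conj y) • (Subgroup.zpowers b) = Subgroup.zpowers a := by
    have := congrArg (fun P : Sylow p H => (P : Subgroup H)) hy
    simpa only [Sylow.coe_subgroup_smul, Sylow.coe_ofCard] using this
  have hm : (MulAut.conj y) • b ∈ Subgroup.zpowers a := by
    rw [← hy']
    exact Subgroup.smul_mem_pointwise_smul _ _ _ (Subgroup.mem_zpowers b)
  obtain ⟨i, hi⟩ := Subgroup.mem_zpowers_iff.1 hm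
  refine ⟨y, i, ?_⟩
  rw [hi]
  rfl

lemma jordan_not_sq_dvd {p : ℕ} (hp : p.Prime) : ¬ p ^ 2 ∣ p.factorial := by
  intro h
  obtain ⟨q, rfl⟩ : ∃ q, p = q + 1 := ⟨p - 1, by have := hp.pos; omega⟩
  rw [Nat.factorial_succ, sq] at h
  have h2 : (q + 1) ∣ q.factorial := Nat.dvd_of_mul_dvd_mul_left (Nat.succ_pos q) h
  have := (hp.dvd_factorial).1 h2
  omega

section

variable {α : Type} [Fintype α] [DecidableEq α]

/-- every permutation is matched, on the fixed points of the cycle, by an element of `G` -/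
lemma jordan_trans (G : Subgroup (Equiv.Perm α))
    (hG : MulAction.IsPreprimitive G α) {g : Equiv.Perm α} (hg : g ∈ G) (hc : g.IsCycle)
    (hp : g.support.card.Prime) (h3 : g.support.card + 3 ≤ Fintype.card α) (u : Equiv.Perm α) :
    ∃ x ∈ G, ∀ s, g s = s → x s = u s := by
  classical
  obtain ⟨n, hn⟩ : ∃ n, Fintype.card α = g.support.card + (n + 1) :=
    ⟨Fintype.card α - g.support.card - 1, by omega⟩
  have h2 := hp.two_le
  have hsc : Set.ncard ((g.support : Set α)ᶜ) = n + 1 := by
    have := Set.ncard_add_ncard_compl (g.support : Set α)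
    rw [Set.ncard_coe_finset, Nat.card_eq_fintype_card, hn] at this
    omega
  have hlt : n + 2 < Nat.card α := by
    rw [Nat.card_eq_fintype_card, hn]; omega
  have hpre := Equiv.Perm.isPretransitive_of_isCycle_mem hc hg
  have hcard : Nat.card (SubMulAction.ofFixingSubgroup G (g.support : Set α)ᶜ)
      = g.support.card := by
    rw [Nat.card_eq_fintype_card, Fintype.card_subtype]
    apply congr_arg
    ext x
    simp [SubMulAction.mem_ofFixingSubgroup_iff]
  have hprim : MulAction.IsPreprimitive (fixingSubgroup G (g.support : Set α)ᶜ)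
      (SubMulAction.ofFixingSubgroup G (g.support : Set α)ᶜ) :=
    MulAction.IsPreprimitive.of_prime_card (by rw [hcard]; exact hp)
  have hmp : MulAction.IsMultiplyPreprimitive G α (n + 2) :=
    hG.isMultiplyPreprimitive hsc hlt hprim
  have hmt : MulAction.IsMultiplyPretransitive G α (n + 2) :=
    MulAction.IsMultiplyPreprimitive.isMultiplyPretransitive ..
  have hmt' : MulAction.IsMultiplyPretransitive G α (n + 1) :=
    MulAction.isMultiplyPretransitive_of_le (n := n + 2) (by omega) hlt.le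
  have hS : (g.supportᶜ).card = n + 1 := by
    rw [Finset.card_compl, hn]; omega
  let e : Fin (n + 1) ≃ (g.supportᶜ : Finset α) := (Finset.equivFinOfCardEq hS).symm
  let e1 : Fin (n + 1) ↪ α := e.toEmbedding.trans (Function.Embedding.subtype _)
  let e2 : Fin (n + 1) ↪ α := e1.trans u.toEmbedding
  obtain ⟨x, hx⟩ := MulAction.exists_smul_eq G e1 e2
  refine ⟨x, x.2, fun s hs => ?_⟩
  have hs' : s ∈ g.supportᶜ := by
    rw [Finset.mem_compl, Equiv.Perm.notMem_support]; exact hs
  have h1 : e1 (e.symm ⟨s, hs'⟩) = s := by simp [e1]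
  have h4 := congrArg (fun f : Fin (n + 1) ↪ α => f (e.symm ⟨s, hs'⟩)) hx
  simp only [Function.Embedding.smul_apply, e2, Function.Embedding.trans_apply, h1] at h4
  exact h4

/-- the matching element can be taken in the normaliser of the cyclic group -/
lemma jordan_norm (G : Subgroup (Equiv.Perm α))
    (hG : MulAction.IsPreprimitive G α) {g : Equiv.Perm α} (hg : g ∈ G) (hc : g.IsCycle)
    (hp : g.support.card.Prime) (h3 : g.support.card + 3 ≤ Fintype.card α) (u : Equiv.Perm α)
    (hu : ∀ s, g s ≠ s → u s = s) :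
    ∃ z ∈ G, (∀ s, g s = s → z s = u s) ∧ ∃ i : ℤ, z * g * z⁻¹ = g ^ i := by
  classical
  obtain ⟨x, hxG, hx⟩ := jordan_trans G hG hg hc hp h3 u
  have hufix : ∀ s, g s = s → g (u s) = u s := by
    intro s hs
    by_contra h
    have h1 := hu (u s) h
    have h2 : u s = s := u.injective h1
    rw [h2] at h
    exact h hs
  have hufix' : ∀ s, g s = s → g (u⁻¹ s) = u⁻¹ s := by
    intro s hs
    by_contra h
    have h1 := hu (u⁻¹ s) h
    have h2 : s = u⁻¹ s := by simpa using h1
    rw [← h2] at h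
    exact h hs
  let K : Subgroup (Equiv.Perm α) :=
    (Equiv.Perm.ofSubtype : Equiv.Perm {a // a ∈ g.support} →* Equiv.Perm α).range
  have hK : ∀ k : Equiv.Perm α, k ∈ K ↔ ∀ s, g s = s → k s = s := by
    intro k
    rw [Equiv.Perm.mem_range_ofSubtype_iff]
    constructor
    · intro h s hs
      by_contra hk
      have h1 : s ∈ (k.support : Set α) := by simpa using hk
      have h2 := h h1
      simp only [Set.mem_ofPred_eq, Equiv.Perm.mem_support] at h2
      exact h2 hs
    · intro h s hs
      simp only [Set.mem_ofPred_eq, Equiv.Perm.mem_support]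
      intro h1
      have h2 : k s ≠ s := by simpa using hs
      exact h2 (h s h1)
  have hKc : Nat.card K = g.support.card.factorial := by
    have h1 : Nat.card K = Nat.card (Equiv.Perm {a // a ∈ g.support}) :=
      (Nat.card_congr (MonoidHom.ofInjective Equiv.Perm.ofSubtype_injective).toEquiv).symm
    rw [h1, Nat.card_perm, Nat.card_eq_fintype_card, Fintype.card_coe]
  have hHc : ¬ g.support.card ^ 2 ∣ Nat.card (G ⊓ K : Subgroup (Equiv.Perm α)) := by
    intro h
    apply jordan_not_sq_dvd hp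
    rw [← hKc]
    exact h.trans (Subgroup.card_dvd_of_le inf_le_right)
  have hgH : g ∈ G ⊓ K := ⟨hg, (hK g).2 fun s hs => hs⟩
  have hg'H : x * g * x⁻¹ ∈ G ⊓ K := by
    refine ⟨G.mul_mem (G.mul_mem hxG hg) (G.inv_mem hxG), (hK _).2 fun s hs => ?_⟩
    have h1 : x (u⁻¹ s) = s := by rw [hx _ (hufix' s hs)]; simp
    have h2 : x⁻¹ s = u⁻¹ s := by rw [Equiv.Perm.inv_eq_iff_eq]; exact h1.symm
    rw [Equiv.Perm.mul_apply, Equiv.Perm.mul_apply, h2, hufix' s hs, h1]
  have ho1 : orderOf (⟨g, hgH⟩ : (G ⊓ K : Subgroup (Equiv.Perm α))) = g.support.card := by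
    rw [Subgroup.orderOf_mk, hc.orderOf]
  have ho2 : orderOf (⟨x * g * x⁻¹, hg'H⟩ : (G ⊓ K : Subgroup (Equiv.Perm α)))
      = g.support.card := by
    rw [Subgroup.orderOf_mk, ← hc.orderOf]
    exact (MulAut.conj x).orderOf_eq g
  obtain ⟨y, i, hy⟩ := jordan_sylow hp hHc _ _ ho1 ho2
  have hy' : (y : Equiv.Perm α) * (x * g * x⁻¹) * (y : Equiv.Perm α)⁻¹ = g ^ i := by
    have := congrArg (fun t : (G ⊓ K : Subgroup (Equiv.Perm α)) => (t : Equiv.Perm α)) hy
    simpa using this
  refine ⟨(y : Equiv.Perm α) * x, G.mul_mem y.2.1 hxG, fun s hs => ?_, i, ?_⟩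
  · rw [Equiv.Perm.mul_apply, hx s hs]
    exact (hK _).1 y.2.2 _ (hufix s hs)
  · rw [← hy']; group

end

/-- Jordan: a primitive group with a cycle of prime length fixing at least three points -/
theorem jordan {α : Type} [Fintype α] [DecidableEq α] (G : Subgroup (Equiv.Perm α))
    (hG : MulAction.IsPreprimitive G α) {g : Equiv.Perm α} (hg : g ∈ G) (hc : g.IsCycle)
    (hp : g.support.card.Prime) (h3 : g.support.card + 3 ≤ Fintype.card α) :
    alternatingGroup α ≤ G := by
  have hS : 2 < (g.supportᶜ).card := by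
    rw [Finset.card_compl]; omega
  obtain ⟨a, b, c, ha, hb, hcc, hab, hac, hbc⟩ := Finset.two_lt_card_iff.1 hS
  rw [Finset.mem_compl, Equiv.Perm.notMem_support] at ha hb hcc
  have hsw : ∀ d e : α, g d = d → g e = e → ∀ s, g s ≠ s → Equiv.swap d e s = s := by
    intro d e hd he s hs
    apply Equiv.swap_apply_of_ne_of_ne
    · rintro rfl; exact hs hd
    · rintro rfl; exact hs he
  have hsw' : ∀ d e : α, g d = d → g e = e → ∀ s, g s = s →
      g (Equiv.swap d e s) = Equiv.swap d e s := by
    intro d e hd he s hs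
    rw [Equiv.swap_apply_def]
    split_ifs
    · exact he
    · exact hd
    · exact hs
  obtain ⟨z, hzG, hz, i, hi⟩ := jordan_norm G hG hg hc hp h3 (Equiv.swap a b) (hsw a b ha hb)
  obtain ⟨t, htG, ht, j, hj⟩ := jordan_norm G hG hg hc hp h3 (Equiv.swap a c) (hsw a c ha hcc)
  have e1 : (z * t) * g * (z * t)⁻¹ = g ^ (i * j) := by
    have : (z * t) * g * (z * t)⁻¹ = z * (t * g * t⁻¹) * z⁻¹ := by group
    rw [this, hj, ← conj_zpow, hi, ← zpow_mul]
  have e2 : (t * z) * g * (t * z)⁻¹ = g ^ (i * j) := by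
    have : (t * z) * g * (t * z)⁻¹ = t * (z * g * z⁻¹) * t⁻¹ := by group
    rw [this, hi, ← conj_zpow, hj, ← zpow_mul, mul_comm j i]
  set w : Equiv.Perm α := (t * z)⁻¹ * (z * t) with hw
  have hwG : w ∈ G := G.mul_mem (G.inv_mem (G.mul_mem htG hzG)) (G.mul_mem hzG htG)
  have hwg : w * g = g * w := by
    have h1 : w * g = (t * z)⁻¹ * ((z * t) * g * (z * t)⁻¹) * (z * t) := by rw [hw]; group
    rw [h1, e1, ← e2, hw]; group
  have hcomm : Commute w g := hwg
  have hwfix : ∀ s, g s = s → g (w s) = w s := by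
    intro s hs
    rw [← Equiv.Perm.mul_apply, ← hwg, Equiv.Perm.mul_apply, hs]
  have hwS : ∀ s, g s = s → w s =
      (Equiv.swap a b * Equiv.swap a c * (Equiv.swap a b * Equiv.swap a c)) s := by
    intro s hs
    have h1 : t (z (w s)) = z (t s) := by
      have h0 : (t * z) (w s) = (z * t) s := by
        rw [← Equiv.Perm.mul_apply, hw, mul_inv_cancel_left]
      exact h0
    rw [hz _ (hwfix s hs),
      ht _ (hsw' a b ha hb _ (hwfix s hs)), ht s hs, hz _ (hsw' a c ha hcc s hs)] at h1
    simp only [Equiv.Perm.mul_apply]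
    rw [← h1, Equiv.swap_apply_self, Equiv.swap_apply_self]
  obtain ⟨x0, hx0, hcyc⟩ := hc
  have hwx0 : g (w x0) ≠ w x0 := by
    intro h
    rw [← Equiv.Perm.mul_apply, ← hwg, Equiv.Perm.mul_apply] at h
    exact hx0 (w.injective h)
  obtain ⟨k, hk⟩ := hcyc hwx0
  have hwT : ∀ y, g y ≠ y → w y = (g ^ k) y := by
    intro y hy
    obtain ⟨l, hl⟩ := hcyc hy
    rw [← hl, ← Equiv.Perm.mul_apply, (hcomm.zpow_right l).eq, Equiv.Perm.mul_apply, ← hk,
      ← Equiv.Perm.mul_apply, ← Equiv.Perm.mul_apply, zpow_mul_comm]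
  have hτ : (g ^ k)⁻¹ * w =
      Equiv.swap a b * Equiv.swap a c * (Equiv.swap a b * Equiv.swap a c) := by
    ext s
    by_cases hs : g s = s
    · rw [Equiv.Perm.mul_apply, ← hwS s hs, Equiv.Perm.inv_eq_iff_eq]
      exact (Equiv.Perm.zpow_apply_eq_self_of_apply_eq_self (hwfix s hs) k).symm
    · rw [Equiv.Perm.mul_apply, hwT s hs]
      simp only [Equiv.Perm.mul_apply, hsw a c ha hcc s hs, hsw a b ha hb s hs]
      simp
  refine Equiv.Perm.alternatingGroup_le_of_isPreprimitive_of_isThreeCycle_mem hG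
    (Equiv.Perm.isThreeCycle_swap_mul_swap_same hab hac hbc).isThreeCycle_sq ?_
  rw [← hτ]
  exact G.mul_mem (G.inv_mem (G.zpow_mem hg k)) hwG

end Pool.Agent.VDW

namespace Pool.Agent.VDW

open Polynomial Finset
open scoped BigOperators

theorem prim {α : Type} [Fintype α] [DecidableEq α] (G : Subgroup (Equiv.Perm α))
    (hG : MulAction.IsPretransitive G α) {g : Equiv.Perm α} (hg : g ∈ G) (hc : g.IsCycle)
    (hp : g.support.card.Prime) (h2 : Fintype.card α < 2 * g.support.card) :
    MulAction.IsPreprimitive G α := by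
  have h1 := Equiv.Perm.isPretransitive_of_isCycle_mem hc hg
  have hcard : Nat.card (SubMulAction.ofFixingSubgroup G ((g.support : Set α)ᶜ))
      = g.support.card := by
    classical
    rw [Nat.card_eq_fintype_card, Fintype.card_subtype]
    apply congr_arg
    ext x
    simp [SubMulAction.mem_ofFixingSubgroup_iff]
  have h3 : MulAction.IsPreprimitive (fixingSubgroup G ((g.support : Set α)ᶜ))
      (SubMulAction.ofFixingSubgroup G ((g.support : Set α)ᶜ)) :=
    MulAction.IsPreprimitive.of_prime_card (by rw [hcard]; exact hp)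
  refine MulAction.IsPreprimitive.of_card_lt
    (f := SubMulAction.ofFixingSubgroup_equivariantMap G ((g.support : Set α)ᶜ)) ?_
  have hr : (Set.range (SubMulAction.ofFixingSubgroup_equivariantMap G
      ((g.support : Set α)ᶜ))).ncard = g.support.card := by
    rw [Set.ncard_range_of_injective SubMulAction.ofFixingSubgroup_equivariantMap_injective, hcard]
  rw [hr, Nat.card_eq_fintype_card]
  exact h2

theorem top_of_cycle {α : Type} [Fintype α] [DecidableEq α] (G : Subgroup (Equiv.Perm α))
    (hG : MulAction.IsPretransitive G α) {g s : Equiv.Perm α} (hg : g ∈ G) (hc : g.IsCycle)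
    (hp : g.support.card.Prime) (h2 : Fintype.card α < 2 * g.support.card)
    (h3 : g.support.card + 3 ≤ Fintype.card α) (hs : s ∈ G) (hodd : Equiv.Perm.sign s = -1) :
    G = ⊤ := by
  have hA := jordan G (prim G hG hg hc hp h2) hg hc hp h3
  rw [eq_top_iff]
  intro t _
  rcases Int.units_eq_one_or (Equiv.Perm.sign t) with ht | ht
  · exact hA (Equiv.Perm.mem_alternatingGroup.mpr ht)
  · have h4 : t * s⁻¹ ∈ alternatingGroup α := by
      rw [Equiv.Perm.mem_alternatingGroup, map_mul, map_inv, ht, hodd]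
      simp
    have h5 := G.mul_mem (hA h4) hs
    simpa using h5

end Pool.Agent.VDW

namespace Pool.Agent.VDW

open Polynomial Finset
open scoped BigOperators

variable {F : Type} [Field F] [Fintype F] [DecidableEq F]

namespace FrobS

omit [DecidableEq F] in
/-- two roots of a monic irreducible polynomial are conjugate under a power of Frobenius -/
lemma conj_roots {k : Type} [Field k] [Finite k] [Algebra F k] {a : F[X]} (hm : a.Monic)
    (ha : Irreducible a) {x y : k} (hx : aeval x a = 0) (hy : aeval y a = 0) :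
    ∃ n : ℕ, y = x ^ (Fintype.card F ^ n) := by
  have h1 : a = minpoly F x := minpoly.eq_of_irreducible_of_monic ha hx hm
  have h2 : a = minpoly F y := minpoly.eq_of_irreducible_of_monic ha hy hm
  obtain ⟨σ, hσ⟩ := (Normal.minpoly_eq_iff_mem_orbit k).mp (h2.symm.trans h1)
  obtain ⟨n, hn⟩ := (FiniteField.bijective_frobeniusAlgEquivOfAlgebraic_pow F k).2 σ
  refine ⟨n.1, ?_⟩
  have h3 : σ x = y := hσ
  rw [← h3, ← hn]
  simp only [AlgEquiv.coe_pow]
  rw [FiniteField.coe_frobeniusAlgEquivOfAlgebraic_iterate]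

/-- a permutation with one orbit -/
lemma sign_one_orbit {α : Type} [Fintype α] [DecidableEq α] (π : Equiv.Perm α)
    (h0 : 0 < Fintype.card α) (h : ∀ x y, ∃ n : ℕ, (π ^ n) x = y) :
    ((Equiv.Perm.sign π : ℤˣ) : ℤ) = -(-1) ^ Fintype.card α := by
  by_cases h1 : Fintype.card α = 1
  · have : Subsingleton α := Fintype.card_le_one_iff_subsingleton.1 h1.le
    rw [h1, Subsingleton.elim π 1]
    simp
  · have hnt : Nontrivial α := Fintype.one_lt_card_iff_nontrivial.1 (by omega)
    have hfix : ∀ x, π x ≠ x := by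
      intro x hx
      obtain ⟨y, hy⟩ := exists_ne x
      obtain ⟨n, hn⟩ := h x y
      rw [Equiv.Perm.pow_apply_eq_self_of_apply_eq_self hx n] at hn
      exact hy hn.symm
    obtain ⟨x0⟩ : Nonempty α := inferInstance
    have hc : π.IsCycle := by
      refine ⟨x0, hfix x0, fun y _ => ?_⟩
      obtain ⟨n, hn⟩ := h x0 y
      exact ⟨(n : ℤ), by simpa using hn⟩
    have hs : π.support = univ := by
      ext x; simp [hfix x]
    rw [hc.sign, hs, card_univ]
    simp

/-- splitting along an invariant predicate -/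
lemma sign_split {α : Type} [Fintype α] [DecidableEq α] (π : Equiv.Perm α) (p : α → Prop)
    [DecidablePred p] (h : ∀ x, p (π x) ↔ p x) (h' : ∀ x, ¬ p (π x) ↔ ¬ p x) :
    Equiv.Perm.sign π = Equiv.Perm.sign (π.subtypePerm h) *
      Equiv.Perm.sign (π.subtypePerm (p := fun x => ¬ p x) h') := by
  rw [← Equiv.Perm.sign_subtypeCongr]
  congr 1
  ext x
  by_cases hx : p x
  · rw [Equiv.Perm.subtypeCongr.left_apply _ _ hx]; rfl
  · rw [Equiv.Perm.subtypeCongr.right_apply _ _ hx]; rfl

omit [Fintype F] [DecidableEq F] in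
lemma card_roots_le {k : Type} [Field k] [Algebra F k] {a : F[X]} (ha : a ≠ 0) {α : Type}
    [Fintype α] (e : α → k) (he : Function.Injective e) (hr : ∀ x, aeval (e x) a = 0) :
    Fintype.card α ≤ a.natDegree := by
  classical
  have h1 : (univ.image e).card = Fintype.card α := by
    rw [card_image_of_injective _ he, card_univ]
  have h2 : (univ.image e).val ⊆ (a.map (algebraMap F k)).roots := by
    intro y hy
    have hy' : y ∈ univ.image e := hy
    obtain ⟨x, -, rfl⟩ := mem_image.1 hy'
    rw [mem_roots (map_ne_zero ha), IsRoot, eval_map_algebraMap]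
    exact hr x
  have h3 := card_le_degree_of_subset_roots h2
  rwa [h1, natDegree_map] at h3

omit [DecidableEq F] in
lemma aeval_frob {k : Type} [Field k] [Algebra F k] (a : F[X]) (x : k) :
    aeval (x ^ Fintype.card F) a = (aeval x a) ^ Fintype.card F :=
  aeval_algHom_apply (FiniteField.frobeniusAlgHom F k) x a

omit [DecidableEq F] in
lemma main {k : Type} [Field k] [Finite k] [Algebra F k] (d : ℕ) : ∀ {f : F[X]} (_ : f.Monic)
    (_ : Squarefree f) (_ : f.natDegree = d) {α : Type} [Fintype α] [DecidableEq α]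
    (_ : Fintype.card α = f.natDegree) (e : α → k) (_ : Function.Injective e)
    (_ : ∀ x, aeval (e x) f = 0) (π : Equiv.Perm α)
    (_ : ∀ x, e (π x) = e x ^ Fintype.card F),
    ((Equiv.Perm.sign π : ℤˣ) : ℤ) = (-1) ^ f.natDegree * UniqueFactorizationMonoid.moebius f := by
  induction d using Nat.strong_induction_on with
  | _ d ih =>
  intro f hm hf hd α _ _ hn e he hr π hπ
  classical
  by_cases h0 : f.natDegree = 0
  · have h1 : f = 1 := hm.natDegree_eq_zero.1 h0
    have : Subsingleton α := Fintype.card_le_one_iff_subsingleton.1 (by omega)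
    rw [Subsingleton.elim π 1, h0, h1, UniqueFactorizationMonoid.moebius_one]
    simp
  have hu : ¬ IsUnit f := fun hu => h0 (natDegree_eq_zero_of_isUnit hu)
  obtain ⟨a, ham, hai, b, hab⟩ := exists_monic_irreducible_factor f hu
  have hbm : b.Monic := ham.of_mul_monic_left (hab ▸ hm)
  have hsq := squarefree_mul_iff.1 (hab ▸ hf)
  have hdeg : f.natDegree = a.natDegree + b.natDegree := by rw [hab, ham.natDegree_mul hbm]
  have hapos : 0 < a.natDegree := hai.natDegree_pos
  have hq : Fintype.card F ≠ 0 := Fintype.card_ne_zero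
  have hinv : ∀ x, aeval (e (π x)) a = 0 ↔ aeval (e x) a = 0 := by
    intro x
    rw [hπ, aeval_frob, pow_eq_zero_iff hq]
  have hinv' : ∀ x, ¬ aeval (e (π x)) a = 0 ↔ ¬ aeval (e x) a = 0 := fun x => not_congr (hinv x)
  have hrb : ∀ x : {x // ¬ aeval (e x) a = 0}, aeval (e x.1) b = 0 := by
    intro x
    have h1 := hr x.1
    rw [hab, map_mul] at h1
    exact (mul_eq_zero.1 h1).resolve_left x.2
  have hca : Fintype.card {x // aeval (e x) a = 0} ≤ a.natDegree :=
    card_roots_le ham.ne_zero (fun x => e x.1) (he.comp Subtype.val_injective) (fun x => x.2)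
  have hcb : Fintype.card {x // ¬ aeval (e x) a = 0} ≤ b.natDegree :=
    card_roots_le hbm.ne_zero (fun x => e x.1) (he.comp Subtype.val_injective) hrb
  have hsum : Fintype.card {x // ¬ aeval (e x) a = 0} =
      Fintype.card α - Fintype.card {x // aeval (e x) a = 0} := Fintype.card_subtype_compl _
  have hca' : Fintype.card {x // aeval (e x) a = 0} = a.natDegree := by omega
  have hcb' : Fintype.card {x // ¬ aeval (e x) a = 0} = b.natDegree := by omega
  have hB := ih b.natDegree (by omega) hbm hsq.2.2 rfl hcb' (fun x => e x.1)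
    (he.comp Subtype.val_injective) hrb
    (π.subtypePerm (p := fun x => ¬ aeval (e x) a = 0) hinv') (fun x => hπ x.1)
  have hpow : ∀ (n : ℕ) x, e ((π ^ n) x) = e x ^ (Fintype.card F ^ n) := by
    intro n
    induction n with
    | zero => intro x; simp
    | succ n ihn =>
      intro x
      rw [pow_succ', Equiv.Perm.mul_apply, hπ, ihn, ← pow_mul, ← pow_succ]
  have hA := sign_one_orbit (π.subtypePerm (p := fun x => aeval (e x) a = 0) hinv)
    (by omega) (by
      intro x y
      obtain ⟨n, hn⟩ := conj_roots ham hai x.2 y.2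
      refine ⟨n, Subtype.ext (he ?_)⟩
      rw [Equiv.Perm.subtypePerm_pow, Equiv.Perm.subtypePerm_apply, hpow, hn])
  rw [sign_split π (fun x => aeval (e x) a = 0) hinv hinv', Units.val_mul, hA, hB, hca', hdeg, hab,
    hsq.1.moebius_mul, hai.moebius_eq]
  ring

end FrobS

/-- sign of the Frobenius permutation of the roots of a squarefree polynomial -/
theorem frob_sign {k : Type} [Field k] [Finite k] [Algebra F k] {f : F[X]} (hm : f.Monic)
    (hf : Squarefree f) {α : Type} [Fintype α] [DecidableEq α]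
    (hn : Fintype.card α = f.natDegree) (e : α → k) (he : Function.Injective e)
    (hr : ∀ x, aeval (e x) f = 0) (π : Equiv.Perm α)
    (hπ : ∀ x, e (π x) = e x ^ Fintype.card F) :
    (((Equiv.Perm.sign π : ℤˣ) : ℤ) : ℝ) = (-1) ^ f.natDegree * mu f := by
  rw [FrobS.main f.natDegree hm hf rfl hn e he hr π hπ, mu]
  push_cast
  ring

end Pool.Agent.VDW

namespace Pool.Agent.VDW

open Polynomial Finset
open scoped BigOperators

variable {F : Type} [Field F] [Fintype F] [DecidableEq F]

omit [DecidableEq F] in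
/-- a root of an irreducible polynomial is fixed by the `n`-th Frobenius power exactly when the
degree divides `n` -/
lemma frobC_fixed_iff {k : Type} [Field k] [Algebra F k] {g : F[X]} (hg : Irreducible g)
    {y : k} (hy : aeval y g = 0) (n : ℕ) :
    y ^ (Fintype.card F ^ n) = y ↔ g.natDegree ∣ n := by
  rw [hg.natDegree_dvd_iff_dvd_X_pow_card_pow_sub_X, Nat.card_eq_fintype_card]
  constructor
  · intro h
    have h0 : aeval y (X ^ Fintype.card F ^ n - X : F[X]) = 0 := by simp [h]
    by_contra hnd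
    have hc : IsCoprime g (X ^ Fintype.card F ^ n - X : F[X]) :=
      (hg.coprime_iff_not_dvd).2 hnd
    obtain ⟨u, v, huv⟩ := hc
    have := congrArg (aeval y) huv
    rw [map_add, map_mul, map_mul, hy, h0] at this
    simp at this
  · rintro ⟨c, hc⟩
    have := congrArg (aeval y) hc
    rw [map_mul, hy, zero_mul] at this
    simpa [sub_eq_zero] using this

omit [DecidableEq F] in
lemma frobC_pow {k : Type} [Field k] {α : Type} (e : α → k) (π : Equiv.Perm α)
    (hπ : ∀ x, e (π x) = e x ^ Fintype.card F) (n : ℕ) (x : α) :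
    e ((π ^ n) x) = e x ^ (Fintype.card F ^ n) := by
  induction n with
  | zero => simp
  | succ n ih =>
    rw [pow_succ', Equiv.Perm.mul_apply, hπ, ih, ← pow_mul, pow_succ]

/-- a large irreducible factor of prime degree gives a cycle -/
theorem frob_cycle {k : Type} [Field k] [Finite k] [Algebra F k] {f a : F[X]} (hm : f.Monic)
    {α : Type} [Fintype α] [DecidableEq α]
    (hn : Fintype.card α = f.natDegree) (e : α → k) (he : Function.Injective e)
    (hr : ∀ x, aeval (e x) f = 0) (π : Equiv.Perm α)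
    (hπ : ∀ x, e (π x) = e x ^ Fintype.card F)
    (ha : Irreducible a) (haf : a ∣ f) (hp : a.natDegree.Prime)
    (h2 : f.natDegree < 2 * a.natDegree) :
    ∃ N : ℕ, (π ^ N).IsCycle ∧ (π ^ N).support.card = a.natDegree := by
  classical
  obtain ⟨b, hb⟩ := haf
  have hf0 : f ≠ 0 := hm.ne_zero
  have hb0 : b ≠ 0 := by
    rintro rfl
    exact hf0 (by simpa using hb)
  have hdeg : f.natDegree = a.natDegree + b.natDegree := by
    rw [hb, natDegree_mul ha.ne_zero hb0]
  have hlt : b.natDegree < a.natDegree := by omega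
  have hfix : ∀ (g : F[X]), Irreducible g → ∀ x, aeval (e x) g = 0 → ∀ n,
      ((π ^ n) x = x ↔ g.natDegree ∣ n) := by
    intro g hg x hx n
    rw [← frobC_fixed_iff hg hx n, ← frobC_pow e π hπ n x]
    exact ⟨fun h => by rw [h], fun h => he h⟩
  -- points that are not roots of `a` are fixed by the factorial power
  have hoff : ∀ x, aeval (e x) a ≠ 0 → (π ^ b.natDegree.factorial) x = x := by
    intro x hx
    have hbx : aeval (e x) b = 0 := by
      have := hr x
      rw [hb, map_mul] at this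
      exact (mul_eq_zero.1 this).resolve_left hx
    have hint : IsIntegral F (e x) := ⟨f, hm, by simpa [aeval_def] using hr x⟩
    have hirr := minpoly.irreducible hint
    rw [hfix _ hirr x (minpoly.aeval F (e x))]
    exact Nat.dvd_factorial (minpoly.natDegree_pos hint)
      (natDegree_le_of_dvd (minpoly.dvd F (e x) hbx) hb0)
  -- there is a root of `a`
  have hex : ∃ x, aeval (e x) a = 0 := by
    by_contra hno
    push Not at hno
    have hsub : (Finset.univ.image e) ⊆ (b.aroots k).toFinset := by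
      intro y hy
      obtain ⟨x, -, rfl⟩ := Finset.mem_image.1 hy
      have hbx : aeval (e x) b = 0 := by
        have := hr x
        rw [hb, map_mul] at this
        exact (mul_eq_zero.1 this).resolve_left (hno x)
      rw [Multiset.mem_toFinset, mem_aroots]
      exact ⟨hb0, hbx⟩
    have h1 := Finset.card_le_card hsub
    rw [Finset.card_image_of_injective _ he, Finset.card_univ] at h1
    have h3 : (b.aroots k).toFinset.card ≤ b.natDegree :=
      (Multiset.toFinset_card_le _).trans
        ((card_roots' _).trans (natDegree_map_le))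
    have := hp.pos
    omega
  obtain ⟨x0, hx0⟩ := hex
  have hne : π ^ b.natDegree.factorial ≠ 1 := by
    intro h
    have h1 : (π ^ b.natDegree.factorial) x0 = x0 := by rw [h]; rfl
    rw [hfix a ha x0 hx0, hp.dvd_factorial] at h1
    omega
  have hpow : (π ^ b.natDegree.factorial) ^ a.natDegree = 1 := by
    ext x
    by_cases hx : aeval (e x) a = 0
    · rw [← pow_mul, Equiv.Perm.one_apply, hfix a ha x hx]
      exact Dvd.intro_left _ rfl
    · rw [Equiv.Perm.one_apply]
      exact Equiv.Perm.pow_apply_eq_self_of_apply_eq_self (hoff x hx) _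
  haveI : Fact a.natDegree.Prime := ⟨hp⟩
  have hord : orderOf (π ^ b.natDegree.factorial) = a.natDegree := orderOf_eq_prime hpow hne
  have hcyc : (π ^ b.natDegree.factorial).IsCycle :=
    Equiv.Perm.isCycle_of_prime_order' (by rw [hord]; exact hp) (by rw [hord, hn]; exact h2)
  exact ⟨_, hcyc, by rw [← hcyc.orderOf, hord]⟩

end Pool.Agent.VDW

namespace Pool.Agent.VDW

open Polynomial Finset
open scoped BigOperators

private lemma ded_degree_lt {R : Type} [CommRing R] [Nontrivial R] {n : ℕ} (v : Fin n → R) :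
    (∑ i : Fin n, C (v i) * X ^ (i : ℕ)).degree < (X ^ n : R[X]).degree := by
  rw [degree_X_pow]
  exact degree_sum_fin_lt v

private lemma ded_monic {R : Type} [CommRing R] [Nontrivial R] {n : ℕ} (v : Fin n → R) :
    (mon v).Monic := (monic_X_pow n).add_of_left (ded_degree_lt v)

private lemma ded_natDegree {R : Type} [CommRing R] [Nontrivial R] {n : ℕ} (v : Fin n → R) :
    (mon v).natDegree = n := by
  unfold mon
  rw [natDegree_eq_of_degree_eq (degree_add_eq_left_of_degree_lt (ded_degree_lt v)),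
    natDegree_X_pow]

private lemma ded_map (R : Type) [CommRing R] {n : ℕ} (a : Fin n → ℤ) :
    (mon a).map (Int.castRingHom R) = mon (red R a) := by
  unfold mon red
  rw [Polynomial.map_add, Polynomial.map_pow, map_X, Polynomial.map_sum]
  congr 1
  refine Finset.sum_congr rfl fun i _ => ?_
  rw [Polynomial.map_mul, Polynomial.map_pow, map_X, map_C]
  rfl

private lemma ded_prod {K : Type} [Field K] {n : ℕ} (f : K[X]) (hf : f.Monic)
    (hn : f.natDegree = n) (r : Fin n → K) (hr : Function.Injective r)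
    (h0 : ∀ i, f.IsRoot (r i)) : f = ∏ i, (X - C (r i)) := by
  have hd : (∏ i, (X - C (r i))) ∣ f :=
    Finset.prod_dvd_of_coprime
      (fun i _ j _ hij => pairwise_coprime_X_sub_C hr hij)
      (fun i _ => dvd_iff_isRoot.2 (h0 i))
  have hm : (∏ i, (X - C (r i))).Monic := monic_prod_of_monic _ _ fun i _ => monic_X_sub_C _
  refine eq_of_monic_of_dvd_of_natDegree_le hm hf hd ?_
  rw [natDegree_prod_of_monic _ _ fun i _ => monic_X_sub_C _, hn]
  simp

open NumberField in
private lemma ded_frob {K : Type} [Field K] [NumberField K] [IsGalois ℚ K] {n : ℕ}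
    (f : ℤ[X]) (hf : f.Monic) (hn : f.natDegree = n) (r : Fin n → K)
    (hr : Function.Injective r) (h0 : ∀ i, aeval (r i) f = 0) (p : ℕ) [hp : Fact p.Prime]
    (hsq : Squarefree (f.map (Int.castRingHom (ZMod p)))) :
    ∃ τ : K ≃ₐ[ℚ] K, ∃ (k : Type) (_ : Field k) (_ : Finite k) (_ : Algebra (ZMod p) k)
      (e : Fin n → k), Function.Injective e ∧
        (∀ x, aeval (e x) (f.map (Int.castRingHom (ZMod p))) = 0) ∧
        ∀ x y, τ (r x) = r y → e y = e x ^ p := by
  classical
  have hint : ∀ i, IsIntegral ℤ (r i) := fun i => ⟨f, hf, by rw [← aeval_def]; exact h0 i⟩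
  let ρ : Fin n → 𝓞 K := fun i => ⟨r i, hint i⟩
  have hK : f.map (algebraMap ℤ K) = ∏ i, (X - C (r i)) := by
    refine ded_prod _ (hf.map _) (by rw [hf.natDegree_map, hn]) r hr fun i => ?_
    rw [IsRoot.def, eval_map_algebraMap]
    exact h0 i
  have hO : f.map (algebraMap ℤ (𝓞 K)) = ∏ i, (X - C (ρ i)) := by
    apply Polynomial.map_injective (algebraMap (𝓞 K) K) (RingOfIntegers.coe_injective)
    rw [Polynomial.map_map, ← IsScalarTower.algebraMap_eq, hK, Polynomial.map_prod]
    refine Finset.prod_congr rfl fun i _ => ?_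
    rw [Polynomial.map_sub, map_X, map_C]
    rfl
  have hpZ : Prime (p : ℤ) := Nat.prime_iff_prime_int.mp hp.out
  have hPmax : (Ideal.span {(p : ℤ)}).IsMaximal :=
    ((Ideal.span_singleton_prime hpZ.ne_zero).2 hpZ).isMaximal
      (by rw [Ne, Ideal.span_singleton_eq_bot]; exact hpZ.ne_zero)
  obtain ⟨Q, hQmax, hQ⟩ := Ideal.exists_ideal_over_maximal_of_isIntegral
    (S := 𝓞 K) (Ideal.span {(p : ℤ)})
    (by
      rw [(RingHom.injective_iff_ker_eq_bot _).1 (algebraMap ℤ (𝓞 K)).injective_int]
      exact bot_le)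
  have hpQ : (p : 𝓞 K) ∈ Q := by
    have h1 : (p : ℤ) ∈ Q.comap (algebraMap ℤ (𝓞 K)) := by
      rw [hQ]; exact Ideal.mem_span_singleton_self _
    simpa using h1
  have hQne : Q ≠ ⊥ := by
    intro h
    rw [h, Ideal.mem_bot] at hpQ
    exact hp.out.ne_zero (by exact_mod_cast hpQ)
  haveI : Finite (𝓞 K ⧸ Q) := Ideal.finiteQuotientOfFreeOfNeBot Q hQne
  letI : Field (𝓞 K ⧸ Q) := Ideal.Quotient.field Q
  haveI : CharP (𝓞 K ⧸ Q) p := by
    refine (CharP.charP_iff_prime_eq_zero hp.out).2 ?_
    rw [← map_natCast (Ideal.Quotient.mk Q)]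
    exact Ideal.Quotient.eq_zero_iff_mem.2 hpQ
  letI : Algebra (ZMod p) (𝓞 K ⧸ Q) := ZMod.algebra _ p
  obtain ⟨τ, hτ⟩ := IsArithFrobAt.exists_of_isInvariant ℤ (K ≃ₐ[ℚ] K) Q
  have hcard : Nat.card (ℤ ⧸ Q.under ℤ) = p := by
    have h1 : Q.under ℤ = Ideal.span {(p : ℤ)} := hQ
    rw [h1, Nat.card_congr (Int.quotientSpanNatEquivZMod p).toEquiv, Nat.card_zmod]
  have hk : (f.map (Int.castRingHom (ZMod p))).map (algebraMap (ZMod p) (𝓞 K ⧸ Q))
      = ∏ i, (X - C (Ideal.Quotient.mk Q (ρ i))) := by
    have h1 : (algebraMap (ZMod p) (𝓞 K ⧸ Q)).comp (Int.castRingHom (ZMod p))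
        = (Ideal.Quotient.mk Q).comp (algebraMap ℤ (𝓞 K)) := RingHom.ext_int _ _
    rw [Polynomial.map_map, h1, ← Polynomial.map_map, hO, Polynomial.map_prod]
    refine Finset.prod_congr rfl fun i _ => ?_
    rw [Polynomial.map_sub, map_X, map_C]
  refine ⟨τ, 𝓞 K ⧸ Q, inferInstance, inferInstance, inferInstance,
    fun i => Ideal.Quotient.mk Q (ρ i), ?_, ?_, ?_⟩
  · have h1 := (PerfectField.separable_iff_squarefree.2 hsq).map
      (f := algebraMap (ZMod p) (𝓞 K ⧸ Q))
    rw [hk] at h1
    exact separable_prod_X_sub_C_iff.1 h1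
  · intro x
    rw [← eval_map_algebraMap, hk, eval_prod]
    exact Finset.prod_eq_zero (Finset.mem_univ x) (by simp)
  · intro x y hxy
    have h1 := AlgHom.IsArithFrobAt.mk_apply hτ (ρ x)
    rw [hcard] at h1
    have h2 : MulSemiringAction.toAlgHom ℤ (𝓞 K) τ (ρ x) = ρ y := by
      apply RingOfIntegers.coe_injective
      exact hxy
    rw [h2] at h1
    exact h1

private lemma ded_frob' {K : Type} [Field K] [CharZero K] [inst : Algebra ℚ K]
    [FiniteDimensional ℚ K] [IsGalois ℚ K] {n : ℕ}
    (f : ℤ[X]) (hf : f.Monic) (hn : f.natDegree = n) (r : Fin n → K)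
    (hr : Function.Injective r) (h0 : ∀ i, aeval (r i) (f.map (Int.castRingHom ℚ)) = 0)
    (p : ℕ) [hp : Fact p.Prime]
    (hsq : Squarefree (f.map (Int.castRingHom (ZMod p)))) :
    ∃ τ : K ≃ₐ[ℚ] K, ∃ (k : Type) (_ : Field k) (_ : Finite k) (_ : Algebra (ZMod p) k)
      (e : Fin n → k), Function.Injective e ∧
        (∀ x, aeval (e x) (f.map (Int.castRingHom (ZMod p))) = 0) ∧
        ∀ x y, τ (r x) = r y → e y = e x ^ p := by
  obtain rfl : inst = DivisionRing.toRatAlgebra := Subsingleton.elim _ _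
  haveI : NumberField K := ⟨⟩
  refine ded_frob f hf hn r hr (fun i => ?_) p hsq
  have h1 := h0 i
  rw [← algebraMap_int_eq, aeval_map_algebraMap] at h1
  exact h1

private lemma ded_perm {F : Type} [Field F] {n : ℕ} (f : F[X]) (hirr : Irreducible f)
    (hsep : f.Separable) (hdeg : f.natDegree = n) :
    ∃ (r : Fin n → f.SplittingField) (φ : f.Gal →* Equiv.Perm (Fin n)),
      Function.Injective r ∧ (∀ i, aeval (r i) f = 0) ∧ Function.Injective φ ∧
      (∀ (g : f.Gal) (i : Fin n), r (φ g i) = g (r i)) ∧ (∀ x y, ∃ g, φ g x = y) ∧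
      IsGalois F f.SplittingField ∧ FiniteDimensional F f.SplittingField := by
  classical
  have hcard : Fintype.card (f.rootSet f.SplittingField) = n := by
    rw [card_rootSet_eq_natDegree hsep (SplittingField.splits f), hdeg]
  let ε : f.rootSet f.SplittingField ≃ Fin n := Fintype.equivFinOfCardEq hcard
  let r : Fin n → f.SplittingField := fun i => (ε.symm i).1
  have hr : Function.Injective r := fun i j h => ε.symm.injective (Subtype.ext h)
  let φ0 : f.Gal →* Equiv.Perm (f.rootSet f.SplittingField) :=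
    @MulAction.toPermHom _ _ _ (Gal.galActionAux f)
  have hφ0 : ∀ (g : f.Gal) (x : f.rootSet f.SplittingField), (φ0 g x).1 = g x.1 :=
    fun g x => rfl
  let φ : f.Gal →* Equiv.Perm (Fin n) := (ε.permCongrHom.toMonoidHom).comp φ0
  have hφ : ∀ (g : f.Gal) (i : Fin n), r (φ g i) = g (r i) := by
    intro g i
    have h1 : φ g i = ε (φ0 g (ε.symm i)) := rfl
    simp only [r, h1, Equiv.symm_apply_apply, hφ0]
  have hinj : Function.Injective φ := by
    intro g h hgh
    refine Gal.ext f fun x hx => ?_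
    have h1 := hφ g (ε ⟨x, hx⟩)
    have h2 := hφ h (ε ⟨x, hx⟩)
    rw [hgh, h2] at h1
    simpa only [r, Equiv.symm_apply_apply] using h1.symm
  have hroot : ∀ i, aeval (r i) f = 0 := fun i => (mem_rootSet.mp (ε.symm i).2).2
  refine ⟨r, φ, hr, hroot, hinj, hφ, fun x y => ?_,
    IsGalois.of_separable_splitting_field hsep, inferInstance⟩
  have hx := minpoly.eq_of_irreducible hirr (hroot x)
  have hy := minpoly.eq_of_irreducible hirr (hroot y)
  obtain ⟨g, hg⟩ := (Normal.minpoly_eq_iff_mem_orbit f.SplittingField).mp (hy.symm.trans hx)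
  exact ⟨g, hr ((hφ g x).trans hg)⟩

private lemma ded_main {n : ℕ} (f0 : ℤ[X]) (hm : f0.Monic) (hn : f0.natDegree = n)
    (hirr : Irreducible (f0.map (Int.castRingHom ℚ))) :
    ∃ G : Subgroup (Equiv.Perm (Fin n)), Nonempty ((f0.map (Int.castRingHom ℚ)).Gal ≃* G) ∧
      MulAction.IsPretransitive G (Fin n) ∧
      ∀ (p : ℕ) [Fact p.Prime], Squarefree (f0.map (Int.castRingHom (ZMod p))) →
        ∃ σ ∈ G, ∃ (k : Type) (_ : Field k) (_ : Finite k) (_ : Algebra (ZMod p) k)
          (e : Fin n → k), Function.Injective e ∧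
            (∀ x, aeval (e x) (f0.map (Int.castRingHom (ZMod p))) = 0) ∧
            ∀ x, e (σ x) = e x ^ p := by
  obtain ⟨r, φ, hr, hroot, hinj, hφ, htr, hgal, hfd⟩ :=
    ded_perm (n := n) _ hirr hirr.separable (by rw [hm.natDegree_map, hn])
  refine ⟨φ.range, ⟨MonoidHom.ofInjective hinj⟩, ⟨fun x y => ?_⟩, ?_⟩
  · obtain ⟨g, hg⟩ := htr x y
    exact ⟨⟨φ g, g, rfl⟩, hg⟩
  · intro p _ hsq
    obtain ⟨τ, k, i1, i2, i3, e, he, he0, heτ⟩ :=
      @ded_frob' _ _ _ (_) hfd hgal n f0 hm hn r hr hroot p _ hsq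
    exact ⟨φ τ, ⟨τ, rfl⟩, k, i1, i2, i3, e, he, he0, fun x => heτ x _ (hφ τ x).symm⟩

/-- Dedekind: the Galois group as a transitive permutation group with its Frobenius elements -/
theorem ded {n : ℕ} (a : Fin n → ℤ) (hirr : Irreducible (mon (red ℚ a))) :
    ∃ G : Subgroup (Equiv.Perm (Fin n)), Nonempty ((mon (red ℚ a)).Gal ≃* G) ∧
      MulAction.IsPretransitive G (Fin n) ∧
      ∀ (p : ℕ) [Fact p.Prime], Squarefree (mon (red (ZMod p) a)) →
        ∃ σ ∈ G, ∃ (k : Type) (_ : Field k) (_ : Finite k) (_ : Algebra (ZMod p) k)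
          (e : Fin n → k), Function.Injective e ∧
            (∀ x, aeval (e x) (mon (red (ZMod p) a)) = 0) ∧ ∀ x, e (σ x) = e x ^ p := by
  rw [← ded_map ℚ a] at hirr ⊢
  obtain ⟨G, h1, h2, h3⟩ := ded_main (mon a) (ded_monic a) (ded_natDegree a) hirr
  refine ⟨G, h1, h2, fun p _ hsq => ?_⟩
  rw [← ded_map] at hsq ⊢
  exact h3 p hsq

end Pool.Agent.VDW

namespace Pool.Agent.VDW

open Polynomial Finset
open scoped BigOperators

lemma disc_coeff {R : Type} [CommRing R] {n : ℕ} (v : Fin n → R) (k : ℕ) :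
    (mon v).coeff k = if h : k < n then v ⟨k, h⟩ else if k = n then 1 else 0 := by
  simp only [mon, coeff_add, coeff_X_pow, finsetSum_coeff, coeff_C_mul]
  by_cases h : k < n
  · rw [dif_pos h, if_neg h.ne, zero_add, sum_eq_single (⟨k, h⟩ : Fin n)] <;>
      simp +contextual [Fin.ext_iff, eq_comm]
  · rw [dif_neg h, sum_eq_zero fun i _ => by rw [if_neg (by omega), mul_zero], add_zero]

lemma disc_natDegree_le {R : Type} [CommRing R] {n : ℕ} (v : Fin n → R) :
    (mon v).natDegree ≤ n :=
  natDegree_le_iff_coeff_eq_zero.2 fun k hk => by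
    rw [disc_coeff, dif_neg (by omega), if_neg (by omega)]

lemma disc_map (R : Type) [CommRing R] {n : ℕ} (a : Fin n → ℤ) :
    (mon a).map (Int.castRingHom R) = mon (red R a) := by
  simp [mon, red, Polynomial.map_sum]

lemma disc_res (R : Type) [CommRing R] {n : ℕ} (a : Fin n → ℤ) :
    ((resultant (mon a) (derivative (mon a)) n n : ℤ) : R) =
      resultant (mon (red R a)) (derivative (mon (red R a))) n n := by
  rw [← disc_map, derivative_map, resultant_map_map]; rfl

/-- the discriminant: nonzero, bounded, and divisible by all inseparable primes -/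
theorem disc (n : ℕ) : ∃ A : ℝ, 1 ≤ A ∧ ∀ H : ℝ, 1 ≤ H → ∀ a : Fin n → ℤ, (∀ i, |(a i : ℝ)| ≤ H) →
    Irreducible (mon (red ℚ a)) → ∃ D : ℤ, D ≠ 0 ∧ |(D : ℝ)| ≤ A * H ^ (2 * n) ∧
      ∀ (p : ℕ) [Fact p.Prime], ¬ (p : ℤ) ∣ D → Squarefree (mon (red (ZMod p) a)) := by
  have n0 : (0 : ℝ) ≤ n := n.cast_nonneg
  refine ⟨(n + n).factorial * (n + 1) ^ (2 * n), one_le_mul_of_one_le_of_one_le
    (by exact_mod_cast (n + n).factorial_pos) (one_le_pow₀ (by linarith)), fun H hH a ha hirr =>
    ⟨resultant (mon a) (derivative (mon a)) n n, fun h0 => ?_, ?_, fun p _ hp => ?_⟩⟩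
  · have c1 : (mon (red ℚ a)).coeff n = 1 := by simp [disc_coeff]
    have d1 : (mon (red ℚ a)).natDegree = n :=
      natDegree_eq_of_le_of_coeff_ne_zero (disc_natDegree_le _) (by simp [c1])
    obtain ⟨k, hk⟩ := Nat.exists_eq_add_of_le
      (((natDegree_derivative_le (mon (red ℚ a))).trans (Nat.sub_le _ _)).trans d1.le)
    have e := resultant_add_right_deg (mon (red ℚ a)) (derivative (mon (red ℚ a))) n _ k le_rfl
    rw [← hk, ← disc_res, h0, c1, one_pow, one_mul] at e
    have := resultant_ne_zero _ _ ((separable_def _).1 hirr.separable)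
    rw [d1, ← e] at this
    simp at this
  · have b1 : ∀ k, |(mon (red ℝ a)).coeff k| ≤ H := fun k => by
      rw [disc_coeff]
      split_ifs
      exacts [ha _, by simpa using hH, by simpa using zero_le_one.trans hH]
    have b2 : ∀ k, |(mon (red ℝ a)).coeff k| ≤ (n + 1) * H := fun k => by nlinarith [b1 k]
    have b3 : ∀ k, |(derivative (mon (red ℝ a))).coeff k| ≤ (n + 1) * H := fun k => by
      rw [coeff_derivative, abs_mul]
      by_cases hk : k ≤ n
      · have : (k : ℝ) ≤ n := by exact_mod_cast hk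
        rw [mul_comm, abs_of_nonneg (by positivity : (0 : ℝ) ≤ k + 1)]
        exact mul_le_mul (by linarith) (b1 _) (abs_nonneg _) (by linarith)
      · rw [disc_coeff, dif_neg (by omega), if_neg (by omega), abs_zero, zero_mul]
        positivity
    have := Matrix.det_le (A := sylvester (mon (red ℝ a)) (derivative (mon (red ℝ a))) n n)
      (abv := AbsoluteValue.abs) (x := (n + 1) * H) fun i j => by
        induction j using Fin.addCases <;>
          simp only [sylvester, Matrix.of_apply, Fin.addCases_left, Fin.addCases_right,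
            AbsoluteValue.abs_apply] <;> split_ifs
        exacts [b3 _, by rw [abs_zero]; positivity, b2 _, by rw [abs_zero]; positivity]
    rw [disc_res, mul_assoc, ← mul_pow, two_mul]
    simpa [resultant] using this
  · have hn : n ≠ 0 := by
      rintro rfl
      exact hirr.ne_one (by simp [mon])
    obtain ⟨u, w, -, -, e⟩ := exists_mul_add_mul_eq_C_resultant (mon (red (ZMod p) a))
      (derivative (mon (red (ZMod p) a))) (disc_natDegree_le _)
      (((natDegree_derivative_le _).trans (Nat.sub_le _ _)).trans (disc_natDegree_le _))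
      (Or.inl hn)
    rw [← disc_res] at e
    have h0 := mt (ZMod.intCast_zmod_eq_zero_iff_dvd _ p).1 hp
    obtain ⟨d, hd⟩ := (Ne.isUnit h0).exists_left_inv
    refine Separable.squarefree ⟨C d * u, C d * w, ?_⟩
    rw [mul_assoc, mul_assoc, ← mul_add, mul_comm u, mul_comm w, e, ← C_mul, hd, C_1]

/-- few large primes divide a given integer -/
theorem pow_card_le (D : ℤ) (hD : D ≠ 0) (S : Finset Nat.Primes) (y : ℝ) (hy : 0 ≤ y)
    (hS : ∀ p ∈ S, y ≤ ((p : ℕ) : ℝ) ∧ ((p : ℕ) : ℤ) ∣ D) : y ^ S.card ≤ |(D : ℝ)| := by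
  have h1 : (∏ p ∈ S, ((p : ℕ) : ℤ)) ∣ D :=
    prod_dvd_of_coprime (fun p _ q _ h => Nat.isCoprime_iff_coprime.2
      ((Nat.coprime_primes p.2 q.2).2 fun e => h (Subtype.ext e))) fun p hp => (hS p hp).2
  have h2 : ((∏ p ∈ S, ((p : ℕ) : ℤ) : ℤ) : ℝ) ≤ ((|D| : ℤ) : ℝ) :=
    Int.cast_le.2 (Int.le_of_dvd (abs_pos.2 hD) ((dvd_abs _ _).2 h1))
  push_cast at h2
  refine le_trans ?_ h2
  rw [← prod_const]
  exact prod_le_prod (fun _ _ => hy) fun p hp => (hS p hp).1

end Pool.Agent.VDW
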