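import Pool.Agent.P.MP_b0ea37_nt.Base

namespace Pool.Agent.VDW

open Polynomial Finset
open scoped BigOperators

variable {F : Type} [Field F] [Fintype F] [DecidableEq F]

theorem equi {B c : F[X]} (hB : B ≠ 0) (hc : c ≠ 0) (hcop : IsCoprime c B) {i k : ℕ}
    (hi : B.natDegree + k ≤ i) (g : F[X] → ℝ)
    (hg : ∀ w ∈ V F (c.natDegree + i), ∀ y ∈ V F (c.natDegree + i - k), B ∣ y → g (w + y) = g w) :
    𝔼 w ∈ V F (c.natDegree + i), g w = 𝔼 u ∈ V F i, g (c * u) := by
  have key : ∀ w ∈ V F (c.natDegree + i), ∃ u ∈ V F i, ∃ y ∈ V F (c.natDegree + i - k),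
      B ∣ y ∧ w = c * u + y := fun w hw => by
    obtain ⟨a, b, hab⟩ := hcop
    have h1 : w * b % c ∈ V F c.natDegree :=
      mem_V.2 (by rw [← degree_eq_natDegree hc]; exact degree_mod_lt _ hc)
    have h2 : B * (w * b % c) ∈ V F (c.natDegree + i - k) :=
      V_mono (by omega) (mul_mem_V le_rfl h1)
    have e : w = c * (a * w + B * (w * b / c)) + B * (w * b % c) := by
      linear_combination (-B) * EuclideanDomain.div_add_mod (w * b) c - w * hab
    refine ⟨_, ?_, _, h2, dvd_mul_right _ _, e⟩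
    have h3 := V_sub hw (V_mono (Nat.sub_le _ _) h2)
    rw [sub_eq_of_eq_add e] at h3
    generalize a * w + B * (w * b / c) = u at h3
    by_cases hu : u = 0
    · exact mem_V_iff.2 (Or.inl hu)
    · have := (mem_V_iff.1 h3).resolve_left (mul_ne_zero hc hu)
      rw [natDegree_mul hc hu] at this
      exact mem_V_iff.2 (Or.inr (by omega))
  calc _ = 𝔼 u ∈ V F i, 𝔼 w ∈ V F (c.natDegree + i), g (w + c * u) := by
        rw [expect_congr rfl fun u hu => expect_V_add (mul_mem_V le_rfl hu) g,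
          expect_const (V_nonempty _)]
    _ = 𝔼 _w ∈ V F (c.natDegree + i), 𝔼 u ∈ V F i, g (c * u) := by
        rw [expect_comm]
        refine expect_congr rfl fun w hw => ?_
        obtain ⟨u0, h0, y, hy, hBy, rfl⟩ := key w hw
        rw [← expect_V_add h0 fun u => g (c * u)]
        refine expect_congr rfl fun u hu => ?_
        rw [← hg _ (mul_mem_V le_rfl (V_add hu h0)) y hy hBy]
        exact congrArg g (by ring)
    _ = _ := expect_const (V_nonempty _) _

theorem equi_M {B c : F[X]} (hB : B ≠ 0) {d i k : ℕ} (hc : c ∈ M F d) (hcop : IsCoprime c B)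
    (hi : B.natDegree + k ≤ i) (g : F[X] → ℝ) (hg : Per B k (d + i) g) :
    𝔼 b ∈ M F (d + i), g b = 𝔼 a ∈ M F i, g (c * a) := by
  have hb := M_mul_M hc (X_pow_mem_M i)
  obtain ⟨c1, rfl⟩ := mem_M.1 hc
  rw [expect_M_base hb, expect_M_base (X_pow_mem_M i),
    equi hB c1.ne_zero hcop hi (fun w => g (c * X ^ i + w)) fun w hw y hy hBy => by
      rw [← add_assoc, hg _ (M_add_V hb hw) y hy hBy]]
  simp only [mul_add]

/-- few translates of `B` meet `B` -/
theorem card_not_coprime {B : F[X]} (hB : B ≠ 0) (x : F) :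
    𝔼 y : F, ind (¬ IsCoprime (taylor y B) (taylor x B)) ≤ (B.natDegree : ℝ) ^ 2 / Q F := by
  classical
  have q0 := Q_pos (F := F)
  set K := AlgebraicClosure F
  set R := (B.aroots K).toFinset with hR
  have hc : R.card ≤ B.natDegree :=
    (Multiset.toFinset_card_le _).trans ((card_roots' _).trans natDegree_map_le)
  have root : ∀ (t : F) (z : K), aeval z (taylor t B) = 0 → z + algebraMap F K t ∈ R :=
    fun t z h => by
      rw [hR, Multiset.mem_toFinset, mem_aroots]
      exact ⟨hB, by simpa [taylor_apply, aeval_comp] using h⟩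
  have h1 : (univ.filter fun y : F => ¬ IsCoprime (taylor y B) (taylor x B)).card ≤
      ((R ×ˢ R).image fun p => p.1 - p.2 + algebraMap F K x).card := by
    refine card_le_card_of_injOn (algebraMap F K) (fun y hy => ?_) (algebraMap F K).injective.injOn
    have h2 := (mem_filter.1 (mem_coe.1 hy)).2
    rw [isCoprime_iff_aeval_ne_zero_of_isAlgClosed F K] at h2
    push Not at h2
    obtain ⟨z, h3, h4⟩ := h2
    exact mem_coe.2 (mem_image.2 ⟨(_, _), mem_product.2 ⟨root y z h3, root x z h4⟩, by ring⟩)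
  have h5 := h1.trans (card_image_le.trans ((card_product R R).le.trans (Nat.mul_le_mul hc hc)))
  rw [expect_ind, card_univ, sq]
  gcongr
  exact_mod_cast h5

end Pool.Agent.VDW

namespace Pool.Agent.VDW

open Polynomial Finset
open scoped BigOperators

variable {F : Type} [Field F] [Fintype F] [DecidableEq F]

theorem mu_one : mu (1 : F[X]) = 1 := by
  unfold mu
  rw [UniqueFactorizationMonoid.moebius_one]; simp

theorem mubase_irr_mul {P : F[X]} (hP : Irreducible P) {c : F[X]} (h : ¬ P ∣ c) :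
    mu (P * c) = - mu c := by
  unfold mu
  rw [(hP.isRelPrime_iff_not_dvd.2 h).moebius_mul, hP.moebius_eq]
  push_cast; ring

theorem mubase_irr_mul_of_dvd {P : F[X]} (hP : Irreducible P) {c : F[X]} (h : P ∣ c) :
    mu (P * c) = 0 := by
  unfold mu
  rw [UniqueFactorizationMonoid.moebius_of_not_squarefree]
  · simp
  · intro hs
    exact hP.not_isUnit (hs P (mul_dvd_mul_left P h))

theorem mu_mulEquiv (e : F[X] ≃* F[X]) (b : F[X]) : mu (e b) = mu b := by
  induction b using UniqueFactorizationMonoid.induction_on_prime with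
  | h₁ => rw [map_zero]
  | h₂ x hx =>
    unfold mu
    rw [hx.moebius_eq, (hx.map e).moebius_eq]
  | h₃ a p _ hp ih =>
    have hp1 : Irreducible p := hp.irreducible
    have hp2 : Irreducible (e p) := (MulEquiv.irreducible_iff e).2 hp1
    have hiff : e p ∣ e a ↔ p ∣ a := by
      constructor
      · rintro ⟨c, hc⟩
        refine ⟨e.symm c, e.injective ?_⟩
        rw [e.map_mul, e.apply_symm_apply, hc]
      · rintro ⟨c, rfl⟩
        exact ⟨e c, e.map_mul p c⟩
    rw [e.map_mul]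
    by_cases hd : p ∣ a
    · rw [mubase_irr_mul_of_dvd hp1 hd, mubase_irr_mul_of_dvd hp2 (hiff.2 hd)]
    · rw [mubase_irr_mul hp1 hd, mubase_irr_mul hp2 (fun h => hd (hiff.1 h)), ih]

theorem mu_C_mul {c : F} (hc : c ≠ 0) (b : F[X]) : mu (C c * b) = mu b := by
  unfold mu
  rw [(associated_unit_mul_left b (C c) (isUnit_C.2 (IsUnit.mk0 c hc))).moebius_eq]

theorem mu_irr_mul {P : F[X]} (hP : Irreducible P) {c : F[X]} (h : ¬ P ∣ c) :
    mu (P * c) = - mu c := mubase_irr_mul hP h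

theorem mu_irr_mul_of_dvd {P : F[X]} (hP : Irreducible P) {c : F[X]} (h : P ∣ c) :
    mu (P * c) = 0 := mubase_irr_mul_of_dvd hP h

/-- grouping pairs of monic polynomials by their product -/
theorem expect_conv (l m : ℕ) (u : F[X] → F[X] → ℝ) (G : F[X] → ℂ) :
    𝔼 f ∈ M F (l + m), ((∑ a ∈ M F l, ∑ b ∈ M F m, ind (a * b = f) * u a b : ℝ) : ℂ) * G f =
      𝔼 a ∈ M F l, 𝔼 b ∈ M F m, (u a b : ℂ) * G (a * b) := by
  have key : ∑ f ∈ M F (l + m),
      ((∑ a ∈ M F l, ∑ b ∈ M F m, ind (a * b = f) * u a b : ℝ) : ℂ) * G f =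
      ∑ a ∈ M F l, ∑ b ∈ M F m, (u a b : ℂ) * G (a * b) := by
    simp only [Complex.ofReal_sum, sum_mul]
    rw [sum_comm]
    refine sum_congr rfl fun a ha => ?_
    rw [sum_comm]
    refine sum_congr rfl fun b hb => ?_
    rw [sum_eq_single (a * b)]
    · rw [ind_pos rfl, one_mul]
    · intro f _ hf
      rw [ind_neg (fun h => hf h.symm)]; simp
    · intro h; exact absurd (M_mul_M ha hb) h
  simp only [expect_eq_sum_div_card]
  rw [key, ← sum_div, div_div, card_M, card_M, card_M, pow_add]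
  push_cast
  rw [mul_comm ((Fintype.card F : ℂ) ^ m)]

theorem mubase_conv_real (l m : ℕ) (u : F[X] → F[X] → ℝ) (G : F[X] → ℝ) :
    𝔼 a ∈ M F l, 𝔼 b ∈ M F m, u a b * G (a * b) =
      𝔼 f ∈ M F (l + m), (∑ a ∈ M F l, ∑ b ∈ M F m, ind (a * b = f) * u a b) * G f := by
  have h := expect_conv l m u (fun f => (G f : ℂ))
  apply Complex.ofReal_injective
  simp only [ofReal_expect, Complex.ofReal_mul]
  exact h.symm

theorem mubase_cofactor {l m : ℕ} {f b : F[X]} (hf : f ∈ M F (l + m)) (hb : b ∈ M F m) :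
    ∑ a ∈ M F l, ind (a * b = f) = ind (b ∣ f) := by
  obtain ⟨hf1, hf2⟩ := mem_M.1 hf
  obtain ⟨hb1, hb2⟩ := mem_M.1 hb
  by_cases hd : b ∣ f
  · obtain ⟨a, rfl⟩ := hd
    have ha : a.Monic := hb1.of_mul_monic_left hf1
    have hdeg : a.natDegree = l := by
      rw [hb1.natDegree_mul ha] at hf2; omega
    rw [ind_pos (dvd_mul_right b a), sum_eq_single a]
    · exact ind_pos (mul_comm a b)
    · intro a' _ hne
      refine ind_neg fun h => hne ?_
      rw [mul_comm b a] at h
      exact mul_right_cancel₀ hb1.ne_zero h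
    · intro h; exact absurd (mem_M.2 ⟨ha, hdeg⟩) h
  · rw [ind_neg hd]
    exact sum_eq_zero fun a _ => ind_neg fun h => hd (h ▸ dvd_mul_left b a)

theorem mubase_div_sum {i : ℕ} (hi : i ≠ 0) {f : F[X]} (hf : f ∈ M F i) :
    ∑ b ∈ (V F (i + 1)).filter (fun b => b.Monic), ind (b ∣ f) * mu b = 0 := by
  classical
  obtain ⟨hf1, hf2⟩ := mem_M.1 hf
  have hnu : ¬ IsUnit f := fun h => hi (hf2 ▸ natDegree_eq_zero_of_isUnit h)
  obtain ⟨P, hPm, hP, hPf⟩ := exists_monic_irreducible_factor f hnu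
  set D : Finset F[X] := ((V F (i + 1)).filter (fun b => b.Monic)).filter (fun b => b ∣ f) with hD
  have memD : ∀ b, b ∈ D ↔ b.Monic ∧ b ∣ f := by
    intro b
    simp only [hD, mem_filter]
    constructor
    · rintro ⟨⟨-, h1⟩, h2⟩; exact ⟨h1, h2⟩
    · rintro ⟨h1, h2⟩
      exact ⟨⟨mem_V_of_natDegree_le (hf2 ▸ natDegree_le_of_dvd h2 hf1.ne_zero), h1⟩, h2⟩
  have e1 : ∑ b ∈ (V F (i + 1)).filter (fun b => b.Monic), ind (b ∣ f) * mu b =
      ∑ b ∈ D, mu b := by
    rw [hD, sum_filter (fun b => b ∣ f)]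
    refine sum_congr rfl fun b _ => ?_
    rw [ind_eq_ite]; split_ifs <;> simp
  have e2 : ∑ b ∈ D.filter (fun b => P ∣ b), mu b =
      ∑ c ∈ D.filter (fun b => ¬ P ∣ b), mu (P * c) := by
    rw [← sum_image (s := D.filter (fun b => ¬ P ∣ b)) (g := fun c => P * c) (f := mu)
      (fun x _ y _ h => mul_left_cancel₀ hPm.ne_zero h)]
    symm
    refine sum_subset ?_ ?_
    · intro b hb
      obtain ⟨c, hc, rfl⟩ := mem_image.1 hb
      obtain ⟨hc1, hc2⟩ := mem_filter.1 hc
      obtain ⟨hc3, hc4⟩ := (memD c).1 hc1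
      refine mem_filter.2 ⟨(memD _).2 ⟨hPm.mul hc3, ?_⟩, dvd_mul_right P c⟩
      exact (hP.isRelPrime_iff_not_dvd.2 hc2).mul_dvd hPf hc4
    · intro b hb hnb
      obtain ⟨hb1, c, rfl⟩ := mem_filter.1 hb
      obtain ⟨hb3, hb4⟩ := (memD _).1 hb1
      by_cases hc : P ∣ c
      · exact mubase_irr_mul_of_dvd hP hc
      · exact absurd (mem_image.2 ⟨c, mem_filter.2 ⟨(memD c).2
          ⟨hPm.of_mul_monic_left hb3, (dvd_mul_left c P).trans hb4⟩, hc⟩, rfl⟩) hnb
  rw [e1, ← sum_filter_add_sum_filter_not D (fun b => P ∣ b), e2, ← sum_add_distrib]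
  refine sum_eq_zero fun c hc => ?_
  rw [mubase_irr_mul hP (mem_filter.1 hc).2]; ring

theorem mubase_anti (i : ℕ) (g : ℕ → ℝ) :
    ∑ p ∈ antidiagonal i, g p.2 = ∑ t ∈ range (i + 1), g t := by
  rw [← Finset.Nat.sum_antidiagonal_swap]
  exact Finset.Nat.sum_antidiagonal_eq_sum_range_succ (fun a _ => g a) i

theorem mubase_sum_deg (i : ℕ) (g : F[X] → ℝ) :
    ∑ p ∈ antidiagonal i, ∑ b ∈ M F p.2, g b =
      ∑ b ∈ (V F (i + 1)).filter (fun b => b.Monic), g b := by
  classical
  rw [mubase_anti i (fun a => ∑ b ∈ M F a, g b),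
    ← sum_fiberwise_of_maps_to (s := (V F (i + 1)).filter (fun b => b.Monic))
      (t := range (i + 1)) (g := fun b => b.natDegree)]
  · refine sum_congr rfl fun m hm => sum_congr ?_ fun _ _ => rfl
    ext b
    simp only [mem_M, mem_filter]
    constructor
    · rintro ⟨h1, h2⟩
      have := mem_range.1 hm
      exact ⟨⟨mem_V_of_natDegree_le (by omega), h1⟩, h2⟩
    · rintro ⟨⟨-, h1⟩, h2⟩; exact ⟨h1, h2⟩
  · intro b hb
    have := natDegree_le_of_mem_V (mem_filter.1 hb).1
    exact mem_range.2 (by omega)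

/-- the convolution of `1` and `mu` is the unit -/
theorem mu_conv (G : F[X] → ℝ) (i : ℕ) :
    ∑ p ∈ antidiagonal i, 𝔼 a ∈ M F p.1, 𝔼 b ∈ M F p.2, mu b * G (a * b) =
      if i = 0 then G 1 else 0 := by
  split_ifs with hi
  · subst hi
    simp [M_zero, mu_one]
  · have e : ∀ p ∈ antidiagonal i, 𝔼 a ∈ M F p.1, 𝔼 b ∈ M F p.2, mu b * G (a * b) =
        𝔼 f ∈ M F i, (∑ b ∈ M F p.2, ind (b ∣ f) * mu b) * G f := by
      intro p hp
      have hp' := mem_antidiagonal.1 hp
      rw [mubase_conv_real p.1 p.2 (fun _ b => mu b) G, hp']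
      refine expect_congr rfl fun f hf => ?_
      rw [sum_comm]
      refine congrArg (· * G f) (sum_congr rfl fun b hb => ?_)
      rw [← sum_mul, mubase_cofactor (hp' ▸ hf) hb]
    rw [sum_congr rfl e, ← expect_sum_comm]
    refine expect_eq_zero fun f hf => ?_
    rw [← sum_mul, mubase_sum_deg i (fun b => ind (b ∣ f) * mu b), mubase_div_sum hi hf, zero_mul]

theorem expect_mu {j : ℕ} (hj : 2 ≤ j) : 𝔼 b ∈ M F j, mu b = 0 := by
  have h : ∀ i : ℕ, i ≠ 0 → ∑ t ∈ range (i + 1), 𝔼 b ∈ M F t, mu b = 0 := by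
    intro i hi
    have h1 := mu_conv (F := F) (fun _ => 1) i
    rw [if_neg hi] at h1
    simp only [mul_one] at h1
    rw [sum_congr rfl fun p _ => expect_const (M_nonempty p.1) _] at h1
    rw [← h1, mubase_anti i (fun a => 𝔼 b ∈ M F a, mu b)]
  obtain ⟨k, rfl⟩ : ∃ k, j = k + 1 := ⟨j - 1, by omega⟩
  have h1 := h (k + 1) (by omega)
  rw [sum_range_succ, h k (by omega), zero_add] at h1
  exact h1

end Pool.Agent.VDW

namespace Pool.Agent.VDW

open Polynomial Finset
open scoped BigOperators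

variable {F : Type} [Field F] [Fintype F] [DecidableEq F]

lemma muA_taylor_M {j : ℕ} (x : F) {b : F[X]} (hb : b ∈ M F j) : taylor x b ∈ M F j := by
  rw [mem_M] at hb ⊢
  refine ⟨?_, by rw [natDegree_taylor, hb.2]⟩
  unfold Monic
  rw [leadingCoeff_taylor, hb.1.leadingCoeff]

lemma muA_taylor_V {j : ℕ} (x : F) {b : F[X]} (hb : b ∈ V F j) : taylor x b ∈ V F j := by
  rw [mem_V] at hb ⊢
  rwa [degree_taylor]

omit [Fintype F] [DecidableEq F] in
lemma muA_cancel (x : F) (b : F[X]) : taylor (-x) (taylor x b) = b := by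
  rw [taylor_taylor]; simp

omit [Fintype F] [DecidableEq F] in
lemma muA_cancel' (x : F) (b : F[X]) : taylor x (taylor (-x) b) = b := by
  rw [taylor_taylor]; simp

lemma muA_expect_M (j : ℕ) (x : F) (f : F[X] → ℝ) :
    𝔼 b ∈ M F j, f (taylor x b) = 𝔼 b ∈ M F j, f b :=
  expect_nbij' (fun b => taylor x b) (fun b => taylor (-x) b) (fun _ hb => muA_taylor_M x hb)
    (fun _ hb => muA_taylor_M (-x) hb) (fun b _ => muA_cancel x b) (fun b _ => muA_cancel' x b)
    (fun _ _ => rfl)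

lemma muA_expect_V (j : ℕ) (x : F) (f : F[X] → ℝ) :
    𝔼 b ∈ V F j, f (taylor x b) = 𝔼 b ∈ V F j, f b :=
  expect_nbij' (fun b => taylor x b) (fun b => taylor (-x) b) (fun _ hb => muA_taylor_V x hb)
    (fun _ hb => muA_taylor_V (-x) hb) (fun b _ => muA_cancel x b) (fun b _ => muA_cancel' x b)
    (fun _ _ => rfl)

lemma muA_mu (x : F) (b : F[X]) : mu (taylor x b) = mu b :=
  mu_mulEquiv (taylorEquiv x).toMulEquiv b

lemma muA_per {B : F[X]} {k j : ℕ} {g : F[X] → ℝ} (hg : Per B k j g) (x : F) :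
    Per (taylor x B) k j (fun b => g (taylor (-x) b)) := by
  intro b hb c hc hB
  simp only [map_add]
  refine hg _ (muA_taylor_M _ hb) _ (muA_taylor_V _ hc) ?_
  obtain ⟨d, rfl⟩ := hB
  rw [taylor_mul, muA_cancel]
  exact dvd_mul_right _ _

lemma muA_pair {B1 B2 : F[X]} (h1 : B1 ≠ 0) (h2 : B2 ≠ 0) (hcop : IsCoprime B2 B1) {e k j : ℕ}
    (he1 : B1.natDegree ≤ e) (he2 : B2.natDegree ≤ e) (hj : k + 2 * e ≤ j)
    (g1 g2 : F[X] → ℝ) (hg1 : Per B1 k j g1) (hg2 : Per B2 k j g2)
    (hz : ∀ b ∈ M F j, 𝔼 v ∈ V F (j - k), g1 (b + v) = 0) :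
    𝔼 b ∈ M F j, g1 b * g2 b = 0 := by
  set i := j - k - B2.natDegree with hi
  have hik : B2.natDegree + i = j - k := by omega
  have hmem : ∀ u ∈ V F i, B2 * u ∈ V F (j - k) := fun u hu => hik ▸ mul_mem_V le_rfl hu
  have e1 : ∀ u ∈ V F i, 𝔼 b ∈ M F j, g1 b * g2 b = 𝔼 b ∈ M F j, g1 (b + B2 * u) * g2 b := by
    intro u hu
    rw [← expect_M_add (V_mono (Nat.sub_le j k) (hmem u hu)) (fun b => g1 b * g2 b)]
    refine expect_congr rfl fun b hb => ?_
    rw [hg2 b hb _ (hmem u hu) (dvd_mul_right _ _)]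
  have e2 : 𝔼 b ∈ M F j, g1 b * g2 b = 𝔼 u ∈ V F i, 𝔼 b ∈ M F j, g1 (b + B2 * u) * g2 b := by
    rw [← expect_congr rfl e1, expect_const (V_nonempty i)]
  rw [e2, expect_comm]
  refine expect_eq_zero fun b hb => ?_
  rw [← expect_mul]
  have e3 := equi h1 h2 hcop (i := i) (k := 0) (by omega) (fun w => g1 (b + w)) (by
    intro w hw y hy hB
    rw [hik] at hw
    rw [Nat.sub_zero, hik] at hy
    rw [← add_assoc]
    exact hg1 _ (M_add_V hb (V_mono (Nat.sub_le j k) hw)) _ hy hB)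
  rw [← e3, hik, hz b hb, zero_mul]

/-- translation orbits: saving for functions of mean zero on short intervals -/
theorem window0 {B : F[X]} (hB : B ≠ 0) {e k j : ℕ} (he : B.natDegree ≤ e) (hj : k + 2 * e ≤ j)
    (g : F[X] → ℝ) (hg : Per B k j g) (h2 : ∀ b ∈ M F j, |g b| ≤ 2)
    (hz : ∀ b ∈ M F j, 𝔼 v ∈ V F (j - k), g (b + v) = 0) :
    |𝔼 b ∈ M F j, mu b * g b| ≤ 2 * e / √(Q F) := by
  have hQ : (0 : ℝ) < Q F := Q_pos
  have e1 : ∀ x : F, 𝔼 b ∈ M F j, mu b * g b = 𝔼 b ∈ M F j, mu b * g (taylor (-x) b) := by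
    intro x
    rw [← muA_expect_M j (-x) (fun b => mu b * g b)]
    simp only [muA_mu]
  have e2 : 𝔼 b ∈ M F j, mu b * g b = 𝔼 b ∈ M F j, mu b * 𝔼 x : F, g (taylor (-x) b) := by
    simp only [mul_expect]
    rw [expect_comm, ← expect_congr rfl (fun x _ => e1 x), expect_const univ_nonempty]
  have hT : ∀ x : F, taylor x B ≠ 0 := fun x h => hB (by rw [← muA_cancel x B, h, map_zero])
  have e3 : ∀ x y : F, 𝔼 b ∈ M F j, g (taylor (-x) b) * g (taylor (-y) b) ≤
      4 * ind (¬ IsCoprime (taylor y B) (taylor x B)) := by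
    intro x y
    by_cases hc : IsCoprime (taylor y B) (taylor x B)
    · rw [ind_neg (not_not.2 hc), mul_zero]
      refine (muA_pair (hT x) (hT y) hc (by rwa [natDegree_taylor]) (by rwa [natDegree_taylor]) hj
        _ _ (muA_per hg x) (muA_per hg y) ?_).le
      intro b hb
      simp only [map_add]
      rw [muA_expect_V (j - k) (-x) (fun v => g (taylor (-x) b + v))]
      exact hz _ (muA_taylor_M _ hb)
    · rw [ind_pos hc, mul_one]
      refine expect_le' (by norm_num) fun b hb => ?_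
      have a1 := h2 _ (muA_taylor_M (-x) hb)
      have a2 := h2 _ (muA_taylor_M (-y) hb)
      refine (le_abs_self _).trans ?_
      rw [abs_mul]
      nlinarith [abs_nonneg (g (taylor (-x) b)), abs_nonneg (g (taylor (-y) b))]
  have e4 : (𝔼 b ∈ M F j, mu b * g b) ^ 2 ≤ 4 * ((e : ℝ) ^ 2 / Q F) := by
    rw [e2]
    refine (sq_expect_le _ _).trans ?_
    calc 𝔼 b ∈ M F j, (mu b * 𝔼 x : F, g (taylor (-x) b)) ^ 2
        ≤ 𝔼 b ∈ M F j, (𝔼 x : F, g (taylor (-x) b)) ^ 2 := by
          refine expect_le_expect fun b _ => ?_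
          rw [mul_pow]
          have : mu b ^ 2 ≤ 1 := by
            rw [← sq_abs]; exact pow_le_one₀ (abs_nonneg _) (abs_mu_le_one b)
          nlinarith [sq_nonneg (𝔼 x : F, g (taylor (-x) b))]
      _ = 𝔼 x : F, 𝔼 y : F, 𝔼 b ∈ M F j, g (taylor (-x) b) * g (taylor (-y) b) := by
          simp only [sq_expect]
          rw [expect_comm]
          refine expect_congr rfl fun x _ => ?_
          rw [expect_comm]
      _ ≤ 4 * ((e : ℝ) ^ 2 / Q F) := by
          refine expect_le' (by positivity) fun x _ => ?_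
          refine (expect_le_expect fun y _ => e3 x y).trans ?_
          rw [← mul_expect]
          have := card_not_coprime hB x
          have he' : (B.natDegree : ℝ) ≤ e := by exact_mod_cast he
          refine mul_le_mul_of_nonneg_left (this.trans ?_) (by norm_num)
          gcongr
  refine abs_le_of_sq_le_sq ?_ (by positivity)
  rw [div_pow, Real.sq_sqrt hQ.le]
  refine e4.trans (le_of_eq ?_)
  ring

end Pool.Agent.VDW

namespace Pool.Agent.VDW

open Polynomial Finset
open scoped BigOperators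

variable {F : Type} [Field F] [Fintype F] [DecidableEq F]

/-- the normalised mirror image -/
noncomputable def muwI (b : F[X]) : F[X] := C (trailingCoeff b)⁻¹ * mirror b

lemma muw_mem {j : ℕ} {b : F[X]} (hb : b ∈ M F j) : muwI b ∈ M F j := by
  obtain ⟨h1, h2⟩ := mem_M.1 hb
  have h0 : trailingCoeff b ≠ 0 := trailingCoeff_nonzero_iff_nonzero.2 h1.ne_zero
  refine mem_M.2 ⟨?_, ?_⟩
  · rw [Monic, muwI, leadingCoeff_mul, leadingCoeff_C, mirror_leadingCoeff, inv_mul_cancel₀ h0]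
  · rw [muwI, natDegree_C_mul (inv_ne_zero h0), mirror_natDegree, h2]

lemma muw_inv {j : ℕ} {b : F[X]} (hb : b ∈ M F j) : muwI (muwI b) = b := by
  obtain ⟨h1, -⟩ := mem_M.1 hb
  have h0 : trailingCoeff b ≠ 0 := trailingCoeff_nonzero_iff_nonzero.2 h1.ne_zero
  have e : mirror (muwI b) = C (trailingCoeff b)⁻¹ * b := by
    rw [muwI, mirror_mul_of_domain, mirror_C, mirror_mirror]
  rw [muwI, ← mirror_leadingCoeff (muwI b), e, leadingCoeff_mul, leadingCoeff_C, h1.leadingCoeff,
    mul_one, ← mul_assoc, ← C_mul, inv_mul_cancel₀ (inv_ne_zero h0), C_1, one_mul]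

lemma muw_mu {j : ℕ} {b : F[X]} (hb : b ∈ M F j) : mu (muwI b) = mu b := by
  have h0 : trailingCoeff b ≠ 0 := trailingCoeff_nonzero_iff_nonzero.2 (mem_M.1 hb).1.ne_zero
  rw [muwI, mu_C_mul (inv_ne_zero h0)]
  exact mu_mulEquiv ⟨⟨mirror, mirror, mirror_mirror, mirror_mirror⟩,
    fun p q => mirror_mul_of_domain p q⟩ b

lemma muw_sub {j k : ℕ} {b c : F[X]} (hb : b ∈ M F j) (hc : c ∈ V F j) (hX : X ^ (k + 1) ∣ c)
    (h0 : b.coeff 0 ≠ 0) : muwI (b + c) - muwI b ∈ V F (j - k) := by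
  rw [X_pow_dvd_iff] at hX
  have e0 : (b + c).coeff 0 = b.coeff 0 := by rw [coeff_add, hX 0 (by omega), add_zero]
  have t1 : b.natTrailingDegree = 0 := natTrailingDegree_eq_zero.2 (Or.inr h0)
  have t2 : (b + c).natTrailingDegree = 0 := natTrailingDegree_eq_zero.2 (Or.inr (e0 ▸ h0))
  rw [mem_V, degree_lt_iff_coeff_zero]
  intro i hi
  rw [muwI, muwI, trailingCoeff, trailingCoeff, t1, t2, e0, ← mul_sub, coeff_C_mul, coeff_sub,
    coeff_mirror, coeff_mirror, t1, t2, (mem_M.1 hb).2, (mem_M.1 (M_add_V hb hc)).2, coeff_add,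
    add_sub_cancel_left, add_zero]
  rcases le_or_gt i j with h | h
  · rw [revAt_le h, hX _ (by omega), mul_zero]
  · rw [revAt_eq_self_of_lt h, coeff_eq_zero_of_degree_lt ((mem_V.1 hc).trans (by exact_mod_cast h)),
      mul_zero]

lemma muw_prob {j : ℕ} (hj : 0 < j) : 𝔼 b ∈ M F j, ind (b.coeff 0 = 0) = 1 / Q F := by
  have h1 : ∀ x : F, 𝔼 b ∈ M F j, ind (b.coeff 0 = 0) = 𝔼 b ∈ M F j, ind ((b + C x).coeff 0 = 0) :=
    fun x => (expect_M_add (V_mono hj (mem_V_of_natDegree_le (natDegree_C x).le))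
      fun b => ind (b.coeff 0 = 0)).symm
  rw [← expect_const (univ_nonempty (α := F)) (𝔼 b ∈ M F j, ind (b.coeff 0 = 0)),
    expect_congr rfl fun x _ => h1 x, expect_comm, ← expect_const (M_nonempty (F := F) j) (1 / Q F)]
  refine expect_congr rfl fun b _ => ?_
  rw [expect_ind]
  simp [add_eq_zero_iff_neg_eq, filter_eq]

theorem window {B : F[X]} (hB : B ≠ 0) {e k j : ℕ} (he : B.natDegree ≤ e)
    (hj : 2 * e + 2 * k + 2 ≤ j) (g : F[X] → ℝ) (hg : Per B k j g)
    (h1 : ∀ b ∈ M F j, |g b| ≤ 1) :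
    |𝔼 b ∈ M F j, mu b * g b| ≤ (2 * e + 2 * k + 3) / √(Q F) := by
  set gb : F[X] → ℝ := fun b => 𝔼 v ∈ V F (j - k), g (b + v) with hgb
  have inv : ∀ b, ∀ c ∈ V F (j - k), gb (b + c) = gb b := fun b c hc => by
    simp only [hgb, add_assoc, add_comm c]
    exact expect_V_add hc fun v => g (b + v)
  have gb1 : ∀ b ∈ M F j, |gb b| ≤ 1 := fun b hb =>
    abs_expect_le' zero_le_one fun v hv => h1 _ (M_add_V hb (V_mono (by omega) hv))
  have a1 := window0 hB he (by omega : k + 2 * e ≤ j) (fun b => g b - gb b)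
    (fun b hb c hc hBc => by simp only [hg b hb c hc hBc, inv b c hc])
    (fun b hb => (abs_sub _ _).trans (by linarith [h1 b hb, gb1 b hb]))
    fun b _ => by
      rw [expect_sub_distrib, expect_congr rfl fun v hv => inv b v hv, expect_const (V_nonempty _)]
      exact sub_self _
  set g2 : F[X] → ℝ := fun b => ind (b.coeff 0 ≠ 0) * gb (muwI b) with hg2
  have g21 : ∀ b ∈ M F j, |g2 b| ≤ 1 := fun b hb => by
    rw [hg2, abs_mul]
    exact mul_le_one₀ (abs_ind_le_one _) (abs_nonneg _) (gb1 _ (muw_mem hb))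
  set m := 𝔼 b ∈ M F j, g2 b with hm
  have m1 : |m| ≤ 1 := abs_expect_le' zero_le_one g21
  have a2 := window0 (B := X ^ (k + 1)) (pow_ne_zero _ X_ne_zero) (e := k + 1) (k := 0) (j := j)
    (natDegree_X_pow _).le (by omega) (fun b => g2 b - m)
    (fun b hb c hc hX => by
      have e0 : (b + c).coeff 0 = b.coeff 0 := by
        rw [coeff_add, X_pow_dvd_iff.1 hX 0 (by omega), add_zero]
      simp only [hg2, e0, sub_left_inj]
      by_cases h0 : b.coeff 0 ≠ 0
      · rw [← inv (muwI b) _ (muw_sub hb hc hX h0), add_sub_cancel]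
      · simp [ind_neg h0])
    (fun b hb => (abs_sub _ _).trans (by linarith [g21 b hb]))
    fun b hb => by
      rw [expect_sub_distrib, Nat.sub_zero, ← expect_M_base hb g2, expect_const (V_nonempty _)]
      exact sub_self _
  have a3 : |𝔼 b ∈ M F j, mu b * (gb (muwI b) - g2 b)| ≤ 1 / √(Q F) := by
    refine ((abs_expect_le _ _).trans (expect_le_expect (g := fun b => ind (b.coeff 0 = 0))
      fun b hb => ?_)).trans ?_
    · by_cases h0 : b.coeff 0 = 0
      · simp only [hg2, ind_pos h0, ind_neg (not_not.2 h0), zero_mul, sub_zero, abs_mul]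
        exact mul_le_one₀ (abs_mu_le_one _) (abs_nonneg _) (gb1 _ (muw_mem hb))
      · simp [hg2, ind_pos (show b.coeff 0 ≠ 0 from h0), ind_neg h0]
    · rw [muw_prob (by omega)]
      exact one_div_le_one_div_of_le (Real.sqrt_pos.2 Q_pos)
        (Real.sqrt_le_self_iff.2 (Or.inr one_le_Q))
  have a4 : 𝔼 b ∈ M F j, mu b * gb b = 𝔼 b ∈ M F j, mu b * gb (muwI b) :=
    expect_nbij' muwI muwI (fun _ => muw_mem) (fun _ => muw_mem) (fun _ => muw_inv)
      (fun _ => muw_inv) fun b hb => by rw [muw_mu hb, muw_inv hb]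
  have e : 𝔼 b ∈ M F j, mu b * g b = 𝔼 b ∈ M F j, mu b * (g b - gb b) +
      𝔼 b ∈ M F j, mu b * (g2 b - m) + 𝔼 b ∈ M F j, mu b * (gb (muwI b) - g2 b) := by
    simp only [mul_sub, expect_sub_distrib, ← expect_mul, expect_mu (by omega : 2 ≤ j), a4]
    ring
  rw [e]
  refine (abs_add_three _ _ _).trans ((add_le_add_three a1 a2 a3).trans_eq ?_)
  push_cast
  ring

end Pool.Agent.VDW

namespace Pool.Agent.VDW

open Polynomial Finset
open scoped BigOperators

variable {F : Type} [Field F] [Fintype F] [DecidableEq F]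

private lemma amp_comb (j M0 J R : ℕ) (w : ℕ → ℕ → ℝ) (S τ : ℝ) (hτ : 0 ≤ τ) (hM : 0 < M0)
    (hj : R + M0 + J ≤ j)
    (h1 : ∀ a, a ≤ j → ∑ b ∈ range (j + 1), w a b = if a = j then S else 0)
    (h2 : ∀ b, b < j → ∑ a ∈ range (j + 1), w a b = 0)
    (h3 : ∀ a b, a + b + J ≤ j → w a b = 0) (h3' : ∀ a b, j < a + b → w a b = 0)
    (h4 : ∀ a b, M0 ≤ a → R ≤ b → |w a b| ≤ τ) : |S| ≤ (J : ℝ) ^ 2 * τ := by
  have hS : S = ∑ b ∈ range (j + 1), ∑ a ∈ Ico M0 (j + 1), w a b := by
    rw [sum_comm]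
    have e : ∀ a ∈ Ico M0 (j + 1), ∑ b ∈ range (j + 1), w a b = if a = j then S else 0 := by
      intro a ha
      exact h1 a (by have := (mem_Ico.1 ha).2; omega)
    rw [sum_congr rfl e, sum_ite_eq' (Ico M0 (j + 1)) j (fun _ => S), if_pos]
    exact mem_Ico.2 ⟨by omega, by omega⟩
  have hb : ∀ b ∈ range (j + 1), |∑ a ∈ Ico M0 (j + 1), w a b| ≤
      if b ∈ Ico (j + 1 - M0 - J) (j + 1 - M0) then (J : ℝ) * τ else 0 := by
    intro b _
    split_ifs with hb
    · obtain ⟨hb1, hb2⟩ := mem_Ico.1 hb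
      have hsub : Ico M0 (j - b + 1) ⊆ Ico M0 (j + 1) := Ico_subset_Ico_right (by omega)
      rw [← sum_subset hsub (fun a ha hna => h3' a b (by
        have := (mem_Ico.1 ha).1
        by_contra hc
        exact hna (mem_Ico.2 ⟨this, by omega⟩)))]
      refine (abs_sum_le_sum_abs _ _).trans ?_
      refine (sum_le_card_nsmul _ _ τ (fun a ha => h4 a b (mem_Ico.1 ha).1 (by omega))).trans ?_
      rw [Nat.card_Ico, nsmul_eq_mul]
      have : j - b + 1 - M0 ≤ J := by omega
      exact mul_le_mul_of_nonneg_right (by exact_mod_cast this) hτ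
    · rw [mem_Ico, not_and_or] at hb
      rcases hb with hb | hb
      · have e := h2 b (by omega)
        rw [range_eq_Ico, ← sum_Ico_consecutive (fun a => w a b) (Nat.zero_le M0)
          (by omega : M0 ≤ j + 1)] at e
        have e0 : ∑ a ∈ Ico 0 M0, w a b = 0 :=
          sum_eq_zero fun a ha => h3 a b (by have := (mem_Ico.1 ha).2; omega)
        rw [e0, zero_add] at e
        rw [e, abs_zero]
      · have e0 : ∑ a ∈ Ico M0 (j + 1), w a b = 0 :=
          sum_eq_zero fun a ha => h3' a b (by have := (mem_Ico.1 ha).1; omega)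
        rw [e0, abs_zero]
  rw [hS]
  refine (abs_sum_le_sum_abs _ _).trans ((sum_le_sum hb).trans ?_)
  rw [← sum_filter, sum_const, nsmul_eq_mul]
  have hc : ((range (j + 1)).filter (fun b => b ∈ Ico (j + 1 - M0 - J) (j + 1 - M0))).card ≤ J := by
    refine (card_le_card (fun b hb => (mem_filter.1 hb).2)).trans ?_
    rw [Nat.card_Ico]; omega
  have hc' : (((range (j + 1)).filter
      (fun b => b ∈ Ico (j + 1 - M0 - J) (j + 1 - M0))).card : ℝ) ≤ J := by exact_mod_cast hc
  calc _ ≤ (J : ℝ) * ((J : ℝ) * τ) := mul_le_mul_of_nonneg_right hc' (by positivity)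
    _ = _ := by ring

private lemma amp_conv (G : F[X] → ℝ) (i n : ℕ) (h : i ≤ n) :
    ∑ b ∈ range (n + 1), 𝔼 c ∈ M F b, mu c * (if b ≤ i then 𝔼 a ∈ M F (i - b), G (c * a) else 0) =
      if i = 0 then G 1 else 0 := by
  rw [← mu_conv G i, ← Finset.Nat.sum_antidiagonal_swap,
    Finset.Nat.sum_antidiagonal_eq_sum_range_succ_mk]
  have hsub : range (i + 1) ⊆ range (n + 1) := range_subset_range.2 (by omega)
  rw [← sum_subset hsub (fun b _ hb => by
    have : ¬ b ≤ i := fun hc => hb (mem_range.2 (by omega))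
    simp [this])]
  refine sum_congr rfl fun b hb => ?_
  have hbi : b ≤ i := by have := mem_range.1 hb; omega
  simp only [if_pos hbi, Prod.fst_swap, Prod.snd_swap]
  rw [expect_comm]
  refine expect_congr rfl fun c _ => ?_
  rw [mul_expect]
  exact expect_congr rfl fun a _ => by rw [mul_comm c a]

private lemma amp_window {B : F[X]} (hB : B ≠ 0) {e k j : ℕ} (he : B.natDegree ≤ e)
    (hj : 2 * e + 2 * k + 2 ≤ j) (g : F[X] → ℝ) (hg : Per B k j g) (K : ℝ) (hK : 0 ≤ K)
    (h1 : ∀ b ∈ M F j, |g b| ≤ K) :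
    |𝔼 b ∈ M F j, mu b * g b| ≤ (2 * e + 2 * k + 3) / √(Q F) * K := by
  rcases hK.eq_or_lt with rfl | hK
  · rw [mul_zero]
    refine abs_expect_le' le_rfl fun b hb => ?_
    rw [abs_nonpos_iff.1 (h1 b hb), mul_zero, abs_zero]
  · have h := window hB he hj (fun b => g b / K) (fun b hb c hc hBc => by
      simp only [hg b hb c hc hBc]) (fun b hb => by
      rw [abs_div, abs_of_pos hK, div_le_one hK]; exact h1 b hb)
    have e1 : 𝔼 b ∈ M F j, mu b * g b = (𝔼 b ∈ M F j, mu b * (g b / K)) * K := by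
      rw [expect_mul]
      exact expect_congr rfl fun b _ => by field_simp
    rw [e1, abs_mul, abs_of_pos hK]
    exact mul_le_mul_of_nonneg_right h hK.le

/-- amplification of the window bound -/
theorem amp {B : F[X]} (hB : B ≠ 0) {e k : ℕ} (he : B.natDegree ≤ e) (r j : ℕ)
    (hj : r * (3 * e + 3 * k + 2) ≤ j) (g : F[X] → ℝ) (hg : Per B k j g)
    (h1 : ∀ b ∈ M F j, |g b| ≤ 1)
    (hZ : ∀ d i, d + i = j → e + k ≤ i → ∀ c ∈ M F d, 𝔼 a ∈ M F i, g (c * a) = 0) :
    |𝔼 b ∈ M F j, mu b * g b| ≤ (((e : ℝ) + k) ^ 2 * (2 * e + 2 * k + 3) / √(Q F)) ^ r := by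
  induction r generalizing j g with
  | zero =>
    rw [pow_zero]
    refine abs_expect_le' zero_le_one fun b hb => ?_
    rw [abs_mul]
    exact mul_le_one₀ (abs_mu_le_one b) (abs_nonneg _) (h1 b hb)
  | succ r ih =>
    have hq : 0 < √(Q F) := Real.sqrt_pos.2 Q_pos
    set η : ℝ := (2 * e + 2 * k + 3) / √(Q F) with hη
    set K : ℝ := (((e : ℝ) + k) ^ 2 * (2 * e + 2 * k + 3) / √(Q F)) ^ r with hK
    have hη0 : 0 ≤ η := by positivity
    have hK0 : 0 ≤ K := by positivity
    let w : ℕ → ℕ → ℝ := fun a b => 𝔼 x ∈ M F a, mu x * 𝔼 y ∈ M F b, mu y *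
      (if a + b ≤ j then 𝔼 z ∈ M F (j - (a + b)), g (x * y * z) else 0)
    have hsymm : ∀ a b, w a b = w b a := by
      intro a b
      simp only [w, mul_expect]
      rw [expect_comm]
      refine expect_congr rfl fun y _ => expect_congr rfl fun x _ => ?_
      rw [add_comm b a, mul_comm y x]
      ring
    have hrow : ∀ a, a ≤ j → ∑ b ∈ range (j + 1), w a b =
        if a = j then 𝔼 b ∈ M F j, mu b * g b else 0 := by
      intro a ha
      simp only [w]
      rw [← expect_sum_comm]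
      have e1 : ∀ x ∈ M F a, ∑ b ∈ range (j + 1), mu x * 𝔼 y ∈ M F b, mu y *
          (if a + b ≤ j then 𝔼 z ∈ M F (j - (a + b)), g (x * y * z) else 0) =
          mu x * if j - a = 0 then g x else 0 := by
        intro x _
        rw [← mul_sum]
        congr 1
        have := amp_conv (fun u => g (x * u)) (j - a) j (by omega)
        simp only [mul_one] at this
        rw [← this]
        refine sum_congr rfl fun b _ => expect_congr rfl fun y _ => ?_
        congr 1
        by_cases hab : a + b ≤ j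
        · rw [if_pos hab, if_pos (by omega), Nat.sub_sub]
          exact expect_congr rfl fun z _ => by rw [mul_assoc]
        · rw [if_neg hab, if_neg (by omega)]
      rw [expect_congr rfl e1]
      by_cases haj : a = j
      · subst haj
        simp
      · have : ¬ j - a = 0 := by omega
        simp [haj, this]
    have key := amp_comb j (2 * e + 2 * k + 2) (e + k) (r * (3 * e + 3 * k + 2)) w
      (𝔼 b ∈ M F j, mu b * g b) (η * K) (mul_nonneg hη0 hK0) (by omega)
      (by rw [Nat.succ_mul] at hj; omega) hrow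
      (fun b hb => by
        rw [sum_congr rfl (fun a _ => hsymm a b), hrow b hb.le, if_neg hb.ne])
      (fun a b hab => by
        refine expect_eq_zero fun x hx => ?_
        rw [expect_eq_zero, mul_zero]
        intro y hy
        rw [if_pos (by omega), hZ (a + b) (j - (a + b)) (by omega) (by omega) _ (M_mul_M hx hy),
          mul_zero])
      (fun a b hab => by
        have : ¬ a + b ≤ j := by omega
        simp [w, this])
      (fun a b ha hb => by
        by_cases hab : a + b ≤ j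
        swap
        · simp only [w, if_neg hab, mul_zero, expect_const_zero, abs_zero]
          exact mul_nonneg hη0 hK0
        simp only [w, if_pos hab]
        obtain ⟨i, rfl⟩ : ∃ i, j = a + b + i := ⟨j - (a + b), by omega⟩
        rw [Nat.add_sub_cancel_left]
        refine amp_window hB he ha _ ?_ K hK0 ?_
        · intro x hx c hc hBc
          refine expect_congr rfl fun y hy => ?_
          congr 1
          refine expect_congr rfl fun z hz => ?_
          have hp : Per B k a (fun u => g (y * z * u)) :=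
            Per.mul (i := b + i) (by rwa [show b + i + a = a + b + i by ring]) (M_mul_M hy hz)
          have := hp x hx c hc hBc
          simp only at this
          rw [show (x + c) * y * z = y * z * (x + c) by ring, this]
          congr 1; ring
        · intro x hx
          simp only [mul_expect]
          rw [expect_comm]
          refine abs_expect_le' hK0 fun z hz => ?_
          have hxz : x * z ∈ M F (a + i) := M_mul_M hx hz
          have := ih b hb (fun u => g (x * z * u))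
            (Per.mul (i := a + i) (by rwa [show a + i + b = a + b + i by ring]) hxz)
            (fun u hu => h1 _ (by
              rw [show a + b + i = a + i + b by ring]; exact M_mul_M hxz hu))
            (fun d i' hd hi' c hc => by
              have := hZ (a + i + d) i' (by omega) hi' _ (M_mul_M hxz hc)
              simpa only [mul_assoc] using this)
          refine le_of_eq_of_le ?_ this
          congr 1
          exact expect_congr rfl fun y _ => by rw [mul_right_comm x y z])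
    refine key.trans (le_of_eq ?_)
    rw [pow_succ _ r, ← hK, hη]
    push_cast
    ring

end Pool.Agent.VDW

namespace Pool.Agent.VDW

open Polynomial Finset
open scoped BigOperators

variable {F : Type} [Field F] [Fintype F] [DecidableEq F]

omit [Fintype F] [DecidableEq F] in
lemma peel_cop {P : F[X]} (hP : Irreducible P) (b D : F[X]) :
    IsCoprime b (D * P) ↔ IsCoprime b D ∧ ¬ P ∣ b := by
  rw [IsCoprime.mul_right_iff, isCoprime_comm (x := b) (y := P), hP.coprime_iff_not_dvd]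

omit [Fintype F] [DecidableEq F] in
lemma peel_cop_dvd {P D : F[X]} (h : P ∣ D) (b : F[X]) : IsCoprime b (D * P) ↔ IsCoprime b D := by
  rw [IsCoprime.mul_right_iff]
  exact ⟨fun h => h.1, fun h' => ⟨h', h'.of_isCoprime_of_dvd_right h⟩⟩

lemma peel_dvd {P : F[X]} {d : ℕ} (hm : P ∈ M F d) (i : ℕ) (f : F[X] → ℝ) :
    ∑ b ∈ M F (d + i), ind (P ∣ b) * f b = ∑ c ∈ M F i, f (P * c) := by
  classical
  have h0 := (mem_M.1 hm).1
  simp only [ind_eq_ite, ite_mul, one_mul, zero_mul]
  rw [← sum_filter]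
  refine (sum_bij (fun c _ => P * c) (fun c hc => mem_filter.2 ⟨M_mul_M hm hc, dvd_mul_right _ _⟩)
    (fun a _ b _ h => mul_left_cancel₀ h0.ne_zero h) (fun b hb => ?_) fun _ _ => rfl).symm
  obtain ⟨hb, c, rfl⟩ := mem_filter.1 hb
  obtain ⟨h1, h2⟩ := mem_M.1 hb
  have h3 := h0.of_mul_monic_left h1
  refine ⟨c, mem_M.2 ⟨h3, ?_⟩, rfl⟩
  rw [h0.natDegree_mul h3, (mem_M.1 hm).2] at h2
  omega

lemma peel_split {P : F[X]} (hP : Irreducible P) (D : F[X]) (j : ℕ) (g : F[X] → ℝ) :
    ∑ b ∈ M F j, ind (IsCoprime b D) * mu b * g b =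
      ∑ b ∈ M F j, ind (IsCoprime b (D * P)) * mu b * g b +
        ∑ b ∈ M F j, ind (P ∣ b) * (ind (IsCoprime b D) * mu b * g b) := by
  rw [← sum_add_distrib]
  refine sum_congr rfl fun b _ => ?_
  rw [ind_congr (peel_cop hP b D), ind_and]
  by_cases h : P ∣ b
  · rw [ind_pos h, ind_neg (not_not.2 h)]; ring
  · rw [ind_neg h, ind_pos h]; ring

lemma peel_big {P D : F[X]} {d : ℕ} (hP : Irreducible P) (hm : P ∈ M F d) (hD : ¬ P ∣ D) (i : ℕ)
    (g : F[X] → ℝ) :
    ∑ b ∈ M F (d + i), ind (IsCoprime b D) * mu b * g b =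
      ∑ b ∈ M F (d + i), ind (IsCoprime b (D * P)) * mu b * g b -
        ∑ c ∈ M F i, ind (IsCoprime c (D * P)) * mu c * g (P * c) := by
  rw [peel_split hP, peel_dvd hm, sub_eq_add_neg, ← sum_neg_distrib]
  congr 1
  refine sum_congr rfl fun c _ => ?_
  by_cases h : P ∣ c
  · rw [mu_irr_mul_of_dvd hP h, ind_neg (P := IsCoprime c (D * P))
      fun h' => ((peel_cop hP c D).1 h').2 h]
    ring
  · rw [mu_irr_mul hP h, ind_congr (P := IsCoprime (P * c) D) (R := IsCoprime c (D * P)) (by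
      rw [peel_cop hP, IsCoprime.mul_left_iff, hP.coprime_iff_not_dvd]; tauto)]
    ring

lemma peel_small {P : F[X]} (hP : Irreducible P) (D : F[X]) {j : ℕ} (hj : j < P.natDegree)
    (g : F[X] → ℝ) :
    ∑ b ∈ M F j, ind (IsCoprime b D) * mu b * g b =
      ∑ b ∈ M F j, ind (IsCoprime b (D * P)) * mu b * g b := by
  rw [peel_split hP, sum_eq_zero (s := M F j) (f := fun b => ind (P ∣ b) * _), add_zero]
  intro b hb
  obtain ⟨h1, h2⟩ := mem_M.1 hb
  rw [ind_neg fun h => by have := natDegree_le_of_dvd h h1.ne_zero; omega, zero_mul]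

omit [Fintype F] [DecidableEq F] in
lemma peel_ind {p : F[X] → Prop} (h0 : ∀ D, IsUnit D → p D)
    (h1 : ∀ D P : F[X], D ≠ 0 → Irreducible P → P.Monic → p D → p (D * P)) {D : F[X]}
    (hD : D ≠ 0) : p D := by
  induction hn : D.natDegree using Nat.strong_induction_on generalizing D with
  | _ n ih =>
    by_cases hu : IsUnit D
    · exact h0 D hu
    obtain ⟨P, hm, hP, E, rfl⟩ := exists_monic_irreducible_factor D hu
    have hE : E ≠ 0 := right_ne_zero_of_mul hD
    rw [mul_comm]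
    refine h1 E P hE hP hm (ih E.natDegree ?_ hE rfl)
    have := hP.natDegree_pos
    rw [natDegree_mul hm.ne_zero hE] at hn
    omega

lemma peel_sum_mu (j : ℕ) : |∑ b ∈ M F j, mu b| ≤ Q F := by
  rcases le_or_gt 2 j with h | h
  · have := expect_mu (F := F) h
    rw [expect_eq_sum_div_card, card_M_real, div_eq_zero_iff] at this
    rw [this.resolve_right (pow_pos Q_pos j).ne', abs_zero]
    exact Q_pos.le
  refine (abs_sum_le_sum_abs _ _).trans
    ((sum_le_card_nsmul _ _ 1 fun b _ => abs_mu_le_one b).trans ?_)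
  rw [nsmul_eq_mul, mul_one, card_M_real]
  exact (pow_le_pow_right₀ one_le_Q (by omega : j ≤ 1)).trans_eq (pow_one _)

/-- the principal character -/
theorem principal {D : F[X]} (hD : D ≠ 0) (j : ℕ) :
    |∑ b ∈ M F j, ind (IsCoprime b D) * mu b| ≤ ((j : ℝ) + 1) ^ D.natDegree * Q F := by
  revert j
  refine peel_ind (p := fun D => ∀ j : ℕ, |∑ b ∈ M F j, ind (IsCoprime b D) * mu b| ≤
    ((j : ℝ) + 1) ^ D.natDegree * Q F) (fun D hu j => ?_) (fun D P hD hP hm ih => ?_) hD
  · have hc : ∀ b : F[X], IsCoprime b D := fun b => by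
      simpa using (isCoprime_mul_unit_right_right hu b 1).2 isCoprime_one_right
    simp only [natDegree_eq_zero_of_isUnit hu, pow_zero, one_mul, ind_pos (hc _)]
    exact peel_sum_mu j
  have hd := hP.natDegree_pos
  have hq := Q_pos (F := F)
  have one : ∀ j : ℕ, (1 : ℝ) ≤ j + 1 := fun j => by
    have : (0 : ℝ) ≤ j := j.cast_nonneg
    linarith
  suffices h : ∀ j : ℕ, |∑ b ∈ M F j, ind (IsCoprime b (D * P)) * mu b| ≤
      ((j : ℝ) + 1) ^ (D.natDegree + 1) * Q F by
    intro j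
    refine (h j).trans ?_
    rw [natDegree_mul hD hm.ne_zero]
    gcongr
    · exact one j
    · exact hd
  have mono : ∀ j : ℕ, ((j : ℝ) + 1) ^ D.natDegree * Q F ≤
      ((j : ℝ) + 1) ^ (D.natDegree + 1) * Q F := fun j => by
    gcongr
    · exact one j
    · omega
  by_cases hPD : P ∣ D
  · intro j
    simp only [peel_cop_dvd hPD]
    exact (ih j).trans (mono j)
  intro j
  induction j using Nat.strong_induction_on with
  | _ j ihj =>
    rcases lt_or_ge j P.natDegree with hj | hj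
    · have := peel_small hP D hj fun _ => 1
      simp only [mul_one] at this
      rw [← this]
      exact (ih j).trans (mono j)
    obtain ⟨i, rfl⟩ := Nat.exists_eq_add_of_le hj
    have := peel_big hP (mem_M.2 ⟨hm, rfl⟩) hPD i fun _ => 1
    simp only [mul_one] at this
    rw [eq_sub_iff_add_eq] at this
    rw [← this]
    refine (abs_add_le _ _).trans ((add_le_add (ih _) (ihj i (by omega))).trans ?_)
    have h1 : (i : ℝ) + 1 ≤ ((P.natDegree + i : ℕ) : ℝ) := by
      exact_mod_cast (by omega : i + 1 ≤ P.natDegree + i)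
    generalize ((P.natDegree + i : ℕ) : ℝ) = t at h1 ⊢
    have h2 := one i
    have h3 : 0 ≤ t + 1 := by linarith
    calc _ ≤ (t + 1) ^ D.natDegree * Q F + (t + 1) ^ D.natDegree * t * Q F := by
          rw [pow_succ]
          gcongr
          linarith
      _ = _ := by ring

/-- removing a coprimality condition -/
theorem uncop {B : F[X]} (hB : B ≠ 0) (k j₀ j₁ : ℕ) (τ : ℝ) (hτ : 0 ≤ τ)
    (h : ∀ j, j₀ ≤ j → j ≤ j₁ → ∀ g : F[X] → ℝ, Per B k j g → (∀ b ∈ M F j, |g b| ≤ 1) →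
      |𝔼 b ∈ M F j, ind (IsCoprime b B) * mu b * g b| ≤ τ)
    (j : ℕ) (hj₀ : j₀ + B.natDegree ≤ j) (hj₁ : j ≤ j₁) (g : F[X] → ℝ) (hg : Per B k j g)
    (h1 : ∀ b ∈ M F j, |g b| ≤ 1) :
    |𝔼 b ∈ M F j, mu b * g b| ≤ 2 ^ B.natDegree * τ := by
  have hq := Q_pos (F := F)
  have key : ∀ D, D * B = B → ∀ j, j₀ + B.natDegree ≤ j → j ≤ j₁ → ∀ g : F[X] → ℝ, Per B k j g →
      (∀ b ∈ M F j, |g b| ≤ 1) →
      |∑ b ∈ M F j, ind (IsCoprime b D) * mu b * g b| ≤ 2 ^ B.natDegree * τ * Q F ^ j := by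
    refine peel_ind (p := fun E => ∀ D, D * E = B → ∀ j, j₀ + E.natDegree ≤ j → j ≤ j₁ →
      ∀ g : F[X] → ℝ, Per B k j g → (∀ b ∈ M F j, |g b| ≤ 1) →
      |∑ b ∈ M F j, ind (IsCoprime b D) * mu b * g b| ≤ 2 ^ E.natDegree * τ * Q F ^ j)
      (fun E hu D hD j a b g hg h1 => ?_) (fun E P hE hP hm ih D hD j a b g hg h1 => ?_) hB
    · have := h j (by omega) b g hg h1
      rw [expect_eq_sum_div_card, card_M_real, abs_div, abs_of_pos (pow_pos hq j),
        div_le_iff₀ (pow_pos hq j)] at this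
      rw [natDegree_eq_zero_of_isUnit hu, pow_zero, one_mul]
      simpa only [← hD, isCoprime_mul_unit_right_right hu] using this
    have hd := hP.natDegree_pos
    rw [natDegree_mul hE hm.ne_zero] at a ⊢
    have ih' := ih (D * P) (by rw [← hD]; ring)
    have h2 := ih' j (by omega) b g hg h1
    by_cases hPD : P ∣ D
    · simp only [peel_cop_dvd hPD] at h2
      refine h2.trans ?_
      gcongr
      · norm_num
      · omega
    obtain ⟨i, rfl⟩ := Nat.exists_eq_add_of_le (show P.natDegree ≤ j by omega)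
    have hPM : P ∈ M F P.natDegree := mem_M.2 ⟨hm, rfl⟩
    have h3 := ih' i (by omega) (by omega) (fun c => g (P * c)) (hg.mul hPM)
      fun c hc => h1 _ (M_mul_M hPM hc)
    rw [peel_big hP hPM hPD]
    refine (abs_sub _ _).trans ((add_le_add h2 h3).trans ?_)
    calc _ ≤ 2 ^ E.natDegree * τ * Q F ^ (P.natDegree + i) +
          2 ^ E.natDegree * τ * Q F ^ (P.natDegree + i) := by
          gcongr
          · exact one_le_Q
          · omega
      _ = 2 ^ (E.natDegree + 1) * τ * Q F ^ (P.natDegree + i) := by ring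
      _ ≤ _ := by
          gcongr
          · norm_num
          · exact hd
  have := key 1 (one_mul B) j hj₀ hj₁ g hg h1
  simp only [ind_pos isCoprime_one_right, one_mul] at this
  rwa [expect_eq_sum_div_card, card_M_real, abs_div, abs_of_pos (pow_pos hq j),
    div_le_iff₀ (pow_pos hq j)]

end Pool.Agent.VDW

namespace Pool.Agent.VDW

open Polynomial Finset
open scoped BigOperators

variable {F : Type} [Field F] [Fintype F] [DecidableEq F]

lemma major_princ {B : F[X]} (hB : B ≠ 0) {e R j m : ℕ} (he : B.natDegree ≤ e) (hR : R + 1 ≤ j)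
    (hm : j ≤ m) :
    |𝔼 b ∈ M F j, ind (IsCoprime b B) * mu b| ≤ ((m : ℝ) + 1) ^ e / Q F ^ R := by
  have hq : (0 : ℝ) < Q F := Q_pos
  have hq1 : (1 : ℝ) ≤ Q F := one_le_Q
  rw [expect_eq_sum_div_card, card_M_real, abs_div, abs_of_pos (pow_pos hq j)]
  have h1 := principal hB j
  have h2 : ((j : ℝ) + 1) ^ B.natDegree ≤ ((m : ℝ) + 1) ^ e := by
    have hjm : (j : ℝ) + 1 ≤ (m : ℝ) + 1 := by
      have : (j : ℝ) ≤ m := by exact_mod_cast hm
      linarith
    have h0 : (1 : ℝ) ≤ (m : ℝ) + 1 := by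
      have : (0 : ℝ) ≤ m := Nat.cast_nonneg m
      linarith
    calc ((j : ℝ) + 1) ^ B.natDegree ≤ ((m : ℝ) + 1) ^ B.natDegree :=
          pow_le_pow_left₀ (by positivity) hjm _
      _ ≤ _ := pow_le_pow_right₀ h0 he
  have h3 : Q F ^ R * Q F ≤ Q F ^ j := by
    rw [← pow_succ]; exact pow_le_pow_right₀ hq1 hR
  rw [div_le_div_iff₀ (pow_pos hq j) (pow_pos hq R)]
  have h4 : (0 : ℝ) ≤ ((m : ℝ) + 1) ^ e := by positivity
  calc |∑ b ∈ M F j, ind (IsCoprime b B) * mu b| * Q F ^ R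
      ≤ (((m : ℝ) + 1) ^ e * Q F) * Q F ^ R := by
        refine mul_le_mul_of_nonneg_right (h1.trans ?_) (pow_pos hq R).le
        exact mul_le_mul_of_nonneg_right h2 hq.le
    _ = ((m : ℝ) + 1) ^ e * (Q F ^ R * Q F) := by ring
    _ ≤ _ := mul_le_mul_of_nonneg_left h3 h4

lemma major_cop {B : F[X]} (hB : B ≠ 0) {e k R j m : ℕ} (he : B.natDegree ≤ e) (hR : R + 1 ≤ j)
    (hm : j ≤ m) (hj : 2 * R * (3 * e + 3 * k + 2) ≤ j) (g : F[X] → ℝ) (hg : Per B k j g)
    (h1 : ∀ b ∈ M F j, |g b| ≤ 1) :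
    |𝔼 b ∈ M F j, ind (IsCoprime b B) * mu b * g b| ≤
      (2 * (((e : ℝ) + k) ^ 2 * (2 * e + 2 * k + 3)) ^ (2 * R) + ((m : ℝ) + 1) ^ e) / Q F ^ R := by
  have hq : (0 : ℝ) < Q F := Q_pos
  obtain ⟨c, hc1, hc⟩ : ∃ c : ℝ, |c| ≤ 1 ∧
      𝔼 b ∈ M F j, ind (IsCoprime b B) * g b = c * 𝔼 b ∈ M F j, ind (IsCoprime b B) := by
    have hs : |𝔼 b ∈ M F j, ind (IsCoprime b B) * g b| ≤ 𝔼 b ∈ M F j, ind (IsCoprime b B) := by
      refine (abs_expect_le _ _).trans (expect_le_expect fun b hb => ?_)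
      rw [abs_mul, abs_of_nonneg (ind_nonneg _)]
      exact mul_le_of_le_one_right (ind_nonneg _) (h1 b hb)
    have hp : 0 ≤ 𝔼 b ∈ M F j, ind (IsCoprime b B) := expect_ind_nonneg _ _
    rcases hp.eq_or_lt with h0 | h0
    · refine ⟨0, by simp, ?_⟩
      rw [← h0] at hs
      rw [zero_mul]; exact abs_nonpos_iff.1 hs
    · refine ⟨(𝔼 b ∈ M F j, ind (IsCoprime b B) * g b) / 𝔼 b ∈ M F j, ind (IsCoprime b B), ?_, ?_⟩
      · rw [abs_div, abs_of_pos h0, div_le_one h0]; exact hs
      · rw [div_mul_cancel₀ _ h0.ne']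
  set g0 : F[X] → ℝ := fun b => (1 / 2) * (ind (IsCoprime b B) * g b) -
    (c / 2) * ind (IsCoprime b B) with hg0
  have hper : Per B k j g0 := by
    intro b hb y hy hBy
    have h2 := hg b hb y hy hBy
    obtain ⟨t, rfl⟩ := hBy
    simp only [hg0]
    rw [h2, ind_congr (IsCoprime.add_mul_left_left_iff (x := b) (y := B) (z := t))]
  have hbd : ∀ b ∈ M F j, |g0 b| ≤ 1 := by
    intro b hb
    have h2 := abs_le.1 (h1 b hb)
    have h3 := abs_le.1 hc1
    simp only [hg0]
    by_cases hcb : IsCoprime b B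
    · rw [ind_pos hcb, abs_le]; constructor <;> linarith [h2.1, h2.2, h3.1, h3.2]
    · rw [ind_neg hcb]; simp
  have hmean : 𝔼 b ∈ M F j, g0 b = 0 := by
    simp only [hg0]
    rw [expect_sub_distrib, ← mul_expect, ← mul_expect, hc]; ring
  have hZ : ∀ d i, d + i = j → e + k ≤ i → ∀ c' ∈ M F d, 𝔼 a ∈ M F i, g0 (c' * a) = 0 := by
    intro d i hdi hi c' hc'
    subst hdi
    by_cases hcop : IsCoprime c' B
    · rw [← equi_M hB hc' hcop (by omega) g0 hper]; exact hmean
    · refine expect_eq_zero fun a _ => ?_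
      simp only [hg0]
      rw [ind_neg fun h => hcop h.of_mul_left_left]; ring
  have hamp := amp hB he (2 * R) j hj g0 hper hbd hZ
  have hsq : √(Q F) ^ (2 * R) = Q F ^ R := by rw [pow_mul, Real.sq_sqrt hq.le]
  rw [div_pow, hsq] at hamp
  have hpr := major_princ hB he hR hm
  have hsplit : 𝔼 b ∈ M F j, ind (IsCoprime b B) * mu b * g b =
      2 * (𝔼 b ∈ M F j, mu b * g0 b) + c * 𝔼 b ∈ M F j, ind (IsCoprime b B) * mu b := by
    rw [mul_expect, mul_expect, ← expect_add_distrib]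
    refine expect_congr rfl fun b _ => ?_
    simp only [hg0]; ring
  rw [hsplit, add_div, mul_div_assoc]
  refine (abs_add_le _ _).trans (add_le_add ?_ ?_)
  · rw [abs_mul, abs_two]; linarith
  · rw [abs_mul]
    exact (mul_le_of_le_one_left (abs_nonneg _) hc1).trans hpr

omit [Field F] [Fintype F] [DecidableEq F] in
/-- major arcs for the Moebius function -/
theorem major (e k R : ℕ) : ∃ m₀ : ℕ, ∀ m, m₀ ≤ m → ∃ A : ℝ, 0 ≤ A ∧
    ∀ (F : Type) [Field F] [Fintype F] [DecidableEq F] (B : F[X]), B ≠ 0 → B.natDegree ≤ e →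
      ∀ g : F[X] → ℝ, Per B k m g → (∀ b ∈ M F m, |g b| ≤ 1) →
        |𝔼 b ∈ M F m, mu b * g b| ≤ A / Q F ^ R := by
  refine ⟨2 * e + R + 1 + 2 * R * (3 * e + 3 * k + 2), fun m hm => ?_⟩
  refine ⟨2 ^ e * (2 * (((e : ℝ) + k) ^ 2 * (2 * e + 2 * k + 3)) ^ (2 * R) + ((m : ℝ) + 1) ^ e),
    by positivity, ?_⟩
  intro F _ _ _ B hB he g hg h1
  have hq : (0 : ℝ) < Q F := Q_pos
  have hτ : 0 ≤ (2 * (((e : ℝ) + k) ^ 2 * (2 * e + 2 * k + 3)) ^ (2 * R) + ((m : ℝ) + 1) ^ e) /
      Q F ^ R := by positivity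
  have h := uncop hB k (m - e) m _ hτ
    (fun j hj0 hj1 g' hg' h1' => major_cop hB he (by omega) hj1 (by omega) g' hg' h1')
    m (by omega) le_rfl g hg h1
  refine h.trans ?_
  rw [mul_div_assoc]
  exact mul_le_mul_of_nonneg_right (pow_le_pow_right₀ one_le_two he) hτ

end Pool.Agent.VDW
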