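import Pool.Agent.P.MP_b0ea37_nt.Base

namespace Pool.Agent.VDW

open Polynomial Finset
open scoped BigOperators

section
variable {G : Type} [AddCommGroup G] [Fintype G]

theorem gvn_cs (a : G → G → ℝ) (ha : ∀ i j, |a i j| ≤ 1) (F : G → G → G → ℝ) :
    (𝔼 i, 𝔼 j, 𝔼 x, a i j * F i j x) ^ 2 ≤ 𝔼 h, 𝔼 i, 𝔼 j, 𝔼 x, F i j x * F i j (x + h) := by
  refine le_of_le_of_eq ?_ (expect_comm _ _ _)
  refine (sq_expect_le _ _).trans (expect_le_expect fun i _ => ?_)
  refine le_of_le_of_eq ?_ (expect_comm _ _ _)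
  refine (sq_expect_le _ _).trans (expect_le_expect fun j _ => ?_)
  refine le_of_le_of_eq ?_ (expect_comm _ _ _)
  rw [← mul_expect, mul_pow]
  refine (mul_le_of_le_one_left (sq_nonneg _) ((sq_le_one_iff_abs_le_one _).2 (ha i j))).trans_eq ?_
  rw [sq_expect]
  refine expect_congr rfl fun x _ => ?_
  exact (Fintype.expect_equiv (Equiv.addLeft x) _ _ fun h => rfl).symm

theorem gvn_mul {s t : ℝ} (hs : |s| ≤ 1) (ht : |t| ≤ 1) : |s * t| ≤ 1 := by
  rw [abs_mul]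
  exact mul_le_one₀ hs (abs_nonneg _) ht

theorem gvn_one (ψ : G → ℝ) (C : G → G → ℝ) (hC : ∀ x y, |C x y| ≤ 1) (v : G) :
    (𝔼 x, 𝔼 y, 𝔼 z, ψ (v + x + y + z) * C x y) ^ 2 ≤ (𝔼 w, ψ w) ^ 2 := by
  refine (sq_expect_le _ _).trans (expect_le univ_nonempty fun x _ => ?_)
  refine (sq_expect_le _ _).trans (expect_le univ_nonempty fun y _ => ?_)
  rw [← expect_mul, mul_pow,
    Fintype.expect_equiv (Equiv.addLeft (v + x + y)) (fun z => ψ (v + x + y + z)) ψ fun _ => rfl]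
  exact mul_le_of_le_one_right (sq_nonneg _) ((sq_le_one_iff_abs_le_one _).2 (hC x y))

theorem gvn_two (ψ : G → ℝ) (B C : G → G → ℝ) (hB : ∀ x y, |B x y| ≤ 1) (hC : ∀ x y, |C x y| ≤ 1)
    (v : G) : (𝔼 x, 𝔼 y, 𝔼 z, ψ (v + x + y + z) * (B x z * C x y)) ^ 4 ≤
      𝔼 h, (𝔼 w, ψ w * ψ (w + h)) ^ 2 := by
  have h1 := gvn_cs B hB fun x z y => ψ (v + x + y + z) * C x y
  have e1 : (𝔼 x, 𝔼 y, 𝔼 z, ψ (v + x + y + z) * (B x z * C x y)) =
      𝔼 x, 𝔼 z, 𝔼 y, B x z * (ψ (v + x + y + z) * C x y) := by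
    refine expect_congr rfl fun x _ => ?_
    rw [expect_comm]
    exact expect_congr rfl fun z _ => expect_congr rfl fun y _ => by ring
  rw [e1, show 4 = 2 * 2 from rfl, pow_mul]
  refine (pow_le_pow_left₀ (sq_nonneg _) h1 2).trans
    ((sq_expect_le _ _).trans (expect_le_expect fun h _ => ?_))
  refine le_of_eq_of_le ?_ (gvn_one (fun w => ψ w * ψ (w + h)) (fun x y => C x y * C x (y + h))
    (fun x y => gvn_mul (hC _ _) (hC _ _)) v)
  congr 1
  refine expect_congr rfl fun x _ => ?_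
  rw [expect_comm]
  refine expect_congr rfl fun y _ => expect_congr rfl fun z _ => ?_
  rw [show v + x + (y + h) + z = v + x + y + z + h by abel]
  ring

theorem gvn_three (Φ : G → ℝ) (A B C : G → G → ℝ) (hA : ∀ x y, |A x y| ≤ 1)
    (hB : ∀ x y, |B x y| ≤ 1) (hC : ∀ x y, |C x y| ≤ 1) (v : G) :
    (𝔼 x, 𝔼 y, 𝔼 z, Φ (v + x + y + z) * (A y z * B x z * C x y)) ^ 8 ≤ U3 Φ := by
  have h1 := gvn_cs A hA fun y z x => Φ (v + x + y + z) * (B x z * C x y)
  have e1 : (𝔼 x, 𝔼 y, 𝔼 z, Φ (v + x + y + z) * (A y z * B x z * C x y)) =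
      𝔼 y, 𝔼 z, 𝔼 x, A y z * (Φ (v + x + y + z) * (B x z * C x y)) := by
    rw [expect_comm]
    refine expect_congr rfl fun y _ => ?_
    rw [expect_comm]
    exact expect_congr rfl fun z _ => expect_congr rfl fun x _ => by ring
  rw [e1, show 8 = 2 * (2 * 2) from rfl, pow_mul]
  refine (pow_le_pow_left₀ (sq_nonneg _) h1 _).trans ?_
  rw [pow_mul]
  refine (pow_le_pow_left₀ (sq_nonneg _) (sq_expect_le _ _) 2).trans
    ((sq_expect_le _ _).trans (expect_le_expect fun h _ => ?_))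
  rw [← pow_mul]
  refine le_of_eq_of_le ?_ (gvn_two (fun w => Φ w * Φ (w + h)) (fun x z => B x z * B (x + h) z)
    (fun x y => C x y * C (x + h) y) (fun x y => gvn_mul (hB _ _) (hB _ _))
    (fun x y => gvn_mul (hC _ _) (hC _ _)) v)
  congr 1
  rw [expect_comm (f := fun x y => 𝔼 z, Φ (v + x + y + z) * Φ (v + x + y + z + h) *
    (B x z * B (x + h) z * (C x y * C (x + h) y)))]
  refine expect_congr rfl fun y _ => ?_
  rw [expect_comm]
  refine expect_congr rfl fun x _ => expect_congr rfl fun z _ => ?_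
  rw [show v + (x + h) + y + z = v + x + y + z + h by abel]
  ring

end

/-- generalised von Neumann inequality -/
theorem gvn {G : Type} [AddCommGroup G] [Fintype G] (Φ : G → ℝ) (A B C : G → G → ℝ)
    (hA : ∀ x y, |A x y| ≤ 1) (hB : ∀ x y, |B x y| ≤ 1) (hC : ∀ x y, |C x y| ≤ 1)
    (e₁ e₂ e₃ : G ≃ G) (v : G) :
    (𝔼 x, 𝔼 y, 𝔼 z, Φ (v + e₁ x + e₂ y + e₃ z) * (A y z * B x z * C x y)) ^ 8 ≤ U3 Φ := by
  refine le_of_eq_of_le ?_ (gvn_three Φ (fun y z => A (e₂.symm y) (e₃.symm z))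
    (fun x z => B (e₁.symm x) (e₃.symm z)) (fun x y => C (e₁.symm x) (e₂.symm y))
    (fun _ _ => hA _ _) (fun _ _ => hB _ _) (fun _ _ => hC _ _) v)
  congr 1
  refine Fintype.expect_equiv e₁ _ _ fun x => Fintype.expect_equiv e₂ _ _ fun y =>
    Fintype.expect_equiv e₃ _ _ fun z => ?_
  simp only [Equiv.symm_apply_apply]

end Pool.Agent.VDW

namespace Pool.Agent.VDW

open Polynomial Finset
open scoped BigOperators

theorem gw_pos {n : ℕ} (H : ℝ) (v : Fin n → ℤ) : 0 < gw H v :=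
  prod_pos fun _ _ => Real.exp_pos _

theorem gw_le_gW {n : ℕ} {H : ℝ} (hH : 1 ≤ H) (v : Fin n → ℤ) : gw H v ≤ gW H v :=
  prod_le_prod (fun _ _ => (Real.exp_pos _).le) fun _ _ =>
    Real.exp_le_exp.2 (le_add_of_nonneg_right (by positivity))

theorem le_gw {n : ℕ} {H : ℝ} (hH : 1 ≤ H) (v : Fin n → ℤ) (hv : ∀ i, |(v i : ℝ)| ≤ H) :
    Real.exp (-(n : ℝ)) ≤ gw H v := by
  rw [gw, ← Real.exp_sum, Real.exp_le_exp]
  refine le_of_eq_of_le (by simp) (sum_le_sum (f := fun _ => (-1 : ℝ)) fun i _ => neg_le_neg ?_)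
  rw [div_pow, div_le_one (by positivity), sq_le_sq, abs_of_pos (by linarith : 0 < H)]
  exact hv i

lemma gauss_one {H : ℝ} (hH : 1 ≤ H) (T : Finset ℤ) :
    ∑ t ∈ T, Real.exp (-((t : ℝ) / H) ^ 2 + 6 * |(t : ℝ)| / H) ≤ 4 * Real.exp 13 * H := by
  have H0 : 0 < H := by linarith
  set r := Real.exp (-H⁻¹) with hr
  have r0 : 0 ≤ r := (Real.exp_pos _).le
  have i0 : 0 < H⁻¹ := by positivity
  have i1 : H⁻¹ ≤ 1 := inv_le_one_of_one_le₀ hH
  have r1 : r ≤ 1 - H⁻¹ / 2 := by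
    rw [hr, Real.exp_neg, inv_le_comm₀ (Real.exp_pos _) (by linarith)]
    refine le_trans ?_ (Real.add_one_le_exp _)
    rw [inv_le_iff_one_le_mul₀ (by linarith)]
    nlinarith
  have g := hasSum_geometric_of_lt_one r0 (by linarith : r < 1)
  have g2 : HasSum (fun t : ℤ => r ^ t.natAbs) ((1 - r)⁻¹ + r * (1 - r)⁻¹) :=
    HasSum.of_nat_of_neg_add_one (by simpa using g) (by
      simpa only [show ∀ n : ℕ, (-((n : ℤ) + 1)).natAbs = n + 1 from fun n => by omega, pow_succ']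
        using g.mul_left r)
  have h1 : (1 - r)⁻¹ ≤ 2 * H := by
    rw [inv_le_comm₀ (by linarith) (by positivity), mul_inv]; linarith
  have h2 : r * (1 - r)⁻¹ ≤ 2 * H :=
    (mul_le_of_le_one_left (inv_nonneg.2 (by linarith)) (by linarith)).trans h1
  calc _ ≤ ∑ t ∈ T, Real.exp 13 * r ^ t.natAbs := sum_le_sum fun t _ => by
        rw [hr, ← Real.exp_nat_mul, ← Real.exp_add, Real.exp_le_exp, Nat.cast_natAbs, Int.cast_abs,
          div_pow, ← sq_abs (t : ℝ), ← div_pow, mul_div_assoc, mul_neg, ← div_eq_mul_inv]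
        nlinarith [sq_nonneg (|(t : ℝ)| / H - 7 / 2)]
    _ ≤ Real.exp 13 * ((1 - r)⁻¹ + r * (1 - r)⁻¹) := by
        rw [← mul_sum]
        exact mul_le_mul_of_nonneg_left (sum_le_hasSum T (fun _ _ => by positivity) g2)
          (Real.exp_pos _).le
    _ ≤ _ := by nlinarith [Real.exp_pos 13]

theorem gW_sum : ∃ A : ℝ, 1 ≤ A ∧ ∀ (n : ℕ) (H : ℝ), 1 ≤ H →
    Summable (gW (n := n) H) ∧ ∑' v : Fin n → ℤ, gW H v ≤ (A * H) ^ n := by
  refine ⟨4 * Real.exp 13, by linarith [Real.add_one_le_exp 13], fun n H hH => ?_⟩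
  have h0 : ∀ v : Fin n → ℤ, 0 ≤ gW H v := fun v => prod_nonneg fun _ _ => (Real.exp_pos _).le
  have h : ∀ S : Finset (Fin n → ℤ), ∑ v ∈ S, gW H v ≤ (4 * Real.exp 13 * H) ^ n := fun S => by
    refine (sum_le_sum_of_subset_of_nonneg
      (t := Fintype.piFinset fun i => S.image fun v => v i)
      (fun v hv => Fintype.mem_piFinset.2 fun i => mem_image_of_mem _ hv) fun v _ _ => h0 v).trans ?_
    simp only [gW]
    rw [← prod_univ_sum (fun i => S.image fun v => v i)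
      fun _ (t : ℤ) => Real.exp (-((t : ℝ) / H) ^ 2 + 6 * |(t : ℝ)| / H)]
    exact (prod_le_prod (fun _ _ => sum_nonneg fun _ _ => (Real.exp_pos _).le)
      fun _ _ => gauss_one hH _).trans_eq (by simp)
  exact ⟨summable_of_sum_le h0 h, Real.tsum_le_of_sum_le h0 h⟩

/-- the shifted Gaussian is a product of functions of two shifts -/
theorem gw_split {n : ℕ} {H : ℝ} (hH : 1 ≤ H) (f : Fin n → ℤ) :
    ∃ A B C : (Fin n → ℤ) → (Fin n → ℤ) → ℝ, ∀ a b c : Fin n → ℤ,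
      (∀ i, 0 ≤ a i ∧ (a i : ℝ) ≤ H) → (∀ i, 0 ≤ b i ∧ (b i : ℝ) ≤ H) →
      (∀ i, 0 ≤ c i ∧ (c i : ℝ) ≤ H) →
      |A b c| ≤ 1 ∧ |B a c| ≤ 1 ∧ |C a b| ≤ 1 ∧
        gw H (f + a + b + c) = gW H f * (A b c * B a c * C a b) := by
  have H0 : 0 < H := by linarith
  let E : (Fin n → ℤ) → (Fin n → ℤ) → ℝ := fun b c =>
    ∏ i, Real.exp (-(2 * f i * b i + (b i : ℝ) ^ 2 + 2 * b i * c i) / H ^ 2 - 2 * |(f i : ℝ)| / H)
  have hE : ∀ b c : Fin n → ℤ, (∀ i, 0 ≤ b i ∧ (b i : ℝ) ≤ H) → (∀ i, 0 ≤ c i ∧ (c i : ℝ) ≤ H) →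
      |E b c| ≤ 1 := fun b c hb hc => by
    rw [abs_of_nonneg (prod_nonneg fun _ _ => (Real.exp_pos _).le)]
    refine prod_le_one (fun _ _ => (Real.exp_pos _).le) fun i _ => Real.exp_le_one_iff.2 ?_
    have b0 : (0 : ℝ) ≤ b i := by exact_mod_cast (hb i).1
    have c0 : (0 : ℝ) ≤ c i := by exact_mod_cast (hc i).1
    rw [sub_nonpos, div_le_div_iff₀ (by positivity) H0]
    have h1 := mul_le_mul (neg_le_abs (f i : ℝ)) (hb i).2 b0 (abs_nonneg _)
    have h2 := mul_nonneg b0 c0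
    have h3 : -(2 * f i * b i + (b i : ℝ) ^ 2 + 2 * b i * c i) ≤ 2 * |(f i : ℝ)| * H := by nlinarith
    nlinarith
  refine ⟨E, fun a c => E c a, E, fun a b c ha hb hc => ⟨hE b c hb hc, hE c a hc ha, hE a b ha hb, ?_⟩⟩
  simp only [gw, gW, E, ← prod_mul_distrib, ← Real.exp_add, Pi.add_apply, Int.cast_add]
  refine prod_congr rfl fun i _ => congrArg _ ?_
  field_simp
  ring

end Pool.Agent.VDW

namespace Pool.Agent.VDW

open Polynomial Finset
open scoped BigOperators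

theorem tuple_hasSum {α β : Type} [Fintype α] [Nonempty α] {f : α → β → ℝ} {S : ℝ}
    (h : ∀ a, HasSum (f a) S) : HasSum (fun b => 𝔼 a, f a b) S := by
  have h1 := (hasSum_sum (s := (univ : Finset α)) fun a _ => h a).div_const (Fintype.card α : ℝ)
  have h2 : (Fintype.card α : ℝ) ≠ 0 := Nat.cast_ne_zero.2 Fintype.card_ne_zero
  rw [sum_const, card_univ, nsmul_eq_mul, mul_div_cancel_left₀ _ h2] at h1
  simpa only [Fintype.expect_eq_sum_div_card] using h1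

/-- integer lift of a vector of residues, scaled by `r` -/
def tupleLift {n p : ℕ} (r : ℕ) (x : Fin n → ZMod p) : Fin n → ℤ :=
  (r : ℤ) • fun i => ((x i).val : ℤ)

theorem tuple_lift_bd {n p : ℕ} [Fact p.Prime] {r : ℕ} {H : ℝ} (h : ((r * p : ℕ) : ℝ) ≤ H)
    (x : Fin n → ZMod p) (i : Fin n) : 0 ≤ tupleLift r x i ∧ (tupleLift r x i : ℝ) ≤ H := by
  have h1 : (((r * (x i).val : ℕ)) : ℝ) ≤ ((r * p : ℕ) : ℝ) :=
    Nat.cast_le.2 (Nat.mul_le_mul_left r (ZMod.val_lt (x i)).le)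
  have h2 : tupleLift r x i = ((r * (x i).val : ℕ) : ℤ) := by
    simp only [tupleLift, Pi.smul_apply, smul_eq_mul, Nat.cast_mul]
  rw [h2, Int.cast_natCast]
  exact ⟨Int.natCast_nonneg _, h1.trans h⟩

/-- one prime against three periodic functions -/
theorem tuple {n : ℕ} {H : ℝ} (hH : 1 ≤ H) (hs : Summable (gW (n := n) H)) (p : ℕ) [Fact p.Prime]
    (Φ : (Fin n → ZMod p) → ℝ) (τ : ℝ) (hτ : 0 ≤ τ) (hU : U3 Φ ≤ τ ^ 8)
    (r : Fin 3 → ℕ) (hr : ∀ j, ¬ p ∣ r j) (hrH : ∀ j, ((r j * p : ℕ) : ℝ) ≤ H)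
    (Ψ : Fin 3 → (Fin n → ℤ) → ℝ) (h1 : ∀ j v, |Ψ j v| ≤ 1)
    (hper : ∀ j v u, Ψ j (v + (r j : ℤ) • u) = Ψ j v) :
    |∑' v : Fin n → ℤ, gw H v * (Φ (red (ZMod p) v) * (Ψ 0 v * Ψ 1 v * Ψ 2 v))| ≤
      τ * ∑' v : Fin n → ℤ, gW H v := by
  obtain ⟨T, hT⟩ : ∃ T : (Fin n → ℤ) → ℝ,
      ∀ v, T v = gw H v * (Φ (red (ZMod p) v) * (Ψ 0 v * Ψ 1 v * Ψ 2 v)) := ⟨_, fun _ => rfl⟩
  simp only [← hT]
  have hTs : Summable T := by
    refine Summable.of_norm_bounded (hs.mul_right (∑ x, |Φ x|)) fun v => ?_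
    have a1 : |Φ (red (ZMod p) v)| ≤ ∑ x, |Φ x| :=
      single_le_sum (f := fun x => |Φ x|) (fun x _ => abs_nonneg _) (mem_univ _)
    have a2 : |Ψ 0 v| * |Ψ 1 v| * |Ψ 2 v| ≤ 1 :=
      mul_le_one₀ (mul_le_one₀ (h1 0 v) (abs_nonneg _) (h1 1 v)) (abs_nonneg _) (h1 2 v)
    rw [hT, Real.norm_eq_abs, abs_mul, abs_mul, abs_mul, abs_mul, abs_of_pos (gw_pos H v)]
    exact mul_le_mul (gw_le_gW hH v) ((mul_le_of_le_one_right (abs_nonneg _) a2).trans a1)
      (by positivity) ((gw_pos H v).le.trans (gw_le_gW hH v))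
  have hsh : ∀ x y z : Fin n → ZMod p, HasSum (fun v => T (v + tupleLift (r 0) x +
      tupleLift (r 1) y + tupleLift (r 2) z)) (∑' v, T v) := by
    intro x y z
    have := (Equiv.addRight (tupleLift (r 0) x + tupleLift (r 1) y +
      tupleLift (r 2) z)).hasSum_iff.2 hTs.hasSum
    simpa only [Function.comp_def, Equiv.coe_addRight, add_assoc] using this
  have hE := tuple_hasSum fun x => tuple_hasSum fun y => tuple_hasSum fun z => hsh x y z
  rw [← hE.tsum_eq, ← Real.norm_eq_abs]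
  refine tsum_of_norm_bounded (hs.hasSum.mul_left τ) fun f => ?_
  obtain ⟨A, B, C, hABC⟩ := gw_split hH f
  have hs3 := fun x y z : Fin n → ZMod p => hABC _ _ _ (tuple_lift_bd (hrH 0) x)
    (tuple_lift_bd (hrH 1) y) (tuple_lift_bd (hrH 2) z)
  have hne : ∀ j, (r j : ZMod p) ≠ 0 := fun j h => hr j ((ZMod.natCast_eq_zero_iff _ _).1 h)
  let e : Fin 3 → (Fin n → ZMod p) ≃ (Fin n → ZMod p) := fun j =>
    Equiv.piCongrRight fun _ => Equiv.mulLeft₀ (r j : ZMod p) (hne j)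
  have hb : ∀ {s t : ℝ}, |s| ≤ 1 → |t| ≤ 1 → |s * t| ≤ 1 := fun hs ht => by
    rw [abs_mul]
    exact mul_le_one₀ hs (abs_nonneg _) ht
  have hg := gvn Φ
    (fun y z => A (tupleLift (r 1) y) (tupleLift (r 2) z) *
      Ψ 0 (f + tupleLift (r 1) y + tupleLift (r 2) z))
    (fun x z => B (tupleLift (r 0) x) (tupleLift (r 2) z) *
      Ψ 1 (f + tupleLift (r 0) x + tupleLift (r 2) z))
    (fun x y => C (tupleLift (r 0) x) (tupleLift (r 1) y) *
      Ψ 2 (f + tupleLift (r 0) x + tupleLift (r 1) y))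
    (fun y z => hb (hs3 0 y z).1 (h1 _ _)) (fun x z => hb (hs3 x 0 z).2.1 (h1 _ _))
    (fun x y => hb (hs3 x y 0).2.2.1 (h1 _ _)) (e 0) (e 1) (e 2) (red (ZMod p) f)
  have hτ' := hg.trans hU
  rw [← Even.pow_abs (by decide : Even 8)] at hτ'
  have h8 := (pow_le_pow_iff_left₀ (abs_nonneg _) hτ (by norm_num)).1 hτ'
  have hW : 0 ≤ gW H f := (gw_pos H f).le.trans (gw_le_gW hH f)
  refine le_of_eq_of_le ?_ ((mul_le_mul_of_nonneg_left h8 hW).trans_eq (mul_comm _ _))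
  rw [Real.norm_eq_abs, ← abs_of_nonneg hW, ← abs_mul]
  congr 1
  simp only [mul_expect]
  refine expect_congr rfl fun x _ => expect_congr rfl fun y _ => expect_congr rfl fun z _ => ?_
  have e0 : Ψ 0 (f + tupleLift (r 0) x + tupleLift (r 1) y + tupleLift (r 2) z) =
      Ψ 0 (f + tupleLift (r 1) y + tupleLift (r 2) z) := by
    rw [← hper 0 (f + tupleLift (r 1) y + tupleLift (r 2) z) fun i => ((x i).val : ℤ)]
    congr 1
    change _ = _ + tupleLift (r 0) x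
    abel
  have e1 : Ψ 1 (f + tupleLift (r 0) x + tupleLift (r 1) y + tupleLift (r 2) z) =
      Ψ 1 (f + tupleLift (r 0) x + tupleLift (r 2) z) := by
    rw [← hper 1 (f + tupleLift (r 0) x + tupleLift (r 2) z) fun i => ((y i).val : ℤ)]
    congr 1
    change _ = _ + tupleLift (r 1) y
    abel
  have e2 : Ψ 2 (f + tupleLift (r 0) x + tupleLift (r 1) y + tupleLift (r 2) z) =
      Ψ 2 (f + tupleLift (r 0) x + tupleLift (r 1) y) :=
    hper 2 (f + tupleLift (r 0) x + tupleLift (r 1) y) fun i => ((z i).val : ℤ)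
  have e3 : red (ZMod p) (f + tupleLift (r 0) x + tupleLift (r 1) y + tupleLift (r 2) z) =
      red (ZMod p) f + e 0 x + e 1 y + e 2 z := by
    funext i
    simp [red, tupleLift, e]
  rw [hT, (hs3 x y z).2.2.2, e0, e1, e2, e3]
  ring

end Pool.Agent.VDW

namespace Pool.Agent.VDW

open Polynomial Finset
open scoped BigOperators

lemma moment_red {n p r : ℕ} (h : p ∣ r) (v u : Fin n → ℤ) :
    red (ZMod p) (v + (r : ℤ) • u) = red (ZMod p) v := by
  funext i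
  have : ((r : ℕ) : ZMod p) = 0 := (ZMod.natCast_eq_zero_iff r p).2 h
  simp [red, this]

lemma moment_summable {n : ℕ} {H : ℝ} (hH : 1 ≤ H) (hs : Summable (gW (n := n) H))
    {f : (Fin n → ℤ) → ℝ} {B : ℝ} (hf : ∀ v, |f v| ≤ B) : Summable fun v => gw H v * f v := by
  refine Summable.of_norm_bounded (hs.mul_right B) fun v => ?_
  rw [Real.norm_eq_abs, abs_mul, abs_of_pos (gw_pos H v)]
  exact mul_le_mul (gw_le_gW hH v) (hf v) (abs_nonneg _) ((gw_pos H v).le.trans (gw_le_gW hH v))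

lemma moment_triv {n : ℕ} {H : ℝ} (hH : 1 ≤ H) (hs : Summable (gW (n := n) H))
    {f : (Fin n → ℤ) → ℝ} {B : ℝ} (hf : ∀ v, |f v| ≤ B) :
    ∑' v, gw H v * f v ≤ B * ∑' v : Fin n → ℤ, gW H v := by
  rw [← tsum_mul_left]
  refine (moment_summable hH hs hf).tsum_le_tsum (fun v => ?_) (hs.mul_left B)
  rw [mul_comm B]
  refine (mul_le_mul_of_nonneg_left ((le_abs_self _).trans (hf v)) (gw_pos H v).le).trans ?_
  exact mul_le_mul_of_nonneg_right (gw_le_gW hH v) ((abs_nonneg _).trans (hf v))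

lemma moment_prod_le {n : ℕ} {K : ℝ} (Φ : (p : Nat.Primes) → (Fin n → ZMod p) → ℝ)
    (hΦ : ∀ p v, |Φ p v| ≤ K) (t : Fin 10 → Nat.Primes) (v : Fin n → ℤ) :
    |∏ i, Φ (t i) (red (ZMod (t i)) v)| ≤ K ^ 10 := by
  rw [Finset.abs_prod]
  refine (Finset.prod_le_prod (fun i _ => abs_nonneg _) fun i _ => hΦ _ _).trans ?_
  simp

lemma moment_count {α : Type} [DecidableEq α] (PP : Finset α) (hP : PP.Nonempty) :
    𝔼 t ∈ Fintype.piFinset fun _ : Fin 10 => PP, ind (∀ i, ∃ j, j ≠ i ∧ t j = t i) ≤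
      5 ^ 10 / (PP.card : ℝ) ^ 5 := by
  classical
  have hc : (0 : ℝ) < PP.card := by exact_mod_cast hP.card_pos
  rw [expect_ind, Fintype.card_piFinset_const]
  have hsub : ((Fintype.piFinset fun _ : Fin 10 => PP).filter
      fun t => ∀ i, ∃ j, j ≠ i ∧ t j = t i) ⊆
      ((Fintype.piFinset fun _ : Fin 5 => PP) ×ˢ (univ : Finset (Fin 10 → Fin 5))).image
        fun x => x.1 ∘ x.2 := by
    intro t ht
    rw [mem_filter, Fintype.mem_piFinset] at ht
    have h2 : 2 * (univ.image t).card ≤ (univ : Finset (Fin 10)).card := by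
      refine Finset.mul_card_image_le_card _ _ fun a ha => ?_
      obtain ⟨i, -, rfl⟩ := mem_image.1 ha
      obtain ⟨j, hj, hji⟩ := ht.2 i
      exact Finset.one_lt_card.2 ⟨j, by simp [hji], i, by simp, hj⟩
    have h5 : Fintype.card (univ.image t) ≤ Fintype.card (Fin 5) := by
      simp only [card_univ, Fintype.card_fin, Fintype.card_coe] at h2 ⊢
      omega
    obtain ⟨e⟩ := Function.Embedding.nonempty_of_card_le h5
    have hne : Nonempty (univ.image t) := ⟨⟨t 0, by simp⟩⟩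
    refine mem_image.2 ⟨(fun j => (Function.invFun e j : univ.image t).1,
      fun i => e ⟨t i, by simp⟩), ?_, ?_⟩
    · simp only [mem_product, Fintype.mem_piFinset, mem_univ, and_true]
      intro j
      obtain ⟨i, -, hi⟩ := mem_image.1 (Function.invFun e j : univ.image t).2
      rw [← hi]
      exact ht.1 i
    · funext i
      simp only [Function.comp_apply]
      rw [Function.leftInverse_invFun e.injective]
  have hcard := (card_le_card hsub).trans card_image_le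
  rw [card_product, Fintype.card_piFinset_const, card_univ, Fintype.card_fun,
    Fintype.card_fin, Fintype.card_fin] at hcard
  have hcard' : ((((Fintype.piFinset fun _ : Fin 10 => PP).filter
      fun t => ∀ i, ∃ j, j ≠ i ∧ t j = t i).card : ℕ) : ℝ) ≤ (PP.card : ℝ) ^ 5 * 5 ^ 10 := by
    exact_mod_cast hcard
  rw [div_le_div_iff₀ (by positivity) (by positivity)]
  push_cast
  calc _ ≤ ((PP.card : ℝ) ^ 5 * 5 ^ 10) * (PP.card : ℝ) ^ 5 :=
        mul_le_mul_of_nonneg_right hcard' (by positivity)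
    _ = _ := by ring

lemma moment_single {n : ℕ} {K H : ℝ} (hK : 1 ≤ K) (hH : 1 ≤ H)
    (hs : Summable (gW (n := n) H)) {P : ℕ} (hPH : (P : ℝ) ^ 4 ≤ H)
    (Φ : (p : Nat.Primes) → (Fin n → ZMod p) → ℝ) (hΦ : ∀ p v, |Φ p v| ≤ K)
    {τ : ℝ} (hτ : 0 ≤ τ) (t : Fin 10 → Nat.Primes) (ht : ∀ i, (t i : ℕ) ≤ P) (i0 : Fin 10)
    (hU : U3 (Φ (t i0)) ≤ τ ^ 8) (h0 : ∀ j, j ≠ i0 → t j ≠ t i0) :
    ∑' v, gw H v * ∏ i, Φ (t i) (red (ZMod (t i)) v) ≤
      K ^ 9 * (τ * ∑' v : Fin n → ℤ, gW H v) := by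
  have hK0 : 0 < K := by linarith
  let q : Fin 3 → Fin 3 → Nat.Primes := fun j i =>
    t (i0.succAbove ⟨3 * j + i, by omega⟩)
  let r : Fin 3 → ℕ := fun j => q j 0 * q j 1 * q j 2
  let Ψ : Fin 3 → (Fin n → ℤ) → ℝ := fun j v =>
    Φ (q j 0) (red (ZMod (q j 0)) v) * Φ (q j 1) (red (ZMod (q j 1)) v) *
      Φ (q j 2) (red (ZMod (q j 2)) v) / K ^ 3
  have hq : ∀ j i, ¬ (t i0 : ℕ) ∣ q j i := fun j i h =>
    h0 _ (Fin.succAbove_ne i0 _)
      (Subtype.ext ((Nat.prime_dvd_prime_iff_eq (t i0).2 (q j i).2).1 h).symm)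
  have hr : ∀ j, ¬ (t i0 : ℕ) ∣ r j := fun j h => by
    rcases (Nat.Prime.dvd_mul (t i0).2).1 h with h | h
    · rcases (Nat.Prime.dvd_mul (t i0).2).1 h with h | h
      exacts [hq j 0 h, hq j 1 h]
    · exact hq j 2 h
  have hqP : ∀ j i, (q j i : ℕ) ≤ P := fun j i => ht _
  have hrH : ∀ j, ((r j * (t i0 : ℕ) : ℕ) : ℝ) ≤ H := fun j => by
    refine le_trans ?_ hPH
    have : r j * (t i0 : ℕ) ≤ P ^ 4 := by
      rw [show P ^ 4 = P * P * P * P by ring]
      exact Nat.mul_le_mul (Nat.mul_le_mul (Nat.mul_le_mul (hqP j 0) (hqP j 1)) (hqP j 2)) (ht i0)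
    exact_mod_cast this
  have h1 : ∀ j v, |Ψ j v| ≤ 1 := fun j v => by
    simp only [Ψ]
    rw [abs_div, abs_of_pos (pow_pos hK0 3), div_le_one (pow_pos hK0 3), abs_mul, abs_mul,
      show K ^ 3 = K * K * K by ring]
    exact mul_le_mul (mul_le_mul (hΦ _ _) (hΦ _ _) (abs_nonneg _) hK0.le) (hΦ _ _) (abs_nonneg _)
      (by positivity)
  have hper : ∀ j v u, Ψ j (v + (r j : ℤ) • u) = Ψ j v := fun j v u => by
    simp only [Ψ]
    rw [moment_red (p := q j 0) (dvd_mul_of_dvd_left (dvd_mul_right _ _) _),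
      moment_red (p := q j 1) (dvd_mul_of_dvd_left (dvd_mul_left _ _) _),
      moment_red (p := q j 2) (dvd_mul_left _ _)]
  have key := tuple hH hs (t i0) (Φ (t i0)) τ hτ hU r hr hrH Ψ h1 hper
  have e : ∀ v, gw H v * ∏ i, Φ (t i) (red (ZMod (t i)) v) =
      K ^ 9 * (gw H v * (Φ (t i0) (red (ZMod (t i0)) v) * (Ψ 0 v * Ψ 1 v * Ψ 2 v))) := fun v => by
    rw [Fin.prod_univ_succAbove _ i0]
    have : ∏ k : Fin 9, Φ (t (i0.succAbove k)) (red (ZMod (t (i0.succAbove k))) v) =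
        K ^ 9 * (Ψ 0 v * Ψ 1 v * Ψ 2 v) := by
      have g : ∀ f : Fin 9 → ℝ, ∏ k, f k =
          K ^ 9 * (f 0 * f 1 * f 2 / K ^ 3 * (f 3 * f 4 * f 5 / K ^ 3) *
            (f 6 * f 7 * f 8 / K ^ 3)) := fun f => by
        rw [Fin.prod_univ_succ, Fin.prod_univ_eight]
        field_simp
        rfl
      exact g _
    rw [this]; ring
  simp only [e]
  rw [tsum_mul_left]
  exact mul_le_mul_of_nonneg_left ((le_abs_self _).trans key) (by positivity)

/-- the tenth moment sieve -/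
theorem moment (n : ℕ) (K : ℝ) (hK : 1 ≤ K) : ∃ A : ℝ, 0 ≤ A ∧ ∀ H : ℝ, 1 ≤ H →
    ∀ (PP : Finset Nat.Primes) (P : ℕ), PP.Nonempty → (∀ p ∈ PP, (p : ℕ) ≤ P) → (P : ℝ) ^ 4 ≤ H →
    ∀ (Φ : (p : Nat.Primes) → (Fin n → ZMod p) → ℝ), (∀ p v, |Φ p v| ≤ K) →
    ∀ τ : ℝ, 0 ≤ τ → (∀ p ∈ PP, U3 (Φ p) ≤ τ ^ 8) →
    ∀ S : Finset (Fin n → ℤ), (∀ a ∈ S, ∀ i, |(a i : ℝ)| ≤ H) →
      (∀ a ∈ S, 1 / 2 ≤ 𝔼 p ∈ PP, Φ p (red (ZMod p) a)) →
      (S.card : ℝ) ≤ A * H ^ n * (1 / (PP.card : ℝ) ^ 5 + τ) := by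
  classical
  obtain ⟨A0, hA0, hW⟩ := gW_sum
  have hK0 : 0 < K := by linarith
  refine ⟨Real.exp n * 2 ^ 10 * A0 ^ n * (5 ^ 10 * K ^ 10), by positivity, ?_⟩
  intro H hH PP P hne hP hPH Φ hΦ τ hτ hU S hS hE
  obtain ⟨hs, hWle⟩ := hW n H hH
  set W := ∑' v : Fin n → ℤ, gW H v with hWdef
  have hW0 : 0 ≤ W := tsum_nonneg fun v => (gw_pos H v).le.trans (gw_le_gW hH v)
  have hc : (0 : ℝ) < PP.card := by exact_mod_cast hne.card_pos
  set T := Fintype.piFinset fun _ : Fin 10 => PP with hT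
  have hTne : T.Nonempty := Fintype.piFinset_nonempty.2 fun _ => hne
  let G : (Fin n → ℤ) → ℝ := fun v => (𝔼 p ∈ PP, Φ p (red (ZMod p) v)) ^ 10
  have hG0 : ∀ v, 0 ≤ G v := fun v => Even.pow_nonneg (by decide) _
  have hGK : ∀ v, |G v| ≤ K ^ 10 := fun v => by
    simp only [G]
    rw [abs_pow]
    exact pow_le_pow_left₀ (abs_nonneg _) (abs_expect_le' hK0.le fun p _ => hΦ _ _) _
  have s1 : (S.card : ℝ) * (Real.exp (-(n : ℝ)) * (1 / 2) ^ 10) ≤ ∑' v, gw H v * G v := by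
    refine le_trans ?_ ((moment_summable hH hs hGK).sum_le_tsum S
      fun v _ => mul_nonneg (gw_pos H v).le (hG0 v))
    rw [← nsmul_eq_mul]
    refine Finset.card_nsmul_le_sum _ _ _ fun a ha => ?_
    exact mul_le_mul (le_gw hH a (hS a ha)) (pow_le_pow_left₀ (by norm_num) (hE a ha) _)
      (by positivity) (gw_pos H a).le
  have s2 : ∑' v, gw H v * G v =
      𝔼 t ∈ T, ∑' v, gw H v * ∏ i, Φ (t i) (red (ZMod (t i)) v) := by
    rw [expect_eq_sum_div_card, ← Summable.tsum_finsetSum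
      fun t _ => moment_summable hH hs (moment_prod_le Φ hΦ t), ← tsum_div_const]
    refine tsum_congr fun v => ?_
    simp only [G]
    rw [expect_pow, expect_eq_sum_div_card, ← Finset.mul_sum, mul_div_assoc]
  have s3 : ∀ t ∈ T, ∑' v, gw H v * ∏ i, Φ (t i) (red (ZMod (t i)) v) ≤
      K ^ 9 * (τ * W) + K ^ 10 * W * ind (∀ i, ∃ j, j ≠ i ∧ t j = t i) := fun t ht => by
    have ht' := Fintype.mem_piFinset.1 ht
    by_cases h : ∀ i, ∃ j, j ≠ i ∧ t j = t i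
    · rw [ind_pos h, mul_one]
      exact (moment_triv hH hs (moment_prod_le Φ hΦ t)).trans
        (le_add_of_nonneg_left (by positivity))
    · rw [ind_neg h, mul_zero, add_zero]
      push Not at h
      obtain ⟨i0, h0⟩ := h
      exact moment_single hK hH hs hPH Φ hΦ hτ t (fun i => hP _ (ht' i)) i0 (hU _ (ht' i0)) h0
  have s4 : ∑' v, gw H v * G v ≤ K ^ 9 * (τ * W) + K ^ 10 * W * (5 ^ 10 / (PP.card : ℝ) ^ 5) := by
    rw [s2]
    refine (expect_le_expect s3).trans ?_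
    rw [expect_add_distrib, expect_const hTne, ← mul_expect]
    exact add_le_add le_rfl (mul_le_mul_of_nonneg_left (moment_count PP hne) (by positivity))
  have s5 : K ^ 9 * (τ * W) + K ^ 10 * W * (5 ^ 10 / (PP.card : ℝ) ^ 5) ≤
      W * (5 ^ 10 * K ^ 10) * (1 / (PP.card : ℝ) ^ 5 + τ) := by
    have h9 : K ^ 9 ≤ 5 ^ 10 * K ^ 10 :=
      (pow_le_pow_right₀ hK (by norm_num)).trans (le_mul_of_one_le_left (by positivity)
        (by norm_num))
    have := mul_le_mul_of_nonneg_right h9 (mul_nonneg hτ hW0)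
    calc _ ≤ 5 ^ 10 * K ^ 10 * (τ * W) + K ^ 10 * W * (5 ^ 10 / (PP.card : ℝ) ^ 5) := by linarith
      _ = _ := by ring
  have s6 : W * (5 ^ 10 * K ^ 10) * (1 / (PP.card : ℝ) ^ 5 + τ) ≤
      (A0 * H) ^ n * (5 ^ 10 * K ^ 10) * (1 / (PP.card : ℝ) ^ 5 + τ) := by gcongr
  have s7 := s1.trans (s4.trans (s5.trans s6))
  have he : Real.exp (-(n : ℝ)) * (1 / 2) ^ 10 * (Real.exp n * 2 ^ 10) = 1 := by
    rw [Real.exp_neg]; field_simp
  calc (S.card : ℝ) = S.card * (Real.exp (-(n : ℝ)) * (1 / 2) ^ 10) * (Real.exp n * 2 ^ 10) := by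
        rw [mul_assoc, he, mul_one]
    _ ≤ (A0 * H) ^ n * (5 ^ 10 * K ^ 10) * (1 / (PP.card : ℝ) ^ 5 + τ) * (Real.exp n * 2 ^ 10) :=
        mul_le_mul_of_nonneg_right s7 (by positivity)
    _ = _ := by rw [mul_pow]; ring

end Pool.Agent.VDW

namespace Pool.Agent.VDW

open Polynomial Finset
open scoped BigOperators

theorem primeL_bound (c N : ℕ) (hN : 2 < N) (h : ∀ p : ℕ, p.Prime → N + c < p → 2 * N < p) :
    N.centralBinom ≤ (2 * N) ^ ((2 * N).sqrt + c) * 4 ^ (2 * N / 3) := by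
  classical
  have h2 : 0 < 2 * N := by omega
  set A := Ioc 0 (2 * N).sqrt ∪ Ioc N (N + c) with hA
  rw [← N.prod_pow_factorization_centralBinom]
  calc ∏ p ∈ range (2 * N + 1), p ^ N.centralBinom.factorization p
      ≤ ∏ p ∈ range (2 * N + 1), ((if p ∈ A then 2 * N else 1) *
          if p ∈ (range (2 * N / 3 + 1)).filter Nat.Prime then p else 1) := by
        refine prod_le_prod' fun p hp => ?_
        by_cases hpp : p.Prime
        swap
        · rw [Nat.factorization_eq_zero_of_not_prime _ hpp, pow_zero, if_neg (c := p ∈ filter _ _)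
            (by simp [hpp]), mul_one]
          split_ifs <;> omega
        have h1 := hpp.one_lt
        by_cases ha : p ∈ A
        · rw [if_pos ha]
          refine (Nat.pow_factorization_choose_le h2).trans (Nat.le_mul_of_pos_right _ ?_)
          split_ifs <;> omega
        rw [if_neg ha, one_mul]
        simp only [hA, mem_union, mem_Ioc, mem_range, not_or, not_and, not_le] at ha hp
        split_ifs with hb
        · refine (pow_right_mono₀ h1.le ?_).trans (pow_one p).le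
          exact Nat.factorization_choose_le_one (Nat.sqrt_lt'.mp (ha.1 (by omega)))
        · simp only [mem_filter, mem_range, hpp, and_true] at hb
          have h3 : p ≤ N := by
            by_contra h4
            have := h p hpp (ha.2 (by omega))
            omega
          rw [Nat.factorization_centralBinom_of_two_mul_self_lt_three_mul hN h3 (by omega),
            pow_zero]
    _ ≤ _ := by
        rw [prod_mul_distrib, prod_ite_mem, prod_ite_mem, prod_const]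
        refine mul_le_mul' (pow_right_mono₀ h2 ?_) (le_trans ?_ (primorial_le_four_pow _))
        · refine (card_le_card inter_subset_right).trans ((card_union_le _ _).trans ?_)
          simp
        · exact prod_le_prod_of_subset_of_one_le' inter_subset_right
            fun p hp _ => (mem_filter.1 hp).2.one_lt.le

theorem primeL_pow (t : ℕ) (ht : 4 ≤ t) : 24 * (t + 1) ≤ 4 ^ t := by
  induction t, ht using Nat.le_induction with
  | base => norm_num
  | succ t _ ih => rw [pow_succ]; omega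

theorem primeL_ineq (c N : ℕ) (hN : (96 + c) ^ 2 ≤ 2 * N) :
    N * ((2 * N) ^ ((2 * N).sqrt + c) * 4 ^ (2 * N / 3)) ≤ 4 ^ N := by
  have h1 : 96 + c ≤ (2 * N).sqrt := Nat.le_sqrt'.2 hN
  have h2 := Nat.sqrt_le' (2 * N)
  have h3 := Nat.lt_succ_sqrt' (2 * N)
  generalize (2 * N).sqrt = s at h1 h2 h3
  have h4 := primeL_pow (s / 24) (by omega)
  have h5 : s + 1 ≤ 4 ^ (s / 24) := by omega
  have h6 : 24 * (s / 24) * s ≤ s ^ 2 := by
    rw [sq]; exact Nat.mul_le_mul_right _ (Nat.mul_div_le s 24)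
  have h0 : 1 ≤ 2 * N := by nlinarith
  calc N * ((2 * N) ^ (s + c) * 4 ^ (2 * N / 3))
      ≤ (2 * N) ^ (s + c + 1) * 4 ^ (2 * N / 3) := by
        rw [pow_succ, ← mul_assoc, mul_comm N]
        gcongr
        omega
    _ ≤ ((4 ^ (s / 24)) ^ 2) ^ (2 * s) * 4 ^ (2 * N / 3) := by
        refine Nat.mul_le_mul_right _ ((pow_right_mono₀ h0 (by omega : s + c + 1 ≤ 2 * s)).trans
          (Nat.pow_le_pow_left (h3.le.trans (Nat.pow_le_pow_left h5 2)) _))
    _ ≤ 4 ^ N := by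
        rw [← pow_mul, ← pow_mul, ← pow_add]
        refine pow_right_mono₀ (by norm_num) ?_
        have : s / 24 * (2 * (2 * s)) * 6 = 24 * (s / 24) * s := by ring
        omega

/-- a prime well inside the Bertrand range -/
theorem primeL (c : ℕ) : ∃ n₀ : ℕ, ∀ n, n₀ ≤ n →
    ∃ l m : ℕ, l.Prime ∧ n = l + m ∧ c ≤ m ∧ m + c ≤ l := by
  refine ⟨(96 + c) ^ 2 + c + 1, fun n hn => ?_⟩
  have h0 : 96 ^ 2 ≤ (96 + c) ^ 2 := Nat.pow_le_pow_left (by omega) 2
  by_contra h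
  have h1 := primeL_bound c ((n - c) / 2) (by omega) fun p hp h1 => by
    by_contra h2
    exact h ⟨p, n - p, hp, by omega, by omega, by omega⟩
  have h2 := primeL_ineq c ((n - c) / 2) (by omega)
  have h3 := Nat.four_pow_lt_mul_centralBinom ((n - c) / 2) (by omega)
  exact absurd (h3.trans_le ((Nat.mul_le_mul_left _ h1).trans h2)) (lt_irrefl _)

end Pool.Agent.VDW

namespace Pool.Agent.VDW

open Polynomial Finset
open scoped BigOperators

theorem primeP_sum (P : ℕ) : Chebyshev.theta P - Chebyshev.theta (P / 4 : ℕ) ≤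
    ((Nat.primesLE P \ Nat.primesLE (P / 4)).card : ℝ) * Real.log P := by
  have hs : Nat.primesLE (P / 4) ⊆ Nat.primesLE P := fun p hp => by
    rw [Nat.mem_primesLE] at hp ⊢
    exact ⟨by omega, hp.2⟩
  rw [Chebyshev.theta_eq_sum_primesLE_log, Chebyshev.theta_eq_sum_primesLE_log, ← sum_sdiff hs,
    add_sub_cancel_right, ← nsmul_eq_mul]
  refine sum_le_card_nsmul _ _ _ fun p hp => ?_
  obtain ⟨h1, h2⟩ := Nat.mem_primesLE.1 (mem_sdiff.1 hp).1
  exact Real.log_le_log (by exact_mod_cast h2.pos) (by exact_mod_cast h1)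

theorem primeP_card {P : ℕ} (hP : 2000 ^ 100 ≤ P) :
    (P : ℝ) ^ (49 / 50 : ℝ) ≤ ((Nat.primesLE P \ Nat.primesLE (P / 4)).card : ℝ) := by
  have hP' : (2000 : ℝ) ^ 100 ≤ P := by exact_mod_cast hP
  have h2 : (2 : ℝ) ≤ P := le_trans (by norm_num) hP'
  have h0 : (0 : ℝ) < P := by linarith
  obtain ⟨u, hu⟩ : ∃ u : ℝ, u = (P : ℝ) ^ (1 / 100 : ℝ) := ⟨_, rfl⟩
  have hu0 : 0 < u := hu ▸ Real.rpow_pos_of_pos h0 _
  have hpow : ∀ n : ℕ, u ^ n = (P : ℝ) ^ ((n : ℝ) / 100) := fun n => by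
    rw [hu, ← Real.rpow_natCast, ← Real.rpow_mul h0.le]
    congr 1
    ring
  have e1 : u ^ 100 = P := by rw [hpow]; norm_num
  have e2 : u ^ 98 = (P : ℝ) ^ (49 / 50 : ℝ) := by rw [hpow]; norm_num
  have e3 : u ^ 50 = √P := by rw [hpow, Real.sqrt_eq_rpow]; norm_num
  have hu1 : 2000 ≤ u := le_of_pow_le_pow_left₀ (n := 100) (by norm_num) hu0.le (hP'.trans e1.ge)
  have hL : Real.log P ≤ 100 * u := by
    have := Real.log_le_rpow_div h0.le (show (0 : ℝ) < 1 / 100 by norm_num)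
    rw [← hu] at this
    linarith
  have hL0 : 0 < Real.log P := Real.log_pos (by linarith)
  have hL1 : Real.log (P + 1) ≤ 2 * Real.log P := by
    have : Real.log ((P : ℝ) ^ 2) = 2 * Real.log P := by rw [Real.log_pow]; norm_num
    rw [← this]
    exact Real.log_le_log (by linarith) (by nlinarith)
  have t1 := Chebyshev.theta_ge P
  have t2 := Chebyshev.theta_le_log4_mul_x (x := ((P / 4 : ℕ) : ℝ)) (Nat.cast_nonneg _)
  have t3 : ((P / 4 : ℕ) : ℝ) ≤ P / 4 := by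
    exact_mod_cast Nat.cast_div_le (α := ℝ) (m := P) (n := 4)
  have l4 : Real.log 4 = 2 * Real.log 2 := by
    rw [show (4 : ℝ) = 2 ^ 2 by norm_num, Real.log_pow]; norm_num
  have l2 : 1 / 2 ≤ Real.log 2 := by linarith [Real.log_two_gt_d9]
  have t4 := primeP_sum P
  have t5 : Real.log 4 * ((P / 4 : ℕ) : ℝ) ≤ P * Real.log 2 / 2 := by
    rw [l4]
    nlinarith
  have t6 : (P : ℝ) / 4 ≤ P * Real.log 2 / 2 := by nlinarith
  have p1 : 1 ≤ u ^ 98 := one_le_pow₀ (by linarith)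
  have p2 : u ^ 50 ≤ u ^ 98 := pow_le_pow_right₀ (by linarith) (by norm_num)
  have p3 : 5 * u ^ 98 * Real.log P ≤ P / 4 := by
    have a1 : 5 * u ^ 98 * Real.log P ≤ 5 * u ^ 98 * (100 * u) := by gcongr
    have a2 : 5 * u ^ 98 * (100 * u) = u ^ 99 * 2000 / 4 := by ring
    have a3 : u ^ 99 * 2000 ≤ u ^ 99 * u := by gcongr
    have a4 : u ^ 99 * u = P := by rw [← e1]; ring
    linarith
  rw [← e3] at t1
  rw [← e2]
  refine le_of_mul_le_mul_right ?_ hL0
  have p4 : u ^ 50 * Real.log P ≤ u ^ 98 * Real.log P := by gcongr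
  have p5 : 1 * Real.log P ≤ u ^ 98 * Real.log P := by gcongr
  linarith

/-- many primes between `P / 4` and `P` -/
theorem primeP : ∃ P₀ : ℕ, ∀ P : ℕ, P₀ ≤ P → ∃ S : Finset Nat.Primes,
    (P : ℝ) ^ (49 / 50 : ℝ) ≤ S.card ∧ ∀ p ∈ S, (p : ℕ) ≤ P ∧ P < 4 * (p : ℕ) := by
  refine ⟨2000 ^ 100, fun P hP => ?_⟩
  refine ⟨(Nat.primesLE P \ Nat.primesLE (P / 4)).subtype Nat.Prime, ?_, fun p hp => ?_⟩
  · refine (primeP_card hP).trans (le_of_eq ?_)
    congr 1
    refine ((card_subtype _ _).trans ?_).symm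
    rw [filter_true_of_mem fun p hp => (Nat.mem_primesLE.1 (mem_sdiff.1 hp).1).2]
  · obtain ⟨h1, h2⟩ := mem_sdiff.1 (mem_subtype.1 hp)
    rw [Nat.mem_primesLE] at h1 h2
    have h3 : ¬ (p : ℕ) ≤ P / 4 := fun h => h2 ⟨h, h1.2⟩
    exact ⟨h1.1, by omega⟩

end Pool.Agent.VDW
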