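import Pool.Agent.P.MP_b0ea37_nt.Base

namespace Pool.Agent.VDW

open Polynomial Finset
open scoped BigOperators

variable {F : Type} [Field F] [Fintype F] [DecidableEq F]

/-- the functional with coefficient vector `c` -/
noncomputable def fourXi {n : ℕ} (c : Fin n → F) : F[X] →ₗ[F] F :=
  ∑ i : Fin n, c i • lcoeff F (i : ℕ)

omit [Fintype F] [DecidableEq F] in
lemma four_xi_add {n : ℕ} (c c' : Fin n → F) (v : F[X]) :
    fourXi (c + c') v = fourXi c v + fourXi c' v := by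
  simp [fourXi, LinearMap.sum_apply, add_mul, sum_add_distrib]

omit [Fintype F] [DecidableEq F] in
lemma four_xi_single {n : ℕ} (i : Fin n) (x : F) (v : F[X]) :
    fourXi (Pi.single i x : Fin n → F) v = x * v.coeff i := by
  simp only [fourXi, LinearMap.sum_apply, LinearMap.smul_apply, lcoeff_apply, smul_eq_mul]
  rw [Finset.sum_eq_single i]
  · simp
  · intro j _ hj
    simp [Pi.single_eq_of_ne hj]
  · simp

lemma four_orth {ψ : AddChar F ℂ} (hψ : ψ ≠ 1) {n : ℕ} {v : F[X]} (hv : v ∈ V F n) (h0 : v ≠ 0) :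
    𝔼 c : Fin n → F, ψ (fourXi c v) = 0 := by
  obtain ⟨x, hx⟩ := AddChar.ne_one_iff.1 hψ
  have hd : v.natDegree < n := by
    rcases mem_V_iff.1 hv with h | h
    · exact absurd h h0
    · exact h
  have hc : v.coeff v.natDegree ≠ 0 := leadingCoeff_ne_zero.2 h0
  have h1 : 𝔼 c : Fin n → F, ψ (fourXi (c + Pi.single ⟨_, hd⟩ (x / v.coeff v.natDegree)) v) =
      𝔼 c : Fin n → F, ψ (fourXi c v) :=
    Fintype.expect_equiv (Equiv.addRight _) _ _ fun _ => rfl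
  simp only [four_xi_add, four_xi_single, div_mul_cancel₀ x hc, AddChar.map_add_eq_mul] at h1
  rw [← expect_mul] at h1
  by_contra hne
  exact hx (mul_left_cancel₀ hne (h1.trans (mul_one _).symm))

lemma four_parseval {ψ : AddChar F ℂ} {n : ℕ} (ξ : (Fin n → F) → F[X] →ₗ[F] F)
    (hξ : ∀ v ∈ V F n, v ≠ 0 → 𝔼 c : Fin n → F, ψ (ξ c v) = 0)
    (S : Finset F[X]) (hS : ∀ a ∈ S, ∀ b ∈ S, a - b ∈ V F n) (u : F[X] → ℂ) :
    𝔼 c : Fin n → F, ‖𝔼 w ∈ S, u w * ψ (ξ c w)‖ ^ 2 = (𝔼 w ∈ S, ‖u w‖ ^ 2) / S.card := by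
  apply Complex.ofReal_injective
  rw [ofReal_expect]
  simp only [norm_sq_expect]
  have e1 : ∀ (c : Fin n → F) (w w' : F[X]),
      u w * ψ (ξ c w) * (starRingEnd ℂ) (u w' * ψ (ξ c w')) =
        u w * (starRingEnd ℂ) (u w') * ψ (ξ c (w - w')) := by
    intro c w w'
    rw [map_mul, conj_psi, map_sub, sub_eq_add_neg, AddChar.map_add_eq_mul]
    ring
  simp only [e1]
  rw [expect_comm]
  push_cast
  rw [expect_div]
  refine expect_congr rfl fun w hw => ?_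
  rw [expect_comm]
  have e2 : ∀ w' ∈ S, 𝔼 c : Fin n → F, u w * (starRingEnd ℂ) (u w') * ψ (ξ c (w - w')) =
      if w' = w then u w * (starRingEnd ℂ) (u w) else 0 := by
    intro w' hw'
    rw [← mul_expect]
    split_ifs with h
    · subst h
      simp
    · rw [hξ _ (hS w hw w' hw') (sub_ne_zero.2 (Ne.symm h)), mul_zero]
  rw [expect_congr rfl e2, expect_eq_sum_div_card, sum_ite_eq' S w, if_pos hw, Complex.mul_conj,
    Complex.normSq_eq_norm_sq]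
  push_cast
  rfl

/-- Parseval bound for a correlation -/
theorem cor {ψ : AddChar F ℂ} (hψ : ψ ≠ 1) (n : ℕ) (g₁ g₂ : F[X] → ℂ) (ε : ℝ)
    (h : ∀ L : F[X] →ₗ[F] F, ‖𝔼 f ∈ M F n, g₂ f * ψ (L f)‖ ≤ ε) :
    𝔼 w ∈ V F n, ‖𝔼 f ∈ M F n, g₁ f * g₂ (f + w)‖ ^ 2 ≤ ε ^ 2 * 𝔼 f ∈ M F n, ‖g₁ f‖ ^ 2 := by
  have p1 := four_parseval (ψ := ψ) (n := n) fourXi (fun v hv h0 => four_orth hψ hv h0) (V F n)
    (fun a ha b hb => V_sub ha hb) (fun w => 𝔼 f ∈ M F n, g₁ f * g₂ (f + w))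
  have p2 := four_parseval (ψ := ψ) (n := n) (fun c => -fourXi c)
    (fun v hv h0 => by
      have := four_orth hψ (V_neg hv) (neg_ne_zero.2 h0)
      simpa only [map_neg, LinearMap.neg_apply] using this) (M F n)
    (fun a ha b hb => M_sub_M ha hb) g₁
  have key : ∀ c : Fin n → F,
      𝔼 w ∈ V F n, (𝔼 f ∈ M F n, g₁ f * g₂ (f + w)) * ψ (fourXi c w) =
        (𝔼 f ∈ M F n, g₁ f * ψ ((-fourXi c) f)) * 𝔼 g ∈ M F n, g₂ g * ψ (fourXi c g) := by
    intro c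
    simp only [expect_mul]
    rw [expect_comm]
    refine expect_congr rfl fun f hf => ?_
    rw [expect_M_base hf, mul_expect]
    refine expect_congr rfl fun w _ => ?_
    have : ψ ((-fourXi c) f) * ψ (fourXi c (f + w)) = ψ (fourXi c w) := by
      rw [← AddChar.map_add_eq_mul, (fourXi c).map_add, LinearMap.neg_apply, neg_add_cancel_left]
    rw [← this]
    ring
  simp only [key] at p1
  have hq : (0 : ℝ) < Q F ^ n := pow_pos Q_pos n
  rw [card_V_real] at p1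
  rw [card_M_real] at p2
  have hle : 𝔼 c : Fin n → F, ‖(𝔼 f ∈ M F n, g₁ f * ψ ((-fourXi c) f)) *
      𝔼 g ∈ M F n, g₂ g * ψ (fourXi c g)‖ ^ 2 ≤
      ε ^ 2 * 𝔼 c : Fin n → F, ‖𝔼 f ∈ M F n, g₁ f * ψ ((-fourXi c) f)‖ ^ 2 := by
    rw [mul_expect]
    refine expect_le_expect fun c _ => ?_
    rw [norm_mul, mul_pow, mul_comm]
    gcongr
    exact h _
  rw [p1, p2, ← mul_div_assoc] at hle
  exact (div_le_div_iff_of_pos_right hq).1 hle

end Pool.Agent.VDW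

namespace Pool.Agent.VDW

open Polynomial Finset
open scoped BigOperators

variable {F : Type} [Field F] [Fintype F] [DecidableEq F]

lemma hankel_count {L : F[X] →ₗ[F] F} {ρ D s E j : ℕ} {B : F[X]}
    (h : 1 / Q F ^ ρ ≤ 𝔼 w ∈ V F D, ind (Kills L w s)) (hB : ∀ g ∈ V F E, B * g ∈ V F D)
    (hj : ∀ g ∈ V F E, Kills L (B * g) s → g ∈ V F j) : E ≤ j + ρ := by
  classical
  have hq := two_le_Q (F := F)
  have hm : (X ^ j : F[X]).Monic := monic_X_pow j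
  have hc : (V F E ×ˢ (V F D).filter fun w => Kills L w s).card ≤ (V F D ×ˢ V F j).card := by
    refine card_le_card_of_injOn (fun p => (B * p.1 + p.2, p.1 %ₘ X ^ j)) ?_ ?_
    · rintro ⟨g, w⟩ hp
      simp only [coe_product, Set.mem_prod, mem_coe, mem_filter] at hp ⊢
      exact ⟨V_add (hB g hp.1) hp.2.1, mem_V.2 (by simpa using degree_modByMonic_lt g hm)⟩
    · rintro ⟨g, w⟩ hp ⟨g', w'⟩ hp' e
      simp only [coe_product, Set.mem_prod, mem_coe, mem_filter, Prod.mk.injEq] at hp hp' e ⊢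
      have h1 : B * (g - g') = w' - w := by linear_combination e.1
      have h2 : g - g' ∈ V F j := hj _ (V_sub hp.1 hp'.1) fun u hu => by
        rw [h1, sub_mul, map_sub, hp.2.2 u hu, hp'.2.2 u hu, sub_zero]
      have h3 : (g - g') %ₘ X ^ j = g - g' :=
        (modByMonic_eq_self_iff hm).2 (by simpa using mem_V.1 h2)
      rw [sub_modByMonic, e.2, sub_self] at h3
      rw [← h3, mul_zero] at h1
      exact ⟨sub_eq_zero.1 h3.symm, (sub_eq_zero.1 h1.symm).symm⟩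
  rw [expect_ind, card_V_real, div_le_div_iff₀ (by positivity) (by positivity), one_mul] at h
  rw [card_product, card_product, ← Nat.cast_le (α := ℝ)] at hc
  push_cast at hc
  rw [card_V_real, card_V_real, card_V_real] at hc
  have h1 : Q F ^ E * Q F ^ D ≤ Q F ^ (j + ρ) * Q F ^ D :=
    calc _ ≤ Q F ^ E * (_ * Q F ^ ρ) := by gcongr
      _ = Q F ^ E * _ * Q F ^ ρ := (mul_assoc _ _ _).symm
      _ ≤ Q F ^ D * Q F ^ j * Q F ^ ρ := by gcongr
      _ = _ := by ring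
  exact (pow_le_pow_iff_right₀ (by linarith)).1 (le_of_mul_le_mul_right h1 (by positivity))

lemma hankel_top {L : F[X] →ₗ[F] F} {B g : F[X]} {k : ℕ} (h : Kills L B k) (hg : g ∈ V F (k + 1)) :
    L (B * g) = g.coeff k * L (B * X ^ k) := by
  have h1 : g - g.coeff k • X ^ k ∈ V F k := by
    rw [mem_V, degree_lt_iff_coeff_zero]
    intro m hm
    rcases eq_or_lt_of_le hm with rfl | hm
    · simp
    · have := natDegree_le_of_mem_V hg
      simp [coeff_eq_zero_of_natDegree_lt (this.trans_lt hm), coeff_X_pow, hm.ne']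
  have := h _ h1
  rwa [mul_sub, map_sub, mul_smul_comm, map_smul, smul_eq_mul, sub_eq_zero] at this

theorem hankel (L : F[X] →ₗ[F] F) (ρ D s : ℕ) (hD : ρ < D) (hs : ρ < s)
    (h : 1 / Q F ^ ρ ≤ 𝔼 w ∈ V F D, ind (Kills L w s)) :
    ∃ B : F[X], B ≠ 0 ∧ B.natDegree ≤ ρ ∧ ∀ k, k + 2 * ρ + 1 ≤ D + s → Kills L B k := by
  obtain ⟨B, hB, hK, h0⟩ : ∃ B ∈ V F (ρ + 1), Kills L B s ∧ B ≠ 0 := by
    by_contra hn
    push Not at hn
    have := hankel_count (B := 1) (E := ρ + 1) (j := 0) h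
      (fun g hg => by rw [one_mul]; exact V_mono hD hg)
      fun g hg hk => by rw [hn g hg (by rwa [one_mul] at hk)]; exact zero_mem_V 0
    omega
  have hd := natDegree_le_of_mem_V hB
  refine ⟨B, h0, hd, fun k => ?_⟩
  induction k with
  | zero => exact fun _ => hK.mono s.zero_le
  | succ k ih =>
    intro hk
    rcases lt_or_ge k s with h1 | h1
    · exact hK.mono h1
    have ih := ih (by omega)
    by_cases hL : L (B * X ^ k) = 0
    · intro g hg; rw [hankel_top ih hg, hL, mul_zero]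
    have := hankel_count (B := B) (E := min (k + 1) (D - ρ)) (j := k - s + 1) h
      (fun g hg => V_mono (by omega) (mul_mem_V hd hg)) fun g hg hk => by
        by_contra hn
        rw [mem_V_iff, not_or] at hn
        have h2 : g.natDegree ≤ k := natDegree_le_of_mem_V (V_mono (min_le_left _ _) hg)
        have h3 := hk _ (X_pow_mem_V (i := k - g.natDegree) (by omega))
        have h4 : (g * X ^ (k - g.natDegree)).coeff k = g.leadingCoeff := by
          have := coeff_mul_X_pow g (k - g.natDegree) g.natDegree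
          rwa [Nat.add_sub_cancel' h2] at this
        rw [mul_assoc, hankel_top ih (mem_V_of_natDegree_le (natDegree_mul_le.trans
          (by rw [natDegree_X_pow]; omega))), h4] at h3
        exact mul_ne_zero (leadingCoeff_ne_zero.2 hn.1) hL h3
    omega

end Pool.Agent.VDW

namespace Pool.Agent.VDW

open Polynomial Finset
open scoped BigOperators

variable {F : Type} [Field F] [Fintype F] [DecidableEq F]

theorem dioph (L : F[X] →ₗ[F] F) (ρ D s : ℕ) (hD : 3 * ρ + 2 ≤ D) (hs : ρ < s)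
    (h : 2 / Q F ^ ρ ≤ 𝔼 u ∈ V F D, 𝔼 w ∈ V F D, ind (Kills L (u * w) s)) :
    ∃ B : F[X], B ≠ 0 ∧ B.natDegree ≤ 3 * ρ + 1 ∧
      ∀ k, k + 6 * ρ + 4 ≤ 2 * D + s → Kills L B k := by
  have hq : (0 : ℝ) < Q F := Q_pos
  have hqρ : (0 : ℝ) < Q F ^ ρ := pow_pos hq ρ
  have h1 := popular (V F D) (fun u => 𝔼 w ∈ V F D, ind (Kills L (u * w) s)) (2 / Q F ^ ρ)
    (fun u _ => expect_ind_le_one _ _) (by positivity) h
  have e1 : 2 / Q F ^ ρ / 2 = 1 / Q F ^ ρ := by ring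
  rw [e1] at h1
  obtain ⟨k1, hk1⟩ : ∃ k1, k1 + 2 * ρ + 1 = D + s := ⟨D + s - (2 * ρ + 1), by omega⟩
  have h2 : 1 / Q F ^ ρ ≤
      𝔼 u ∈ V F D, ind (∃ c ∈ (V F (ρ + 1)).erase 0, Kills L (c * u) k1) := by
    refine h1.trans (expect_le_expect fun u _ => ind_mono fun hu => ?_)
    have hu' : 1 / Q F ^ ρ ≤ 𝔼 w ∈ V F D, ind (Kills (L ∘ₗ LinearMap.mulLeft F u) w s) := by
      simpa only [kills_comp] using hu
    obtain ⟨B, hB0, hBd, hB⟩ := hankel _ ρ D s (by omega) hs hu'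
    refine ⟨B, mem_erase.2 ⟨hB0, mem_V_of_natDegree_le hBd⟩, ?_⟩
    rw [mul_comm]
    exact kills_comp.1 (hB k1 hk1.le)
  have hc : (((V F (ρ + 1)).erase 0).card : ℝ) ≤ Q F ^ (ρ + 1) := by
    rw [← card_V_real]
    exact_mod_cast card_erase_le
  obtain ⟨B1, hB1, h3⟩ := pigeon (V F D) ((V F (ρ + 1)).erase 0)
    (fun c u => Kills L (c * u) k1) _ _ (by positivity) hc h2
  have e2 : 1 / Q F ^ ρ / Q F ^ (ρ + 1) = 1 / Q F ^ (2 * ρ + 1) := by
    rw [div_div, ← pow_add]; congr 2; ring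
  rw [e2] at h3
  have h4 : 1 / Q F ^ (2 * ρ + 1) ≤
      𝔼 w ∈ V F D, ind (Kills (L ∘ₗ LinearMap.mulLeft F B1) w k1) := by
    simpa only [kills_comp] using h3
  obtain ⟨B2, hB20, hB2d, hB2⟩ := hankel _ (2 * ρ + 1) D k1 (by omega) (by omega) h4
  obtain ⟨hB10, hB1V⟩ := mem_erase.1 hB1
  have hB1d := natDegree_le_of_mem_V hB1V
  refine ⟨B1 * B2, mul_ne_zero hB10 hB20, natDegree_mul_le.trans (by omega), fun k hk => ?_⟩
  exact kills_comp.1 (hB2 k (by omega))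

lemma dioph_step (Δ : F[X] →ₗ[F] F) (m : ℕ) (h : ∀ v ∈ V F m, Δ v = 0) (w : F[X])
    (hw : w ∈ V F (m + 1)) (hwc : w.coeff m ≠ 0) (hw0 : Δ w = 0) :
    ∀ v ∈ V F (m + 1), Δ v = 0 := by
  intro v hv
  have hu : v - (v.coeff m / w.coeff m) • w ∈ V F m := by
    rw [mem_V, degree_lt_iff_coeff_zero]
    intro j hj
    rcases hj.eq_or_lt with rfl | hlt
    · rw [coeff_sub, coeff_smul, smul_eq_mul, div_mul_cancel₀ _ hwc, sub_self]
    · have a1 : v.coeff j = 0 :=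
        coeff_eq_zero_of_natDegree_lt ((natDegree_le_of_mem_V hv).trans_lt hlt)
      have a2 : w.coeff j = 0 :=
        coeff_eq_zero_of_natDegree_lt ((natDegree_le_of_mem_V hw).trans_lt hlt)
      rw [coeff_sub, coeff_smul, a1, a2, smul_zero, sub_self]
  have := h _ hu
  rwa [map_sub, map_smul, hw0, smul_zero, sub_zero] at this

lemma dioph_unique (n k : ℕ) (Δ : F[X] →ₗ[F] F) (B : F[X]) (hB0 : B ≠ 0)
    (hk : k + B.natDegree ≤ n) (hK : Kills Δ B k)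
    (hX : ∀ i : Fin (n - k),
      Δ (X ^ (if (i : ℕ) < B.natDegree then (i : ℕ) else (i : ℕ) + k)) = 0) :
    ∀ v ∈ V F n, Δ v = 0 := by
  have key : ∀ m, m ≤ n → ∀ v ∈ V F m, Δ v = 0 := by
    intro m
    induction m with
    | zero =>
      intro _ v hv
      rcases mem_V_iff.1 hv with rfl | h1
      · exact map_zero _
      · omega
    | succ m ih =>
      intro hm
      have ih' := ih (by omega)
      by_cases c1 : m < B.natDegree
      · refine dioph_step Δ m ih' (X ^ m) (X_pow_mem_V (by omega)) (by simp) ?_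
        have := hX ⟨m, by omega⟩
        simpa only [if_pos c1] using this
      · by_cases c2 : B.natDegree + k ≤ m
        · refine dioph_step Δ m ih' (X ^ m) (X_pow_mem_V (by omega)) (by simp) ?_
          have := hX ⟨m - k, by omega⟩
          have c3 : ¬ (m - k < B.natDegree) := by omega
          have c4 : m - k + k = m := by omega
          simpa only [if_neg c3, c4] using this
        · obtain ⟨t, rfl⟩ : ∃ t, m = B.natDegree + t := ⟨m - B.natDegree, by omega⟩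
          refine dioph_step Δ _ ih' (B * X ^ t) ?_ ?_ (hK _ (X_pow_mem_V (by omega)))
          · exact mul_mem_V (k := B.natDegree) (j := t + 1) le_rfl (X_pow_mem_V (Nat.lt_succ_self t))
          · rw [coeff_mul_X_pow]
            exact leadingCoeff_ne_zero.2 hB0
  exact key n le_rfl

theorem few (n r k : ℕ) (hk : k + r ≤ n) :
    ∃ S : Finset (F[X] →ₗ[F] F), (S.card : ℝ) ≤ Q F ^ (r + 1 + (n - k)) ∧
      ∀ (L : F[X] →ₗ[F] F) (B : F[X]), B ≠ 0 → B.natDegree ≤ r → Kills L B k →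
        ∃ L' ∈ S, ∀ v ∈ V F n, L v = L' v := by
  classical
  let P : F[X] × (Fin (n - k) → F) → (F[X] →ₗ[F] F) → Prop := fun x L0 =>
    Kills L0 x.1 k ∧ ∀ i : Fin (n - k),
      L0 (X ^ (if (i : ℕ) < x.1.natDegree then (i : ℕ) else (i : ℕ) + k)) = x.2 i
  let g : F[X] × (Fin (n - k) → F) → (F[X] →ₗ[F] F) := fun x =>
    if h : ∃ L0, P x L0 then h.choose else 0
  refine ⟨(V F (r + 1) ×ˢ (univ : Finset (Fin (n - k) → F))).image g, ?_, ?_⟩
  · have h1 : ((V F (r + 1) ×ˢ (univ : Finset (Fin (n - k) → F))).image g).card ≤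
        Fintype.card F ^ (r + 1 + (n - k)) := by
      refine card_image_le.trans ?_
      rw [card_product, card_V, card_univ, Fintype.card_fun, Fintype.card_fin, ← pow_add]
    exact_mod_cast h1
  · intro L B hB0 hBd hK
    let x : F[X] × (Fin (n - k) → F) :=
      (B, fun i => L (X ^ (if (i : ℕ) < B.natDegree then (i : ℕ) else (i : ℕ) + k)))
    have hx : ∃ L0, P x L0 := ⟨L, hK, fun _ => rfl⟩
    have hg : P x (g x) := by
      simp only [g, dif_pos hx]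
      exact hx.choose_spec
    refine ⟨g x, mem_image_of_mem g (mem_product.2 ⟨mem_V_of_natDegree_le hBd, mem_univ _⟩), ?_⟩
    have := dioph_unique n k (L - g x) B hB0 (by omega)
      (fun v hv => by rw [LinearMap.sub_apply, hK v hv, hg.1 v hv, sub_self])
      (fun i => by rw [LinearMap.sub_apply, hg.2 i, sub_self])
    intro v hv
    exact sub_eq_zero.1 (this v hv)

end Pool.Agent.VDW

namespace Pool.Agent.VDW

open Polynomial Finset
open scoped BigOperators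

variable {F : Type} [Field F] [Fintype F] [DecidableEq F]

lemma div_card_divisors (w : F[X]) : w ≠ 0 → ∀ S : Finset F[X], (∀ y ∈ S, y ∣ w) →
    S.card ≤ Fintype.card F * 2 ^ w.natDegree := by
  classical
  induction w using UniqueFactorizationMonoid.induction_on_prime with
  | h₁ => intro h; exact absurd rfl h
  | h₂ u hu =>
    intro _ S hS
    have h1 : S ⊆ univ.image (fun c : F => (C c : F[X])) := by
      intro y hy
      have hyu : IsUnit y := isUnit_of_dvd_unit (hS y hy) hu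
      exact mem_image.2 ⟨y.coeff 0, mem_univ _,
        (eq_C_of_natDegree_eq_zero (natDegree_eq_zero_of_isUnit hyu)).symm⟩
    calc S.card ≤ _ := card_le_card h1
      _ ≤ Fintype.card F := card_image_le.trans (by rw [card_univ])
      _ ≤ _ := Nat.le_mul_of_pos_right _ (by positivity)
  | h₃ b p hb hp ih =>
    intro _ S hS
    have h1 := ih hb (S.filter (fun y => y ∣ b)) (fun y hy => (mem_filter.1 hy).2)
    have hdiv : ∀ y ∈ S.filter (fun y => ¬ y ∣ b), p * (y / p) = y := by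
      intro y hy
      obtain ⟨hy1, hy2⟩ := mem_filter.1 hy
      have hpy : p ∣ y := by
        by_contra hn
        have hc : IsCoprime y p := (hp.irreducible.coprime_iff_not_dvd.2 hn).symm
        exact hy2 (hc.dvd_of_dvd_mul_left (hS y hy1))
      exact EuclideanDomain.mul_div_cancel' hp.ne_zero hpy
    have h2 := ih hb ((S.filter (fun y => ¬ y ∣ b)).image (fun y => y / p)) (by
      intro z hz
      obtain ⟨y, hy, rfl⟩ := mem_image.1 hz
      have h3 := hS y (mem_filter.1 hy).1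
      rw [← hdiv y hy] at h3
      exact (mul_dvd_mul_iff_left hp.ne_zero).1 h3)
    rw [card_image_of_injOn (by
      intro y hy z hz hyz
      have hyz' : y / p = z / p := hyz
      rw [← hdiv y hy, ← hdiv z hz, hyz'])] at h2
    have h3 := card_filter_add_card_filter_not (s := S) (fun y => y ∣ b)
    have h4 : b.natDegree + 1 ≤ (p * b).natDegree := by
      rw [natDegree_mul hp.ne_zero hb]
      have := hp.irreducible.natDegree_pos
      omega
    calc S.card ≤ Fintype.card F * 2 ^ (b.natDegree + 1) := by rw [pow_succ, ← mul_assoc]; omega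
      _ ≤ _ := Nat.mul_le_mul_left _ (Nat.pow_le_pow_right (by norm_num) h4)

lemma div_ind_zero (l : ℕ) : 𝔼 x ∈ V F l, ind (x = 0) = 1 / Q F ^ l := by
  classical
  rw [expect_ind, card_V_real, filter_eq', if_pos (zero_mem_V l)]
  simp

lemma div_pairs (l m : ℕ) {w : F[X]} (hw : w ∈ V F (l + m)) (hw0 : w ≠ 0) :
    𝔼 x ∈ V F l, 𝔼 y ∈ V F m, ind (x * y = w) ≤ Q F * 2 ^ (l + m) / Q F ^ (l + m) := by
  classical
  rw [← expect_product', expect_ind, card_product]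
  push_cast
  rw [card_V_real, card_V_real, ← pow_add]
  have hQ := Q_pos (F := F)
  gcongr
  set S := (V F l ×ˢ V F m).filter (fun p => p.1 * p.2 = w) with hS
  have h1 := div_card_divisors w hw0 (S.image Prod.snd) (by
    intro y hy
    obtain ⟨p, hp, rfl⟩ := mem_image.1 hy
    exact Dvd.intro_left _ (mem_filter.1 hp).2)
  rw [card_image_of_injOn (by
    intro p hp p' hp' h
    have e1 := (mem_filter.1 hp).2
    have e2 := (mem_filter.1 hp').2
    have hne : p.2 ≠ 0 := fun h0 => hw0 (by rw [← e1, h0, mul_zero])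
    refine Prod.ext ?_ h
    rw [← h] at e2
    exact mul_right_cancel₀ hne (e1.trans e2.symm))] at h1
  have h2 : w.natDegree ≤ l + m := by
    rcases mem_V_iff.1 hw with h | h
    · exact absurd h hw0
    · exact h.le
  have h3 : S.card ≤ Fintype.card F * 2 ^ (l + m) :=
    h1.trans (Nat.mul_le_mul_left _ (Nat.pow_le_pow_right (by norm_num) h2))
  exact_mod_cast h3

/-- products `x y` are spread out: divisor bound -/
theorem div_bound (l m : ℕ) (hml : m ≤ l) (G : F[X] → ℝ) (K : ℝ)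
    (h0 : ∀ w ∈ V F (l + m), 0 ≤ G w) (hK : ∀ w ∈ V F (l + m), G w ≤ K)
    (h : F[X]) (hh : h ∈ V F (l + m)) :
    𝔼 x ∈ V F l, 𝔼 y ∈ V F m, G (h - x * y) ≤
      2 * K / Q F ^ m + Q F * 2 ^ (l + m) * 𝔼 w ∈ V F (l + m), G w := by
  classical
  have hK0 : 0 ≤ K := (h0 0 (zero_mem_V _)).trans (hK 0 (zero_mem_V _))
  have hQ := Q_pos (F := F)
  have hpt : ∀ x ∈ V F l, ∀ y ∈ V F m, G (h - x * y) ≤ K * ind (x = 0) + K * ind (y = 0) +
      ∑ w ∈ (V F (l + m)).erase 0, ind (x * y = w) * G (h - w) := by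
    intro x hx y hy
    have hxy := V_mul_V hx hy
    have hs : 0 ≤ ∑ w ∈ (V F (l + m)).erase 0, ind (x * y = w) * G (h - w) :=
      sum_nonneg fun w hw => mul_nonneg (ind_nonneg _) (h0 _ (V_sub hh (mem_of_mem_erase hw)))
    have a1 := mul_nonneg hK0 (ind_nonneg (x = 0))
    have a2 := mul_nonneg hK0 (ind_nonneg (y = 0))
    have a3 := hK _ (V_sub hh hxy)
    by_cases hx0 : x = 0
    · rw [ind_pos hx0]; linarith
    by_cases hy0 : y = 0
    · rw [ind_pos hy0]; linarith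
    have h1 : ind (x * y = x * y) * G (h - x * y) ≤
        ∑ w ∈ (V F (l + m)).erase 0, ind (x * y = w) * G (h - w) :=
      single_le_sum (f := fun w => ind (x * y = w) * G (h - w))
        (fun w hw => mul_nonneg (ind_nonneg _) (h0 _ (V_sub hh (mem_of_mem_erase hw))))
        (mem_erase.2 ⟨mul_ne_zero hx0 hy0, hxy⟩)
    rw [ind_pos rfl, one_mul] at h1
    linarith
  refine (expect_le_expect fun x hx => expect_le_expect fun y hy => hpt x hx y hy).trans ?_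
  simp only [expect_add_distrib, expect_const (V_nonempty _), ← mul_expect, div_ind_zero,
    expect_sum_comm, ← expect_mul]
  have b1 : K * (1 / Q F ^ l) ≤ K * (1 / Q F ^ m) := by
    gcongr
    exact one_le_Q
  have b2 : ∑ w ∈ (V F (l + m)).erase 0, (𝔼 x ∈ V F l, 𝔼 y ∈ V F m, ind (x * y = w)) * G (h - w) ≤
      ∑ w ∈ V F (l + m), Q F * 2 ^ (l + m) / Q F ^ (l + m) * G (h - w) := by
    refine (sum_le_sum fun w hw => mul_le_mul_of_nonneg_right
      (div_pairs l m (mem_of_mem_erase hw) (ne_of_mem_erase hw))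
      (h0 _ (V_sub hh (mem_of_mem_erase hw)))).trans ?_
    exact sum_le_sum_of_subset_of_nonneg (erase_subset _ _) fun w hw _ =>
      mul_nonneg (by positivity) (h0 _ (V_sub hh hw))
  have b3 : ∑ w ∈ V F (l + m), Q F * 2 ^ (l + m) / Q F ^ (l + m) * G (h - w) =
      Q F * 2 ^ (l + m) * 𝔼 w ∈ V F (l + m), G w := by
    rw [← expect_V_sub' hh G, expect_eq_sum_div_card, card_V_real, ← mul_sum]
    ring
  have b4 : 2 * K / Q F ^ m = K * (1 / Q F ^ m) + K * (1 / Q F ^ m) := by ring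
  linarith

end Pool.Agent.VDW

namespace Pool.Agent.VDW

open Polynomial Finset
open scoped BigOperators

variable {F : Type} [Field F] [Fintype F] [DecidableEq F]

lemma u3a_cs2 {ι κ : Type*} (s : Finset ι) (t : Finset κ) (f g : ι → κ → ℂ) (K : ℝ)
    (hf : ∀ i ∈ s, ∀ j ∈ t, ‖f i j‖ ≤ K) :
    ‖𝔼 i ∈ s, 𝔼 j ∈ t, f i j * g i j‖ ^ 2 ≤ K ^ 2 * 𝔼 i ∈ s, 𝔼 j ∈ t, ‖g i j‖ ^ 2 := by
  have h := cs_bdd (s ×ˢ t) (fun p => f p.1 p.2) (fun p => g p.1 p.2) K
    (fun p hp => hf _ (mem_product.1 hp).1 _ (mem_product.1 hp).2)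
  rwa [expect_product' s t (fun i j => f i j * g i j),
    expect_product' s t (fun i j => ‖g i j‖ ^ 2)] at h

/-- orthogonality in the variable `a` -/
lemma u3a_orth {ψ : AddChar F ℂ} (hψ : ψ ≠ 1) {P : Type*} (S : Finset P) (l : ℕ) (u : P → ℂ)
    (B : P → Prop) (hu : ∀ p ∈ S, ‖u p‖ ≤ ind (B p)) (D : P → (F[X] →ₗ[F] F)) :
    𝔼 a ∈ M F l, ‖𝔼 p ∈ S, u p * ψ (D p a)‖ ^ 2 ≤
      𝔼 p' ∈ S, 𝔼 p ∈ S, ind (B p ∧ ∀ a ∈ V F l, D p a = D p' a) := by
  have h1 : ((𝔼 a ∈ M F l, ‖𝔼 p ∈ S, u p * ψ (D p a)‖ ^ 2 : ℝ) : ℂ) =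
      𝔼 p' ∈ S, 𝔼 p ∈ S, u p * (starRingEnd ℂ) (u p') * 𝔼 a ∈ M F l, ψ ((D p - D p') a) := by
    rw [ofReal_expect]
    simp only [norm_sq_expect]
    rw [expect_comm (s := S) (t := S), expect_comm (s := M F l)]
    refine expect_congr rfl fun p _ => ?_
    rw [expect_comm (s := M F l)]
    refine expect_congr rfl fun p' _ => ?_
    rw [mul_expect]
    refine expect_congr rfl fun a _ => ?_
    rw [map_mul, conj_psi, LinearMap.sub_apply, sub_eq_add_neg, AddChar.map_add_eq_mul]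
    ring
  have h0 : 0 ≤ 𝔼 a ∈ M F l, ‖𝔼 p ∈ S, u p * ψ (D p a)‖ ^ 2 :=
    expect_nonneg fun _ _ => sq_nonneg _
  rw [← abs_of_nonneg h0, ← Real.norm_eq_abs, ← Complex.norm_real, h1]
  refine (norm_expect_le _ _).trans (expect_le_expect fun p' hp' => ?_)
  refine (norm_expect_le _ _).trans (expect_le_expect fun p hp => ?_)
  rw [norm_mul, norm_mul, Complex.norm_conj, ind_and]
  have h2 := norm_orth_M hψ (D p - D p') l
  have h3 : ind (∀ g ∈ V F l, (D p - D p') g = 0) = ind (∀ a ∈ V F l, D p a = D p' a) :=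
    ind_congr (by simp only [LinearMap.sub_apply, sub_eq_zero])
  rw [h3] at h2
  have h4 : ‖u p'‖ ≤ 1 := (hu p' hp').trans (ind_le_one _)
  have h5 : ‖u p‖ * ‖u p'‖ ≤ ind (B p) := by
    nlinarith [hu p hp, norm_nonneg (u p), norm_nonneg (u p')]
  exact mul_le_mul h5 h2 (norm_nonneg _) (ind_nonneg _)

/-- second Cauchy-Schwarz and the choice of the best second point -/
lemma u3a_second {ψ : AddChar F ℂ} (hψ : ψ ≠ 1) {P : Type*} (S : Finset P) (hS : S.Nonempty)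
    (l : ℕ) (w : F[X] → F[X] → ℂ) (K : ℝ) (hw : ∀ x ∈ V F l, ∀ a ∈ M F l, ‖w x a‖ ≤ K)
    (u : F[X] → P → ℂ) (B : F[X] → P → Prop) (hu : ∀ x, ∀ p ∈ S, ‖u x p‖ ≤ ind (B x p))
    (D : F[X] → P → (F[X] →ₗ[F] F)) :
    ∃ ζ : F[X] → (F[X] →ₗ[F] F),
      ‖𝔼 x ∈ V F l, 𝔼 a ∈ M F l, w x a * 𝔼 p ∈ S, u x p * ψ (D x p a)‖ ^ 2 ≤
        K ^ 2 * 𝔼 x ∈ V F l, 𝔼 p ∈ S, ind (B x p ∧ ∀ a ∈ V F l, D x p a = ζ x a) := by
  have hch : ∀ x, ∃ p' ∈ S, 𝔼 p' ∈ S, 𝔼 p ∈ S, ind (B x p ∧ ∀ a ∈ V F l, D x p a = D x p' a) ≤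
      𝔼 p ∈ S, ind (B x p ∧ ∀ a ∈ V F l, D x p a = D x p' a) := fun x =>
    exists_le_of_le_expect hS le_rfl
  choose p' _ hp' using hch
  refine ⟨fun x => D x (p' x), (u3a_cs2 _ _ _ _ K hw).trans ?_⟩
  refine mul_le_mul_of_nonneg_left (expect_le_expect fun x _ => ?_) (sq_nonneg _)
  exact (u3a_orth hψ S l (u x) (B x) (hu x) (D x)).trans (hp' x)

/-- first Cauchy-Schwarz -/
lemma u3a_first (ψ : AddChar F ℂ) (l m : ℕ) (α β φ : F[X] → ℝ) (K : ℝ) (hK : 1 ≤ K)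
    (hβ : ∀ b ∈ M F m, |β b| ≤ K) (hφ : ∀ f ∈ M F (l + m), |φ f| ≤ K)
    (θ : F[X] → ℂ) (ξ : F[X] → (F[X] →ₗ[F] F)) :
    ‖𝔼 h ∈ V F (l + m), θ h * 𝔼 a ∈ M F l, 𝔼 b ∈ M F m,
        ((α a * β b : ℝ) : ℂ) * ((φ (a * b + h) : ℂ) * ψ (ξ h (a * b)))‖ ^ 2 ≤
      (K ^ 2) ^ 2 * ‖𝔼 x ∈ V F l, 𝔼 a ∈ M F l, ((α a * α (a + x) : ℝ) : ℂ) *
        𝔼 p ∈ V F (l + m) ×ˢ M F m,
          (θ p.1 * (starRingEnd ℂ) (θ (p.1 - x * p.2)) * ψ (-ξ (p.1 - x * p.2) (x * p.2))) *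
            ψ (((ξ p.1 - ξ (p.1 - x * p.2)) ∘ₗ LinearMap.mulLeft F p.2) a)‖ := by
  set W : F[X] → F[X] → F[X] → ℂ := fun a b g =>
    (α a : ℂ) * (θ (g - a * b) * ψ (ξ (g - a * b) (a * b))) with hW
  have e1 : 𝔼 h ∈ V F (l + m), θ h * 𝔼 a ∈ M F l, 𝔼 b ∈ M F m,
        ((α a * β b : ℝ) : ℂ) * ((φ (a * b + h) : ℂ) * ψ (ξ h (a * b))) =
      𝔼 b ∈ M F m, 𝔼 g ∈ M F (l + m), ((β b * φ g : ℝ) : ℂ) * 𝔼 a ∈ M F l, W a b g := by
    simp only [mul_expect]
    rw [expect_comm (s := V F (l + m))]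
    have : ∀ a ∈ M F l, 𝔼 h ∈ V F (l + m), 𝔼 b ∈ M F m,
        θ h * (((α a * β b : ℝ) : ℂ) * ((φ (a * b + h) : ℂ) * ψ (ξ h (a * b)))) =
        𝔼 b ∈ M F m, 𝔼 g ∈ M F (l + m), ((β b * φ g : ℝ) : ℂ) * W a b g := by
      intro a ha
      rw [expect_comm]
      refine expect_congr rfl fun b hb => ?_
      rw [expect_M_base (M_mul_M ha hb)]
      refine expect_congr rfl fun h _ => ?_
      simp only [hW, add_sub_cancel_left]
      push_cast
      ring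
    rw [expect_congr rfl this, expect_comm]
    refine expect_congr rfl fun b _ => ?_
    rw [expect_comm]
  rw [e1]
  refine (u3a_cs2 _ _ _ _ (K ^ 2) fun b hb g hg => ?_).trans ?_
  · rw [Complex.norm_real, Real.norm_eq_abs, abs_mul, sq]
    exact mul_le_mul (hβ b hb) (hφ g hg) (abs_nonneg _) (by linarith)
  refine mul_le_mul_of_nonneg_left ?_ (sq_nonneg _)
  have h0 : 0 ≤ 𝔼 b ∈ M F m, 𝔼 g ∈ M F (l + m), ‖𝔼 a ∈ M F l, W a b g‖ ^ 2 :=
    expect_nonneg fun _ _ => expect_nonneg fun _ _ => sq_nonneg _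
  rw [← abs_of_nonneg h0, ← Real.norm_eq_abs, ← Complex.norm_real]
  refine le_of_eq (congrArg _ ?_)
  simp only [ofReal_expect, norm_sq_expect]
  have e2 : ∀ b ∈ M F m, 𝔼 g ∈ M F (l + m), 𝔼 a ∈ M F l, 𝔼 a' ∈ M F l,
      W a b g * (starRingEnd ℂ) (W a' b g) =
      𝔼 x ∈ V F l, 𝔼 a ∈ M F l, 𝔼 h ∈ V F (l + m), ((α a * α (a + x) : ℝ) : ℂ) *
        ((θ h * (starRingEnd ℂ) (θ (h - x * b)) * ψ (-ξ (h - x * b) (x * b))) *
          ψ (((ξ h - ξ (h - x * b)) ∘ₗ LinearMap.mulLeft F b) a)) := by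
    intro b hb
    have : ∀ g ∈ M F (l + m), 𝔼 a ∈ M F l, 𝔼 a' ∈ M F l, W a b g * (starRingEnd ℂ) (W a' b g) =
        𝔼 a ∈ M F l, 𝔼 x ∈ V F l, W a b g * (starRingEnd ℂ) (W (a + x) b g) := fun g _ =>
      expect_M_pair l fun a a' => W a b g * (starRingEnd ℂ) (W a' b g)
    rw [expect_congr rfl this, expect_comm, expect_comm (s := V F l)]
    refine expect_congr rfl fun a ha => ?_
    rw [expect_comm]
    refine expect_congr rfl fun x _ => ?_
    rw [expect_M_base (M_mul_M ha hb)]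
    refine expect_congr rfl fun h _ => ?_
    have e3 : a * b + h - (a + x) * b = h - x * b := by ring
    simp only [hW, add_sub_cancel_left, e3, map_mul, conj_psi, Complex.conj_ofReal,
      LinearMap.comp_apply, LinearMap.mulLeft_apply, LinearMap.sub_apply]
    rw [add_mul, map_add, neg_add, AddChar.map_add_eq_mul, mul_comm b a, sub_eq_add_neg (ξ h _),
      AddChar.map_add_eq_mul]
    push_cast
    ring
  rw [expect_congr rfl e2, expect_comm]
  refine expect_congr rfl fun x _ => ?_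
  rw [expect_comm]
  refine expect_congr rfl fun a _ => ?_
  rw [expect_comm, mul_expect, expect_product]

/-- many shifts have a large Fourier coefficient -/
lemma u3a_dens {ψ : AddChar F ℂ} (hψ : ψ ≠ 1) (n : ℕ) (φ : F[X] → ℝ) (K : ℝ) (hK : 1 ≤ K)
    (hq : 16 * K ^ 12 ≤ Q F) (hφ : ∀ f ∈ M F n, |φ f| ≤ K) (h : 1 / Q F ^ 40 ≤ PU3 n φ) :
    1 / Q F ^ 41 ≤ 𝔼 h ∈ V F n, ind (∃ L, 1 / Q F ^ 21 ≤ ‖T ψ n φ h L‖) := by
  have hQ := Q_pos (F := F)
  have hK0 : 0 ≤ K := by linarith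
  have hb : ∀ h ∈ V F n, ∀ f ∈ M F n, |φ f * φ (f + h)| ≤ K ^ 2 := fun h hh f hf => by
    rw [abs_mul, sq]
    exact mul_le_mul (hφ f hf) (hφ _ (M_add_V hf hh)) (abs_nonneg _) hK0
  have key : ∀ h ∈ V F n, 𝔼 h' ∈ V F n,
      (𝔼 f ∈ M F n, φ f * φ (f + h) * (φ (f + h') * φ (f + h' + h))) ^ 2 ≤
      K ^ 4 / Q F ^ 42 + K ^ 8 * ind (∃ L, 1 / Q F ^ 21 ≤ ‖T ψ n φ h L‖) := by
    intro h hh
    by_cases hA : ∃ L, 1 / Q F ^ 21 ≤ ‖T ψ n φ h L‖
    · rw [ind_pos hA]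
      refine le_trans (expect_le' (a := K ^ 8) (by positivity) fun h' hh' => ?_) ?_
      · have : |𝔼 f ∈ M F n, φ f * φ (f + h) * (φ (f + h') * φ (f + h' + h))| ≤ K ^ 4 := by
          refine abs_expect_le' (by positivity) fun f hf => ?_
          rw [abs_mul, show K ^ 4 = K ^ 2 * K ^ 2 by ring]
          exact mul_le_mul (hb h hh f hf) (hb h hh _ (M_add_V hf hh')) (abs_nonneg _)
            (by positivity)
        rw [← sq_abs, show K ^ 8 = (K ^ 4) ^ 2 by ring]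
        gcongr
      · have : 0 ≤ K ^ 4 / Q F ^ 42 := by positivity
        linarith
    · rw [ind_neg hA, mul_zero, add_zero]
      push Not at hA
      have h1 := cor hψ n (fun f => ((φ f * φ (f + h) : ℝ) : ℂ))
        (fun f => ((φ f * φ (f + h) : ℝ) : ℂ)) (1 / Q F ^ 21) fun L => (hA L).le
      have h2 : 𝔼 f ∈ M F n, ‖((φ f * φ (f + h) : ℝ) : ℂ)‖ ^ 2 ≤ K ^ 4 := by
        refine expect_le' (by positivity) fun f hf => ?_
        rw [Complex.norm_real, Real.norm_eq_abs, show K ^ 4 = (K ^ 2) ^ 2 by ring]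
        have := hb h hh f hf
        gcongr
      calc _ = 𝔼 w ∈ V F n, ‖𝔼 f ∈ M F n, ((φ f * φ (f + h) : ℝ) : ℂ) *
              ((φ (f + w) * φ (f + w + h) : ℝ) : ℂ)‖ ^ 2 := by
            refine expect_congr rfl fun w _ => ?_
            simp only [← Complex.ofReal_mul]
            rw [← ofReal_expect, Complex.norm_real, Real.norm_eq_abs, sq_abs]
        _ ≤ _ := h1
        _ ≤ (1 / Q F ^ 21) ^ 2 * K ^ 4 := by gcongr
        _ = _ := by field_simp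
  have h3 := h.trans (expect_le_expect key)
  rw [expect_add_distrib, ← mul_expect, expect_const (V_nonempty n)] at h3
  set p := 𝔼 h ∈ V F n, ind (∃ L, 1 / Q F ^ 21 ≤ ‖T ψ n φ h L‖)
  have hp : 0 ≤ p := expect_ind_nonneg _ _
  have h8 : K ^ 8 ≤ K ^ 12 := pow_le_pow_right₀ hK (by norm_num)
  have h4 : K ^ 4 ≤ K ^ 12 := pow_le_pow_right₀ hK (by norm_num)
  have hQ1 := one_le_Q (F := F)
  set q := Q F
  have hy : 0 < q ^ 40 := by positivity
  rw [show q ^ 42 = q ^ 40 * q ^ 2 by ring] at h3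
  rw [show q ^ 41 = q ^ 40 * q by ring]
  set y := q ^ 40
  have h5 : K ^ 4 / (y * q ^ 2) ≤ 1 / (2 * y) := by
    rw [div_le_div_iff₀ (by positivity) (by positivity)]
    have : 2 * K ^ 4 ≤ q ^ 2 := by nlinarith [pow_pos (by linarith : 0 < K) 12]
    nlinarith
  have h6 : 1 / y = 1 / (2 * y) + 1 / (2 * y) := by field_simp; ring
  have h7 : 1 / (2 * y) ≤ K ^ 8 * p := by linarith
  rw [div_le_iff₀ (by positivity)] at h7 ⊢
  have h9 : 2 * K ^ 8 ≤ q := by nlinarith [pow_pos (by linarith : 0 < K) 12]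
  have h10 : 0 ≤ p * y := by positivity
  nlinarith

/-- first step of the degree lowering -/
theorem u3a {ψ : AddChar F ℂ} (hψ : ψ ≠ 1) (l m : ℕ) (α β φ : F[X] → ℝ) (K : ℝ) (hK : 1 ≤ K)
    (hq : 16 * K ^ 12 ≤ Q F) (hα : ∀ a ∈ M F l, |α a| ≤ K) (hβ : ∀ b ∈ M F m, |β b| ≤ K)
    (hφ : ∀ f ∈ M F (l + m), |φ f| ≤ K) (hc : Conv l m α β φ)
    (hε : ∀ L : F[X] →ₗ[F] F, ‖𝔼 f ∈ M F (l + m), (φ f : ℂ) * ψ (L f)‖ ≤ 1 / Q F ^ 63)
    (h : 1 / Q F ^ 40 ≤ PU3 (l + m) φ) :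
    ∃ ξ ζ : F[X] → (F[X] →ₗ[F] F), 1 / Q F ^ 249 ≤
      𝔼 x ∈ V F l, 𝔼 g ∈ V F (l + m), 𝔼 b ∈ M F m,
        ind (1 / Q F ^ 21 ≤ ‖T ψ (l + m) φ (g - x * b) (ξ (g - x * b))‖ ∧
          ∀ a ∈ V F l, ξ g (b * a) - ξ (g - x * b) (b * a) = ζ x a) := by
  have hQ := Q_pos (F := F)
  have hK0 : 0 ≤ K := by linarith
  have hd := u3a_dens hψ (l + m) φ K hK hq hφ h
  have hch : ∀ h : F[X], ∃ L0 : F[X] →ₗ[F] F, (∃ L, 1 / Q F ^ 21 ≤ ‖T ψ (l + m) φ h L‖) →
      1 / Q F ^ 21 ≤ ‖T ψ (l + m) φ h L0‖ := by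
    intro h
    by_cases hA : ∃ L, 1 / Q F ^ 21 ≤ ‖T ψ (l + m) φ h L‖
    · obtain ⟨L, hL⟩ := hA
      exact ⟨L, fun _ => hL⟩
    · exact ⟨0, fun h' => absurd h' hA⟩
  choose ξ hξ using hch
  set A : F[X] → Prop := fun h => 1 / Q F ^ 21 ≤ ‖T ψ (l + m) φ h (ξ h)‖ with hA
  set θ : F[X] → ℂ := fun h => (ind (A h) : ℂ) *
    ((starRingEnd ℂ) (T ψ (l + m) φ h (ξ h)) / (‖T ψ (l + m) φ h (ξ h)‖ : ℂ)) with hθ
  have hθn : ∀ h, ‖θ h‖ ≤ ind (A h) := by
    intro h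
    simp only [hθ, norm_mul, norm_div, Complex.norm_real, Real.norm_eq_abs, Complex.norm_conj,
      abs_norm, abs_of_nonneg (ind_nonneg _)]
    exact mul_le_of_le_one_right (ind_nonneg _) (div_self_le_one _)
  have hθT : ∀ h, θ h * T ψ (l + m) φ h (ξ h) =
      ((ind (A h) * ‖T ψ (l + m) φ h (ξ h)‖ : ℝ) : ℂ) := by
    intro h
    simp only [hθ]
    by_cases h0 : T ψ (l + m) φ h (ξ h) = 0
    · simp [h0]
    · have : (‖T ψ (l + m) φ h (ξ h)‖ : ℂ) ≠ 0 := by simpa using h0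
      rw [mul_assoc, div_mul_eq_mul_div, Complex.conj_mul']
      push_cast
      field_simp
  have h1 : 1 / Q F ^ 62 ≤ ‖𝔼 h ∈ V F (l + m), θ h * T ψ (l + m) φ h (ξ h)‖ := by
    simp only [hθT]
    rw [← ofReal_expect, Complex.norm_real, Real.norm_eq_abs]
    refine le_trans ?_ (le_abs_self _)
    calc 1 / Q F ^ 62 = 1 / Q F ^ 41 * (1 / Q F ^ 21) := by field_simp
      _ ≤ (𝔼 h ∈ V F (l + m), ind (∃ L, 1 / Q F ^ 21 ≤ ‖T ψ (l + m) φ h L‖)) *
          (1 / Q F ^ 21) := by gcongr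
      _ ≤ _ := by
        rw [expect_mul]
        refine expect_le_expect fun h _ => ?_
        by_cases hh : ∃ L, 1 / Q F ^ 21 ≤ ‖T ψ (l + m) φ h L‖
        · rw [ind_pos hh, ind_pos (show A h from hξ h hh), one_mul, one_mul]
          exact hξ h hh
        · rw [ind_neg hh, zero_mul]
          exact mul_nonneg (ind_nonneg _) (norm_nonneg _)
  have h2 : ∀ h, T ψ (l + m) φ h (ξ h) =
      𝔼 f ∈ M F (l + m), (φ (f + h) : ℂ) * ψ (ξ h f) - 𝔼 a ∈ M F l, 𝔼 b ∈ M F m,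
        ((α a * β b : ℝ) : ℂ) * ((φ (a * b + h) : ℂ) * ψ (ξ h (a * b))) := by
    intro h
    rw [← hc fun f => (φ (f + h) : ℂ) * ψ (ξ h f)]
    unfold T
    refine expect_congr rfl fun f _ => ?_
    push_cast
    ring
  have h3 : ‖𝔼 h ∈ V F (l + m), θ h * 𝔼 f ∈ M F (l + m), (φ (f + h) : ℂ) * ψ (ξ h f)‖ ≤
      1 / Q F ^ 63 := by
    refine norm_expect_le' (by positivity) fun h hh => ?_
    have e : 𝔼 f ∈ M F (l + m), (φ (f + h) : ℂ) * ψ (ξ h f) =
        (𝔼 f ∈ M F (l + m), (φ f : ℂ) * ψ (ξ h f)) * ψ (-ξ h h) := by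
      rw [← expect_M_add hh fun f => (φ f : ℂ) * ψ (ξ h f), expect_mul]
      refine expect_congr rfl fun f _ => ?_
      rw [mul_assoc, ← AddChar.map_add_eq_mul, map_add (ξ h), add_neg_cancel_right]
    rw [e, ← mul_assoc, norm_mul, norm_psi, mul_one, norm_mul (θ h)]
    have := (hθn h).trans (ind_le_one _)
    nlinarith [hε (ξ h), norm_nonneg (θ h),
      norm_nonneg (𝔼 f ∈ M F (l + m), (φ f : ℂ) * ψ (ξ h f))]
  have h4 := u3a_first ψ l m α β φ K hK hβ hφ θ ξ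
  obtain ⟨ζ, h5⟩ := u3a_second hψ (V F (l + m) ×ˢ M F m) ((V_nonempty _).product (M_nonempty _))
    l (fun x a => ((α a * α (a + x) : ℝ) : ℂ)) (K ^ 2)
    (fun x hx a ha => by
      rw [Complex.norm_real, Real.norm_eq_abs, abs_mul, sq]
      exact mul_le_mul (hα a ha) (hα _ (M_add_V ha hx)) (abs_nonneg _) hK0)
    (fun x p => θ p.1 * (starRingEnd ℂ) (θ (p.1 - x * p.2)) * ψ (-ξ (p.1 - x * p.2) (x * p.2)))
    (fun x p => A (p.1 - x * p.2))
    (fun x p _ => by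
      rw [norm_mul, norm_mul, norm_psi, mul_one, Complex.norm_conj]
      have := (hθn p.1).trans (ind_le_one _)
      nlinarith [hθn (p.1 - x * p.2), norm_nonneg (θ p.1), norm_nonneg (θ (p.1 - x * p.2))])
    (fun x p => (ξ p.1 - ξ (p.1 - x * p.2)) ∘ₗ LinearMap.mulLeft F p.2)
  refine ⟨ξ, ζ, ?_⟩
  simp only [expect_product, LinearMap.comp_apply, LinearMap.mulLeft_apply,
    LinearMap.sub_apply, hA] at h4 h5
  simp only [h2, mul_sub, expect_sub_distrib] at h1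
  set p := 𝔼 x ∈ V F l, 𝔼 g ∈ V F (l + m), 𝔼 b ∈ M F m,
        ind (1 / Q F ^ 21 ≤ ‖T ψ (l + m) φ (g - x * b) (ξ (g - x * b))‖ ∧
          ∀ a ∈ V F l, ξ g (b * a) - ξ (g - x * b) (b * a) = ζ x a)
  have h6 := (h1.trans (norm_sub_le _ _))
  set X₀ := ‖𝔼 h ∈ V F (l + m), θ h * 𝔼 a ∈ M F l, 𝔼 b ∈ M F m,
        ((α a * β b : ℝ) : ℂ) * ((φ (a * b + h) : ℂ) * ψ (ξ h (a * b)))‖
  have hp : 0 ≤ p := expect_nonneg fun _ _ => expect_nonneg fun _ _ => expect_ind_nonneg _ _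
  have hQ2 := two_le_Q (F := F)
  have h7 : 1 / (2 * Q F ^ 62) ≤ X₀ := by
    have e1 : 1 / Q F ^ 63 ≤ 1 / (2 * Q F ^ 62) := by
      rw [show Q F ^ 63 = Q F * Q F ^ 62 by ring]
      gcongr
    have e2 : 1 / Q F ^ 62 = 1 / (2 * Q F ^ 62) + 1 / (2 * Q F ^ 62) := by field_simp; ring
    linarith
  have h8 : (X₀ ^ 2) ^ 2 ≤ K ^ 12 * p := by
    refine le_trans (pow_le_pow_left₀ (sq_nonneg _) h4 2) ?_
    rw [mul_pow, show K ^ 12 * p = ((K ^ 2) ^ 2) ^ 2 * ((K ^ 2) ^ 2 * p) by ring]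
    gcongr
  have h9 : ((1 / (2 * Q F ^ 62)) ^ 2) ^ 2 ≤ K ^ 12 * p := le_trans (by gcongr) h8
  rw [show ((1 / (2 * Q F ^ 62)) ^ 2) ^ 2 = 1 / (16 * Q F ^ 248) by field_simp; ring,
    div_le_iff₀ (by positivity)] at h9
  rw [div_le_iff₀ (by positivity), show Q F ^ 249 = Q F * Q F ^ 248 by ring]
  have h10 : 0 ≤ p * Q F ^ 248 := by positivity
  nlinarith

end Pool.Agent.VDW

namespace Pool.Agent.VDW

open Polynomial Finset
open scoped BigOperators

variable {F : Type} [Field F] [Fintype F] [DecidableEq F]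

lemma u3b_inj {s : Finset F[X]} {m : ℕ} (hs : (s.card : ℝ) = Q F ^ m) (φ : F[X] → F[X])
    (hφ : Function.Injective φ) (ht : ∀ i ∈ s, φ i ∈ V F (m + 1)) (G : F[X] → ℝ)
    (hG : ∀ j, 0 ≤ G j) : 𝔼 i ∈ s, G (φ i) ≤ Q F * 𝔼 j ∈ V F (m + 1), G j := by
  classical
  have q0 := Q_pos (F := F)
  have h1 : ∑ i ∈ s, G (φ i) ≤ ∑ j ∈ V F (m + 1), G j := by
    rw [← sum_image (f := G) hφ.injOn]
    exact sum_le_sum_of_subset_of_nonneg (image_subset_iff.2 ht) fun j _ _ => hG j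
  rw [expect_eq_sum_div_card, expect_eq_sum_div_card, hs, card_V_real, pow_succ,
    show ∀ a : ℝ, Q F * (a / (Q F ^ m * Q F)) = a / Q F ^ m from fun a => by field_simp]
  gcongr

lemma u3b_quad (h2 : (2 : F) ≠ 0) (L μ : F[X] →ₗ[F] F) {m : ℕ} (s : ℕ) {y : F[X]}
    (hy : y ∈ V F m) : (𝔼 b ∈ M F m, ind (∀ a ∈ V F s, L (b * (b + y) * a) = μ a)) ^ 2 ≤
      Q F ^ 2 * 𝔼 u ∈ V F (m + 1), 𝔼 w ∈ V F (m + 1), ind (Kills L (u * w) s) := by
  have q0 := Q_pos (F := F)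
  have h3 : (2 : F[X]) ≠ 0 := fun h => h2 (C_eq_zero.1 (by rw [← h]; rfl))
  rw [sq_expect, expect_M_pair, expect_comm, sq, mul_assoc]
  refine le_trans (expect_le_expect fun u hu => ?_) (le_trans (le_of_eq (mul_expect _ _ _).symm)
    (mul_le_mul_of_nonneg_left (u3b_inj (card_V_real m) id Function.injective_id
      (fun i hi => V_mono m.le_succ hi) (fun u => 𝔼 w ∈ V F (m + 1), ind (Kills L (u * w) s))
      fun _ => expect_ind_nonneg _ _) q0.le))
  refine le_trans (expect_le_expect fun b _ => ?_) (u3b_inj (card_M_real m)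
    (fun b => 2 * b + (u + y)) (fun a b h => mul_left_cancel₀ h3 (add_right_cancel h))
    (fun b hb => ?_) (fun w => ind (Kills L (u * w) s)) fun _ => ind_nonneg _)
  · rw [← ind_and]
    refine ind_mono fun h a ha => ?_
    rw [show u * (2 * b + (u + y)) * a = (b + u) * (b + u + y) * a - b * (b + y) * a by ring,
      map_sub, h.1 a ha, h.2 a ha, sub_self]
  · have h4 := M_mem_V m.lt_succ_self hb
    rw [two_mul]
    exact V_add (V_add h4 h4) (V_mono m.le_succ (V_add hu hy))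

/-- second step of the degree lowering: the frequency is often constant -/
theorem u3b (h2 : (2 : F) ≠ 0) (hq : 8 ≤ Q F) (d l m : ℕ) (hm : 12 * d + 10 ≤ m)
    (hl : m + 4 * d + 4 ≤ l) (A : F[X] → Prop) (ξ ζ : F[X] → (F[X] →ₗ[F] F))
    (h : 1 / Q F ^ d ≤ 𝔼 x ∈ V F l, 𝔼 g ∈ V F (l + m), 𝔼 b ∈ M F m,
        ind (A (g - x * b) ∧ ∀ a ∈ V F l, ξ g (b * a) - ξ (g - x * b) (b * a) = ζ x a)) :
    ∃ h ∈ V F (l + m), ∃ ξ₀ : F[X] →ₗ[F] F, 1 / Q F ^ (38 * d + 32) ≤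
      𝔼 x ∈ V F l, 𝔼 y ∈ V F m,
        ind (A (h - x * y) ∧ ∀ v ∈ V F (l + m), ξ (h - x * y) v = ξ₀ v) := by
  have q0 := Q_pos (F := F)
  obtain ⟨s, rfl⟩ : ∃ s, l = m + s := ⟨l - m, by omega⟩
  obtain ⟨k, hk⟩ : ∃ k, m + s + m = k + (24 * d + 20) := ⟨m + s + m - (24 * d + 20), by omega⟩
  obtain ⟨S, hS, hS2⟩ := few (F := F) (m + s + m) (3 * (4 * d + 3) + 1) k (by omega)
  rw [show 3 * (4 * d + 3) + 1 + 1 + (m + s + m - k) = 36 * d + 31 by omega] at hS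
  set δ : ℝ := 1 / Q F ^ d with hδ
  have δ0 : 0 < δ := by positivity
  let R : F[X] → F[X] → F[X] → F[X] → Prop := fun x h y b => A (h - x * y) ∧ ∀ a ∈ V F s,
    (ξ (h - x * y) - ξ h) (b * (b + y) * a) = (ζ x ∘ₗ LinearMap.mulLeft F y) a
  let W : F[X] → (F[X] →ₗ[F] F) → F[X] × F[X] → Prop := fun h L p => A (h - p.1 * p.2) ∧
    ∀ v ∈ V F (m + s + m), ξ (h - p.1 * p.2) v = (ξ h + L) v
  have h1 : δ ^ 2 ≤ 𝔼 x ∈ V F (m + s), 𝔼 h ∈ V F (m + s + m), 𝔼 y ∈ V F m, 𝔼 b ∈ M F m,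
      ind (R x h y b) := by
    refine ((pow_le_pow_left₀ δ0.le h 2).trans (sq_expect_le _ _)).trans
      (expect_le_expect fun x hx => (sq_expect_le _ _).trans ?_)
    simp only [sq_expect, expect_M_pair, ← ind_and]
    simp only [expect_comm (V F m) (M F m)]
    rw [expect_comm, expect_comm _ (M F m)]
    refine expect_le_expect fun b hb => ?_
    rw [← expect_V_add (V_mul_M hx hb)]
    refine expect_le_expect fun h _ => expect_le_expect fun y hy => ind_mono ?_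
    rw [show h + x * b - x * b = h by ring, show h + x * b - x * (b + y) = h - x * y by ring]
    rintro ⟨⟨-, a1⟩, a2, a3⟩
    refine ⟨a2, fun a ha => ?_⟩
    have e1 := a1 _ (M_mul_V (M_add_V hb hy) ha)
    have e2 := a3 _ (M_mul_V hb ha)
    rw [← mul_assoc, add_mul b y a, map_add] at e1
    rw [← mul_assoc, mul_comm (b + y) b] at e2
    simp only [LinearMap.sub_apply, LinearMap.comp_apply, LinearMap.mulLeft_apply]
    linear_combination e1 - e2
  have h3 : ∀ x h, ∀ y ∈ V F m, 𝔼 b ∈ M F m, ind (R x h y b) ≤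
      δ ^ 2 / 2 + ind (∃ L ∈ S, W h L (x, y)) := fun x h y hy => by
    by_cases hc : 𝔼 b ∈ M F m, ind (R x h y b) ≤ δ ^ 2 / 2
    · linarith [ind_nonneg (∃ L ∈ S, W h L (x, y))]
    push Not at hc
    have hA : A (h - x * y) := by
      by_contra hA
      have : 𝔼 b ∈ M F m, ind (R x h y b) ≤ 0 :=
        expect_le' le_rfl fun b _ => (ind_neg fun hR => hA hR.1).le
      linarith [sq_pos_of_pos δ0]
    have h4 := (pow_le_pow_left₀ (by positivity) (hc.le.trans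
      (expect_le_expect fun b _ => ind_mono fun hR => hR.2)) 2).trans (u3b_quad h2 _ _ s hy)
    obtain ⟨B, B0, B1, B2⟩ := dioph (ξ (h - x * y) - ξ h) (4 * d + 3) (m + 1) s (by omega)
      (by omega) (by
        refine le_of_mul_le_mul_left (le_trans ?_ h4) (pow_pos q0 2)
        have e : (δ ^ 2 / 2) ^ 2 = Q F ^ 2 * (Q F / 4 / Q F ^ (4 * d + 3)) := by
          rw [hδ]; field_simp; ring
        rw [e]
        gcongr
        linarith)
    obtain ⟨L, hL, hL2⟩ := hS2 _ B B0 B1 (B2 k (by omega))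
    rw [ind_pos (P := ∃ L ∈ S, W h L (x, y)) ⟨L, hL, hA, fun v hv => by
      rw [LinearMap.add_apply, ← hL2 v hv, LinearMap.sub_apply, add_sub_cancel]⟩]
    linarith [expect_ind_le_one (M F m) (R x h y), sq_pos_of_pos δ0]
  have h5 : δ ^ 2 / 2 ≤ 𝔼 h ∈ V F (m + s + m), 𝔼 p ∈ V F (m + s) ×ˢ V F m,
      ind (∃ L ∈ S, W h L p) := by
    have := h1.trans (expect_le_expect fun x _ => expect_le_expect fun h _ =>
      expect_le_expect fun y hy => h3 x h y hy)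
    simp only [expect_add_distrib, expect_const (V_nonempty _)] at this
    simp only [expect_product]
    rw [expect_comm]
    linarith
  obtain ⟨h, hh, h6⟩ := exists_le_of_le_expect (V_nonempty _) h5
  obtain ⟨L, -, h7⟩ := pigeon _ S (W h) _ _ (by positivity) hS h6
  rw [expect_product] at h7
  refine ⟨h, hh, ξ h + L, le_trans ?_ h7⟩
  have e : δ ^ 2 / 2 / Q F ^ (36 * d + 31) = Q F / 2 / Q F ^ (38 * d + 32) := by
    rw [hδ]; field_simp; ring
  rw [e]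
  gcongr
  linarith

end Pool.Agent.VDW

namespace Pool.Agent.VDW

open Polynomial Finset
open scoped BigOperators

variable {F : Type} [Field F] [Fintype F] [DecidableEq F]

lemma u3c_norm_T (ψ : AddChar F ℂ) (n : ℕ) (φ : F[X] → ℝ) (w : F[X]) {L L' : F[X] →ₗ[F] F}
    (h : ∀ v ∈ V F n, L v = L' v) : ‖T ψ n φ w L‖ = ‖T ψ n φ w L'‖ := by
  have key : ∀ L : F[X] →ₗ[F] F, ‖T ψ n φ w L‖ =
      ‖𝔼 v ∈ V F n, ((φ (X ^ n + v) * φ (X ^ n + v + w) : ℝ) : ℂ) * ψ (L v)‖ := by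
    intro L
    have e : T ψ n φ w L = ψ (L (X ^ n)) *
        𝔼 v ∈ V F n, ((φ (X ^ n + v) * φ (X ^ n + v + w) : ℝ) : ℂ) * ψ (L v) := by
      rw [T, expect_M_base (X_pow_mem_M n), mul_expect]
      refine expect_congr rfl fun v _ => ?_
      rw [map_add, AddChar.map_add_eq_mul]
      ring
    rw [e, norm_mul, norm_psi, one_mul]
  rw [key, key]
  congr 1
  exact expect_congr rfl fun v hv => by rw [h v hv]

lemma u3c_T_le (ψ : AddChar F ℂ) (n : ℕ) (φ : F[X] → ℝ) (K : ℝ) (hK : 1 ≤ K)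
    (hφ : ∀ f ∈ M F n, |φ f| ≤ K) {w : F[X]} (hw : w ∈ V F n) (L : F[X] →ₗ[F] F) :
    ‖T ψ n φ w L‖ ^ 2 ≤ K ^ 4 := by
  have h : ‖T ψ n φ w L‖ ≤ K ^ 2 := by
    refine norm_expect_le' (by positivity) fun f hf => ?_
    rw [norm_mul, norm_psi, mul_one, Complex.norm_real, Real.norm_eq_abs, abs_mul, sq]
    exact mul_le_mul (hφ f hf) (hφ _ (M_add_V hf hw)) (abs_nonneg _) (by linarith)
  calc _ ≤ (K ^ 2) ^ 2 := by gcongr
    _ = K ^ 4 := by ring

lemma u3c_mean {ψ : AddChar F ℂ} (hψ : ψ ≠ 1) (n : ℕ) (φ : F[X] → ℝ) (K ε : ℝ) (hK : 1 ≤ K)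
    (hφ : ∀ f ∈ M F n, |φ f| ≤ K)
    (hε : ∀ L : F[X] →ₗ[F] F, ‖𝔼 f ∈ M F n, (φ f : ℂ) * ψ (L f)‖ ≤ ε) (L : F[X] →ₗ[F] F) :
    𝔼 w ∈ V F n, ‖T ψ n φ w L‖ ^ 2 ≤ ε ^ 2 * K ^ 2 := by
  have h := cor hψ n (fun f => (φ f : ℂ) * ψ (L f)) (fun f => (φ f : ℂ)) ε hε
  have e : 𝔼 w ∈ V F n, ‖T ψ n φ w L‖ ^ 2 =
      𝔼 w ∈ V F n, ‖𝔼 f ∈ M F n, (φ f : ℂ) * ψ (L f) * (φ (f + w) : ℂ)‖ ^ 2 := by
    refine expect_congr rfl fun w _ => ?_
    congr 2
    refine expect_congr rfl fun f _ => ?_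
    push_cast
    ring
  rw [e]
  refine h.trans (mul_le_mul_of_nonneg_left (expect_le' (by positivity) fun f hf => ?_)
    (sq_nonneg _))
  rw [norm_mul, norm_psi, mul_one, Complex.norm_real, Real.norm_eq_abs]
  exact pow_le_pow_left₀ (abs_nonneg _) (hφ f hf) 2

lemma u3c_num {q K t : ℝ} {a b c m : ℕ} (hK : 1 ≤ K) (hq : 16 * K ^ 12 ≤ q) (ht0 : 0 ≤ t)
    (ht : t ≤ q) (hm : a + b + 3 ≤ m) (hc : a + b + 5 ≤ 2 * c) :
    2 * K ^ 4 / q ^ m + q * t * ((1 / q ^ c) ^ 2 * K ^ 2) < 1 / q ^ b * (1 / q ^ a) := by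
  have h12 : 1 ≤ K ^ 12 := one_le_pow₀ hK
  have h4 : K ^ 4 ≤ K ^ 12 := pow_le_pow_right₀ hK (by norm_num)
  have h2 : K ^ 2 ≤ K ^ 12 := pow_le_pow_right₀ hK (by norm_num)
  have hq1 : 1 ≤ q := by linarith
  have hq0 : 0 < q := by linarith
  have hy : 0 < q ^ (a + b) := by positivity
  have e1 : 2 * K ^ 4 / q ^ m ≤ 1 / (q ^ 2 * q ^ (a + b)) := by
    rw [div_le_div_iff₀ (by positivity) (by positivity), one_mul]
    calc 2 * K ^ 4 * (q ^ 2 * q ^ (a + b)) ≤ q * (q ^ 2 * q ^ (a + b)) := by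
          gcongr
          linarith
      _ = q ^ (a + b + 3) := by ring
      _ ≤ q ^ m := pow_le_pow_right₀ hq1 hm
  have e2 : q * t * ((1 / q ^ c) ^ 2 * K ^ 2) ≤ 1 / (q ^ 2 * q ^ (a + b)) := by
    have e : q * t * ((1 / q ^ c) ^ 2 * K ^ 2) = q * t * K ^ 2 / q ^ (2 * c) := by
      rw [div_pow, one_pow, ← pow_mul, mul_comm c 2]
      ring
    rw [e, div_le_div_iff₀ (by positivity) (by positivity), one_mul]
    calc q * t * K ^ 2 * (q ^ 2 * q ^ (a + b)) ≤ q * q * q * (q ^ 2 * q ^ (a + b)) := by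
          gcongr
          linarith
      _ = q ^ (a + b + 5) := by ring
      _ ≤ q ^ (2 * c) := pow_le_pow_right₀ hq1 hc
  have e3 : 1 / q ^ b * (1 / q ^ a) = 1 / q ^ (a + b) := by
    rw [div_mul_div_comm, one_mul, ← pow_add, add_comm]
  have e4 : 2 * (1 / (q ^ 2 * q ^ (a + b))) < 1 / q ^ (a + b) := by
    rw [mul_one_div, div_lt_div_iff₀ (by positivity) hy, one_mul]
    have : 2 < q ^ 2 := by nlinarith
    exact mul_lt_mul_of_pos_right this hy
  rw [e3]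
  linarith

theorem u3 {ψ : AddChar F ℂ} (hψ : ψ ≠ 1) (h2 : (2 : F) ≠ 0) (l m : ℕ) (hm : 10000 ≤ m)
    (hl : m + 1000 ≤ l) (α β φ : F[X] → ℝ) (K : ℝ) (hK : 1 ≤ K)
    (hq : 16 * K ^ 12 ≤ Q F) (hn : (2 : ℝ) ^ (l + m) ≤ Q F)
    (hα : ∀ a ∈ M F l, |α a| ≤ K) (hβ : ∀ b ∈ M F m, |β b| ≤ K)
    (hφ : ∀ f ∈ M F (l + m), |φ f| ≤ K) (hc : Conv l m α β φ)
    (hε : ∀ L : F[X] →ₗ[F] F, ‖𝔼 f ∈ M F (l + m), (φ f : ℂ) * ψ (L f)‖ ≤ 1 / Q F ^ 5000) :
    PU3 (l + m) φ ≤ 1 / Q F ^ 40 := by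
  by_contra hcon
  have h12 : 1 ≤ K ^ 12 := one_le_pow₀ hK
  have hq0 : (0 : ℝ) < Q F := Q_pos
  obtain ⟨ξ, ζ, h1⟩ := u3a hψ l m α β φ K hK hq hα hβ hφ hc (fun L => (hε L).trans
    (one_div_le_one_div_of_le (by positivity) (pow_le_pow_right₀ one_le_Q (by norm_num))))
    (not_le.1 hcon).le
  obtain ⟨h, hh, ξ₀, h3⟩ := u3b h2 (by linarith) 249 l m (by omega) (by omega)
    (fun h => 1 / Q F ^ 21 ≤ ‖T ψ (l + m) φ h (ξ h)‖) ξ ζ h1
  have h4 := div_bound l m (by omega) (fun w => ‖T ψ (l + m) φ w ξ₀‖ ^ 2) (K ^ 4)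
    (fun w _ => sq_nonneg _) (fun w hw => u3c_T_le ψ _ φ K hK hφ hw ξ₀) h hh
  have h5 := u3c_mean hψ (l + m) φ K _ hK hφ hε ξ₀
  have h6 : 1 / Q F ^ 42 * (1 / Q F ^ (38 * 249 + 32)) ≤
      𝔼 x ∈ V F l, 𝔼 y ∈ V F m, ‖T ψ (l + m) φ (h - x * y) ξ₀‖ ^ 2 := by
    refine (mul_le_mul_of_nonneg_left h3 (by positivity)).trans ?_
    rw [mul_expect]
    refine expect_le_expect fun x _ => ?_
    rw [mul_expect]
    refine expect_le_expect fun y _ => ?_
    by_cases hP : 1 / Q F ^ 21 ≤ ‖T ψ (l + m) φ (h - x * y) (ξ (h - x * y))‖ ∧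
        ∀ v ∈ V F (l + m), ξ (h - x * y) v = ξ₀ v
    · rw [ind_pos hP, mul_one, ← u3c_norm_T ψ _ φ _ hP.2]
      refine le_trans (le_of_eq ?_) (pow_le_pow_left₀ (by positivity) hP.1 2)
      rw [div_pow, one_pow, ← pow_mul]
    · rw [ind_neg hP, mul_zero]
      exact sq_nonneg _
  have h7 := u3c_num (a := 38 * 249 + 32) (b := 42) (c := 5000) (m := m) hK hq (by positivity) hn
    (by omega) (by omega)
  have h8 := mul_le_mul_of_nonneg_left h5 (by positivity : 0 ≤ Q F * 2 ^ (l + m))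
  exact absurd (h6.trans (h4.trans (add_le_add le_rfl h8))) (not_le.2 h7)

end Pool.Agent.VDW
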