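import Mathlib

/-! Approximable functions and the determinant method. -/

open Finset

namespace Pool.Agent.VT

/-- `F` is `l`-adically approximable by integer polynomials in the coordinates `x`. -/
def Apx {ι σ : Type} (l : ℕ) (x : ι → σ → ℤ) (F : ι → ℤ) : Prop :=
  ∀ K : ℕ, ∃ P : MvPolynomial σ ℤ, ∀ j, (l : ℤ) ^ K ∣ F j - MvPolynomial.eval (x j) P

variable {ι σ : Type} {l : ℕ} {x : ι → σ → ℤ} {F G y : ι → ℤ}

theorem Apx.poly (P : MvPolynomial σ ℤ) : Apx l x fun j => MvPolynomial.eval (x j) P :=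
  fun _ => ⟨P, fun _ => by simp⟩

theorem Apx.const (c : ℤ) : Apx l x fun _ => c :=
  fun _ => ⟨MvPolynomial.C c, fun _ => by simp⟩

theorem Apx.coord (i : σ) : Apx l x fun j => x j i :=
  fun _ => ⟨MvPolynomial.X i, fun _ => by simp⟩

theorem Apx.add (hF : Apx l x F) (hG : Apx l x G) : Apx l x fun j => F j + G j := fun K => by
  obtain ⟨P, hP⟩ := hF K
  obtain ⟨Q, hQ⟩ := hG K
  refine ⟨P + Q, fun j => ?_⟩
  have := dvd_add (hP j) (hQ j)
  rw [map_add]
  exact this.trans (dvd_of_eq (by ring))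

theorem Apx.sub (hF : Apx l x F) (hG : Apx l x G) : Apx l x fun j => F j - G j := fun K => by
  obtain ⟨P, hP⟩ := hF K
  obtain ⟨Q, hQ⟩ := hG K
  refine ⟨P - Q, fun j => ?_⟩
  have := dvd_sub (hP j) (hQ j)
  rw [map_sub]
  exact this.trans (dvd_of_eq (by ring))

theorem Apx.mul (hF : Apx l x F) (hG : Apx l x G) : Apx l x fun j => F j * G j := fun K => by
  obtain ⟨P, hP⟩ := hF K
  obtain ⟨Q, hQ⟩ := hG K
  refine ⟨P * Q, fun j => ?_⟩
  have := dvd_add ((hP j).mul_right (G j)) ((hQ j).mul_left (MvPolynomial.eval (x j) P))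
  rw [map_mul]
  exact this.trans (dvd_of_eq (by ring))

theorem Apx.pow (hF : Apx l x F) (n : ℕ) : Apx l x fun j => F j ^ n := by
  induction n with
  | zero => simpa using Apx.const 1
  | succ n ih => simpa [pow_succ] using ih.mul hF

theorem Apx.sum {κ : Type} (s : Finset κ) {F : κ → ι → ℤ} (hF : ∀ i ∈ s, Apx l x (F i)) :
    Apx l x fun j => ∑ i ∈ s, F i j := by
  classical
  induction s using Finset.induction_on with
  | empty => simpa using Apx.const 0
  | insert a s ha ih =>
    simp only [sum_insert ha]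
    exact (hF a (mem_insert_self _ _)).add (ih fun i hi => hF i (mem_insert_of_mem hi))

theorem Apx.prod {κ : Type} (s : Finset κ) {F : κ → ι → ℤ} (hF : ∀ i ∈ s, Apx l x (F i)) :
    Apx l x fun j => ∏ i ∈ s, F i j := by
  classical
  induction s using Finset.induction_on with
  | empty => simpa using Apx.const 1
  | insert a s ha ih =>
    simp only [prod_insert ha]
    exact (hF a (mem_insert_self _ _)).mul (ih fun i hi => hF i (mem_insert_of_mem hi))

theorem eval_modEq {m : ℤ} {a b : σ → ℤ} (h : ∀ i, a i ≡ b i [ZMOD m]) (P : MvPolynomial σ ℤ) :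
    MvPolynomial.eval a P ≡ MvPolynomial.eval b P [ZMOD m] := by
  induction P using MvPolynomial.induction_on with
  | C c => simp
  | add p q hp hq => simpa using hp.add hq
  | mul_X p i hp => simpa using hp.mul (h i)

theorem Apx.modEq (hx : ∀ j j' i, x j i ≡ x j' i [ZMOD l]) (hF : Apx l x F) (j j' : ι) :
    F j ≡ F j' [ZMOD l] := by
  obtain ⟨P, hP⟩ := hF 1
  have h : ∀ j, MvPolynomial.eval (x j) P ≡ F j [ZMOD l] := fun j =>
    (Int.modEq_iff_dvd).2 (by simpa using hP j)
  exact (h j).symm.trans ((eval_modEq (hx j j') P).trans (h j'))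

theorem det_dvd {κ A : Type} [Fintype κ] [DecidableEq κ] (s : Finset A) (C : κ → A → ℤ)
    (V : A → κ → ℤ) (wt : A → ℕ) (m : ℤ) (hV : ∀ a ∈ s, ∀ j, m ^ wt a ∣ V a j) (ν : ℕ)
    (hν : ∀ φ : κ → A, Function.Injective φ → (∀ i, φ i ∈ s) → ν ≤ ∑ i, wt (φ i)) :
    m ^ ν ∣ (Matrix.of fun i j => ∑ a ∈ s, C i a * V a j).det := by
  classical
  have e : (Matrix.of fun i j => ∑ a ∈ s, C i a * V a j).det =
      (Matrix.detRowAlternating (n := κ) (R := ℤ)).toMultilinearMap
        fun i => ∑ a ∈ s, C i a • V a := by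
    change Matrix.detRowAlternating _ = Matrix.detRowAlternating _
    congr 1
    ext i j
    simp [Finset.sum_apply]
  rw [e, MultilinearMap.map_sum_finset]
  refine dvd_sum fun φ hφ => ?_
  have hs : ∀ i, φ i ∈ s := Fintype.mem_piFinset.1 hφ
  rw [MultilinearMap.map_smul_univ, smul_eq_mul]
  refine Dvd.dvd.mul_left ?_ _
  by_cases hi : Function.Injective φ
  · choose W hW using fun i j => hV _ (hs i) j
    have : (fun i => V (φ i)) = fun i => m ^ wt (φ i) • W i := by
      ext i j
      simp [hW]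
    rw [this, MultilinearMap.map_smul_univ, smul_eq_mul, prod_pow_eq_pow_sum]
    exact (pow_dvd_pow _ (hν φ hi hs)).mul_right _
  · have : (Matrix.detRowAlternating (n := κ) (R := ℤ)) (fun i => V (φ i)) = 0 :=
      AlternatingMap.map_eq_zero_of_not_injective _ _ fun h => hi (Function.Injective.of_comp h)
    rw [AlternatingMap.coe_multilinearMap, this]
    exact dvd_zero _

theorem wt_sum {κ : Type} [Fintype κ] (w : κ → ℕ) (K : ℕ) (n : ℕ → ℕ)
    (hn : ∀ t < K, #{i | w i ≤ t} ≤ n t) :
    ∑ t ∈ range K, (Fintype.card κ - n t) ≤ ∑ i, w i := by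
  classical
  calc ∑ t ∈ range K, (Fintype.card κ - n t) ≤ ∑ t ∈ range K, ∑ i, if t < w i then 1 else 0 := by
        refine sum_le_sum fun t ht => ?_
        have h1 := hn t (mem_range.1 ht)
        have h2 := card_filter_add_card_filter_not (s := (univ : Finset κ)) (fun i => w i ≤ t)
        rw [← card_filter]
        simp only [not_le, card_univ] at h2
        omega
    _ ≤ ∑ i, w i := by
        rw [sum_comm]
        refine sum_le_sum fun i _ => ?_
        rw [← card_filter]
        calc _ ≤ #(range (w i)) := card_le_card fun t ht => mem_range.2 (mem_filter.1 ht).2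
          _ = w i := card_range _

theorem card_deg_le {k t : ℕ} (s : Finset (Fin k →₀ ℕ)) (hs : ∀ a ∈ s, ∑ i, a i ≤ t) :
    #s ≤ (t + k).choose k := by
  classical
  rw [← Nat.sum_range_multichoose]
  calc #s ≤ #((range (t + 1)).biUnion fun d => (univ : Finset (Fin k)).finsuppAntidiag d) := by
        refine card_le_card fun a ha => mem_biUnion.2 ⟨∑ i, a i, ?_, ?_⟩
        · exact mem_range.2 (Nat.lt_succ_of_le (hs a ha))
        · simp [mem_finsuppAntidiag]
    _ ≤ _ := card_biUnion_le.trans (sum_le_sum fun d _ => by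
        rw [card_finsuppAntidiag_nat_eq_multichoose]
        simp)

theorem det_apx {k : ℕ} {κ : Type} [Fintype κ] [DecidableEq κ] (K : ℕ) {x : κ → Fin k → ℤ}
    (hx : ∀ j j' i, x j i ≡ x j' i [ZMOD l]) {F : κ → κ → ℤ} (hF : ∀ i, Apx l x (F i)) :
    (l : ℤ) ^ (∑ t ∈ range K, (Fintype.card κ - (t + k).choose k)) ∣ (Matrix.of F).det := by
  classical
  rcases isEmpty_or_nonempty κ with h | ⟨⟨j0⟩⟩
  · simp
  choose P hP using fun i => hF i K
  choose e he using hP
  let Q : κ → MvPolynomial (Fin k) ℤ := fun i =>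
    MvPolynomial.bind₁ (fun a => MvPolynomial.X a + MvPolynomial.C (x j0 a)) (P i)
  have hQ : ∀ i j, MvPolynomial.eval (fun a => x j a - x j0 a) (Q i) =
      MvPolynomial.eval (x j) (P i) := fun i j => by
    simp only [Q]
    induction P i using MvPolynomial.induction_on with
    | C c => simp
    | add p q hp hq => simp only [map_add, hp, hq]
    | mul_X p i hp =>
      simp only [map_mul, hp]
      simp
  let T : Finset (Fin k →₀ ℕ) := univ.biUnion fun i => (Q i).support
  let C : κ → (Fin k →₀ ℕ) ⊕ κ → ℤ := fun i => Sum.elim (fun a => (Q i).coeff a) (e i)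
  let V : (Fin k →₀ ℕ) ⊕ κ → κ → ℤ := Sum.elim (fun a j => ∏ i, (x j i - x j0 i) ^ a i)
    fun j' j => if j' = j then (l : ℤ) ^ K else 0
  let wt : (Fin k →₀ ℕ) ⊕ κ → ℕ := Sum.elim (fun a => ∑ i, a i) fun _ => K
  have hM : Matrix.of F = Matrix.of fun i j => ∑ a ∈ T.disjSum univ, C i a * V a j := by
    ext i j
    have h1 : MvPolynomial.eval (x j) (P i) =
        ∑ a ∈ T, (Q i).coeff a * ∏ b, (x j b - x j0 b) ^ a b := by
      rw [← hQ, MvPolynomial.eval_eq']
      refine sum_subset (subset_biUnion_of_mem (fun i => (Q i).support) (mem_univ i))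
        fun a _ ha => ?_
      rw [MvPolynomial.notMem_support_iff.1 ha, zero_mul]
    have h2 := he i j
    simp only [Matrix.of_apply, sum_disjSum, C, V, Sum.elim_inl, Sum.elim_inr, mul_ite, mul_zero,
      sum_ite_eq', mem_univ, if_true, ← h1]
    linarith
  rw [hM]
  refine det_dvd _ C V wt _ ?_ _ fun φ hφ _ => wt_sum _ K _ fun t ht => ?_
  · rintro (a | j') _ j
    · simp only [wt, V, Sum.elim_inl, ← prod_pow_eq_pow_sum]
      exact prod_dvd_prod_of_dvd _ _ fun i _ => pow_dvd_pow_of_dvd (hx j0 j i).dvd _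
    · simp only [wt, V, Sum.elim_inr]
      split_ifs <;> simp
  · have h1 : ∀ i, wt (φ i) ≤ t → ∃ a, φ i = Sum.inl a ∧ ∑ b, a b ≤ t := fun i hi => by
      rcases h : φ i with a | j
      · exact ⟨a, rfl, by simpa [h, wt] using hi⟩
      · simp only [h, wt, Sum.elim_inr] at hi
        omega
    let g : κ → (Fin k →₀ ℕ) := fun i => Sum.elim id (fun _ => 0) (φ i)
    rw [← card_image_of_injOn (f := g)]
    · refine card_deg_le _ fun a ha => ?_
      obtain ⟨i, hi, rfl⟩ := mem_image.1 ha
      obtain ⟨a, h, h'⟩ := h1 i (mem_filter.1 hi).2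
      simpa [g, h] using h'
    · intro i hi i' hi' h
      obtain ⟨a, ha, -⟩ := h1 i (mem_filter.1 hi).2
      obtain ⟨a', ha', -⟩ := h1 i' (mem_filter.1 hi').2
      apply hφ
      simp only [g, ha, ha', Sum.elim_inl, id] at h
      rw [ha, ha', h]

theorem int_of_rat {κ : Type} [Fintype κ] (v : κ → ℚ) :
    ∃ (d : ℤ) (w : κ → ℤ), d ≠ 0 ∧ ∀ i, (w i : ℚ) = d * v i := by
  obtain ⟨b, hb⟩ := IsLocalization.exist_integer_multiples_of_finite (nonZeroDivisors ℤ) v
  choose w hw using hb
  exact ⟨b, w, nonZeroDivisors.coe_ne_zero b, fun i => by simpa using hw i⟩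

theorem rel_of_det {κ : Type} [Fintype κ] [DecidableEq κ] (F : κ → ι → ℤ)
    (h : ∀ p : κ → ι, (Matrix.of fun i j => F i (p j)).det = 0) :
    ∃ c : κ → ℤ, c ≠ 0 ∧ ∀ j, ∑ i, c i * F i j = 0 := by
  classical
  let v : ι → κ → ℚ := fun j i => F i j
  obtain ⟨κ', a, -, hs, hi⟩ := exists_linearIndependent' ℚ v
  by_cases ht : Submodule.span ℚ (Set.range v) = ⊤
  · exfalso
    let b := Module.Basis.mk hi (hs.trans ht).ge
    let e : κ ≃ κ' := (Pi.basisFun ℚ κ).indexEquiv b
    have h1 : LinearIndependent ℚ (Matrix.of fun j i => v (a (e j)) i).row := hi.comp e e.injective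
    have h2 := (Matrix.isUnit_iff_isUnit_det _).1 (Matrix.linearIndependent_rows_iff_isUnit.1 h1)
    refine h2.ne_zero ?_
    have h3 := congrArg (Int.castRingHom ℚ) (h fun j => a (e j))
    rw [RingHom.map_det, map_zero, ← Matrix.det_transpose] at h3
    exact h3
  · obtain ⟨f, hf, hk⟩ := Submodule.exists_le_ker_of_lt_top _ (lt_top_iff_ne_top.2 ht)
    obtain ⟨d, w, hd, hw⟩ := int_of_rat fun i => f (Pi.single i 1)
    have hf' : ∀ u : κ → ℚ, f u = ∑ i, u i * f (Pi.single i 1) := fun u => by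
      rw [LinearMap.pi_apply_eq_sum_univ]
      refine sum_congr rfl fun i _ => ?_
      rw [smul_eq_mul]
      congr 2
      ext j
      simp [Pi.single_apply, eq_comm]
    refine ⟨w, fun h0 => hf ?_, fun j => ?_⟩
    · ext1 u
      refine LinearMap.ext fun r => ?_
      have h1 := hw u
      rw [h0] at h1
      have h2 : f (Pi.single u 1) = 0 := by simpa [hd] using h1.symm
      have h3 : (Pi.single u r : κ → ℚ) = r • Pi.single u 1 := by
        rw [← Pi.single_smul, smul_eq_mul, mul_one]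
      simp [h3, h2]
    · have h1 : f (v j) = 0 := hk (Submodule.subset_span ⟨j, rfl⟩)
      rw [hf'] at h1
      have h2 : ((∑ i, w i * F i j : ℤ) : ℚ) = d * ∑ i, v j i * f (Pi.single i 1) := by
        push_cast
        rw [mul_sum]
        exact sum_congr rfl fun i _ => by rw [hw]; simp only [v]; ring
      rw [h1, mul_zero] at h2
      exact_mod_cast h2

/-- The determinant method: a linear relation on a residue class. -/
theorem rel {k : ℕ} {κ : Type} [Fintype κ] (K : ℕ) {x : ι → Fin k → ℤ}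
    (hx : ∀ j j' i, x j i ≡ x j' i [ZMOD l]) {F : κ → ι → ℤ} (hF : ∀ i, Apx l x (F i))
    (B : κ → ℝ) (hB : ∀ i j, |(F i j : ℝ)| ≤ B i)
    (hlt : ((Fintype.card κ).factorial : ℝ) * ∏ i, B i <
      (l : ℝ) ^ (∑ t ∈ range K, (Fintype.card κ - (t + k).choose k))) :
    ∃ c : κ → ℤ, c ≠ 0 ∧ ∀ j, ∑ i, c i * F i j = 0 := by
  classical
  refine rel_of_det F fun p => ?_
  have h1 := det_apx (l := l) K (x := fun j => x (p j)) (fun j j' => hx _ _)
    (F := fun i j => F i (p j)) fun i K => (hF i K).imp fun P hP j => hP (p j)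
  refine Int.eq_zero_of_abs_lt_dvd h1 ?_
  have h2 : |(((Matrix.of fun i j => F i (p j)).det : ℤ) : ℝ)| ≤
      (Fintype.card κ).factorial * ∏ i, B i := by
    rw [← Matrix.det_transpose, Matrix.det_apply']
    push_cast
    refine (abs_sum_le_sum_abs _ _).trans ?_
    rw [← Fintype.card_perm, ← nsmul_eq_mul, ← card_univ]
    refine sum_le_card_nsmul _ _ _ fun s _ => ?_
    have : |(((Equiv.Perm.sign s : ℤˣ) : ℤ) : ℝ)| = 1 := by
      rcases Int.units_eq_one_or (Equiv.Perm.sign s) with h | h <;> simp [h]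
    rw [abs_mul, this, one_mul, abs_prod]
    exact prod_le_prod (fun _ _ => abs_nonneg _) fun i _ => hB i _
  exact_mod_cast h2.trans_lt hlt

end Pool.Agent.VT
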