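import Pool.Agent.P.MP_b0ea37_nt.VTDet

/-! Simple roots and quotients of approximable functions. -/

open Polynomial Finset

namespace Pool.Agent.VT

variable {ι σ : Type} {l : ℕ} {x : ι → σ → ℤ} {F G y : ι → ℤ}

theorem Apx.congr (hF : Apx l x F) (h : ∀ j, F j = G j) : Apx l x G :=
  (funext h : F = G) ▸ hF

theorem Apx.neg (hF : Apx l x F) : Apx l x fun j => -F j :=
  ((Apx.const 0).sub hF).congr fun _ => zero_sub _

theorem Apx.comp {ι' : Type} (hF : Apx l x F) (e : ι' → ι) :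
    Apx l (fun j => x (e j)) fun j => F (e j) :=
  fun K => (hF K).imp fun _ hP j => hP (e j)

theorem Apx.limit (h : ∀ K : ℕ, ∃ G, Apx l x G ∧ ∀ j, (l : ℤ) ^ K ∣ G j - F j) : Apx l x F :=
  fun K => by
  obtain ⟨G, hG, h1⟩ := h K
  obtain ⟨P, hP⟩ := hG K
  exact ⟨P, fun j => (dvd_sub (hP j) (h1 j)).trans (dvd_of_eq (by ring))⟩

/-- fixed points of a contraction -/
theorem Apx.fix {κ : Type} {y : ι → κ → ℤ} (hy : ∀ j j' i, y j i ≡ y j' i [ZMOD l])
    (Φ : ι → (κ → ℤ) → κ → ℤ)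
    (hΦ : ∀ ψ : ι → κ → ℤ, (∀ i, Apx l x fun j => ψ j i) → ∀ i, Apx l x fun j => Φ j (ψ j) i)
    (hc : ∀ j (n : ℕ) (v : κ → ℤ), (∀ i, (l : ℤ) ^ (n + 1) ∣ v i - y j i) →
      ∀ i, (l : ℤ) ^ (n + 2) ∣ Φ j v i - y j i) (i : κ) : Apx l x fun j => y j i := by
  rcases isEmpty_or_nonempty ι with h | ⟨⟨j0⟩⟩
  · exact fun _ => ⟨0, fun j => h.elim j⟩
  have key : ∀ n : ℕ, ∃ ψ : ι → κ → ℤ, (∀ i, Apx l x fun j => ψ j i) ∧
      ∀ j i, (l : ℤ) ^ (n + 1) ∣ ψ j i - y j i := fun n => by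
    induction n with
    | zero => exact ⟨fun _ => y j0, fun i => Apx.const _, fun j i => by simpa using (hy j j0 i).dvd⟩
    | succ n ih =>
      obtain ⟨ψ, h1, h2⟩ := ih
      exact ⟨fun j => Φ j (ψ j), hΦ ψ h1, fun j => hc j n _ (h2 j)⟩
  refine Apx.limit fun K => ?_
  obtain ⟨ψ, h1, h2⟩ := key K
  exact ⟨_, h1 i, fun j => (pow_dvd_pow _ K.le_succ).trans (h2 j i)⟩

theorem Apx.eval {D : ℕ} {c : ι → ℤ[X]} (hD : ∀ j, (c j).natDegree ≤ D)
    (hc : ∀ n, Apx l x fun j => (c j).coeff n) (hy : Apx l x y) :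
    Apx l x fun j => (c j).eval (y j) :=
  (Apx.sum (range (D + 1)) fun n _ => (hc n).mul (hy.pow n)).congr fun j =>
    (eval_eq_sum_range' (Nat.lt_succ_of_le (hD j)) _).symm

theorem exists_inv (hl : l.Prime) {a : ℤ} (h : ¬ (l : ℤ) ∣ a) : ∃ b : ℤ, (l : ℤ) ∣ 1 - b * a := by
  obtain ⟨u, v, e⟩ := ((Nat.prime_iff_prime_int.1 hl).coprime_iff_not_dvd).2 h
  exact ⟨v, u, by linear_combination -e⟩

theorem eval_modEq_of_coeff {m : ℤ} {p q : ℤ[X]} (h : ∀ n, p.coeff n ≡ q.coeff n [ZMOD m])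
    {a b : ℤ} (hab : a ≡ b [ZMOD m]) : p.eval a ≡ q.eval b [ZMOD m] := by
  have h1 : C m ∣ q - p := (C_dvd_iff_dvd_coeff _ _).2 fun n => by simpa using (h n).dvd
  have h2 := eval_dvd (x := a) h1
  rw [eval_C, eval_sub] at h2
  exact ((Int.modEq_iff_dvd).2 h2).trans ((Int.modEq_iff_dvd).2
    (hab.dvd.trans (sub_dvd_eval_sub b a q)))

/-- simple roots -/
theorem Apx.hensel (hl : l.Prime) (hx : ∀ j j' i, x j i ≡ x j' i [ZMOD l]) {D : ℕ}
    {c : ι → ℤ[X]} (hD : ∀ j, (c j).natDegree ≤ D) (hc : ∀ n, Apx l x fun j => (c j).coeff n)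
    (hy : ∀ j, (c j).eval (y j) = 0) (hy' : ∀ j j', y j ≡ y j' [ZMOD l])
    (hd : ∀ j, ¬ (l : ℤ) ∣ (derivative (c j)).eval (y j)) : Apx l x y := by
  rcases isEmpty_or_nonempty ι with h | ⟨⟨j0⟩⟩
  · exact fun _ => ⟨0, fun j => h.elim j⟩
  obtain ⟨b, hb⟩ := exists_inv hl (hd j0)
  refine Apx.fix (κ := Unit) (y := fun j _ => y j) (fun j j' _ => hy' j j')
    (fun j v _ => v () - b * (c j).eval (v ()))
    (fun ψ h _ => (h ()).sub ((Apx.const b).mul (Apx.eval hD hc (h ())))) (fun j n v hv _ => ?_) ()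
  obtain ⟨δ, hδ⟩ := hv ()
  obtain ⟨k, hk⟩ := binomExpansion (c j) (y j) ((l : ℤ) ^ (n + 1) * δ)
  have h1 : (derivative (c j0)).eval (y j0) ≡ (derivative (c j)).eval (y j) [ZMOD l] :=
    eval_modEq_of_coeff (fun n => by
      rw [coeff_derivative, coeff_derivative]
      exact ((hc _).modEq hx j0 j).mul_right _) (hy' j0 j)
  obtain ⟨s, hs⟩ := h1.dvd
  obtain ⟨t, ht⟩ := hb
  have hv : v () = y j + (l : ℤ) ^ (n + 1) * δ := by linarith
  rw [hv, hk, hy]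
  refine ⟨δ * (t - b * s) - b * k * l ^ n * δ ^ 2, ?_⟩
  linear_combination (l : ℤ) ^ (n + 1) * δ * (ht - b * hs)

/-- division by an approximable unit -/
theorem Apx.div (hl : l.Prime) (hx : ∀ j j' i, x j i ≡ x j' i [ZMOD l]) (hy : Apx l x y)
    (hu : ∀ j, ¬ (l : ℤ) ∣ y j) (hG : Apx l x fun j => y j * G j) : Apx l x G := by
  refine Apx.hensel hl hx (D := 1) (c := fun j => C (y j) * X - C (y j * G j))
    (fun j => by compute_degree) (fun n => ?_) (fun j => by simp) (fun j j' => ?_)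
    fun j => by simpa using hu j
  · rcases n with _ | _ | n
    · simpa using hG.neg
    · simpa [coeff_X, coeff_C, -eq_intCast, -map_mul] using hy
    · simpa [coeff_X, coeff_C, -eq_intCast, -map_mul] using Apx.const 0
  · have h1 := (hy.modEq hx j j').dvd
    have h2 := (hG.modEq hx j j').dvd
    have h3 : (l : ℤ) ∣ y j * (G j' - G j) :=
      (dvd_sub h2 (h1.mul_right (G j'))).trans (dvd_of_eq (by ring))
    exact (Int.modEq_iff_dvd).2
      (((Nat.prime_iff_prime_int.1 hl).dvd_or_dvd h3).resolve_left (hu j))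

/-- the determinant method in one variable -/
theorem rel_one {κ : Type} [Fintype κ] {t : ι → ℤ} (ht : ∀ j j', t j ≡ t j' [ZMOD l])
    {F : κ → ι → ℤ} (hF : ∀ i, Apx l (fun j (_ : Fin 1) => t j) (F i))
    (B : κ → ℝ) (hB : ∀ i j, |(F i j : ℝ)| ≤ B i) {ν : ℕ}
    (hν : ν * 2 = Fintype.card κ * (Fintype.card κ - 1))
    (hlt : ((Fintype.card κ).factorial : ℝ) * ∏ i, B i < (l : ℝ) ^ ν) :
    ∃ c : κ → ℤ, c ≠ 0 ∧ ∀ j, ∑ i, c i * F i j = 0 := by
  refine rel (Fintype.card κ) (fun j j' _ => ht j j') hF B hB (hlt.trans_eq ?_)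
  have h1 := sum_range_id_mul_two (Fintype.card κ)
  rw [← sum_range_reflect (fun i => i)] at h1
  have h2 : ∑ t ∈ range (Fintype.card κ), (Fintype.card κ - (t + 1).choose 1) =
      ∑ t ∈ range (Fintype.card κ), (Fintype.card κ - 1 - t) :=
    sum_congr rfl fun t _ => by rw [Nat.choose_one_right]; omega
  rw [h2, show ν = ∑ t ∈ range (Fintype.card κ), (Fintype.card κ - 1 - t) by omega]

end Pool.Agent.VT
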