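import Mathlib

/-! Resultants of coprime polynomials over a factorial ring; small integer kernels. -/

open Polynomial Finset

namespace Pool.Agent.VT

theorem res_ne_zero {R : Type} [CommRing R] [IsDomain R] [UniqueFactorizationMonoid R]
    {A B : R[X]} (hA : Irreducible A) (hd : A.natDegree ≠ 0) (hB : ¬ A ∣ B) :
    resultant A B ≠ 0 := by
  classical
  let : NormalizedGCDMonoid R := Classical.choice inferInstance
  let K := FractionRing R
  have hp : A.IsPrimitive := hA.isPrimitive hd
  have h1 : Irreducible (A.map (algebraMap R K)) :=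
    (hp.irreducible_iff_irreducible_map_fraction_map).1 hA
  have h2 := resultant_ne_zero _ _ (h1.coprime_iff_not_dvd.2 fun h =>
    hB (hp.dvd_of_fraction_map_dvd_fraction_map (K := K) h))
  have hi := IsFractionRing.injective R K
  rw [natDegree_map_eq_of_injective hi, natDegree_map_eq_of_injective hi, resultant_map_map] at h2
  exact fun h => h2 (by rw [h, map_zero])

theorem biv_monomial (m : Fin 2 →₀ ℕ) (c : ℚ) :
    (Bivariate.equivMvPolynomial ℚ).symm (MvPolynomial.monomial m c) =
      monomial (m 1) (monomial (m 0) c) := by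
  rw [MvPolynomial.monomial_eq, Finsupp.prod_fintype _ _ (by simp), Fin.prod_univ_two]
  simp only [map_mul, map_pow, Bivariate.equivMvPolynomial_symm_X_0,
    Bivariate.equivMvPolynomial_symm_X_1, Bivariate.equivMvPolynomial_symm_C,
    ← C_mul_X_pow_eq_monomial]
  ring

theorem biv_deg {A : MvPolynomial (Fin 2) ℚ} {E : ℕ} (hA : A.totalDegree ≤ E) :
    ((Bivariate.equivMvPolynomial ℚ).symm A).natDegree ≤ E ∧
      ∀ i, (((Bivariate.equivMvPolynomial ℚ).symm A).coeff i).natDegree ≤ E := by
  have h : ∀ m ∈ A.support, ∀ i, m i ≤ E := fun m hm i =>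
    (MvPolynomial.monomial_le_degreeOf i hm).trans ((MvPolynomial.degreeOf_le_totalDegree A i).trans hA)
  rw [A.as_sum, map_sum]
  simp only [biv_monomial]
  refine ⟨natDegree_sum_le_of_forall_le _ _ fun m hm => (natDegree_monomial_le _).trans (h m hm 1),
    fun i => ?_⟩
  rw [finsetSum_coeff]
  refine natDegree_sum_le_of_forall_le _ _ fun m hm => ?_
  rw [coeff_monomial]
  split_ifs
  · exact (natDegree_monomial_le _).trans (h m hm 0)
  · simp

theorem biv_eval (z : Fin 2 → ℚ) (A : MvPolynomial (Fin 2) ℚ) :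
    ((Bivariate.equivMvPolynomial ℚ).symm A).evalEval (z 0) (z 1) = MvPolynomial.eval z A := by
  induction A using MvPolynomial.induction_on with
  | C c => simp [evalEval_C]
  | add p q hp hq => simp only [map_add, evalEval_add, hp, hq]
  | mul_X p i hp =>
    simp only [map_mul, evalEval_mul, hp]
    fin_cases i <;> simp [evalEval_C]

theorem ker {κ ι : Type} [Fintype κ] (M : ι → κ → ℤ) {B : ℝ} (hB : 1 ≤ B)
    (hM : ∀ j i, |(M j i : ℝ)| ≤ B) (v : κ → ℚ) (hv : v ≠ 0)
    (h0 : ∀ j, ∑ i, (M j i : ℚ) * v i = 0) :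
    ∃ w : κ → ℤ, w ≠ 0 ∧ (∀ j, ∑ i, M j i * w i = 0) ∧
      ∀ i, |(w i : ℝ)| ≤ (Fintype.card κ * B) ^ Fintype.card κ := by
  classical
  let u : ι → κ → ℚ := fun j i => M j i
  obtain ⟨κ', a, -, hs, hi⟩ := exists_linearIndependent' ℚ u
  have : Finite κ' := hi.finite
  let := Fintype.ofFinite κ'
  let f : (κ → ℚ) → (κ → ℚ) →ₗ[ℚ] ℚ := fun w => dotProductBilin ℚ ℚ w
  have hf : ∀ w y, f w y = ∑ i, y i * w i := fun w y => by
    simp [f, dotProduct, mul_comm]
  have hlt : Fintype.card κ' < Fintype.card κ := by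
    have h1 : Submodule.span ℚ (Set.range u) ≤ LinearMap.ker (f v) :=
      Submodule.span_le.2 (by rintro _ ⟨j, rfl⟩; simpa [hf] using h0 j)
    have h2 : LinearMap.ker (f v) ≠ ⊤ := fun h => hv (funext fun i => by
      have : f v (Pi.single i 1) = 0 := (h ▸ Submodule.mem_top : _ ∈ LinearMap.ker (f v))
      simpa [hf, Pi.single_apply] using this)
    have h3 := Submodule.finrank_lt h2
    have h4 := Submodule.finrank_mono h1
    rw [← hs, finrank_span_eq_card hi] at h4
    rw [Module.finrank_fintype_fun_eq_card] at h3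
    omega
  have hn : (1 : ℝ) ≤ Fintype.card κ * B :=
    one_le_mul_of_one_le_of_one_le (by exact_mod_cast (by omega : 1 ≤ Fintype.card κ)) hB
  have key : ∃ w : κ → ℤ, w ≠ 0 ∧ (∀ j, ∑ i, M (a j) i * w i = 0) ∧
      ∀ i, |(w i : ℝ)| ≤ (Fintype.card κ * B) ^ Fintype.card κ := by
    rcases Nat.eq_zero_or_pos (Fintype.card κ') with h | h
    · have := Fintype.card_eq_zero_iff.1 h
      obtain ⟨i⟩ := Fintype.card_pos_iff.1 (Nat.zero_lt_of_lt hlt)
      exact ⟨1, fun h => by simpa using congrFun h i, fun j => isEmptyElim j,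
        fun _ => by simpa using one_le_pow₀ hn⟩
    · let := Matrix.normedAddCommGroup (m := κ') (n := κ) (α := ℤ)
      obtain ⟨t, ht, h1, h2⟩ :=
        Int.Matrix.exists_ne_zero_int_vec_norm_le (Matrix.of fun j i => M (a j) i) hlt h
      refine ⟨t, ht, fun j => congrFun h1 j, fun i => ?_⟩
      have h3 : ‖(Matrix.of fun j i => M (a j) i : Matrix κ' κ ℤ)‖ ≤ B :=
        (Matrix.norm_le_iff (by linarith)).2 fun j i => hM _ _
      have h4 : (Fintype.card κ' : ℝ) + 1 ≤ Fintype.card κ := by exact_mod_cast hlt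
      calc |(t i : ℝ)| ≤ ‖t‖ := norm_le_pi_norm t i
        _ ≤ _ := h2
        _ ≤ (Fintype.card κ * B) ^ ((Fintype.card κ' : ℝ) / (Fintype.card κ - Fintype.card κ')) := by
          gcongr
          · exact div_nonneg (Nat.cast_nonneg _) (by linarith)
          · exact max_le hB h3
        _ ≤ (Fintype.card κ * B) ^ (Fintype.card κ : ℝ) :=
          Real.rpow_le_rpow_of_exponent_le hn
            ((div_le_self (Nat.cast_nonneg _) (by linarith)).trans (by linarith))
        _ = _ := Real.rpow_natCast _ _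
  obtain ⟨w, hw, h1, h2⟩ := key
  refine ⟨w, hw, fun j => ?_, h2⟩
  have h3 : Submodule.span ℚ (Set.range (u ∘ a)) ≤ LinearMap.ker (f fun i => w i) :=
    Submodule.span_le.2 (by
      rintro _ ⟨j, rfl⟩
      have := congrArg (Int.cast : ℤ → ℚ) (h1 j)
      simpa [hf, u] using this)
  have h4 := h3 (hs ▸ Submodule.subset_span ⟨j, rfl⟩ : u j ∈ _)
  rw [LinearMap.mem_ker, hf] at h4
  simp only [u] at h4
  exact_mod_cast h4

end Pool.Agent.VT
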