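import Pool.Agent.P.MP_b0ea37_nt.WDefs

namespace Pool.Agent.VW

open Polynomial

theorem wres_coeff (h : ℤ[X]) (r : ℤ) {n : ℕ} (hn : h.natDegree ≤ n) :
    (taylor r h).coeff n = h.coeff n := by
  rcases hn.eq_or_lt with rfl | hn
  · have e := leadingCoeff_taylor r h
    rwa [leadingCoeff, natDegree_taylor] at e
  · rw [coeff_eq_zero_of_natDegree_lt hn, coeff_eq_zero_of_natDegree_lt (by rwa [natDegree_taylor])]

theorem wres_det {ι : Type} [Fintype ι] [DecidableEq ι] (M : ℤ) (A : Matrix ι ι ℤ) (w u : ι → ℕ)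
    (k : ℕ) (hA : ∀ i j, M ^ (w i - u j) ∣ A i j) (hk : k + ∑ j, u j ≤ ∑ i, w i) :
    M ^ k ∣ A.det := by
  rw [Matrix.det_apply']
  refine Finset.dvd_sum fun σ _ => Dvd.dvd.mul_left ?_ _
  refine (pow_dvd_pow M ?_).trans ((Finset.prod_pow_eq_pow_sum Finset.univ
    (fun j => w (σ j) - u j) M).symm.dvd.trans (Finset.prod_dvd_prod_of_dvd _ _ fun j _ => hA _ j))
  have h1 : ∑ j, w (σ j) ≤ ∑ j, (w (σ j) - u j + u j) := Finset.sum_le_sum fun j _ => by omega
  rw [Equiv.sum_comp σ w, Finset.sum_add_distrib] at h1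
  omega

theorem wres_sum_eq {n N : ℕ} (h : n ≤ N + 1) :
    (∑ i ∈ Finset.range N, (n - 1 - i)) * 2 = n * (n - 1) := by
  have e1 : ∑ i ∈ Finset.range n, (n - 1 - i) = ∑ i ∈ Finset.range (N + 1), (n - 1 - i) :=
    Finset.sum_subset (Finset.range_subset_range.2 h) fun i _ hi => by
      rw [Finset.mem_range] at hi
      omega
  rw [Finset.sum_range_succ, show n - 1 - N = 0 by omega, add_zero] at e1
  rw [← e1, Finset.sum_range_reflect (fun i => i) n, Finset.sum_range_id_mul_two]

theorem wres_sum_le (n N : ℕ) : (∑ i ∈ Finset.range N, (n - 1 - i)) * 2 ≤ n * (n - 1) := by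
  rw [← wres_sum_eq (n := n) (N := N + n) (by omega)]
  exact Nat.mul_le_mul_right 2
    (Finset.sum_le_sum_of_subset (Finset.range_subset_range.2 (Nat.le_add_right _ _)))

theorem resultant_taylor' (g h : ℤ[X]) (r : ℤ) (m m' : ℕ) (hm : g.natDegree ≤ m)
    (hm' : h.natDegree ≤ m') :
    resultant (taylor r g) (taylor r h) m m' = resultant g h m m' := by
  obtain ⟨k, rfl⟩ := Nat.exists_eq_add_of_le hm
  obtain ⟨l, rfl⟩ := Nat.exists_eq_add_of_le hm'
  have e := resultant_taylor g h r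
  rw [natDegree_taylor, natDegree_taylor] at e
  rw [resultant_add_left_deg _ _ _ _ _ (natDegree_taylor g r).le,
    resultant_add_left_deg _ _ _ _ _ le_rfl,
    resultant_add_right_deg _ _ _ _ _ (natDegree_taylor h r).le,
    resultant_add_right_deg _ _ _ _ _ le_rfl, e, wres_coeff h r hm', wres_coeff g r le_rfl]

theorem pow_dvd_resultant (M r : ℤ) (hM : M ≠ 0) (a b m m' : ℕ) (g h : ℤ[X]) (hm : g.natDegree ≤ m)
    (hm' : h.natDegree ≤ m') (hab : a + b ≤ m + m' + 1)
    (hg : ∀ l < a, M ^ (a - l) ∣ (taylor r g).coeff l)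
    (hh : ∀ l < b, M ^ (b - l) ∣ (taylor r h).coeff l) :
    M ^ (a * b) ∣ resultant g h m m' := by
  rw [← resultant_taylor' g h r m m' hm hm']
  rcases Nat.eq_zero_or_pos a with rfl | ha
  · simp
  rcases Nat.eq_zero_or_pos b with rfl | hb
  · simp
  have key : ∀ (f : ℤ[X]) (c e l : ℕ), (∀ l < c, M ^ (c - l) ∣ f.coeff l) → e ≤ c - l →
      M ^ e ∣ f.coeff l := by
    intro f c e l hf he
    rcases lt_or_ge l c with h1 | h1
    · exact (pow_dvd_pow M he).trans (hf l h1)
    · rw [show e = 0 by omega, pow_zero]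
      exact one_dvd _
  refine wres_det (ι := Fin (m + m')) M _ (fun i => a + b - 1 - i)
    (Fin.addCases (motive := fun _ => ℕ) (fun j => a - 1 - j) (fun j => b - 1 - j)) _
    (fun i j => ?_) ?_
  · induction j using Fin.addCases with
    | left j =>
      simp only [sylvester, Matrix.of_apply, Fin.addCases_left]
      split_ifs with h1
      · have h2 := h1.1
        exact key _ b _ _ hh (by omega)
      · exact dvd_zero _
    | right j =>
      simp only [sylvester, Matrix.of_apply, Fin.addCases_right]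
      split_ifs with h1
      · have h2 := h1.1
        exact key _ a _ _ hg (by omega)
      · exact dvd_zero _
  · rw [Fin.sum_univ_add]
    simp only [Fin.addCases_left, Fin.addCases_right]
    rw [Fin.sum_univ_eq_sum_range (fun j => a - 1 - j) m,
      Fin.sum_univ_eq_sum_range (fun j => b - 1 - j) m',
      Fin.sum_univ_eq_sum_range (fun j => a + b - 1 - j) (m + m')]
    have h1 := wres_sum_eq hab
    have h2 := wres_sum_le a m
    have h3 := wres_sum_le b m'
    have e : (a + b) * (a + b - 1) = a * (a - 1) + b * (b - 1) + a * b * 2 := by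
      obtain ⟨a, rfl⟩ : ∃ c, a = c + 1 := ⟨a - 1, by omega⟩
      obtain ⟨b, rfl⟩ : ∃ c, b = c + 1 := ⟨b - 1, by omega⟩
      rw [show a + 1 + (b + 1) - 1 = a + b + 1 by omega, Nat.add_sub_cancel, Nat.add_sub_cancel]
      ring
    omega

theorem wres_one {M r : ℤ} {g : ℤ[X]} (hg : M ∣ g.eval r) :
    ∀ l < 1, M ^ (1 - l) ∣ (taylor r g).coeff l := by
  intro l hl
  obtain rfl : l = 0 := by omega
  simpa using hg

theorem wres_two {M : ℕ} {r : ℤ} {g : ℤ[X]} (hg : Wk M r g) :
    ∀ l < 2, (M : ℤ) ^ (2 - l) ∣ (taylor r g).coeff l := by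
  intro l hl
  obtain rfl | rfl : l = 0 ∨ l = 1 := by omega
  · simpa using hg.1
  · simpa using hg.2

theorem res_one_one {M : ℕ} (hM : 1 ≤ M) {r : ℤ} {g h : ℤ[X]} {m m' : ℕ} (hm : g.natDegree ≤ m)
    (hm' : h.natDegree ≤ m') (h1 : 1 ≤ m + m') (hg : (M : ℤ) ∣ g.eval r) (hh : (M : ℤ) ∣ h.eval r) :
    (M : ℤ) ∣ resultant g h m m' := by
  have := pow_dvd_resultant M r (by omega) 1 1 m m' g h hm hm' (by omega) (wres_one hg)
    (wres_one hh)
  simpa using this

theorem res_one_two {M : ℕ} (hM : 1 ≤ M) {r : ℤ} {g h : ℤ[X]} {m m' : ℕ} (hm : g.natDegree ≤ m)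
    (hm' : h.natDegree ≤ m') (h1 : 2 ≤ m + m') (hg : (M : ℤ) ∣ g.eval r) (hh : Wk M r h) :
    (M : ℤ) ^ 2 ∣ resultant g h m m' :=
  pow_dvd_resultant M r (by omega) 1 2 m m' g h hm hm' (by omega) (wres_one hg) (wres_two hh)

theorem res_two_two {M : ℕ} (hM : 1 ≤ M) {r : ℤ} {g h : ℤ[X]} {m m' : ℕ} (hm : g.natDegree ≤ m)
    (hm' : h.natDegree ≤ m') (h1 : 3 ≤ m + m') (hg : Wk M r g) (hh : Wk M r h) :
    (M : ℤ) ^ 4 ∣ resultant g h m m' :=
  pow_dvd_resultant M r (by omega) 2 2 m m' g h hm hm' (by omega) (wres_two hg) (wres_two hh)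

/-- a common root in characteristic `p` -/
theorem dvd_resultant_of_root {p : ℕ} {K : Type} [Field K] [CharP K p] {g h : ℤ[X]} {m m' : ℕ}
    (hm : g.natDegree ≤ m) (hm' : h.natDegree ≤ m') (h1 : 1 ≤ m + m') {z : K}
    (hg : (up K g).eval z = 0) (hh : (up K h).eval z = 0) : (p : ℤ) ∣ resultant g h m m' := by
  obtain ⟨u, v, -, -, e⟩ := exists_mul_add_mul_eq_C_resultant g h hm hm' (by omega)
  have e1 := congrArg (fun f => (up K f).eval z) e
  simp only [up, Polynomial.map_add, Polynomial.map_mul, eval_add, eval_mul, map_C, eval_C] at e1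
  rw [hg, hh, zero_mul, zero_mul, add_zero] at e1
  exact (CharP.intCast_eq_zero_iff K p _).1 e1.symm

theorem resultant_ne_zero_of_coprime {g h : ℤ[X]} (H : IsCoprime (up ℚ g) (up ℚ h)) :
    resultant g h ≠ 0 := by
  intro h0
  refine resultant_ne_zero _ _ H ?_
  rw [natDegree_map_eq_of_injective (Int.castRingHom ℚ).injective_int,
    natDegree_map_eq_of_injective (Int.castRingHom ℚ).injective_int, resultant_map_map, h0,
    map_zero]

theorem natDegree_resultant_le {R : Type} [CommRing R] (g h : R[X][X]) (m m' b : ℕ)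
    (hg : ∀ i, (g.coeff i).natDegree ≤ b) (hh : ∀ i, (h.coeff i).natDegree ≤ b) :
    (resultant g h m m').natDegree ≤ (m + m') * b := by
  rw [resultant, Matrix.det_apply']
  refine natDegree_sum_le_of_forall_le _ _ fun σ _ => natDegree_mul_le.trans ?_
  rw [natDegree_intCast, zero_add]
  refine (natDegree_prod_le _ _).trans ((Finset.sum_le_card_nsmul _ _ b fun j _ => ?_).trans ?_)
  · induction j using Fin.addCases with
    | left j =>
      simp only [sylvester, Matrix.of_apply, Fin.addCases_left]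
      split_ifs
      · exact hh _
      · simp
    | right j =>
      simp only [sylvester, Matrix.of_apply, Fin.addCases_right]
      split_ifs
      · exact hg _
      · simp
  · simp

end Pool.Agent.VW
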