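import Pool.Agent.P.MP_b0ea37_nt.WCnt
import Pool.Agent.P.MP_b0ea37_nt.WRes
import Pool.Agent.P.MP_b0ea37_nt.VTRes

namespace Pool.Agent.VW

open Polynomial

/-- value of a plane polynomial at an integer point -/
noncomputable abbrev ev2 (x : Fin 2 → ℤ) (A : MvPolynomial (Fin 2) ℚ) : ℚ :=
  MvPolynomial.eval (fun i => (x i : ℚ)) A

theorem bez_zero {E : ℕ} {A B : MvPolynomial (Fin 2) ℚ} (hA : Irreducible A) (hB : ¬ A ∣ B)
    (h1 : A.totalDegree ≤ E) (h2 : B.totalDegree ≤ E) : ∃ r : ℚ[X], r ≠ 0 ∧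
      r.natDegree ≤ (E + E + 1) * E ∧ ∀ z : Fin 2 → ℚ, MvPolynomial.eval z A = 0 →
        MvPolynomial.eval z B = 0 → r.eval (z 0) = 0 := by
  obtain ⟨a1, a2⟩ := VT.biv_deg h1
  obtain ⟨b1, b2⟩ := VT.biv_deg h2
  have ea := fun z => VT.biv_eval z A
  have eb := fun z => VT.biv_eval z B
  have hp := (MulEquiv.irreducible_iff (Bivariate.equivMvPolynomial ℚ).symm).2 hA
  have hq := fun h => hB ((map_dvd_iff (Bivariate.equivMvPolynomial ℚ).symm).1 h)
  generalize (Bivariate.equivMvPolynomial ℚ).symm A = p at *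
  generalize (Bivariate.equivMvPolynomial ℚ).symm B = q at *
  by_cases hd : p.natDegree = 0
  · refine ⟨p.coeff 0, fun h => hp.ne_zero ?_, (a2 0).trans (by nlinarith), fun z hz _ => ?_⟩
    · rw [eq_C_of_natDegree_eq_zero hd, h, map_zero]
    · rw [← ea, eq_C_of_natDegree_eq_zero hd, evalEval_C] at hz
      exact hz
  · refine ⟨resultant p q, VT.res_ne_zero hp hd hq,
      (natDegree_resultant_le p q _ _ E a2 b2).trans (Nat.mul_le_mul_right _ (by omega)), fun z hz hz' => ?_⟩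
    obtain ⟨u, v, -, -, e⟩ := exists_mul_add_mul_eq_C_resultant p q le_rfl le_rfl (Or.inl hd)
    rw [← evalEval_C _ (z 1), ← e, evalEval_add, evalEval_mul, evalEval_mul, ea, eb, hz, hz']
    simp

theorem bez_cnt {r : ℚ[X]} (hr : r ≠ 0) {N : ℕ} (hN : r.natDegree ≤ N) :
    Cnt (fun t : ℤ => r.eval (t : ℚ) = 0) N :=
  ((cnt_roots r hr).inj (fun t : ℤ => (t : ℚ)) (fun _ h => h)
    fun _ _ _ _ h => Int.cast_injective h).mono (fun _ h => h) (by exact_mod_cast hN)

theorem bezout (E : ℕ) : ∃ C : ℝ, 1 ≤ C ∧ ∀ A B : MvPolynomial (Fin 2) ℚ, Irreducible A → ¬ A ∣ B →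
    A.totalDegree ≤ E → B.totalDegree ≤ E →
    Cnt (fun x : Fin 2 → ℤ => ev2 x A = 0 ∧ ev2 x B = 0) C := by
  refine ⟨(((E + E + 1) * E : ℕ) : ℝ) ^ 2 + 1, le_add_of_nonneg_left (sq_nonneg _), fun A B hA hB h1 h2 => ?_⟩
  let s := MvPolynomial.renameEquiv ℚ (Equiv.swap (0 : Fin 2) 1)
  obtain ⟨r, hr, hd, h⟩ := bez_zero hA hB h1 h2
  obtain ⟨r', hr', hd', h'⟩ := bez_zero (A := s A) (B := s B) ((MulEquiv.irreducible_iff s).2 hA)
    (fun h => hB ((map_dvd_iff s).1 h)) ((MvPolynomial.totalDegree_rename_le _ _).trans h1)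
    ((MvPolynomial.totalDegree_rename_le _ _).trans h2)
  have hc := Cnt.pi (P := fun (i : Fin 2) (t : ℤ) => (![r, r'] i).eval (t : ℚ) = 0)
    (B := fun _ => (((E + E + 1) * E : ℕ) : ℝ)) fun i => by
      fin_cases i
      exacts [bez_cnt hr hd, bez_cnt hr' hd']
  refine hc.mono (fun x hx i => ?_) (by simp)
  have e : ∀ G : MvPolynomial (Fin 2) ℚ,
      MvPolynomial.eval (fun i => (x (Equiv.swap 0 1 i) : ℚ)) (s G) = ev2 x G := fun G => by
    simp [s, MvPolynomial.eval_rename, Function.comp_def]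
  fin_cases i
  · exact h _ hx.1 hx.2
  · simpa using h' _ ((e A).trans hx.1) ((e B).trans hx.2)

theorem bez_deg {A : MvPolynomial (Fin 2) ℚ} (hA : Irreducible A) : 1 ≤ A.totalDegree := by
  by_contra h
  have h1 := MvPolynomial.totalDegree_eq_zero_iff_eq_C.1 (by omega : A.totalDegree = 0)
  refine hA.not_isUnit (h1 ▸ IsUnit.map _ (Ne.isUnit fun h0 => hA.ne_zero ?_))
  rw [h1, h0, map_zero]

/-- a zero of `G` is a zero of one of at most `deg G` irreducible factors -/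
theorem exists_factors (G : MvPolynomial (Fin 2) ℚ) (hG : G ≠ 0) :
    ∃ T : Finset (MvPolynomial (Fin 2) ℚ), T.card ≤ G.totalDegree ∧
      (∀ A ∈ T, Irreducible A ∧ 1 ≤ A.totalDegree ∧ A.totalDegree ≤ G.totalDegree) ∧
      ∀ x : Fin 2 → ℤ, ev2 x G = 0 → ∃ A ∈ T, ev2 x A = 0 := by
  classical
  induction G using UniqueFactorizationMonoid.induction_on_prime with
  | h₁ => exact absurd rfl hG
  | h₂ u hu =>
    exact ⟨∅, by simp, by simp, fun x hx => absurd hx (hu.map (MvPolynomial.eval _)).ne_zero⟩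
  | h₃ a p ha hp ih =>
    obtain ⟨T, h1, h2, h3⟩ := ih ha
    have h4 := bez_deg hp.irreducible
    rw [MvPolynomial.totalDegree_mul_of_isDomain hp.ne_zero ha]
    refine ⟨insert p T, (Finset.card_insert_le _ _).trans (by omega), fun A hA => ?_, fun x hx => ?_⟩
    · rcases Finset.mem_insert.1 hA with rfl | hA
      · exact ⟨hp.irreducible, h4, by omega⟩
      · exact ⟨(h2 A hA).1, (h2 A hA).2.1, (h2 A hA).2.2.trans (by omega)⟩
    · rcases mul_eq_zero.1 ((map_mul _ _ _).symm.trans hx) with h | h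
      · exact ⟨p, Finset.mem_insert_self _ _, h⟩
      · obtain ⟨A, hA, h⟩ := h3 x h
        exact ⟨A, Finset.mem_insert_of_mem hA, h⟩

end Pool.Agent.VW
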