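import Pool.Agent.P.MP_b0ea37_nt.WDefs

namespace Pool.Agent.VW

open Polynomial

variable {α β : Type}

theorem Cnt.nonneg {P : α → Prop} {B : ℝ} (h : Cnt P B) : 0 ≤ B := by
  simpa using h ∅ (by simp)

theorem Cnt.mono {P Q : α → Prop} {B B' : ℝ} (h : Cnt Q B) (hPQ : ∀ x, P x → Q x) (hB : B ≤ B') :
    Cnt P B' := fun S hS => (h S fun x hx => hPQ x (hS x hx)).trans hB

theorem Cnt.empty {P : α → Prop} {B : ℝ} (h : ∀ x, ¬ P x) (hB : 0 ≤ B) : Cnt P B := by
  intro S hS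
  have : S = ∅ := Finset.eq_empty_of_forall_notMem fun x hx => h x (hS x hx)
  simpa [this] using hB

theorem Cnt.one {P : α → Prop} (h : ∀ x y, P x → P y → x = y) : Cnt P 1 := by
  intro S hS
  exact_mod_cast Finset.card_le_one.2 fun x hx y hy => h x y (hS x hx) (hS y hy)

theorem Cnt.finset (T : Finset α) : Cnt (fun x => x ∈ T) T.card := fun _ hS =>
  Nat.cast_le.2 (Finset.card_le_card hS)

theorem Cnt.fintype [Fintype α] (P : α → Prop) : Cnt P (Fintype.card α) := fun S _ =>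
  Nat.cast_le.2 S.card_le_univ

theorem Cnt.or {P Q : α → Prop} {B B' : ℝ} (h : Cnt P B) (h' : Cnt Q B') :
    Cnt (fun x => P x ∨ Q x) (B + B') := by
  classical
  intro S hS
  have e := Finset.card_filter_add_card_filter_not (s := S) P
  have h1 := h (S.filter P) fun x hx => (Finset.mem_filter.1 hx).2
  have h2 := h' (S.filter fun x => ¬ P x) fun x hx =>
    (hS x (Finset.mem_filter.1 hx).1).resolve_left (Finset.mem_filter.1 hx).2
  rw [← e]; push_cast; linarith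

/-- if the set is nonempty one may use an element of it -/
theorem Cnt.of_mem {P : α → Prop} {B : ℝ} (hB : 0 ≤ B) (h : ∀ a, P a → Cnt P B) : Cnt P B := by
  intro S hS
  rcases S.eq_empty_or_nonempty with rfl | ⟨a, ha⟩
  · simpa using hB
  · exact h a (hS a ha) S hS

theorem Cnt.inj {P : α → Prop} {Q : β → Prop} {B : ℝ} (h : Cnt Q B) (φ : α → β)
    (hφ : ∀ x, P x → Q (φ x)) (hinj : ∀ x y, P x → P y → φ x = φ y → x = y) : Cnt P B := by
  classical
  intro S hS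
  have := h (S.image φ) (by
    intro y hy
    obtain ⟨x, hx, rfl⟩ := Finset.mem_image.1 hy
    exact hφ x (hS x hx))
  rwa [Finset.card_image_of_injOn fun x hx y hy e => hinj x y (hS x hx) (hS y hy) e] at this

/-- objects determined by a datum -/
theorem Cnt.rel {P : α → Prop} {Q : β → Prop} {B : ℝ} (h : Cnt Q B) (R : α → β → Prop)
    (hex : ∀ x, P x → ∃ y, Q y ∧ R x y) (huniq : ∀ x x' y, P x → P x' → R x y → R x' y → x = x') :
    Cnt P B := by
  have h1 : Cnt (fun _ : {x // P x} => True) B := by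
    choose φ hφ using fun x : {x // P x} => hex x.1 x.2
    exact h.inj φ (fun x _ => (hφ x).1) fun x y _ _ e =>
      Subtype.ext (huniq x.1 y.1 (φ x) x.2 y.2 (hφ x).2 (e ▸ (hφ y).2))
  intro S hS
  have := h1 (S.attach.map ⟨fun x => ⟨x.1, hS x.1 x.2⟩, fun x y e =>
    Subtype.ext (by simpa using e)⟩) (fun _ _ => trivial)
  simpa using this

theorem Cnt.image {P : α → Prop} {B : ℝ} (h : Cnt P B) (φ : α → β) :
    Cnt (fun y => ∃ x, P x ∧ φ x = y) B := h.rel (fun y x => φ x = y) (fun _ hy => hy)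
    fun _ _ _ _ _ e e' => e.symm.trans e'

theorem Cnt.sum (T : Finset β) {P : β → α → Prop} {B : β → ℝ} (h : ∀ y ∈ T, Cnt (P y) (B y)) :
    Cnt (fun x => ∃ y ∈ T, P y x) (∑ y ∈ T, B y) := by
  classical
  intro S hS
  have h1 : S ⊆ T.biUnion fun y => S.filter (P y) := by
    intro x hx
    obtain ⟨y, hy, hp⟩ := hS x hx
    exact Finset.mem_biUnion.2 ⟨y, hy, Finset.mem_filter.2 ⟨hx, hp⟩⟩
  have h2 := (Finset.card_le_card h1).trans Finset.card_biUnion_le
  calc (S.card : ℝ) ≤ ((∑ y ∈ T, (S.filter (P y)).card : ℕ) : ℝ) := Nat.cast_le.2 h2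
    _ ≤ _ := by
      push_cast
      exact Finset.sum_le_sum fun y hy => h y hy _ fun x hx => (Finset.mem_filter.1 hx).2

theorem Cnt.fibre {Q : β → Prop} {P : β → α → Prop} {B B' : ℝ} (h : Cnt Q B) (hB' : 0 ≤ B')
    (h' : ∀ y, Q y → Cnt (P y) B') : Cnt (fun x => ∃ y, Q y ∧ P y x) (B * B') := by
  classical
  intro S hS
  choose φ hφ using fun x : {x // x ∈ S} => hS x.1 x.2
  have hT := h (S.attach.image φ) (by
    intro y hy
    obtain ⟨x, _, rfl⟩ := Finset.mem_image.1 hy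
    exact (hφ x).1)
  have h1 := Cnt.sum (S.attach.image φ) (P := P) (B := fun _ => B') (by
    intro y hy
    obtain ⟨x, _, rfl⟩ := Finset.mem_image.1 hy
    exact h' _ (hφ x).1) S fun x hx =>
      ⟨φ ⟨x, hx⟩, Finset.mem_image_of_mem _ (Finset.mem_attach _ _), (hφ ⟨x, hx⟩).2⟩
  rw [Finset.sum_const, nsmul_eq_mul] at h1
  exact h1.trans (mul_le_mul_of_nonneg_right hT hB')

theorem Cnt.prod {P : α → Prop} {Q : α → β → Prop} {B B' : ℝ} (h : Cnt P B) (hB' : 0 ≤ B')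
    (h' : ∀ x, P x → Cnt (Q x) B') : Cnt (fun z : α × β => P z.1 ∧ Q z.1 z.2) (B * B') := by
  have h1 := Cnt.fibre (P := fun (x : α) (z : α × β) => z.1 = x ∧ Q x z.2) h hB' fun x hx =>
    (h' x hx).inj Prod.snd (fun z hz => hz.2) fun z w hz hw e =>
      Prod.ext (hz.1.trans hw.1.symm) e
  exact h1.mono (fun z hz => ⟨z.1, hz.1, rfl, hz.2⟩) le_rfl

theorem Cnt.pi {ι : Type} [Fintype ι] {P : ι → α → Prop} {B : ι → ℝ} (h : ∀ i, Cnt (P i) (B i)) :
    Cnt (fun z : ι → α => ∀ i, P i (z i)) (∏ i, B i) := by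
  classical
  intro S hS
  have h1 : S ⊆ Fintype.piFinset fun i => S.image fun z => z i := fun z hz =>
    Fintype.mem_piFinset.2 fun i => Finset.mem_image_of_mem _ hz
  have h2 := Finset.card_le_card h1
  rw [Fintype.card_piFinset] at h2
  calc (S.card : ℝ) ≤ ((∏ i, (S.image fun z => z i).card : ℕ) : ℝ) := Nat.cast_le.2 h2
    _ ≤ _ := by
      push_cast
      refine Finset.prod_le_prod (fun _ _ => Nat.cast_nonneg _) fun i _ => h i _ ?_
      intro y hy
      obtain ⟨z, hz, rfl⟩ := Finset.mem_image.1 hy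
      exact hS z hz i

/-- few pairwise unrelated points, few points related to a given one -/
theorem Cnt.greedy {P : α → Prop} (R : α → α → Prop) (hrefl : ∀ x, P x → R x x)
    (hsymm : ∀ x y, P x → P y → R x y → R y x) {B B' : ℝ} (hB' : 0 ≤ B')
    (h : ∀ S : Finset α, (∀ x ∈ S, P x) → (∀ x ∈ S, ∀ y ∈ S, x ≠ y → ¬ R x y) → (S.card : ℝ) ≤ B)
    (h' : ∀ a, P a → Cnt (fun x => P x ∧ R a x) B') : Cnt P (B * B') := by
  classical
  intro S hS
  obtain ⟨A, hA⟩ : ∃ A : Finset (Finset α), ∀ T, T ∈ A ↔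
      T ∈ S.powerset ∧ ∀ x ∈ T, ∀ y ∈ T, x ≠ y → ¬ R x y := ⟨_, fun _ => Finset.mem_filter⟩
  obtain ⟨T, hT, hmax⟩ := Finset.exists_max_image A Finset.card ⟨∅, (hA _).2 (by simp)⟩
  obtain ⟨hTS, hTa⟩ := (hA _).1 hT
  rw [Finset.mem_powerset] at hTS
  have h1 := Cnt.sum T (P := fun a x => P x ∧ R a x) (B := fun _ => B')
    (fun a ha => h' a (hS a (hTS ha))) S (by
      intro x hx
      by_contra hno
      have hxT : x ∉ T := fun hxT => hno ⟨x, hxT, hS x hx, hrefl x (hS x hx)⟩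
      have := hmax (insert x T) ((hA _).2 ⟨Finset.mem_powerset.2
        (Finset.insert_subset hx hTS), by
          intro a ha b hb hab hR
          rcases Finset.mem_insert.1 ha with ha' | ha' <;>
            rcases Finset.mem_insert.1 hb with hb' | hb'
          · exact hab (ha'.trans hb'.symm)
          · exact hno ⟨b, hb', hS x hx, ha' ▸ hsymm a b (ha' ▸ hS x hx) (hS b (hTS hb')) hR⟩
          · exact hno ⟨a, ha', hS x hx, hb' ▸ hR⟩
          · exact hTa a ha' b hb' hab hR⟩)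
      rw [Finset.card_insert_of_notMem hxT] at this
      omega)
  rw [Finset.sum_const, nsmul_eq_mul] at h1
  exact h1.trans (mul_le_mul_of_nonneg_right (h T (fun x hx => hS x (hTS hx)) hTa) hB')

/-- double counting: every point of `P` has `L` neighbours in `Q`, every point of `Q` at most `B'` -/
theorem Cnt.double {P : α → Prop} {Q : β → Prop} (R : α → β → Prop) {L B B' : ℝ} (hL : 0 < L)
    (hB' : 0 ≤ B') (hQ : Cnt Q B)
    (hP : ∀ x, P x → ∃ T : Finset β, L ≤ T.card ∧ ∀ y ∈ T, Q y ∧ R x y)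
    (hR : ∀ y, Q y → Cnt (fun x => P x ∧ R x y) B') : Cnt P (B * B' / L) := by
  classical
  intro S hS
  choose T hT using fun x : {x // x ∈ S} => hP x.1 (hS x.1 x.2)
  have h1 := Cnt.prod (Q := fun y x => P x ∧ R x y) hQ hB' hR
    (S.attach.biUnion fun x => (T x).image fun y => (y, x.1)) (by
      intro z hz
      obtain ⟨x, _, hz⟩ := Finset.mem_biUnion.1 hz
      obtain ⟨y, hy, rfl⟩ := Finset.mem_image.1 hz
      exact ⟨((hT x).2 y hy).1, hS x.1 x.2, ((hT x).2 y hy).2⟩)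
  rw [Finset.card_biUnion (by
    intro x _ x' _ hne
    refine Finset.disjoint_left.2 fun z hz hz' => hne ?_
    obtain ⟨y, _, rfl⟩ := Finset.mem_image.1 hz
    obtain ⟨y', _, e⟩ := Finset.mem_image.1 hz'
    exact Subtype.ext (congrArg Prod.snd e).symm)] at h1
  rw [le_div_iff₀ hL]
  refine le_trans ?_ h1
  push_cast
  calc (S.card : ℝ) * L = ∑ _x ∈ S.attach, L := by simp
    _ ≤ _ := Finset.sum_le_sum fun x _ => by
      rw [Finset.card_image_of_injective _ fun y y' e => congrArg Prod.fst e]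
      exact (hT x).1

/-- pigeonhole: more than `K * B` points, at most `B` values -/
theorem pigeon (S : Finset α) (φ : α → β) {Q : β → Prop} {B K : ℝ} (hQ : Cnt Q B)
    (hφ : ∀ x ∈ S, Q (φ x)) (hK : 0 ≤ K) (h : B * K < S.card) :
    ∃ T ⊆ S, K < T.card ∧ ∀ x ∈ T, ∀ y ∈ T, φ x = φ y := by
  classical
  by_contra hno
  have h1 := Cnt.fibre (P := fun y x => x ∈ S ∧ φ x = y) hQ hK (by
    intro y _ T hT
    by_contra hlt
    exact hno ⟨T, fun x hx => (hT x hx).1, not_le.1 hlt,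
      fun x hx x' hx' => (hT x hx).2.trans (hT x' hx').2.symm⟩) S
    fun x hx => ⟨φ x, hφ x hx, hx, rfl⟩
  linarith

theorem Cnt.finite {P : α → Prop} {B : ℝ} (h : Cnt P B) : {x | P x}.Finite := by
  by_contra hinf
  obtain ⟨T, hT, hc⟩ := Set.Infinite.exists_subset_card_eq hinf (⌈B⌉₊ + 1)
  have := h T fun x hx => hT hx
  rw [hc] at this
  push_cast at this
  linarith [Nat.le_ceil B]

theorem Cnt.ncard_le {P : α → Prop} {B : ℝ} (h : Cnt P B) : ({x | P x}.ncard : ℝ) ≤ B := by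
  rw [Set.ncard_eq_toFinset_card _ h.finite]
  exact h _ fun x hx => by simpa using hx

theorem cnt_int_near (c R : ℝ) (hR : 0 ≤ R) : Cnt (fun t : ℤ => |(t : ℝ) - c| ≤ R) (2 * R + 1) :=
  by
  intro S hS
  have h1 : S ⊆ Finset.Icc ⌈c - R⌉ ⌊c + R⌋ := by
    intro t ht
    have := abs_le.1 (hS t ht)
    exact Finset.mem_Icc.2 ⟨Int.ceil_le.2 (by linarith), Int.le_floor.2 (by linarith)⟩
  have h2 := Finset.card_le_card h1
  rw [Int.card_Icc] at h2
  have h3 : ((⌊c + R⌋ + 1 - ⌈c - R⌉).toNat : ℝ) ≤ 2 * R + 1 := by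
    rcases le_total 0 (⌊c + R⌋ + 1 - ⌈c - R⌉) with h0 | h0
    · have : (((⌊c + R⌋ + 1 - ⌈c - R⌉).toNat : ℤ) : ℝ) = ((⌊c + R⌋ + 1 - ⌈c - R⌉ : ℤ) : ℝ) := by
        rw [Int.toNat_of_nonneg h0]
      push_cast at this
      rw [this]
      linarith [Int.floor_le (c + R), Int.le_ceil (c - R)]
    · rw [Int.toNat_eq_zero.2 h0]; push_cast; linarith
  exact (Nat.cast_le.2 h2).trans h3

theorem cnt_int_abs (R : ℝ) (hR : 0 ≤ R) : Cnt (fun t : ℤ => |(t : ℝ)| ≤ R) (2 * R + 1) := by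
  simpa using cnt_int_near 0 R hR

theorem cnt_nat_le (R : ℝ) (hR : 0 ≤ R) : Cnt (fun t : ℕ => (t : ℝ) ≤ R) (R + 1) := by
  intro S hS
  have h1 : S ⊆ Finset.range (⌊R⌋₊ + 1) := fun t ht =>
    Finset.mem_range.2 (Nat.lt_succ_of_le (Nat.le_floor (hS t ht)))
  have h2 : (S.card : ℝ) ≤ ((⌊R⌋₊ + 1 : ℕ) : ℝ) := by
    exact_mod_cast (Finset.card_le_card h1).trans (Finset.card_range _).le
  push_cast at h2
  linarith [Nat.floor_le hR]

theorem cnt_nat_pos (R : ℝ) (hR : 0 ≤ R) : Cnt (fun t : ℕ => 1 ≤ t ∧ (t : ℝ) ≤ R) R := by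
  intro S hS
  have h1 : S ⊆ Finset.Icc 1 ⌊R⌋₊ := fun t ht =>
    Finset.mem_Icc.2 ⟨(hS t ht).1, Nat.le_floor (hS t ht).2⟩
  have h2 : S.card ≤ ⌊R⌋₊ := by simpa using Finset.card_le_card h1
  exact (Nat.cast_le.2 h2).trans (Nat.floor_le hR)

theorem cnt_res (M : ℕ) : Cnt (fun r : ℤ => 0 ≤ r ∧ r < M) M := by
  intro S hS
  have h1 : S ⊆ Finset.Ico (0 : ℤ) M := fun t ht => Finset.mem_Ico.2 (hS t ht)
  have h2 := Finset.card_le_card h1
  rw [Int.card_Ico] at h2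
  exact_mod_cast (by simpa using h2 : S.card ≤ M)

/-- a residue class in an interval -/
theorem cnt_class (M : ℕ) (hM : 1 ≤ M) (a : ℤ) (c R : ℝ) (hR : 0 ≤ R) :
    Cnt (fun t : ℤ => |(t : ℝ) - c| ≤ R ∧ (M : ℤ) ∣ t - a) (2 * R / M + 1) := by
  have hM' : (0 : ℝ) < M := by exact_mod_cast hM
  refine ((cnt_int_near ((c - a) / M) (R / M) (by positivity)).rel (fun t k => t - a = M * k) ?_
    ?_).mono (fun _ h => h) (by rw [mul_div_assoc])
  · rintro t ⟨h1, k, hk⟩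
    refine ⟨k, ?_, hk⟩
    have e : (t : ℝ) - a = M * k := by exact_mod_cast hk
    have : (k : ℝ) - (c - a) / M = (t - c) / M := by field_simp; linarith
    rw [this, abs_div, abs_of_pos hM']
    gcongr
  · intro t t' k _ _ e e'
    linarith

theorem cnt_roots {K : Type} [CommRing K] [IsDomain K] (g : K[X]) (hg : g ≠ 0) :
    Cnt (fun z : K => g.eval z = 0) g.natDegree := by
  classical
  intro S hS
  have h1 : S ⊆ g.roots.toFinset := fun z hz =>
    Multiset.mem_toFinset.2 ((mem_roots hg).2 (hS z hz))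
  exact_mod_cast (Finset.card_le_card h1).trans
    ((Multiset.toFinset_card_le _).trans (card_roots' g))

theorem cnt_poly_coeff (m : ℕ) {P : ℕ → ℤ → Prop} {B : ℕ → ℝ} (h : ∀ i, Cnt (P i) (B i)) :
    Cnt (fun g : ℤ[X] => g.degree < m ∧ ∀ i < m, P i (g.coeff i)) (∏ i ∈ Finset.range m, B i) :=
  by
  rw [← Fin.prod_univ_eq_prod_range]
  refine (Cnt.pi (ι := Fin m) (P := fun i => P i) fun i => h i).inj (fun g i => g.coeff i)
    (fun g hg i => hg.2 i i.2) fun g g' hg hg' e => ?_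
  ext i
  by_cases hi : i < m
  · exact congrFun e ⟨i, hi⟩
  · have hi' : (m : WithBot ℕ) ≤ i := by exact_mod_cast not_lt.1 hi
    rw [coeff_eq_zero_of_degree_lt (hg.1.trans_le hi'),
      coeff_eq_zero_of_degree_lt (hg'.1.trans_le hi')]

theorem cnt_poly (m : ℕ) (T : ℝ) (hT : 0 ≤ T) :
    Cnt (fun g : ℤ[X] => g.degree < m ∧ g.supNorm ≤ T) ((2 * T + 1) ^ m) := by
  refine (cnt_poly_coeff m (P := fun _ t => |(t : ℝ)| ≤ T) (B := fun _ => 2 * T + 1)
    fun _ => cnt_int_abs T hT).mono (fun g hg => ⟨hg.1, fun i _ => ?_⟩) (by simp)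
  exact (g.le_supNorm i).trans hg.2

theorem cnt_monic (m : ℕ) (T : ℝ) (hT : 0 ≤ T) :
    Cnt (fun g : ℤ[X] => g.Monic ∧ g.natDegree = m ∧ g.supNorm ≤ T) ((2 * T + 1) ^ m) := by
  refine (cnt_poly_coeff m (P := fun _ t => |(t : ℝ)| ≤ T) (B := fun _ => 2 * T + 1)
    fun _ => cnt_int_abs T hT).inj (fun g => g - X ^ m) (fun g hg => ⟨?_, fun i hi => ?_⟩)
    (fun g g' _ _ e => sub_left_injective e) |>.mono (fun _ h => h) (by simp)
  · have e : g.degree = (m : ℕ) := by rw [degree_eq_natDegree hg.1.ne_zero, hg.2.1]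
    rw [← e]
    exact degree_sub_lt (by rw [e, degree_X_pow]) hg.1.ne_zero (by rw [hg.1, leadingCoeff_X_pow])
  · rw [coeff_sub, coeff_X_pow, if_neg hi.ne, sub_zero]
    exact (g.le_supNorm i).trans hg.2.2

theorem exists_dyadic (x : ℝ) (hx : 1 ≤ x) : ∃ k : ℕ, (2 : ℝ) ^ k ≤ x ∧ x < 2 * 2 ^ k := by
  obtain ⟨k, h1, h2⟩ := exists_nat_pow_near hx (one_lt_two (α := ℝ))
  exact ⟨k, h1, by rwa [pow_succ'] at h2⟩

theorem cnt_dyadic (ε : ℝ) (hε : 0 < ε) : ∃ C : ℝ, 1 ≤ C ∧ ∀ Z : ℝ, 1 ≤ Z →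
    Cnt (fun k : ℕ => (2 : ℝ) ^ k ≤ Z) (C * Z ^ ε) := by
  have hl : 0 < Real.log 2 := Real.log_pos one_lt_two
  refine ⟨1 / (ε * Real.log 2) + 1, le_add_of_nonneg_left (by positivity), fun Z hZ => ?_⟩
  have h1 : 1 ≤ Z ^ ε := Real.one_le_rpow hZ hε.le
  refine (cnt_nat_le (Z ^ ε / (ε * Real.log 2)) (by positivity)).mono (fun k hk => ?_) ?_
  · have h2 : (k : ℝ) * Real.log 2 ≤ Real.log Z := by
      rw [← Real.log_pow]; exact Real.log_le_log (by positivity) hk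
    have h3 := Real.log_le_rpow_div (by linarith : 0 ≤ Z) hε
    rw [le_div_iff₀ (by positivity)]
    rw [le_div_iff₀ hε] at h3
    nlinarith
  · rw [add_mul, one_div, ← div_eq_inv_mul]; linarith

theorem PS.mono {n : ℕ} {P Q : ℝ → ℤ[X] → Prop} (h : PS n Q) (H₁ : ℝ)
    (hPQ : ∀ H, H₁ ≤ H → ∀ f, Box n H f → P H f → Q H f) : PS n P := by
  obtain ⟨c, hc, C, H₀, h⟩ := h
  exact ⟨c, hc, C, max H₀ H₁, fun H hH => (h H ((le_max_left _ _).trans hH)).mono
    (fun f hf => ⟨hf.1, hPQ H ((le_max_right _ _).trans hH) f hf.1 hf.2⟩) le_rfl⟩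

theorem PS.or {n : ℕ} {P Q : ℝ → ℤ[X] → Prop} (h : PS n P) (h' : PS n Q) :
    PS n (fun H f => P H f ∨ Q H f) := by
  obtain ⟨c, hc, C, H₀, h⟩ := h
  obtain ⟨c', hc', C', H₀', h'⟩ := h'
  refine ⟨min c c', lt_min hc hc', |C| + |C'|, max 1 (max H₀ H₀'), fun H hH => ?_⟩
  have h1 : 1 ≤ H := (le_max_left _ _).trans hH
  have h2 := (le_max_right _ _).trans hH
  refine ((h H ((le_max_left _ _).trans h2)).or (h' H ((le_max_right _ _).trans h2))).mono
    (fun f hf => hf.2.imp (fun a => ⟨hf.1, a⟩) fun a => ⟨hf.1, a⟩) ?_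
  rw [add_mul]
  have := min_le_left c c'
  have := min_le_right c c'
  refine add_le_add ?_ ?_ <;>
    exact mul_le_mul (le_abs_self _) (Real.rpow_le_rpow_of_exponent_le h1 (by linarith))
      (by positivity) (abs_nonneg _)

theorem PS.fin {n : ℕ} {ι : Type} (T : Finset ι) {P : ι → ℝ → ℤ[X] → Prop}
    (h : ∀ i ∈ T, PS n (P i)) : PS n (fun H f => ∃ i ∈ T, P i H f) := by
  classical
  induction T using Finset.induction_on with
  | empty => exact ⟨1, one_pos, 0, 0, fun H _ => Cnt.empty (by simp) (by simp)⟩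
  | insert a T _ ih =>
    refine ((h a (Finset.mem_insert_self _ _)).or
      (ih fun i hi => h i (Finset.mem_insert_of_mem hi))).mono 0 ?_
    rintro H - f - ⟨i, hi, hp⟩
    rcases Finset.mem_insert.1 hi with rfl | hi
    · exact Or.inl hp
    · exact Or.inr ⟨i, hi, hp⟩

/-- any exponent below `n - 1` will do -/
theorem PS.of_lt {n : ℕ} {P : ℝ → ℤ[X] → Prop} (e C H₀ : ℝ) (he : e < (n : ℝ) - 1)
    (h : ∀ H : ℝ, H₀ ≤ H → Cnt (fun f => Box n H f ∧ P H f) (C * H ^ e)) : PS n P := ⟨n - 1 - e, by linarith, C, H₀, fun H hH => by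
    rw [sub_sub_cancel]; exact h H hH⟩

/-- a constant is absorbed by a power -/
theorem exists_pow_ge (C c : ℝ) (hc : 0 < c) : ∃ H₀ : ℝ, 1 ≤ H₀ ∧ ∀ H : ℝ, H₀ ≤ H → C ≤ H ^ c := by
  obtain ⟨H₀, h⟩ := Filter.eventually_atTop.1 ((tendsto_rpow_atTop hc).eventually_ge_atTop C)
  exact ⟨max 1 H₀, le_max_left _ _, fun H hH => h H ((le_max_right _ _).trans hH)⟩

end Pool.Agent.VW
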