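import Pool.Agent.P.MP_b0ea37_nt.WLine
import Pool.Agent.P.MP_b0ea37_nt.WCnt

namespace Pool.Agent.VW

open Polynomial

/-- LL0 in the dyadic box with directions of height at most `T` -/
theorem lf0 (n : ℕ) (hn : 5 ≤ n) : ∃ K : ℕ, ∀ ε : ℝ, 0 < ε → ∃ C₀ : ℝ, 1 ≤ C₀ ∧
    ∀ (H δ T B : ℝ) (g₁ g₂ : ℤ[X]) (P Q : ℤ[X] → Prop), 0 ≤ δ → δ ≤ 1 → 1 ≤ T → T ≤ H →
    g₁.natDegree < n → g₂.natDegree < n → Indep g₁ g₂ → g₁.supNorm ≤ T → g₂.supNorm ≤ T →
    (∀ f, P f → Box n H f ∧ Bad n f ∧ Tiny δ H f) →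
    (∀ f, P f → ∀ s t : ℤ, |(s : ℝ)| * T ≤ K * H → |(t : ℝ)| * T ≤ K * H →
      Q (f + C s * g₁ + C t * g₂)) → Cnt Q B →
    Cnt P (C₀ * H ^ (δ + ε) * B * T / H) := by
  obtain ⟨K, hK⟩ := ll_tiny n hn
  refine ⟨2 * (K + 1), fun ε hε => ?_⟩
  obtain ⟨C₀, hC₀, h⟩ := hK ε hε
  have h2 : (1 : ℝ) ≤ 2 ^ ε := Real.one_le_rpow (by norm_num) hε.le
  refine ⟨C₀ * 2 ^ ε, one_le_mul_of_one_le_of_one_le hC₀ h2, ?_⟩
  intro H δ T B g₁ g₂ P Q hδ0 hδ1 hT hTH hg1 hg2 hind hs1 hs2 hP hQ hB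
  have hT0 : 0 < T := by linarith
  have hH1 : 1 ≤ H := hT.trans hTH
  have hH0 : 0 < H := by linarith
  have hq1 : 1 ≤ H / T := (one_le_div hT0).mpr hTH
  have hqH : H / T ≤ H := div_le_self hH0.le hT
  set L : ℕ := ⌈H / T⌉₊ with hL
  have hLlo : H / T ≤ L := Nat.le_ceil _
  have hLhi : (L : ℝ) ≤ 2 * (H / T) := by
    have := Nat.ceil_lt_add_one (show 0 ≤ H / T by linarith)
    linarith
  have hL1 : 1 ≤ L := by exact_mod_cast hq1.trans hLlo
  have hLT : (L : ℝ) * T ≤ 2 * H := by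
    have : 2 * (H / T) * T = 2 * H := by field_simp
    nlinarith
  have hY1 : 1 ≤ H ^ δ := Real.one_le_rpow hH1 hδ0
  have hYH : H ^ δ ≤ H := by
    simpa using Real.rpow_le_rpow_of_exponent_le hH1 hδ1
  have hK0 : (0 : ℝ) ≤ K := Nat.cast_nonneg K
  have key := h (2 * H) (H ^ δ) B L g₁ g₂ P Q hY1 (by linarith) hL1 (by linarith) hg1 hg2 hind
    (by linarith) (by linarith)
    (fun f hf => ⟨(hP f hf).2.1, by linarith [(hP f hf).1.2.2.2], (hP f hf).2.2⟩)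
    (fun f hf s t hs ht => by
      have hs' : |(s : ℝ)| ≤ L := by exact_mod_cast hs
      have ht' : |(t : ℝ)| ≤ K * L := by exact_mod_cast ht
      refine hQ f hf s t ?_ ?_
      · push_cast
        have := mul_le_mul_of_nonneg_right hs' hT0.le
        nlinarith
      · push_cast
        have h3 := mul_le_mul_of_nonneg_right ht' hT0.le
        have h4 := mul_le_mul_of_nonneg_left hLT hK0
        nlinarith) hB
  refine key.mono (fun _ hx => hx) ?_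
  have hB0 := hB.nonneg
  have hL0 : (0 : ℝ) < L := by linarith
  have hinv : 1 / (L : ℝ) ≤ T / H := by
    rw [div_le_div_iff₀ hL0 hH0]
    have := (div_le_iff₀ hT0).mp hLlo
    linarith
  have hA : 0 ≤ C₀ * 2 ^ ε * H ^ (δ + ε) * B := by positivity
  calc C₀ * (2 * H) ^ ε * H ^ δ * B / L = C₀ * 2 ^ ε * H ^ (δ + ε) * B * (1 / L) := by
        rw [Real.mul_rpow (by norm_num) hH0.le, Real.rpow_add hH0]
        ring
    _ ≤ C₀ * 2 ^ ε * H ^ (δ + ε) * B * (T / H) := mul_le_mul_of_nonneg_left hinv hA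
    _ = C₀ * 2 ^ ε * H ^ (δ + ε) * B * T / H := by ring

theorem monic_add_line {n : ℕ} {f g₁ g₂ : ℤ[X]} (hm : f.Monic) (hf : f.natDegree = n)
    (h1 : g₁.natDegree < n) (h2 : g₂.natDegree < n) (s t : ℤ) :
    (f + C s * g₁ + C t * g₂).Monic ∧ (f + C s * g₁ + C t * g₂).natDegree = n := by
  have hlt : (C s * g₁ + C t * g₂).natDegree < f.natDegree := by
    rw [hf]
    refine lt_of_le_of_lt (natDegree_add_le _ _) (max_lt ?_ ?_)
    · exact lt_of_le_of_lt (natDegree_C_mul_le _ _) h1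
    · exact lt_of_le_of_lt (natDegree_C_mul_le _ _) h2
  rw [add_assoc]
  exact ⟨hm.add_of_left (degree_lt_degree hlt), by rw [natDegree_add_eq_left_of_natDegree_lt hlt, hf]⟩

theorem sup_add_line {f g₁ g₂ : ℤ[X]} {H T U : ℝ} {s t : ℤ} (hf : f.supNorm ≤ H)
    (h1 : g₁.supNorm ≤ T) (h2 : g₂.supNorm ≤ T) (hs : |(s : ℝ)| * T ≤ U) (ht : |(t : ℝ)| * T ≤ U) :
    (f + C s * g₁ + C t * g₂).supNorm ≤ H + 2 * U := by
  have a1 := sup_add_le (f + C s * g₁) (C t * g₂)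
  have a2 := sup_add_le f (C s * g₁)
  have a3 := sup_C_mul_int s g₁
  have a4 := sup_C_mul_int t g₂
  have a5 := mul_le_mul_of_nonneg_left h1 (abs_nonneg (s : ℝ))
  have a6 := mul_le_mul_of_nonneg_left h2 (abs_nonneg (t : ℝ))
  linarith

theorem indep_one_X : Indep 1 X := by
  intro a b h
  have h0 := congrArg (fun g : ℤ[X] => g.coeff 0) h
  have h1 := congrArg (fun g : ℤ[X] => g.coeff 1) h
  simp only [coeff_add, coeff_C_mul, coeff_one, coeff_X, coeff_zero] at h0 h1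
  exact ⟨by simpa using h0, by simpa using h1⟩

theorem Tiny.mono {δ δ' H : ℝ} {f : ℤ[X]} (h : Tiny δ H f) (hδ : δ ≤ δ') (hH : 1 ≤ H) :
    Tiny δ' H f := by
  obtain ⟨m, h1, h2, h3⟩ := h
  exact ⟨m, h1, h2.trans (Real.rpow_le_rpow_of_exponent_le hH hδ), h3⟩

theorem c1_cnt (n : ℕ) (hn : 1 ≤ n) (R S : ℝ) (hR : 1 ≤ R) (hS : 1 ≤ S) :
    Cnt (fun h : ℤ[X] => h.Monic ∧ h.natDegree = n ∧ h.supNorm ≤ R ∧
      |((h.coeff (n - 1) : ℤ) : ℝ)| ≤ S) ((3 * R) ^ (n - 1) * (3 * S)) := by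
  obtain ⟨k, rfl⟩ : ∃ k, n = k + 1 := ⟨n - 1, by omega⟩
  have hc := cnt_poly_coeff (k + 1)
    (P := fun i (a : ℤ) => |(a : ℝ)| ≤ if i = k then S else R)
    (B := fun i => 2 * (if i = k then S else R) + 1)
    (fun i => cnt_int_abs _ (by split_ifs <;> linarith))
  have h2 := hc.inj (P := fun h : ℤ[X] => h.Monic ∧ h.natDegree = k + 1 ∧ h.supNorm ≤ R ∧
      |((h.coeff (k + 1 - 1) : ℤ) : ℝ)| ≤ S) (fun h => h - X ^ (k + 1))
    (by
      rintro h ⟨hm, hd, hs, hk⟩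
      refine ⟨?_, fun i hi => ?_⟩
      · have hdeg : h.degree = ((k + 1 : ℕ) : WithBot ℕ) := by
          rw [degree_eq_natDegree hm.ne_zero, hd]
        rw [← hdeg]
        refine degree_sub_lt_left ?_ hm.ne_zero ?_
        · rw [hdeg, degree_X_pow]
        · rw [hm.leadingCoeff, leadingCoeff_X_pow]
      · have hi' : i ≠ k + 1 := by omega
        rw [coeff_sub, coeff_X_pow, if_neg hi', sub_zero]
        split_ifs with hik
        · subst hik
          simpa using hk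
        · have := sup_le_iff.mp hs i
          rwa [Int.norm_eq_abs] at this)
    (fun x y _ _ hxy => sub_left_injective hxy)
  refine h2.mono (fun _ hx => hx) ?_
  rw [Finset.prod_range_succ, if_pos rfl, Nat.add_sub_cancel]
  have hp : ∏ i ∈ Finset.range k, (2 * (if i = k then S else R) + 1) = (2 * R + 1) ^ k := by
    rw [Finset.prod_congr rfl (g := fun _ => 2 * R + 1), Finset.prod_const, Finset.card_range]
    intro i hi
    rw [if_neg (Finset.mem_range.mp hi).ne]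
  rw [hp]
  exact mul_le_mul (pow_le_pow_left₀ (by linarith) (by linarith) k) (by linarith) (by linarith)
    (by positivity)

/-- 6.1 -/
theorem ps_c1 (n : ℕ) (hn : 5 ≤ n) (κ : ℝ) (hκ : 0 < κ) (hκ1 : κ ≤ 1) :
    PS n fun H f => Bad n f ∧ Tiny (κ / 2) H f ∧ |((f.coeff (n - 1) : ℤ) : ℝ)| < H ^ (1 - κ) := by
  obtain ⟨K, hK⟩ := lf0 n hn
  obtain ⟨C₀, hC₀, h⟩ := hK (κ / 4) (by linarith)
  refine PS.of_lt ((n : ℝ) - 1 - κ / 4) (C₀ * (3 * (1 + 2 * K)) ^ (n - 1) * 3) 1 (by linarith) ?_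
  intro H hH
  have hH0 : 0 < H := by linarith
  have hK0 : (0 : ℝ) ≤ K := Nat.cast_nonneg K
  have hS : 1 ≤ H ^ (1 - κ) := Real.one_le_rpow hH (by linarith)
  have hR : 1 ≤ (1 + 2 * K) * H := by nlinarith
  have hc := c1_cnt n (by omega) _ _ hR hS
  have d1 : (1 : ℤ[X]).natDegree < n := by rw [natDegree_one]; omega
  have d2 : (X : ℤ[X]).natDegree < n := by rw [natDegree_X]; omega
  have s1 : (1 : ℤ[X]).supNorm ≤ 1 := by
    refine sup_le_iff.mpr fun i => ?_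
    rw [coeff_one]
    split_ifs <;> simp
  have s2 : (X : ℤ[X]).supNorm ≤ 1 := by
    refine sup_le_iff.mpr fun i => ?_
    rw [coeff_X]
    split_ifs <;> simp
  have key := h H (κ / 2) 1 _ 1 X
    (fun f => Box n H f ∧ Bad n f ∧ Tiny (κ / 2) H f ∧
      |((f.coeff (n - 1) : ℤ) : ℝ)| < H ^ (1 - κ)) _
    (by linarith) (by linarith) le_rfl hH d1 d2 indep_one_X s1 s2
    (fun f hf => ⟨hf.1, hf.2.1, hf.2.2.1⟩)
    (fun f hf s t hs ht => by
      obtain ⟨⟨hm, hd, -, hsup⟩, -, -, hco⟩ := hf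
      obtain ⟨e1, e2⟩ := monic_add_line hm hd d1 d2 s t
      refine ⟨e1, e2, ?_, ?_⟩
      · have := sup_add_line hsup s1 s2 hs ht
        linarith
      · have n1 : n - 1 ≠ 0 := by omega
        have n2 : 1 ≠ n - 1 := by omega
        rw [coeff_add, coeff_add, coeff_C_mul, coeff_C_mul, coeff_one, coeff_X, if_neg n1,
          if_neg n2]
        simpa using hco.le) hc
  refine key.mono (fun _ hx => hx) (le_of_eq ?_)
  have e1 : H ^ ((n : ℝ) - 1 - κ / 4) =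
      H ^ (κ / 2 + κ / 4) * (H ^ (n - 1) * H ^ (1 - κ)) / H := by
    rw [← Real.rpow_natCast, ← Real.rpow_add hH0, ← Real.rpow_add hH0, ← Real.rpow_sub_one hH0.ne']
    congr 1
    rw [Nat.cast_sub (by omega)]
    push_cast
    ring
  rw [e1, ← mul_assoc 3, mul_pow]
  ring

end Pool.Agent.VW
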