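import Pool.Agent.P.MP_b0ea37_nt.WSym

namespace Pool.Agent.VW

open Polynomial

theorem wc2a_sub {n : ℕ} (θ : Fin n → ℂ) {S T : Finset (Fin n)} (h : S ⊆ T) :
    ∏ i ∈ S, max 1 ‖θ i‖ ≤ ∏ i ∈ T, max 1 ‖θ i‖ := by
  rw [← Finset.prod_sdiff h]
  exact le_mul_of_one_le_left (Finset.prod_nonneg fun i _ => by positivity)
    (le_of_eq_of_le Finset.prod_const_one.symm
      (Finset.prod_le_prod (fun _ _ => zero_le_one) fun i _ => le_max_left _ _))

/-- one large root, the others small -/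
theorem wc2a_big {n : ℕ} (hn : 0 < n) (θ : Fin n → ℂ) {H W : ℝ} (hW : 1 ≤ W) (hH : 0 < H)
    (h1 : H / W ≤ ‖∑ i, θ i‖) (h2 : ∏ i, max 1 ‖θ i‖ ≤ (n + 1) * H) :
    ∃ i₀, H / (n * W) ≤ ‖θ i₀‖ ∧ ∀ j, j ≠ i₀ → ‖θ j‖ ≤ n * (n + 1) * W := by
  have hn' : (0 : ℝ) < n := by exact_mod_cast hn
  have hW0 : 0 < W := by linarith
  obtain ⟨i₀, -, hi⟩ := Finset.exists_max_image Finset.univ (fun i => ‖θ i‖)
    ⟨⟨0, hn⟩, Finset.mem_univ _⟩
  have h3 : H / (n * W) ≤ ‖θ i₀‖ := by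
    have h4 := h1.trans ((norm_sum_le _ _).trans (Finset.sum_le_card_nsmul _ _ _ hi))
    rw [Finset.card_univ, Fintype.card_fin, nsmul_eq_mul, div_le_iff₀ hW0] at h4
    rw [div_le_iff₀ (by positivity)]
    linarith
  refine ⟨i₀, h3, fun j hj => ?_⟩
  have h5 := wc2a_sub θ (Finset.subset_univ {j, i₀})
  rw [Finset.prod_pair hj] at h5
  have h6 : ‖θ j‖ * (H / (n * W)) ≤ (n + 1) * H :=
    (mul_le_mul (le_max_right _ _) (h3.trans (le_max_right _ _)) (by positivity)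
      (by positivity)).trans (h5.trans h2)
  rw [← mul_div_assoc, div_le_iff₀ (by positivity)] at h6
  refine le_of_mul_le_mul_right ?_ hH
  linarith

theorem wc2a_low {n : ℕ} (θ : Fin n → ℂ) (i₀ : Fin n) {u s : ℝ} (hu : 0 ≤ u) (hs : 0 < s)
    (hs1 : s ≤ 1) (h1 : ∀ j, j ≠ i₀ → u ≤ ‖θ i₀ - θ j‖)
    (h2 : ∀ i j, i ≠ i₀ → j ≠ i₀ → j ≠ i → s ≤ ‖θ i - θ j‖) :
    u ^ (2 * n - 2) * s ^ (n ^ 2) ≤ ‖∏ i, ∏ j ∈ Finset.univ.erase i, (θ i - θ j)‖ := by
  have hc : ∀ i : Fin n, (Finset.univ.erase i).card = n - 1 := fun i => by simp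
  simp only [norm_prod]
  rw [← Finset.mul_prod_erase _ _ (Finset.mem_univ i₀)]
  have a1 : u ^ (n - 1) ≤ ∏ j ∈ Finset.univ.erase i₀, ‖θ i₀ - θ j‖ := by
    rw [← hc i₀, ← Finset.prod_const]
    exact Finset.prod_le_prod (fun _ _ => hu) fun j hj => h1 j (Finset.ne_of_mem_erase hj)
  have a2 : (u * s ^ n) ^ (n - 1) ≤
      ∏ i ∈ Finset.univ.erase i₀, ∏ j ∈ Finset.univ.erase i, ‖θ i - θ j‖ := by
    rw [← hc i₀, ← Finset.prod_const]
    refine Finset.prod_le_prod (fun _ _ => by positivity) fun i hi => ?_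
    have hi' := Finset.ne_of_mem_erase hi
    rw [← Finset.mul_prod_erase _ _ (Finset.mem_erase.2 ⟨hi'.symm, Finset.mem_univ i₀⟩)]
    refine mul_le_mul (by rw [norm_sub_rev]; exact h1 i hi') ?_ (by positivity) (norm_nonneg _)
    refine (pow_le_pow_of_le_one hs.le hs1 (n := n)
      (m := ((Finset.univ.erase i).erase i₀).card) ((Finset.card_le_univ _).trans (Fintype.card_fin n).le)).trans ?_
    rw [← Finset.prod_const]
    exact Finset.prod_le_prod (fun _ _ => hs.le) fun j hj => h2 i j hi' (Finset.ne_of_mem_erase hj)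
      (Finset.ne_of_mem_erase (Finset.mem_of_mem_erase hj))
  refine le_trans ?_ (mul_le_mul a1 a2 (by positivity) (Finset.prod_nonneg fun _ _ => norm_nonneg _))
  rw [mul_pow, ← mul_assoc, ← pow_add, ← pow_mul, show n - 1 + (n - 1) = 2 * n - 2 by omega]
  refine mul_le_mul_of_nonneg_left (pow_le_pow_of_le_one hs.le hs1 ?_) (by positivity)
  rw [sq]
  exact Nat.mul_le_mul_left _ (Nat.sub_le _ _)

theorem wc2a_grid (z : ℂ) {s : ℝ} (hs : 0 < s) : ∃ a b : ℤ, |(a : ℝ)| ≤ ‖z‖ / s + 1 ∧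
    |(b : ℝ)| ≤ ‖z‖ / s + 1 ∧ ‖(s : ℂ) * (a + b * Complex.I) - z‖ ≤ s := by
  have key : ∀ x : ℝ, |x| ≤ ‖z‖ → |(round (x / s) : ℝ)| ≤ ‖z‖ / s + 1 ∧
      |s * round (x / s) - x| ≤ s / 2 := fun x hx => by
    have h1 := abs_sub_round (x / s)
    have h2 : |x / s| ≤ ‖z‖ / s := by
      rw [abs_div, abs_of_pos hs]
      exact div_le_div_of_nonneg_right hx hs.le
    refine ⟨?_, ?_⟩
    · have := abs_sub (x / s) (x / s - round (x / s))
      rw [sub_sub_cancel] at this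
      linarith
    · have e : s * round (x / s) - x = -(s * (x / s - round (x / s))) := by
        field_simp
        ring
      rw [e, abs_neg, abs_mul, abs_of_pos hs]
      nlinarith
  obtain ⟨a1, a2⟩ := key z.re (Complex.abs_re_le_norm z)
  obtain ⟨b1, b2⟩ := key z.im (Complex.abs_im_le_norm z)
  refine ⟨_, _, a1, b1, (Complex.norm_le_abs_re_add_abs_im _).trans ?_⟩
  simp only [Complex.sub_re, Complex.mul_re, Complex.ofReal_re, Complex.add_re, Complex.intCast_re,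
    Complex.I_re, Complex.intCast_im, Complex.I_im, Complex.ofReal_im, Complex.add_im,
    Complex.mul_im, Complex.sub_im, mul_zero, zero_mul, sub_zero, add_zero, mul_one, zero_add]
  linarith

theorem wc2a_eval {n : ℕ} (θ : Fin n → ℂ) {i j : Fin n} (hij : j ≠ i) {ρ : ℂ} {s R M : ℝ}
    (hs : 0 ≤ s) (hs1 : s ≤ 1) (hi : ‖ρ - θ i‖ ≤ s) (hj : ‖ρ - θ j‖ ≤ 2 * s) (hR : max 1 ‖ρ‖ ≤ R)
    (hM : ∏ i, max 1 ‖θ i‖ ≤ M) :
    ‖(∏ i, (X - C (θ i))).eval ρ‖ ≤ (3 + 2 * n) * ((n + 1) * (2 ^ n * M) * R ^ n) * s ^ 2 ∧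
      ‖(derivative (∏ i, (X - C (θ i)))).eval ρ‖ ≤
        (3 + 2 * n) * ((n + 1) * (2 ^ n * M) * R ^ n) * s := by
  set G : ℂ[X] := ∏ k ∈ (Finset.univ.erase i).erase j, (X - C (θ k)) with hG
  have hcard : ((Finset.univ.erase i).erase j).card ≤ n :=
    (Finset.card_le_univ _).trans (Fintype.card_fin n).le
  have e : ∏ i, (X - C (θ i)) = (X - C (θ i)) * ((X - C (θ j)) * G) := by
    rw [hG, Finset.mul_prod_erase _ (fun k => X - C (θ k)) (Finset.mem_erase.2 ⟨hij, Finset.mem_univ j⟩),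
      Finset.mul_prod_erase _ (fun k => X - C (θ k)) (Finset.mem_univ i)]
  have hd : G.natDegree ≤ n := by
    rw [hG, natDegree_finsetProd_X_sub_C_eq_card]
    exact hcard
  have hM0 : 0 ≤ M := (Finset.prod_nonneg fun _ _ => by positivity).trans hM
  have hG1 : G.supNorm ≤ 2 ^ n * M :=
    (sup_prod_X_sub_C _ θ).trans (mul_le_mul (pow_le_pow_right₀ one_le_two hcard)
      ((wc2a_sub θ (Finset.subset_univ _)).trans hM) (Finset.prod_nonneg fun _ _ => by positivity)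
      (by positivity))
  have hRn : (max 1 ‖ρ‖) ^ n ≤ R ^ n := pow_le_pow_left₀ (by positivity) hR n
  have hR0 : 0 ≤ R := le_trans (by positivity) hR
  set c : ℝ := (n + 1) * (2 ^ n * M) * R ^ n with hc
  have hc0 : 0 ≤ c := by positivity
  have b1 : ‖G.eval ρ‖ ≤ c := (norm_eval_le G hd ρ).trans (by rw [hc]; gcongr)
  have b2 : ‖(derivative G).eval ρ‖ ≤ n * c := by
    refine (norm_eval_le _ ((natDegree_derivative_le G).trans ((Nat.sub_le _ _).trans hd)) ρ).trans ?_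
    have h1 := (sup_derivative_le G hd).trans (mul_le_mul_of_nonneg_left hG1 (Nat.cast_nonneg n))
    calc _ ≤ (n + 1) * (n * (2 ^ n * M)) * R ^ n := by gcongr
      _ = n * c := by rw [hc]; ring
  have hn0 : (0 : ℝ) ≤ n := Nat.cast_nonneg n
  have hnc : 0 ≤ n * c := by positivity
  rw [e]
  refine ⟨?_, ?_⟩
  · simp only [eval_mul, eval_sub, eval_X, eval_C, norm_mul]
    calc _ ≤ s * (2 * s * c) := by gcongr
      _ ≤ _ := by nlinarith [mul_nonneg hc0 (sq_nonneg s), mul_nonneg hnc (sq_nonneg s)]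
  · simp only [derivative_mul, derivative_X_sub_C, eval_add, eval_mul, eval_sub, eval_X, eval_C,
      one_mul]
    refine (norm_add_le _ _).trans ?_
    rw [norm_mul, norm_mul]
    have b3 : ‖G.eval ρ + (ρ - θ j) * (derivative G).eval ρ‖ ≤ c + 2 * (n * c) := by
      refine (norm_add_le _ _).trans (add_le_add b1 ?_)
      rw [norm_mul]
      exact mul_le_mul (by linarith) b2 (norm_nonneg _) zero_le_two
    calc _ ≤ 2 * s * c + s * (c + 2 * (n * c)) := by gcongr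
      _ = _ := by ring

/-- a small discriminant gives a grid point where `f` is small to second order -/
theorem close_roots (n : ℕ) (hn : 5 ≤ n) : ∃ C₀ : ℝ, 1 ≤ C₀ ∧ ∀ (H W s : ℝ) (f : ℤ[X]),
    f.Monic → f.natDegree = n → f.supNorm ≤ H → 1 ≤ W → C₀ * W ^ 2 ≤ H → 0 < s → s ≤ 1 →
    H / W ≤ |((f.coeff (n - 1) : ℤ) : ℝ)| →
    C₀ * W ^ (2 * n) * |((Dv n f : ℤ) : ℝ)| < H ^ (2 * n - 2) * s ^ (n ^ 2) →
    ∃ a b : ℤ, |(a : ℝ)| ≤ C₀ * W / s ∧ |(b : ℝ)| ≤ C₀ * W / s ∧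
      ‖(s : ℂ) * (a + b * Complex.I)‖ ≤ C₀ * W ∧
      ‖(up ℂ f).eval ((s : ℂ) * (a + b * Complex.I))‖ ≤ C₀ * s ^ 2 * H * W ^ n ∧
      ‖(derivative (up ℂ f)).eval ((s : ℂ) * (a + b * Complex.I))‖ ≤ C₀ * s * H * W ^ n := by
  have hn' : (5 : ℝ) ≤ n := by exact_mod_cast hn
  set c1 : ℝ := (2 * n) ^ (2 * n) with hc1
  set c2 : ℝ := 2 * n ^ 2 * (n + 1) with hc2
  set c3 : ℝ := n * (n + 1) + 1 with hc3
  set c4 : ℝ := (3 + 2 * n) * ((n + 1) * (2 ^ n * (n + 1)) * c3 ^ n) with hc4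
  have p1 : 0 ≤ c1 := by positivity
  have p2 : 0 ≤ c2 := by positivity
  have p3 : 1 ≤ c3 := by nlinarith
  have p4 : 0 ≤ c4 := by positivity
  refine ⟨c1 + c2 + c3 + c4, by linarith, fun H W s f hm hd hH hW hWH hs hs1 hco hD => ?_⟩
  have hW0 : 0 < W := by linarith
  have hH2 : c2 * W ^ 2 ≤ H := le_trans (by gcongr; linarith) hWH
  have hH0 : 0 < H := lt_of_lt_of_le (by positivity) hH2
  obtain ⟨θ, hθ⟩ := exists_roots (n := n) (up ℂ f) (hm.map _) (by rw [hm.natDegree_map, hd])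
  have hM : ∏ i, max 1 ‖θ i‖ ≤ (n + 1) * H := hθ.prod_max_le.trans (by gcongr)
  have e : up ℂ f = ∏ i, (X - C (θ i)) := hθ
  have hsum : H / W ≤ ‖∑ i, θ i‖ := by
    have h1 := prod_X_sub_C_coeff_card_pred Finset.univ θ (by simp; omega)
    rw [← e, Finset.card_univ, Fintype.card_fin, coeff_map, eq_intCast] at h1
    rw [← norm_neg, ← h1, Complex.norm_intCast]
    exact hco
  obtain ⟨i₀, hi₀, hsm⟩ := wc2a_big (by omega) θ hW hH0 hsum hM
  have hfar : ∀ j, j ≠ i₀ → H / (2 * n * W) ≤ ‖θ i₀ - θ j‖ := fun j hj => by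
    have h1 := norm_sub_norm_le (θ i₀) (θ j)
    have h2 : (n : ℝ) * (n + 1) * W ≤ H / (2 * n * W) := by
      rw [le_div_iff₀ (by positivity)]
      linarith
    have h3 : H / (n * W) = 2 * (H / (2 * n * W)) := by field_simp
    linarith [hsm j hj]
  obtain ⟨i, j, hi, hj, hij, hd⟩ : ∃ i j, i ≠ i₀ ∧ j ≠ i₀ ∧ j ≠ i ∧ ‖θ i - θ j‖ < s := by
    by_contra hc
    push Not at hc
    have h1 := wc2a_low θ i₀ (by positivity) hs hs1 hfar hc
    rw [← Dv_roots, ← e, Dv_map, eq_intCast, Complex.norm_intCast] at h1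
    have h2 : (2 * n * W) ^ (2 * n - 2) ≤ (c1 + c2 + c3 + c4) * W ^ (2 * n) := by
      refine (pow_le_pow_right₀ (by nlinarith) (Nat.sub_le _ _)).trans ?_
      rw [mul_pow]
      gcongr
      linarith
    have h3 := mul_le_mul h2 h1 (by positivity) (by positivity)
    rw [← mul_assoc, ← mul_pow, mul_div_cancel₀ _ (by positivity)] at h3
    linarith
  obtain ⟨a, b, ha, hb, hρ⟩ := wc2a_grid (θ i) hs
  set ρ : ℂ := (s : ℂ) * (a + b * Complex.I) with hρ'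
  have hθi := hsm i hi
  have hab : ‖θ i‖ / s + 1 ≤ (c1 + c2 + c3 + c4) * W / s := by
    rw [div_add_one hs.ne']
    refine div_le_div_of_nonneg_right ?_ hs.le
    nlinarith [mul_nonneg p1 hW0.le, mul_nonneg p2 hW0.le, mul_nonneg p4 hW0.le]
  have hρn : ‖ρ‖ ≤ c3 * W := by
    have := norm_le_norm_add_norm_sub' ρ (θ i)
    nlinarith
  have hρj : ‖ρ - θ j‖ ≤ 2 * s := by
    have := norm_sub_le_norm_sub_add_norm_sub ρ (θ i) (θ j)
    linarith
  obtain ⟨e1, e2⟩ := wc2a_eval θ hij hs.le hs1 hρ hρj (R := c3 * W)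
    (max_le (by nlinarith) hρn) hM
  have e3 : (3 + 2 * n) * ((n + 1) * (2 ^ n * ((n + 1) * H)) * (c3 * W) ^ n) = c4 * (H * W ^ n) := by
    rw [hc4, mul_pow]
    ring
  rw [← e, e3] at e1 e2
  have e4 : c4 * (H * W ^ n) ≤ (c1 + c2 + c3 + c4) * (H * W ^ n) := by
    gcongr
    linarith
  refine ⟨a, b, ha.trans hab, hb.trans hab, hρn.trans (by gcongr; linarith), e1.trans ?_,
    e2.trans ?_⟩
  · exact (mul_le_mul_of_nonneg_right e4 (sq_nonneg s)).trans (le_of_eq (by ring))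
  · exact (mul_le_mul_of_nonneg_right e4 hs.le).trans (le_of_eq (by ring))

end Pool.Agent.VW
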