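import Pool.Agent.P.MP_b0ea37_nt.WCsv

namespace Pool.Agent.VW

open Polynomial

theorem cnr_floor {x c a : ℝ} (hc : 0 < c) (ha : 1 ≤ a) (h : |x| ≤ a * c) :
    |((⌊x / c⌋ : ℤ) : ℝ)| ≤ 2 * a := by
  have h1 : |x / c| ≤ a := by rwa [abs_div, abs_of_pos hc, div_le_iff₀ hc]
  have h2 := abs_le.1 h1
  have h3 := Int.floor_le (x / c)
  have h4 := Int.lt_floor_add_one (x / c)
  exact abs_le.2 ⟨by linarith, by linarith⟩

theorem cnr_close {x y c : ℝ} (hc : 0 < c) (h : ⌊x / c⌋ = ⌊y / c⌋) : |x - y| ≤ c := by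
  have h1 := Int.abs_sub_lt_one_of_floor_eq_floor h
  rw [← sub_div, abs_div, abs_of_pos hc, div_lt_one hc] at h1
  exact h1.le

theorem cnr_deg {n : ℕ} (hn : 1 ≤ n) {x y : ℤ[X]} (hx : x.degree < n) (hy : y.degree < n) :
    (y - x).natDegree < n := by
  rcases eq_or_ne (y - x) 0 with h | h
  · rw [h, natDegree_zero]
    exact hn
  · exact (natDegree_lt_iff_degree_lt h).2 ((degree_sub_le _ _).trans_lt (max_lt hy hx))

theorem cnr_eval {n : ℕ} (g : ℂ[X]) (hg : g.natDegree ≤ n) {ρ : ℂ} {V T : ℝ} (hV : 1 ≤ V)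
    (hρ : ‖ρ‖ ≤ V) (hT : g.supNorm ≤ T) : |(g.eval ρ).re| ≤ (n + 1) * T * V ^ n := by
  have h0 : 0 ≤ g.supNorm := g.supNorm_nonneg
  refine (Complex.abs_re_le_norm _).trans ((norm_eval_le g hg ρ).trans ?_)
  have h1 : max 1 ‖ρ‖ ≤ V := max_le hV hρ
  have h2 : 0 ≤ T := h0.trans hT
  gcongr

/-- two short independent polynomials that are small to second order at a complex point -/
theorem near_short (n T : ℕ) (hn : 1 ≤ n) (ρ : ℂ) (V s : ℝ) (hV : 1 ≤ V) (hρ : ‖ρ‖ ≤ V)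
    (hs : 0 < s) (hs1 : s ≤ 1) (hT : 1 ≤ T)
    (h : 50 * ((n : ℝ) + 1) ^ 3 * V ^ (2 * n) ≤ s ^ 3 * (T : ℝ) ^ (n - 1)) :
    ∃ g₁ g₂ : ℤ[X], g₁.natDegree < n ∧ g₂.natDegree < n ∧ Indep g₁ g₂ ∧ g₁.supNorm ≤ T ∧
      g₂.supNorm ≤ T ∧ |((up ℂ g₁).eval ρ).re| ≤ T * s ^ 2 ∧ |((up ℂ g₂).eval ρ).re| ≤ T * s ^ 2 ∧
      |((derivative (up ℂ g₁)).eval ρ).re| ≤ T * s ∧
      |((derivative (up ℂ g₂)).eval ρ).re| ≤ T * s := by
  have hT0 : (1 : ℝ) ≤ T := by exact_mod_cast hT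
  have hn0 : (1 : ℝ) ≤ n := by exact_mod_cast hn
  have hVn : 1 ≤ V ^ n := one_le_pow₀ hV
  have c1 : 0 < T * s ^ 2 := by positivity
  have c2 : 0 < T * s := by positivity
  obtain ⟨a, ha⟩ : ∃ a : ℝ, a = (n + 1) * V ^ n / s ^ 2 := ⟨_, rfl⟩
  obtain ⟨b, hb⟩ : ∃ b : ℝ, b = (n + 1) ^ 2 * V ^ n / s := ⟨_, rfl⟩
  have a1 : 1 ≤ a := by
    rw [ha, one_le_div (by positivity)]
    nlinarith [pow_le_one₀ (n := 2) hs.le hs1]
  have b1 : 1 ≤ b := by
    rw [hb, one_le_div hs]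
    nlinarith [mul_nonneg (sq_nonneg ((n : ℝ) + 1)) (sub_nonneg.2 hVn)]
  have hQ := Cnt.prod (Q := fun (_ t : ℤ) => |(t : ℝ)| ≤ 2 * b) (cnt_int_abs (2 * a) (by linarith))
    (by linarith : 0 ≤ 2 * (2 * b) + 1) fun _ _ => cnt_int_abs (2 * b) (by linarith)
  obtain ⟨x, y, z, hx, hy, hz, e1, e2, hi, s1, s2⟩ := short_pair n T
    (fun g => (⌊((up ℂ g).eval ρ).re / (T * s ^ 2)⌋,
      ⌊((derivative (up ℂ g)).eval ρ).re / (T * s)⌋)) _ _ 1 hQ one_pos
    (fun g hg hgT => by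
      have d1 : (up ℂ g).natDegree ≤ n :=
        natDegree_map_le.trans (natDegree_le_iff_degree_le.2 hg.le)
      have t1 : (up ℂ g).supNorm ≤ T := (sup_up_complex g).trans_le hgT
      refine ⟨cnr_floor c1 a1 ((cnr_eval _ d1 hV hρ t1).trans_eq ?_),
        cnr_floor c2 b1 ((cnr_eval (T := (n + 1) * T) _ ((natDegree_derivative_le _).trans
          ((Nat.sub_le _ _).trans d1)) hV hρ ((sup_derivative_le _ d1).trans ?_)).trans_eq ?_)⟩
      · rw [ha]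
        field_simp
      · have := (up ℂ g).supNorm_nonneg
        nlinarith
      · rw [hb]
        field_simp)
    (fun g g' _ _ hne _ => one_le_sup (sub_ne_zero.2 hne))
    (by
      have e : a * b = (n + 1) ^ 3 * V ^ (2 * n) / s ^ 3 := by
        rw [ha, hb]
        field_simp
        ring
      have h1 : 50 * (a * b) ≤ (T : ℝ) ^ (n - 1) := by
        rw [e, ← mul_div_assoc, div_le_iff₀ (by positivity)]
        linarith
      have h2 : (T : ℝ) ^ (n - 1) ≤ (T + 1) ^ (n - 1) := by gcongr; linarith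
      have h3 : ((T : ℝ) + 1) ^ n = (T + 1) ^ (n - 1) * (T + 1) := by
        rw [← pow_succ, Nat.sub_add_cancel hn]
      have h4 : (2 * (2 * a) + 1) * (2 * (2 * b) + 1) ≤ 25 * (a * b) := by
        nlinarith [mul_nonneg (sub_nonneg.2 a1) (sub_nonneg.2 b1)]
      have h5 : 0 < a * b := by positivity
      rw [h3, div_one]
      calc (2 * (2 * a) + 1) * (2 * (2 * b) + 1) * (1 + 2 * (T : ℝ))
          ≤ 25 * (a * b) * (1 + 2 * T) := by gcongr
        _ < 50 * (a * b) * (T + 1) := by nlinarith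
        _ ≤ (T + 1) ^ (n - 1) * (T + 1) := by gcongr; linarith)
  have k1 := Prod.ext_iff.1 e1
  have k2 := Prod.ext_iff.1 e2
  refine ⟨y - x, z - x, cnr_deg hn hx hy, cnr_deg hn hx hz, hi, s1, s2, ?_, ?_, ?_, ?_⟩
  · simpa [up] using cnr_close c1 k1.1
  · simpa [up] using cnr_close c1 k2.1
  · simpa [up] using cnr_close c2 k1.2
  · simpa [up] using cnr_close c2 k2.2

/-- monic polynomials that are small to second order at a complex point -/
theorem cnt_near (n : ℕ) (hn : 2 ≤ n) (ρ : ℂ) (R A A' : ℝ) (hR : 0 ≤ R) (hA : 0 ≤ A)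
    (hA' : 0 ≤ A') :
    Cnt (fun h : ℤ[X] => h.Monic ∧ h.natDegree = n ∧ h.supNorm ≤ R ∧
      |((up ℂ h).eval ρ).re| ≤ A ∧ |((derivative (up ℂ h)).eval ρ).re| ≤ A')
      ((2 * R + 1) ^ (n - 2) * (2 * A' + 1) * (2 * A + 1)) := by
  have h1 := Cnt.pi (ι := Fin (n - 2)) (P := fun _ (t : ℤ) => |(t : ℝ)| ≤ R)
    (B := fun _ => 2 * R + 1) fun _ => cnt_int_abs R hR
  have hB : 0 ≤ (2 * A' + 1) * (2 * A + 1) := by positivity
  refine (Cnt.fibre (P := fun (z : Fin (n - 2) → ℤ) (h : ℤ[X]) => (h.Monic ∧ h.natDegree = n ∧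
      |((up ℂ h).eval ρ).re| ≤ A ∧ |((derivative (up ℂ h)).eval ρ).re| ≤ A') ∧
      ∀ i : Fin (n - 2), h.coeff (i + 2) = z i) h1 hB fun z _ => Cnt.of_mem hB fun g hg => ?_).mono
    (fun h hh => ⟨fun i => h.coeff (i + 2), fun i => (h.le_supNorm _).trans hh.2.2.1,
      ⟨hh.1, hh.2.1, hh.2.2.2⟩, fun _ => rfl⟩) (by simp [mul_assoc])
  have key : ∀ h : ℤ[X], h.Monic → h.natDegree = n → (∀ i : Fin (n - 2), h.coeff (i + 2) = z i) →
      h = g + (C ((h - g).coeff 1) * X + C ((h - g).coeff 0)) := by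
    intro h hm hd hz
    rw [← eq_X_add_C_of_natDegree_le_one, add_sub_cancel]
    refine natDegree_le_iff_coeff_eq_zero.2 fun N hN => ?_
    rw [coeff_sub, sub_eq_zero]
    rcases lt_trichotomy N n with h2 | h2 | h2
    · obtain ⟨j, rfl⟩ : ∃ j, N = j + 2 := ⟨N - 2, by omega⟩
      exact (hz ⟨j, by omega⟩).trans (hg.2 ⟨j, by omega⟩).symm
    · have e1 := hm.coeff_natDegree
      have e2 := hg.1.1.coeff_natDegree
      rw [hd] at e1
      rw [hg.1.2.1] at e2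
      rw [h2, e1, e2]
    · rw [coeff_eq_zero_of_natDegree_lt (hd.trans_lt h2),
        coeff_eq_zero_of_natDegree_lt (hg.1.2.1.trans_lt h2)]
  refine (Cnt.prod (Q := fun (a t : ℤ) => |(t : ℝ) - (-((up ℂ g).eval ρ).re - a * ρ.re)| ≤ A)
    (cnt_int_near (-((derivative (up ℂ g)).eval ρ).re) A' hA') (by positivity)
    fun a _ => cnt_int_near _ A hA).inj (fun h => ((h - g).coeff 1, (h - g).coeff 0))
    (fun h hh => ?_) fun h h' hh hh' e => ?_
  · obtain ⟨⟨a1, a2, a3, a4⟩, a5⟩ := hh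
    have e := key h a1 a2 a5
    generalize (h - g).coeff 1 = a, (h - g).coeff 0 = b at e ⊢
    subst e
    constructor
    · refine le_of_eq_of_le (congrArg _ ?_) a4
      simp [up]
      ring
    · refine le_of_eq_of_le (congrArg _ ?_) a3
      simp [up]
      ring
  · have k := Prod.ext_iff.1 e
    rw [key h hh.1.1 hh.1.2.1 hh.2, key h' hh'.1.1 hh'.1.2.1 hh'.2]
    exact congrArg₂ (fun a b => g + (C a * X + C b)) k.1 k.2

end Pool.Agent.VW
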