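import Pool.Agent.P.MP_b0ea37_nt.WC1
import Pool.Agent.P.MP_b0ea37_nt.WCnr
import Pool.Agent.P.MP_b0ea37_nt.WC2a

namespace Pool.Agent.VW

open Polynomial

theorem c2b_line (f g₁ g₂ : ℤ[X]) (ρ : ℂ) (s t : ℤ) :
    ((up ℂ (f + C s * g₁ + C t * g₂)).eval ρ).re = ((up ℂ f).eval ρ).re +
      s * ((up ℂ g₁).eval ρ).re + t * ((up ℂ g₂).eval ρ).re ∧
    ((derivative (up ℂ (f + C s * g₁ + C t * g₂))).eval ρ).re =
      ((derivative (up ℂ f)).eval ρ).re + s * ((derivative (up ℂ g₁)).eval ρ).re +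
        t * ((derivative (up ℂ g₂)).eval ρ).re := by
  have e : up ℂ (f + C s * g₁ + C t * g₂)
      = up ℂ f + C (s : ℂ) * up ℂ g₁ + C (t : ℂ) * up ℂ g₂ := by
    rw [up, Polynomial.map_add, Polynomial.map_add, Polynomial.map_mul, Polynomial.map_mul,
      map_C, map_C]
    rfl
  rw [e, derivative_add, derivative_add, derivative_C_mul, derivative_C_mul]
  simp only [eval_add, eval_mul, eval_C, Complex.add_re, Complex.mul_re, Complex.intCast_re,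
    Complex.intCast_im, zero_mul, sub_zero, and_self]

theorem c2b_abs {x y z s t T U r P : ℝ} (hx : |x| ≤ P) (hy : |y| ≤ T * r) (hz : |z| ≤ T * r)
    (hs : |s| * T ≤ U) (ht : |t| * T ≤ U) (hr : 0 ≤ r) :
    |x + s * y + t * z| ≤ P + 2 * U * r := by
  have h : ∀ {c w : ℝ}, |w| ≤ T * r → |c| * T ≤ U → |c * w| ≤ U * r := by
    intro c w hw hc
    rw [abs_mul]
    calc |c| * |w| ≤ |c| * (T * r) := mul_le_mul_of_nonneg_left hw (abs_nonneg c)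
      _ = |c| * T * r := by ring
      _ ≤ U * r := mul_le_mul_of_nonneg_right hc hr
  have h1 := h hy hs
  have h2 := h hz ht
  have h3 := abs_add_three x (s * y) (t * z)
  linarith

theorem c2b_T {G u T : ℝ} {k : ℕ} (hG : 1 ≤ G) (hu : 1 ≤ u) (hT : G * u ^ 3 ≤ T) (hk : 4 ≤ k) :
    G ≤ (1 / u ^ 4) ^ 3 * T ^ k := by
  have hu3 : 1 ≤ u ^ 3 := one_le_pow₀ hu
  have h1 : 1 ≤ G * u ^ 3 := one_le_mul_of_one_le_of_one_le hG hu3
  have h2 : (G * u ^ 3) ^ 4 ≤ T ^ k :=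
    (pow_le_pow_left₀ (by positivity) hT 4).trans (pow_le_pow_right₀ (h1.trans hT) hk)
  have h3 : G ≤ G ^ 4 := le_self_pow₀ hG (by norm_num)
  have h4 : (1 / u ^ 4) ^ 3 * (G * u ^ 3) ^ 4 = G ^ 4 := by field_simp
  calc G ≤ (1 / u ^ 4) ^ 3 * (G * u ^ 3) ^ 4 := by rw [h4]; exact h3
    _ ≤ _ := mul_le_mul_of_nonneg_left h2 (by positivity)

theorem c2b_A {W x C₀ k : ℝ} {n : ℕ} (hW : 3 ≤ W) (hC : C₀ ≤ W) (hk : 2 * k ≤ W) (hx : 1 ≤ x) :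
    C₀ * x * W ^ n + 2 * k * x ≤ W ^ (n + 2) * x ∧
      2 * (W ^ (n + 2) * x) + 1 ≤ W ^ (n + 3) * x := by
  have h1 : 1 ≤ W ^ n := one_le_pow₀ (by linarith)
  rw [pow_add, pow_add]
  generalize W ^ n = w at h1
  have h2 : C₀ * w ≤ W * w := mul_le_mul_of_nonneg_right hC (by linarith)
  have h3 : W ≤ W * w := le_mul_of_one_le_right (by linarith) h1
  have h4 : 2 * (W * w) ≤ W * (W * w) := mul_le_mul_of_nonneg_right (by linarith) (by linarith)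
  have h5 : C₀ * w + 2 * k ≤ w * W ^ 2 := by nlinarith
  have h6 : 1 ≤ w * W ^ 2 * x :=
    one_le_mul_of_one_le_of_one_le (by nlinarith) hx
  have h7 : 3 * (w * W ^ 2 * x) ≤ W * (w * W ^ 2 * x) :=
    mul_le_mul_of_nonneg_right hW (by linarith)
  have h8 := mul_le_mul_of_nonneg_right h5 (show 0 ≤ x by linarith)
  constructor
  · linarith
  · linarith

/-- the count for one grid point -/
theorem c2b_rho {n K : ℕ} (hn : 5 ≤ n) {C₀ C₁ H W u : ℝ} {P₀ : ℤ[X] → Prop}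
    (hlf : ∀ (T B : ℝ) (g₁ g₂ : ℤ[X]) (P Q : ℤ[X] → Prop), 1 ≤ T → T ≤ H →
      g₁.natDegree < n → g₂.natDegree < n → Indep g₁ g₂ → g₁.supNorm ≤ T → g₂.supNorm ≤ T →
      (∀ f, P f → P₀ f) →
      (∀ f, P f → ∀ s t : ℤ, |(s : ℝ)| * T ≤ K * H → |(t : ℝ)| * T ≤ K * H →
        Q (f + C s * g₁ + C t * g₂)) → Cnt Q B → Cnt P (C₁ * W ^ 2 * B * T / H))
    (hP₀ : ∀ f, P₀ f → Box n H f) (hC₁ : 0 ≤ C₁) (hC₀ : 1 ≤ C₀) (hCW : C₀ ≤ W)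
    (hnW : 50 * ((n : ℝ) + 1) ^ 3 ≤ W) (hKW : 4 * K + 3 ≤ W) (hu : 1 ≤ u)
    (h1 : W ^ (4 * n + 2) * u ^ 3 ≤ H) (h2 : u ^ 8 ≤ H) (ρ : ℂ) (hρ : ‖ρ‖ ≤ C₀ * W) :
    Cnt (fun f => P₀ f ∧ ‖(up ℂ f).eval ρ‖ ≤ C₀ * (1 / u ^ 4) ^ 2 * H * W ^ n ∧
      ‖(derivative (up ℂ f)).eval ρ‖ ≤ C₀ * (1 / u ^ 4) * H * W ^ n)
      (C₁ * W ^ 2 * (W ^ n * H ^ (n - 2) * (W ^ (n + 3) * (1 / u ^ 4 * H)) *
        (W ^ (n + 3) * ((1 / u ^ 4) ^ 2 * H))) * (W ^ (4 * n + 2) * u ^ 3) / H) := by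
  have hK0 : (0 : ℝ) ≤ K := Nat.cast_nonneg K
  have hW3 : 3 ≤ W := by linarith
  have hW1 : 1 ≤ W := by linarith
  have hH1 : 1 ≤ H := (one_le_pow₀ hu).trans h2
  have hu4 : 1 ≤ u ^ 4 := one_le_pow₀ hu
  have hs0 : 0 < 1 / u ^ 4 := by positivity
  have hs1 : 1 / u ^ 4 ≤ 1 := (div_le_one (by positivity)).2 hu4
  have hx2 : 1 ≤ (1 / u ^ 4) ^ 2 * H := by
    have e : (1 / u ^ 4) ^ 2 * u ^ 8 = 1 := by field_simp
    rw [← e]
    exact mul_le_mul_of_nonneg_left h2 (by positivity) |>.trans (le_of_eq (by rw [e]))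
  have hx1 : 1 ≤ 1 / u ^ 4 * H := by
    refine hx2.trans (mul_le_mul_of_nonneg_right ?_ (by linarith))
    exact pow_le_of_le_one hs0.le hs1 two_ne_zero
  have hG : 1 ≤ W ^ (4 * n + 1) := one_le_pow₀ hW1
  have hGu : 1 ≤ W ^ (4 * n + 1) * u ^ 3 := one_le_mul_of_one_le_of_one_le hG (one_le_pow₀ hu)
  obtain ⟨T, hT1, hT2⟩ : ∃ T : ℕ, W ^ (4 * n + 1) * u ^ 3 ≤ T ∧
      (T : ℝ) ≤ W ^ (4 * n + 2) * u ^ 3 := by
    refine ⟨⌈W ^ (4 * n + 1) * u ^ 3⌉₊, Nat.le_ceil _, ?_⟩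
    have h3 := (Nat.ceil_lt_add_one (show 0 ≤ W ^ (4 * n + 1) * u ^ 3 by linarith)).le
    have h4 := mul_le_mul_of_nonneg_right hW3 (show 0 ≤ W ^ (4 * n + 1) * u ^ 3 by linarith)
    have e : W ^ (4 * n + 2) * u ^ 3 = W * (W ^ (4 * n + 1) * u ^ 3) := by ring
    rw [e]
    linarith
  have hT0 : (1 : ℝ) ≤ T := hGu.trans hT1
  have hV : 50 * ((n : ℝ) + 1) ^ 3 * (C₀ * W) ^ (2 * n) ≤ W ^ (4 * n + 1) := by
    have h3 : (C₀ * W) ^ (2 * n) ≤ (W * W) ^ (2 * n) :=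
      pow_le_pow_left₀ (by positivity) (mul_le_mul_of_nonneg_right hCW (by linarith)) _
    calc _ ≤ W * (W * W) ^ (2 * n) := mul_le_mul hnW h3 (by positivity) (by linarith)
      _ = W ^ (4 * n + 1) := by ring
  obtain ⟨g₁, g₂, d1, d2, hi, n1, n2, e1, e2, e3, e4⟩ := near_short n T (by omega) ρ (C₀ * W)
    (1 / u ^ 4) (one_le_mul_of_one_le_of_one_le hC₀ hW1) hρ hs0 hs1 (by exact_mod_cast hT0)
    (hV.trans (c2b_T hG hu hT1 (by omega)))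
  generalize 1 / u ^ 4 = s at *
  obtain ⟨a1, a2⟩ := c2b_A (n := n) (k := K) hW3 hCW (by linarith) hx1
  obtain ⟨b1, b2⟩ := c2b_A (n := n) (k := K) hW3 hCW (by linarith) hx2
  have hQ := cnt_near n (by omega) ρ (H + 2 * (K * H)) (W ^ (n + 2) * (s ^ 2 * H))
    (W ^ (n + 2) * (s * H)) (by positivity) (by positivity) (by positivity)
  have hR : (2 * (H + 2 * (K * H)) + 1) ^ (n - 2) ≤ W ^ n * H ^ (n - 2) := by
    have h3 := mul_le_mul_of_nonneg_right hKW (show 0 ≤ H by linarith)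
    calc _ ≤ (W * H) ^ (n - 2) := pow_le_pow_left₀ (by positivity) (by linarith) _
      _ = W ^ (n - 2) * H ^ (n - 2) := mul_pow _ _ _
      _ ≤ _ := mul_le_mul_of_nonneg_right (pow_le_pow_right₀ hW1 (Nat.sub_le _ _))
        (by positivity)
  refine (hlf T _ g₁ g₂ _ _ hT0 (hT2.trans h1) d1 d2 hi n1 n2 (fun f hf => hf.1) ?_ hQ).mono
    (fun _ h => h) ?_
  · rintro f ⟨hf, f1, f2⟩ c t hc ht
    obtain ⟨hm, hd, -, hs⟩ := hP₀ f hf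
    obtain ⟨m1, m2⟩ := monic_add_line hm hd d1 d2 c t
    obtain ⟨l1, l2⟩ := c2b_line f g₁ g₂ ρ c t
    refine ⟨m1, m2, sup_add_line hs n1 n2 hc ht, ?_, ?_⟩
    · rw [l1]
      refine (c2b_abs ((Complex.abs_re_le_norm _).trans f1) e1 e2 hc ht (by positivity)).trans ?_
      linarith
    · rw [l2]
      refine (c2b_abs ((Complex.abs_re_le_norm _).trans f2) e3 e4 hc ht hs0.le).trans ?_
      linarith
  · gcongr

/-- 6.2 -/
theorem ps_c2 (n : ℕ) (hn : 5 ≤ n) (η : ℝ) (hη : 0 < η) : ∃ κ : ℝ, 0 < κ ∧ κ ≤ η ∧ κ ≤ 1 ∧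
    PS n fun H f => Bad n f ∧ Tiny κ H f ∧ H ^ (1 - κ) ≤ |((f.coeff (n - 1) : ℤ) : ℝ)| ∧
      |((Dv n f : ℤ) : ℝ)| < H ^ (2 * (n : ℝ) - 2 - η) := by
  obtain ⟨K, hK⟩ := lf0 n hn
  obtain ⟨C₀, hC₀, hcr⟩ := close_roots n hn
  obtain ⟨E, hE⟩ : ∃ E : ℕ, E = 1 + 2 * n + (7 * n + 17) * 4 * n ^ 2 := ⟨_, rfl⟩
  have hE1 : (1 : ℝ) ≤ E := by exact_mod_cast (show 1 ≤ E by omega)
  have hmin : 0 < min 1 η := lt_min one_pos hη
  obtain ⟨a, ha0, haE⟩ : ∃ a : ℝ, 0 < a ∧ a * E = min 1 η :=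
    ⟨min 1 η / E, by positivity, by field_simp⟩
  have ha : a ≤ min 1 η := haE ▸ le_mul_of_one_le_right ha0.le hE1
  obtain ⟨C₁, hC₁, hlf⟩ := hK a ha0
  obtain ⟨H₀, hH₀, hbig⟩ := exists_pow_ge (C₀ + 50 * ((n : ℝ) + 1) ^ 3 + (4 * K + 3)) a ha0
  refine ⟨a, ha0, ha.trans (min_le_right _ _), ha.trans (min_le_left _ _),
    PS.of_lt (n - 1 - a) C₁ H₀ (by linarith) fun H hH => ?_⟩
  have hH1 : 1 ≤ H := hH₀.trans hH
  have hH0 : 0 < H := by linarith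
  obtain ⟨W, hW⟩ : ∃ W, W = H ^ a := ⟨_, rfl⟩
  have hb := hbig H hH
  rw [← hW] at hb
  have hn3 : 0 ≤ 50 * ((n : ℝ) + 1) ^ 3 := by positivity
  have hK0 : (0 : ℝ) ≤ K := Nat.cast_nonneg K
  have hCW : C₀ ≤ W := by linarith
  have hW3 : 3 ≤ W := by linarith
  have hW1 : 1 ≤ W := by linarith
  have hWE : W ^ E = H ^ min 1 η := by
    rw [hW, ← Real.rpow_natCast, ← Real.rpow_mul hH0.le, haE]
  have hWH : W ^ E ≤ H := by
    rw [hWE]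
    exact (Real.rpow_le_rpow_of_exponent_le hH1 (min_le_left _ _)).trans_eq (Real.rpow_one H)
  have hWη : W ^ E ≤ H ^ η := hWE ▸ Real.rpow_le_rpow_of_exponent_le hH1 (min_le_right _ _)
  have hle : ∀ k : ℕ, k ≤ E → W ^ k ≤ H := fun k hk => (pow_le_pow_right₀ hW1 hk).trans hWH
  have hn2 : 25 ≤ n ^ 2 := by nlinarith
  have hEn : (7 * n + 17) * 4 * 25 ≤ E := by
    have := Nat.mul_le_mul_left ((7 * n + 17) * 4) hn2
    omega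
  have r1 : H ^ (1 - a) = H / W := by rw [Real.rpow_sub hH0, Real.rpow_one, hW]
  have r2 : H ^ (a + a) = W ^ 2 := by rw [Real.rpow_add hH0, hW, sq]
  have r3 : H ^ ((n : ℝ) - 1 - a) = H ^ (n - 2) * H / W := by
    have e : (n : ℝ) - 1 = ((n - 2 + 1 : ℕ) : ℝ) := by
      rw [Nat.cast_add, Nat.cast_sub (by omega)]
      push_cast
      ring
    rw [Real.rpow_sub hH0, e, Real.rpow_natCast, pow_succ, hW]
  have r4 : H ^ (2 * (n : ℝ) - 2 - η) = H ^ (2 * n - 2) / H ^ η := by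
    have e : 2 * (n : ℝ) - 2 = ((2 * n - 2 : ℕ) : ℝ) := by
      rw [Nat.cast_sub (by omega)]
      push_cast
      ring
    rw [Real.rpow_sub hH0, e, Real.rpow_natCast]
  obtain ⟨u, hu⟩ : ∃ u, u = W ^ (7 * n + 17) := ⟨_, rfl⟩
  have hu1 : 1 ≤ u := hu ▸ one_le_pow₀ hW1
  have h1 : W ^ (4 * n + 2) * u ^ 3 ≤ H := by
    rw [hu, ← pow_mul, ← pow_add]
    exact hle _ (by omega)
  have h2 : u ^ 8 ≤ H := by
    rw [hu, ← pow_mul]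
    exact hle _ (by omega)
  have h3 : C₀ * W ^ 2 ≤ H := by
    refine (mul_le_mul_of_nonneg_right hCW (by positivity)).trans ?_
    rw [← pow_succ']
    exact hle _ (by omega)
  have h4 : C₀ * W ^ (2 * n) * (u ^ 4) ^ (n ^ 2) ≤ H ^ η := by
    refine le_trans ?_ hWη
    rw [hE, pow_add, pow_add, pow_one, hu, ← pow_mul, ← pow_mul, ← mul_assoc (7 * n + 17)]
    gcongr
  have hs0 : 0 < 1 / u ^ 4 := by positivity
  have hs1 : 1 / u ^ 4 ≤ 1 := (div_le_one (by positivity)).2 (one_le_pow₀ hu1)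
  have hrho := c2b_rho (K := K) (C₁ := C₁) (P₀ := fun f => Box n H f ∧ Bad n f ∧ Tiny a H f) hn
    (fun T B g₁ g₂ P Q t1 t2 d1 d2 hi n1 n2 p1 p2 p3 => r2 ▸ hlf H a T B g₁ g₂ P Q ha0.le
      (ha.trans (min_le_left _ _)) t1 t2 d1 d2 hi n1 n2 p1 p2 p3)
    (fun _ hf => hf.1) (by linarith) hC₀ hCW (by linarith) (by linarith) hu1 h1 h2
  have hR0 : 0 ≤ C₀ * W / (1 / u ^ 4) := by positivity
  have hI : Cnt (fun t : ℤ => |(t : ℝ)| ≤ C₀ * W / (1 / u ^ 4)) (W ^ 3 * u ^ 4) := by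
    refine (cnt_int_abs _ hR0).mono (fun _ h => h) ?_
    rw [div_div_eq_mul_div, div_one]
    have h5 : C₀ * W * u ^ 4 ≤ W * W * u ^ 4 := by gcongr
    have h6 : 1 ≤ W * W * u ^ 4 :=
      one_le_mul_of_one_le_of_one_le (one_le_mul_of_one_le_of_one_le hW1 hW1) (one_le_pow₀ hu1)
    have h7 := mul_le_mul_of_nonneg_right hW3 (show 0 ≤ W * W * u ^ 4 by linarith)
    have e : W ^ 3 * u ^ 4 = W * (W * W * u ^ 4) := by ring
    rw [e]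
    linarith
  have hZ : Cnt (fun z : ℤ × ℤ => (|(z.1 : ℝ)| ≤ C₀ * W / (1 / u ^ 4) ∧
      |(z.2 : ℝ)| ≤ C₀ * W / (1 / u ^ 4)) ∧
      ‖((1 / u ^ 4 : ℝ) : ℂ) * (z.1 + z.2 * Complex.I)‖ ≤ C₀ * W)
      (W ^ 3 * u ^ 4 * (W ^ 3 * u ^ 4)) :=
    (hI.prod hI.nonneg fun _ _ => hI).mono (fun _ h => h.1) le_rfl
  refine (hZ.fibre (by positivity) fun z hz => hrho _ hz.2).mono ?_ (le_of_eq ?_)
  · rintro f ⟨hB, hbad, hti, hc, hD⟩
    rw [r1] at hc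
    rw [r4, lt_div_iff₀ (by positivity)] at hD
    have h5 : C₀ * W ^ (2 * n) * |((Dv n f : ℤ) : ℝ)| < H ^ (2 * n - 2) * (1 / u ^ 4) ^ n ^ 2 := by
      rw [one_div, inv_pow, ← div_eq_mul_inv, lt_div_iff₀ (by positivity)]
      have h6 := mul_le_mul_of_nonneg_left h4 (abs_nonneg ((Dv n f : ℤ) : ℝ))
      linarith
    obtain ⟨x, y, c1, c2, c3, c4, c5⟩ := hcr H W (1 / u ^ 4) f hB.1 hB.2.1 hB.2.2.2 hW1 h3 hs0
      hs1 hc h5
    exact ⟨(x, y), ⟨⟨c1, c2⟩, c3⟩, ⟨hB, hbad, hti⟩, c4, c5⟩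
  · have e1 : u = (W ^ n) ^ 7 * W ^ 17 := by rw [hu]; ring
    have e2 : W ^ (4 * n + 2) = (W ^ n) ^ 4 * W ^ 2 := by ring
    have hw : 0 < W ^ n := by positivity
    rw [r3, e2, pow_add W n 3]
    generalize W ^ n = w at e1 hw
    generalize H ^ (n - 2) = p
    have e3 : W ^ 3 * u ^ 4 * (W ^ 3 * u ^ 4) * (C₁ * W ^ 2 * (w * p * (w * W ^ 3 *
        (1 / u ^ 4 * H)) * (w * W ^ 3 * ((1 / u ^ 4) ^ 2 * H))) * (w ^ 4 * W ^ 2 * u ^ 3) / H)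
        = C₁ * p * H * (w ^ 7 * W ^ 16) / u := by field_simp
    rw [e3, e1]
    field_simp

end Pool.Agent.VW
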