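import Pool.Agent.P.MP_b0ea37_nt.WDefs

namespace Pool.Agent.VW

open Polynomial

section general
variable {A : Type} [NormedCommRing A]

theorem sup_le_iff {g : A[X]} {B : ℝ} : g.supNorm ≤ B ↔ ∀ i, ‖g.coeff i‖ ≤ B :=
  ⟨fun h i => (g.le_supNorm i).trans h, fun h => by
    obtain ⟨i, hi⟩ := g.exists_eq_supNorm
    rw [hi]; exact h i⟩

theorem sup_neg (g : A[X]) : (-g).supNorm = g.supNorm :=
  le_antisymm (sup_le_iff.2 fun i => by simpa using g.le_supNorm i)
    (sup_le_iff.2 fun i => by simpa using (-g).le_supNorm i)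

theorem sup_add_le (g h : A[X]) : (g + h).supNorm ≤ g.supNorm + h.supNorm :=
  sup_le_iff.2 fun i => by
    rw [coeff_add]; exact (norm_add_le _ _).trans (add_le_add (g.le_supNorm i) (h.le_supNorm i))

theorem sup_sub_le (g h : A[X]) : (g - h).supNorm ≤ g.supNorm + h.supNorm :=
  sup_le_iff.2 fun i => by
    rw [coeff_sub]; exact (norm_sub_le _ _).trans (add_le_add (g.le_supNorm i) (h.le_supNorm i))

theorem sup_sum_le {ι : Type} (s : Finset ι) (g : ι → A[X]) :
    (∑ i ∈ s, g i).supNorm ≤ ∑ i ∈ s, (g i).supNorm :=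
  sup_le_iff.2 fun i => by
    rw [finsetSum_coeff]
    exact (norm_sum_le _ _).trans (Finset.sum_le_sum fun j _ => (g j).le_supNorm i)

theorem sup_C_mul_le (a : A) (g : A[X]) : (C a * g).supNorm ≤ ‖a‖ * g.supNorm :=
  sup_le_iff.2 fun i => by
    rw [coeff_C_mul]
    exact (norm_mul_le _ _).trans (mul_le_mul_of_nonneg_left (g.le_supNorm i) (norm_nonneg _))

theorem wht_X_pow (h : A[X]) (i : ℕ) : (h * X ^ i).supNorm ≤ h.supNorm :=
  sup_le_iff.2 fun j => by
    rw [coeff_mul_X_pow']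
    split_ifs
    exacts [h.le_supNorm _, by simpa using h.supNorm_nonneg]

theorem wht_lin (t : A) (h : A[X]) : ((X - C t) * h).supNorm ≤ (1 + ‖t‖) * h.supNorm := by
  have e : (X - C t) * h = h * X ^ 1 - C t * h := by ring
  rw [e, add_mul, one_mul]
  exact (sup_sub_le _ _).trans (add_le_add (wht_X_pow h 1) (sup_C_mul_le t h))

theorem wht_map {A' : Type} [NormedCommRing A'] (φ : A →+* A') (hφ : ∀ a, ‖φ a‖ = ‖a‖)
    (g : A[X]) : (g.map φ).supNorm = g.supNorm :=
  le_antisymm (sup_le_iff.2 fun i => by rw [coeff_map, hφ]; exact g.le_supNorm i)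
    (sup_le_iff.2 fun i => by rw [← hφ, ← coeff_map]; exact (g.map φ).le_supNorm i)

theorem sup_mul_le (g h : A[X]) {m : ℕ} (hm : g.natDegree ≤ m) :
    (g * h).supNorm ≤ (m + 1) * (g.supNorm * h.supNorm) := by
  have hg : g = ∑ i ∈ Finset.range (m + 1), C (g.coeff i) * X ^ i := by
    conv_lhs => rw [g.as_sum_range' (m + 1) (by omega)]
    simp only [C_mul_X_pow_eq_monomial]
  have e : g * h = ∑ i ∈ Finset.range (m + 1), C (g.coeff i) * (h * X ^ i) := by
    conv_lhs => rw [hg, Finset.sum_mul]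
    exact Finset.sum_congr rfl fun i _ => by ring
  rw [e]
  refine (sup_sum_le _ _).trans ((Finset.sum_le_card_nsmul _ _ (g.supNorm * h.supNorm)
    fun i _ => ?_).trans (by simp))
  exact (sup_C_mul_le _ _).trans (mul_le_mul (g.le_supNorm i) (wht_X_pow h i)
    (supNorm_nonneg _) (supNorm_nonneg _))

theorem sup_derivative_le [NormOneClass A] (g : A[X]) {m : ℕ} (hm : g.natDegree ≤ m) :
    (derivative g).supNorm ≤ m * g.supNorm :=
  sup_le_iff.2 fun i => by
    rw [coeff_derivative]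
    by_cases hi : i + 1 ≤ m
    · refine (norm_mul_le _ _).trans ?_
      rw [mul_comm]
      refine mul_le_mul ?_ (g.le_supNorm _) (norm_nonneg _) (Nat.cast_nonneg _)
      rw [← Nat.cast_succ]
      exact (Nat.norm_cast_le _).trans (by rw [norm_one, mul_one]; exact_mod_cast hi)
    · rw [coeff_eq_zero_of_natDegree_lt (by omega), zero_mul, norm_zero]
      exact mul_nonneg (Nat.cast_nonneg _) g.supNorm_nonneg

theorem norm_eval_le [NormOneClass A] (g : A[X]) {m : ℕ} (hm : g.natDegree ≤ m) (z : A) :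
    ‖g.eval z‖ ≤ (m + 1) * g.supNorm * (max 1 ‖z‖) ^ m := by
  rw [eval_eq_sum_range' (n := m + 1) (by omega)]
  refine (norm_sum_le _ _).trans ((Finset.sum_le_card_nsmul _ _ (g.supNorm * max 1 ‖z‖ ^ m)
    fun i hi => ?_).trans (by simp [mul_assoc]))
  refine (norm_mul_le _ _).trans (mul_le_mul (g.le_supNorm i) ?_ (norm_nonneg _) g.supNorm_nonneg)
  exact (norm_pow_le z i).trans ((pow_le_pow_left₀ (norm_nonneg _) (le_max_right 1 _) i).trans
    (pow_le_pow_right₀ (le_max_left _ _) (by rw [Finset.mem_range] at hi; omega)))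

theorem norm_resultant_le [NormOneClass A] (f g : A[X]) (m n : ℕ) :
    ‖resultant f g m n‖ ≤ (m + n).factorial * f.supNorm ^ n * g.supNorm ^ m := by
  rw [resultant, Matrix.det_apply', mul_assoc]
  refine (norm_sum_le _ _).trans ((Finset.sum_le_card_nsmul _ _ (f.supNorm ^ n * g.supNorm ^ m)
    fun σ _ => ?_).trans (by simp [Fintype.card_perm]))
  have h1 : ‖((Equiv.Perm.sign σ : ℤ) : A)‖ = 1 := by
    rcases Int.units_eq_one_or (Equiv.Perm.sign σ) with h | h <;> simp [h]
  refine (norm_mul_le _ _).trans ?_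
  rw [h1, one_mul]
  refine (Finset.norm_prod_le _ _).trans ?_
  rw [Fin.prod_univ_add, mul_comm]
  refine mul_le_mul ((Finset.prod_le_prod (g := fun _ => f.supNorm) (fun _ _ => norm_nonneg _)
    fun j _ => ?_).trans (by simp)) ((Finset.prod_le_prod (g := fun _ => g.supNorm)
    (fun _ _ => norm_nonneg _) fun j _ => ?_).trans (by simp))
    (Finset.prod_nonneg fun _ _ => norm_nonneg _) (pow_nonneg f.supNorm_nonneg _)
  · simp only [sylvester, Matrix.of_apply, Fin.addCases_right]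
    split_ifs
    exacts [f.le_supNorm _, by simpa using f.supNorm_nonneg]
  · simp only [sylvester, Matrix.of_apply, Fin.addCases_left]
    split_ifs
    exacts [g.le_supNorm _, by simpa using g.supNorm_nonneg]

theorem sup_prod_X_sub_C [NormOneClass A] {ι : Type} (s : Finset ι) (θ : ι → A) :
    (∏ i ∈ s, (X - C (θ i))).supNorm ≤ 2 ^ s.card * ∏ i ∈ s, max 1 ‖θ i‖ := by
  classical
  induction s using Finset.induction_on with
  | empty => rw [Finset.prod_empty, ← C_1, supNorm_C]; simp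
  | insert a s ha ih =>
    rw [Finset.prod_insert ha, Finset.prod_insert ha, Finset.card_insert_of_notMem ha]
    refine (wht_lin _ _).trans ?_
    have h0 := (∏ i ∈ s, (X - C (θ i))).supNorm_nonneg
    have h1 : 1 + ‖θ a‖ ≤ 2 * max 1 ‖θ a‖ := by
      linarith [le_max_left 1 ‖θ a‖, le_max_right 1 ‖θ a‖]
    refine (mul_le_mul h1 ih h0 (by positivity)).trans (le_of_eq (by ring))

/-- coefficient `card - k` of a monic product with roots of size at most `R` -/
theorem norm_coeff_prod_le [NormOneClass A] {n : ℕ} (θ : Fin n → A) (R : ℝ) (hR : ∀ i, ‖θ i‖ ≤ R)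
    (k : ℕ) (hk : k ≤ n) : ‖(∏ i, (X - C (θ i))).coeff (n - k)‖ ≤ 2 ^ n * R ^ k := by
  classical
  have e : (∏ i, (X - C (θ i))) = ∏ i, (X + C (-θ i)) := by simp [sub_eq_add_neg]
  rw [e, Finset.prod_X_add_C_coeff _ _ (by simp), Finset.card_univ, Fintype.card_fin,
    Nat.sub_sub_self hk]
  rcases Nat.eq_zero_or_pos k with rfl | hk0
  · simpa using one_le_pow₀ (by norm_num)
  have hR0 : 0 ≤ R := (norm_nonneg _).trans (hR ⟨0, by omega⟩)
  refine (norm_sum_le _ _).trans ((Finset.sum_le_card_nsmul _ _ (R ^ k) fun t ht => ?_).trans ?_)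
  · refine (Finset.norm_prod_le _ _).trans ((Finset.prod_le_prod (g := fun _ => R)
      (fun _ _ => norm_nonneg _) fun j _ => by simpa using hR j).trans ?_)
    rw [Finset.prod_const, (Finset.mem_powersetCard.1 ht).2]
  · rw [nsmul_eq_mul, Finset.card_powersetCard, Finset.card_univ, Fintype.card_fin]
    gcongr
    exact_mod_cast Nat.choose_le_two_pow n k

theorem sup_prod_sub_prod [NormOneClass A] {n : ℕ} (θ θ' : Fin n → A) (l : ℝ) (hl0 : 0 ≤ l)
    (hl : l ≤ 1) (h : ∀ i, ‖θ i - θ' i‖ ≤ l * max 1 ‖θ i‖) :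
    (∏ i, (X - C (θ i)) - ∏ i, (X - C (θ' i))).supNorm ≤ n * 4 ^ n * l * ∏ i, max 1 ‖θ i‖ := by
  classical
  have key : ∀ s : Finset (Fin n), (∏ i ∈ s, (X - C (θ i)) - ∏ i ∈ s, (X - C (θ' i))).supNorm ≤
      s.card * 4 ^ s.card * l * ∏ i ∈ s, max 1 ‖θ i‖ := by
    intro s
    induction s using Finset.induction_on with
    | empty => simp
    | insert a s ha ih =>
      rw [Finset.prod_insert ha, Finset.prod_insert ha, Finset.prod_insert ha,
        Finset.card_insert_of_notMem ha]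
      have e : (X - C (θ a)) * ∏ i ∈ s, (X - C (θ i)) - (X - C (θ' a)) * ∏ i ∈ s, (X - C (θ' i)) =
          (X - C (θ' a)) * (∏ i ∈ s, (X - C (θ i)) - ∏ i ∈ s, (X - C (θ' i))) -
            C (θ a - θ' a) * ∏ i ∈ s, (X - C (θ i)) := by
        rw [C_sub]; ring
      have m1 := le_max_left 1 ‖θ a‖
      have m2 := le_max_right 1 ‖θ a‖
      have h1 : 1 + ‖θ' a‖ ≤ 4 * max 1 ‖θ a‖ := by
        have := norm_sub_norm_le (θ' a) (θ a)
        rw [norm_sub_rev] at this
        nlinarith [h a]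
      have h2 := (wht_lin (θ' a) _).trans (mul_le_mul h1 ih (supNorm_nonneg _) (by positivity))
      have hp : 0 ≤ ∏ i ∈ s, max 1 ‖θ i‖ := Finset.prod_nonneg fun _ _ => by positivity
      have h3 := (sup_C_mul_le (θ a - θ' a) _).trans (mul_le_mul (h a) (sup_prod_X_sub_C s θ)
        (supNorm_nonneg _) (by positivity))
      have h4 : (2 : ℝ) ^ s.card ≤ 4 ^ (s.card + 1) :=
        (pow_le_pow_left₀ (by norm_num) (by norm_num) _).trans
          (pow_le_pow_right₀ (by norm_num) (Nat.le_succ _))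
      have h5 := mul_le_mul_of_nonneg_right h4 (show 0 ≤ l * max 1 ‖θ a‖ * ∏ i ∈ s, max 1 ‖θ i‖ by
        positivity)
      rw [e]
      refine (sup_sub_le _ _).trans ?_
      push_cast
      rw [pow_succ] at h5 ⊢
      nlinarith
  simpa using key Finset.univ

end general

theorem sup_up_complex (g : ℤ[X]) : (up ℂ g).supNorm = g.supNorm :=
  wht_map _ (fun a => by simp [Int.norm_eq_abs]) g

theorem sup_up_rat (g : ℤ[X]) : (up ℚ g).supNorm = g.supNorm :=
  wht_map _ Int.norm_cast_rat g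

theorem sup_map_rat (g : ℚ[X]) : (g.map (algebraMap ℚ ℂ)).supNorm = g.supNorm :=
  wht_map _ (fun a => by rw [eq_ratCast, Complex.norm_ratCast, ← Rat.norm_cast_real]; rfl) g

theorem one_le_sup {g : ℤ[X]} (hg : g ≠ 0) : 1 ≤ g.supNorm :=
  le_trans (by
    rw [Int.norm_eq_abs]
    exact_mod_cast Int.one_le_abs (leadingCoeff_ne_zero.2 hg)) (g.le_supNorm g.natDegree)

theorem sup_C_mul_int (a : ℤ) (g : ℤ[X]) : (C a * g).supNorm = |(a : ℝ)| * g.supNorm := by
  refine le_antisymm (sup_C_mul_le a g) ?_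
  obtain ⟨i, hi⟩ := g.exists_eq_supNorm
  have := (C a * g).le_supNorm i
  rwa [coeff_C_mul, norm_mul, ← hi] at this

/-- the height of a nonzero integer polynomial is a natural number -/
theorem sup_eq_nat (g : ℤ[X]) : ∃ k : ℕ, g.supNorm = k := by
  obtain ⟨i, hi⟩ := g.exists_eq_supNorm
  exact ⟨(g.coeff i).natAbs, by rw [hi, Int.norm_eq_abs, Nat.cast_natAbs, Int.cast_abs]⟩

theorem wht_mahler (p : ℂ[X]) {m : ℕ} (hm : p.natDegree ≤ m) :
    p.mahlerMeasure ≤ (m + 1) * p.supNorm := by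
  refine p.mahlerMeasure_le_sqrt_natDegree_add_one_mul_supNorm.trans
    (mul_le_mul_of_nonneg_right ?_ p.supNorm_nonneg)
  have h1 : (p.natDegree : ℝ) ≤ m := by exact_mod_cast hm
  have h2 : (0 : ℝ) ≤ p.natDegree := Nat.cast_nonneg _
  exact Real.sqrt_le_iff.2 ⟨by positivity, by nlinarith⟩

theorem gelfond_complex (g h : ℂ[X]) {m : ℕ} (hm : (g * h).natDegree ≤ m) :
    g.supNorm * h.supNorm ≤ 4 ^ m * (g * h).supNorm := by
  by_cases hg : g = 0
  · simp [hg]
  by_cases hh : h = 0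
  · simp [hh]
  have key : ∀ p : ℂ[X], p.supNorm ≤ 2 ^ p.natDegree * p.mahlerMeasure := fun p =>
    p.supNorm_le_choose_natDegree_div_two_mul_mahlerMeasure.trans
      (mul_le_mul_of_nonneg_right (by exact_mod_cast Nat.choose_le_two_pow _ _)
        p.mahlerMeasure_nonneg)
  have h1 := mul_le_mul (key g) (key h) h.supNorm_nonneg
    (mul_nonneg (by positivity) g.mahlerMeasure_nonneg)
  have h2 := wht_mahler (g * h) hm
  have h3 : (m + 1 : ℝ) ≤ 2 ^ m := by exact_mod_cast Nat.lt_two_pow_self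
  have h4 : (2 : ℝ) ^ g.natDegree * 2 ^ h.natDegree ≤ 2 ^ m := by
    rw [← pow_add, ← natDegree_mul hg hh]; exact pow_le_pow_right₀ (by norm_num) hm
  have h0 := (g * h).supNorm_nonneg
  calc _ ≤ (2 ^ g.natDegree * 2 ^ h.natDegree) * (g * h).mahlerMeasure := by
        rw [mahlerMeasure_mul]; linarith
    _ ≤ 2 ^ m * (2 ^ m * (g * h).supNorm) :=
        mul_le_mul h4 (h2.trans (by gcongr)) (mahlerMeasure_nonneg _) (by positivity)
    _ = _ := by rw [← mul_assoc, ← mul_pow]; norm_num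

theorem gelfond_rat (g h : ℚ[X]) {m : ℕ} (hm : (g * h).natDegree ≤ m) :
    g.supNorm * h.supNorm ≤ 4 ^ m * (g * h).supNorm := by
  have := gelfond_complex (g.map (algebraMap ℚ ℂ)) (h.map (algebraMap ℚ ℂ)) (m := m) (by
    rw [← Polynomial.map_mul]; exact natDegree_map_le.trans hm)
  rwa [← Polynomial.map_mul, sup_map_rat, sup_map_rat, sup_map_rat] at this

theorem gelfond (g h : ℤ[X]) {m : ℕ} (hm : (g * h).natDegree ≤ m) :
    g.supNorm * h.supNorm ≤ 4 ^ m * (g * h).supNorm := by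
  have := gelfond_complex (up ℂ g) (up ℂ h) (m := m) (by
    rw [← Polynomial.map_mul]; exact natDegree_map_le.trans hm)
  rwa [← Polynomial.map_mul, sup_up_complex, sup_up_complex, sup_up_complex] at this

theorem sup_le_of_dvd {g h : ℤ[X]} (hh : h ≠ 0) (hd : g ∣ h) {m : ℕ} (hm : h.natDegree ≤ m) :
    g.supNorm ≤ 4 ^ m * h.supNorm := by
  obtain ⟨v, rfl⟩ := hd
  exact (le_mul_of_one_le_right g.supNorm_nonneg (one_le_sup (right_ne_zero_of_mul hh))).trans
    (gelfond g v hm)

theorem wht_roots {K : Type} [Field K] [IsAlgClosed K] {n : ℕ} (f : K[X])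
    (hn : f.natDegree = n) : ∃ θ : Fin n → K, f = C f.leadingCoeff * ∏ i, (X - C (θ i)) := by
  have hs := IsAlgClosed.splits f
  have hc : f.roots.toList.length = n := by
    rw [Multiset.length_toList, ← hn, hs.natDegree_eq_card_roots]
  subst hc
  refine ⟨f.roots.toList.get, ?_⟩
  conv_lhs => rw [hs.eq_prod_roots, ← Multiset.coe_toList f.roots]
  rw [Multiset.map_coe, Multiset.prod_coe, ← Fin.prod_univ_fun_getElem]
  rfl

theorem exists_roots {K : Type} [Field K] [IsAlgClosed K] {n : ℕ} (f : K[X]) (hf : f.Monic)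
    (hn : f.natDegree = n) : ∃ θ : Fin n → K, Roots f θ := by
  obtain ⟨θ, h⟩ := wht_roots f hn
  exact ⟨θ, by rwa [hf.leadingCoeff, C_1, one_mul] at h⟩

/-- roots of a polynomial that need not be monic -/
theorem exists_roots' {K : Type} [Field K] [IsAlgClosed K] {n : ℕ} (f : K[X])
    (hn : f.natDegree = n) : ∃ θ : Fin n → K, f = C f.leadingCoeff * ∏ i, (X - C (θ i)) :=
  wht_roots f hn

theorem Roots.eval_eq_zero_iff {K : Type} [CommRing K] [IsDomain K] {n : ℕ} {f : K[X]}
    {θ : Fin n → K} (h : Roots f θ) (z : K) : f.eval z = 0 ↔ ∃ i, z = θ i := by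
  rw [show f = _ from h, eval_prod, Finset.prod_eq_zero_iff]
  simp [sub_eq_zero]

theorem Roots.injective {K : Type} [Field K] [CharZero K] {n : ℕ} {f : ℤ[X]} {θ : Fin n → K}
    (h : Roots (up K f) θ) (hf : Irr f) : Function.Injective θ := by
  have h1 := (Irreducible.separable hf).map (f := algebraMap ℚ K)
  rw [Polynomial.map_map, RingHom.ext_int ((algebraMap ℚ K).comp _) (Int.castRingHom K)] at h1
  exact separable_prod_X_sub_C_iff.1 (by rw [← show up K f = _ from h]; exact h1)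

theorem prod_max_le {n : ℕ} (c : ℂ) (θ : Fin n → ℂ) :
    ‖c‖ * ∏ i, max 1 ‖θ i‖ ≤ (n + 1) * (C c * ∏ i, (X - C (θ i))).supNorm := by
  have h1 : (C c * ∏ i, (X - C (θ i))).mahlerMeasure = ‖c‖ * ∏ i, max 1 ‖θ i‖ := by
    rw [mahlerMeasure_mul, mahlerMeasure_const, Finset.prod_eq_multiset_prod,
      prod_mahlerMeasure_eq_mahlerMeasure_prod, Multiset.map_map, Finset.prod_eq_multiset_prod]
    simp
  rw [← h1]
  refine wht_mahler _ ((natDegree_C_mul_le _ _).trans ?_)
  rw [natDegree_prod_of_monic _ _ fun i _ => monic_X_sub_C _]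
  simp

theorem Roots.prod_max_le {n : ℕ} {f : ℤ[X]} {θ : Fin n → ℂ} (h : Roots (up ℂ f) θ) :
    ∏ i, max 1 ‖θ i‖ ≤ (n + 1) * f.supNorm := by
  have := Pool.Agent.VW.prod_max_le 1 θ
  rwa [norm_one, one_mul, C_1, one_mul, ← show up ℂ f = _ from h, sup_up_complex] at this

theorem resultant_roots {K : Type} [Field K] {n : ℕ} (c : K) (hc : c ≠ 0) (θ : Fin n → K) (g : K[X])
    (m : ℕ) (hm : g.natDegree ≤ m) :
    resultant (C c * ∏ i, (X - C (θ i))) g n m = c ^ m * ∏ i, g.eval (θ i) := by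
  have hmon : (∏ i, (X - C (θ i))).Monic := monic_prod_of_monic _ _ fun i _ => monic_X_sub_C _
  have hd : (∏ i, (X - C (θ i))).natDegree = n := by
    rw [natDegree_prod_of_monic _ _ fun i _ => monic_X_sub_C _]; simp
  have := resultant_prod_left Finset.univ (fun i => X - C (θ i)) g m (by simp) hm
  rw [hd] at this
  rw [resultant_C_mul_left, this]
  congr 1
  exact Finset.prod_congr rfl fun i _ => by rw [natDegree_X_sub_C, resultant_X_sub_C_left _ _ _ hm]

/-- complex conjugation permutes the roots of a real separable polynomial -/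
theorem exists_conj {n : ℕ} (θ : Fin n → ℂ) (hθ : Function.Injective θ)
    (h : (∏ i, (X - C (θ i))).map (starRingEnd ℂ) = ∏ i, (X - C (θ i))) :
    ∃ s : Equiv.Perm (Fin n), (∀ i, s (s i) = i) ∧ ∀ i, θ (s i) = starRingEnd ℂ (θ i) := by
  have h1 : ∀ i, ∃ j, θ j = starRingEnd ℂ (θ i) := by
    intro i
    have : (∏ j, (X - C (θ j))).eval (starRingEnd ℂ (θ i)) = 0 := by
      rw [← h, eval_map, eval₂_hom, (Roots.eval_eq_zero_iff rfl _).2 ⟨i, rfl⟩, map_zero]
    obtain ⟨j, hj⟩ := (Roots.eval_eq_zero_iff rfl _).1 this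
    exact ⟨j, hj.symm⟩
  choose s hs using h1
  have h2 : ∀ i, s (s i) = i := fun i => hθ (by rw [hs, hs, Complex.conj_conj])
  exact ⟨Function.Involutive.toPerm s h2, h2, hs⟩

/-- an irreducible polynomial divides every rational polynomial vanishing at one of its roots -/
theorem Irr.dvd_of_root {f : ℤ[X]} (hf : Irr f) {K : Type} [Field K] [Algebra ℚ K] {z : K}
    (hz : aeval z (up ℚ f) = 0) {q : ℚ[X]} (hq : aeval z q = 0) : up ℚ f ∣ q := by
  by_contra hd
  obtain ⟨a, b, hab⟩ := (Irreducible.coprime_iff_not_dvd hf).2 hd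
  have := congrArg (aeval z) hab
  simp [hz, hq] at this

theorem Irr.resultant_ne_zero {f : ℤ[X]} (hf : Irr f) {g : ℤ[X]} (hg : g ≠ 0)
    (hlt : g.natDegree < f.natDegree) : resultant g f ≠ 0 := by
  have hi := (Int.castRingHom ℚ).injective_int
  have hc : IsCoprime (up ℚ f) (up ℚ g) := (Irreducible.coprime_iff_not_dvd hf).2 fun hd => by
    have := natDegree_le_of_dvd hd ((Polynomial.map_ne_zero_iff hi).2 hg)
    rw [natDegree_map_eq_of_injective hi, natDegree_map_eq_of_injective hi] at this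
    omega
  have := Polynomial.resultant_ne_zero _ _ hc.symm
  rw [natDegree_map_eq_of_injective hi, natDegree_map_eq_of_injective hi, resultant_map_map] at this
  exact fun h => this (by rw [h, map_zero])

end Pool.Agent.VW
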