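import Pool.Agent.P.MP_b0ea37_nt.WCnt
import Pool.Agent.P.MP_b0ea37_nt.WHt

namespace Pool.Agent.VW

open Polynomial

/-- `c` divides `g` modulo `Y` -/
def Lam (Y : ℕ) (c g : ℤ[X]) : Prop := ∃ u v : ℤ[X], g = c * u + C (Y : ℤ) * v

/-- a `k`-th power of a monic polynomial of degree `e` divides `f` modulo `Y` -/
def Pw (Y e k : ℕ) (f : ℤ[X]) : Prop :=
  ∃ q : ℤ[X], q.Monic ∧ q.natDegree = e ∧ Lam Y (q ^ k) f

/-- reduced monic representatives modulo `Y` -/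
def Red (Y e : ℕ) (q : ℤ[X]) : Prop :=
  q.Monic ∧ q.natDegree = e ∧ ∀ i < e, 0 ≤ q.coeff i ∧ q.coeff i < Y

variable {Y Y' e k : ℕ} {c c' g h f : ℤ[X]}

theorem Lam.add (hg : Lam Y c g) (hh : Lam Y c h) : Lam Y c (g + h) := by
  obtain ⟨u, v, rfl⟩ := hg
  obtain ⟨u', v', rfl⟩ := hh
  exact ⟨u + u', v + v', by ring⟩

theorem Lam.sub (hg : Lam Y c g) (hh : Lam Y c h) : Lam Y c (g - h) := by
  obtain ⟨u, v, rfl⟩ := hg
  obtain ⟨u', v', rfl⟩ := hh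
  exact ⟨u - u', v - v', by ring⟩

theorem Lam.mul_left (hg : Lam Y c g) (w : ℤ[X]) : Lam Y c (w * g) := by
  obtain ⟨u, v, rfl⟩ := hg
  exact ⟨w * u, w * v, by ring⟩

theorem Lam.of_dvd (hg : Lam Y c g) (hY : Y' ∣ Y) : Lam Y' c g := by
  obtain ⟨u, v, rfl⟩ := hg
  obtain ⟨m, rfl⟩ := hY
  exact ⟨u, C (m : ℤ) * v, by rw [Nat.cast_mul, C_mul, mul_assoc]⟩

theorem lam_of_C_dvd (hg : C (Y : ℤ) ∣ g) : Lam Y c g := by
  obtain ⟨v, rfl⟩ := hg
  exact ⟨0, v, by ring⟩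

theorem Lam.congr (hg : Lam Y c g) (hc : C (Y : ℤ) ∣ c - c') : Lam Y c' g := by
  obtain ⟨u, v, rfl⟩ := hg
  obtain ⟨w, hw⟩ := hc
  exact ⟨u, v + w * u, by rw [sub_eq_iff_eq_add.1 hw]; ring⟩

theorem Lam.dvd_of_lt (hg : Lam Y c g) (hc : c.Monic) (hd : g.degree < c.degree) :
    C (Y : ℤ) ∣ g := by
  obtain ⟨u, v, e⟩ := hg
  refine ⟨v %ₘ c, ?_⟩
  rw [← (modByMonic_eq_self_iff hc).2 hd, e, add_modByMonic, ← smul_eq_C_mul, ← smul_eq_C_mul,
    smul_modByMonic, (modByMonic_eq_zero_iff_dvd hc).2 (dvd_mul_right _ _), zero_add]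

theorem Lam.natDegree_le (hf : Lam Y c f) (hY : 2 ≤ Y) (hc : c.Monic) (hm : f.Monic) :
    c.natDegree ≤ f.natDegree := by
  by_contra hlt
  have h1 := (C_dvd_iff_dvd_coeff _ _).1
    (hf.dvd_of_lt hc (degree_lt_degree (not_le.1 hlt))) f.natDegree
  rw [hm.coeff_natDegree] at h1
  have h2 := Int.le_of_dvd one_pos h1
  omega

theorem lam_iff : Lam Y c g ↔ up (ZMod Y) c ∣ up (ZMod Y) g := by
  constructor
  · rintro ⟨u, v, rfl⟩
    refine ⟨up (ZMod Y) u, ?_⟩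
    simp [up, Polynomial.map_add, Polynomial.map_mul]
  · rintro ⟨w, hw⟩
    obtain ⟨u, rfl⟩ := map_surjective (Int.castRingHom (ZMod Y)) ZMod.intCast_surjective w
    have h1 : C (Y : ℤ) ∣ g - c * u := by
      refine (C_dvd_iff_dvd_coeff _ _).2 fun i => (ZMod.intCast_zmod_eq_zero_iff_dvd _ _).1 ?_
      have h2 : up (ZMod Y) (g - c * u) = 0 := by
        rw [up, Polynomial.map_sub, Polynomial.map_mul]
        exact sub_eq_zero.2 hw
      have h3 := coeff_map (Int.castRingHom (ZMod Y)) (p := g - c * u) i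
      rw [up] at h2
      rw [h2, coeff_zero] at h3
      exact h3.symm
    obtain ⟨v, hv⟩ := h1
    exact ⟨u, v, by rw [← hv]; ring⟩

theorem Pw.one (e k : ℕ) (f : ℤ[X]) : Pw 1 e k f :=
  ⟨X ^ e, monic_X_pow e, natDegree_X_pow e, 0, f, by simp⟩

theorem Pw.of_dvd (hf : Pw Y e k f) (hY : Y' ∣ Y) : Pw Y' e k f := by
  obtain ⟨q, h1, h2, h3⟩ := hf
  exact ⟨q, h1, h2, h3.of_dvd hY⟩

theorem clam_pow {q q' : ℤ[X]} (hf : Lam Y (q ^ k) f) (hq : C (Y : ℤ) ∣ q - q') :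
    Lam Y (q' ^ k) f :=
  hf.congr (hq.trans (sub_dvd_pow_sub_pow _ _ _))

theorem Pw.mul (hf : Pw Y e k f) (hf' : Pw Y' e k f) (hY : Nat.Coprime Y Y') :
    Pw (Y * Y') e k f := by
  obtain ⟨q₁, m₁, d₁, l₁⟩ := hf
  obtain ⟨q₂, m₂, d₂, l₂⟩ := hf'
  obtain ⟨u, v, huv⟩ := Nat.isCoprime_iff_coprime.2 hY
  have hC : (C u * C (Y : ℤ) + C v * C (Y' : ℤ) : ℤ[X]) = 1 := by
    rw [← C_mul, ← C_mul, ← C_add, huv, C_1]
  have hdeg : ((u * Y) • (q₁ - q₂)).degree < q₁.degree :=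
    (degree_smul_le _ _).trans_lt (degree_sub_lt_left
      (by rw [degree_eq_natDegree m₁.ne_zero, degree_eq_natDegree m₂.ne_zero, d₁, d₂])
      m₁.ne_zero (by rw [m₁, m₂]))
  refine ⟨q₁ - (u * Y) • (q₁ - q₂), m₁.sub_of_left hdeg,
    (natDegree_eq_of_degree_eq (degree_sub_eq_left_of_degree_lt hdeg)).trans d₁, ?_⟩
  obtain ⟨a, b, e₁⟩ := clam_pow (q' := q₁ - (u * Y) • (q₁ - q₂)) l₁
    ⟨C u * (q₁ - q₂), by rw [smul_eq_C_mul, C_mul]; ring⟩
  obtain ⟨a', b', e₂⟩ := clam_pow (q' := q₁ - (u * Y) • (q₁ - q₂)) l₂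
    ⟨C v * (q₂ - q₁), by
      rw [smul_eq_C_mul, C_mul]; linear_combination (q₁ - q₂) * hC⟩
  refine ⟨C u * C (Y : ℤ) * a' + C v * C (Y' : ℤ) * a, C u * b' + C v * b, ?_⟩
  rw [Nat.cast_mul, C_mul]
  linear_combination (C u * C (Y : ℤ)) * e₂ + (C v * C (Y' : ℤ)) * e₁ - f * hC

theorem Pw.prod (T : Finset ℕ) (hT : ∀ p ∈ T, p.Prime) (γ : ℕ → ℕ)
    (hf : ∀ p ∈ T, Pw (p ^ γ p) e k f) : Pw (∏ p ∈ T, p ^ γ p) e k f := by
  induction T using Finset.induction_on with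
  | empty => simpa using Pw.one e k f
  | insert a T ha ih =>
    rw [Finset.prod_insert ha]
    refine (hf a (Finset.mem_insert_self _ _)).mul
      (ih (fun p hp => hT p (Finset.mem_insert_of_mem hp))
        fun p hp => hf p (Finset.mem_insert_of_mem hp)) ?_
    refine Nat.Coprime.prod_right fun p hp => ?_
    exact Nat.coprime_pow_primes _ _ (hT a (Finset.mem_insert_self _ _))
      (hT p (Finset.mem_insert_of_mem hp)) fun hap => ha (hap ▸ hp)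

theorem Pw.red (hf : Pw Y e k f) (hY : 1 ≤ Y) : ∃ q : ℤ[X], Red Y e q ∧ Lam Y (q ^ k) f := by
  obtain ⟨q, hm, hd, hl⟩ := hf
  have hY' : (0 : ℤ) < Y := by exact_mod_cast hY
  obtain ⟨r, hr⟩ : ∃ r : ℤ[X], r = ∑ i ∈ Finset.range e, monomial i (q.coeff i % Y) := ⟨_, rfl⟩
  have hco : ∀ i, r.coeff i = if i < e then q.coeff i % Y else 0 := by
    intro i
    rw [hr, finsetSum_coeff]
    simp only [coeff_monomial]
    rw [Finset.sum_ite_eq' (Finset.range e) i fun j => q.coeff j % Y]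
    simp
  have hdeg : r.degree < (X ^ e : ℤ[X]).degree := by
    rw [degree_X_pow]
    exact (degree_lt_iff_coeff_zero _ _).2 fun i hi => by rw [hco, if_neg (not_lt.2 hi)]
  refine ⟨X ^ e + r, ⟨(monic_X_pow e).add_of_left hdeg,
    (natDegree_eq_of_degree_eq (degree_add_eq_left_of_degree_lt hdeg)).trans (natDegree_X_pow e),
    fun i hi => ?_⟩, clam_pow hl ((C_dvd_iff_dvd_coeff _ _).2 fun i => ?_)⟩
  · rw [coeff_add, coeff_X_pow, if_neg hi.ne, hco, if_pos hi, zero_add]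
    exact ⟨Int.emod_nonneg _ hY'.ne', Int.emod_lt_of_pos _ hY'⟩
  · rw [coeff_sub, coeff_add, coeff_X_pow, hco]
    rcases lt_trichotomy i e with hi | hi | hi
    · rw [if_neg hi.ne, if_pos hi, zero_add]
      exact Int.dvd_self_sub_emod
    · rw [if_pos hi, if_neg hi.not_lt, hi, ← hd, hm.coeff_natDegree]
      simp
    · rw [if_neg hi.ne', if_neg hi.not_gt, coeff_eq_zero_of_natDegree_lt (hd ▸ hi)]
      simp

theorem cnt_red (Y e : ℕ) : Cnt (Red Y e) ((Y : ℝ) ^ e) := by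
  refine (cnt_poly_coeff e (P := fun _ r => 0 ≤ r ∧ r < Y) (B := fun _ => (Y : ℝ))
    fun _ => cnt_res Y).inj (fun g => g - X ^ e) (fun g hg => ⟨?_, fun i hi => ?_⟩)
    (fun g g' _ _ e => sub_left_injective e) |>.mono (fun _ h => h) (by simp)
  · have e' : g.degree = (e : ℕ) := by rw [degree_eq_natDegree hg.1.ne_zero, hg.2.1]
    rw [← e']
    exact degree_sub_lt_left (by rw [e', degree_X_pow]) hg.1.ne_zero (by rw [hg.1, leadingCoeff_X_pow])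
  · rw [coeff_sub, coeff_X_pow, if_neg hi.ne, sub_zero]
    exact hg.2.2 i hi

theorem clam_top {n d : ℕ} (hg : g.Monic) (hgn : g.natDegree = n) (hh : h.Monic)
    (hhn : h.natDegree = n) (ht : ∀ i : Fin (n - d), g.coeff (d + i) = h.coeff (d + i)) (i : ℕ)
    (hi : d ≤ i) : g.coeff i = h.coeff i := by
  rcases lt_trichotomy i n with hn | hn | hn
  · have := ht ⟨i - d, by omega⟩
    rwa [Nat.add_sub_cancel' hi] at this
  · have e1 := hg.coeff_natDegree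
    have e2 := hh.coeff_natDegree
    rw [hgn] at e1
    rw [hhn] at e2
    rw [hn, e1, e2]
  · rw [coeff_eq_zero_of_natDegree_lt (hgn ▸ hn), coeff_eq_zero_of_natDegree_lt (hhn ▸ hn)]

/-- points of a coset in a box -/
theorem cnt_lam (n : ℕ) (hY : 1 ≤ Y) (hc : c.Monic) (hd : c.natDegree ≤ n) (R : ℝ) (hR : 0 ≤ R) :
    Cnt (fun h : ℤ[X] => h.Monic ∧ h.natDegree = n ∧ h.supNorm ≤ R ∧ Lam Y c h)
      ((2 * R + 1) ^ (n - c.natDegree) * (2 * R / Y + 1) ^ c.natDegree) := by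
  have _ := hd
  have h1 := Cnt.pi (ι := Fin (n - c.natDegree)) (P := fun _ (t : ℤ) => |(t : ℝ)| ≤ R)
    (B := fun _ => 2 * R + 1) fun _ => cnt_int_abs R hR
  have hB : (0 : ℝ) ≤ (2 * R / Y + 1) ^ c.natDegree := by positivity
  refine (Cnt.fibre (P := fun y (h : ℤ[X]) =>
    (h.Monic ∧ h.natDegree = n ∧ h.supNorm ≤ R ∧ Lam Y c h) ∧
      ∀ i : Fin (n - c.natDegree), h.coeff (c.natDegree + i) = y i) h1 hB fun y _ => ?_).mono
    (fun h hh => ⟨fun i => h.coeff (c.natDegree + i),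
      fun i => (h.le_supNorm _).trans hh.2.2.1, hh, fun _ => rfl⟩) (by simp)
  refine Cnt.of_mem hB fun h₀ hh₀ => ?_
  have h2 := Cnt.pi (ι := Fin c.natDegree)
    (P := fun i (t : ℤ) => |(t : ℝ) - 0| ≤ R ∧ (Y : ℤ) ∣ t - h₀.coeff i)
    (B := fun _ => 2 * R / Y + 1) fun i => cnt_class Y hY _ 0 R hR
  refine (h2.inj (fun (h : ℤ[X]) i => h.coeff i) (fun h hh i => ⟨?_, ?_⟩)
    fun h h' hh hh' e => ?_).mono (fun _ h => h) (by simp)
  · rw [sub_zero]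
    exact (h.le_supNorm _).trans hh.1.2.2.1
  · have h3 : (h - h₀).degree < c.degree := by
      rw [degree_eq_natDegree hc.ne_zero]
      refine (degree_lt_iff_coeff_zero _ _).2 fun j hj => ?_
      rw [coeff_sub, clam_top hh.1.1 hh.1.2.1 hh₀.1.1 hh₀.1.2.1
        (fun i => (hh.2 i).trans (hh₀.2 i).symm) j hj, sub_self]
    have h4 := (C_dvd_iff_dvd_coeff _ _).1 ((hh.1.2.2.2.sub hh₀.1.2.2.2).dvd_of_lt hc h3) i
    rwa [coeff_sub] at h4
  · ext j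
    by_cases hj : j < c.natDegree
    · exact congrFun e ⟨j, hj⟩
    · exact clam_top hh.1.1 hh.1.2.1 hh'.1.1 hh'.1.2.1
        (fun i => (hh.2 i).trans (hh'.2 i).symm) j (not_lt.1 hj)

end Pool.Agent.VW
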