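import Pool.Agent.P.MP_b0ea37_nt.WDefs

namespace Pool.Agent.VW

open Polynomial

variable {p : ℕ} [Fact p.Prime]

theorem WPad_int (z : ℤ) : ‖(z : PadicAlgCl p)‖ = ‖(z : ℚ_[p])‖ := by
  rw [← PadicAlgCl.norm_extends p (z : ℚ_[p])]
  exact congrArg _ (map_intCast (algebraMap ℚ_[p] (PadicAlgCl p)) z).symm

theorem WPad_rat (q : ℚ) : ‖(q : PadicAlgCl p)‖ = ‖(q : ℚ_[p])‖ := by
  rw [← PadicAlgCl.norm_extends p (q : ℚ_[p])]
  exact congrArg _ (map_ratCast (algebraMap ℚ_[p] (PadicAlgCl p)) q).symm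

theorem pn_int_le (z : ℤ) : ‖(z : PadicAlgCl p)‖ ≤ 1 := by
  rw [WPad_int]; exact Padic.norm_int_le_one z

theorem pn_p : ‖(p : PadicAlgCl p)‖ = (p : ℝ)⁻¹ := by
  have h := WPad_int (p := p) (p : ℤ)
  rw [Int.cast_natCast, Int.cast_natCast, Padic.norm_p] at h
  exact h

theorem pn_int_le_iff (z : ℤ) (k : ℕ) : ‖(z : PadicAlgCl p)‖ ≤ (p : ℝ)⁻¹ ^ k ↔ (p : ℤ) ^ k ∣ z := by
  rw [WPad_int, ← Padic.norm_int_le_pow_iff_dvd, zpow_neg, zpow_natCast, inv_pow]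

theorem pn_int_lt_iff (z : ℤ) : ‖(z : PadicAlgCl p)‖ < 1 ↔ (p : ℤ) ∣ z := by
  rw [WPad_int]; exact Padic.norm_intCast_lt_one_iff

theorem pn_int_eq_one (z : ℤ) : ‖(z : PadicAlgCl p)‖ = 1 ↔ ¬ (p : ℤ) ∣ z := by
  rw [← pn_int_lt_iff, not_lt]
  exact ⟨fun h => h.ge, fun h => le_antisymm (pn_int_le z) h⟩

theorem pn_int_eq {z : ℤ} (hz : z ≠ 0) :
    ‖(z : PadicAlgCl p)‖ = (p : ℝ)⁻¹ ^ padicValInt p z := by
  have h0 : (z : ℚ_[p]) ≠ 0 := Int.cast_ne_zero.2 hz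
  rw [WPad_int, Padic.norm_eq_zpow_neg_valuation h0, Padic.valuation_intCast, zpow_neg,
    zpow_natCast, inv_pow]

theorem pn_rat_le_iff (q : ℚ) : ‖(q : PadicAlgCl p)‖ ≤ 1 ↔ ¬ p ∣ q.den := by
  refine ⟨fun h hd => ?_, fun h => by rw [WPad_rat]; exact Padic.norm_rat_le_one h⟩
  have hp : p.Prime := Fact.out
  have h1 : ‖((q.den : ℤ) : PadicAlgCl p)‖ < 1 :=
    (pn_int_lt_iff _).2 (Int.natCast_dvd_natCast.2 hd)
  have h2 : (q.num : PadicAlgCl p) = (q : PadicAlgCl p) * ((q.den : ℤ) : PadicAlgCl p) := by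
    have h3 : (q : PadicAlgCl p) * ((q.den : ℚ) : PadicAlgCl p) = ((q.num : ℚ) : PadicAlgCl p) := by
      rw [← Rat.cast_mul, Rat.mul_den_eq_num]
    rw [Rat.cast_natCast, Rat.cast_intCast] at h3
    rw [Int.cast_natCast, h3]
  have h4 : ‖(q.num : PadicAlgCl p)‖ < 1 := by
    rw [h2, norm_mul]
    exact mul_lt_one_of_nonneg_of_lt_one_right h (norm_nonneg _) h1
  have h5 : p ∣ q.num.natAbs := Int.natCast_dvd.1 ((pn_int_lt_iff _).1 h4)
  have h6 : p ∣ 1 := by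
    have := Nat.dvd_gcd h5 hd
    rwa [q.reduced] at this
  exact hp.one_lt.ne' (Nat.dvd_one.1 h6)

/-- a rational number that is integral at every prime is an integer -/
theorem rat_int_of_den (q : ℚ) (h : ∀ l : ℕ, l.Prime → ¬ l ∣ q.den) : ∃ z : ℤ, q = z := by
  have h1 : q.den = 1 := by
    by_contra hne
    obtain ⟨l, hl, hd⟩ := Nat.exists_prime_and_dvd hne
    exact h l hl hd
  exact ⟨q.num, (Rat.coe_int_num_of_den_eq_one h1).symm⟩

theorem WPad_sum {ι : Type} (s : Finset ι) (F : ι → PadicAlgCl p) {B : ℝ} (hB : 0 ≤ B)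
    (h : ∀ i ∈ s, ‖F i‖ ≤ B) : ‖∑ i ∈ s, F i‖ ≤ B :=
  IsUltrametricDist.norm_sum_le_of_forall_le_of_nonneg hB h

theorem WPad_add {x y : PadicAlgCl p} {B : ℝ} (hx : ‖x‖ ≤ B) (hy : ‖y‖ ≤ B) : ‖x + y‖ ≤ B :=
  (IsUltrametricDist.norm_add_le_max x y).trans (max_le hx hy)

theorem WPad_mul {x y : PadicAlgCl p} {B : ℝ} (hx : ‖x‖ ≤ 1) (hy : ‖y‖ ≤ B) : ‖x * y‖ ≤ B := by
  rw [norm_mul]
  exact (mul_le_of_le_one_left (norm_nonneg _) hx).trans hy

theorem WPad_pow {x : PadicAlgCl p} (hx : ‖x‖ ≤ 1) (k : ℕ) : ‖x ^ k‖ ≤ 1 := by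
  rw [norm_pow]; exact pow_le_one₀ (norm_nonneg _) hx

theorem pn_eval_le (g : (PadicAlgCl p)[X]) (hg : ∀ i, ‖g.coeff i‖ ≤ 1) {z : PadicAlgCl p}
    (hz : ‖z‖ ≤ 1) : ‖g.eval z‖ ≤ 1 := by
  rw [eval_eq_sum_range]
  exact WPad_sum _ _ zero_le_one fun i _ => WPad_mul (hg i) (WPad_pow hz i)

theorem WPad_pow_sub {z w : PadicAlgCl p} (hz : ‖z‖ ≤ 1) (hw : ‖w‖ ≤ 1) (k : ℕ) :
    ‖z ^ k - w ^ k‖ ≤ ‖z - w‖ := by
  induction k with
  | zero => simp
  | succ k ih =>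
    have e : z ^ (k + 1) - w ^ (k + 1) = z * (z ^ k - w ^ k) + w ^ k * (z - w) := by ring
    rw [e]
    exact WPad_add (WPad_mul hz ih) (WPad_mul (WPad_pow hw k) le_rfl)

theorem pn_eval_sub_le (g : (PadicAlgCl p)[X]) (hg : ∀ i, ‖g.coeff i‖ ≤ 1) {z w : PadicAlgCl p}
    (hz : ‖z‖ ≤ 1) (hw : ‖w‖ ≤ 1) : ‖g.eval z - g.eval w‖ ≤ ‖z - w‖ := by
  rw [eval_eq_sum_range, eval_eq_sum_range, ← Finset.sum_sub_distrib]
  refine WPad_sum _ _ (norm_nonneg _) fun i _ => ?_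
  rw [← mul_sub]
  exact WPad_mul (hg i) (WPad_pow_sub hz hw i)

theorem pn_root_le (g : (PadicAlgCl p)[X]) (hg : ∀ i, ‖g.coeff i‖ ≤ 1) (hl : ‖g.leadingCoeff‖ = 1)
    {z : PadicAlgCl p} (hz : g.eval z = 0) : ‖z‖ ≤ 1 := by
  by_contra hlt
  have h1 : 1 < ‖z‖ := not_le.1 hlt
  have h0 : 0 < ‖z‖ := zero_lt_one.trans h1
  rw [eval_eq_sum_range, Finset.sum_range_succ] at hz
  have e : g.coeff g.natDegree * z ^ g.natDegree =
      -∑ i ∈ Finset.range g.natDegree, g.coeff i * z ^ i := eq_neg_of_add_eq_zero_right hz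
  have h2 : ‖∑ i ∈ Finset.range g.natDegree, g.coeff i * z ^ i‖ ≤ ‖z‖ ^ g.natDegree / ‖z‖ := by
    refine WPad_sum _ _ (by positivity) fun i hi => WPad_mul (hg i) ?_
    rw [norm_pow, le_div_iff₀ h0, ← pow_succ]
    exact pow_le_pow_right₀ h1.le (Finset.mem_range.1 hi)
  have h3 : ‖g.coeff g.natDegree * z ^ g.natDegree‖ = ‖z‖ ^ g.natDegree := by
    rw [norm_mul, norm_pow, coeff_natDegree, hl, one_mul]
  rw [e, norm_neg] at h3
  rw [h3] at h2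
  exact absurd h2 (not_le.2 (div_lt_self (by positivity) h1))

theorem WPad_coeff_mul {g h : (PadicAlgCl p)[X]} (hg : ∀ i, ‖g.coeff i‖ ≤ 1)
    (hh : ∀ i, ‖h.coeff i‖ ≤ 1) (k : ℕ) : ‖(g * h).coeff k‖ ≤ 1 := by
  rw [coeff_mul]
  exact WPad_sum _ _ zero_le_one fun i _ => WPad_mul (hg _) (hh _)

theorem pn_coeff_prod_le {ι : Type} (s : Finset ι) (θ : ι → PadicAlgCl p) (h : ∀ i ∈ s, ‖θ i‖ ≤ 1)
    (k : ℕ) : ‖(∏ i ∈ s, (X - C (θ i))).coeff k‖ ≤ 1 := by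
  revert k
  refine Finset.prod_induction (fun i => X - C (θ i)) (fun g => ∀ k, ‖g.coeff k‖ ≤ 1)
    (fun a b ha hb => WPad_coeff_mul ha hb) (fun k => ?_) fun i hi k => ?_
  · rw [coeff_one]; split_ifs <;> simp
  · rw [coeff_sub, sub_eq_add_neg]
    refine WPad_add ?_ ?_
    · rw [coeff_X]; split_ifs <;> simp
    · rw [norm_neg, coeff_C]
      split_ifs
      · exact h i hi
      · simp

theorem WPad_up_coeff (f : ℤ[X]) (i : ℕ) : ‖(up (PadicAlgCl p) f).coeff i‖ ≤ 1 := by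
  rw [coeff_map]; exact pn_int_le _

theorem WPad_up_eval (f : ℤ[X]) (r : ℤ) :
    (up (PadicAlgCl p) f).eval (r : PadicAlgCl p) = ((f.eval r : ℤ) : PadicAlgCl p) :=
  eval_intCast_map (Int.castRingHom (PadicAlgCl p)) f r

/-- second order vanishing near a weak point -/
theorem pn_eval_wk {r : ℤ} {f : ℤ[X]} (hf : Wk p r f) {z : PadicAlgCl p}
    (hz : ‖z - r‖ ≤ (p : ℝ)⁻¹) : ‖(up (PadicAlgCl p) f).eval z‖ ≤ (p : ℝ)⁻¹ ^ 2 ∧
      ‖(derivative (up (PadicAlgCl p) f)).eval z‖ ≤ (p : ℝ)⁻¹ := by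
  have hp : p.Prime := Fact.out
  have hp1 : (p : ℝ)⁻¹ ≤ 1 := inv_le_one_of_one_le₀ (by exact_mod_cast hp.one_le)
  have hp0 : (0 : ℝ) ≤ (p : ℝ)⁻¹ := by positivity
  have hz1 : ‖z‖ ≤ 1 := by
    have e : z = (z - r) + r := by ring
    rw [e]; exact WPad_add (hz.trans hp1) (pn_int_le r)
  have near : ∀ g : ℤ[X], (p : ℤ) ∣ g.eval r → ‖(up (PadicAlgCl p) g).eval z‖ ≤ (p : ℝ)⁻¹ := by
    intro g hg
    have e : (up (PadicAlgCl p) g).eval z = ((up (PadicAlgCl p) g).eval z -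
        (up (PadicAlgCl p) g).eval (r : PadicAlgCl p)) + ((g.eval r : ℤ) : PadicAlgCl p) := by
      rw [WPad_up_eval]; ring
    rw [e]
    refine WPad_add ((pn_eval_sub_le _ (WPad_up_coeff g) hz1 (pn_int_le r)).trans hz) ?_
    have := (pn_int_le_iff (p := p) (g.eval r) 1).2 (by rwa [pow_one])
    rwa [pow_one] at this
  refine ⟨?_, ?_⟩
  · obtain ⟨g, hg⟩ : X - C r ∣ f - C (f.eval r) := X_sub_C_dvd_sub_C_eval
    have hf' : f = C (f.eval r) + (X - C r) * g := by rw [← hg]; ring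
    have hd : (derivative f).eval r = g.eval r := by
      have h1 : derivative f = g + (X - C r) * derivative g := by
        have h2 := congrArg derivative hg
        simpa using h2
      rw [h1]; simp
    have e : (up (PadicAlgCl p) f).eval z =
        ((f.eval r : ℤ) : PadicAlgCl p) + (z - r) * (up (PadicAlgCl p) g).eval z := by
      have h3 := congrArg (fun u => (up (PadicAlgCl p) u).eval z) hf'
      simpa using h3
    rw [e]
    refine WPad_add ((pn_int_le_iff _ 2).2 hf.1) ?_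
    rw [norm_mul, pow_two]
    exact mul_le_mul hz (near g (hd ▸ hf.2)) (norm_nonneg _) hp0
  · rw [derivative_map]
    exact near _ hf.2

theorem pn_gal (σ : PadicAlgCl p ≃ₐ[ℚ_[p]] PadicAlgCl p) (x : PadicAlgCl p) : ‖σ x‖ = ‖x‖ :=
  (spectralNorm_eq_of_equiv σ x).symm

theorem exists_padic_of_fixed {x : PadicAlgCl p}
    (h : ∀ σ : PadicAlgCl p ≃ₐ[ℚ_[p]] PadicAlgCl p, σ x = x) :
    ∃ y : ℚ_[p], algebraMap ℚ_[p] (PadicAlgCl p) y = x :=
  (InfiniteGalois.mem_range_algebraMap_iff_fixed x).2 h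

theorem exists_int_near {x : PadicAlgCl p} (h : ∀ σ : PadicAlgCl p ≃ₐ[ℚ_[p]] PadicAlgCl p, σ x = x)
    (hx : ‖x‖ ≤ 1) (k : ℕ) : ∃ r : ℤ, ‖x - r‖ ≤ (p : ℝ)⁻¹ ^ k := by
  obtain ⟨y, rfl⟩ := exists_padic_of_fixed h
  rw [PadicAlgCl.norm_extends] at hx
  obtain ⟨w, rfl⟩ : ∃ w : ℤ_[p], (w : ℚ_[p]) = y := ⟨⟨y, hx⟩, rfl⟩
  refine ⟨PadicInt.appr w k, ?_⟩
  have h1 := (PadicInt.norm_le_pow_iff_mem_span_pow _ k).2 (PadicInt.appr_spec k w)
  rw [zpow_neg, zpow_natCast, ← inv_pow, PadicInt.norm_def, PadicInt.coe_sub,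
    PadicInt.coe_natCast] at h1
  rwa [Int.cast_natCast, ← map_natCast (algebraMap ℚ_[p] (PadicAlgCl p)), ← map_sub,
    PadicAlgCl.norm_extends]

theorem pn_fixed {x : PadicAlgCl p} (h : ∀ σ : PadicAlgCl p ≃ₐ[ℚ_[p]] PadicAlgCl p, σ x = x)
    (hx : x ≠ 0) : ∃ k : ℤ, ‖x‖ = (p : ℝ) ^ k := by
  obtain ⟨y, rfl⟩ := exists_padic_of_fixed h
  rw [PadicAlgCl.norm_extends]
  exact ⟨_, Padic.norm_eq_zpow_neg_valuation fun e => hx (by rw [e, map_zero])⟩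

theorem gal_perm {n : ℕ} {f : ℤ[X]} {θ : Fin n → PadicAlgCl p} (h : Roots (up (PadicAlgCl p) f) θ)
    (hθ : Function.Injective θ) (σ : PadicAlgCl p ≃ₐ[ℚ_[p]] PadicAlgCl p) :
    ∃ π : Equiv.Perm (Fin n), ∀ i, σ (θ i) = θ (π i) := by
  have h1 : ∀ z : PadicAlgCl p, f.eval₂ (Int.castRingHom _) z = 0 ↔ ∃ j, z = θ j := fun z => by
    have e : f.map (Int.castRingHom _) = ∏ i, (X - C (θ i)) := h
    rw [eval₂_eq_eval_map, e, eval_prod, Finset.prod_eq_zero_iff]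
    simp only [Finset.mem_univ, true_and, eval_sub, eval_X, eval_C, sub_eq_zero]
  have h2 : ∀ i, ∃ j, σ (θ i) = θ j := fun i => (h1 _).1 (by
    have := hom_eval₂ f (Int.castRingHom _) (σ : PadicAlgCl p →+* PadicAlgCl p) (θ i)
    rw [(h1 _).2 ⟨i, rfl⟩, map_zero, RingHom.ext_int (RingHom.comp _ _) (Int.castRingHom _)] at this
    exact this.symm)
  choose π hπ using h2
  have h3 : Function.Injective π := fun i j e =>
    hθ (σ.injective (by rw [hπ, hπ, e]))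
  exact ⟨Equiv.ofBijective π (Finite.injective_iff_bijective.1 h3), hπ⟩

/-- values at a root of a polynomial of degree `d` have norm in `p ^ (ℤ / d!)` -/
theorem pn_value {v : ℚ[X]} (hv : v ≠ 0) {d : ℕ} (hd : v.natDegree ≤ d) {z : PadicAlgCl p}
    (hz : aeval z v = 0) (y : ℚ[X]) (hy : aeval z y ≠ 0) :
    ∃ k : ℤ, ‖aeval z y‖ ^ d.factorial = (p : ℝ) ^ k := by
  have hi : ∀ x : PadicAlgCl p, IsIntegral ℚ_[p] x := fun x =>
    (Algebra.IsAlgebraic.isAlgebraic x).isIntegral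
  have h1 : aeval z y ∈ IntermediateField.adjoin ℚ_[p] {z} := by
    rw [← aeval_map_algebraMap ℚ_[p] z y]
    exact IntermediateField.algebra_adjoin_le_adjoin _ _ (aeval_mem_adjoin_singleton _ _)
  generalize aeval z y = x at hy h1
  have := IntermediateField.adjoin.finiteDimensional (hi z)
  have h2 : (minpoly ℚ_[p] z).natDegree ≤ d := by
    refine le_trans (natDegree_le_of_dvd (minpoly.dvd ℚ_[p] z (p := v.map (algebraMap ℚ ℚ_[p]))
      (by rw [aeval_map_algebraMap, hz])) (Polynomial.map_ne_zero hv)) ?_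
    rwa [natDegree_map]
  have h3 : (minpoly ℚ_[p] x).natDegree ≤ d := by
    have h4 := minpoly.natDegree_le (A := ℚ_[p]) (⟨x, h1⟩ : IntermediateField.adjoin ℚ_[p] {z})
    rw [IntermediateField.minpoly_eq, IntermediateField.adjoin.finrank (hi z)] at h4
    exact h4.trans h2
  have h4 := minpoly.natDegree_pos (hi x)
  obtain ⟨m, hm⟩ := Nat.dvd_factorial h4 h3
  refine ⟨-((minpoly ℚ_[p] x).coeff 0).valuation * m, ?_⟩
  rw [hm, pow_mul, ← PadicAlgCl.spectralNorm_eq,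
    spectralNorm.spectralNorm_eq_norm_coeff_zero_rpow, one_div,
    Real.rpow_inv_natCast_pow (norm_nonneg _) h4.ne',
    Padic.norm_eq_zpow_neg_valuation (minpoly.coeff_zero_ne_zero (hi x) hy), zpow_mul,
    zpow_natCast]

/-- reduction to the residue field -/
theorem exists_residue (p : ℕ) [Fact p.Prime] : ∃ (O : Subring (PadicAlgCl p)) (k : Type)
    (_ : Field k) (_ : CharP k p) (φ : O →+* k), (∀ x, x ∈ O ↔ ‖x‖ ≤ 1) ∧
      ∀ x : O, φ x = 0 ↔ ‖(x : PadicAlgCl p)‖ < 1 := by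
  let v : Valuation (PadicAlgCl p) NNReal := Valued.v
  have h1 : ∀ x : v.integer, IsLocalRing.residue v.integer x = 0 ↔ ‖(x : PadicAlgCl p)‖ < 1 :=
    fun x => (IsLocalRing.residue_eq_zero_iff x).trans
      Valuation.Integer.not_isUnit_iff_valuation_lt_one
  refine ⟨v.integer, IsLocalRing.ResidueField v.integer, inferInstance, ?_,
    IsLocalRing.residue _, fun x => Iff.rfl, h1⟩
  rw [CharP.charP_iff_prime_eq_zero (Fact.out : p.Prime), ← map_natCast (IsLocalRing.residue _),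
    h1, SubringClass.coe_natCast, ← map_natCast (algebraMap ℚ_[p] (PadicAlgCl p)),
    PadicAlgCl.norm_extends]
  exact Padic.norm_p_lt_one

end Pool.Agent.VW
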