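import Pool.Agent.P.MP_b0ea37_nt.WSym
import Pool.Agent.P.MP_b0ea37_nt.WClam
import Pool.Agent.P.MP_b0ea37_nt.WPad

namespace Pool.Agent.VW

open Polynomial

section aux

variable {p : ℕ} [Fact p.Prime]

/-- all coefficients are small -/
def csqSm (ε : ℝ) (a : (PadicAlgCl p)[X]) : Prop := ∀ i, ‖a.coeff i‖ ≤ ε

theorem csq_add {x y : PadicAlgCl p} {B : ℝ} (hx : ‖x‖ ≤ B) (hy : ‖y‖ ≤ B) : ‖x + y‖ ≤ B :=
  (IsUltrametricDist.norm_add_le_max x y).trans (max_le hx hy)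

theorem csqSm.add {ε : ℝ} {a b : (PadicAlgCl p)[X]} (ha : csqSm ε a) (hb : csqSm ε b) :
    csqSm ε (a + b) := fun i => by
  rw [coeff_add]; exact csq_add (ha i) (hb i)

theorem csqSm.mul {ε : ℝ} {a b : (PadicAlgCl p)[X]} (ha : csqSm 1 a) (hb : csqSm ε b) :
    csqSm ε (a * b) := fun i => by
  rw [coeff_mul]
  refine IsUltrametricDist.norm_sum_le_of_forall_le_of_nonneg
    ((norm_nonneg _).trans (hb 0)) fun x _ => ?_
  rw [norm_mul]
  exact (mul_le_of_le_one_left (norm_nonneg _) (ha _)).trans (hb _)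

theorem csqSm_one : csqSm 1 (1 : (PadicAlgCl p)[X]) := fun i => by
  rw [coeff_one]; split_ifs <;> simp

theorem csqSm.pow {a : (PadicAlgCl p)[X]} (ha : csqSm 1 a) (k : ℕ) : csqSm 1 (a ^ k) := by
  induction k with
  | zero => rw [pow_zero]; exact csqSm_one
  | succ k ih => rw [pow_succ]; exact ih.mul ha

theorem csqSm_prod {ι : Type} (s : Finset ι) (a : ι → (PadicAlgCl p)[X])
    (h : ∀ i ∈ s, csqSm 1 (a i)) : csqSm 1 (∏ i ∈ s, a i) :=
  Finset.prod_induction a (csqSm 1) (fun _ _ ha hb => ha.mul hb) csqSm_one h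

theorem csqSm_C {ε : ℝ} {z : PadicAlgCl p} (hz : ‖z‖ ≤ ε) : csqSm ε (C z) := fun i => by
  rw [coeff_C]
  split_ifs
  · exact hz
  · rw [norm_zero]; exact (norm_nonneg _).trans hz

theorem csqSm_lin {z : PadicAlgCl p} (hz : ‖z‖ ≤ 1) : csqSm 1 (X - C z) := by
  have e : (X - C z : (PadicAlgCl p)[X]) = X + C (-z) := by rw [C_neg]; ring
  rw [e]
  refine csqSm.add (fun i => ?_) (csqSm_C (by rwa [norm_neg]))
  rw [coeff_X]; split_ifs <;> simp

theorem csqSm_up (f : ℤ[X]) : csqSm 1 (up (PadicAlgCl p) f) := fun i => by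
  rw [coeff_map]; exact pn_int_le _

theorem csqSm_sub_prod {ι : Type} (s : Finset ι) (θ μ : ι → PadicAlgCl p) {ε : ℝ} (hε : 0 ≤ ε)
    (hθ : ∀ i, ‖θ i‖ ≤ 1) (hμ : ∀ i, ‖μ i‖ ≤ 1) (h : ∀ i, ‖μ i - θ i‖ ≤ ε) :
    csqSm ε (∏ i ∈ s, (X - C (θ i)) - ∏ i ∈ s, (X - C (μ i))) := by
  classical
  induction s using Finset.induction_on with
  | empty => intro i; simpa using hε
  | insert a s ha ih =>
    rw [Finset.prod_insert ha, Finset.prod_insert ha]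
    have e : (X - C (θ a)) * ∏ i ∈ s, (X - C (θ i)) - (X - C (μ a)) * ∏ i ∈ s, (X - C (μ i)) =
        (X - C (θ a)) * (∏ i ∈ s, (X - C (θ i)) - ∏ i ∈ s, (X - C (μ i))) +
          (∏ i ∈ s, (X - C (μ i))) * C (μ a - θ a) := by
      rw [C_sub]; ring
    rw [e]
    exact ((csqSm_lin (hθ a)).mul ih).add
      ((csqSm_prod s _ fun i _ => csqSm_lin (hμ i)).mul (csqSm_C (h a)))

/-- fixed by all automorphisms -/
def csqFix (a : (PadicAlgCl p)[X]) : Prop :=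
  ∀ σ : PadicAlgCl p ≃ₐ[ℚ_[p]] PadicAlgCl p, a.map (σ : PadicAlgCl p →+* PadicAlgCl p) = a

theorem csq_approx {a : (PadicAlgCl p)[X]} (hf : csqFix a) (hs : csqSm 1 a) (N γ : ℕ)
    (hN : a.degree < N) : ∃ b : ℤ[X], b.degree < N ∧
      csqSm ((p : ℝ)⁻¹ ^ γ) (a - up (PadicAlgCl p) b) := by
  have h1 : ∀ i, ∃ r : ℤ, ‖a.coeff i - r‖ ≤ (p : ℝ)⁻¹ ^ γ := fun i =>
    exists_int_near (fun σ => by
      have h2 := congrArg (fun u => u.coeff i) (hf σ)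
      simpa using h2) (hs i) γ
  choose r hr using h1
  have hc : ∀ i, (∑ j ∈ Finset.range N, monomial j (r j) : ℤ[X]).coeff i =
      if i < N then r i else 0 := fun i => by
    rw [finsetSum_coeff]
    simp only [coeff_monomial]
    rw [Finset.sum_ite_eq' (Finset.range N) i r]
    simp only [Finset.mem_range]
  refine ⟨∑ j ∈ Finset.range N, monomial j (r j), ?_, fun i => ?_⟩
  · rw [degree_lt_iff_coeff_zero]
    intro m hm
    rw [hc, if_neg (not_lt.2 hm)]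
  · rw [coeff_sub, coeff_map, hc]
    split_ifs with hi
    · exact hr i
    · rw [(degree_lt_iff_coeff_zero a N).1 hN i (not_lt.1 hi)]
      simp

/-- an equivariant family with a repeated value gives a square factor -/
theorem csq_factor {n : ℕ} (μ : Fin n → PadicAlgCl p) (hμ : ∀ i, ‖μ i‖ ≤ 1)
    (heq : ∀ σ : PadicAlgCl p ≃ₐ[ℚ_[p]] PadicAlgCl p, ∃ π : Equiv.Perm (Fin n),
      ∀ i, σ (μ i) = μ (π i)) {i₀ j₀ : Fin n} (hij : j₀ ≠ i₀) (h₀ : μ j₀ = μ i₀) :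
    ∃ qq hh : (PadicAlgCl p)[X], qq.Monic ∧ 1 ≤ qq.natDegree ∧ 2 * qq.natDegree ≤ n ∧
      csqSm 1 qq ∧ csqSm 1 hh ∧ csqFix qq ∧ csqFix hh ∧
      ∏ i, (X - C (μ i)) = qq ^ 2 * hh := by
  classical
  obtain ⟨T, hT⟩ : ∃ T : Finset (PadicAlgCl p),
      ∀ z, z ∈ T ↔ ∃ i j, j ≠ i ∧ μ j = μ i ∧ μ i = z := by
    refine ⟨(Finset.univ.filter fun i => ∃ j, j ≠ i ∧ μ j = μ i).image μ, fun z => ?_⟩
    simp only [Finset.mem_image, Finset.mem_filter, Finset.mem_univ, true_and]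
    exact ⟨fun ⟨i, ⟨j, h1, h2⟩, h3⟩ => ⟨i, j, h1, h2, h3⟩,
      fun ⟨i, j, h1, h2, h3⟩ => ⟨i, ⟨j, h1, h2⟩, h3⟩⟩
  have hsub : T ⊆ Finset.univ.image μ := fun z hz => by
    obtain ⟨i, _, _, _, h3⟩ := (hT z).1 hz
    exact Finset.mem_image.2 ⟨i, Finset.mem_univ _, h3⟩
  have hI : ∀ z ∈ Finset.univ.image μ, ‖z‖ ≤ 1 := fun z hz => by
    obtain ⟨i, _, h3⟩ := Finset.mem_image.1 hz
    rw [← h3]; exact hμ i
  have hc : ∀ z ∈ T, 2 ≤ (Finset.univ.filter fun i => μ i = z).card := fun z hz => by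
    obtain ⟨i, j, h1, h2, h3⟩ := (hT z).1 hz
    refine Finset.one_lt_card.2 ⟨j, ?_, i, ?_, h1⟩
    · exact Finset.mem_filter.2 ⟨Finset.mem_univ _, h2.trans h3⟩
    · exact Finset.mem_filter.2 ⟨Finset.mem_univ _, h3⟩
  have hmon : (∏ z ∈ T, (X - C z) : (PadicAlgCl p)[X]).Monic :=
    monic_prod_of_monic _ _ fun z _ => monic_X_sub_C z
  have hdeg : (∏ z ∈ T, (X - C z) : (PadicAlgCl p)[X]).natDegree = T.card :=
    natDegree_finsetProd_X_sub_C_eq_card T fun z => z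
  have hfac : ∏ i, (X - C (μ i)) = (∏ z ∈ T, (X - C z)) ^ 2 *
      ((∏ z ∈ Finset.univ.image μ \ T, (X - C z) ^ (Finset.univ.filter fun i => μ i = z).card) *
        ∏ z ∈ T, (X - C z) ^ ((Finset.univ.filter fun i => μ i = z).card - 2)) := by
    rw [Finset.prod_comp (fun z => (X - C z : (PadicAlgCl p)[X])) μ, ← Finset.prod_sdiff hsub,
      mul_left_comm, ← Finset.prod_pow, ← Finset.prod_mul_distrib]
    refine congrArg _ (Finset.prod_congr rfl fun z hz => ?_)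
    rw [← pow_add, Nat.add_sub_cancel' (hc z hz)]
  have hgm : (∏ i, (X - C (μ i)) : (PadicAlgCl p)[X]).Monic :=
    monic_prod_of_monic _ _ fun i _ => monic_X_sub_C _
  have hq : csqFix (∏ z ∈ T, (X - C z) : (PadicAlgCl p)[X]) := fun σ => by
    obtain ⟨π, hπ⟩ := heq σ
    have him : T.image σ = T := by
      refine Finset.eq_of_subset_of_card_le (fun z hz => ?_)
        (Finset.card_image_of_injective T σ.injective).ge
      obtain ⟨y, hy, rfl⟩ := Finset.mem_image.1 hz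
      obtain ⟨i, j, h1, h2, h3⟩ := (hT y).1 hy
      exact (hT _).2 ⟨π i, π j, π.injective.ne h1, by rw [← hπ, ← hπ, h2], by rw [← hπ, h3]⟩
    rw [Polynomial.map_prod]
    conv_rhs => rw [← him, Finset.prod_image fun x _ y _ h => σ.injective h]
    refine Finset.prod_congr rfl fun z _ => ?_
    simp
  have hg : csqFix (∏ i, (X - C (μ i)) : (PadicAlgCl p)[X]) := fun σ => by
    obtain ⟨π, hπ⟩ := heq σ
    rw [Polynomial.map_prod, ← Equiv.prod_comp π fun i => (X - C (μ i) : (PadicAlgCl p)[X])]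
    refine Finset.prod_congr rfl fun i _ => ?_
    simp [hπ]
  refine ⟨_, _, hmon, ?_, ?_, csqSm_prod _ _ fun z hz => csqSm_lin (hI z (hsub hz)), ?_, hq,
    fun σ => ?_, hfac⟩
  · rw [hdeg]
    exact Finset.card_pos.2 ⟨μ i₀, (hT _).2 ⟨i₀, j₀, hij, h₀, rfl⟩⟩
  · have h1 := natDegree_le_of_dvd (Dvd.intro _ hfac.symm) hgm.ne_zero
    rw [natDegree_pow, natDegree_finsetProd_X_sub_C_eq_card Finset.univ μ, Finset.card_univ,
      Fintype.card_fin] at h1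
    exact h1
  · exact (csqSm_prod _ _ fun z hz =>
      (csqSm_lin (hI z (Finset.mem_sdiff.1 hz).1)).pow _).mul
      (csqSm_prod _ _ fun z hz => (csqSm_lin (hI z (hsub hz))).pow _)
  · have h1 := hg σ
    rw [hfac, Polynomial.map_mul, Polynomial.map_pow, hq σ] at h1
    exact mul_left_cancel₀ (pow_ne_zero 2 hmon.ne_zero) h1

/-- means of the clusters -/
theorem csq_mean {n : ℕ} (θ : Fin n → PadicAlgCl p)
    (heq : ∀ σ : PadicAlgCl p ≃ₐ[ℚ_[p]] PadicAlgCl p, ∃ π : Equiv.Perm (Fin n),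
      ∀ i, σ (θ i) = θ (π i)) (γ : ℕ) :
    ∃ μ : Fin n → PadicAlgCl p, (∀ i, ‖μ i - θ i‖ ≤ (p : ℝ)⁻¹ ^ γ) ∧
      (∀ σ : PadicAlgCl p ≃ₐ[ℚ_[p]] PadicAlgCl p, ∃ π : Equiv.Perm (Fin n),
        ∀ i, σ (μ i) = μ (π i)) ∧
      ∀ i j, ‖θ i - θ j‖ ≤ (p : ℝ)⁻¹ ^ (γ + n) → μ j = μ i := by
  classical
  have hp : p.Prime := Fact.out
  obtain ⟨cl, hcl⟩ : ∃ cl : Fin n → Finset (Fin n),
      ∀ i j, j ∈ cl i ↔ ‖θ i - θ j‖ ≤ (p : ℝ)⁻¹ ^ (γ + n) :=
    ⟨fun i => Finset.univ.filter fun j => ‖θ i - θ j‖ ≤ (p : ℝ)⁻¹ ^ (γ + n), fun i j => by simp⟩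
  refine ⟨fun i => (∑ j ∈ cl i, θ j) / ((cl i).card : PadicAlgCl p), fun i => ?_, fun σ => ?_,
    fun i j hij => ?_⟩
  · have hi : i ∈ cl i := (hcl i i).2 (by rw [sub_self, norm_zero]; positivity)
    have hk0 : 0 < (cl i).card := Finset.card_pos.2 ⟨i, hi⟩
    have hkn : (cl i).card ≤ n := by simpa using Finset.card_le_univ (cl i)
    have hk : ((cl i).card : PadicAlgCl p) ≠ 0 := Nat.cast_ne_zero.2 hk0.ne'
    have hlow : (p : ℝ)⁻¹ ^ n ≤ ‖((cl i).card : PadicAlgCl p)‖ := by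
      by_contra hlt
      have h1 := (pn_int_le_iff (p := p) ((cl i).card : ℤ) n).1
        (by rw [Int.cast_natCast]; exact (not_le.1 hlt).le)
      have h2 : p ^ n ∣ (cl i).card := by exact_mod_cast h1
      have h3 := Nat.le_of_dvd hk0 h2
      have h4 : n < p ^ n := Nat.lt_pow_self hp.one_lt
      omega
    have e : (∑ j ∈ cl i, θ j) / ((cl i).card : PadicAlgCl p) - θ i =
        (∑ j ∈ cl i, (θ j - θ i)) / ((cl i).card : PadicAlgCl p) := by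
      rw [Finset.sum_sub_distrib, Finset.sum_const, nsmul_eq_mul]
      field_simp
    have h5 : ‖∑ j ∈ cl i, (θ j - θ i)‖ ≤ (p : ℝ)⁻¹ ^ (γ + n) :=
      IsUltrametricDist.norm_sum_le_of_forall_le_of_nonneg (by positivity) fun j hj => by
        rw [norm_sub_rev]; exact (hcl i j).1 hj
    show ‖(∑ j ∈ cl i, θ j) / ((cl i).card : PadicAlgCl p) - θ i‖ ≤ _
    rw [e, norm_div, div_le_iff₀ (norm_pos_iff.2 hk)]
    refine h5.trans ?_
    rw [pow_add]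
    exact mul_le_mul_of_nonneg_left hlow (by positivity)
  · obtain ⟨π, hπ⟩ := heq σ
    refine ⟨π, fun i => ?_⟩
    have hmem : ∀ j, j ∈ cl i ↔ π j ∈ cl (π i) := fun j => by
      rw [hcl, hcl, ← hπ, ← hπ, ← map_sub, pn_gal]
    show σ ((∑ j ∈ cl i, θ j) / ((cl i).card : PadicAlgCl p)) =
      (∑ j ∈ cl (π i), θ j) / ((cl (π i)).card : PadicAlgCl p)
    rw [map_div₀, map_natCast, map_sum, Finset.card_equiv π hmem,
      Finset.sum_equiv π hmem (g := θ) fun j _ => hπ j]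
  · have h1 : cl j = cl i := by
      ext k
      rw [hcl, hcl]
      constructor
      · intro h
        have e : θ i - θ k = (θ i - θ j) + (θ j - θ k) := by ring
        rw [e]; exact csq_add hij h
      · intro h
        have e : θ j - θ k = (θ j - θ i) + (θ i - θ k) := by ring
        rw [e]; exact csq_add (by rw [norm_sub_rev]; exact hij) h
    show (∑ k ∈ cl j, θ k) / ((cl j).card : PadicAlgCl p) =
      (∑ k ∈ cl i, θ k) / ((cl i).card : PadicAlgCl p)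
    rw [h1]

/-- two close roots -/
theorem csq_close {n v w : ℕ} (hn : 1 ≤ n) (hw : 1 ≤ w) (hv : n ^ 2 * w ≤ v)
    (θ : Fin n → PadicAlgCl p)
    (h : ‖∏ i, ∏ j ∈ Finset.univ.erase i, (θ i - θ j)‖ ≤ (p : ℝ)⁻¹ ^ v) :
    ∃ i j, j ≠ i ∧ ‖θ i - θ j‖ ≤ (p : ℝ)⁻¹ ^ w := by
  have hp : p.Prime := Fact.out
  have hp1 : (1 : ℝ) < p := by exact_mod_cast hp.one_lt
  have ht0 : (0 : ℝ) < (p : ℝ)⁻¹ := by positivity
  have ht1 : (p : ℝ)⁻¹ < 1 := inv_lt_one_of_one_lt₀ hp1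
  by_contra hne
  have hall : ∀ i j, j ≠ i → (p : ℝ)⁻¹ ^ w ≤ ‖θ i - θ j‖ := fun i j hij => by
    by_contra hlt
    exact hne ⟨i, j, hij, (not_le.1 hlt).le⟩
  have h1 : ∀ i, ((p : ℝ)⁻¹ ^ w) ^ (n - 1) ≤ ‖∏ j ∈ Finset.univ.erase i, (θ i - θ j)‖ := fun i => by
    have h2 : (Finset.univ.erase i).card = n - 1 := by simp
    rw [norm_prod, ← h2, ← Finset.prod_const]
    exact Finset.prod_le_prod (fun _ _ => by positivity)
      fun j hj => hall i j (Finset.ne_of_mem_erase hj)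
  have h3 : (((p : ℝ)⁻¹ ^ w) ^ (n - 1)) ^ n ≤ ‖∏ i, ∏ j ∈ Finset.univ.erase i, (θ i - θ j)‖ := by
    have h4 : (((p : ℝ)⁻¹ ^ w) ^ (n - 1)) ^ n = ∏ _i : Fin n, ((p : ℝ)⁻¹ ^ w) ^ (n - 1) := by simp
    rw [norm_prod, h4]
    exact Finset.prod_le_prod (fun _ _ => by positivity) fun i _ => h1 i
  have h5 := h3.trans h
  rw [← pow_mul, ← pow_mul, pow_le_pow_iff_right_of_lt_one₀ ht0 ht1] at h5
  obtain ⟨m, rfl⟩ : ∃ m, n = m + 1 := ⟨n - 1, by omega⟩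
  rw [Nat.add_sub_cancel] at h5
  nlinarith

end aux

/-- SQ -/
theorem sq_type {n p v : ℕ} (hn : 2 ≤ n) (hp : p.Prime) {f : ℤ[X]} (hm : f.Monic)
    (hf : f.natDegree = n) (hi : Irr f) (hv : (p : ℤ) ^ v ∣ Dv n f) :
    ∃ γ e : ℕ, 1 ≤ e ∧ 2 * e ≤ n ∧ v ≤ n ^ 2 * (γ + n + 1) ∧ Pw (p ^ γ) e 2 f := by
  by_cases hsm : v ≤ n ^ 2 * (0 + n + 1)
  · exact ⟨0, 1, le_rfl, by omega, hsm, by rw [pow_zero]; exact Pw.one 1 2 f⟩
  have : Fact p.Prime := ⟨hp⟩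
  have hn2 : 0 < n ^ 2 := by positivity
  obtain ⟨γ, hγ⟩ : ∃ γ, v / n ^ 2 = γ + n := by
    have h1 : n ≤ v / n ^ 2 := by
      rw [Nat.le_div_iff_mul_le hn2]
      nlinarith
    exact ⟨v / n ^ 2 - n, by omega⟩
  have hv1 : n ^ 2 * (γ + n) ≤ v := by rw [← hγ]; exact Nat.mul_div_le v _
  have hv2 : v ≤ n ^ 2 * (γ + n + 1) := by
    rw [← hγ]; exact (Nat.lt_mul_div_succ v hn2).le
  have hmu : (up (PadicAlgCl p) f).Monic := hm.map _
  obtain ⟨θ, hθ⟩ := exists_roots (n := n) (up (PadicAlgCl p) f) hmu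
    (by rw [hm.natDegree_map, hf])
  have hθ1 : ∀ i, ‖θ i‖ ≤ 1 := fun i =>
    pn_root_le _ (csqSm_up f) (by rw [hmu.leadingCoeff, norm_one])
      ((hθ.eval_eq_zero_iff _).2 ⟨i, rfl⟩)
  have hθ' : up (PadicAlgCl p) f = ∏ i, (X - C (θ i)) := hθ
  have hD : ‖∏ i, ∏ j ∈ Finset.univ.erase i, (θ i - θ j)‖ ≤ (p : ℝ)⁻¹ ^ v := by
    rw [← Dv_roots, ← hθ', Dv_map]
    exact (pn_int_le_iff _ v).2 hv
  obtain ⟨i₀, j₀, hij, hd⟩ := csq_close (by omega) (by omega) hv1 θ hD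
  obtain ⟨μ, hμ1, hμ2, hμ3⟩ := csq_mean θ (fun σ => gal_perm hθ (hθ.injective hi) σ) γ
  have hε1 : (p : ℝ)⁻¹ ^ γ ≤ 1 :=
    pow_le_one₀ (by positivity) (inv_le_one_of_one_le₀ (by exact_mod_cast hp.one_le))
  have hμ0 : ∀ i, ‖μ i‖ ≤ 1 := fun i => by
    have e : μ i = (μ i - θ i) + θ i := by ring
    rw [e]; exact csq_add ((hμ1 i).trans hε1) (hθ1 i)
  obtain ⟨qq, hh, hq1, hq2, hq3, hq4, hh1, hq5, hh2, hfac⟩ :=
    csq_factor μ hμ0 hμ2 hij (hμ3 i₀ j₀ hd)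
  have hX : csqSm 1 (-(X : (PadicAlgCl p)[X]) ^ qq.natDegree) := fun i => by
    rw [coeff_neg, norm_neg, coeff_X_pow]; split_ifs <;> simp
  obtain ⟨b, hb1, hb2⟩ := csq_approx (a := qq - X ^ qq.natDegree)
    (fun σ => by rw [Polynomial.map_sub, hq5 σ, Polynomial.map_pow, map_X])
    (by rw [sub_eq_add_neg]; exact hq4.add hX) qq.natDegree γ
    (by
      have h1 := degree_sub_lt_left (p := qq) (q := X ^ qq.natDegree)
        (by rw [degree_X_pow, degree_eq_natDegree hq1.ne_zero]) hq1.ne_zero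
        (by rw [hq1.leadingCoeff, leadingCoeff_X_pow])
      rwa [degree_eq_natDegree hq1.ne_zero] at h1)
  obtain ⟨c, _, hc2⟩ := csq_approx hh2 hh1 (hh.natDegree + 1) γ
    (lt_of_le_of_lt degree_le_natDegree (by exact_mod_cast Nat.lt_succ_self _))
  have hqm : (X ^ qq.natDegree + b : ℤ[X]).Monic := monic_X_pow_add hb1
  refine ⟨γ, qq.natDegree, hq2, hq3, hv2, X ^ qq.natDegree + b, hqm, ?_, ?_⟩
  · refine natDegree_eq_of_degree_eq_some ?_
    rw [degree_add_eq_left_of_degree_lt (by rwa [degree_X_pow]), degree_X_pow]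
  · obtain ⟨q, hq⟩ : ∃ q : ℤ[X], q = X ^ qq.natDegree + b := ⟨_, rfl⟩
    rw [← hq]
    have hb3 : csqSm ((p : ℝ)⁻¹ ^ γ) (qq - up (PadicAlgCl p) q) := by
      have e : qq - up (PadicAlgCl p) q = qq - X ^ qq.natDegree - up (PadicAlgCl p) b := by
        rw [hq]
        simp only [up, Polynomial.map_add, Polynomial.map_pow, map_X]
        ring
      rw [e]; exact hb2
    have hs := csqSm_sub_prod Finset.univ θ μ (by positivity) hθ1 hμ0 hμ1
    rw [← hθ', hfac] at hs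
    have e : up (PadicAlgCl p) (f - q ^ 2 * c) = (up (PadicAlgCl p) f - qq ^ 2 * hh) +
        (((qq + up (PadicAlgCl p) q) * hh) * (qq - up (PadicAlgCl p) q) +
          up (PadicAlgCl p) q ^ 2 * (hh - up (PadicAlgCl p) c)) := by
      simp only [up, Polynomial.map_sub, Polynomial.map_mul, Polynomial.map_pow]
      ring
    have hall : csqSm ((p : ℝ)⁻¹ ^ γ) (up (PadicAlgCl p) (f - q ^ 2 * c)) := by
      rw [e]
      exact hs.add ((((hq4.add (csqSm_up q)).mul hh1).mul hb3).add (((csqSm_up q).pow 2).mul hc2))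
    obtain ⟨u, hu⟩ : C ((p ^ γ : ℕ) : ℤ) ∣ f - q ^ 2 * c := by
      rw [C_dvd_iff_dvd_coeff]
      intro i
      have h1 := hall i
      rw [coeff_map] at h1
      rw [Nat.cast_pow]
      exact (pn_int_le_iff _ γ).1 h1
    exact ⟨c, u, by rw [← hu]; ring⟩

end Pool.Agent.VW
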