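import Pool.Agent.P.MP_b0ea37_nt.WCnt
import Pool.Agent.P.MP_dea669_nt.Rankin

namespace Pool.Agent.VW

open Polynomial

/-- numbers built from the primes of `N` -/
theorem cnt_smooth (ε : ℝ) (hε : 0 < ε) : ∃ C : ℝ, 1 ≤ C ∧ ∀ Z : ℝ, 1 ≤ Z → ∀ N : ℕ, N ≠ 0 →
    (N : ℝ) ≤ Z → Cnt (fun m : ℕ => m ≠ 0 ∧ (m : ℝ) ≤ Z ∧ ∀ p : ℕ, p.Prime → p ∣ m → p ∣ N)
      (C * Z ^ ε) := by
  obtain ⟨C, hC, h⟩ := Pool.Agent.P.MP_dea669_nt.rankin (ε / 2) (by linarith)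
  refine ⟨C, hC, fun Z hZ N hN hNZ S hS => ?_⟩
  have h1 := h N ⌊Z⌋₊ hN S (fun m hm => ⟨(hS m hm).1, Nat.le_floor (hS m hm).2.1, fun p hp => by
    rw [Nat.mem_primeFactors] at hp ⊢
    exact ⟨hp.1, (hS m hm).2.2 p hp.1 hp.2.1, hN⟩⟩)
  have h2 : (N : ℝ) ^ (ε / 2) ≤ Z ^ (ε / 2) :=
    Real.rpow_le_rpow (by positivity) hNZ (by linarith)
  have h3 : ((⌊Z⌋₊ : ℕ) : ℝ) ^ (ε / 2) ≤ Z ^ (ε / 2) :=
    Real.rpow_le_rpow (by positivity) (Nat.floor_le (by linarith)) (by linarith)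
  have h4 : Z ^ ε = Z ^ (ε / 2) * Z ^ (ε / 2) := by
    rw [← Real.rpow_add (by linarith)]; ring_nf
  rw [h4, ← mul_assoc]
  refine h1.trans ?_
  have hC0 : 0 ≤ C := by linarith
  gcongr

theorem cnt_divisors (ε : ℝ) (hε : 0 < ε) : ∃ C : ℝ, 1 ≤ C ∧ ∀ N : ℕ, N ≠ 0 →
    Cnt (fun m : ℕ => m ∣ N) (C * (N : ℝ) ^ ε) := by
  obtain ⟨C, hC, h⟩ := cnt_smooth ε hε
  refine ⟨C, hC, fun N hN => ?_⟩
  have h1 : (1 : ℝ) ≤ N := by exact_mod_cast Nat.one_le_iff_ne_zero.2 hN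
  refine (h N h1 N hN le_rfl).mono (fun m hm => ⟨?_, ?_, fun p _ hp => hp.trans hm⟩) le_rfl
  · rintro rfl
    exact hN (Nat.eq_zero_of_zero_dvd hm)
  · exact_mod_cast Nat.le_of_dvd (Nat.pos_of_ne_zero hN) hm

theorem prod_fact_aux (A k : ℕ) (ε : ℝ) (hε : 0 < ε) : ∃ C : ℝ, 1 ≤ C ∧ ∀ N : ℕ, N ≠ 0 →
    ∏ p ∈ N.primeFactors, ((A : ℝ) * N.factorization p + 1) ^ k ≤ C * (N : ℝ) ^ ε := by
  obtain ⟨C, hC, h⟩ := cnt_divisors (ε / (A * k + 1 : ℕ)) (by positivity)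
  refine ⟨C ^ (A * k + 1), one_le_pow₀ hC, fun N hN => ?_⟩
  have h1 := h N hN N.divisors (fun m hm => Nat.dvd_of_mem_divisors hm)
  rw [Nat.card_divisors hN] at h1
  push_cast at h1
  have h2 : ∏ p ∈ N.primeFactors, ((A : ℝ) * N.factorization p + 1) ^ k ≤
      (∏ p ∈ N.primeFactors, ((N.factorization p : ℝ) + 1)) ^ (A * k + 1) := by
    rw [← Finset.prod_pow]
    refine Finset.prod_le_prod (fun _ _ => by positivity) (fun p _ => ?_)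
    have h0 : (0 : ℝ) ≤ N.factorization p := by positivity
    have h3 : (A : ℝ) * N.factorization p + 1 ≤ ((N.factorization p : ℝ) + 1) ^ A := by
      have := one_add_mul_le_pow (a := (N.factorization p : ℝ)) (by linarith) A
      rwa [add_comm, add_comm 1] at this
    calc ((A : ℝ) * N.factorization p + 1) ^ k ≤ (((N.factorization p : ℝ) + 1) ^ A) ^ k := by
          gcongr
      _ ≤ _ := by
          rw [← pow_mul]
          exact pow_le_pow_right₀ (by linarith) (Nat.le_succ _)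
  refine h2.trans ((pow_le_pow_left₀ (by positivity) h1 _).trans (le_of_eq ?_))
  rw [mul_pow, ← Real.rpow_natCast ((N : ℝ) ^ _), ← Real.rpow_mul (by positivity)]
  push_cast
  rw [div_mul_cancel₀ _ (by positivity)]

theorem pow_omega_le (A : ℝ) (hA : 1 ≤ A) (ε : ℝ) (hε : 0 < ε) : ∃ C : ℝ, 1 ≤ C ∧ ∀ N : ℕ, N ≠ 0 →
    A ^ N.primeFactors.card ≤ C * (N : ℝ) ^ ε := by
  obtain ⟨C, hC, h⟩ := prod_fact_aux ⌈A⌉₊ 1 ε hε
  refine ⟨C, hC, fun N hN => le_trans ?_ (h N hN)⟩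
  rw [← Finset.prod_const]
  refine Finset.prod_le_prod (fun _ _ => by linarith) (fun p hp => ?_)
  have h1 : 1 ≤ N.factorization p :=
    (Nat.prime_of_mem_primeFactors hp).factorization_pos_of_dvd hN (Nat.dvd_of_mem_primeFactors hp)
  have h2 : (1 : ℝ) ≤ N.factorization p := by exact_mod_cast h1
  have h3 : A ≤ (⌈A⌉₊ : ℝ) := Nat.le_ceil A
  rw [pow_one]
  nlinarith

theorem prod_fact_le (A k : ℕ) (ε : ℝ) (hε : 0 < ε) : ∃ C : ℝ, 1 ≤ C ∧ ∀ N : ℕ, N ≠ 0 →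
    ∏ p ∈ N.primeFactors, ((A : ℝ) * N.factorization p + 1) ^ k ≤ C * (N : ℝ) ^ ε :=
  prod_fact_aux A k ε hε

/-- numbers with a small radical -/
theorem cnt_small_rad (ε : ℝ) (hε : 0 < ε) : ∃ C : ℝ, 1 ≤ C ∧ ∀ Z Y : ℝ, 1 ≤ Y → Y ≤ Z →
    Cnt (fun m : ℕ => m ≠ 0 ∧ (m : ℝ) ≤ Z ∧ ((∏ p ∈ m.primeFactors, p : ℕ) : ℝ) ≤ Y)
      (C * Z ^ ε * Y) := by
  obtain ⟨C, hC, h⟩ := cnt_smooth ε hε
  refine ⟨C, hC, fun Z Y hY hYZ => ?_⟩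
  have hZ : 1 ≤ Z := hY.trans hYZ
  have h0 : 0 ≤ C * Z ^ ε := mul_nonneg (by linarith) (Real.rpow_nonneg (by linarith) _)
  have h1 := (cnt_nat_pos Y (by linarith)).fibre
    (P := fun R m : ℕ => m ≠ 0 ∧ (m : ℝ) ≤ Z ∧ ∀ p : ℕ, p.Prime → p ∣ m → p ∣ R) h0
    (fun R hR => h Z hZ R (by omega) (hR.2.trans hYZ))
  refine h1.mono (fun m hm => ⟨∏ p ∈ m.primeFactors, p, ⟨?_, hm.2.2⟩, hm.1, hm.2.1, ?_⟩)
    (le_of_eq (mul_comm _ _))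
  · exact Finset.prod_pos fun p hp => (Nat.prime_of_mem_primeFactors hp).pos
  · exact fun p hp hpm => Finset.dvd_prod_of_mem _ (Nat.mem_primeFactors.2 ⟨hp, hpm, hm.1⟩)

theorem cnt_roots_prime (p : ℕ) (hp : p.Prime) (g : ℤ[X]) (m : ℕ) (hm : g.natDegree ≤ m)
    (hg : ¬ C (p : ℤ) ∣ g) : Cnt (fun r : ℤ => 0 ≤ r ∧ r < p ∧ (p : ℤ) ∣ g.eval r) (m : ℝ) := by
  have := Fact.mk hp
  have h0 : up (ZMod p) g ≠ 0 := by
    intro h
    refine hg ((C_dvd_iff_dvd_coeff _ _).2 fun i => ?_)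
    have h1 := congrArg (fun q => coeff q i) h
    simp only [coeff_map, coeff_zero, eq_intCast] at h1
    exact (ZMod.intCast_zmod_eq_zero_iff_dvd _ _).1 h1
  have h1 : Cnt (fun z : ZMod p => (up (ZMod p) g).eval z = 0) (m : ℝ) :=
    (cnt_roots _ h0).mono (fun _ h => h) (by exact_mod_cast natDegree_map_le.trans hm)
  refine h1.inj (fun r : ℤ => (r : ZMod p)) (fun r hr => ?_) (fun r r' hr hr' h => ?_)
  · have h2 := eval_intCast_map (Int.castRingHom (ZMod p)) g r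
    rw [h2]
    exact (ZMod.intCast_zmod_eq_zero_iff_dvd _ _).2 hr.2.2
  · have h2 := (ZMod.intCast_eq_intCast_iff_dvd_sub r r' p).1 h
    have h3 := Int.eq_zero_of_abs_lt_dvd h2 (by rw [abs_lt]; constructor <;> omega)
    omega

/-- roots modulo a squarefree number of a polynomial that vanishes modulo none of its primes -/
theorem cnt_roots_mod (M : ℕ) (hM : Squarefree M) (g : ℤ[X]) (m : ℕ) (hm : g.natDegree ≤ m)
    (hg : ∀ p : ℕ, p.Prime → p ∣ M → ¬ C (p : ℤ) ∣ g) :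
    Cnt (fun r : ℤ => 0 ≤ r ∧ r < M ∧ (M : ℤ) ∣ g.eval r) ((m : ℝ) ^ M.primeFactors.card) := by
  have h1 : ∀ p : M.primeFactors,
      Cnt (fun r : ℤ => 0 ≤ r ∧ r < (p : ℕ) ∧ ((p : ℕ) : ℤ) ∣ g.eval r) (m : ℝ) := fun p =>
    cnt_roots_prime p (Nat.prime_of_mem_primeFactors p.2) g m hm
      (hg p (Nat.prime_of_mem_primeFactors p.2) (Nat.dvd_of_mem_primeFactors p.2))
  have h2 := Cnt.pi h1
  rw [Finset.prod_const, Finset.card_univ, Fintype.card_coe] at h2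
  refine h2.inj (fun r p => r % ((p : ℕ) : ℤ)) (fun r hr p => ?_) (fun r r' hr hr' h => ?_)
  · have hp : (0 : ℤ) < (p : ℕ) := by exact_mod_cast (Nat.prime_of_mem_primeFactors p.2).pos
    refine ⟨Int.emod_nonneg _ hp.ne', Int.emod_lt_of_pos _ hp, ?_⟩
    have h3 : ((p : ℕ) : ℤ) ∣ g.eval r :=
      (Int.natCast_dvd_natCast.2 (Nat.dvd_of_mem_primeFactors p.2)).trans hr.2.2
    have h4 : ((p : ℕ) : ℤ) ∣ g.eval r - g.eval (r % ((p : ℕ) : ℤ)) :=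
      (Int.dvd_self_sub_emod).trans (sub_dvd_eval_sub _ _ g)
    exact (dvd_sub_right h3).1 h4
  · have h3 : M ∣ (r - r').natAbs := by
      rw [← Nat.prod_primeFactors_of_squarefree hM]
      refine Finset.prod_primes_dvd _ (fun p hp => (Nat.prime_of_mem_primeFactors hp).prime)
        (fun p hp => ?_)
      have h4 : r % (p : ℤ) = r' % (p : ℤ) := congrFun h ⟨p, hp⟩
      exact Int.natCast_dvd.1 (Int.ModEq.dvd (Eq.symm h4))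
    have h4 : (M : ℤ) ∣ r - r' := Int.natCast_dvd.2 h3
    have h5 := Int.eq_zero_of_abs_lt_dvd h4 (by rw [abs_lt]; constructor <;> omega)
    omega

/-- large prime divisors of a number of size `H ^ A` -/
theorem cnt_large_primes (N : ℤ) (hN : N ≠ 0) (H : ℝ) (hH : 1 < H) (A : ℕ)
    (h : |(N : ℝ)| ≤ H ^ A) : Cnt (fun p : ℕ => p.Prime ∧ H ≤ p ∧ (p : ℤ) ∣ N) A := by
  intro S hS
  have h1 : ∏ p ∈ S, p ∣ N.natAbs :=
    Finset.prod_primes_dvd _ (fun p hp => (hS p hp).1.prime)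
      (fun p hp => Int.natCast_dvd.1 (hS p hp).2.2)
  have h2 : ((∏ p ∈ S, p : ℕ) : ℝ) ≤ |(N : ℝ)| := by
    have := Nat.le_of_dvd (Int.natAbs_pos.2 hN) h1
    rw [← Int.cast_abs, ← Int.natCast_natAbs, Int.cast_natCast]
    exact_mod_cast this
  have h3 : H ^ S.card ≤ ((∏ p ∈ S, p : ℕ) : ℝ) := by
    rw [← Finset.prod_const, Nat.cast_prod]
    exact Finset.prod_le_prod (fun _ _ => by linarith) (fun p hp => (hS p hp).2.1)
  exact_mod_cast (pow_le_pow_iff_right₀ hH).1 (h3.trans (h2.trans h))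

theorem exists_primes_aux (J : ℕ) (Z : ℝ) (hZ : 1 ≤ Z) : ∃ T : Finset ℕ, T.card = J ∧
    ∀ l ∈ T, l.Prime ∧ Z < l ∧ (l : ℝ) ≤ 2 ^ (J + 1) * Z := by
  induction J with
  | zero => exact ⟨∅, rfl, by simp⟩
  | succ J ih =>
    obtain ⟨T, hT, h⟩ := ih
    have h1 : (1 : ℝ) ≤ 2 ^ (J + 1) := one_le_pow₀ (by norm_num)
    have h2 : Z ≤ 2 ^ (J + 1) * Z := by nlinarith
    obtain ⟨p, hp, h3, h4⟩ := Nat.exists_prime_lt_and_le_two_mul ⌊2 ^ (J + 1) * Z⌋₊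
      (Nat.floor_pos.2 (hZ.trans h2)).ne'
    have h5 : 2 ^ (J + 1) * Z < p := (Nat.floor_lt (by linarith)).1 h3
    have h6 : (p : ℝ) ≤ 2 ^ (J + 1 + 1) * Z := by
      have h7 : (p : ℝ) ≤ 2 * (⌊2 ^ (J + 1) * Z⌋₊ : ℝ) := by exact_mod_cast h4
      have h8 : (⌊2 ^ (J + 1) * Z⌋₊ : ℝ) ≤ 2 ^ (J + 1) * Z := Nat.floor_le (by linarith)
      rw [pow_succ 2 (J + 1)]
      linarith
    have h7 : p ∉ T := fun hpT => absurd (h p hpT).2.2 (not_le.2 h5)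
    refine ⟨insert p T, by rw [Finset.card_insert_of_notMem h7, hT], fun l hl => ?_⟩
    rcases Finset.mem_insert.1 hl with rfl | hl
    · exact ⟨hp, h2.trans_lt h5, h6⟩
    · exact ⟨(h l hl).1, (h l hl).2.1, (h l hl).2.2.trans (h5.le.trans h6)⟩

/-- auxiliary primes -/
theorem exists_primes (J : ℕ) (Z : ℝ) (hZ : 1 ≤ Z) : ∃ T : Finset ℕ, T.card = J ∧
    (∀ l ∈ T, l.Prime ∧ Z < l ∧ (l : ℝ) ≤ 2 ^ (J + 1) * Z) ∧
    ∀ N : ℤ, N ≠ 0 → |(N : ℝ)| ≤ Z ^ J → J ≠ 0 → ∃ l ∈ T, ¬ (l : ℤ) ∣ N := by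
  obtain ⟨T, hT, h⟩ := exists_primes_aux J Z hZ
  refine ⟨T, hT, h, fun N hN hNZ hJ => ?_⟩
  by_contra hc
  push Not at hc
  have h1 : ∏ p ∈ T, p ∣ N.natAbs :=
    Finset.prod_primes_dvd _ (fun p hp => (h p hp).1.prime)
      (fun p hp => Int.natCast_dvd.1 (hc p hp))
  have h2 : ((∏ p ∈ T, p : ℕ) : ℝ) ≤ |(N : ℝ)| := by
    have := Nat.le_of_dvd (Int.natAbs_pos.2 hN) h1
    rw [← Int.cast_abs, ← Int.natCast_natAbs, Int.cast_natCast]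
    exact_mod_cast this
  have h3 : Z ^ T.card < ((∏ p ∈ T, p : ℕ) : ℝ) := by
    rw [← Finset.prod_const, Nat.cast_prod]
    exact Finset.prod_lt_prod_of_nonempty (fun _ _ => by linarith) (fun p hp => (h p hp).2.1)
      (Finset.card_pos.1 (by omega))
  rw [hT] at h3
  linarith

/-- a subproduct in a given range -/
theorem exists_subprod (s : Multiset ℕ) (Y B : ℝ) (hY : 1 ≤ Y) (hB : 1 ≤ B)
    (hs : ∀ p ∈ s, 1 ≤ p ∧ (p : ℝ) ≤ B) (h : Y < (s.prod : ℕ)) :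
    ∃ t ≤ s, Y < (t.prod : ℕ) ∧ ((t.prod : ℕ) : ℝ) ≤ Y * B := by
  induction s using Multiset.induction_on with
  | empty =>
    simp at h
    linarith
  | cons a s ih =>
    by_cases h1 : Y < (s.prod : ℕ)
    · obtain ⟨t, ht, h2⟩ := ih (fun p hp => hs p (Multiset.mem_cons_of_mem hp)) h1
      exact ⟨t, ht.trans (Multiset.le_cons_self s a), h2⟩
    · refine ⟨a ::ₘ s, le_rfl, h, ?_⟩
      rw [Multiset.prod_cons, Nat.cast_mul, mul_comm Y B]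
      exact mul_le_mul (hs a (Multiset.mem_cons_self a s)).2 (not_lt.1 h1) (by positivity)
        (by linarith)

theorem cnt_two_class (m d : ℕ) (c : ℤ) (hm : m ≠ 0) (hc : c ≠ 0) (hd : d ∣ m) :
    Cnt (fun Y : ℤ => 0 ≤ Y ∧ Y < m ∧ (d : ℤ) ∣ Y - c ∧ ((m / d : ℕ) : ℤ) ∣ Y + c)
      (3 * |(c : ℝ)|) := by
  refine Cnt.of_mem (by positivity) fun Y₀ h₀ => ?_
  obtain ⟨e, rfl⟩ := hd
  have hd0 : d ≠ 0 := left_ne_zero_of_mul hm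
  have he0 : e ≠ 0 := right_ne_zero_of_mul hm
  rw [Nat.mul_div_cancel_left _ (Nat.pos_of_ne_zero hd0)] at h₀ ⊢
  have hL : 1 ≤ Nat.lcm d e := Nat.pos_of_ne_zero (Nat.lcm_ne_zero hd0 he0)
  have hg : ((Nat.gcd d e : ℕ) : ℤ) ∣ 2 * c := by
    have h1 := (Int.natCast_dvd_natCast.2 (Nat.gcd_dvd_left d e)).trans h₀.2.2.1
    have h2 := (Int.natCast_dvd_natCast.2 (Nat.gcd_dvd_right d e)).trans h₀.2.2.2
    have h3 : 2 * c = (Y₀ + c) - (Y₀ - c) := by ring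
    rw [h3]
    exact dvd_sub h2 h1
  have hg1 : ((Nat.gcd d e : ℕ) : ℤ) ≤ 2 * |c| := by
    have := Int.le_of_dvd (abs_pos.2 (mul_ne_zero two_ne_zero hc)) ((dvd_abs _ _).2 hg)
    rwa [abs_mul, abs_two] at this
  have hg2 : ((Nat.gcd d e : ℕ) : ℝ) ≤ 2 * |(c : ℝ)| := by exact_mod_cast hg1
  have hc1 : (1 : ℝ) ≤ |(c : ℝ)| := by exact_mod_cast Int.one_le_abs hc
  refine (cnt_class (Nat.lcm d e) hL Y₀ (((d * e : ℕ) : ℝ) / 2) (((d * e : ℕ) : ℝ) / 2)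
    (by positivity)).mono (fun Y hY => ⟨?_, ?_⟩) ?_
  · have h1 : (0 : ℝ) ≤ Y := by exact_mod_cast hY.1
    have h2 : (Y : ℝ) < ((d * e : ℕ) : ℝ) := by exact_mod_cast hY.2.1
    rw [abs_le]
    constructor <;> linarith
  · refine Int.natCast_dvd.2 (Nat.lcm_dvd (Int.natCast_dvd.1 ?_) (Int.natCast_dvd.1 ?_))
    · have h3 : Y - Y₀ = (Y - c) - (Y₀ - c) := by ring
      rw [h3]
      exact dvd_sub hY.2.2.1 h₀.2.2.1
    · have h3 : Y - Y₀ = (Y + c) - (Y₀ + c) := by ring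
      rw [h3]
      exact dvd_sub hY.2.2.2 h₀.2.2.2
  · have h1 : ((Nat.lcm d e : ℕ) : ℝ) ≠ 0 := by exact_mod_cast (by omega : Nat.lcm d e ≠ 0)
    rw [← Nat.gcd_mul_lcm d e, Nat.cast_mul]
    have h2 : 2 * (((Nat.gcd d e : ℕ) : ℝ) * (Nat.lcm d e : ℕ) / 2) / (Nat.lcm d e : ℕ) =
        (Nat.gcd d e : ℕ) := by field_simp
    rw [h2]
    linarith

theorem cnt_sq_mod (ε : ℝ) (hε : 0 < ε) : ∃ C : ℝ, 1 ≤ C ∧ ∀ (m : ℕ) (c : ℤ), m ≠ 0 → c ≠ 0 →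
    Cnt (fun Y : ℤ => 0 ≤ Y ∧ Y < m ∧ (m : ℤ) ∣ Y ^ 2 - c ^ 2) (C * |(c : ℝ)| * (m : ℝ) ^ ε) := by
  obtain ⟨C, hC, h⟩ := cnt_divisors ε hε
  refine ⟨3 * C, by linarith, fun m c hm hc => ?_⟩
  have h1 := (h m hm).fibre
    (P := fun (d : ℕ) (Y : ℤ) => 0 ≤ Y ∧ Y < m ∧ (d : ℤ) ∣ Y - c ∧ ((m / d : ℕ) : ℤ) ∣ Y + c)
    (B' := 3 * |(c : ℝ)|) (by positivity) (fun d hd => cnt_two_class m d c hm hc hd)
  refine h1.mono (fun Y hY => ⟨Int.gcd m (Y - c), ?_, hY.1, hY.2.1, Int.gcd_dvd_right _ _, ?_⟩)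
    (le_of_eq (by ring))
  · exact Int.natCast_dvd_natCast.1 (Int.gcd_dvd_left _ _)
  · have hm' : (m : ℤ) ≠ 0 := by exact_mod_cast hm
    have hg : 0 < Int.gcd (m : ℤ) (Y - c) := Int.gcd_pos_of_ne_zero_left _ hm'
    obtain ⟨a, b, hab, ha, hb⟩ := Int.exists_gcd_one hg
    have hg' : ((Int.gcd (m : ℤ) (Y - c) : ℕ) : ℤ) ≠ 0 := by exact_mod_cast hg.ne'
    have h2 : ((m / Int.gcd (m : ℤ) (Y - c) : ℕ) : ℤ) = a := by
      rw [Int.natCast_div]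
      exact Int.ediv_eq_of_eq_mul_left hg' ha
    rw [h2]
    have h3 : a * (Int.gcd (m : ℤ) (Y - c) : ℕ) ∣ (b * (Y + c)) * (Int.gcd (m : ℤ) (Y - c) : ℕ) := by
      have h4 : (b * (Y + c)) * (Int.gcd (m : ℤ) (Y - c) : ℕ) = Y ^ 2 - c ^ 2 := by
        linear_combination (-(Y + c)) * hb
      rw [h4, ← ha]
      exact hY.2.2
    exact (Int.isCoprime_iff_gcd_eq_one.2 hab).dvd_of_dvd_mul_left
      ((mul_dvd_mul_iff_right hg').1 h3)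

theorem sum_inv_le (ε : ℝ) (hε : 0 < ε) : ∃ C : ℝ, 1 ≤ C ∧ ∀ N : ℕ,
    ∑ m ∈ Finset.Icc 1 N, (1 : ℝ) / m ≤ C * (N : ℝ) ^ ε := by
  refine ⟨1 + 1 / ε, by have := one_div_pos.2 hε; linarith, fun N => ?_⟩
  rcases Nat.eq_zero_or_pos N with rfl | hN
  · simp only [Nat.cast_zero, Real.zero_rpow hε.ne']
    simp
  have h1 : (1 : ℝ) ≤ N := by exact_mod_cast hN
  have h2 : ∑ m ∈ Finset.Icc 1 N, (1 : ℝ) / m = (harmonic N : ℝ) := by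
    rw [harmonic_eq_sum_Icc]
    simp
  have h3 := harmonic_le_one_add_log N
  have h4 := Real.log_le_rpow_div (x := (N : ℝ)) (by linarith) hε
  have h5 : (1 : ℝ) ≤ (N : ℝ) ^ ε := Real.one_le_rpow h1 hε.le
  have h6 : (1 + 1 / ε) * (N : ℝ) ^ ε = (N : ℝ) ^ ε + (N : ℝ) ^ ε / ε := by ring
  rw [h2, h6]
  linarith

end Pool.Agent.VW
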