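import Pool.Agent.P.MP_b0ea37_nt.WClf
import Pool.Agent.P.MP_b0ea37_nt.WCsq
import Pool.Agent.P.MP_b0ea37_nt.WDiv

namespace Pool.Agent.VW

open Polynomial

theorem c4_rad_le {q R : ℕ} (hR : R ≠ 0) (hp : ∀ p : ℕ, p.Prime → p ∣ q → p ∣ R) :
    ∏ p ∈ q.primeFactors, p ≤ R :=
  Nat.le_of_dvd (Nat.pos_of_ne_zero hR) (Finset.prod_primes_dvd R
    (fun _ h => (Nat.prime_of_mem_primeFactors h).prime)
    fun p h => hp p (Nat.prime_of_mem_primeFactors h) (Nat.dvd_of_mem_primeFactors h))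

/-- one type of repeated factor carries a large modulus -/
theorem exists_pw {n : ℕ} (hn : 2 ≤ n) {f : ℤ[X]} (hm : f.Monic) (hf : f.natDegree = n)
    (hi : Irr f) {q R : ℕ} (hq : (q : ℤ) ∣ Dv n f) (hR : R ≠ 0)
    (hp : ∀ p : ℕ, p.Prime → p ∣ q → p ∣ R) :
    ∃ e Q : ℕ, 1 ≤ e ∧ 2 * e ≤ n ∧ Q ≠ 0 ∧ (∀ p : ℕ, p.Prime → p ∣ Q → p ∣ R) ∧ Pw Q e 2 f ∧
      q ≤ (Q ^ n * R ^ (n + 1)) ^ n ^ 2 := by
  have hq0 : q ≠ 0 := by
    rintro rfl
    exact Irr.Dv_ne_zero hm hf hi (by simpa using hq)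
  have h1 : ∀ p : ℕ, ∃ γ e : ℕ, p.Prime → 1 ≤ e ∧ 2 * e ≤ n ∧
      q.factorization p ≤ n ^ 2 * (γ + n + 1) ∧ Pw (p ^ γ) e 2 f := by
    intro p
    by_cases hpp : p.Prime
    · obtain ⟨γ, e, h⟩ := sq_type (v := q.factorization p) hn hpp hm hf hi
        (Dvd.dvd.trans (by exact_mod_cast Nat.ordProj_dvd q p) hq)
      exact ⟨γ, e, fun _ => h⟩
    · exact ⟨0, 0, fun h => absurd h hpp⟩
  choose γ e he using h1
  set Qe : ℕ → ℕ := fun j => ∏ p ∈ q.primeFactors.filter (fun p => e p = j), p ^ γ p with hQe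
  obtain ⟨j, hj, hmax⟩ := Finset.exists_max_image (Finset.Icc 1 (n / 2)) Qe
    ⟨1, Finset.mem_Icc.mpr ⟨le_rfl, by omega⟩⟩
  rw [Finset.mem_Icc] at hj
  have hpr : ∀ p ∈ q.primeFactors.filter (fun p => e p = j), p.Prime :=
    fun p h => Nat.prime_of_mem_primeFactors (Finset.mem_filter.mp h).1
  have hQ0 : Qe j ≠ 0 := Finset.prod_ne_zero_iff.mpr fun p h => pow_ne_zero _ (hpr p h).ne_zero
  refine ⟨j, Qe j, hj.1, by omega, hQ0, ?_, ?_, ?_⟩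
  · intro p hpp hd
    obtain ⟨r, hr, hpr'⟩ := (Prime.dvd_finsetProd_iff hpp.prime _).mp hd
    have := (Nat.prime_dvd_prime_iff_eq hpp (hpr r hr)).mp (hpp.dvd_of_dvd_pow hpr')
    rw [this]
    exact hp r (hpr r hr) (Nat.dvd_of_mem_primeFactors (Finset.mem_filter.mp hr).1)
  · refine Pw.prod _ hpr γ fun p h => ?_
    rw [← (Finset.mem_filter.mp h).2]
    exact (he p (hpr p h)).2.2.2
  · have h2 : ∏ p ∈ q.primeFactors, p ^ γ p ≤ Qe j ^ n := by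
      rw [← Finset.prod_fiberwise_of_maps_to (t := Finset.Icc 1 (n / 2)) (g := e)]
      · refine (Finset.prod_le_pow_card _ _ (Qe j) hmax).trans ?_
        refine Nat.pow_le_pow_right (Nat.pos_of_ne_zero hQ0) ?_
        rw [Nat.card_Icc]
        omega
      · intro p h
        have := he p (Nat.prime_of_mem_primeFactors h)
        rw [Finset.mem_Icc]
        omega
    calc q = ∏ p ∈ q.primeFactors, p ^ q.factorization p :=
          Nat.prod_primeFactors_pow_factorization hq0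
      _ ≤ ∏ p ∈ q.primeFactors, (p ^ γ p * p ^ (n + 1)) ^ n ^ 2 := by
          refine Finset.prod_le_prod' fun p h => ?_
          have hpp := Nat.prime_of_mem_primeFactors h
          rw [← pow_add, ← pow_mul]
          refine Nat.pow_le_pow_right hpp.pos ?_
          rw [mul_comm, ← add_assoc]
          exact (he p hpp).2.2.1
      _ = ((∏ p ∈ q.primeFactors, p ^ γ p) * (∏ p ∈ q.primeFactors, p) ^ (n + 1)) ^ n ^ 2 := by
          rw [Finset.prod_pow, Finset.prod_mul_distrib, Finset.prod_pow]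
      _ ≤ (Qe j ^ n * R ^ (n + 1)) ^ n ^ 2 :=
          Nat.pow_le_pow_left (Nat.mul_le_mul h2 (Nat.pow_le_pow_left (c4_rad_le hR hp) _)) _

theorem c4_mod {n : ℕ} (hn : 5 ≤ n) {η a H : ℝ} (ha : 0 < a)
    (haη : a * ((n : ℝ) ^ 2 * (12 * n + 2)) ≤ η) (hH : 1 ≤ H)
    (hfac : ((n.factorial : ℕ) : ℝ) ≤ H ^ a) {f : ℤ[X]} (hf : Bad n f) (hT : Tiny a H f) {q : ℕ}
    (hq : (q : ℤ) ∣ Dv n f) (hq' : H ^ η < q)
    (hp : ∀ p : ℕ, p.Prime → p ∣ q → p ≤ n ∨ Weak p f) :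
    ∃ e Q : ℕ, 1 ≤ e ∧ 2 * e ≤ n ∧ H ^ (10 * a) < Q ∧ (Q : ℝ) ≤ H ^ (12 * a) ∧
      ((∏ p ∈ Q.primeFactors, p : ℕ) : ℝ) ≤ H ^ (2 * a) ∧ Pw Q e 2 f := by
  have hH0 : 0 < H := by linarith
  obtain ⟨m, hm1, hm2, hm3⟩ := hT
  have hR0 : n.factorial * m ≠ 0 := mul_ne_zero (Nat.factorial_ne_zero n) (by omega)
  have hR : ((n.factorial * m : ℕ) : ℝ) ≤ H ^ (2 * a) := by
    rw [Nat.cast_mul, two_mul, Real.rpow_add hH0]
    exact mul_le_mul hfac hm2 (Nat.cast_nonneg _) (by positivity)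
  obtain ⟨e, Q, he1, he2, hQ0, hQR, hPw, hle⟩ := exists_pw (R := n.factorial * m) (by omega)
    hf.1 hf.2.1 hf.2.2.1 hq hR0 (fun p hpp hd => (hp p hpp hd).elim
      (fun h => Dvd.dvd.mul_right ((hpp.dvd_factorial).mpr h) _)
      fun h => Dvd.dvd.mul_left (hm3 p hpp h) _)
  have hQ : H ^ (10 * a) < Q := by
    by_contra hc
    rw [not_lt] at hc
    refine absurd hq' (not_lt.mpr ?_)
    calc (q : ℝ) ≤ ((Q : ℝ) ^ n * ((n.factorial * m : ℕ) : ℝ) ^ (n + 1)) ^ n ^ 2 := by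
          exact_mod_cast hle
      _ ≤ ((H ^ (10 * a)) ^ n * (H ^ (2 * a)) ^ (n + 1)) ^ n ^ 2 := by gcongr
      _ = H ^ (a * ((n : ℝ) ^ 2 * (12 * n + 2))) := by
          rw [← Real.rpow_mul_natCast hH0.le, ← Real.rpow_mul_natCast hH0.le,
            ← Real.rpow_add hH0, ← Real.rpow_mul_natCast hH0.le]
          congr 1
          push_cast
          ring
      _ ≤ H ^ η := Real.rpow_le_rpow_of_exponent_le hH haη
  have hs : ((Q.primeFactorsList : Multiset ℕ)).prod = Q := by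
    rw [Multiset.prod_coe, Nat.prod_primeFactorsList hQ0]
  obtain ⟨t, ht, h1, h2⟩ := exists_subprod (Q.primeFactorsList : Multiset ℕ) (H ^ (10 * a))
    (H ^ (2 * a)) (Real.one_le_rpow hH (by positivity)) (Real.one_le_rpow hH (by positivity))
    (fun p h => by
      rw [Multiset.mem_coe] at h
      have hpp := Nat.prime_of_mem_primeFactorsList h
      refine ⟨hpp.one_le, le_trans ?_ hR⟩
      exact_mod_cast Nat.le_of_dvd (Nat.pos_of_ne_zero hR0)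
        (hQR p hpp (Nat.dvd_of_mem_primeFactorsList h))) (by rw [hs]; exact hQ)
  have hd : t.prod ∣ Q := hs ▸ Multiset.prod_dvd_prod_of_le ht
  refine ⟨e, t.prod, he1, he2, h1, ?_, le_trans ?_ hR, hPw.of_dvd hd⟩
  · refine h2.trans (le_of_eq ?_)
    rw [← Real.rpow_add hH0]
    congr 1
    ring
  · exact_mod_cast c4_rad_le hR0 fun p hpp h => hQR p hpp (h.trans hd)

/-- 6.4 -/
theorem ps_c4 (n : ℕ) (hn : 5 ≤ n) (η : ℝ) (hη : 0 < η) : ∃ δ : ℝ, 0 < δ ∧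
    PS n fun H f => Bad n f ∧ Tiny δ H f ∧ ∃ q : ℕ, (q : ℤ) ∣ Dv n f ∧ H ^ η < q ∧
      ∀ p : ℕ, p.Prime → p ∣ q → p ≤ n ∨ Weak p f := by
  have hn' : (5 : ℝ) ≤ n := by exact_mod_cast hn
  have hW : (12 : ℝ) ≤ (n : ℝ) ^ 2 * (12 * n + 2) := by nlinarith
  obtain ⟨a, ha, haη, ha1⟩ : ∃ a : ℝ, 0 < a ∧ a * ((n : ℝ) ^ 2 * (12 * n + 2)) ≤ η ∧
      12 * a ≤ 1 := by
    have h0 : (0 : ℝ) < (n : ℝ) ^ 2 * (12 * n + 2) := by linarith
    have h1 : 0 < min 1 η := lt_min one_pos hη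
    refine ⟨min 1 η / ((n : ℝ) ^ 2 * (12 * n + 2)), div_pos h1 h0, ?_, ?_⟩
    · rw [div_mul_cancel₀ _ h0.ne']
      exact min_le_right _ _
    · rw [← mul_div_assoc, div_le_one h0]
      nlinarith [min_le_left 1 η]
  obtain ⟨H₀, hH₀, hfac⟩ := exists_pow_ge (n.factorial : ℕ) a ha
  obtain ⟨C₀, hC₀, hfam⟩ := fam_cnt n hn (a / 2) (by positivity)
  obtain ⟨C₁, hC₁, hrad⟩ := cnt_small_rad (a / 2) (by positivity)
  refine ⟨a, ha, PS.of_lt ((n : ℝ) - 1 - a) ((n + 1) * (C₁ * C₀)) H₀ (by linarith) ?_⟩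
  intro H hH
  have hH1 : 1 ≤ H := hH₀.trans hH
  have hH0 : 0 < H := by linarith
  have hpow : ∀ x : ℝ, x ≤ 1 → H ^ x ≤ H := fun x hx => by
    simpa using Real.rpow_le_rpow_of_exponent_le hH1 hx
  have c1 : Cnt (fun e : ℕ => 1 ≤ e ∧ 2 * e ≤ n) ((n : ℝ) + 1) :=
    (cnt_nat_le n (Nat.cast_nonneg _)).mono (fun e h => by exact_mod_cast (by omega : e ≤ n)) le_rfl
  have c2 : Cnt (fun Q : ℕ => H ^ (10 * a) < Q ∧ (Q : ℝ) ≤ H ^ (12 * a) ∧
      ((∏ p ∈ Q.primeFactors, p : ℕ) : ℝ) ≤ H ^ (2 * a)) (C₁ * H ^ (a / 2) * H ^ (2 * a)) := by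
    refine (hrad H (H ^ (2 * a)) (Real.one_le_rpow hH1 (by positivity))
      (hpow _ (by linarith))).mono (fun Q h => ⟨?_, h.2.1.trans (hpow _ ha1), h.2.2⟩) le_rfl
    rintro rfl
    exact absurd h.1 (not_lt.mpr (by rw [Nat.cast_zero]; positivity))
  have c3 : ∀ e : ℕ, 1 ≤ e ∧ 2 * e ≤ n → ∀ Q : ℕ, H ^ (10 * a) < Q ∧ (Q : ℝ) ≤ H ^ (12 * a) ∧
      ((∏ p ∈ Q.primeFactors, p : ℕ) : ℝ) ≤ H ^ (2 * a) →
      Cnt (fun f => Box n H f ∧ Bad n f ∧ Tiny a H f ∧ Pw Q e 2 f)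
        (C₀ * H ^ ((n : ℝ) - 1 + a + a / 2) * H ^ (-(5 * a))) := by
    intro e he Q hQ
    have hQ1 : (1 : ℝ) ≤ Q := (Real.one_le_rpow hH1 (by positivity)).trans hQ.1.le
    have he1 : (1 : ℝ) ≤ e := by exact_mod_cast he.1
    refine (hfam H a ((e : ℝ) / 2) Q e 2 hH1 ha.le (by linarith) (by exact_mod_cast hQ1)
      (by linarith [hQ.2.1.trans (hpow _ ha1)]) he.2 (by push_cast; nlinarith)).mono
      (fun _ h => h) ?_
    refine mul_le_mul_of_nonneg_left ?_ (by positivity)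
    calc (Q : ℝ) ^ ((e : ℝ) - ((2 : ℕ) : ℝ) * e + e / 2) ≤ (Q : ℝ) ^ (-(1 / 2) : ℝ) :=
          Real.rpow_le_rpow_of_exponent_le hQ1 (by push_cast; linarith)
      _ ≤ (H ^ (10 * a)) ^ (-(1 / 2) : ℝ) :=
          Real.rpow_le_rpow_of_nonpos (by positivity) hQ.1.le (by norm_num)
      _ = H ^ (-(5 * a)) := by
          rw [← Real.rpow_mul hH0.le]
          congr 1
          ring
  refine (c1.fibre (by positivity) fun e he => c2.fibre (by positivity) (c3 e he)).mono ?_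
    (le_of_eq ?_)
  · rintro f ⟨hB, hf, hT, q, h1, h2, h3⟩
    obtain ⟨e, Q, k1, k2, k3, k4, k5, k6⟩ := c4_mod hn ha haη hH1 (hfac H hH) hf hT h1 h2 h3
    exact ⟨e, ⟨k1, k2⟩, Q, ⟨k3, k4, k5⟩, hB, hf, hT, k6⟩
  · have e : H ^ ((n : ℝ) - 1 - a) = H ^ (a / 2) * H ^ (2 * a) *
        (H ^ ((n : ℝ) - 1 + a + a / 2) * H ^ (-(5 * a))) := by
      rw [← Real.rpow_add hH0, ← Real.rpow_add hH0, ← Real.rpow_add hH0]
      congr 1
      ring
    rw [e]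
    ring

end Pool.Agent.VW
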