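import Pool.Agent.P.MP_b0ea37_nt.WCnt

namespace Pool.Agent.VW

open Polynomial

open MeasureTheory Metric in
theorem wpack_idx {α E : Type} [NormedAddCommGroup E] [NormedSpace ℝ E] (V : Submodule ℝ E) (k : ℕ)
    [Module.Finite ℝ V] (hk : Module.finrank ℝ V ≤ k) (R ρ : ℝ) (hR : 0 ≤ R) (hρ : 0 < ρ)
    (S : Finset α) (φ : α → E) (hV : ∀ x ∈ S, ∀ y ∈ S, φ x - φ y ∈ V)
    (hS : ∀ x ∈ S, ∀ y ∈ S, ‖φ x - φ y‖ ≤ R)
    (hsep : ∀ x ∈ S, ∀ y ∈ S, x ≠ y → ρ ≤ ‖φ x - φ y‖) : (S.card : ℝ) ≤ (1 + 2 * R / ρ) ^ k := by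
  classical
  rcases S.eq_empty_or_nonempty with rfl | ⟨x₀, hx₀⟩
  · simpa using pow_nonneg (by positivity) k
  borelize ↥V
  let μ : Measure V := Measure.addHaar
  let ψ : α → V := fun x => if hx : x ∈ S then ⟨φ x - φ x₀, hV x hx x₀ hx₀⟩ else 0
  have hψ : ∀ x ∈ S, (ψ x : E) = φ x - φ x₀ := fun x hx => by simp only [ψ, dif_pos hx]
  have hd : (S : Set α).PairwiseDisjoint fun x => ball (ψ x) (ρ / 2) := by
    intro x hx y hy hxy
    refine ball_disjoint_ball ?_
    rw [Subtype.dist_eq, dist_eq_norm, hψ x hx, hψ y hy, sub_sub_sub_cancel_right, add_halves]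
    exact hsep x hx y hy hxy
  have hsub : ⋃ x ∈ S, ball (ψ x) (ρ / 2) ⊆ ball 0 (R + ρ / 2) := by
    refine Set.iUnion₂_subset fun x hx => ball_subset_ball' ?_
    rw [Subtype.dist_eq, dist_eq_norm, hψ x hx, Submodule.coe_zero, sub_zero]
    linarith [hS x hx x₀ hx₀]
  have h1 := measure_mono (μ := μ) hsub
  rw [measure_biUnion_finset hd fun _ _ => measurableSet_ball,
    Finset.sum_congr rfl fun x _ => μ.addHaar_ball_of_pos (ψ x) (half_pos hρ),
    μ.addHaar_ball_of_pos _ (show 0 < R + ρ / 2 by positivity), Finset.sum_const, nsmul_eq_mul,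
    ← mul_assoc, ENNReal.mul_le_mul_iff_left (measure_ball_pos μ _ one_pos).ne'
      measure_ball_lt_top.ne, ← ENNReal.ofReal_natCast, ← ENNReal.ofReal_mul (Nat.cast_nonneg _),
    ENNReal.ofReal_le_ofReal_iff (by positivity), ← le_div_iff₀ (by positivity), ← div_pow] at h1
  have e : (R + ρ / 2) / (ρ / 2) = 1 + 2 * R / ρ := by field_simp; ring
  rw [e] at h1
  exact h1.trans (pow_le_pow_right₀ (le_add_of_nonneg_right (by positivity)) hk)

/-- packing in a subspace of dimension at most `k` -/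
theorem pack {E : Type} [NormedAddCommGroup E] [NormedSpace ℝ E] (V : Submodule ℝ E) (k : ℕ)
    [Module.Finite ℝ V] (hk : Module.finrank ℝ V ≤ k) (R ρ : ℝ) (hR : 0 ≤ R) (hρ : 0 < ρ)
    (S : Finset E) (hV : ∀ x ∈ S, ∀ y ∈ S, x - y ∈ V) (hS : ∀ x ∈ S, ∀ y ∈ S, ‖x - y‖ ≤ R)
    (hsep : ∀ x ∈ S, ∀ y ∈ S, x ≠ y → ρ ≤ ‖x - y‖) : (S.card : ℝ) ≤ (1 + 2 * R / ρ) ^ k :=
  wpack_idx V k hk R ρ hR hρ S id hV hS hsep

/-- the same for an indexed family and a seminorm -/
theorem pack_semi {α E : Type} [AddCommGroup E] [Module ℝ E] (p : Seminorm ℝ E)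
    (V : Submodule ℝ E) (k : ℕ) [Module.Finite ℝ V] (hk : Module.finrank ℝ V ≤ k) (R ρ : ℝ)
    (hR : 0 ≤ R) (hρ : 0 < ρ) (S : Finset α) (φ : α → E)
    (hV : ∀ x ∈ S, ∀ y ∈ S, φ x - φ y ∈ V) (hS : ∀ x ∈ S, ∀ y ∈ S, p (φ x - φ y) ≤ R)
    (hsep : ∀ x ∈ S, ∀ y ∈ S, x ≠ y → ρ ≤ p (φ x - φ y)) :
    (S.card : ℝ) ≤ (1 + 2 * R / ρ) ^ k := by
  let q : Seminorm ℝ V := p.comp V.subtype
  let K : Submodule ℝ V :=
    { carrier := {v | q v = 0}
      add_mem' := fun {a b} ha hb => le_antisymm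
        ((map_add_le_add q a b).trans (by rw [ha, hb, add_zero])) (apply_nonneg q _)
      zero_mem' := map_zero q
      smul_mem' := fun c v hv => by
        change q (c • v) = 0
        rw [map_smul_eq_mul, hv, mul_zero] }
  obtain ⟨W, hW⟩ := K.exists_isCompl
  rcases S.eq_empty_or_nonempty with rfl | ⟨x₀, hx₀⟩
  · simpa using pow_nonneg (by positivity) k
  let π : V →ₗ[ℝ] W := W.projectionOnto K hW.symm
  have hπ : ∀ v : V, q (π v) = q v := by
    intro v
    have h1 : v - π v ∈ K := by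
      rw [← Submodule.projectionOnto_apply_eq_zero_iff hW.symm, map_sub,
        Submodule.projectionOnto_apply_left, sub_self]
    have h2 : q (v - π v) = 0 := h1
    refine le_antisymm ?_ ?_
    · have := map_sub_le_add q v (v - π v)
      rwa [sub_sub_cancel, h2, add_zero] at this
    · have := map_add_le_add q (π v : V) (v - π v)
      rwa [add_sub_cancel, h2, add_zero] at this
  let r : Seminorm ℝ W := q.comp W.subtype
  let _ : NormedAddCommGroup W := AddGroupNorm.toNormedAddCommGroup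
    { r.toAddGroupSeminorm with
      eq_zero_of_map_eq_zero' := fun w hw => Subtype.ext
        ((Submodule.disjoint_def.1 hW.disjoint) w hw w.2) }
  let _ : NormedSpace ℝ W := ⟨fun c w => (map_smul_eq_mul r c w).le⟩
  classical
  let ψ : α → W := fun x => if hx : x ∈ S then π ⟨φ x - φ x₀, hV x hx x₀ hx₀⟩ else 0
  have hψ : ∀ x ∈ S, ∀ y ∈ S, ‖ψ x - ψ y‖ = p (φ x - φ y) := by
    intro x hx y hy
    simp only [ψ, dif_pos hx, dif_pos hy, ← map_sub]
    refine (hπ _).trans ?_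
    simp [q]
  refine wpack_idx (E := W) ⊤ k ?_ R ρ hR hρ S ψ (fun _ _ _ _ => trivial)
    (fun x hx y hy => by rw [hψ x hx y hy]; exact hS x hx y hy)
    (fun x hx y hy h => by rw [hψ x hx y hy]; exact hsep x hx y hy h)
  rw [finrank_top]
  exact W.finrank_le.trans hk

/-- cells for tuples with a conjugation symmetry -/
theorem grid {n : ℕ} (s : Equiv.Perm (Fin n)) (hs : ∀ i, s (s i) = i) (m e : Fin n → ℝ)
    (hm : ∀ i, 0 ≤ m i) (he : ∀ i, 0 < e i) (hes : ∀ i, e (s i) = e i) :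
    ∃ (cell : (Fin n → ℂ) → (Fin n → ℤ)) (Q : (Fin n → ℤ) → Prop),
      Cnt Q (∏ i, (3 + 8 * m i / e i)) ∧
      (∀ β : Fin n → ℂ, (∀ i, ‖β i‖ ≤ m i) → Q (cell β)) ∧
      ∀ β β' : Fin n → ℂ, (∀ i, β (s i) = starRingEnd ℂ (β i)) →
        (∀ i, β' (s i) = starRingEnd ℂ (β' i)) → cell β = cell β' → ∀ i, ‖β i - β' i‖ ≤ e i := by
  refine ⟨fun β i => ⌊((β i).re + (β i).im) / e i⌋,
    fun z => ∀ i, |(z i : ℝ)| ≤ 2 * m i / e i + 1, ?_, ?_, ?_⟩
  · refine (Cnt.pi fun i => cnt_int_abs (2 * m i / e i + 1)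
      (by have := hm i; have := he i; positivity)).mono (fun _ h => h) ?_
    refine Finset.prod_le_prod (fun i _ => by have := hm i; have := he i; positivity)
      fun i _ => ?_
    have : 0 ≤ m i / e i := div_nonneg (hm i) (he i).le
    rw [mul_div_assoc, mul_div_assoc]
    linarith
  · intro β hβ i
    have h1 := abs_le.1 ((Complex.abs_re_le_norm (β i)).trans (hβ i))
    have h2 := abs_le.1 ((Complex.abs_im_le_norm (β i)).trans (hβ i))
    have h3 : ((β i).re + (β i).im) / e i ≤ 2 * m i / e i :=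
      div_le_div_of_nonneg_right (by linarith) (he i).le
    have h4 : -(2 * m i / e i) ≤ ((β i).re + (β i).im) / e i := by
      rw [← neg_div]; exact div_le_div_of_nonneg_right (by linarith) (he i).le
    have h5 := Int.floor_le (((β i).re + (β i).im) / e i)
    have h6 := Int.lt_floor_add_one (((β i).re + (β i).im) / e i)
    exact abs_le.2 ⟨by linarith, by linarith⟩
  · intro β β' hβ hβ' hc i
    have key : ∀ j, (((β j).re + (β j).im) - ((β' j).re + (β' j).im)) ^ 2 ≤ e j ^ 2 := by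
      intro j
      have h1 := Int.abs_sub_lt_one_of_floor_eq_floor (congrFun hc j)
      rw [← sub_div, abs_div, abs_of_pos (he j), div_lt_one (he j)] at h1
      exact sq_le_sq' (by linarith [(abs_lt.1 h1).1]) (abs_lt.1 h1).2.le
    have h1 := key i
    have h2 := key (s i)
    rw [hβ, hβ', hes] at h2
    simp only [Complex.conj_re, Complex.conj_im] at h2
    refine abs_le_of_sq_le_sq' ?_ (he i).le |>.2
    rw [Complex.sq_norm, Complex.normSq_apply, Complex.sub_re, Complex.sub_im]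
    nlinarith

/-- a basis chosen from a finite set, in which all its points have coordinates at most one -/
theorem maxdet {α E : Type} [AddCommGroup E] [Module ℚ E] (S : Finset α) (φ : α → E) :
    ∃ (ρ : ℕ) (b : Fin ρ → α), (∀ i, b i ∈ S) ∧ LinearIndependent ℚ (fun i => φ (b i)) ∧
      ∀ a ∈ S, ∃ c : Fin ρ → ℚ, (∀ i, |c i| ≤ 1) ∧ φ a = ∑ i, c i • φ (b i) := by
  classical
  let V := Submodule.span ℚ (φ '' S)
  have : Module.Finite ℚ V := Module.Finite.span_of_finite ℚ (S.finite_toSet.image φ)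
  let ρ := Module.finrank ℚ V
  let e := Module.finBasis ℚ V
  let ψ : S → V := fun a => ⟨φ a, Submodule.subset_span ⟨a, a.2, rfl⟩⟩
  have hsp : Submodule.span ℚ (Set.range ψ) = ⊤ := by
    apply Submodule.map_injective_of_injective V.injective_subtype
    rw [Submodule.map_span, Submodule.map_top, Submodule.range_subtype, ← Set.range_comp]
    congr 1
    ext y
    simp [ψ]
  obtain ⟨b₀, hb₀, hli₀, hsp₀⟩ := Submodule.exists_fun_fin_finrank_span_eq ℚ (Set.range ψ)
  have hρ : Module.finrank ℚ (Submodule.span ℚ (Set.range ψ)) = ρ := by rw [hsp, finrank_top]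
  have h0 : ∃ b : Fin ρ → S, e.det (fun i => ψ (b i)) ≠ 0 := by
    revert b₀
    rw [hρ]
    intro b₀ hb₀ hli₀ hsp₀
    choose b hb using hb₀
    refine ⟨b, ?_⟩
    simp only [hb]
    exact ((e.is_basis_iff_det).1 ⟨hsp₀, hli₀.trans hsp⟩).ne_zero
  obtain ⟨b₁, hb₁⟩ := h0
  obtain ⟨b, -, hb⟩ := Finset.exists_max_image Finset.univ
    (fun b : Fin ρ → S => |e.det (fun i => ψ (b i))|) ⟨b₁, Finset.mem_univ _⟩
  have hpos : 0 < |e.det (fun i => ψ (b i))| := (abs_pos.2 hb₁).trans_le (hb b₁ (Finset.mem_univ _))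
  obtain ⟨hli, hspan⟩ := (e.is_basis_iff_det (v := fun i => ψ (b i))).2
    (abs_pos.1 hpos).isUnit
  let B := Module.Basis.mk hli hspan.ge
  refine ⟨ρ, fun i => b i, fun i => (b i).2, hli.map' V.subtype V.ker_subtype, fun a ha => ?_⟩
  refine ⟨fun i => B.repr (ψ ⟨a, ha⟩) i, fun i => ?_, ?_⟩
  · have h1 := congrArg (fun L => L (ψ ⟨a, ha⟩)) (e.det_smul_mk_coord_eq_det_update hli hspan.ge i)
    have h2 := hb (Function.update b i ⟨a, ha⟩) (Finset.mem_univ _)
    have h3 : (fun j => ψ (Function.update b i ⟨a, ha⟩ j)) =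
        Function.update (fun j => ψ (b j)) i (ψ ⟨a, ha⟩) := Function.comp_update ψ b i _
    simp only [LinearMap.smul_apply, smul_eq_mul, MultilinearMap.toLinearMap_apply,
      AlternatingMap.coe_multilinearMap] at h1
    rw [h3, ← h1, abs_mul] at h2
    exact (mul_le_iff_le_one_right hpos).1 h2
  · have := congrArg V.subtype (B.sum_repr (ψ ⟨a, ha⟩))
    rw [map_sum] at this
    refine this.symm.trans (Finset.sum_congr rfl fun i _ => ?_)
    simp [B, ψ]

end Pool.Agent.VW
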