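import Pool.Agent.P.MP_b0ea37_nt.WLine
import Pool.Agent.P.MP_b0ea37_nt.WPack
import Pool.Agent.P.MP_b0ea37_nt.WPad
import Pool.Agent.P.MP_b0ea37_nt.WC2b
import Pool.Agent.P.MP_b0ea37_nt.WC4

namespace Pool.Agent.VW

open Polynomial

/-- C1, C2: small discriminant -/
theorem ps_smallD (n : ℕ) (hn : 5 ≤ n) (η : ℝ) (hη : 0 < η) : ∃ δ : ℝ, 0 < δ ∧
    PS n fun H f => Bad n f ∧ Tiny δ H f ∧
      |((Dv n f : ℤ) : ℝ)| < H ^ (2 * (n : ℝ) - 2 - η) := by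
  obtain ⟨κ, hκ, -, hκ1, h2⟩ := ps_c2 n hn η hη
  refine ⟨κ / 2, by linarith, ((ps_c1 n hn κ hκ hκ1).or h2).mono 1 fun H hH f _ ⟨hb, ht, hc⟩ => ?_⟩
  by_cases c1 : |((f.coeff (n - 1) : ℤ) : ℝ)| < H ^ (1 - κ)
  · exact Or.inl ⟨hb, ht, c1⟩
  · exact Or.inr ⟨hb, ht.mono (by linarith) hH, not_lt.1 c1, hc⟩

/-- C4: a large part of the discriminant on weak or small primes -/
theorem ps_weakpart (n : ℕ) (hn : 5 ≤ n) (η : ℝ) (hη : 0 < η) : ∃ δ : ℝ, 0 < δ ∧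
    PS n fun H f => Bad n f ∧ Tiny δ H f ∧ ∃ q : ℕ, (q : ℤ) ∣ Dv n f ∧ H ^ η < q ∧
      ∀ p : ℕ, p.Prime → p ∣ q → p ≤ n ∨ Weak p f := ps_c4 n hn η hη

end Pool.Agent.VW
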