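import Pool.Agent.P.MP_b0ea37_nt.WDefs

namespace Pool.Agent.VW

open Polynomial

/-- derivative in the coefficient variable -/
noncomputable def dr : Derivation ℤ ℂ[X][X] ℂ[X][X] :=
  letI : Differential ℂ[X] := ⟨(Polynomial.derivative' (R := ℂ)).restrictScalars ℤ⟩
  Differential.mapCoeffs

theorem dr_coeff (P : ℂ[X][X]) (i : ℕ) : (dr P).coeff i = derivative (P.coeff i) := rfl

theorem dr_C_mul_map (w a : ℂ[X]) : dr (C w * a.map C) = C (derivative w) * a.map C := by
  ext1 i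
  rw [dr_coeff, coeff_C_mul, coeff_C_mul, coeff_map, derivative_mul, derivative_C, mul_zero,
    add_zero]

/-- a multiple root of a family is a root of the derivative in the parameter -/
theorem env {L : Type} [Field L] (φ : ℂ[X] →+* L) (hφ : Function.Injective φ) (ξ : L)
    (P : ℂ[X][X]) (hP : P ≠ 0) (h0 : P.eval₂ φ ξ = 0) (h1 : (derivative P).eval₂ φ ξ = 0) :
    (dr P).eval₂ φ ξ = 0 := by
  classical
  have hex : ∃ d : ℕ, ∃ π : ℂ[X][X], π ≠ 0 ∧ π.eval₂ φ ξ = 0 ∧ π.natDegree = d :=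
    ⟨_, P, hP, h0, rfl⟩
  obtain ⟨π, hπ, hπ0, hd⟩ := Nat.find_spec hex
  have hmin : ∀ Q : ℂ[X][X], Q.eval₂ φ ξ = 0 → Q.natDegree < π.natDegree → Q = 0 := by
    intro Q hQ hlt
    by_contra hne
    exact Nat.find_min hex (hd ▸ hlt) ⟨Q, hne, hQ, rfl⟩
  have hφ0 : ∀ a : ℂ[X], a ≠ 0 → φ a ≠ 0 := fun a ha h => ha (hφ (h.trans φ.map_zero.symm))
  have hpos : 0 < π.natDegree := by
    by_contra h
    have e := eq_C_of_natDegree_eq_zero (Nat.eq_zero_of_not_pos h)
    rw [e, eval₂_C] at hπ0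
    exact hφ0 _ (fun h' => hπ (by rw [e, h', C_0])) hπ0
  have hdiv : ∀ (m : ℕ) (Q : ℂ[X][X]), Q.natDegree = m → Q.eval₂ φ ξ = 0 →
      ∃ a : ℂ[X], a ≠ 0 ∧ ∃ h, C a * Q = π * h := by
    intro m
    induction m using Nat.strong_induction_on with
    | _ m ih =>
      intro Q hm hQ
      by_cases hlt : Q.natDegree < π.natDegree
      · exact ⟨1, one_ne_zero, 0, by rw [hmin Q hQ hlt]; simp⟩
      have hle := not_lt.1 hlt
      obtain ⟨a, ha, h, e⟩ := ih _
        (hm ▸ natDegree_cancelLeads_lt_of_natDegree_le_natDegree hle (hpos.trans_le hle)) _ rfl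
        (by simp only [cancelLeads, eval₂_sub, eval₂_mul, hQ, hπ0, mul_zero, sub_zero])
      rw [cancelLeads, Nat.sub_eq_zero_of_le hle, pow_zero, mul_one] at e
      refine ⟨a * π.leadingCoeff, mul_ne_zero ha (leadingCoeff_ne_zero.2 hπ),
        h + C a * (C Q.leadingCoeff * X ^ (Q.natDegree - π.natDegree)), ?_⟩
      rw [C_mul]
      linear_combination e
  obtain ⟨a, ha, h, e⟩ := hdiv _ P rfl h0
  have hπ1 : (derivative π).eval₂ φ ξ ≠ 0 := fun h' =>
    hpos.ne' (derivative_eq_zero.1 (hmin _ h' (natDegree_derivative_lt hpos.ne')))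
  have e1 := congrArg (fun Q => (derivative Q).eval₂ φ ξ) e
  simp only [derivative_mul, derivative_C, zero_mul, zero_add, eval₂_mul, eval₂_add, h1, hπ0,
    mul_zero, add_zero] at e1
  have hh : h.eval₂ φ ξ = 0 := (mul_eq_zero.1 e1.symm).resolve_left hπ1
  have e2 := congrArg (fun Q => (dr Q).eval₂ φ ξ) e
  simp only [Derivation.leibniz, smul_eq_mul, eval₂_add, eval₂_mul, h0, hπ0, hh, zero_mul,
    add_zero, eval₂_C] at e2
  exact (mul_eq_zero.1 e2).resolve_left (hφ0 a ha)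

/-- vanishing Wronskian of two polynomials -/
theorem exists_C_mul_of_wr {a b : ℂ[X]} (hb : b ≠ 0) (h : a * derivative b = derivative a * b) :
    ∃ c : ℂ, a = C c * b := by
  classical
  obtain ⟨a', b', ha', hb', hu⟩ := extract_gcd a b
  have hc : IsCoprime a' b' := (gcd_isUnit_iff a' b').1 hu
  generalize gcd a b = g at ha' hb'
  subst ha' hb'
  have hg : g ≠ 0 := left_ne_zero_of_mul hb
  have hw : wronskian a' b' = 0 := by
    have : g ^ 2 * wronskian a' b' = 0 := by
      rw [derivative_mul, derivative_mul] at h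
      rw [wronskian]
      linear_combination h
    exact (mul_eq_zero.1 this).resolve_left (pow_ne_zero _ hg)
  obtain ⟨h1, h2⟩ := hc.wronskian_eq_zero_iff.1 hw
  obtain ⟨x, rfl⟩ : ∃ x, a' = C x := ⟨_, eq_C_of_derivative_eq_zero h1⟩
  obtain ⟨y, rfl⟩ : ∃ y, b' = C y := ⟨_, eq_C_of_derivative_eq_zero h2⟩
  have hb0 : y ≠ 0 := fun h0 => hb (by rw [h0, C_0, mul_zero])
  refine ⟨x / y, ?_⟩
  rw [mul_left_comm, ← C_mul, div_mul_cancel₀ _ hb0]

/-- clearing denominators with a degree bound -/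
theorem clear_den {σ : Type} (P : MvPolynomial σ ℤ) : ∃ N : ℕ, ∀ (b : ℕ) (w : ℂ[X])
    (v : σ → ℂ[X]), w.natDegree ≤ b → (∀ i, (v i).natDegree ≤ b) →
    ∃ T : ℂ[X], T.natDegree ≤ N * b ∧ ∀ (F : Type) [Field F] (φ : ℂ[X] →+* F), φ w ≠ 0 →
      φ T = φ w ^ N * MvPolynomial.eval₂ (Int.castRingHom F) (fun i => (φ w)⁻¹ * φ (v i)) P := by
  induction P using MvPolynomial.induction_on with
  | C a =>
    exact ⟨0, fun b w v _ _ =>
      ⟨a, by simp, fun F _ φ _ => by rw [MvPolynomial.eval₂_C]; simp⟩⟩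
  | add p q hp hq =>
    obtain ⟨N, hN⟩ := hp
    obtain ⟨M, hM⟩ := hq
    refine ⟨N + M, fun b w v hw hv => ?_⟩
    obtain ⟨T, hT, eT⟩ := hN b w v hw hv
    obtain ⟨U, hU, eU⟩ := hM b w v hw hv
    have hpow : ∀ k : ℕ, (w ^ k).natDegree ≤ k * b := fun k =>
      natDegree_pow_le.trans (Nat.mul_le_mul_left _ hw)
    refine ⟨T * w ^ M + U * w ^ N, (natDegree_add_le _ _).trans (max_le ?_ ?_), fun F _ φ h => ?_⟩
    · exact natDegree_mul_le.trans (by rw [add_mul]; exact add_le_add hT (hpow M))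
    · exact natDegree_mul_le.trans (by rw [add_comm N, add_mul]; exact add_le_add hU (hpow N))
    · rw [map_add, map_mul, map_mul, map_pow, map_pow, eT F φ h, eU F φ h, MvPolynomial.eval₂_add]
      ring
  | mul_X p i hp =>
    obtain ⟨N, hN⟩ := hp
    refine ⟨N + 1, fun b w v hw hv => ?_⟩
    obtain ⟨T, hT, eT⟩ := hN b w v hw hv
    refine ⟨T * v i, natDegree_mul_le.trans (by rw [add_mul, one_mul]; exact add_le_add hT (hv i)),
      fun F _ φ h => ?_⟩
    rw [map_mul, eT F φ h, MvPolynomial.eval₂_mul, MvPolynomial.eval₂_X]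
    field_simp
    ring

/-- a member of a pencil has a root outside a given finite set -/
theorem pencil {A₁ A₂ B : ℂ[X]} (hA : ∀ a b : ℂ, C a * A₁ + C b * A₂ = 0 → a = 0 ∧ b = 0)
    (hB : B ≠ 0) {K : ℕ} (hK : B.natDegree ≤ K) :
    ∃ c : ℕ, c ≤ K + 1 ∧ ∃ r : ℂ, A₁.eval r + c * A₂.eval r = 0 ∧ B.eval r ≠ 0 := by
  classical
  obtain ⟨a₁, a₂, h1, h2, hu⟩ := extract_gcd A₁ A₂
  have hcop : IsCoprime a₁ a₂ := (gcd_isUnit_iff a₁ a₂).1 hu
  generalize gcd A₁ A₂ = g at h1 h2
  subst h1 h2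
  have hroot : ∀ c c' : ℕ, c ≠ c' → (∃ r : ℂ, a₁.eval r + c * a₂.eval r = 0) ∨
      ∃ r : ℂ, a₁.eval r + c' * a₂.eval r = 0 := by
    intro c c' hcc
    have key : ∀ c : ℕ, (¬ ∃ r : ℂ, a₁.eval r + c * a₂.eval r = 0) →
        ∃ u : ℂ, a₁ + C (c : ℂ) * a₂ = C u := fun c hc => by
      refine ⟨_, eq_C_of_degree_le_zero (not_lt.1 fun hlt => hc ?_)⟩
      obtain ⟨r, hr⟩ := IsAlgClosed.exists_root _ hlt.ne'
      exact ⟨r, by simpa using hr⟩
    by_contra hn
    obtain ⟨u, hu⟩ := key c fun h => hn (Or.inl h)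
    obtain ⟨u', hu'⟩ := key c' fun h => hn (Or.inr h)
    have h0 := hA (u' - u) (u' * c - u * c') (by
      simp only [C_sub, C_mul]
      linear_combination g * C u' * hu - g * C u * hu')
    have huu : u' = u := sub_eq_zero.1 h0.1
    have hu0 : u = 0 := by
      have : u * ((c : ℂ) - c') = 0 := by rw [← h0.2, huu]; ring
      exact (mul_eq_zero.1 this).resolve_right (sub_ne_zero.2 (Nat.cast_injective.ne hcc))
    have := hA 1 c (by rw [hu0, C_0] at hu; rw [C_1]; linear_combination g * hu)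
    exact one_ne_zero this.1
  by_contra hn
  push Not at hn
  let S := (Finset.range (K + 2)).filter fun c : ℕ => ∃ r : ℂ, a₁.eval r + c * a₂.eval r = 0
  have hS : K + 1 ≤ S.card := by
    have h3 := Finset.card_filter_add_card_filter_not (s := Finset.range (K + 2))
      fun c : ℕ => ∃ r : ℂ, a₁.eval r + c * a₂.eval r = 0
    have h4 : ((Finset.range (K + 2)).filter
        fun c : ℕ => ¬ ∃ r : ℂ, a₁.eval r + c * a₂.eval r = 0).card ≤ 1 :=
      Finset.card_le_one.2 fun c hc c' hc' => by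
        by_contra hne
        exact (hroot c c' hne).elim (Finset.mem_filter.1 hc).2 (Finset.mem_filter.1 hc').2
    rw [Finset.card_range] at h3
    change K + 1 ≤ (Finset.filter _ _).card
    omega
  have hch : ∀ c : ℕ, ∃ r : ℂ, c ∈ S → a₁.eval r + c * a₂.eval r = 0 := fun c => by
    by_cases h : c ∈ S
    · obtain ⟨r, hr⟩ := (Finset.mem_filter.1 h).2
      exact ⟨r, fun _ => hr⟩
    · exact ⟨0, fun h' => absurd h' h⟩
  choose ρ hρ using hch
  have hle : S.card ≤ B.roots.toFinset.card := by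
    refine Finset.card_le_card_of_injOn ρ (fun c hc => ?_) fun c hc c' hc' e => ?_
    · have hc1 := Finset.mem_range.1 (Finset.mem_filter.1 hc).1
      refine Multiset.mem_toFinset.2 ((mem_roots hB).2 (hn c (by omega) _ ?_))
      rw [eval_mul, eval_mul]
      linear_combination g.eval (ρ c) * hρ c hc
    · by_contra hne
      have e1 := hρ c hc
      have e2 := hρ c' hc'
      rw [← e] at e2
      have h5 : a₂.eval (ρ c) = 0 := by
        have : ((c : ℂ) - c') * a₂.eval (ρ c) = 0 := by linear_combination e1 - e2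
        exact (mul_eq_zero.1 this).resolve_left (sub_ne_zero.2 (Nat.cast_injective.ne hne))
      have h6 : a₁.eval (ρ c) = 0 := by rwa [h5, mul_zero, add_zero] at e1
      obtain ⟨u, v, huv⟩ := hcop
      have := congrArg (eval (ρ c)) huv
      simp [h5, h6] at this
  have := (Multiset.toFinset_card_le _).trans (card_roots' B)
  omega

theorem Indep.complex {g₁ g₂ : ℤ[X]} (h : Indep g₁ g₂) (a b : ℂ)
    (e : C a * up ℂ g₁ + C b * up ℂ g₂ = 0) : a = 0 ∧ b = 0 := by
  have hc : ∀ j, a * g₁.coeff j + b * g₂.coeff j = 0 := fun j => by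
    simpa using congrArg (fun p => p.coeff j) e
  have h2 : g₂ ≠ 0 := fun h0 => one_ne_zero (h 0 1 (by simp [h0])).2
  have hi : g₂.coeff g₂.natDegree ≠ 0 := leadingCoeff_ne_zero.2 h2
  have ha : a = 0 := by
    by_contra ha
    refine hi (h _ (-g₁.coeff g₂.natDegree) ?_).1
    ext j
    rw [coeff_add, coeff_C_mul, coeff_C_mul, coeff_zero]
    have : a * ((g₂.coeff g₂.natDegree * g₁.coeff j + -g₁.coeff g₂.natDegree * g₂.coeff j : ℤ) : ℂ)
        = 0 := by
      push_cast
      linear_combination (g₂.coeff g₂.natDegree : ℂ) * hc j - (g₂.coeff j : ℂ) * hc g₂.natDegree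
    exact_mod_cast (mul_eq_zero.1 this).resolve_left ha
  refine ⟨ha, ?_⟩
  have := hc g₂.natDegree
  rw [ha, zero_mul, zero_add] at this
  exact (mul_eq_zero.1 this).resolve_right (by exact_mod_cast hi)

end Pool.Agent.VW
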