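import Pool.Agent.P.MP_b0ea37_nt.WSym
import Pool.Agent.P.MP_b0ea37_nt.WEenv

namespace Pool.Agent.VW

open Polynomial

/-- the Wronskian of two polynomials -/
noncomputable def wrE (a b : ℂ[X]) : ℂ[X] := a * derivative b - derivative a * b

/-- the member of the plane with a double root at the parameter, up to a factor -/
noncomputable def Del (F G₁ G₂ : ℂ[X]) : ℂ[X][X] :=
  C (wrE G₁ G₂) * F.map C + C (wrE G₂ F) * G₁.map C + C (wrE F G₁) * G₂.map C

theorem natDegree_wr_le {a b : ℂ[X]} {n : ℕ} (ha : a.natDegree ≤ n) (hb : b.natDegree ≤ n) :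
    (wrE a b).natDegree ≤ 2 * n := by
  have h1 := natDegree_derivative_le a
  have h2 := natDegree_derivative_le b
  refine (natDegree_sub_le _ _).trans (max_le ?_ ?_) <;> refine natDegree_mul_le.trans ?_ <;> omega

theorem eval₂_map_C_X {K : Type} [Field K] (φ : ℂ[X] →+* K) (a : ℂ[X]) :
    (a.map C).eval₂ φ (φ X) = φ a := by
  rw [eval₂_at_apply, eval_map, eval₂_C_X]

section Gen

variable {n : ℕ} {F G₁ G₂ : ℂ[X]}

theorem gd_wr_ne (hi : ∀ a b : ℂ, C a * G₁ + C b * G₂ = 0 → a = 0 ∧ b = 0) : wrE G₁ G₂ ≠ 0 := by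
  intro h
  have h2 : G₂ ≠ 0 := fun h0 => one_ne_zero (hi 0 1 (by simp [h0])).2
  obtain ⟨c, hc⟩ := exists_C_mul_of_wr h2 (sub_eq_zero.1 h)
  exact one_ne_zero (hi 1 (-c) (by rw [hc]; simp)).1

theorem gd_not_comb (hm : F.Monic) (hF : F.natDegree = n) (h1 : G₁.natDegree < n)
    (h2 : G₂.natDegree < n) {a b c : ℂ} (h : C c * F = C a * G₁ + C b * G₂) : c = 0 := by
  have := congrArg (fun p => p.coeff n) h
  simp only [coeff_add, coeff_C_mul, coeff_eq_zero_of_natDegree_lt h1,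
    coeff_eq_zero_of_natDegree_lt h2] at this
  rw [← hF, hm.coeff_natDegree] at this
  simpa using this

theorem gd_wr3_ne (hm : F.Monic) (hF : F.natDegree = n) (h1 : G₁.natDegree < n)
    (h2 : G₂.natDegree < n) (hi : ∀ a b : ℂ, C a * G₁ + C b * G₂ = 0 → a = 0 ∧ b = 0) :
    wrE G₁ G₂ * derivative (derivative F) + wrE G₂ F * derivative (derivative G₁) +
      wrE F G₁ * derivative (derivative G₂) ≠ 0 := by
  intro h
  have hw := gd_wr_ne hi
  obtain ⟨c₁, e₁⟩ := exists_C_mul_of_wr (a := wrE G₂ F) hw (by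
    simp only [wrE, derivative_sub, derivative_mul] at h ⊢
    linear_combination -G₂ * h)
  obtain ⟨c₂, e₂⟩ := exists_C_mul_of_wr (a := wrE F G₁) hw (by
    simp only [wrE, derivative_sub, derivative_mul] at h ⊢
    linear_combination G₁ * h)
  have e : wrE G₁ G₂ * (F + C c₁ * G₁ + C c₂ * G₂) = 0 := by
    have : wrE G₁ G₂ * F + wrE G₂ F * G₁ + wrE F G₁ * G₂ = 0 := by simp only [wrE]; ring
    rw [e₁, e₂] at this
    linear_combination this
  have e' := (mul_eq_zero.1 e).resolve_left hw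
  refine one_ne_zero (gd_not_comb hm hF h1 h2 (a := -c₁) (b := -c₂) ?_)
  simp only [C_neg, C_1]
  linear_combination e'

theorem gd_pencil (hm : F.Monic) (hF : F.natDegree = n) (h1 : G₁.natDegree < n)
    (h2 : G₂.natDegree < n) (hi : ∀ a b : ℂ, C a * G₁ + C b * G₂ = 0 → a = 0 ∧ b = 0) (a b : ℂ)
    (h : C a * (-wrE F G₁) + C b * wrE G₂ F = 0) : a = 0 ∧ b = 0 := by
  obtain ⟨c, e⟩ := exists_C_mul_of_wr (a := C a * G₁ + C b * G₂) hm.ne_zero (by
    simp only [wrE, derivative_add, derivative_C_mul] at h ⊢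
    linear_combination h)
  rw [gd_not_comb hm hF h1 h2 e.symm, C_0, zero_mul] at e
  exact hi a b e

variable {K : Type} [Field K]

theorem Del_eval (φ : ℂ[X] →+* K) (ξ : K) : (Del F G₁ G₂).eval₂ φ ξ =
    φ (wrE G₁ G₂) * (F.map C).eval₂ φ ξ + φ (wrE G₂ F) * (G₁.map C).eval₂ φ ξ +
      φ (wrE F G₁) * (G₂.map C).eval₂ φ ξ := by
  simp only [Del, eval₂_add, eval₂_mul, eval₂_C]

theorem Del_root (φ : ℂ[X] →+* K) : (Del F G₁ G₂).eval₂ φ (φ X) = 0 ∧
    (derivative (Del F G₁ G₂)).eval₂ φ (φ X) = 0 ∧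
    (derivative (derivative (Del F G₁ G₂))).eval₂ φ (φ X) =
      φ (wrE G₁ G₂ * derivative (derivative F) + wrE G₂ F * derivative (derivative G₁) +
        wrE F G₁ * derivative (derivative G₂)) := by
  simp only [Del, derivative_add, derivative_C_mul, derivative_map, eval₂_add, eval₂_mul, eval₂_C,
    eval₂_map_C_X]
  simp only [wrE, map_add, map_sub, map_mul]
  exact ⟨by ring, by ring, trivial⟩

theorem Del_monic (hm : F.Monic) (hF : F.natDegree = n) (h1 : G₁.natDegree < n)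
    (h2 : G₂.natDegree < n) (φ : ℂ[X] →+* K) (hw : φ (wrE G₁ G₂) ≠ 0) :
    (C (φ (wrE G₁ G₂))⁻¹ * (Del F G₁ G₂).map φ).Monic ∧
      (C (φ (wrE G₁ G₂))⁻¹ * (Del F G₁ G₂).map φ).natDegree = n := by
  have hd : (Del F G₁ G₂).natDegree ≤ n := by
    refine (natDegree_add_le _ _).trans (max_le ((natDegree_add_le _ _).trans (max_le ?_ ?_)) ?_) <;>
      refine (natDegree_C_mul_le _ _).trans (natDegree_map_le.trans ?_) <;> omega
  have hd' := (natDegree_C_mul_le (φ (wrE G₁ G₂))⁻¹ _).trans ((natDegree_map_le (f := φ)).trans hd)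
  have hc : (C (φ (wrE G₁ G₂))⁻¹ * (Del F G₁ G₂).map φ).coeff n = 1 := by
    have : F.coeff n = 1 := hF ▸ hm.coeff_natDegree
    simp [Del, coeff_eq_zero_of_natDegree_lt h1, coeff_eq_zero_of_natDegree_lt h2, this, hw]
  exact ⟨monic_of_natDegree_le_of_coeff_eq_one n hd' hc,
    natDegree_eq_of_le_of_coeff_ne_zero hd' (by rw [hc]; exact one_ne_zero)⟩

/-- a common root over the function field survives at a root of `F` -/
theorem gd_special (hn : 2 ≤ n) (hm : F.Monic) (hF : F.natDegree = n) (h1 : G₁.natDegree < n)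
    (h2 : G₂.natDegree < n) (φ : ℂ[X] →+* K) (hφ : Function.Injective φ) {ξ : K} (hξ : ξ ≠ φ X)
    (e1 : φ G₁ * (F.map C).eval₂ φ ξ = φ F * (G₁.map C).eval₂ φ ξ)
    (e2 : φ G₂ * (G₁.map C).eval₂ φ ξ = φ G₁ * (G₂.map C).eval₂ φ ξ)
    {θ : ℂ} (hθ : F.eval θ = 0) (hθ' : (derivative F).eval θ ≠ 0) (hG : G₁.eval θ ≠ 0) :
    ∃ z : ℂ, z ≠ θ ∧ F.eval z = 0 ∧ G₂.eval θ * G₁.eval z = G₁.eval θ * G₂.eval z := by
  have hdvd : X - C X ∣ (C G₁ * F.map C - C F * G₁.map C : ℂ[X][X]) := by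
    rw [dvd_iff_isRoot, IsRoot.def]
    simp only [eval_sub, eval_mul, eval_C, eval_map, eval₂_C_X]
    ring
  obtain ⟨U, hU⟩ := hdvd
  set V : ℂ[X][X] := C G₂ * G₁.map C - C G₁ * G₂.map C with hV
  have hVd : V.natDegree ≤ n - 1 := by
    refine (natDegree_sub_le _ _).trans (max_le ?_ ?_) <;>
      refine (natDegree_C_mul_le _ _).trans (natDegree_map_le.trans ?_) <;> omega
  have hUd : U.natDegree ≤ n - 1 := by
    rcases eq_or_ne U 0 with rfl | hU0
    · simp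
    have h3 : ((X - C X) * U).natDegree ≤ n := by
      rw [← hU]
      refine (natDegree_sub_le _ _).trans (max_le ?_ ?_) <;>
        refine (natDegree_C_mul_le _ _).trans (natDegree_map_le.trans ?_) <;> omega
    rw [(monic_X_sub_C _).natDegree_mul' hU0, natDegree_X_sub_C] at h3
    omega
  have hU0 : U.eval₂ φ ξ = 0 := by
    have := congrArg (eval₂ φ ξ) hU
    simp only [eval₂_sub, eval₂_mul, eval₂_C, eval₂_X, e1, sub_self] at this
    exact (mul_eq_zero.1 this.symm).resolve_left (sub_ne_zero.2 hξ)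
  have hV0 : V.eval₂ φ ξ = 0 := by
    simp only [hV, eval₂_sub, eval₂_mul, eval₂_C, e2, sub_self]
  obtain ⟨p, q, -, -, e⟩ := exists_mul_add_mul_eq_C_resultant U V hUd hVd (Or.inl (by omega))
  have hR : resultant U V (n - 1) (n - 1) = 0 := by
    have := congrArg (eval₂ φ ξ) e
    simp only [eval₂_add, eval₂_mul, hU0, hV0, zero_mul, add_zero, eval₂_C] at this
    exact hφ (this.symm.trans φ.map_zero.symm)
  have hmap : ∀ a : ℂ[X], (a.map C).map (evalRingHom θ) = a := fun a => by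
    ext i; simp
  have hUθ : (X - C θ) * U.map (evalRingHom θ) = C (G₁.eval θ) * F := by
    have := congrArg (map (evalRingHom θ)) hU
    simp only [Polynomial.map_sub, Polynomial.map_mul, map_C, hmap, map_X, coe_evalRingHom, hθ,
      eval_X, C_0, zero_mul, sub_zero] at this
    exact this.symm
  have hVθ : V.map (evalRingHom θ) = C (G₂.eval θ) * G₁ - C (G₁.eval θ) * G₂ := by
    simp only [hV, Polynomial.map_sub, Polynomial.map_mul, map_C, hmap, coe_evalRingHom]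
  set u := U.map (evalRingHom θ) with hu
  have hu0 : u ≠ 0 := fun h => by
    rw [h, mul_zero] at hUθ
    exact mul_ne_zero (C_ne_zero.2 hG) hm.ne_zero hUθ.symm
  have hud : u.natDegree = n - 1 := by
    have := congrArg natDegree hUθ
    rw [(monic_X_sub_C _).natDegree_mul' hu0, natDegree_X_sub_C, natDegree_C_mul hG, hF] at this
    omega
  have hR' := resultant_eq_prod_eval u (V.map (evalRingHom θ)) (n - 1)
    (natDegree_map_le.trans hVd) (IsAlgClosed.splits u)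
  rw [hud, hu, resultant_map_map, hR, map_zero, ← hu] at hR'
  have hz := (mul_eq_zero.1 hR'.symm).resolve_left (pow_ne_zero _ (leadingCoeff_ne_zero.2 hu0))
  obtain ⟨z, hz1, hz2⟩ := Multiset.mem_map.1 (Multiset.prod_eq_zero_iff.1 hz)
  have hz3 : u.eval z = 0 := (mem_roots hu0).1 hz1
  refine ⟨z, ?_, ?_, ?_⟩
  · rintro rfl
    have := congrArg (fun p => (derivative p).eval z) hUθ
    simp [hz3, hG, hθ'] at this
  · have := congrArg (eval z) hUθ
    simpa [hz3, hG] using this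
  · rw [hVθ] at hz2
    simpa [sub_eq_zero] using hz2

theorem gd_generic [IsAlgClosed K] [CharZero K] (hn : 2 ≤ n) (hm : F.Monic) (hF : F.natDegree = n)
    (h1 : G₁.natDegree < n) (h2 : G₂.natDegree < n)
    (hi : ∀ a b : ℂ, C a * G₁ + C b * G₂ = 0 → a = 0 ∧ b = 0)
    (φ : ℂ[X] →+* K) (hφ : Function.Injective φ)
    {θ : ℂ} (hθ : F.eval θ = 0) (hθ' : (derivative F).eval θ ≠ 0) (hG : G₁.eval θ ≠ 0)
    (hsep : ∀ z : ℂ, F.eval z = 0 → G₂.eval θ * G₁.eval z = G₁.eval θ * G₂.eval z → z = θ) :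
    Phi n 0 (C (φ (wrE G₁ G₂))⁻¹ * (Del F G₁ G₂).map φ) ≠ 0 := by
  have hφ0 : ∀ a : ℂ[X], a ≠ 0 → φ a ≠ 0 := fun a ha h => ha (hφ (h.trans φ.map_zero.symm))
  have hw := hφ0 _ (gd_wr_ne hi)
  have hw3 := hφ0 _ (gd_wr3_ne hm hF h1 h2 hi)
  obtain ⟨hM, hd⟩ := Del_monic hm hF h1 h2 φ hw
  obtain ⟨r0, r1, r2⟩ := Del_root (F := F) (G₁ := G₁) (G₂ := G₂) φ
  set P := C (φ (wrE G₁ G₂))⁻¹ * (Del F G₁ G₂).map φ with hP
  have hi0 : (φ (wrE G₁ G₂))⁻¹ ≠ 0 := inv_ne_zero hw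
  have v0 : ∀ ξ, P.eval ξ = (φ (wrE G₁ G₂))⁻¹ * (Del F G₁ G₂).eval₂ φ ξ := fun ξ => by
    rw [hP, eval_mul, eval_C, eval_map]
  have v1 : ∀ ξ, (derivative P).eval ξ =
      (φ (wrE G₁ G₂))⁻¹ * (derivative (Del F G₁ G₂)).eval₂ φ ξ := fun ξ => by
    rw [hP, derivative_C_mul, derivative_map, eval_mul, eval_C, eval_map]
  have v2 : (derivative (derivative P)).eval (φ X) ≠ 0 := by
    rw [hP, derivative_C_mul, derivative_C_mul, derivative_map, derivative_map, eval_mul, eval_C,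
      eval_map, r2]
    exact mul_ne_zero hi0 hw3
  obtain ⟨Q, hQ⟩ : X - C (φ X) ∣ P := dvd_iff_isRoot.2 (by rw [IsRoot.def, v0, r0, mul_zero])
  obtain ⟨G, hG'⟩ : X - C (φ X) ∣ Q := dvd_iff_isRoot.2 (by
    have := v1 (φ X)
    rw [r1, mul_zero, hQ] at this
    simpa using this)
  have hPG : P = (X - C (φ X)) ^ 2 * G := by rw [hQ, hG']; ring
  have hGm : G.Monic := ((monic_X_sub_C _).pow 2).of_mul_monic_left (hPG ▸ hM)
  have hGd : n = G.natDegree + 2 := by
    rw [← hd, hPG, ((monic_X_sub_C _).pow 2).natDegree_mul hGm, natDegree_pow, natDegree_X_sub_C]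
    omega
  have hGr : G.eval (φ X) ≠ 0 := fun h => v2 (by rw [hPG]; simp [derivative_pow, h])
  rw [hPG, hGd, Phi_double 0 _ G hGm rfl]
  refine mul_ne_zero (mul_ne_zero (by simp) (pow_ne_zero _ hGr)) fun hD => ?_
  obtain ⟨ξ, x0, x1⟩ := (Dv_eq_zero_iff_double G hGm rfl).1 hD
  have hξ : ξ ≠ φ X := fun h => hGr (h ▸ x0)
  have y0 : (Del F G₁ G₂).eval₂ φ ξ = 0 := by
    have := v0 ξ
    rw [hPG, eval_mul, x0, mul_zero] at this
    exact (mul_eq_zero.1 this.symm).resolve_left hi0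
  have y1 : (derivative (Del F G₁ G₂)).eval₂ φ ξ = 0 := by
    have := v1 ξ
    rw [hPG, derivative_mul, eval_add, eval_mul, eval_mul, x0, x1, mul_zero, mul_zero,
      add_zero] at this
    exact (mul_eq_zero.1 this.symm).resolve_left hi0
  have y2 := env φ hφ ξ _ (fun h => hM.ne_zero (by rw [hP, h]; simp)) y0 y1
  rw [Del_eval] at y0
  rw [Del, map_add, map_add, dr_C_mul_map, dr_C_mul_map, dr_C_mul_map] at y2
  simp only [eval₂_add, eval₂_mul, eval₂_C] at y2
  simp only [wrE, derivative_mul, map_add, map_sub, map_mul] at y0 y2 hw3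
  obtain ⟨z, hz, z0, z1⟩ := gd_special hn hm hF h1 h2 φ hφ hξ
    (mul_left_cancel₀ hw3 (by
      linear_combination (φ F * φ (derivative (derivative G₁)) -
        φ (derivative (derivative F)) * φ G₁) * (-y0) +
        (φ F * φ (derivative G₁) - φ (derivative F) * φ G₁) * y2))
    (mul_left_cancel₀ hw3 (by
      linear_combination (φ G₁ * φ (derivative (derivative G₂)) -
        φ (derivative (derivative G₁)) * φ G₂) * (-y0) +
        (φ G₁ * φ (derivative G₂) - φ (derivative G₁) * φ G₂) * y2)) hθ hθ' hG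
  exact hz (hsep z z0 z1)

end Gen

theorem prim_sep {f g₁ g₂ : ℤ[X]} (hi : Irr f) (hp : Prim f) (h1 : g₁.natDegree < f.natDegree)
    (h2 : g₂.natDegree < f.natDegree) (hm : f.Monic) (hI : Indep g₁ g₂) {θ : ℂ}
    (hθ : (up ℂ f).eval θ = 0) : (up ℂ g₁).eval θ ≠ 0 ∧ ∀ z : ℂ, (up ℂ f).eval z = 0 →
      (up ℂ g₂).eval θ * (up ℂ g₁).eval z = (up ℂ g₁).eval θ * (up ℂ g₂).eval z → z = θ := by
  have ev' : ∀ (g : ℤ[X]) (z : ℂ), aeval z g = (up ℂ g).eval z := fun g z =>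
    (eval_map_algebraMap g z).symm
  have ev : ∀ (g : ℤ[X]) (z : ℂ), aeval z (up ℚ g) = (up ℂ g).eval z := fun g z =>
    (aeval_map_algebraMap ℚ z g).trans (ev' g z)
  have hinj : Function.Injective (Int.castRingHom ℚ) := Int.cast_injective
  have hdeg : ∀ g : ℤ[X], (up ℚ g).natDegree = g.natDegree := natDegree_map_eq_of_injective hinj
  have hg1 : g₁ ≠ 0 := fun h0 => one_ne_zero (hI 1 0 (by simp [h0])).1
  have hnd : ¬ up ℚ f ∣ up ℚ g₁ := fun h => by
    have := natDegree_le_of_dvd h ((Polynomial.map_ne_zero_iff hinj).2 hg1)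
    rw [hdeg, hdeg] at this
    omega
  obtain ⟨a, b, hab⟩ := (Irreducible.coprime_iff_not_dvd hi).2 hnd
  have hb : ∀ z : ℂ, (up ℂ f).eval z = 0 → aeval z b * (up ℂ g₁).eval z = 1 := fun z hz => by
    have := congrArg (aeval z) hab
    rwa [map_add, map_mul, map_mul, ev, ev, hz, mul_zero, zero_add, map_one] at this
  refine ⟨right_ne_zero_of_mul_eq_one (hb θ hθ), fun z hz e => ?_⟩
  have hM : (up ℚ f).Monic := hm.map _
  set q := (b * up ℚ g₂) %ₘ up ℚ f with hq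
  have hqz : ∀ z : ℂ, (up ℂ f).eval z = 0 → aeval z q = aeval z b * (up ℂ g₂).eval z :=
    fun z hz => by rw [hq, aeval_modByMonic_eq_self_of_root (by rw [ev, hz]), map_mul, ev]
  have hq1 : q.natDegree < f.natDegree := by
    rw [← hdeg f]
    exact natDegree_modByMonic_lt _ hM fun h => hi.not_isUnit (h ▸ isUnit_one)
  by_cases hq0 : 0 < q.natDegree
  · refine hp q hq0 hq1 z θ (by rw [ev', hz]) (by rw [ev', hθ]) ?_
    rw [hqz z hz, hqz θ hθ]
    linear_combination (aeval θ b * (up ℂ g₂).eval θ) * hb z hz -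
      (aeval z b * (up ℂ g₂).eval z) * hb θ hθ - aeval z b * aeval θ b * e
  exfalso
  obtain ⟨c, hc⟩ : ∃ c, q = C c := ⟨_, eq_C_of_natDegree_eq_zero (Nat.eq_zero_of_not_pos hq0)⟩
  have hroot : aeval θ (C c * up ℚ g₁ - up ℚ g₂) = 0 := by
    rw [← hc, map_sub, map_mul, hqz θ hθ, ev, ev]
    linear_combination (up ℂ g₂).eval θ * hb θ hθ
  have h0 : C c * up ℚ g₁ - up ℚ g₂ = 0 := by
    refine eq_zero_of_dvd_of_natDegree_lt (hi.dvd_of_root (by rw [ev, hθ]) hroot) ?_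
    refine (natDegree_sub_le _ _).trans_lt (max_lt ((natDegree_C_mul_le _ _).trans_lt ?_) ?_) <;>
      rw [hdeg, hdeg] <;> assumption
  have h3 := congrArg (map (algebraMap ℚ ℂ)) h0
  have hup : ∀ g : ℤ[X], (up ℚ g).map (algebraMap ℚ ℂ) = up ℂ g := fun g => by
    rw [map_map, RingHom.ext_int (RingHom.comp _ _) (Int.castRingHom ℂ)]
  rw [Polynomial.map_sub, Polynomial.map_mul, map_C, hup, hup, Polynomial.map_zero] at h3
  exact one_ne_zero (neg_eq_zero.1 (hI.complex (algebraMap ℚ ℂ c) (-1)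
    (by rw [← h3]; simp [sub_eq_add_neg])).2)

/-- ED -/
theorem exists_good' (n : ℕ) (hn : 5 ≤ n) : ∃ K : ℕ, ∀ f g₁ g₂ : ℤ[X], f.Monic → f.natDegree = n →
    Irr f → Prim f → g₁.natDegree < n → g₂.natDegree < n → Indep g₁ g₂ →
    ∃ c : ℕ, c ≤ K ∧ Good n f (g₁ + C (c : ℤ) * g₂) := by
  obtain ⟨N, hN⟩ := clear_den (phiP n 0)
  refine ⟨N * (2 * n) + 2 * n + 1, fun f g₁ g₂ hm hf hi hp h1 h2 hI => ?_⟩
  have hM : (up ℂ f).Monic := hm.map _
  have hF : (up ℂ f).natDegree = n := by rw [hm.natDegree_map, hf]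
  have d1 : (up ℂ g₁).natDegree < n := natDegree_map_le.trans_lt h1
  have d2 : (up ℂ g₂).natDegree < n := natDegree_map_le.trans_lt h2
  obtain ⟨θ, hθ⟩ := IsAlgClosed.exists_root (up ℂ f) (by
    rw [degree_eq_natDegree hM.ne_zero, hF]; exact_mod_cast (by omega : n ≠ 0))
  have hθ' : (derivative (up ℂ f)).eval θ ≠ 0 := fun h => hi.Dv_ne_zero hm hf (by
    have := (Dv_eq_zero_iff_double _ hM hF).2 ⟨θ, hθ, h⟩
    rw [Dv_map] at this
    exact Int.cast_eq_zero.1 this)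
  obtain ⟨hG, hsep⟩ := prim_sep hi hp (hf ▸ h1) (hf ▸ h2) hm hI hθ
  have hIc := hI.complex
  generalize hF' : up ℂ f = F at *
  generalize hG₁ : up ℂ g₁ = G₁ at *
  generalize hG₂ : up ℂ g₂ = G₂ at *
  have hwd := natDegree_wr_le d1.le d2.le
  obtain ⟨T, hT, eT⟩ := hN (2 * n) (wrE G₁ G₂) (fun i : Fin n => (Del F G₁ G₂).coeff i) hwd
    fun i => by
      simp only [Del, coeff_add, coeff_C_mul, coeff_map]
      refine (natDegree_add_le _ _).trans (max_le ((natDegree_add_le _ _).trans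
        (max_le ?_ ?_)) ?_) <;> refine (natDegree_mul_C_le _ _).trans ?_
      exacts [hwd, natDegree_wr_le d2.le hF.le, natDegree_wr_le hF.le d1.le]
  have eT' : ∀ (K : Type) [Field K] (φ : ℂ[X] →+* K), φ (wrE G₁ G₂) ≠ 0 →
      φ T = φ (wrE G₁ G₂) ^ N * Phi n 0 (C (φ (wrE G₁ G₂))⁻¹ * (Del F G₁ G₂).map φ) :=
    fun K _ φ h => by rw [eT K φ h, Phi]; simp only [coeff_C_mul, coeff_map]
  have hT0 : T ≠ 0 := by
    let φ := (algebraMap (FractionRing ℂ[X]) (AlgebraicClosure (FractionRing ℂ[X]))).comp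
      (algebraMap ℂ[X] (FractionRing ℂ[X]))
    have hφ : Function.Injective φ := fun x y h =>
      IsFractionRing.injective ℂ[X] (FractionRing ℂ[X]) ((algebraMap (FractionRing ℂ[X])
        (AlgebraicClosure (FractionRing ℂ[X]))).injective h)
    have hw : φ (wrE G₁ G₂) ≠ 0 := fun h => gd_wr_ne hIc (hφ (h.trans φ.map_zero.symm))
    intro h
    have := eT' _ φ hw
    rw [h, map_zero] at this
    exact mul_ne_zero (pow_ne_zero _ hw)
      (gd_generic (by omega) hM hF d1 d2 hIc φ hφ hθ hθ' hG hsep) this.symm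
  obtain ⟨c, hc, r, e, hr⟩ := pencil (gd_pencil hM hF d1 d2 hIc) (mul_ne_zero hT0 (gd_wr_ne hIc))
    (natDegree_mul_le.trans (add_le_add hT hwd))
  rw [eval_mul] at hr
  have hw : evalRingHom r (wrE G₁ G₂) ≠ 0 := right_ne_zero_of_mul hr
  have hPhi : Phi n 0 (C (evalRingHom r (wrE G₁ G₂))⁻¹ * (Del F G₁ G₂).map (evalRingHom r)) ≠ 0 :=
    fun h => left_ne_zero_of_mul hr ((eT' _ _ hw).trans (by rw [h, mul_zero]))
  obtain ⟨m1, m2⟩ := Del_monic hM hF d1 d2 _ hw
  obtain ⟨r0, r1, -⟩ := Del_root (F := F) (G₁ := G₁) (G₂ := G₂) (evalRingHom r)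
  have hDv := (Dv_eq_zero_iff_double _ m1 m2).2 ⟨evalRingHom r X,
    by rw [eval_mul, eval_map, r0, mul_zero],
    by rw [derivative_C_mul, derivative_map, eval_mul, eval_map, r1, mul_zero]⟩
  have hmap : ∀ a : ℂ[X], (a.map C).map (evalRingHom r) = a := fun a => by
    ext i; simp
  have key : C (evalRingHom r (wrE G₁ G₂))⁻¹ * (Del F G₁ G₂).map (evalRingHom r) =
      up ℂ f + C (((wrE G₁ G₂).eval r)⁻¹ * (wrE G₂ F).eval r) * up ℂ (g₁ + C (c : ℤ) * g₂) := by
    have e' : (wrE F G₁).eval r = c * (wrE G₂ F).eval r := by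
      rw [eval_neg] at e; linear_combination -e
    have e2 : C ((wrE G₁ G₂).eval r)⁻¹ * C ((wrE G₁ G₂).eval r) = 1 := by
      rw [← C_mul, inv_mul_cancel₀ (right_ne_zero_of_mul hr), C_1]
    simp only [Del, Polynomial.map_add, Polynomial.map_mul, map_C, hmap, coe_evalRingHom, e',
      C_mul, hF', hG₁, hG₂, map_natCast, Polynomial.map_natCast]
    linear_combination F * e2
  rw [key] at hDv hPhi
  exact ⟨c, hc, _, hDv, hPhi⟩

end Pool.Agent.VW
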