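import Pool.Agent.P.MP_b0ea37_nt.VTHens
import Pool.Agent.P.MP_b0ea37_nt.WDiv
import Pool.Agent.P.MP_b0ea37_nt.WHt

namespace Pool.Agent.VW

open Polynomial Finset

theorem sqv_not_sq {b : ℚ[X]} (hb : Irreducible b) {c : ℚ} (hc : c ≠ 0) (v : ℚ[X]) :
    ∀ u : ℚ[X], C c * u ^ 2 = b * v ^ 2 → u = 0 ∧ v = 0 := by
  induction hn : v.natDegree using Nat.strong_induction_on generalizing v with
  | _ n ih =>
    intro u h
    have hp := hb.prime
    have hu : IsUnit (C c) := isUnit_C.2 hc.isUnit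
    by_cases hv : v = 0
    · refine ⟨?_, hv⟩
      simpa [hv, hc] using h
    obtain ⟨u1, rfl⟩ := hp.dvd_of_dvd_pow (hu.dvd_mul_left.1 ⟨_, h⟩)
    have h1 : v ^ 2 = b * (C c * u1 ^ 2) := mul_left_cancel₀ hp.ne_zero (by linear_combination -h)
    obtain ⟨v1, rfl⟩ := hp.dvd_of_dvd_pow ⟨_, h1⟩
    have h2 : C c * u1 ^ 2 = b * v1 ^ 2 := mul_left_cancel₀ hp.ne_zero (by linear_combination -h1)
    have h3 := natDegree_mul hp.ne_zero (right_ne_zero_of_mul hv)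
    have h4 := hb.natDegree_pos
    exact absurd (ih v1.natDegree (by omega) v1 rfl u1 h2).2 (right_ne_zero_of_mul hv)

theorem sqv_poly {W : ℕ} (a : Fin W → ℤ) : ∃ p : ℤ[X], p.natDegree ≤ W ∧
    (∀ i : Fin W, p.coeff i = a i) ∧ ∀ t, p.eval t = ∑ i, a i * t ^ (i : ℕ) :=
  ⟨∑ i : Fin W, monomial i (a i),
    natDegree_sum_le_of_forall_le _ _ fun i _ => (natDegree_monomial_le _).trans i.2.le,
    fun i => by simp [coeff_monomial, Fin.val_inj], fun t => by simp [eval_finsetSum]⟩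

theorem sqv_class {E V l : ℕ} (hl : l.Prime) {L Y : ℝ} {B : ℤ[X]} {c : ℤ} (hB : Irr B)
    (hE : B.natDegree ≤ E) (hc : c ≠ 0) (hL : 1 ≤ L)
    (hY : ∀ t : ℤ, |(t : ℝ)| ≤ L → |((B.eval t : ℤ) : ℝ)| ≤ Y)
    (hlt : ((2 * V + 2).factorial : ℝ) * L ^ V * Y < (l : ℝ) ^ (2 * V + 1)) (r : ℤ) :
    Cnt (fun t : ℤ => |(t : ℝ)| ≤ L ∧ t ≡ r [ZMOD l] ∧ ∃ z : ℤ, B.eval t = c * z ^ 2 ∧
      ¬ (l : ℤ) ∣ 2 * c * B.eval t) ((E + 2 * (V + 1) : ℕ) : ℝ) := by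
  refine Cnt.of_mem (Nat.cast_nonneg _) ?_
  rintro t0 ⟨h0, h1, z0, h2, h3⟩
  have hp := Nat.prime_iff_prime_int.1 hl
  let ι := {p : ℤ × ℤ // |(p.1 : ℝ)| ≤ L ∧ p.1 ≡ r [ZMOD l] ∧ B.eval p.1 = c * p.2 ^ 2 ∧
    ¬ (l : ℤ) ∣ 2 * c * B.eval p.1 ∧ p.2 ≡ z0 [ZMOD l]}
  have hx : ∀ j j' : ι, j.1.1 ≡ j'.1.1 [ZMOD l] := fun j j' => j.2.2.1.trans j'.2.2.1.symm
  have ht : VT.Apx l (fun (j : ι) (_ : Fin 1) => j.1.1) fun j => j.1.1 := VT.Apx.coord 0
  have hz : VT.Apx l (fun (j : ι) (_ : Fin 1) => j.1.1) fun j => j.1.2 := by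
    refine VT.Apx.hensel hl (fun j j' _ => hx j j') (D := 2)
      (c := fun j => C c * X ^ 2 - C (B.eval j.1.1)) (fun j => by compute_degree) (fun n => ?_)
      (fun j => by simp [j.2.2.2.1]) (fun j j' => j.2.2.2.2.2.trans j'.2.2.2.2.2.symm)
      fun j h => j.2.2.2.2.1 ?_
    · simp only [coeff_sub, coeff_C]
      refine (VT.Apx.const _).sub ?_
      split_ifs
      · exact VT.Apx.eval (fun _ => hE) (fun _ => VT.Apx.const _) ht
      · exact VT.Apx.const _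
    · rw [j.2.2.2.1]
      refine h.trans ⟨c * j.1.2, ?_⟩
      simp [-eq_intCast]
      ring
  have hY0 : 0 ≤ Y := (abs_nonneg _).trans (hY t0 h0)
  obtain ⟨a, ha, hr⟩ := VT.rel_one (κ := Fin (V + 1) ⊕ Fin (V + 1)) hx
    (F := Sum.elim (fun i j => j.1.1 ^ (i : ℕ)) fun i j => j.1.1 ^ (i : ℕ) * j.1.2)
    (by
      rintro (i | i)
      exacts [ht.pow _, (ht.pow _).mul hz])
    (Sum.elim (fun i => L ^ (i : ℕ)) fun i => L ^ (i : ℕ) * Y)
    (by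
      have h4 : ∀ (i : ℕ) (j : ι), |(j.1.1 : ℝ) ^ i| ≤ L ^ i := fun i j => by
        rw [abs_pow]
        exact pow_le_pow_left₀ (abs_nonneg _) j.2.1 _
      rintro (i | i) j
      · simpa using h4 i j
      · have h5 := hY _ j.2.1
        rw [j.2.2.2.1] at h5
        have h6 : |j.1.2| ≤ |c * j.1.2 ^ 2| := by
          rw [abs_mul, abs_pow]
          nlinarith [Int.one_le_abs hc, Int.le_self_sq |j.1.2|, sq_nonneg |j.1.2|]
        simp only [Sum.elim_inr, Int.cast_mul, Int.cast_pow, abs_mul]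
        exact mul_le_mul (h4 i j) (le_trans (by exact_mod_cast h6) h5) (abs_nonneg _)
          (by positivity))
    (ν := (2 * V + 1) * (V + 1))
    (by
      simp only [Fintype.card_sum, Fintype.card_fin]
      rw [show V + 1 + (V + 1) - 1 = 2 * V + 1 by omega]
      ring)
    (by
      have h4 : ∑ i : Fin (V + 1), (i : ℕ) + ∑ i : Fin (V + 1), (i : ℕ) = V * (V + 1) := by
        have := sum_range_id_mul_two (V + 1)
        rw [Fin.sum_univ_eq_sum_range (fun i => i)]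
        rw [Nat.add_sub_cancel] at this
        linarith
      have h5 : (1 : ℝ) ≤ (2 * V + 2).factorial := by exact_mod_cast Nat.factorial_pos _
      simp only [Fintype.card_sum, Fintype.card_fin, Fintype.prod_sum_type, Sum.elim_inl,
        Sum.elim_inr, prod_mul_distrib, prod_pow_eq_pow_sum, prod_const, card_univ]
      rw [← mul_assoc (L ^ _), ← pow_add, h4, show V + 1 + (V + 1) = 2 * V + 2 by omega, pow_mul,
        pow_mul]
      refine lt_of_le_of_lt ?_ (pow_lt_pow_left₀ hlt (by positivity) V.succ_ne_zero)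
      rw [mul_pow, mul_pow, mul_assoc]
      gcongr
      exact le_self_pow₀ h5 V.succ_ne_zero)
  obtain ⟨u, u1, u2, u3⟩ := sqv_poly fun i => a (Sum.inl i)
  obtain ⟨v, v1, v2, v3⟩ := sqv_poly fun i => a (Sum.inr i)
  have hR : C c * u ^ 2 - B * v ^ 2 ≠ 0 := fun h => by
    have h4 := congrArg (Polynomial.map (Int.castRingHom ℚ)) (sub_eq_zero.1 h)
    simp only [Polynomial.map_mul, Polynomial.map_pow, map_C] at h4
    obtain ⟨h5, h6⟩ := sqv_not_sq hB (by simpa using hc) _ _ h4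
    rw [Polynomial.map_eq_zero_iff (RingHom.injective_int _)] at h5 h6
    refine ha (funext ?_)
    rintro (i | i)
    · rw [← u2, h5, coeff_zero, Pi.zero_apply]
    · rw [← v2, h6, coeff_zero, Pi.zero_apply]
  refine (cnt_roots _ hR).mono ?_ ?_
  · rintro t ⟨k0, k1, z, k2, k3⟩
    have h4 : ∃ z : ℤ, B.eval t = c * z ^ 2 ∧ z ≡ z0 [ZMOD l] := by
      have h5 : (l : ℤ) ∣ c * ((z0 - z) * (z0 - -z)) :=
        ((k1.trans h1.symm).dvd.trans (sub_dvd_eval_sub _ _ B)).trans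
          (dvd_of_eq (by rw [h2, k2]; ring))
      rcases hp.dvd_or_dvd ((hp.dvd_or_dvd h5).resolve_left
        fun h => h3 ((h.mul_left 2).mul_right _)) with h | h
      · exact ⟨z, k2, (Int.modEq_iff_dvd).2 h⟩
      · exact ⟨-z, by rw [k2]; ring, (Int.modEq_iff_dvd).2 h⟩
    obtain ⟨z, k2, k4⟩ := h4
    have h5 := hr ⟨(t, z), k0, k1, k2, k3, k4⟩
    simp only [Fintype.sum_sum_type, Sum.elim_inl, Sum.elim_inr, ← mul_assoc, ← sum_mul, ← u3,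
      ← v3] at h5
    simp only [eval_sub, eval_mul, eval_pow, eval_C, k2]
    linear_combination c * (u.eval t - v.eval t * z) * h5
  · have h4 : (C c * u ^ 2 - B * v ^ 2).natDegree ≤ E + 2 * (V + 1) :=
      (natDegree_sub_le _ _).trans (max_le
        ((natDegree_C_mul_le _ _).trans (natDegree_pow_le.trans (by omega)))
        (natDegree_mul_le.trans (add_le_add hE (natDegree_pow_le.trans (by omega)))))
    exact_mod_cast h4

/-- square values -/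
theorem sqv (E : ℕ) (ε : ℝ) (hε : 0 < ε) : ∃ C : ℝ, 1 ≤ C ∧ ∀ (Z L : ℝ) (B : ℤ[X]) (c : ℤ),
    1 ≤ L → L ≤ Z → Irr B → B.natDegree ≤ E → B.supNorm ≤ Z → c ≠ 0 → |(c : ℝ)| ≤ Z →
    Cnt (fun t : ℤ => |(t : ℝ)| ≤ L ∧ ∃ z : ℤ, B.eval t = c * z ^ 2) (C * Z ^ ε * √L) := by
  obtain ⟨V, hV⟩ := exists_nat_ge (((E : ℝ) + 2) / ε)
  rw [div_le_iff₀ hε] at hV
  obtain ⟨K, hK⟩ : ∃ K : ℝ, K = (2 * V + 2).factorial * (E + 1) := ⟨_, rfl⟩
  have f2 : (2 : ℝ) ≤ (2 * V + 2).factorial := by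
    exact_mod_cast (by omega : 2 ≤ 2 * V + 2).trans (Nat.self_le_factorial _)
  have hK1 : 1 ≤ K := by rw [hK]; nlinarith [Nat.cast_nonneg (α := ℝ) E]
  obtain ⟨M, hM⟩ : ∃ M : ℝ, M = (2 * V + 1 : ℕ) * (2 ^ (2 * V + 1 + 1) * K *
    ((E + 2 * (V + 1) : ℕ) : ℝ)) := ⟨_, rfl⟩
  have hM0 : 0 ≤ M := by rw [hM]; positivity
  refine ⟨1 + E + M, by linarith [Nat.cast_nonneg (α := ℝ) E], ?_⟩
  intro Z L B c hL hZ hB hE hs hc hcZ
  have hZ1 : 1 ≤ Z := hL.trans hZ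
  have e1 : 1 ≤ Z ^ ε := Real.one_le_rpow hZ1 hε.le
  have e2 : 1 ≤ √L := Real.one_le_sqrt.2 hL
  have e3 : 1 ≤ Z ^ ε * √L := one_le_mul_of_one_le_of_one_le e1 e2
  have hY : ∀ t : ℤ, |(t : ℝ)| ≤ L → |((B.eval t : ℤ) : ℝ)| ≤ (E + 1) * Z ^ (E + 1) := fun t ht => by
    have h1 : max 1 ‖t‖ ≤ Z := max_le hZ1 (ht.trans hZ)
    refine (norm_eval_le B hE t).trans ?_
    rw [pow_succ', ← mul_assoc]
    gcongr
  have hQ : K * L ^ V * Z ^ (E + 2) ≤ (K * (Z ^ ε * √L)) ^ (2 * V + 1) := by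
    rw [mul_pow, mul_pow, mul_assoc, mul_comm (L ^ V)]
    gcongr
    · exact le_self_pow₀ hK1 (by omega)
    · rw [← Real.rpow_natCast, ← Real.rpow_mul_natCast (by linarith)]
      refine Real.rpow_le_rpow_of_exponent_le hZ1 ?_
      push_cast
      nlinarith [Nat.cast_nonneg (α := ℝ) V]
    · rw [pow_succ, pow_mul, Real.sq_sqrt (by linarith)]
      exact le_mul_of_one_le_right (by positivity) e2
  obtain ⟨T, t1, t2, t3⟩ := exists_primes (2 * V + 1) (K * (Z ^ ε * √L))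
    (one_le_mul_of_one_le_of_one_le hK1 e3)
  have hB0 : B ≠ 0 := fun h => hB.ne_zero (by simp [h])
  have hLV : 1 ≤ L ^ V := one_le_pow₀ hL
  have hcl : ∀ l ∈ T, Cnt (fun t : ℤ => ∃ r : ℤ, (0 ≤ r ∧ r < l) ∧ |(t : ℝ)| ≤ L ∧ t ≡ r [ZMOD l] ∧
      ∃ z : ℤ, B.eval t = c * z ^ 2 ∧ ¬ (l : ℤ) ∣ 2 * c * B.eval t)
      (2 ^ (2 * V + 1 + 1) * (K * (Z ^ ε * √L)) * ((E + 2 * (V + 1) : ℕ) : ℝ)) := fun l hl => by
    obtain ⟨p1, p2, p3⟩ := t2 l hl
    refine ((cnt_res l).fibre (Nat.cast_nonneg _) fun r _ =>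
      sqv_class (V := V) p1 hB hE hc hL hY ?_ r).mono (fun _ h => h) (by gcongr)
    refine lt_of_le_of_lt (le_trans ?_ hQ) (pow_lt_pow_left₀ p2 (by positivity) (by omega))
    calc _ = K * L ^ V * Z ^ (E + 1) := by rw [hK]; ring
      _ ≤ _ := by gcongr; omega
  refine ((cnt_roots B hB0).or (Cnt.sum T hcl)).mono ?_ ?_
  · rintro t ⟨k0, z, k1⟩
    refine or_iff_not_imp_left.2 fun h => ?_
    obtain ⟨l, hl, h1⟩ := t3 (2 * c * B.eval t) (by simp [hc, h]) (le_trans (by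
      push_cast
      rw [abs_mul, abs_mul, abs_two]
      calc _ ≤ (2 * V + 2).factorial * Z * ((E + 1) * Z ^ (E + 1)) := by
            have := hY t k0
            gcongr
        _ = K * 1 * Z ^ (E + 2) := by rw [hK]; ring
        _ ≤ _ := by gcongr) hQ) (by omega)
    have h2 : (0 : ℤ) < l := by exact_mod_cast (t2 l hl).1.pos
    exact ⟨l, hl, t % l, ⟨Int.emod_nonneg _ h2.ne', Int.emod_lt_of_pos _ h2⟩, k0,
      (Int.mod_modEq _ _).symm, z, k1, h1⟩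
  · have h1 : (B.natDegree : ℝ) ≤ E := by exact_mod_cast hE
    rw [sum_const, t1, nsmul_eq_mul, mul_assoc (1 + E + M)]
    have h2 : ((2 * V + 1 : ℕ) : ℝ) * (2 ^ (2 * V + 1 + 1) * (K * (Z ^ ε * √L)) *
      ((E + 2 * (V + 1) : ℕ) : ℝ)) = M * (Z ^ ε * √L) := by rw [hM]; ring
    rw [h2]
    nlinarith [Nat.cast_nonneg (α := ℝ) E]

end Pool.Agent.VW
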