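import Pool.Agent.P.MP_b0ea37_nt.WEdat
import Pool.Agent.P.MP_b0ea37_nt.WDiv
import Pool.Agent.P.MP_b0ea37_nt.WSqv

namespace Pool.Agent.VW

open Polynomial

theorem epl_deg {B : ℤ[X]} (h : Irr B) : 0 < B.natDegree :=
  lt_of_lt_of_le (Irreducible.natDegree_pos h) natDegree_map_le

theorem epl_val {B : ℤ[X]} (h : Irr B) {E : ℕ} (hE : B.natDegree ≤ E) (c : ℤ) :
    Cnt (fun t : ℤ => B.eval t = c) E := by
  have h0 := epl_deg h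
  have h1 : (B - C c).natDegree = B.natDegree := natDegree_sub_C
  have h2 : B - C c ≠ 0 := by
    intro e
    rw [e, natDegree_zero] at h1
    omega
  refine (cnt_roots _ h2).mono (fun t ht => by simp [ht]) ?_
  rw [h1]
  exact_mod_cast hE

/-- one size parameter for all the data -/
theorem epl_size (E A : ℕ) (C₀ Z : ℝ) (hC : 1 ≤ C₀) (hZ : 1 ≤ Z) :
    Z ≤ (E + 1) * C₀ * Z ^ (A + E + 1) ∧ C₀ * Z ^ A * Z ≤ (E + 1) * C₀ * Z ^ (A + E + 1) ∧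
    ∀ B : ℤ[X], B.natDegree ≤ E → B.supNorm ≤ C₀ * Z ^ A → ∀ t : ℤ, |(t : ℝ)| ≤ Z →
      (((B.eval t).natAbs : ℕ) : ℝ) ≤ (E + 1) * C₀ * Z ^ (A + E + 1) := by
  have hA : 1 ≤ Z ^ A := one_le_pow₀ hZ
  have hE : 1 ≤ Z ^ E := one_le_pow₀ hZ
  have hE1 : (1 : ℝ) ≤ E + 1 := by linarith [Nat.cast_nonneg (α := ℝ) E]
  have h2 : C₀ * Z ^ A * Z ≤ (E + 1) * C₀ * Z ^ (A + E + 1) := by
    calc C₀ * Z ^ A * Z = 1 * C₀ * (Z ^ A * 1 * Z) := by ring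
      _ ≤ (E + 1) * C₀ * (Z ^ A * Z ^ E * Z) := by gcongr
      _ = _ := by ring
  refine ⟨le_trans ?_ h2, h2, fun B hB hs t ht => ?_⟩
  · calc Z = 1 * 1 * Z := by ring
      _ ≤ C₀ * Z ^ A * Z := by gcongr
  · have h3 := norm_eval_le B hB t
    have h4 : max 1 ‖t‖ ≤ Z := max_le hZ ht
    have h5 : (0 : ℝ) ≤ max 1 ‖t‖ := le_trans zero_le_one (le_max_left _ _)
    rw [Nat.cast_natAbs, Int.cast_abs]
    calc |((B.eval t : ℤ) : ℝ)| ≤ (E + 1) * B.supNorm * (max 1 ‖t‖) ^ E := h3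
      _ ≤ (E + 1) * (C₀ * Z ^ A) * (Z ^ E * Z) := by
        have : (max 1 ‖t‖) ^ E ≤ Z ^ E * Z :=
          (pow_le_pow_left₀ h5 h4 E).trans (le_mul_of_one_le_right (by positivity) hZ)
        gcongr
      _ = _ := by ring

theorem epl_rpow (K Z ε : ℝ) (hK : 0 ≤ K) (hZ : 0 ≤ Z) (A : ℕ) :
    (K * Z ^ (A + 1)) ^ (ε / (A + 1 : ℕ)) = K ^ (ε / (A + 1 : ℕ)) * Z ^ ε := by
  rw [Real.mul_rpow hK (by positivity), ← Real.rpow_natCast, ← Real.rpow_mul hZ,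
    mul_div_cancel₀ _ (by positivity)]

/-- PL -/
theorem pl_zero (n : ℕ) (hn : 5 ≤ n) (ε : ℝ) (hε : 0 < ε) : ∃ C₀ : ℝ, 1 ≤ C₀ ∧
    ∀ (Z : ℝ) (m : ℕ) (f g : ℤ[X]), 1 ≤ m → (m : ℝ) ≤ Z → f.Monic → f.natDegree = n → Irr f →
    g.natDegree < n → f.supNorm ≤ Z → g.supNorm ≤ Z → Good n f g →
    Cnt (fun t : ℤ => |(t : ℝ)| ≤ Z ∧ Bad n (f + C t * g) ∧ WkIn m (f + C t * g))
      (C₀ * Z ^ ε) := by
  obtain ⟨E, A, C₀, hC, hd⟩ := line_data n hn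
  have hε' : 0 < ε / (A + E + 1 : ℕ) := by positivity
  obtain ⟨C₁, hC₁, hs⟩ := cnt_smooth _ hε'
  have hE1 : (1 : ℝ) ≤ E + 1 := by linarith [Nat.cast_nonneg (α := ℝ) E]
  have hK : (1 : ℝ) ≤ (E + 1) * C₀ := one_le_mul_of_one_le_of_one_le hE1 hC
  have hKe := Real.one_le_rpow hK hε'.le
  refine ⟨C₁ * ((E + 1) * C₀) ^ (ε / (A + E + 1 : ℕ)) * (2 * (E + 1)),
    one_le_mul_of_one_le_of_one_le (one_le_mul_of_one_le_of_one_le hC₁ hKe) (by linarith), ?_⟩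
  intro Z m f g hm hmZ hf hfd hi hg hfZ hgZ hG
  have hZ : 1 ≤ Z := le_trans (by exact_mod_cast hm) hmZ
  obtain ⟨B, N, hB, hBE, hBs, hN, hNs, hp⟩ := hd Z f g hZ hf hfd hi hg hfZ hgZ hG
  obtain ⟨s1, s2, s3⟩ := epl_size E A C₀ Z hC hZ
  have hNm : ((N * m : ℕ) : ℝ) ≤ (E + 1) * C₀ * Z ^ (A + E + 1) := by
    refine le_trans ?_ s2
    push_cast
    gcongr
  have h1 := (hs _ (hZ.trans s1) (N * m) (Nat.mul_ne_zero hN (by omega)) hNm).fibre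
    (P := fun (v : ℕ) (t : ℤ) => B.eval t = v ∨ B.eval t = -v) (B' := E + E) (by positivity)
    fun v _ => (epl_val hB hBE v).or (epl_val hB hBE (-v))
  refine h1.mono ?_ ?_
  · rintro t ⟨ht, hb, hw⟩
    obtain ⟨h2, h3⟩ := hp t hb
    refine ⟨(B.eval t).natAbs, ⟨Int.natAbs_ne_zero.2 h2, s3 B hBE hBs t ht, fun p hpp hpv => ?_⟩,
      Int.natAbs_eq _⟩
    by_cases c : p ∣ N
    · exact c.mul_right m
    · exact (hw p hpp (h3 p hpp (Int.natCast_dvd.2 hpv) c).1).mul_left N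
  · rw [epl_rpow _ Z ε (by linarith) (by linarith) (A + E)]
    have h2 : 0 ≤ Z ^ ε := by positivity
    calc C₁ * (((E + 1) * C₀) ^ (ε / (A + E + 1 : ℕ)) * Z ^ ε) * (E + E)
        ≤ C₁ * (((E + 1) * C₀) ^ (ε / (A + E + 1 : ℕ)) * Z ^ ε) * (2 * (E + 1)) := by
          gcongr
          linarith
      _ = _ := by ring

theorem epl_odd {p a b : ℕ} (hp : p.Prime) (ha : Squarefree a) (hb : b ≠ 0) (h : p ∣ a) :
    ¬ Even (padicValNat p (b ^ 2 * a)) := by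
  have := Fact.mk hp
  have h1 : padicValNat p a = 1 := by
    have h2 := ha.natFactorization_le_one p
    have h3 := hp.factorization_pos_of_dvd ha.ne_zero h
    rw [Nat.factorization_def a hp] at h2 h3
    omega
  rw [padicValNat.mul (pow_ne_zero 2 hb) ha.ne_zero, sq, padicValNat.mul hb hb, h1,
    Nat.even_iff]
  omega

/-- PL2 -/
theorem pl_half (n : ℕ) (hn : 5 ≤ n) (ε : ℝ) (hε : 0 < ε) : ∃ C₀ : ℝ, 1 ≤ C₀ ∧
    ∀ (Z L : ℝ) (f g : ℤ[X]), 1 ≤ L → L ≤ Z → f.Monic → f.natDegree = n → Irr f →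
    g.natDegree < n → f.supNorm ≤ Z → g.supNorm ≤ Z → Good n f g →
    Cnt (fun t : ℤ => |(t : ℝ)| ≤ L ∧ Bad n (f + C t * g)) (C₀ * Z ^ ε * √L) := by
  obtain ⟨E, A, C₀, hC, hd⟩ := line_data n hn
  have hε' : 0 < ε / 2 / (A + E + 1 : ℕ) := by positivity
  obtain ⟨C₁, hC₁, hs⟩ := cnt_smooth _ hε'
  obtain ⟨C₂, hC₂, hq⟩ := sqv E _ hε'
  have hE1 : (1 : ℝ) ≤ E + 1 := by linarith [Nat.cast_nonneg (α := ℝ) E]
  have hK : (1 : ℝ) ≤ (E + 1) * C₀ := one_le_mul_of_one_le_of_one_le hE1 hC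
  have hKe := Real.one_le_rpow hK hε'.le
  obtain ⟨K, hKd⟩ : ∃ K : ℝ, K = ((E + 1) * C₀) ^ (ε / 2 / (A + E + 1 : ℕ)) := ⟨_, rfl⟩
  rw [← hKd] at hKe
  have k1 := one_le_mul_of_one_le_of_one_le hC₁ hKe
  have k2 := one_le_mul_of_one_le_of_one_le hC₂ hKe
  refine ⟨C₁ * K * (2 * (C₂ * K)), one_le_mul_of_one_le_of_one_le k1 (by linarith), ?_⟩
  intro Z L f g hL hLZ hf hfd hi hg hfZ hgZ hG
  have hZ : 1 ≤ Z := hL.trans hLZ
  obtain ⟨B, N, hB, hBE, hBs, hN, hNs, hp⟩ := hd Z f g hZ hf hfd hi hg hfZ hgZ hG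
  obtain ⟨s1, s2, s3⟩ := epl_size E A C₀ Z hC hZ
  have hr := epl_rpow ((E + 1) * C₀) Z (ε / 2) (by linarith) (by linarith) (A + E)
  rw [← hKd] at hr
  obtain ⟨Y, hY⟩ : ∃ Y : ℝ, Y = (E + 1) * C₀ * Z ^ (A + E + 1) := ⟨_, rfl⟩
  rw [← hY] at s1 s2 s3 hr
  have s4 : C₀ * Z ^ A ≤ Y := le_trans (le_mul_of_one_le_right (by positivity) hZ) s2
  have hY0 : 0 ≤ Y := by linarith
  have h1 := (hs Y (hZ.trans s1) N hN (hNs.trans s4)).fibre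
    (P := fun (a : ℕ) (t : ℤ) => (|(t : ℝ)| ≤ L ∧ ∃ z : ℤ, B.eval t = a * z ^ 2) ∨
      (|(t : ℝ)| ≤ L ∧ ∃ z : ℤ, B.eval t = (-a) * z ^ 2)) (by positivity)
    fun a ha => (hq Y L B a hL (hLZ.trans s1) hB hBE (hBs.trans s4) (by exact_mod_cast ha.1)
      (by simpa using ha.2.1)).or (hq Y L B (-a) hL (hLZ.trans s1) hB hBE (hBs.trans s4)
      (neg_ne_zero.2 (by exact_mod_cast ha.1)) (by simpa using ha.2.1))
  refine h1.mono ?_ ?_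
  · rintro t ⟨ht, hb⟩
    obtain ⟨h2, h3⟩ := hp t hb
    obtain ⟨a, b, hab, ha⟩ := Nat.sq_mul_squarefree (B.eval t).natAbs
    have hv : (B.eval t).natAbs ≠ 0 := Int.natAbs_ne_zero.2 h2
    have hb0 : b ≠ 0 := by
      rintro rfl
      exact hv (by simpa using hab.symm)
    have hav : a ∣ (B.eval t).natAbs := hab ▸ dvd_mul_left a _
    refine ⟨a, ⟨ha.ne_zero, le_trans ?_ (s3 B hBE hBs t (ht.trans hLZ)), fun p hpp hpa => ?_⟩, ?_⟩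
    · exact_mod_cast Nat.le_of_dvd (Nat.pos_of_ne_zero hv) hav
    · by_contra c
      have h4 := (h3 p hpp (Int.natCast_dvd.2 (hpa.trans hav)) c).2
      rw [padicValInt, ← hab] at h4
      exact epl_odd hpp ha hb0 hpa h4
    · rcases Int.natAbs_eq (B.eval t) with e | e
      · exact Or.inl ⟨ht, b, by rw [e, ← hab]; push_cast; ring⟩
      · exact Or.inr ⟨ht, b, by rw [e, ← hab]; push_cast; ring⟩
  · rw [hr]
    have h2 : Z ^ ε = Z ^ (ε / 2) * Z ^ (ε / 2) := by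
      rw [← Real.rpow_add (by linarith), add_halves]
    rw [h2]
    exact le_of_eq (by ring)

end Pool.Agent.VW
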