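import Pool.Agent.P.MP_b0ea37_nt.WSym
import Pool.Agent.P.MP_b0ea37_nt.WSqv
import Pool.Agent.P.MP_b0ea37_nt.WRes
import Pool.Agent.P.MP_b0ea37_nt.WEgood
import Pool.Agent.P.MP_b0ea37_nt.WEpl

namespace Pool.Agent.VW

open Polynomial

/-- ED -/
theorem exists_good (n : ℕ) (hn : 5 ≤ n) : ∃ K : ℕ, ∀ f g₁ g₂ : ℤ[X], f.Monic → f.natDegree = n →
    Irr f → Prim f → g₁.natDegree < n → g₂.natDegree < n → Indep g₁ g₂ →
    ∃ c : ℕ, c ≤ K ∧ Good n f (g₁ + C (c : ℤ) * g₂) := exists_good' n hn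

/-- SIMPLE: the discriminant along a good line has a simple zero -/
theorem Good.simple {n : ℕ} (hn : 5 ≤ n) {f g : ℤ[X]} (hm : f.Monic) (hf : f.natDegree = n)
    (hi : Irr f) (hg : g.natDegree < n) (h : Good n f g) :
    ∃ τ : ℂ, rootMultiplicity τ (Dv n ((up ℂ f).map C + C X * (up ℂ g).map C)) = 1 ∧
      Phi n 0 (up ℂ f + C τ * up ℂ g) ≠ 0 := good_simple hn hm hf hi hg h

/-- LL for an abstract family with a bound on every good line -/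
theorem ll_abs (n : ℕ) (hn : 5 ≤ n) : ∃ K : ℕ, ∀ (B b : ℝ) (L : ℕ) (g₁ g₂ : ℤ[X])
    (P Q : ℤ[X] → Prop), 0 ≤ b → 1 ≤ L → g₁.natDegree < n → g₂.natDegree < n → Indep g₁ g₂ →
    (∀ f, P f → Bad n f) →
    (∀ f, P f → ∀ c : ℕ, c ≤ K → Good n f (g₁ + C (c : ℤ) * g₂) →
      Cnt (fun t : ℤ => |(t : ℝ)| ≤ L ∧ P (f + C t * (g₁ + C (c : ℤ) * g₂))) b) →
    (∀ f, P f → ∀ s t : ℤ, |s| ≤ L → |t| ≤ K * L → Q (f + C s * g₁ + C t * g₂)) → Cnt Q B →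
    Cnt P ((K + 1) * (B * b / L)) := by
  obtain ⟨K, hK⟩ := exists_good n hn
  refine ⟨K, fun B b L g₁ g₂ P Q hb hL h1 h2 hI hP hline hQ hB => ?_⟩
  have hL' : (0 : ℝ) < L := by exact_mod_cast hL
  have key : ∀ c ∈ Finset.range (K + 1),
      Cnt (fun f => P f ∧ Good n f (g₁ + C (c : ℤ) * g₂)) (B * b / L) := by
    intro c hc
    have hcK : c ≤ K := Nat.lt_succ_iff.1 (Finset.mem_range.1 hc)
    set g := g₁ + C (c : ℤ) * g₂ with hg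
    have hg0 : g ≠ 0 := fun h => one_ne_zero (hI 1 c (by rw [C_1, one_mul]; exact h)).1
    have hinj : ∀ (f : ℤ[X]) (s t : ℤ), f + C s * g = f + C t * g → s = t := fun f s t h =>
      C_injective (mul_right_cancel₀ hg0 (add_left_cancel h))
    refine Cnt.double (fun f h => ∃ t : ℕ, t < L ∧ h = f + C (t : ℤ) * g) hL' hb hB ?_ ?_
    · classical
      rintro f ⟨hf, -⟩
      refine ⟨(Finset.range L).image fun t : ℕ => f + C (t : ℤ) * g, ?_, fun h hh => ?_⟩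
      · rw [Finset.card_image_of_injective _ fun s t h => Nat.cast_injective (hinj f _ _ h),
          Finset.card_range]
      · obtain ⟨t, ht, rfl⟩ := Finset.mem_image.1 hh
        have ht' := Finset.mem_range.1 ht
        refine ⟨?_, t, ht', rfl⟩
        have e : f + C (t : ℤ) * g = f + C (t : ℤ) * g₁ + C ((c : ℤ) * t) * g₂ := by
          rw [hg, C_mul]; ring
        rw [e]
        refine hQ f hf _ _ (by rw [Nat.abs_cast]; exact_mod_cast ht'.le) ?_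
        rw [← Nat.cast_mul, Nat.abs_cast]
        exact_mod_cast Nat.mul_le_mul hcK ht'.le
    · intro h _
      refine Cnt.of_mem hb ?_
      rintro f₀ ⟨⟨hf₀, hg₀⟩, t₀, ht₀, e₀⟩
      refine (hline f₀ hf₀ c hcK hg₀).rel (fun f t => f = f₀ + C t * g) ?_ ?_
      · rintro f ⟨⟨hf, -⟩, t, ht, e⟩
        have e' : f = f₀ + C ((t₀ : ℤ) - t) * g := by
          rw [C_sub]; linear_combination e₀ - e
        refine ⟨(t₀ : ℤ) - t, ⟨?_, e' ▸ hf⟩, e'⟩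
        have a1 : (t₀ : ℝ) < L := by exact_mod_cast ht₀
        have a2 : (t : ℝ) < L := by exact_mod_cast ht
        have a3 : (0 : ℝ) ≤ t₀ := Nat.cast_nonneg _
        have a4 : (0 : ℝ) ≤ t := Nat.cast_nonneg _
        push_cast
        exact abs_le.2 ⟨by linarith, by linarith⟩
      · rintro f f' t - - rfl rfl
        rfl
  refine (Cnt.sum _ key).mono (fun f hf => ?_) (by simp)
  obtain ⟨hm, hd, hi, hp, -⟩ := hP f hf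
  obtain ⟨c, hc, hgood⟩ := hK f g₁ g₂ hm hd hi hp h1 h2 hI
  exact ⟨c, Finset.mem_range.2 (Nat.lt_succ_of_le hc), hf, hgood⟩

theorem ll_dir {n K c : ℕ} {Z : ℝ} {g₁ g₂ : ℤ[X]} (hc : c ≤ K) (h1 : g₁.natDegree < n)
    (h2 : g₂.natDegree < n) (s1 : g₁.supNorm ≤ Z) (s2 : g₂.supNorm ≤ Z) :
    (g₁ + C (c : ℤ) * g₂).natDegree < n ∧ (g₁ + C (c : ℤ) * g₂).supNorm ≤ (K + 1) * Z := by
  refine ⟨(natDegree_add_le _ _).trans_lt (max_lt h1 ((natDegree_C_mul_le _ _).trans_lt h2)),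
    (sup_add_le _ _).trans ?_⟩
  rw [sup_C_mul_int, Int.cast_natCast, Nat.abs_cast]
  have h3 : (c : ℝ) ≤ K := by exact_mod_cast hc
  have h4 := mul_le_mul h3 s2 g₂.supNorm_nonneg (Nat.cast_nonneg K)
  linarith

/-- LL with all weak primes known -/
theorem ll_zero (n : ℕ) (hn : 5 ≤ n) : ∃ K : ℕ, ∀ ε : ℝ, 0 < ε → ∃ C₀ : ℝ, 1 ≤ C₀ ∧
    ∀ (Z B : ℝ) (m L : ℕ) (g₁ g₂ : ℤ[X]) (P Q : ℤ[X] → Prop), 1 ≤ m → (m : ℝ) ≤ Z → 1 ≤ L →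
    (L : ℝ) ≤ Z → g₁.natDegree < n → g₂.natDegree < n → Indep g₁ g₂ → g₁.supNorm ≤ Z →
    g₂.supNorm ≤ Z → (∀ f, P f → Bad n f ∧ f.supNorm ≤ Z ∧ WkIn m f) →
    (∀ f, P f → ∀ s t : ℤ, |s| ≤ L → |t| ≤ K * L → Q (f + C s * g₁ + C t * g₂)) → Cnt Q B →
    Cnt P (C₀ * Z ^ ε * B / L) := by
  obtain ⟨K, hK⟩ := ll_abs n hn
  refine ⟨K, fun ε hε => ?_⟩
  obtain ⟨C₁, hC₁, h⟩ := pl_zero n hn ε hε
  have hK1 : (1 : ℝ) ≤ K + 1 := by linarith [Nat.cast_nonneg (α := ℝ) K]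
  refine ⟨(K + 1) * (C₁ * (K + 1) ^ ε), one_le_mul_of_one_le_of_one_le hK1
    (one_le_mul_of_one_le_of_one_le hC₁ (Real.one_le_rpow hK1 hε.le)),
    fun Z B m L g₁ g₂ P Q hm hmZ hL hLZ h1 h2 hI s1 s2 hP hQ hB => ?_⟩
  have hZ : 0 ≤ Z := (Nat.cast_nonneg L).trans hLZ
  have hZZ : Z ≤ (K + 1) * Z := le_mul_of_one_le_left hZ hK1
  refine (hK B (C₁ * ((K + 1) * Z) ^ ε) L g₁ g₂ P Q (by positivity) hL h1 h2 hI
    (fun f hf => (hP f hf).1) (fun f hf c hc hg => ?_) hQ hB).mono (fun _ h => h) (le_of_eq ?_)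
  · obtain ⟨⟨a1, a2, a3, -⟩, a4, -⟩ := hP f hf
    obtain ⟨d1, d2⟩ := ll_dir hc h1 h2 s1 s2
    exact (h _ m f _ hm (hmZ.trans hZZ) a1 a2 a3 d1 (a4.trans hZZ) d2 hg).mono
      (fun t ht => ⟨ht.1.trans (hLZ.trans hZZ), (hP _ ht.2).1, (hP _ ht.2).2.2⟩) le_rfl
  · rw [Real.mul_rpow (by positivity) hZ]; ring

/-- LL0: weak primes divide some number up to `Y` -/
theorem ll_tiny (n : ℕ) (hn : 5 ≤ n) : ∃ K : ℕ, ∀ ε : ℝ, 0 < ε → ∃ C₀ : ℝ, 1 ≤ C₀ ∧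
    ∀ (Z Y B : ℝ) (L : ℕ) (g₁ g₂ : ℤ[X]) (P Q : ℤ[X] → Prop), 1 ≤ Y → Y ≤ Z → 1 ≤ L →
    (L : ℝ) ≤ Z → g₁.natDegree < n → g₂.natDegree < n → Indep g₁ g₂ → g₁.supNorm ≤ Z →
    g₂.supNorm ≤ Z →
    (∀ f, P f → Bad n f ∧ f.supNorm ≤ Z ∧ ∃ m : ℕ, 1 ≤ m ∧ (m : ℝ) ≤ Y ∧ WkIn m f) →
    (∀ f, P f → ∀ s t : ℤ, |s| ≤ L → |t| ≤ K * L → Q (f + C s * g₁ + C t * g₂)) → Cnt Q B →
    Cnt P (C₀ * Z ^ ε * Y * B / L) := by
  obtain ⟨K, hK⟩ := ll_zero n hn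
  refine ⟨K, fun ε hε => ?_⟩
  obtain ⟨C₁, hC₁, h⟩ := hK ε hε
  refine ⟨C₁, hC₁, fun Z Y B L g₁ g₂ P Q hY hYZ hL hLZ h1 h2 hI s1 s2 hP hQ hB => ?_⟩
  have hZ : 0 ≤ Z := (Nat.cast_nonneg L).trans hLZ
  have hB0 := hB.nonneg
  refine ((cnt_nat_pos Y (by linarith)).fibre (P := fun m f => P f ∧ WkIn m f)
    (B' := C₁ * Z ^ ε * B / L) (by positivity) fun m hm => ?_).mono (fun f hf => ?_) (le_of_eq ?_)
  · exact h Z B m L g₁ g₂ _ Q hm.1 (hm.2.trans hYZ) hL hLZ h1 h2 hI s1 s2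
      (fun f hf => ⟨(hP f hf.1).1, (hP f hf.1).2.1, hf.2⟩) (fun f hf => hQ f hf.1) hB
  · obtain ⟨-, -, m, a1, a2, a3⟩ := hP f hf
    exact ⟨m, ⟨a1, a2⟩, hf, a3⟩
  · ring

/-- LL without knowledge of the weak primes -/
theorem ll_half (n : ℕ) (hn : 5 ≤ n) : ∃ K : ℕ, ∀ ε : ℝ, 0 < ε → ∃ C₀ : ℝ, 1 ≤ C₀ ∧
    ∀ (Z B : ℝ) (L : ℕ) (g₁ g₂ : ℤ[X]) (P Q : ℤ[X] → Prop), 1 ≤ L →
    (L : ℝ) ≤ Z → g₁.natDegree < n → g₂.natDegree < n → Indep g₁ g₂ → g₁.supNorm ≤ Z →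
    g₂.supNorm ≤ Z → (∀ f, P f → Bad n f ∧ f.supNorm ≤ Z) →
    (∀ f, P f → ∀ s t : ℤ, |s| ≤ L → |t| ≤ K * L → Q (f + C s * g₁ + C t * g₂)) → Cnt Q B →
    Cnt P (C₀ * Z ^ ε * B / √L) := by
  obtain ⟨K, hK⟩ := ll_abs n hn
  refine ⟨K, fun ε hε => ?_⟩
  obtain ⟨C₁, hC₁, h⟩ := pl_half n hn ε hε
  have hK1 : (1 : ℝ) ≤ K + 1 := by linarith [Nat.cast_nonneg (α := ℝ) K]
  refine ⟨(K + 1) * (C₁ * (K + 1) ^ ε), one_le_mul_of_one_le_of_one_le hK1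
    (one_le_mul_of_one_le_of_one_le hC₁ (Real.one_le_rpow hK1 hε.le)),
    fun Z B L g₁ g₂ P Q hL hLZ h1 h2 hI s1 s2 hP hQ hB => ?_⟩
  have hZ : 0 ≤ Z := (Nat.cast_nonneg L).trans hLZ
  have hZZ : Z ≤ (K + 1) * Z := le_mul_of_one_le_left hZ hK1
  have hL1 : (1 : ℝ) ≤ L := by exact_mod_cast hL
  refine (hK B (C₁ * ((K + 1) * Z) ^ ε * √L) L g₁ g₂ P Q (by positivity) hL h1 h2 hI
    (fun f hf => (hP f hf).1) (fun f hf c hc hg => ?_) hQ hB).mono (fun _ h => h) (le_of_eq ?_)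
  · obtain ⟨⟨a1, a2, a3, -⟩, a4⟩ := hP f hf
    obtain ⟨d1, d2⟩ := ll_dir hc h1 h2 s1 s2
    exact (h _ L f _ hL1 (hLZ.trans hZZ) a1 a2 a3 d1 (a4.trans hZZ) d2 hg).mono
      (fun t ht => ⟨ht.1, (hP _ ht.2).1⟩) le_rfl
  · have hs : 0 < √(L : ℝ) := Real.sqrt_pos.2 (by linarith)
    have e := Real.mul_self_sqrt (show (0 : ℝ) ≤ L by linarith)
    rw [Real.mul_rpow (by positivity) hZ]
    generalize √(L : ℝ) = y at *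
    rw [← e]
    field_simp

end Pool.Agent.VW
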