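import Pool.Agent.P.MP_b0ea37_nt.WXa
import Pool.Agent.P.MP_b0ea37_nt.WDiv

namespace Pool.Agent.VW

open Polynomial

theorem WXc_eval {σ : Type} (R : MvPolynomial σ ℤ) : ∃ (C : ℝ) (d : ℕ), 0 ≤ C ∧ ∀ W : ℝ, 1 ≤ W →
    ∀ a : σ → ℤ, (∀ i, |(a i : ℝ)| ≤ W) → |((MvPolynomial.eval a R : ℤ) : ℝ)| ≤ C * W ^ d := by
  induction R using MvPolynomial.induction_on with
  | C x => exact ⟨|(x : ℝ)|, 0, abs_nonneg _, fun W _ a _ => by simp⟩
  | add p q hp hq =>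
    obtain ⟨C, d, hC, hp⟩ := hp
    obtain ⟨C', d', hC', hq⟩ := hq
    refine ⟨C + C', d + d', by positivity, fun W hW a ha => ?_⟩
    rw [map_add, Int.cast_add, add_mul]
    refine (abs_add_le _ _).trans (add_le_add ((hp W hW a ha).trans ?_) ((hq W hW a ha).trans ?_))
    · exact mul_le_mul_of_nonneg_left (pow_le_pow_right₀ hW (by omega)) hC
    · exact mul_le_mul_of_nonneg_left (pow_le_pow_right₀ hW (by omega)) hC'
  | mul_X p i hp =>
    obtain ⟨C, d, hC, hp⟩ := hp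
    refine ⟨C, d + 1, hC, fun W hW a ha => ?_⟩
    rw [map_mul, MvPolynomial.eval_X, Int.cast_mul, abs_mul, pow_succ, ← mul_assoc]
    exact mul_le_mul (hp W hW a ha) (ha i) (abs_nonneg _) (by positivity)

theorem WXc_inj {N : ℕ} {v : Fin N → ℤ} {a a' : Fin (N + 1) → ℤ} (h : shr v a = shr v a')
    (h0 : a 0 = a' 0) : a = a' := by
  funext i
  refine Fin.cases h0 (fun i => ?_) i
  have := congrFun h i
  simp only [shr] at this
  rw [h0] at this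
  linarith

theorem WXc_box {N : ℕ} (v : Fin N → ℤ) {a : Fin (N + 1) → ℤ} {B H : ℝ}
    (h : ∀ i, |(a i : ℝ)| ≤ B * H) (i : Fin N) :
    |(shr v a i : ℝ)| ≤ B * (1 + ∑ i, |(v i : ℝ)|) * H := by
  have h1 : |(v i : ℝ)| ≤ ∑ i, |(v i : ℝ)| :=
    Finset.single_le_sum (f := fun i => |(v i : ℝ)|) (fun _ _ => abs_nonneg _) (Finset.mem_univ i)
  have h2 := mul_le_mul h1 (h 0) (abs_nonneg _) ((abs_nonneg _).trans h1)
  have h3 := h i.succ
  simp only [shr]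
  push_cast
  refine (abs_sub _ _).trans ?_
  rw [abs_mul]
  linarith

theorem WXc_roots (p : ℕ) (hp : p.Prime) (g : ℤ[X]) (E : ℕ) (hE : g.natDegree ≤ E)
    (hg : ¬ C (p : ℤ) ∣ g) {B H : ℝ} (hB : 0 ≤ B) (hH : 0 ≤ H) (h : H < p) :
    Cnt (fun t : ℤ => |(t : ℝ)| ≤ B * H ∧ (p : ℤ) ∣ g.eval t) (E * (2 * B + 1)) := by
  have hp0 : (0 : ℝ) < p := by exact_mod_cast hp.pos
  have hz : (0 : ℤ) < p := by exact_mod_cast hp.pos
  have h1 := cnt_roots_mod p hp.squarefree g E hE fun q hq hqp => by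
    rwa [(Nat.prime_dvd_prime_iff_eq hq hp).1 hqp]
  rw [hp.primeFactors, Finset.card_singleton, pow_one] at h1
  have h2 : 2 * (B * H) / p + 1 ≤ 2 * B + 1 := by
    rw [add_le_add_iff_right, div_le_iff₀ hp0]
    nlinarith [mul_le_mul_of_nonneg_left h.le hB]
  refine (Cnt.fibre (P := fun r t : ℤ => |(t : ℝ) - 0| ≤ B * H ∧ (p : ℤ) ∣ t - r) h1
    (by positivity) fun r _ => (cnt_class p hp.pos r 0 _ (by positivity)).mono (fun _ h => h)
      h2).mono (fun t ht => ?_) le_rfl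
  have h3 : (p : ℤ) ∣ t - t % p := Int.dvd_self_sub_emod
  refine ⟨t % p, ⟨Int.emod_nonneg _ hz.ne', Int.emod_lt_of_pos _ hz, ?_⟩, by simpa using ht.1, h3⟩
  exact (dvd_iff_dvd_of_dvd_sub (h3.trans (sub_dvd_eval_sub _ _ g))).1 ht.2

/-- points on the sets modulo a large prime: an exceptional set and pairs -/
theorem ek_pairs (k j : ℕ) : ∀ N m : ℕ, k + j ≤ N →
    ∀ (P : Fin m → Fin N → MvPolynomial (Fin k) ℤ) (B : ℝ), 1 ≤ B → ∃ C H₀ : ℝ, 1 ≤ C ∧ 1 ≤ H₀ ∧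
    ∃ Z : (Fin N → ℤ) → Prop, ∀ H : ℝ, H₀ ≤ H →
      Cnt (fun a : Fin N → ℤ => (∀ i, |(a i : ℝ)| ≤ B * H) ∧ Z a) (C * H ^ (N - j)) ∧
      Cnt (fun z : (Fin N → ℤ) × ℕ => (∀ i, |(z.1 i : ℝ)| ≤ B * H) ∧ ¬ Z z.1 ∧ z.2.Prime ∧
        H < z.2 ∧ OnV P z.2 z.1) (C * H ^ (N + 1 - j)) := by
  induction j with
  | zero =>
    intro N m _ P B hB
    refine ⟨(3 * B) ^ N, 1, one_le_pow₀ (by linarith), le_rfl, fun _ => True, fun H hH =>
      ⟨?_, Cnt.empty (fun z hz => hz.2.1 trivial) (by positivity)⟩⟩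
    have h1 : 1 ≤ B * H := one_le_mul_of_one_le_of_one_le hB hH
    refine (Cnt.pi (ι := Fin N) (P := fun _ (t : ℤ) => |(t : ℝ)| ≤ B * H)
      fun _ => cnt_int_abs _ (by linarith)).mono (fun a ha => ha.1) ?_
    rw [Finset.prod_const, Finset.card_univ, Fintype.card_fin, Nat.sub_zero, ← mul_pow]
    exact pow_le_pow_left₀ (by linarith) (by linarith) _
  | succ j ih =>
    intro N m hN P B hB
    obtain ⟨N, rfl⟩ : ∃ N', N = N' + 1 := ⟨N - 1, by omega⟩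
    obtain ⟨P', R, v, c, E, hc, hP, hg⟩ := exists_step (show k ≤ N by omega) P
    have hv : 0 ≤ ∑ i, |(v i : ℝ)| := Finset.sum_nonneg fun _ _ => abs_nonneg _
    obtain ⟨C₁, H₀, hC, hH₀, Z, hZ⟩ := ih N m (by omega) P' (B * (1 + ∑ i, |(v i : ℝ)|))
      (one_le_mul_of_one_le_of_one_le hB (by linarith))
    obtain ⟨C₂, d, hC₂, hR⟩ := WXc_eval R
    have hB0 : 0 ≤ B := by linarith
    have hE : (0 : ℝ) ≤ E := Nat.cast_nonneg _
    have hd : (0 : ℝ) ≤ d := Nat.cast_nonneg _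
    have hEB : 0 ≤ E * B := mul_nonneg hE hB0
    have hdB : 0 ≤ B * d := mul_nonneg hB0 hd
    have hCB : 0 ≤ C₂ * B ^ d := by positivity
    have hca : 0 ≤ |(c : ℝ)| := abs_nonneg _
    refine ⟨C₁ * (E * (2 * B + 1) + 3 * B * (d + 1)), H₀ + 1 + |(c : ℝ)| + C₂ * B ^ d,
      one_le_mul_of_one_le_of_one_le hC (by linarith), by linarith,
      fun a => Z (shr v a) ∧ MvPolynomial.eval a R = 0, fun H hH => ?_⟩
    obtain ⟨h1, h2⟩ := hZ H (by linarith)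
    have hH1 : 1 < H := by linarith
    have hBH : 1 ≤ B * H := one_le_mul_of_one_le_of_one_le hB hH1.le
    rw [Nat.add_sub_add_right, Nat.add_sub_add_right]
    have hW : 0 ≤ C₁ * H ^ (N - j) := by positivity
    constructor
    · refine (Cnt.fibre (P := fun b (a : Fin (N + 1) → ℤ) =>
        shr v a = b ∧ MvPolynomial.eval a R = 0) h1 hE fun b _ => ?_).mono
        (fun a ha => ⟨shr v a, ⟨WXc_box v ha.1, ha.2.1⟩, rfl, ha.2.2⟩) ?_
      · obtain ⟨g, g1, g2, g3⟩ := hg b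
        have g0 : g ≠ 0 := fun e => hc (by rw [← g2, e, coeff_zero])
        exact ((cnt_roots g g0).inj (fun a => a 0) (fun a ha => (g3 a ha.1).trans ha.2)
          fun a a' ha ha' e => WXc_inj (ha.1.trans ha'.1.symm) e).mono (fun _ h => h)
          (Nat.cast_le.2 g1)
      · rw [mul_right_comm C₁ _ (H ^ (N - j))]
        exact mul_le_mul_of_nonneg_left (by linarith) hW
    · have hA := Cnt.fibre (P := fun (y : (Fin N → ℤ) × ℕ) (z : (Fin (N + 1) → ℤ) × ℕ) =>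
          z.2 = y.2 ∧ shr v z.1 = y.1 ∧ |(z.1 0 : ℝ)| ≤ B * H ∧
            (y.2 : ℤ) ∣ MvPolynomial.eval z.1 R) h2 (B' := E * (2 * B + 1)) (by positivity)
        fun y hy => by
          obtain ⟨g, g1, g2, g3⟩ := hg y.1
          have g0 : ¬ C (y.2 : ℤ) ∣ g := fun e => by
            have e1 := Int.le_abs_of_dvd hc (g2 ▸ (C_dvd_iff_dvd_coeff _ _).1 e E)
            have e2 : (y.2 : ℝ) ≤ |(c : ℝ)| := by exact_mod_cast e1
            linarith [hy.2.2.2.1]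
          exact (WXc_roots y.2 hy.2.2.1 g E g1 g0 hB0 (by linarith) hy.2.2.2.1).inj
            (fun z => z.1 0) (fun z hz => ⟨hz.2.2.1, g3 z.1 hz.2.1 ▸ hz.2.2.2⟩)
            fun z z' hz hz' e => Prod.ext (WXc_inj (hz.2.1.trans hz'.2.1.symm) e)
              (hz.1.trans hz'.1.symm)
      have hB1 : Cnt (fun a : Fin (N + 1) → ℤ => (∀ i, |(a i : ℝ)| ≤ B * H) ∧ Z (shr v a) ∧
          MvPolynomial.eval a R ≠ 0) (C₁ * H ^ (N - j) * (3 * B * H)) :=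
        (Cnt.fibre (P := fun b (a : Fin (N + 1) → ℤ) => shr v a = b ∧ |(a 0 : ℝ)| ≤ B * H) h1
          (by positivity) fun b _ => ((cnt_int_abs (B * H) (by linarith)).inj (fun a => a 0)
            (fun a ha => ha.2) fun a a' ha ha' e => WXc_inj (ha.1.trans ha'.1.symm) e).mono
            (fun _ h => h) (by linarith)).mono
          (fun a ha => ⟨shr v a, ⟨WXc_box v ha.1, ha.2.1⟩, rfl, ha.1 0⟩) le_rfl
      have hB2 := Cnt.prod (Q := fun a (p : ℕ) => p.Prime ∧ H ≤ p ∧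
          (p : ℤ) ∣ MvPolynomial.eval a R) hB1 (B' := (d + 1 : ℕ)) (Nat.cast_nonneg _)
        fun a ha => cnt_large_primes _ ha.2.2 H hH1 (d + 1) ((hR _ hBH a ha.1).trans (by
          rw [mul_pow, ← mul_assoc, pow_succ']
          exact mul_le_mul_of_nonneg_right (by linarith) (by positivity)))
      refine (hA.or hB2).mono (fun z hz => ?_) (le_of_eq ?_)
      · obtain ⟨z1, z2, z3, z4, z5⟩ := hz
        obtain ⟨z6, z7⟩ := hP _ _ z5
        by_cases h : Z (shr v z.1)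
        · exact Or.inr ⟨⟨z1, h, fun e => z2 ⟨h, e⟩⟩, z3, z4.le, z7⟩
        · exact Or.inl ⟨(shr v z.1, z.2), ⟨WXc_box v z1, h, z3, z4, z6⟩, rfl, rfl, z1 0, z7⟩
      · rw [show N + 1 - j = N - j + 1 by omega]
        push_cast
        ring

theorem ek_big (k j N m : ℕ) (h : k + j ≤ N) (P : Fin m → Fin N → MvPolynomial (Fin k) ℤ) :
    ∃ C H₀ : ℝ, ∀ H : ℝ, H₀ ≤ H →
      Cnt (fun a : Fin N → ℤ => (∀ i, |(a i : ℝ)| ≤ H) ∧
        ∃ p : ℕ, p.Prime ∧ H < p ∧ OnV P p a) (C * H ^ (N + 1 - j)) := by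
  obtain ⟨C, H₀, hC, hH₀, Z, hZ⟩ := ek_pairs k j N m h P 1 le_rfl
  refine ⟨2 * C, H₀, fun H hH => ?_⟩
  obtain ⟨h1, h2⟩ := hZ H hH
  simp only [one_mul] at h1 h2
  refine (h1.or (h2.image Prod.fst)).mono (fun a ha => ?_) ?_
  · obtain ⟨a1, p, a2⟩ := ha
    by_cases hz : Z a
    · exact Or.inl ⟨a1, hz⟩
    · exact Or.inr ⟨(a, p), ⟨a1, hz, a2⟩, rfl⟩
  · have := mul_le_mul_of_nonneg_left (pow_le_pow_right₀ (hH₀.trans hH)
      (show N - j ≤ N + 1 - j by omega)) (zero_le_one.trans hC)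
    linarith

end Pool.Agent.VW
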