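import Pool.Agent.P.MP_b0ea37_nt.WXb
import Pool.Agent.P.MP_b0ea37_nt.WXc
import Pool.Agent.P.MP_b0ea37_nt.WLine

namespace Pool.Agent.VW

open Polynomial

theorem xd_coef {n : ℕ} {Q : (Fin n → ℤ) → Prop} {B : ℝ} (h : Cnt Q B) :
    Cnt (fun f : ℤ[X] => f.Monic ∧ f.natDegree = n ∧ Q fun i => f.coeff i) B := by
  refine h.inj (fun f i => f.coeff i) (fun f hf => hf.2.2) fun f g hf hg e => ?_
  ext i
  rcases lt_trichotomy i n with h | h | h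
  · exact congrFun e ⟨i, h⟩
  · have h1 : f.coeff i = 1 := by rw [h, ← hf.2.1]; exact hf.1.coeff_natDegree
    have h2 : g.coeff i = 1 := by rw [h, ← hg.2.1]; exact hg.1.coeff_natDegree
    rw [h1, h2]
  · rw [coeff_eq_zero_of_natDegree_lt (hf.2.1 ▸ h), coeff_eq_zero_of_natDegree_lt (hg.2.1 ▸ h)]

theorem xd_abs (f : ℤ[X]) (i : ℕ) : |(f.coeff i : ℝ)| ≤ f.supNorm := f.le_supNorm i

theorem xd_sub (H W : ℝ) (hW : 1 ≤ W) (hWH : W * W ≤ H) (Y : ℕ) (hY : Squarefree Y) (h : W < Y)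
    (hp : ∀ p : ℕ, p.Prime → p ∣ Y → (p : ℝ) ≤ H) :
    ∃ Y' : ℕ, Squarefree Y' ∧ Y' ∣ Y ∧ W < Y' ∧ (Y' : ℝ) ≤ H := by
  by_cases hex : ∃ p : ℕ, p.Prime ∧ p ∣ Y ∧ W < p
  · obtain ⟨p, h1, h2, h3⟩ := hex
    exact ⟨p, h1.prime.squarefree, h2, h3, hp p h1 h2⟩
  · have e : (Y.primeFactorsList : Multiset ℕ).prod = Y := by
      rw [Multiset.prod_coe, Nat.prod_primeFactorsList hY.ne_zero]
    obtain ⟨t, h1, h2, h3⟩ := exists_subprod (Y.primeFactorsList : Multiset ℕ) W W hW hW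
      (fun p hp' => by
        have h4 := (Nat.mem_primeFactorsList hY.ne_zero).1 (Multiset.mem_coe.1 hp')
        exact ⟨h4.1.one_le, not_lt.1 fun h5 => hex ⟨p, h4.1, h4.2, h5⟩⟩) (by rwa [e])
    have hd : t.prod ∣ Y := e ▸ Multiset.prod_dvd_prod_of_le h1
    exact ⟨t.prod, hY.squarefree_of_dvd hd, hd, h2, h3.trans hWH⟩

theorem xd_indep (Y : ℤ) (hY : Y ≠ 0) : Indep (C Y) (C Y * X) := by
  intro a b h
  have h0 := congrArg (fun q : ℤ[X] => q.coeff 0) h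
  have h1 := congrArg (fun q : ℤ[X] => q.coeff 1) h
  simp only [coeff_add, coeff_C_mul, coeff_C_zero, coeff_X_zero, coeff_X_one, mul_zero, add_zero,
    coeff_zero, mul_one, coeff_C_succ (n := 0), zero_add] at h0 h1
  exact ⟨(mul_eq_zero.1 h0).resolve_right hY, (mul_eq_zero.1 h1).resolve_right hY⟩

/-- one squarefree modulus of size at most `H` -/
theorem xd_one (n : ℕ) (hn : 5 ≤ n) (m : ℕ) (P : Fin m → Fin n → MvPolynomial (Fin (n - 3)) ℤ)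
    (ε : ℝ) (hε : 0 < ε) (hε1 : ε ≤ 1) : ∃ C₀ : ℝ, 0 ≤ C₀ ∧ ∀ (H : ℝ) (Y : ℕ), 1 ≤ H →
    Squarefree Y → (Y : ℝ) ≤ H →
    Cnt (fun f : ℤ[X] => f.supNorm ≤ H ∧ Bad n f ∧ Tiny ε H f ∧
      ∀ p : ℕ, p.Prime → p ∣ Y → OnV P p fun i => f.coeff i)
      (C₀ * (H ^ ε) ^ 3 * H ^ n / (H * (Y : ℝ) ^ 2)) := by
  obtain ⟨K, hK⟩ := ll_tiny n hn
  obtain ⟨C₀, h0, hK⟩ := hK ε hε
  have hK0 : (0 : ℝ) ≤ K := Nat.cast_nonneg K
  obtain ⟨C₁, A, h1, hA, hek⟩ := ek_small (n - 3) 3 n m (by omega) P (K + 2) (by linarith)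
  obtain ⟨C₂, h2, hom⟩ := pow_omega_le A hA ε hε
  refine ⟨2 * C₀ * C₁ * C₂, by positivity, fun H Y hH hY hYH => ?_⟩
  have hY1 : (1 : ℝ) ≤ Y := by exact_mod_cast Nat.one_le_iff_ne_zero.2 hY.ne_zero
  have hY0 : (0 : ℝ) < Y := by linarith
  have hu : 1 ≤ H ^ ε := Real.one_le_rpow hH hε.le
  have huH : H ^ ε ≤ H := Real.rpow_le_self_of_one_le hH hε1
  have hq : 1 ≤ H / Y := (one_le_div hY0).2 hYH
  obtain ⟨L, hL⟩ : ∃ L, L = ⌊H / Y⌋₊ := ⟨_, rfl⟩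
  have hL1 : 1 ≤ L := hL ▸ Nat.le_floor (by exact_mod_cast hq)
  have hL1' : (1 : ℝ) ≤ L := by exact_mod_cast hL1
  have hL2 : (L : ℝ) * Y ≤ H := (le_div_iff₀ hY0).1 (hL ▸ Nat.floor_le (by linarith))
  have hL3 : H ≤ 2 * L * Y := by
    have : H / Y < L + 1 := hL ▸ Nat.lt_floor_add_one _
    rw [div_lt_iff₀ hY0] at this
    nlinarith
  have s1 : (C (Y : ℤ)).supNorm = Y := by rw [supNorm_C]; simp
  have s2 : (C (Y : ℤ) * X : ℤ[X]).supNorm = (Y : ℝ) := by rw [sup_C_mul_int, supNorm_X]; simp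
  have d2 : (C (Y : ℤ) * X).natDegree ≤ 1 := (natDegree_C_mul_le _ _).trans natDegree_X_le
  refine (hK H (H ^ ε) _ L (C (Y : ℤ)) (C (Y : ℤ) * X) (fun f : ℤ[X] => f.supNorm ≤ H ∧ Bad n f ∧
    Tiny ε H f ∧ ∀ p : ℕ, p.Prime → p ∣ Y → OnV P p fun i => f.coeff i) _ hu huH hL1 (by nlinarith)
    (by rw [natDegree_C]; omega) (by omega) (xd_indep _ (by exact_mod_cast hY.ne_zero))
    (s1 ▸ hYH) (s2 ▸ hYH) (fun f hf => ⟨hf.2.1, hf.1, hf.2.2.1⟩) ?_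
    (xd_coef (hek H Y hY hYH))).mono (fun _ h => h) ?_
  · intro f hf s t hs ht
    have hm := hf.2.1.1
    have hd := hf.2.1.2.1
    have e : f + C s * C (Y : ℤ) + C t * (C (Y : ℤ) * X) = f + C (Y : ℤ) * (C t * X + C s) := by
      ring
    have hlt : (C (Y : ℤ) * (C t * X + C s)).natDegree < f.natDegree :=
      ((natDegree_C_mul_le _ _).trans natDegree_linear_le).trans_lt (by omega)
    refine ⟨e ▸ hm.add_of_left (degree_lt_degree hlt),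
      by rw [e, natDegree_add_eq_left_of_natDegree_lt hlt, hd], fun i => ?_, fun p hp hpY => ?_⟩
    · refine (xd_abs _ _).trans ?_
      have a1 := sup_add_le (f + C s * C (Y : ℤ)) (C t * (C (Y : ℤ) * X))
      have a2 := sup_add_le f (C s * C (Y : ℤ))
      rw [sup_C_mul_int, s2] at a1
      rw [sup_C_mul_int, s1] at a2
      have a3 : |(s : ℝ)| ≤ L := by exact_mod_cast hs
      have a4 : |(t : ℝ)| ≤ K * L := by exact_mod_cast ht
      have a5 := mul_le_mul_of_nonneg_right a3 hY0.le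
      have a6 := mul_le_mul_of_nonneg_right a4 hY0.le
      have a7 := mul_le_mul_of_nonneg_left hL2 hK0
      have a8 := hf.1
      nlinarith
    · refine (hf.2.2.2 p hp hpY).congr fun i => ?_
      rw [e, coeff_add, add_sub_cancel_left, coeff_C_mul]
      exact (Int.natCast_dvd_natCast.2 hpY).mul_right _
  · have a1 : A ^ Y.primeFactors.card ≤ C₂ * H ^ ε := (hom Y hY.ne_zero).trans
      (mul_le_mul_of_nonneg_left (Real.rpow_le_rpow hY0.le hYH hε.le) (by linarith))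
    have hH0 : 0 < H := by linarith
    have a2 : H / (2 * Y) ≤ L := by rw [div_le_iff₀ (by positivity)]; linarith
    calc _ ≤ C₀ * H ^ ε * H ^ ε * (C₁ * (C₂ * H ^ ε) * H ^ n / (Y : ℝ) ^ 3) / (H / (2 * Y)) := by
          gcongr
      _ = _ := by field_simp

/-- C3 for a parametrised family of codimension three -/
theorem ps_family (n : ℕ) (hn : 5 ≤ n) (m : ℕ)
    (P : Fin m → Fin n → MvPolynomial (Fin (n - 3)) ℤ) (η : ℝ) (hη : 0 < η) : ∃ δ : ℝ, 0 < δ ∧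
    PS n fun H f => Bad n f ∧ Tiny δ H f ∧ ∃ Y : ℕ, Squarefree Y ∧ H ^ η < Y ∧
      ∀ p : ℕ, p.Prime → p ∣ Y → OnV P p fun i => f.coeff i := by
  obtain ⟨ε, hε, hε1, hεη⟩ : ∃ ε : ℝ, 0 < ε ∧ 16 * ε ≤ 1 ∧ 8 * ε ≤ η := by
    have a1 := min_le_left η 1
    have a2 := min_le_right η 1
    have a3 := lt_min hη one_pos
    exact ⟨min η 1 / 16, by linarith, by linarith, by linarith⟩
  have hpow : ∀ (H : ℝ) (k : ℕ), 1 ≤ H → (H ^ ε) ^ k = H ^ (k * ε) := fun H k hH => by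
    rw [mul_comm, Real.rpow_mul (by linarith), Real.rpow_natCast]
  refine ⟨ε, hε, ?_⟩
  have big : PS n fun H f => ∃ p : ℕ, p.Prime ∧ H < p ∧ OnV P p fun i => f.coeff i := by
    obtain ⟨C₀, H₀, h⟩ := ek_big (n - 3) 3 n m (by omega) P
    refine PS.of_lt ((n + 1 - 3 : ℕ) : ℝ) C₀ H₀ ?_ fun H hH => ?_
    · have : ((n + 1 - 3 : ℕ) : ℝ) + 2 = n := by exact_mod_cast (by omega : n + 1 - 3 + 2 = n)
      linarith
    · rw [Real.rpow_natCast]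
      exact (xd_coef (h H hH)).mono (fun f hf =>
        ⟨hf.1.1, hf.1.2.1, fun i => (xd_abs f i).trans hf.1.2.2.2, hf.2⟩) le_rfl
  have small : PS n fun H f => ∃ Y ∈ Finset.Icc 1 ⌊H⌋₊, Squarefree Y ∧ (H ^ ε) ^ 8 < (Y : ℝ) ∧
      f.supNorm ≤ H ∧ Bad n f ∧ Tiny ε H f ∧
      ∀ p : ℕ, p.Prime → p ∣ Y → OnV P p fun i => f.coeff i := by
    obtain ⟨C₀, h0, h⟩ := xd_one n hn m P ε hε (by linarith)
    obtain ⟨C₁, h1, hs⟩ := sum_inv_le ε hε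
    refine ⟨4 * ε, by linarith, C₀ * C₁, 1, fun H hH => ?_⟩
    have hH0 : 0 < H := by linarith
    have hu : 1 ≤ H ^ ε := Real.one_le_rpow hH hε.le
    refine (Cnt.sum (Finset.Icc 1 ⌊H⌋₊)
      (B := fun Y => C₀ * H ^ n / (H * (H ^ ε) ^ 5) * (1 / (Y : ℝ))) fun Y hY => ?_).mono
      (fun f hf => hf.2) ?_
    · have hY1 : (1 : ℝ) ≤ Y := by exact_mod_cast (Finset.mem_Icc.1 hY).1
      have hYH : (Y : ℝ) ≤ H := (Nat.le_floor_iff hH0.le).1 (Finset.mem_Icc.1 hY).2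
      refine Cnt.of_mem (by positivity) fun f₀ hf₀ => ?_
      refine (h H Y hH hf₀.1 hYH).mono (fun f hf => hf.2.2) ?_
      have a1 := hf₀.2.1.le
      calc _ = C₀ * (H ^ ε) ^ 3 * H ^ n / (H * ((Y : ℝ) * Y)) := by rw [sq (Y : ℝ)]
        _ ≤ C₀ * (H ^ ε) ^ 3 * H ^ n / (H * ((H ^ ε) ^ 8 * Y)) := by gcongr
        _ = _ := by field_simp
    · rw [← Finset.mul_sum]
      have a1 : ∑ Y ∈ Finset.Icc 1 ⌊H⌋₊, (1 : ℝ) / Y ≤ C₁ * H ^ ε := (hs _).trans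
        (mul_le_mul_of_nonneg_left
          (Real.rpow_le_rpow (Nat.cast_nonneg _) (Nat.floor_le hH0.le) hε.le) (by linarith))
      have a2 : H ^ ((n : ℝ) - 1 - 4 * ε) = H ^ n / (H * (H ^ ε) ^ 4) := by
        rw [hpow H 4 hH, Real.rpow_sub hH0, Real.rpow_sub hH0, Real.rpow_natCast, Real.rpow_one,
          div_div, Nat.cast_ofNat]
      rw [a2]
      calc _ ≤ C₀ * H ^ n / (H * (H ^ ε) ^ 5) * (C₁ * H ^ ε) := by gcongr
        _ = _ := by field_simp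
  refine (big.or small).mono 1 ?_
  rintro H hH f hb ⟨h1, h2, Y, h3, h4, h5⟩
  by_cases hex : ∃ p : ℕ, p.Prime ∧ p ∣ Y ∧ H < p
  · obtain ⟨p, a1, a2, a3⟩ := hex
    exact Or.inl ⟨p, a1, a3, h5 p a1 a2⟩
  · have hu : 1 ≤ H ^ ε := Real.one_le_rpow hH hε.le
    obtain ⟨Y', a1, a2, a3, a4⟩ := xd_sub H ((H ^ ε) ^ 8) (one_le_pow₀ hu) (by
        rw [← pow_add, hpow H _ hH]
        exact Real.rpow_le_self_of_one_le hH (by push_cast; linarith)) Y h3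
      (lt_of_le_of_lt (by
        rw [hpow H _ hH]
        exact Real.rpow_le_rpow_of_exponent_le hH (by push_cast; linarith)) h4)
      fun p hp hd => not_lt.1 fun h => hex ⟨p, hp, hd, h⟩
    exact Or.inr ⟨Y', Finset.mem_Icc.2 ⟨Nat.one_le_iff_ne_zero.2 a1.ne_zero, Nat.le_floor a4⟩, a1,
      a3, hb.2.2.2, h1, h2, fun p hp hd => h5 p hp (hd.trans a2)⟩

end Pool.Agent.VW
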