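import Pool.Agent.P.MP_b0ea37_nt.WOe
import Pool.Agent.P.MP_b0ea37_nt.WXd

namespace Pool.Agent.VW

open Polynomial

/-- LOC, part L1 -/
theorem loc_dvd {n p : ℕ} (hn : 5 ≤ n) {f : ℤ[X]} (hf : Bad n f) (hp : p.Prime) (hnp : n < p)
    (hw : ¬ Weak p f) (k : ℕ) : (p : ℤ) ^ (padicValInt p (Dv n f) / 2) ∣ Phi n k f :=
  loc_dvd' hn hf hp hnp hw k

/-- C3: many primes with odd exponent that are not weak -/
theorem ps_odd (n : ℕ) (hn : 5 ≤ n) (η : ℝ) (hη : 0 < η) : ∃ δ : ℝ, 0 < δ ∧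
    PS n fun H f => Bad n f ∧ Tiny δ H f ∧ ∃ Y : ℕ, Squarefree Y ∧ H ^ η < Y ∧
      ∀ p : ℕ, p.Prime → p ∣ Y → n < p ∧ ¬ Weak p f ∧ Odd (padicValInt p (Dv n f)) := by
  obtain ⟨m, P, hP⟩ := exists_family n hn
  obtain ⟨δ, hδ, h⟩ := ps_family n hn m P η hη
  refine ⟨δ, hδ, h.mono 0 ?_⟩
  rintro H - f - ⟨h1, h2, Y, h3, h4, h5⟩
  exact ⟨h1, h2, Y, h3, h4, fun p hp hd =>
    hP f p h1 hp (h5 p hp hd).1 (h5 p hp hd).2.1 (h5 p hp hd).2.2⟩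

end Pool.Agent.VW
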