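import Pool.Agent.P.MP_b0ea37_nt.WDefs

namespace Pool.Agent.VW

open Polynomial

/-- the discriminant is almost a square `y ^ 2` and `y` divides all `Phi` -/
def Core (n : ℕ) (η H : ℝ) (f : ℤ[X]) : Prop :=
  ∃ q y : ℤ, Dv n f = q * y ^ 2 ∧ |(q : ℝ)| ≤ H ^ η ∧ H ^ ((n : ℝ) - 1 - η) ≤ |(y : ℝ)| ∧
    ∀ k : ℕ, y ∣ Phi n k f

end Pool.Agent.VW
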