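import Pool.Agent.P.MP_b0ea37_nt.WClam
import Pool.Agent.P.MP_b0ea37_nt.WPack

namespace Pool.Agent.VW

open Polynomial

/-- many points of small diameter do not lie on a line -/
theorem two_indep (S : Finset ℤ[X]) (T T₁ : ℝ) (hT : 0 ≤ T) (hT₁ : 0 < T₁)
    (h1 : ∀ x ∈ S, ∀ y ∈ S, (x - y).supNorm ≤ T)
    (h2 : ∀ x ∈ S, ∀ y ∈ S, x ≠ y → T₁ ≤ (x - y).supNorm) (hS : 1 + 2 * T / T₁ < S.card) :
    ∃ x ∈ S, ∃ y ∈ S, ∃ z ∈ S, Indep (y - x) (z - x) := by
  by_contra hno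
  have hc : 1 < S.card := by
    have : (0 : ℝ) ≤ 2 * T / T₁ := by positivity
    have h : (1 : ℝ) < S.card := by linarith
    exact_mod_cast h
  obtain ⟨x₀, hx₀, x₁, hx₁, hne⟩ := Finset.one_lt_card.1 hc
  have hg : x₁ - x₀ ≠ 0 := sub_ne_zero.2 hne.symm
  obtain ⟨i, hi⟩ := (x₁ - x₀).exists_eq_supNorm
  have hgi : 0 < ‖(x₁ - x₀).coeff i‖ := hi ▸ lt_of_lt_of_le one_pos (one_le_sup hg)
  have hA : ∀ y ∈ S, ∀ j, (x₁ - x₀).coeff i * (y - x₀).coeff j =
      (x₁ - x₀).coeff j * (y - x₀).coeff i := by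
    intro y hy j
    have hI : ¬ Indep (x₁ - x₀) (y - x₀) := fun h => hno ⟨x₀, hx₀, x₁, hx₁, y, hy, h⟩
    unfold Indep at hI
    push Not at hI
    obtain ⟨a, b, hab, hz⟩ := hI
    have hb : b ≠ 0 := by
      rintro rfl
      rw [map_zero, zero_mul, add_zero, mul_eq_zero, C_eq_zero] at hab
      exact hz (hab.resolve_right hg) rfl
    have e1 := congrArg (fun q => q.coeff i) hab
    have e2 := congrArg (fun q => q.coeff j) hab
    simp only [coeff_add, coeff_C_mul, coeff_zero] at e1 e2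
    apply mul_left_cancel₀ hb
    linear_combination (x₁ - x₀).coeff i * e2 - (x₁ - x₀).coeff j * e1
  have hB : ∀ y ∈ S, ∀ y' ∈ S, (y - y').supNorm ≤ ‖(y - y').coeff i‖ := by
    intro y hy y' hy'
    refine sup_le_iff.2 fun j => ?_
    have e : (x₁ - x₀).coeff i * (y - y').coeff j = (x₁ - x₀).coeff j * (y - y').coeff i := by
      have e1 := hA y hy j
      have e2 := hA y' hy' j
      simp only [coeff_sub] at e1 e2 ⊢
      linear_combination e1 - e2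
    have e' := congrArg (fun t : ℤ => ‖t‖) e
    simp only [norm_mul] at e'
    have h3 : ‖(x₁ - x₀).coeff j‖ ≤ ‖(x₁ - x₀).coeff i‖ := hi ▸ (x₁ - x₀).le_supNorm j
    refine le_of_mul_le_mul_left ?_ hgi
    rw [e']
    exact mul_le_mul_of_nonneg_right h3 (norm_nonneg _)
  have hC : ∀ y y' : ℤ[X], normSeminorm ℝ ℝ ((y.coeff i : ℝ) - (y'.coeff i : ℝ)) =
      ‖(y - y').coeff i‖ := by
    intro y y'
    rw [coe_normSeminorm, coeff_sub, ← Int.cast_sub, Int.norm_cast_real]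
  have := pack_semi (normSeminorm ℝ ℝ) (⊤ : Submodule ℝ ℝ) 1 (by simp) T T₁ hT hT₁ S
    (fun y => (y.coeff i : ℝ)) (fun _ _ _ _ => Submodule.mem_top)
    (fun y hy y' hy' => (hC y y').le.trans (((y - y').le_supNorm i).trans (h1 y hy y' hy')))
    (fun y hy y' hy' hne => ((h2 y hy y' hy' hne).trans (hB y hy y' hy')).trans (hC y y').ge)
  rw [pow_one] at this
  linarith

/-- pigeonhole in the box of polynomials with coefficients in `[0, T]` -/
theorem short_pair {β : Type} (n T : ℕ) (φ : ℤ[X] → β) (Q : β → Prop) (B T₁ : ℝ) (hQ : Cnt Q B)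
    (hT₁ : 0 < T₁) (hφ : ∀ g : ℤ[X], g.degree < n → g.supNorm ≤ T → Q (φ g))
    (hsep : ∀ g g' : ℤ[X], g.degree < n → g'.degree < n → g ≠ g' → φ g = φ g' →
      T₁ ≤ (g - g').supNorm)
    (h : B * (1 + 2 * T / T₁) < ((T : ℝ) + 1) ^ n) :
    ∃ x y z : ℤ[X], x.degree < n ∧ y.degree < n ∧ z.degree < n ∧ φ y = φ x ∧ φ z = φ x ∧
      Indep (y - x) (z - x) ∧ (y - x).supNorm ≤ T ∧ (z - x).supNorm ≤ T := by
  classical
  set S₀ : Finset ℤ[X] :=
    (Fintype.piFinset fun _ : Fin n => Finset.Icc (0 : ℤ) T).image (ofFn n) with hS₀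
  have hcard : (S₀.card : ℝ) = ((T : ℝ) + 1) ^ n := by
    rw [hS₀, Finset.card_image_of_injective _ (injective_ofFn n), Fintype.card_piFinset]
    simp
  have hmem : ∀ g ∈ S₀, g.degree < n ∧ ∀ j, 0 ≤ g.coeff j ∧ g.coeff j ≤ T := by
    intro g hg
    obtain ⟨v, hv, rfl⟩ := Finset.mem_image.1 hg
    refine ⟨ofFn_degree_lt v, fun j => ?_⟩
    rcases lt_or_ge j n with hj | hj
    · rw [ofFn_coeff_eq_val_of_lt v hj]
      exact Finset.mem_Icc.1 (Fintype.mem_piFinset.1 hv ⟨j, hj⟩)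
    · rw [ofFn_coeff_eq_zero_of_ge v hj]
      exact ⟨le_rfl, Int.natCast_nonneg T⟩
  have hnorm : ∀ t : ℤ, |t| ≤ T → ‖t‖ ≤ (T : ℝ) := by
    intro t ht
    rw [Int.norm_eq_abs]
    exact_mod_cast ht
  have hdiff : ∀ g ∈ S₀, ∀ g' ∈ S₀, (g - g').supNorm ≤ T := by
    intro g hg g' hg'
    refine sup_le_iff.2 fun j => hnorm _ ?_
    have a1 := (hmem g hg).2 j
    have a2 := (hmem g' hg').2 j
    rw [coeff_sub, abs_le]
    constructor <;> linarith [a1.1, a1.2, a2.1, a2.2]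
  obtain ⟨U, hU, hK, hφU⟩ := pigeon S₀ φ hQ (K := 1 + 2 * T / T₁)
    (fun g hg => hφ g (hmem g hg).1 (sup_le_iff.2 fun j => hnorm _ (by
      rw [abs_of_nonneg ((hmem g hg).2 j).1]
      exact ((hmem g hg).2 j).2)))
    (by positivity) (by rwa [hcard])
  obtain ⟨x, hx, y, hy, z, hz, hI⟩ := two_indep U T T₁ (Nat.cast_nonneg T) hT₁
    (fun x hx y hy => hdiff x (hU hx) y (hU hy))
    (fun x hx y hy hne => hsep x y (hmem x (hU hx)).1 (hmem y (hU hy)).1 hne (hφU x hx y hy)) hK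
  exact ⟨x, y, z, (hmem x (hU hx)).1, (hmem y (hU hy)).1, (hmem z (hU hz)).1, hφU y hy x hx,
    hφU z hz x hx, hI, hdiff y (hU hy) x (hU hx), hdiff z (hU hz) x (hU hx)⟩

/-- two short independent vectors in a congruence lattice -/
theorem lam_short (n Y T : ℕ) (hn : 1 ≤ n) (hY : 1 ≤ Y) (c : ℤ[X]) (hc : c.Monic) (T₁ : ℝ)
    (hT₁ : 0 < T₁) (hsep : ∀ g : ℤ[X], g ≠ 0 → g.degree < n → Lam Y c g → T₁ ≤ g.supNorm)
    (h : (Y : ℝ) ^ c.natDegree * (1 + 2 * T / T₁) < ((T : ℝ) + 1) ^ n) :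
    ∃ g₁ g₂ : ℤ[X], g₁.natDegree < n ∧ g₂.natDegree < n ∧ Indep g₁ g₂ ∧ g₁.supNorm ≤ T ∧
      g₂.supNorm ≤ T ∧ Lam Y c g₁ ∧ Lam Y c g₂ := by
  have : NeZero Y := ⟨by omega⟩
  set φ : ℤ[X] → Fin c.natDegree → ZMod Y := fun g i => ((g %ₘ c).coeff i : ZMod Y) with hφ
  have hL : ∀ g g' : ℤ[X], φ g = φ g' → Lam Y c (g - g') := by
    intro g g' he
    have hd : C (Y : ℤ) ∣ g %ₘ c - g' %ₘ c := by
      refine (C_dvd_iff_dvd_coeff _ _).2 fun j => ?_
      rcases lt_or_ge j c.natDegree with hj | hj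
      · have := congrFun he ⟨j, hj⟩
        rw [coeff_sub, ← ZMod.intCast_zmod_eq_zero_iff_dvd, Int.cast_sub, sub_eq_zero]
        exact this
      · have hz : ∀ u : ℤ[X], (u %ₘ c).coeff j = 0 := fun u =>
          coeff_eq_zero_of_degree_lt (((degree_modByMonic_lt u hc).trans_le degree_le_natDegree).trans_le
            (by exact_mod_cast hj))
        rw [coeff_sub, hz, hz, sub_zero]
        exact dvd_zero _
    obtain ⟨v, hv⟩ := hd
    refine ⟨g /ₘ c - g' /ₘ c, v, ?_⟩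
    have e1 := modByMonic_add_div g c
    have e2 := modByMonic_add_div g' c
    linear_combination hv - e1 + e2
  have hlt : ∀ g g' : ℤ[X], g.degree < n → g'.degree < n → (g - g').degree < n :=
    fun g g' h1 h2 => (degree_sub_le g g').trans_lt (max_lt h1 h2)
  have hnat : ∀ g : ℤ[X], g.degree < n → g.natDegree < n := by
    intro g hg
    rcases eq_or_ne g 0 with rfl | h0
    · exact natDegree_zero (R := ℤ) ▸ hn
    · exact (natDegree_lt_iff_degree_lt h0).2 hg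
  obtain ⟨x, y, z, hx, hy, hz, e1, e2, hI, h1, h2⟩ := short_pair n T φ (fun _ => True) _ T₁
    (Cnt.fintype _) hT₁ (fun _ _ _ => trivial)
    (fun g g' hg hg' hne he => hsep _ (sub_ne_zero.2 hne) (hlt g g' hg hg') (hL g g' he))
    (by simpa using h)
  exact ⟨y - x, z - x, hnat _ (hlt y x hy hx), hnat _ (hlt z x hz hx), hI, h1, h2, hL y x e1,
    hL z x e2⟩

end Pool.Agent.VW
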