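import Pool.Agent.P.MP_b0ea37_nt.WC1
import Pool.Agent.P.MP_b0ea37_nt.WCsv

namespace Pool.Agent.VW

open Polynomial

theorem clf_cnt (n Y : ℕ) (c : ℤ[X]) (M H : ℝ) (hM : 1 ≤ M) (hH : 1 ≤ H) (hY : 1 ≤ Y)
    (hYH : (Y : ℝ) ≤ 2 * H) (hc : c.Monic) (hd : c.natDegree ≤ n) :
    Cnt (fun h : ℤ[X] => h.Monic ∧ h.natDegree = n ∧ h.supNorm ≤ M * H ∧ Lam Y c h)
      ((2 * M + 2) ^ n * H ^ n / (Y : ℝ) ^ c.natDegree) := by
  have hY' : (0 : ℝ) < Y := by exact_mod_cast hY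
  have hMH : 0 ≤ M * H := by positivity
  refine (cnt_lam n hY hc hd (M * H) hMH).mono (fun _ h => h) ?_
  have h1 : 2 * (M * H) + 1 ≤ (2 * M + 2) * H := by nlinarith
  have h2 : 2 * (M * H) / Y + 1 ≤ (2 * M + 2) * H / Y := by
    have : (1 : ℝ) ≤ 2 * H / Y := by rw [le_div_iff₀ hY']; linarith
    have e : (2 * M + 2) * H / Y = 2 * (M * H) / Y + 2 * H / Y := by ring
    rw [e]; linarith
  calc (2 * (M * H) + 1) ^ (n - c.natDegree) * (2 * (M * H) / Y + 1) ^ c.natDegree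
      ≤ ((2 * M + 2) * H) ^ (n - c.natDegree) * ((2 * M + 2) * H / Y) ^ c.natDegree := by
        gcongr
    _ = (2 * M + 2) ^ n * H ^ n / (Y : ℝ) ^ c.natDegree := by
        rw [div_pow, ← mul_div_assoc, ← pow_add, Nat.sub_add_cancel hd, mul_pow]

theorem clf_rpow (n : ℕ) (H a : ℝ) (hH : 1 ≤ H) :
    H ^ ((n : ℝ) - 1 + a) = H ^ a * H ^ n / H := by
  have h0 : 0 < H := by linarith
  rw [Real.rpow_add h0, Real.rpow_sub_one h0.ne', Real.rpow_natCast]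
  ring

/-- LF -/
theorem lf (n : ℕ) (hn : 5 ≤ n) (ε : ℝ) (hε : 0 < ε) : ∃ C₀ : ℝ, 1 ≤ C₀ ∧
    ∀ (H δ T : ℝ) (Y : ℕ) (c g₁ g₂ : ℤ[X]), 1 ≤ H → 0 ≤ δ → δ ≤ 1 → 1 ≤ Y → (Y : ℝ) ≤ 2 * H →
    c.Monic → c.natDegree ≤ n → 1 ≤ T → g₁.natDegree < n → g₂.natDegree < n → Indep g₁ g₂ →
    g₁.supNorm ≤ T → g₂.supNorm ≤ T → Lam Y c g₁ → Lam Y c g₂ →
    Cnt (fun f => Box n H f ∧ Bad n f ∧ Tiny δ H f ∧ Lam Y c f)
      (C₀ * H ^ ((n : ℝ) - 1 + δ + ε) * T / (Y : ℝ) ^ c.natDegree) := by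
  obtain ⟨K, hK⟩ := lf0 n hn
  obtain ⟨C₁, hC₁, h0⟩ := hK ε hε
  have hK0 : (0 : ℝ) ≤ K := Nat.cast_nonneg K
  have hM : (1 : ℝ) ≤ 1 + 2 * K := by linarith
  have hA : (1 : ℝ) ≤ (2 * (1 + 2 * K) + 2) ^ n := one_le_pow₀ (by linarith)
  refine ⟨C₁ * (2 * (1 + 2 * K) + 2) ^ n, one_le_mul_of_one_le_of_one_le hC₁ hA, ?_⟩
  intro H δ T Y c g₁ g₂ hH hδ hδ1 hY hYH hc hd hT h1 h2 hI s1 s2 l1 l2
  have hY' : (0 : ℝ) < Y := by exact_mod_cast hY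
  have hH0 : 0 < H := by linarith
  have hQ := clf_cnt n Y c (1 + 2 * K) H hM hH hY hYH hc hd
  rw [add_assoc ((n : ℝ) - 1), clf_rpow n H (δ + ε) hH]
  generalize (2 * (1 + 2 * (K : ℝ)) + 2) ^ n = A at hA hQ ⊢
  rcases le_or_gt T H with hTH | hTH
  · refine (h0 H δ T _ g₁ g₂ (fun f => Box n H f ∧ Bad n f ∧ Tiny δ H f ∧ Lam Y c f) _ hδ hδ1 hT
      hTH h1 h2 hI s1 s2 (fun f hf => ⟨hf.1, hf.2.1, hf.2.2.1⟩) ?_ hQ).mono (fun _ h => h)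
      (le_of_eq (by ring))
    intro f hf s t hs ht
    obtain ⟨hm, hdeg⟩ := monic_add_line hf.1.1 hf.1.2.1 h1 h2 s t
    refine ⟨hm, hdeg, ?_, (hf.2.2.2.add (l1.mul_left _)).add (l2.mul_left _)⟩
    exact (sup_add_line hf.1.2.2.2 s1 s2 hs ht).trans (le_of_eq (by ring))
  · refine hQ.mono (fun f hf => ⟨hf.1.1, hf.1.2.1, hf.1.2.2.2.trans ?_, hf.2.2.2⟩) ?_
    · nlinarith
    · have e1 : 1 ≤ H ^ (δ + ε) := Real.one_le_rpow hH (by linarith)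
      have e2 : 1 ≤ T / H := by rw [le_div_iff₀ hH0]; linarith
      have e3 : 1 ≤ C₁ * H ^ (δ + ε) * (T / H) :=
        one_le_mul_of_one_le_of_one_le (one_le_mul_of_one_le_of_one_le hC₁ e1) e2
      have e4 : 0 ≤ A * H ^ n / (Y : ℝ) ^ c.natDegree := by positivity
      calc A * H ^ n / (Y : ℝ) ^ c.natDegree
          ≤ (C₁ * H ^ (δ + ε) * (T / H)) * (A * H ^ n / (Y : ℝ) ^ c.natDegree) :=
            le_mul_of_one_le_left e4 e3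
        _ = _ := by ring

theorem clf_box (n d : ℕ) (hn : 5 ≤ n) (Y b T : ℝ) (hY : 1 ≤ Y) (hb : (d : ℝ) ≤ b * (n - 1))
    (hT : 3 * Y ^ b ≤ T) : Y ^ d * (1 + 2 * T / 1) < (T + 1) ^ n := by
  obtain ⟨m, rfl⟩ : ∃ m, n = m + 1 := ⟨n - 1, by omega⟩
  have hY0 : 0 < Y := by linarith
  have hYb : 0 < Y ^ b := Real.rpow_pos_of_pos hY0 b
  have hT0 : 0 < T := by linarith
  have h1 : Y ^ d ≤ (Y ^ b) ^ m := by
    rw [← Real.rpow_natCast, ← Real.rpow_natCast, ← Real.rpow_mul hY0.le]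
    refine Real.rpow_le_rpow_of_exponent_le hY ?_
    push_cast at hb
    linarith
  have h2 : (2 : ℝ) ≤ 3 ^ m := by
    calc (2 : ℝ) ≤ 3 ^ 1 := by norm_num
      _ ≤ 3 ^ m := pow_le_pow_right₀ (by norm_num) (by omega)
  have h3 : (3 * Y ^ b) ^ m ≤ (T + 1) ^ m := pow_le_pow_left₀ (by positivity) (by linarith) m
  have h4 : 2 * Y ^ d ≤ (T + 1) ^ m := by
    refine le_trans ?_ h3
    rw [mul_pow]
    exact mul_le_mul h2 h1 (by positivity) (by positivity)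
  have h5 : 0 < Y ^ d := by positivity
  rw [pow_succ, div_one]
  calc Y ^ d * (1 + 2 * T) < Y ^ d * (2 * (T + 1)) := by
        refine mul_lt_mul_of_pos_left (by linarith) h5
    _ = (2 * Y ^ d) * (T + 1) := by ring
    _ ≤ (T + 1) ^ m * (T + 1) := mul_le_mul_of_nonneg_right h4 (by linarith)

/-- all `q` for one modulus -/
theorem fam_cnt (n : ℕ) (hn : 5 ≤ n) (ε : ℝ) (hε : 0 < ε) : ∃ C₀ : ℝ, 1 ≤ C₀ ∧
    ∀ (H δ b : ℝ) (Y e k : ℕ), 1 ≤ H → 0 ≤ δ → δ ≤ 1 → 1 ≤ Y → (Y : ℝ) ≤ 2 * H → k * e ≤ n →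
    (k : ℝ) * e ≤ b * (n - 1) →
    Cnt (fun f => Box n H f ∧ Bad n f ∧ Tiny δ H f ∧ Pw Y e k f)
      (C₀ * H ^ ((n : ℝ) - 1 + δ + ε) * (Y : ℝ) ^ ((e : ℝ) - k * e + b)) := by
  obtain ⟨C₁, hC₁, h0⟩ := lf n hn ε hε
  refine ⟨4 * C₁, by linarith, ?_⟩
  intro H δ b Y e k hH hδ hδ1 hY hYH hke hb
  have hY1 : (1 : ℝ) ≤ Y := by exact_mod_cast hY
  have hY0 : (0 : ℝ) < Y := by linarith
  have hH0 : 0 < H := by linarith
  have hn' : (5 : ℝ) ≤ n := by exact_mod_cast hn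
  have hb0 : 0 ≤ b := by
    by_contra hneg
    have h1 : b * ((n : ℝ) - 1) < 0 := mul_neg_of_neg_of_pos (not_le.1 hneg) (by linarith)
    have h2 : (0 : ℝ) ≤ (k : ℝ) * e := by positivity
    linarith
  have hYb : 1 ≤ (Y : ℝ) ^ b := Real.one_le_rpow hY1 hb0
  obtain ⟨T, hT1, hT2⟩ : ∃ T : ℕ, 3 * (Y : ℝ) ^ b ≤ T ∧ (T : ℝ) ≤ 4 * (Y : ℝ) ^ b :=
    ⟨⌈3 * (Y : ℝ) ^ b⌉₊, Nat.le_ceil _, by
      have := Nat.ceil_lt_add_one (show (0 : ℝ) ≤ 3 * (Y : ℝ) ^ b by linarith)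
      linarith⟩
  have hW : 0 < H ^ ((n : ℝ) - 1 + δ + ε) := Real.rpow_pos_of_pos hH0 _
  have key : ∀ q : ℤ[X], Red Y e q →
      Cnt (fun f => Box n H f ∧ Bad n f ∧ Tiny δ H f ∧ Lam Y (q ^ k) f)
        (C₁ * H ^ ((n : ℝ) - 1 + δ + ε) * (4 * (Y : ℝ) ^ b) / (Y : ℝ) ^ (k * e)) := by
    intro q hq
    have hc : (q ^ k).Monic := hq.1.pow k
    have hd : (q ^ k).natDegree = k * e := by rw [hq.1.natDegree_pow, hq.2.1]
    obtain ⟨g₁, g₂, h1, h2, hI, s1, s2, l1, l2⟩ := lam_short n Y T (by omega) hY (q ^ k) hc 1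
      one_pos (fun g hg _ _ => one_le_sup hg)
      (clf_box n _ hn Y b T hY1 (by rw [hd]; push_cast; exact hb) hT1)
    refine (h0 H δ T Y (q ^ k) g₁ g₂ hH hδ hδ1 hY hYH hc (hd ▸ hke) (by linarith) h1 h2 hI s1 s2
      l1 l2).mono (fun _ h => h) ?_
    rw [hd]
    have hC0 : 0 ≤ C₁ := by linarith
    gcongr
  have hC0 : 0 < C₁ := by linarith
  refine (Cnt.fibre (cnt_red Y e) (by positivity) key).mono (fun f hf => ?_) (le_of_eq ?_)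
  · obtain ⟨q, hq, hl⟩ := hf.2.2.2.red hY
    exact ⟨q, hq, hf.1, hf.2.1, hf.2.2.1, hl⟩
  · rw [Real.rpow_add hY0 ((e : ℝ) - k * e), Real.rpow_sub hY0, Real.rpow_natCast,
      ← Nat.cast_mul, Real.rpow_natCast]
    ring

end Pool.Agent.VW
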