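import Pool.Agent.P.MP_b0ea37_nt.WCa
import Pool.Agent.P.MP_b0ea37_nt.WCb
import Pool.Agent.P.MP_b0ea37_nt.WCd

namespace Pool.Agent.VW

open Polynomial

theorem WCore_split (N : ℕ) (hN : N ≠ 0) (G : ℕ → Prop) : ∃ q Y y : ℕ, N = q * Y * y ^ 2 ∧
    (∀ p : ℕ, p.Prime → p ∣ q → ¬ G p) ∧ Squarefree Y ∧
    (∀ p : ℕ, p.Prime → p ∣ Y → G p ∧ Odd (N.factorization p)) ∧
    ∀ z : ℤ, (∀ p : ℕ, p.Prime → G p → (p : ℤ) ^ (N.factorization p / 2) ∣ z) → (y : ℤ) ∣ z := by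
  classical
  refine ⟨∏ p ∈ N.primeFactors.filter (fun p => ¬ G p), p ^ N.factorization p,
    ∏ p ∈ (N.primeFactors.filter G).filter (fun p => Odd (N.factorization p)), p,
    ∏ p ∈ N.primeFactors.filter G, p ^ (N.factorization p / 2), ?_, ?_, ?_, ?_, ?_⟩
  · have h1 : ∏ p ∈ N.primeFactors.filter G, p ^ N.factorization p =
        (∏ p ∈ (N.primeFactors.filter G).filter (fun p => Odd (N.factorization p)), p) *
          (∏ p ∈ N.primeFactors.filter G, p ^ (N.factorization p / 2)) ^ 2 := by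
      rw [Finset.prod_filter (fun p => Odd (N.factorization p)), ← Finset.prod_pow,
        ← Finset.prod_mul_distrib]
      refine Finset.prod_congr rfl fun p _ => ?_
      rw [← pow_mul]
      split_ifs with h
      · rw [← pow_succ']
        obtain ⟨k, hk⟩ := h
        congr 1
        omega
      · rw [one_mul]
        obtain ⟨k, hk⟩ := Nat.not_odd_iff_even.mp h
        congr 1
        omega
    rw [mul_assoc, ← h1, mul_comm, Finset.prod_filter_mul_prod_filter_not]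
    exact Nat.prod_primeFactors_pow_factorization hN
  · intro p hp hd
    obtain ⟨r, hr, hpr⟩ := (Prime.dvd_finsetProd_iff hp.prime _).mp hd
    obtain ⟨hr1, hr2⟩ := Finset.mem_filter.mp hr
    have := (Nat.prime_dvd_prime_iff_eq hp (Nat.prime_of_mem_primeFactors hr1)).mp
      (hp.dvd_of_dvd_pow hpr)
    rwa [this]
  · refine Finset.squarefree_prod_of_pairwise_isCoprime ?_ ?_
    · intro a ha b hb hab
      have ha' := Nat.prime_of_mem_primeFactors
        (Finset.mem_filter.mp (Finset.mem_filter.mp (Finset.mem_coe.mp ha)).1).1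
      have hb' := Nat.prime_of_mem_primeFactors
        (Finset.mem_filter.mp (Finset.mem_filter.mp (Finset.mem_coe.mp hb)).1).1
      exact Nat.coprime_iff_isRelPrime.mp ((Nat.coprime_primes ha' hb').mpr hab)
    · intro a ha
      exact (Nat.prime_of_mem_primeFactors
        (Finset.mem_filter.mp (Finset.mem_filter.mp ha).1).1).prime.squarefree
  · intro p hp hd
    obtain ⟨r, hr, hpr⟩ := (Prime.dvd_finsetProd_iff hp.prime _).mp hd
    obtain ⟨hr1, hr2⟩ := Finset.mem_filter.mp hr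
    obtain ⟨hr3, hr4⟩ := Finset.mem_filter.mp hr1
    have := (Nat.prime_dvd_prime_iff_eq hp (Nat.prime_of_mem_primeFactors hr3)).mp hpr
    rw [this]
    exact ⟨hr4, hr2⟩
  · intro z hz
    rw [Nat.cast_prod]
    refine Finset.prod_dvd_of_coprime ?_ ?_
    · intro a ha b hb hab
      have ha' := Nat.prime_of_mem_primeFactors (Finset.mem_filter.mp (Finset.mem_coe.mp ha)).1
      have hb' := Nat.prime_of_mem_primeFactors (Finset.mem_filter.mp (Finset.mem_coe.mp hb)).1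
      exact Nat.isCoprime_iff_coprime.mpr
        (Nat.Coprime.pow _ _ ((Nat.coprime_primes ha' hb').mpr hab))
    · intro a ha
      obtain ⟨h1, h2⟩ := Finset.mem_filter.mp ha
      rw [Nat.cast_pow]
      exact hz a (Nat.prime_of_mem_primeFactors h1) h2

theorem WCore_tiny {δ δ' H : ℝ} (hH : 1 ≤ H) (h : δ ≤ δ') {f : ℤ[X]} (hf : Tiny δ H f) :
    Tiny δ' H f := by
  obtain ⟨m, h1, h2, h3⟩ := hf
  exact ⟨m, h1, h2.trans (Real.rpow_le_rpow_of_exponent_le hH h), h3⟩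

theorem WCore_core {n : ℕ} (hn : 5 ≤ n) {η H : ℝ} (hη : 0 < η) (hH : 1 ≤ H) {f : ℤ[X]}
    (hf : Bad n f) (h1 : H ^ (2 * (n : ℝ) - 2 - η / 2) ≤ |((Dv n f : ℤ) : ℝ)|)
    (h2 : ∀ q : ℕ, (q : ℤ) ∣ Dv n f → (∀ p : ℕ, p.Prime → p ∣ q → p ≤ n ∨ Weak p f) →
      (q : ℝ) ≤ H ^ (η / 2))
    (h3 : ∀ Y : ℕ, Squarefree Y → (∀ p : ℕ, p.Prime → p ∣ Y →
      n < p ∧ ¬ Weak p f ∧ Odd (padicValInt p (Dv n f))) → (Y : ℝ) ≤ H ^ (η / 2)) :
    Core n η H f := by
  have hH0 : 0 < H := by linarith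
  have hD : Dv n f ≠ 0 := Irr.Dv_ne_zero hf.1 hf.2.1 hf.2.2.1
  obtain ⟨q, Y, y, hN, hq, hY, hY', hy⟩ :=
    WCore_split (Dv n f).natAbs (Int.natAbs_ne_zero.mpr hD) fun p => n < p ∧ ¬ Weak p f
  have hv : ∀ p : ℕ, p.Prime → (Dv n f).natAbs.factorization p = padicValInt p (Dv n f) :=
    fun p hp => Nat.factorization_def _ hp
  have hq' : (q : ℝ) ≤ H ^ (η / 2) := by
    refine h2 q ?_ fun p hp hd => ?_
    · rw [Int.natCast_dvd, hN, mul_assoc]
      exact Dvd.intro _ rfl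
    · have := hq p hp hd
      by_contra hc
      push Not at hc
      exact this hc
  have hY2 : (Y : ℝ) ≤ H ^ (η / 2) := by
    refine h3 Y hY fun p hp hd => ?_
    obtain ⟨⟨a, b⟩, c⟩ := hY' p hp hd
    exact ⟨a, b, hv p hp ▸ c⟩
  have hqY : (q : ℝ) * Y ≤ H ^ η := by
    calc (q : ℝ) * Y ≤ H ^ (η / 2) * H ^ (η / 2) :=
          mul_le_mul hq' hY2 (Nat.cast_nonneg _) (by positivity)
      _ = H ^ η := by rw [← Real.rpow_add hH0, add_halves]
  have habs : |((Dv n f : ℤ) : ℝ)| = q * Y * (y : ℝ) ^ 2 := by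
    rw [← Int.cast_abs, Int.abs_eq_natAbs, hN]
    push_cast
    ring
  refine ⟨(Dv n f).sign * (q * Y), y, ?_, ?_, ?_, fun k => hy _ fun p hp hG => ?_⟩
  · have e : ((Dv n f).natAbs : ℤ) = q * Y * (y : ℤ) ^ 2 := by
      rw [hN]
      push_cast
      ring
    rw [mul_assoc, ← e, Int.sign_mul_natAbs]
  · have e : |(((Dv n f).sign : ℤ) : ℝ)| = 1 := by
      rw [← Int.cast_abs, Int.abs_sign_of_ne_zero hD, Int.cast_one]
    push_cast
    rw [abs_mul, e, one_mul, abs_of_nonneg (by positivity)]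
    exact hqY
  · rw [Int.cast_natCast, Nat.abs_cast]
    refine (pow_le_pow_iff_left₀ (by positivity) (Nat.cast_nonneg _) two_ne_zero).mp ?_
    have e : (H ^ ((n : ℝ) - 1 - η)) ^ 2 * H ^ η = H ^ (2 * (n : ℝ) - 2 - η) := by
      rw [sq, ← Real.rpow_add hH0, ← Real.rpow_add hH0]
      congr 1
      ring
    refine le_of_mul_le_mul_right ?_ (Real.rpow_pos_of_pos hH0 η)
    calc (H ^ ((n : ℝ) - 1 - η)) ^ 2 * H ^ η = H ^ (2 * (n : ℝ) - 2 - η) := e
      _ ≤ H ^ (2 * (n : ℝ) - 2 - η / 2) := Real.rpow_le_rpow_of_exponent_le hH (by linarith)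
      _ ≤ q * Y * (y : ℝ) ^ 2 := habs ▸ h1
      _ ≤ H ^ η * (y : ℝ) ^ 2 := mul_le_mul_of_nonneg_right hqY (by positivity)
      _ = (y : ℝ) ^ 2 * H ^ η := mul_comm _ _
  · rw [hv p hp]
    exact loc_dvd hn hf hp hG.1 hG.2 k

theorem ps_not_core (n : ℕ) (hn : 5 ≤ n) (η : ℝ) (hη : 0 < η) : ∃ δ : ℝ, 0 < δ ∧
    PS n fun H f => Bad n f ∧ Tiny δ H f ∧ ¬ Core n η H f := by
  obtain ⟨a, ha, hA⟩ := ps_smallD n hn (η / 2) (by positivity)
  obtain ⟨b, hb, hB⟩ := ps_weakpart n hn (η / 2) (by positivity)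
  obtain ⟨c, hc, hC⟩ := ps_odd n hn (η / 2) (by positivity)
  refine ⟨min a (min b c), by positivity, (hA.or (hB.or hC)).mono 1 ?_⟩
  rintro H hH f - ⟨hf, hT, hcore⟩
  by_contra hcon
  refine hcore (WCore_core hn hη hH hf ?_ ?_ ?_)
  · by_contra h
    exact hcon (Or.inl ⟨hf, WCore_tiny hH (min_le_left _ _) hT, not_le.mp h⟩)
  · intro q h1 h2
    by_contra h
    exact hcon (Or.inr (Or.inl ⟨hf, WCore_tiny hH
      ((min_le_right _ _).trans (min_le_left _ _)) hT, q, h1, not_le.mp h, h2⟩))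
  · intro Y h1 h2
    by_contra h
    exact hcon (Or.inr (Or.inr ⟨hf, WCore_tiny hH
      ((min_le_right _ _).trans (min_le_right _ _)) hT, Y, h1, not_le.mp h, h2⟩))

end Pool.Agent.VW
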