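import Mathlib

namespace Pool.Agent.VW

open Polynomial

/-- every finite set of objects with property `P` has at most `B` elements -/
def Cnt {α : Type} (P : α → Prop) (B : ℝ) : Prop :=
  ∀ S : Finset α, (∀ x ∈ S, P x) → (S.card : ℝ) ≤ B

/-- monic of degree `n` and of dyadic height `H` -/
def Box (n : ℕ) (H : ℝ) (f : ℤ[X]) : Prop :=
  f.Monic ∧ f.natDegree = n ∧ H / 2 < f.supNorm ∧ f.supNorm ≤ H

/-- power saving against `H ^ (n - 1)` in the dyadic box -/
def PS (n : ℕ) (P : ℝ → ℤ[X] → Prop) : Prop :=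
  ∃ c : ℝ, 0 < c ∧ ∃ C H₀ : ℝ, ∀ H : ℝ, H₀ ≤ H →
    Cnt (fun f => Box n H f ∧ P H f) (C * H ^ ((n : ℝ) - 1 - c))

/-- an integer polynomial seen over a commutative ring -/
noncomputable abbrev up (R : Type) [CommRing R] (f : ℤ[X]) : R[X] := f.map (Int.castRingHom R)

/-- irreducible over the rationals -/
def Irr (f : ℤ[X]) : Prop := Irreducible (up ℚ f)

/-- the symmetric function of the roots behind `Phi` -/
noncomputable def phiS (n k : ℕ) : MvPolynomial (Fin n) ℤ :=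
  ∑ i : Fin n, MvPolynomial.X i ^ k * ∏ j ∈ Finset.univ.erase i,
    ∏ l ∈ (Finset.univ.erase i).erase j, (MvPolynomial.X j - MvPolynomial.X l)

/-- `phiS` written in the coefficients of the monic polynomial -/
noncomputable def phiP (n k : ℕ) : MvPolynomial (Fin n) ℤ :=
  Classical.epsilon fun P => MvPolynomial.eval₂ (Int.castRingHom (MvPolynomial (Fin n) ℤ))
    (fun i : Fin n => (∏ j : Fin n, (X - C (MvPolynomial.X j)) :
      (MvPolynomial (Fin n) ℤ)[X]).coeff i) P = phiS n k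

noncomputable def Phi (n k : ℕ) {R : Type} [CommRing R] (f : R[X]) : R :=
  MvPolynomial.eval₂ (Int.castRingHom R) (fun i : Fin n => f.coeff i) (phiP n k)

/-- the product of all differences of roots over ordered pairs -/
noncomputable def Dv (n : ℕ) {R : Type} [CommRing R] (f : R[X]) : R :=
  resultant f (derivative f) n (n - 1)

/-- the square of the ideal `(M, x - r)` for squarefree `M` -/
def Wk (M : ℕ) (r : ℤ) (g : ℤ[X]) : Prop :=
  (M : ℤ) ^ 2 ∣ g.eval r ∧ (M : ℤ) ∣ (derivative g).eval r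

def Weak (p : ℕ) (f : ℤ[X]) : Prop := ∃ r : ℤ, Wk p r f

/-- every weak prime divides `m` -/
def WkIn (m : ℕ) (f : ℤ[X]) : Prop := ∀ p : ℕ, p.Prime → Weak p f → p ∣ m

/-- no intermediate field: a nonconstant reduced polynomial separates the roots -/
def Prim (f : ℤ[X]) : Prop :=
  ∀ q : ℚ[X], 0 < q.natDegree → q.natDegree < f.natDegree → ∀ z w : ℂ,
    aeval z f = 0 → aeval w f = 0 → aeval z q = aeval w q → z = w

def Bad (n : ℕ) (f : ℤ[X]) : Prop :=
  f.Monic ∧ f.natDegree = n ∧ Irr f ∧ Prim f ∧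
    ∀ p : ℕ, p.Prime → (p : ℤ) ∣ Dv n f → ¬ (p : ℤ) ∣ Phi n 0 f →
      Weak p f ∧ Even (padicValInt p (Dv n f))

def Indep (g₁ g₂ : ℤ[X]) : Prop :=
  ∀ a b : ℤ, C a * g₁ + C b * g₂ = 0 → a = 0 ∧ b = 0

/-- the line through `f` in direction `g` has a member with exactly one double root -/
def Good (n : ℕ) (f g : ℤ[X]) : Prop :=
  ∃ τ : ℂ, Dv n (up ℂ f + C τ * up ℂ g) = 0 ∧ Phi n 0 (up ℂ f + C τ * up ℂ g) ≠ 0

/-- `θ` lists the roots of `f` in `K` -/
def Roots {K : Type} [CommRing K] {n : ℕ} (f : K[X]) (θ : Fin n → K) : Prop :=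
  f = ∏ i, (X - C (θ i))

/-- upper end of the lattice range -/
noncomputable def muL (n : ℕ) : ℝ := n * (n - 2) / (2 * (n - 1)) - 1 / 1000

/-- width of the field counting range -/
noncomputable def cF (n : ℕ) : ℝ := if n = 5 then 1 / 2 else 26 / 25

/-- all weak primes divide a number of size at most `H ^ δ` -/
def Tiny (δ H : ℝ) (f : ℤ[X]) : Prop := ∃ m : ℕ, 1 ≤ m ∧ (m : ℝ) ≤ H ^ δ ∧ WkIn m f

end Pool.Agent.VW
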