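import Pool.Agent.P.MP_b0ea37_nt.WEsim
import Pool.Agent.P.MP_b0ea37_nt.WRes

namespace Pool.Agent.VW

open Polynomial

/-- the discriminant as a polynomial in the coefficients -/
theorem exists_Dv_univ (n : ℕ) : ∃ P : MvPolynomial (Fin n) ℤ, ∀ (R : Type) [CommRing R]
    (F : R[X]), F.Monic → F.natDegree = n →
    Dv n F = MvPolynomial.eval₂ (Int.castRingHom R) (fun i : Fin n => F.coeff i) P := by
  refine ⟨Dv n (X ^ n + ∑ i : Fin n, C (MvPolynomial.X i) * X ^ (i : ℕ)), fun R _ F hm hn => ?_⟩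
  have h := Dv_map (MvPolynomial.eval₂Hom (Int.castRingHom R) fun i : Fin n => F.coeff i) n
    (X ^ n + ∑ i : Fin n, C (MvPolynomial.X i) * X ^ (i : ℕ))
  rw [MvPolynomial.coe_eval₂Hom] at h
  rw [← h]
  congr 1
  rw [Polynomial.map_add, Polynomial.map_pow, map_X, Polynomial.map_sum]
  simp only [Polynomial.map_mul, Polynomial.map_pow, map_X, map_C, MvPolynomial.eval₂Hom_X']
  rw [Fin.sum_univ_eq_sum_range (fun i => C (F.coeff i) * X ^ i) n, ← hn]
  exact hm.as_sum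

/-- degree and height of a fixed polynomial evaluated at linear polynomials -/
theorem sup_eval₂_le {σ : Type} (P : MvPolynomial σ ℤ) : ∃ (N : ℕ) (C₀ : ℝ), 1 ≤ C₀ ∧
    ∀ (Z : ℝ) (v : σ → ℤ[X]), 1 ≤ Z → (∀ i, (v i).natDegree ≤ 1 ∧ (v i).supNorm ≤ Z) →
    (MvPolynomial.eval₂ (Int.castRingHom ℤ[X]) v P).natDegree ≤ N ∧
      (MvPolynomial.eval₂ (Int.castRingHom ℤ[X]) v P).supNorm ≤ C₀ * Z ^ N := by
  induction P using MvPolynomial.induction_on with
  | C a =>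
    refine ⟨0, max 1 ‖a‖, le_max_left _ _, fun Z v _ _ => ?_⟩
    have e : MvPolynomial.eval₂ (Int.castRingHom ℤ[X]) v (MvPolynomial.C a) = C a := by
      rw [MvPolynomial.eval₂_C]; simp
    rw [e, natDegree_C, supNorm_C, pow_zero, mul_one]
    exact ⟨le_rfl, le_max_right _ _⟩
  | add p q hp hq =>
    obtain ⟨N, C₁, h1, hp⟩ := hp
    obtain ⟨M, C₂, h2, hq⟩ := hq
    refine ⟨N + M, C₁ + C₂, by linarith, fun Z v hZ hv => ?_⟩
    obtain ⟨a1, a2⟩ := hp Z v hZ hv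
    obtain ⟨b1, b2⟩ := hq Z v hZ hv
    rw [MvPolynomial.eval₂_add]
    refine ⟨(natDegree_add_le _ _).trans (max_le (by omega) (by omega)), ?_⟩
    have e1 : Z ^ N ≤ Z ^ (N + M) := pow_le_pow_right₀ hZ (by omega)
    have e2 : Z ^ M ≤ Z ^ (N + M) := pow_le_pow_right₀ hZ (by omega)
    have e3 : C₁ * Z ^ N ≤ C₁ * Z ^ (N + M) := mul_le_mul_of_nonneg_left e1 (by linarith)
    have e4 : C₂ * Z ^ M ≤ C₂ * Z ^ (N + M) := mul_le_mul_of_nonneg_left e2 (by linarith)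
    have := sup_add_le (MvPolynomial.eval₂ (Int.castRingHom ℤ[X]) v p)
      (MvPolynomial.eval₂ (Int.castRingHom ℤ[X]) v q)
    linarith
  | mul_X p i hp =>
    obtain ⟨N, C₁, h1, hp⟩ := hp
    have hN : (0 : ℝ) ≤ N := Nat.cast_nonneg N
    refine ⟨N + 1, (N + 1) * C₁, by nlinarith, fun Z v hZ hv => ?_⟩
    obtain ⟨a1, a2⟩ := hp Z v hZ hv
    rw [MvPolynomial.eval₂_mul, MvPolynomial.eval₂_X]
    refine ⟨natDegree_mul_le.trans (add_le_add a1 (hv i).1), (sup_mul_le _ _ a1).trans ?_⟩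
    have := mul_le_mul a2 (hv i).2 (supNorm_nonneg _) (by positivity)
    calc _ ≤ ((N : ℝ) + 1) * (C₁ * Z ^ N * Z) := mul_le_mul_of_nonneg_left this (by positivity)
      _ = _ := by ring

theorem edat_irr (φ : ℤ[X] →+* ℂ) (D : ℤ[X]) :
    D ≠ 0 → φ D = 0 → ∃ B : ℤ[X], Irreducible B ∧ B ∣ D ∧ φ B = 0 := by
  induction D using WfDvdMonoid.induction_on_irreducible with
  | zero => exact fun h => absurd rfl h
  | unit u hu => exact fun _ h => absurd h (hu.map φ).ne_zero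
  | mul a i ha hi ih =>
    intro _ h
    rw [map_mul] at h
    rcases mul_eq_zero.1 h with h | h
    · exact ⟨i, hi, dvd_mul_right _ _, h⟩
    · obtain ⟨B, h1, h2, h3⟩ := ih ha h
      exact ⟨B, h1, h2.mul_left _, h3⟩

theorem edat_map {S : Type} [CommRing S] (φ : ℤ[X] →+* S) (f g : ℤ[X]) :
    (f.map C + C X * g.map C : ℤ[X][X]).map φ = up S f + C (φ X) * up S g := by
  have e : φ.comp C = Int.castRingHom S := RingHom.ext_int _ _
  rw [Polynomial.map_add, Polynomial.map_mul, map_C, Polynomial.map_map, Polynomial.map_map, e]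

theorem edat_coeff (f g : ℤ[X]) (Z : ℝ) (hf : f.supNorm ≤ Z) (hg : g.supNorm ≤ Z) (i : ℕ) :
    ((f.map C + C X * g.map C : ℤ[X][X]).coeff i).natDegree ≤ 1 ∧
      ((f.map C + C X * g.map C : ℤ[X][X]).coeff i).supNorm ≤ Z := by
  have e : (f.map C + C X * g.map C : ℤ[X][X]).coeff i = C (g.coeff i) * X + C (f.coeff i) := by
    rw [coeff_add, coeff_C_mul, coeff_map, coeff_map]; ring
  rw [e]
  refine ⟨natDegree_linear_le, sup_le_iff.2 fun j => ?_⟩
  have hZ : 0 ≤ Z := (supNorm_nonneg _).trans hf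
  rcases j with _ | _ | j
  · simpa using (f.le_supNorm i).trans hf
  · rw [coeff_add, coeff_mul_X, coeff_C_zero, coeff_C_succ, add_zero]
    exact (g.le_supNorm i).trans hg
  · rw [coeff_add, coeff_mul_X, coeff_C_succ, coeff_C_succ, add_zero, norm_zero]
    exact hZ

theorem edat_monic {n : ℕ} {f g : ℤ[X]} (hm : f.Monic) (hf : f.natDegree = n)
    (hg : g.natDegree < n) : (f.map C + C X * g.map C : ℤ[X][X]).Monic ∧
      (f.map C + C X * g.map C : ℤ[X][X]).natDegree = n := by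
  have h1 : (f.map C : ℤ[X][X]).natDegree = n := by rw [hm.natDegree_map, hf]
  have h2 : (C X * g.map C : ℤ[X][X]).natDegree < (f.map C : ℤ[X][X]).natDegree := by
    rw [h1]
    exact ((natDegree_C_mul_le _ _).trans natDegree_map_le).trans_lt hg
  exact ⟨(hm.map C).add_of_left (degree_lt_degree h2),
    by rw [natDegree_add_eq_left_of_natDegree_lt h2, h1]⟩

theorem edat_res (B G : ℤ[X]) (M : ℕ) (T : ℝ) (hT : 1 ≤ T) (hB : B.natDegree ≤ M)
    (hG : G.natDegree ≤ M) (sB : B.supNorm ≤ T) (sG : G.supNorm ≤ T) :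
    (((resultant B G).natAbs : ℕ) : ℝ) ≤ (2 * M).factorial * T ^ (2 * M + 1) := by
  have h := norm_resultant_le B G B.natDegree G.natDegree
  have e : (((resultant B G).natAbs : ℕ) : ℝ) = ‖resultant B G B.natDegree G.natDegree‖ := by
    rw [Int.norm_eq_abs, Nat.cast_natAbs, Int.cast_abs]
  rw [e]
  refine h.trans ?_
  have h1 : (((B.natDegree + G.natDegree).factorial : ℕ) : ℝ) ≤ (2 * M).factorial :=
    Nat.cast_le.2 (Nat.factorial_le (by omega))
  have h2 : B.supNorm ^ G.natDegree ≤ T ^ M :=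
    (pow_le_pow_left₀ (supNorm_nonneg _) sB _).trans (pow_le_pow_right₀ hT hG)
  have h3 : G.supNorm ^ B.natDegree ≤ T ^ (M + 1) :=
    (pow_le_pow_left₀ (supNorm_nonneg _) sG _).trans (pow_le_pow_right₀ hT (by omega))
  have h4 : 0 ≤ B.supNorm := supNorm_nonneg _
  have h5 : 0 ≤ G.supNorm := supNorm_nonneg _
  calc _ ≤ ((2 * M).factorial : ℝ) * T ^ M * T ^ (M + 1) := by gcongr
    _ = _ := by ring

/-- the factor of the discriminant along a good line -/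
theorem line_data (n : ℕ) (hn : 5 ≤ n) : ∃ (E A : ℕ) (C₀ : ℝ), 1 ≤ C₀ ∧
    ∀ (Z : ℝ) (f g : ℤ[X]), 1 ≤ Z → f.Monic → f.natDegree = n → Irr f → g.natDegree < n →
    f.supNorm ≤ Z → g.supNorm ≤ Z → Good n f g →
    ∃ (B : ℤ[X]) (N : ℕ), Irr B ∧ B.natDegree ≤ E ∧ B.supNorm ≤ C₀ * Z ^ A ∧ N ≠ 0 ∧
      (N : ℝ) ≤ C₀ * Z ^ A ∧ ∀ t : ℤ, Bad n (f + C t * g) → B.eval t ≠ 0 ∧
        ∀ p : ℕ, p.Prime → (p : ℤ) ∣ B.eval t → ¬ p ∣ N →
          Weak p (f + C t * g) ∧ Even (padicValInt p (B.eval t)) := by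
  obtain ⟨P, hP⟩ := exists_Dv_univ n
  obtain ⟨N₁, C₁, h1, hD⟩ := sup_eval₂_le P
  obtain ⟨N₂, C₂, h2, hPh⟩ := sup_eval₂_le (phiP n 0)
  obtain ⟨M, hM⟩ : ∃ M, M = N₁ + N₂ := ⟨_, rfl⟩
  obtain ⟨S, hS⟩ : ∃ S : ℝ, S = (N₁ + 1) * (4 ^ N₁ * C₁ * C₂) := ⟨_, rfl⟩
  have hN : (1 : ℝ) ≤ N₁ + 1 := le_add_of_nonneg_left (Nat.cast_nonneg N₁)
  have h4 : (1 : ℝ) ≤ 4 ^ N₁ := one_le_pow₀ (by norm_num)
  have hS1 : 1 ≤ S := by
    rw [hS]
    exact one_le_mul_of_one_le_of_one_le hN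
      (one_le_mul_of_one_le_of_one_le (one_le_mul_of_one_le_of_one_le h4 h1) h2)
  have hF1 : (1 : ℝ) ≤ (2 * M).factorial := by exact_mod_cast Nat.factorial_pos (2 * M)
  refine ⟨M, M * (2 * M + 1), (2 * M).factorial * S ^ (2 * M + 1),
    one_le_mul_of_one_le_of_one_le hF1 (one_le_pow₀ hS1), ?_⟩
  intro Z f g hZ hm hf hi hg sf sg hgood
  obtain ⟨τ, hτ, hΦ⟩ := good_simple hn hm hf hi hg hgood
  obtain ⟨F, hF⟩ : ∃ F : ℤ[X][X], F = f.map C + C X * g.map C := ⟨_, rfl⟩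
  have hc : ∀ i : Fin n, (F.coeff i).natDegree ≤ 1 ∧ (F.coeff i).supNorm ≤ Z := fun i =>
    hF ▸ edat_coeff f g Z sf sg i
  have hFm : F.Monic ∧ F.natDegree = n := hF ▸ edat_monic hm hf hg
  have hD' := hD Z _ hZ hc
  rw [← hP _ F hFm.1 hFm.2] at hD'
  have hP' : (Phi n 0 F).natDegree ≤ N₂ ∧ (Phi n 0 F).supNorm ≤ C₂ * Z ^ N₂ := hPh Z _ hZ hc
  -- the values along the line
  have hline : ∀ t : ℤ, F.map (evalRingHom t) = f + C t * g := fun t => by
    have e : Int.castRingHom ℤ = RingHom.id ℤ := RingHom.ext_int _ _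
    rw [hF, edat_map, coe_evalRingHom, eval_X, up, up, e, Polynomial.map_id, Polynomial.map_id]
  have hDt : ∀ t : ℤ, (Dv n F).eval t = Dv n (f + C t * g) := fun t => by
    rw [← hline, Dv_map, coe_evalRingHom]
  have hPt : ∀ t : ℤ, (Phi n 0 F).eval t = Phi n 0 (f + C t * g) := fun t => by
    rw [← hline, Phi_map, coe_evalRingHom]
  have hup : up ℂ (Dv n F) = Dv n ((up ℂ f).map C + C X * (up ℂ g).map C) := by
    have e : (C : ℂ →+* ℂ[X]).comp (Int.castRingHom ℂ) = Int.castRingHom ℂ[X] :=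
      RingHom.ext_int _ _
    have := Dv_map (mapRingHom (Int.castRingHom ℂ)) n F
    rw [coe_mapRingHom] at this
    rw [up, ← this, hF, edat_map, coe_mapRingHom, map_X, up, up, up, up, Polynomial.map_map,
      Polynomial.map_map, e]
  rw [← hup] at hτ
  obtain ⟨φ, hφ⟩ : ∃ φ : ℤ[X] →+* ℂ, ∀ q : ℤ[X], φ q = (up ℂ q).eval τ :=
    ⟨eval₂RingHom (Int.castRingHom ℂ) τ, fun q => by rw [coe_eval₂RingHom, eval_map]⟩
  have hφP : φ (Phi n 0 F) ≠ 0 := by
    have e : φ X = τ := by rw [hφ, up, map_X, eval_X]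
    rw [← Phi_map, hF, edat_map, e]
    exact hΦ
  have hpos := rootMultiplicity_pos'.1 (hτ ▸ Nat.one_pos : 0 < rootMultiplicity τ (up ℂ (Dv n F)))
  have hD0 : Dv n F ≠ 0 := fun h => hpos.1 (by rw [h, up, Polynomial.map_zero])
  obtain ⟨B, hBi, ⟨E₀, hE⟩, hB0⟩ := edat_irr φ (Dv n F) hD0 (by rw [hφ]; exact hpos.2)
  have hBd : B.natDegree ≠ 0 := by
    intro h
    rw [eq_C_of_natDegree_eq_zero h, hφ, up, map_C, eval_C, eq_intCast, Int.cast_eq_zero] at hB0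
    exact hBi.ne_zero (by rw [eq_C_of_natDegree_eq_zero h, hB0, C_0])
  have hIrr : Irr B :=
    (IsPrimitive.Int.irreducible_iff_irreducible_map_cast (hBi.isPrimitive hBd)).1 hBi
  have hφE : φ E₀ ≠ 0 := by
    intro h
    rw [hφ] at h hB0
    have h3 : (X - C τ) ^ 2 ∣ up ℂ (Dv n F) := by
      rw [hE, up, Polynomial.map_mul, sq]
      exact mul_dvd_mul (dvd_iff_isRoot.2 hB0) (dvd_iff_isRoot.2 h)
    have := (le_rootMultiplicity_iff hpos.1).2 h3
    omega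
  have hcop : IsCoprime (up ℚ B) (up ℚ (E₀ * Phi n 0 F)) := by
    refine (Irreducible.coprime_iff_not_dvd hIrr).2 fun hd => mul_ne_zero hφE hφP ?_
    have e : (algebraMap ℚ ℂ).comp (Int.castRingHom ℚ) = Int.castRingHom ℂ := RingHom.ext_int _ _
    have h3 := eval_dvd (x := τ) (Polynomial.map_dvd (algebraMap ℚ ℂ) hd)
    rw [up, up, Polynomial.map_map, Polynomial.map_map, e] at h3
    rw [← map_mul, hφ]
    rw [hφ] at hB0
    exact zero_dvd_iff.1 (hB0 ▸ h3)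
  have hZ1 : 1 ≤ Z ^ N₁ := one_le_pow₀ hZ
  have hZ2 : 1 ≤ Z ^ N₂ := one_le_pow₀ hZ
  have hdiv : ∀ q : ℤ[X], q ∣ Dv n F → q.natDegree ≤ N₁ ∧ q.supNorm ≤ 4 ^ N₁ * (C₁ * Z ^ N₁) :=
    fun q hq => ⟨(natDegree_le_of_dvd hq hD0).trans hD'.1,
      (sup_le_of_dvd hD0 hq hD'.1).trans (mul_le_mul_of_nonneg_left hD'.2 (by positivity))⟩
  have hB := hdiv B ⟨E₀, hE⟩
  have hE₀ := hdiv E₀ ⟨B, by rw [hE, mul_comm]⟩
  have hT : S * Z ^ M = (N₁ + 1) * (4 ^ N₁ * (C₁ * Z ^ N₁) * (C₂ * Z ^ N₂)) := by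
    rw [hS, hM]; ring
  have hT1 : 1 ≤ S * Z ^ M := one_le_mul_of_one_le_of_one_le hS1 (one_le_pow₀ hZ)
  have sB : B.supNorm ≤ S * Z ^ M := by
    rw [hT]
    refine hB.2.trans ((le_mul_of_one_le_right (by positivity)
      (one_le_mul_of_one_le_of_one_le h2 hZ2)).trans (le_mul_of_one_le_left (by positivity) hN))
  have sG : (E₀ * Phi n 0 F).supNorm ≤ S * Z ^ M := by
    rw [hT]
    exact (sup_mul_le _ _ hE₀.1).trans (mul_le_mul_of_nonneg_left
      (mul_le_mul hE₀.2 hP'.2 (supNorm_nonneg _) (by positivity)) (by positivity))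
  have hfin : ((2 * M).factorial : ℝ) * (S * Z ^ M) ^ (2 * M + 1) =
      (2 * M).factorial * S ^ (2 * M + 1) * Z ^ (M * (2 * M + 1)) := by
    rw [mul_pow, ← pow_mul, mul_assoc]
  refine ⟨B, (resultant B (E₀ * Phi n 0 F)).natAbs, hIrr, by omega, ?_,
    Int.natAbs_ne_zero.2 (resultant_ne_zero_of_coprime hcop), ?_, fun t ht => ?_⟩
  · rw [← hfin]
    exact sB.trans ((le_self_pow₀ hT1 (by omega)).trans
      (le_mul_of_one_le_left (by positivity) hF1))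
  · rw [← hfin]
    exact edat_res _ _ M _ hT1 (by omega)
      (natDegree_mul_le.trans (by have := hE₀.1; have := hP'.1; omega)) sB sG
  · have hv : Dv n (f + C t * g) = B.eval t * E₀.eval t := by rw [← hDt, hE, eval_mul]
    have hne := Irr.Dv_ne_zero ht.1 ht.2.1 ht.2.2.1
    rw [hv] at hne
    refine ⟨left_ne_zero_of_mul hne, fun p hp hpB hpN => ?_⟩
    have hG : ¬ (p : ℤ) ∣ (E₀ * Phi n 0 F).eval t := fun h => hpN (Int.natCast_dvd.1
      (res_one_one hp.one_le le_rfl le_rfl (by omega) hpB h))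
    rw [eval_mul, hPt] at hG
    obtain ⟨hw, hev⟩ := ht.2.2.2.2 p hp (hv ▸ hpB.mul_right _) fun h => hG (h.mul_left _)
    have := Fact.mk hp
    rw [hv, padicValInt.mul (left_ne_zero_of_mul hne) (right_ne_zero_of_mul hne),
      padicValInt.eq_zero_of_not_dvd (fun h => hG (h.mul_right _)), add_zero] at hev
    exact ⟨hw, hev⟩

end Pool.Agent.VW
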