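import Pool.Agent.P.MP_b0ea37_nt.WSym

namespace Pool.Agent.VW

open Polynomial

theorem wesim_prod {R : Type} [CommRing R] [Nontrivial R] {m : ℕ} (hm : 1 ≤ m) (ρ e : R)
    (B : R[X]) (hd : B.natDegree = m) :
    Dv (m + 2) (((X - C ρ) ^ 2 + C e) * B) =
      4 * e * resultant ((X - C ρ) ^ 2 + C e) B 2 m *
        resultant B (derivative (((X - C ρ) ^ 2 + C e) * B)) m (m + 1) := by
  set A : R[X] := (X - C ρ) ^ 2 + C e with hA
  have hA2 : A.natDegree = 2 := by
    rw [hA, natDegree_add_C, (monic_X_sub_C ρ).natDegree_pow, natDegree_X_sub_C]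
  have hAB : (A * B).natDegree ≤ m + 2 := by
    refine natDegree_mul_le.trans ?_
    rw [hA2, hd]; omega
  have hH : (derivative (A * B)).natDegree ≤ m + 1 := by
    have := natDegree_derivative_le (A * B)
    omega
  have h1 := resultant_mul_left A B (derivative (A * B)) (m + 1) hH
  rw [hA2, hd, add_comm 2 m] at h1
  have hB' : (derivative B).natDegree + 2 ≤ m + 1 := by
    have := natDegree_derivative_le B
    omega
  have hder : derivative (A * B) = C 2 * ((X - C ρ) * B) + A * derivative B := by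
    rw [derivative_mul, hA]
    simp only [derivative_add, derivative_C, derivative_X_sub_C_sq, add_zero]
    rw [mul_assoc]
  have h2 : resultant A (derivative (A * B)) 2 (m + 1) = 4 * e * resultant A B 2 m := by
    rw [hder, resultant_add_mul_right _ _ _ _ _ hB' hA2.le, resultant_C_mul_right]
    have h3 := resultant_mul_right A (X - C ρ) B 2 hA2.le
    rw [natDegree_X_sub_C, hd, add_comm 1 m] at h3
    rw [h3, resultant_X_sub_C_right _ _ _ hA2.le]
    have h4 : eval ρ A = e := by simp [hA]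
    rw [h4]; ring
  show resultant (A * B) (derivative (A * B)) (m + 2) (m + 1) = _
  rw [h1, h2]

theorem wesim_res {m : ℕ} (hm : 1 ≤ m) (r : ℂ) (G : ℂ[X]) (hd : G.natDegree = m) :
    resultant G (derivative ((X - C r) ^ 2 * G)) m (m + 1) = G.eval r ^ 2 * Dv m G := by
  have hder : derivative ((X - C r) ^ 2 * G) =
      (X - C r) ^ 2 * derivative G + G * (C 2 * (X - C r)) := by
    rw [derivative_mul, derivative_X_sub_C_sq]; ring
  have hp : (C 2 * (X - C r) : ℂ[X]).natDegree + m ≤ m + 1 := by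
    have := natDegree_C_mul_le (2 : ℂ) (X - C r)
    rw [natDegree_X_sub_C] at this
    omega
  rw [hder, resultant_add_mul_right _ _ _ _ _ hp hd.le]
  have h3 := resultant_mul_right G ((X - C r) ^ 2) (derivative G) m hd.le
  rw [(monic_X_sub_C r).natDegree_pow, natDegree_X_sub_C, natDegree_derivative, hd,
    show 2 * 1 + (m - 1) = m + 1 by omega, mul_one] at h3
  rw [h3, resultant_X_sub_C_pow_right _ _ _ _ hd.le, mul_comm m 2, pow_mul]
  simp [Dv]

/-- first order splitting of a perturbation -/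
theorem wesim_split {m : ℕ} (hm : 1 ≤ m) (r : ℂ) (G g : ℂ[X]) (hd : G.natDegree = m)
    (hr : G.eval r ≠ 0) (hg : g.natDegree < m + 2) :
    ∃ (s : ℂ) (c : ℂ[X]), c.natDegree < m ∧
      g = (C (g.eval r / G.eval r) - C 2 * C s * (X - C r)) * G + (X - C r) ^ 2 * c := by
  set b := g.eval r / G.eval r with hb
  obtain ⟨h, hh⟩ : (X - C r) ∣ g - C b * G := by
    rw [dvd_iff_isRoot]
    simp only [IsRoot, eval_sub, eval_mul, eval_C, hb]
    field_simp
    ring
  obtain ⟨c, hc⟩ : (X - C r) ∣ h + C 2 * C (-(h.eval r / G.eval r) / 2) * G := by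
    rw [dvd_iff_isRoot]
    simp only [IsRoot, eval_add, eval_mul, eval_C]
    field_simp
    ring
  set s := -(h.eval r / G.eval r) / 2 with hs
  have key : (X - C r) ^ 2 * c = g - (C b - C 2 * C s * (X - C r)) * G := by
    have : g = C b * G + (X - C r) * h := by rw [← hh]; ring
    rw [this, pow_two, mul_assoc, ← hc]; ring
  refine ⟨s, c, ?_, by rw [key]; ring⟩
  by_cases hc0 : c = 0
  · rw [hc0, natDegree_zero]; omega
  have h1 : ((X - C r) ^ 2 * c).natDegree = 2 + c.natDegree := by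
    rw [((monic_X_sub_C r).pow 2).natDegree_mul' hc0, (monic_X_sub_C r).natDegree_pow,
      natDegree_X_sub_C]
  have h2 : (C b - C 2 * C s * (X - C r) : ℂ[X]).natDegree ≤ 1 := by compute_degree
  have h3 : ((C b - C 2 * C s * (X - C r)) * G).natDegree ≤ m + 1 := by
    refine natDegree_mul_le.trans ?_
    omega
  have h4 : (g - (C b - C 2 * C s * (X - C r)) * G).natDegree ≤ m + 1 :=
    (natDegree_sub_le _ _).trans (max_le (by omega) h3)
  rw [← key, h1] at h4
  omega

theorem wesim_dual {R : Type} [CommRing R] [Nontrivial R] (ι : ℂ →+* R) (π : R →+* ℂ) (e : R)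
    (he : e * e = 0) (hπ : ∀ z, π (ι z) = z) (hπe : π e = 0) (hx : ∀ x, e * x = 0 → π x = 0)
    {m : ℕ} (hm : 1 ≤ m) (r : ℂ) (G g : ℂ[X]) (hG : G.Monic) (hd : G.natDegree = m)
    (hr : G.eval r ≠ 0) (hD : Dv m G ≠ 0) (hg : g.natDegree < m + 2) (hgr : g.eval r ≠ 0) :
    Dv (m + 2) (((X - C r) ^ 2 * G).map ι + C e * g.map ι) ≠ 0 := by
  obtain ⟨s, c, hc, hsp⟩ := wesim_split hm r G g hd hr hg
  set b := g.eval r / G.eval r with hb
  have hb0 : b ≠ 0 := div_ne_zero hgr hr
  have hd' : (G.map ι).natDegree = m := by rw [hG.natDegree_map, hd]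
  have hlt : (C e * c.map ι).natDegree < (G.map ι).natDegree := by
    rw [hd']
    exact lt_of_le_of_lt ((natDegree_C_mul_le _ _).trans natDegree_map_le) hc
  have hBd : (G.map ι + C e * c.map ι).natDegree = m := by
    rw [natDegree_add_eq_left_of_natDegree_lt hlt, hd']
  have hCe : (C e * C e : R[X]) = 0 := by rw [← C_mul, he, C_0]
  have hfac : ((X - C r) ^ 2 * G).map ι + C e * g.map ι =
      ((X - C (ι r + e * ι s)) ^ 2 + C (e * ι b)) * (G.map ι + C e * c.map ι) := by
    have h2 : (C (ι 2) : R[X]) = 2 := by rw [map_ofNat, map_ofNat]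
    conv_lhs => rw [hsp]
    simp only [Polynomial.map_add, Polynomial.map_mul, Polynomial.map_pow, Polynomial.map_sub,
      map_X, map_C, C_add, C_mul, h2]
    linear_combination (-(C (ι s) ^ 2 * (map ι G + C e * map ι c)) -
      (C (ι b) - 2 * C (ι s) * (X - C (ι r))) * map ι c) * hCe
  have hcomp : π.comp ι = RingHom.id ℂ := RingHom.ext hπ
  have hA : ((X - C (ι r + e * ι s)) ^ 2 + C (e * ι b) : R[X]).map π = (X - C r) ^ 2 := by
    simp [hπ, hπe]
  have hBm : (G.map ι + C e * c.map ι).map π = G := by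
    simp [Polynomial.map_map, hcomp, hπe]
  rw [hfac, wesim_prod hm _ _ _ hBd]
  intro h0
  have h1 := hx (4 * ι b * resultant ((X - C (ι r + e * ι s)) ^ 2 + C (e * ι b))
      (G.map ι + C e * c.map ι) 2 m * resultant (G.map ι + C e * c.map ι)
      (derivative (((X - C (ι r + e * ι s)) ^ 2 + C (e * ι b)) * (G.map ι + C e * c.map ι)))
      m (m + 1)) (by rw [← h0]; ring)
  rw [map_mul, map_mul, map_mul, ← resultant_map_map, ← resultant_map_map, ← derivative_map,
    Polynomial.map_mul, hA, hBm, wesim_res hm r G hd,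
    resultant_X_sub_C_pow_left _ _ _ _ hd.le, hπ, map_ofNat] at h1
  exact mul_ne_zero (mul_ne_zero (mul_ne_zero (by norm_num) hb0) (pow_ne_zero 2 hr))
    (mul_ne_zero (pow_ne_zero 2 hr) hD) h1

theorem wesim_mult {n : ℕ} (F g : ℂ[X]) (τ : ℂ) (h0 : Dv n (F + C τ * g) = 0)
    (h1 : Dv n ((F + C τ * g).map (algebraMap ℂ (DualNumber ℂ)) +
      C DualNumber.eps * g.map (algebraMap ℂ (DualNumber ℂ))) ≠ 0) :
    rootMultiplicity τ (Dv n (F.map C + C X * g.map C)) = 1 := by
  set P : ℂ[X] := Dv n (F.map C + C X * g.map C) with hP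
  have e0 : P.eval τ = 0 := by
    have := Dv_map (evalRingHom τ) n (F.map C + C X * g.map C)
    rw [← hP, coe_evalRingHom] at this
    rw [← this, ← h0]
    have hc : (evalRingHom τ).comp C = RingHom.id ℂ := RingHom.ext fun z => by simp
    simp [Polynomial.map_map, hc]
  have e1 : (derivative P).eval τ ≠ 0 := by
    intro hd
    apply h1
    have := Dv_map (aeval (algebraMap ℂ (DualNumber ℂ) τ + DualNumber.eps)).toRingHom n
      (F.map C + C X * g.map C)
    rw [← hP] at this
    have hc : (aeval (algebraMap ℂ (DualNumber ℂ) τ + DualNumber.eps)).toRingHom.comp C =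
        algebraMap ℂ (DualNumber ℂ) := RingHom.ext fun z => by simp
    have h2 : (F.map C + C X * g.map C).map
        (aeval (algebraMap ℂ (DualNumber ℂ) τ + DualNumber.eps)).toRingHom =
        (F + C τ * g).map (algebraMap ℂ (DualNumber ℂ)) +
          C DualNumber.eps * g.map (algebraMap ℂ (DualNumber ℂ)) := by
      rw [Polynomial.map_add, Polynomial.map_mul, Polynomial.map_map, Polynomial.map_map, hc,
        map_C, Polynomial.map_add, Polynomial.map_mul, map_C]
      simp only [AlgHom.toRingHom_eq_coe, RingHom.coe_coe, aeval_X, C_add]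
      ring
    rw [← h2, this]
    simp only [AlgHom.toRingHom_eq_coe, RingHom.coe_coe]
    rw [aeval_add_of_sq_eq_zero _ _ _ DualNumber.eps_pow_two, aeval_algebraMap_apply,
      aeval_algebraMap_apply, coe_aeval_eq_eval, e0, hd]
    simp
  have hP0 : P ≠ 0 := by
    intro h
    rw [h] at e1
    simp at e1
  have a1 : 0 < rootMultiplicity τ P := (rootMultiplicity_pos hP0).2 e0
  have a2 : ¬ 1 < rootMultiplicity τ P := fun h =>
    e1 ((one_lt_rootMultiplicity_iff_isRoot hP0).1 h).2
  omega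

/-- SIMPLE: the discriminant along a good line has a simple zero -/
theorem good_simple {n : ℕ} (hn : 5 ≤ n) {f g : ℤ[X]} (hm : f.Monic) (hf : f.natDegree = n)
    (hi : Irr f) (hg : g.natDegree < n) (h : Good n f g) :
    ∃ τ : ℂ, rootMultiplicity τ (Dv n ((up ℂ f).map C + C X * (up ℂ g).map C)) = 1 ∧
      Phi n 0 (up ℂ f + C τ * up ℂ g) ≠ 0 := by
  obtain ⟨τ, hD, hP⟩ := h
  refine ⟨τ, ?_, hP⟩
  obtain ⟨m, rfl⟩ : ∃ m, n = m + 2 := ⟨n - 2, by omega⟩
  have hF : (up ℂ f).Monic := hm.map _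
  have hFd : (up ℂ f).natDegree = m + 2 := by rw [hm.natDegree_map, hf]
  have hgd : (up ℂ g).natDegree < m + 2 := lt_of_le_of_lt natDegree_map_le hg
  have hlt : (C τ * up ℂ g).natDegree < (up ℂ f).natDegree := by
    rw [hFd]; exact lt_of_le_of_lt (natDegree_C_mul_le _ _) hgd
  have hT : (up ℂ f + C τ * up ℂ g).Monic := hF.add_of_left (degree_lt_degree hlt)
  have hTd : (up ℂ f + C τ * up ℂ g).natDegree = m + 2 := by
    rw [natDegree_add_eq_left_of_natDegree_lt hlt, hFd]
  obtain ⟨r, hr0, hr1⟩ := (Dv_eq_zero_iff_double _ hT hTd).1 hD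
  obtain ⟨G, hG⟩ : (X - C r) ^ 2 ∣ up ℂ f + C τ * up ℂ g :=
    (pow_dvd_pow _ ((one_lt_rootMultiplicity_iff_isRoot hT.ne_zero).2 ⟨hr0, hr1⟩)).trans
      (pow_rootMultiplicity_dvd _ r)
  have hGm : G.Monic := ((monic_X_sub_C r).pow 2).of_mul_monic_left (hG ▸ hT)
  have hGd : G.natDegree = m := by
    rw [hG, ((monic_X_sub_C r).pow 2).natDegree_mul hGm, (monic_X_sub_C r).natDegree_pow,
      natDegree_X_sub_C] at hTd
    omega
  have hP' := hP
  rw [hG, Phi_double 0 r G hGm hGd] at hP'
  have hr : G.eval r ≠ 0 := fun h0 => hP' (by rw [h0]; ring)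
  have hDG : Dv m G ≠ 0 := fun h0 => hP' (by rw [h0]; ring)
  have hq : ∀ p : ℤ[X], aeval r (up ℚ p) = (up ℂ p).eval r := fun p => by
    rw [up, up, eval_map, aeval_def, eval₂_map]
    exact congrArg (fun φ => eval₂ φ r p) (RingHom.ext_int _ _)
  have hgr : (up ℂ g).eval r ≠ 0 := by
    intro h0
    have hf0 : (up ℂ f).eval r = 0 := by
      simpa only [eval_add, eval_mul, h0, mul_zero, add_zero] using hr0
    have hdvd := hi.dvd_of_root (z := r) (by rw [hq, hf0]) (q := up ℚ g) (by rw [hq, h0])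
    have hg0 : up ℚ g = 0 := by
      refine eq_zero_of_dvd_of_natDegree_lt hdvd ?_
      rw [hm.natDegree_map, hf]
      exact lt_of_le_of_lt natDegree_map_le hg
    have hg1 : g = 0 := by
      rwa [up, Polynomial.map_eq_zero_iff (RingHom.injective_int _)] at hg0
    rw [hg1, up, up, Polynomial.map_zero, mul_zero, add_zero, Dv_map] at hD
    exact hi.Dv_ne_zero hm hf (by simpa using hD)
  refine wesim_mult _ _ τ hD ?_
  rw [hG]
  refine wesim_dual (algebraMap ℂ (DualNumber ℂ)) (TrivSqZeroExt.fstHom ℂ ℂ ℂ).toRingHom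
    DualNumber.eps DualNumber.eps_mul_eps (fun z => by simp) (by simp) (fun x hx => ?_)
    (by omega) r G _ hGm hGd hr hDG hgd hgr
  have := congrArg TrivSqZeroExt.snd hx
  simpa using this

end Pool.Agent.VW
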