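import Pool.Agent.P.MP_b0ea37_nt.WHt
import Pool.Agent.P.MP_b0ea37_nt.WPack

namespace Pool.Agent.VW

open Polynomial Finset

/-- `α` lists the roots of an irreducible rational polynomial -/
def Cj {b : ℕ} (α : Fin b → ℂ) : Prop :=
  ∃ c : ℚ[X], Irreducible c ∧ c.map (algebraMap ℚ ℂ) = ∏ j, (X - C (α j))

/-- `β` lists the conjugates of an element of the field given by `α` -/
def InK {b : ℕ} (α β : Fin b → ℂ) : Prop := ∃ u : ℚ[X], ∀ j, β j = aeval (α j) u

def Intg {b : ℕ} (β : Fin b → ℂ) : Prop := ∀ j, IsIntegral ℤ (β j)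

variable {b : ℕ} {α β γ : Fin b → ℂ}

theorem prodX_monic (α : Fin b → ℂ) : (∏ j, (X - C (α j))).Monic :=
  monic_prod_of_monic _ _ fun _ _ => monic_X_sub_C _

theorem prodX_deg (α : Fin b → ℂ) : (∏ j, (X - C (α j))).natDegree = b := by
  rw [natDegree_prod_of_monic _ _ fun i _ => monic_X_sub_C _]
  simp

theorem root_of_map {c : ℚ[X]} (h : c.map (algebraMap ℚ ℂ) = ∏ j, (X - C (α j))) (j : Fin b) :
    aeval (α j) c = 0 := by
  rw [← eval_map_algebraMap, h, eval_prod]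
  exact prod_eq_zero (mem_univ j) (by simp)

theorem monic_of_map {c : ℚ[X]} (h : c.map (algebraMap ℚ ℂ) = ∏ j, (X - C (α j))) :
    c.Monic ∧ c.natDegree = b := by
  refine ⟨monic_of_injective (algebraMap ℚ ℂ).injective (h ▸ prodX_monic α), ?_⟩
  rw [← natDegree_map (algebraMap ℚ ℂ), h, prodX_deg]

theorem Cj.minpoly_map (h : Cj α) (i : Fin b) :
    (minpoly ℚ (α i)).map (algebraMap ℚ ℂ) = ∏ j, (X - C (α j)) := by
  obtain ⟨c, hc, h⟩ := h
  rw [← minpoly.eq_of_irreducible_of_monic hc (root_of_map h i) (monic_of_map h).1, h]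

theorem Cj.isIntegral (h : Cj α) (i : Fin b) : IsIntegral ℚ (α i) := by
  obtain ⟨c, -, h⟩ := h
  exact ⟨c, (monic_of_map h).1, by rw [← aeval_def]; exact root_of_map h i⟩

theorem Cj.all_zero (h : Cj α) {i : Fin b} {u : ℚ[X]} (hu : aeval (α i) u = 0) (j : Fin b) :
    aeval (α j) u = 0 := by
  obtain ⟨w, hw⟩ := minpoly.dvd ℚ (α i) hu
  rw [hw, map_mul, root_of_map (h.minpoly_map i) j, zero_mul]

theorem Cj.all_eq (h : Cj α) {i : Fin b} {u w : ℚ[X]} (hu : aeval (α i) u = aeval (α i) w)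
    (j : Fin b) : aeval (α j) u = aeval (α j) w := by
  have := h.all_zero (u := u - w) (i := i) (by rw [map_sub, hu, sub_self]) j
  rwa [map_sub, sub_eq_zero] at this

theorem Cj.inj (h : Cj α) : Function.Injective α := by
  obtain ⟨c, hc, h⟩ := h
  have h1 := hc.separable.map (f := algebraMap ℚ ℂ)
  rw [h] at h1
  exact separable_prod_X_sub_C_iff.1 h1

theorem Irr.cj {f : ℤ[X]} (hf : Irr f) (h : Roots (up ℂ f) α) : Cj α :=
  ⟨up ℚ f, hf, by
    rw [up, Polynomial.map_map, RingHom.ext_int (RingHom.comp _ _) (Int.castRingHom ℂ)]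
    exact h⟩

theorem InK.refl (α : Fin b → ℂ) : InK α α := ⟨X, fun _ => by simp⟩

theorem InK.trans (h : InK α β) (h' : InK β γ) : InK α γ := by
  obtain ⟨u, hu⟩ := h
  obtain ⟨w, hw⟩ := h'
  exact ⟨w.comp u, fun j => by rw [aeval_comp, ← hu, hw]⟩

theorem InK.sub (h : InK α β) (h' : InK α γ) : InK α fun j => β j - γ j := by
  obtain ⟨u, hu⟩ := h
  obtain ⟨w, hw⟩ := h'
  exact ⟨u - w, fun j => by rw [map_sub, ← hu, ← hw]⟩

theorem InK.const (α : Fin b → ℂ) (t : ℤ) : InK α fun _ => (t : ℂ) :=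
  ⟨C (t : ℚ), fun j => by simp⟩

theorem Intg.sub (h : Intg β) (h' : Intg γ) : Intg fun j => β j - γ j :=
  fun j => (h j).sub (h' j)

theorem Intg.const (b : ℕ) (t : ℤ) : Intg fun _ : Fin b => (t : ℂ) :=
  fun _ => isIntegral_algebraMap (R := ℤ) (x := t)

theorem Roots.intg {f : ℤ[X]} (hm : f.Monic) (h : Roots (up ℂ f) α) : Intg α := fun j =>
  ⟨f, hm, by
    rw [← eval_map, algebraMap_int_eq]
    exact (h.eval_eq_zero_iff _).2 ⟨j, rfl⟩⟩

/-- the characteristic polynomial is rational -/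
theorem Cj.char (h : Cj α) (hβ : InK α β) :
    ∃ g : ℚ[X], g.map (algebraMap ℚ ℂ) = ∏ j, (X - C (β j)) := by
  obtain ⟨c, -, hc⟩ := h
  obtain ⟨u, hu⟩ := hβ
  refine ⟨resultant (c.map C) (C X - u.map C) b u.natDegree, Polynomial.funext fun y => ?_⟩
  have h1 := resultant_map_map (f := c.map C) (g := C X - u.map C) (m := b) (n := u.natDegree)
    (eval₂RingHom (algebraMap ℚ ℂ) y)
  have h2 : (eval₂RingHom (algebraMap ℚ ℂ) y).comp C = algebraMap ℚ ℂ := by
    ext; simp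
  rw [Polynomial.map_sub, Polynomial.map_map, Polynomial.map_map, h2, map_C, hc, coe_eval₂RingHom,
    eval₂_X] at h1
  have h3 := resultant_roots (1 : ℂ) one_ne_zero α (C y - u.map (algebraMap ℚ ℂ)) u.natDegree
    ((natDegree_sub_le _ _).trans (max_le (by simp) natDegree_map_le))
  rw [C_1, one_mul, one_pow, one_mul] at h3
  rw [eval_map, ← h1, h3, eval_prod]
  refine prod_congr rfl fun j _ => ?_
  rw [eval_sub, eval_C, eval_map_algebraMap, ← hu]
  simp

theorem Cj.char_int (h : Cj α) (hβ : InK α β) (hi : Intg β) :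
    ∃ g : ℤ[X], g.Monic ∧ g.natDegree = b ∧ Roots (up ℂ g) β := by
  obtain ⟨g, hg⟩ := h.char hβ
  have h1 : ∀ k, IsIntegral ℤ ((∏ j, (X - C (β j))).coeff k) := by
    intro k
    have h2 : (∏ j, (X - C (β j))) ∈ lifts (algebraMap (integralClosure ℤ ℂ) ℂ) :=
      ⟨∏ j, (X - C (⟨β j, hi j⟩ : integralClosure ℤ ℂ)), by
        simp⟩
    obtain ⟨x, hx⟩ := (lifts_iff_coeff_lifts _).1 h2 k
    rw [← hx]
    exact x.2
  have h3 : (∏ j, (X - C (β j))) ∈ lifts (Int.castRingHom ℂ) := by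
    rw [lifts_iff_coeff_lifts]
    intro k
    have h4 := h1 k
    rw [← hg, coeff_map] at h4 ⊢
    obtain ⟨z, hz⟩ := IsIntegrallyClosed.isIntegral_iff.1
      ((isIntegral_algebraMap_iff (algebraMap ℚ ℂ).injective).1 h4)
    exact ⟨z, by rw [← hz]; simp⟩
  obtain ⟨q, h5, h6, h7⟩ := lifts_and_natDegree_eq_and_monic h3 (prodX_monic β)
  exact ⟨q, h7, h6.trans (prodX_deg β), h5⟩

/-- a nonzero integer has a conjugate of size at least one -/
theorem Cj.one_le (h : Cj α) (hβ : InK α β) (hi : Intg β) {i : Fin b} (h0 : β i ≠ 0) :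
    ∃ j, 1 ≤ ‖β j‖ := by
  obtain ⟨g, -, -, hg⟩ := h.char_int hβ hi
  obtain ⟨u, hu⟩ := hβ
  have h1 : ∀ j, β j ≠ 0 := fun j hj =>
    h0 (by rw [hu]; exact h.all_zero (by rw [← hu]; exact hj) i)
  have h2 : ((g.eval 0 : ℤ) : ℂ) = ∏ j, (-β j) := by
    have h3 := eval_intCast_map (Int.castRingHom ℂ) g 0
    rw [show g.map (Int.castRingHom ℂ) = _ from hg, eval_prod] at h3
    simpa using h3.symm
  have h4 : g.eval 0 ≠ 0 := by
    intro h5
    rw [h5, Int.cast_zero] at h2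
    exact prod_ne_zero_iff.2 (fun j _ => neg_ne_zero.2 (h1 j)) h2.symm
  have h6 : (1 : ℝ) ≤ ∏ j, ‖β j‖ := by
    have h7 := congrArg norm h2
    rw [norm_prod, Complex.norm_intCast] at h7
    simp only [norm_neg] at h7
    rw [← h7]
    exact_mod_cast Int.one_le_abs h4
  by_contra hc
  push Not at hc
  have h8 : ∏ j, ‖β j‖ < ∏ _j : Fin b, (1 : ℝ) :=
    prod_lt_prod_of_nonempty (fun j _ => norm_pos_iff.2 (h1 j)) (fun j _ => hc j) ⟨i, mem_univ i⟩
  rw [prod_const_one] at h8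
  linarith

theorem Cj.conj (h : Cj α) : ∃ s : Equiv.Perm (Fin b), (∀ i, s (s i) = i) ∧
    ∀ β, InK α β → ∀ i, β (s i) = starRingEnd ℂ (β i) := by
  have h0 := h.inj
  obtain ⟨c, -, hc⟩ := h
  have h1 : (starRingEnd ℂ).comp (algebraMap ℚ ℂ) = algebraMap ℚ ℂ := RingHom.ext_rat _ _
  obtain ⟨s, h2, h3⟩ := exists_conj α h0 (by rw [← hc, Polynomial.map_map, h1])
  refine ⟨s, h2, fun β ⟨u, hu⟩ i => ?_⟩
  rw [hu, hu, h3, aeval_def, aeval_def, hom_eval₂, h1]

/-- an element of full degree generates the field -/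
theorem Cj.gen (h : Cj α) (hβ : InK α β) (i : Fin b) (hd : b ≤ (minpoly ℚ (β i)).natDegree) :
    Cj β ∧ InK β α := by
  obtain ⟨g, hg⟩ := h.char hβ
  obtain ⟨hgm, hgd⟩ := monic_of_map hg
  have hint : IsIntegral ℚ (β i) := ⟨g, hgm, by rw [← aeval_def]; exact root_of_map hg i⟩
  have h1 : g = minpoly ℚ (β i) := eq_of_monic_of_dvd_of_natDegree_le (minpoly.monic hint) hgm
    (minpoly.dvd ℚ _ (root_of_map hg i)) (hgd ▸ hd)
  refine ⟨⟨g, h1 ▸ minpoly.irreducible hint, hg⟩, ?_⟩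
  obtain ⟨u, hu⟩ := hβ
  have hle : IntermediateField.adjoin ℚ {β i} ≤ IntermediateField.adjoin ℚ {α i} := by
    rw [IntermediateField.adjoin_simple_le_iff, hu]
    exact IntermediateField.algebra_adjoin_le_adjoin ℚ _ (aeval_mem_adjoin_singleton ℚ _)
  have := IntermediateField.adjoin.finiteDimensional (h.isIntegral i)
  have h2 := IntermediateField.eq_of_le_of_finrank_eq hle (by
    rw [IntermediateField.adjoin.finrank hint, IntermediateField.adjoin.finrank (h.isIntegral i),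
      ← h1, hgd, (monic_of_map (h.minpoly_map i)).2])
  have h3 : α i ∈ (IntermediateField.adjoin ℚ {β i}).toSubalgebra :=
    h2 ▸ IntermediateField.mem_adjoin_simple_self ℚ (α i)
  rw [IntermediateField.adjoin_simple_toSubalgebra_of_isAlgebraic hint.isAlgebraic,
    Algebra.adjoin_singleton_eq_range_aeval] at h3
  obtain ⟨w, hw⟩ := h3
  refine ⟨w, fun j => ?_⟩
  have h4 := h.all_eq (i := i) (u := X) (w := w.comp u)
    (by rw [aeval_comp, ← hu, aeval_X]; exact hw.symm) j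
  rwa [aeval_comp, ← hu, aeval_X] at h4

theorem Cj.gen_of_inj (h : Cj α) (hβ : InK α β) (hb : 0 < b) (hinj : Function.Injective β) :
    Cj β ∧ InK β α := by
  refine h.gen hβ ⟨0, hb⟩ ?_
  obtain ⟨g, hg⟩ := h.char hβ
  have hint : IsIntegral ℚ (β ⟨0, hb⟩) :=
    ⟨g, (monic_of_map hg).1, by rw [← aeval_def]; exact root_of_map hg _⟩
  obtain ⟨u, hu⟩ := hβ
  have h1 : (∏ j, (X - C (β j))) ∣ (minpoly ℚ (β ⟨0, hb⟩)).map (algebraMap ℚ ℂ) := by
    refine prod_dvd_of_coprime (fun i _ j _ hij => pairwise_coprime_X_sub_C hinj hij)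
      fun j _ => dvd_iff_isRoot.2 ?_
    rw [IsRoot.def, eval_map_algebraMap, hu j, ← aeval_comp]
    exact h.all_zero (i := ⟨0, hb⟩) (by rw [aeval_comp, ← hu, minpoly.aeval]) j
  have h2 := natDegree_le_of_dvd h1 ((minpoly.monic hint).map _).ne_zero
  rwa [prodX_deg, natDegree_map] at h2

/-- integers of a fixed field in a box -/
theorem Cj.cnt_box (h : Cj α) (m : Fin b → ℝ) (hm : ∀ j, 0 ≤ m j) :
    Cnt (fun β => InK α β ∧ Intg β ∧ ∀ j, ‖β j‖ ≤ m j) (∏ j, (3 + 16 * m j)) := by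
  obtain ⟨s, hs, hc⟩ := h.conj
  obtain ⟨cell, Q, h1, h2, h3⟩ := grid s hs m (fun _ => 1 / 2) hm (fun _ => by norm_num)
    fun _ => rfl
  refine (h1.inj cell (fun β hβ => h2 β hβ.2.2) fun β γ hβ hγ e => ?_).mono (fun _ h => h)
    (le_of_eq (prod_congr rfl fun j _ => by ring))
  funext i
  by_contra hne
  obtain ⟨j, hj⟩ := h.one_le (hβ.1.sub hγ.1) (hβ.2.1.sub hγ.2.1) (i := i) (sub_ne_zero.2 hne)
  have := h3 β γ (hc β hβ.1) (hc γ hγ.1) e j
  linarith

/-- numberings of the roots -/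
theorem cnt_numberings (g : ℂ[X]) : Cnt (fun α : Fin b → ℂ => Roots g α) ((b : ℝ) ^ b) := by
  refine Cnt.of_mem (by positivity) fun a ha => ?_
  have h1 : g ≠ 0 := by rw [show g = _ from ha]; exact (prodX_monic a).ne_zero
  have h2 : g.natDegree = b := by rw [show g = _ from ha, prodX_deg]
  refine (Cnt.pi fun _ : Fin b => cnt_roots g h1).mono
    (fun α hα i => (hα.eval_eq_zero_iff _).2 ⟨i, rfl⟩) (le_of_eq ?_)
  rw [h2]
  simp

/-- dyadic size vectors -/
theorem cnt_dyadic_vec (b : ℕ) (ε : ℝ) (hε : 0 < ε) : ∃ C : ℝ, 1 ≤ C ∧ ∀ Z : ℝ, 1 ≤ Z →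
    Cnt (fun k : Fin b → ℕ => ∏ j, (2 : ℝ) ^ k j ≤ Z) (C * Z ^ ε) := by
  obtain ⟨C, hC, h⟩ := cnt_dyadic (ε / (b + 1)) (by positivity)
  refine ⟨C ^ b, one_le_pow₀ hC, fun Z hZ => ?_⟩
  refine (Cnt.pi fun _ : Fin b => h Z hZ).mono (fun k hk j => le_trans ?_ hk) ?_
  · rw [prod_pow_eq_pow_sum]
    exact pow_le_pow_right₀ one_le_two (single_le_sum (fun _ _ => Nat.zero_le _) (mem_univ j))
  · rw [prod_const, card_univ, Fintype.card_fin, mul_pow, ← Real.rpow_natCast (Z ^ _),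
      ← Real.rpow_mul (by linarith)]
    refine mul_le_mul_of_nonneg_left (Real.rpow_le_rpow_of_exponent_le hZ ?_) (by positivity)
    rw [div_mul_eq_mul_div, div_le_iff₀ (by positivity)]
    nlinarith

end Pool.Agent.VW
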