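import Pool.Agent.P.MP_b0ea37_nt.WFCj

namespace Pool.Agent.VW

open Polynomial Finset

theorem fld_ineq {n : ℕ} (hn : 2 ≤ n) (m : Fin n → ℝ) (hm : ∀ i, 1 ≤ m i) (R : ℝ) (hR : 1 ≤ R) :
    ∃ i₀, (∏ i, (3 + 8 * m i / (R / 2))) * (2 * min (R / 2) (2 * m i₀) + 1) ≤
      95 ^ n * (2 * R + (∏ i, m i) / R) := by
  have hR0 : 0 < R := by linarith
  have hF : ∀ i, 3 + 8 * m i / (R / 2) = 3 + 16 * (m i / R) := fun i => by field_simp; ring
  simp only [hF]
  have hq : ∀ i, 0 ≤ m i / R := fun i => div_nonneg (by linarith [hm i]) hR0.le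
  have hP : 0 ≤ (∏ i, m i) / R :=
    div_nonneg (prod_nonneg fun i _ => by linarith [hm i]) hR0.le
  have hG : ∀ i, 0 ≤ 2 * min (R / 2) (2 * m i) + 1 := fun i => by
    have : 0 ≤ min (R / 2) (2 * m i) := le_min (by linarith) (by linarith [hm i])
    linarith
  by_cases hA : ∀ i, m i ≤ R
  · refine ⟨⟨0, by omega⟩, mul_le_mul ?_ ?_ (hG _) (by positivity)⟩
    · refine (prod_le_prod (g := fun _ => (95 : ℝ)) (fun i _ => by linarith [hq i])
        fun i _ => ?_).trans (by simp)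
      have := (div_le_one hR0).2 (hA i)
      linarith
    · linarith [min_le_left (R / 2) (2 * m ⟨0, by omega⟩)]
  push Not at hA
  obtain ⟨i₁, h1⟩ := hA
  have : Nontrivial (Fin n) := Fin.nontrivial_iff_two_le.2 hn
  obtain ⟨i₀, h0⟩ := exists_ne i₁
  refine ⟨i₀, ?_⟩
  have h2 : i₀ ∈ univ.erase i₁ := mem_erase.2 ⟨h0, mem_univ _⟩
  have e1 : (95 : ℝ) ^ n * ((∏ i, m i) / R) =
      95 * (m i₁ / R) * (95 * m i₀ * ∏ i ∈ (univ.erase i₁).erase i₀, 95 * m i) := by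
    rw [mul_prod_erase _ (fun i => 95 * m i) h2]
    have h3 := mul_prod_erase univ (fun i => 95 * m i) (mem_univ i₁)
    rw [prod_mul_distrib (s := univ), prod_const, card_univ, Fintype.card_fin] at h3
    rw [← mul_div_assoc, ← h3]
    ring
  have b1 : 3 + 16 * (m i₁ / R) ≤ 95 * (m i₁ / R) := by
    have := (one_le_div hR0).2 h1.le
    linarith
  have b0 : (3 + 16 * (m i₀ / R)) * (2 * min (R / 2) (2 * m i₀) + 1) ≤ 95 * m i₀ := by
    by_cases h : m i₀ ≤ R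
    · have h4 := (div_le_one hR0).2 h
      have h5 := min_le_right (R / 2) (2 * m i₀)
      calc _ ≤ 19 * (5 * m i₀) :=
            mul_le_mul (by linarith) (by linarith [hm i₀]) (hG _) (by norm_num)
        _ = _ := by ring
    · have h4 := (one_le_div hR0).2 (not_le.1 h).le
      have h5 := min_le_left (R / 2) (2 * m i₀)
      calc _ ≤ 19 * (m i₀ / R) * (5 * R) :=
            mul_le_mul (by linarith) (by linarith) (hG _) (by linarith)
        _ = _ := by field_simp; ring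
  have b2 : ∏ i ∈ (univ.erase i₁).erase i₀, (3 + 16 * (m i / R)) ≤
      ∏ i ∈ (univ.erase i₁).erase i₀, 95 * m i :=
    prod_le_prod (fun i _ => by linarith [hq i]) fun i _ => by
      have := div_le_self (by linarith [hm i] : 0 ≤ m i) hR
      linarith [hm i]
  rw [← mul_prod_erase _ _ (mem_univ i₁), ← mul_prod_erase _ _ h2, mul_add ((95 : ℝ) ^ n), e1]
  have b3 : 0 ≤ ∏ i ∈ (univ.erase i₁).erase i₀, (3 + 16 * (m i / R)) :=
    prod_nonneg fun i _ => by linarith [hq i]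
  calc _ = (3 + 16 * (m i₁ / R)) * ((3 + 16 * (m i₀ / R)) * (2 * min (R / 2) (2 * m i₀) + 1) *
        ∏ i ∈ (univ.erase i₁).erase i₀, (3 + 16 * (m i / R))) := by ring
    _ ≤ 95 * (m i₁ / R) * (95 * m i₀ * ∏ i ∈ (univ.erase i₁).erase i₀, 95 * m i) :=
        mul_le_mul b1 (mul_le_mul b0 b2 b3 (by linarith [hm i₀]))
          (mul_nonneg (mul_nonneg (by linarith [hq i₀]) (hG _)) b3) (by linarith [hq i₁])
    _ ≤ _ := le_add_of_nonneg_left (by positivity)

/-- no irrational integer of size at most `R / 2` -/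
def NoSmall {n : ℕ} (α : Fin n → ℂ) (R : ℝ) : Prop :=
  ∀ β, InK α β → Intg β → (∀ j, ‖β j‖ ≤ R / 2) → ∃ t : ℤ, ∀ j, β j = t

/-- integers of bounded measure in a field without small irrational integers -/
theorem cnt_fld (n : ℕ) (hn : 2 ≤ n) (ε : ℝ) (hε : 0 < ε) : ∃ C : ℝ, 0 ≤ C ∧ ∀ Z R : ℝ, 1 ≤ Z →
    1 ≤ R → ∀ α : Fin n → ℂ, Cnt (fun θ => Cj α ∧ NoSmall α R ∧ InK α θ ∧ Intg θ ∧
      ∏ i, max 1 ‖θ i‖ ≤ Z) (C * Z ^ ε * (R + Z / R)) := by
  obtain ⟨C, hC, hd⟩ := cnt_dyadic_vec n ε hε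
  refine ⟨C * (95 ^ n * 2 ^ (n + 1)), by positivity, fun Z R hZ hR α => ?_⟩
  have hR0 : 0 < R := by linarith
  by_cases hc : Cj α ∧ NoSmall α R
  swap
  · exact Cnt.empty (fun θ h => hc ⟨h.1, h.2.1⟩) (by positivity)
  obtain ⟨s, hs, hcs⟩ := hc.1.conj
  have key : ∀ k : Fin n → ℕ, ∏ j, (2 : ℝ) ^ k j ≤ Z →
      Cnt (fun θ => InK α θ ∧ Intg θ ∧ ∀ j, ‖θ j‖ ≤ 2 * 2 ^ k j)
        (95 ^ n * 2 ^ (n + 1) * (R + Z / R)) := by
    intro k hk
    have h1 : ∀ j, (1 : ℝ) ≤ 2 * 2 ^ k j := fun j => by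
      linarith [one_le_pow₀ (n := k j) (one_le_two (α := ℝ))]
    obtain ⟨i₀, hi⟩ := fld_ineq hn (fun j => 2 * 2 ^ k j) h1 R hR
    obtain ⟨cell, Q, h2, h3, h4⟩ := grid s hs (fun j => 2 * 2 ^ k j) (fun _ => R / 2)
      (fun j => by positivity) (fun _ => by positivity) fun _ => rfl
    have h0 : 0 ≤ min (R / 2) (2 * (2 * (2 : ℝ) ^ k i₀)) := by positivity
    refine (h2.fibre (P := fun c θ => (InK α θ ∧ Intg θ ∧ ∀ j, ‖θ j‖ ≤ 2 * 2 ^ k j) ∧ cell θ = c)
      (by linarith) fun c _ => Cnt.of_mem (by linarith) fun θ₀ h5 => ?_).mono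
      (fun θ h => ⟨_, h3 θ h.2.2, h, rfl⟩) (hi.trans ?_)
    · refine (cnt_int_abs _ h0).rel (fun θ t => ∀ j, θ j - θ₀ j = t) (fun θ h => ?_)
        fun θ θ' t _ _ h h' => funext fun j => sub_left_inj.1 ((h j).trans (h' j).symm)
      have h6 := h4 θ θ₀ (hcs θ h.1.1) (hcs θ₀ h5.1.1) (h.2.trans h5.2.symm)
      obtain ⟨t, ht⟩ := hc.2 _ (h.1.1.sub h5.1.1) (h.1.2.1.sub h5.1.2.1) h6
      refine ⟨t, ?_, ht⟩
      rw [← Complex.norm_intCast, ← show θ i₀ - θ₀ i₀ = t from ht i₀]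
      refine le_min (h6 i₀) ((norm_sub_le _ _).trans ?_)
      linarith [h.1.2.2 i₀, h5.1.2.2 i₀]
    · rw [mul_assoc]
      refine mul_le_mul_of_nonneg_left ?_ (by positivity)
      have h7 : ∏ j, (2 * (2 : ℝ) ^ k j) ≤ 2 ^ n * Z := by
        rw [prod_mul_distrib, prod_const, card_univ, Fintype.card_fin]
        exact mul_le_mul_of_nonneg_left hk (by positivity)
      have h8 := div_le_div_of_nonneg_right h7 hR0.le
      have h9 : (1 : ℝ) ≤ 2 ^ n := one_le_pow₀ one_le_two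
      have h10 : 0 ≤ 2 ^ n * Z / R := by positivity
      rw [pow_succ]
      calc _ ≤ 2 ^ n * (2 * R) + 2 * (2 ^ n * Z / R) := by nlinarith
        _ = _ := by ring
  refine ((hd Z hZ).fibre (by positivity) key).mono (fun θ h => ?_) (le_of_eq (by ring))
  choose k hk1 hk2 using fun j => exists_dyadic _ (le_max_left 1 ‖θ j‖)
  exact ⟨k, (prod_le_prod (fun j _ => by positivity) fun j _ => hk1 j).trans h.2.2.2.2, h.2.2.1,
    h.2.2.2.1, fun j => (le_max_right _ _).trans (hk2 j).le⟩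

theorem sum_exp (l : ℕ) : 2 * ∑ i ∈ range l, (l + 1 - i) = l * (l + 3) := by
  induction l with
  | zero => simp
  | succ l ih =>
    rw [sum_range_succ', sum_congr rfl fun i _ => (by omega : l + 1 + 1 - (i + 1) = l + 1 - i),
      mul_add, ih]
    simp
    ring

/-- characteristic polynomials of small integers with reduced trace -/
theorem cnt_char (l : ℕ) : ∃ C : ℝ, 0 ≤ C ∧ ∀ R : ℝ, 1 ≤ R →
    Cnt (fun α : Fin (l + 1) → ℂ => Cj α ∧ Intg α ∧ (∀ j, ‖α j‖ ≤ R) ∧ ‖∑ j, α j‖ ≤ l + 1)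
      (C * R ^ (∑ i ∈ range l, (l + 1 - i))) := by
  refine ⟨(3 * 2 ^ (l + 1)) ^ l * (2 * (l + 1) + 1) * ((l + 1 : ℕ) : ℝ) ^ (l + 1), by positivity,
    fun R hR => ?_⟩
  let B : ℕ → ℝ := fun i => if i = l then l + 1 else 2 ^ (l + 1) * R ^ (l + 1 - i)
  have hB : ∀ i, 0 ≤ B i := fun i => by
    simp only [B]
    split_ifs <;> positivity
  refine ((cnt_poly_coeff (l + 1) fun i => cnt_int_abs (B i) (hB i)).fibre (by positivity)
    fun g _ => cnt_numberings (b := l + 1) (up ℂ (X ^ (l + 1) + g))).mono ?_ ?_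
  · rintro α ⟨h1, h2, h3, h4⟩
    obtain ⟨g, hm, hd, hr⟩ := h1.char_int (InK.refl α) h2
    refine ⟨g - X ^ (l + 1), ⟨?_, fun i hi => ?_⟩, by rwa [add_sub_cancel]⟩
    · have h5 := degree_sub_lt_left (p := g) (q := X ^ (l + 1))
        (by rw [degree_eq_natDegree hm.ne_zero, hd, degree_X_pow]) hm.ne_zero
        (by rw [hm.leadingCoeff, leadingCoeff_X_pow])
      rwa [degree_eq_natDegree hm.ne_zero, hd] at h5
    · rw [coeff_sub, coeff_X_pow, if_neg hi.ne, sub_zero, ← Complex.norm_intCast]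
      have h6 : ((g.coeff i : ℤ) : ℂ) = (∏ j, (X - C (α j))).coeff i := by
        rw [← show up ℂ g = _ from hr, coeff_map, eq_intCast]
      rw [h6]
      simp only [B]
      split_ifs with h
      · have h7 := prod_X_sub_C_coeff_card_pred univ α (by simp)
        rw [card_univ, Fintype.card_fin, Nat.add_sub_cancel] at h7
        rwa [h, h7, norm_neg]
      · have h7 := norm_coeff_prod_le α R h3 (l + 1 - i) (by omega)
        rwa [show l + 1 - (l + 1 - i) = i by omega] at h7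
  · rw [prod_range_succ, ← prod_pow_eq_pow_sum]
    have h8 : ∏ i ∈ range l, (2 * B i + 1) ≤
        ∏ i ∈ range l, (3 * 2 ^ (l + 1) * R ^ (l + 1 - i)) :=
      prod_le_prod (fun i _ => by linarith [hB i]) fun i hi => by
        have h9 : (1 : ℝ) ≤ 2 ^ (l + 1) * R ^ (l + 1 - i) :=
          one_le_mul_of_one_le_of_one_le (one_le_pow₀ one_le_two) (one_le_pow₀ hR)
        simp only [B, if_neg (mem_range.1 hi).ne]
        linarith
    rw [prod_mul_distrib, prod_const, card_range] at h8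
    simp only [B, if_true] at h8 ⊢
    calc _ ≤ (3 * 2 ^ (l + 1)) ^ l * (∏ i ∈ range l, R ^ (l + 1 - i)) * (2 * (l + 1) + 1) *
          ((l + 1 : ℕ) : ℝ) ^ (l + 1) := by gcongr
      _ = _ := by ring

end Pool.Agent.VW
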