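import Pool.Agent.P.MP_b0ea37_nt.WSym
import Pool.Agent.P.MP_b0ea37_nt.WFCj

namespace Pool.Agent.VW

open Polynomial Finset

open MeasureTheory in
/-- Minkowski's theorem on linear forms -/
theorem mink {n : ℕ} (M : Matrix (Fin n) (Fin n) ℝ) (hM : M.det ≠ 0) (ρ : Fin n → ℝ)
    (hρ : ∀ i, 0 < ρ i) (h : |M.det| < ∏ i, ρ i) :
    ∃ x : Fin n → ℤ, x ≠ 0 ∧ ∀ i, |∑ a, (x a : ℝ) * M a i| < ρ i := by
  classical
  have hli : LinearIndependent ℝ M.row := Matrix.linearIndependent_rows_of_det_ne_zero hM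
  let b := basisOfPiSpaceOfLinearIndependent hli
  have hb : (b : Fin n → Fin n → ℝ) = M.row := coe_basisOfPiSpaceOfLinearIndependent hli
  have hc : Countable (Submodule.span ℤ (Set.range b)).toAddSubgroup :=
    inferInstanceAs (Countable (Submodule.span ℤ (Set.range b)))
  obtain ⟨x, hx0, hx⟩ := exists_ne_zero_mem_lattice_of_measure_mul_two_pow_lt_measure
    (ZSpan.isAddFundamentalDomain' b volume) (s := Set.pi Set.univ fun i => Set.Ioo (-ρ i) (ρ i))
    (fun x hx i _ => ⟨by simpa using (hx i trivial).2, by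
      have := (hx i trivial).1
      simp only [Pi.neg_apply]
      linarith⟩)
    (convex_pi fun i _ => convex_Ioo _ _) (by
      rw [ZSpan.volume_fundamentalDomain, Real.volume_pi_Ioo, hb, Module.finrank_fin_fun,
        ← ENNReal.ofReal_prod_of_nonneg fun i _ => by linarith [hρ i],
        ← ENNReal.ofReal_ofNat, ← ENNReal.ofReal_pow (by norm_num),
        ← ENNReal.ofReal_mul (abs_nonneg _),
        ENNReal.ofReal_lt_ofReal_iff (prod_pos fun i _ => by linarith [hρ i])]
      have h1 : ∏ i, (ρ i - -ρ i) = (∏ i, ρ i) * 2 ^ n := by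
        rw [prod_congr rfl fun i _ => (by ring : ρ i - -ρ i = ρ i * 2), prod_mul_distrib]
        simp
      rw [h1]
      exact mul_lt_mul_of_pos_right h (by positivity))
  obtain ⟨c, hc⟩ := (Submodule.mem_span_range_iff_exists_fun ℤ).1 x.2
  refine ⟨c, fun h0 => hx0 (Subtype.ext ?_), fun i => ?_⟩
  · rw [← hc, h0]; simp
  · have h1 := hx i trivial
    rw [← hc, hb] at h1
    rw [abs_lt]
    simpa [Matrix.row] using h1

/-- real coordinates keep the size of the determinant -/
theorem det_real {n : ℕ} (s : Equiv.Perm (Fin n)) (E : Matrix (Fin n) (Fin n) ℂ)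
    (hE : ∀ a i, E a (s i) = starRingEnd ℂ (E a i)) :
    (Matrix.of fun a i => (E a i).re + (E a i).im).det ^ 2 = ‖E.det‖ ^ 2 := by
  have hx : ∀ a c, ∑ i, (E a i).re * (E c i).im = 0 := by
    intro a c
    have h1 := Equiv.sum_comp s fun i => (E a i).re * (E c i).im
    simp only [hE, Complex.conj_re, Complex.conj_im, mul_neg, sum_neg_distrib] at h1
    linarith
  set Ξ : Matrix (Fin n) (Fin n) ℝ := Matrix.of fun a i => (E a i).re + (E a i).im with hΞ
  have h2 : (Ξ * Ξ.transpose).map Complex.ofRealHom = E * E.conjTranspose := by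
    ext a c
    have h3 := hx a c
    have h4 := hx c a
    simp only [Matrix.map_apply, Matrix.mul_apply, Matrix.transpose_apply, hΞ, Matrix.of_apply,
      Matrix.conjTranspose_apply, Complex.ofRealHom_eq_coe]
    apply Complex.ext
    · simp only [Complex.ofReal_re, Complex.re_sum, Complex.mul_re, Complex.star_def,
        Complex.conj_re, Complex.conj_im]
      have h5 : ∀ i, ((E a i).re + (E a i).im) * ((E c i).re + (E c i).im) =
          ((E a i).re * (E c i).re - (E a i).im * -(E c i).im) +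
            ((E a i).re * (E c i).im + (E c i).re * (E a i).im) := fun i => by ring
      simp only [h5, sum_add_distrib, h3, h4, add_zero]
    · simp only [Complex.ofReal_im, Complex.im_sum, Complex.mul_im, Complex.star_def,
        Complex.conj_re, Complex.conj_im]
      have h5 : ∀ i, (E a i).re * -(E c i).im + (E a i).im * (E c i).re =
          (E c i).re * (E a i).im - (E a i).re * (E c i).im := fun i => by ring
      simp only [h5, sum_sub_distrib, h3, h4, sub_zero]
  have h6 := congrArg Matrix.det h2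
  rw [← RingHom.mapMatrix_apply, ← RingHom.map_det, Matrix.det_mul, Matrix.det_mul,
    Matrix.det_transpose, Matrix.det_conjTranspose, Complex.star_def, Complex.mul_conj,
    Complex.normSq_eq_norm_sq] at h6
  rw [sq]
  exact Complex.ofReal_injective h6

theorem norm_vandermonde {n : ℕ} (θ : Fin n → ℂ) :
    ‖(Matrix.vandermonde θ).det‖ ^ 2 = ‖Dv n (∏ i, (X - C (θ i)))‖ := by
  rw [Dv_roots, Matrix.det_vandermonde]
  have h1 := prod_prod_Ioi_mul_eq_prod_prod_off_diag fun j i => ‖θ i - θ j‖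
  simp only [norm_prod]
  rw [← prod_pow, prod_congr rfl fun i _ => (by rw [compl_eq_univ_sdiff, sdiff_singleton_eq_erase] :
    ∏ j ∈ {i}ᶜ, ‖θ i - θ j‖ = ∏ j ∈ univ.erase i, ‖θ i - θ j‖)] at *
  rw [← h1]
  refine prod_congr rfl fun i _ => ?_
  rw [← prod_pow]
  exact prod_congr rfl fun j _ => by rw [norm_sub_rev (θ i), sq]

theorem wk_integral {f f₁ : ℤ[X]} {P : ℕ} (hP : 0 < P) {r : ℤ} (hw : Wk P r f)
    (h1 : f - C (f.eval r) = (X - C r) * f₁) {z : ℂ} (hz : aeval z f = 0) (hi : IsIntegral ℤ z) :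
    IsIntegral ℤ (2 / P * aeval z f₁) := by
  obtain ⟨⟨c, hc⟩, d, hd⟩ := hw
  have h2 : f₁.eval r = P * d := by
    have := congrArg (fun g => (derivative g).eval r) h1
    simp at this
    rw [← this, hd]
  obtain ⟨h, hh⟩ : X - C r ∣ f₁ - C (f₁.eval r) := X_sub_C_dvd_sub_C_eval
  have e1 := congrArg (aeval z) h1
  have e2 := congrArg (aeval z) hh
  rw [hc] at e1
  rw [h2] at e2
  simp only [map_sub, map_mul, hz, aeval_X, eq_intCast, map_pow, map_natCast,
    map_intCast, zero_sub] at e1 e2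
  have hP' : (P : ℂ) ≠ 0 := by exact_mod_cast hP.ne'
  have hint : IsIntegral ℤ (aeval z h) :=
    IsIntegral.of_mem_of_fg _ hi.fg_adjoin_singleton _ (aeval_mem_adjoin_singleton ℤ _)
  have hZ : ∀ t : ℤ, IsIntegral ℤ (t : ℂ) := fun t => isIntegral_algebraMap (R := ℤ) (x := t)
  have e3 : (2 / P * aeval z f₁ - d) ^ 2 = d ^ 2 - (4 : ℤ) * c * aeval z h := by
    field_simp
    push_cast
    linear_combination 4 * aeval z f₁ * e2 - 4 * aeval z h * e1
  have h3 : IsIntegral ℤ (2 / P * aeval z f₁ - d) := IsIntegral.of_pow two_pos (by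
    rw [e3]
    exact ((hZ d).pow 2).sub (((hZ 4).mul (hZ c)).mul hint))
  simpa using h3.add (hZ d)

/-- a large weak modulus gives a small irrational integer -/
theorem fld_small {l : ℕ} (hl : 1 ≤ l) {f : ℤ[X]} (hm : f.Monic) (hd : f.natDegree = l + 1)
    (hi : Irr f) {θ : Fin (l + 1) → ℂ} (hθ : Roots (up ℂ f) θ) {P : ℕ} (hP : 0 < P) {r : ℤ}
    (hw : Wk P r f) (ρ : ℝ) (h1 : 1 ≤ ρ)
    (hρ : 4 * |((Dv (l + 1) f : ℤ) : ℝ)| < (P * ρ ^ l) ^ 2) :
    ∃ β, InK θ β ∧ Intg β ∧ (¬ ∃ t : ℤ, ∀ j, β j = t) ∧ ∀ j, ‖β j‖ ≤ ρ := by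
  obtain ⟨f₁, hf₁⟩ : X - C r ∣ f - C (f.eval r) := X_sub_C_dvd_sub_C_eval
  have hm0 : (f - C (f.eval r)).Monic := hm.sub_of_left (degree_C_le.trans_lt
    (natDegree_pos_iff_degree_pos.1 (by omega)))
  have hm1 : f₁.Monic := (monic_X_sub_C r).of_mul_monic_left (hf₁ ▸ hm0)
  have hd1 : f₁.natDegree = l := by
    have := congrArg natDegree hf₁
    rw [natDegree_sub_C, (monic_X_sub_C r).natDegree_mul hm1, natDegree_X_sub_C, hd] at this
    omega
  have hcj := hi.cj hθ
  have hint := hθ.intg hm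
  have hz : ∀ i, aeval (θ i) f = 0 := fun i => by
    rw [← eval_map_algebraMap, algebraMap_int_eq]
    exact (hθ.eval_eq_zero_iff _).2 ⟨i, rfl⟩
  let q : Fin (l + 1) → ℤ[X] := fun a => if a = Fin.last l then f₁ else X ^ (a : ℕ)
  let w : Fin (l + 1) → ℚ := fun a => if a = Fin.last l then 2 / P else 1
  let E : Matrix (Fin (l + 1)) (Fin (l + 1)) ℂ := Matrix.of fun a i => (w a : ℂ) * aeval (θ i) (q a)
  have hEa : ∀ a i, E a i = aeval (θ i) (C (w a) * up ℚ (q a)) := fun a i => by
    rw [map_mul, aeval_C, up, ← algebraMap_int_eq, aeval_map_algebraMap]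
    rfl
  have hEi : ∀ a i, IsIntegral ℤ (E a i) := by
    intro a i
    by_cases ha : a = Fin.last l
    · have := wk_integral hP hw hf₁ (hz i) (hint i)
      simpa [E, w, q, ha] using this
    · simpa [E, w, q, ha] using (hint i).pow a
  have hdet : E.det = 2 / P * (Matrix.vandermonde θ).det := by
    rw [Matrix.det_eval_matrixOfPolynomials_eq_det_vandermonde θ (fun a => up ℂ (q a))
      (fun a => ?_) (fun a => ?_)]
    · have h2 := Matrix.det_mul_column (fun a => (w a : ℂ))
        (Matrix.of fun i j => (up ℂ (q j)).eval (θ i)).transpose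
      have h3 : ∏ a, (w a : ℂ) = 2 / P := by
        rw [prod_eq_single (Fin.last l) (fun a _ ha => by simp [w, ha]) (by simp)]
        simp [w]
      rw [Matrix.det_transpose] at h2
      rw [← h3, ← h2]
      refine congrArg Matrix.det (Matrix.ext fun a i => ?_)
      simp only [E, Matrix.of_apply, Matrix.transpose_apply]
      rw [← eval_map_algebraMap, algebraMap_int_eq]
    · by_cases ha : a = Fin.last l
      · simp only [q, if_pos ha]
        rw [hm1.natDegree_map, hd1, ha, Fin.val_last]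
      · simp [q, ha]
    · by_cases ha : a = Fin.last l
      · simp only [q, if_pos ha]
        exact hm1.map _
      · simp only [q, if_neg ha]
        exact (monic_X_pow _).map _
  obtain ⟨s, -, hs⟩ := hcj.conj
  have h4 := det_real s E fun a i => hs (E a) ⟨_, hEa a⟩ i
  have h5 := norm_vandermonde θ
  rw [← show up ℂ f = _ from hθ, Dv_map, eq_intCast, Complex.norm_intCast] at h5
  have hP' : (0 : ℝ) < P := by exact_mod_cast hP
  rw [hdet, norm_mul, mul_pow, h5, norm_div, Complex.norm_natCast, Complex.norm_ofNat] at h4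
  set Ξ : Matrix (Fin (l + 1)) (Fin (l + 1)) ℝ := Matrix.of fun a i => (E a i).re + (E a i).im
    with hΞ
  have hD : (0 : ℝ) < |((Dv (l + 1) f : ℤ) : ℝ)| :=
    abs_pos.2 (by exact_mod_cast hi.Dv_ne_zero hm hd)
  have h6 : Ξ.det ≠ 0 := by
    intro h
    rw [h] at h4
    have : 0 < (2 / (P : ℝ)) ^ 2 * |((Dv (l + 1) f : ℤ) : ℝ)| := by positivity
    linarith
  obtain ⟨x, hx0, hx⟩ := mink Ξ h6 (fun i => if i = 0 then 1 else ρ)
    (fun i => by split_ifs <;> linarith) (by
      rw [Fin.prod_univ_succ, if_pos rfl, one_mul, prod_congr rfl fun i _ => if_neg (Fin.succ_ne_zero i),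
        prod_const, card_univ, Fintype.card_fin]
      refine abs_lt_of_sq_lt_sq ?_ (by positivity)
      rw [h4, div_pow, div_mul_eq_mul_div, div_lt_iff₀ (by positivity)]
      nlinarith)
  have hβ : InK θ fun i => ∑ a, (x a : ℂ) * E a i :=
    ⟨∑ a, C (x a : ℚ) * (C (w a) * up ℚ (q a)), fun i => by
      rw [map_sum]
      exact sum_congr rfl fun a _ => by rw [hEa, map_mul (aeval _) (C (x a : ℚ)), aeval_C]; simp⟩
  have h7 : ∀ i, ∑ a, (x a : ℝ) * Ξ a i =
      (∑ a, (x a : ℂ) * E a i).re + (∑ a, (x a : ℂ) * E a i).im := fun i => by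
    simp [hΞ, mul_add, sum_add_distrib]
  refine ⟨_, hβ, fun i => IsIntegral.sum _ fun a _ =>
    (isIntegral_algebraMap (R := ℤ) (x := x a)).mul (hEi a i), ?_, fun i => ?_⟩
  · rintro ⟨t, ht⟩
    have h8 : ∀ i, ∑ a, (x a : ℝ) * Ξ a i = t := fun i => by
      rw [h7, show ∑ a, (x a : ℂ) * E a i = t from ht i]; simp
    have h9 := hx 0
    rw [h8, if_pos rfl] at h9
    have h10 : t = 0 := Int.abs_lt_one_iff.1 (by exact_mod_cast h9)
    have h11 := Matrix.eq_zero_of_vecMul_eq_zero h6 (v := fun a => (x a : ℝ))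
      (funext fun i => by rw [Pi.zero_apply, ← Int.cast_zero, ← h10, ← h8 i]; rfl)
    exact hx0 (funext fun a => Int.cast_eq_zero.1 (congrFun h11 a))
  · have h8 : ∀ i, |∑ a, (x a : ℝ) * Ξ a i| ≤ ρ := fun i =>
      (hx i).le.trans (by split_ifs <;> linarith)
    have h9 := h8 i
    have h10 := h8 (s i)
    rw [h7] at h9 h10
    rw [show ∑ a, (x a : ℂ) * E a (s i) = _ from hs _ hβ i, Complex.conj_re, Complex.conj_im] at h10
    refine (abs_le_of_sq_le_sq' ?_ (by linarith)).2
    rw [Complex.sq_norm, Complex.normSq_apply]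
    have h11 := sq_le_sq' (abs_le.1 h9).1 (abs_le.1 h9).2
    have h12 := sq_le_sq' (abs_le.1 h10).1 (abs_le.1 h10).2
    nlinarith

end Pool.Agent.VW
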