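import Pool.Agent.P.MP_b0ea37_nt.WDefs

namespace Pool.Agent.VW

open Polynomial

open Matrix

/-- the value of the form at an integer vector -/
def whermQ {d : ℕ} (G : Matrix (Fin d) (Fin d) ℝ) (x : Fin d → ℤ) : ℝ :=
  (fun j => (x j : ℝ)) ⬝ᵥ G *ᵥ fun j => (x j : ℝ)

section
variable {d : ℕ} {G : Matrix (Fin d) (Fin d) ℝ}

theorem wherm_conj (U : Matrix (Fin d) (Fin d) ℝ) (x : Fin d → ℝ) :
    x ⬝ᵥ (U * G * Uᵀ) *ᵥ x = (x ᵥ* U) ⬝ᵥ G *ᵥ (x ᵥ* U) := by
  rw [← mulVec_mulVec, ← mulVec_mulVec, dotProduct_mulVec, mulVec_transpose]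

theorem wherm_diag (U : Matrix (Fin d) (Fin d) ℤ) (i : Fin d) :
    (U.map (Int.cast : ℤ → ℝ) * G * (U.map (Int.cast : ℤ → ℝ))ᵀ) i i = whermQ G (U i) := by
  rw [Matrix.mul_assoc]
  simp [whermQ, mul_apply, dotProduct, mulVec]

theorem wherm_mul (U V : Matrix (Fin d) (Fin d) ℤ) (i : Fin d) :
    whermQ (V.map (Int.cast : ℤ → ℝ) * G * (V.map (Int.cast : ℤ → ℝ))ᵀ) (U i) =
      whermQ G ((U * V) i) := by
  have e : (fun j => (U i j : ℝ)) ᵥ* V.map (Int.cast : ℤ → ℝ) = fun j => ((U * V) i j : ℝ) := by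
    ext j
    simp [vecMul, dotProduct, mul_apply]
  rw [whermQ, wherm_conj, e, whermQ]

theorem wherm_perm {U : Matrix (Fin d) (Fin d) ℤ} (hU : IsUnit U.det) (σ : Equiv.Perm (Fin d)) :
    IsUnit (U.submatrix σ id).det := by
  rw [det_permute]
  exact (Units.isUnit _).mul hU

theorem wherm_det {U : Matrix (Fin d) (Fin d) ℤ} (hU : IsUnit U.det) :
    (U.map (Int.cast : ℤ → ℝ)).det ^ 2 = 1 := by
  have e : (U.map (Int.cast : ℤ → ℝ)).det = (U.det : ℝ) :=
    ((Int.castRingHom ℝ).map_det U).symm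
  rw [e]
  rcases Int.isUnit_iff.1 hU with h | h <;> simp [h]

theorem wherm_pos (hG : G.PosDef) {x : Fin d → ℝ} (hx : x ≠ 0) : 0 < x ⬝ᵥ G *ᵥ x := by
  simpa using hG.dotProduct_mulVec_pos hx

theorem wherm_low (hG : G.PosDef) : ∃ c : ℝ, 0 < c ∧ ∀ x : Fin d → ℤ, x ≠ 0 → c ≤ whermQ G x := by
  obtain ⟨c, hc, h⟩ := (isCompact_sphere (0 : Fin d → ℝ) 1).exists_forall_le'
    (f := fun x => x ⬝ᵥ G *ᵥ x) (a := 0) (by fun_prop) (fun x hx => wherm_pos hG (by
      rintro rfl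
      simp at hx))
  refine ⟨c, hc, fun x hx => ?_⟩
  obtain ⟨i, hi⟩ := Function.ne_iff.1 hx
  set y : Fin d → ℝ := fun j => (x j : ℝ) with hy
  have h1 : 1 ≤ ‖y‖ := le_trans (by
    simp only [hy, Real.norm_eq_abs]
    exact_mod_cast Int.one_le_abs hi) (norm_le_pi_norm y i)
  have h0 : 0 < ‖y‖ := by linarith
  have h2 := h (‖y‖⁻¹ • y) (by
    rw [mem_sphere_zero_iff_norm, norm_smul, norm_inv, norm_norm, inv_mul_cancel₀ h0.ne'])
  simp only [mulVec_smul, dotProduct_smul, smul_dotProduct, smul_eq_mul] at h2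
  rw [le_inv_mul_iff₀ h0, le_inv_mul_iff₀ h0] at h2
  refine le_trans ?_ h2
  nlinarith [mul_le_mul_of_nonneg_right h1 hc.le]

end

theorem wherm_step {d : ℕ} {G : Matrix (Fin (d + 1)) (Fin (d + 1)) ℝ} (hG : G.PosDef) :
    ∃ (G' : Matrix (Fin d) (Fin d) ℝ) (μ : (Fin d → ℝ) → ℝ), G'.PosDef ∧ G.det = G 0 0 * G'.det ∧
      ∀ (t : ℝ) (y : Fin d → ℝ), (Fin.cons t y : Fin (d + 1) → ℝ) ⬝ᵥ G *ᵥ Fin.cons t y =
        G 0 0 * (t + μ y) ^ 2 + y ⬝ᵥ G' *ᵥ y := by
  have h0 : 0 < G 0 0 := hG.diag_pos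
  have hs : ∀ i j, G i j = G j i := fun i j => by simpa using (hG.isHermitian.apply i j).symm
  let G' : Matrix (Fin d) (Fin d) ℝ :=
    Matrix.of fun i j => G i.succ j.succ - G 0 i.succ / G 0 0 * G 0 j.succ
  let μ : (Fin d → ℝ) → ℝ := fun y => (∑ j, G 0 j.succ * y j) / G 0 0
  have key : ∀ (t : ℝ) (y : Fin d → ℝ), (Fin.cons t y : Fin (d + 1) → ℝ) ⬝ᵥ G *ᵥ Fin.cons t y =
      G 0 0 * (t + μ y) ^ 2 + y ⬝ᵥ G' *ᵥ y := by
    intro t y
    have e1 : y ⬝ᵥ G' *ᵥ y = ∑ i, y i * ∑ j, G i.succ j.succ * y j -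
        (∑ j, G 0 j.succ * y j) * (∑ j, G 0 j.succ * y j) / G 0 0 := by
      rw [Finset.sum_mul_sum]
      simp only [dotProduct, mulVec, G', of_apply, sub_mul, Finset.sum_sub_distrib, mul_sub,
        Finset.sum_div, Finset.mul_sum]
      congr 1
      exact Finset.sum_congr rfl fun i _ => Finset.sum_congr rfl fun j _ => by ring
    have e2 : ∑ i, y i * (G i.succ 0 * t) = t * ∑ j, G 0 j.succ * y j := by
      rw [Finset.mul_sum]
      exact Finset.sum_congr rfl fun i _ => by rw [hs i.succ 0]; ring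
    rw [e1]
    simp only [dotProduct, mulVec, Fin.sum_univ_succ, Fin.cons_zero, Fin.cons_succ, mul_add,
      Finset.sum_add_distrib, e2, μ]
    field_simp
    ring
  refine ⟨G', μ, PosDef.of_dotProduct_mulVec_pos ?_ fun y hy => ?_, ?_, key⟩
  · ext i j
    simp only [G', conjTranspose_apply, of_apply, star_trivial, hs j.succ i.succ]
    ring
  · have := wherm_pos hG (x := Fin.cons (-μ y) y) fun h => hy (funext fun j => congrFun h j.succ)
    rw [key] at this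
    simpa using this
  · let B : Matrix (Fin (d + 1)) (Fin (d + 1)) ℝ :=
      Matrix.of (Fin.cons (G 0) fun i j => G i.succ j - G 0 i.succ / G 0 0 * G 0 j)
    have e : G.det = B.det := by
      refine det_eq_of_forall_row_eq_smul_add_const
        (Fin.cons 0 fun i => G 0 i.succ / G 0 0) 0 rfl fun i j => ?_
      induction i using Fin.cases <;> simp [B]
    rw [e, det_succ_column_zero, Fin.sum_univ_succ, Finset.sum_eq_zero fun i _ => by
      simp [B, hs i.succ 0, h0.ne']]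
    simp only [Fin.val_zero, pow_zero, one_mul, add_zero, Fin.succAbove_zero]
    rfl

theorem wherm_main (d : ℕ) : ∃ C : ℝ, 1 ≤ C ∧ ∀ G : Matrix (Fin d) (Fin d) ℝ, G.PosDef →
    ∃ U : Matrix (Fin d) (Fin d) ℤ, IsUnit U.det ∧ ∏ i, whermQ G (U i) ≤ C * G.det := by
  induction d with
  | zero => exact ⟨1, le_rfl, fun G _ => ⟨1, by simp, by simp⟩⟩
  | succ d ih =>
    obtain ⟨C, hC, ih⟩ := ih
    refine ⟨2 ^ d * C, one_le_mul_of_one_le_of_one_le (one_le_pow₀ (by norm_num)) hC,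
      fun G hG => ?_⟩
    obtain ⟨c, hc, hlow⟩ := wherm_low hG
    let A : Set ℝ := {t | ∃ U : Matrix (Fin (d + 1)) (Fin (d + 1)) ℤ, IsUnit U.det ∧
      t = whermQ G (U 0)}
    have hA : ∀ t ∈ A, c ≤ t := by
      rintro t ⟨U, hU, rfl⟩
      exact hlow _ fun h => hU.ne_zero (det_eq_zero_of_row_eq_zero 0 (congrFun h))
    have hne : A.Nonempty := ⟨_, 1, by simp, rfl⟩
    have hinf : c ≤ sInf A := le_csInf hne hA
    obtain ⟨_, ⟨V, hV, rfl⟩, hlt⟩ := exists_lt_of_csInf_lt hne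
      (show sInf A < 2 * sInf A by linarith)
    set G₀ := V.map (Int.cast : ℤ → ℝ) * G * (V.map (Int.cast : ℤ → ℝ))ᵀ with hG₀
    have hV2 := wherm_det hV
    have hdet : G₀.det = G.det := by
      rw [hG₀, det_mul, det_mul, det_transpose]
      linear_combination G.det * hV2
    have hpd : G₀.PosDef := by
      have := hG.mul_mul_conjTranspose_same (B := V.map (Int.cast : ℤ → ℝ))
        (vecMul_injective_iff_isUnit.2 ((isUnit_iff_isUnit_det _).2
          (IsUnit.of_pow_eq_one hV2 two_ne_zero)))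
      rwa [conjTranspose_eq_transpose_of_trivial] at this
    have hmin : ∀ U : Matrix (Fin (d + 1)) (Fin (d + 1)) ℤ, IsUnit U.det → ∀ i,
        G₀ 0 0 ≤ 2 * whermQ G₀ (U i) := by
      intro U hU i
      have h1 : sInf A ≤ whermQ G ((U * V) i) := csInf_le ⟨c, hA⟩
        ⟨(U * V).submatrix (Equiv.swap 0 i) id,
          wherm_perm (by rw [det_mul]; exact hU.mul hV) _, by congr 1⟩
      rw [hG₀, wherm_diag, wherm_mul]
      linarith
    obtain ⟨G', μ, hG', hd', key⟩ := wherm_step hpd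
    obtain ⟨U', hU', hp⟩ := ih G' hG'
    let U : Matrix (Fin (d + 1)) (Fin (d + 1)) ℤ := Matrix.of (Fin.cons (Fin.cons 1 0)
      fun i => Fin.cons (-round (μ fun j => (U' i j : ℝ))) (U' i))
    have hU : IsUnit U.det := by
      rw [det_succ_row_zero, Fin.sum_univ_succ, Finset.sum_eq_zero fun i _ => by simp [U]]
      simp only [Fin.val_zero, pow_zero, one_mul, add_zero, Fin.succAbove_zero]
      exact isUnit_one.mul hU'
    have h00 : 0 < G₀ 0 0 := hpd.diag_pos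
    have e0 : whermQ G₀ (U 0) = G₀ 0 0 := by
      simp [whermQ, U, dotProduct, mulVec, Fin.sum_univ_succ]
    have e1 : ∀ i : Fin d, 0 ≤ whermQ G₀ (U i.succ) ∧
        whermQ G₀ (U i.succ) ≤ 2 * whermQ G' (U' i) := by
      intro i
      have h1 := hmin U hU i.succ
      have h2 : (fun j => (U i.succ j : ℝ)) = Fin.cons
          (-(round (μ fun j => (U' i j : ℝ)) : ℝ)) fun j => (U' i j : ℝ) := by
        ext j
        induction j using Fin.cases <;> simp [U]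
      have h3 := key (-(round (μ fun j => (U' i j : ℝ)) : ℝ)) fun j => (U' i j : ℝ)
      rw [← h2, ← whermQ, ← whermQ] at h3
      have h4 := abs_le.1 (abs_sub_round (μ fun j => (U' i j : ℝ)))
      have h5 : (-(round (μ fun j => (U' i j : ℝ)) : ℝ) + μ fun j => (U' i j : ℝ)) ^ 2 ≤ 1 / 4 := by
        nlinarith [h4.1, h4.2]
      have h6 := mul_le_mul_of_nonneg_left h5 h00.le
      exact ⟨by linarith, by linarith⟩
    refine ⟨U * V, by rw [det_mul]; exact hU.mul hV, ?_⟩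
    simp only [← wherm_mul, ← hG₀]
    rw [Fin.prod_univ_succ, e0, ← hdet, hd']
    have h7 : ∏ i : Fin d, whermQ G₀ (U i.succ) ≤ 2 ^ d * (C * G'.det) := by
      refine (Finset.prod_le_prod (fun i _ => (e1 i).1) fun i _ => (e1 i).2).trans ?_
      rw [Finset.prod_mul_distrib, Finset.prod_const, Finset.card_univ, Fintype.card_fin]
      gcongr
    exact (mul_le_mul_of_nonneg_left h7 h00.le).trans (le_of_eq (by ring))

/-- Hermite reduction -/
theorem hermite (d : ℕ) : ∃ C : ℝ, 1 ≤ C ∧ ∀ G : Matrix (Fin d) (Fin d) ℝ, G.PosDef →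
    ∃ U : Matrix (Fin d) (Fin d) ℤ, IsUnit U.det ∧
      (∏ i, (U.map (Int.cast : ℤ → ℝ) * G * (U.map (Int.cast : ℤ → ℝ))ᵀ) i i ≤ C * G.det) ∧
      Monotone fun i => (U.map (Int.cast : ℤ → ℝ) * G * (U.map (Int.cast : ℤ → ℝ))ᵀ) i i := by
  obtain ⟨C, hC, h⟩ := wherm_main d
  refine ⟨C, hC, fun G hG => ?_⟩
  obtain ⟨U, hU, hp⟩ := h G hG
  let σ := Tuple.sort fun i => whermQ G (U i)
  refine ⟨U.submatrix σ id, wherm_perm hU σ, ?_, ?_⟩
  · simp only [wherm_diag]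
    exact (Equiv.prod_comp σ fun i => whermQ G (U i)).le.trans hp
  · simp only [wherm_diag]
    exact Tuple.monotone_sort fun i => whermQ G (U i)

end Pool.Agent.VW
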