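import Pool.Agent.P.MP_b0ea37_nt.WSym
import Pool.Agent.P.MP_b0ea37_nt.WPack
import Pool.Agent.P.MP_b0ea37_nt.WHerm
import Pool.Agent.P.MP_b0ea37_nt.WFMin
import Pool.Agent.P.MP_b0ea37_nt.WFCnt

namespace Pool.Agent.VW

open Polynomial

/-- an irrational integer of a primitive field has distinct conjugates -/
theorem Prim.inj {n : ℕ} (hn : 0 < n) {f : ℤ[X]} (hm : f.Monic) (hd : f.natDegree = n) (hi : Irr f)
    (hp : Prim f) {θ α : Fin n → ℂ} (hθ : Roots (up ℂ f) θ) (h1 : InK θ α) (h2 : Intg α)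
    (h3 : ¬ ∃ t : ℤ, ∀ j, α j = t) : Function.Injective α := by
  obtain ⟨u, hu⟩ := h1
  have hz : ∀ i, aeval (θ i) f = 0 := fun i => by
    rw [← eval_map_algebraMap, algebraMap_int_eq]
    exact (hθ.eval_eq_zero_iff _).2 ⟨i, rfl⟩
  have hz' : ∀ i, aeval (θ i) (up ℚ f) = 0 := fun i => by
    rw [up, ← algebraMap_int_eq, aeval_map_algebraMap, hz]
  have h4 : ∀ i, aeval (θ i) (u %ₘ up ℚ f) = α i := fun i => by
    rw [aeval_modByMonic_eq_self_of_root (hz' i), hu]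
  have h5 : (u %ₘ up ℚ f).natDegree < f.natDegree := by
    have := natDegree_modByMonic_lt u (hm.map (Int.castRingHom ℚ)) hi.ne_one
    rwa [hm.natDegree_map] at this
  have h6 : 0 < (u %ₘ up ℚ f).natDegree := by
    by_contra h0
    rw [eq_C_of_natDegree_eq_zero (Nat.eq_zero_of_not_pos h0)] at h4
    simp only [aeval_C] at h4
    have h7 := h2 ⟨0, hn⟩
    rw [← h4] at h7
    obtain ⟨z, hz⟩ := IsIntegrallyClosed.isIntegral_iff.1
      ((isIntegral_algebraMap_iff (algebraMap ℚ ℂ).injective).1 h7)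
    exact h3 ⟨z, fun j => by rw [← h4, ← hz]; simp⟩
  exact fun i j h => hθ.injective hi (hp _ h6 h5 _ _ (hz i) (hz j) (by rw [h4, h4, h]))

/-- a generator of least size with reduced trace -/
theorem fld_gen {l : ℕ} {f : ℤ[X]} (hm : f.Monic) (hd : f.natDegree = l + 1) (hi : Irr f)
    (hp : Prim f) {θ : Fin (l + 1) → ℂ} (hθ : Roots (up ℂ f) θ) {ρ : ℝ} (h1 : 1 ≤ ρ)
    (h : ∃ β, InK θ β ∧ Intg β ∧ (¬ ∃ t : ℤ, ∀ j, β j = t) ∧ ∀ j, ‖β j‖ ≤ ρ) :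
    ∃ k : ℕ, (2 : ℝ) ^ k ≤ 2 * ρ ∧ ∃ α : Fin (l + 1) → ℂ,
      (Cj α ∧ Intg α ∧ (∀ j, ‖α j‖ ≤ 3 * 2 ^ k) ∧ ‖∑ j, α j‖ ≤ l + 1) ∧
      NoSmall α (2 ^ k) ∧ InK α θ := by
  classical
  have hcj := hi.cj hθ
  obtain ⟨k₀, h2, h3⟩ := exists_dyadic ρ h1
  have h4 : ∃ β, InK θ β ∧ Intg β ∧ (¬ ∃ t : ℤ, ∀ j, β j = t) ∧ ∀ j, ‖β j‖ ≤ 2 ^ (k₀ + 1) := by
    obtain ⟨β, a, b, c, d⟩ := h
    exact ⟨β, a, b, c, fun j => (d j).trans (by rw [pow_succ]; linarith)⟩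
  have hex : ∃ k : ℕ, ∃ β, InK θ β ∧ Intg β ∧ (¬ ∃ t : ℤ, ∀ j, β j = t) ∧ ∀ j, ‖β j‖ ≤ 2 ^ k :=
    ⟨_, h4⟩
  have h5 := Nat.find_min' hex h4
  obtain ⟨β, hb1, hb2, hb3, hb4⟩ := Nat.find_spec hex
  have h6 := fun m => Nat.find_min hex (m := m)
  generalize Nat.find hex = k at h5 hb4 h6
  have hR : (1 : ℝ) ≤ 2 ^ k := one_le_pow₀ one_le_two
  have hno : NoSmall θ (2 ^ k) := by
    intro γ g1 g2 g3
    by_contra g4
    rcases k with _ | k
    · refine g4 ⟨0, fun i => ?_⟩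
      by_contra g5
      obtain ⟨j, hj⟩ := hcj.one_le g1 g2 (i := i) (by simpa using g5)
      have := g3 j
      norm_num at this
      linarith
    · exact h6 k (by omega) ⟨γ, g1, g2, g4, fun j => (g3 j).trans (by rw [pow_succ]; linarith)⟩
  obtain ⟨g, -, -, hg⟩ := hcj.char_int hb1 hb2
  obtain ⟨T, hT⟩ : ∃ T : ℤ, (T : ℂ) = ∑ j, β j := by
    have h7 := prod_X_sub_C_coeff_card_pred Finset.univ β (by simp)
    rw [← show up ℂ g = _ from hg, coeff_map, eq_intCast] at h7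
    exact ⟨-_, by rw [Int.cast_neg, h7, neg_neg]⟩
  have hl : (0 : ℤ) < l + 1 := by positivity
  have hT1 : |(T : ℝ)| ≤ (l + 1) * 2 ^ k := by
    rw [← Complex.norm_intCast, hT]
    exact (norm_sum_le _ _).trans ((Finset.sum_le_sum fun j _ => hb4 j).trans (by simp))
  have e1 : ((T % (l + 1) : ℤ) : ℝ) + (l + 1) * ((T / (l + 1) : ℤ) : ℝ) = T := by
    exact_mod_cast Int.emod_add_mul_ediv T (l + 1)
  have e2 : (0 : ℝ) ≤ ((T % (l + 1) : ℤ) : ℝ) := by exact_mod_cast Int.emod_nonneg T hl.ne'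
  have e3 : ((T % (l + 1) : ℤ) : ℝ) ≤ l + 1 := by exact_mod_cast (Int.emod_lt_of_pos T hl).le
  have e4 : |((T / (l + 1) : ℤ) : ℝ)| ≤ 2 * 2 ^ k := by
    have hl' : (0 : ℝ) < l + 1 := by positivity
    obtain ⟨a, b⟩ := abs_le.1 hT1
    rw [abs_le]
    constructor <;> refine le_of_mul_le_mul_left ?_ hl' <;> nlinarith
  have a1 := hb1.sub (InK.const θ (T / (l + 1)))
  have a2 := hb2.sub (Intg.const _ (T / (l + 1)))
  obtain ⟨a3, a4⟩ := hcj.gen_of_inj a1 (by omega) (hp.inj (by omega) hm hd hi hθ a1 a2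
    fun ⟨t, ht⟩ => hb3 ⟨t + T / (l + 1), fun j => by rw [Int.cast_add, ← ht j]; simp⟩)
  refine ⟨k, ?_, _, ⟨a3, a2, fun j => ?_, ?_⟩, fun γ g1 => hno γ (a1.trans g1), a4⟩
  · refine (pow_le_pow_right₀ one_le_two h5).trans ?_
    rw [pow_succ]
    linarith
  · refine (norm_sub_le _ _).trans ?_
    rw [Complex.norm_intCast]
    linarith [hb4 j]
  · have e5 : ∑ j, (β j - ((T / (l + 1) : ℤ) : ℂ)) = ((T % (l + 1) : ℤ) : ℂ) := by
      rw [Finset.sum_sub_distrib, ← hT, Int.emod_def]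
      simp
    rw [e5, Complex.norm_intCast, abs_of_nonneg e2]
    exact e3

theorem fld_exp {l : ℕ} (hl : 4 ≤ l) {E : ℕ} (hE : 2 * (E + 1) = l * (l + 3)) :
    0 < cF (l + 1) / l ∧ cF (l + 1) / l ≤ 1 ∧ cF (l + 1) / l * (E + 2) ≤ l - 1 / 25 ∧
      1 + cF (l + 1) / l * E ≤ l - 1 / 25 := by
  have h1 : (2 : ℝ) * (E + 1) = l * (l + 3) := by exact_mod_cast hE
  have h2 : (4 : ℝ) ≤ l := by exact_mod_cast hl
  have h3 : (0 : ℝ) < l := by linarith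
  rw [div_mul_eq_mul_div, div_mul_eq_mul_div, div_le_iff₀ h3, div_le_iff₀ h3, ← le_sub_iff_add_le',
    div_le_iff₀ h3]
  unfold cF
  split_ifs with h
  · obtain rfl : l = 4 := by omega
    obtain rfl : E = 13 := by omega
    norm_num
  · have h4 : (5 : ℝ) ≤ l := by exact_mod_cast (by omega : 5 ≤ l)
    refine ⟨by positivity, by linarith, by nlinarith, by nlinarith⟩

/-- section 4 -/
theorem ps_field (n : ℕ) (hn : 5 ≤ n) : PS n fun H f => Irr f ∧ Prim f ∧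
    ∃ (P : ℕ) (r : ℤ), H ^ ((n : ℝ) - 1 - cF n) ≤ P ∧ Wk P r f := by
  obtain ⟨l, rfl⟩ : ∃ l, n = l + 1 := ⟨n - 1, by omega⟩
  have hl : 4 ≤ l := by omega
  obtain ⟨E, hE⟩ : ∃ E, ∑ i ∈ Finset.range l, (l + 1 - i) = E + 1 := by
    have := sum_exp l
    exact Nat.exists_eq_succ_of_ne_zero fun h => by rw [h] at this; nlinarith
  obtain ⟨x0, x1, x2, x3⟩ := fld_exp hl (hE ▸ sum_exp l)
  set x := cF (l + 1) / l with hx
  obtain ⟨D, hD, hDv⟩ := abs_Dv_le (l + 1)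
  obtain ⟨C₁, hC₁, h₁⟩ := cnt_dyadic (1 / 100) (by norm_num)
  obtain ⟨C₂, hC₂, h₂⟩ := cnt_char l
  obtain ⟨C₃, hC₃, h₃⟩ := cnt_fld (l + 1) (by omega) (1 / 100) (by norm_num)
  rw [hE] at h₂
  refine PS.of_lt ((l : ℝ) - 1 / 50) (C₁ * (10 * D) * (C₂ * 3 ^ (E + 1) * (C₃ * (l + 2)) *
    ((10 * D) ^ (E + 2) + (l + 2) * (10 * D) ^ E))) 1 (by push_cast; linarith) fun H hH => ?_
  have hH0 : 0 < H := by linarith
  have hHx : 1 ≤ H ^ x := Real.one_le_rpow hH x0.le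
  have hρ : 1 ≤ 5 * D * H ^ x := one_le_mul_of_one_le_of_one_le (by linarith) hHx
  have hl0 : (0 : ℝ) ≤ l := Nat.cast_nonneg l
  have hZ : 1 ≤ ((l : ℝ) + 2) * H := one_le_mul_of_one_le_of_one_le (by linarith) hH
  have hs : ∀ a y : ℝ, 1 ≤ a → 0 ≤ y → y ≤ H → (a * y) ^ (1 / 100 : ℝ) ≤ a * H ^ (1 / 100 : ℝ) := by
    intro a y ha hy hyH
    rw [Real.mul_rpow (by linarith) hy]
    refine mul_le_mul ?_ (Real.rpow_le_rpow hy hyH (by norm_num)) (by positivity) (by linarith)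
    simpa using Real.rpow_le_rpow_of_exponent_le ha (by norm_num : (1 / 100 : ℝ) ≤ 1)
  have hxH : H ^ x ≤ H := by simpa using Real.rpow_le_rpow_of_exponent_le hH x1
  have key : ∀ k : ℕ, (2 : ℝ) ^ k ≤ 10 * D * H ^ x → Cnt (fun θ : Fin (l + 1) → ℂ =>
      ∃ α : Fin (l + 1) → ℂ, (Cj α ∧ Intg α ∧ (∀ j, ‖α j‖ ≤ 3 * 2 ^ k) ∧ ‖∑ j, α j‖ ≤ l + 1) ∧
        Cj α ∧ NoSmall α (2 ^ k) ∧ InK α θ ∧ Intg θ ∧ ∏ i, max 1 ‖θ i‖ ≤ (l + 2) * H)
      (C₂ * 3 ^ (E + 1) * (C₃ * (l + 2)) * ((10 * D) ^ (E + 2) + (l + 2) * (10 * D) ^ E) *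
        (H ^ (1 / 100 : ℝ) * H ^ ((l : ℝ) - 1 / 25))) := by
    intro k hk
    have hR : (1 : ℝ) ≤ 2 ^ k := one_le_pow₀ one_le_two
    refine ((h₂ (3 * 2 ^ k) (by linarith)).fibre (by positivity) fun α _ =>
      h₃ _ (2 ^ k) hZ hR α).mono (fun _ h => h) ?_
    generalize (2 : ℝ) ^ k = R at hk hR
    have b1 : R ^ (E + 2) ≤ (10 * D) ^ (E + 2) * H ^ ((l : ℝ) - 1 / 25) := by
      refine (pow_le_pow_left₀ (by linarith) hk _).trans ?_
      rw [mul_pow _ (H ^ x), ← Real.rpow_natCast (H ^ x), ← Real.rpow_mul hH0.le]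
      exact mul_le_mul_of_nonneg_left
        (Real.rpow_le_rpow_of_exponent_le hH (by push_cast; exact x2)) (by positivity)
    have b2 : H * R ^ E ≤ (10 * D) ^ E * H ^ ((l : ℝ) - 1 / 25) := by
      refine (mul_le_mul_of_nonneg_left (pow_le_pow_left₀ (by linarith) hk _) hH0.le).trans ?_
      rw [mul_pow _ (H ^ x), ← Real.rpow_natCast (H ^ x), ← Real.rpow_mul hH0.le, mul_left_comm]
      refine mul_le_mul_of_nonneg_left ?_ (by positivity)
      refine le_trans (le_of_eq ?_) (Real.rpow_le_rpow_of_exponent_le hH x3)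
      rw [Real.rpow_add hH0, Real.rpow_one]
    have b3 := hs (l + 2) H (by linarith) hH0.le le_rfl
    calc _ = C₂ * 3 ^ (E + 1) * (C₃ * ((l + 2) * H) ^ (1 / 100 : ℝ)) *
          (R ^ (E + 2) + (l + 2) * (H * R ^ E)) := by
          have : R ≠ 0 := by linarith
          field_simp
          ring
      _ ≤ C₂ * 3 ^ (E + 1) * (C₃ * ((l + 2) * H ^ (1 / 100 : ℝ))) *
          ((10 * D) ^ (E + 2) * H ^ ((l : ℝ) - 1 / 25) +
            (l + 2) * ((10 * D) ^ E * H ^ ((l : ℝ) - 1 / 25))) := by gcongr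
      _ = _ := by ring
  refine (((h₁ (10 * D * H ^ x) (by linarith)).fibre (by positivity) key).rel
    (fun f θ => Roots (up ℂ f) θ) ?_ fun f g θ _ _ h h' =>
      map_injective _ (Int.castRingHom ℂ).injective_int (Eq.trans h (Eq.symm h'))).mono
    (fun _ h => h) ?_
  · rintro f ⟨⟨hm, hd, -, hf⟩, hi, hp, P, r, hP, hw⟩
    obtain ⟨θ, hθ⟩ := exists_roots (n := l + 1) (up ℂ f) (hm.map _) (by rw [hm.natDegree_map, hd])
    have hP0 : (0 : ℝ) < P := (Real.rpow_pos_of_pos hH0 _).trans_le hP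
    obtain ⟨k, hk, α, a1, a2, a3⟩ := fld_gen hm hd hi hp hθ hρ
      (fld_small (by omega) hm hd hi hθ (by exact_mod_cast hP0) hw _ hρ (by
        have c1 : |((Dv (l + 1) f : ℤ) : ℝ)| ≤ D * (H ^ l) ^ 2 := by
          refine (hDv f hm hd).trans (mul_le_mul_of_nonneg_left ?_ (by linarith))
          rw [← pow_mul, show 2 * (l + 1) - 2 = l * 2 by omega]
          exact pow_le_pow_left₀ (supNorm_nonneg _) hf _
        have c2 : 5 * D * H ^ l ≤ P * (5 * D * H ^ x) ^ l := by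
          have c3 : H ^ l = H ^ (((l + 1 : ℕ) : ℝ) - 1 - cF (l + 1)) * (H ^ x) ^ l := by
            rw [← Real.rpow_natCast (H ^ x), ← Real.rpow_mul hH0.le, ← Real.rpow_add hH0, hx,
              div_mul_cancel₀ _ (by positivity : (l : ℝ) ≠ 0), ← Real.rpow_natCast]
            push_cast
            ring_nf
          have c4 : 5 * D ≤ (5 * D) ^ l := le_self_pow₀ (by linarith) (by omega)
          rw [c3, mul_pow _ (H ^ x), mul_left_comm]
          gcongr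
        have c5 : 0 < H ^ l := by positivity
        have c6 := pow_le_pow_left₀ (by positivity) c2 2
        have c7 : 0 < (H ^ l) ^ 2 := by positivity
        nlinarith [mul_pos (by nlinarith : 0 < 25 * D ^ 2 - 4 * D) c7]))
    refine ⟨θ, ⟨k, by linarith, α, a1, a1.1, a2, a3, hθ.intg hm, hθ.prod_max_le.trans ?_⟩, hθ⟩
    push_cast
    rw [add_assoc, one_add_one_eq_two]
    exact mul_le_mul_of_nonneg_left hf (by linarith)
  · have b1 := hs (10 * D) (H ^ x) (by linarith) (by linarith) hxH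
    have b2 : H ^ ((l : ℝ) - 1 / 50) =
        H ^ (1 / 100 : ℝ) * (H ^ (1 / 100 : ℝ) * H ^ ((l : ℝ) - 1 / 25)) := by
      rw [← Real.rpow_add hH0, ← Real.rpow_add hH0]
      ring_nf
    calc _ ≤ C₁ * (10 * D * H ^ (1 / 100 : ℝ)) * _ := by gcongr
      _ = _ := by rw [b2]; ring

end Pool.Agent.VW
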