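import Pool.Agent.P.MP_b0ea37_nt.WHt

namespace Pool.Agent.VW

open Polynomial Finset

/-- the Galois group acting on the numbered roots -/
theorem gal_roots {F : Type} [Field F] {n : ℕ} (f : F[X]) (hirr : Irreducible f)
    (hsep : f.Separable) (hdeg : f.natDegree = n) :
    ∃ (r : Fin n → f.SplittingField) (φ : f.Gal →* Equiv.Perm (Fin n)),
      Function.Injective r ∧ (∀ i, aeval (r i) f = 0) ∧ Function.Injective φ ∧
      (∀ (g : f.Gal) (i : Fin n), r (φ g i) = g (r i)) ∧ (∀ x y, ∃ g, φ g x = y) ∧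
      IsGalois F f.SplittingField ∧ FiniteDimensional F f.SplittingField := by
  classical
  have hcard : Fintype.card (f.rootSet f.SplittingField) = n := by
    rw [card_rootSet_eq_natDegree hsep (SplittingField.splits f), hdeg]
  let ε : f.rootSet f.SplittingField ≃ Fin n := Fintype.equivFinOfCardEq hcard
  let r : Fin n → f.SplittingField := fun i => (ε.symm i).1
  have hr : Function.Injective r := fun i j h => ε.symm.injective (Subtype.ext h)
  let φ0 : f.Gal →* Equiv.Perm (f.rootSet f.SplittingField) :=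
    @MulAction.toPermHom _ _ _ (Gal.galActionAux f)
  have hφ0 : ∀ (g : f.Gal) (x : f.rootSet f.SplittingField), (φ0 g x).1 = g x.1 :=
    fun g x => rfl
  let φ : f.Gal →* Equiv.Perm (Fin n) := (ε.permCongrHom.toMonoidHom).comp φ0
  have hφ : ∀ (g : f.Gal) (i : Fin n), r (φ g i) = g (r i) := by
    intro g i
    have h1 : φ g i = ε (φ0 g (ε.symm i)) := rfl
    simp only [r, h1, Equiv.symm_apply_apply, hφ0]
  have hinj : Function.Injective φ := by
    intro g h hgh
    refine Gal.ext f fun x hx => ?_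
    have h1 := hφ g (ε ⟨x, hx⟩)
    have h2 := hφ h (ε ⟨x, hx⟩)
    rw [hgh, h2] at h1
    simpa only [r, Equiv.symm_apply_apply] using h1.symm
  have hroot : ∀ i, aeval (r i) f = 0 := fun i => (mem_rootSet.mp (ε.symm i).2).2
  refine ⟨r, φ, hr, hroot, hinj, hφ, fun x y => ?_,
    IsGalois.of_separable_splitting_field hsep, inferInstance⟩
  have hx := minpoly.eq_of_irreducible hirr (hroot x)
  have hy := minpoly.eq_of_irreducible hirr (hroot y)
  obtain ⟨g, hg⟩ := (Normal.minpoly_eq_iff_mem_orbit f.SplittingField).mp (hy.symm.trans hx)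
  exact ⟨g, hr ((hφ g x).trans hg)⟩

/-- no intermediate field gives a primitive action -/
theorem gal_prim {F K : Type} [Field F] [Field K] [Algebra F K] [FiniteDimensional F K]
    [IsGalois F K] {n : ℕ} (r : Fin n → K) (hr : Function.Injective r)
    (φ : (K ≃ₐ[F] K) →* Equiv.Perm (Fin n)) (hφ : ∀ g i, r (φ g i) = g (r i))
    (htr : ∀ x y, ∃ g, φ g x = y) (hdeg : ∀ i, (minpoly F (r i)).natDegree ≤ n)
    (hp : ∀ q : F[X], 0 < q.natDegree → q.natDegree < n → ∀ i j,
      aeval (r i) q = aeval (r j) q → i = j) :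
    MulAction.IsPreprimitive φ.range (Fin n) := by
  have : MulAction.IsPretransitive φ.range (Fin n) := ⟨fun x y => by
    obtain ⟨g, hg⟩ := htr x y
    exact ⟨⟨φ g, g, rfl⟩, hg⟩⟩
  refine ⟨fun {B} hB => ?_⟩
  rw [MulAction.IsTrivialBlock, or_iff_not_imp_left]
  intro hB2
  obtain ⟨a, ha, b, hb, hab⟩ := Set.not_subsingleton_iff.1 hB2
  have key : ∀ g : K ≃ₐ[F] K, φ g a ∈ B → ∀ i, i ∈ B → φ g i ∈ B := by
    intro g hg i hi
    have h1 := hB.smul_eq_of_mem (g := (⟨φ g, g, rfl⟩ : φ.range)) ha hg
    rw [← h1]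
    exact Set.smul_mem_smul_set hi
  let H : Subgroup (K ≃ₐ[F] K) :=
    { carrier := {g | φ g a ∈ B}
      one_mem' := by simpa using ha
      mul_mem' := fun {g h} hg hh => by
        simpa using key g hg _ hh
      inv_mem' := fun {g} hg => by
        have h1 := hB.smul_eq_of_mem (g := (⟨φ g, g, rfl⟩ : φ.range)) ha hg
        have h2 := ha
        rw [← h1] at h2
        obtain ⟨c, hc, h3⟩ := h2
        have h4 : φ g c = a := h3
        have h5 : φ g⁻¹ a = c := by rw [← h4, map_inv]; simp
        show φ g⁻¹ a ∈ B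
        rwa [h5] }
  have hH : IntermediateField.fixedField H = ⊥ := by
    rw [eq_bot_iff]
    intro β hβ
    rw [IntermediateField.mem_fixedField_iff] at hβ
    have h1 : β ∈ IntermediateField.adjoin F {r a} := by
      rw [← IsGalois.fixedField_fixingSubgroup (IntermediateField.adjoin F {r a}),
        IntermediateField.mem_fixedField_iff]
      intro g hg
      apply hβ
      have h2 := (IntermediateField.mem_fixingSubgroup_iff _ _).1 hg _
        (IntermediateField.mem_adjoin_simple_self F (r a))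
      have h3 : φ g a = a := hr ((hφ g a).trans h2)
      show φ g a ∈ B
      rwa [h3]
    have hint : IsIntegral F (r a) := IsIntegral.of_finite F _
    have h2 : β ∈ (IntermediateField.adjoin F {r a}).toSubalgebra := h1
    rw [IntermediateField.adjoin_simple_toSubalgebra_of_isAlgebraic hint.isAlgebraic,
      Algebra.adjoin_singleton_eq_range_aeval] at h2
    obtain ⟨q0, hq0⟩ := h2
    have h3 : aeval (r a) (q0 %ₘ minpoly F (r a)) = β := by
      rw [aeval_modByMonic_eq_self_of_root (minpoly.aeval F _)]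
      exact hq0
    have h4 : (q0 %ₘ minpoly F (r a)).natDegree < n :=
      (natDegree_modByMonic_lt q0 (minpoly.monic hint) (minpoly.ne_one F _)).trans_le (hdeg a)
    obtain ⟨g, hg⟩ := htr a b
    have h5 : g β = β := hβ g (show φ g a ∈ B by rwa [hg])
    by_cases h0 : 0 < (q0 %ₘ minpoly F (r a)).natDegree
    · refine absurd (hp _ h0 h4 a b ?_) hab
      rw [← hg, hφ, aeval_algHom_apply, h3, h5]
    · rw [eq_C_of_natDegree_eq_zero (Nat.eq_zero_of_not_pos h0), aeval_C] at h3
      exact IntermediateField.mem_bot.2 ⟨_, h3⟩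
  have hT : H = ⊤ := by
    rw [← IntermediateField.fixingSubgroup_fixedField H, hH, IntermediateField.fixingSubgroup_bot]
  rw [Set.eq_univ_iff_forall]
  intro i
  obtain ⟨g, hg⟩ := htr a i
  have h1 : g ∈ H := hT ▸ Subgroup.mem_top g
  rw [← hg]
  exact h1

end Pool.Agent.VW
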