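import Pool.Agent.P.MP_b0ea37_nt.WSym

namespace Pool.Agent.VW

open Polynomial Finset

/-- valuation of an integer at a prime ideal that contains `p` exactly once -/
theorem gal_val {O : Type} [CommRing O] [IsDedekindDomain O] (Q : Ideal O) [hQ : Q.IsPrime]
    (hne : Q ≠ ⊥) {p : ℕ} (hp : p.Prime) (hmem : ∀ m : ℤ, (m : O) ∈ Q ↔ (p : ℤ) ∣ m)
    (h2 : (p : O) ∉ Q ^ 2) {m : ℤ} (hm : m ≠ 0) :
    emultiplicity Q (Ideal.span {(m : O)}) = padicValInt p m := by
  have : Fact p.Prime := ⟨hp⟩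
  have hP : Prime Q := Ideal.prime_of_isPrime hne hQ
  have h1 : emultiplicity Q (Ideal.span {(p : O)}) = (1 : ℕ) := by
    rw [emultiplicity_eq_coe]
    refine ⟨?_, ?_⟩
    · rw [pow_one, Ideal.dvd_span_singleton]
      simpa using (hmem p).2 dvd_rfl
    · rw [Ideal.dvd_span_singleton]
      exact h2
  have hfin : FiniteMultiplicity (p : ℤ) m :=
    Int.finiteMultiplicity_iff.2 ⟨by simpa using hp.ne_one, hm⟩
  obtain ⟨c, hc, hpc⟩ := hfin.exists_eq_pow_mul_and_not_dvd
  rw [← padicValInt.of_ne_one_ne_zero hp.ne_one hm] at hc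
  have h0 : emultiplicity Q (Ideal.span {(c : O)}) = 0 := by
    rw [emultiplicity_eq_zero, Ideal.dvd_span_singleton, hmem]
    exact hpc
  have h3 : (m : O) = (p : O) ^ padicValInt p m * (c : O) := by
    have := congrArg (Int.cast : ℤ → O) hc
    simpa using this
  rw [h3, ← Ideal.span_singleton_mul_span_singleton, ← Ideal.span_singleton_pow,
    emultiplicity_mul hP, emultiplicity_pow hP, h1, h0]
  simp

/-- the double root of an integer polynomial in characteristic `p` is an integer class -/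
theorem gal_int_root {k : Type} [Field k] {p : ℕ} [Fact p.Prime] [CharP k p] {n : ℕ} {f : ℤ[X]}
    {u : Fin n → k} (hf : up k f = ∏ i, (X - C (u i))) {a b : Fin n} (hab : a ≠ b)
    (hu : u a = u b) (hinj : ∀ j l, j ≠ a → l ≠ a → u j = u l → j = l) :
    (derivative (up k f)).eval (u a) = 0 ∧ ∃ r : ℤ, (r : k) = u a := by
  have hder : ∀ j, (derivative (up k f)).eval (u j) = ∏ l ∈ univ.erase j, (u j - u l) := by
    intro j
    rw [hf, ← Lagrange.nodal_eq, Lagrange.eval_nodal_derivative_eval_node_eq (mem_univ j),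
      Lagrange.eval_nodal]
  have hda : (derivative (up k f)).eval (u a) = 0 := by
    rw [hder]
    exact prod_eq_zero (mem_erase.2 ⟨hab.symm, mem_univ b⟩) (sub_eq_zero.2 hu)
  refine ⟨hda, ?_⟩
  have hfr : ∀ (g : ℤ[X]) (x : k), (up k g).eval (x ^ p) = ((up k g).eval x) ^ p := by
    intro g x
    have h1 := Polynomial.hom_eval₂ g (Int.castRingHom k) (frobenius k p) x
    rw [RingHom.ext_int ((frobenius k p).comp (Int.castRingHom k)) (Int.castRingHom k),
      frobenius_def, frobenius_def] at h1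
    rw [eval_map, eval_map, h1]
  have hp0 : p ≠ 0 := (Fact.out : p.Prime).ne_zero
  have h1 : (up k f).eval (u a ^ p) = 0 := by
    rw [hfr, hf, eval_prod, prod_eq_zero (mem_univ a) (by simp), zero_pow hp0]
  have h2 : (derivative (up k f)).eval (u a ^ p) = 0 := by
    rw [derivative_map] at hda ⊢
    rw [hfr, hda, zero_pow hp0]
  rw [hf, eval_prod, prod_eq_zero_iff] at h1
  obtain ⟨j, -, hj⟩ := h1
  have hj' : u a ^ p = u j := by simpa [sub_eq_zero] using hj
  have h3 : u a ^ p = u a := by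
    by_cases hja : j = a
    · rw [hj', hja]
    by_cases hjb : j = b
    · rw [hj', hjb, hu]
    rw [hj', hder, prod_eq_zero_iff] at h2
    obtain ⟨l, hl, h4⟩ := h2
    have h5 : u j = u l := sub_eq_zero.1 h4
    by_cases hla : l = a
    · rw [hla, hu] at h5
      exact absurd (hinj j b hja hab.symm h5) hjb
    · exact absurd (hinj j l hja hla h5).symm (mem_erase.1 hl).1
  exact (mem_bot_iff_intCast p k).1 ((Subfield.mem_bot_iff_pow_eq_self k p).2 h3)

/-- one collision of roots -/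
theorem gal_pair {k : Type} [Field k] {n : ℕ} {u : Fin n → k}
    (hD : Dv n (∏ i, (X - C (u i))) = 0) (hP : Phi n 0 (∏ i, (X - C (u i))) ≠ 0) :
    ∃ a b, a ≠ b ∧ u a = u b ∧ ∀ j l, j ≠ a → l ≠ a → u j = u l → j = l := by
  rw [Dv_eq_zero_iff] at hD
  rw [Phi_roots] at hP
  obtain ⟨i, -, hi⟩ := exists_ne_zero_of_sum_ne_zero hP
  have hinj : ∀ j l, j ≠ i → l ≠ i → u j = u l → j = l := by
    intro j l hj hl h
    by_contra hjl
    apply hi
    rw [prod_eq_zero (mem_erase.2 ⟨hj, mem_univ j⟩), mul_zero]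
    exact prod_eq_zero (mem_erase.2 ⟨fun e => hjl e.symm, mem_erase.2 ⟨hl, mem_univ l⟩⟩)
      (sub_eq_zero.2 h)
  obtain ⟨a, b, hab, hne⟩ := Function.not_injective_iff.1 hD
  by_cases ha : a = i
  · exact ⟨a, b, hne, hab, ha ▸ hinj⟩
  by_cases hb : b = i
  · exact ⟨b, a, fun e => hne e.symm, hab.symm, hb ▸ hinj⟩
  exact absurd (hinj a b ha hb hab) hne

/-- the conclusion from a prime ideal that contains `p` exactly once -/
theorem gal_weak {O : Type} [CommRing O] [IsDedekindDomain O] [CharZero O] (Q : Ideal O)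
    [hQ : Q.IsMaximal] (hne : Q ≠ ⊥) {p : ℕ} (hp : p.Prime)
    (hmem : ∀ m : ℤ, (m : O) ∈ Q ↔ (p : ℤ) ∣ m) (h2 : (p : O) ∉ Q ^ 2) {n : ℕ} {f : ℤ[X]}
    {ρ : Fin n → O} (hf : up O f = ∏ i, (X - C (ρ i))) (hD : Dv n f ≠ 0) {a b : Fin n}
    (hab : a ≠ b) (hu : ρ a - ρ b ∈ Q)
    (hinj : ∀ j l, j ≠ a → l ≠ a → ρ j - ρ l ∈ Q → j = l) :
    Weak p f ∧ Even (padicValInt p (Dv n f)) := by
  have : Fact p.Prime := ⟨hp⟩
  have hP : Prime Q := Ideal.prime_of_isPrime hne hQ.isPrime
  let : Field (O ⧸ Q) := Ideal.Quotient.field Q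
  have : CharP (O ⧸ Q) p := by
    refine (CharP.charP_iff_prime_eq_zero hp).2 ?_
    rw [← map_natCast (Ideal.Quotient.mk Q)]
    exact Ideal.Quotient.eq_zero_iff_mem.2 (by simpa using (hmem p).2 dvd_rfl)
  have hk : up (O ⧸ Q) f = ∏ i, (X - C (Ideal.Quotient.mk Q (ρ i))) := by
    have h1 : Int.castRingHom (O ⧸ Q) = (Ideal.Quotient.mk Q).comp (Int.castRingHom O) :=
      RingHom.ext_int _ _
    rw [up, h1, ← Polynomial.map_map, show f.map (Int.castRingHom O) = _ from hf,
      Polynomial.map_prod]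
    refine prod_congr rfl fun i _ => ?_
    rw [Polynomial.map_sub, map_X, map_C]
  obtain ⟨hd, r, hr⟩ := gal_int_root (p := p) hk hab (Ideal.Quotient.eq.2 hu)
    fun j l hj hl h => hinj j l hj hl (Ideal.Quotient.eq.1 h)
  have hra : (r : O) - ρ a ∈ Q := Ideal.Quotient.eq.1 (by rw [← hr, map_intCast])
  have hrb : (r : O) - ρ b ∈ Q := by simpa using Q.add_mem hra hu
  have hev : ∀ (R : Type) [CommRing R] (g : ℤ[X]), (up R g).eval (r : R) = ((g.eval r : ℤ) : R) :=
    fun R _ g => eval_intCast_map (Int.castRingHom R) g r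
  have hba : b ∈ univ.erase a := mem_erase.2 ⟨hab.symm, mem_univ b⟩
  refine ⟨⟨r, ?_, ?_⟩, ?_⟩
  · by_cases h0 : f.eval r = 0
    · rw [h0]; exact dvd_zero _
    have h3 : ((f.eval r : ℤ) : O) ∈ Q ^ 2 := by
      rw [← hev, hf, eval_prod, ← mul_prod_erase _ _ (mem_univ a), ← mul_prod_erase _ _ hba,
        ← mul_assoc, sq]
      exact Ideal.mul_mem_right _ _ (Ideal.mul_mem_mul (by simpa using hra) (by simpa using hrb))
    have h4 := (pow_dvd_iff_le_emultiplicity).1 (Ideal.dvd_span_singleton.2 h3)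
    rw [gal_val Q hne hp hmem h2 h0] at h4
    exact (padicValInt_dvd_iff 2 _).2 (Or.inr (by exact_mod_cast h4))
  · rw [← hr, derivative_map, hev] at hd
    exact (CharP.intCast_eq_zero_iff _ p _).1 hd
  · have hnot : ∀ j l, j ≠ l → ¬ (j = a ∧ l = b) → ¬ (j = b ∧ l = a) → ρ j - ρ l ∉ Q := by
      intro j l hjl h3 h4 h
      by_cases hj : j = a
      · have hl : l ≠ a := fun e => hjl (hj.trans e.symm)
        have h5 : ρ b - ρ l ∈ Q := by simpa [hj] using Q.sub_mem h hu
        exact h3 ⟨hj, (hinj b l hab.symm hl h5).symm⟩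
      by_cases hl : l = a
      · have h5 : ρ j - ρ b ∈ Q := by simpa [hl] using Q.add_mem h hu
        exact h4 ⟨hinj j b hj hab.symm h5, hl⟩
      exact hjl (hinj j l hj hl h)
    have hab' : a ∈ univ.erase b := mem_erase.2 ⟨hab, mem_univ a⟩
    have h5 : ((Dv n f : ℤ) : O) = (ρ a - ρ b) * (ρ a - ρ b) *
        (-((∏ l ∈ (univ.erase a).erase b, (ρ a - ρ l)) *
          ((∏ l ∈ (univ.erase b).erase a, (ρ b - ρ l)) *
            ∏ j ∈ (univ.erase a).erase b, ∏ l ∈ univ.erase j, (ρ j - ρ l)))) := by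
      have h6 := Dv_map (Int.castRingHom O) n f
      rw [show f.map (Int.castRingHom O) = _ from hf, Dv_roots,
        ← mul_prod_erase _ _ (mem_univ a), ← mul_prod_erase _ _ hba,
        ← mul_prod_erase _ _ hba, ← mul_prod_erase _ _ hab'] at h6
      rw [show ((Dv n f : ℤ) : O) = _ from h6.symm]
      ring
    have h7 := gal_val Q hne hp hmem h2 hD
    rw [h5, ← Ideal.span_singleton_mul_span_singleton, ← Ideal.span_singleton_mul_span_singleton,
      emultiplicity_mul hP, emultiplicity_mul hP] at h7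
    rw [(emultiplicity_eq_zero (b := Ideal.span {-_})).2, add_zero] at h7
    · have h8 : emultiplicity Q (Ideal.span {ρ a - ρ b}) ≠ ⊤ := by
        intro h
        rw [h] at h7
        simp at h7
      obtain ⟨e, he⟩ := ENat.ne_top_iff_exists.1 h8
      rw [← he] at h7
      exact ⟨e, by exact_mod_cast h7.symm⟩
    · rw [Ideal.dvd_span_singleton, Q.neg_mem_iff]
      intro h
      rcases hQ.isPrime.mem_or_mem h with h | h
      · obtain ⟨l, hl, h⟩ := (Ideal.IsPrime.prod_mem_iff (hp := hQ.isPrime)).1 h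
        simp only [mem_erase] at hl
        exact hnot a l (fun e => hl.2.1 e.symm) (fun e => hl.1 e.2) (fun e => hab e.1) h
      rcases hQ.isPrime.mem_or_mem h with h | h
      · obtain ⟨l, hl, h⟩ := (Ideal.IsPrime.prod_mem_iff (hp := hQ.isPrime)).1 h
        simp only [mem_erase] at hl
        exact hnot b l (fun e => hl.2.1 e.symm) (fun e => hab e.1.symm) (fun e => hl.1 e.2) h
      · obtain ⟨j, hj, h⟩ := (Ideal.IsPrime.prod_mem_iff (hp := hQ.isPrime)).1 h
        obtain ⟨l, hl, h⟩ := (Ideal.IsPrime.prod_mem_iff (hp := hQ.isPrime)).1 h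
        simp only [mem_erase] at hl hj
        exact hnot j l (fun e => hl.1 e.symm) (fun e => hj.2.1 e.1) (fun e => hj.1 e.1) h

end Pool.Agent.VW
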