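import Pool.Agent.P.MP_b0ea37_nt.WSym
import Pool.Agent.P.MP_b0ea37_nt.WGVal
import Pool.Agent.P.MP_b0ea37_nt.WGPrim

namespace Pool.Agent.VW

open Polynomial

open NumberField in
/-- without transpositions the inertia group at a single collision is trivial -/
theorem gal_inertia {K : Type} [Field K] [NumberField K] [IsGalois ℚ K] {n : ℕ} {f : ℤ[X]}
    (hm : f.Monic) (hn : f.natDegree = n) (hD : Dv n f ≠ 0) (r : Fin n → K)
    (hr : Function.Injective r) (h0 : ∀ i, aeval (r i) f = 0)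
    (φ : (K ≃ₐ[ℚ] K) →* Equiv.Perm (Fin n)) (hinj : Function.Injective φ)
    (hφ : ∀ g i, r (φ g i) = g (r i)) (hsw : ∀ g, ¬ (φ g).IsSwap) {p : ℕ} (hp : p.Prime)
    (h1 : (p : ℤ) ∣ Dv n f) (h2 : ¬ (p : ℤ) ∣ Phi n 0 f) :
    Weak p f ∧ Even (padicValInt p (Dv n f)) := by
  classical
  have : Fact p.Prime := ⟨hp⟩
  have hint : ∀ i, IsIntegral ℤ (r i) := fun i => ⟨f, hm, by rw [← aeval_def]; exact h0 i⟩
  let ρ : Fin n → 𝓞 K := fun i => ⟨r i, hint i⟩
  have hK : f.map (algebraMap ℤ K) = ∏ i, (X - C (r i)) := by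
    have hd : (∏ i, (X - C (r i))) ∣ f.map (algebraMap ℤ K) :=
      Finset.prod_dvd_of_coprime (fun i _ j _ hij => pairwise_coprime_X_sub_C hr hij)
        fun i _ => dvd_iff_isRoot.2 (by rw [IsRoot.def, eval_map_algebraMap]; exact h0 i)
    have hm' : (∏ i, (X - C (r i))).Monic := monic_prod_of_monic _ _ fun i _ => monic_X_sub_C _
    refine eq_of_monic_of_dvd_of_natDegree_le hm' (hm.map _) hd ?_
    rw [natDegree_prod_of_monic _ _ fun i _ => monic_X_sub_C _, hm.natDegree_map, hn]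
    simp
  have hO : up (𝓞 K) f = ∏ i, (X - C (ρ i)) := by
    apply Polynomial.map_injective (algebraMap (𝓞 K) K) (RingOfIntegers.coe_injective)
    rw [Polynomial.map_map, RingHom.ext_int (RingHom.comp _ _) (algebraMap ℤ K), hK,
      Polynomial.map_prod]
    refine Finset.prod_congr rfl fun i _ => ?_
    rw [Polynomial.map_sub, map_X, map_C]
    rfl
  have hpZ : Prime (p : ℤ) := Nat.prime_iff_prime_int.mp hp
  have hne : Ideal.span {(p : ℤ)} ≠ ⊥ := by
    rw [Ne, Ideal.span_singleton_eq_bot]; exact hpZ.ne_zero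
  have hPp : (Ideal.span {(p : ℤ)}).IsPrime := (Ideal.span_singleton_prime hpZ.ne_zero).2 hpZ
  have hPmax : (Ideal.span {(p : ℤ)}).IsMaximal := hPp.isMaximal hne
  obtain ⟨Q, hQmax, hQ⟩ := Ideal.exists_ideal_over_maximal_of_isIntegral
    (S := 𝓞 K) (Ideal.span {(p : ℤ)})
    (by
      rw [(RingHom.injective_iff_ker_eq_bot _).1 (algebraMap ℤ (𝓞 K)).injective_int]
      exact bot_le)
  have hmem : ∀ m : ℤ, (m : 𝓞 K) ∈ Q ↔ (p : ℤ) ∣ m := by
    intro m
    rw [← Ideal.mem_span_singleton, ← hQ, Ideal.mem_comap]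
    simp
  have hpQ : (p : 𝓞 K) ∈ Q := by simpa using (hmem p).2 dvd_rfl
  have hQne : Q ≠ ⊥ := by
    intro h
    rw [h, Ideal.mem_bot] at hpQ
    exact hp.ne_zero (by exact_mod_cast hpQ)
  let : Field (𝓞 K ⧸ Q) := Ideal.Quotient.field Q
  have hk : up (𝓞 K ⧸ Q) f = ∏ i, (X - C (Ideal.Quotient.mk Q (ρ i))) := by
    have h1 : Int.castRingHom (𝓞 K ⧸ Q) = (Ideal.Quotient.mk Q).comp (Int.castRingHom (𝓞 K)) :=
      RingHom.ext_int _ _
    rw [up, h1, ← Polynomial.map_map, show f.map (Int.castRingHom (𝓞 K)) = _ from hO,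
      Polynomial.map_prod]
    refine Finset.prod_congr rfl fun i _ => ?_
    rw [Polynomial.map_sub, map_X, map_C]
  have hz : ∀ m : ℤ, (m : 𝓞 K ⧸ Q) = 0 ↔ (p : ℤ) ∣ m := by
    intro m
    rw [← hmem, ← Ideal.Quotient.eq_zero_iff_mem, map_intCast]
  obtain ⟨a, b, hab, hu, hi⟩ := gal_pair (u := fun i => Ideal.Quotient.mk Q (ρ i))
    (by rw [← hk, Dv_map]; exact (hz _).2 h1) (by rw [← hk, Phi_map]; exact mt (hz _).1 h2)
  have hI : Q.inertia (K ≃ₐ[ℚ] K) = ⊥ := by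
    rw [eq_bot_iff]
    intro g hg
    have h3 : ∀ j, Ideal.Quotient.mk Q (ρ (φ g j)) = Ideal.Quotient.mk Q (ρ j) := by
      intro j
      have h4 : ρ (φ g j) = g • ρ j := RingOfIntegers.coe_injective (hφ g j)
      rw [h4]
      exact Ideal.Quotient.eq.2 (hg (ρ j))
    have h5 : ∀ j, j ≠ a → j ≠ b → φ g j = j := by
      intro j hja hjb
      by_cases h : φ g j = a
      · have h6 := h3 j
        rw [h, hu] at h6
        exact absurd (hi b j hab.symm hja h6).symm hjb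
      · exact hi _ _ h hja (h3 j)
    rw [Subgroup.mem_bot]
    by_cases ha : φ g a = a
    · apply hinj
      rw [map_one]
      refine Equiv.ext fun j => ?_
      by_cases hja : j = a
      · rw [hja, ha]; rfl
      · exact hi _ _ (fun h => hja ((φ g).injective (h.trans ha.symm))) hja (h3 j)
    · have hb : φ g a = b := hi _ _ ha hab.symm ((h3 a).trans hu)
      refine absurd ⟨a, b, hab, Equiv.ext fun j => ?_⟩ (hsw g)
      by_cases hja : j = a
      · rw [hja, hb, Equiv.swap_apply_left]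
      by_cases hjb : j = b
      · rw [hjb, Equiv.swap_apply_right]
        by_contra h
        have h6 := hi _ _ h hab.symm (h3 b)
        exact hab ((φ g).injective (hb.trans h6.symm))
      · rw [h5 j hja hjb, Equiv.swap_apply_of_ne_of_ne hja hjb]
  have hlo : Q.LiesOver (Ideal.span {(p : ℤ)}) := ⟨hQ.symm⟩
  have hGG := IsGaloisGroup.of_isFractionRing (K ≃ₐ[ℚ] K) ℤ (𝓞 K) ℚ K
  have he := Ideal.card_inertia_eq_ramificationIdxIn (G := K ≃ₐ[ℚ] K) (Ideal.span {(p : ℤ)}) Q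
  rw [hI, Subgroup.card_bot, Ideal.ramificationIdxIn_eq_ramificationIdx _ Q (K ≃ₐ[ℚ] K),
    ← Ideal.ramificationIdx'_eq_ramificationIdx (Ideal.span {(p : ℤ)}) Q hne] at he
  have hQ2 : (p : 𝓞 K) ∉ Q ^ 2 := by
    intro h
    refine (Ideal.ramificationIdx'_ne_one_iff (p := Ideal.span {(p : ℤ)}) (P := Q) ?_).2 ?_ he.symm
    · rw [Ideal.map_span, Set.image_singleton, Ideal.span_singleton_le_iff_mem]
      simpa using hpQ
    · rw [Ideal.map_span, Set.image_singleton, Ideal.span_singleton_le_iff_mem]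
      simpa using h
  exact gal_weak Q hQne hp hmem hQ2 hO hD hab (Ideal.Quotient.eq.1 hu)
    fun j l hj hl h => hi j l hj hl (Ideal.Quotient.eq.2 h)

theorem gal_main {K : Type} [Field K] [CharZero K] [inst : Algebra ℚ K] [FiniteDimensional ℚ K]
    [IsGalois ℚ K] {n : ℕ} {f : ℤ[X]} (hm : f.Monic) (hn : f.natDegree = n) (hi : Irr f)
    (hp : Prim f) (r : Fin n → K) (hr : Function.Injective r) (h0 : ∀ i, aeval (r i) (up ℚ f) = 0)
    (φ : (K ≃ₐ[ℚ] K) →* Equiv.Perm (Fin n)) (hinj : Function.Injective φ)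
    (hφ : ∀ g i, r (φ g i) = g (r i)) (htr : ∀ x y, ∃ g, φ g x = y) (hG : φ.range ≠ ⊤) :
    Bad n f := by
  obtain rfl : inst = DivisionRing.toRatAlgebra := Subsingleton.elim _ _
  have : NumberField K := ⟨⟩
  have h0' : ∀ i, aeval (r i) f = 0 := fun i => by
    have h1 := h0 i
    rwa [up, ← algebraMap_int_eq, aeval_map_algebraMap] at h1
  let ι : K →ₐ[ℚ] ℂ := IsAlgClosed.lift
  have hprim : MulAction.IsPreprimitive φ.range (Fin n) := by
    refine gal_prim r hr φ hφ htr (fun i => ?_) fun q h1 h2 i j h => ?_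
    · rw [← minpoly.eq_of_irreducible_of_monic hi (h0 i) (hm.map _), hm.natDegree_map, hn]
    · have h3 : ∀ i, aeval (ι (r i)) f = 0 := fun i => by
        rw [show ι (r i) = ι.toRingHom.toIntAlgHom (r i) from rfl, aeval_algHom_apply, h0', map_zero]
      have h4 : aeval (ι (r i)) q = aeval (ι (r j)) q := by
        rw [aeval_algHom_apply, aeval_algHom_apply, h]
      exact hr (ι.injective (hp q h1 (hn ▸ h2) _ _ (h3 i) (h3 j) h4))
  refine ⟨hm, hn, hi, hp, fun p hpp h1 h2 => ?_⟩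
  refine gal_inertia hm hn (hi.Dv_ne_zero hm hn) r hr h0' φ hinj hφ (fun g hg => hG ?_) hpp h1 h2
  exact Equiv.Perm.subgroup_eq_top_of_isPreprimitive_of_isSwap_mem hprim _ hg ⟨g, rfl⟩

/-- 0.1 -/
theorem bad_of_gal {n : ℕ} (hn : 5 ≤ n) {f : ℤ[X]} (hm : f.Monic) (hf : f.natDegree = n)
    (hi : Irr f) (hp : Prim f) (hG : ¬ Nonempty ((up ℚ f).Gal ≃* Equiv.Perm (Fin n))) :
    Bad n f := by
  obtain ⟨r, φ, hr, h0, hinj, hφ, htr, hgal, hfd⟩ :=
    gal_roots (n := n) (up ℚ f) hi hi.separable (by rw [hm.natDegree_map, hf])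
  refine @gal_main _ _ _ (_) hfd hgal n f hm hf hi hp r hr h0 φ hinj hφ htr fun h => hG ?_
  exact ⟨MulEquiv.ofBijective φ ⟨hinj, MonoidHom.range_eq_top.1 h⟩⟩

end Pool.Agent.VW
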