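import Pool.Agent.P.MP_b0ea37_nt.WFCj

namespace Pool.Agent.VW

open Polynomial Finset

theorem mem_adjoin_poly {x y : ℂ} (hx : IsIntegral ℚ x) (h : y ∈ IntermediateField.adjoin ℚ {x}) :
    ∃ w : ℚ[X], aeval x w = y := by
  have h3 : y ∈ (IntermediateField.adjoin ℚ {x}).toSubalgebra := h
  rw [IntermediateField.adjoin_simple_toSubalgebra_of_isAlgebraic hx.isAlgebraic,
    Algebra.adjoin_singleton_eq_range_aeval] at h3
  exact h3

theorem adjoin_aeval_le (z : ℂ) (u : ℚ[X]) :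
    IntermediateField.adjoin ℚ {aeval z u} ≤ IntermediateField.adjoin ℚ {z} := by
  rw [IntermediateField.adjoin_simple_le_iff]
  exact IntermediateField.algebra_adjoin_le_adjoin ℚ _ (aeval_mem_adjoin_singleton ℚ _)

theorem isIntegral_aeval {z : ℂ} (hz : IsIntegral ℚ z) (u : ℚ[X]) : IsIntegral ℚ (aeval z u) :=
  IsIntegral.of_mem_of_fg _ hz.fg_adjoin_singleton _ (aeval_mem_adjoin_singleton ℚ _)

/-- the minimal polynomial over a subfield, written in two variables -/
theorem imp_rel {z : ℂ} (hz : IsIntegral ℚ z) (u : ℚ[X]) : ∃ PP : ℚ[X][X], PP.Monic ∧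
    (minpoly ℚ (aeval z u)).natDegree * PP.natDegree = (minpoly ℚ z).natDegree ∧
    PP.eval₂ (aeval (aeval z u) : ℚ[X] →ₐ[ℚ] ℂ).toRingHom z = 0 := by
  have hγ := isIntegral_aeval hz u
  set γ := aeval z u with hγd
  let L := IntermediateField.adjoin ℚ {γ}
  have hzL : IsIntegral L z := hz.tower_top
  let ψ : ℚ[X] →+* L := (aeval (IntermediateField.AdjoinSimple.gen ℚ γ) : ℚ[X] →ₐ[ℚ] L).toRingHom
  have hψ : (algebraMap L ℂ).comp ψ = (aeval γ : ℚ[X] →ₐ[ℚ] ℂ).toRingHom := by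
    refine RingHom.ext fun w => ?_
    have := aeval_algebraMap_apply ℂ (IntermediateField.AdjoinSimple.gen ℚ γ) w
    rw [IntermediateField.AdjoinSimple.algebraMap_gen] at this
    exact this.symm
  have hsurj : Function.Surjective ψ := by
    intro y
    obtain ⟨w, hw⟩ := mem_adjoin_poly hγ y.2
    refine ⟨w, (algebraMap L ℂ).injective ?_⟩
    exact (congrArg (fun F : ℚ[X] →+* ℂ => F w) hψ).trans hw
  obtain ⟨PP, h1, h2, h3⟩ := lifts_and_natDegree_eq_and_monic
    (map_surjective ψ hsurj (minpoly L z)) (minpoly.monic hzL)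
  refine ⟨PP, h3, ?_, ?_⟩
  · rw [h2, ← IntermediateField.adjoin.finrank hγ, ← IntermediateField.adjoin.finrank hzL,
      Module.finrank_mul_finrank, ← IntermediateField.adjoin.finrank hz]
    have h4 : (IntermediateField.adjoin L {z}).restrictScalars ℚ =
        IntermediateField.adjoin ℚ {z} := by
      refine (IntermediateField.adjoin_simple_adjoin_simple ℚ γ z).trans ?_
      refine le_antisymm ?_ (IntermediateField.adjoin.mono _ _ _ (by simp))
      rw [IntermediateField.adjoin_le_iff]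
      rintro x (rfl | rfl)
      · exact adjoin_aeval_le z u (IntermediateField.mem_adjoin_simple_self ℚ _)
      · exact IntermediateField.mem_adjoin_simple_self ℚ _
    rw [← h4]
    rfl
  · rw [← hψ, ← eval₂_map, h1, ← aeval_def, minpoly.aeval]

/-- the block structure of an imprimitive polynomial -/
theorem imp_struct {n : ℕ} {f : ℤ[X]} (hm : f.Monic) (hn : f.natDegree = n) (hi : Irr f)
    (hp : ¬ Prim f) : ∃ b m : ℕ, 2 ≤ b ∧ 2 ≤ m ∧ b * m = n ∧ ∃ (P : Fin b → ℂ[X]) (k₀ : Fin m),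
      (∀ j, (P j).Monic ∧ (P j).natDegree = m) ∧ up ℂ f = ∏ j, P j ∧
      Cj (fun j => (P j).coeff k₀) ∧
      ∀ k, InK (fun j => (P j).coeff k₀) fun j => (P j).coeff k := by
  classical
  simp only [Prim, not_forall] at hp
  obtain ⟨q, hq0, hqn, z, w, hz, hw, hq, hzw⟩ := hp
  have hup : ∀ x : ℂ, aeval x f = 0 → aeval x (up ℚ f) = 0 := fun x hx => by
    rwa [up, ← algebraMap_int_eq, aeval_map_algebraMap]
  have hmin : minpoly ℚ z = up ℚ f :=
    (minpoly.eq_of_irreducible_of_monic hi (hup z hz) (hm.map _)).symm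
  have hdeg : (minpoly ℚ z).natDegree = n := by rw [hmin, hm.natDegree_map, hn]
  have hzi : IsIntegral ℚ z := ⟨up ℚ f, hm.map _, by rw [← aeval_def]; exact hup z hz⟩
  have hlow : ∀ g : ℚ[X], g ≠ 0 → aeval z g = 0 → n ≤ g.natDegree := fun g h0 hg =>
    hdeg ▸ natDegree_le_of_dvd (minpoly.dvd ℚ z hg) h0
  have hall : ∀ (x : ℂ) (g : ℚ[X]), aeval x (up ℚ f) = 0 → aeval z g = 0 → aeval x g = 0 := by
    intro x g hx hg
    obtain ⟨c, hc⟩ := minpoly.dvd ℚ z hg
    rw [hc, hmin, map_mul, hx, zero_mul]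
  have hq1 : ∀ t : ℚ, aeval z q ≠ algebraMap ℚ ℂ t := by
    intro t ht
    have h1 : (q - C t).natDegree = q.natDegree := natDegree_sub_C
    have := hlow (q - C t) (fun h => by rw [h] at h1; simp at h1; omega)
      (by rw [map_sub, aeval_C, ht, sub_self])
    omega
  have hq2 : (minpoly ℚ (aeval z q)).natDegree < n := by
    by_contra hc
    have := IntermediateField.adjoin.finiteDimensional hzi
    have h1 := IntermediateField.eq_of_le_of_finrank_le (adjoin_aeval_le z q) (by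
      rw [IntermediateField.adjoin.finrank (isIntegral_aeval hzi q),
        IntermediateField.adjoin.finrank hzi, hdeg]; omega)
    obtain ⟨v, hv⟩ := mem_adjoin_poly (isIntegral_aeval hzi q)
      (h1 ▸ IntermediateField.mem_adjoin_simple_self ℚ z)
    have h2 := hall w (X - v.comp q) (hup w hw) (by rw [map_sub, aeval_comp, hv, aeval_X, sub_self])
    rw [map_sub, aeval_comp, ← hq, hv, aeval_X, sub_eq_zero] at h2
    exact hzw h2.symm
  have hex : ∃ d, ∃ u : ℚ[X], (∀ t : ℚ, aeval z u ≠ algebraMap ℚ ℂ t) ∧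
      (minpoly ℚ (aeval z u)).natDegree = d := ⟨_, q, hq1, rfl⟩
  obtain ⟨u, hu1, hu2⟩ := Nat.find_spec hex
  have hfind : ∀ v : ℚ[X], (∀ t : ℚ, aeval z v ≠ algebraMap ℚ ℂ t) →
      Nat.find hex ≤ (minpoly ℚ (aeval z v)).natDegree := fun v hv => Nat.find_min' hex ⟨v, hv, rfl⟩
  generalize Nat.find hex = b at hu2 hfind
  have hbn : b < n := (hfind q hq1).trans_lt hq2
  have hγ := isIntegral_aeval hzi u
  have hb2 : 2 ≤ b := by
    rw [← hu2, minpoly.two_le_natDegree_iff hγ]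
    rintro ⟨t, ht⟩
    exact hu1 t ht.symm
  obtain ⟨PP, hP1, hP2, hP3⟩ := imp_rel hzi u
  rw [hu2, hdeg] at hP2
  obtain ⟨γ, hγr⟩ := exists_roots (n := b) ((minpoly ℚ (aeval z u)).map (algebraMap ℚ ℂ))
    ((minpoly.monic hγ).map _) (by rw [natDegree_map, hu2])
  have hcj : Cj γ := ⟨_, minpoly.irreducible hγ, hγr⟩
  have hroot : ∀ x : ℂ, aeval x (up ℚ f) = 0 → ∃ j, aeval x u = γ j := by
    intro x hx
    rw [← hγr.eval_eq_zero_iff, eval_map_algebraMap, ← aeval_comp]
    exact hall x _ hx (by rw [aeval_comp, minpoly.aeval])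
  let P : Fin b → ℂ[X] := fun j => PP.map (aeval (γ j) : ℚ[X] →ₐ[ℚ] ℂ).toRingHom
  have hPm : ∀ j, (P j).Monic ∧ (P j).natDegree = PP.natDegree :=
    fun j => ⟨hP1.map _, hP1.natDegree_map _⟩
  have hPc : ∀ j k, (P j).coeff k = aeval (γ j) (PP.coeff k) := fun j k => coeff_map _ _
  have hT : ∀ x : ℂ, aeval x (PP.eval₂ (compRingHom u) X) =
      PP.eval₂ (aeval (aeval x u) : ℚ[X] →ₐ[ℚ] ℂ).toRingHom x := by
    intro x
    have h1 := hom_eval₂ PP (compRingHom u) (aeval x : ℚ[X] →ₐ[ℚ] ℂ).toRingHom X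
    have h2 : (aeval x : ℚ[X] →ₐ[ℚ] ℂ).toRingHom.comp (compRingHom u) =
        (aeval (aeval x u) : ℚ[X] →ₐ[ℚ] ℂ).toRingHom := RingHom.ext fun g => aeval_comp x
    rw [h2] at h1
    simpa using h1
  have hPz : ∀ x : ℂ, aeval x (up ℚ f) = 0 → ∀ j, aeval x u = γ j → (P j).eval x = 0 := by
    intro x hx j hj
    rw [eval_map, ← hj, ← hT]
    exact hall x _ hx (by rw [hT, hP3])
  obtain ⟨θ, hθ⟩ := exists_roots (n := n) (up ℂ f) (hm.map _) (by rw [hm.natDegree_map, hn])
  have hθ0 : ∀ i, aeval (θ i) (up ℚ f) = 0 := fun i => by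
    obtain ⟨c, -, hc⟩ := hi.cj hθ
    refine root_of_map ?_ i
    rw [up, Polynomial.map_map, RingHom.ext_int (RingHom.comp _ _) (Int.castRingHom ℂ)]
    exact hθ
  have hprod : up ℂ f = ∏ j, P j := by
    symm
    refine eq_of_monic_of_dvd_of_natDegree_le (hm.map _)
      (monic_prod_of_monic _ _ fun j _ => (hPm j).1) ?_ ?_
    · rw [show up ℂ f = _ from hθ]
      refine prod_dvd_of_coprime
        (fun i _ j _ hij => pairwise_coprime_X_sub_C (hθ.injective hi) hij)
        fun i _ => dvd_iff_isRoot.2 ?_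
      obtain ⟨j, hj⟩ := hroot _ (hθ0 i)
      rw [IsRoot.def, eval_prod]
      exact prod_eq_zero (mem_univ j) (hPz _ (hθ0 i) j hj)
    · rw [natDegree_prod_of_monic _ _ fun j _ => (hPm j).1, hm.natDegree_map, hn, ← hP2]
      simp [(hPm _).2]
  have hm2 : 2 ≤ PP.natDegree := by
    by_contra hc
    have : b * PP.natDegree ≤ b * 1 := Nat.mul_le_mul_left b (by omega)
    omega
  have hmn : PP.natDegree < n := by nlinarith
  obtain ⟨j₀, hj₀⟩ := hroot z (hup z hz)
  have hk : ∃ k, ∀ t : ℚ, (P j₀).coeff k ≠ algebraMap ℚ ℂ t := by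
    by_contra hc
    push Not at hc
    obtain ⟨g, h1, h2, h3⟩ := lifts_and_natDegree_eq_and_monic (f := algebraMap ℚ ℂ)
      ((lifts_iff_coeff_lifts _).2 fun k => (hc k).imp fun t ht => ht.symm) (hPm j₀).1
    have := hlow g h3.ne_zero
      (by rw [← eval_map_algebraMap, h1]; exact hPz z (hup z hz) j₀ hj₀)
    rw [h2, (hPm j₀).2] at this
    omega
  obtain ⟨k, hk⟩ := hk
  have hkm : k < PP.natDegree := by
    by_contra hc
    rcases (not_lt.1 hc).eq_or_lt with h | h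
    · exact hk 1 (by rw [← h, ← (hPm j₀).2, (hPm j₀).1.coeff_natDegree, map_one])
    · exact hk 0 (by rw [coeff_eq_zero_of_natDegree_lt ((hPm j₀).2 ▸ h), map_zero])
  have hin : ∀ l, InK γ fun j => (P j).coeff l := fun l => ⟨PP.coeff l, fun j => hPc j l⟩
  have he : (P j₀).coeff k = aeval z ((PP.coeff k).comp u) := by rw [aeval_comp, hj₀, hPc]
  obtain ⟨h1, h2⟩ := hcj.gen (hin k) j₀ (by
    show b ≤ (minpoly ℚ ((P j₀).coeff k)).natDegree
    rw [he]
    exact hfind _ (he ▸ hk))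
  exact ⟨b, PP.natDegree, hb2, hm2, hP2, P, ⟨k, hkm⟩, hPm, hprod, h1, fun l => h2.trans (hin l)⟩

end Pool.Agent.VW
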