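import Pool.Agent.P.MP_b0ea37_nt.WSym
import Pool.Agent.P.MP_b0ea37_nt.WPack
import Pool.Agent.P.MP_b0ea37_nt.WIStr

namespace Pool.Agent.VW

open Polynomial

theorem up_inj {f g : ℤ[X]} (h : up ℂ f = up ℂ g) : f = g :=
  map_injective _ (Int.castRingHom ℂ).injective_int h

/-- counting polynomials with a given block shape -/
theorem cnt_imp (b m : ℕ) (k₀ : Fin m) : ∃ C : ℝ, 0 ≤ C ∧ ∀ Z : ℝ, 1 ≤ Z →
    Cnt (fun f : ℤ[X] => f.Monic ∧ (up ℂ f).mahlerMeasure ≤ Z ∧ ∃ P : Fin b → ℂ[X],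
      (∀ j, (P j).Monic ∧ (P j).natDegree = m) ∧ up ℂ f = ∏ j, P j ∧
      Cj (fun j => (P j).coeff k₀) ∧ ∀ k, InK (fun j => (P j).coeff k₀) fun j => (P j).coeff k)
      (C * (Z ^ (b + (m - 1)) * Z ^ (1 / 2 : ℝ))) := by
  classical
  obtain ⟨C, hC, hd⟩ := cnt_dyadic_vec b (1 / 2) (by norm_num)
  set A : ℝ := (19 * 2 ^ (m + 1)) ^ b with hA
  have hA1 : 1 ≤ A := one_le_pow₀ (by have := one_le_pow₀ (n := m + 1) (one_le_two (α := ℝ)); linarith)
  refine ⟨C * ((3 * 2 ^ b * A) ^ b * ((b : ℝ) ^ b * A ^ (m - 1))), by positivity, fun Z hZ => ?_⟩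
  have hM1 : ∀ k : ℕ, (1 : ℝ) ≤ 2 ^ (m + 1) * 2 ^ k := fun k =>
    one_le_mul_of_one_le_of_one_le (one_le_pow₀ one_le_two) (one_le_pow₀ one_le_two)
  have hprod : ∀ k : Fin b → ℕ, ∏ j, (2 : ℝ) ^ k j ≤ Z →
      ∏ j, (3 + 16 * (2 ^ (m + 1) * (2 : ℝ) ^ k j)) ≤ A * Z := by
    intro k hk
    calc ∏ j, (3 + 16 * (2 ^ (m + 1) * (2 : ℝ) ^ k j))
        ≤ ∏ j, (19 * 2 ^ (m + 1) * (2 : ℝ) ^ k j) :=
          Finset.prod_le_prod (fun j _ => by positivity) fun j _ => by nlinarith [hM1 (k j)]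
      _ = A * ∏ j, (2 : ℝ) ^ k j := by rw [Finset.prod_mul_distrib]; simp [hA]
      _ ≤ A * Z := mul_le_mul_of_nonneg_left hk (by positivity)
  have h4 : ∀ k : Fin b → ℕ, ∏ j, (2 : ℝ) ^ k j ≤ Z → ∀ α : Fin b → ℂ,
      Cnt (fun s : Fin m → Fin b → ℂ => ∀ i, if i = k₀ then s i = α else Cj α ∧ InK α (s i) ∧
        Intg (s i) ∧ ∀ j, ‖s i j‖ ≤ 2 ^ (m + 1) * 2 ^ k j) ((A * Z) ^ (m - 1)) := by
    intro k hk α
    refine (Cnt.pi (P := fun i β => if i = k₀ then β = α else Cj α ∧ InK α β ∧ Intg β ∧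
      ∀ j, ‖β j‖ ≤ 2 ^ (m + 1) * 2 ^ k j) (B := fun i => if i = k₀ then 1 else A * Z)
      fun i => ?_).mono (fun _ h => h) (le_of_eq ?_)
    · by_cases hi : i = k₀
      · simp only [if_pos hi]
        exact Cnt.one fun x y hx hy => hx.trans hy.symm
      · simp only [if_neg hi]
        by_cases hc : Cj α
        · exact (hc.cnt_box _ fun j => by positivity).mono (fun _ h => h.2) (hprod k hk)
        · exact Cnt.empty (fun _ h => hc h.1) (by positivity)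
    · rw [← Finset.mul_prod_erase _ _ (Finset.mem_univ k₀), if_pos rfl, one_mul,
        Finset.prod_congr rfl fun i hi => if_neg (Finset.mem_erase.1 hi).1, Finset.prod_const,
        Finset.card_erase_of_mem (Finset.mem_univ _)]
      simp
  have h5 := (hd Z hZ).fibre (by positivity) fun k hk =>
    (cnt_monic b (2 ^ b * (A * Z)) (by positivity)).fibre (by positivity) fun c _ =>
      (cnt_numberings (b := b) (up ℂ c)).fibre (by positivity) fun α _ => h4 k hk α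
  refine (h5.rel (fun f s => up ℂ f = ∏ j, (X ^ m + ∑ i : Fin m, Polynomial.C (s i j) * X ^ (i : ℕ)))
    ?_ fun f g s _ _ h h' => up_inj (h.trans h'.symm)).mono (fun _ h => h) ?_
  · rintro f ⟨hm, hZf, P, hP, hf, hcj, hin⟩
    have hμ : ∀ j, 1 ≤ (P j).mahlerMeasure := fun j =>
      one_le_mahlerMeasure_of_one_le_norm_leadingCoeff (by rw [(hP j).1.leadingCoeff]; simp)
    choose k hk1 hk2 using fun j => exists_dyadic _ (hμ j)
    have hk : ∏ j, (2 : ℝ) ^ k j ≤ Z := by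
      refine le_trans (Finset.prod_le_prod (fun j _ => by positivity) fun j _ => hk1 j) ?_
      refine le_trans (le_of_eq ?_) hZf
      rw [hf, Finset.prod_eq_multiset_prod _ P, prod_mahlerMeasure_eq_mahlerMeasure_prod,
        Multiset.map_map]
      rfl
    have hco : ∀ i j, ‖(P j).coeff i‖ ≤ 2 ^ (m + 1) * 2 ^ k j := by
      intro i j
      refine (norm_coeff_le_choose_mul_mahlerMeasure i (P j)).trans ?_
      have h1 : (((P j).natDegree.choose i : ℕ) : ℝ) ≤ 2 ^ m := by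
        rw [(hP j).2]; exact_mod_cast Nat.choose_le_two_pow m i
      calc _ ≤ 2 ^ m * (2 * 2 ^ k j : ℝ) :=
            mul_le_mul h1 (hk2 j).le (by linarith [hμ j]) (by positivity)
        _ = _ := by ring
    have hint : ∀ i, Intg fun j => (P j).coeff i := fun i j =>
      isIntegral_coeff_of_dvd f (P j) hm (hP j).1
        (by rw [algebraMap_int_eq, show f.map (Int.castRingHom ℂ) = _ from hf]
            exact Finset.dvd_prod_of_mem P (Finset.mem_univ j)) i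
    obtain ⟨c, hc1, hc2, hc3⟩ := hcj.char_int (InK.refl _) (hint k₀)
    refine ⟨fun i j => (P j).coeff i, ⟨k, hk, c, ⟨hc1, hc2, ?_⟩, _, hc3, fun i => ?_⟩, ?_⟩
    · rw [← sup_up_complex, show up ℂ c = _ from hc3]
      refine (sup_prod_X_sub_C _ _).trans ?_
      rw [Finset.card_univ, Fintype.card_fin]
      refine mul_le_mul_of_nonneg_left (le_trans ?_ (hprod k hk)) (by positivity)
      refine Finset.prod_le_prod (fun j _ => by positivity) fun j _ => max_le ?_ ?_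
      · linarith [hM1 (k j)]
      · linarith [hM1 (k j), hco k₀ j]
    · split_ifs with hi
      · rw [hi]
      · exact ⟨hcj, hin i, hint i, hco i⟩
    · rw [hf]
      refine Finset.prod_congr rfl fun j _ => ?_
      rw [Fin.sum_univ_eq_sum_range (fun i => Polynomial.C ((P j).coeff i) * X ^ i), ← (hP j).2]
      exact (hP j).1.as_sum
  · have h6 : 2 * (2 ^ b * (A * Z)) + 1 ≤ 3 * 2 ^ b * A * Z := by
      have : (1 : ℝ) ≤ 2 ^ b * (A * Z) := one_le_mul_of_one_le_of_one_le (one_le_pow₀ one_le_two)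
        (one_le_mul_of_one_le_of_one_le hA1 hZ)
      linarith
    calc _ ≤ C * Z ^ (1 / 2 : ℝ) * ((3 * 2 ^ b * A * Z) ^ b * ((b : ℝ) ^ b * (A * Z) ^ (m - 1))) := by
          gcongr
      _ = _ := by rw [mul_pow _ Z, mul_pow A Z, pow_add]; ring

theorem Box.mahler_le {n : ℕ} {H : ℝ} {f : ℤ[X]} (h : Box n H f) :
    (up ℂ f).mahlerMeasure ≤ (n + 1) * H := by
  obtain ⟨hm, hn, -, hH⟩ := h
  refine (mahlerMeasure_le_sqrt_natDegree_add_one_mul_supNorm _).trans ?_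
  rw [hm.natDegree_map, hn, sup_up_complex]
  refine mul_le_mul ?_ hH (supNorm_nonneg _) (by positivity)
  rw [Real.sqrt_le_left (by positivity)]
  nlinarith [(Nat.cast_nonneg n : (0 : ℝ) ≤ n)]

/-- 0.2 -/
theorem ps_imprim (n : ℕ) (hn : 5 ≤ n) : PS n fun _ f => Irr f ∧ ¬ Prim f := by
  have key : ∀ b m : ℕ, 2 ≤ b → 2 ≤ m → b * m = n → ∀ k₀ : Fin m, PS n fun _ f =>
      ∃ P : Fin b → ℂ[X], (∀ j, (P j).Monic ∧ (P j).natDegree = m) ∧ up ℂ f = ∏ j, P j ∧
      Cj (fun j => (P j).coeff k₀) ∧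
      ∀ k, InK (fun j => (P j).coeff k₀) fun j => (P j).coeff k := by
    intro b m hb hm hbm k₀
    obtain ⟨C, hC, h⟩ := cnt_imp b m k₀
    have he : b + (m - 1) ≤ n - 2 := by
      obtain ⟨b, rfl⟩ := Nat.exists_eq_add_of_le hb
      obtain ⟨m, rfl⟩ := Nat.exists_eq_add_of_le hm
      have h1 : (2 + b) * (2 + m) = 4 + 2 * b + 2 * m + b * m := by ring
      have h2 : b = 0 → m = 0 → b * m = 0 := fun h _ => by rw [h, zero_mul]
      omega
    refine PS.of_lt ((n : ℝ) - 3 / 2) (C * ((n : ℝ) + 1) ^ ((n : ℝ) - 3 / 2)) 1 (by linarith)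
      fun H hH => ?_
    have hZ : 1 ≤ ((n : ℝ) + 1) * H :=
      one_le_mul_of_one_le_of_one_le (by linarith [(Nat.cast_nonneg n : (0 : ℝ) ≤ n)]) hH
    refine (h _ hZ).mono (fun f hf => ⟨hf.1.1, hf.1.mahler_le, hf.2⟩) ?_
    rw [mul_assoc, ← Real.mul_rpow (by positivity) (by linarith), ← Real.rpow_natCast,
      ← Real.rpow_add (by linarith)]
    refine mul_le_mul_of_nonneg_left (Real.rpow_le_rpow_of_exponent_le hZ ?_) hC
    have h3 : ((b + (m - 1) : ℕ) : ℝ) + 2 ≤ n := by exact_mod_cast (by omega : b + (m - 1) + 2 ≤ n)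
    linarith
  have h := PS.fin (n := n) (Finset.Icc 2 n) fun b hb =>
    PS.fin (n := n) ((Finset.Icc 2 n).filter fun m => b * m = n) fun m hm =>
      PS.fin (n := n) (Finset.univ : Finset (Fin m)) fun k₀ _ =>
        key b m (Finset.mem_Icc.1 hb).1 (Finset.mem_Icc.1 (Finset.mem_filter.1 hm).1).1
          (Finset.mem_filter.1 hm).2 k₀
  refine h.mono 1 fun H _ f hf hi => ?_
  obtain ⟨b, m, hb, hm, hbm, P, k₀, hP⟩ := imp_struct hf.1 hf.2.1 hi.1 hi.2
  refine ⟨b, Finset.mem_Icc.2 ⟨hb, by nlinarith⟩, m, Finset.mem_filter.2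
    ⟨Finset.mem_Icc.2 ⟨hm, by nlinarith⟩, hbm⟩, k₀, Finset.mem_univ _, P, hP⟩

end Pool.Agent.VW
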