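import Pool.Agent.P.MP_b0ea37_nt.WBez
import Pool.Agent.P.MP_b0ea37_nt.VTDet

namespace Pool.Agent.VW

open Polynomial

theorem small_ker {σ ι : Type} [Fintype σ] (T : ι → Prop) (φ : σ → ι → ℤ) (B : ℝ) (hB : 1 ≤ B)
    (hφ : ∀ i j, T j → |(φ i j : ℝ)| ≤ B) (c : σ → ℚ) (hc : c ≠ 0)
    (h : ∀ j, T j → ∑ i, c i * φ i j = 0) :
    ∃ c' : σ → ℤ, c' ≠ 0 ∧ (∀ i, |(c' i : ℝ)| ≤ (Fintype.card σ * B) ^ Fintype.card σ) ∧
      ∀ j, T j → ∑ i, c' i * φ i j = 0 := by
  obtain ⟨w, h1, h2, h3⟩ := VT.ker (fun (j : {j // T j}) i => φ i j) hB (fun j i => hφ i j j.2) c hc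
    fun j => by simpa only [mul_comm] using h j j.2
  exact ⟨w, h1, h3, fun j hj => by simpa only [mul_comm] using h2 ⟨j, hj⟩⟩

theorem ker_mono {k : ℕ} {x : Fin k → ℤ} {L : ℝ} (hx : ∀ i, |(x i : ℝ)| ≤ L) (m : Fin k → ℕ) :
    |((∏ i, x i ^ m i : ℤ) : ℝ)| ≤ L ^ ∑ i, m i := by
  push_cast
  rw [Finset.abs_prod, ← Finset.prod_pow_eq_pow_sum]
  exact Finset.prod_le_prod (fun _ _ => abs_nonneg _) fun i _ => by
    rw [abs_pow]
    exact pow_le_pow_left₀ (abs_nonneg _) (hx i) _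

theorem ker_deg {k : ℕ} {R : Type} [CommRing R] {A : MvPolynomial (Fin k) R} {m : Fin k →₀ ℕ}
    (hm : m ∈ A.support) : ∑ i, m i ≤ A.totalDegree := by
  have := MvPolynomial.le_totalDegree hm
  rwa [Finsupp.sum_fintype _ _ fun _ => rfl] at this

/-- the polynomial with given monomials and coefficients -/
theorem ker_comb {k : ℕ} {σ : Type} [Fintype σ] (μ : σ → (Fin k →₀ ℕ))
    (hμ : Function.Injective μ) (c : σ → ℤ) : ∃ P : MvPolynomial (Fin k) ℤ,
      (∀ i, P.coeff (μ i) = c i) ∧ (∀ m ∈ P.support, ∃ i, μ i = m) ∧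
      ∀ x, MvPolynomial.eval x P = ∑ i, c i * ∏ a, x a ^ μ i a := by
  classical
  refine ⟨∑ i, MvPolynomial.monomial (μ i) (c i), fun i => ?_, fun m hm => ?_, fun x => ?_⟩
  · simp [MvPolynomial.coeff_sum, MvPolynomial.coeff_monomial, hμ.eq_iff]
  · by_contra h
    push Not at h
    simp [MvPolynomial.coeff_sum, MvPolynomial.coeff_monomial, h] at hm
  · simp [MvPolynomial.eval_monomial, Finsupp.prod_fintype]

theorem ker_ev {k : ℕ} (x : Fin k → ℤ) (P : MvPolynomial (Fin k) ℤ) :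
    MvPolynomial.eval (fun i => (x i : ℚ)) (MvPolynomial.map (Int.castRingHom ℚ) P) =
      (MvPolynomial.eval x P : ℤ) := by
  induction P using MvPolynomial.induction_on with
  | C c => simp
  | add p q hp hq => simp only [map_add, hp, hq, Int.cast_add]
  | mul_X p i hp =>
    simp only [map_mul, hp]
    simp

/-- a curve with many points in a box has small height -/
theorem small_height (E : ℕ) : ∃ (C : ℝ) (a : ℕ), 1 ≤ C ∧ ∀ L : ℝ, 1 ≤ L →
    ∀ A : MvPolynomial (Fin 2) ℚ, Irreducible A → A.totalDegree ≤ E →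
    Cnt (fun x : Fin 2 → ℤ => (∀ i, |(x i : ℝ)| ≤ L) ∧ ev2 x A = 0) C ∨
    ∃ (A' : MvPolynomial (Fin 2) ℤ) (c : ℚ), c ≠ 0 ∧
      MvPolynomial.map (Int.castRingHom ℚ) A' = MvPolynomial.C c * A ∧
      (∀ m, |((A'.coeff m : ℤ) : ℝ)| ≤ C * L ^ a) := by
  classical
  obtain ⟨C, hC, hb⟩ := bezout E
  obtain ⟨N, hN⟩ : ∃ N, N = (E + 2).choose 2 := ⟨_, rfl⟩
  refine ⟨C + N ^ N, E * N, le_add_of_le_of_nonneg hC (by positivity), fun L hL A hA hE => ?_⟩
  have hn : Fintype.card A.support ≤ N := by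
    rw [Fintype.card_coe, hN]
    exact VT.card_deg_le _ fun m hm => (ker_deg hm).trans hE
  obtain ⟨m0, hm0⟩ := MvPolynomial.support_nonempty.2 hA.ne_zero
  have hn1 : 1 ≤ Fintype.card A.support := Fintype.card_pos_iff.2 ⟨⟨m0, hm0⟩⟩
  have hLE : 1 ≤ L ^ E := one_le_pow₀ hL
  obtain ⟨c, hc, h1, h2⟩ := small_ker (fun x : Fin 2 → ℤ => (∀ i, |(x i : ℝ)| ≤ L) ∧ ev2 x A = 0)
    (fun (m : A.support) x => ∏ i, x i ^ m.1 i) (L ^ E) hLE
    (fun m x hx => (ker_mono hx.1 _).trans (pow_le_pow_right₀ hL ((ker_deg m.2).trans hE)))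
    (fun m => A.coeff m)
    (fun h => MvPolynomial.mem_support_iff.1 hm0 (congrFun h ⟨m0, hm0⟩)) fun x hx => by
      have := hx.2
      rw [ev2, MvPolynomial.eval_eq', ← Finset.sum_coe_sort] at this
      exact_mod_cast this
  obtain ⟨P, p1, p2, p3⟩ := ker_comb (fun m : A.support => m.1) Subtype.val_injective c
  have hs : (MvPolynomial.map (Int.castRingHom ℚ) P).support ⊆ A.support := fun m hm => by
    obtain ⟨i, rfl⟩ := p2 m (MvPolynomial.support_map_subset _ _ hm)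
    exact i.2
  have hd := MvPolynomial.totalDegree_le_of_support_subset hs
  by_cases hdv : A ∣ MvPolynomial.map (Int.castRingHom ℚ) P
  · right
    obtain ⟨B, hB⟩ := hdv
    have hB0 : B ≠ 0 := by
      rintro rfl
      refine hc (funext fun i => ?_)
      have := congrArg (MvPolynomial.coeff i.1) hB
      simpa [MvPolynomial.coeff_map, p1] using this
    rw [hB, MvPolynomial.totalDegree_mul_of_isDomain hA.ne_zero hB0] at hd
    have h3 := MvPolynomial.totalDegree_eq_zero_iff_eq_C.1 (by omega : B.totalDegree = 0)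
    refine ⟨P, B.coeff 0, fun h => hB0 (by rw [h3, h, map_zero]), by rw [← h3, hB, mul_comm],
      fun m => ?_⟩
    by_cases hm : m ∈ P.support
    · obtain ⟨i, rfl⟩ := p2 m hm
      rw [p1]
      have h4 : (1 : ℝ) ≤ N * L ^ E :=
        one_le_mul_of_one_le_of_one_le (by exact_mod_cast hn1.trans hn) hLE
      calc _ ≤ _ := h1 i
        _ ≤ ((N : ℝ) * L ^ E) ^ Fintype.card A.support := by gcongr
        _ ≤ ((N : ℝ) * L ^ E) ^ N := pow_le_pow_right₀ h4 hn
        _ = N ^ N * L ^ (E * N) := by rw [mul_pow, pow_mul]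
        _ ≤ _ := by gcongr; linarith
    · rw [MvPolynomial.notMem_support_iff.1 hm]
      simp only [Int.cast_zero, abs_zero]
      positivity
  · refine Or.inl ((hb A _ hA hdv hE (hd.trans hE)).mono (fun x hx => ⟨hx.2, ?_⟩) ?_)
    · rw [ev2, ker_ev, p3, h2 x hx, Int.cast_zero]
    · exact le_add_of_nonneg_right (by positivity)

end Pool.Agent.VW
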