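import Pool.Agent.P.MP_b0ea37_nt.WCnt
import Pool.Agent.P.MP_b0ea37_nt.WDiv

namespace Pool.Agent.VW.Lat

open Polynomial

/-- harmonic sum over a modulus -/
theorem cnt_harm (ε : ℝ) (hε : 0 < ε) : ∃ C₀ : ℝ, 1 ≤ C₀ ∧ ∀ {α : Type} (Z B : ℝ)
    (P : ℕ → α → Prop), 1 ≤ Z → 0 ≤ B → (∀ M : ℕ, 1 ≤ M → (M : ℝ) ≤ Z → Cnt (P M) (B / M)) →
    Cnt (fun x => ∃ M : ℕ, 1 ≤ M ∧ (M : ℝ) ≤ Z ∧ P M x) (C₀ * Z ^ ε * B) := by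
  obtain ⟨C₀, hC, h⟩ := sum_inv_le ε hε
  refine ⟨C₀, hC, fun Z B P hZ hB hP => ?_⟩
  have hf : (⌊Z⌋₊ : ℝ) ≤ Z := Nat.floor_le (by linarith)
  have h1 := Cnt.sum (Finset.Icc 1 ⌊Z⌋₊) (P := P) (B := fun M => B / M) fun M hM =>
    hP M (Finset.mem_Icc.1 hM).1 ((Nat.cast_le.2 (Finset.mem_Icc.1 hM).2).trans hf)
  refine h1.mono ?_ ?_
  · rintro x ⟨M, h2, h3, h4⟩
    exact ⟨M, Finset.mem_Icc.2 ⟨h2, Nat.le_floor h3⟩, h4⟩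
  · have h2 : ∑ M ∈ Finset.Icc 1 ⌊Z⌋₊, B / (M : ℝ) =
        (∑ M ∈ Finset.Icc 1 ⌊Z⌋₊, (1 : ℝ) / M) * B := by
      rw [Finset.sum_mul]
      exact Finset.sum_congr rfl fun M _ => by ring
    rw [h2]
    refine mul_le_mul_of_nonneg_right ((h _).trans ?_) hB
    exact mul_le_mul_of_nonneg_left (Real.rpow_le_rpow (Nat.cast_nonneg _) hf hε.le) (by linarith)

/-- dyadic sum over a size -/
theorem cnt_dy (ε : ℝ) (hε : 0 < ε) : ∃ C₀ : ℝ, 1 ≤ C₀ ∧ ∀ {α : Type} (Z B : ℝ)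
    (P : ℝ → α → Prop), 1 ≤ Z → 0 ≤ B →
    (∀ T : ℝ, 1 ≤ T → T ≤ Z → Cnt (fun x => ∃ t : ℝ, T ≤ t ∧ t ≤ 2 * T ∧ P t x) B) →
    Cnt (fun x => ∃ t : ℝ, 1 ≤ t ∧ t ≤ Z ∧ P t x) (C₀ * Z ^ ε * B) := by
  obtain ⟨C₀, hC, h⟩ := cnt_dyadic ε hε
  refine ⟨C₀, hC, fun Z B P hZ hB hP => ?_⟩
  refine ((h Z hZ).fibre hB fun k hk => hP _ (one_le_pow₀ one_le_two) hk).mono ?_ le_rfl
  rintro x ⟨t, h1, h2, h3⟩
  obtain ⟨k, k1, k2⟩ := exists_dyadic t h1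
  exact ⟨k, k1.trans h2, t, k1, k2.le, h3⟩

/-- data times fibres, the size of the fibre being part of the property -/
theorem cnt_fib {α β : Type} {Q : β → Prop} {S : β → α → Prop} {A B : ℝ} (h : Cnt Q A)
    (hB : 0 ≤ B) : Cnt (fun x => ∃ y, Q y ∧ S y x ∧ Cnt (S y) B) (A * B) := by
  have h1 : Cnt (fun y => Q y ∧ Cnt (S y) B) A := h.mono (fun _ hy => hy.1) le_rfl
  refine (h1.fibre (P := S) hB fun y hy => hy.2).mono ?_ le_rfl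
  rintro x ⟨y, h2, h3, h4⟩
  exact ⟨y, ⟨h2, h4⟩, h3⟩

/-- all pairs, fibres of size `H ^ e / M ^ 2` -/
theorem ps_pow (n D : ℕ) (e C₁ : ℝ) (he : e < (n : ℝ) - 1) (hC : 0 ≤ C₁)
    (S : ℝ → ℕ → ℤ → ℤ[X] → Prop) : PS n fun H f => ∃ (M : ℕ) (r : ℤ), 1 ≤ M ∧
      (M : ℝ) ≤ H ^ D ∧ 0 ≤ r ∧ r < M ∧ S H M r f ∧
      Cnt (S H M r) (C₁ * H ^ e / (M : ℝ) ^ 2) := by
  obtain ⟨ε, hεd⟩ : ∃ ε : ℝ, ε = ((n : ℝ) - 1 - e) / (2 * (D + 1)) := ⟨_, rfl⟩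
  have hD : (0 : ℝ) ≤ D := Nat.cast_nonneg D
  have hε : 0 < ε := hεd ▸ div_pos (by linarith) (by linarith)
  have hε2 : ε * (2 * (D + 1)) = (n : ℝ) - 1 - e := by
    rw [hεd, div_mul_cancel₀ _ (by positivity)]
  obtain ⟨C₀, _, h⟩ := cnt_harm ε hε
  refine PS.of_lt (D * ε + e) (C₀ * C₁) 1 (by nlinarith) fun H hH => ?_
  have hH0 : 0 < H := by linarith
  have h1 := h (H ^ D) (C₁ * H ^ e) (fun (M : ℕ) (f : ℤ[X]) => ∃ r : ℤ, (0 ≤ r ∧ r < M) ∧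
    S H M r f ∧ Cnt (S H M r) (C₁ * H ^ e / (M : ℝ) ^ 2)) (one_le_pow₀ hH) (by positivity)
    fun M hM _ => (cnt_fib (cnt_res M) (by positivity)).mono (fun _ hx => hx) (le_of_eq (by
      have : (M : ℝ) ≠ 0 := by positivity
      field_simp))
  refine h1.mono ?_ (le_of_eq ?_)
  · rintro f ⟨_, M, r, h2, h3, h4, h5, h6⟩
    exact ⟨M, h2, h3, r, ⟨h4, h5⟩, h6⟩
  · rw [Real.rpow_add hH0, Real.rpow_natCast_mul hH0.le]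
    ring

end Pool.Agent.VW.Lat
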