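import Pool.Agent.P.MP_b0ea37_nt.WLRoot
import Pool.Agent.P.MP_b0ea37_nt.WLCnt

namespace Pool.Agent.VW.Lat

open Polynomial

theorem wlalpha_half {V ε : ℝ} (hV : 1 ≤ V) : V ^ ε = V ^ (ε / 2) * V ^ (ε / 2) := by
  rw [← Real.rpow_add (by linarith), add_halves]

theorem wlalpha_div {T m a : ℝ} (hT : 0 ≤ T) (hm : 1 ≤ m) (ha : 1 ≤ a) :
    (T / m ^ 2) ^ a * m ≤ T ^ a / m := by
  have h0 : 0 < m := by linarith
  have h1 : m ^ 2 ≤ (m ^ 2) ^ a := Real.self_le_rpow_of_one_le (one_le_pow₀ hm) ha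
  have h2 : 0 ≤ T ^ a := Real.rpow_nonneg hT a
  rw [Real.div_rpow hT (by positivity)]
  calc T ^ a / (m ^ 2) ^ a * m ≤ T ^ a / m ^ 2 * m := by gcongr
    _ = T ^ a / m := by field_simp

theorem wlalpha_dy {n : ℕ} {U T t a b W : ℝ} (hU : 0 ≤ U) (hU' : U ≤ 2 * T) (hT : 1 ≤ T)
    (h1 : T ≤ t) (h2 : t ≤ 2 * T) (ha : 0 ≤ a) (ha' : a ≤ n) (hb : 0 ≤ b) (hb' : b ≤ n)
    (hW : t ^ (a - b) ≤ W) : U ^ a / T ^ b ≤ 4 ^ n * W := by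
  have t0 : 0 < t := by linarith
  have T0 : 0 < T ^ b := Real.rpow_pos_of_pos (by linarith) b
  have p2 : ∀ c : ℝ, c ≤ n → (2 : ℝ) ^ c ≤ 2 ^ n := fun c hc => by
    rw [← Real.rpow_natCast]
    exact Real.rpow_le_rpow_of_exponent_le one_le_two hc
  have e1 : U ^ a ≤ 2 ^ n * t ^ a := by
    refine (Real.rpow_le_rpow hU (show U ≤ 2 * t by linarith) ha).trans ?_
    rw [Real.mul_rpow zero_le_two t0.le]
    exact mul_le_mul_of_nonneg_right (p2 a ha') (Real.rpow_nonneg t0.le a)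
  have e2 : t ^ b ≤ 2 ^ n * T ^ b := by
    refine (Real.rpow_le_rpow t0.le h2 hb).trans ?_
    rw [Real.mul_rpow zero_le_two (by linarith)]
    exact mul_le_mul_of_nonneg_right (p2 b hb') T0.le
  have e3 : t ^ a = t ^ (a - b) * t ^ b := by rw [← Real.rpow_add t0, sub_add_cancel]
  have e4 : 0 ≤ t ^ (a - b) := Real.rpow_nonneg t0.le _
  have e5 : 0 ≤ t ^ b := Real.rpow_nonneg t0.le _
  have e6 : (4 : ℝ) ^ n = 2 ^ n * 2 ^ n := by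
    rw [← mul_pow]
    norm_num
  rw [div_le_iff₀ T0, e6]
  calc U ^ a ≤ 2 ^ n * (t ^ (a - b) * t ^ b) := e3 ▸ e1
    _ ≤ 2 ^ n * (W * (2 ^ n * T ^ b)) := by
        have := e4.trans hW
        gcongr
    _ = 2 ^ n * 2 ^ n * W * T ^ b := by ring

theorem cnt_alpha (n : ℕ) (ε : ℝ) (hε : 0 < ε) : ∃ C₀ : ℝ, 1 ≤ C₀ ∧
    ∀ (V T Y A a : ℝ) (G : ℤ[X] → Prop) (N : ℤ[X] → ℕ), 1 ≤ T → T ≤ V → 0 ≤ Y → 0 ≤ A → 1 ≤ a →
    Fam n A a G → Cnt (fun z : ℕ × ℤ => ∃ g, G g ∧ g.supNorm ≤ T ∧ Tri V Y N z.1 z.2 g)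
      (C₀ * V ^ ε * (A * T ^ a * Y)) := by
  obtain ⟨C₁, c1, h1⟩ := cnt_harm (ε / 2) (half_pos hε)
  obtain ⟨C₂, c2, h2⟩ := cnt_share n (ε / 2) (half_pos hε)
  refine ⟨C₁ * C₂, one_le_mul_of_one_le_of_one_le c1 c2,
    fun V T Y A a G N hT hTV hY hA ha hF => ?_⟩
  have hV : 1 ≤ V := hT.trans hTV
  have v0 : 0 ≤ V ^ (ε / 2) := Real.rpow_nonneg (by linarith) _
  have t0 : 0 ≤ T ^ a := Real.rpow_nonneg (by linarith) _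
  have c0 : 0 ≤ C₂ := by linarith
  refine (h1 V (C₂ * V ^ (ε / 2) * (A * T ^ a * Y)) (fun m (z : ℕ × ℤ) => ∃ g' : ℤ[X],
    (G g' ∧ g'.supNorm ≤ T / (m : ℝ) ^ 2) ∧
      (N (C ((m : ℤ) ^ 2) * g') ≠ 0 ∧ (N (C ((m : ℤ) ^ 2) * g') : ℝ) ≤ V) ∧
      Squarefree z.1 ∧ (z.1 : ℝ) ≤ V ∧ 0 ≤ z.2 ∧ z.2 < z.1 ∧
      (∃ M' : ℕ, 1 ≤ M' ∧ (M' : ℝ) ≤ Y ∧ z.1 ∣ N (C ((m : ℤ) ^ 2) * g') * M') ∧
      ∃ M₂ : ℕ, z.1 = m * M₂ ∧ (M₂ : ℤ) ∣ (C ((m : ℤ) ^ 2) * g').primPart.eval z.2)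
    hV (by positivity) fun m hm _ => ?_).mono ?_ (le_of_eq ?_)
  · have m1 : (1 : ℝ) ≤ m := by exact_mod_cast hm
    have b0 : 0 ≤ C₂ * V ^ (ε / 2) * Y * m := by positivity
    rcases lt_or_ge (T / (m : ℝ) ^ 2) 1 with hU | hU
    · refine Cnt.empty ?_ (by positivity)
      rintro z ⟨g', ⟨a1, a2⟩, -⟩
      linarith [one_le_sup (hF.1 g' a1).1]
    refine (Cnt.fibre (hF.2.2 _ hU) b0 fun g' hg' => Cnt.of_mem b0 fun z hz => ?_).mono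
      (fun _ h => h) ?_
    · refine (h2 V Y _ _ m hV hY (isPrimitive_primPart _) ?_ hz.1.1 hz.1.2 hm).mono
        (fun _ h => h.2) le_rfl
      rw [natDegree_primPart]
      exact (natDegree_C_mul_le _ _).trans (hF.1 g' hg'.1).2.le
    · calc A * (T / (m : ℝ) ^ 2) ^ a * (C₂ * V ^ (ε / 2) * Y * m)
          = C₂ * V ^ (ε / 2) * (A * Y) * ((T / (m : ℝ) ^ 2) ^ a * m) := by ring
        _ ≤ C₂ * V ^ (ε / 2) * (A * Y) * (T ^ a / m) :=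
            mul_le_mul_of_nonneg_left (wlalpha_div (by linarith) m1 ha) (by positivity)
        _ = _ := by ring
  · rintro ⟨M, r⟩ ⟨g, a1, a2, b1, b2, b3, b4, b5, b6, b7, b8⟩
    obtain ⟨m, M₂, g', d1, d2, rfl, d4⟩ := alpha_split b1 b5
    have m1 : (1 : ℝ) ≤ m := by exact_mod_cast d1
    have m2 : m ≤ M := Nat.le_of_dvd (Nat.pos_of_ne_zero b1.ne_zero) ⟨M₂, d2⟩
    refine ⟨m, d1, (Nat.cast_le.2 m2).trans b2, g', ⟨hF.2.1 _ g' (by positivity) a1, ?_⟩,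
      ⟨b6, b7⟩, b1, b2, b3, b4, b8, M₂, d2, d4⟩
    rw [sup_C_mul_int] at a2
    push_cast at a2
    rw [abs_of_nonneg (by positivity)] at a2
    rw [le_div_iff₀ (by positivity)]
    linarith
  · rw [wlalpha_half (ε := ε) hV]
    ring

theorem cnt_alpha_fib (n : ℕ) (ε : ℝ) (hε : 0 < ε) : ∃ C₀ : ℝ, 1 ≤ C₀ ∧
    ∀ (V Y A a b B W : ℝ) (G : ℤ[X] → Prop) (N : ℤ[X] → ℕ) (S : ℕ → ℤ → ℤ[X] → Prop),
    1 ≤ V → 0 ≤ Y → 0 ≤ A → 1 ≤ a → a ≤ n → 0 ≤ b → b ≤ n → 0 ≤ B → 0 ≤ W → Fam n A a G →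
    Cnt (fun f => ∃ (M : ℕ) (r : ℤ) (g : ℤ[X]), G g ∧ g.supNorm ≤ V ∧ g.supNorm ^ (a - b) ≤ W ∧
      Tri V Y N M r g ∧ S M r f ∧ Cnt (S M r) (B / g.supNorm ^ b))
      (C₀ * V ^ ε * (A * Y * B * W)) := by
  obtain ⟨C₁, c1, h1⟩ := cnt_dy (ε / 2) (half_pos hε)
  obtain ⟨C₂, c2, h2⟩ := cnt_alpha n (ε / 2) (half_pos hε)
  refine ⟨C₁ * (C₂ * 4 ^ n), one_le_mul_of_one_le_of_one_le c1
    (one_le_mul_of_one_le_of_one_le c2 (one_le_pow₀ (by norm_num))),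
    fun V Y A a b B W G N S hV hY hA ha ha' hb hb' hB hW hF => ?_⟩
  have v0 : 0 ≤ V ^ (ε / 2) := Real.rpow_nonneg (by linarith) _
  have c0 : 0 ≤ C₂ := by linarith
  have b0 : 0 ≤ C₂ * 4 ^ n * V ^ (ε / 2) * (A * Y * B * W) := by positivity
  refine (h1 V _ (fun t f => ∃ (M : ℕ) (r : ℤ) (g : ℤ[X]), g.supNorm = t ∧ G g ∧ t ≤ V ∧
    t ^ (a - b) ≤ W ∧ Tri V Y N M r g ∧ S M r f ∧ Cnt (S M r) (B / t ^ b)) hV b0
    fun T hT hTV => Cnt.of_mem b0 ?_).mono ?_ (le_of_eq ?_)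
  · rintro - ⟨t₀, k1, k2, -, -, -, -, -, -, k3, -⟩
    have T0 : 0 < T ^ b := Real.rpow_pos_of_pos (by linarith) b
    have u1 : 1 ≤ min (2 * T) V := le_min (by linarith) hV
    refine (cnt_fib (S := fun (z : ℕ × ℤ) f => S z.1 z.2 f) (B := B / T ^ b)
      (h2 V _ Y A a G N u1 (min_le_right _ _) hY hA ha hF) (by positivity)).mono ?_ ?_
    · rintro f ⟨t, a1, a2, M, r, g, rfl, a3, a4, -, a5, a6, a7⟩
      refine ⟨(M, r), ⟨g, a3, le_min a2 a4, a5⟩, a6, a7.mono (fun _ h => h) ?_⟩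
      exact div_le_div_of_nonneg_left hB T0 (Real.rpow_le_rpow (by linarith) a1 hb)
    · calc C₂ * V ^ (ε / 2) * (A * min (2 * T) V ^ a * Y) * (B / T ^ b)
          = C₂ * V ^ (ε / 2) * (A * Y * B) * (min (2 * T) V ^ a / T ^ b) := by ring
        _ ≤ C₂ * V ^ (ε / 2) * (A * Y * B) * (4 ^ n * W) :=
            mul_le_mul_of_nonneg_left (wlalpha_dy (by linarith) (min_le_left _ _) hT k1 k2
              (by linarith) ha' hb hb' k3) (by positivity)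
        _ = _ := by ring
  · rintro f ⟨M, r, g, a1, a2, a3⟩
    exact ⟨_, one_le_sup (hF.1 g a1).1, a2, M, r, g, rfl, a1, a2, a3⟩
  · rw [wlalpha_half (ε := ε) hV]
    ring

end Pool.Agent.VW.Lat
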