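import Pool.Agent.P.MP_b0ea37_nt.WLWk
import Pool.Agent.P.MP_b0ea37_nt.WLine
import Pool.Agent.P.MP_b0ea37_nt.WCnt

namespace Pool.Agent.VW.Lat

open Polynomial

theorem wlbox_len {T H : ℝ} (hT : 1 ≤ T) (hTH : T ≤ H) : ∃ L : ℕ, 1 ≤ L ∧ (L : ℝ) ≤ H ∧
    L * T ≤ H ∧ 1 / (L : ℝ) ≤ 2 * (T / H) := by
  have hT0 : 0 < T := by linarith
  have hH0 : 0 < H := by linarith
  have h1 : 1 ≤ H / T := by rw [le_div_iff₀ hT0]; linarith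
  have h2 : 1 ≤ ⌊H / T⌋₊ := Nat.le_floor (by simpa using h1)
  have h3 : (⌊H / T⌋₊ : ℝ) ≤ H / T := Nat.floor_le (by positivity)
  have h4 : H / T < ⌊H / T⌋₊ + 1 := Nat.lt_floor_add_one _
  have h5 : (1 : ℝ) ≤ ⌊H / T⌋₊ := by exact_mod_cast h2
  have h6 : (⌊H / T⌋₊ : ℝ) * T ≤ H := by rwa [le_div_iff₀ hT0] at h3
  refine ⟨_, h2, by nlinarith, h6, ?_⟩
  rw [div_lt_iff₀ hT0] at h4
  rw [← mul_div_assoc, div_le_div_iff₀ (by linarith) hH0]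
  nlinarith

theorem wlbox_plus {n K L M : ℕ} {r : ℤ} {T H : ℝ} {f g₁ g₂ : ℤ[X]} (hLT : L * T ≤ H)
    (h₁ : Lam n M r g₁) (h₂ : Lam n M r g₂) (hT₁ : g₁.supNorm ≤ T) (hT₂ : g₂.supNorm ≤ T)
    (hf : Bad n f) (hH : f.supNorm ≤ H) (hw : Wk M r f) (s t : ℤ) (hs : |s| ≤ L)
    (ht : |t| ≤ K * L) : Plus n (((K + 2 : ℕ) : ℝ) * H) M r (f + C s * g₁ + C t * g₂) := by
  have e : f + C s * g₁ + C t * g₂ = f + (C s * g₁ + C t * g₂) := add_assoc _ _ _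
  have hl := (h₁.C_mul s).add (h₂.C_mul t)
  have hm := monic_add_of_lt hf.1 hf.2.1 hl.1
  rw [e]
  refine ⟨hm.1, hm.2, ?_, wk_add hw hl.2⟩
  have a1 := sup_add_le f (C s * g₁ + C t * g₂)
  have a2 := sup_add_le (C s * g₁) (C t * g₂)
  rw [sup_C_mul_int, sup_C_mul_int] at a2
  have hs' : |(s : ℝ)| ≤ L := by exact_mod_cast hs
  have ht' : |(t : ℝ)| ≤ K * L := by exact_mod_cast ht
  have b1 : |(s : ℝ)| * g₁.supNorm ≤ L * T :=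
    mul_le_mul hs' hT₁ g₁.supNorm_nonneg (by positivity)
  have b2 : |(t : ℝ)| * g₂.supNorm ≤ K * L * T :=
    mul_le_mul ht' hT₂ g₂.supNorm_nonneg (by positivity)
  have b3 : (K : ℝ) * L * T ≤ K * H := by
    rw [mul_assoc]; exact mul_le_mul_of_nonneg_left hLT (by positivity)
  push_cast
  linarith

theorem wlbox_big {n K M : ℕ} {r : ℤ} {T H B E c : ℝ} {S : ℤ[X] → Prop} (hH : 1 ≤ H)
    (hHT : H ≤ T) (hE : 1 ≤ E) (hc : 0 ≤ c)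
    (hS : ∀ f, S f → Bad n f ∧ f.supNorm ≤ H ∧ Wk M r f)
    (hB : Cnt (Plus n (((K + 2 : ℕ) : ℝ) * H) M r) B) : Cnt S (E * B * (T / H) ^ c) := by
  have hB0 := hB.nonneg
  have h1 : 1 ≤ (T / H) ^ c :=
    Real.one_le_rpow (by rw [le_div_iff₀ (by linarith)]; linarith) hc
  refine hB.mono (fun f hf => ?_) ?_
  · obtain ⟨a, b, d⟩ := hS f hf
    refine ⟨a.1, a.2.1, b.trans ?_, d⟩
    have : (0 : ℝ) ≤ K := by positivity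
    push_cast
    nlinarith
  · calc B = 1 * B * 1 := by ring
      _ ≤ E * B * (T / H) ^ c := by gcongr

theorem llp_half (n : ℕ) (hn : 5 ≤ n) : ∃ K : ℕ, 1 ≤ K ∧ ∀ ε : ℝ, 0 < ε → ∃ C₀ : ℝ, 1 ≤ C₀ ∧
    ∀ (H : ℝ) (M : ℕ) (r : ℤ), 1 ≤ H → LLp n (K * H) H (C₀ * H ^ ε) (1 / 2) M r
      (fun f => Bad n f ∧ f.supNorm ≤ H ∧ Wk M r f) := by
  obtain ⟨K, hK⟩ := ll_half n hn
  refine ⟨K + 2, by omega, fun ε hε => ?_⟩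
  obtain ⟨C₀, hC, h⟩ := hK ε hε
  refine ⟨2 * C₀, by linarith, fun H M r hH T B g₁ g₂ h₁ h₂ hi hT₁ hT₂ hB => ?_⟩
  have hB0 := hB.nonneg
  have hε1 : 1 ≤ H ^ ε := Real.one_le_rpow hH hε.le
  have hT : 1 ≤ T := (one_le_sup (indep_ne_left hi)).trans hT₁
  rcases le_total H T with hHT | hTH
  · exact wlbox_big hH hHT (by nlinarith) (by norm_num) (fun f hf => hf) hB
  obtain ⟨L, hL1, hLH, hLT, hL⟩ := wlbox_len hT hTH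
  refine (h H B L g₁ g₂ (fun f => Bad n f ∧ f.supNorm ≤ H ∧ Wk M r f) _ hL1 hLH h₁.1 h₂.1 hi
    (hT₁.trans hTH) (hT₂.trans hTH) (fun f hf => ⟨hf.1, hf.2.1⟩)
    (fun f hf s t hs ht => wlbox_plus hLT h₁ h₂ hT₁ hT₂ hf.1 hf.2.1 hf.2.2 s t hs ht) hB).mono
    (fun f hf => hf) ?_
  have hq : 0 ≤ T / H := by positivity
  have a1 : 1 / √(L : ℝ) ≤ 2 * (T / H) ^ (1 / 2 : ℝ) := by
    rw [← Real.sqrt_eq_rpow, ← Real.sqrt_one, ← Real.sqrt_div zero_le_one]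
    calc √(1 / (L : ℝ)) ≤ √(2 ^ 2 * (T / H)) := Real.sqrt_le_sqrt (by linarith)
      _ = 2 * √(T / H) := by rw [Real.sqrt_mul (by norm_num), Real.sqrt_sq (by norm_num)]
  calc C₀ * H ^ ε * B / √(L : ℝ) = C₀ * H ^ ε * B * (1 / √(L : ℝ)) := by ring
    _ ≤ C₀ * H ^ ε * B * (2 * (T / H) ^ (1 / 2 : ℝ)) := by gcongr
    _ = _ := by ring

theorem llp_zero (n : ℕ) (hn : 5 ≤ n) : ∃ K : ℕ, 1 ≤ K ∧ ∀ ε : ℝ, 0 < ε → ∃ C₀ : ℝ, 1 ≤ C₀ ∧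
    ∀ (H : ℝ) (M : ℕ) (r : ℤ), 1 ≤ H → 1 ≤ M → (M : ℝ) ≤ H →
      LLp n (K * H) H (C₀ * H ^ ε) 1 M r
      (fun f => Bad n f ∧ f.supNorm ≤ H ∧ Wk M r f ∧ WkIn M f) := by
  obtain ⟨K, hK⟩ := ll_zero n hn
  refine ⟨K + 2, by omega, fun ε hε => ?_⟩
  obtain ⟨C₀, hC, h⟩ := hK ε hε
  refine ⟨2 * C₀, by linarith, fun H M r hH hM hMH T B g₁ g₂ h₁ h₂ hi hT₁ hT₂ hB => ?_⟩
  have hB0 := hB.nonneg
  have hε1 : 1 ≤ H ^ ε := Real.one_le_rpow hH hε.le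
  have hT : 1 ≤ T := (one_le_sup (indep_ne_left hi)).trans hT₁
  rcases le_total H T with hHT | hTH
  · exact wlbox_big hH hHT (by nlinarith) zero_le_one (fun f hf => ⟨hf.1, hf.2.1, hf.2.2.1⟩) hB
  obtain ⟨L, hL1, hLH, hLT, hL⟩ := wlbox_len hT hTH
  refine (h H B M L g₁ g₂ (fun f => Bad n f ∧ f.supNorm ≤ H ∧ Wk M r f ∧ WkIn M f) _ hM hMH hL1
    hLH h₁.1 h₂.1 hi (hT₁.trans hTH) (hT₂.trans hTH) (fun f hf => ⟨hf.1, hf.2.1, hf.2.2.2⟩)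
    (fun f hf s t hs ht => wlbox_plus hLT h₁ h₂ hT₁ hT₂ hf.1 hf.2.1 hf.2.2.1 s t hs ht) hB).mono
    (fun f hf => hf) ?_
  rw [Real.rpow_one]
  calc C₀ * H ^ ε * B / (L : ℝ) = C₀ * H ^ ε * B * (1 / (L : ℝ)) := by ring
    _ ≤ C₀ * H ^ ε * B * (2 * (T / H)) := by gcongr
    _ = _ := by ring

end Pool.Agent.VW.Lat
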