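import Pool.Agent.P.MP_b0ea37_nt.WLF

namespace Pool.Agent.VW.Lat

open Polynomial

theorem wlcl_aux (d j : ℕ) (C₁ : ℝ) (hC : 0 ≤ C₁) : ∃ c : ℝ, 1 ≤ c ∧ ∀ (m : ℕ) (r : ℤ) (B B' : ℝ),
    m ≤ d → 0 ≤ B → 0 ≤ B' → ∀ (e : ℕ) (k : ℤ[X]) (M : ℕ) (P : ℤ[X] → Prop), k.natDegree = e →
    k.IsPrimitive → Squarefree k → k.natDegree ≤ d → 1 ≤ M → (M : ℤ) ∣ k.eval r →
    (∀ u v, P u → P v → (u - v).natDegree ≤ m ∧ (u - v).supNorm ≤ B) →
    (∀ (h : ℤ[X]) (M' : ℕ), Irr h → h ∣ k → M' ∣ M → (M' : ℤ) ∣ h.eval r →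
      (M' : ℝ) ^ j ≤ C₁ * B ^ h.natDegree * h.supNorm ^ (m + 1) ∧
      ∀ u v, P u → P v → (M' : ℤ) ^ j ∣ resultant h (u - v) h.natDegree m) →
    (∀ a, P a → Cnt (fun u => P u ∧ k ∣ u - a) B') →
    Cnt P (c ^ e * B ^ e * k.supNorm ^ (m + 1) / (M : ℝ) ^ j * B') := by
  obtain ⟨F, hF, hf⟩ := f_lemma d
  obtain ⟨c, hc⟩ : ∃ c : ℝ, c = F * (C₁ + 1) * (4 ^ d) ^ (d + 1) := ⟨_, rfl⟩
  have h4 : (1 : ℝ) ≤ 4 ^ d := one_le_pow₀ (by norm_num)
  have hc1 : 1 ≤ c := by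
    rw [hc]
    exact one_le_mul_of_one_le_of_one_le (one_le_mul_of_one_le_of_one_le hF (by linarith))
      (one_le_pow₀ h4)
  refine ⟨c, hc1, fun m r B B' hm hB hB' e => ?_⟩
  induction e using Nat.strong_induction_on with
  | _ e ih =>
  intro k M P he hp hs hd hM hr h1 h2 h3
  have hk0 : k ≠ 0 := hp.ne_zero
  by_cases hu : IsUnit k
  · have h0 : e = 0 := by rw [← he]; exact natDegree_eq_zero_of_isUnit hu
    have hM1 : M = 1 := by
      have := isUnit_of_dvd_unit hr (hu.map (evalRingHom r))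
      rw [Int.isUnit_iff_natAbs_eq] at this
      simpa using this
    have hk1 := one_le_sup hk0
    have hk2 : 1 ≤ k.supNorm ^ (m + 1) := one_le_pow₀ hk1
    subst h0 hM1
    refine Cnt.of_mem (by positivity) fun a ha => (h3 a ha).mono (fun u h => ⟨h, hu.dvd⟩) ?_
    simp only [pow_zero, Nat.cast_one, one_pow, div_one, one_mul]
    nlinarith
  obtain ⟨h, hi, k₁, hk⟩ := WfDvdMonoid.exists_irreducible_factor hu hk0
  have hhp : h.IsPrimitive := isPrimitive_of_dvd hp ⟨k₁, hk⟩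
  have hkp : k₁.IsPrimitive := isPrimitive_of_dvd hp (Dvd.intro_left _ hk.symm)
  have hI : Irr h := (IsPrimitive.Int.irreducible_iff_irreducible_map_cast hhp).1 hi
  have hpos : 0 < h.natDegree := by
    have := Irreducible.natDegree_pos hI
    rwa [natDegree_map_eq_of_injective (RingHom.injective_int _)] at this
  have hdeg : e = h.natDegree + k₁.natDegree := by
    rw [← he, hk, natDegree_mul hhp.ne_zero hkp.ne_zero]
  have hsq := squarefree_mul_iff.1 (hk ▸ hs)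
  have hr' : M ∣ (h.eval r).natAbs * (k₁.eval r).natAbs := by
    rw [← Int.natAbs_mul, ← eval_mul, ← hk]
    exact Int.natCast_dvd.1 hr
  obtain ⟨M₁, M₂, hM₁, hM₂, hMM⟩ := exists_dvd_and_dvd_of_dvd_mul hr'
  have hM₁0 : 1 ≤ M₁ := Nat.pos_of_ne_zero (by rintro rfl; simp at hMM; omega)
  have hM₂0 : 1 ≤ M₂ := Nat.pos_of_ne_zero (by rintro rfl; simp at hMM; omega)
  obtain ⟨b1, b2⟩ := h2 h M₁ hI ⟨k₁, hk⟩ ⟨M₂, hMM⟩ (Int.natCast_dvd.2 hM₁)
  have q1 : (0 : ℝ) < (M₁ : ℝ) ^ j := by positivity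
  have q2 : (0 : ℝ) < (M₂ : ℝ) ^ j := by positivity
  have s1 := one_le_sup hhp.ne_zero
  have s2 := one_le_sup hkp.ne_zero
  have s3 := one_le_sup hk0
  have G := Cnt.greedy (P := P) (fun u v => h ∣ u - v) (fun x _ => by simp)
    (fun x y _ _ hxy => dvd_sub_comm.1 hxy)
    (B := F * (C₁ + 1) * (B ^ h.natDegree * h.supNorm ^ (m + 1) / (M₁ : ℝ) ^ j))
    (B' := c ^ k₁.natDegree * B ^ k₁.natDegree * k₁.supNorm ^ (m + 1) / (M₂ : ℝ) ^ j * B')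
    (by positivity) ?_ ?_
  · refine G.mono (fun _ h => h) ?_
    have g1 : h.supNorm * k₁.supNorm ≤ 4 ^ d * k.supNorm := by
      have := gelfond h k₁ (m := d) (by rwa [← hk])
      rwa [← hk] at this
    have g2 : (h.supNorm * k₁.supNorm) ^ (m + 1) ≤ (4 ^ d) ^ (d + 1) * k.supNorm ^ (m + 1) := by
      calc _ ≤ (4 ^ d * k.supNorm) ^ (m + 1) := by gcongr
        _ = (4 ^ d) ^ (m + 1) * k.supNorm ^ (m + 1) := mul_pow _ _ _
        _ ≤ _ := by gcongr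
    have g3 : c * c ^ k₁.natDegree ≤ c ^ e := by
      rw [← pow_succ']
      exact pow_le_pow_right₀ hc1 (by omega)
    calc _ = F * (C₁ + 1) * (h.supNorm * k₁.supNorm) ^ (m + 1) * c ^ k₁.natDegree *
          (B ^ e / (M : ℝ) ^ j * B') := by
          rw [hdeg, hMM, pow_add B, Nat.cast_mul, mul_pow (M₁ : ℝ), mul_pow h.supNorm]
          field_simp
      _ ≤ F * (C₁ + 1) * ((4 ^ d) ^ (d + 1) * k.supNorm ^ (m + 1)) * c ^ k₁.natDegree *
          (B ^ e / (M : ℝ) ^ j * B') := by gcongr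
      _ = c * c ^ k₁.natDegree * (k.supNorm ^ (m + 1) * (B ^ e / (M : ℝ) ^ j * B')) := by
          rw [hc]; ring
      _ ≤ c ^ e * (k.supNorm ^ (m + 1) * (B ^ e / (M : ℝ) ^ j * B')) := by gcongr
      _ = _ := by ring
  · intro S hS hS'
    have := hf h m (M₁ ^ j) B S hI (by omega) hm (Nat.one_le_pow _ _ hM₁0) hB
      (fun u hu v hv => ⟨(h1 u v (hS u hu) (hS v hv)).1, (h1 u v (hS u hu) (hS v hv)).2, by
        exact_mod_cast b2 u v (hS u hu) (hS v hv)⟩)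
      (fun u hu v hv huv hd => hS' u hu v hv huv
        ((IsPrimitive.Int.dvd_iff_map_cast_dvd_map_cast _ _ hhp).2 hd))
    refine this.trans ?_
    rw [mul_assoc F, Nat.cast_pow]
    refine mul_le_mul_of_nonneg_left ?_ (by linarith)
    have g1 : 1 ≤ C₁ * (B ^ h.natDegree * h.supNorm ^ (m + 1) / (M₁ : ℝ) ^ j) := by
      rw [← mul_div_assoc, le_div_iff₀ q1, one_mul, ← mul_assoc]
      exact b1
    have g2 : B ^ h.natDegree * h.supNorm ^ m / (M₁ : ℝ) ^ j ≤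
        B ^ h.natDegree * h.supNorm ^ (m + 1) / (M₁ : ℝ) ^ j := by
      gcongr
      omega
    linarith
  · intro a _
    refine ih k₁.natDegree (by omega) k₁ M₂ (fun x => P x ∧ h ∣ a - x) rfl hkp hsq.2.2 (by omega)
      hM₂0 (Int.natCast_dvd.2 hM₂) (fun u v hu hv => h1 u v hu.1 hv.1) ?_ ?_
    · intro h' M' hI' hd' hM' hr''
      obtain ⟨b3, b4⟩ := h2 h' M' hI' (hd'.trans (Dvd.intro_left _ hk.symm))
        (hM'.trans (Dvd.intro_left _ hMM.symm)) hr''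
      exact ⟨b3, fun u v hu hv => b4 u v hu.1 hv.1⟩
    · intro a' ha'
      refine (h3 a' ha'.1).mono (fun u hu => ⟨hu.1.1, ?_⟩) le_rfl
      rw [hk]
      refine hsq.1.mul_dvd ?_ hu.2
      have := dvd_sub ha'.2 hu.1.2
      rwa [show a - a' - (a - u) = u - a' by ring] at this

/-- classes modulo a squarefree polynomial -/
theorem class_lemma (d j : ℕ) (C₁ : ℝ) (hC : 0 ≤ C₁) : ∃ C₀ : ℝ, 1 ≤ C₀ ∧
    ∀ (k : ℤ[X]) (M m : ℕ) (r : ℤ) (B B' : ℝ) (P : ℤ[X] → Prop), k.IsPrimitive → Squarefree k →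
    k.natDegree ≤ d → m ≤ d → 1 ≤ M → 0 ≤ B → 0 ≤ B' → (M : ℤ) ∣ k.eval r →
    (∀ u v, P u → P v → (u - v).natDegree ≤ m ∧ (u - v).supNorm ≤ B) →
    (∀ (h : ℤ[X]) (M' : ℕ), Irr h → h ∣ k → M' ∣ M → (M' : ℤ) ∣ h.eval r →
      (M' : ℝ) ^ j ≤ C₁ * B ^ h.natDegree * h.supNorm ^ (m + 1) ∧
      ∀ u v, P u → P v → (M' : ℤ) ^ j ∣ resultant h (u - v) h.natDegree m) →
    (∀ a, P a → Cnt (fun u => P u ∧ k ∣ u - a) B') →
    Cnt P (C₀ * B ^ k.natDegree * k.supNorm ^ (m + 1) / (M : ℝ) ^ j * B') := by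
  obtain ⟨c, hc, h⟩ := wlcl_aux d j C₁ hC
  refine ⟨c ^ d, one_le_pow₀ hc, fun k M m r B B' P hp hs hd hm hM hB hB' hr h1 h2 h3 => ?_⟩
  refine (h m r B B' hm hB hB' _ k M P rfl hp hs hd hM hr h1 h2 h3).mono (fun _ h => h) ?_
  have := supNorm_nonneg k
  gcongr

end Pool.Agent.VW.Lat
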