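import Pool.Agent.P.MP_b0ea37_nt.WLWk
import Pool.Agent.P.MP_b0ea37_nt.WPack

namespace Pool.Agent.VW.Lat

open Polynomial

theorem wldef_idx {n : ℕ} (hn : 1 ≤ n) {g : ℤ[X]} (hg : g.natDegree < n) :
    ∃ i : Fin n, |vec n g i| = g.supNorm := by
  have : Nonempty (Fin n) := ⟨⟨0, hn⟩⟩
  obtain ⟨i, -, hi⟩ := Finset.exists_max_image Finset.univ (fun i : Fin n => |vec n g i|)
    Finset.univ_nonempty
  refine ⟨i, le_antisymm ?_ ?_⟩
  · rw [← norm_vec hg]; exact norm_le_pi_norm (vec n g) i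
  · rw [← norm_vec hg]
    exact (pi_norm_le_iff_of_nonneg (abs_nonneg _)).2 fun j => hi j (Finset.mem_univ j)

/-- distance from the line of the shortest vector -/
theorem wldef_sep {n M : ℕ} {r : ℤ} {g₁ g₂ u : ℤ[X]} (hmin : Min12 n M r g₁ g₂)
    (hu : Lam n M r u) (hi : Indep g₁ u) (t : ℝ) :
    g₂.supNorm / 2 ≤ ‖vec n u - t • vec n g₁‖ := by
  obtain ⟨h1, h2, h12, hm1, hm2⟩ := hmin
  have hT : g₁.supNorm ≤ g₂.supNorm := hm1 g₂ h2 (indep_ne_right h12)
  have hL : Lam n M r (u - C (round t) * g₁) := hu.sub (h1.C_mul _)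
  have h3 := hm2 _ hL (indep_sub_C_mul hi _)
  rw [← norm_vec hL.1, vec_sub, vec_C_mul] at h3
  have e : vec n u - ((round t : ℤ) : ℝ) • vec n g₁ =
      (vec n u - t • vec n g₁) + (t - round t) • vec n g₁ := by
    rw [sub_smul]; abel
  have h4 := norm_add_le (vec n u - t • vec n g₁) ((t - round t) • vec n g₁)
  rw [← e, norm_smul, norm_vec h1.1, Real.norm_eq_abs] at h4
  have h5 := mul_le_mul_of_nonneg_right (abs_sub_round t) g₁.supNorm_nonneg
  linarith

/-- two points related to a third one differ by a multiple of `g₁` -/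
theorem wldef_line {n : ℕ} {g₁ a x y : ℤ[X]} (hg : g₁ ≠ 0) (i : Fin n)
    (hi : |vec n g₁ i| = g₁.supNorm) (hx : ¬ Indep g₁ (a - x)) (hy : ¬ Indep g₁ (a - y)) :
    |vec n x i - vec n y i| = (x - y).supNorm := by
  obtain ⟨c, b, hb, hcb⟩ := (not_indep_iff hg).1 hx
  obtain ⟨c', b', hb', hcb'⟩ := (not_indep_iff hg).1 hy
  have e : C (b * b') * (x - y) = C (b * c' - b' * c) * g₁ := by
    rw [C_sub, C_mul, C_mul, C_mul]
    linear_combination C b * hcb' - C b' * hcb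
  have h1 := congrArg supNorm e
  rw [sup_C_mul_int, sup_C_mul_int] at h1
  have h2 := congrArg (fun g => |vec n g i|) e
  simp only [vec_C_mul, vec_sub, Pi.smul_apply, Pi.sub_apply, smul_eq_mul] at h2
  rw [abs_mul, abs_mul, hi, ← h1] at h2
  have h3 : |((b * b' : ℤ) : ℝ)| ≠ 0 := abs_ne_zero.2 (Int.cast_ne_zero.2 (mul_ne_zero hb hb'))
  exact mul_left_cancel₀ h3 h2

/-- the lattice has deficient rank in the box `2 * R` -/
theorem cnt_def (n : ℕ) (hn : 2 ≤ n) (R : ℝ) (hR : 0 ≤ R) (M : ℕ) (r : ℤ) (g₁ g₂ : ℤ[X])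
    (hmin : Min12 n M r g₁ g₂)
    (h : Submodule.span ℝ (vec n '' {g | Lam n M r g ∧ g.supNorm ≤ 2 * R}) ≠ ⊤) :
    Cnt (Plus n R M r) ((1 + 16 * R / g₂.supNorm) ^ (n - 2) * (1 + 4 * R / g₁.supNorm)) := by
  have hn1 : 1 ≤ n := by omega
  have hg : g₁ ≠ 0 := indep_ne_left hmin.2.2.1
  have hT1 : 0 < g₁.supNorm := one_pos.trans_le (one_le_sup hg)
  have hT2 : 0 < g₂.supNorm := one_pos.trans_le (one_le_sup (indep_ne_right hmin.2.2.1))
  by_cases hc : 2 * R < g₁.supNorm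
  · refine (Cnt.one fun x y hx hy => ?_).mono (fun _ hx => hx) ?_
    · by_contra hne
      have h1 := hx.sub hn1 hy
      have h2 := hmin.2.2.2.1 _ h1.1 (sub_ne_zero.2 hne)
      linarith [h1.2]
    · refine one_le_mul_of_one_le_of_one_le (one_le_pow₀ ?_) ?_
      · exact le_add_of_nonneg_right (by positivity)
      · exact le_add_of_nonneg_right (by positivity)
  obtain ⟨V, hV⟩ : ∃ V, V = Submodule.span ℝ (vec n '' {g | Lam n M r g ∧ g.supNorm ≤ 2 * R}) :=
    ⟨_, rfl⟩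
  have hmem : ∀ g, Lam n M r g → g.supNorm ≤ 2 * R → vec n g ∈ V := fun g h1 h2 =>
    hV ▸ Submodule.subset_span ⟨g, ⟨h1, h2⟩, rfl⟩
  have hV1 : Module.finrank ℝ V < n := by
    have := Submodule.finrank_lt (hV ▸ h : V ≠ ⊤)
    rwa [Module.finrank_fin_fun] at this
  obtain ⟨i, hi⟩ := wldef_idx hn1 hmin.1.1
  have hi0 : vec n g₁ i ≠ 0 := abs_pos.1 (hi ▸ hT1)
  have hg1V : vec n g₁ ∈ V := hmem g₁ hmin.1 (not_lt.1 hc)
  obtain ⟨V', hV'⟩ : ∃ V' : Submodule ℝ (Fin n → ℝ), ∀ v, v ∈ V' ↔ v ∈ V ∧ v i = 0 :=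
    ⟨V ⊓ LinearMap.ker (LinearMap.proj i), fun _ => Iff.rfl⟩
  have hV2 : Module.finrank ℝ V' ≤ n - 2 := by
    have h1 : V' < V := by
      refine lt_of_le_of_ne (fun v hv => ((hV' v).1 hv).1) fun e => hi0 ?_
      exact ((hV' _).1 (e ▸ hg1V)).2
    have := Submodule.finrank_lt_finrank_of_lt h1
    omega
  refine Cnt.greedy (fun f f' => ¬ Indep g₁ (f - f')) (fun x _ hx => ?_)
    (fun x y _ _ hxy hyx => ?_) (by positivity) (fun S hS hsep => ?_) (fun a ha S hS => ?_)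
  · exact indep_ne_right hx (sub_self x)
  · have := indep_neg_right hyx
    rw [neg_sub] at this
    exact hxy this
  · have e : ∀ x y : ℤ[X], (vec n x - (vec n x i / vec n g₁ i) • vec n g₁) -
        (vec n y - (vec n y i / vec n g₁ i) • vec n g₁) =
        vec n (x - y) - (vec n (x - y) i / vec n g₁ i) • vec n g₁ := by
      intro x y
      rw [vec_sub, Pi.sub_apply, sub_div, sub_smul]
      abel
    have h1 := pack_semi (normSeminorm ℝ (Fin n → ℝ)) V' (n - 2) hV2 (4 * R) (g₂.supNorm / 2)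
      (by positivity) (by positivity) S
      (fun x => vec n x - (vec n x i / vec n g₁ i) • vec n g₁) (fun x hx y hy => ?_)
      (fun x hx y hy => ?_) (fun x hx y hy hne => ?_)
    · refine h1.trans (le_of_eq ?_)
      congr 2
      field_simp
      ring
    · have h2 := (hS x hx).sub hn1 (hS y hy)
      rw [e, hV']
      refine ⟨V.sub_mem (hmem _ h2.1 h2.2) (V.smul_mem _ hg1V), ?_⟩
      rw [Pi.sub_apply, Pi.smul_apply, smul_eq_mul, div_mul_cancel₀ _ hi0, sub_self]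
    · have h2 := (hS x hx).sub hn1 (hS y hy)
      rw [e, coe_normSeminorm]
      refine (norm_sub_le _ _).trans ?_
      have h3 : |vec n (x - y) i| ≤ ‖vec n (x - y)‖ := norm_le_pi_norm (vec n (x - y)) i
      rw [norm_smul, norm_vec hmin.1.1, Real.norm_eq_abs, abs_div, hi, div_mul_cancel₀ _ hT1.ne']
      rw [norm_vec h2.1.1] at h3 ⊢
      linarith [h2.2]
    · have h2 := (hS x hx).sub hn1 (hS y hy)
      rw [e, coe_normSeminorm]
      exact wldef_sep hmin h2.1 (not_not.1 (hsep x hx y hy hne)) _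
  · have h1 := pack_semi (normSeminorm ℝ ℝ) ⊤ 1 (by simp) (2 * R) g₁.supNorm (by positivity) hT1 S
      (fun x => vec n x i) (fun _ _ _ _ => Submodule.mem_top) (fun x hx y hy => ?_)
      (fun x hx y hy hne => ?_)
    · refine h1.trans (le_of_eq ?_)
      rw [pow_one]
      ring
    · rw [coe_normSeminorm, Real.norm_eq_abs, wldef_line hg i hi (hS x hx).2 (hS y hy).2]
      exact ((hS x hx).1.sub hn1 (hS y hy).1).2
    · rw [coe_normSeminorm, Real.norm_eq_abs, wldef_line hg i hi (hS x hx).2 (hS y hy).2]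
      exact hmin.2.2.2.1 _ ((hS x hx).1.sub hn1 (hS y hy).1).1 (sub_ne_zero.2 hne)

end Pool.Agent.VW.Lat
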