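import Pool.Agent.P.MP_b0ea37_nt.WDefs

namespace Pool.Agent.VW.Lat

open Polynomial

/-- the lattice of a pair -/
def Lam (n M : ℕ) (r : ℤ) (g : ℤ[X]) : Prop := g.natDegree < n ∧ Wk M r g

/-- the monic coset in a box -/
def Plus (n : ℕ) (R : ℝ) (M : ℕ) (r : ℤ) (f : ℤ[X]) : Prop :=
  f.Monic ∧ f.natDegree = n ∧ f.supNorm ≤ R ∧ Wk M r f

/-- the first two successive minima are attained at `g₁`, `g₂` -/
def Min12 (n M : ℕ) (r : ℤ) (g₁ g₂ : ℤ[X]) : Prop :=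
  Lam n M r g₁ ∧ Lam n M r g₂ ∧ Indep g₁ g₂ ∧
    (∀ g, Lam n M r g → g ≠ 0 → g₁.supNorm ≤ g.supNorm) ∧
    ∀ g, Lam n M r g → Indep g₁ g → g₂.supNorm ≤ g.supNorm

/-- the coefficient vector -/
def vec (n : ℕ) (g : ℤ[X]) : Fin n → ℝ := fun i => (g.coeff i : ℝ)

/-- small degree or not irreducible -/
def Spec (n : ℕ) (g : ℤ[X]) : Prop := g.natDegree + 1 < n ∨ ¬ Irr g

/-- the line lemma for the set `S` of one pair -/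
def LLp (n : ℕ) (R H E c : ℝ) (M : ℕ) (r : ℤ) (S : ℤ[X] → Prop) : Prop :=
  ∀ (T B : ℝ) (g₁ g₂ : ℤ[X]), Lam n M r g₁ → Lam n M r g₂ → Indep g₁ g₂ → g₁.supNorm ≤ T →
    g₂.supNorm ≤ T → Cnt (Plus n R M r) B → Cnt S (E * B * (T / H) ^ c)

noncomputable def tau (n : ℕ) : ℝ := ((n : ℝ) - 2) / ((n : ℝ) - 1) - 1 / 1000

/-- `k` is the product of the repeated factors of `g`, `N` holds the exceptional primes -/
def Ker (k : ℤ[X]) (N : ℕ) (g : ℤ[X]) : Prop :=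
  k.IsPrimitive ∧ Squarefree k ∧ k ^ 2 ∣ g ∧ N ≠ 0 ∧
    ∀ (p : ℕ) (r : ℤ), p.Prime → ¬ p ∣ N → Wk p r g →
      (p : ℤ) ∣ k.eval r ∧ ¬ (p : ℤ) ∣ (derivative k).eval r

/-- a pair together with a lattice vector that fixes the modulus up to a factor at most `Y` -/
def Tri (V Y : ℝ) (N : ℤ[X] → ℕ) (M : ℕ) (r : ℤ) (g : ℤ[X]) : Prop :=
  Squarefree M ∧ (M : ℝ) ≤ V ∧ 0 ≤ r ∧ r < M ∧ Wk M r g ∧ N g ≠ 0 ∧ (N g : ℝ) ≤ V ∧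
    ∃ M' : ℕ, 1 ≤ M' ∧ (M' : ℝ) ≤ Y ∧ M ∣ N g * M'

/-- a family of nonzero polynomials, stable under division by constants, with a power count -/
def Fam (n : ℕ) (A a : ℝ) (G : ℤ[X] → Prop) : Prop :=
  (∀ g, G g → g ≠ 0 ∧ g.natDegree < n) ∧ (∀ (c : ℤ) (g : ℤ[X]), c ≠ 0 → G (C c * g) → G g) ∧
    ∀ U : ℝ, 1 ≤ U → Cnt (fun g => G g ∧ g.supNorm ≤ U) (A * U ^ a)

/-- divisible by the square of a primitive polynomial of degree `e` and dyadic height `η` -/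
def Sq (n e : ℕ) (η : ℝ) (g : ℤ[X]) : Prop :=
  g ≠ 0 ∧ g.natDegree < n ∧ ∃ k : ℤ[X], k.IsPrimitive ∧ k.natDegree = e ∧ η ≤ k.supNorm ∧
    k.supNorm ≤ 2 * η ∧ k ^ 2 ∣ g

end Pool.Agent.VW.Lat
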