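import Pool.Agent.P.MP_b0ea37_nt.WHt
import Pool.Agent.P.MP_b0ea37_nt.WPack

namespace Pool.Agent.VW.Lat

open Polynomial

theorem wlf_pos {h : ℤ[X]} (hi : Irr h) : h ≠ 0 ∧ 0 < h.natDegree := by
  refine ⟨fun e => hi.ne_zero (by rw [e, up, Polynomial.map_zero]), ?_⟩
  have := hi.natDegree_pos
  rwa [natDegree_map_eq_of_injective (f := Int.castRingHom ℚ) Int.cast_injective] at this

/-- weighted values at the points `θ` -/
noncomputable def wlfMap {e : ℕ} (θ : Fin e → ℂ) (w : Fin e → ℂ) : ℝ[X] →ₗ[ℝ] (Fin e → ℂ) :=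
  LinearMap.pi fun i => (LinearMap.mulRight ℝ (w i)).comp (aeval (θ i)).toLinearMap

theorem wlf_apply {e : ℕ} (θ w : Fin e → ℂ) (g : ℤ[X]) (i : Fin e) :
    wlfMap θ w (up ℝ g) i = (up ℂ g).eval (θ i) * w i := by
  simp only [wlfMap, LinearMap.pi_apply, LinearMap.comp_apply, LinearMap.mulRight_apply,
    AlgHom.toLinearMap_apply, aeval_def, eval₂_map, eval_map]
  rw [RingHom.ext_int ((algebraMap ℝ ℂ).comp (Int.castRingHom ℝ)) (Int.castRingHom ℂ)]

theorem wlf_rank {e : ℕ} (θ w : Fin e → ℂ) (h : ℤ[X]) (h0 : h ≠ 0) (he : h.natDegree = e)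
    (hθ : ∀ i, (up ℂ h).eval (θ i) = 0) :
    Module.finrank ℝ ((degreeLT ℝ e).map (wlfMap θ w)) ≤ e ∧
      ∀ g : ℝ[X], wlfMap θ w g ∈ (degreeLT ℝ e).map (wlfMap θ w) := by
  have hinj : Function.Injective (Int.castRingHom ℝ) := Int.cast_injective
  have h1 : up ℝ h ≠ 0 := (Polynomial.map_ne_zero_iff hinj).2 h0
  constructor
  · refine (Submodule.finrank_map_le _ _).trans ?_
    rw [(degreeLTEquiv ℝ e).finrank_eq]
    simp
  · intro g
    refine ⟨g % up ℝ h, mem_degreeLT.2 ?_, ?_⟩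
    · have := degree_mod_lt g h1
      rwa [degree_map_eq_of_injective hinj, degree_eq_natDegree h0, he] at this
    · have h2 : wlfMap θ w (up ℝ h * (g / up ℝ h)) = 0 := by
        funext i
        have h3 : aeval (θ i) (up ℝ h) = 0 := by
          rw [← hθ i, aeval_def, eval₂_map, eval_map,
            RingHom.ext_int ((algebraMap ℝ ℂ).comp (Int.castRingHom ℝ)) (Int.castRingHom ℂ)]
        simp [wlfMap, h3]
      conv_rhs => rw [← EuclideanDomain.div_add_mod g (up ℝ h), map_add, h2, zero_add]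

theorem wlf_res {e m : ℕ} {h g : ℤ[X]} (h0 : h ≠ 0) {θ : Fin e → ℂ}
    (hθ : up ℂ h = C (up ℂ h).leadingCoeff * ∏ i, (X - C (θ i))) (hg : g.natDegree ≤ m) :
    ((resultant h g e m : ℤ) : ℂ) = (up ℂ h).leadingCoeff ^ m * ∏ i, (up ℂ g).eval (θ i) := by
  have hinj : Function.Injective (Int.castRingHom ℂ) := Int.cast_injective
  have h1 : up ℂ h ≠ 0 := (Polynomial.map_ne_zero_iff hinj).2 h0
  rw [← resultant_roots _ (leadingCoeff_ne_zero.2 h1) θ _ m (natDegree_map_le.trans hg), ← hθ,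
    resultant_map_map]
  rfl

/-- packing bound for polynomials that are pairwise incongruent modulo `h` -/
theorem wlf_pack (m : ℕ) (h : ℤ[X]) (hi : Irr h) (h0 : h ≠ 0) (he : 0 < h.natDegree)
    (B q : ℝ) (hB : 0 ≤ B) (hq : 0 < q) (S : Finset ℤ[X])
    (hd : ∀ u ∈ S, ∀ v ∈ S, (u - v).natDegree ≤ m ∧ (u - v).supNorm ≤ B)
    (hS : ∀ u ∈ S, ∀ v ∈ S, u ≠ v → ¬ up ℚ h ∣ up ℚ (u - v))
    (hR : ∀ u ∈ S, ∀ v ∈ S, resultant h (u - v) h.natDegree m ≠ 0 →
      q ≤ |((resultant h (u - v) h.natDegree m : ℤ) : ℝ)|) :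
    (S.card : ℝ) ≤ 2 ^ h.natDegree * (1 + (2 * (m + 1) * B) ^ h.natDegree *
      ((h.natDegree + 1) * h.supNorm) ^ m / q) := by
  set e := h.natDegree with hedef
  have hinj : Function.Injective (Int.castRingHom ℂ) := Int.cast_injective
  obtain ⟨θ, hθ⟩ := exists_roots' (n := e) (up ℂ h) (natDegree_map_eq_of_injective hinj h)
  have hz : ∀ i, (up ℂ h).eval (θ i) = 0 := fun i => by
    rw [hθ, eval_mul, eval_prod, Finset.prod_eq_zero (Finset.mem_univ i) (by simp), mul_zero]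
  have hm : ∀ i, (0 : ℝ) < max 1 ‖θ i‖ ^ m := fun i =>
    pow_pos (lt_of_lt_of_le one_pos (le_max_left _ _)) m
  set w : Fin e → ℂ := fun i => (((max 1 ‖θ i‖ ^ m)⁻¹ : ℝ) : ℂ) with hw
  have hn : ∀ (g : ℤ[X]) i, ‖wlfMap θ w (up ℝ g) i‖ =
      ‖(up ℂ g).eval (θ i)‖ * (max 1 ‖θ i‖ ^ m)⁻¹ := fun g i => by
    rw [wlf_apply, norm_mul, hw, Complex.norm_real, Real.norm_of_nonneg (inv_pos.2 (hm i)).le]
  obtain ⟨hr, hV⟩ := wlf_rank θ w h h0 rfl hz
  set μ : ℝ := (e + 1) * h.supNorm with hμ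
  have hμ0 : 0 < μ := mul_pos (by positivity) (lt_of_lt_of_le one_pos (one_le_sup h0))
  have hμ1 : ‖(up ℂ h).leadingCoeff‖ * ∏ i, max 1 ‖θ i‖ ≤ μ := by
    have := prod_max_le (up ℂ h).leadingCoeff θ
    rwa [← hθ, sup_up_complex] at this
  have hQ : 0 < q / μ ^ m := by positivity
  set ρ : ℝ := (q / μ ^ m) ^ ((e : ℝ)⁻¹) with hρ
  have hρ0 : 0 < ρ := Real.rpow_pos_of_pos hQ _
  have hρe : ρ ^ e = q / μ ^ m := Real.rpow_inv_natCast_pow hQ.le he.ne'
  have hsub : ∀ u v : ℤ[X], wlfMap θ w (up ℝ u) - wlfMap θ w (up ℝ v) =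
      wlfMap θ w (up ℝ (u - v)) := fun u v => by rw [← map_sub, up, up, up, Polynomial.map_sub]
  have key := wpack_idx ((degreeLT ℝ e).map (wlfMap θ w)) e hr ((m + 1) * B) ρ (by positivity)
    hρ0 S (fun u => wlfMap θ w (up ℝ u)) (fun u _ v _ => by rw [hsub]; exact hV _)
    (fun u hu v hv => by
      rw [hsub]
      refine (pi_norm_le_iff_of_nonneg (by positivity)).2 fun i => ?_
      rw [hn, ← div_eq_mul_inv, div_le_iff₀ (hm i)]
      refine (norm_eval_le _ (natDegree_map_le.trans (hd u hu v hv).1) _).trans ?_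
      rw [sup_up_complex]
      gcongr
      exact (hd u hu v hv).2)
    (fun u hu v hv huv => by
      rw [hsub]
      have h1 := wlf_res (m := m) h0 hθ (hd u hu v hv).1
      have h2 : resultant h (u - v) e m ≠ 0 := fun h2 => by
        rw [h2, Int.cast_zero, eq_comm, mul_eq_zero] at h1
        rcases h1 with h1 | h1
        · exact (Polynomial.map_ne_zero_iff hinj).2 h0 (leadingCoeff_eq_zero.1 (pow_eq_zero_iff'.1 h1).1)
        · obtain ⟨i, -, h3⟩ := Finset.prod_eq_zero_iff.1 h1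
          have h4 : ∀ g : ℤ[X], aeval (θ i) (up ℚ g) = (up ℂ g).eval (θ i) := fun g => by
            rw [aeval_def, eval₂_map, eval_map,
              RingHom.ext_int ((algebraMap ℚ ℂ).comp (Int.castRingHom ℚ)) (Int.castRingHom ℂ)]
          exact hS u hu v hv huv (hi.dvd_of_root ((h4 h).trans (hz i)) ((h4 _).trans h3))
      refine le_of_pow_le_pow_left₀ he.ne' (norm_nonneg _) ?_
      rw [hρe, div_le_iff₀ (pow_pos hμ0 m)]
      refine (hR u hu v hv h2).trans ?_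
      rw [← Complex.norm_intCast, h1, norm_mul, norm_pow, norm_prod]
      have h5 : ∏ i, ‖(up ℂ (u - v)).eval (θ i)‖ ≤
          ‖wlfMap θ w (up ℝ (u - v))‖ ^ e * (∏ i, max 1 ‖θ i‖) ^ m := by
        rw [← Finset.prod_pow, ← Fin.prod_const, ← Finset.prod_mul_distrib]
        refine Finset.prod_le_prod (fun i _ => norm_nonneg _) fun i _ => ?_
        rw [← div_le_iff₀ (hm i), div_eq_mul_inv, ← hn]
        exact norm_le_pi_norm _ i
      calc _ ≤ ‖(up ℂ h).leadingCoeff‖ ^ m *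
            (‖wlfMap θ w (up ℝ (u - v))‖ ^ e * (∏ i, max 1 ‖θ i‖) ^ m) := by gcongr
        _ = ‖wlfMap θ w (up ℝ (u - v))‖ ^ e *
            (‖(up ℂ h).leadingCoeff‖ * ∏ i, max 1 ‖θ i‖) ^ m := by ring
        _ ≤ _ := by gcongr)
  refine key.trans ?_
  have h6 : (2 * ((m + 1) * B) / ρ) ^ e = (2 * (m + 1) * B) ^ e * μ ^ m / q := by
    rw [div_pow, hρe, mul_assoc]
    field_simp
  rw [← h6]
  have h7 : 0 ≤ 2 * ((m + 1) * B) / ρ := by positivity
  generalize 2 * ((m + 1) * B) / ρ = x at h7 ⊢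
  rcases le_total x 1 with hx | hx
  · calc (1 + x) ^ e ≤ 2 ^ e := by gcongr; linarith
      _ ≤ _ := le_mul_of_one_le_right (by positivity) (by linarith [pow_nonneg h7 e])
  · calc (1 + x) ^ e ≤ (2 * x) ^ e := by gcongr; linarith
      _ ≤ _ := by rw [mul_pow]; gcongr; linarith

/-- classes modulo an irreducible polynomial -/
theorem f_lemma (d : ℕ) : ∃ C₀ : ℝ, 1 ≤ C₀ ∧ ∀ (h : ℤ[X]) (m q : ℕ) (B : ℝ) (S : Finset ℤ[X]),
    Irr h → h.natDegree ≤ d → m ≤ d → 1 ≤ q → 0 ≤ B →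
    (∀ u ∈ S, ∀ v ∈ S, (u - v).natDegree ≤ m ∧ (u - v).supNorm ≤ B ∧
      (q : ℤ) ∣ resultant h (u - v) h.natDegree m) →
    (∀ u ∈ S, ∀ v ∈ S, u ≠ v → ¬ up ℚ h ∣ up ℚ (u - v)) →
    (S.card : ℝ) ≤ C₀ * (1 + B ^ h.natDegree * h.supNorm ^ m / q) := by
  refine ⟨2 ^ d * ((2 * (d + 1)) ^ d * (d + 1) ^ d), ?_, fun h m q B S hi hd hm hq hB h1 h2 => ?_⟩
  · have : (0 : ℝ) ≤ d := Nat.cast_nonneg d
    exact one_le_mul_of_one_le_of_one_le (one_le_pow₀ one_le_two)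
      (one_le_mul_of_one_le_of_one_le (one_le_pow₀ (by linarith)) (one_le_pow₀ (by linarith)))
  obtain ⟨h0, he⟩ := wlf_pos hi
  have hq' : (0 : ℝ) < q := Nat.cast_pos.2 hq
  refine (wlf_pack m h hi h0 he B q hB hq' S (fun u hu v hv => ⟨(h1 u hu v hv).1, (h1 u hu v hv).2.1⟩)
    h2 fun u hu v hv hne => ?_).trans ?_
  · have := Int.le_of_dvd (abs_pos.2 hne) ((dvd_abs _ _).2 (h1 u hu v hv).2.2)
    exact_mod_cast this
  have hd0 : (0 : ℝ) ≤ d := Nat.cast_nonneg d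
  have hm' : (m : ℝ) ≤ d := Nat.cast_le.2 hm
  have hd' : (h.natDegree : ℝ) ≤ d := Nat.cast_le.2 hd
  have hs := h.supNorm_nonneg
  have a1 : (2 * ((m : ℝ) + 1)) ^ h.natDegree ≤ (2 * (d + 1)) ^ d :=
    (pow_le_pow_left₀ (by positivity) (by linarith) _).trans (pow_le_pow_right₀ (by linarith) hd)
  have a2 : ((h.natDegree : ℝ) + 1) ^ m ≤ (d + 1) ^ d :=
    (pow_le_pow_left₀ (by positivity) (by linarith) _).trans (pow_le_pow_right₀ (by linarith) hm)
  have a3 : (1 : ℝ) ≤ (2 * (d + 1)) ^ d * (d + 1) ^ d :=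
    one_le_mul_of_one_le_of_one_le (one_le_pow₀ (by linarith)) (one_le_pow₀ (by linarith))
  rw [mul_assoc ((2 : ℝ) ^ d), mul_add (_ * ((d : ℝ) + 1) ^ d) (1 : ℝ), mul_one]
  refine mul_le_mul (pow_le_pow_right₀ one_le_two hd) (add_le_add a3 ?_) (by positivity)
    (by positivity)
  calc _ = (2 * ((m : ℝ) + 1)) ^ h.natDegree * ((h.natDegree : ℝ) + 1) ^ m *
        (B ^ h.natDegree * h.supNorm ^ m / q) := by
        rw [mul_pow _ B, mul_pow _ h.supNorm]; ring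
    _ ≤ _ := by gcongr

end Pool.Agent.VW.Lat
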