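import Pool.Agent.P.MP_b0ea37_nt.WLDefs
import Pool.Agent.P.MP_b0ea37_nt.WHt

namespace Pool.Agent.VW.Lat

open Polynomial

variable {M : ℕ} {r : ℤ} {g h : ℤ[X]}

theorem wk_zero (M : ℕ) (r : ℤ) : Wk M r 0 := by simp [Wk]

theorem wk_add (hg : Wk M r g) (hh : Wk M r h) : Wk M r (g + h) := by
  refine ⟨?_, ?_⟩
  · rw [eval_add]; exact dvd_add hg.1 hh.1
  · rw [derivative_add, eval_add]; exact dvd_add hg.2 hh.2

theorem wk_mul (u : ℤ[X]) (hg : Wk M r g) : Wk M r (u * g) := by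
  refine ⟨?_, ?_⟩
  · rw [eval_mul]; exact hg.1.mul_left _
  · rw [derivative_mul, eval_add, eval_mul, eval_mul]
    exact dvd_add (((dvd_pow_self _ two_ne_zero).trans hg.1).mul_left _) (hg.2.mul_left _)

theorem wk_neg (hg : Wk M r g) : Wk M r (-g) := by
  have := wk_mul (-1) hg
  rwa [neg_one_mul] at this

theorem wk_sub (hg : Wk M r g) (hh : Wk M r h) : Wk M r (g - h) := by
  rw [sub_eq_add_neg]; exact wk_add hg (wk_neg hh)

theorem wk_sum {ι : Type} (s : Finset ι) (u : ι → ℤ[X]) (hu : ∀ i ∈ s, Wk M r (u i)) :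
    Wk M r (∑ i ∈ s, u i) :=
  Finset.sum_induction u (Wk M r) (fun _ _ => wk_add) (wk_zero M r) hu

theorem wk_of_dvd {M' : ℕ} (hM : M' ∣ M) (hg : Wk M r g) : Wk M' r g :=
  ⟨(pow_dvd_pow_of_dvd (Int.natCast_dvd_natCast.2 hM) 2).trans hg.1,
    (Int.natCast_dvd_natCast.2 hM).trans hg.2⟩

theorem dvd_eval_of_mod {r' : ℤ} {q : ℤ} (hr : q ∣ r - r') (hg : q ∣ g.eval r) : q ∣ g.eval r' := by
  have h1 : q ∣ g.eval r - g.eval r' := hr.trans (sub_dvd_eval_sub r r' g)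
  have := dvd_sub hg h1
  simpa using this

theorem wk_of_mod {r' : ℤ} (hr : (M : ℤ) ∣ r - r') (hg : Wk M r g) : Wk M r' g := by
  refine ⟨?_, dvd_eval_of_mod hr hg.2⟩
  obtain ⟨t, ht⟩ := hr
  obtain ⟨k, hk⟩ := binomExpansion g r (-(M * t))
  have e : r + -(M * t) = r' := by linarith
  rw [e] at hk
  rw [hk]
  obtain ⟨b, hb⟩ := hg.2
  refine dvd_add (dvd_add hg.1 ⟨-(b * t), ?_⟩) ⟨k * t ^ 2, ?_⟩
  · rw [hb]; ring
  · ring

theorem exists_res (M : ℕ) (hM : 1 ≤ M) (r : ℤ) : ∃ r' : ℤ, 0 ≤ r' ∧ r' < M ∧ (M : ℤ) ∣ r - r' := by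
  have h0 : (0 : ℤ) < M := by exact_mod_cast hM
  exact ⟨r % M, Int.emod_nonneg _ h0.ne', Int.emod_lt_of_pos _ h0, Int.dvd_self_sub_of_emod_eq rfl⟩

theorem natDegree_sub_lt_of_monic {n : ℕ} (hn : 1 ≤ n) {f f' : ℤ[X]} (hf : f.Monic)
    (hd : f.natDegree = n) (hf' : f'.Monic) (hd' : f'.natDegree = n) : (f - f').natDegree < n := by
  by_cases h0 : f - f' = 0
  · rw [h0, natDegree_zero]; omega
  · have h1 : (f - f').degree < f.degree := by
      refine degree_sub_lt_left ?_ hf.ne_zero (by rw [hf.leadingCoeff, hf'.leadingCoeff])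
      rw [degree_eq_natDegree hf.ne_zero, degree_eq_natDegree hf'.ne_zero, hd, hd']
    rw [degree_eq_natDegree hf.ne_zero, hd] at h1
    exact (natDegree_lt_iff_degree_lt h0).2 h1

theorem monic_add_of_lt {n : ℕ} {f u : ℤ[X]} (hf : f.Monic) (hd : f.natDegree = n)
    (hu : u.natDegree < n) : (f + u).Monic ∧ (f + u).natDegree = n := by
  have h1 : u.natDegree < f.natDegree := hd ▸ hu
  exact ⟨hf.add_of_left (degree_lt_degree h1), by rw [natDegree_add_eq_left_of_natDegree_lt h1, hd]⟩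

theorem Plus.sub {n : ℕ} (hn : 1 ≤ n) {R : ℝ} {f f' : ℤ[X]} (hf : Plus n R M r f)
    (hf' : Plus n R M r f') : Lam n M r (f - f') ∧ (f - f').supNorm ≤ 2 * R := by
  refine ⟨⟨natDegree_sub_lt_of_monic hn hf.1 hf.2.1 hf'.1 hf'.2.1, wk_sub hf.2.2.2 hf'.2.2.2⟩, ?_⟩
  have := sup_sub_le f f'
  linarith [hf.2.2.1, hf'.2.2.1]

theorem Plus.mono {n : ℕ} {R R' : ℝ} (hR : R ≤ R') {f : ℤ[X]} (hf : Plus n R M r f) :
    Plus n R' M r f := ⟨hf.1, hf.2.1, hf.2.2.1.trans hR, hf.2.2.2⟩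

theorem Lam.add {n : ℕ} (hg : Lam n M r g) (hh : Lam n M r h) : Lam n M r (g + h) :=
  ⟨(natDegree_add_le _ _).trans_lt (max_lt hg.1 hh.1), wk_add hg.2 hh.2⟩

theorem Lam.C_mul {n : ℕ} (c : ℤ) (hg : Lam n M r g) : Lam n M r (C c * g) :=
  ⟨(natDegree_C_mul_le _ _).trans_lt hg.1, wk_mul _ hg.2⟩

theorem Lam.sub {n : ℕ} (hg : Lam n M r g) (hh : Lam n M r h) : Lam n M r (g - h) :=
  ⟨(natDegree_sub_le _ _).trans_lt (max_lt hg.1 hh.1), wk_sub hg.2 hh.2⟩

theorem indep_ne_left (hi : Indep g h) : g ≠ 0 := by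
  rintro rfl
  exact one_ne_zero (hi 1 0 (by simp)).1

theorem indep_ne_right (hi : Indep g h) : h ≠ 0 := by
  rintro rfl
  exact one_ne_zero (hi 0 1 (by simp)).2

theorem indep_X_mul (hg : g ≠ 0) : Indep g (X * g) := by
  intro a b hab
  have h1 : (C a + C b * X) * g = 0 := by rw [← hab]; ring
  have h2 : (C a + C b * X : ℤ[X]) = 0 := (mul_eq_zero.1 h1).resolve_right hg
  have h3 := congrArg (fun p => coeff p 0) h2
  have h4 := congrArg (fun p => coeff p 1) h2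
  simp [coeff_C, coeff_X, -eq_intCast] at h3 h4
  exact ⟨h3, h4⟩

theorem not_indep_iff (hg : g ≠ 0) : ¬ Indep g h ↔ ∃ a b : ℤ, b ≠ 0 ∧ C b * h = C a * g := by
  constructor
  · intro hi
    simp only [Indep, not_forall] at hi
    obtain ⟨a, b, hab, hne⟩ := hi
    refine ⟨-a, b, ?_, ?_⟩
    · rintro rfl
      apply hne
      rw [C_0, zero_mul, add_zero] at hab
      exact ⟨C_eq_zero.1 ((mul_eq_zero.1 hab).resolve_right hg), rfl⟩
    · rw [C_neg]; linear_combination hab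
  · rintro ⟨a, b, hb, hab⟩ hi
    exact hb (hi (-a) b (by rw [C_neg]; linear_combination hab)).2

theorem indep_or {u v : ℤ[X]} (hg : g ≠ 0) (huv : Indep u v) : Indep g u ∨ Indep g v := by
  by_contra hc
  rw [not_or, not_indep_iff hg, not_indep_iff hg] at hc
  obtain ⟨⟨a, b, hb, hab⟩, a', b', hb', hab'⟩ := hc
  have h1 := huv (a' * b) (-(a * b')) (by
    rw [C_neg, C_mul, C_mul]; linear_combination C a' * hab - C a * hab')
  have ha : a = 0 := (mul_eq_zero.1 (neg_eq_zero.1 h1.2)).resolve_right hb'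
  rw [ha, C_0, zero_mul] at hab
  exact indep_ne_left huv ((mul_eq_zero.1 hab).resolve_left (by rwa [C_eq_zero]))

theorem indep_sub_C_mul (hi : Indep g h) (t : ℤ) : Indep g (h - C t * g) := by
  intro a b hab
  have h1 := hi (a - b * t) b (by rw [C_sub, C_mul]; linear_combination hab)
  obtain ⟨h2, h3⟩ := h1
  rw [h3] at h2
  exact ⟨by simpa using h2, h3⟩

theorem indep_neg_right (hi : Indep g h) : Indep g (-h) := by
  intro a b hab
  have h1 := hi a (-b) (by rw [C_neg]; linear_combination hab)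
  exact ⟨h1.1, neg_eq_zero.1 h1.2⟩

theorem norm_vec {n : ℕ} (hg : g.natDegree < n) : ‖vec n g‖ = g.supNorm := by
  apply le_antisymm
  · refine (pi_norm_le_iff_of_nonneg g.supNorm_nonneg).2 fun i => ?_
    have := g.le_supNorm i
    simpa [vec, Int.norm_eq_abs] using this
  · refine sup_le_iff.2 fun i => ?_
    by_cases hi : i < n
    · have := norm_le_pi_norm (vec n g) ⟨i, hi⟩
      simpa [vec, Int.norm_eq_abs] using this
    · rw [coeff_eq_zero_of_natDegree_lt (by omega), norm_zero]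
      exact norm_nonneg _

theorem vec_add (n : ℕ) (g h : ℤ[X]) : vec n (g + h) = vec n g + vec n h := by
  ext i; simp [vec]

theorem vec_sub (n : ℕ) (g h : ℤ[X]) : vec n (g - h) = vec n g - vec n h := by
  ext i; simp [vec]

theorem vec_C_mul (n : ℕ) (c : ℤ) (g : ℤ[X]) : vec n (C c * g) = (c : ℝ) • vec n g := by
  ext i; simp [vec, coeff_C_mul, -eq_intCast]

/-- the height of a square factor -/
theorem sq_sup_le {n : ℕ} {k u : ℤ[X]} (hd : (k ^ 2 * u).natDegree ≤ n) (hu : u ≠ 0) (hk : k ≠ 0) :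
    k.supNorm ^ 2 * u.supNorm ≤ 16 ^ n * (k ^ 2 * u).supNorm := by
  have h1 := gelfond (k ^ 2) u hd
  have hd2 : (k * k).natDegree ≤ n := by
    rw [natDegree_mul (pow_ne_zero 2 hk) hu, sq] at hd
    omega
  have h2 := gelfond k k hd2
  rw [← sq, ← sq] at h2
  have h3 : (16 : ℝ) ^ n = 4 ^ n * 4 ^ n := by rw [← mul_pow]; norm_num
  have h4 := u.supNorm_nonneg
  have h5 : (0 : ℝ) ≤ 4 ^ n := by positivity
  calc k.supNorm ^ 2 * u.supNorm ≤ 4 ^ n * (k ^ 2).supNorm * u.supNorm := by gcongr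
    _ = 4 ^ n * ((k ^ 2).supNorm * u.supNorm) := by ring
    _ ≤ 4 ^ n * (4 ^ n * (k ^ 2 * u).supNorm) := by gcongr
    _ = _ := by rw [h3]; ring

theorem sq_sup_le_of_dvd {n : ℕ} {k : ℤ[X]} (hg : g ≠ 0) (hd : g.natDegree ≤ n) (hk : k ^ 2 ∣ g) :
    k.supNorm ^ 2 ≤ 16 ^ n * g.supNorm := by
  obtain ⟨u, rfl⟩ := hk
  have hu : u ≠ 0 := right_ne_zero_of_mul hg
  have hk : k ≠ 0 := by rintro rfl; simp at hg
  have h1 := sq_sup_le hd hu hk
  have h2 := one_le_sup hu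
  nlinarith [sq_nonneg k.supNorm]

end Pool.Agent.VW.Lat
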