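import Pool.Agent.P.MP_b0ea37_nt.WLCl
import Pool.Agent.P.MP_b0ea37_nt.WLWk
import Pool.Agent.P.MP_b0ea37_nt.WRes

namespace Pool.Agent.VW.Lat

open Polynomial

/-- an irreducible point bounds the modulus -/
theorem sq_le_of_plus {n M : ℕ} {r : ℤ} {R : ℝ} {f₀ h : ℤ[X]} (hn : 2 ≤ n) (hM : 1 ≤ M)
    (hf : Plus n R M r f₀) (hi : Irr f₀) (hh : h ≠ 0) (hd : h.natDegree < n)
    (hr : (M : ℤ) ∣ h.eval r) :
    (M : ℝ) ^ 2 ≤ (2 * n).factorial * R ^ h.natDegree * h.supNorm ^ n := by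
  obtain ⟨-, hdeg, hR, hw⟩ := hf
  have h0 : resultant h f₀ h.natDegree f₀.natDegree ≠ 0 :=
    hi.resultant_ne_zero hh (by omega)
  rw [hdeg] at h0
  have h1 : (M : ℤ) ^ 2 ∣ resultant h f₀ h.natDegree n :=
    res_one_two hM le_rfl hdeg.le (by omega) hr hw
  have h2 : (M : ℤ) ^ 2 ≤ |resultant h f₀ h.natDegree n| :=
    Int.le_of_dvd (abs_pos.2 h0) ((dvd_abs _ _).2 h1)
  have h3 : (M : ℝ) ^ 2 ≤ ‖resultant h f₀ h.natDegree n‖ := by
    rw [Int.norm_eq_abs]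
    exact_mod_cast h2
  have h4 := norm_resultant_le h f₀ h.natDegree n
  have h5 : ((h.natDegree + n).factorial : ℝ) ≤ (2 * n).factorial := by
    exact_mod_cast Nat.factorial_le (by omega)
  have h6 := f₀.supNorm_nonneg
  have h7 := h.supNorm_nonneg
  calc (M : ℝ) ^ 2 ≤ (h.natDegree + n).factorial * h.supNorm ^ n * f₀.supNorm ^ h.natDegree :=
        h3.trans h4
    _ ≤ (2 * n).factorial * h.supNorm ^ n * R ^ h.natDegree := by gcongr
    _ = _ := by ring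

theorem wlfil_irr_ne {h : ℤ[X]} (hi : Irr h) : h ≠ 0 := by
  rintro rfl
  exact hi.ne_zero (by simp)

theorem wlfil_fact (n : ℕ) : (1 : ℝ) ≤ n.factorial := by
  exact_mod_cast n.factorial_pos

theorem wlfil_quot {n : ℕ} {k v : ℤ[X]} {B : ℝ} (hk : k ≠ 0) (hd : (k * v).natDegree ≤ n)
    (hB : (k * v).supNorm ≤ B) : v.supNorm ≤ 4 ^ n * B / k.supNorm := by
  have h1 := one_le_sup hk
  rw [le_div_iff₀ (by linarith)]
  calc v.supNorm * k.supNorm = k.supNorm * v.supNorm := mul_comm _ _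
    _ ≤ 4 ^ n * (k * v).supNorm := gelfond k v hd
    _ ≤ 4 ^ n * B := by gcongr

theorem wlfil_root {M F C₁ R B x : ℝ} {n a b : ℕ} (hF : 1 ≤ F) (hC : 1 ≤ C₁) (hR0 : 0 ≤ R)
    (hB : 0 ≤ B) (hx : 1 ≤ x) (hR : R ≤ C₁ * B ^ 2) (ha : a ≤ n) (hb : n ≤ 2 * b)
    (h : M ^ 2 ≤ F * R ^ a * x ^ n) : M ^ 1 ≤ F * C₁ ^ n * B ^ a * x ^ b := by
  have h1 : (1 : ℝ) ≤ C₁ ^ n := one_le_pow₀ hC
  have h2 : 1 ≤ F * C₁ ^ n := one_le_mul_of_one_le_of_one_le hF h1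
  rw [pow_one]
  refine le_of_sq_le_sq ?_ (by positivity)
  have h3 : R ^ a ≤ C₁ ^ n * (B ^ a) ^ 2 := by
    calc R ^ a ≤ (C₁ * B ^ 2) ^ a := by gcongr
      _ = C₁ ^ a * (B ^ a) ^ 2 := by rw [mul_pow, ← pow_mul, ← pow_mul, mul_comm 2 a]
      _ ≤ C₁ ^ n * (B ^ a) ^ 2 := by gcongr
  have h4 : x ^ n ≤ (x ^ b) ^ 2 := by
    rw [← pow_mul]
    exact pow_le_pow_right₀ hx (by omega)
  have h5 : F * C₁ ^ n ≤ (F * C₁ ^ n) ^ 2 := by nlinarith
  calc M ^ 2 ≤ F * R ^ a * x ^ n := h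
    _ ≤ F * (C₁ ^ n * (B ^ a) ^ 2) * (x ^ b) ^ 2 := by gcongr
    _ = (F * C₁ ^ n) * ((B ^ a) ^ 2 * (x ^ b) ^ 2) := by ring
    _ ≤ (F * C₁ ^ n) ^ 2 * ((B ^ a) ^ 2 * (x ^ b) ^ 2) := by gcongr
    _ = _ := by ring

theorem wlfil_num {C b c R η M y : ℝ} {e t : ℕ} (hC : 0 ≤ C) (hb : 1 ≤ b) (hc : 1 ≤ c)
    (hR : 0 ≤ R) (hη : 0 < η) (hM : 0 < M) (hy0 : 0 ≤ y) (hy : y ≤ c * R / η ^ 2) :
    C * (b * R / η) ^ e * η ^ (e + t + 1) / M ^ 1 * y ^ (t + 1) ≤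
      C * b ^ (2 * e + t + 1) * c ^ (2 * e + t + 1) * R ^ (e + t + 1) * η ^ (2 * e) /
        η ^ (2 * e + t + 1) / M := by
  have h1 : b ^ e ≤ b ^ (2 * e + t + 1) := pow_le_pow_right₀ hb (by omega)
  have h2 : c ^ (t + 1) ≤ c ^ (2 * e + t + 1) := pow_le_pow_right₀ hc (by omega)
  calc C * (b * R / η) ^ e * η ^ (e + t + 1) / M ^ 1 * y ^ (t + 1)
      ≤ C * (b * R / η) ^ e * η ^ (e + t + 1) / M ^ 1 * (c * R / η ^ 2) ^ (t + 1) := by gcongr
    _ = C * b ^ e * c ^ (t + 1) * R ^ (e + t + 1) * η ^ (2 * e) / η ^ (2 * e + t + 1) / M := by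
        rw [div_pow, div_pow, mul_pow, mul_pow]
        field_simp
        ring
    _ ≤ _ := by gcongr

/-- second layer: cofactors that vanish at `r` -/
theorem fil_two (n : ℕ) (C₁ : ℝ) (hC : 1 ≤ C₁) : ∃ C₀ : ℝ, 1 ≤ C₀ ∧
    ∀ (k f₀ : ℤ[X]) (M : ℕ) (r : ℤ) (R : ℝ), 1 ≤ R → k.IsPrimitive → Squarefree k →
    1 ≤ k.natDegree → 2 * k.natDegree < n → k.supNorm ^ 2 ≤ C₁ * R → 1 ≤ M →
    (M : ℤ) ∣ k.eval r → Plus n R M r f₀ → Irr f₀ →
    Cnt (fun u : ℤ[X] => u.natDegree + k.natDegree < n ∧ u.supNorm ≤ 2 * 4 ^ n * R / k.supNorm ∧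
      (M : ℤ) ∣ u.eval r)
      (C₀ * R ^ (n - k.natDegree) * k.supNorm ^ (2 * k.natDegree) / k.supNorm ^ n / M) := by
  have hF := wlfil_fact (2 * n)
  obtain ⟨C, hC1, hcl⟩ := class_lemma n 1 ((2 * n).factorial * C₁ ^ n) (by positivity)
  have h4 : (1 : ℝ) ≤ 4 ^ n := one_le_pow₀ (by norm_num)
  obtain ⟨b, hb⟩ : ∃ b : ℝ, b = 4 * 4 ^ n := ⟨_, rfl⟩
  have hb1 : 1 ≤ b := by rw [hb]; linarith
  obtain ⟨c, hc⟩ : ∃ c : ℝ, c = 2 * 4 ^ n * b + C₁ := ⟨_, rfl⟩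
  have hc1 : 1 ≤ c := by
    have : (0 : ℝ) ≤ 2 * 4 ^ n * b := by positivity
    rw [hc]; linarith
  refine ⟨C * b ^ n * c ^ n, one_le_mul_of_one_le_of_one_le
    (one_le_mul_of_one_le_of_one_le hC1 (one_le_pow₀ hb1)) (one_le_pow₀ hc1), ?_⟩
  intro k f₀ M r R hR hp hs he1 he2 hη hM hkr hf hi
  have hk : k ≠ 0 := hp.ne_zero
  have hη1 := one_le_sup hk
  have hM0 : (0 : ℝ) < M := by exact_mod_cast hM
  obtain ⟨t, ht⟩ : ∃ t, n = 2 * k.natDegree + t + 1 := ⟨n - 2 * k.natDegree - 1, by omega⟩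
  have hB0 : 0 ≤ b * R / k.supNorm := by positivity
  have hdiff : ∀ u v : ℤ[X], (u.natDegree + k.natDegree < n ∧
      u.supNorm ≤ 2 * 4 ^ n * R / k.supNorm ∧ (M : ℤ) ∣ u.eval r) →
      (v.natDegree + k.natDegree < n ∧ v.supNorm ≤ 2 * 4 ^ n * R / k.supNorm ∧
        (M : ℤ) ∣ v.eval r) →
      (u - v).natDegree ≤ k.natDegree + t ∧ (u - v).supNorm ≤ b * R / k.supNorm := by
    intro u v hu hv
    refine ⟨(natDegree_sub_le _ _).trans (max_le (by omega) (by omega)), ?_⟩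
    have e : b * R / k.supNorm = 2 * 4 ^ n * R / k.supNorm + 2 * 4 ^ n * R / k.supNorm := by
      rw [hb]; ring
    have := sup_sub_le u v
    linarith [hu.2.1, hv.2.1]
  have hRB : R ≤ C₁ * (b * R / k.supNorm) ^ 2 := by
    rw [div_pow, ← mul_div_assoc, le_div_iff₀ (by positivity)]
    have h5 : R ^ 2 ≤ (b * R) ^ 2 := by
      gcongr
      nlinarith
    calc R * k.supNorm ^ 2 ≤ R * (C₁ * R) := by gcongr
      _ = C₁ * R ^ 2 := by ring
      _ ≤ C₁ * (b * R) ^ 2 := by gcongr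
  have key := hcl k M (k.natDegree + t) r (b * R / k.supNorm)
    ((2 * (4 ^ n * (b * R / k.supNorm) / k.supNorm) + 1) ^ (t + 1)) _ hp hs (by omega) (by omega)
    hM hB0 (by positivity) hkr hdiff ?_ ?_
  · refine key.mono (fun _ h => h) ?_
    have e1 : n - k.natDegree = k.natDegree + t + 1 := by omega
    have hy : 2 * (4 ^ n * (b * R / k.supNorm) / k.supNorm) + 1 ≤ c * R / k.supNorm ^ 2 := by
      have h6 : 1 ≤ C₁ * R / k.supNorm ^ 2 := by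
        rw [le_div_iff₀ (by positivity)]; linarith
      have e2 : c * R / k.supNorm ^ 2 =
          2 * (4 ^ n * (b * R / k.supNorm) / k.supNorm) + C₁ * R / k.supNorm ^ 2 := by
        rw [hc]; field_simp
      linarith
    have h7 := wlfil_num (C := C) (e := k.natDegree) (t := t) (by linarith) hb1 hc1
      (by linarith : 0 ≤ R) (by linarith : 0 < k.supNorm) hM0 (by positivity) hy
    rw [← ht] at h7
    rw [e1]
    exact h7
  · intro h M' hh hk' hM' hr'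
    have hh0 := wlfil_irr_ne hh
    have hM1 : 1 ≤ M' := Nat.pos_of_dvd_of_pos hM' hM
    have hdh : h.natDegree ≤ k.natDegree := natDegree_le_of_dvd hk' hk
    have hMM : (M' : ℤ) ∣ M := Int.natCast_dvd_natCast.2 hM'
    refine ⟨wlfil_root hF hC (by linarith) hB0 (one_le_sup hh0) hRB (by omega) (by omega)
      (sq_le_of_plus (by omega) hM1 ⟨hf.1, hf.2.1, hf.2.2.1, wk_of_dvd hM' hf.2.2.2⟩ hi hh0
        (by omega) hr'), fun u v hu hv => ?_⟩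
    rw [pow_one]
    refine res_one_one hM1 le_rfl (hdiff u v hu hv).1 (by omega) hr' ?_
    rw [eval_sub]
    exact hMM.trans (dvd_sub hu.2.2 hv.2.2)
  · intro a ha
    refine (cnt_poly (t + 1) (4 ^ n * (b * R / k.supNorm) / k.supNorm) (by positivity)).rel
      (fun u v => u - a = k * v) ?_ ?_
    · rintro u ⟨hu, v, hv⟩
      obtain ⟨h1, h2⟩ := hdiff u a hu ha
      rw [hv] at h1 h2
      refine ⟨v, ⟨?_, wlfil_quot hk (by omega) h2⟩, hv⟩
      by_cases hv0 : v = 0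
      · rw [hv0, degree_zero]
        exact WithBot.bot_lt_coe _
      · rw [natDegree_mul hk hv0] at h1
        exact (natDegree_lt_iff_degree_lt hv0).1 (by omega)
    · intro u u' v _ _ h1 h2
      exact sub_left_injective (h1.trans h2.symm)

theorem fil (n : ℕ) (C₁ : ℝ) (hC : 1 ≤ C₁) : ∃ C₀ : ℝ, 1 ≤ C₀ ∧
    ∀ (k f₀ : ℤ[X]) (M : ℕ) (r : ℤ) (R : ℝ), 1 ≤ R → k.IsPrimitive → Squarefree k →
    1 ≤ k.natDegree → 2 * k.natDegree < n → k.supNorm ^ 2 ≤ C₁ * R → 1 ≤ M →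
    (M : ℤ) ∣ k.eval r → IsCoprime (M : ℤ) ((derivative k).eval r) → Plus n R M r f₀ → Irr f₀ →
    Cnt (Plus n R M r) (C₀ * R ^ n * k.supNorm ^ (2 * k.natDegree) / (M : ℝ) ^ 3) := by
  have hF := wlfil_fact (2 * n)
  obtain ⟨C, hC1, hcl⟩ := class_lemma n 2 ((2 * n).factorial) (by positivity)
  obtain ⟨C₂, hC2, h2⟩ := fil_two n C₁ hC
  refine ⟨C * C₂ * 2 ^ n, one_le_mul_of_one_le_of_one_le
    (one_le_mul_of_one_le_of_one_le hC1 hC2) (one_le_pow₀ (by norm_num)), ?_⟩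
  intro k f₀ M r R hR hp hs he1 he2 hη hM hkr hco hf hi
  have hk : k ≠ 0 := hp.ne_zero
  have hη1 := one_le_sup hk
  have hM0 : (0 : ℝ) < M := by exact_mod_cast hM
  have hn1 : 1 ≤ n := by omega
  have e0 : n - 1 + 1 = n := by omega
  have h3 := h2 k f₀ M r R hR hp hs he1 he2 hη hM hkr hf hi
  have key := hcl k M (n - 1) r (2 * R) _ (Plus n R M r) hp hs (by omega) (by omega) hM
    (by positivity) h3.nonneg hkr
    (fun u v hu hv => ⟨by have := (hu.sub hn1 hv).1.1; omega, (hu.sub hn1 hv).2⟩) ?_ ?_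
  · refine key.mono (fun _ h => h) ?_
    rw [e0]
    obtain ⟨t, ht⟩ : ∃ t, n = k.natDegree + t := ⟨n - k.natDegree, by omega⟩
    have e1 : n - k.natDegree = t := by omega
    have e2 : R ^ n = R ^ k.natDegree * R ^ t := by rw [← pow_add, ← ht]
    have h5 : (2 : ℝ) ^ k.natDegree ≤ 2 ^ n := pow_le_pow_right₀ (by norm_num) (by omega)
    rw [e1, e2]
    calc C * (2 * R) ^ k.natDegree * k.supNorm ^ n / (M : ℝ) ^ 2 *
          (C₂ * R ^ t * k.supNorm ^ (2 * k.natDegree) / k.supNorm ^ n / M)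
        = C * C₂ * 2 ^ k.natDegree * (R ^ k.natDegree * R ^ t) * k.supNorm ^ (2 * k.natDegree) /
          (M : ℝ) ^ 3 := by
          rw [mul_pow]
          field_simp
      _ ≤ _ := by gcongr
  · intro h M' hh hk' hM' hr'
    have hh0 := wlfil_irr_ne hh
    have hM1 : 1 ≤ M' := Nat.pos_of_dvd_of_pos hM' hM
    have hdh : h.natDegree ≤ k.natDegree := natDegree_le_of_dvd hk' hk
    refine ⟨?_, fun u v hu hv => ?_⟩
    · have h6 := sq_le_of_plus (by omega) hM1 ⟨hf.1, hf.2.1, hf.2.2.1, wk_of_dvd hM' hf.2.2.2⟩ hi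
        hh0 (by omega) hr'
      have h7 := h.supNorm_nonneg
      rw [e0]
      refine h6.trans ?_
      gcongr
      linarith
    · have h6 := (hu.sub hn1 hv).1
      exact res_one_two hM1 le_rfl (by have := h6.1; omega) (by omega) hr' (wk_of_dvd hM' h6.2)
  · intro a ha
    refine h3.rel (fun u v => u - a = k * v) ?_ ?_
    · rintro u ⟨hu, v, hv⟩
      obtain ⟨⟨h5, h6⟩, h7⟩ := hu.sub hn1 ha
      rw [hv] at h5 h6 h7
      refine ⟨v, ⟨?_, ?_, ?_⟩, hv⟩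
      · by_cases hv0 : v = 0
        · rw [hv0, natDegree_zero]; omega
        · rw [natDegree_mul hk hv0] at h5; omega
      · refine (wlfil_quot hk h5.le h7).trans (le_of_eq ?_)
        ring
      · have h8 := h6.2
        rw [derivative_mul, eval_add, eval_mul, eval_mul] at h8
        exact hco.dvd_of_dvd_mul_left ((dvd_add_left (hkr.mul_right _)).1 h8)
    · intro u u' v _ _ h1 h2
      exact sub_left_injective (h1.trans h2.symm)

end Pool.Agent.VW.Lat
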