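import Pool.Agent.P.MP_b0ea37_nt.WHt
import Pool.Agent.P.MP_b0ea37_nt.WCnt

namespace Pool.Agent.VW

open Polynomial

theorem red_prod (e : ℕ) (K : ℝ) (hK : 1 ≤ K) (Q : ℤ[X] → Prop)
    (hQ : ∀ A : ℝ, 1 ≤ A → Cnt (fun u => Q u ∧ u.supNorm ≤ A) (K * A ^ e))
    (W : ℝ) (hW : 1 ≤ W) (ε : ℝ) (hε : 0 < ε) : ∃ C : ℝ, 1 ≤ C ∧ ∀ T : ℝ, 1 ≤ T →
    Cnt (fun g : ℤ[X] => ∃ u v : ℤ[X], Q u ∧ Q v ∧ u ≠ 0 ∧ v ≠ 0 ∧
      u.supNorm * v.supNorm ≤ W * T ∧ g = u * v) (C * T ^ ((e : ℝ) + ε)) := by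
  obtain ⟨C, hC, hd⟩ := cnt_dyadic ε hε
  have hWe : 1 ≤ W ^ ε := Real.one_le_rpow hW hε.le
  have hW2 : 1 ≤ (2 * W) ^ e := one_le_pow₀ (by linarith)
  refine ⟨C * W ^ ε * (K * K * (2 * W) ^ e), ?_, fun T hT => ?_⟩
  · have h1 : 1 ≤ C * W ^ ε := one_le_mul_of_one_le_of_one_le hC hWe
    have h2 : 1 ≤ K * K := one_le_mul_of_one_le_of_one_le hK hK
    exact one_le_mul_of_one_le_of_one_le h1 (one_le_mul_of_one_le_of_one_le h2 hW2)
  have hZ : 1 ≤ W * T := one_le_mul_of_one_le_of_one_le hW hT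
  have hT0 : 0 < T := by linarith
  have hW0 : 0 < W := by linarith
  have key : ∀ k : ℕ, (2 : ℝ) ^ k ≤ W * T → Cnt (fun g : ℤ[X] => ∃ z : ℤ[X] × ℤ[X],
      ((Q z.1 ∧ z.1.supNorm ≤ 2 * 2 ^ k) ∧ (Q z.2 ∧ z.2.supNorm ≤ W * T / 2 ^ k)) ∧
        z.1 * z.2 = g) (K * K * (2 * W) ^ e * T ^ e) := by
    intro k hk
    have hp : (0 : ℝ) < 2 ^ k := by positivity
    have hp1 : (1 : ℝ) ≤ 2 ^ k := one_le_pow₀ (by norm_num)
    have h1 := hQ (2 * 2 ^ k) (by linarith)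
    have h2 := hQ (W * T / 2 ^ k) (by rw [le_div_iff₀ hp]; linarith)
    have h3 := (Cnt.prod (Q := fun _ v => Q v ∧ v.supNorm ≤ W * T / 2 ^ k) h1 h2.nonneg
      (fun _ _ => h2)).image (fun z => z.1 * z.2)
    refine h3.mono (fun g hg => hg) (le_of_eq ?_)
    have : (2 * 2 ^ k : ℝ) ^ e * (W * T / 2 ^ k) ^ e = (2 * W) ^ e * T ^ e := by
      rw [← mul_pow, ← mul_pow]
      congr 1
      field_simp
    calc K * (2 * 2 ^ k) ^ e * (K * (W * T / 2 ^ k) ^ e)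
        = K * K * ((2 * 2 ^ k : ℝ) ^ e * (W * T / 2 ^ k) ^ e) := by ring
      _ = _ := by rw [this]; ring
  have h := Cnt.fibre (hd (W * T) hZ) (by positivity) key
  refine h.mono ?_ (le_of_eq ?_)
  · rintro g ⟨u, v, hu, hv, hu0, hv0, huv, rfl⟩
    obtain ⟨k, hk1, hk2⟩ := exists_dyadic u.supNorm (one_le_sup hu0)
    have hv1 := one_le_sup hv0
    have hp : (0 : ℝ) < 2 ^ k := by positivity
    refine ⟨k, by nlinarith, (u, v), ⟨⟨hu, hk2.le⟩, hv, ?_⟩, rfl⟩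
    rw [le_div_iff₀ hp]
    show v.supNorm * 2 ^ k ≤ W * T
    nlinarith
  · rw [Real.mul_rpow hW0.le hT0.le, Real.rpow_add hT0, Real.rpow_natCast]
    ring

/-- products of two nonconstant polynomials -/
theorem cnt_reducible (m : ℕ) (ε : ℝ) (hε : 0 < ε) : ∃ C : ℝ, 1 ≤ C ∧ ∀ T : ℝ, 1 ≤ T →
    Cnt (fun g : ℤ[X] => g.natDegree ≤ m ∧ g.supNorm ≤ T ∧
      ∃ u v : ℤ[X], 0 < u.natDegree ∧ 0 < v.natDegree ∧ g = u * v) (C * T ^ ((m : ℝ) + ε)) := by
  obtain ⟨C, hC, h⟩ := red_prod m (3 ^ m) (one_le_pow₀ (by norm_num))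
    (fun u => u.degree < m) (fun A hA => (cnt_poly m A (by linarith)).mono (fun _ h => h) (by
      rw [← mul_pow]
      exact pow_le_pow_left₀ (by linarith) (by linarith) m))
    (4 ^ m) (one_le_pow₀ (by norm_num)) ε hε
  refine ⟨C, hC, fun T hT => (h T hT).mono ?_ le_rfl⟩
  rintro g ⟨hm, hg, u, v, hu, hv, rfl⟩
  have hu0 : u ≠ 0 := by rintro rfl; simp at hu
  have hv0 : v ≠ 0 := by rintro rfl; simp at hv
  have hd := natDegree_mul hu0 hv0
  refine ⟨u, v, ?_, ?_, hu0, hv0, ?_, rfl⟩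
  · exact (natDegree_lt_iff_degree_lt hu0).1 (by omega)
  · exact (natDegree_lt_iff_degree_lt hv0).1 (by omega)
  · exact (gelfond u v hm).trans (mul_le_mul_of_nonneg_left hg (by positivity))

theorem red_lead (m : ℕ) (c A : ℝ) (hc : 0 ≤ c) (hA : 1 ≤ A) :
    Cnt (fun u : ℤ[X] => (u.natDegree ≤ m ∧ |(u.leadingCoeff : ℝ)| ≤ c) ∧ u.supNorm ≤ A)
      (((m : ℝ) + 1) * ((2 * c + 1) * 3 ^ m) * A ^ m) := by
  have h1 := cnt_nat_le (m : ℝ) (Nat.cast_nonneg m)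
  have h2 := cnt_int_abs c hc
  have h3 := cnt_poly m A (by linarith)
  have h4 := Cnt.prod (Q := fun (_ : ℤ) (g : ℤ[X]) => g.degree < m ∧ g.supNorm ≤ A) h2 h3.nonneg
    (fun _ _ => h3)
  have h5 := Cnt.prod (Q := fun (_ : ℕ) (z : ℤ × ℤ[X]) =>
    |(z.1 : ℝ)| ≤ c ∧ (z.2.degree < m ∧ z.2.supNorm ≤ A)) h1 h4.nonneg (fun _ _ => h4)
  have h6 := h5.inj
    (P := fun u : ℤ[X] => (u.natDegree ≤ m ∧ |(u.leadingCoeff : ℝ)| ≤ c) ∧ u.supNorm ≤ A)
    (fun u => (u.natDegree, u.leadingCoeff, u.eraseLead)) ?_ ?_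
  · refine h6.mono (fun _ h => h) ?_
    have : (2 * A + 1) ^ m ≤ 3 ^ m * A ^ m := by
      rw [← mul_pow]
      exact pow_le_pow_left₀ (by linarith) (by linarith) m
    calc ((m : ℝ) + 1) * ((2 * c + 1) * (2 * A + 1) ^ m)
        ≤ ((m : ℝ) + 1) * ((2 * c + 1) * (3 ^ m * A ^ m)) := by gcongr
      _ = _ := by ring
  · rintro u ⟨⟨hm, hl⟩, hs⟩
    refine ⟨by exact_mod_cast hm, hl, ?_, ?_⟩
    · by_cases hu : u = 0
      · subst hu
        simp
      · exact (degree_eraseLead_lt hu).trans_le (natDegree_le_iff_degree_le.1 hm)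
    · show u.eraseLead.supNorm ≤ A
      rw [sup_le_iff] at hs ⊢
      intro i
      rw [eraseLead_coeff]
      split_ifs
      · simp only [norm_zero]
        linarith
      · exact hs i
  · intro u v _ _ h
    simp only [Prod.mk.injEq] at h
    rw [← eraseLead_add_monomial_natDegree_leadingCoeff u,
      ← eraseLead_add_monomial_natDegree_leadingCoeff v, h.2.2]
    congr 1
    rw [h.1, h.2.1]

/-- the same with a prescribed leading coefficient -/
theorem cnt_reducible_lead (m : ℕ) (c : ℤ) (hc : c ≠ 0) (ε : ℝ) (hε : 0 < ε) : ∃ C : ℝ, 1 ≤ C ∧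
    ∀ T : ℝ, 1 ≤ T → Cnt (fun g : ℤ[X] => g.natDegree = m ∧ g.leadingCoeff = c ∧ g.supNorm ≤ T ∧
      ∃ u v : ℤ[X], 0 < u.natDegree ∧ 0 < v.natDegree ∧ g = u * v)
      (C * T ^ ((m : ℝ) - 1 + ε)) := by
  rcases m with _ | m
  · refine ⟨1, le_rfl, fun T hT => Cnt.empty ?_ (by positivity)⟩
    rintro g ⟨hm, -, -, u, v, hu, hv, rfl⟩
    have hu0 : u ≠ 0 := by rintro rfl; simp at hu
    have hv0 : v ≠ 0 := by rintro rfl; simp at hv
    have hd := natDegree_mul hu0 hv0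
    omega
  have hK : (1 : ℝ) ≤ ((m : ℝ) + 1) * ((2 * |(c : ℝ)| + 1) * 3 ^ m) := by
    have h1 : (1 : ℝ) ≤ (m : ℝ) + 1 := by linarith [Nat.cast_nonneg (α := ℝ) m]
    have h2 : (1 : ℝ) ≤ 2 * |(c : ℝ)| + 1 := by linarith [abs_nonneg (c : ℝ)]
    exact one_le_mul_of_one_le_of_one_le h1
      (one_le_mul_of_one_le_of_one_le h2 (one_le_pow₀ (by norm_num)))
  obtain ⟨C, hC, h⟩ := red_prod m _ hK
    (fun u => u.natDegree ≤ m ∧ |(u.leadingCoeff : ℝ)| ≤ |(c : ℝ)|)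
    (fun A hA => red_lead m _ A (abs_nonneg _) hA)
    (4 ^ (m + 1)) (one_le_pow₀ (by norm_num)) ε hε
  refine ⟨C, hC, fun T hT => (h T hT).mono ?_ (le_of_eq (by congr 2; push_cast; ring))⟩
  rintro g ⟨hm, hl, hg, u, v, hu, hv, rfl⟩
  have hu0 : u ≠ 0 := by rintro rfl; simp at hu
  have hv0 : v ≠ 0 := by rintro rfl; simp at hv
  have hd := natDegree_mul hu0 hv0
  rw [leadingCoeff_mul] at hl
  have hb : ∀ a : ℤ, a ∣ c → |(a : ℝ)| ≤ |(c : ℝ)| := fun a ha => by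
    have : |a| ≤ |c| := Int.le_of_dvd (abs_pos.2 hc) ((abs_dvd_abs a c).2 ha)
    exact_mod_cast this
  refine ⟨u, v, ⟨by omega, hb _ ⟨_, hl.symm⟩⟩, ⟨by omega, hb _ (Dvd.intro_left _ hl)⟩,
    hu0, hv0, ?_, rfl⟩
  exact (gelfond u v hm.le).trans (mul_le_mul_of_nonneg_left hg (by positivity))

theorem irr_or_reducible (g : ℤ[X]) (hg : 0 < g.natDegree) :
    Irr g ∨ ∃ u v : ℤ[X], 0 < u.natDegree ∧ 0 < v.natDegree ∧ g = u * v := by
  have hg0 : g ≠ 0 := by rintro rfl; simp at hg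
  have hc : g.content ≠ 0 := fun h => hg0 (content_eq_zero_iff.1 h)
  have hp := g.isPrimitive_primPart
  have he := g.eq_C_content_mul_primPart
  by_cases hi : Irreducible g.primPart
  · left
    have h1 := (IsPrimitive.Int.irreducible_iff_irreducible_map_cast hp).1 hi
    have h2 : IsUnit (C (g.content : ℚ)) :=
      isUnit_C.2 (IsUnit.mk0 _ (by exact_mod_cast hc))
    have h3 : up ℚ g = C (g.content : ℚ) * g.primPart.map (Int.castRingHom ℚ) := by
      conv_lhs => rw [he]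
      simp [up]
    unfold Irr
    rw [h3]
    exact (irreducible_isUnit_mul h2).2 h1
  · right
    have hnu : ¬ IsUnit g.primPart := fun h => by
      have := natDegree_eq_zero_of_isUnit h
      rw [natDegree_primPart] at this
      omega
    rw [irreducible_iff] at hi
    push Not at hi
    obtain ⟨a, b, hab, ha, hb⟩ := hi hnu
    have hpos : ∀ w : ℤ[X], w ∣ g.primPart → ¬ IsUnit w → 0 < w.natDegree := by
      intro w hw hn
      by_contra h0
      have h1 : w = C (w.coeff 0) := eq_C_of_natDegree_eq_zero (by omega)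
      rw [h1] at hw hn
      exact hn (isUnit_C.2 (hp _ hw))
    refine ⟨C g.content * a, b, ?_, hpos b (Dvd.intro_left _ hab.symm) hb, ?_⟩
    · rw [natDegree_C_mul hc]
      exact hpos a ⟨b, hab⟩ ha
    · rw [mul_assoc, ← hab]
      exact he

/-- integer points of a progression box on a hypersurface -/
theorem cnt_hyper {k : ℕ} (G : MvPolynomial (Fin k) ℚ) (hG : G ≠ 0) (l : ℕ) (hl : 1 ≤ l)
    (a : Fin k → ℤ) (H : ℝ) (hH : 0 ≤ H) :
    Cnt (fun x : Fin k → ℤ => (∀ i, |(x i : ℝ)| ≤ H ∧ (l : ℤ) ∣ x i - a i) ∧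
      MvPolynomial.eval (fun i => (x i : ℚ)) G = 0)
      (G.totalDegree * (2 * H / l + 1) ^ (k - 1)) := by
  classical
  intro S hS
  have hB : (1 : ℝ) ≤ 2 * H / l + 1 := by
    have : 0 ≤ 2 * H / l := by positivity
    linarith
  obtain ⟨N, hN⟩ : ∃ N : ℕ, N = ⌊2 * H / l + 1⌋₊ := ⟨_, rfl⟩
  have hN1 : 1 ≤ N := by rw [hN]; exact Nat.le_floor (by exact_mod_cast hB)
  have hNB : (N : ℝ) ≤ 2 * H / l + 1 := by rw [hN]; exact Nat.floor_le (by linarith)
  have hT : ∀ i : Fin k, ∃ T : Finset ℚ, (∀ x ∈ S, ((x i : ℤ) : ℚ) ∈ T) ∧ T.card = N := by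
    intro i
    have h1 := cnt_class l hl (a i) 0 H hH (S.image fun x => x i) (by
      intro t ht
      obtain ⟨x, hx, rfl⟩ := Finset.mem_image.1 ht
      simpa using (hS x hx).1 i)
    have h2 : ((S.image fun x => x i).image (Int.cast : ℤ → ℚ)).card ≤ N :=
      Finset.card_image_le.trans (by rw [hN]; exact Nat.le_floor h1)
    obtain ⟨T, hT1, hT2⟩ := Infinite.exists_superset_card_eq _ N h2
    exact ⟨T, fun x hx => hT1 (Finset.mem_image_of_mem _ (Finset.mem_image_of_mem _ hx)), hT2⟩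
  choose T hT1 hT2 using hT
  have h1 := MvPolynomial.schwartz_zippel_sup_sum hG T
  have hN0 : (0 : ℚ≥0) < N := by exact_mod_cast hN1
  have h2 : (G.support.sup fun s => ∑ i, (s i / (T i).card : ℚ≥0)) ≤ G.totalDegree / N := by
    refine Finset.sup_le fun s hs => ?_
    simp only [hT2]
    rw [← Finset.sum_div]
    gcongr
    have := MvPolynomial.le_totalDegree hs
    rw [Finsupp.sum_fintype _ _ (fun _ => rfl)] at this
    exact_mod_cast this
  have h3 := h1.trans h2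
  simp only [hT2, Finset.prod_const, Finset.card_univ, Fintype.card_fin] at h3
  rw [div_le_div_iff₀ (by positivity) hN0] at h3
  have h4 : S.card ≤ ((Fintype.piFinset T).filter fun x => MvPolynomial.eval x G = 0).card := by
    refine Finset.card_le_card_of_injOn (fun x i => ((x i : ℤ) : ℚ)) (fun x hx => ?_) ?_
    · simp only [Finset.coe_filter, Fintype.mem_piFinset, Set.mem_ofPred_eq]
      exact ⟨fun i => hT1 i x hx, (hS x hx).2⟩
    · intro x _ y _ h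
      funext i
      have h' : ((x i : ℤ) : ℚ) = ((y i : ℤ) : ℚ) := congrFun h i
      exact_mod_cast h'
  have h5 : ((Fintype.piFinset T).filter fun x => MvPolynomial.eval x G = 0).card * N ≤
      G.totalDegree * N ^ k := by exact_mod_cast h3
  have h6 : N ^ k ≤ N ^ (k - 1) * N := by
    rw [← pow_succ]
    exact Nat.pow_le_pow_right hN1 (by omega)
  have h7 : S.card ≤ G.totalDegree * N ^ (k - 1) := by
    refine Nat.le_of_mul_le_mul_right (c := N) ?_ hN1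
    calc S.card * N ≤ _ := Nat.mul_le_mul_right N h4
      _ ≤ _ := h5
      _ ≤ G.totalDegree * (N ^ (k - 1) * N) := Nat.mul_le_mul_left _ h6
      _ = _ := by ring
  calc (S.card : ℝ) ≤ G.totalDegree * (N : ℝ) ^ (k - 1) := by exact_mod_cast h7
    _ ≤ _ := by gcongr

end Pool.Agent.VW
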