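import Pool.Agent.P.MP_b0ea37_nt.WLWk
import Pool.Agent.P.MP_b0ea37_nt.WRed
import Pool.Agent.P.MP_b0ea37_nt.WRes

namespace Pool.Agent.VW.Lat

open Polynomial

theorem wlspec_not_dvd {g₁ g₂ : ℤ[X]} (hi : Indep g₁ g₂) (hd : g₂.natDegree ≤ g₁.natDegree) :
    ¬ up ℚ g₁ ∣ up ℚ g₂ := by
  rintro ⟨q, hq⟩
  have hinj : Function.Injective (Int.castRingHom ℚ) := Int.cast_injective
  have h1 : up ℚ g₁ ≠ 0 := (Polynomial.map_ne_zero_iff hinj).2 (indep_ne_left hi)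
  have h2 : up ℚ g₂ ≠ 0 := (Polynomial.map_ne_zero_iff hinj).2 (indep_ne_right hi)
  have h3 : q ≠ 0 := by
    rintro rfl
    exact h2 (by rw [hq, mul_zero])
  have h4 := congrArg natDegree hq
  rw [natDegree_mul h1 h3, natDegree_map_eq_of_injective hinj,
    natDegree_map_eq_of_injective hinj] at h4
  obtain ⟨c, rfl⟩ := natDegree_eq_zero.1 (by omega : q.natDegree = 0)
  refine (not_indep_iff (indep_ne_left hi)).2 ⟨c.num, c.den, by exact_mod_cast c.den_ne_zero,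
    Polynomial.map_injective _ hinj ?_⟩ hi
  rw [Polynomial.map_mul, Polynomial.map_mul, map_C, map_C]
  change C ((c.den : ℤ) : ℚ) * up ℚ g₂ = C ((c.num : ℤ) : ℚ) * up ℚ g₁
  rw [hq, ← Rat.mul_den_eq_num, C_mul, Int.cast_natCast]
  ring

theorem res_bound (n : ℕ) (hn : 3 ≤ n) (M : ℕ) (hM : 1 ≤ M) (r : ℤ) (g₁ g₂ : ℤ[X])
    (h₁ : Lam n M r g₁) (h₂ : Lam n M r g₂) (hi : Indep g₁ g₂) (hs : ¬ Spec n g₁) :
    (M : ℝ) ^ 4 ≤ (2 * n).factorial * (g₁.supNorm * g₂.supNorm) ^ (n - 1) := by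
  obtain ⟨m, rfl⟩ : ∃ m, n = m + 1 := ⟨n - 1, by omega⟩
  rw [Spec, not_or, not_not] at hs
  have d1 : g₁.natDegree = m := by have := h₁.1; omega
  have d2 : g₂.natDegree ≤ m := by have := h₂.1; omega
  have hc : IsCoprime (up ℚ g₁) (up ℚ g₂) :=
    (Irreducible.coprime_iff_not_dvd hs.2).2 (wlspec_not_dvd hi (by omega))
  have h0 := resultant_ne_zero_of_coprime hc
  have hne : resultant g₁ g₂ m m ≠ 0 := by
    obtain ⟨k, hk⟩ := Nat.exists_eq_add_of_le d2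
    have e := resultant_add_right_deg g₁ g₂ m g₂.natDegree k le_rfl
    rw [← hk] at e
    rw [e]
    refine mul_ne_zero (pow_ne_zero _ ?_) (by rwa [d1] at h0)
    rw [← d1]
    exact leadingCoeff_ne_zero.2 (indep_ne_left hi)
  have hd := res_two_two hM d1.le d2 (by omega) h₁.2 h₂.2
  have h3 : (M : ℤ) ^ 4 ≤ |resultant g₁ g₂ m m| :=
    Int.le_of_dvd (abs_pos.2 hne) ((dvd_abs _ _).2 hd)
  have h4 : (M : ℝ) ^ 4 ≤ ‖resultant g₁ g₂ m m‖ := by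
    rw [Int.norm_eq_abs]
    exact_mod_cast h3
  have h5 : ((m + m).factorial : ℝ) ≤ (2 * (m + 1)).factorial := by
    exact_mod_cast Nat.factorial_le (by omega)
  refine h4.trans ((norm_resultant_le g₁ g₂ m m).trans ?_)
  rw [Nat.add_sub_cancel, mul_pow, mul_assoc]
  exact mul_le_mul_of_nonneg_right h5
    (mul_nonneg (pow_nonneg g₁.supNorm_nonneg _) (pow_nonneg g₂.supNorm_nonneg _))

theorem wlspec_cnt (m : ℕ) (U : ℝ) (hU : 1 ≤ U) :
    Cnt (fun g : ℤ[X] => g.natDegree < m ∧ g.supNorm ≤ U) ((3 * U) ^ m) :=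
  (cnt_poly m U (by linarith)).mono
    (fun g hg => ⟨degree_le_natDegree.trans_lt (by exact_mod_cast hg.1), hg.2⟩)
    (pow_le_pow_left₀ (by linarith) (by linarith) _)

theorem fam_all (n : ℕ) : Fam n (3 ^ n) n fun g => g ≠ 0 ∧ g.natDegree < n := by
  refine ⟨fun g hg => hg, fun c g hc hg => ⟨right_ne_zero_of_mul hg.1, ?_⟩, fun U hU => ?_⟩
  · rw [← natDegree_C_mul hc (p := g)]
    exact hg.2
  · exact (wlspec_cnt n U hU).mono (fun g hg => ⟨hg.1.2, hg.2⟩)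
      (by rw [Real.rpow_natCast, mul_pow])

theorem wlspec_irr {c : ℤ} (hc : c ≠ 0) {g : ℤ[X]} (hg : Irr g) : Irr (C c * g) := by
  unfold Irr up
  rw [Polynomial.map_mul, map_C]
  refine (irreducible_isUnit_mul (isUnit_C.2 (IsUnit.mk0 _ ?_))).2 hg
  simpa using hc

theorem fam_spec (n : ℕ) (hn : 3 ≤ n) (ε : ℝ) (hε : 0 < ε) : ∃ A : ℝ, 0 ≤ A ∧
    Fam n A ((n : ℝ) - 1 + ε) fun g => g ≠ 0 ∧ g.natDegree < n ∧ Spec n g := by
  obtain ⟨m, rfl⟩ : ∃ m, n = m + 1 := ⟨n - 1, by omega⟩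
  obtain ⟨A, hA, h⟩ := cnt_reducible m ε hε
  refine ⟨3 ^ m + A, by positivity, fun g hg => ⟨hg.1, hg.2.1⟩, fun c g hc hg => ?_,
    fun U hU => ?_⟩
  · obtain ⟨h1, h2, h3⟩ := hg
    rw [Spec, natDegree_C_mul hc] at h3
    rw [natDegree_C_mul hc] at h2
    exact ⟨right_ne_zero_of_mul h1, h2, h3.imp_right fun h4 h5 => h4 (wlspec_irr hc h5)⟩
  · refine ((wlspec_cnt m U hU).or (h U hU)).mono ?_ ?_
    · rintro g ⟨⟨-, h2, h3⟩, h4⟩
      by_cases h5 : g.natDegree < m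
      · exact Or.inl ⟨h5, h4⟩
      · refine Or.inr ⟨by omega, h4, (irr_or_reducible g (by omega)).resolve_left ?_⟩
        exact h3.resolve_left (by omega)
    · have e : ((m + 1 : ℕ) : ℝ) - 1 + ε = m + ε := by push_cast; ring
      have h1 : U ^ m ≤ U ^ ((m : ℝ) + ε) := by
        rw [← Real.rpow_natCast]
        exact Real.rpow_le_rpow_of_exponent_le hU (by linarith)
      rw [e, add_mul, mul_pow]
      exact add_le_add (mul_le_mul_of_nonneg_left h1 (by positivity)) le_rfl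

theorem wlspec_dvd {k g : ℤ[X]} {c : ℤ} (hk : k.IsPrimitive) (h0 : C c * g ≠ 0)
    (h : k ^ 2 ∣ C c * g) : k ^ 2 ∣ g := by
  have h2 : (k ^ 2).IsPrimitive := by
    rw [sq]
    exact hk.mul hk
  rw [← h2.dvd_primPart_iff_dvd h0, primPart_mul h0] at h
  exact (((isUnit_primPart_C c).dvd_mul_left).1 h).trans (primPart_dvd g)

theorem wlspec_fibre (e j : ℕ) (η U : ℝ) (hη : 1 ≤ η) (hU : 1 ≤ U) (k : ℤ[X])
    (hd : k.natDegree = e) (hk : η ≤ k.supNorm) :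
    Cnt (fun g : ℤ[X] => g ≠ 0 ∧ g.natDegree < 2 * e + j ∧ k ^ 2 ∣ g ∧ g.supNorm ≤ U)
      ((3 * (16 ^ (2 * e + j) * U / η ^ 2)) ^ j) := by
  have hk0 : k ≠ 0 := by
    rintro rfl
    rw [supNorm_zero] at hk
    linarith
  have key : ∀ g : ℤ[X], (g ≠ 0 ∧ g.natDegree < 2 * e + j ∧ k ^ 2 ∣ g ∧ g.supNorm ≤ U) →
      ∃ u : ℤ[X], (u ≠ 0 ∧ u.natDegree < j ∧ u.supNorm ≤ 16 ^ (2 * e + j) * U / η ^ 2) ∧
        g = k ^ 2 * u := by
    rintro g ⟨h1, h2, ⟨u, rfl⟩, h4⟩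
    have hu : u ≠ 0 := right_ne_zero_of_mul h1
    refine ⟨u, ⟨hu, ?_, ?_⟩, rfl⟩
    · rw [natDegree_mul (pow_ne_zero 2 hk0) hu, natDegree_pow, hd] at h2
      omega
    · rw [le_div_iff₀ (by positivity), mul_comm]
      exact (mul_le_mul_of_nonneg_right (pow_le_pow_left₀ (by linarith) hk 2)
        u.supNorm_nonneg).trans ((sq_sup_le h2.le hu hk0).trans
          (mul_le_mul_of_nonneg_left h4 (by positivity)))
  refine Cnt.of_mem (by positivity) fun g₀ hg₀ => ?_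
  obtain ⟨u₀, ⟨h1, -, h2⟩, -⟩ := key g₀ hg₀
  refine (wlspec_cnt j _ ((one_le_sup h1).trans h2)).rel (fun g u => g = k ^ 2 * u)
    (fun g hg => ?_) fun g g' u _ _ h3 h4 => h3.trans h4.symm
  obtain ⟨u, hu, h3⟩ := key g hg
  exact ⟨u, hu.2, h3⟩

theorem fam_sq (n : ℕ) : ∃ C₀ : ℝ, 1 ≤ C₀ ∧ ∀ (e : ℕ) (η : ℝ), 1 ≤ η → 2 * e < n →
    Fam n (C₀ * η ^ (5 * (e : ℝ) + 1 - 2 * n)) ((n : ℝ) - 2 * e) (Sq n e η) := by
  have h16 : (1 : ℝ) ≤ 3 * 16 ^ n := by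
    have : (1 : ℝ) ≤ 16 ^ n := one_le_pow₀ (by norm_num)
    linarith
  refine ⟨5 ^ (n + 1) * (3 * 16 ^ n) ^ n,
    one_le_mul_of_one_le_of_one_le (one_le_pow₀ (by norm_num)) (one_le_pow₀ h16),
    fun e η hη he => ⟨fun g hg => ⟨hg.1, hg.2.1⟩, ?_, fun U hU => ?_⟩⟩
  · rintro c g hc ⟨h1, h2, k, h3, h4, h5, h6, h7⟩
    rw [natDegree_C_mul hc] at h2
    exact ⟨right_ne_zero_of_mul h1, h2, k, h3, h4, h5, h6, wlspec_dvd h3 h1 h7⟩
  · obtain ⟨j, rfl⟩ := Nat.exists_eq_add_of_le he.le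
    have hη0 : 0 < η := by linarith
    have hQ : Cnt (fun k : ℤ[X] => k.natDegree = e ∧ η ≤ k.supNorm ∧ k.supNorm ≤ 2 * η)
        ((5 * η) ^ (e + 1)) :=
      (cnt_poly (e + 1) (2 * η) (by linarith)).mono
        (fun k hk => ⟨degree_le_natDegree.trans_lt (by exact_mod_cast (by omega)), hk.2.2⟩)
        (pow_le_pow_left₀ (by linarith) (by linarith) _)
    refine (hQ.fibre (by positivity) fun k hk =>
      wlspec_fibre e j η U hη hU k hk.1 hk.2.1).mono ?_ ?_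
    · rintro g ⟨⟨h1, h2, k, -, h4, h5, h6, h7⟩, h8⟩
      exact ⟨k, ⟨h4, h5, h6⟩, h1, h2, h7, h8⟩
    · have e1 : 5 * (e : ℝ) + 1 - 2 * ((2 * e + j : ℕ) : ℝ) =
          ((e + 1 : ℕ) : ℝ) - ((2 * j : ℕ) : ℝ) := by push_cast; ring
      have e2 : ((2 * e + j : ℕ) : ℝ) - 2 * e = j := by push_cast; ring
      rw [e1, e2, Real.rpow_sub hη0, Real.rpow_natCast, Real.rpow_natCast, Real.rpow_natCast]
      have e3 : (5 * η) ^ (e + 1) * (3 * (16 ^ (2 * e + j) * U / η ^ 2)) ^ j =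
          5 ^ (e + 1) * (3 * 16 ^ (2 * e + j)) ^ j * (η ^ (e + 1) / η ^ (2 * j)) * U ^ j := by
        rw [pow_mul η 2 j]
        simp only [mul_pow, div_pow]
        ring
      rw [e3]
      refine mul_le_mul_of_nonneg_right (mul_le_mul_of_nonneg_right ?_ (by positivity))
        (by positivity)
      exact mul_le_mul (pow_le_pow_right₀ (by norm_num) (by omega))
        (pow_le_pow_right₀ h16 (by omega)) (by positivity) (by positivity)

end Pool.Agent.VW.Lat
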