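import Pool.Agent.P.MP_b0ea37_nt.WLAlpha
import Pool.Agent.P.MP_b0ea37_nt.WLSpec

namespace Pool.Agent.VW.Lat

open Polynomial

theorem wlfirst_tri {V Y Y' : ℝ} {N : ℤ[X] → ℕ} {M : ℕ} {r : ℤ} {g : ℤ[X]} (h : Tri V Y N M r g)
    (hY : Y ≤ Y') : Tri V Y' N M r g := by
  obtain ⟨h1, h2, h3, h4, h5, h6, h7, M', h8, h9, h10⟩ := h
  exact ⟨h1, h2, h3, h4, h5, h6, h7, M', h8, h9.trans hY, h10⟩

theorem wlfirst_W {n e : ℕ} (he : 1 ≤ e) (hen : 2 * e < n) {η x : ℝ} (hη : 1 ≤ η)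
    (hx : η ^ 2 ≤ 16 ^ n * x) :
    x ^ (((n : ℝ) - 2 * e) - ((n : ℝ) - 3 / 2)) ≤ 16 ^ (n * n) * η ^ (3 - 4 * (e : ℝ)) := by
  have h0 : 0 < η := one_pos.trans_le hη
  have he' : (1 : ℝ) ≤ e := by exact_mod_cast he
  have hen' : 2 * (e : ℝ) ≤ n := by exact_mod_cast hen.le
  have hq : (0 : ℝ) < 16 ^ n := by positivity
  have h1 : η ^ 2 / 16 ^ n ≤ x := by rwa [div_le_iff₀' hq]
  have e1 : ((n : ℝ) - 2 * e) - ((n : ℝ) - 3 / 2) = -(2 * (e : ℝ) - 3 / 2) := by ring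
  have e2 : (η ^ 2) ^ (-(2 * (e : ℝ) - 3 / 2)) = η ^ (3 - 4 * (e : ℝ)) := by
    rw [← Real.rpow_natCast, ← Real.rpow_mul h0.le]
    congr 1
    push_cast
    ring
  rw [e1]
  refine (Real.rpow_le_rpow_of_nonpos (by positivity) h1 (by linarith)).trans ?_
  rw [Real.div_rpow (by positivity) hq.le, e2, Real.rpow_neg hq.le, div_inv_eq_mul, mul_comm,
    pow_mul]
  refine mul_le_mul_of_nonneg_right ?_ (by positivity)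
  rw [← Real.rpow_natCast ((16 : ℝ) ^ n) n]
  exact Real.rpow_le_rpow_of_exponent_le (one_le_pow₀ (by norm_num)) (by linarith)

theorem wlfirst_deg (n D e : ℕ) (hn : 5 ≤ n) (hD : 1 ≤ D) (he : 1 ≤ e) (hen : 2 * e < n) (C₁ : ℝ)
    (hC : 0 ≤ C₁) (N : ℤ[X] → ℕ) (S : ℝ → ℕ → ℤ → ℤ[X] → Prop) :
    PS n fun H f => ∃ (M : ℕ) (r : ℤ) (g k : ℤ[X]), g ≠ 0 ∧
      g.natDegree < n ∧ g.supNorm ≤ H ∧ k.IsPrimitive ∧ k.natDegree = e ∧ k ^ 2 ∣ g ∧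
      Tri (H ^ D) (H ^ (12 / 25 : ℝ) * k.supNorm ^ (2 * n - 4 - e)) N M r g ∧
      S H M r f ∧
      Cnt (S H M r) (C₁ * H ^ ((n : ℝ) - 3 / 2 + 1 / 100) / g.supNorm ^ ((n : ℝ) - 3 / 2)) := by
  obtain ⟨ε, hε, hεD⟩ : ∃ ε : ℝ, 0 < ε ∧ (D + 1) * ε = 1 / 200 :=
    ⟨1 / (200 * (D + 1)), by positivity, by field_simp⟩
  obtain ⟨C₀, hC₀, hF⟩ := fam_sq n
  obtain ⟨C₂, hC₂, hA⟩ := cnt_alpha_fib n ε hε
  obtain ⟨C₃, hC₃, hY⟩ := cnt_dy ε hε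
  obtain ⟨p, hp⟩ : ∃ p, p = 2 * n - 4 - e := ⟨_, rfl⟩
  have hp' : (p : ℝ) = 2 * n - 4 - e := by
    have : p + e + 4 = 2 * n := by omega
    have : (p : ℝ) + e + 4 = 2 * n := by exact_mod_cast this
    linarith
  have hn' : (5 : ℝ) ≤ n := by exact_mod_cast hn
  have he' : (1 : ℝ) ≤ e := by exact_mod_cast he
  have hen' : 2 * (e : ℝ) + 1 ≤ n := by exact_mod_cast hen
  rw [← hp]
  refine PS.of_lt (ε + (D * ε + (12 / 25 + ((n : ℝ) - 3 / 2 + 1 / 100))))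
    (C₃ * (C₂ * (C₀ * 2 ^ p * C₁ * 16 ^ (n * n)))) (16 ^ n) (by linarith) fun H hH => ?_
  have h1 : 1 ≤ H := (one_le_pow₀ (by norm_num)).trans hH
  have h0 : 0 < H := one_pos.trans_le h1
  have hV : H ≤ H ^ D := le_self_pow₀ h1 (by omega)
  refine (hY H (C₂ * (H ^ D) ^ ε * (C₀ * 2 ^ p * C₁ * 16 ^ (n * n) *
      (H ^ (12 / 25 : ℝ) * H ^ ((n : ℝ) - 3 / 2 + 1 / 100))))
    (fun t f => ∃ (M : ℕ) (r : ℤ) (g k : ℤ[X]), k.supNorm = t ∧ g ≠ 0 ∧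
      g.natDegree < n ∧ g.supNorm ≤ H ∧ k.IsPrimitive ∧ k.natDegree = e ∧ k ^ 2 ∣ g ∧
      Tri (H ^ D) (H ^ (12 / 25 : ℝ) * k.supNorm ^ p) N M r g ∧ S H M r f ∧
      Cnt (S H M r) (C₁ * H ^ ((n : ℝ) - 3 / 2 + 1 / 100) / g.supNorm ^ ((n : ℝ) - 3 / 2)))
    h1 (by positivity) fun η hη _ => ?_).mono ?_ (le_of_eq ?_)
  · have hη0 : 0 < η := one_pos.trans_le hη
    refine (hA (H ^ D) (H ^ (12 / 25 : ℝ) * (2 * η) ^ p) _ _ ((n : ℝ) - 3 / 2)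
      (C₁ * H ^ ((n : ℝ) - 3 / 2 + 1 / 100)) (16 ^ (n * n) * η ^ (3 - 4 * (e : ℝ))) _ N (S H)
      (h1.trans hV) (by positivity) (by positivity) (by linarith) (by linarith) (by linarith)
      (by linarith) (by positivity) (by positivity) (hF e η hη hen)).mono ?_ (le_of_eq ?_)
    · rintro f ⟨t, ht1, ht2, M, r, g, k, rfl, hg, hd, hgH, hk, hke, hkg, hT, hS, hcnt⟩
      refine ⟨M, r, g, ⟨hg, hd, k, hk, hke, ht1, ht2, hkg⟩, hgH.trans hV, wlfirst_W he hen hη ?_,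
        wlfirst_tri hT ?_, hS, hcnt⟩
      · exact (pow_le_pow_left₀ hη0.le ht1 2).trans (sq_sup_le_of_dvd hg hd.le hkg)
      · exact mul_le_mul_of_nonneg_left (pow_le_pow_left₀ k.supNorm_nonneg ht2 p) (by positivity)
    · have e1 : η ^ (5 * (e : ℝ) + 1 - 2 * n) * η ^ p * η ^ (3 - 4 * (e : ℝ)) = 1 := by
        rw [← Real.rpow_natCast η p, ← Real.rpow_add hη0, ← Real.rpow_add hη0, hp']
        have : 5 * (e : ℝ) + 1 - 2 * n + (2 * n - 4 - e) + (3 - 4 * (e : ℝ)) = 0 := by ring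
        rw [this, Real.rpow_zero]
      rw [mul_pow]
      linear_combination (C₂ * (H ^ D) ^ ε * (C₀ * 2 ^ p * C₁ * 16 ^ (n * n) *
        (H ^ (12 / 25 : ℝ) * H ^ ((n : ℝ) - 3 / 2 + 1 / 100)))) * e1
  · rintro f ⟨-, M, r, g, k, hg, hd, hgH, hk, hke, hkg, h⟩
    refine ⟨k.supNorm, one_le_sup hk.ne_zero, ?_, M, r, g, k, rfl, hg, hd, hgH, hk, hke, hkg, h⟩
    refine (pow_le_pow_iff_left₀ k.supNorm_nonneg h0.le two_ne_zero).1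
      ((sq_sup_le_of_dvd hg hd.le hkg).trans ?_)
    rw [sq]
    exact mul_le_mul hH hgH g.supNorm_nonneg h0.le
  · rw [Real.rpow_add h0 ε, Real.rpow_add h0 (D * ε), Real.rpow_add h0 (12 / 25),
      Real.rpow_natCast_mul h0.le]
    ring

theorem ps_first (n D : ℕ) (hn : 5 ≤ n) (hD : 1 ≤ D) (C₁ : ℝ) (hC : 0 ≤ C₁) (N : ℤ[X] → ℕ)
    (S : ℝ → ℕ → ℤ → ℤ[X] → Prop) : PS n fun H f => ∃ (M : ℕ) (r : ℤ) (g k : ℤ[X]), g ≠ 0 ∧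
      g.natDegree < n ∧ g.supNorm ≤ H ∧ k.IsPrimitive ∧ 1 ≤ k.natDegree ∧ k ^ 2 ∣ g ∧
      Tri (H ^ D) (H ^ (12 / 25 : ℝ) * k.supNorm ^ (2 * n - 4 - k.natDegree)) N M r g ∧
      S H M r f ∧
      Cnt (S H M r) (C₁ * H ^ ((n : ℝ) - 3 / 2 + 1 / 100) / g.supNorm ^ ((n : ℝ) - 3 / 2)) := by
  refine (PS.fin ((Finset.Icc 1 n).filter fun e => 2 * e < n) fun e he =>
    wlfirst_deg n D e hn hD (Finset.mem_Icc.1 (Finset.mem_filter.1 he).1).1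
      (Finset.mem_filter.1 he).2 C₁ hC N S).mono 0 ?_
  rintro H - f - ⟨M, r, g, k, hg, hd, hgH, hk, hke, hkg, h⟩
  have h1 := natDegree_le_of_dvd hkg hg
  rw [natDegree_pow] at h1
  exact ⟨k.natDegree, Finset.mem_filter.2 ⟨Finset.mem_Icc.2 ⟨hke, by omega⟩, by omega⟩,
    M, r, g, k, hg, hd, hgH, hk, rfl, hkg, h⟩

end Pool.Agent.VW.Lat
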