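import Pool.Agent.P.MP_b0ea37_nt.WLWk
import Pool.Agent.P.MP_b0ea37_nt.WCnt

namespace Pool.Agent.VW.Lat

open Polynomial

theorem wlfull_vec_sum {ι : Type} (n : ℕ) (s : Finset ι) (g : ι → ℤ[X]) :
    vec n (∑ i ∈ s, g i) = ∑ i ∈ s, vec n (g i) := by
  classical
  induction s using Finset.induction_on with
  | empty => ext i; simp [vec]
  | insert a s ha ih => rw [Finset.sum_insert ha, Finset.sum_insert ha, vec_add, ih]

theorem wlfull_rep {n : ℕ} (hn : 2 ≤ n) {R' : ℝ} (hR' : 0 ≤ R') {M : ℕ} {r : ℤ}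
    (h : Submodule.span ℝ (vec n '' {g | Lam n M r g ∧ g.supNorm ≤ R'}) = ⊤) (u : ℤ[X])
    (hu : u.natDegree < n) :
    ∃ v : ℤ[X], v.natDegree < n ∧ v.supNorm ≤ n * R' ∧ Wk M r (u - v) := by
  obtain ⟨m, hm, f, hf, hsp⟩ : ∃ m : ℕ, m ≤ n ∧ ∃ f : Fin m → Fin n → ℝ,
      (∀ i, f i ∈ vec n '' {g | Lam n M r g ∧ g.supNorm ≤ R'}) ∧
        Submodule.span ℝ (Set.range f) = ⊤ := by
    obtain ⟨f, h1, h2, -⟩ := Submodule.exists_fun_fin_finrank_span_eq ℝ
      (vec n '' {g | Lam n M r g ∧ g.supNorm ≤ R'})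
    exact ⟨_, (Submodule.finrank_le _).trans (Module.finrank_fin_fun ℝ).le, f, h1, h2.trans h⟩
  choose g hg hgf using hf
  obtain ⟨c, hc⟩ := (Submodule.mem_span_range_iff_exists_fun ℝ).1
    (hsp ▸ Submodule.mem_top : vec n u ∈ Submodule.span ℝ (Set.range f))
  have hw : Lam n M r (∑ i, C ⌊c i⌋ * g i) :=
    Finset.sum_induction _ (Lam n M r) (fun _ _ => Lam.add) ⟨by simp; omega, wk_zero M r⟩
      fun i _ => Lam.C_mul _ (hg i).1
  have hv : (u - ∑ i, C ⌊c i⌋ * g i).natDegree < n :=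
    (natDegree_sub_le _ _).trans_lt (max_lt hu hw.1)
  refine ⟨u - ∑ i, C ⌊c i⌋ * g i, hv, ?_, by rw [sub_sub_cancel]; exact hw.2⟩
  rw [← norm_vec hv, vec_sub, wlfull_vec_sum, ← hc, ← Finset.sum_sub_distrib]
  refine (norm_sum_le _ _).trans ?_
  have h1 : ∀ i ∈ (Finset.univ : Finset (Fin m)), ‖c i • f i - vec n (C ⌊c i⌋ * g i)‖ ≤ R' := by
    intro i _
    rw [vec_C_mul, ← hgf i, ← sub_smul, norm_smul, norm_vec (hg i).1.1, Real.norm_eq_abs,
      abs_of_nonneg (sub_nonneg.2 (Int.floor_le _))]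
    have h2 : c i - ⌊c i⌋ ≤ 1 := by linarith [Int.lt_floor_add_one (c i)]
    exact (mul_le_mul h2 (hg i).2 (g i).supNorm_nonneg zero_le_one).trans_eq (one_mul _)
  refine (Finset.sum_le_card_nsmul _ _ _ h1).trans ?_
  rw [Finset.card_univ, Fintype.card_fin, nsmul_eq_mul]
  exact mul_le_mul_of_nonneg_right (by exact_mod_cast hm) hR'

theorem wlfull_eq {q a b : ℤ} (ha : a ∈ Finset.Ico 0 q) (hb : b ∈ Finset.Ico 0 q)
    (h : q ∣ a - b) : a = b := by
  rw [Finset.mem_Ico] at ha hb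
  exact sub_eq_zero.1 (Int.eq_zero_of_abs_lt_dvd h (abs_lt.2 ⟨by linarith, by linarith⟩))

/-- the lattice has full rank in the box `R'` -/
theorem cnt_full (n : ℕ) (hn : 2 ≤ n) (R R' : ℝ) (hR : 0 ≤ R) (hR' : 0 ≤ R') (M : ℕ) (hM : 1 ≤ M)
    (r : ℤ) (h : Submodule.span ℝ (vec n '' {g | Lam n M r g ∧ g.supNorm ≤ R'}) = ⊤) :
    Cnt (Plus n R M r) ((2 * (R + n * R') + 1) ^ n / (M : ℝ) ^ 3) := by
  classical
  have h1 : ∀ z : ℤ × ℤ, ∃ v : ℤ[X], v.natDegree < n ∧ v.supNorm ≤ n * R' ∧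
      Wk M r (C z.1 + C z.2 * (X - C r) - v) := fun z =>
    wlfull_rep hn hR' h _ (lt_of_le_of_lt (by compute_degree) (by omega : 1 < n))
  choose rep hd hs hw using h1
  obtain ⟨S, hS⟩ : ∃ S : Finset (ℤ × ℤ), S = Finset.Ico 0 ((M : ℤ) ^ 2) ×ˢ Finset.Ico 0 (M : ℤ) :=
    ⟨_, rfl⟩
  have hinj : ∀ z ∈ S, ∀ z' ∈ S, Wk M r (rep z - rep z') → z = z' := by
    intro z hz z' hz' hk
    rw [hS, Finset.mem_product] at hz hz'
    have h2 := wk_add (wk_sub (hw z) (hw z')) hk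
    have e : C z.1 + C z.2 * (X - C r) - rep z - (C z'.1 + C z'.2 * (X - C r) - rep z') +
        (rep z - rep z') = C (z.1 - z'.1) + C (z.2 - z'.2) * (X - C r) := by
      rw [C_sub, C_sub]
      ring
    rw [e] at h2
    refine Prod.ext (wlfull_eq hz.1 hz'.1 ?_) (wlfull_eq hz.2 hz'.2 ?_)
    · simpa [-eq_intCast] using h2.1
    · simpa [-eq_intCast, -map_sub, derivative_sub] using h2.2
  have hcard : (S.card : ℝ) = (M : ℝ) ^ 3 := by
    have e : ((M : ℤ) ^ 2).toNat = M ^ 2 := by rw [← Nat.cast_pow, Int.toNat_natCast]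
    rw [hS, Finset.card_product, Int.card_Ico, Int.card_Ico, sub_zero, sub_zero, e,
      Int.toNat_natCast]
    push_cast
    ring
  have hM0 : (0 : ℝ) < M := by exact_mod_cast hM
  refine (Cnt.double (P := Plus n R M r) (fun f y => ∃ z ∈ S, y = f + rep z) (L := (M : ℝ) ^ 3)
    (by positivity) zero_le_one (cnt_monic n (R + n * R') (by positivity)) ?_ ?_).mono
    (fun _ h => h) (by rw [mul_one])
  · intro f hf
    refine ⟨S.image fun z => f + rep z, ?_, ?_⟩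
    · rw [Finset.card_image_of_injOn, hcard]
      intro z hz z' hz' e
      refine hinj z hz z' hz' ?_
      rw [add_left_cancel e, sub_self]
      exact wk_zero M r
    · intro y hy
      obtain ⟨z, hz, rfl⟩ := Finset.mem_image.1 hy
      obtain ⟨h2, h3⟩ := monic_add_of_lt hf.1 hf.2.1 (hd z)
      exact ⟨⟨h2, h3, (sup_add_le _ _).trans (add_le_add hf.2.2.1 (hs z))⟩, z, hz, rfl⟩
  · intro y _
    refine Cnt.one ?_
    rintro f f' ⟨hf, z, hz, e⟩ ⟨hf', z', hz', e'⟩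
    have h2 : rep z - rep z' = f' - f := by linear_combination e' - e
    have h3 := hinj z hz z' hz' (h2 ▸ wk_sub hf'.2.2.2 hf.2.2.2)
    rw [h3, sub_self] at h2
    exact (sub_eq_zero.1 h2.symm).symm

end Pool.Agent.VW.Lat
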