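import Pool.Agent.P.MP_b0ea37_nt.WLWk
import Pool.Agent.P.MP_b0ea37_nt.WCnt

namespace Pool.Agent.VW.Lat

open Polynomial

theorem exists_short (n : ℕ) (hn : 2 ≤ n) (M : ℕ) (hM : 1 ≤ M) (r : ℤ) : ∃ g₁ g₂ : ℤ[X],
    Lam n M r g₁ ∧ Lam n M r g₂ ∧ Indep g₁ g₂ ∧
    g₁.supNorm ≤ (M : ℝ) ^ (3 / ((n : ℝ) - 1)) ∧ g₂.supNorm ≤ (M : ℝ) ^ (3 / ((n : ℝ) - 1)) := by
  obtain ⟨m, rfl⟩ : ∃ m, n = m + 2 := ⟨n - 2, by omega⟩
  have e : ((m + 2 : ℕ) : ℝ) - 1 = (m + 1 : ℕ) := by push_cast; ring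
  rw [e]
  set T : ℝ := (M : ℝ) ^ (3 / ((m + 1 : ℕ) : ℝ)) with hT
  have hT0 : 0 ≤ T := by positivity
  have hT3 : T ^ (m + 1) = (M : ℝ) ^ 3 := by
    rw [hT, ← Real.rpow_natCast, ← Real.rpow_mul (Nat.cast_nonneg _),
      div_mul_cancel₀ _ (by positivity)]
    exact_mod_cast Real.rpow_natCast (M : ℝ) 3
  have hlt : M ^ 3 < (⌊T⌋₊ + 1) ^ (m + 1) := by
    have : T ^ (m + 1) < ((⌊T⌋₊ : ℝ) + 1) ^ (m + 1) :=
      pow_lt_pow_left₀ (Nat.lt_floor_add_one T) hT0 (Nat.succ_ne_zero _)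
    rw [hT3] at this
    exact_mod_cast this
  have : NeZero M := ⟨by omega⟩
  let p : (Fin (m + 1) → Fin (⌊T⌋₊ + 1)) → ℤ[X] := fun a =>
    ofFn (m + 1) fun i => ((a i : ℕ) : ℤ)
  obtain ⟨a, b, hab, h⟩ := Fintype.exists_ne_map_eq_of_card_lt
    (fun a => ((((p a).eval r : ℤ) : ZMod (M ^ 2)), (((derivative (p a)).eval r : ℤ) : ZMod M)))
    (by
      simp only [Fintype.card_prod, ZMod.card, Fintype.card_fun, Fintype.card_fin]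
      rwa [← pow_succ])
  have hw : Wk M r (p b - p a) := by
    refine ⟨?_, ?_⟩
    · rw [eval_sub, ← Nat.cast_pow]
      exact (ZMod.intCast_eq_intCast_iff_dvd_sub _ _ _).1 (congrArg Prod.fst h)
    · rw [derivative_sub, eval_sub]
      exact (ZMod.intCast_eq_intCast_iff_dvd_sub _ _ _).1 (congrArg Prod.snd h)
  have hne : p b - p a ≠ 0 := fun h0 => hab (funext fun i => Fin.ext (by
    exact_mod_cast congrFun (injective_ofFn _ (sub_eq_zero.1 h0).symm) i))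
  have hd : (p b - p a).natDegree < m + 1 := (natDegree_sub_le _ _).trans_lt
    (max_lt (ofFn_natDegree_lt (by omega) _) (ofFn_natDegree_lt (by omega) _))
  have hs : (p b - p a).supNorm ≤ T := by
    refine sup_le_iff.2 fun i => ?_
    by_cases hi : i < m + 1
    · rw [coeff_sub, ofFn_coeff_eq_val_of_lt _ hi, ofFn_coeff_eq_val_of_lt _ hi, Int.norm_eq_abs]
      have h1 : ∀ c : Fin (⌊T⌋₊ + 1), ((c : ℕ) : ℝ) ≤ T := fun c =>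
        le_trans (by exact_mod_cast Nat.lt_succ_iff.1 c.2) (Nat.floor_le hT0)
      have h2 := h1 (a ⟨i, hi⟩)
      have h3 := h1 (b ⟨i, hi⟩)
      have h4 : (0 : ℝ) ≤ (a ⟨i, hi⟩ : ℕ) := Nat.cast_nonneg _
      have h5 : (0 : ℝ) ≤ (b ⟨i, hi⟩ : ℕ) := Nat.cast_nonneg _
      push_cast
      exact abs_le.2 ⟨by linarith, by linarith⟩
    · rw [coeff_eq_zero_of_natDegree_lt (by omega), norm_zero]
      exact hT0
  refine ⟨p b - p a, X * (p b - p a), ⟨by omega, hw⟩, ⟨?_, wk_mul _ hw⟩, indep_X_mul hne, hs, ?_⟩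
  · rw [natDegree_X_mul hne]
    omega
  · refine sup_le_iff.2 fun i => ?_
    cases i with
    | zero => simpa using hT0
    | succ i => rw [coeff_X_mul]; exact (le_supNorm _ _).trans hs

theorem wlmin_min (P : ℤ[X] → Prop) (h : ∃ g, P g) :
    ∃ g, P g ∧ ∀ g', P g' → g.supNorm ≤ g'.supNorm := by
  classical
  have hex : ∃ k : ℕ, ∃ g, P g ∧ g.supNorm = k := by
    obtain ⟨g, hg⟩ := h
    obtain ⟨k, hk⟩ := sup_eq_nat g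
    exact ⟨k, g, hg, hk⟩
  obtain ⟨g, hg, hk⟩ := Nat.find_spec hex
  refine ⟨g, hg, fun g' hg' => ?_⟩
  obtain ⟨k, hk'⟩ := sup_eq_nat g'
  rw [hk, hk']
  exact_mod_cast Nat.find_min' hex ⟨g', hg', hk'⟩

theorem exists_min (n : ℕ) (hn : 2 ≤ n) (M : ℕ) (hM : 1 ≤ M) (r : ℤ) : ∃ g₁ g₂ : ℤ[X],
    Min12 n M r g₁ g₂ ∧ g₁.supNorm ≤ g₂.supNorm ∧
    g₂.supNorm ≤ (M : ℝ) ^ (3 / ((n : ℝ) - 1)) := by
  obtain ⟨u, v, hu, hv, huv, hus, hvs⟩ := exists_short n hn M hM r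
  obtain ⟨g₁, ⟨h1, h0⟩, hm1⟩ := wlmin_min (fun g => Lam n M r g ∧ g ≠ 0) ⟨u, hu, indep_ne_left huv⟩
  have hex : ∃ w, (Lam n M r w ∧ Indep g₁ w) ∧ w.supNorm ≤ (M : ℝ) ^ (3 / ((n : ℝ) - 1)) := by
    rcases indep_or h0 huv with h | h
    exacts [⟨u, ⟨hu, h⟩, hus⟩, ⟨v, ⟨hv, h⟩, hvs⟩]
  obtain ⟨w, hw, hws⟩ := hex
  obtain ⟨g₂, ⟨h2, hi⟩, hm2⟩ := wlmin_min (fun g => Lam n M r g ∧ Indep g₁ g) ⟨w, hw⟩
  exact ⟨g₁, g₂, ⟨h1, h2, hi, fun g hg hg0 => hm1 g ⟨hg, hg0⟩, fun g hg hgi => hm2 g ⟨hg, hgi⟩⟩,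
    hm1 g₂ ⟨h2, indep_ne_right hi⟩, (hm2 w hw).trans hws⟩

end Pool.Agent.VW.Lat
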