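import Pool.Agent.P.MP_b0ea37_nt.WDefs

namespace Pool.Agent.VW.Lat

open Polynomial

/-- full rank -/
theorem num_full (n K : ℕ) (hn : 5 ≤ n) (H E c M : ℝ) (hH : 1 ≤ H) (hE : 0 ≤ E) (hM : 1 ≤ M) :
    E * ((2 * (K * H + n * (2 * (K * H))) + 1) ^ n / M ^ 3) * (M ^ (3 / ((n : ℝ) - 1)) / H) ^ c ≤
      (2 * K * (1 + 2 * n) + 1) ^ n * E * H ^ ((n : ℝ) - c) * M ^ (3 * c / ((n : ℝ) - 1) - 3) := by
  have hH0 : 0 < H := by linarith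
  have hM0 : 0 < M := by linarith
  have hK : (0 : ℝ) ≤ K := Nat.cast_nonneg K
  have hn0 : (0 : ℝ) ≤ n := Nat.cast_nonneg n
  have h1 : 2 * (K * H + n * (2 * (K * H))) + 1 ≤ (2 * K * (1 + 2 * n) + 1) * H := by nlinarith
  have h2 : (2 * (K * H + n * (2 * (K * H))) + 1) ^ n ≤ (2 * K * (1 + 2 * n) + 1) ^ n * H ^ n := by
    rw [← mul_pow]
    exact pow_le_pow_left₀ (by positivity) h1 n
  have h3 : (M ^ (3 / ((n : ℝ) - 1)) / H) ^ c = M ^ (3 * c / ((n : ℝ) - 1)) / H ^ c := by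
    rw [Real.div_rpow (by positivity) hH0.le, ← Real.rpow_mul hM0.le]
    congr 2
    ring
  have h4 : H ^ ((n : ℝ) - c) = H ^ n / H ^ c := by
    rw [Real.rpow_sub hH0, Real.rpow_natCast]
  have h5 : M ^ (3 * c / ((n : ℝ) - 1) - 3) = M ^ (3 * c / ((n : ℝ) - 1)) / M ^ 3 := by
    rw [Real.rpow_sub hM0, Real.rpow_ofNat]
  rw [h3, h4, h5]
  calc _ ≤ E * (((2 * K * (1 + 2 * n) + 1) ^ n * H ^ n) / M ^ 3) *
        (M ^ (3 * c / ((n : ℝ) - 1)) / H ^ c) := by gcongr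
    _ = _ := by ring

/-- second minimum above `H` -/
theorem num_line (n K : ℕ) (H T₁ T₂ U : ℝ) (hU : 0 < U) (hUH : U ≤ H) (hT : U ≤ T₁)
    (h₂ : H ≤ T₂) : (1 + 16 * (K * H) / T₂) ^ (n - 2) * (1 + 4 * (K * H) / T₁) ≤
      (1 + 16 * K) ^ (n - 2) * (1 + 4 * K) * H / U := by
  have hH0 : 0 < H := hU.trans_le hUH
  have hT1 : 0 < T₁ := hU.trans_le hT
  have hT2 : 0 < T₂ := hH0.trans_le h₂
  have hK : (0 : ℝ) ≤ K := Nat.cast_nonneg K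
  have h1 : 1 + 16 * (K * H) / T₂ ≤ 1 + 16 * K := by
    have : 16 * (K * H) / T₂ ≤ 16 * K := by
      rw [div_le_iff₀ hT2]
      nlinarith [mul_le_mul_of_nonneg_left h₂ hK]
    linarith
  have h2 : 1 + 4 * (K * H) / T₁ ≤ (1 + 4 * K) * H / U := by
    have a1 : 1 ≤ H / U := (one_le_div hU).2 hUH
    have a2 : 4 * (K * H) / T₁ ≤ 4 * (K * H) / U := by gcongr
    calc _ ≤ H / U + 4 * (K * H) / U := add_le_add a1 a2
      _ = _ := by ring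
  calc _ ≤ (1 + 16 * (K : ℝ)) ^ (n - 2) * ((1 + 4 * K) * H / U) := by gcongr
    _ = _ := by ring

/-- second minimum below `H` -/
theorem num_def (n K : ℕ) (hn : 5 ≤ n) (H E c T₁ T₂ w : ℝ) (hE : 0 ≤ E) (hc : 1 / 2 ≤ c)
    (h₁ : 0 < T₁) (h₁₂ : T₁ ≤ T₂) (h₂ : T₂ ≤ H) (hw : 0 < w) (hT : w ^ 2 ≤ T₁ * T₂) :
    E * ((1 + 16 * (K * H) / T₂) ^ (n - 2) * (1 + 4 * (K * H) / T₁)) * (T₂ / H) ^ c ≤
      (1 + 16 * K) ^ (n - 2) * (1 + 4 * K) * E * H ^ ((n : ℝ) - 3 / 2) / w ^ ((n : ℝ) - 3 / 2) := by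
  have hT2 : 0 < T₂ := h₁.trans_le h₁₂
  have hH0 : 0 < H := hT2.trans_le h₂
  have hK : (0 : ℝ) ≤ K := Nat.cast_nonneg K
  have hn5 : (5 : ℝ) ≤ n := by exact_mod_cast hn
  have h1 : 1 + 16 * (K * H) / T₂ ≤ (1 + 16 * K) * (H / T₂) := by
    have a1 : 1 ≤ H / T₂ := (one_le_div hT2).2 h₂
    calc _ ≤ H / T₂ + 16 * (K * H) / T₂ := by linarith
      _ = _ := by ring
  have h2 : 1 + 4 * (K * H) / T₁ ≤ (1 + 4 * K) * (H / T₁) := by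
    have a1 : 1 ≤ H / T₁ := (one_le_div h₁).2 (h₁₂.trans h₂)
    calc _ ≤ H / T₁ + 4 * (K * H) / T₁ := by linarith
      _ = _ := by ring
  have h3 : (T₂ / H) ^ c ≤ (T₂ / H) ^ (1 / 2 : ℝ) :=
    Real.rpow_le_rpow_of_exponent_ge (by positivity) ((div_le_one hH0).2 h₂) hc
  have hwT : w ≤ T₂ := by
    have : w ^ 2 ≤ T₂ ^ 2 := by nlinarith
    exact (pow_le_pow_iff_left₀ hw.le hT2.le two_ne_zero).1 this
  have e1 : ((n - 2 : ℕ) : ℝ) = (n : ℝ) - 2 := by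
    rw [Nat.cast_sub (by omega)]
    norm_num
  have h4 : w ^ ((n : ℝ) - 3 / 2) ≤ T₁ * T₂ * T₂ ^ ((n : ℝ) - 7 / 2) := by
    have : w ^ ((n : ℝ) - 3 / 2) = w ^ 2 * w ^ ((n : ℝ) - 7 / 2) := by
      rw [← Real.rpow_natCast, ← Real.rpow_add hw]
      congr 1
      push_cast
      ring
    rw [this]
    exact mul_le_mul hT (Real.rpow_le_rpow hw.le hwT (by linarith)) (by positivity) (by positivity)
  have e2 : H ^ (n - 2) * H = H ^ ((n : ℝ) - 3 / 2) * H ^ (1 / 2 : ℝ) := by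
    rw [← Real.rpow_natCast, e1, ← Real.rpow_add hH0, ← Real.rpow_add_one hH0.ne']
    congr 1
    ring
  have e3 : T₂ ^ (n - 2) = T₂ * T₂ ^ ((n : ℝ) - 7 / 2) * T₂ ^ (1 / 2 : ℝ) := by
    rw [← Real.rpow_natCast, e1, mul_assoc, ← Real.rpow_add hT2, mul_comm,
      ← Real.rpow_add_one hT2.ne']
    congr 1
    ring
  have h5 : (H / T₂) ^ (n - 2) * (H / T₁) * (T₂ / H) ^ (1 / 2 : ℝ) =
      H ^ ((n : ℝ) - 3 / 2) / (T₁ * T₂ * T₂ ^ ((n : ℝ) - 7 / 2)) := by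
    have p1 : 0 < H ^ (1 / 2 : ℝ) := by positivity
    have p2 : 0 < T₂ ^ (1 / 2 : ℝ) := by positivity
    have p3 : 0 < T₂ ^ ((n : ℝ) - 7 / 2) := by positivity
    rw [div_pow, Real.div_rpow hT2.le hH0.le, div_mul_div_comm, e2, e3]
    field_simp
  calc _ ≤ E * (((1 + 16 * K) * (H / T₂)) ^ (n - 2) * ((1 + 4 * K) * (H / T₁))) *
        (T₂ / H) ^ (1 / 2 : ℝ) := by gcongr
    _ = (1 + 16 * K) ^ (n - 2) * (1 + 4 * K) * E *
        ((H / T₂) ^ (n - 2) * (H / T₁) * (T₂ / H) ^ (1 / 2 : ℝ)) := by rw [mul_pow]; ring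
    _ = (1 + 16 * K) ^ (n - 2) * (1 + 4 * K) * E * H ^ ((n : ℝ) - 3 / 2) /
        (T₁ * T₂ * T₂ ^ ((n : ℝ) - 7 / 2)) := by rw [h5]; ring
    _ ≤ _ := by gcongr

/-- the resultant bound turned round -/
theorem num_res (n : ℕ) (hn : 5 ≤ n) (F M W : ℝ) (hF : 1 ≤ F) (hM : 1 ≤ M) (hW : 0 ≤ W)
    (h : M ^ 4 ≤ F * W ^ (n - 1)) : (M ^ (2 / ((n : ℝ) - 1)) / F) ^ 2 ≤ W := by
  have hM0 : 0 < M := by linarith
  have hF0 : 0 < F := by linarith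
  have hn5 : (5 : ℝ) ≤ n := by exact_mod_cast hn
  have e1 : ((n - 1 : ℕ) : ℝ) = (n : ℝ) - 1 := by
    rw [Nat.cast_sub (by omega)]
    norm_num
  have hne : (n : ℝ) - 1 ≠ 0 := by linarith
  refine (pow_le_pow_iff_left₀ (by positivity) hW (show n - 1 ≠ 0 by omega)).1 ?_
  have e2 : ((M ^ (2 / ((n : ℝ) - 1))) ^ 2) ^ (n - 1) = M ^ 4 := by
    rw [← pow_mul, ← Real.rpow_natCast, ← Real.rpow_mul hM0.le, ← Real.rpow_natCast]
    congr 1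
    push_cast [e1]
    field_simp
    norm_num
  have h3 : F ≤ (F ^ 2) ^ (n - 1) := by
    rw [← pow_mul]
    exact le_self_pow₀ hF (by omega)
  rw [div_pow, div_pow, e2, div_le_iff₀ (by positivity)]
  calc _ ≤ F * W ^ (n - 1) := h
    _ ≤ (F ^ 2) ^ (n - 1) * W ^ (n - 1) := by gcongr
    _ = _ := mul_comm _ _

theorem num_b (n : ℕ) (hn : 5 ≤ n) (F M : ℝ) (hF : 1 ≤ F) (hM : 1 ≤ M) :
    1 / (M ^ (2 / ((n : ℝ) - 1)) / F) ^ ((n : ℝ) - 3 / 2) ≤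
      F ^ n * M ^ (1 / ((n : ℝ) - 1) - 2) := by
  have hM0 : 0 < M := by linarith
  have hF0 : 0 < F := by linarith
  have hn5 : (5 : ℝ) ≤ n := by exact_mod_cast hn
  have hne : (n : ℝ) - 1 ≠ 0 := by linarith
  have e2 : (M ^ (2 / ((n : ℝ) - 1))) ^ ((n : ℝ) - 3 / 2) = (M ^ (1 / ((n : ℝ) - 1) - 2))⁻¹ := by
    rw [← Real.rpow_mul hM0.le, ← Real.rpow_neg hM0.le]
    congr 1
    field_simp
    ring
  have h3 : F ^ ((n : ℝ) - 3 / 2) ≤ F ^ n := by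
    rw [← Real.rpow_natCast]
    exact Real.rpow_le_rpow_of_exponent_le hF (by linarith)
  rw [Real.div_rpow (by positivity) hF0.le, e2, one_div_div, div_inv_eq_mul]
  gcongr

/-- from a power of the modulus to the shape of `ps_pow` -/
theorem num_up (H M a b μ : ℝ) (hH : 1 ≤ H) (hM : 1 ≤ M) (hb : 0 ≤ b) (h : M ≤ H ^ μ) :
    H ^ a * M ^ (b - 2) ≤ H ^ (a + b * μ) / M ^ 2 := by
  have hM0 : 0 < M := by linarith
  have hH0 : 0 < H := by linarith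
  have h1 : M ^ b ≤ H ^ (b * μ) := by
    rw [mul_comm, Real.rpow_mul hH0.le]
    exact Real.rpow_le_rpow hM0.le h hb
  rw [Real.rpow_sub hM0, Real.rpow_add hH0, Real.rpow_ofNat, ← mul_div_assoc]
  gcongr

theorem num_down (H M a b μ : ℝ) (hH : 1 ≤ H) (hM : 1 ≤ M) (hb : 0 ≤ b) (h : H ^ μ ≤ M) :
    H ^ a * M ^ (-b - 2) ≤ H ^ (a - b * μ) / M ^ 2 := by
  have hM0 : 0 < M := by linarith
  have hH0 : 0 < H := by linarith
  have h1 : M ^ (-b) ≤ H ^ (-(b * μ)) := by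
    rw [show -(b * μ) = μ * -b by ring, Real.rpow_mul hH0.le]
    exact Real.rpow_le_rpow_of_nonpos (by positivity) h (by linarith)
  rw [Real.rpow_sub hM0, sub_eq_add_neg a, Real.rpow_add hH0, Real.rpow_ofNat, ← mul_div_assoc]
  gcongr

end Pool.Agent.VW.Lat
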