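import Pool.Agent.P.MP_b0ea37_nt.WLMin
import Pool.Agent.P.MP_b0ea37_nt.WLFull
import Pool.Agent.P.MP_b0ea37_nt.WLDef
import Pool.Agent.P.MP_b0ea37_nt.WLSpec
import Pool.Agent.P.MP_b0ea37_nt.WLNum

namespace Pool.Agent.VW.Lat

open Polynomial

theorem pair_cases (n : ℕ) (hn : 5 ≤ n) (K : ℕ) : ∃ C₀ : ℝ, 1 ≤ C₀ ∧
    ∀ (H E c : ℝ) (M : ℕ) (r : ℤ) (S : ℤ[X] → Prop), 1 ≤ H → 1 ≤ E → 1 / 2 ≤ c → 1 ≤ M →
    (∀ f, S f → Plus n (K * H) M r f) → LLp n (K * H) H E c M r S →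
    Cnt S (C₀ * E * H ^ ((n : ℝ) - c) * (M : ℝ) ^ (3 * c / ((n : ℝ) - 1) - 3)) ∨
    Cnt S (C₀ * E * H ^ ((n : ℝ) - 3 / 2) * (M : ℝ) ^ (1 / ((n : ℝ) - 1) - 2)) ∨
    Cnt S (C₀ * H ^ (1 - tau n)) ∨
    ∃ g : ℤ[X], g ≠ 0 ∧ Lam n M r g ∧ g.supNorm ≤ H ∧
      ((g.supNorm ≤ H ^ tau n ∧ Cnt S (C₀ * H / g.supNorm)) ∨
        (Spec n g ∧ g.supNorm ≤ (M : ℝ) ^ (2 / ((n : ℝ) - 1)) ∧
          Cnt S (C₀ * E * H ^ ((n : ℝ) - 3 / 2) / g.supNorm ^ ((n : ℝ) - 3 / 2)))) := by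
  obtain ⟨F, hF⟩ : ∃ F : ℝ, F = ((2 * n).factorial : ℕ) := ⟨_, rfl⟩
  have hF1 : 1 ≤ F := by
    rw [hF]
    exact_mod_cast Nat.factorial_pos (2 * n)
  have hK0 : (0 : ℝ) ≤ K := Nat.cast_nonneg K
  obtain ⟨c₁, hc₁⟩ : ∃ c₁ : ℝ, c₁ = (2 * K * (1 + 2 * n) + 1) ^ n := ⟨_, rfl⟩
  obtain ⟨c₂, hc₂⟩ : ∃ c₂ : ℝ, c₂ = (1 + 16 * K) ^ (n - 2) * (1 + 4 * K) := ⟨_, rfl⟩
  have h₁ : 1 ≤ c₁ := hc₁ ▸ one_le_pow₀ (le_add_of_nonneg_left (by positivity))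
  have h₂ : 0 ≤ c₂ := by
    rw [hc₂]
    positivity
  have h₃ : c₂ ≤ c₂ * F ^ n := le_mul_of_one_le_right h₂ (one_le_pow₀ hF1)
  have h₄ : c₁ ≤ c₁ + c₂ * F ^ n := by linarith
  have h₅ : c₂ * F ^ n ≤ c₁ + c₂ * F ^ n := by linarith
  have h₆ : c₂ ≤ c₁ + c₂ * F ^ n := h₃.trans h₅
  refine ⟨c₁ + c₂ * F ^ n, h₁.trans h₄, fun H E c M r S hH hE hc hM hS hL => ?_⟩
  generalize c₁ + c₂ * F ^ n = C₀ at h₄ h₅ h₆
  have hH0 : 0 < H := by linarith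
  have hE0 : 0 ≤ E := by linarith
  have hM1 : (1 : ℝ) ≤ M := by exact_mod_cast hM
  have hR : 0 ≤ (K : ℝ) * H := by positivity
  obtain ⟨g₁, g₂, hmin, h12, h2M⟩ := exists_min n (by omega) M hM r
  have hg₁ : g₁ ≠ 0 := fun h => one_ne_zero (hmin.2.2.1 1 0 (by rw [h]; simp)).1
  have hT₁ : 1 ≤ g₁.supNorm := one_le_sup hg₁
  have hT₁' : 0 < g₁.supNorm := by linarith
  by_cases hsp : Submodule.span ℝ (vec n '' {g | Lam n M r g ∧ g.supNorm ≤ 2 * (K * H)}) = ⊤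
  · refine Or.inl ((hL _ _ g₁ g₂ hmin.1 hmin.2.1 hmin.2.2.1 (h12.trans h2M) h2M
      (cnt_full n (by omega) _ _ hR (by positivity) M hM r hsp)).mono (fun _ h => h) ?_)
    refine (num_full n K hn H E c M hH hE0 hM1).trans ?_
    rw [← hc₁]
    gcongr
  have hB := cnt_def n (by omega) _ hR M r g₁ g₂ hmin hsp
  refine Or.inr ?_
  rcases le_total H g₂.supNorm with h2 | h2
  · have hτ : H ^ tau n ≤ H := by
      have h5 : (5 : ℝ) ≤ n := by exact_mod_cast hn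
      have h6 : ((n : ℝ) - 2) / ((n : ℝ) - 1) ≤ 1 := (div_le_one (by linarith)).2 (by linarith)
      refine (Real.rpow_le_rpow_of_exponent_le hH ?_).trans_eq (Real.rpow_one H)
      unfold tau
      linarith
    have hτ0 : 0 < H ^ tau n := by positivity
    rcases le_total g₁.supNorm (H ^ tau n) with h1 | h1
    · refine Or.inr (Or.inr ⟨g₁, hg₁, hmin.1, h1.trans hτ, Or.inl ⟨h1, hB.mono hS ?_⟩⟩)
      refine (num_line n K H _ _ _ hT₁' (h1.trans hτ) le_rfl h2).trans ?_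
      rw [← hc₂]
      gcongr
    · refine Or.inr (Or.inl (hB.mono hS ?_))
      refine (num_line n K H _ _ _ hτ0 hτ h1 h2).trans ?_
      rw [← hc₂, Real.rpow_sub hH0, Real.rpow_one, mul_div_assoc]
      gcongr
  have hS' := hL _ _ g₁ g₂ hmin.1 hmin.2.1 hmin.2.2.1 h12 le_rfl hB
  have hw : 0 < (M : ℝ) ^ (2 / ((n : ℝ) - 1)) / F := by positivity
  by_cases hw2 : ((M : ℝ) ^ (2 / ((n : ℝ) - 1)) / F) ^ 2 ≤ g₁.supNorm * g₂.supNorm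
  · refine Or.inl (hS'.mono (fun _ h => h) ?_)
    refine (num_def n K hn H E c _ _ _ hE0 hc hT₁' h12 h2 hw hw2).trans ?_
    have hb := num_b n hn F M hF1 hM1
    rw [← hc₂, div_eq_mul_one_div]
    calc _ ≤ c₂ * E * H ^ ((n : ℝ) - 3 / 2) * (F ^ n * (M : ℝ) ^ (1 / ((n : ℝ) - 1) - 2)) :=
          mul_le_mul_of_nonneg_left hb (by positivity)
      _ = c₂ * F ^ n * E * H ^ ((n : ℝ) - 3 / 2) * (M : ℝ) ^ (1 / ((n : ℝ) - 1) - 2) := by ring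
      _ ≤ _ := by gcongr
  · have hspec : Spec n g₁ := by
      by_contra hs
      refine hw2 (num_res n hn F M _ hF1 hM1 (mul_nonneg hT₁'.le (hT₁'.le.trans h12)) ?_)
      rw [hF]
      exact res_bound n (by omega) M hM r g₁ g₂ hmin.1 hmin.2.1 hmin.2.2.1 hs
    have hsq : g₁.supNorm ^ 2 ≤ g₁.supNorm * g₂.supNorm := by
      rw [sq]
      exact mul_le_mul_of_nonneg_left h12 hT₁'.le
    have hle : g₁.supNorm ≤ (M : ℝ) ^ (2 / ((n : ℝ) - 1)) :=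
      (abs_le_of_sq_le_sq' (hsq.trans (not_le.1 hw2).le) hw.le).2.trans (div_le_self (by positivity) hF1)
    refine Or.inr (Or.inr ⟨g₁, hg₁, hmin.1, h12.trans h2, Or.inr ⟨hspec, hle,
      hS'.mono (fun _ h => h) ?_⟩⟩)
    refine (num_def n K hn H E c _ _ _ hE0 hc hT₁' h12 h2 hT₁' hsq).trans ?_
    rw [← hc₂]
    gcongr

end Pool.Agent.VW.Lat
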