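import Pool.Agent.P.MP_b0ea37_nt.WLWk
import Pool.Agent.P.MP_b0ea37_nt.WDiv

namespace Pool.Agent.VW.Lat

open Polynomial

theorem alpha_split {M : ℕ} (hM : Squarefree M) {r : ℤ} {g : ℤ[X]} (h : Wk M r g) :
    ∃ (m M₂ : ℕ) (g' : ℤ[X]), 1 ≤ m ∧ M = m * M₂ ∧ g = C ((m : ℤ) ^ 2) * g' ∧
      (M₂ : ℤ) ∣ g.primPart.eval r := by
  obtain ⟨m, hm⟩ := Nat.gcd_dvd_left M (g.primPart.eval r).natAbs
  have hM2 := Nat.gcd_dvd_right M (g.primPart.eval r).natAbs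
  have hg : ∀ d : ℕ, d ∣ M → d ∣ (g.primPart.eval r).natAbs →
      d ∣ Nat.gcd M (g.primPart.eval r).natAbs := fun d h1 h2 => Nat.dvd_gcd h1 h2
  generalize Nat.gcd M (g.primPart.eval r).natAbs = M₂ at hm hM2 hg
  rw [mul_comm] at hm
  have hm0 : m ≠ 0 := by
    rintro rfl
    exact hM.ne_zero (by simpa using hm)
  have hco : m.Coprime M₂ := Nat.coprime_of_squarefree_mul (hm ▸ hM)
  have hco2 : m.Coprime (g.primPart.eval r).natAbs :=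
    Nat.eq_one_of_dvd_coprimes hco (Nat.gcd_dvd_left _ _)
      (hg _ ((Nat.gcd_dvd_left _ _).trans ⟨M₂, hm⟩) (Nat.gcd_dvd_right _ _))
  have hco3 : IsCoprime (m : ℤ) (g.primPart.eval r) := by
    rw [Int.isCoprime_iff_gcd_eq_one]
    simpa [Int.gcd] using hco2
  have h1 : (m : ℤ) ^ 2 ∣ g.content * g.primPart.eval r := by
    have e : g.eval r = g.content * g.primPart.eval r := by
      conv_lhs => rw [g.eq_C_content_mul_primPart]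
      rw [eval_mul, eval_C]
    rw [← e]
    exact (wk_of_dvd ⟨M₂, hm⟩ h).1
  obtain ⟨c, hc⟩ := hco3.pow_left.dvd_of_dvd_mul_right h1
  refine ⟨m, M₂, C c * g.primPart, Nat.one_le_iff_ne_zero.2 hm0, hm, ?_, Int.natCast_dvd.2 hM2⟩
  rw [← mul_assoc, ← C_mul, ← hc]
  exact g.eq_C_content_mul_primPart

/-- roots of a primitive polynomial modulo a squarefree number -/
theorem cnt_roots_prim (n : ℕ) (ε : ℝ) (hε : 0 < ε) : ∃ C₀ : ℝ, 1 ≤ C₀ ∧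
    ∀ (g : ℤ[X]) (m M₂ : ℕ), g.IsPrimitive → g.natDegree ≤ n → 1 ≤ m → Squarefree M₂ →
    Cnt (fun r : ℤ => 0 ≤ r ∧ r < (m * M₂ : ℕ) ∧ (M₂ : ℤ) ∣ g.eval r)
      (C₀ * (M₂ : ℝ) ^ ε * m) := by
  obtain ⟨C₀, hC₀, h0⟩ := pow_omega_le (max 1 (n : ℝ)) (le_max_left _ _) ε hε
  refine ⟨C₀, hC₀, fun g m M₂ hg hn hm hM => ?_⟩
  have hM0 : (0 : ℤ) < M₂ := by exact_mod_cast Nat.pos_of_ne_zero hM.ne_zero
  have h1 := cnt_roots_mod M₂ hM g n hn fun p hp _ hd =>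
    (Nat.prime_iff_prime_int.1 hp).not_isUnit (hg _ hd)
  have h2 := Cnt.prod (Q := fun (_ : ℤ) (t : ℤ) => 0 ≤ t ∧ t < m) h1 (Nat.cast_nonneg m)
    fun _ _ => cnt_res m
  refine (h2.inj (fun r => (r % M₂, r / M₂)) ?_ ?_).mono (fun _ h => h) ?_
  · rintro r ⟨hr0, hr1, hr2⟩
    refine ⟨⟨Int.emod_nonneg _ hM0.ne', Int.emod_lt_of_pos _ hM0,
      dvd_eval_of_mod (Int.dvd_self_sub_of_emod_eq rfl) hr2⟩, Int.ediv_nonneg hr0 hM0.le, ?_⟩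
    refine Int.ediv_lt_of_lt_mul hM0 ?_
    exact_mod_cast hr1
  · intro r r' _ _ e
    have e1 : r % M₂ = r' % M₂ := congrArg Prod.fst e
    have e2 : r / M₂ = r' / M₂ := congrArg Prod.snd e
    rw [← Int.emod_add_mul_ediv r M₂, ← Int.emod_add_mul_ediv r' M₂, e1, e2]
  · refine mul_le_mul_of_nonneg_right (le_trans ?_ (h0 M₂ hM.ne_zero)) (Nat.cast_nonneg m)
    exact pow_le_pow_left₀ (Nat.cast_nonneg n) (le_max_right _ _) _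

/-- moduli that divide `N` up to a factor at most `Y` -/
theorem cnt_almost_dvd (ε : ℝ) (hε : 0 < ε) : ∃ C₀ : ℝ, 1 ≤ C₀ ∧ ∀ (N : ℕ) (Y : ℝ), N ≠ 0 →
    0 ≤ Y → Cnt (fun M : ℕ => ∃ M' : ℕ, 1 ≤ M' ∧ (M' : ℝ) ≤ Y ∧ M ∣ N * M')
      (C₀ * (N : ℝ) ^ ε * Y) := by
  obtain ⟨C₀, hC₀, h0⟩ := cnt_divisors ε hε
  refine ⟨C₀, hC₀, fun N Y hN hY => ?_⟩
  have h1 := Cnt.prod (Q := fun (_ : ℕ) (t : ℕ) => 1 ≤ t ∧ (t : ℝ) ≤ Y) (h0 N hN) hY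
    fun _ _ => cnt_nat_pos Y hY
  refine (h1.image fun z => z.1 * z.2).mono ?_ le_rfl
  rintro M ⟨M', h2, h3, h4⟩
  obtain ⟨d, e, hd, he, rfl⟩ := exists_dvd_and_dvd_of_dvd_mul h4
  refine ⟨(d, e), ⟨hd, Nat.pos_of_dvd_of_pos he h2, le_trans ?_ h3⟩, rfl⟩
  exact_mod_cast Nat.le_of_dvd h2 he

/-- the pairs that share a polynomial -/
theorem cnt_share (n : ℕ) (ε : ℝ) (hε : 0 < ε) : ∃ C₀ : ℝ, 1 ≤ C₀ ∧
    ∀ (V Y : ℝ) (g : ℤ[X]) (N m : ℕ), 1 ≤ V → 0 ≤ Y → g.IsPrimitive → g.natDegree ≤ n → N ≠ 0 →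
    (N : ℝ) ≤ V → 1 ≤ m →
    Cnt (fun z : ℕ × ℤ => Squarefree z.1 ∧ (z.1 : ℝ) ≤ V ∧ 0 ≤ z.2 ∧ z.2 < z.1 ∧
      (∃ M' : ℕ, 1 ≤ M' ∧ (M' : ℝ) ≤ Y ∧ z.1 ∣ N * M') ∧
      ∃ M₂ : ℕ, z.1 = m * M₂ ∧ (M₂ : ℤ) ∣ g.eval z.2) (C₀ * V ^ ε * Y * m) := by
  obtain ⟨C₁, hC₁, h1⟩ := cnt_almost_dvd (ε / 2) (by linarith)
  obtain ⟨C₂, hC₂, h2⟩ := cnt_roots_prim n (ε / 2) (by linarith)
  refine ⟨C₁ * C₂, one_le_mul_of_one_le_of_one_le hC₁ hC₂, ?_⟩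
  intro V Y g N m hV hY hg hn hN hNV hm
  have hV0 : 0 < V := by linarith
  have hC₁0 : 0 ≤ C₁ := by linarith
  have hC₂0 : 0 ≤ C₂ := by linarith
  have hε2 : 0 ≤ ε / 2 := by linarith
  have hP : Cnt (fun M : ℕ => Squarefree M ∧ (M : ℝ) ≤ V ∧
      ∃ M' : ℕ, 1 ≤ M' ∧ (M' : ℝ) ≤ Y ∧ M ∣ N * M') (C₁ * V ^ (ε / 2) * Y) :=
    (h1 N Y hN hY).mono (fun M hM => hM.2.2) (by gcongr)
  have hB : 0 ≤ C₂ * V ^ (ε / 2) * m := by positivity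
  have h3 := Cnt.prod (Q := fun (M : ℕ) (r : ℤ) => 0 ≤ r ∧ r < M ∧
      ∃ M₂ : ℕ, M = m * M₂ ∧ (M₂ : ℤ) ∣ g.eval r) hP hB (by
    rintro M ⟨hs, hMV, -⟩
    refine Cnt.of_mem hB ?_
    rintro r₀ ⟨-, -, M₂, rfl, -⟩
    have hle : (M₂ : ℝ) ≤ V := by
      refine le_trans ?_ hMV
      exact_mod_cast Nat.le_mul_of_pos_left M₂ hm
    refine (h2 g m M₂ hg hn hm hs.of_mul_right).mono ?_ (by gcongr)
    rintro r ⟨hr0, hr1, M₃, e, hd⟩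
    rw [← Nat.eq_of_mul_eq_mul_left hm e] at hd
    exact ⟨hr0, hr1, hd⟩)
  refine h3.mono (fun z hz => ⟨⟨hz.1, hz.2.1, hz.2.2.2.2.1⟩, hz.2.2.1, hz.2.2.2.1,
    hz.2.2.2.2.2⟩) (le_of_eq ?_)
  have e : V ^ ε = V ^ (ε / 2) * V ^ (ε / 2) := by
    rw [← Real.rpow_add hV0, add_halves]
  rw [e]
  ring

end Pool.Agent.VW.Lat
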