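import Pool.Agent.P.MP_b0ea37_nt.WLFil
import Pool.Agent.P.MP_b0ea37_nt.WLBox
import Pool.Agent.P.MP_b0ea37_nt.WLMin
import Pool.Agent.P.MP_b0ea37_nt.WLRoot
import Pool.Agent.P.MP_b0ea37_nt.WLCnt

namespace Pool.Agent.VW.Lat

open Polynomial

theorem sec_fibre (n : ℕ) (hn : 5 ≤ n) (C₁ : ℝ) (hC : 1 ≤ C₁) (ε : ℝ) (hε : 0 < ε) :
    ∃ C₀ : ℝ, 1 ≤ C₀ ∧ ∀ (k : ℤ[X]) (M : ℕ) (r : ℤ) (H : ℝ), 1 ≤ H → k.IsPrimitive →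
    Squarefree k → 1 ≤ k.natDegree → 2 * k.natDegree < n → k.supNorm ^ 2 ≤ C₁ * H → 1 ≤ M →
    (M : ℤ) ∣ k.eval r → IsCoprime (M : ℤ) ((derivative k).eval r) →
    Cnt (fun f => Bad n f ∧ f.supNorm ≤ H ∧ Wk M r f)
      (C₀ * H ^ ((n : ℝ) - 1 / 2 + ε) * k.supNorm ^ (2 * k.natDegree) /
        (M : ℝ) ^ (13 / 8 : ℝ) / M) := by
  obtain ⟨K, hK, hL⟩ := llp_half n hn
  obtain ⟨CL, hCL, hL⟩ := hL ε hε
  obtain ⟨CF, hCF, hF⟩ := fil n C₁ hC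
  have hK' : (1 : ℝ) ≤ K := by exact_mod_cast hK
  refine ⟨CL * CF * K ^ n, one_le_mul_of_one_le_of_one_le (one_le_mul_of_one_le_of_one_le hCL hCF)
    (one_le_pow₀ hK'), fun k M r H hH h1 h2 h3 h4 h5 hM h6 h7 => ?_⟩
  have hM' : (1 : ℝ) ≤ M := by exact_mod_cast hM
  have hη := k.supNorm_nonneg
  refine Cnt.of_mem (by positivity) fun f₀ hf => ?_
  have hR : H ≤ K * H := le_mul_of_one_le_left (by linarith) hK'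
  have hB := hF k f₀ M r (K * H) (hH.trans hR) h1 h2 h3 h4
    (h5.trans (mul_le_mul_of_nonneg_left hR (by linarith))) hM h6 h7
    ⟨hf.1.1, hf.1.2.1, hf.2.1.trans hR, hf.2.2⟩ hf.1.2.2.1
  obtain ⟨g₁, g₂, l1, l2, hi, s1, s2⟩ := exists_short n (by omega) M hM r
  have hn' : (5 : ℝ) ≤ n := by exact_mod_cast hn
  have hT : (M : ℝ) ^ (3 / ((n : ℝ) - 1)) ≤ (M : ℝ) ^ (3 / 4 : ℝ) :=
    Real.rpow_le_rpow_of_exponent_le hM'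
      (div_le_div_of_nonneg_left (by norm_num) (by norm_num) (by linarith))
  refine (hL H M r hH _ _ g₁ g₂ l1 l2 hi (s1.trans hT) (s2.trans hT) hB).mono (fun _ h => h)
    (le_of_eq ?_)
  have hM0 : (0 : ℝ) < M := by linarith
  have hH0 : 0 < H := by linarith
  have e1 : (M : ℝ) ^ 3 = (M : ℝ) ^ (13 / 8 : ℝ) * M * ((M : ℝ) ^ (3 / 4 : ℝ)) ^ (1 / 2 : ℝ) := by
    rw [← Real.rpow_mul hM0.le, ← Real.rpow_add_one hM0.ne', ← Real.rpow_add hM0,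
      ← Real.rpow_natCast]
    norm_num
  rw [Real.div_rpow (by positivity) hH0.le, Real.rpow_add hH0, Real.rpow_sub hH0,
    Real.rpow_natCast, e1, mul_pow]
  field_simp

theorem wlsec_num {η T H C₁ M : ℝ} {a e : ℕ} (hT : 1 ≤ T) (hη : T ≤ η) (hH : 1 ≤ H)
    (hk : η ^ 2 ≤ C₁ * H) (ha : 24 * e + 4 ≤ 13 * a) (hM : H ^ (12 / 25 : ℝ) * η ^ a ≤ M) :
    η ^ (2 * e) / M ^ (13 / 8 : ℝ) ≤ (C₁ * H) ^ (1 / 4 : ℝ) / H ^ (39 / 50 : ℝ) / T ^ (e + 1) := by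
  have h1 : 1 ≤ η := hT.trans hη
  have h0 : 0 < η := by linarith
  have hM0 : 0 < M := lt_of_lt_of_le (by positivity) hM
  have ha' : (24 : ℝ) * e + 4 ≤ 13 * a := by exact_mod_cast ha
  have e1 : H ^ (39 / 50 : ℝ) * η ^ ((a : ℝ) * (13 / 8)) ≤ M ^ (13 / 8 : ℝ) := by
    have := Real.rpow_le_rpow (by positivity) hM (by norm_num : (0 : ℝ) ≤ 13 / 8)
    rwa [Real.mul_rpow (by positivity) (by positivity), ← Real.rpow_mul (by linarith),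
      ← Real.rpow_natCast, ← Real.rpow_mul h0.le,
      show (12 / 25 * (13 / 8) : ℝ) = 39 / 50 by norm_num] at this
  have e2 : η ^ (2 * e) * T ^ (e + 1) ≤ (C₁ * H) ^ (1 / 4 : ℝ) * η ^ ((a : ℝ) * (13 / 8)) :=
    calc η ^ (2 * e) * T ^ (e + 1) ≤ η ^ (2 * e) * η ^ (e + 1) := by gcongr
      _ = η ^ ((2 * e + (e + 1) : ℕ) : ℝ) := by rw [Real.rpow_natCast, pow_add η (2 * e)]
      _ ≤ η ^ ((2 : ℕ) * (1 / 4) + (a : ℝ) * (13 / 8)) :=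
        Real.rpow_le_rpow_of_exponent_le h1 (by push_cast; linarith)
      _ = (η ^ 2) ^ (1 / 4 : ℝ) * η ^ ((a : ℝ) * (13 / 8)) := by
        rw [Real.rpow_add h0, Real.rpow_mul h0.le, Real.rpow_natCast]
      _ ≤ _ := by gcongr
  have hC : 0 ≤ (C₁ * H) ^ (1 / 4 : ℝ) := Real.rpow_nonneg ((sq_nonneg η).trans hk) _
  rw [div_div, div_le_div_iff₀ (by positivity) (by positivity)]
  calc η ^ (2 * e) * (H ^ (39 / 50 : ℝ) * T ^ (e + 1))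
      = H ^ (39 / 50 : ℝ) * (η ^ (2 * e) * T ^ (e + 1)) := by ring
    _ ≤ H ^ (39 / 50 : ℝ) * ((C₁ * H) ^ (1 / 4 : ℝ) * η ^ ((a : ℝ) * (13 / 8))) := by gcongr
    _ = (C₁ * H) ^ (1 / 4 : ℝ) * (H ^ (39 / 50 : ℝ) * η ^ ((a : ℝ) * (13 / 8))) := by ring
    _ ≤ _ := by gcongr

/-- the count for one polynomial `k` -/
theorem wlsec_one (n : ℕ) (hn : 5 ≤ n) (C₁ : ℝ) (hC : 1 ≤ C₁) (ε : ℝ) (hε : 0 < ε) :
    ∃ C₀ : ℝ, 1 ≤ C₀ ∧ ∀ (k : ℤ[X]) (H T Z : ℝ), 1 ≤ H → 1 ≤ T → 1 ≤ Z →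
    Cnt (fun f => T ≤ k.supNorm ∧ f.supNorm ≤ H ∧ Bad n f ∧ ∃ (M : ℕ) (r : ℤ), k.IsPrimitive ∧
      Squarefree k ∧ 1 ≤ k.natDegree ∧ 2 * k.natDegree < n ∧ k.supNorm ^ 2 ≤ C₁ * H ∧
      Squarefree M ∧ (M : ℝ) ≤ Z ∧ 0 ≤ r ∧ r < M ∧ (M : ℤ) ∣ k.eval r ∧
      IsCoprime (M : ℤ) ((derivative k).eval r) ∧
      H ^ (12 / 25 : ℝ) * k.supNorm ^ (2 * n - 4 - k.natDegree) ≤ M ∧ Wk M r f)
      (C₀ * (Z ^ ε * Z ^ ε * H ^ ((n : ℝ) - 1 / 2 + ε) * (C₁ * H) ^ (1 / 4 : ℝ) /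
        H ^ (39 / 50 : ℝ)) / T ^ (k.natDegree + 1)) := by
  obtain ⟨Cs, hs1, hs⟩ := sec_fibre n hn C₁ hC ε hε
  obtain ⟨Cr, hr1, hr⟩ := cnt_roots_prim n ε hε
  obtain ⟨Ch, hh1, hh⟩ := cnt_harm ε hε
  refine ⟨Ch * Cr * Cs, one_le_mul_of_one_le_of_one_le (one_le_mul_of_one_le_of_one_le hh1 hr1) hs1,
    fun k H T Z hH hT hZ => Cnt.of_mem (by positivity) ?_⟩
  rintro - ⟨hη, -, -, -, -, k1, k2, k3, k4, k5, -⟩
  have hη0 := k.supNorm_nonneg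
  refine (hh Z (Cr * Z ^ ε * (Cs * H ^ ((n : ℝ) - 1 / 2 + ε) *
      ((C₁ * H) ^ (1 / 4 : ℝ) / H ^ (39 / 50 : ℝ) / T ^ (k.natDegree + 1))))
    (fun M f => (Squarefree M ∧
      H ^ (12 / 25 : ℝ) * k.supNorm ^ (2 * n - 4 - k.natDegree) ≤ M) ∧
      ∃ r : ℤ, (0 ≤ r ∧ r < (1 * M : ℕ) ∧ (M : ℤ) ∣ k.eval r) ∧
        IsCoprime (M : ℤ) ((derivative k).eval r) ∧ Bad n f ∧ f.supNorm ≤ H ∧ Wk M r f)
    hZ (by positivity) fun M hM hMZ => Cnt.of_mem (by positivity) ?_).mono ?_ (le_of_eq (by ring))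
  · rintro - ⟨⟨m1, m2⟩, -⟩
    have hM0 : (0 : ℝ) < M := by exact_mod_cast hM
    refine ((hr k 1 M k1 (by omega) le_rfl m1).fibre (by positivity) fun r hr' =>
      Cnt.of_mem (by positivity) fun _ h => (hs k M r H hH k1 k2 k3 k4 k5 hM hr'.2.2 h.1).mono
        (fun _ h => h.2) le_rfl).mono (fun _ h => h.2) ?_
    have := wlsec_num (e := k.natDegree) hT hη hH k5 (by omega) m2
    rw [Nat.cast_one, mul_one, mul_div_assoc (Cr * Z ^ ε), mul_div_assoc (Cs * _)]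
    gcongr
  · rintro f ⟨-, f1, f2, M, r, -, -, -, -, -, m1, m2, r1, r2, r3, r4, m3, w⟩
    exact ⟨M, Nat.pos_of_ne_zero m1.ne_zero, m2, ⟨m1, m3⟩, r, ⟨r1, by rwa [one_mul], r3⟩, r4, f2,
      f1, w⟩

theorem ps_second (n D : ℕ) (hn : 5 ≤ n) (hD : 1 ≤ D) (C₁ : ℝ) (hC : 1 ≤ C₁) :
    PS n fun H f => Bad n f ∧ ∃ (k : ℤ[X]) (M : ℕ) (r : ℤ), k.IsPrimitive ∧ Squarefree k ∧
      1 ≤ k.natDegree ∧ 2 * k.natDegree < n ∧ k.supNorm ^ 2 ≤ C₁ * H ∧ Squarefree M ∧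
      (M : ℝ) ≤ H ^ D ∧ 0 ≤ r ∧ r < M ∧ (M : ℤ) ∣ k.eval r ∧
      IsCoprime (M : ℤ) ((derivative k).eval r) ∧
      H ^ (12 / 25 : ℝ) * k.supNorm ^ (2 * n - 4 - k.natDegree) ≤ M ∧ Wk M r f := by
  obtain ⟨ε, hε⟩ : ∃ ε : ℝ, ε = 1 / (100 * (2 * D + 2)) := ⟨_, rfl⟩
  have hε0 : 0 < ε := by rw [hε]; positivity
  have hε1 : ε * (2 * D + 2) = 1 / 100 := by rw [hε]; field_simp
  obtain ⟨Co, ho1, ho⟩ := wlsec_one n hn C₁ hC ε hε0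
  obtain ⟨Cd, hd1, hd⟩ := cnt_dy ε hε0
  refine (PS.fin (Finset.range n) (P := fun e H f => ∃ t : ℝ, 1 ≤ t ∧ t ≤ H ∧ ∃ k : ℤ[X],
    k.supNorm = t ∧ k.natDegree = e ∧ Bad n f ∧ ∃ (M : ℕ) (r : ℤ), k.IsPrimitive ∧
      Squarefree k ∧ 1 ≤ k.natDegree ∧ 2 * k.natDegree < n ∧ k.supNorm ^ 2 ≤ C₁ * H ∧
      Squarefree M ∧ (M : ℝ) ≤ H ^ D ∧ 0 ≤ r ∧ r < M ∧ (M : ℤ) ∣ k.eval r ∧
      IsCoprime (M : ℤ) ((derivative k).eval r) ∧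
      H ^ (12 / 25 : ℝ) * k.supNorm ^ (2 * n - 4 - k.natDegree) ≤ M ∧ Wk M r f)
    fun e _ => PS.of_lt ((n : ℝ) - 51 / 50) (Cd * 5 ^ (e + 1) * Co * C₁ ^ (1 / 4 : ℝ)) 1
      (by linarith) fun H hH => ?_).mono C₁ ?_
  · have hH0 : 0 < H := by linarith
    refine (hd H (5 ^ (e + 1) * (Co * ((H ^ D) ^ ε * (H ^ D) ^ ε * H ^ ((n : ℝ) - 1 / 2 + ε) *
        (C₁ * H) ^ (1 / 4 : ℝ) / H ^ (39 / 50 : ℝ))))
      (fun t f => f.supNorm ≤ H ∧ ∃ k : ℤ[X],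
        k.supNorm = t ∧ k.natDegree = e ∧ Bad n f ∧ ∃ (M : ℕ) (r : ℤ), k.IsPrimitive ∧
        Squarefree k ∧ 1 ≤ k.natDegree ∧ 2 * k.natDegree < n ∧ k.supNorm ^ 2 ≤ C₁ * H ∧
        Squarefree M ∧ (M : ℝ) ≤ H ^ D ∧ 0 ≤ r ∧ r < M ∧ (M : ℤ) ∣ k.eval r ∧
        IsCoprime (M : ℤ) ((derivative k).eval r) ∧
        H ^ (12 / 25 : ℝ) * k.supNorm ^ (2 * n - 4 - k.natDegree) ≤ M ∧ Wk M r f)
      hH (by positivity) fun T hT _ => ?_).mono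
      (fun f ⟨h, t, t1, t2, h'⟩ => ⟨t, t1, t2, h.2.2.2, h'⟩) (le_of_eq ?_)
    · refine (((cnt_poly (e + 1) (2 * T) (by linarith)).mono
        (P := fun k => k.natDegree = e ∧ k.supNorm ≤ 2 * T)
        (B' := (5 * T) ^ (e + 1)) (fun k h => ⟨?_, h.2⟩) ?_).fibre (by positivity)
        fun k hk => hk.1 ▸ ho k H T (H ^ D) hH hT (one_le_pow₀ hH)).mono ?_ (le_of_eq ?_)
      · exact degree_le_natDegree.trans_lt (by rw [h.1]; exact_mod_cast Nat.lt_succ_self e)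
      · gcongr
        linarith
      · rintro f ⟨t, t1, t2, f1, k, rfl, h1, h2⟩
        exact ⟨k, ⟨h1, t2⟩, t1, f1, h1 ▸ h2⟩
      · rw [mul_pow]
        field_simp
    · have e1 : (n : ℝ) - 51 / 50 = ε + D * ε + D * ε + (n - 1 / 2 + ε) + 1 / 4 - 39 / 50 := by
        linarith
      rw [e1, Real.rpow_sub hH0, Real.rpow_add hH0 _ (1 / 4), Real.rpow_add hH0 _ (n - 1 / 2 + ε),
        Real.rpow_add hH0 _ (D * ε), Real.rpow_add hH0 _ (D * ε), Real.rpow_natCast_mul hH0.le,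
        Real.mul_rpow (by linarith) hH0.le]
      ring
  · rintro H hH f - ⟨hf, k, M, r, h⟩
    have h1 := h.2.2.2.1
    have h2 := h.2.2.2.2.1
    refine ⟨k.natDegree, Finset.mem_range.2 (by omega), _, one_le_sup h.1.ne_zero, ?_, k, rfl, rfl,
      hf, M, r, h⟩
    exact le_of_sq_le_sq (by nlinarith) (by linarith)

end Pool.Agent.VW.Lat
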