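import Pool.Agent.P.MP_b0ea37_nt.WLWk
import Pool.Agent.P.MP_b0ea37_nt.WRes

namespace Pool.Agent.VW.Lat

open Polynomial

theorem exists_sq_split {R : Type} [CommRing R] [IsDomain R] [UniqueFactorizationMonoid R] (x : R)
    (hx : x ≠ 0) : ∃ s k w : R, x = s * k ^ 2 * w ∧ Squarefree (s * k) ∧ ∃ j : ℕ, w ∣ k ^ j := by
  induction x using UniqueFactorizationMonoid.induction_on_prime with
  | h₁ => exact absurd rfl hx
  | h₂ x hu => exact ⟨x, 1, 1, by ring, by rw [mul_one]; exact hu.squarefree, 0, by simp⟩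
  | h₃ a p ha hp ih =>
    obtain ⟨s, k, w, h1, h2, j, h3⟩ := ih ha
    by_cases hk : p ∣ k
    · exact ⟨s, k, p * w, by rw [h1]; ring, h2, j + 1, by
        rw [pow_succ, mul_comm p w]; exact mul_dvd_mul h3 hk⟩
    · by_cases hs : p ∣ s
      · obtain ⟨s', rfl⟩ := hs
        refine ⟨s', p * k, w, by rw [h1]; ring, ?_, j, h3.trans ?_⟩
        · have e : s' * (p * k) = p * s' * k := by ring
          rw [e]; exact h2
        · exact pow_dvd_pow_of_dvd (Dvd.intro_left p rfl) j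
      · refine ⟨p * s, k, w, by rw [h1]; ring, ?_, j, h3⟩
        rw [mul_assoc]
        exact squarefree_mul_iff.2 ⟨hp.irreducible.isRelPrime_iff_not_dvd.2
          fun h => (hp.dvd_or_dvd h).elim hs hk, hp.irreducible.squarefree, h2⟩

theorem separable_up {g : ℤ[X]} (hp : g.IsPrimitive) (hs : Squarefree g) :
    (up ℚ g).Separable := by
  rw [PerfectField.separable_iff_squarefree]
  intro q hq
  have hg0 : up ℚ g ≠ 0 :=
    (Polynomial.map_ne_zero_iff (f := Int.castRingHom ℚ) Int.cast_injective).2 hp.ne_zero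
  have hq0 : q ≠ 0 := by
    rintro rfl
    exact hg0 (by simpa using hq)
  refine isUnit_or_eq_zero_of_isUnit_integerNormalization_primPart (R := ℤ) hq0 (hs _ ?_)
  obtain ⟨b, hb, hbq⟩ := IsLocalization.integerNormalization_spec (nonZeroDivisors ℤ) q
  obtain ⟨q₁, hq₁⟩ : ∃ q₁, q₁ = IsLocalization.integerNormalization (nonZeroDivisors ℤ) q :=
    ⟨_, rfl⟩
  rw [← hq₁] at hbq ⊢
  have hb0 : (b : ℚ) ≠ 0 := Int.cast_ne_zero.2 (nonZeroDivisors.ne_zero hb)
  have h1 : q₁.primPart.map (Int.castRingHom ℚ) ∣ q := by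
    have h2 : q₁.primPart.map (Int.castRingHom ℚ) ∣ q₁.map (algebraMap ℤ ℚ) :=
      Polynomial.map_dvd _ (primPart_dvd q₁)
    rw [hbq] at h2
    have e : q = C (b : ℚ)⁻¹ * (b • q) := by
      rw [zsmul_eq_mul, ← mul_assoc, ← map_intCast (C : ℚ →+* ℚ[X]) b, ← C_mul,
        inv_mul_cancel₀ hb0, C_1, one_mul]
    rw [e]
    exact h2.mul_left _
  rw [IsPrimitive.Int.dvd_iff_map_cast_dvd_map_cast _ _
    ((isPrimitive_primPart q₁).mul (isPrimitive_primPart q₁)), Polynomial.map_mul]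
  exact (mul_dvd_mul h1 h1).trans hq

theorem wlstr_local {c : ℤ} {s k w : ℤ[X]} {j : ℕ} (hw : w ∣ k ^ j) (hprim : (s * k).IsPrimitive)
    {p : ℕ} {r : ℤ} (hp : p.Prime) (hc : ¬ (p : ℤ) ∣ c)
    (hres : ¬ (p : ℤ) ∣ resultant (s * k) (derivative (s * k)))
    (hg : Wk p r (C c * (s * k ^ 2 * w))) :
    (p : ℤ) ∣ k.eval r ∧ ¬ (p : ℤ) ∣ (derivative k).eval r := by
  have hP : Prime (p : ℤ) := Nat.prime_iff_prime_int.1 hp
  have hwk : (p : ℤ) ∣ w.eval r → (p : ℤ) ∣ k.eval r := fun h => by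
    have h1 := h.trans (eval_dvd (x := r) hw)
    rw [eval_pow] at h1
    exact hP.dvd_of_dvd_pow h1
  have h0 : (p : ℤ) ∣ s.eval r ∨ (p : ℤ) ∣ k.eval r := by
    have h1 := (dvd_pow_self _ two_ne_zero).trans hg.1
    rw [eval_mul, eval_C, eval_mul, eval_mul, eval_pow] at h1
    rcases hP.dvd_or_dvd ((hP.dvd_or_dvd h1).resolve_left hc) with h2 | h2
    · exact (hP.dvd_or_dvd h2).imp_right hP.dvd_of_dvd_pow
    · exact Or.inr (hwk h2)
  have h1 : (p : ℤ) ∣ (s * k).eval r := by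
    rw [eval_mul]
    exact h0.elim (fun h => h.mul_right _) fun h => h.mul_left _
  have hdeg : 1 ≤ (s * k).natDegree := by
    by_contra hlt
    have h2 : (s * k).natDegree = 0 := by omega
    rw [eq_C_of_natDegree_eq_zero h2, eval_C] at h1
    refine hP.not_isUnit (hprim (p : ℤ) ?_)
    rw [eq_C_of_natDegree_eq_zero h2]
    exact map_dvd C h1
  have h2 : ¬ (p : ℤ) ∣ (derivative s).eval r * k.eval r + s.eval r * (derivative k).eval r :=
    fun h => hres (res_one_one hp.one_le le_rfl le_rfl (by omega) h1 (by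
      rw [derivative_mul, eval_add, eval_mul, eval_mul]; exact h))
  have h3 : (p : ℤ) ∣ k.eval r := by
    by_contra hk
    have hs : (p : ℤ) ∣ s.eval r := h0.resolve_right hk
    have h4 := hg.2
    have e : (derivative (C c * (s * k ^ 2 * w))).eval r =
        c * ((derivative s).eval r * (k.eval r ^ 2 * w.eval r)) +
          s.eval r * (c * (derivative (k ^ 2 * w)).eval r) := by
      rw [derivative_C_mul, mul_assoc s, derivative_mul]
      simp only [eval_mul, eval_add, eval_C, eval_pow]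
      ring
    rw [e] at h4
    have h5 := (dvd_add_left (hs.mul_right _)).1 h4
    rcases hP.dvd_or_dvd ((hP.dvd_or_dvd h5).resolve_left hc) with h6 | h6
    · exact h2 (dvd_add (h6.mul_right _) (hs.mul_right _))
    · rcases hP.dvd_or_dvd h6 with h7 | h7
      · exact hk (hP.dvd_of_dvd_pow h7)
      · exact hk (hwk h7)
  exact ⟨h3, fun h => h2 (dvd_add (h3.mul_left _) (h.mul_left _))⟩

theorem exists_ker (n : ℕ) : ∃ C₀ : ℝ, 1 ≤ C₀ ∧ ∀ g : ℤ[X], g ≠ 0 → g.natDegree < n →
    ∃ (k : ℤ[X]) (N : ℕ), Ker k N g ∧ (N : ℝ) ≤ C₀ * g.supNorm ^ (2 * n) := by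
  have hA : (1 : ℝ) ≤ (n + 1) * 4 ^ n :=
    one_le_mul_of_one_le_of_one_le (by simp) (one_le_pow₀ (by norm_num))
  have hF : (1 : ℝ) ≤ (2 * n).factorial := by exact_mod_cast Nat.factorial_pos _
  refine ⟨(2 * n).factorial * ((n + 1) * 4 ^ n) ^ (2 * n),
    one_le_mul_of_one_le_of_one_le hF (one_le_pow₀ hA), fun g hg hn => ?_⟩
  obtain ⟨s, k, w, h1, h2, j, h3⟩ := exists_sq_split g.primPart (primPart_ne_zero g)
  have hg0 : g = C g.content * (s * k ^ 2 * w) := by
    rw [← h1]; exact g.eq_C_content_mul_primPart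
  have hd0 : s * k ∣ g.primPart := ⟨k * w, by rw [h1]; ring⟩
  have hprim : (s * k).IsPrimitive := isPrimitive_of_dvd g.isPrimitive_primPart hd0
  have hc0 : g.content ≠ 0 := fun h => hg (content_eq_zero_iff.1 h)
  have hres : resultant (s * k) (derivative (s * k)) ≠ 0 := by
    refine resultant_ne_zero_of_coprime ?_
    have h4 := separable_up hprim h2
    rw [Polynomial.separable_def, derivative_map] at h4
    exact h4
  refine ⟨k, (g.content * resultant (s * k) (derivative (s * k))).natAbs,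
    ⟨isPrimitive_of_dvd hprim (Dvd.intro_left s rfl), h2.of_mul_right, ?_,
      Int.natAbs_ne_zero.2 (mul_ne_zero hc0 hres), fun p r hp hN hw => ?_⟩, ?_⟩
  · exact ⟨C g.content * s * w, by rw [mul_assoc, ← mul_left_comm]; exact hg0.trans (by ring)⟩
  · rw [← Int.natCast_dvd] at hN
    exact wlstr_local h3 hprim hp (fun h => hN (h.mul_right _)) (fun h => hN (h.mul_left _))
      (hg0 ▸ hw)
  · obtain ⟨u, hu⟩ : ∃ u, u = s * k := ⟨_, rfl⟩
    rw [← hu] at hd0 ⊢
    have hug : u ∣ g := hd0.trans (primPart_dvd g)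
    have hg1 := one_le_sup hg
    have h4 : (1 : ℝ) ≤ 4 ^ n := one_le_pow₀ (by norm_num)
    have hn0 : (0 : ℝ) ≤ n := Nat.cast_nonneg n
    obtain ⟨A, hAe⟩ : ∃ A : ℝ, A = (n + 1) * 4 ^ n * g.supNorm := ⟨_, rfl⟩
    have hgA : g.supNorm ≤ A := by rw [hAe]; nlinarith
    have hA1 : 1 ≤ A := hg1.trans hgA
    have hu1 := sup_le_of_dvd hg hug hn.le
    have hud : u.natDegree < n := (natDegree_le_of_dvd hug hg).trans_lt hn
    have h5 : (0 : ℝ) ≤ 4 ^ n * g.supNorm := by positivity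
    have huA : u.supNorm ≤ A := by rw [hAe]; nlinarith
    have hu'A : (derivative u).supNorm ≤ A := by
      have h6 := sup_derivative_le u hud.le
      rw [hAe]; nlinarith
    have hcA : |(g.content : ℝ)| ≤ A := by
      have h6 := sup_C_mul_int g.content g.primPart
      rw [← g.eq_C_content_mul_primPart] at h6
      have h7 := one_le_sup (primPart_ne_zero g)
      have h8 := abs_nonneg (g.content : ℝ)
      nlinarith
    have hd' : (derivative u).natDegree ≤ u.natDegree :=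
      (natDegree_derivative_le u).trans (Nat.sub_le _ _)
    have h6 := norm_resultant_le u (derivative u) u.natDegree (derivative u).natDegree
    rw [Int.norm_eq_abs] at h6
    have h7 : (((u.natDegree + (derivative u).natDegree).factorial : ℕ) : ℝ) ≤
        (2 * n).factorial := by exact_mod_cast Nat.factorial_le (by omega)
    have h8 : |((resultant u (derivative u) : ℤ) : ℝ)| ≤
        (2 * n).factorial * A ^ (derivative u).natDegree * A ^ u.natDegree := by
      refine h6.trans ?_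
      have := u.supNorm_nonneg
      have := (derivative u).supNorm_nonneg
      gcongr
    rw [Nat.cast_natAbs, Int.cast_abs, Int.cast_mul, abs_mul]
    calc |(g.content : ℝ)| * |((resultant u (derivative u) : ℤ) : ℝ)|
        ≤ A * ((2 * n).factorial * A ^ (derivative u).natDegree * A ^ u.natDegree) := by gcongr
      _ = (2 * n).factorial * A ^ ((derivative u).natDegree + u.natDegree + 1) := by ring
      _ ≤ (2 * n).factorial * A ^ (2 * n) := by
          have := pow_le_pow_right₀ hA1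
            (show (derivative u).natDegree + u.natDegree + 1 ≤ 2 * n by omega)
          gcongr
      _ = _ := by rw [hAe, mul_pow, mul_assoc]

theorem ker_split {k g : ℤ[X]} {N M : ℕ} {r : ℤ} (hk : Ker k N g) (hM : Squarefree M)
    (hg : Wk M r g) : ∃ (M' : ℕ) (r' : ℤ), 1 ≤ M' ∧ M' ∣ M ∧ M ∣ N * M' ∧ 0 ≤ r' ∧ r' < M' ∧
      (M' : ℤ) ∣ r - r' ∧ (M' : ℤ) ∣ k.eval r' ∧ IsCoprime (M' : ℤ) ((derivative k).eval r') := by
  obtain ⟨M', hM'⟩ := Nat.gcd_dvd_left M N
  have hsq := hM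
  rw [hM', Nat.squarefree_mul_iff] at hsq
  have hd : M' ∣ M := ⟨M.gcd N, by rw [mul_comm]; exact hM'⟩
  have h1 : 1 ≤ M' := Nat.pos_of_ne_zero hsq.2.2.ne_zero
  obtain ⟨r', hr0, hr1, hr2⟩ := exists_res M' h1 r
  have hw : Wk M' r' g := wk_of_mod hr2 (wk_of_dvd hd hg)
  have hp : ∀ p : ℕ, p.Prime → p ∣ M' →
      (p : ℤ) ∣ k.eval r' ∧ ¬ (p : ℤ) ∣ (derivative k).eval r' := fun p hp hpM =>
    hk.2.2.2.2 p r' hp (fun hN => hp.one_lt.ne' (Nat.eq_one_of_dvd_coprimes hsq.1
      (Nat.dvd_gcd (hpM.trans hd) hN) hpM)) (wk_of_dvd hpM hw)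
  refine ⟨M', r', h1, hd, ?_, hr0, hr1, hr2, ?_, ?_⟩
  · have h2 := Nat.mul_dvd_mul_right (Nat.gcd_dvd_right M N) M'
    rwa [← hM'] at h2
  · rw [Int.natCast_dvd, ← Nat.prod_primeFactors_of_squarefree hsq.2.2]
    exact Finset.prod_primes_dvd _ (fun p hp' => (Nat.prime_of_mem_primeFactors hp').prime)
      fun p hp' => Int.natCast_dvd.1
        (hp p (Nat.prime_of_mem_primeFactors hp') (Nat.dvd_of_mem_primeFactors hp')).1
  · rw [Int.isCoprime_iff_nat_coprime, Int.natAbs_natCast]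
    exact Nat.coprime_of_dvd fun p hp' hpM h => (hp p hp' hpM).2 (Int.natCast_dvd.2 h)

end Pool.Agent.VW.Lat
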