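import Pool.Agent.P.MP_b0ea37_nt.WLAlpha
import Pool.Agent.P.MP_b0ea37_nt.WLSpec

namespace Pool.Agent.VW.Lat

open Polynomial

theorem wlzero_gen (n D : ℕ) (hD : 1 ≤ D) (A a b β τ C₁ : ℝ) (G : ℤ[X] → Prop) (hA : 0 ≤ A)
    (ha : 1 ≤ a) (han : a ≤ n) (hb : 0 ≤ b) (hba : b ≤ a) (hC : 0 ≤ C₁) (hτ : τ ≤ 1)
    (hF : Fam n A a G) (hlt : β + τ * (a - b) < n - 1) (N : ℤ[X] → ℕ)
    (S : ℝ → ℕ → ℤ → ℤ[X] → Prop) : PS n fun H f => ∃ (M : ℕ) (r : ℤ) (g : ℤ[X]), G g ∧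
      g.supNorm ≤ H ^ τ ∧ Tri (H ^ D) 1 N M r g ∧ S H M r f ∧
      Cnt (S H M r) (C₁ * H ^ β / g.supNorm ^ b) := by
  have hD' : (1 : ℝ) ≤ D := by exact_mod_cast hD
  obtain ⟨ε, hε, he⟩ : ∃ ε : ℝ, 0 < ε ∧ D * ε + β + τ * (a - b) < n - 1 := by
    refine ⟨(n - 1 - (β + τ * (a - b))) / (2 * D), div_pos (by linarith) (by linarith), ?_⟩
    have : D * ((n - 1 - (β + τ * (a - b))) / (2 * D)) = (n - 1 - (β + τ * (a - b))) / 2 := by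
      field_simp
    linarith
  obtain ⟨C₀, -, h⟩ := cnt_alpha_fib n ε hε
  refine PS.of_lt _ (C₀ * A * C₁) 1 he fun H hH => ?_
  have hH0 : 0 < H := by linarith
  refine (h (H ^ D) 1 A a b (C₁ * H ^ β) (H ^ (τ * (a - b))) G N (S H) (one_le_pow₀ hH) zero_le_one
    hA ha han hb (hba.trans han) (by positivity) (by positivity) hF).mono ?_ (le_of_eq ?_)
  · rintro f ⟨-, M, r, g, h1, h2, h3, h4, h5⟩
    refine ⟨M, r, g, h1, h2.trans ?_, ?_, h3, h4, h5⟩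
    · rw [← Real.rpow_natCast]
      exact Real.rpow_le_rpow_of_exponent_le hH (hτ.trans hD')
    · rw [Real.rpow_mul hH0.le]
      exact Real.rpow_le_rpow (supNorm_nonneg g) h2 (sub_nonneg.2 hba)
  · rw [Real.rpow_add hH0, Real.rpow_add hH0, Real.rpow_mul hH0.le D, Real.rpow_natCast]
    ring

theorem ps_gen (n D : ℕ) (hn : 5 ≤ n) (hD : 1 ≤ D) (C₁ : ℝ) (hC : 0 ≤ C₁) (N : ℤ[X] → ℕ)
    (S : ℝ → ℕ → ℤ → ℤ[X] → Prop) : PS n fun H f => ∃ (M : ℕ) (r : ℤ) (g : ℤ[X]), g ≠ 0 ∧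
      g.natDegree < n ∧ g.supNorm ≤ H ^ tau n ∧ Tri (H ^ D) 1 N M r g ∧ S H M r f ∧
      Cnt (S H M r) (C₁ * H / g.supNorm) := by
  have hn' : (5 : ℝ) ≤ n := by exact_mod_cast hn
  have e : tau n * (n - 1) = n - 2 - (n - 1) / 1000 := by
    have : (n : ℝ) - 1 ≠ 0 := by linarith
    unfold tau
    field_simp
  have ht : tau n ≤ 1 := le_of_mul_le_mul_right (a := (n : ℝ) - 1) (by linarith) (by linarith)
  refine (wlzero_gen n D hD (3 ^ n) n 1 1 (tau n) C₁ _ (by positivity) (by linarith) le_rfl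
    zero_le_one (by linarith) hC ht (fam_all n) (by linarith) N S).mono 1 ?_
  rintro H - f - ⟨M, r, g, h0, h1, h2, h3, h4, h5⟩
  exact ⟨M, r, g, ⟨h0, h1⟩, h2, h3, h4, by rwa [Real.rpow_one, Real.rpow_one]⟩

theorem ps_spec (n D : ℕ) (hn : 5 ≤ n) (hD : 1 ≤ D) (C₁ ε τ : ℝ) (hC : 0 ≤ C₁) (hε : 0 ≤ ε)
    (hτ : 0 ≤ τ) (h : ε + τ / 2 < 1 / 2) (N : ℤ[X] → ℕ) (S : ℝ → ℕ → ℤ → ℤ[X] → Prop) :
    PS n fun H f => ∃ (M : ℕ) (r : ℤ) (g : ℤ[X]), g ≠ 0 ∧ g.natDegree < n ∧ Spec n g ∧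
      g.supNorm ≤ H ^ τ ∧ Tri (H ^ D) 1 N M r g ∧ S H M r f ∧
      Cnt (S H M r) (C₁ * H ^ ((n : ℝ) - 3 / 2 + ε) / g.supNorm ^ ((n : ℝ) - 3 / 2)) := by
  have hn' : (5 : ℝ) ≤ n := by exact_mod_cast hn
  obtain ⟨A, hA, hF⟩ := fam_spec n (by omega) ((1 / 2 - (ε + τ / 2)) / 2) (by linarith)
  refine (wlzero_gen n D hD A _ (n - 3 / 2) (n - 3 / 2 + ε) τ C₁ _ hA (by linarith) (by linarith)
    (by linarith) (by linarith) hC (by linarith) hF (by nlinarith) N S).mono 1 ?_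
  rintro H - f - ⟨M, r, g, h0, h1, hs, h2, h3, h4, h5⟩
  exact ⟨M, r, g, ⟨h0, h1, hs⟩, h2, h3, h4, h5⟩

end Pool.Agent.VW.Lat
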