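import Pool.Agent.P.MP_b0ea37_nt.WLPair
import Pool.Agent.P.MP_b0ea37_nt.WLStr
import Pool.Agent.P.MP_b0ea37_nt.WLZero
import Pool.Agent.P.MP_b0ea37_nt.WLFirst
import Pool.Agent.P.MP_b0ea37_nt.WLSec

namespace Pool.Agent.VW.Lat

open Polynomial

theorem wlthm_muL (n : ℕ) (hn : 5 ≤ n) : 9 / 5 ≤ muL n ∧ muL n ≤ n ∧
    muL n / ((n : ℝ) - 1) < 1 / 2 ∧ 1 - tau n + 2 * muL n < (n : ℝ) - 1 := by
  have h5 : (5 : ℝ) ≤ n := by exact_mod_cast hn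
  have h1 : (0 : ℝ) < (n : ℝ) - 1 := by linarith
  have e1 : (n : ℝ) * (n - 2) / (2 * (n - 1)) = ((n : ℝ) - 1) / 2 - 1 / (2 * (n - 1)) := by
    field_simp; ring
  have e2 : ((n : ℝ) - 2) / (n - 1) = 1 - 2 * (1 / (2 * (n - 1))) := by field_simp; ring
  have h2 : (0 : ℝ) < 1 / (2 * (n - 1)) := by positivity
  have h3 : (1 : ℝ) / (2 * (n - 1)) ≤ 1 / 8 := by
    apply one_div_le_one_div_of_le <;> linarith
  unfold muL tau
  rw [e1, e2]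
  refine ⟨by linarith, by linarith, ?_, by linarith⟩
  rw [div_lt_iff₀ h1]
  linarith

theorem wlthm_line (n : ℕ) (hn : 5 ≤ n) (A E H T : ℝ) (hA : 0 ≤ A) (hE : 1 ≤ E) (hT : 1 ≤ T)
    (hH : T ≤ H) : A * H / T ≤
      A * E * H ^ ((n : ℝ) - 3 / 2 + 1 / 100) / T ^ ((n : ℝ) - 3 / 2) := by
  have h5 : (5 : ℝ) ≤ n := by exact_mod_cast hn
  have hT0 : 0 < T := by linarith
  have hH1 : 1 ≤ H := hT.trans hH
  have hH0 : 0 < H := by linarith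
  have h1 : 1 ≤ H / T := (one_le_div hT0).2 hH
  have h2 : H / T ≤ (H / T) ^ ((n : ℝ) - 3 / 2) := by
    conv_lhs => rw [← Real.rpow_one (H / T)]
    exact Real.rpow_le_rpow_of_exponent_le h1 (by linarith)
  have h3 : H ^ ((n : ℝ) - 3 / 2) ≤ H ^ ((n : ℝ) - 3 / 2 + 1 / 100) :=
    Real.rpow_le_rpow_of_exponent_le hH1 (by linarith)
  rw [Real.div_rpow hH0.le hT0.le] at h2
  have h4 : 0 < T ^ ((n : ℝ) - 3 / 2) := Real.rpow_pos_of_pos hT0 _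
  calc A * H / T = A * 1 * (H / T) := by ring
    _ ≤ A * E * (H ^ ((n : ℝ) - 3 / 2) / T ^ ((n : ℝ) - 3 / 2)) := by gcongr
    _ ≤ A * E * (H ^ ((n : ℝ) - 3 / 2 + 1 / 100) / T ^ ((n : ℝ) - 3 / 2)) := by gcongr
    _ = _ := by ring

theorem wlthm_unit {k : ℤ[X]} (hk : k.IsPrimitive) (h0 : k.natDegree = 0) {M : ℕ} {r : ℤ}
    (h : (M : ℤ) ∣ k.eval r) : M = 1 := by
  obtain ⟨a, rfl⟩ := natDegree_eq_zero.1 h0
  rw [eval_C] at h
  have hu : IsUnit (M : ℤ) := hk _ (map_dvd C h)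
  have := Int.isUnit_iff_natAbs_eq.1 hu
  simpa using this

theorem thm_L (n : ℕ) (hn : 5 ≤ n) (K : ℕ) (hK : 1 ≤ K) (c μ₀ μ₁ : ℝ) (hc : 1 / 2 ≤ c) (hc1 : c ≤ 1)
    (hμ₁ : μ₁ ≤ muL n) (hμ : 1 - c < (1 - 3 * c / ((n : ℝ) - 1)) * μ₀)
    (S : ℝ → ℕ → ℤ → ℤ[X] → Prop)
    (hS : ∀ H M r f, S H M r f → Bad n f ∧ f.supNorm ≤ H ∧ Wk M r f)
    (hL : ∀ ε : ℝ, 0 < ε → ∃ C₀ : ℝ, 1 ≤ C₀ ∧ ∀ (H : ℝ) (M : ℕ) (r : ℤ), 1 ≤ H → 1 ≤ M →
      (M : ℝ) ≤ H ^ μ₁ → LLp n (K * H) H (C₀ * H ^ ε) c M r (S H M r)) :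
    PS n fun H f => ∃ (M : ℕ) (r : ℤ), Squarefree M ∧ H ^ μ₀ ≤ M ∧ (M : ℝ) ≤ H ^ μ₁ ∧ 0 ≤ r ∧
      r < M ∧ S H M r f := by
  have h5 : (5 : ℝ) ≤ n := by exact_mod_cast hn
  have hn1 : (0 : ℝ) < (n : ℝ) - 1 := by linarith
  obtain ⟨hm1, hm2, hm3, hm4⟩ := wlthm_muL n hn
  obtain ⟨ε, hε, hε1, hε2, hε3⟩ : ∃ ε : ℝ, 0 < ε ∧ ε ≤ 1 / 100 ∧
      ε + muL n / ((n : ℝ) - 1) < 1 / 2 ∧ ε + (1 - c) < (1 - 3 * c / ((n : ℝ) - 1)) * μ₀ := by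
    set a := 1 / 2 - muL n / ((n : ℝ) - 1) with ha
    set b := (1 - 3 * c / ((n : ℝ) - 1)) * μ₀ - (1 - c) with hb
    have ha0 : 0 < a := by linarith
    have hb0 : 0 < b := by linarith
    have l1 := min_le_left (1 / 100 : ℝ) (min (a / 2) (b / 2))
    have l2 := (min_le_right (1 / 100 : ℝ) (min (a / 2) (b / 2))).trans (min_le_left _ _)
    have l3 := (min_le_right (1 / 100 : ℝ) (min (a / 2) (b / 2))).trans (min_le_right _ _)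
    exact ⟨min (1 / 100) (min (a / 2) (b / 2)), by positivity, l1, by linarith, by linarith⟩
  obtain ⟨C₀, hC₀, hLL⟩ := hL ε hε
  obtain ⟨A, hA, hP⟩ := pair_cases n hn K
  obtain ⟨Ck, hCk, hk⟩ := exists_ker n
  choose! kf Nf hk using hk
  have hb0 : 0 ≤ 1 - 3 * c / ((n : ℝ) - 1) := by
    rw [sub_nonneg, div_le_one hn1]; linarith
  have hAC : 0 ≤ A * C₀ := by positivity
  have hA0 : 0 ≤ A := by linarith
  have hD : 1 ≤ 2 * n + 1 := by omega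
  have eτ : muL n * (2 / ((n : ℝ) - 1)) / 2 = muL n / ((n : ℝ) - 1) := by ring
  have p1 := ps_pow n (2 * n + 1) ((n : ℝ) - c + ε - (1 - 3 * c / ((n : ℝ) - 1)) * μ₀) (A * C₀)
    (by linarith) hAC S
  have p2 := ps_pow n (2 * n + 1) ((n : ℝ) - 3 / 2 + ε + 1 / ((n : ℝ) - 1) * muL n) (A * C₀)
    (by rw [one_div_mul_eq_div]; linarith) hAC S
  have p3 := ps_pow n (2 * n + 1) (1 - tau n + 2 * muL n) A hm4 hA0 S
  have p4 := ps_gen n (2 * n + 1) hn hD A hA0 Nf S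
  have p5 := ps_spec n (2 * n + 1) hn hD (A * C₀) ε (muL n * (2 / ((n : ℝ) - 1))) hAC hε.le
    (by have : 0 ≤ muL n := by linarith
        positivity) (by rw [eτ]; exact hε2) Nf S
  have p6 := ps_first n (2 * n + 1) hn hD (A * C₀) hAC Nf S
  have p7 := ps_second n (2 * n + 1) hn hD (16 ^ n) (one_le_pow₀ (by norm_num))
  refine (p1.or (p2.or (p3.or (p4.or (p5.or (p6.or p7)))))).mono Ck ?_
  rintro H hH f - ⟨M, r, hsq, hM0, hM1, hr0, hr1, hf⟩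
  have hH1 : 1 ≤ H := hCk.trans hH
  have hH0 : 0 < H := by linarith
  have hM : 1 ≤ M := Nat.pos_of_ne_zero hsq.ne_zero
  have hM' : (1 : ℝ) ≤ M := by exact_mod_cast hM
  have hML : (M : ℝ) ≤ H ^ muL n := hM1.trans (Real.rpow_le_rpow_of_exponent_le hH1 hμ₁)
  have hMD : (M : ℝ) ≤ H ^ (2 * n + 1) := by
    refine hML.trans ?_
    rw [← Real.rpow_natCast]
    refine Real.rpow_le_rpow_of_exponent_le hH1 ?_
    push_cast; linarith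
  have hE : 1 ≤ C₀ * H ^ ε := one_le_mul_of_one_le_of_one_le hC₀ (Real.one_le_rpow hH1 hε.le)
  have hK' : (1 : ℝ) ≤ K := by exact_mod_cast hK
  have hpl : ∀ f, S H M r f → Plus n (K * H) M r f := fun f hf => by
    obtain ⟨h1, h2, h3⟩ := hS _ _ _ _ hf
    exact ⟨h1.1, h1.2.1, h2.trans (le_mul_of_one_le_left hH0.le hK'), h3⟩
  have eH : ∀ a : ℝ, A * (C₀ * H ^ ε) * H ^ a = A * C₀ * H ^ (a + ε) := fun a => by
    rw [Real.rpow_add hH0]; ring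
  rcases hP H _ c M r (S H M r) hH1 hE hc hM hpl (hLL H M r hH1 hM hM1) with
    h | h | h | ⟨g, hg0, hg, hgH, h⟩
  · refine Or.inl ⟨M, r, hM, hMD, hr0, hr1, hf, h.mono (fun _ h => h) ?_⟩
    have := num_down H M ((n : ℝ) - c + ε) _ μ₀ hH1 hM' hb0 hM0
    have e : 3 * c / ((n : ℝ) - 1) - 3 = -(1 - 3 * c / ((n : ℝ) - 1)) - 2 := by ring
    rw [eH, e, mul_assoc, mul_div_assoc (A * C₀)]
    exact mul_le_mul_of_nonneg_left this hAC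
  · refine Or.inr (Or.inl ⟨M, r, hM, hMD, hr0, hr1, hf, h.mono (fun _ h => h) ?_⟩)
    have := num_up H M ((n : ℝ) - 3 / 2 + ε) (1 / ((n : ℝ) - 1)) _ hH1 hM' (by positivity) hML
    rw [eH, mul_assoc, mul_div_assoc]
    exact mul_le_mul_of_nonneg_left this hAC
  · refine Or.inr (Or.inr (Or.inl ⟨M, r, hM, hMD, hr0, hr1, hf, h.mono (fun _ h => h) ?_⟩))
    have := num_up H M (1 - tau n) 2 _ hH1 hM' (by norm_num) hML
    rw [sub_self, Real.rpow_zero, mul_one] at this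
    rw [mul_div_assoc]
    exact mul_le_mul_of_nonneg_left this hA0
  · refine Or.inr (Or.inr (Or.inr ?_))
    obtain ⟨hker, hN⟩ := hk g hg0 hg.1
    have hg1 := one_le_sup hg0
    have hND : (Nf g : ℝ) ≤ H ^ (2 * n + 1) := by
      refine hN.trans ?_
      rw [pow_succ, mul_comm]
      gcongr
    obtain ⟨M', r', h1, h2, h3, h4, h5', h6, h7, h8⟩ := ker_split hker hsq hg.2
    have tri : ∀ Y : ℝ, (M' : ℝ) ≤ Y → Tri (H ^ (2 * n + 1)) Y Nf M r g := fun Y hY =>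
      ⟨hsq, hMD, hr0, hr1, hg.2, hker.2.2.2.1, hND, M', h1, hY, h3⟩
    rcases Nat.eq_zero_or_pos (kf g).natDegree with h0 | h0
    · have hY : (M' : ℝ) ≤ 1 := by rw [wlthm_unit hker.1 h0 h7, Nat.cast_one]
      rcases h with ⟨ha, hb⟩ | ⟨ha, hb, hc'⟩
      · exact Or.inl ⟨M, r, g, hg0, hg.1, ha, tri 1 hY, hf, hb⟩
      · refine Or.inr (Or.inl ⟨M, r, g, hg0, hg.1, ha, hb.trans ?_, tri 1 hY, hf, ?_⟩)
        · rw [Real.rpow_mul hH0.le]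
          exact Real.rpow_le_rpow (by linarith) hML (by positivity)
        · rwa [eH] at hc'
    · refine Or.inr (Or.inr ?_)
      by_cases hY : (M' : ℝ) ≤
          H ^ (12 / 25 : ℝ) * (kf g).supNorm ^ (2 * n - 4 - (kf g).natDegree)
      · refine Or.inl ⟨M, r, g, kf g, hg0, hg.1, hgH, hker.1, h0, hker.2.2.1, tri _ hY, hf, ?_⟩
        rcases h with ⟨-, hb⟩ | ⟨-, -, hc'⟩
        · exact hb.mono (fun _ h => h) (wlthm_line n hn A C₀ H _ hA0 hC₀ hg1 hgH)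
        · refine hc'.mono (fun _ h => h) ?_
          rw [eH]
          have : H ^ ((n : ℝ) - 3 / 2 + ε) ≤ H ^ ((n : ℝ) - 3 / 2 + 1 / 100) :=
            Real.rpow_le_rpow_of_exponent_le hH1 (by linarith)
          gcongr
      · obtain ⟨hbad, -, hw⟩ := hS _ _ _ _ hf
        have hdeg := natDegree_le_of_dvd hker.2.2.1 hg0
        rw [natDegree_pow] at hdeg
        refine Or.inr ⟨hbad, kf g, M', r', hker.1, hker.2.1, h0, by have := hg.1; omega, ?_,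
          hsq.squarefree_of_dvd h2, ?_, h4, h5', h7, h8, (not_le.1 hY).le,
          wk_of_mod h6 (wk_of_dvd h2 hw)⟩
        · refine (sq_sup_le_of_dvd hg0 hg.1.le hker.2.2.1).trans ?_
          gcongr
        · exact le_trans (by exact_mod_cast Nat.le_of_dvd hM h2) hMD

theorem lat_A (n : ℕ) (hn : 5 ≤ n) (δ : ℝ) (hδ : 0 < δ) : PS n fun H f => Bad n f ∧
    ∃ (M : ℕ) (r : ℤ), Squarefree M ∧ H ^ δ < M ∧ (M : ℝ) ≤ H ^ (9 / 10 : ℝ) ∧ WkIn M f ∧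
      Wk M r f := by
  have h5 : (5 : ℝ) ≤ n := by exact_mod_cast hn
  have hn1 : (0 : ℝ) < (n : ℝ) - 1 := by linarith
  obtain ⟨K, hK, hL⟩ := llp_zero n hn
  have hb : 0 < 1 - 3 * 1 / ((n : ℝ) - 1) := by
    rw [sub_pos, div_lt_one hn1]; linarith
  refine (thm_L n hn K hK 1 δ (9 / 10) (by norm_num) le_rfl
    (by linarith [(wlthm_muL n hn).1]) (by rw [sub_self]; positivity)
    (fun H M r f => Bad n f ∧ f.supNorm ≤ H ∧ Wk M r f ∧ WkIn M f)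
    (fun _ _ _ _ h => ⟨h.1, h.2.1, h.2.2.1⟩) fun ε hε => ?_).mono 1 ?_
  · obtain ⟨C₀, hC, h⟩ := hL ε hε
    refine ⟨C₀, hC, fun H M r hH hM hM1 => h H M r hH hM (hM1.trans ?_)⟩
    conv_rhs => rw [← Real.rpow_one H]
    exact Real.rpow_le_rpow_of_exponent_le hH (by norm_num)
  · rintro H - f hf ⟨hbad, M, r, hsq, h1, h2, h3, h4⟩
    obtain ⟨r', hr0, hr1, hr⟩ := exists_res M (Nat.pos_of_ne_zero hsq.ne_zero) r
    exact ⟨M, r', hsq, h1.le, h2, hr0, hr1, hbad, hf.2.2.2, wk_of_mod hr h4, h3⟩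

theorem lat_B (n : ℕ) (hn : 5 ≤ n) : PS n fun H f => Bad n f ∧
    ∃ (M : ℕ) (r : ℤ), Squarefree M ∧ H ^ (9 / 10 : ℝ) < M ∧ (M : ℝ) ≤ H ^ muL n ∧ Wk M r f := by
  have h5 : (5 : ℝ) ≤ n := by exact_mod_cast hn
  have hn1 : (0 : ℝ) < (n : ℝ) - 1 := by linarith
  obtain ⟨K, hK, hL⟩ := llp_half n hn
  have hb : 3 * (1 / 2) / ((n : ℝ) - 1) ≤ 3 / 8 := by
    rw [div_le_iff₀ hn1]; linarith
  refine (thm_L n hn K hK (1 / 2) (9 / 10) (muL n) le_rfl (by norm_num) le_rfl (by linarith)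
    (fun H M r f => Bad n f ∧ f.supNorm ≤ H ∧ Wk M r f) (fun _ _ _ _ h => h)
    fun ε hε => ?_).mono 1 ?_
  · obtain ⟨C₀, hC, h⟩ := hL ε hε
    exact ⟨C₀, hC, fun H M r hH _ _ => h H M r hH⟩
  · rintro H - f hf ⟨hbad, M, r, hsq, h1, h2, h4⟩
    obtain ⟨r', hr0, hr1, hr⟩ := exists_res M (Nat.pos_of_ne_zero hsq.ne_zero) r
    exact ⟨M, r', hsq, h1.le, h2, hr0, hr1, hbad, hf.2.2.2, wk_of_mod hr h4⟩

end Pool.Agent.VW.Lat
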