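import Pool.Agent.P.MP_b0ea37_nt.WLThm

namespace Pool.Agent.VW

open Polynomial

/-- section 3, range A -/
theorem ps_latA (n : ℕ) (hn : 5 ≤ n) (δ : ℝ) (hδ : 0 < δ) : PS n fun H f => Bad n f ∧
    ∃ (M : ℕ) (r : ℤ), Squarefree M ∧ H ^ δ < M ∧ (M : ℝ) ≤ H ^ (9 / 10 : ℝ) ∧ WkIn M f ∧
      Wk M r f := Lat.lat_A n hn δ hδ

/-- section 3, range B -/
theorem ps_latB (n : ℕ) (hn : 5 ≤ n) : PS n fun H f => Bad n f ∧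
    ∃ (M : ℕ) (r : ℤ), Squarefree M ∧ H ^ (9 / 10 : ℝ) < M ∧ (M : ℝ) ≤ H ^ muL n ∧ Wk M r f :=
  Lat.lat_B n hn

end Pool.Agent.VW
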