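import Pool.Agent.P.MP_b0ea37_nt.WDefs

namespace Pool.Agent.VW

open Polynomial

/-- `Y ^ k * g (t + c / Y)` -/
noncomputable def Tw (k : ℕ) (t c : ℤ) (g : ℤ[X]) : ℤ[X] :=
  ∑ i ∈ Finset.range (k + 1), C ((taylor t g).coeff i * c ^ i) * X ^ (k - i)

/-- the monic polynomial `Y ^ d * v (t + c / Y) / c` with `c = v t` -/
noncomputable def VV (d : ℕ) (t : ℤ) (v : ℤ[X]) : ℤ[X] :=
  X ^ d + ∑ i ∈ Finset.range d, C ((taylor t v).coeff (i + 1) * v.eval t ^ i) * X ^ (d - 1 - i)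

/-- `v t` divides `d!` in the localisation at `p` -/
def GoodT (d p : ℕ) (v : ℤ[X]) (t : ℤ) : Prop :=
  0 ≤ t ∧ t ≤ d ∧ ∃ N : ℤ, ¬ (p : ℤ) ∣ N ∧ v.eval t ∣ N * d.factorial

noncomputable def tt (d p : ℕ) (v : ℤ[X]) : ℤ := Classical.epsilon (GoodT d p v)

noncomputable def cc (d p : ℕ) (v : ℤ[X]) : ℤ := v.eval (tt d p v)

noncomputable def Vp (d p : ℕ) (v : ℤ[X]) : ℤ[X] := VV d (tt d p v) v

/-- the local generator at a root `z` of `v` -/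
noncomputable def zt (d p : ℕ) (v : ℤ[X]) (z : ℂ) : ℂ := (cc d p v : ℂ) / (z - (tt d p v : ℂ))

/-- a function on the roots of `v` that lies in the local ring at `p` -/
def InR (d p : ℕ) (v : ℤ[X]) (φ : ℂ → ℂ) : Prop :=
  ∃ (N : ℤ) (g : ℤ[X]), ¬ (p : ℤ) ∣ N ∧
    ∀ z : ℂ, aeval z v = 0 → (N : ℂ) * φ z = aeval (zt d p v z) g

def VOk (d : ℕ) (v : ℤ[X]) : Prop :=
  v.natDegree = d ∧ v.IsPrimitive ∧ 0 < v.leadingCoeff ∧ (up ℂ v).Separable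

structure Dat where
  f : ℤ[X]
  v : ℤ[X]
  P : ℕ
  r : ℤ

def Ok (n d : ℕ) (D : Dat) : Prop :=
  VOk d D.v ∧ D.f.Monic ∧ D.f.natDegree = n ∧ D.P.Prime ∧ d < D.P ∧ (D.P : ℤ) ∣ D.v.eval D.r ∧
    ¬ (D.P : ℤ) ^ 2 ∣ D.v.eval D.r ∧ Wk D.P D.r D.f ∧
    ∀ z : ℂ, aeval z D.v = 0 → aeval z D.f ≠ 0

noncomputable def piP (d p : ℕ) (D : Dat) : ℤ[X] :=
  if p = D.P then C (cc d p D.v) + C (tt d p D.v - D.r) * X else 1

noncomputable def pz (d p : ℕ) (D : Dat) (z : ℂ) : ℂ := aeval (zt d p D.v z) (piP d p D)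

noncomputable def FF (n d p : ℕ) (D : Dat) : ℤ[X] := Tw n (tt d p D.v) (cc d p D.v) D.f

/-- same preclass -/
def Pre (d : ℕ) (D D' : Dat) : Prop :=
  D.v = D'.v ∧ ∀ p : ℕ, p.Prime →
    InR d p D.v (fun z => aeval z D.f * pz d p D' z ^ 2 / (aeval z D'.f * pz d p D z ^ 2)) ∧
    InR d p D.v (fun z => aeval z D'.f * pz d p D z ^ 2 / (aeval z D.f * pz d p D' z ^ 2))

/-- same square class -/
def Sq (d : ℕ) (D D' : Dat) (κ : ℂ → ℂ) : Prop :=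
  D.v = D'.v ∧ (∀ z : ℂ, aeval z D.v = 0 → aeval z D'.f = κ z ^ 2 * aeval z D.f) ∧
    ∀ p : ℕ, p.Prime → InR d p D.v (fun z => κ z * pz d p D z / pz d p D' z) ∧
      InR d p D.v (fun z => pz d p D' z / (κ z * pz d p D z))

/-- same square class, with a square root close to one -/
def Sq1 (d : ℕ) (D D' : Dat) : Prop :=
  ∃ κ : ℂ → ℂ, Sq d D D' κ ∧ ∀ z : ℂ, aeval z D.v = 0 → ‖κ z - 1‖ ≤ 1 / 10

/-- associated in the localisation at `p` of `ℤ[Y] / (V)` -/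
def Asc (p : ℕ) (V u u' : ℤ[X]) : Prop :=
  (∃ (N : ℤ) (w : ℤ[X]), ¬ (p : ℤ) ∣ N ∧ V ∣ C N * u' - w * u) ∧
    ∃ (N : ℤ) (w : ℤ[X]), ¬ (p : ℤ) ∣ N ∧ V ∣ C N * u - w * u'

/-- a multiple of all the discriminants that occur -/
noncomputable def Nv (d : ℕ) (v : ℤ[X]) : ℕ :=
  ∏ t ∈ (Finset.range (d + 1)).filter (fun t : ℕ => v.eval (t : ℤ) ≠ 0),
    (resultant (VV d t v) (derivative (VV d t v)) d (d - 1)).natAbs

/-- bound for the number of preclasses -/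
noncomputable def wtM (K : ℝ) (A k N b : ℕ) : ℝ :=
  ∏ p ∈ b.primeFactors,
    if p ∣ N then K * (p : ℝ) ^ b.factorization p else ((A : ℝ) * b.factorization p + 1) ^ k

/-- `η` lists the roots of `v` -/
def Lst {d : ℕ} (v : ℤ[X]) (η : Fin d → ℂ) : Prop :=
  up ℂ v = C (v.leadingCoeff : ℂ) * ∏ k, (X - C (η k))

/-- the local basis -/
noncomputable def Eloc (d g p : ℕ) (D₀ D : Dat) (η : Fin d → ℂ) : Matrix (Fin d) (Fin d) ℂ :=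
  Matrix.of fun a k => pz d p D₀ (η k) / pz d p D (η k) * zt d p D.v (η k) ^ (a : ℕ) /
    zt d p D.v (η k) ^ g

/-- the rows of `E` span the lattice with the given localisations -/
def Glued {d : ℕ} (Ep : ℕ → Matrix (Fin d) (Fin d) ℂ) (E : Matrix (Fin d) (Fin d) ℂ) : Prop :=
  ∀ p : ℕ, p.Prime → ∃ (N : ℤ) (U U' : Matrix (Fin d) (Fin d) ℤ), ¬ (p : ℤ) ∣ N ∧
    (N : ℂ) • E = U.map (Int.cast : ℤ → ℂ) * Ep p ∧ (N : ℂ) • Ep p = U'.map (Int.cast : ℤ → ℂ) * E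

noncomputable def alf {d : ℕ} (D₀ D : Dat) (η : Fin d → ℂ) (k : Fin d) : ℂ :=
  aeval (η k) D.f / (aeval (η k) D₀.f * aeval (η k) (derivative D.v))

/-- `A`, `B` are diagonal in the coordinates `E` -/
def Gr {d : ℕ} (E : Matrix (Fin d) (Fin d) ℂ) (al η : Fin d → ℂ)
    (A B : Matrix (Fin d) (Fin d) ℤ) : Prop :=
  (∀ a b, (A a b : ℂ) = ∑ k, al k * E a k * E b k) ∧
    ∀ a b, (B a b : ℂ) = ∑ k, al k * η k * E a k * E b k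

/-- the type of the roots of `f` with respect to `v` -/
def Ty {n : ℕ} (d : ℕ) (T : ℝ) (s : Equiv.Perm (Fin n)) (a b : Fin n → ℕ) (f v : ℤ[X])
    (θ : Fin n → ℂ) : Prop :=
  Roots (up ℂ f) θ ∧ ∀ i, θ (s i) = starRingEnd ℂ (θ i) ∧ (2 : ℝ) ^ a i ≤ max 1 ‖θ i‖ ∧
    ‖θ i‖ ≤ 2 * 2 ^ a i ∧ T * (2 ^ a i) ^ d / 2 ^ b i ≤ ‖aeval (θ i) v‖ ∧
    ‖aeval (θ i) v‖ ≤ (d + 1) * 2 ^ (d + 1) * (T * (2 ^ a i) ^ d / 2 ^ b i)

end Pool.Agent.VW
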