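import Pool.Agent.P.MP_b0ea37_nt.WMDefs
import Pool.Agent.P.MP_b0ea37_nt.WMD2

namespace Pool.Agent.VW

open Polynomial

/-- bound for one part -/
noncomputable def mu (j : ℕ) (H Sg om : ℝ) : ℝ :=
  1 + Sg ^ j / √om + if j = 2 then Sg + Sg ^ 4 / H else 0

/-- the exceptional case of the multiplicity bound -/
def Exc (n j : ℕ) (K H T om : ℝ) (f : ℤ[X]) : Prop :=
  CC (K * om) f ∧ (j = 1 → CW n (K * om) (2 * T) (K * √om * T) (K * om * T ^ 2 / H) f)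

/-- the data that are counted -/
def Fam (n d j : ℕ) (K H T P₀ om : ℝ) (D : Dat) : Prop :=
  Ok n d D ∧ Irr D.f ∧ NQ D.f ∧ Box n H D.f ∧ T ≤ D.v.supNorm ∧ D.v.supNorm ≤ 2 * T ∧
    P₀ ≤ D.P ∧ ¬ Exc n j K H T om D.f

/-- the exceptional polynomials -/
def Exq (n : ℕ) (δ A H : ℝ) (f : ℤ[X]) : Prop :=
  CC (A * H ^ δ) f ∨ (Irr f ∧ ∃ G Xm : ℝ, 1 ≤ G ∧ G ≤ A * H ^ (((n : ℝ) - 1) / 2 - muL n) ∧
    0 ≤ Xm ∧ Xm ^ (n - 1) * G ≤ A * H ^ (((n : ℝ) - 1) / 2) ∧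
    CW n (A * (H ^ δ * G ^ 2)) Xm (A * (H ^ (δ / 2) * G) * Xm)
      (A * (H ^ δ * G ^ 2) * Xm ^ 2 / H) f)

theorem CC.mono {om om' : ℝ} {f : ℤ[X]} (h : CC om f) (e : om ≤ om') : CC om' f := by
  obtain ⟨c, h1, h2, h3, h4⟩ := h
  exact ⟨c, h1, h2, h3.trans e, h4⟩

theorem CW.mono' {n : ℕ} {a b c e a' b' c' e' : ℝ} {f : ℤ[X]} (h : CW n a b c e f) (ha : a ≤ a')
    (hb : b ≤ b') (hc : c ≤ c') (he : e ≤ e') : CW n a' b' c' e' f := by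
  obtain ⟨E, k, v, w, h1, h2, h3, h4, h5, h6, h7, h8, h9, h10, h11⟩ := h
  exact ⟨E, k, v, w, h1, h2, h3, h4, h5, h6, h7, h8.trans ha, h9.trans hb, h10.trans hc,
    h11.trans he⟩

theorem Exc.mono {n j : ℕ} {K K' H T om : ℝ} {f : ℤ[X]} (h : Exc n j K H T om f) (hK : K ≤ K')
    (hH : 0 ≤ H) (hT : 0 ≤ T) (hom : 0 ≤ om) : Exc n j K' H T om f :=
  ⟨h.1.mono (by gcongr), fun hj => (h.2 hj).mono' (by gcongr) le_rfl (by gcongr) (by gcongr)⟩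

theorem Fam.mono {n d j : ℕ} {K K' H T P₀ om : ℝ} {D : Dat} (h : Fam n d j K' H T P₀ om D)
    (hK : K ≤ K') (hH : 0 ≤ H) (hT : 0 ≤ T) (hom : 0 ≤ om) : Fam n d j K H T P₀ om D := by
  obtain ⟨h1, h2, h3, h4, h5, h6, h7, h8⟩ := h
  exact ⟨h1, h2, h3, h4, h5, h6, h7, fun h => h8 (h.mono hK hH hT hom)⟩

theorem ArchZ.mono {n d : ℕ} {v f f' : ℤ[X]} {a L a' L' : ℝ} (h : ArchZ n d v f f' a L)
    (ha : a ≤ a') (hL : L ≤ L') : ArchZ n d v f f' a' L' := by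
  intro c G E hc h1 h2
  have hc' : (0 : ℝ) ≤ c := by exact_mod_cast hc.le
  obtain ⟨h3, h4⟩ := h c G E hc h1 h2
  exact ⟨fun a b => (h3 a b).trans (by gcongr), fun a => (h4 a).trans (by gcongr)⟩

theorem one_le_mu (j : ℕ) {H Sg om : ℝ} (hH : 0 ≤ H) (hS : 0 ≤ Sg) : 1 ≤ mu j H Sg om := by
  unfold mu
  have h1 : 0 ≤ Sg ^ j / √om := by positivity
  have h2 : 0 ≤ Sg + Sg ^ 4 / H := by positivity
  split_ifs <;> linarith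

theorem mu_mul_le {j : ℕ} (hj : j ≤ 4) {H Sg om A : ℝ} (hH : 0 ≤ H) (hS : 0 ≤ Sg) (hA : 1 ≤ A) :
    mu j H (A * Sg) om ≤ A ^ 4 * mu j H Sg om := by
  unfold mu
  have h0 : 1 ≤ A ^ 4 := one_le_pow₀ hA
  have h1 : A ^ j ≤ A ^ 4 := pow_le_pow_right₀ hA hj
  have h2 : A ≤ A ^ 4 := by simpa using pow_le_pow_right₀ hA (show 1 ≤ 4 by norm_num)
  have h3 : (A * Sg) ^ j / √om ≤ A ^ 4 * (Sg ^ j / √om) := by
    rw [mul_pow, mul_div_assoc]; gcongr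
  have h4 : A * Sg ≤ A ^ 4 * Sg := by gcongr
  have h5 : (A * Sg) ^ 4 / H = A ^ 4 * (Sg ^ 4 / H) := by rw [mul_pow, mul_div_assoc]
  split_ifs <;> nlinarith

end Pool.Agent.VW
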