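import Pool.Agent.P.MP_b0ea37_nt.WHt
import Pool.Agent.P.MP_b0ea37_nt.WCnt

namespace Pool.Agent.VW

open Polynomial

/-- `-c` is a square modulo `f` for a small squarefree `c` of degree one or two -/
def CC (om : ℝ) (f : ℤ[X]) : Prop :=
  ∃ c : ℤ[X], (c.natDegree = 1 ∨ c.natDegree = 2) ∧ Squarefree (up ℚ c) ∧ c.supNorm ≤ om ∧
    ∃ q : ℚ[X], up ℚ f ∣ q ^ 2 + up ℚ c

/-- the window equation with its four size bounds -/
def CW (n : ℕ) (Tw Xm Tk E0 : ℝ) (f : ℤ[X]) : Prop :=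
  ∃ E k v w : ℤ[X], f * E = k ^ 2 + v ^ 2 * w ∧ v ≠ 0 ∧ E.natDegree + 2 ≤ n ∧ k.natDegree < n ∧
    v.natDegree < n ∧ (w.natDegree = 1 ∨ w.natDegree = 2) ∧ Squarefree (up ℚ w) ∧
    w.supNorm ≤ Tw ∧ v.supNorm ≤ Xm ∧ k.supNorm ≤ Tk ∧ E.supNorm ≤ E0

/-- pairs of integral forms that are diagonal in the same complex coordinates -/
def Adm {d : ℕ} (Y : ℝ) (A B : Matrix (Fin d) (Fin d) ℤ) : Prop :=
  ∃ (E : Matrix (Fin d) (Fin d) ℂ) (al η : Fin d → ℂ) (s : Equiv.Perm (Fin d)),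
    Function.Injective η ∧ A.det ≠ 0 ∧
    (∀ k, η (s k) = starRingEnd ℂ (η k) ∧ al (s k) = starRingEnd ℂ (al k) ∧
      ∀ a, E a (s k) = starRingEnd ℂ (E a k)) ∧
    (∀ a b, (A a b : ℂ) = ∑ k, al k * E a k * E b k) ∧
    (∀ a b, (B a b : ℂ) = ∑ k, al k * η k * E a k * E b k) ∧
    |(A.det : ℝ)| * ∏ k, max 1 ‖η k‖ ≤ Y

/-- a square root of a rational number in the field of `f` is rational -/
def NQ (f : ℤ[X]) : Prop :=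
  ∀ (g : ℚ[X]) (a : ℚ), up ℚ f ∣ g ^ 2 - C a → ∃ b : ℚ, up ℚ f ∣ g - C b

/-- `G / c` is the square root of `f * f'` modulo `v ^ 2` that is close to `f` at the roots
of `v` -/
def NR (v : ℤ[X]) (c : ℤ) (f f' G : ℤ[X]) : Prop :=
  v ^ 2 ∣ G ^ 2 - C (c ^ 2) * f * f' ∧
    ∀ z : ℂ, aeval z v = 0 → ‖aeval z G - c * aeval z f‖ ≤ c * ‖aeval z f‖ / 10

/-- `f'` is close to `f` at the roots of `v` -/
def Cl (v f f' : ℤ[X]) : Prop :=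
  ∀ z : ℂ, aeval z v = 0 → aeval z f ≠ 0 ∧ ‖aeval z f' - aeval z f‖ ≤ ‖aeval z f‖ / 100

/-- the two archimedean bounds for `f + f' - 2 √(f f')` modulo `v ^ 2` -/
def ArchZ (n d : ℕ) (v f f' : ℤ[X]) (a L : ℝ) : Prop :=
  ∀ (c : ℤ) (G E : ℤ[X]), 0 < c → NR v c f f' G → v ^ 2 ∣ C c * (f + f') - 2 * G - E →
    (n - 1 ≤ E.natDegree → E.natDegree < 2 * d →
      |(E.leadingCoeff : ℝ)| ≤ c * a * (v.leadingCoeff : ℝ) ^ 2) ∧
    (E.natDegree + 2 ≤ n → E.supNorm ≤ c * L)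

end Pool.Agent.VW
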