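import Pool.Agent.P.MP_b0ea37_nt.WMaP

namespace Pool.Agent.VW

open Polynomial

/-- passage to the coordinate `1 / (x - t)` -/
theorem arch_alg {n d : ℕ} (hd : 1 ≤ d) (hn : n ≤ 2 * d) (t v0 : ℂ) (η : Fin d → ℂ)
    (hη : ∀ k, η k - t ≠ 0) (θ θ' : Fin n → ℂ) (g E G Ξ : ℂ[X])
    (hG : (∏ k, (X - C (η k - t)⁻¹)) ^ 2 ∣
      G ^ 2 - (∏ i, (1 + C (t - θ i) * X)) * ∏ i, (1 + C (t - θ' i) * X))
    (hU : ∀ k, 0 < (G.eval (η k - t)⁻¹ / (∏ i, (1 + C (t - θ i) * X)).eval (η k - t)⁻¹).re)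
    (hΞ : (∏ i, (1 + C (t - θ i) * X)) + (∏ i, (1 + C (t - θ' i) * X)) - 2 * G = X ^ 2 * Ξ)
    (hg : (C v0 * ∏ k, (X - C (η k))) ^ 2 ∣
      g ^ 2 - (∏ i, (X - C (θ i))) * ∏ i, (X - C (θ' i)))
    (hs : ∀ k, 0 < (g.eval (η k) / (∏ i, (X - C (θ i))).eval (η k)).re)
    (hE : (C v0 * ∏ k, (X - C (η k))) ^ 2 ∣
      E - ((∏ i, (X - C (θ i))) + (∏ i, (X - C (θ' i))) - 2 * g))
    (hdeg : E.natDegree < 2 * d) :
    (∏ k, (X - C (η k - t)⁻¹)) ^ 2 ∣
      X ^ (2 * d + 1 - n) * Ξ - reflect (2 * d - 1) (taylor t E) := by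
  set ζ : Fin d → ℂ := fun k => (η k - t)⁻¹ with hζ
  have hζ0 : ∀ k, ζ k ≠ 0 := fun k => inv_ne_zero (hη k)
  have hunit := unit_of_eval ζ
  set W := (∏ k, (X - C (ζ k))) ^ 2 with hW
  have hy : IsUnit (AdjoinRoot.mk W X) := hunit X (by simpa using hζ0)
  obtain ⟨u, hu⟩ := hy.exists_right_inv
  set y := AdjoinRoot.mk W X with hyd
  let σ : ℂ[X] →ₐ[ℂ] AdjoinRoot W := aeval (u + algebraMap ℂ _ t)
  have hC : ∀ a : ℂ, AdjoinRoot.mk W (C a) = algebraMap ℂ _ a := fun _ => rfl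
  have hF : ∀ {N : ℕ} (a : Fin N → ℂ), y ^ N * σ (∏ i, (X - C (a i)))
      = AdjoinRoot.mk W (∏ i, (1 + C (t - a i) * X)) := fun {N} a => by
    rw [map_prod, map_prod, show y ^ N = ∏ _i : Fin N, y by simp, ← Finset.prod_mul_distrib]
    refine Finset.prod_congr rfl fun i _ => ?_
    simp only [σ, map_sub, aeval_X, aeval_C, map_add, map_one, map_mul, hC, ← hyd]
    linear_combination hu
  have hv : σ ((C v0 * ∏ k, (X - C (η k))) ^ 2) = 0 := by
    have h1 : ∏ k, (1 + C (t - η k) * X) = (∏ k, C (t - η k)) * ∏ k, (X - C (ζ k)) := by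
      rw [← Finset.prod_mul_distrib]
      refine Finset.prod_congr rfl fun k _ => ?_
      have : C (η k - t) * C (ζ k) = (1 : ℂ[X]) := by
        rw [← C_mul, hζ, mul_inv_cancel₀ (hη k), C_1]
      simp only [C_sub] at this ⊢
      linear_combination -this
    have h2 : (y ^ d) ^ 2 * σ (∏ k, (X - C (η k))) ^ 2 = 0 := by
      rw [← mul_pow, hF, h1, ← map_pow, mul_pow, ← hW, map_mul, AdjoinRoot.mk_self, mul_zero]
    have h3 := ((hy.pow d).pow 2).mul_right_eq_zero.1 h2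
    rw [map_pow, map_mul, mul_pow, h3, mul_zero]
  have hz : ∀ p : ℂ[X], (C v0 * ∏ k, (X - C (η k))) ^ 2 ∣ p → σ p = 0 := by
    rintro _ ⟨q, rfl⟩
    rw [map_mul, hv, zero_mul]
  have hg' := hz _ hg
  have hE' := hz _ hE
  rw [map_sub, map_pow, map_mul] at hg'
  rw [map_sub, map_sub, map_add, map_mul, map_ofNat] at hE'
  have hG' := AdjoinRoot.mk_eq_zero.2 hG
  rw [map_sub, map_pow, map_mul, ← hF, ← hF] at hG'
  obtain ⟨G', hG1⟩ := AdjoinRoot.mk_surjective (y ^ n * σ g)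
  have hplus : IsUnit (AdjoinRoot.mk W (G + G')) := hunit _ fun k => by
    have h0 : W.eval₂ (Algebra.ofId ℂ ℂ) (ζ k) = 0 := by
      change W.eval₂ (RingHom.id ℂ) (ζ k) = 0
      rw [eval₂_id, hW, eval_pow, eval_prod,
        Finset.prod_eq_zero (Finset.mem_univ k) (by simp), zero_pow two_ne_zero]
    let φ := AdjoinRoot.liftAlgHom W (Algebra.ofId ℂ ℂ) (ζ k) h0
    have hφ : ∀ p, φ (AdjoinRoot.mk W p) = p.eval (ζ k) := fun p => rfl
    have hφy : φ y = ζ k := by rw [hyd, hφ, eval_X]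
    have hφu : φ u = η k - t := by
      have := congrArg φ hu
      rw [map_mul, map_one, hφy] at this
      rw [eq_inv_of_mul_eq_one_right this, hζ, inv_inv]
    have hφσ : ∀ p, φ (σ p) = p.eval (η k) := fun p => by
      rw [← aeval_algHom_apply, map_add, hφu, AlgHom.commutes]; simp
    have e1 := congrArg φ hG1
    have e2 := congrArg φ (hF θ)
    rw [hφ, map_mul, map_pow, hφy, hφσ] at e1
    rw [hφ, map_mul, map_pow, hφy, hφσ] at e2
    have h1 := hU k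
    have h2 := hs k
    rw [← mul_div_mul_left _ _ (pow_ne_zero n (hζ0 k)), ← e1, e2] at h2
    intro h3
    have h4 := add_pos h1 h2
    rw [← Complex.add_re, ← add_div, ← eval_add, h3, zero_div] at h4
    simp at h4
  have hGG : AdjoinRoot.mk W G = y ^ n * σ g := by
    rw [map_add, hG1] at hplus
    refine sub_eq_zero.1 (hplus.mul_right_eq_zero.1 ?_)
    linear_combination hG' - (y ^ n) ^ 2 * hg'
  have hΞ' := congrArg (AdjoinRoot.mk W) hΞ
  rw [map_sub, map_add, map_mul, map_ofNat, ← hF, ← hF, hGG, map_mul, map_pow, ← hyd] at hΞ'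
  have hP : AdjoinRoot.mk W (reflect (2 * d - 1) (taylor t E)) = y ^ (2 * d - 1) * σ E := by
    let _i : Invertible u := ⟨y, hu, by rw [mul_comm, hu]⟩
    have h1 := eval₂_reflect_mul_pow (algebraMap ℂ (AdjoinRoot W)) u (2 * d - 1) (taylor t E)
      (by rw [natDegree_taylor]; omega)
    have h2 : eval₂ (algebraMap ℂ (AdjoinRoot W)) u (taylor t E) = σ E := by
      rw [← aeval_def, taylor_apply, aeval_comp]; simp [σ]
    have h3 : eval₂ (algebraMap ℂ (AdjoinRoot W)) (⅟u) (reflect (2 * d - 1) (taylor t E))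
        = AdjoinRoot.mk W (reflect (2 * d - 1) (taylor t E)) := by
      rw [← aeval_def, ← AdjoinRoot.aeval_eq]; rfl
    rw [h2, h3] at h1
    rw [← h1, mul_left_comm, ← mul_pow, hu, one_pow, mul_one]
  rw [← AdjoinRoot.mk_eq_mk, hP, map_mul, map_pow, ← hyd]
  refine (hy.pow n).mul_left_cancel ?_
  have e3 : y ^ n * y ^ (2 * d + 1 - n) = y ^ (2 * d - 1) * y ^ 2 := by
    rw [← pow_add, ← pow_add]; congr 1; omega
  linear_combination AdjoinRoot.mk W Ξ * e3 - y ^ (2 * d - 1) * hΞ'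
    - y ^ (2 * d - 1) * y ^ n * hE'

/-- sizes read off from the congruence -/
theorem arch_end {n d : ℕ} (hn : n ≤ 2 * d) {V : ℂ[X]} (hV : Near d V) (h0 : V.coeff 0 ≠ 0)
    (T Ξ : ℂ[X]) (hT : T.natDegree < 2 * d)
    (h : V ^ 2 ∣ X ^ (2 * d + 1 - n) * Ξ - reflect (2 * d - 1) T) :
    n1 T ≤ 4 * n1 Ξ ∧
      (n ≤ T.natDegree + 1 → ‖T.leadingCoeff‖ ≤ 4 * n1 Ξ * ‖V.coeff 0‖ ^ 2) := by
  obtain ⟨Q, hQ⟩ := h
  have hP : (reflect (2 * d - 1) T).natDegree < 2 * d :=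
    natDegree_reflect_le.trans_lt (max_lt (by omega) hT)
  obtain ⟨h1, h2⟩ := hV.two _ Q hP
  rw [← hQ, add_sub_cancel, n1_X_pow_mul] at h1 h2
  refine ⟨le_trans ?_ h1, fun he => ?_⟩
  · simpa using n1_reflect_le (2 * d - 1) (reflect (2 * d - 1) T)
  set j := 2 * d - 1 - T.natDegree with hj
  have a1 : X ^ j ∣ reflect (2 * d - 1) T := X_pow_dvd_iff.2 fun i hi => by
    rw [coeff_reflect, revAt_le (by omega)]
    exact coeff_eq_zero_of_natDegree_lt (by omega)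
  have a2 : X ^ j ∣ V ^ 2 * Q :=
    hQ ▸ dvd_sub ((pow_dvd_pow X (by omega)).mul_right _) a1
  have a3 : IsCoprime (X ^ j : ℂ[X]) (V ^ 2) :=
    (irreducible_X.coprime_iff_not_dvd.2 fun hx => h0 (X_dvd_iff.1 hx)).pow
  obtain ⟨Q1, rfl⟩ := a3.dvd_of_dvd_mul_left a2
  have a4 := congrArg (fun p => p.coeff j) hQ
  simp only [coeff_sub] at a4
  rw [coeff_X_pow_mul', if_neg (by omega), coeff_reflect, revAt_le (by omega),
    show 2 * d - 1 - j = T.natDegree by omega, mul_left_comm, coeff_X_pow_mul', if_pos le_rfl,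
    Nat.sub_self, mul_coeff_zero, sq, mul_coeff_zero, zero_sub, coeff_natDegree] at a4
  rw [n1_X_pow_mul] at h2
  rw [← norm_neg, a4, norm_mul, norm_mul, ← sq, mul_comm]
  exact mul_le_mul_of_nonneg_right ((coeff_le_n1 _ _).trans h2) (by positivity)

end Pool.Agent.VW
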