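import Pool.Agent.P.MP_b0ea37_nt.WMaF
import Pool.Agent.P.MP_b0ea37_nt.WMaC

namespace Pool.Agent.VW

open Polynomial

theorem natDegree_C_prod {d : ℕ} {v0 : ℂ} (h : v0 ≠ 0) (η : Fin d → ℂ) :
    (C v0 * ∏ k, (X - C (η k))).natDegree = d := by
  rw [natDegree_C_mul h, natDegree_prod_of_monic _ _ fun i _ => monic_X_sub_C _]; simp

theorem norm_eval_C_prod {d : ℕ} (v0 : ℂ) (η : Fin d → ℂ) (z : ℂ) :
    ‖(C v0 * ∏ k, (X - C (η k))).eval z‖ = ‖v0‖ * ∏ k, ‖η k - z‖ := by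
  simp [eval_prod, norm_sub_rev]

theorem arch_w (z ℓ δ k : ℂ) (T l e : ℝ) (hT : 1 ≤ T) (hl0 : 0 ≤ l) (he0 : 0 < e)
    (hl5 : 5 * T * l ≤ 1) (h7 : ‖z‖ ≤ 1) (hδ : ‖δ‖ ≤ l * e) (h5 : e ≤ T * ‖ℓ‖)
    (h6 : ‖k‖ ≤ T * l ^ 2 * e) : ‖(ℓ - z ^ 2 * k) / (ℓ - δ * z) - 1‖ ≤ 4 * T * l := by
  have hle : 0 ≤ l * e := by positivity
  have a1 : ‖δ * z‖ ≤ l * e := by
    rw [norm_mul]; exact (mul_le_of_le_one_right (norm_nonneg _) h7).trans hδ
  have a2 : ‖z ^ 2 * k‖ ≤ l * e := by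
    rw [norm_mul, norm_pow]
    refine (mul_le_of_le_one_left (norm_nonneg _) (pow_le_one₀ (norm_nonneg _) h7)).trans
      (h6.trans ?_)
    have := mul_le_mul_of_nonneg_left hl5 hle
    linarith
  have a3 : e ≤ 2 * T * ‖ℓ - δ * z‖ := by
    have b1 := mul_le_mul_of_nonneg_left (norm_sub_norm_le ℓ (δ * z)) (by linarith : 0 ≤ T)
    have b2 := mul_le_mul_of_nonneg_left a1 (by linarith : 0 ≤ T)
    have b3 := mul_le_mul_of_nonneg_left hl5 he0.le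
    linarith
  have a4 : 0 < ‖ℓ - δ * z‖ := by
    by_contra hc
    rw [le_antisymm (not_lt.1 hc) (norm_nonneg _)] at a3
    linarith
  rw [div_sub_one (norm_pos_iff.1 a4), norm_div, div_le_iff₀ a4,
    show ℓ - z ^ 2 * k - (ℓ - δ * z) = δ * z - z ^ 2 * k by ring]
  have a5 := norm_sub_le (δ * z) (z ^ 2 * k)
  have a6 := mul_le_mul_of_nonneg_left a3 hl0
  linarith

theorem arch_mid (v : ℂ[X]) {d : ℕ} (hd : 1 ≤ d) (hdeg : v.natDegree = d) (θ μ : ℂ) (m ε l : ℝ)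
    (hm : 1 ≤ m) (hθ : ‖θ‖ ≤ m) (hμn : ‖μ‖ ≤ 2 * m) (hε0 : 0 < ε)
    (hvθ : ε * v.supNorm * m ^ d ≤ ‖v.eval θ‖) (hl2 : l * (d ^ 2 * 2 ^ d) ≤ 1)
    (hθμ : ‖θ - μ‖ ≤ l * ε * m / 2) : ε * v.supNorm * m ^ d / 2 ≤ ‖v.eval μ‖ := by
  have hX := v.supNorm_nonneg
  have h1 := eval_lip v hd hdeg (2 * m) (by linarith) θ μ (by linarith) hμn
  have h2 : (0 : ℝ) ≤ d ^ 2 * v.supNorm * (2 * m) ^ d := by positivity
  have h3 := mul_le_mul_of_nonneg_left hθμ h2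
  have h4 : 0 ≤ ε * v.supNorm * m ^ d * m := by positivity
  have h5 := mul_le_mul_of_nonneg_left hl2 h4
  have h6 : ‖v.eval θ - v.eval μ‖ ≤ ε * v.supNorm * m ^ d / 2 := by
    refine le_of_mul_le_mul_right ?_ (by positivity : 0 < 2 * m)
    rw [mul_pow] at h1 h3
    linarith
  linarith [norm_sub_norm_le (v.eval θ) (v.eval μ)]

theorem arch_low {d : ℕ} (v0 t μ : ℂ) (η : Fin d → ℂ) (m ε τ S : ℝ) (hv0 : v0 ≠ 0) (hm0 : 0 < m)
    (hε0 : 0 < ε) (hτ : 0 ≤ τ) (hηp : ∀ k, 0 < ‖η k - t‖)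
    (hvμ : ε * S * m ^ d / 2 ≤ ‖v0‖ * ∏ k, ‖η k - μ‖)
    (hvt : ‖v0‖ * ∏ k, ‖η k - t‖ ≤ (d + 1) * S * (1 + τ) ^ d) :
    ε / (2 * (d + 1) * (1 + τ) ^ d) ≤ ‖∏ k, ((m : ℂ)⁻¹ + (t - μ) / m * (η k - t)⁻¹)‖ := by
  have hmC : (m : ℂ) ≠ 0 := by exact_mod_cast hm0.ne'
  have hmn : ‖(m : ℂ)‖ = m := by rw [Complex.norm_real, Real.norm_of_nonneg hm0.le]
  rw [Finset.prod_congr rfl (g := fun k => (η k - μ) / ((η k - t) * m)) fun k _ => by
    have := norm_pos_iff.1 (hηp k); field_simp; ring]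
  rw [norm_prod]
  simp only [norm_div, norm_mul, hmn, Finset.prod_div_distrib, Finset.prod_mul_distrib,
    Finset.prod_const, Finset.card_univ, Fintype.card_fin]
  have h0 : 0 < ∏ k, ‖η k - t‖ := Finset.prod_pos fun k _ => hηp k
  rw [div_le_div_iff₀ (by positivity) (by positivity)]
  refine le_of_mul_le_mul_left ?_ (norm_pos_iff.2 hv0)
  have h1 := mul_le_mul_of_nonneg_left hvt (by positivity : 0 ≤ ε * m ^ d)
  have h2 := mul_le_mul_of_nonneg_left hvμ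
    (by positivity : (0 : ℝ) ≤ 2 * (d + 1) * (1 + τ) ^ d)
  linarith

theorem arch_factor (d : ℕ) (hd : 1 ≤ d) : ∃ c κ : ℝ, 0 < c ∧ c ≤ 1 ∧ 1 ≤ κ ∧
    ∀ (v0 t θ θ' : ℂ) (η : Fin d → ℂ) (m ε l : ℝ), v0 ≠ 0 → ‖t‖ ≤ 2 * (4 * d) * d →
      (∀ k, 4 * (d : ℝ) ≤ ‖η k - t‖) → 1 ≤ m → ‖θ‖ ≤ m → 0 < ε → ε ≤ 1 →
      ε * (C v0 * ∏ k, (X - C (η k))).supNorm * m ^ d ≤ ‖(C v0 * ∏ k, (X - C (η k))).eval θ‖ →
      0 ≤ l → l ≤ c → ‖θ - θ'‖ ≤ l * ε * m → ∃ (L k : ℂ[X]) (δ : ℂ),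
        1 + C (t - θ) * X = C (m : ℂ) * (L - C δ * X) ∧
        1 + C (t - θ') * X = C (m : ℂ) * (L + C δ * X) ∧
        (∏ j, (X - C (η j - t)⁻¹)) ^ 2 ∣ (L - X ^ 2 * k) ^ 2 - (L - C δ * X) * (L + C δ * X) ∧
        n1 L ≤ κ ∧ ‖δ‖ ≤ l ∧ n1 k ≤ κ * l ^ 2 ∧ ∀ j,
          ‖(L - X ^ 2 * k).eval (η j - t)⁻¹ / (L - C δ * X).eval (η j - t)⁻¹ - 1‖ ≤ κ * l := by
  have hd' : (1 : ℝ) ≤ d := by exact_mod_cast hd
  obtain ⟨τ, hτ, hτ0⟩ : ∃ τ : ℝ, τ = 2 * (4 * d) * d ∧ 0 ≤ τ := ⟨_, rfl, by positivity⟩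
  obtain ⟨T, hT, hfac⟩ := fac hd (3 + τ) (by linarith)
  obtain ⟨c1, hc1, hc11⟩ : ∃ c1 : ℝ, c1 = 2 * (d + 1) * (1 + τ) ^ d ∧ 1 ≤ c1 :=
    ⟨_, rfl, one_le_mul_of_one_le_of_one_le (by linarith) (one_le_pow₀ (by linarith))⟩
  obtain ⟨c2, hc2, hc21⟩ : ∃ c2 : ℝ, c2 = d ^ 2 * 2 ^ d ∧ 1 ≤ c2 :=
    ⟨_, rfl, one_le_mul_of_one_le_of_one_le (one_le_pow₀ hd') (one_le_pow₀ one_le_two)⟩
  have hTc : 1 ≤ T * c1 := one_le_mul_of_one_le_of_one_le hT hc11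
  have hTc2 : T * c1 ≤ T * c1 ^ 2 := by nlinarith
  have hc0 : 0 < 5 * (T * c1) + c2 := by linarith
  refine ⟨1 / (5 * (T * c1) + c2), 3 + τ + 4 * (T * c1 ^ 2), one_div_pos.2 hc0,
    by rw [div_le_one hc0]; linarith, by linarith, ?_⟩
  intro v0 t θ θ' η m ε l hv0 ht hη hm hθ hε0 hε1 hvθ hl0 hl hθ'
  rw [← hτ] at ht
  rw [le_div_iff₀ hc0] at hl
  have hlc := mul_le_mul_of_nonneg_left hc21 hl0
  have hlT := mul_le_mul_of_nonneg_left hTc hl0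
  have hl5 : 5 * T * (c1 * l) ≤ 1 := by linarith
  have hl2 : l * c2 ≤ 1 := by linarith
  have hl1 : l ≤ 1 := by linarith
  have hm0 : 0 < m := by linarith
  have hc10 : 0 < c1 := by linarith
  have hmC : (m : ℂ) ≠ 0 := by exact_mod_cast hm0.ne'
  have hmn : ‖(m : ℂ)‖ = m := by rw [Complex.norm_real, Real.norm_of_nonneg hm0.le]
  have hηp : ∀ k, 0 < ‖η k - t‖ := fun k => lt_of_lt_of_le (by linarith) (hη k)
  have hζ : ∀ k, ‖(η k - t)⁻¹‖ ≤ 1 / (4 * d) := fun k => by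
    rw [norm_inv, one_div]; exact inv_anti₀ (by linarith) (hη k)
  have hdeg := natDegree_C_prod hv0 η
  have hlε : l * ε ≤ l := mul_le_of_le_one_right hl0 hε1
  have hεm : l * ε * m ≤ m := mul_le_of_le_one_left hm0.le (hlε.trans hl1)
  obtain ⟨μ, hμ⟩ : ∃ μ, μ = (θ + θ') / 2 := ⟨_, rfl⟩
  have hθμ : ‖θ - μ‖ = ‖θ - θ'‖ / 2 := by
    rw [show θ - μ = (θ - θ') / 2 by rw [hμ]; ring, norm_div, Complex.norm_two]
  have hμn : ‖μ‖ ≤ 2 * m := by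
    linarith [norm_sub_norm_le μ θ, norm_sub_rev μ θ]
  have hvμ := arch_mid _ hd hdeg θ μ m ε l hm hθ hμn hε0 hvθ (hc2 ▸ hl2) (by linarith)
  have hvt := (norm_eval_le _ hdeg.le t).trans (mul_le_mul_of_nonneg_left
    (pow_le_pow_left₀ (le_max_of_le_left zero_le_one)
      (max_le (by linarith) (by linarith) : max 1 ‖t‖ ≤ 1 + τ) d)
    (mul_nonneg (by linarith) (supNorm_nonneg _)))
  rw [norm_eval_C_prod] at hvμ hvt
  have he := arch_low v0 t μ η m ε τ _ hv0 hm0 hε0 hτ0 hηp hvμ hvt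
  rw [← hc1] at he
  have hab : ‖(m : ℂ)⁻¹‖ + ‖(t - μ) / m‖ ≤ 3 + τ := by
    rw [norm_inv, norm_div, hmn]
    have h1 : m⁻¹ ≤ 1 := inv_le_one_of_one_le₀ hm
    have h2 : ‖t - μ‖ / m ≤ 2 + τ := by
      rw [div_le_iff₀ hm0]; linarith [norm_sub_le t μ, mul_le_mul_of_nonneg_left hm hτ0]
    linarith
  have hδ0 : ‖(θ - θ') / (2 * m)‖ ≤ l * ε := by
    rw [norm_div, norm_mul, hmn, Complex.norm_two, div_le_iff₀ (by linarith)]
    linarith [norm_nonneg (θ - θ')]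
  have he0 : 0 < ε / c1 := div_pos hε0 hc10
  have hδ : ‖(θ - θ') / (2 * m)‖ ≤ c1 * l * (ε / c1) := hδ0.trans (le_of_eq (by
    rw [mul_comm c1, mul_assoc, mul_div_cancel₀ _ hc10.ne']))
  have hcl := mul_nonneg hc10.le hl0
  obtain ⟨h1, k, h2, h3, h4⟩ := hfac (fun k => (η k - t)⁻¹) _ _ _ (ε / c1) (c1 * l) hζ hab he0
    (by rw [div_le_one hc10]; linarith) he hδ hcl hl5
  have b1 := mul_nonneg hτ0 (sq_nonneg l)
  have b2 := mul_nonneg (by linarith : 0 ≤ T * c1 ^ 2) (sq_nonneg l)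
  have b3 := mul_le_mul_of_nonneg_right hTc2 hl0
  have b4 := mul_nonneg hτ0 hl0
  refine ⟨_, k, _, ?_, ?_, h2, ((n1_lin _ _).trans hab).trans (by linarith),
    hδ0.trans hlε, h3.trans (by linarith [sq_nonneg l]), fun j => ?_⟩
  · rw [add_sub_assoc, ← sub_mul, ← C_sub, mul_add, ← mul_assoc, ← C_mul, ← C_mul,
      mul_inv_cancel₀ hmC, C_1]
    congr 3; rw [hμ]; field_simp; ring
  · rw [add_assoc, ← add_mul, ← C_add, mul_add, ← mul_assoc, ← C_mul, ← C_mul,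
      mul_inv_cancel₀ hmC, C_1]
    congr 3; rw [hμ]; field_simp; ring
  simp only [eval_sub, eval_add, eval_mul, eval_C, eval_X, eval_pow]
  exact (arch_w _ _ _ _ T _ _ hT hcl he0 hl5
    ((hζ j).trans (by rw [div_le_one] <;> linarith)) hδ (h1 j) (h4 j)).trans (by linarith)

/-- ARCH of 5.5; `v` need not be squarefree, the first bound holds in every degree below `2 d` -/
theorem archC (n d : ℕ) (hd : 1 ≤ d) (hn : n ≤ 2 * d) : ∃ c K : ℝ, 0 < c ∧ 0 < K ∧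
    ∀ (v g E : ℂ[X]) (θ θ' : Fin n → ℂ) (m ε : Fin n → ℝ) (l : ℝ), v.natDegree = d →
      (∀ i, 1 ≤ m i) → (∀ i, ‖θ i‖ ≤ m i) → (∀ i, 0 < ε i) → (∀ i, ε i ≤ 1) →
      (∀ i, ε i * v.supNorm * m i ^ d ≤ ‖v.eval (θ i)‖) → 0 ≤ l → l ≤ c →
      (∀ i, ‖θ i - θ' i‖ ≤ l * ε i * m i) →
      v ^ 2 ∣ g ^ 2 - (∏ i, (X - C (θ i))) * ∏ i, (X - C (θ' i)) →
      (∀ η, v.eval η = 0 → 0 < (g.eval η / (∏ i, (X - C (θ i))).eval η).re) →
      v ^ 2 ∣ E - ((∏ i, (X - C (θ i))) + (∏ i, (X - C (θ' i))) - 2 * g) →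
      E.natDegree < 2 * d →
      E.supNorm ≤ K * l ^ 2 * ∏ i, m i ∧
        (n ≤ E.natDegree + 1 →
          ‖E.leadingCoeff‖ * v.supNorm ^ 2 ≤ K * l ^ 2 * (∏ i, m i) * ‖v.leadingCoeff‖ ^ 2) := by
  have hd' : (1 : ℝ) ≤ d := by exact_mod_cast hd
  obtain ⟨c, κ, hc0, hc1, hκ, hfac⟩ := arch_factor d hd
  obtain ⟨τ, hτ, hτ0⟩ : ∃ τ : ℝ, τ = 2 * (4 * d) * d ∧ 0 ≤ τ := ⟨_, rfl, by positivity⟩
  obtain ⟨R, hR, hR0⟩ : ∃ R : ℝ, R = (κ + 2 + 2 * κ) ^ n ∧ 0 < R := ⟨_, rfl, by positivity⟩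
  refine ⟨min c (1 / (4 * (n + 1) * κ)), 16 * R * (2 ^ d * (1 + τ) ^ d) ^ 2, by positivity,
    by positivity, ?_⟩
  intro v g E θ θ' m ε l hv hm hθ hε0 hε1 hvθ hl0 hl hθ' hg hs hE hdeg
  obtain ⟨hlc, hln⟩ := le_min_iff.1 hl
  rw [le_div_iff₀ (by positivity)] at hln
  have hκl : 0 ≤ κ * l := by positivity
  have hnl : n * (κ * l) ≤ 1 / 4 := by linarith
  have hRl : 0 ≤ R * l ^ 2 := by positivity
  have hτ1 : 0 ≤ 2 ^ d * (1 + τ) ^ d := by positivity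
  have hv0 : v.leadingCoeff ≠ 0 := leadingCoeff_ne_zero.2 (by rintro rfl; simp at hv; omega)
  obtain ⟨η, hη⟩ := exists_roots' v hv
  generalize v.leadingCoeff = v0 at hv0 hη ⊢
  subst hη
  obtain ⟨t, ht, hfar⟩ := exists_far η (4 * d) (by positivity)
  choose L k δ e1 e2 e3 h1 h2 h3 h4 using fun i => hfac v0 t (θ i) (θ' i) η (m i) (ε i) l hv0 ht
    hfar (hm i) (hθ i) (hε0 i) (hε1 i) (hvθ i) hl0 hlc (hθ' i)
  clear hfac hvθ hθ' hθ hε0 hε1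
  rw [← hτ] at ht
  obtain ⟨D, S, T, f1, f2, f3, -, -, g2, g3⟩ := prod_three Finset.univ L k δ κ κ l (by linarith)
    (by linarith) hl0 (hlc.trans hc1) h1 h2 h3
  rw [Finset.card_univ, Fintype.card_fin, ← hR] at g2 g3
  have hηp : ∀ k, 0 < ‖η k - t‖ := fun k => lt_of_lt_of_le (by linarith) (hfar k)
  have hM : 0 < ∏ i, m i := Finset.prod_pos fun i _ => by linarith [hm i]
  obtain ⟨M, hMd⟩ : ∃ M : ℂ, M = ∏ i, (m i : ℂ) := ⟨_, rfl⟩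
  have hMn : ‖M‖ = ∏ i, m i := by
    rw [hMd, ← Complex.ofReal_prod, Complex.norm_real, Real.norm_of_nonneg hM.le]
  have hM0 : M ≠ 0 := norm_pos_iff.1 (hMn ▸ hM)
  have F1 : ∏ i, (1 + C (t - θ i) * X) = C M * ∏ i, (L i - C (δ i) * X) := by
    rw [hMd, map_prod, ← Finset.prod_mul_distrib]; exact Finset.prod_congr rfl fun i _ => e1 i
  have F2 : ∏ i, (1 + C (t - θ' i) * X) = C M * ∏ i, (L i + C (δ i) * X) := by
    rw [hMd, map_prod, ← Finset.prod_mul_distrib]; exact Finset.prod_congr rfl fun i _ => e2 i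
  have key := arch_alg hd hn t v0 η (fun k => norm_pos_iff.1 (hηp k)) θ θ' g E
    (C M * ∏ i, (L i - X ^ 2 * k i)) (C M * (C 2 * (S - T))) ?_ (fun j => ?_) ?_ hg
    (fun j => hs _ (norm_eq_zero.1 (by
      rw [norm_eval_C_prod, Finset.prod_eq_zero (Finset.mem_univ j) (by simp), mul_zero]))) hE hdeg
  · have hV := near_prod hd (fun k => (η k - t)⁻¹) fun k => by
      rw [norm_inv, one_div]; exact inv_anti₀ (by linarith) (hfar k)
    have hP : 0 < ∏ k, ‖η k - t‖ := Finset.prod_pos fun k _ => hηp k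
    have hV0 : ‖(∏ k, (X - C (η k - t)⁻¹)).coeff 0‖ = (∏ k, ‖η k - t‖)⁻¹ := by
      simp [coeff_zero_eq_eval_zero, eval_prod]
    obtain ⟨a1, a2⟩ := arch_end hn hV (norm_pos_iff.1 (by rw [hV0]; exact inv_pos.2 hP)) _ _
      (by rwa [natDegree_taylor]) key
    have a3 : n1 (C M * (C 2 * (S - T))) ≤ (∏ i, m i) * (2 * (2 * (R * l ^ 2))) := by
      rw [n1_C_mul, n1_C_mul, hMn, Complex.norm_two]
      exact mul_le_mul_of_nonneg_left (by linarith [n1_sub_le S T]) hM.le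
    have a4 : 0 ≤ 16 * R * l ^ 2 * ∏ i, m i := mul_nonneg (by linarith) hM.le
    constructor
    · refine sup_le_iff.2 fun i => (coeff_le_n1 E i).trans ?_
      have b1 := n1_taylor_le (-t) (taylor t E) (N := 2 * d) (by rw [natDegree_taylor]; omega)
      rw [taylor_taylor, neg_add_cancel, taylor_zero, norm_neg] at b1
      have b2 : (1 + ‖t‖) ^ (2 * d) ≤ (2 ^ d * (1 + τ) ^ d) ^ 2 := by
        rw [← mul_pow, ← pow_mul, mul_comm d 2]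
        exact pow_le_pow_left₀ (by linarith [norm_nonneg t]) (by linarith) _
      have b3 := mul_le_mul (a1.trans (by linarith : _ ≤ 16 * R * l ^ 2 * ∏ i, m i)) b2
        (pow_nonneg (by linarith [norm_nonneg t]) _) a4
      linarith
    · intro he
      have b1 := a2 (by rwa [natDegree_taylor])
      rw [leadingCoeff_taylor, hV0] at b1
      have b2 : (C v0 * ∏ k, (X - C (η k))).supNorm
          ≤ 2 ^ d * (1 + τ) ^ d * ‖v0‖ * ∏ k, ‖η k - t‖ := by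
        have c1 := sup_prod_X_sub_C Finset.univ η
        have c2 : ∏ k, max 1 ‖η k‖ ≤ ∏ k, ((1 + τ) * ‖η k - t‖) :=
          Finset.prod_le_prod (fun _ _ => le_max_of_le_left zero_le_one) fun k _ => by
            have c3 : 1 ≤ ‖η k - t‖ := le_trans (by linarith) (hfar k)
            have c4 := mul_le_mul_of_nonneg_left c3 hτ0
            exact max_le (by linarith) (by linarith [norm_sub_norm_le (η k) t])
        rw [Finset.prod_mul_distrib, Finset.prod_const] at c2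
        rw [Finset.card_univ, Fintype.card_fin] at c1 c2
        refine (sup_C_mul_le _ _).trans ?_
        have := mul_le_mul_of_nonneg_left (c1.trans (mul_le_mul_of_nonneg_left c2
          (pow_nonneg two_pos.le d)))
          (norm_nonneg v0)
        linarith
      have b3 := pow_le_pow_left₀ (supNorm_nonneg _) b2 2
      have b4 : ‖E.leadingCoeff‖ ≤ 16 * R * l ^ 2 * (∏ i, m i) * (∏ k, ‖η k - t‖)⁻¹ ^ 2 :=
        b1.trans (mul_le_mul_of_nonneg_right (by linarith) (sq_nonneg _))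
      refine (mul_le_mul b4 b3 (sq_nonneg _) (mul_nonneg a4 (sq_nonneg _))).trans (le_of_eq ?_)
      have b5 := mul_inv_cancel₀ hP.ne'
      linear_combination 16 * R * l ^ 2 * (∏ i, m i) * (2 ^ d * (1 + τ) ^ d * ‖v0‖) ^ 2
        * ((∏ k, ‖η k - t‖) * (∏ k, ‖η k - t‖)⁻¹ + 1) * b5
  · rw [F1, F2, mul_pow, mul_mul_mul_comm, ← sq, ← mul_sub]
    refine Dvd.dvd.mul_left ?_ _
    rw [← Finset.prod_pow _ _ fun i => L i - X ^ 2 * k i, ← Finset.prod_mul_distrib,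
      ← AdjoinRoot.mk_eq_mk, map_prod, map_prod]
    exact Finset.prod_congr rfl fun i _ => AdjoinRoot.mk_eq_mk.2 (e3 i)
  · rw [F1, eval_mul, eval_mul, eval_C, mul_div_mul_left _ _ hM0, eval_prod, eval_prod,
      ← Finset.prod_div_distrib]
    have b1 := prod_near _ (κ * l) (fun i => h4 i j) hκl (by linarith)
    simp only [add_sub_cancel] at b1
    have b2 := (abs_le.1 ((Complex.abs_re_le_norm _).trans b1)).1
    rw [Complex.sub_re, Complex.one_re] at b2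
    linarith
  · rw [F1, F2, f1, f2, f3, C_ofNat]; ring

end Pool.Agent.VW
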