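import Pool.Agent.P.MP_b0ea37_nt.WMaN

namespace Pool.Agent.VW

open Polynomial

/-- a small quadratic equation in a finite dimensional normed algebra -/
theorem fix_quad {A : Type} [CommRing A] [Algebra ℂ A] [Module.Finite ℂ A] (N : Seminorm ℂ A)
    (hN : ∀ a, N a = 0 → a = 0) (K : ℝ) (hK : 0 ≤ K) (hmul : ∀ a b, N (a * b) ≤ K * (N a * N b))
    (p q : A) (h : 8 * K ^ 2 * N p * N q ≤ 1) : ∃ k, k = p + q * k ^ 2 ∧ N k ≤ 2 * N p := by
  let _i : NormedAddCommGroup A := AddGroupNorm.toNormedAddCommGroup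
    { N.toAddGroupSeminorm with eq_zero_of_map_eq_zero' := hN }
  have hn : ∀ a : A, ‖a‖ = N a := fun _ => rfl
  let _j : NormedSpace ℂ A := ⟨fun c a => by rw [hn, hn, map_smul_eq_mul]⟩
  have : CompleteSpace A := FiniteDimensional.complete ℂ A
  have hp := apply_nonneg N p
  have hq := apply_nonneg N q
  have h3 : ∀ a b : A, N (q * (a * b)) ≤ K ^ 2 * N q * (N a * N b) := fun a b =>
    (hmul _ _).trans (by
      have := mul_le_mul_of_nonneg_left (hmul a b) (mul_nonneg hK hq)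
      nlinarith)
  set s : Set A := Metric.closedBall 0 (2 * N p) with hs
  have hmem : ∀ a, a ∈ s ↔ N a ≤ 2 * N p := fun a => by rw [hs, mem_closedBall_zero_iff, hn]
  have hKq : 0 ≤ K ^ 2 * N q := by positivity
  have hmap : Set.MapsTo (fun k => p + q * k ^ 2) s s := by
    intro k hk
    rw [hmem] at hk ⊢
    have h1 := map_add_le_add N p (q * k ^ 2)
    have h2 := h3 k k
    rw [← sq] at h2
    have h4 : N k * N k ≤ (2 * N p) * (2 * N p) :=
      mul_le_mul hk hk (apply_nonneg _ _) (by positivity)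
    have h5 := mul_le_mul_of_nonneg_left h4 hKq
    have h6 := mul_le_mul_of_nonneg_left h hp
    nlinarith
  have hc : ContractingWith (1 / 2) (hmap.restrict (fun k => p + q * k ^ 2) s s) := by
    refine ⟨by norm_num, LipschitzWith.of_dist_le_mul fun a b => ?_⟩
    have ha := (hmem _).1 a.2
    have hb := (hmem _).1 b.2
    rw [Subtype.dist_eq, Subtype.dist_eq, dist_eq_norm, dist_eq_norm, hn, hn]
    simp only [Set.MapsTo.val_restrict_apply]
    have e : p + q * (a : A) ^ 2 - (p + q * (b : A) ^ 2) = q * ((a + b) * (a - b)) := by ring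
    rw [e]
    refine (h3 _ _).trans ?_
    have h1 : N (a + b : A) ≤ 4 * N p := (map_add_le_add N _ _).trans (by linarith)
    have h2 := apply_nonneg N ((a : A) - b)
    have h4 := mul_le_mul_of_nonneg_left (mul_le_mul_of_nonneg_right h1 h2) hKq
    have h6 := mul_le_mul_of_nonneg_left h h2
    push_cast
    nlinarith
  obtain ⟨k, hk, hfix, -⟩ := ContractingWith.exists_fixedPoint' Metric.isClosed_closedBall.isComplete
    hmap hc (x := 0) ((hmem 0).2 (by rw [map_zero]; positivity)) (edist_ne_top _ _)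
  exact ⟨k, hfix.symm, (hmem k).1 hk⟩

theorem prod_lin {ι : Type} (s : Finset ι) (L : ℂ[X]) (l : ι → ℂ) (B : ℝ) (hB : 1 ≤ B)
    (hL : n1 L ≤ B) (hl : ∀ i, ‖l i‖ ≤ B) :
    ∃ J : ℂ[X], ∏ i ∈ s, (L - C (l i)) = L * J + C (∏ i ∈ s, -l i) ∧ n1 J ≤ (3 * B) ^ s.card := by
  classical
  induction s using Finset.induction_on with
  | empty => exact ⟨0, by simp, by simp [n1_zero]⟩
  | insert a s ha ih =>
    obtain ⟨J, e, hJ⟩ := ih
    refine ⟨J * (L - C (l a)) + C (∏ i ∈ s, -l i), ?_, ?_⟩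
    · rw [Finset.prod_insert ha, Finset.prod_insert ha, e, C_mul, C_neg]; ring
    · rw [Finset.card_insert_of_notMem ha, pow_succ]
      have h1 : n1 (L - C (l a)) ≤ 2 * B := (n1_sub_le _ _).trans (by rw [n1_C]; linarith [hl a])
      have h2 := n1_mul_le' hJ h1
      have h3 : n1 (C (∏ i ∈ s, -l i)) ≤ (3 * B) ^ s.card := by
        rw [n1_C, norm_prod, ← Finset.prod_const]
        exact Finset.prod_le_prod (fun _ _ => norm_nonneg _) fun i _ => by
          rw [norm_neg]; linarith [hl i]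
      have h4 := n1_add_le (J * (L - C (l a))) (C (∏ i ∈ s, -l i))
      have h5 : (0 : ℝ) ≤ (3 * B) ^ s.card := by positivity
      nlinarith

/-- the two level norm on the quotient by `V ^ 2` -/
theorem Near.norm {d : ℕ} {V : ℂ[X]} (h : Near d V) (e : ℝ) (he0 : 0 < e) (he : e ≤ 1) :
    ∃ N : Seminorm ℂ (AdjoinRoot (V ^ 2)), (∀ a, N a = 0 → a = 0) ∧
      (∀ p q, N (AdjoinRoot.mk _ (p + V * q)) ≤ 3 * n1 p + e * n1 q) ∧
      ∀ a, ∃ p q, a = AdjoinRoot.mk _ (p + V * q) ∧ N a = n1 p + e * n1 q := by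
  have h2 : (V ^ 2).Monic := h.monic.pow 2
  let R := AdjoinRoot.modByMonicHom h2
  have huniq : ∀ p q : ℂ[X], p.degree < d → (p + V * q) /ₘ V = q ∧ (p + V * q) %ₘ V = p :=
    fun p q hp => div_modByMonic_unique q p h.monic ⟨rfl, h.degree ▸ hp⟩
  have hdm : ∀ p : ℂ[X], (p %ₘ V).degree < d := fun p => h.degree ▸ degree_modByMonic_lt p h.monic
  have hadd : ∀ p q : ℂ[X], (p + q) /ₘ V = p /ₘ V + q /ₘ V := fun p q => by
    have e1 : p + q = (p %ₘ V + q %ₘ V) + V * (p /ₘ V + q /ₘ V) := by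
      conv_lhs => rw [← modByMonic_add_div p V, ← modByMonic_add_div q V]
      ring
    rw [e1]
    exact (huniq _ _ ((degree_add_le _ _).trans_lt (max_lt (hdm p) (hdm q)))).1
  have hsm : ∀ (c : ℂ) (p : ℂ[X]), (c • p) /ₘ V = c • (p /ₘ V) := fun c p => by
    have e1 : c • p = c • (p %ₘ V) + V * (c • (p /ₘ V)) := by
      conv_lhs => rw [← modByMonic_add_div p V]
      rw [smul_add, mul_smul_comm]
    rw [e1]
    exact (huniq _ _ ((degree_smul_le _ _).trans_lt (hdm p))).1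
  let N : Seminorm ℂ (AdjoinRoot (V ^ 2)) :=
    Seminorm.of (fun a => n1 (R a %ₘ V) + e * n1 (R a /ₘ V))
      (fun a b => by
        rw [map_add, add_modByMonic, hadd]
        have h1 := n1_add_le (R a %ₘ V) (R b %ₘ V)
        have h3 := mul_le_mul_of_nonneg_left (n1_add_le (R a /ₘ V) (R b /ₘ V)) he0.le
        linarith)
      (fun c a => by rw [map_smul, smul_modByMonic, hsm, n1_smul, n1_smul]; ring)
  have hN : ∀ a, N a = n1 (R a %ₘ V) + e * n1 (R a /ₘ V) := fun _ => rfl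
  have hrep : ∀ a, a = AdjoinRoot.mk _ (R a %ₘ V + V * (R a /ₘ V)) := fun a => by
    rw [modByMonic_add_div]; exact (AdjoinRoot.mk_leftInverse h2 a).symm
  refine ⟨N, fun a ha => ?_, fun p q => ?_, fun a => ⟨_, _, hrep a, hN a⟩⟩
  · rw [hN] at ha
    have h1 := n1_nonneg (R a %ₘ V)
    have h3 := n1_nonneg (R a /ₘ V)
    have h4 := mul_nonneg he0.le h3
    have h5 : n1 (R a /ₘ V) = 0 := (mul_eq_zero.1 (by linarith)).resolve_left he0.ne'
    rw [hrep a, n1_eq_zero h5, n1_eq_zero (by linarith : n1 (R a %ₘ V) = 0)]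
    simp
  · obtain ⟨q0, r0, hr0, rfl⟩ := h.split p
    obtain ⟨q1, r1, hr1, e1⟩ := h.split (q0 + q)
    have hR : R (AdjoinRoot.mk _ (r0 + V * q0 + V * q)) = r0 + V * r1 := by
      rw [AdjoinRoot.modByMonicHom_mk]
      refine (div_modByMonic_unique q1 _ h2 ⟨?_, ?_⟩).2
      · linear_combination (-V) * e1
      · rw [degree_pow, h.degree]
        refine (degree_add_le _ _).trans_lt (max_lt (hr0.trans_le ?_) ?_)
        · rw [two_nsmul]; exact_mod_cast Nat.le_add_right d d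
        · rw [degree_mul, h.degree, two_nsmul]
          exact WithBot.add_lt_add_left (WithBot.natCast_ne_bot d) hr1
    rw [hN, hR, (huniq r0 r1 hr0).1, (huniq r0 r1 hr0).2]
    obtain ⟨a1, a2⟩ := h.div q0 r0 hr0
    obtain ⟨b1, -⟩ := h.div q1 r1 hr1
    rw [← e1] at b1
    have b2 := n1_add_le q0 q
    have b3 := mul_le_mul_of_nonneg_left (b1.trans b2) he0.le
    have b4 := mul_le_mul_of_nonneg_right he (n1_nonneg q0)
    linarith

/-- the square root of one factor modulo `V ^ 2` -/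
theorem fac {d : ℕ} (hd : 1 ≤ d) (B : ℝ) (hB : 1 ≤ B) : ∃ T : ℝ, 1 ≤ T ∧
    ∀ (ζ : Fin d → ℂ) (a b δ : ℂ) (e l : ℝ), (∀ i, ‖ζ i‖ ≤ 1 / (4 * d)) → ‖a‖ + ‖b‖ ≤ B →
      0 < e → e ≤ 1 → e ≤ ‖∏ i, (a + b * ζ i)‖ → ‖δ‖ ≤ l * e → 0 ≤ l → 5 * T * l ≤ 1 →
      (∀ j, e ≤ T * ‖a + b * ζ j‖) ∧ ∃ k : ℂ[X], (∏ i, (X - C (ζ i))) ^ 2 ∣
          (C a + C b * X - X ^ 2 * k) ^ 2 - (C a + C b * X - C δ * X) * (C a + C b * X + C δ * X) ∧
        n1 k ≤ 3 * T * l ^ 2 ∧ ∀ j, ‖k.eval (ζ j)‖ ≤ T * l ^ 2 * e := by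
  have hBd : 1 ≤ B ^ d := one_le_pow₀ hB
  have h3B : 1 ≤ (3 * B) ^ d := one_le_pow₀ (by linarith)
  refine ⟨(3 * B) ^ d * (3 + B ^ d), by nlinarith, ?_⟩
  intro ζ a b δ e l hζ hab he0 he1 hN hδ hl0 hl
  set T := (3 * B) ^ d * (3 + B ^ d) with hT
  have hT1 : 1 ≤ T := by nlinarith
  have hd' : (1 : ℝ) ≤ d := by exact_mod_cast hd
  have hζ1 : ∀ i, ‖ζ i‖ ≤ 1 := fun i => (hζ i).trans (by rw [div_le_one] <;> linarith)
  have hV := near_prod hd ζ hζ
  set V := ∏ i, (X - C (ζ i)) with hVd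
  set L := C a + C b * X with hL
  have hLn : n1 L ≤ B := (n1_lin a b).trans hab
  have hl1 : ∀ i, ‖a + b * ζ i‖ ≤ B := fun i => by
    have := eval_le_n1 L (hζ1 i)
    simp only [hL, eval_add, eval_C, eval_mul, eval_X] at this
    exact this.trans hLn
  constructor
  · intro j
    rw [norm_prod, ← Finset.mul_prod_erase _ _ (Finset.mem_univ j)] at hN
    have h1 : ∏ i ∈ Finset.univ.erase j, ‖a + b * ζ i‖ ≤ B ^ d :=
      (Finset.prod_le_prod (fun _ _ => norm_nonneg _) fun i _ => hl1 i).trans (by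
        rw [Finset.prod_const]
        exact pow_le_pow_right₀ hB ((Finset.card_le_univ _).trans (by simp)))
    have h2 : B ^ d ≤ T := by nlinarith
    have := mul_le_mul_of_nonneg_left (h1.trans h2) (norm_nonneg (a + b * ζ j))
    linarith
  obtain ⟨J, hJ, hJn⟩ := prod_lin Finset.univ L (fun i => a + b * ζ i) B hB hLn hl1
  rw [Finset.card_univ, Fintype.card_fin] at hJn
  set N0 := ∏ i, -(a + b * ζ i) with hN0
  have hN0e : e ≤ ‖N0‖ := by
    rw [hN0, norm_prod]; rw [norm_prod] at hN; simpa only [norm_neg] using hN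
  have hN00 : N0 ≠ 0 := norm_pos_iff.1 (he0.trans_le hN0e)
  have hW : C (b ^ d) * V = L * J + C N0 := by
    rw [← hJ, hVd, show C (b ^ d) = ∏ _i : Fin d, C b by simp, ← Finset.prod_mul_distrib]
    exact Finset.prod_congr rfl fun i _ => by rw [hL, C_add, C_mul]; ring
  have hV0 : ∀ j, V.eval (ζ j) = 0 := fun j => by
    rw [hVd, eval_prod]; exact Finset.prod_eq_zero (Finset.mem_univ j) (by simp)
  obtain ⟨N, hN1, hN2, hN3⟩ := hV.norm e he0 he1
  have : Module.Finite ℂ (AdjoinRoot (V ^ 2)) := (hV.monic.pow 2).finite_adjoinRoot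
  have hmul : ∀ x y, N (x * y) ≤ 3 * (N x * N y) := fun x y => by
    obtain ⟨p, q, rfl, e1⟩ := hN3 x
    obtain ⟨p', q', rfl, e2⟩ := hN3 y
    have e3 : AdjoinRoot.mk (V ^ 2) (p + V * q) * AdjoinRoot.mk (V ^ 2) (p' + V * q')
        = AdjoinRoot.mk (V ^ 2) (p * p' + V * (p * q' + q * p')) := by
      rw [← map_mul, AdjoinRoot.mk_eq_mk]
      exact ⟨q * q', by ring⟩
    rw [e3, e1, e2]
    refine (hN2 _ _).trans ?_
    have h1 := n1_mul_le p p'
    have h2 := (n1_add_le _ _).trans (add_le_add (n1_mul_le p q') (n1_mul_le q p'))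
    have h3 := mul_le_mul_of_nonneg_left h2 he0.le
    have h4 := mul_nonneg he0.le (mul_nonneg (n1_nonneg p) (n1_nonneg q'))
    have h5 := mul_nonneg he0.le (mul_nonneg (n1_nonneg q) (n1_nonneg p'))
    have h6 := mul_nonneg (mul_nonneg he0.le he0.le) (mul_nonneg (n1_nonneg q) (n1_nonneg q'))
    nlinarith
  set p0 := C (-N0⁻¹) * J with hp0
  set p1 := C (-N0⁻¹ * N0⁻¹ * b ^ d) * J with hp1
  have hi : ‖N0⁻¹‖ ≤ e⁻¹ := by rw [norm_inv]; exact inv_anti₀ he0 hN0e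
  have hei : 0 < e⁻¹ := inv_pos.2 he0
  have hb : ‖b‖ ^ d ≤ B ^ d := pow_le_pow_left₀ (norm_nonneg _) (by linarith [norm_nonneg a]) d
  have hI : 3 * n1 p0 + e * n1 p1 ≤ T * e⁻¹ := by
    rw [hp0, hp1, n1_C_mul, n1_C_mul, norm_mul, norm_mul, norm_neg, norm_pow]
    have h1 : ‖N0⁻¹‖ * n1 J ≤ e⁻¹ * (3 * B) ^ d := mul_le_mul hi hJn (n1_nonneg _) hei.le
    have h2 : ‖N0⁻¹‖ * ‖N0⁻¹‖ * ‖b‖ ^ d * n1 J ≤ e⁻¹ * e⁻¹ * B ^ d * (3 * B) ^ d := by
      have := n1_nonneg J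
      gcongr
    have h3 := mul_le_mul_of_nonneg_left h2 he0.le
    have h4 : e * (e⁻¹ * e⁻¹ * B ^ d * (3 * B) ^ d) = e⁻¹ * B ^ d * (3 * B) ^ d := by field_simp
    rw [hT]; nlinarith
  have hinv : V ^ 2 ∣ L * (p0 + V * p1) - 1 := by
    refine ⟨-C (N0⁻¹ * N0⁻¹ * b ^ d * b ^ d), ?_⟩
    have h1 : C N0 * C N0⁻¹ = (1 : ℂ[X]) := by rw [← C_mul, mul_inv_cancel₀ hN00, C_1]
    simp only [hp0, hp1, C_mul, C_neg]
    linear_combination (C N0⁻¹ + C N0⁻¹ * C N0⁻¹ * C (b ^ d) * V) * hW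
      + (1 + C N0⁻¹ * C (b ^ d) * V) * h1
  clear hp0 hp1 hT hVd hW hJ hL
  clear_value p0 p1 T
  have hp : N (AdjoinRoot.mk _ (C (δ ^ 2 / 2) * p0 + V * (C (δ ^ 2 / 2) * p1)))
      ≤ T * l ^ 2 * e / 2 := by
    refine (hN2 _ _).trans ?_
    rw [n1_C_mul, n1_C_mul, norm_div, norm_pow, Complex.norm_two]
    have h1 : ‖δ‖ ^ 2 ≤ (l * e) ^ 2 := pow_le_pow_left₀ (norm_nonneg _) hδ 2
    have h2 := mul_le_mul h1 hI (by have := n1_nonneg p0; have := n1_nonneg p1; positivity)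
      (by positivity)
    have h3 : (l * e) ^ 2 * (T * e⁻¹) = T * l ^ 2 * e := by field_simp
    linarith
  have hq : N (AdjoinRoot.mk _ (C (1 / 2) * (X ^ 2 * p0) + V * (C (1 / 2) * (X ^ 2 * p1))))
      ≤ T * e⁻¹ / 2 := by
    refine (hN2 _ _).trans ?_
    rw [n1_C_mul, n1_C_mul, n1_X_pow_mul, n1_X_pow_mul, norm_div, norm_one, Complex.norm_two]
    linarith
  obtain ⟨k, hk, hkn⟩ := fix_quad N hN1 3 (by norm_num) hmul
    (AdjoinRoot.mk _ (C (δ ^ 2 / 2) * p0 + V * (C (δ ^ 2 / 2) * p1)))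
    (AdjoinRoot.mk _ (C (1 / 2) * (X ^ 2 * p0) + V * (C (1 / 2) * (X ^ 2 * p1)))) (by
    have h1 := mul_le_mul hp hq (apply_nonneg _ _) (by positivity)
    have h2 : T * l ^ 2 * e / 2 * (T * e⁻¹ / 2) = (T * l) ^ 2 / 4 := by field_simp; norm_num
    have h3 : 0 ≤ T * l := by positivity
    have h4 : (T * l) ^ 2 ≤ (1 / 5) ^ 2 := pow_le_pow_left₀ h3 (by linarith) 2
    rw [mul_assoc]
    linarith)
  obtain ⟨k0, k1, rfl, hk2⟩ := hN3 k
  have hk3 : n1 k0 + e * n1 k1 ≤ T * l ^ 2 * e := by linarith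
  have hk0 := n1_nonneg k0
  have hk1 := mul_nonneg he0.le (n1_nonneg k1)
  refine ⟨k0 + V * k1, ?_, ?_, fun j => ?_⟩
  · rw [← map_pow, ← map_mul, ← map_add, AdjoinRoot.mk_eq_mk] at hk
    obtain ⟨w, hw⟩ := hk
    obtain ⟨u, hu⟩ := hinv
    generalize k0 + V * k1 = k at hw ⊢
    refine ⟨-(X ^ 2 * (2 * L * w + u * (C δ ^ 2 + X ^ 2 * k ^ 2))), ?_⟩
    have h1 : C (δ ^ 2 / 2) * 2 = (C δ ^ 2 : ℂ[X]) := by
      rw [← C_pow, ← C_ofNat, ← C_mul]; congr 1; ring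
    have h2 : C (1 / 2 : ℂ) * 2 = (1 : ℂ[X]) := by
      rw [← C_1, ← C_ofNat, ← C_mul]; congr 1; ring
    linear_combination (-2 * L * X ^ 2) * hw - X ^ 2 * (C δ ^ 2 + X ^ 2 * k ^ 2) * hu
      - L * X ^ 2 * (p0 + V * p1) * h1 - L * X ^ 4 * k ^ 2 * (p0 + V * p1) * h2
  · have h1 : n1 k1 ≤ T * l ^ 2 := le_of_mul_le_mul_left (by linarith) he0
    have h2 := n1_mul_le' hV.n1_le h1
    have h3 := n1_add_le k0 (V * k1)
    have h4 : T * l ^ 2 * e ≤ T * l ^ 2 * 1 := mul_le_mul_of_nonneg_left he1 (by positivity)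
    have h5 : 0 ≤ T * l ^ 2 := by positivity
    linarith
  · rw [eval_add, eval_mul, hV0 j, zero_mul, add_zero]
    exact (eval_le_n1 k0 (hζ1 j)).trans (by linarith)

end Pool.Agent.VW
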