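import Mathlib

namespace Pool.Agent.VW

open Polynomial

/-- sum of the norms of the coefficients -/
noncomputable def n1 (p : ℂ[X]) : ℝ := ∑ i ∈ p.support, ‖p.coeff i‖

theorem n1_eq (p : ℂ[X]) (s : Finset ℕ) (h : p.support ⊆ s) : n1 p = ∑ i ∈ s, ‖p.coeff i‖ := by
  refine Finset.sum_subset h fun i _ hi => ?_
  rw [notMem_support_iff.1 hi, norm_zero]

theorem n1_range (p : ℂ[X]) {N : ℕ} (h : p.natDegree < N) :
    n1 p = ∑ i ∈ Finset.range N, ‖p.coeff i‖ := n1_eq p _ (supp_subset_range h)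

theorem n1_nonneg (p : ℂ[X]) : 0 ≤ n1 p := Finset.sum_nonneg fun _ _ => norm_nonneg _

theorem sum_le_n1 (p : ℂ[X]) (s : Finset ℕ) : ∑ i ∈ s, ‖p.coeff i‖ ≤ n1 p := by
  rw [n1_eq p (s ∪ p.support) Finset.subset_union_right]
  exact Finset.sum_le_sum_of_subset_of_nonneg Finset.subset_union_left fun _ _ _ => norm_nonneg _

theorem coeff_le_n1 (p : ℂ[X]) (i : ℕ) : ‖p.coeff i‖ ≤ n1 p := by
  simpa using sum_le_n1 p {i}

theorem n1_zero : n1 0 = 0 := by simp [n1]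

theorem n1_eq_zero {p : ℂ[X]} (h : n1 p = 0) : p = 0 := by
  ext i
  have := coeff_le_n1 p i
  rw [h] at this
  simpa using this

theorem n1_add_le (p q : ℂ[X]) : n1 (p + q) ≤ n1 p + n1 q := by
  calc n1 (p + q) ≤ ∑ i ∈ (p + q).support, (‖p.coeff i‖ + ‖q.coeff i‖) :=
        Finset.sum_le_sum fun i _ => by rw [coeff_add]; exact norm_add_le _ _
    _ ≤ _ := by rw [Finset.sum_add_distrib]; exact add_le_add (sum_le_n1 _ _) (sum_le_n1 _ _)

theorem n1_C_mul (a : ℂ) (p : ℂ[X]) : n1 (C a * p) = ‖a‖ * n1 p := by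
  rw [n1_eq (C a * p) p.support, n1, Finset.mul_sum]
  · simp
  · intro i hi
    rw [mem_support_iff] at hi ⊢
    intro h
    simp [h] at hi

theorem n1_smul (a : ℂ) (p : ℂ[X]) : n1 (a • p) = ‖a‖ * n1 p := by
  rw [smul_eq_C_mul, n1_C_mul]

theorem n1_neg (p : ℂ[X]) : n1 (-p) = n1 p := by simp [n1]

theorem n1_sub_le (p q : ℂ[X]) : n1 (p - q) ≤ n1 p + n1 q := by
  rw [sub_eq_add_neg, ← n1_neg q]; exact n1_add_le _ _

theorem n1_sum_le {ι : Type} (s : Finset ι) (p : ι → ℂ[X]) :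
    n1 (∑ i ∈ s, p i) ≤ ∑ i ∈ s, n1 (p i) :=
  Finset.le_sum_of_subadditive n1 n1_zero.le n1_add_le s p

theorem n1_X_mul (p : ℂ[X]) : n1 (X * p) = n1 p := by
  have h : (X * p).natDegree < p.natDegree + 1 + 1 :=
    lt_of_le_of_lt natDegree_mul_le (by have := natDegree_X_le (R := ℂ); omega)
  rw [n1_range _ h, Finset.sum_range_succ', n1_range p (Nat.lt_succ_self _)]
  simp [coeff_X_mul]

theorem n1_X_pow_mul (k : ℕ) (p : ℂ[X]) : n1 (X ^ k * p) = n1 p := by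
  induction k with
  | zero => simp
  | succ k ih => rw [pow_succ', mul_assoc, n1_X_mul, ih]

theorem n1_C (a : ℂ) : n1 (C a) = ‖a‖ := by
  rw [n1_range (C a) (N := 1) (by simp)]; simp

theorem n1_one : n1 1 = 1 := by rw [← C_1, n1_C, norm_one]

theorem n1_X_pow (k : ℕ) : n1 (X ^ k) = 1 := by
  simpa [n1_one] using n1_X_pow_mul k 1

theorem n1_X : n1 X = 1 := by simpa using n1_X_pow 1

theorem n1_mul_le (p q : ℂ[X]) : n1 (p * q) ≤ n1 p * n1 q := by
  conv_lhs => rw [p.as_sum_support_C_mul_X_pow, Finset.sum_mul]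
  refine (n1_sum_le _ _).trans (le_of_eq ?_)
  rw [n1, Finset.sum_mul]
  exact Finset.sum_congr rfl fun i _ => by rw [mul_assoc, n1_C_mul, n1_X_pow_mul]

theorem n1_mul_le' {p q : ℂ[X]} {a b : ℝ} (hp : n1 p ≤ a) (hq : n1 q ≤ b) : n1 (p * q) ≤ a * b :=
  (n1_mul_le p q).trans (mul_le_mul hp hq (n1_nonneg _) ((n1_nonneg _).trans hp))

theorem n1_pow_le (p : ℂ[X]) (k : ℕ) : n1 (p ^ k) ≤ n1 p ^ k := by
  induction k with
  | zero => simp [n1_one]
  | succ k ih => rw [pow_succ, pow_succ]; exact n1_mul_le' ih le_rfl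

theorem n1_lin (a b : ℂ) : n1 (C a + C b * X) ≤ ‖a‖ + ‖b‖ := by
  refine (n1_add_le _ _).trans ?_
  rw [n1_C, n1_C_mul, n1_X, mul_one]

theorem eval_le_n1 (p : ℂ[X]) {z : ℂ} (hz : ‖z‖ ≤ 1) : ‖p.eval z‖ ≤ n1 p := by
  rw [eval_eq_sum, Polynomial.sum_def]
  refine (norm_sum_le _ _).trans (Finset.sum_le_sum fun i _ => ?_)
  rw [norm_mul, norm_pow]
  exact mul_le_of_le_one_right (norm_nonneg _) (pow_le_one₀ (norm_nonneg _) hz)

theorem n1_split (q r : ℂ[X]) (d : ℕ) (hr : r.degree < d) : n1 q + n1 r ≤ n1 (X ^ d * q + r) := by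
  have h1 : n1 r = ∑ i ∈ Finset.range d, ‖(X ^ d * q + r).coeff i‖ := by
    rw [n1_eq r (Finset.range d)]
    · refine Finset.sum_congr rfl fun i hi => ?_
      rw [coeff_add, coeff_X_pow_mul', if_neg (by simpa using hi), zero_add]
    · intro i hi
      rw [Finset.mem_range]
      by_contra h
      exact mem_support_iff.1 hi
        (coeff_eq_zero_of_degree_lt (hr.trans_le (by exact_mod_cast not_lt.1 h)))
  have h2 : n1 q = ∑ i ∈ q.support.map (addRightEmbedding d), ‖(X ^ d * q + r).coeff i‖ := by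
    rw [Finset.sum_map, n1]
    refine Finset.sum_congr rfl fun i _ => ?_
    rw [addRightEmbedding_apply, coeff_add, coeff_X_pow_mul,
      coeff_eq_zero_of_degree_lt (hr.trans_le (by exact_mod_cast Nat.le_add_left d i)), add_zero]
  rw [h1, h2, ← Finset.sum_union]
  · exact sum_le_n1 _ _
  · rw [Finset.disjoint_left]
    intro i hi hi'
    obtain ⟨j, -, rfl⟩ := Finset.mem_map.1 hi
    simp at hi'

theorem n1_reflect_le (N : ℕ) (p : ℂ[X]) : n1 (reflect N p) ≤ n1 p := by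
  have : n1 (reflect N p) = ∑ i ∈ (reflect N p).support.map (revAt N), ‖p.coeff i‖ := by
    rw [Finset.sum_map, n1]
    exact Finset.sum_congr rfl fun i _ => by rw [coeff_reflect]
  rw [this]; exact sum_le_n1 _ _

theorem n1_taylor_le (c : ℂ) (p : ℂ[X]) {N : ℕ} (h : p.natDegree ≤ N) :
    n1 (taylor c p) ≤ n1 p * (1 + ‖c‖) ^ N := by
  rw [taylor_apply, comp_eq_sum_left, Polynomial.sum_def]
  refine (n1_sum_le _ _).trans ?_
  rw [n1, Finset.sum_mul]
  refine Finset.sum_le_sum fun i hi => ?_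
  rw [n1_C_mul]
  refine mul_le_mul_of_nonneg_left ((n1_pow_le _ _).trans ?_) (norm_nonneg _)
  have h1 : n1 (X + C c) ≤ 1 + ‖c‖ := (n1_add_le _ _).trans (by rw [n1_X, n1_C])
  exact (pow_le_pow_left₀ (n1_nonneg _) h1 i).trans
    (pow_le_pow_right₀ (by simp) ((le_natDegree_of_mem_supp i hi).trans h))

theorem n1_near {ι : Type} (s : Finset ι) (ζ : ι → ℂ) (ρ : ℝ) (h0 : 0 ≤ ρ) (h : ∀ i, ‖ζ i‖ ≤ ρ)
    (hs : 2 * s.card * ρ ≤ 1) : n1 (∏ i ∈ s, (X - C (ζ i)) - X ^ s.card) ≤ 2 * s.card * ρ := by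
  classical
  induction s using Finset.induction_on with
  | empty => simp [n1_zero]
  | insert a s ha ih =>
    rw [Finset.card_insert_of_notMem ha] at hs ⊢
    push_cast at hs ⊢
    have hs' : 2 * s.card * ρ ≤ 1 := by nlinarith
    have ih := ih hs'
    rw [Finset.prod_insert ha]
    set U := ∏ i ∈ s, (X - C (ζ i)) - X ^ s.card with hU
    have e : (X - C (ζ a)) * ∏ i ∈ s, (X - C (ζ i)) - X ^ (s.card + 1)
        = X * U - C (ζ a) * U - C (ζ a) * X ^ s.card := by rw [hU]; ring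
    rw [e]
    have h1 := n1_sub_le (X * U - C (ζ a) * U) (C (ζ a) * X ^ s.card)
    have h2 := n1_sub_le (X * U) (C (ζ a) * U)
    rw [n1_C_mul, n1_X_pow] at h1
    rw [n1_C_mul, n1_X_mul] at h2
    have h3 : ‖ζ a‖ * n1 U ≤ ρ * 1 := mul_le_mul (h a) (ih.trans hs') (n1_nonneg _) h0
    have := h a
    linarith

/-- `V` is monic of degree `d` and close to `X ^ d` -/
structure Near (d : ℕ) (V : ℂ[X]) : Prop where
  monic : V.Monic
  deg : V.natDegree = d
  near : n1 (V - X ^ d) ≤ 1 / 2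

theorem Near.n1_le {d : ℕ} {V : ℂ[X]} (h : Near d V) : n1 V ≤ 3 / 2 := by
  have h1 := n1_add_le (V - X ^ d) (X ^ d)
  rw [sub_add_cancel, n1_X_pow] at h1
  linarith [h.near]

theorem Near.degree {d : ℕ} {V : ℂ[X]} (h : Near d V) : V.degree = d := by
  rw [degree_eq_natDegree h.monic.ne_zero, h.deg]

theorem Near.div {d : ℕ} {V : ℂ[X]} (h : Near d V) (q r : ℂ[X]) (hr : r.degree < d) :
    n1 r ≤ n1 (r + V * q) ∧ n1 q ≤ 2 * n1 (r + V * q) := by
  have h1 := n1_split q r d hr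
  have e : X ^ d * q + r = (r + V * q) - (V - X ^ d) * q := by ring
  have h2 := n1_sub_le (r + V * q) ((V - X ^ d) * q)
  have h3 := n1_mul_le' h.near (le_refl (n1 q))
  rw [e] at h1
  have := n1_nonneg q
  have := n1_nonneg r
  constructor <;> linarith

theorem Near.split {d : ℕ} {V : ℂ[X]} (h : Near d V) (p : ℂ[X]) :
    ∃ q r : ℂ[X], r.degree < d ∧ p = r + V * q :=
  ⟨p /ₘ V, p %ₘ V, h.degree ▸ degree_modByMonic_lt p h.monic, (modByMonic_add_div p V).symm⟩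

/-- reduction modulo the square -/
theorem Near.two {d : ℕ} {V : ℂ[X]} (h : Near d V) (P Q : ℂ[X]) (hP : P.natDegree < 2 * d) :
    n1 P ≤ 4 * n1 (P + V ^ 2 * Q) ∧ n1 Q ≤ 4 * n1 (P + V ^ 2 * Q) := by
  have hq : (P /ₘ V).degree < d := by
    refine degree_le_natDegree.trans_lt ?_
    rw [natDegree_divByMonic P h.monic, h.deg]
    exact_mod_cast (by omega : P.natDegree - d < d)
  have hr : (P %ₘ V).degree < d := h.degree ▸ degree_modByMonic_lt P h.monic
  have e := modByMonic_add_div P V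
  have e' : P + V ^ 2 * Q = P %ₘ V + V * (P /ₘ V + V * Q) := by
    conv_lhs => rw [← e]
    ring
  obtain ⟨a1, a2⟩ := h.div (P /ₘ V + V * Q) (P %ₘ V) hr
  obtain ⟨b1, b2⟩ := h.div Q (P /ₘ V) hq
  rw [← e'] at a1 a2
  have c1 := n1_add_le (P %ₘ V) (V * (P /ₘ V))
  rw [e] at c1
  have c2 := n1_mul_le' h.n1_le (le_refl (n1 (P /ₘ V)))
  constructor <;> linarith

theorem near_prod {d : ℕ} (hd : 1 ≤ d) (ζ : Fin d → ℂ) (h : ∀ i, ‖ζ i‖ ≤ 1 / (4 * d)) :
    Near d (∏ i, (X - C (ζ i))) := by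
  have hd' : (0 : ℝ) < d := by exact_mod_cast hd
  have e : 2 * ((Finset.univ : Finset (Fin d)).card : ℝ) * (1 / (4 * d)) = 1 / 2 := by
    simp only [Finset.card_univ, Fintype.card_fin]; field_simp; norm_num
  refine ⟨monic_prod_of_monic _ _ fun i _ => monic_X_sub_C _, ?_, ?_⟩
  · rw [natDegree_prod_of_monic _ _ fun i _ => monic_X_sub_C _]; simp
  · have := n1_near Finset.univ ζ (1 / (4 * d)) (by positivity) h (by rw [e]; norm_num)
    rw [e] at this
    simpa using this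

end Pool.Agent.VW
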