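import Pool.Agent.P.MP_b0ea37_nt.WMaN
import Pool.Agent.P.MP_b0ea37_nt.WHt

namespace Pool.Agent.VW

open Polynomial

theorem prod_three {ι : Type} (s : Finset ι) (L k : ι → ℂ[X]) (δ : ι → ℂ) (B κ l : ℝ) (hB : 0 ≤ B)
    (hκ : 0 ≤ κ) (hl0 : 0 ≤ l) (hl : l ≤ 1) (hL : ∀ i, n1 (L i) ≤ B) (hδ : ∀ i, ‖δ i‖ ≤ l)
    (hk : ∀ i, n1 (k i) ≤ κ * l ^ 2) : ∃ D S T : ℂ[X],
      ∏ i ∈ s, (L i + C (δ i) * X) = ∏ i ∈ s, L i + X * D + X ^ 2 * S ∧
      ∏ i ∈ s, (L i - C (δ i) * X) = ∏ i ∈ s, L i - X * D + X ^ 2 * S ∧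
      ∏ i ∈ s, (L i - X ^ 2 * k i) = ∏ i ∈ s, L i + X ^ 2 * T ∧
      n1 (∏ i ∈ s, L i) ≤ (B + 2 + 2 * κ) ^ s.card ∧ n1 D ≤ (B + 2 + 2 * κ) ^ s.card * l ∧
      n1 S ≤ (B + 2 + 2 * κ) ^ s.card * l ^ 2 ∧ n1 T ≤ (B + 2 + 2 * κ) ^ s.card * l ^ 2 := by
  classical
  induction s using Finset.induction_on with
  | empty => exact ⟨0, 0, 0, by simp, by simp, by simp, by simp [n1_one],
      by simp [n1_zero, hl0], by simp [n1_zero, sq_nonneg], by simp [n1_zero, sq_nonneg]⟩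
  | insert a s ha ih =>
    obtain ⟨D, S, T, e1, e2, e3, h0, h1, h2, h3⟩ := ih
    simp only [Finset.prod_insert ha, Finset.card_insert_of_notMem ha, pow_succ _ s.card]
    rw [e1, e2, e3]
    have hR : 0 ≤ (B + 2 + 2 * κ) ^ s.card := by positivity
    generalize (B + 2 + 2 * κ) ^ s.card = R at *
    generalize ∏ i ∈ s, L i = P at *
    have hl2 : l ^ 2 ≤ 1 := pow_le_one₀ hl0 hl
    have hl3 : 0 ≤ l ^ 2 := sq_nonneg l
    have hd : n1 (C (δ a)) ≤ l := by rw [n1_C]; exact hδ a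
    have hRl := mul_nonneg hR hl0
    have hRl2 := mul_nonneg hR hl3
    refine ⟨D * L a + C (δ a) * P + X ^ 2 * (C (δ a) * S), S * L a + C (δ a) * D,
      T * L a - P * k a - X ^ 2 * (T * k a), by ring, by ring, by ring, ?_, ?_, ?_, ?_⟩
    · have := n1_mul_le' (hL a) h0
      nlinarith [mul_nonneg hR hκ]
    · have a1 := n1_add_le (D * L a + C (δ a) * P) (X ^ 2 * (C (δ a) * S))
      have a2 := n1_add_le (D * L a) (C (δ a) * P)
      rw [n1_X_pow_mul] at a1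
      have a3 := n1_mul_le' h1 (hL a)
      have a4 := n1_mul_le' hd h0
      have a5 := n1_mul_le' hd h2
      have a6 := mul_le_mul_of_nonneg_left hl2 hRl
      nlinarith [mul_nonneg hRl hκ]
    · have a2 := n1_add_le (S * L a) (C (δ a) * D)
      have a3 := n1_mul_le' h2 (hL a)
      have a4 := n1_mul_le' hd h1
      nlinarith [mul_nonneg hRl2 hκ]
    · have a1 := n1_sub_le (T * L a - P * k a) (X ^ 2 * (T * k a))
      have a2 := n1_sub_le (T * L a) (P * k a)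
      rw [n1_X_pow_mul] at a1
      have a3 := n1_mul_le' h3 (hL a)
      have a4 := n1_mul_le' h0 (hk a)
      have a5 := n1_mul_le' h3 (hk a)
      have a6 := mul_le_mul_of_nonneg_left hl2 (mul_nonneg hRl2 hκ)
      nlinarith

theorem prod_near {n : ℕ} (w : Fin n → ℂ) (t : ℝ) (h : ∀ i, ‖w i‖ ≤ t) (ht0 : 0 ≤ t)
    (ht : n * t ≤ 1) : ‖∏ i, (1 + w i) - 1‖ ≤ 2 * (n * t) := by
  refine (Finset.norm_prod_one_add_sub_one_le _ _).trans ?_
  have h1 : ∑ i, ‖w i‖ ≤ n * t :=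
    (Finset.sum_le_sum fun i _ => h i).trans (by simp)
  have h2 : 0 ≤ n * t := by positivity
  have h3 := Real.abs_exp_sub_one_le (x := n * t) (by rwa [abs_of_nonneg h2])
  rw [abs_of_nonneg h2] at h3
  have h4 := Real.exp_le_exp.2 h1
  linarith [le_abs_self (Real.exp (n * t) - 1)]

theorem exists_far {d : ℕ} (η : Fin d → ℂ) (R : ℝ) (hR : 0 ≤ R) :
    ∃ t : ℂ, ‖t‖ ≤ 2 * R * d ∧ ∀ k, R ≤ ‖η k - t‖ := by
  by_contra h
  have h' : ∀ j : Fin (d + 1), ∃ k, ‖η k - ((2 * R * j : ℝ) : ℂ)‖ < R := fun j => by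
    by_contra hc
    refine h ⟨((2 * R * j : ℝ) : ℂ), ?_, fun k => not_lt.1 fun hk => hc ⟨k, hk⟩⟩
    rw [Complex.norm_real, Real.norm_of_nonneg (by positivity)]
    have : ((j : ℕ) : ℝ) ≤ d := by exact_mod_cast Nat.lt_succ_iff.1 j.2
    gcongr
  choose φ hφ using h'
  obtain ⟨i, j, hij, e⟩ := Fintype.exists_ne_map_eq_of_card_lt φ (by simp)
  have h1 := hφ i
  have h2 := hφ j
  rw [← e] at h2
  have h3 := norm_sub_le (η (φ i) - ((2 * R * j : ℝ) : ℂ)) (η (φ i) - ((2 * R * i : ℝ) : ℂ))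
  rw [sub_sub_sub_cancel_left, ← Complex.ofReal_sub, Complex.norm_real, Real.norm_eq_abs,
    ← mul_sub, abs_mul, abs_of_nonneg (by positivity : 0 ≤ 2 * R)] at h3
  have h4 : (1 : ℝ) ≤ |((i : ℕ) : ℝ) - (j : ℕ)| := by
    have : (1 : ℤ) ≤ |((i : ℕ) : ℤ) - (j : ℕ)| :=
      Int.one_le_abs (sub_ne_zero.2 (by exact_mod_cast Fin.val_ne_of_ne hij))
    exact_mod_cast this
  nlinarith

theorem eval_lip (v : ℂ[X]) {d : ℕ} (hd : 1 ≤ d) (hv : v.natDegree = d) (R : ℝ) (hR : 1 ≤ R)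
    (z w : ℂ) (hz : ‖z‖ ≤ R) (hw : ‖w‖ ≤ R) :
    ‖v.eval z - v.eval w‖ * R ≤ d ^ 2 * v.supNorm * R ^ d * ‖z - w‖ := by
  have h1 : ∀ u ∈ Metric.closedBall (0 : ℂ) R,
      ‖deriv (fun x => v.eval x) u‖ ≤ d ^ 2 * v.supNorm * R ^ (d - 1) := fun u hu => by
    rw [Polynomial.deriv]
    have h2 := norm_eval_le (derivative v) (m := d - 1) (hv ▸ natDegree_derivative_le v) u
    have h3 := sup_derivative_le v hv.le
    have h4 : (max 1 ‖u‖) ^ (d - 1) ≤ R ^ (d - 1) :=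
      pow_le_pow_left₀ (by positivity) (max_le hR (mem_closedBall_zero_iff.1 hu)) _
    have h5 : ((d - 1 : ℕ) : ℝ) + 1 = d := by rw [Nat.cast_sub hd]; simp
    rw [h5] at h2
    have := v.supNorm_nonneg
    calc _ ≤ _ := h2
      _ ≤ d * (d * v.supNorm) * R ^ (d - 1) := by gcongr
      _ = _ := by ring
  have h2 := Convex.norm_image_sub_le_of_norm_deriv_le (fun x _ => v.differentiableAt) h1
    (convex_closedBall _ _) (mem_closedBall_zero_iff.2 hw) (mem_closedBall_zero_iff.2 hz)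
  have h3 : R ^ d = R ^ (d - 1) * R := by rw [← pow_succ, Nat.sub_add_cancel hd]
  rw [h3]
  have := mul_le_mul_of_nonneg_right h2 (by linarith : 0 ≤ R)
  linarith

theorem sup_pos {v : ℂ[X]} (hv : v ≠ 0) : 0 < v.supNorm :=
  (norm_pos_iff.2 (leadingCoeff_ne_zero.2 hv)).trans_le (v.le_supNorm _)

/-- two polynomials of one cell are close at every root of `v` -/
theorem arch_ratio (n d : ℕ) (hd : 1 ≤ d) : ∃ c K : ℝ, 0 < c ∧ 0 < K ∧
    ∀ (v : ℂ[X]) (θ θ' : Fin n → ℂ) (m ε : Fin n → ℝ) (l : ℝ), v.natDegree = d →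
      (∀ i, 1 ≤ m i) → (∀ i, ‖θ i‖ ≤ m i) → (∀ i, 0 < ε i) → (∀ i, ε i ≤ 1) →
      (∀ i, ε i * v.supNorm * m i ^ d ≤ ‖v.eval (θ i)‖) → 0 ≤ l → l ≤ c →
      (∀ i, ‖θ i - θ' i‖ ≤ l * ε i * m i) → ∀ η, v.eval η = 0 →
      (∏ i, (X - C (θ i))).eval η ≠ 0 ∧
        ‖(∏ i, (X - C (θ' i))).eval η / (∏ i, (X - C (θ i))).eval η - 1‖ ≤ K * l := by
  have hd' : (1 : ℝ) ≤ d := by exact_mod_cast hd
  obtain ⟨κ, hκ, hκ1⟩ : ∃ κ : ℝ, κ = d ^ 2 * 2 ^ d ∧ 1 ≤ κ :=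
    ⟨_, rfl, one_le_mul_of_one_le_of_one_le (one_le_pow₀ hd') (one_le_pow₀ one_le_two)⟩
  refine ⟨1 / ((n + 1) * κ), 2 * (n + 1) * κ, by positivity, by positivity, ?_⟩
  intro v θ θ' m ε l hv hm hθ hε0 hε1 hvθ hl0 hl hθ' η hη
  have hX := sup_pos (v := v) (by rintro rfl; simp at hv; omega)
  have hsep : ∀ i, ε i * m i ≤ κ * ‖η - θ i‖ := fun i => by
    have hm0 : 0 < m i := by linarith [hm i]
    by_cases hc : ‖η - θ i‖ ≤ m i
    · have h1 : ‖η‖ ≤ 2 * m i := by linarith [norm_sub_norm_le η (θ i), hθ i]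
      have h2 := eval_lip v hd hv (2 * m i) (by linarith [hm i]) η (θ i) h1 (by linarith [hθ i])
      rw [hη, zero_sub, norm_neg, mul_pow] at h2
      have h3 := mul_le_mul_of_nonneg_right (hvθ i) (by positivity : 0 ≤ 2 * m i)
      have h4 : 0 < v.supNorm * m i ^ d := by positivity
      have h5 := mul_pos h4 (mul_pos (hε0 i) hm0)
      refine le_of_mul_le_mul_left ?_ h4
      rw [hκ]; nlinarith
    · have h1 := mul_le_mul_of_nonneg_right (hε1 i) hm0.le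
      have h2 := mul_le_mul_of_nonneg_right hκ1 (norm_nonneg (η - θ i))
      linarith
  have hne : ∀ i, η - θ i ≠ 0 := fun i h0 => by
    have := hsep i
    rw [h0, norm_zero, mul_zero] at this
    linarith [mul_pos (hε0 i) (by linarith [hm i] : 0 < m i)]
  simp only [eval_prod, eval_sub, eval_X, eval_C]
  refine ⟨Finset.prod_ne_zero_iff.2 fun i _ => hne i, ?_⟩
  rw [← Finset.prod_div_distrib, Finset.prod_congr rfl (g := fun i => 1 + (θ i - θ' i) / (η - θ i))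
    fun i _ => by have := hne i; field_simp; ring]
  rw [le_div_iff₀ (by positivity)] at hl
  have hlκ : 0 ≤ l * κ := by positivity
  refine (prod_near _ (l * κ) (fun i => ?_) hlκ (by linarith)).trans (by nlinarith)
  rw [norm_div, div_le_iff₀ (norm_pos_iff.2 (hne i))]
  have := mul_le_mul_of_nonneg_left (hsep i) hl0
  linarith [hθ' i]

/-- square roots of numbers near one with the same sign of the real part -/
theorem arch_sign (a b : ℂ) (ha : ‖a ^ 2 - 1‖ ≤ 1 / 2) (hb : ‖b ^ 2 - 1‖ ≤ 1 / 2)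
    (h : 0 < a.re ↔ 0 < b.re) : 0 < (b / a).re := by
  have key : ∀ z : ℂ, ‖z ^ 2 - 1‖ ≤ 1 / 2 → z.im ^ 2 < z.re ^ 2 := fun z hz => by
    have h1 := (abs_le.1 ((Complex.abs_re_le_norm _).trans hz)).1
    simp only [sq, Complex.sub_re, Complex.mul_re, Complex.one_re] at h1
    nlinarith
  have h1 := key a ha
  have h2 := key b hb
  have ha0 : a.re ≠ 0 := fun h0 => by rw [h0] at h1; nlinarith [sq_nonneg a.im]
  have hb0 : b.re ≠ 0 := fun h0 => by rw [h0] at h2; nlinarith [sq_nonneg b.im]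
  have h3 : 0 < a.re * b.re := by
    rcases lt_or_gt_of_ne ha0 with h4 | h4
    · exact mul_pos_of_neg_of_neg h4 (lt_of_le_of_ne (not_lt.1 fun h5 => h4.not_gt (h.2 h5)) hb0)
    · exact mul_pos h4 (h.1 h4)
  have h4 : (a.im * b.im) ^ 2 < (a.re * b.re) ^ 2 := by
    rw [mul_pow, mul_pow]; exact mul_lt_mul'' h1 h2 (sq_nonneg _) (sq_nonneg _)
  have h5 := (abs_lt_of_sq_lt_sq' h4 h3.le).1
  rw [Complex.div_re, ← add_div]
  exact div_pos (by linarith) (Complex.normSq_pos.2 fun h0 => ha0 (by rw [h0]; simp))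

/-- an element that vanishes at no root is a unit -/
theorem unit_of_eval {d : ℕ} (ζ : Fin d → ℂ) (p : ℂ[X]) (h : ∀ j, p.eval (ζ j) ≠ 0) :
    IsUnit (AdjoinRoot.mk ((∏ j, (X - C (ζ j))) ^ 2) p) := by
  have h1 : IsCoprime p ((∏ j, (X - C (ζ j))) ^ 2) :=
    (IsCoprime.prod_right fun j _ => ((irreducible_X_sub_C (ζ j)).coprime_iff_not_dvd.2
      fun hd => h j (dvd_iff_isRoot.1 hd)).symm).pow_right
  obtain ⟨a, b, e⟩ := h1
  refine IsUnit.of_mul_eq_one (AdjoinRoot.mk _ a) ?_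
  rw [← map_mul, ← map_one (AdjoinRoot.mk _), AdjoinRoot.mk_eq_mk]
  exact ⟨-b, by linear_combination e⟩

end Pool.Agent.VW
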