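import Pool.Agent.P.MP_b0ea37_nt.WMloc
import Pool.Agent.P.MP_b0ea37_nt.WMDefs

namespace Pool.Agent.VW

open Polynomial Matrix

theorem wmadm_aeval (z : ℂ) (g : ℤ[X]) :
    aeval (starRingEnd ℂ z) g = starRingEnd ℂ (aeval z g) :=
  aeval_algHom_apply (starRingEnd ℂ).toIntAlgHom z g

theorem wmadm_zt (d p : ℕ) (v : ℤ[X]) (z : ℂ) :
    zt d p v (starRingEnd ℂ z) = starRingEnd ℂ (zt d p v z) := by
  simp [zt]

theorem wmadm_pz (d p : ℕ) (D : Dat) (z : ℂ) :
    pz d p D (starRingEnd ℂ z) = starRingEnd ℂ (pz d p D z) := by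
  rw [pz, pz, wmadm_zt, wmadm_aeval]

theorem gram_adm {n d g : ℕ} {D₀ D : Dat} (h₀ : Ok n d D₀) (h : Ok n d D) (e : D₀.v = D.v)
    {η : Fin d → ℂ} (hη : Lst D.v η) {E : Matrix (Fin d) (Fin d) ℂ}
    (hE : Glued (fun p => Eloc d g p D₀ D η) E) {A B : Matrix (Fin d) (Fin d) ℤ}
    (hG : Gr E (alf D₀ D η) η A B) (hA : A.det ≠ 0)
    (hA' : A.det ∣ D.v.leadingCoeff * (d.factorial : ℤ) ^ (d - 1)) :
    Adm ((d.factorial : ℝ) ^ (d - 1) * (d + 1) * D.v.supNorm) A B := by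
  have hv := h.1
  have hl : 0 < D.v.leadingCoeff := hv.2.2.1
  have hl' : (D.v.leadingCoeff : ℂ) ≠ 0 := by exact_mod_cast hl.ne'
  have hinj := hη.injective hv
  have hc : (∏ k, (X - C (η k))).map (starRingEnd ℂ) = ∏ k, (X - C (η k)) := by
    have h1 : (up ℂ D.v).map (starRingEnd ℂ) = up ℂ D.v := by
      rw [Polynomial.map_map]
      congr 1
      exact RingHom.ext_int _ _
    rw [hη, Polynomial.map_mul, map_C, map_intCast] at h1
    exact mul_left_cancel₀ (C_ne_zero.2 hl') h1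
  obtain ⟨s, -, hs⟩ := exists_conj η hinj hc
  obtain ⟨N, U, -, hN, hU, -⟩ := hE 2 Nat.prime_two
  have hN0 : (N : ℂ) ≠ 0 := by
    intro h0
    have : N = 0 := by exact_mod_cast h0
    exact hN (this ▸ dvd_zero _)
  have hU' : ∀ a k, (N : ℂ) * E a k = ∑ b, (U a b : ℂ) * Eloc d g 2 D₀ D η b k := fun a k => by
    have := congrFun (congrFun hU a) k
    simpa [Matrix.mul_apply] using this
  have hL : ∀ b k, Eloc d g 2 D₀ D η b (s k) = starRingEnd ℂ (Eloc d g 2 D₀ D η b k) := by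
    intro b k
    simp only [Eloc, Matrix.of_apply, hs, wmadm_pz, wmadm_zt, map_div₀, map_mul, map_pow]
  refine ⟨E, alf D₀ D η, η, s, hinj, hA, fun k => ⟨hs k, ?_, fun a => ?_⟩, hG.1, hG.2, ?_⟩
  · simp only [alf, hs, wmadm_aeval, map_div₀, map_mul]
  · apply mul_left_cancel₀ hN0
    have := congrArg (starRingEnd ℂ) (hU' a k)
    rw [map_mul, map_intCast, map_sum] at this
    rw [this, hU']
    refine Finset.sum_congr rfl fun b _ => ?_
    rw [map_mul, map_intCast, hL]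
  · have h1 : |A.det| ≤ D.v.leadingCoeff * (d.factorial : ℤ) ^ (d - 1) :=
      Int.le_of_dvd (by positivity) ((abs_dvd _ _).2 hA')
    have h2 : |(A.det : ℝ)| ≤ (D.v.leadingCoeff : ℝ) * (d.factorial : ℝ) ^ (d - 1) := by
      exact_mod_cast h1
    have h3 := prod_max_le (D.v.leadingCoeff : ℂ) η
    rw [← hη, sup_up_complex, Complex.norm_intCast,
      abs_of_pos (show (0 : ℝ) < D.v.leadingCoeff by exact_mod_cast hl)] at h3
    have h4 : 0 ≤ ∏ k, max 1 ‖η k‖ :=
      Finset.prod_nonneg fun k _ => zero_le_one.trans (le_max_left _ _)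
    calc _ ≤ (D.v.leadingCoeff : ℝ) * (d.factorial : ℝ) ^ (d - 1) * ∏ k, max 1 ‖η k‖ := by gcongr
      _ = (d.factorial : ℝ) ^ (d - 1) * ((D.v.leadingCoeff : ℝ) * ∏ k, max 1 ‖η k‖) := by ring
      _ ≤ (d.factorial : ℝ) ^ (d - 1) * ((d + 1) * D.v.supNorm) := by gcongr
      _ = _ := by ring

theorem wmadm_det {d : ℕ} {η al : Fin d → ℂ} {E : Matrix (Fin d) (Fin d) ℂ}
    {A B : Matrix (Fin d) (Fin d) ℤ} (hG : Gr E al η A B) (x y : ℂ) :
    (x • A.map (Int.cast : ℤ → ℂ) - y • B.map (Int.cast : ℤ → ℂ)).det =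
      E.det ^ 2 * (∏ k, al k) * ∏ k, (x - y * η k) := by
  have h1 : x • A.map (Int.cast : ℤ → ℂ) - y • B.map (Int.cast : ℤ → ℂ) =
      E * Matrix.diagonal (fun k => al k * (x - y * η k)) * Eᵀ := by
    ext a b
    rw [Matrix.mul_apply]
    simp only [Matrix.sub_apply, Matrix.smul_apply, Matrix.map_apply, smul_eq_mul, hG.1, hG.2,
      Matrix.mul_diagonal, Matrix.transpose_apply, Finset.mul_sum, ← Finset.sum_sub_distrib]
    exact Finset.sum_congr rfl fun k _ => by ring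
  rw [h1, Matrix.det_mul, Matrix.det_mul, Matrix.det_transpose, Matrix.det_diagonal,
    Finset.prod_mul_distrib]
  ring

/-- equivalent pairs have the same characteristic polynomial -/
theorem same_v {d : ℕ} {v v' : ℤ[X]} (hv : VOk d v) (hv' : VOk d v') {η η' al al' : Fin d → ℂ}
    (hη : Lst v η) (hη' : Lst v' η') {E E' : Matrix (Fin d) (Fin d) ℂ}
    {A B A' B' U : Matrix (Fin d) (Fin d) ℤ} (hG : Gr E al η A B) (hG' : Gr E' al' η' A' B')
    (hA : A'.det ≠ 0) (h₁ : U * A * Uᵀ = A') (h₂ : U * B * Uᵀ = B') : v = v' := by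
  have hm : ∀ M : Matrix (Fin d) (Fin d) ℤ, (U * M * Uᵀ).map (Int.cast : ℤ → ℂ) =
      U.map (Int.cast : ℤ → ℂ) * M.map (Int.cast : ℤ → ℂ) * (U.map (Int.cast : ℤ → ℂ))ᵀ := by
    intro M
    ext a b
    simp [Matrix.mul_apply]
  have key : ∀ x y : ℂ, E'.det ^ 2 * (∏ k, al' k) * ∏ k, (x - y * η' k) =
      (U.map (Int.cast : ℤ → ℂ)).det ^ 2 * (E.det ^ 2 * (∏ k, al k)) * ∏ k, (x - y * η k) := by
    intro x y
    have e : ∀ P Q W : Matrix (Fin d) (Fin d) ℂ, x • (W * P * Wᵀ) - y • (W * Q * Wᵀ) =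
        W * (x • P - y • Q) * Wᵀ := fun P Q W => by
      simp only [Matrix.mul_sub, Matrix.sub_mul, Matrix.mul_smul, Matrix.smul_mul]
    rw [← wmadm_det hG', ← h₁, ← h₂, hm, hm, e, Matrix.det_mul,
      Matrix.det_mul, Matrix.det_transpose, wmadm_det hG]
    ring
  have h0 := key 1 0
  have h1 := wmadm_det hG' 1 0
  simp only [zero_mul, sub_zero, Finset.prod_const_one, mul_one, one_smul, zero_smul] at h0 h1
  have h2 : E'.det ^ 2 * ∏ k, al' k ≠ 0 := by
    rw [← h1]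
    have := (Int.castRingHom ℂ).map_det A'
    rw [RingHom.mapMatrix_apply] at this
    have h3 : (A'.map (Int.cast : ℤ → ℂ)).det = (A'.det : ℂ) := this.symm
    rw [h3]
    exact_mod_cast hA
  have h3 : (∏ k, (X - C (η' k)) : ℂ[X]) = ∏ k, (X - C (η k)) := by
    refine Polynomial.funext fun x => ?_
    have := key x 1
    rw [← h0] at this
    simpa [eval_prod] using mul_left_cancel₀ h2 this
  have h4 : C v'.leadingCoeff * v = C v.leadingCoeff * v' := by
    apply Polynomial.map_injective (Int.castRingHom ℂ) (RingHom.injective_int _)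
    have e1 : v.map (Int.castRingHom ℂ) = _ := hη
    have e2 : v'.map (Int.castRingHom ℂ) = _ := hη'
    rw [Polynomial.map_mul, Polynomial.map_mul, map_C, map_C, e1, e2, h3, eq_intCast, eq_intCast]
    ring
  have h5 := congrArg content h4
  rw [content_C_mul, content_C_mul, hv.2.1.content_eq_one, hv'.2.1.content_eq_one, mul_one, mul_one,
    Int.normalize_of_nonneg hv.2.2.1.le, Int.normalize_of_nonneg hv'.2.2.1.le] at h5
  rw [h5] at h4
  exact mul_left_cancel₀ (C_ne_zero.2 hv.2.2.1.ne') h4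

end Pool.Agent.VW
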