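import Pool.Agent.P.MP_b0ea37_nt.WMcc2

namespace Pool.Agent.VW

open Polynomial

theorem cc3_disc {c : ℤ[X]} (hc : c.natDegree = 2) (hs : Squarefree (up ℚ c)) :
    c.coeff 2 ≠ 0 ∧ c.coeff 1 ^ 2 - 4 * c.coeff 2 * c.coeff 0 ≠ 0 := by
  have hc0 : c ≠ 0 := by rintro rfl; simp at hc
  have h2 : c.coeff 2 ≠ 0 := by
    have h2 := leadingCoeff_ne_zero.2 hc0
    rwa [leadingCoeff, hc] at h2
  refine ⟨h2, fun h => ?_⟩
  have h2' : ((c.coeff 2 : ℤ) : ℚ) ≠ 0 := by exact_mod_cast h2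
  have h' : ((c.coeff 1 : ℤ) : ℚ) ^ 2 - 4 * (c.coeff 2 : ℤ) * (c.coeff 0 : ℤ) = 0 := by
    exact_mod_cast h
  set r : ℚ := -((c.coeff 1 : ℤ) : ℚ) / (2 * (c.coeff 2 : ℤ)) with hr
  have e : up ℚ c = C ((c.coeff 0 : ℤ) : ℚ) + C ((c.coeff 1 : ℤ) : ℚ) * X +
      C ((c.coeff 2 : ℤ) : ℚ) * X ^ 2 := by
    conv_lhs => rw [c.as_sum_range_C_mul_X_pow' (n := 3) (by omega)]
    simp [up, Finset.sum_range_succ]
  have e1 : ((c.coeff 1 : ℤ) : ℚ) = -2 * (c.coeff 2 : ℤ) * r := by rw [hr]; field_simp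
  have e0 : ((c.coeff 0 : ℤ) : ℚ) = (c.coeff 2 : ℤ) * r ^ 2 := by
    rw [e1] at h'
    apply mul_left_cancel₀ (mul_ne_zero (four_ne_zero) h2')
    linear_combination -h'
  have : (X - C r) * (X - C r) ∣ up ℚ c := by
    refine ⟨C ((c.coeff 2 : ℤ) : ℚ), ?_⟩
    rw [e, e0, e1]
    simp only [map_mul, map_pow, map_neg, map_ofNat]
    ring
  exact not_isUnit_X_sub_C r (hs _ this)

theorem cc3_max (u w x t : ℂ) (D : ℂ) (om : ℝ) (hom : 1 ≤ om) (h1 : u * w = D) (h2 : u + w = 2 * x)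
    (hD : ‖D‖ ≤ 5 * om ^ 2) (hx : ‖x‖ ≤ 3 * om * max 1 ‖t‖) :
    max 1 ‖u‖ * max 1 ‖w‖ ≤ 12 * om ^ 2 * max 1 ‖t‖ := by
  have m1 := le_max_left 1 ‖t‖
  set m := max 1 ‖t‖
  have a0 : om ≤ om ^ 2 := by nlinarith
  have a1 : om ^ 2 ≤ om ^ 2 * m := by nlinarith
  have a2 : om * m ≤ om ^ 2 * m := by nlinarith
  have hu : ‖u‖ ≤ 2 * ‖x‖ + ‖w‖ := by
    have : u = 2 * x - w := by linear_combination h2
    rw [this]
    simpa using norm_sub_le (2 * x) w
  have hw : ‖w‖ ≤ 2 * ‖x‖ + ‖u‖ := by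
    have : w = 2 * x - u := by linear_combination h2
    rw [this]
    simpa using norm_sub_le (2 * x) u
  rcases le_total 1 ‖u‖ with a | a <;> rcases le_total 1 ‖w‖ with b | b
  · rw [max_eq_right a, max_eq_right b, ← norm_mul, h1]; nlinarith
  · rw [max_eq_right a, max_eq_left b]; nlinarith
  · rw [max_eq_left a, max_eq_right b]; nlinarith
  · rw [max_eq_left a, max_eq_left b]; nlinarith

theorem cc3_md {n : ℕ} (b : Fin n → ℂ) :
    (∏ i, (X - C (b i))).coeff n = 1 ∧ ∀ j, n < j → (∏ i, (X - C (b i))).coeff j = 0 := by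
  have h1 : (∏ i, (X - C (b i))).Monic := monic_prod_of_monic _ _ fun i _ => monic_X_sub_C _
  have h2 : (∏ i, (X - C (b i))).natDegree = n := by
    rw [natDegree_prod_of_monic _ _ (fun i _ => monic_X_sub_C (b i))]; simp
  refine ⟨?_, fun j hj => coeff_eq_zero_of_natDegree_lt (by rw [h2]; exact hj)⟩
  have := h1.coeff_natDegree
  rwa [h2] at this

/-- the coefficients that fix the product -/
theorem cc3_uniq {n : ℕ} (u w u' w' : Fin n → ℂ) (D : ℂ) (hD : D ≠ 0) (h : ∀ i, u i * w i = D)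
    (h' : ∀ i, u' i * w' i = D)
    (he : ∀ i : Fin (n / 2 + 1),
      (∏ l, (X - C (u l))).coeff (if i.1 = 0 then 0 else n - i) =
        (∏ l, (X - C (u' l))).coeff (if i.1 = 0 then 0 else n - i) ∧
      (∏ l, (X - C (w l))).coeff (if i.1 = 0 then 0 else n - i) =
        (∏ l, (X - C (w' l))).coeff (if i.1 = 0 then 0 else n - i)) :
    ∏ l, (X - C (u l)) = ∏ l, (X - C (u' l)) := by
  have h0 := he ⟨0, by omega⟩
  simp only [if_true] at h0
  ext j
  rcases lt_trichotomy j n with hj | hj | hj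
  · rcases Nat.eq_zero_or_pos j with rfl | hj0
    · exact h0.1
    by_cases hh : n - j ≤ n / 2
    · have := (he ⟨n - j, by omega⟩).1
      simp only [show ¬ (n - j = 0) by omega, if_false, show n - (n - j) = j by omega] at this
      exact this
    · have := (he ⟨j, by omega⟩).2
      simp only [show ¬ (j = 0) by omega, if_false] at this
      have s1 := cc1_sym u w D h j hj.le
      have s2 := cc1_sym u' w' D h' j hj.le
      rw [this, ← s2, h0.2] at s1
      refine mul_left_cancel₀ ?_ s1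
      rw [coeff_zero_prod]
      refine Finset.prod_ne_zero_iff.2 fun i _ => ?_
      have : w' i ≠ 0 := fun e => hD (by rw [← h' i, e, mul_zero])
      simpa using this
  · rw [hj, (cc3_md u).1, (cc3_md u').1]
  · rw [(cc3_md u).2 j hj, (cc3_md u').2 j hj]

/-- the quadratic case -/
theorem cc3_quad (n : ℕ) (c : ℤ[X]) (hc : c.natDegree = 2) (hsq : Squarefree (up ℚ c)) (om H : ℝ)
    (hom : 1 ≤ om) (hcom : c.supNorm ≤ om) (hH : 1 ≤ H) (K : ℝ)
    (hK : Cnt (fun k : ℕ => (2 : ℝ) ^ k ≤ (12 * om ^ 2) ^ n * ((n + 1) * H)) K) :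
    Cnt (fun f : ℤ[X] => f.Monic ∧ f.natDegree = n ∧ f.supNorm ≤ H ∧
      ∃ q : ℚ[X], up ℚ f ∣ q ^ 2 + up ℚ c)
      (K * (100 * om * 4 ^ n * ((12 * om ^ 2) ^ n * ((n + 1) * H))) ^ (n / 2 + 1)) := by
  set T : ℝ := (12 * om ^ 2) ^ n * ((n + 1) * H) with hT
  have hT0 : 0 < T := by positivity
  obtain ⟨h2, hD⟩ := cc3_disc hc hsq
  set D : ℤ := c.coeff 1 ^ 2 - 4 * c.coeff 2 * c.coeff 0 with hDdef
  have h2' : ((c.coeff 2 : ℤ) : ℂ) ≠ 0 := by exact_mod_cast h2
  have hD' : (D : ℂ) ≠ 0 := by exact_mod_cast hD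
  obtain ⟨s, hs⟩ := IsAlgClosed.exists_pow_nat_eq ((-4 * c.coeff 2 : ℤ) : ℂ) (n := 2) (by norm_num)
  have b0 := (cc2_coeff_abs c 0).trans hcom
  have b1 := (cc2_coeff_abs c 1).trans hcom
  have b2 := (cc2_coeff_abs c 2).trans hcom
  have hs0 : s ≠ 0 := by
    rintro rfl
    apply h2'
    push_cast at hs
    linear_combination (1 / 4 : ℂ) * hs
  have hsn : ‖s‖ ≤ 2 * om := by
    refine (abs_le_of_sq_le_sq' ?_ (by positivity)).2
    rw [← norm_pow, hs]
    push_cast
    rw [norm_mul]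
    simp only [norm_neg, Complex.norm_ofNat]
    nlinarith
  have hev : ∀ z : ℂ, aeval z c = c.coeff 0 + c.coeff 1 * z + c.coeff 2 * z ^ 2 := by
    intro z
    rw [aeval_eq_sum_range' (n := 3) (by omega)]
    simp [Finset.sum_range_succ]
  let φ : ℂ → ℂ := fun u => ((u + D / u) / 2 - (c.coeff 1 : ℤ)) / (2 * (c.coeff 2 : ℤ))
  refine (hK.fibre (P := fun (k : ℕ) (f : ℤ[X]) => ∃ u w : Fin n → ℂ, (∀ i, u i * w i = D) ∧
      up ℂ f = ∏ i, (X - C (φ (u i))) ∧ ∀ j, ∃ z : ℤ × ℤ,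
        ‖(∏ i, (X - C (u i))).coeff j‖ ≤ 2 ^ n * (2 * 2 ^ k) ∧
        ‖(∏ i, (X - C (w i))).coeff j‖ ≤ 2 ^ n * (T / 2 ^ k) ∧
        (z.1 : ℂ) = s * ((∏ i, (X - C (u i))).coeff j - (∏ i, (X - C (w i))).coeff j) ∧
        (z.2 : ℂ) = (∏ i, (X - C (u i))).coeff j + (∏ i, (X - C (w i))).coeff j)
      (B' := (100 * om * 4 ^ n * T) ^ (n / 2 + 1)) (by positivity) fun k hk => ?_).mono ?_ le_rfl
  · have p2 : (1 : ℝ) ≤ 2 ^ n := one_le_pow₀ (by norm_num)
    have pk : (1 : ℝ) ≤ 2 ^ k := one_le_pow₀ (by norm_num)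
    have hp := cc2_pair s (2 * om) (2 ^ n * (2 * 2 ^ k)) (2 ^ n * (T / 2 ^ k)) hs0 hsn (by linarith)
      (one_le_mul_of_one_le_of_one_le p2 (by linarith))
      (one_le_mul_of_one_le_of_one_le p2 ((one_le_div (by positivity)).2 hk))
    have e : 25 * (2 * om) * (2 ^ n * (2 * 2 ^ k) * (2 ^ n * (T / 2 ^ k))) =
        100 * om * 4 ^ n * T := by
      rw [show (4 : ℝ) = 2 * 2 by norm_num, mul_pow]
      field_simp
      ring
    rw [e] at hp
    have hpi := Cnt.pi (ι := Fin (n / 2 + 1)) (B := fun _ => 100 * om * 4 ^ n * T) fun _ => hp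
    rw [Finset.prod_const, Finset.card_univ, Fintype.card_fin] at hpi
    refine hpi.rel (fun f z => ∃ u w : Fin n → ℂ, (∀ i, u i * w i = D) ∧
      up ℂ f = ∏ i, (X - C (φ (u i))) ∧ ∀ i : Fin (n / 2 + 1),
        ((z i).1 : ℂ) = s * ((∏ l, (X - C (u l))).coeff (if i.1 = 0 then 0 else n - i) -
          (∏ l, (X - C (w l))).coeff (if i.1 = 0 then 0 else n - i)) ∧
        ((z i).2 : ℂ) = (∏ l, (X - C (u l))).coeff (if i.1 = 0 then 0 else n - i) +
          (∏ l, (X - C (w l))).coeff (if i.1 = 0 then 0 else n - i)) ?_ ?_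
    · rintro f ⟨u, w, huw, hf, hz⟩
      choose z hz using hz
      exact ⟨fun i => z (if i.1 = 0 then 0 else n - i),
        fun i => ⟨_, _, (hz _).1, (hz _).2.1, (hz _).2.2.1, (hz _).2.2.2⟩,
        u, w, huw, hf, fun i => (hz _).2.2⟩
    · rintro f f' z - - ⟨u, w, huw, hf, hz⟩ ⟨u', w', huw', hf', hz'⟩
      apply cc2_up_inj
      rw [hf, hf']
      refine cc1_transfer u u' (cc3_uniq u w u' w' D hD' huw huw' fun i => ?_) φ
      have e1 := mul_left_cancel₀ hs0 ((hz i).1.symm.trans (hz' i).1)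
      have e2 := (hz i).2.symm.trans (hz' i).2
      constructor
      · linear_combination (1 / 2 : ℂ) * e1 + (1 / 2 : ℂ) * e2
      · linear_combination (-1 / 2 : ℂ) * e1 + (1 / 2 : ℂ) * e2
  · rintro f ⟨hm, hn, hf, q, hq⟩
    obtain ⟨θ, hθ⟩ := exists_roots (up ℂ f) (hm.map _) (by rw [hm.natDegree_map, hn])
    have hβ := cc2_sq hθ hq
    let a : ℚ[X] := C ((2 * c.coeff 2 : ℤ) : ℚ) * X + C ((c.coeff 1 : ℤ) : ℚ)
    have ha : ∀ z : ℂ, aeval z a = 2 * (c.coeff 2 : ℤ) * z + (c.coeff 1 : ℤ) := by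
      intro z; simp [a]
    obtain ⟨P, hP⟩ := cc1_res hθ a q
    set u : Fin n → ℂ := fun i => aeval (θ i) a + s * aeval (θ i) q with hu
    set w : Fin n → ℂ := fun i => aeval (θ i) a + -s * aeval (θ i) q with hw
    have hsq2 : ∀ i, (s * aeval (θ i) q) ^ 2 = (aeval (θ i) a) ^ 2 - D := by
      intro i
      rw [mul_pow, hs, hβ i, hev, ha, hDdef]
      push_cast
      ring
    have huw : ∀ i, u i * w i = D := by
      intro i
      simp only [hu, hw]
      linear_combination -hsq2 i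
    have hMM : (∏ i, max 1 ‖u i‖) * ∏ i, max 1 ‖w i‖ ≤ T := by
      rw [← Finset.prod_mul_distrib]
      calc _ ≤ ∏ i, (12 * om ^ 2 * max 1 ‖θ i‖) := by
            refine Finset.prod_le_prod (fun i _ => by positivity) fun i _ => ?_
            refine cc3_max _ _ (aeval (θ i) a) _ D om hom (huw i) (by simp only [hu, hw]; ring) ?_ ?_
            · rw [hDdef]
              push_cast
              refine (norm_sub_le _ _).trans ?_
              simp only [norm_mul, norm_pow, Complex.norm_ofNat]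
              have n0 := norm_nonneg ((c.coeff 0 : ℤ) : ℂ)
              have n1 := norm_nonneg ((c.coeff 1 : ℤ) : ℂ)
              have n2 := norm_nonneg ((c.coeff 2 : ℤ) : ℂ)
              have := mul_le_mul b2 b0 n0 (by linarith)
              nlinarith
            · rw [ha]
              refine (norm_add_le _ _).trans ?_
              simp only [norm_mul, Complex.norm_ofNat]
              have m1 := le_max_left 1 ‖θ i‖
              have := mul_le_mul b2 (le_max_right 1 ‖θ i‖) (norm_nonneg _) (by linarith)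
              nlinarith
        _ = (12 * om ^ 2) ^ n * ∏ i, max 1 ‖θ i‖ := by
            rw [Finset.prod_mul_distrib, Finset.prod_const, Finset.card_univ, Fintype.card_fin]
        _ ≤ _ := by
            refine mul_le_mul_of_nonneg_left (hθ.prod_max_le.trans ?_) (by positivity)
            exact mul_le_mul_of_nonneg_left hf (by positivity)
    have o1 := cc2_one_le u
    have o2 := cc2_one_le w
    obtain ⟨k, hk1, hk2⟩ := exists_dyadic _ o1
    refine ⟨k, by nlinarith, u, w, huw, ?_, fun j => ?_⟩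
    · rw [hθ]
      refine Finset.prod_congr rfl fun i _ => ?_
      congr 2
      have hu0 : u i ≠ 0 := fun e => hD' (by rw [← huw i, e, zero_mul])
      have : (D : ℂ) / u i = w i := by rw [← huw i]; field_simp
      simp only [φ, this]
      simp only [hu, hw, ha]
      field_simp
      ring
    · have hai : ∀ i, IsIntegral ℤ (aeval (θ i) a) := by
        intro i
        have hθi : IsIntegral ℤ (θ i) := ⟨f, hm, cc2_root hθ i⟩
        have e : aeval (θ i) a = algebraMap ℤ ℂ (2 * c.coeff 2) * θ i + algebraMap ℤ ℂ (c.coeff 1) := by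
          rw [ha]; simp
        rw [e]
        exact (isIntegral_algebraMap.mul hθi).add isIntegral_algebraMap
      have hbi : ∀ i, IsIntegral ℤ (s * aeval (θ i) q) := by
        intro i
        refine IsIntegral.of_pow (n := 2) (by norm_num) ?_
        rw [hsq2 i]
        exact ((hai i).pow 2).sub (isIntegral_algebraMap (x := D))
      have hsi : IsIntegral ℤ s := by
        refine IsIntegral.of_pow (n := 2) (by norm_num) ?_
        rw [hs]
        exact isIntegral_algebraMap (x := -4 * c.coeff 2)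
      have iu : IsIntegral ℤ ((∏ i, (X - C (u i))).coeff j) :=
        cc1_int _ _ (fun i _ => (hai i).add (hbi i)) j
      have iw : IsIntegral ℤ ((∏ i, (X - C (w i))).coeff j) := by
        refine cc1_int _ _ (fun i _ => ?_) j
        have : w i = aeval (θ i) a - s * aeval (θ i) q := by simp only [hw]; ring
        rw [this]
        exact (hai i).sub (hbi i)
      obtain ⟨x, y, hx, hy⟩ := cc1_pm (P.coeff j) s _ hs
      rw [← hP s j] at hx
      rw [← hP (-s) j] at hy
      have r1 : s * ((∏ i, (X - C (u i))).coeff j - (∏ i, (X - C (w i))).coeff j) =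
          ((2 * y * (-4 * c.coeff 2 : ℤ) : ℚ) : ℂ) := by
        rw [hx, hy]
        push_cast at hs ⊢
        linear_combination 2 * (y : ℂ) * hs
      have r2 : (∏ i, (X - C (u i))).coeff j + (∏ i, (X - C (w i))).coeff j = ((2 * x : ℚ) : ℂ) := by
        rw [hx, hy]
        push_cast
        ring
      obtain ⟨z1, hz1⟩ := cc1_int_of_rat _ (r1 ▸ hsi.mul (iu.sub iw))
      obtain ⟨z2, hz2⟩ := cc1_int_of_rat _ (r2 ▸ iu.add iw)
      refine ⟨(z1, z2), ?_, ?_, hz1.trans r1.symm, hz2.trans r2.symm⟩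
      · exact (cc2_coeff_le u j).trans (mul_le_mul_of_nonneg_left hk2.le (by positivity))
      · refine (cc2_coeff_le w j).trans (mul_le_mul_of_nonneg_left ?_ (by positivity))
        rw [le_div_iff₀ (by positivity)]
        nlinarith

end Pool.Agent.VW
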