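import Pool.Agent.P.MP_b0ea37_nt.WMDefs
import Pool.Agent.P.MP_b0ea37_nt.WMcc3

namespace Pool.Agent.VW

open Polynomial

theorem cnt_cc (n : ℕ) (hn : 5 ≤ n) : ∃ (K : ℝ) (a : ℕ), 0 ≤ K ∧ ∀ om H : ℝ, 1 ≤ om → 1 ≤ H →
    Cnt (fun f : ℤ[X] => f.Monic ∧ f.natDegree = n ∧ f.supNorm ≤ H ∧ CC om f)
      (K * om ^ a * (H ^ (n - 2) * H ^ (1 / 4 : ℝ))) := by
  obtain ⟨Cd, hCd, hdy⟩ := cnt_dyadic (1 / 4) (by norm_num)
  set K₀ : ℝ := 100 * 4 ^ n * 12 ^ n * (n + 1) with hK₀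
  refine ⟨(1 + Cd) * K₀ ^ (n + 4), (2 * n + 1) * (n + 4), by positivity, fun om H hom hH => ?_⟩
  set W : ℝ := K₀ * om ^ (2 * n + 1) with hW
  have n1 : (1 : ℝ) ≤ n + 1 := by linarith [Nat.cast_nonneg (α := ℝ) n]
  have p4 : (1 : ℝ) ≤ 4 ^ n := one_le_pow₀ (by norm_num)
  have p12 : (1 : ℝ) ≤ (12 * om ^ 2) ^ n := one_le_pow₀ (by nlinarith)
  have eW : W = 100 * om * 4 ^ n * ((12 * om ^ 2) ^ n * (n + 1)) := by
    rw [hW, hK₀, mul_pow, ← pow_mul]; ring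
  have q1 : (1 : ℝ) ≤ (12 * om ^ 2) ^ n * (n + 1) := one_le_mul_of_one_le_of_one_le p12 n1
  have q2 : (1 : ℝ) ≤ 4 ^ n * ((12 * om ^ 2) ^ n * (n + 1)) := one_le_mul_of_one_le_of_one_le p4 q1
  have w1 : 100 * om ≤ W := by rw [eW, mul_assoc (100 * om)]; nlinarith
  have hW1 : 1 ≤ W := by linarith
  have w2 : (12 * om ^ 2) ^ n * (n + 1) ≤ W := by
    rw [eW]
    exact le_mul_of_one_le_left (by positivity) (one_le_mul_of_one_le_of_one_le (by linarith) p4)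
  have w3 : 3 * (2 ^ n * ((2 * om) ^ n * (n + 1))) ≤ W := by
    rw [eW]
    have a1 : (2 : ℝ) ^ n ≤ 4 ^ n := pow_le_pow_left₀ (by norm_num) (by norm_num) n
    have a2 : (2 * om) ^ n ≤ (12 * om ^ 2) ^ n := pow_le_pow_left₀ (by positivity) (by nlinarith) n
    rw [mul_assoc (100 * om)]
    gcongr
    linarith
  have hs1 : 1 ≤ √H := Real.one_le_sqrt.2 hH
  have h4 : 1 ≤ H ^ (1 / 4 : ℝ) := Real.one_le_rpow hH (by norm_num)
  set G : ℝ := H ^ (n - 2) * H ^ (1 / 4 : ℝ) with hG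
  have hG0 : 0 ≤ G := by positivity
  have hc := cnt_poly 3 om (by linarith)
  refine (hc.fibre (P := fun (c f : ℤ[X]) => (c.natDegree = 1 ∨ c.natDegree = 2) ∧
      Squarefree (up ℚ c) ∧ f.Monic ∧ f.natDegree = n ∧ f.supNorm ≤ H ∧
      ∃ q : ℚ[X], up ℚ f ∣ q ^ 2 + up ℚ c) (B' := (1 + Cd) * W ^ (n + 1) * G)
      (by positivity) fun c hc => ?_).mono ?_ ?_
  · refine Cnt.of_mem (by positivity) ?_
    rintro f₀ ⟨hd | hd, hsq, -⟩
    · refine (cc2_lin n c hd om H hom hc.2 hH).mono (fun f hf => hf.2.2) ?_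
      have a1 : 2 * (2 ^ n * ((2 * om) ^ n * (n + 1) * √H)) + 1 ≤ W * √H := by
        have b1 : (1 : ℝ) ≤ 2 ^ n * ((2 * om) ^ n * (n + 1)) :=
          one_le_mul_of_one_le_of_one_le (one_le_pow₀ (by norm_num))
            (one_le_mul_of_one_le_of_one_le (one_le_pow₀ (by linarith)) n1)
        have b2 := mul_le_mul_of_nonneg_right w3 (by linarith : 0 ≤ √H)
        have b3 := one_le_mul_of_one_le_of_one_le b1 hs1
        nlinarith
      have a2 : √H ^ n ≤ H ^ (n - 2) := by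
        calc √H ^ n ≤ √H ^ (2 * (n - 2)) := pow_le_pow_right₀ hs1 (by omega)
          _ = _ := by rw [pow_mul, Real.sq_sqrt (by linarith)]
      calc _ ≤ (W * √H) ^ n := pow_le_pow_left₀ (by positivity) a1 n
        _ = 1 * W ^ n * (√H ^ n * 1) := by rw [mul_pow]; ring
        _ ≤ _ := by
          rw [hG]
          gcongr
          · linarith
          · omega
    · have hT : 1 ≤ (12 * om ^ 2) ^ n * ((n + 1) * H) :=
        one_le_mul_of_one_le_of_one_le p12 (one_le_mul_of_one_le_of_one_le n1 hH)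
      refine (cc3_quad n c hd hsq om H hom hc.2 hH _ (hdy _ hT)).mono (fun f hf => hf.2.2) ?_
      have a1 : ((12 * om ^ 2) ^ n * ((n + 1) * H)) ^ (1 / 4 : ℝ) ≤ W * H ^ (1 / 4 : ℝ) := by
        rw [← mul_assoc, Real.mul_rpow (by positivity) (by linarith)]
        refine mul_le_mul_of_nonneg_right (le_trans ?_ w2) (by positivity)
        exact Real.rpow_le_self_of_one_le q1 (by norm_num)
      have a2 : 100 * om * 4 ^ n * ((12 * om ^ 2) ^ n * ((n + 1) * H)) = W * H := by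
        rw [eW]; ring
      rw [a2]
      calc _ ≤ Cd * (W * H ^ (1 / 4 : ℝ)) * (W * H) ^ (n - 2) := by
            gcongr
            · exact one_le_mul_of_one_le_of_one_le hW1 hH
            · omega
        _ = Cd * W ^ (n - 2 + 1) * G := by rw [hG, mul_pow]; ring
        _ ≤ _ := by
          gcongr
          · linarith
          · omega
  · rintro f ⟨hm, hn', hf, c, hd, hsq, hcom, hq⟩
    refine ⟨c, ⟨?_, hcom⟩, hd, hsq, hm, hn', hf, hq⟩
    refine lt_of_le_of_lt degree_le_natDegree ?_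
    exact_mod_cast (by omega : c.natDegree < 3)
  · have a1 : (2 * om + 1) ^ 3 ≤ W ^ 3 := pow_le_pow_left₀ (by positivity) (by linarith) 3
    calc _ ≤ W ^ 3 * ((1 + Cd) * W ^ (n + 1) * G) := by gcongr
      _ = (1 + Cd) * W ^ (n + 4) * G := by ring
      _ = _ := by rw [hW, mul_pow, ← pow_mul]; ring

theorem ps_cc (n : ℕ) (hn : 5 ≤ n) : ∃ δ : ℝ, 0 < δ ∧ δ ≤ 1 / 1000 ∧
    ∀ A : ℝ, PS n fun H f => CC (A * H ^ δ) f := by
  obtain ⟨K, a, hK, h⟩ := cnt_cc n hn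
  have ha : (1 : ℝ) ≤ a + 1 := by linarith [Nat.cast_nonneg (α := ℝ) a]
  refine ⟨1 / (1000 * (a + 1)), by positivity,
    one_div_le_one_div_of_le (by norm_num) (by linarith), fun A => ?_⟩
  set δ : ℝ := 1 / (1000 * (a + 1)) with hδ
  have hδ0 : 0 < δ := by positivity
  refine PS.of_lt ((n : ℝ) - 2 + 1 / 2) (K * max A 1 ^ a) 1 (by linarith) fun H hH => ?_
  have h1 : 1 ≤ H ^ δ := Real.one_le_rpow hH hδ0.le
  have hA : 1 ≤ max A 1 := le_max_right _ _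
  refine (h (max A 1 * H ^ δ) H (one_le_mul_of_one_le_of_one_le hA h1) hH).mono ?_ ?_
  · rintro f ⟨⟨hm, hn', -, hf⟩, c, hd, hsq, hc, hq⟩
    exact ⟨hm, hn', hf, c, hd, hsq,
      hc.trans (mul_le_mul_of_nonneg_right (le_max_left _ _) (by linarith)), hq⟩
  · have hH0 : 0 < H := by linarith
    have e1 : (H ^ δ) ^ a * (H ^ (n - 2) * H ^ (1 / 4 : ℝ)) =
        H ^ (δ * a + (((n - 2 : ℕ) : ℝ) + 1 / 4)) := by
      rw [Real.rpow_add hH0, Real.rpow_add hH0, Real.rpow_natCast, Real.rpow_mul hH0.le,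
        Real.rpow_natCast]
    have e2 : δ * a ≤ 1 / 4 := by
      rw [hδ, div_mul_eq_mul_div, div_le_div_iff₀ (by positivity) (by norm_num)]
      linarith [Nat.cast_nonneg (α := ℝ) a]
    rw [mul_pow, mul_assoc, mul_assoc, e1, ← mul_assoc]
    refine mul_le_mul_of_nonneg_left (Real.rpow_le_rpow_of_exponent_le hH ?_) (by positivity)
    rw [Nat.cast_sub (by omega)]
    push_cast
    linarith

end Pool.Agent.VW
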