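import Pool.Agent.P.MP_b0ea37_nt.WMwa

namespace Pool.Agent.VW

open Polynomial

/-- the reduced window data -/
def WD (n e : ℕ) (T : ℝ) (E w v k : ℤ[X]) : Prop :=
  E ≠ 0 ∧ E.natDegree = e ∧ Squarefree (up ℚ w) ∧ IsCoprime (up ℚ k) (up ℚ v) ∧
    (∃ f : ℤ[X], f.Monic ∧ f.natDegree = n ∧ f * E = k ^ 2 + v ^ 2 * w) ∧ k.supNorm ≤ T

theorem WD.base {n e : ℕ} {T : ℝ} {E w v k : ℤ[X]} (h : WD n e T E w v k) :
    E ≠ 0 ∧ E.natDegree = e ∧ Squarefree (up ℚ w) ∧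
      IsCoprime (up ℚ k) (up ℚ v) ∧ E ∣ k ^ 2 + v ^ 2 * w ∧ k.supNorm ≤ T := by
  obtain ⟨h1, h2, h3, h4, ⟨f, -, -, h5⟩, h6⟩ := h
  exact ⟨h1, h2, h3, h4, Dvd.intro_left _ h5, h6⟩

theorem win_top {n e κ : ℕ} {T : ℝ} {E w v k k' : ℤ[X]} (h : WD n e T E w v k)
    (h' : WD n e T E w v k') (hk : k.natDegree = κ) (hk' : k'.natDegree = κ) (hκ : κ < n)
    (hl : k.leadingCoeff + k'.leadingCoeff ≠ 0) : (k - k').degree < ((n + e - κ : ℕ) : WithBot ℕ) := by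
  obtain ⟨hE, he, -, -, ⟨f, hm, hn, h5⟩, -⟩ := h
  obtain ⟨-, -, -, -, ⟨f', hm', hn', h5'⟩, -⟩ := h'
  by_cases h0 : k - k' = 0
  · rw [h0, degree_zero]
    exact WithBot.bot_lt_coe _
  have hc : (k + k').coeff κ ≠ 0 := by
    rw [coeff_add]
    rw [leadingCoeff, leadingCoeff, hk, hk'] at hl
    exact hl
  have h1 : k + k' ≠ 0 := fun h => hc (by rw [h, coeff_zero])
  have h2 : κ ≤ (k + k').natDegree := le_natDegree_of_ne_zero hc
  have h3 : (k - k') * (k + k') = (f - f') * E := by linear_combination h5' - h5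
  have h4 : f - f' ≠ 0 := fun h => mul_ne_zero h0 h1 (by rw [h3, h, zero_mul])
  have h6 : (f - f').natDegree < n := by
    rw [natDegree_lt_iff_degree_lt h4, ← hn, ← degree_eq_natDegree hm.ne_zero]
    exact degree_sub_lt_left (by rw [degree_eq_natDegree hm.ne_zero, degree_eq_natDegree hm'.ne_zero,
      hn, hn']) hm.ne_zero (by rw [hm.leadingCoeff, hm'.leadingCoeff])
  have h7 := congrArg natDegree h3
  rw [natDegree_mul h0 h1, natDegree_mul h4 hE] at h7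
  rw [← natDegree_lt_iff_degree_lt h0]
  omega

theorem win_k1 (n e κ : ℕ) (hκ : κ < n) (T : ℝ) (hT : 0 ≤ T) (E w v : ℤ[X]) :
    Cnt (fun k => WD n e T E w v k ∧ k ≠ 0 ∧ k.natDegree = κ)
      (2 * (2 ^ e * (2 * T + 1) ^ (n - κ))) := by
  have h1 := win_k E v w e (n + e - κ) T hT
    (fun k => (WD n e T E w v k ∧ k.natDegree = κ) ∧ 0 < k.leadingCoeff) (fun k hk => hk.1.1.base)
    (fun k k' hk hk' => win_top hk.1.1 hk'.1.1 hk.1.2 hk'.1.2 hκ (add_pos hk.2 hk'.2).ne')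
  have h2 := win_k E v w e (n + e - κ) T hT
    (fun k => (WD n e T E w v k ∧ k.natDegree = κ) ∧ k.leadingCoeff < 0) (fun k hk => hk.1.1.base)
    (fun k k' hk hk' => win_top hk.1.1 hk'.1.1 hk.1.2 hk'.1.2 hκ (add_neg hk.2 hk'.2).ne)
  refine (h1.or h2).mono ?_ (le_of_eq ?_)
  · rintro k ⟨hk, h0, hd⟩
    rcases lt_or_gt_of_ne (leadingCoeff_ne_zero.2 h0) with h | h
    · exact Or.inr ⟨⟨hk, hd⟩, h⟩
    · exact Or.inl ⟨⟨hk, hd⟩, h⟩
  · rw [show n + e - κ - e = n - κ by omega]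
    ring

theorem win_k2 (n e a : ℕ) (T : ℝ) (hT : 0 ≤ T) (E w v : ℤ[X]) :
    Cnt (fun k => WD n e T E w v k ∧ k.natDegree ≤ a)
      (2 * (2 ^ e * (2 * T + 1) ^ (a + 1 - e))) := by
  have h1 := win_k E v w e (a + 1) T hT
    (fun k => WD n e T E w v k ∧ k.natDegree ≤ a) (fun k hk => hk.1.base)
    (fun k k' hk hk' => by
      have : (k - k').natDegree ≤ a := (natDegree_sub_le _ _).trans (max_le hk.2 hk'.2)
      exact degree_le_natDegree.trans_lt (by exact_mod_cast Nat.lt_succ_of_le this))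
  exact h1.mono (fun _ h => h) (by linarith [h1.nonneg])

theorem win_v2 (a N : ℕ) (B : ℝ) (hB : 0 ≤ B) (E w : ℤ[X]) :
    Cnt (fun v : ℤ[X] => w ≠ 0 ∧ v.natDegree ≤ a ∧ 2 * v.natDegree + w.natDegree = N ∧
      w.leadingCoeff * v.leadingCoeff ^ 2 = E.leadingCoeff ∧ v.supNorm ≤ B)
      (2 * (2 * B + 1) ^ a) := by
  refine Cnt.of_mem (by positivity) fun v₀ hv₀ => ?_
  have hw : ((w.leadingCoeff : ℤ) : ℂ) ≠ 0 := by exact_mod_cast leadingCoeff_ne_zero.2 hv₀.1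
  have h3 := cnt_poly a B hB
  have h4 := Cnt.prod (Q := fun (_ : ℂ) (g : ℤ[X]) => g.degree < a ∧ g.supNorm ≤ B)
    (win_sq _ (E.leadingCoeff : ℂ) hw) h3.nonneg (fun _ _ => h3)
  refine h4.inj (fun v => ((v.leadingCoeff : ℂ), v.eraseLead)) ?_ ?_
  · rintro v ⟨-, hm, -, hl, hs⟩
    refine ⟨?_, ?_, ?_⟩
    · show (w.leadingCoeff : ℂ) * (v.leadingCoeff : ℂ) ^ 2 = E.leadingCoeff
      exact_mod_cast hl
    · by_cases hv : v = 0
      · subst hv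
        simp
      · exact (degree_eraseLead_lt hv).trans_le (natDegree_le_iff_degree_le.1 hm)
    · show v.eraseLead.supNorm ≤ B
      rw [sup_le_iff] at hs ⊢
      intro i
      rw [eraseLead_coeff]
      split_ifs
      · simpa using hB
      · exact hs i
  · intro u v hu hv h
    simp only [Prod.mk.injEq, Int.cast_inj] at h
    rw [← eraseLead_add_monomial_natDegree_leadingCoeff u,
      ← eraseLead_add_monomial_natDegree_leadingCoeff v, h.2]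
    congr 1
    rw [h.1, show u.natDegree = v.natDegree by have := hu.2.2.1; have := hv.2.2.1; omega]

theorem win_comb (e : ℕ) (BE Tw BV BK : ℝ) (hE : 0 ≤ BE) (hw : 0 ≤ Tw)
    (V : ℤ[X] → ℤ[X] → ℤ[X] → Prop) (K : ℤ[X] → ℤ[X] → ℤ[X] → ℤ[X] → Prop)
    (hV : ∀ E w, Cnt (V E w) BV) (hK : ∀ E w v, Cnt (K E w v) BK) :
    Cnt (fun f : ℤ[X] => ∃ E, (E.degree < ((e + 1 : ℕ) : WithBot ℕ) ∧ E.supNorm ≤ BE) ∧
      ∃ w, (w.degree < ((3 : ℕ) : WithBot ℕ) ∧ w.supNorm ≤ Tw) ∧ ∃ v, V E w v ∧ ∃ k, K E w v k ∧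
        (E ≠ 0 ∧ f * E = k ^ 2 + v ^ 2 * w))
      ((2 * BE + 1) ^ (e + 1) * ((2 * Tw + 1) ^ 3 * (BV * (BK * 1)))) := by
  have b1 := (hV 0 0).nonneg
  have b2 := (hK 0 0 0).nonneg
  refine Cnt.fibre (cnt_poly (e + 1) BE hE) (by positivity) fun E _ => ?_
  refine Cnt.fibre (cnt_poly 3 Tw hw) (by positivity) fun w _ => ?_
  refine Cnt.fibre (hV E w) (by positivity) fun v _ => ?_
  refine Cnt.fibre (hK E w v) zero_le_one fun k _ => Cnt.one fun f f' h h' => ?_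
  exact mul_right_cancel₀ h.1 (h.2.trans h'.2.symm)

theorem win_size (n e p q : ℕ) (Tw Xm Om E0 : ℝ) (hw : 1 ≤ Tw) (hX : 1 ≤ Xm) (hO : 1 ≤ Om)
    (hE : Om ≤ E0) (h1 : p + q ≤ n) (h2 : q + e + 1 ≤ n) (h3 : 1 ≤ q) :
    (2 * (4 ^ n * E0) + 1) ^ (e + 1) * ((2 * Tw + 1) ^ 3 * ((2 * (2 * (4 ^ n * Xm) + 1) ^ p) *
      ((2 * (2 ^ e * (2 * (4 ^ n * (Om * Xm)) + 1) ^ q)) * 1))) ≤
      (108 * 2 ^ n * (3 * 4 ^ n) ^ n * (3 * 4 ^ n) ^ n) * (Tw ^ 3 * Xm ^ n * Om * E0 ^ (n - 1)) := by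
  have h4 : (1 : ℝ) ≤ 4 ^ n := one_le_pow₀ (by norm_num)
  have hE1 : 1 ≤ E0 := hO.trans hE
  obtain ⟨D, hD⟩ : ∃ D : ℝ, D = 3 * 4 ^ n := ⟨_, rfl⟩
  have hD1 : 1 ≤ D := by linarith
  have hb : ∀ y : ℝ, 1 ≤ y → 2 * (4 ^ n * y) + 1 ≤ D * y := fun y hy => by
    have : 1 ≤ 4 ^ n * y := one_le_mul_of_one_le_of_one_le h4 hy
    rw [hD]
    linarith
  have hOX : 1 ≤ Om * Xm := one_le_mul_of_one_le_of_one_le hO hX
  obtain ⟨r, rfl⟩ : ∃ r, q = r + 1 := ⟨q - 1, by omega⟩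
  have a1 : Om ^ r * E0 ^ (e + 1) ≤ E0 ^ (n - 1) := by
    calc Om ^ r * E0 ^ (e + 1) ≤ E0 ^ r * E0 ^ (e + 1) := by gcongr
      _ = E0 ^ (r + (e + 1)) := by rw [← pow_add]
      _ ≤ _ := pow_le_pow_right₀ hE1 (by omega)
  have a2 : Xm ^ (p + (r + 1)) ≤ Xm ^ n := pow_le_pow_right₀ hX h1
  have a3 : D ^ (p + (r + 1)) ≤ D ^ n := pow_le_pow_right₀ hD1 h1
  have a4 : D ^ (e + 1) ≤ D ^ n := pow_le_pow_right₀ hD1 (by omega)
  have a5 : (2 : ℝ) ^ e ≤ 2 ^ n := pow_le_pow_right₀ (by norm_num) (by omega)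
  rw [← hD]
  calc _ ≤ (D * E0) ^ (e + 1) * ((3 * Tw) ^ 3 * ((2 * (D * Xm) ^ p) *
        ((2 * (2 ^ e * (D * (Om * Xm)) ^ (r + 1))) * 1))) := by
        have := hb _ hE1
        have := hb _ hX
        have := hb _ hOX
        have : 2 * Tw + 1 ≤ 3 * Tw := by linarith
        gcongr
    _ = (108 * 2 ^ e * D ^ (e + 1) * D ^ (p + (r + 1))) *
        (Tw ^ 3 * Xm ^ (p + (r + 1)) * Om * (Om ^ r * E0 ^ (e + 1))) := by ring
    _ ≤ _ := by gcongr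

theorem win_cnt (n : ℕ) : ∃ C : ℝ, 1 ≤ C ∧ ∀ Tw Xm Om E0 : ℝ, 1 ≤ Tw → 1 ≤ Xm → 1 ≤ Om → Om ≤ E0 →
    Cnt (fun f : ℤ[X] => f.Monic ∧ f.natDegree = n ∧ ∃ E k v w : ℤ[X],
      f * E = k ^ 2 + v ^ 2 * w ∧ E ≠ 0 ∧ v ≠ 0 ∧ IsCoprime (up ℚ k) (up ℚ v) ∧
      E.natDegree + 2 ≤ n ∧ k.natDegree < n ∧ (w.natDegree = 1 ∨ w.natDegree = 2) ∧
      Squarefree (up ℚ w) ∧ w.supNorm ≤ Tw ∧ E.supNorm ≤ 4 ^ n * E0 ∧
      k.supNorm ≤ 4 ^ n * (Om * Xm) ∧ v.supNorm ≤ 4 ^ n * Xm)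
      (C * Tw ^ 3 * Xm ^ n * Om * E0 ^ (n - 1)) := by
  obtain ⟨C, hC⟩ : ∃ C : ℝ, C = 108 * 2 ^ n * (3 * 4 ^ n) ^ n * (3 * 4 ^ n) ^ n := ⟨_, rfl⟩
  have hC0 : 0 ≤ C := by rw [hC]; positivity
  refine ⟨n * (n * C + C) + 1, by have : 0 ≤ n * (n * C + C) := by positivity
                                  linarith, fun Tw Xm Om E0 hw hX hO hE => ?_⟩
  obtain ⟨M, hM⟩ : ∃ M : ℝ, M = Tw ^ 3 * Xm ^ n * Om * E0 ^ (n - 1) := ⟨_, rfl⟩
  have hE1 : 1 ≤ E0 := hO.trans hE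
  have hM0 : 0 ≤ M := by rw [hM]; positivity
  have p1 : (0 : ℝ) ≤ 4 ^ n * E0 := by positivity
  have p2 : (0 : ℝ) ≤ 4 ^ n * Xm := by positivity
  have p3 : (0 : ℝ) ≤ 4 ^ n * (Om * Xm) := by positivity
  have c1 := fun (e κ : ℕ) (h1 : e + 2 ≤ n) (h2 : κ < n) (h3 : n + e ≤ 2 * κ) =>
    (win_comb e (4 ^ n * E0) Tw _ _ p1 (by linarith)
      (fun _ _ v => v.degree < κ ∧ v.supNorm ≤ 4 ^ n * Xm)
      (fun E w v k => WD n e (4 ^ n * (Om * Xm)) E w v k ∧ k ≠ 0 ∧ k.natDegree = κ)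
      (fun _ _ => (cnt_poly κ _ p2).mono (B' := 2 * (2 * (4 ^ n * Xm) + 1) ^ κ) (fun _ h => h)
        (by linarith [(cnt_poly κ _ p2).nonneg]))
      (fun E w v => win_k1 n e κ h2 _ p3 E w v)).mono (fun _ h => h)
      (win_size n e κ (n - κ) Tw Xm Om E0 hw hX hO hE (by omega) (by omega) (by omega))
  have c2 := fun (e : ℕ) (h1 : e + 2 ≤ n) =>
    (win_comb e (4 ^ n * E0) Tw _ _ p1 (by linarith) _
      (fun E w v k => WD n e (4 ^ n * (Om * Xm)) E w v k ∧ k.natDegree ≤ (n + e - 1) / 2)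
      (fun E w => win_v2 ((n + e - 1) / 2) (n + e) _ p2 E w)
      (fun E w v => win_k2 n e _ _ p3 E w v)).mono (fun _ h => h)
      (win_size n e _ ((n + e - 1) / 2 + 1 - e) Tw Xm Om E0 hw hX hO hE (by omega) (by omega)
        (by omega))
  rw [← hC, ← hM] at c1 c2
  have hr : Cnt (fun i : ℕ => i ∈ Finset.range n) n := by
    simpa using Cnt.finset (Finset.range n)
  have c3 := fun (e : ℕ) (h1 : e + 2 ≤ n) =>
    (Cnt.fibre (hr.mono (P := fun κ => κ < n ∧ n + e ≤ 2 * κ) (fun _ h => Finset.mem_range.2 h.1)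
      le_rfl) (mul_nonneg hC0 hM0) (fun κ h => c1 e κ h1 h.1 h.2)).or (c2 e h1)
  have c4 := Cnt.fibre (hr.mono (P := fun e => e + 2 ≤ n)
    (fun _ h => Finset.mem_range.2 (by omega)) le_rfl) (by positivity) c3
  refine c4.mono ?_ ?_
  · rintro f ⟨hm, hn, E, k, v, w, he, hE0, hv, hc, hEn, hk, hw, hs, s1, s2, s3, s4⟩
    have hw0 : w ≠ 0 := by
      rintro rfl
      simp at hw
    have hW : WD n E.natDegree (4 ^ n * (Om * Xm)) E w v k :=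
      ⟨hE0, rfl, hs, hc, ⟨f, hm, hn, he⟩, s3⟩
    have d1 : E.degree < ((E.natDegree + 1 : ℕ) : WithBot ℕ) :=
      (natDegree_lt_iff_degree_lt hE0).1 (Nat.lt_succ_self _)
    have d2 : w.degree < ((3 : ℕ) : WithBot ℕ) := (natDegree_lt_iff_degree_lt hw0).1 (by omega)
    have d3 : (f * E).natDegree = n + E.natDegree := by rw [natDegree_mul hm.ne_zero hE0, hn]
    have d4 : (v ^ 2 * w).natDegree = 2 * v.natDegree + w.natDegree := by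
      rw [natDegree_mul (pow_ne_zero _ hv) hw0, natDegree_pow]
    have d5 : (k ^ 2).natDegree = 2 * k.natDegree := natDegree_pow _ _
    have e2 : v ^ 2 * w = f * E - k ^ 2 := by rw [he]; ring
    refine ⟨E.natDegree, hEn, ?_⟩
    by_cases hκ : n + E.natDegree ≤ 2 * k.natDegree
    · refine Or.inl ⟨k.natDegree, ⟨hk, hκ⟩, E, ⟨d1, s2⟩, w, ⟨d2, s1⟩, v, ⟨?_, s4⟩, k,
        ⟨hW, ?_, rfl⟩, hE0, he⟩
      · have := natDegree_sub_le (f * E) (k ^ 2)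
        rw [← e2, d3, d4, d5] at this
        exact (natDegree_lt_iff_degree_lt hv).1 (by omega)
      · rintro rfl
        simp only [natDegree_zero] at hκ
        omega
    · have d6 : (k ^ 2).degree < (f * E).degree := degree_lt_degree (by omega)
      have d7 := natDegree_sub_eq_left_of_natDegree_lt (p := f * E) (q := k ^ 2) (by omega)
      have d8 := leadingCoeff_sub_of_degree_lt d6
      rw [← e2] at d7 d8
      rw [leadingCoeff_mul, leadingCoeff_mul, leadingCoeff_pow, hm.leadingCoeff, one_mul] at d8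
      exact Or.inr ⟨E, ⟨d1, s2⟩, w, ⟨d2, s1⟩, v, ⟨hw0, by omega, by omega, by rw [← d8]; ring, s4⟩,
        k, ⟨hW, by omega⟩, hE0, he⟩
  · calc (n : ℝ) * (n * (C * M) + C * M) = n * (n * C + C) * M := by ring
      _ ≤ (n * (n * C + C) + 1) * M := by nlinarith
      _ = _ := by rw [hM]; ring

end Pool.Agent.VW
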