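import Pool.Agent.P.MP_b0ea37_nt.WMDefs
import Pool.Agent.P.MP_b0ea37_nt.WMwb

namespace Pool.Agent.VW

open Polynomial

theorem cnt_win (n : ℕ) : ∃ C : ℝ, 1 ≤ C ∧ ∀ Tw Xm Om E0 : ℝ, 1 ≤ Tw → 1 ≤ Xm → 1 ≤ Om → Om ≤ E0 →
    Cnt (fun f : ℤ[X] => f.Monic ∧ f.natDegree = n ∧ Irr f ∧ CW n Tw Xm (Om * Xm) E0 f)
      (C * Tw ^ 3 * Xm ^ n * Om * E0 ^ (n - 1)) := by
  obtain ⟨C, hC, h⟩ := win_cnt n
  refine ⟨C, hC, fun Tw Xm Om E0 hw hX hO hE => (h Tw Xm Om E0 hw hX hO hE).mono ?_ le_rfl⟩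
  rintro f ⟨hm, hn, hi, E, k, v, w, he, hv, hEn, hk, hvn, hd, hs, s1, s2, s3, s4⟩
  obtain ⟨E', k', v', a1, a2, a3, a4, a5, a6, a7, a8, a9⟩ :=
    win_red hm hn hi he hv hEn hk hvn (by omega) hs
  have h4 : (0 : ℝ) ≤ 4 ^ n := by positivity
  exact ⟨hm, hn, E', k', v', w, a1, a2, a3, a4, a5, a6, hd, hs, s1,
    a7.trans (mul_le_mul_of_nonneg_left s4 h4), a8.trans (mul_le_mul_of_nonneg_left s3 h4),
    a9.trans (mul_le_mul_of_nonneg_left s2 h4)⟩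

theorem CW.mono {n : ℕ} {a b c d a' b' c' d' : ℝ} {f : ℤ[X]} (h : CW n a b c d f) (ha : a ≤ a')
    (hb : b ≤ b') (hc : c ≤ c') (hd : d ≤ d') : CW n a' b' c' d' f := by
  obtain ⟨E, k, v, w, he, hv, hEn, hk, hvn, hw, hs, s1, s2, s3, s4⟩ := h
  exact ⟨E, k, v, w, he, hv, hEn, hk, hvn, hw, hs, s1.trans ha, s2.trans hb, s3.trans hc,
    s4.trans hd⟩

theorem win_prod (r : ℕ) (A d s u t : ℝ) (hu : u ≠ 0) :
    (A * d ^ 2 * (t * u) ^ (2 * (r + 1))) ^ 3 * (A * s / u) ^ (r + 2) * (A * d * (t * u) ^ (r + 1)) *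
      (A * d ^ 2 * (t * u) ^ (2 * (r + 1)) * A ^ 2 / u ^ 2) ^ (r + 1) =
    A ^ (4 * r + 9) * t ^ (2 * r ^ 2 + 11 * r + 9) * d ^ (2 * r + 9) * s ^ (r + 2) *
      u ^ (2 * r ^ 2 + 8 * r + 5) := by
  have h1 : A * d ^ 2 * (t * u) ^ (2 * (r + 1)) * A ^ 2 / u ^ 2 =
      A ^ 3 * d ^ 2 * t ^ (2 * (r + 1)) * u ^ (2 * r) := by
    field_simp
    ring
  rw [h1, div_pow, ← mul_div_assoc, div_mul_eq_mul_div, div_mul_eq_mul_div,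
    div_eq_iff (pow_ne_zero _ hu)]
  ring

theorem win_exp (r : ℝ) (hr : 3 ≤ r) (δ : ℝ) (hδ' : δ ≤ 1 / 1000) (γ : ℝ)
    (hγ : γ * (r + 1) = (r + 2 - 1) / 2 - ((r + 2) * (r + 2 - 2) / (2 * (r + 2 - 1)) - 1 / 1000)) :
    0 ≤ γ ∧ γ ≤ 1 / 2 ∧ γ * (1 / 1000) + (δ / 2 * (2 * r + 9) + 1 / 2 * (r + 2) +
      γ * (2 * r ^ 2 + 8 * r + 5)) < r + 2 - 1 := by
  have h0 : 0 < r + 1 := by linarith
  obtain ⟨s, hs⟩ : ∃ s : ℝ, s = 1 / (r + 1) := ⟨_, rfl⟩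
  have hs1 : s * (r + 1) = 1 := by rw [hs]; field_simp
  have hs0 : 0 < s := by rw [hs]; positivity
  have hs4 : s ≤ 1 / 4 := by nlinarith
  have h1 : γ * (r + 1) = s / 2 + 1 / 1000 := by
    rw [hγ, hs, show r + 2 - 1 = r + 1 by ring]
    field_simp
    ring
  have h2 : γ = (s / 2 + 1 / 1000) * s := by
    rw [← h1, mul_assoc, mul_comm (r + 1), hs1, mul_one]
  have h3 : γ * (2 * r ^ 2 + 8 * r + 5) = (s / 2 + 1 / 1000) * (2 * (r + 1) + 4) - γ := by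
    rw [← h1]
    ring
  have h4 : (s / 2 + 1 / 1000) * (2 * (r + 1) + 4) = 1 + 2 * s + (2 * (r + 1) + 4) / 1000 := by
    linear_combination hs1
  have h5 : s ^ 2 / 2 ≤ γ := by nlinarith
  have h6 : γ ≤ 1 / 2 := by nlinarith
  have h7 : δ / 2 * (2 * r + 9) ≤ 1 / 1000 / 2 * (2 * r + 9) := by gcongr
  refine ⟨by nlinarith, h6, ?_⟩
  rw [h3, h4]
  nlinarith [mul_nonneg (sub_nonneg.2 hs4) (show 0 ≤ 15 / 4 - s by linarith)]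

/-- all moduli of the window at once; `G` stands for `H ^ ((n - 1) / 2) / P₀` -/
theorem ps_win (n : ℕ) (hn : 5 ≤ n) (δ : ℝ) (hδ : 0 ≤ δ) (hδ' : δ ≤ 1 / 1000) (A : ℝ) :
    PS n fun H f => Irr f ∧ ∃ G Xm : ℝ, 1 ≤ G ∧ G ≤ A * H ^ (((n : ℝ) - 1) / 2 - muL n) ∧ 0 ≤ Xm ∧
      Xm ^ (n - 1) * G ≤ A * H ^ (((n : ℝ) - 1) / 2) ∧
      CW n (A * (H ^ δ * G ^ 2)) Xm (A * (H ^ (δ / 2) * G) * Xm) (A * (H ^ δ * G ^ 2) * Xm ^ 2 / H) f := by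
  obtain ⟨C, hC, hcnt⟩ := cnt_win n
  obtain ⟨C', hC', hdy⟩ := cnt_dyadic (1 / 1000) (by norm_num)
  obtain ⟨r, rfl⟩ : ∃ r, n = r + 2 := ⟨n - 2, by omega⟩
  have hr : (3 : ℝ) ≤ r := by exact_mod_cast (show 3 ≤ r by omega)
  obtain ⟨γ, hγ⟩ : ∃ γ : ℝ, γ * (r + 1) = (((r + 2 : ℕ) : ℝ) - 1) / 2 - muL (r + 2) :=
    ⟨_ / (r + 1), div_mul_cancel₀ _ (by positivity)⟩
  obtain ⟨hγ0, hγ1, hγ2⟩ := win_exp r hr δ hδ' γ (by rw [hγ, muL]; push_cast; rfl)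
  obtain ⟨B, hB1, hB⟩ : ∃ B : ℝ, 1 ≤ B ∧ A ≤ B := ⟨max 1 A, le_max_left _ _, le_max_right _ _⟩
  have hB0 : 0 < B := by linarith
  refine PS.of_lt (γ * (1 / 1000) + (δ / 2 * (2 * r + 9) + 1 / 2 * (r + 2) +
      γ * (2 * r ^ 2 + 8 * r + 5)))
    (C' * B ^ (1 / 1000 : ℝ) * (C * (B ^ (4 * r + 9) * 2 ^ (2 * r ^ 2 + 11 * r + 9) *
      B ^ (2 * r ^ 2 + 8 * r + 5)))) 1 (by push_cast; exact hγ2) fun H hH => ?_
  have hH0 : 0 < H := by linarith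
  obtain ⟨d, hd⟩ : ∃ d : ℝ, d = H ^ (δ / 2) := ⟨_, rfl⟩
  obtain ⟨s, hs⟩ : ∃ s : ℝ, s = H ^ (1 / 2 : ℝ) := ⟨_, rfl⟩
  obtain ⟨g, hg⟩ : ∃ g : ℝ, g = H ^ γ := ⟨_, rfl⟩
  have hd1 : 1 ≤ d := by rw [hd]; exact Real.one_le_rpow hH (by linarith)
  have hs1 : 1 ≤ s := by rw [hs]; exact Real.one_le_rpow hH (by norm_num)
  have hg1 : 1 ≤ g := by rw [hg]; exact Real.one_le_rpow hH hγ0
  have hgs : g ≤ s := by rw [hg, hs]; exact Real.rpow_le_rpow_of_exponent_le hH hγ1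
  have hpw : ∀ (x : ℝ) (k : ℕ), (H ^ x) ^ k = H ^ (x * k) := fun x k => by
    rw [Real.rpow_mul hH0.le, Real.rpow_natCast]
  have hd2 : H ^ δ = d ^ 2 := by rw [hd, hpw]; congr 1; push_cast; ring
  have hs2 : s ^ 2 = H := by rw [hs, hpw]; norm_num
  have hsm : H ^ ((((r + 2 : ℕ) : ℝ) - 1) / 2) = s ^ (r + 1) := by
    rw [hs, hpw]; congr 1; push_cast; ring
  have hgm : H ^ ((((r + 2 : ℕ) : ℝ) - 1) / 2 - muL (r + 2)) = g ^ (r + 1) := by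
    rw [hg, hpw, ← hγ]; congr 1; push_cast; ring
  have hBm : B ≤ B ^ (r + 1) := le_self_pow₀ hB1 r.succ_ne_zero
  have key : ∀ j : ℕ, (2 : ℝ) ^ j ≤ B * g → Cnt (fun f : ℤ[X] => f.Monic ∧ f.natDegree = r + 2 ∧
      Irr f ∧ CW (r + 2) (B * d ^ 2 * (2 * 2 ^ j) ^ (2 * (r + 1))) (B * s / 2 ^ j)
        (B * d * (2 * 2 ^ j) ^ (r + 1) * (B * s / 2 ^ j))
        (B * d ^ 2 * (2 * 2 ^ j) ^ (2 * (r + 1)) * B ^ 2 / (2 ^ j) ^ 2) f)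
      (C * (B ^ (4 * r + 9) * 2 ^ (2 * r ^ 2 + 11 * r + 9) * B ^ (2 * r ^ 2 + 8 * r + 5)) *
        (d ^ (2 * r + 9) * s ^ (r + 2) * g ^ (2 * r ^ 2 + 8 * r + 5))) := by
    intro j hj
    have hu1 : (1 : ℝ) ≤ 2 ^ j := one_le_pow₀ (by norm_num)
    generalize (2 : ℝ) ^ j = u at hj hu1
    have hu0 : 0 < u := by linarith
    have b1 : 1 ≤ (2 * u) ^ (r + 1) := one_le_pow₀ (by linarith)
    have b2 : 1 ≤ B * d := one_le_mul_of_one_le_of_one_le hB1 hd1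
    have b3 : 1 ≤ B * d * (2 * u) ^ (r + 1) := one_le_mul_of_one_le_of_one_le b2 b1
    have b4 : u ^ 2 ≤ d * (2 * u) ^ (r + 1) * B ^ 2 := by
      calc u ^ 2 ≤ (2 * u) ^ 2 := by gcongr; linarith
        _ ≤ (2 * u) ^ (r + 1) := pow_le_pow_right₀ (by linarith) (by omega)
        _ = 1 * (2 * u) ^ (r + 1) * 1 := by ring
        _ ≤ _ := by gcongr; exact one_le_pow₀ hB1
    refine (hcnt _ _ _ _ ?_ ?_ b3 ?_).mono (fun _ h => h) ?_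
    · exact one_le_mul_of_one_le_of_one_le
        (one_le_mul_of_one_le_of_one_le hB1 (one_le_pow₀ hd1)) (one_le_pow₀ (by linarith))
    · rw [le_div_iff₀ hu0, one_mul]
      exact hj.trans (by gcongr)
    · rw [le_div_iff₀ (by positivity)]
      calc B * d * (2 * u) ^ (r + 1) * u ^ 2
          ≤ B * d * (2 * u) ^ (r + 1) * (d * (2 * u) ^ (r + 1) * B ^ 2) := by gcongr
        _ = _ := by ring
    · have e := win_prod r B d s u 2 hu0.ne'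
      rw [show r + 2 - 1 = r + 1 from rfl, mul_assoc C, mul_assoc C, mul_assoc C, e, mul_assoc C]
      calc _ ≤ C * (B ^ (4 * r + 9) * 2 ^ (2 * r ^ 2 + 11 * r + 9) * d ^ (2 * r + 9) * s ^ (r + 2) *
          (B * g) ^ (2 * r ^ 2 + 8 * r + 5)) := by gcongr
        _ = _ := by rw [mul_pow]; ring
  have h := Cnt.fibre (hdy (B * g) (one_le_mul_of_one_le_of_one_le hB1 hg1)) (by positivity) key
  refine h.mono ?_ (le_of_eq ?_)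
  · rintro f ⟨⟨hm, hf, -, -⟩, hi, G, Xm, hG1, hG2, hX0, hX, hW⟩
    rw [hgm] at hG2
    rw [hsm, show r + 2 - 1 = r + 1 from rfl] at hX
    rw [hd2, ← hd] at hW
    have hG0 : 0 < G := by linarith
    have hA : 0 ≤ A := by
      by_contra hA
      have : A * g ^ (r + 1) ≤ 0 := mul_nonpos_of_nonpos_of_nonneg (by linarith) (by positivity)
      linarith
    have hy : (G ^ (((r + 1 : ℕ) : ℝ)⁻¹)) ^ (r + 1) = G :=
      Real.rpow_inv_natCast_pow hG0.le r.succ_ne_zero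
    obtain ⟨j, hj1, hj2⟩ := exists_dyadic (G ^ (((r + 1 : ℕ) : ℝ)⁻¹))
      (Real.one_le_rpow hG1 (by positivity))
    have hu1 : (1 : ℝ) ≤ 2 ^ j := one_le_pow₀ (by norm_num)
    have hy0 : 0 ≤ G ^ (((r + 1 : ℕ) : ℝ)⁻¹) := by positivity
    have g1 : ((2 : ℝ) ^ j) ^ (r + 1) ≤ G := by rw [← hy]; gcongr
    have g2 : G ≤ (2 * (2 : ℝ) ^ j) ^ (r + 1) := by
      conv_lhs => rw [← hy]
      gcongr
    refine ⟨j, ?_, hm, hf, hi, ?_⟩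
    · refine le_of_pow_le_pow_left₀ r.succ_ne_zero (by positivity) (g1.trans (hG2.trans ?_))
      rw [mul_pow]
      gcongr
      exact hB.trans hBm
    generalize (2 : ℝ) ^ j = u at g1 g2 hu1
    have hu0 : 0 < u := by linarith
    have g3 : Xm ≤ B * s / u := by
      rw [le_div_iff₀ hu0]
      refine le_of_pow_le_pow_left₀ r.succ_ne_zero (by positivity) ?_
      calc (Xm * u) ^ (r + 1) = Xm ^ (r + 1) * u ^ (r + 1) := mul_pow _ _ _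
        _ ≤ Xm ^ (r + 1) * G := by gcongr
        _ ≤ A * s ^ (r + 1) := hX
        _ ≤ B ^ (r + 1) * s ^ (r + 1) := by gcongr; exact hB.trans hBm
        _ = _ := (mul_pow _ _ _).symm
    have g4 : A * (d ^ 2 * G ^ 2) ≤ B * d ^ 2 * (2 * u) ^ (2 * (r + 1)) := by
      rw [mul_comm 2 (r + 1), pow_mul, mul_assoc]
      gcongr
    refine hW.mono g4 g3 ?_ ?_
    · rw [mul_assoc B d]
      gcongr
    · calc A * (d ^ 2 * G ^ 2) * Xm ^ 2 / H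
          ≤ B * d ^ 2 * (2 * u) ^ (2 * (r + 1)) * (B * s / u) ^ 2 / H := by gcongr
        _ = _ := by
          rw [← hs2]
          field_simp
  · rw [Real.mul_rpow hB0.le (by linarith), hd, hs, hg, hpw, hpw, hpw, ← Real.rpow_mul hH0.le,
      Real.rpow_add hH0, Real.rpow_add hH0, Real.rpow_add hH0]
    push_cast
    ring

end Pool.Agent.VW
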