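import Pool.Agent.P.MP_b0ea37_nt.WMtop
import Pool.Agent.P.MP_b0ea37_nt.WMcc
import Pool.Agent.P.MP_b0ea37_nt.WMwin

namespace Pool.Agent.VW

open Polynomial

/-- section 5 -/
theorem ps_mid (n : ℕ) (hn : 5 ≤ n) : PS n fun H f => Irr f ∧ Prim f ∧
    ∃ (P : ℕ) (r : ℤ), P.Prime ∧ H ^ muL n < P ∧ (P : ℝ) ≤ H ^ ((n : ℝ) - 1 - cF n) ∧ Wk P r f := by
  obtain ⟨δ, hδ, hδ', hcc⟩ := ps_cc n hn
  obtain ⟨d, j, g, hd, hnd, hj, he⟩ : ∃ d j g : ℕ, d = 2 * g + 3 ∧ n = d + 1 + j ∧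
      (j = 1 ∨ j = 2) ∧ (n : ℝ) - 1 - cF n ≤ (d : ℝ) + 1 - 1 / 25 := by
    rcases Nat.even_or_odd' n with ⟨k, hk | hk⟩
    · refine ⟨2 * (k - 3) + 3, 2, k - 3, rfl, by omega, Or.inr rfl, ?_⟩
      have h1 : n = 2 * (k - 3) + 3 + 3 := by omega
      have h2 : (n : ℝ) = ((2 * (k - 3) + 3 : ℕ) : ℝ) + 3 := by exact_mod_cast h1
      rw [cF, if_neg (by omega), h2]; linarith
    · refine ⟨2 * (k - 2) + 3, 1, k - 2, rfl, by omega, Or.inl rfl, ?_⟩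
      have h1 : n = 2 * (k - 2) + 3 + 2 := by omega
      have h2 : (n : ℝ) = ((2 * (k - 2) + 3 : ℕ) : ℝ) + 2 := by exact_mod_cast h1
      rw [cF, h2]; split_ifs <;> linarith
  obtain ⟨A, hA⟩ := ps_top n d j g hd hnd hj δ hδ
  refine (hA.or ((hcc A).or (ps_win n hn δ hδ.le hδ' A))).mono 1 fun H hH f _ hf => ?_
  by_cases hE : Exq n δ A H f
  · exact Or.inr hE
  · obtain ⟨h1, h2, P, r, h3, h4, h5, h6⟩ := hf
    exact Or.inl ⟨⟨h1, h2, P, r, h3, h4, h5.trans (Real.rpow_le_rpow_of_exponent_le hH he), h6⟩, hE⟩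

end Pool.Agent.VW
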