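import Pool.Agent.P.MP_b0ea37_nt.WSChA
import Pool.Agent.P.MP_b0ea37_nt.WKer

namespace Pool.Agent.VW

open Polynomial

def chMod (Q : Finset ℕ) : ℕ := ∏ l ∈ Q, l

def chRed (M : ℕ) (z : Pt) : Pt := (fun i => z.1 i % M, z.2 % M)

theorem ch_sqfree {Q : Finset ℕ} (h : ∀ l ∈ Q, l.Prime) : Squarefree (chMod Q) :=
  Finset.squarefree_prod_of_pairwise_isCoprime
    (fun p hp q hq e => Nat.coprime_iff_isRelPrime.1
      ((Nat.coprime_primes (h p hp) (h q hq)).2 e)) fun p hp => (h p hp).squarefree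

theorem ch_card {Q : Finset ℕ} (h : ∀ l ∈ Q, l.Prime) : (chMod Q).primeFactors.card = Q.card := by
  rw [chMod, Nat.primeFactors_prod h]

theorem ch_dvd {Q Q' : Finset ℕ} (h : Q ⊆ Q') : chMod Q ∣ chMod Q' :=
  Finset.prod_dvd_prod_of_subset _ _ _ h

theorem ch_cop {Q : Finset ℕ} (h : ∀ l ∈ Q, l.Prime) {N : ℤ} (hN : ∀ l ∈ Q, ¬ (l : ℤ) ∣ N) :
    Cop (chMod Q) N := fun l hl hd => by
  obtain ⟨p, hp, e⟩ := (Prime.dvd_finsetProd_iff hl.prime _).1 hd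
  exact hN l (((Nat.prime_dvd_prime_iff_eq hl (h p hp)).1 e).symm ▸ hp)

theorem ch_ge {Q : Finset ℕ} {Z : ℝ} (hZ : 0 ≤ Z) (h : ∀ l ∈ Q, Z < l) :
    Z ^ Q.card ≤ chMod Q := by
  rw [chMod, Nat.cast_prod, ← Finset.prod_const]
  exact Finset.prod_le_prod (fun _ _ => hZ) fun l hl => (h l hl).le

theorem ch_le {Q : Finset ℕ} {L : ℝ} (h : ∀ l ∈ Q, (l : ℝ) ≤ L) : (chMod Q : ℝ) ≤ L ^ Q.card := by
  rw [chMod, Nat.cast_prod, ← Finset.prod_const]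
  exact Finset.prod_le_prod (fun _ _ => Nat.cast_nonneg _) h

theorem ch_red_cong (M : ℕ) (z : Pt) : Cong M z (chRed M z) :=
  ⟨fun _ => (Int.mod_modEq _ _).symm, (Int.mod_modEq _ _).symm⟩

theorem ch_red_eq {M : ℕ} {z z' : Pt} (h : Cong M z z') : chRed M z = chRed M z' :=
  Prod.ext (funext fun i => h.1 i) h.2

/-- few primes of the pool divide a given number -/
theorem ch_good (S : Finset ℕ) {Z : ℝ} (hZ : 1 < Z) (hS : ∀ l ∈ S, l.Prime ∧ Z < l) {N : ℤ}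
    (hN : N ≠ 0) {b : ℕ} (h : |(N : ℝ)| ≤ Z ^ b) :
    S.card ≤ (S.filter fun l : ℕ => ¬ (l : ℤ) ∣ N).card + b := by
  have h1 := cnt_large_primes N hN Z hZ b h (S.filter fun l : ℕ => (l : ℤ) ∣ N) fun l hl => by
    rw [Finset.mem_filter] at hl
    exact ⟨(hS l hl.1).1, (hS l hl.1).2.le, hl.2⟩
  have h2 := Finset.card_filter_add_card_filter_not (s := S) fun l : ℕ => (l : ℤ) ∣ N
  have h3 : (S.filter fun l : ℕ => (l : ℤ) ∣ N).card ≤ b := by exact_mod_cast h1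
  omega

theorem ch_union {α β : Type} (F : Finset β) {P : β → α → Prop} {B : ℝ} {E : ℕ} (hB : 0 ≤ B)
    (hF : F.card ≤ E) (h : ∀ y ∈ F, Cnt (P y) B) : Cnt (fun x => ∃ y ∈ F, P y x) (E * B) :=
  (Cnt.fibre (Cnt.finset F) hB h).mono (fun _ hx => hx)
    (mul_le_mul_of_nonneg_right (by exact_mod_cast hF) hB)

theorem ch_ev2_C_mul (x : Fin 2 → ℤ) (c : ℚ) (A : Q2) :
    ev2 x (MvPolynomial.C c * A) = c * ev2 x A := by simp [ev2]

/-- the chain of moduli -/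
theorem chain (E a r : ℕ) : ∃ C H₀ : ℝ, 0 ≤ C ∧ ∀ H : ℝ, H₀ ≤ H → ∀ (D : Z2) (q : ℤ) (T : Pt → Prop),
    D.totalDegree ≤ E → (∀ z, T z → On D q H a z) → Aux D T (H ^ ((r : ℝ) / (2 * r + 3))) E →
    Cnt T (C * H ^ (1 - 1 / (2 * (r : ℝ) + 3))) := by
  classical
  obtain ⟨C1, hC1, hbez⟩ := bezout E
  obtain ⟨C2, a2, hC2, hht⟩ := small_height E
  obtain ⟨C3, hC3, hsing⟩ := cnt_sing E
  obtain ⟨a3, H1, hgr⟩ := eval_growth E a2 C2
  have hr : (0 : ℝ) < 2 * r + 3 := by positivity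
  set γ : ℝ := 1 / (2 * (r : ℝ) + 3) with hγ
  have hγ0 : 0 < γ := by positivity
  obtain ⟨C4, H2, hC4, hcur⟩ := on_curve E a (γ / 2) (by positivity)
  obtain ⟨fac, hf1, hf2, hf3, hf4⟩ := exists_fac
  set J := (a + 1) * (2 * r + 3) + a3 * (2 * r + 3) + (r + 2) with hJ
  set K1 : ℝ := 2 ^ (r + 1) * (E * (C1 * 2)) with hK1
  set K2 : ℝ := 2 ^ r * (E * (C2 * 2 + C3 * 2 + 2 * (2 * (2 * E) ^ (r + 2) * C4))) with hK2
  have hK10 : 0 ≤ K1 := by positivity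
  have hK20 : 0 ≤ K2 := by positivity
  refine ⟨(2 ^ J * 2 ^ J : ℕ) * (K1 + K2) * (2 ^ (J + 1)) ^ (2 * r + 2), max 2 (max H1 H2),
    by positivity, fun H hH D q T hD hT hA => ?_⟩
  simp only [max_le_iff] at hH
  obtain ⟨hH2, hH1, hH2'⟩ := hH
  have hH0 : 0 < H := by linarith
  set Z := H ^ γ with hZ
  have hZ1 : 1 < Z := Real.one_lt_rpow (by linarith) hγ0
  have hZp : ∀ k : ℕ, Z ^ k = H ^ (γ * k) := fun k => by
    rw [hZ, Real.rpow_mul hH0.le, Real.rpow_natCast]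
  have hZb : ∀ k : ℕ, Z ^ (k * (2 * r + 3)) = H ^ k := fun k => by
    rw [hZp, ← Real.rpow_natCast]
    congr 1
    rw [hγ]; push_cast; field_simp
  obtain ⟨S, hSc, hS, -⟩ := exists_primes J Z hZ1.le
  set L := 2 ^ (J + 1) * Z with hL
  have hL1 : 1 ≤ L := one_le_mul_of_one_le_of_one_le (one_le_pow₀ one_le_two) hZ1.le
  have hG0 : ∀ (M : ℕ) (z₀ : Pt), ∃ G : Q2, Squarefree M → H ^ ((r : ℝ) / (2 * r + 3)) ≤ M →
      G ≠ 0 ∧ G.totalDegree ≤ E ∧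
        ∀ z, T z → Cong M z z₀ → Cop M (2 * evz z.1 D) → ev2 z.1 G = 0 := fun M z₀ => by
    by_cases h : Squarefree M ∧ H ^ ((r : ℝ) / (2 * r + 3)) ≤ M
    · obtain ⟨G, hG⟩ := hA M z₀ h.1 h.2
      exact ⟨G, fun _ _ => hG⟩
    · exact ⟨0, fun h1 h2 => absurd ⟨h1, h2⟩ h⟩
  choose G₀ hG₀ using hG0
  let G : Finset ℕ → Pt → Q2 := fun Q z => G₀ (chMod Q) (chRed (chMod Q) z)
  have hpr : ∀ {Q : Finset ℕ}, Q ⊆ S → ∀ l ∈ Q, l.Prime := fun h l hl => (hS l (h hl)).1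
  have hG : ∀ Q ⊆ S, Q.card = r → ∀ z, G Q z ≠ 0 ∧ (G Q z).totalDegree ≤ E ∧
      (T z → Cop (chMod Q) (2 * evz z.1 D) → ev2 z.1 (G Q z) = 0) := fun Q hQ hc z => by
    have h1 := ch_ge (Q := Q) (by linarith : 0 ≤ Z) fun l hl => (hS l (hQ hl)).2.1
    rw [hc, hZp, show γ * r = r / (2 * r + 3) by rw [hγ]; ring] at h1
    obtain ⟨h2, h3, h4⟩ := hG₀ _ (chRed (chMod Q) z) (ch_sqfree (hpr hQ)) h1
    exact ⟨h2, h3, fun hz hc => h4 z hz (ch_red_cong _ _) hc⟩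
  have hGc : ∀ {Q Q' : Finset ℕ} {z z' : Pt}, Q ⊆ Q' → Cong (chMod Q') z z' → G Q z = G Q z' :=
    fun h hz => congrArg (G₀ _) (ch_red_eq (hz.of_dvd (ch_dvd h)))
  let Few : Q2 → Prop := fun A =>
    Cnt (fun x : Fin 2 → ℤ => (∀ i, |(x i : ℝ)| ≤ H) ∧ ev2 x A = 0) C2
  have hm0 : ∀ A : Q2, ∃ A' : Z2, Irreducible A → A.totalDegree ≤ E → ¬ Few A → ∃ c : ℚ, c ≠ 0 ∧
      toQ A' = MvPolynomial.C c * A ∧ ∀ m, |((A'.coeff m : ℤ) : ℝ)| ≤ C2 * H ^ a2 := fun A => by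
    by_cases h : Irreducible A ∧ A.totalDegree ≤ E ∧ ¬ Few A
    · obtain ⟨A', c, h1⟩ := (hht H (by linarith) A h.1 h.2.1).resolve_left h.2.2
      exact ⟨A', fun _ _ _ => ⟨c, h1⟩⟩
    · exact ⟨0, fun h1 h2 h3 => absurd ⟨h1, h2, h3⟩ h⟩
  choose md hmd using hm0
  have hmdeg : ∀ (A : Q2) (c : ℚ), c ≠ 0 → toQ (md A) = MvPolynomial.C c * A →
      A.totalDegree ≤ E → (md A).totalDegree ≤ E := fun A c _ e h => by
    rw [← deg_toQ, e]
    exact (MvPolynomial.totalDegree_mul _ _).trans (by simpa using h)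
  let T1 : Finset ℕ × Finset ℕ → Pt → Prop := fun p z => p.1.card = r ∧ p.2.card = r ∧
    (p.1 ∪ p.2).card ≤ r + 1 ∧ T z ∧ Cop (chMod (p.1 ∪ p.2)) (2 * evz z.1 D) ∧
      ∃ A ∈ fac (G p.1 z), ev2 z.1 A = 0 ∧ ¬ A ∣ G p.2 z
  let T2 : Finset ℕ × Finset ℕ → Pt → Prop := fun p z => p.1.card = r ∧ p.2.card = r + 2 ∧
    p.1 ⊆ p.2 ∧ T z ∧ Cop (chMod p.2) (2 * evz z.1 D) ∧ ∃ A ∈ fac (G p.1 z), ev2 z.1 A = 0 ∧
      (Few A ∨ (∀ j, ev2 z.1 (MvPolynomial.pderiv j A) = 0) ∨ (¬ Few A ∧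
        ∃ j, Cop (chMod p.2) (evz z.1 (MvPolynomial.pderiv j (md A)))))
  have c1 : ∀ p : Finset ℕ × Finset ℕ, p.1 ⊆ S → p.2 ⊆ S → Cnt (T1 p) (K1 * L ^ (2 * r + 2)) := by
    rintro ⟨Q, Q'⟩ hQ hQ'
    refine Cnt.of_mem (by positivity) fun z₁ hz₁ => ?_
    obtain ⟨e1, e2, e3, -⟩ := hz₁
    have hU : Q ∪ Q' ⊆ S := Finset.union_subset hQ hQ'
    refine (cover_plane D q _ (ch_sqfree (hpr hU)) (B := E * (C1 * 2)) (by positivity)
      (fun z hz => ⟨(hT z hz.2.2.2.1).2.1, hz.2.2.2.2.1⟩) fun z₀ _ => ?_).mono (fun _ h => h) ?_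
    · obtain ⟨g1, g2, -⟩ := hG Q hQ e1 z₀
      obtain ⟨-, g4, -⟩ := hG Q' hQ' e2 z₀
      refine (ch_union (fac (G Q z₀)) (P := fun A z => ¬ A ∣ G Q' z₀ ∧ T z ∧ ev2 z.1 A = 0 ∧
        ev2 z.1 (G Q' z₀) = 0) (by positivity) ((hf1 _ g1).trans g2) fun A hA => ?_).mono
        (fun z hz => ?_) le_rfl
      · refine Cnt.of_mem (by positivity) fun _ h => ?_
        exact cnt_lift D q (fun z hz => ⟨hz.2.2, (hT z hz.2.1).2.1, (hT z hz.2.1).2.2.1⟩)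
          (hbez A _ (hf2 _ g1 A hA).1 h.1 ((hf2 _ g1 A hA).2.2.trans g2) g4)
      · obtain ⟨⟨-, -, -, t1, t2, A, t3, t4, t5⟩, hc⟩ := hz
        rw [hGc Finset.subset_union_left hc] at t3
        rw [hGc Finset.subset_union_right hc] at t5
        refine ⟨A, t3, t5, t1, t4, ?_⟩
        rw [← hGc Finset.subset_union_right hc]
        exact (hG Q' hQ' e2 z).2.2 t1 (t2.of_dvd (ch_dvd Finset.subset_union_right))
    · rw [ch_card (hpr hU), hK1]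
      have h1 : (chMod (Q ∪ Q') : ℝ) ≤ L ^ (r + 1) :=
        (ch_le fun l hl => (hS l (hU hl)).2.2).trans (pow_le_pow_right₀ hL1 e3)
      have h2 : (2 : ℝ) ^ (Q ∪ Q').card ≤ 2 ^ (r + 1) := pow_le_pow_right₀ one_le_two e3
      calc _ ≤ (L ^ (r + 1)) ^ 2 * 2 ^ (r + 1) * (E * (C1 * 2)) := by gcongr
        _ = _ := by ring
  have c2 : ∀ p : Finset ℕ × Finset ℕ, p.1 ⊆ S → p.2 ⊆ S → Cnt (T2 p) (K2 * L ^ (2 * r + 2)) := by
    rintro ⟨Q, Q'⟩ hQ hQ'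
    refine Cnt.of_mem (by positivity) fun z₁ hz₁ => ?_
    obtain ⟨e1, e2, e3, -⟩ := hz₁
    dsimp only at e1 e2 e3
    have hM1 : (1 : ℝ) ≤ chMod Q := by
      exact_mod_cast Nat.one_le_iff_ne_zero.2 (ch_sqfree (hpr hQ)).ne_zero
    have hMM : (chMod Q : ℝ) ≤ chMod Q' := by
      exact_mod_cast Nat.le_of_dvd (Nat.pos_of_ne_zero (ch_sqfree (hpr hQ')).ne_zero) (ch_dvd e3)
    set B4 : ℝ := 2 * (chMod Q' : ℝ) / chMod Q * (2 * E) ^ (r + 2) * C4 with hB4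
    have hB40 : 0 ≤ B4 := by positivity
    refine (cover_plane D q _ (ch_sqfree (hpr hQ)) (B := E * (C2 * 2 + C3 * 2 + (2 : ℕ) * B4))
      (by positivity) (fun z hz => ⟨(hT z hz.2.2.2.1).2.1, hz.2.2.2.2.1.of_dvd (ch_dvd e3)⟩)
      fun z₀ _ => ?_).mono (fun _ h => h) ?_
    · obtain ⟨g1, g2, -⟩ := hG Q hQ e1 z₀
      refine (ch_union (fac (G Q z₀)) (P := fun A z => (((Few A ∧ T z ∧ ev2 z.1 A = 0) ∨
        (T z ∧ ev2 z.1 A = 0 ∧ ∀ j, ev2 z.1 (MvPolynomial.pderiv j A) = 0)) ∨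
        ∃ j ∈ (Finset.univ : Finset (Fin 2)), ¬ Few A ∧ T z ∧ ev2 z.1 A = 0 ∧
          Cong (chMod Q) z z₀ ∧ Cop (chMod Q') (2 * evz z.1 D) ∧
          Cop (chMod Q') (evz z.1 (MvPolynomial.pderiv j (md A))))) (by positivity)
        ((hf1 _ g1).trans g2) fun A hA => ?_).mono (fun z hz => ?_) le_rfl
      · obtain ⟨i1, -, i3⟩ := hf2 _ g1 A hA
        refine (Cnt.or ?_ ?_).or (ch_union _ hB40 (by simp) fun j _ => ?_)
        · refine Cnt.of_mem (by positivity) fun _ h => ?_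
          exact cnt_lift D q (fun z hz => ⟨⟨(hT z hz.2.1).1, hz.2.2⟩, (hT z hz.2.1).2.1,
            (hT z hz.2.1).2.2.1⟩) h.1
        · exact cnt_lift D q (fun z hz => ⟨hz.2, (hT z hz.1).2.1, (hT z hz.1).2.2.1⟩)
            (hsing A i1 (i3.trans g2))
        · refine Cnt.of_mem hB40 fun _ h => ?_
          obtain ⟨c, hc, e, -⟩ := hmd A i1 (i3.trans g2) h.1
          have h1 := ch_ge (Q := Q') (by linarith : 0 ≤ Z) fun l hl => (hS l (hQ' hl)).2.1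
          rw [e2, hZp, show γ * ((r + 2 : ℕ) : ℝ) = 1 / 2 + γ / 2 by
            rw [hγ]; push_cast; field_simp; ring] at h1
          have h2 := hcur H hH2' (chMod Q) (chMod Q') (md A) D q j
            (fun z => ¬ Few A ∧ T z ∧ ev2 z.1 A = 0 ∧ Cong (chMod Q) z z₀ ∧
              Cop (chMod Q') (2 * evz z.1 D) ∧
              Cop (chMod Q') (evz z.1 (MvPolynomial.pderiv j (md A))))
            (ch_sqfree (hpr hQ')) (ch_dvd e3) h1
            (by rw [e]; exact (irreducible_isUnit_mul ((IsUnit.mk0 c hc).map MvPolynomial.C)).2 i1)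
            (hmdeg A c hc e (i3.trans g2)) hD
            (fun z hz => ⟨hT z hz.2.1, hz.2.2.2.2.1, by
              have := ev2_toQ z.1 (md A)
              rw [e, ch_ev2_C_mul, hz.2.2.1, mul_zero] at this
              exact_mod_cast this.symm, hz.2.2.2.2.2⟩)
            fun z z' hz hz' => hz.2.2.2.1.trans hz'.2.2.2.1.symm
          rwa [ch_card (hpr hQ'), e2] at h2
      · obtain ⟨⟨-, -, -, t1, t2, A, t3, t4, t5⟩, hc⟩ := hz
        rw [hGc (Finset.Subset.refl Q) hc] at t3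
        refine ⟨A, t3, ?_⟩
        rcases t5 with t5 | t5 | ⟨t5, j, t6⟩
        · exact Or.inl (Or.inl ⟨t5, t1, t4⟩)
        · exact Or.inl (Or.inr ⟨t1, t4, t5⟩)
        · exact Or.inr ⟨j, Finset.mem_univ j, t5, t1, t4, hc, t2, t6⟩
    · rw [ch_card (hpr hQ), e1, hK2]
      have h1 : (chMod Q : ℝ) ≤ L ^ r := e1 ▸ ch_le fun l hl => (hS l (hQ hl)).2.2
      have h2 : (chMod Q' : ℝ) ≤ L ^ (r + 2) := e2 ▸ ch_le fun l hl => (hS l (hQ' hl)).2.2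
      have h3 : (chMod Q : ℝ) * chMod Q' ≤ L ^ (2 * r + 2) := by
        calc _ ≤ L ^ r * L ^ (r + 2) := by gcongr
          _ = _ := by ring
      have h4 : (chMod Q : ℝ) ^ 2 ≤ L ^ (2 * r + 2) := by nlinarith
      have h5 : (chMod Q : ℝ) ^ 2 * B4 = chMod Q * chMod Q' * (2 * (2 * E) ^ (r + 2) * C4) := by
        rw [hB4]; field_simp
      calc _ = 2 ^ r * (E * ((chMod Q : ℝ) ^ 2 * (C2 * 2 + C3 * 2) + 2 * (chMod Q ^ 2 * B4))) := by
            push_cast; ring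
        _ ≤ 2 ^ r * (E * (L ^ (2 * r + 2) * (C2 * 2 + C3 * 2) +
              2 * (L ^ (2 * r + 2) * (2 * (2 * E) ^ (r + 2) * C4)))) := by rw [h5]; gcongr
        _ = _ := by ring
  have hex : ∀ z, T z → ∃ p ∈ S.powerset ×ˢ S.powerset, T1 p z ∨ T2 p z := fun z hz => by
    obtain ⟨o1, -, o3, o4, -⟩ := hT z hz
    set P := S.filter fun l : ℕ => ¬ (l : ℤ) ∣ 2 * evz z.1 D with hP
    have hPS : P ⊆ S := Finset.filter_subset _ _
    have hPc : ∀ {Q : Finset ℕ}, Q ⊆ P → Cop (chMod Q) (2 * evz z.1 D) := fun h =>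
      ch_cop (hpr (h.trans hPS)) fun l hl => (Finset.mem_filter.1 (h hl)).2
    have h1 := ch_good S hZ1 (fun l hl => ⟨(hS l hl).1, (hS l hl).2.1⟩)
      (mul_ne_zero two_ne_zero o3) (b := (a + 1) * (2 * r + 3)) (by
        rw [hZb, pow_succ]; push_cast; rw [abs_mul, abs_two]
        nlinarith [abs_nonneg ((evz z.1 D : ℤ) : ℝ)])
    rw [← hP, hSc] at h1
    by_contra hcon
    simp only [not_exists, not_and, not_or, Finset.mem_product, Finset.mem_powerset, and_imp,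
      Prod.forall] at hcon
    obtain ⟨Q₀, hQ₀, hc₀⟩ := Finset.exists_subset_card_eq (s := P) (n := r) (by omega)
    obtain ⟨g1, g2, g3⟩ := hG Q₀ (hQ₀.trans hPS) hc₀ z
    obtain ⟨A, hA, hAz⟩ := hf3 _ g1 z.1 (g3 hz (hPc hQ₀))
    obtain ⟨i1, -, i3⟩ := hf2 _ g1 A hA
    have hall : ∀ Q ⊆ P, Q.card = r → A ∈ fac (G Q z) := fun Q hQ hc =>
      swap_chain P r (fun Q => A ∈ fac (G Q z)) (fun Q Q' h h' e e' eu hin => by
        refine hf4 _ _ A (hG Q (h.trans hPS) e z).1 (hG Q' (h'.trans hPS) e' z).1 hin ?_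
        by_contra hnd
        exact (hcon Q Q' (h.trans hPS) (h'.trans hPS)).1
          ⟨e, e', eu, hz, hPc (Finset.union_subset h h'), A, hin, hAz, hnd⟩) hQ₀ hQ hc₀ hc hA
    have fin : ∀ Q' ⊆ P, Q'.card = r + 2 → ¬ (Few A ∨
        (∀ j, ev2 z.1 (MvPolynomial.pderiv j A) = 0) ∨ (¬ Few A ∧
        ∃ j, Cop (chMod Q') (evz z.1 (MvPolynomial.pderiv j (md A))))) := fun Q' hQ' e h => by
      obtain ⟨Q, hQ, hc⟩ := Finset.exists_subset_card_eq (s := Q') (n := r) (by omega)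
      exact (hcon Q Q' ((hQ.trans hQ').trans hPS) (hQ'.trans hPS)).2
        ⟨hc, e, hQ, hz, hPc hQ', A, hall Q (hQ.trans hQ') hc, hAz, h⟩
    obtain ⟨Q₁, hQ₁, hc₁⟩ := Finset.exists_subset_card_eq (s := P) (n := r + 2) (by omega)
    have h2 := fin Q₁ hQ₁ hc₁
    rw [not_or, not_or, not_forall] at h2
    obtain ⟨hfew, ⟨j, hj⟩, -⟩ := h2
    obtain ⟨c, hc, e, hht'⟩ := hmd A i1 (i3.trans g2) hfew
    have hN : evz z.1 (MvPolynomial.pderiv j (md A)) ≠ 0 := fun h0 => by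
      have := ev2_toQ z.1 (MvPolynomial.pderiv j (md A))
      rw [h0, toQ, ← MvPolynomial.pderiv_map, show MvPolynomial.map _ (md A) = _ from e,
        MvPolynomial.pderiv_C_mul, ch_ev2_C_mul, Int.cast_zero] at this
      exact hj ((mul_eq_zero.1 this).resolve_left hc)
    have h3 := ch_good P hZ1 (fun l hl => ⟨(hS l (hPS hl)).1, (hS l (hPS hl)).2.1⟩) hN
      (b := a3 * (2 * r + 3))
      (by rw [hZb]; exact hgr H hH1 _ (hmdeg A c hc e (i3.trans g2)) hht' z.1 o1 j)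
    obtain ⟨Q₂, hQ₂, hc₂⟩ := Finset.exists_subset_card_eq
      (s := P.filter fun l : ℕ => ¬ (l : ℤ) ∣ evz z.1 (MvPolynomial.pderiv j (md A))) (n := r + 2)
      (by omega)
    have hQP : Q₂ ⊆ P := hQ₂.trans (Finset.filter_subset _ _)
    exact fin Q₂ hQP hc₂ (Or.inr (Or.inr ⟨hfew, j,
      ch_cop (hpr (hQP.trans hPS)) fun l hl => (Finset.mem_filter.1 (hQ₂ hl)).2⟩))
  refine (ch_union (S.powerset ×ˢ S.powerset) (E := 2 ^ J * 2 ^ J)
    (B := K1 * L ^ (2 * r + 2) + K2 * L ^ (2 * r + 2)) (by positivity)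
    (by rw [Finset.card_product, Finset.card_powerset, hSc]) fun p hp => ?_).mono hex
    (le_of_eq ?_)
  · rw [Finset.mem_product, Finset.mem_powerset, Finset.mem_powerset] at hp
    exact (c1 p hp.1 hp.2).or (c2 p hp.1 hp.2)
  · rw [hL, mul_pow, hZp, show γ * ((2 * r + 2 : ℕ) : ℝ) = 1 - γ by
      rw [hγ]; push_cast; field_simp; ring]
    ring

end Pool.Agent.VW
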