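import Pool.Agent.P.MP_b0ea37_nt.WSDefs

namespace Pool.Agent.VW

open Polynomial

theorem wsind_deg {K : Type} [Field K] {p q : K[X]} {a c D : ℕ} (hp : p.degree < a)
    (hq : q.natDegree ≤ c) (h : a + c ≤ D) : (p * q).degree < D := by
  by_cases hp0 : p = 0
  · rw [hp0, zero_mul, degree_zero]; exact WithBot.bot_lt_coe _
  by_cases hq0 : q = 0
  · rw [hq0, mul_zero, degree_zero]; exact WithBot.bot_lt_coe _
  have h1 : p.natDegree < a := (natDegree_lt_iff_degree_lt hp0).2 hp
  rw [← natDegree_lt_iff_degree_lt (mul_ne_zero hp0 hq0), natDegree_mul hp0 hq0]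
  omega

theorem wsind_pow {K : Type} [Field K] {S V : K[X]} {s v : ℕ} (hS : S.natDegree ≤ s)
    (hV : V.natDegree = v) (j k : ℕ) : (S ^ j * V ^ k).natDegree ≤ j * s + k * v := by
  refine natDegree_mul_le.trans (add_le_add ?_ ?_)
  · exact natDegree_pow_le.trans (Nat.mul_le_mul_left _ hS)
  · exact natDegree_pow_le.trans (Nat.mul_le_mul_left _ hV.le)

/-- independence on the rational curve -/
theorem ind_poly {K : Type} [Field K] (V S T : K[X]) (v b : ℕ) (hV : V ≠ 0) (hv : V.natDegree = v)
    (hS : S.natDegree ≤ v + 2) (hT0 : T ≠ 0) (hT : T.natDegree = v + b) (hb : v + 4 ≤ 2 * b)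
    (hc : IsCoprime V S) (u w : ℕ → K[X]) (hu : ∀ j, (u j).degree < v) (hw : ∀ j, (w j).degree < b)
    (J : ℕ) (h : ∑ j ∈ Finset.Icc 2 J, (u j * S ^ j + w j * T ^ j) * V ^ (J - j) = 0) :
    ∀ j ∈ Finset.Icc 2 J, u j = 0 ∧ w j = 0 := by
  induction J with
  | zero => intro j hj; simp at hj
  | succ J ih =>
    by_cases hJ : J + 1 < 2
    · intro j hj
      have := Finset.mem_Icc.1 hj
      omega
    have hJ2 : 2 ≤ J + 1 := not_lt.1 hJ
    rw [Finset.sum_Icc_succ_top hJ2, Nat.sub_self, pow_zero, mul_one] at h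
    have hA : ∀ j, j ≤ J + 1 →
        (u j * (S ^ j * V ^ (J + 1 - j))).degree < ((J + 1) * (v + b) : ℕ) := by
      intro j hj
      refine wsind_deg (hu j) (wsind_pow hS hv j _) ?_
      obtain ⟨k, hk⟩ := Nat.exists_eq_add_of_le hj
      obtain ⟨m, hm⟩ := Nat.exists_eq_add_of_le hJ2
      obtain ⟨b', rfl⟩ : ∃ b', b = b' + 2 := ⟨b - 2, by omega⟩
      have e : J + 1 - j = k := by omega
      have h1 : 2 * b' ≤ (j + k) * b' := Nat.mul_le_mul_right _ (by omega)
      rw [e, hk]
      nlinarith
    have hB : ∀ j, j ≤ J →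
        (w j * (T ^ j * V ^ (J + 1 - j))).degree < ((J + 1) * (v + b) : ℕ) := by
      intro j hj
      refine wsind_deg (hw j) (wsind_pow hT.le hv j _) ?_
      obtain ⟨k, hk⟩ := Nat.exists_eq_add_of_le hj
      have e : J + 1 - j = k + 1 := by omega
      rw [e, hk]
      nlinarith [Nat.zero_le (k * b)]
    have hw0 : w (J + 1) = 0 := by
      by_contra hne
      have e : w (J + 1) * T ^ (J + 1) =
          -(∑ j ∈ Finset.Icc 2 J, (u j * S ^ j + w j * T ^ j) * V ^ (J + 1 - j) +
            u (J + 1) * S ^ (J + 1)) := by linear_combination h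
      have hlt : (w (J + 1) * T ^ (J + 1)).degree < ((J + 1) * (v + b) : ℕ) := by
        rw [e, degree_neg]
        refine (degree_add_le _ _).trans_lt (max_lt ?_ ?_)
        · refine (degree_sum_le _ _).trans_lt ((Finset.sup_lt_iff (WithBot.bot_lt_coe _)).2 ?_)
          intro j hj
          have hj' := (Finset.mem_Icc.1 hj).2
          rw [add_mul, mul_assoc, mul_assoc]
          exact (degree_add_le _ _).trans_lt (max_lt (hA j (by omega)) (hB j hj'))
        · have := hA (J + 1) le_rfl
          rwa [Nat.sub_self, pow_zero, mul_one] at this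
      rw [← natDegree_lt_iff_degree_lt (mul_ne_zero hne (pow_ne_zero _ hT0)),
        natDegree_mul hne (pow_ne_zero _ hT0), natDegree_pow, hT] at hlt
      omega
    have hs : ∑ j ∈ Finset.Icc 2 J, (u j * S ^ j + w j * T ^ j) * V ^ (J + 1 - j) =
        V * ∑ j ∈ Finset.Icc 2 J, (u j * S ^ j + w j * T ^ j) * V ^ (J - j) := by
      rw [Finset.mul_sum]
      refine Finset.sum_congr rfl fun j hj => ?_
      have hj' := (Finset.mem_Icc.1 hj).2
      have e : J + 1 - j = J - j + 1 := by omega
      rw [e, pow_succ]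
      ring
    rw [hs, hw0, zero_mul, add_zero] at h
    have hu0 : u (J + 1) = 0 := by
      have hd : V ∣ u (J + 1) * S ^ (J + 1) :=
        ⟨-∑ j ∈ Finset.Icc 2 J, (u j * S ^ j + w j * T ^ j) * V ^ (J - j), by
          linear_combination h⟩
      refine eq_zero_of_dvd_of_degree_lt (hc.pow_right.dvd_of_dvd_mul_right hd) ?_
      rw [degree_eq_natDegree hV, hv]
      exact hu _
    rw [hu0, zero_mul, add_zero] at h
    have ih' := ih ((mul_eq_zero.1 h).resolve_left hV)
    intro j hj
    rcases Nat.lt_or_ge j (J + 1) with hlt | hge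
    · exact ih' j (Finset.mem_Icc.2 ⟨(Finset.mem_Icc.1 hj).1, by omega⟩)
    · have e : j = J + 1 := le_antisymm (Finset.mem_Icc.1 hj).2 hge
      rw [e]
      exact ⟨hu0, hw0⟩

/-- clearing denominators -/
theorem homog (V S T : ℂ[X]) (p : Z2) : ∃ (N : ℕ) (P : ℂ[X]), ∀ r : ℂ, V.eval r ≠ 0 →
    MvPolynomial.eval₂ (Int.castRingHom ℂ) ![S.eval r / V.eval r, T.eval r / V.eval r] p *
      V.eval r ^ N = P.eval r := by
  induction p using MvPolynomial.induction_on with
  | C a => exact ⟨0, C (a : ℂ), fun r _ => by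
      rw [MvPolynomial.eval₂_C, pow_zero, mul_one, eval_C, eq_intCast]⟩
  | add p q hp hq =>
    obtain ⟨N, P, hP⟩ := hp
    obtain ⟨M, Q, hQ⟩ := hq
    refine ⟨N + M, P * V ^ M + Q * V ^ N, fun r hr => ?_⟩
    rw [MvPolynomial.eval₂_add, eval_add, eval_mul, eval_mul, eval_pow, eval_pow, ← hP r hr,
      ← hQ r hr]
    ring
  | mul_X p i hp =>
    obtain ⟨N, P, hP⟩ := hp
    refine ⟨N + 1, P * ![S, T] i, fun r hr => ?_⟩
    rw [MvPolynomial.eval₂_mul, MvPolynomial.eval₂_X, eval_mul, ← hP r hr]
    have e : ![S.eval r / V.eval r, T.eval r / V.eval r] i * V.eval r = (![S, T] i).eval r := by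
      fin_cases i
      · exact div_mul_cancel₀ _ hr
      · exact div_mul_cancel₀ _ hr
    rw [← e]
    ring

/-- members of a plane with a double root -/
theorem double_iff {K : Type} [Field K] (f a b : K[X]) (r s t : K) (hV : (wr a b).eval r ≠ 0) :
    ((f + C s * a + C t * b).eval r = 0 ∧ (derivative (f + C s * a + C t * b)).eval r = 0) ↔
      (s = (wr b f).eval r / (wr a b).eval r ∧ t = (wr f a).eval r / (wr a b).eval r) := by
  rw [eq_div_iff hV, eq_div_iff hV]
  simp only [wr, derivative_add, derivative_mul, derivative_C, zero_mul, zero_add, eval_add,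
    eval_mul, eval_sub, eval_C] at hV ⊢
  constructor
  · rintro ⟨h, h'⟩
    exact ⟨by linear_combination (eval r b) * h' - (eval r (derivative b)) * h,
      by linear_combination (eval r (derivative a)) * h - (eval r a) * h'⟩
  · rintro ⟨h, h'⟩
    exact ⟨mul_left_cancel₀ hV (by linear_combination (eval r a) * h + (eval r b) * h'),
      mul_left_cancel₀ hV
        (by linear_combination (eval r (derivative a)) * h + (eval r (derivative b)) * h')⟩

theorem double_wr {K : Type} [Field K] (f a b : K[X]) (r s t : K)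
    (h : (f + C s * a + C t * b).eval r = 0) (h' : (derivative (f + C s * a + C t * b)).eval r = 0) :
    s * (wr a b).eval r = (wr b f).eval r := by
  simp only [wr, derivative_add, derivative_mul, derivative_C, zero_mul, zero_add, eval_add,
    eval_mul, eval_sub, eval_C] at h h' ⊢
  linear_combination (eval r b) * h' - (eval r (derivative b)) * h

end Pool.Agent.VW
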