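import Pool.Agent.P.MP_b0ea37_nt.WSPl
import Pool.Agent.P.MP_b0ea37_nt.WSInd
import Pool.Agent.P.MP_b0ea37_nt.WLine

namespace Pool.Agent.VW

open Polynomial

theorem WSCurve_wr_map {R S : Type} [CommRing R] [CommRing S] (φ : R →+* S) (a b : R[X]) :
    (wr a b).map φ = wr (a.map φ) (b.map φ) := by
  simp [wr, Polynomial.map_sub, Polynomial.map_mul, derivative_map]

theorem WSCurve_up_up (f : ℤ[X]) : (up ℚ f).map (algebraMap ℚ ℂ) = up ℂ f := by
  rw [Polynomial.map_map, RingHom.ext_int ((algebraMap ℚ ℂ).comp _) (Int.castRingHom ℂ)]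

theorem WSCurve_up_mem {R : Type} [CommRing R] (n : ℕ) (f₀ : ℤ[X]) (x : Fin 2 → ℤ) :
    up R (mem n f₀ x) = up R f₀ + C (x 0 : R) * up R (g1 n) + C (x 1 : R) * up R (g2 n) := by
  simp [mem, Polynomial.map_add, Polynomial.map_mul]

/-- adding lower terms keeps monic polynomials monic -/
theorem WSCurve_monic_add {R : Type} [CommRing R] [Nontrivial R] {n : ℕ} (F A B : R[X]) (s t : R)
    (hF : F.Monic) (hd : F.natDegree = n) (hA : A.natDegree < n) (hB : B.natDegree < n) :
    (F + C s * A + C t * B).Monic ∧ (F + C s * A + C t * B).natDegree = n := by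
  have h1 : (C s * A + C t * B).natDegree < F.natDegree := by
    rw [hd]
    refine lt_of_le_of_lt (natDegree_add_le _ _) (max_lt ?_ ?_)
    · exact lt_of_le_of_lt (natDegree_C_mul_le _ _) hA
    · exact lt_of_le_of_lt (natDegree_C_mul_le _ _) hB
  rw [add_assoc]
  exact ⟨hF.add_of_left (degree_lt_degree h1), by rw [natDegree_add_eq_left_of_natDegree_lt h1, hd]⟩

theorem WSCurve_base {n : ℕ} (hn : 5 ≤ n) (f₀ : ℤ[X]) (x : Fin 2 → ℤ) (hm : (mem n f₀ x).Monic)
    (hd : (mem n f₀ x).natDegree = n) : f₀.Monic ∧ f₀.natDegree = n := by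
  have h1 := (g1_monic hn).2
  have h2 := (g2_monic n).2
  have h := WSCurve_monic_add (mem n f₀ x) (g1 n) (g2 n) (-x 0) (-x 1) hm hd (by omega) (by omega)
  have e : mem n f₀ x + C (-x 0) * g1 n + C (-x 1) * g2 n = f₀ := by
    simp only [mem, map_neg]
    ring
  rwa [e] at h

theorem WSCurve_deg_le {K : Type} [Field K] (a b : K[X]) (p q : ℕ) (ha : a.natDegree = p)
    (hb : b.natDegree = q) (hq : 1 ≤ q) : (wr a b).natDegree ≤ p + q - 1 := by
  unfold wr
  refine le_trans (natDegree_sub_le _ _) (max_le ?_ ?_)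
  · rcases Nat.eq_zero_or_pos p with h | h
    · have : derivative a = 0 := by
        rw [eq_C_of_natDegree_eq_zero (ha.trans h)]
        simp
      simp [this]
    · refine le_trans natDegree_mul_le ?_
      have := natDegree_derivative_le a
      omega
  · refine le_trans natDegree_mul_le ?_
    have := natDegree_derivative_le b
    omega

theorem WSCurve_deg_eq {K : Type} [Field K] [CharZero K] (a b : K[X]) (q : ℕ) (ha : a.Monic)
    (hb : b.Monic) (hp : a.natDegree = q + 3) (hq : b.natDegree = q + 1) :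
    wr a b ≠ 0 ∧ (wr a b).natDegree = 2 * q + 3 := by
  have hle := WSCurve_deg_le a b (q + 3) (q + 1) hp hq (by omega)
  have ca : a.coeff (q + 3) = 1 := by rw [← hp]; exact ha.coeff_natDegree
  have cb : b.coeff (q + 1) = 1 := by rw [← hq]; exact hb.coeff_natDegree
  have da : (derivative a).natDegree ≤ q + 2 := by
    have := natDegree_derivative_le a
    omega
  have db : (derivative b).natDegree ≤ q := by
    have := natDegree_derivative_le b
    omega
  have e1 : (derivative a * b).coeff (2 * q + 3) = (q : K) + 3 := by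
    have := coeff_mul_add_eq_of_natDegree_le da hq.le
    rw [show q + 2 + (q + 1) = 2 * q + 3 by ring] at this
    rw [this, coeff_derivative, ca, cb]
    push_cast
    ring
  have e2 : (a * derivative b).coeff (2 * q + 3) = (q : K) + 1 := by
    have := coeff_mul_add_eq_of_natDegree_le hp.le db
    rw [show q + 3 + q = 2 * q + 3 by ring] at this
    rw [this, coeff_derivative, ca, cb]
    ring
  have e : (wr a b).coeff (2 * q + 3) ≠ 0 := by
    rw [wr, coeff_sub, e1, e2]
    norm_num
  refine ⟨fun h => e (by simp [h]), le_antisymm (by omega) (le_natDegree_of_ne_zero e)⟩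

/-- the values at a monic polynomial with a double root -/
theorem WSCurve_double {n : ℕ} (M : ℂ[X]) (hM : M.Monic) (hd : M.natDegree = n) (r : ℂ)
    (h : M.eval r = 0) (h' : (derivative M).eval r = 0) (k : ℕ) :
    Phi n k M = r ^ k * Phi n 0 M := by
  have hr : 1 < rootMultiplicity r M := (one_lt_rootMultiplicity_iff_isRoot hM.ne_zero).2 ⟨h, h'⟩
  obtain ⟨G, hG⟩ := (le_rootMultiplicity_iff hM.ne_zero).1 (show 2 ≤ rootMultiplicity r M from hr)
  have hq : ((X - C r) ^ 2 : ℂ[X]).Monic := (monic_X_sub_C r).pow 2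
  have hGm : G.Monic := hq.of_mul_monic_left (hG ▸ hM)
  have hGd : G.natDegree + 2 = n := by
    rw [← hd, hG, hq.natDegree_mul hGm, natDegree_pow, natDegree_X_sub_C]
    omega
  rw [hG, ← hGd, Phi_double k r G hGm rfl, Phi_double 0 r G hGm rfl]
  ring

/-- evaluation at a complex point of the plane -/
theorem WSCurve_ev (n k : ℕ) (f₀ : ℤ[X]) (s t : ℂ) :
    MvPolynomial.eval₂ (Int.castRingHom ℂ) ![s, t] (DD n f₀) =
      Dv n (up ℂ f₀ + C s * up ℂ (g1 n) + C t * up ℂ (g2 n)) ∧
    MvPolynomial.eval₂ (Int.castRingHom ℂ) ![s, t] (PP n k f₀) =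
      Phi n k (up ℂ f₀ + C s * up ℂ (g1 n) + C t * up ℂ (g2 n)) := by
  have h := map_fam n f₀ (MvPolynomial.eval₂Hom (Int.castRingHom ℂ) ![s, t])
  simp only [MvPolynomial.eval₂Hom_X', Matrix.cons_val_zero, Matrix.cons_val_one] at h
  rw [← h, Dv_map, Phi_map]
  exact ⟨rfl, rfl⟩

theorem WSCurve_ev_toQ (p : Fin 2 → ℂ) (A : Z2) :
    MvPolynomial.eval₂Hom (algebraMap ℚ ℂ) p (toQ A) =
      MvPolynomial.eval₂ (Int.castRingHom ℂ) p A := by
  rw [MvPolynomial.coe_eval₂Hom, MvPolynomial.eval₂_map,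
    RingHom.ext_int ((algebraMap ℚ ℂ).comp _) (Int.castRingHom ℂ)]

theorem WSCurve_deg_sum {N : ℕ} (c : Fin N → ℂ) (e : Fin N → ℕ) (P : Fin N → Prop) [DecidablePred P]
    (d : ℕ) (h : ∀ i, P i → e i < d) :
    (∑ i, if P i then monomial (e i) (c i) else 0 : ℂ[X]).degree < d := by
  refine lt_of_le_of_lt (degree_sum_le _ _) ?_
  refine (Finset.sup_lt_iff (WithBot.bot_lt_coe d)).2 fun i _ => ?_
  split_ifs with hi
  · exact lt_of_le_of_lt (degree_monomial_le _ _) (WithBot.coe_lt_coe.2 (h i hi))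
  · exact WithBot.bot_lt_coe d

theorem WSCurve_coeff_sum {N : ℕ} (c : Fin N → ℂ) (e : Fin N → ℕ) (P : Fin N → Prop)
    [DecidablePred P] (h : ∀ i j, P i → P j → e i = e j → i = j)
    (h0 : (∑ i, if P i then monomial (e i) (c i) else 0 : ℂ[X]) = 0) (i : Fin N) (hi : P i) :
    c i = 0 := by
  have := congrArg (fun p : ℂ[X] => p.coeff (e i)) h0
  simp only [finsetSum_coeff, coeff_zero] at this
  rw [Finset.sum_eq_single i] at this
  · simpa [hi] using this
  · intro j _ hj
    split_ifs with hP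
    · rw [coeff_monomial, if_neg fun e' => hj (h j i hP hi e')]
    · simp
  · simp

theorem ind_plane {n : ℕ} (hn : 5 ≤ n) (f₀ : ℤ[X]) (x : Fin 2 → ℤ) (hm : (mem n f₀ x).Monic)
    (hd : (mem n f₀ x).natDegree = n) (hi : Irr (mem n f₀ x)) (hp : Prim (mem n f₀ x))
    (hV : ¬ up ℚ (wr (g1 n) (g2 n)) ∣ up ℚ (wr (g2 n) (mem n f₀ x))) :
    Ind (DD n f₀) (PP n 0 f₀) (vv n) fun i => PP n (ix n i) f₀ := by
  obtain ⟨hf, hfd⟩ := WSCurve_base hn f₀ x hm hd
  obtain ⟨h1m, h1d⟩ := g1_monic hn
  obtain ⟨h2m, h2d⟩ := g2_monic n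
  obtain ⟨hVi, hVd⟩ := wr_g hn
  have inj : Function.Injective (Int.castRingHom ℂ) := Int.cast_injective
  set F := up ℂ f₀ with hF
  set A := up ℂ (g1 n) with hA
  set B := up ℂ (g2 n) with hB
  have hFm : F.Monic := hf.map _
  have hAm : A.Monic := h1m.map _
  have hFd : F.natDegree = n := by rw [hF, natDegree_map_eq_of_injective inj, hfd]
  have hAd : A.natDegree = n - 2 := by rw [hA, natDegree_map_eq_of_injective inj, h1d]
  have hBd : B.natDegree = n % 2 := by rw [hB, natDegree_map_eq_of_injective inj, h2d]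
  have hVv : (wr A B).natDegree = n - 3 + n % 2 := by
    rw [hA, hB, ← WSCurve_wr_map, natDegree_map_eq_of_injective inj, hVd]
  have hV0 : wr A B ≠ 0 := by
    intro h
    rw [h, natDegree_zero] at hVv
    omega
  have hc : IsCoprime (wr A B) (wr B F) := by
    have h1 : ¬ up ℚ (wr (g1 n) (g2 n)) ∣ up ℚ (wr (g2 n) f₀) := by
      intro h
      apply hV
      have e : wr (g2 n) (mem n f₀ x) = wr (g2 n) f₀ - C (x 0) * wr (g1 n) (g2 n) := by
        simp only [wr, mem, derivative_add, derivative_mul, derivative_C]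
        ring
      rw [e]
      simp only [up, Polynomial.map_sub, Polynomial.map_mul]
      exact dvd_sub h (Dvd.intro_left _ rfl)
    have h2 := ((Irreducible.coprime_iff_not_dvd hVi).2 h1).map
      (Polynomial.mapRingHom (algebraMap ℚ ℂ))
    simp only [coe_mapRingHom, WSCurve_up_up] at h2
    rwa [up, up, WSCurve_wr_map, WSCurve_wr_map] at h2
  have hS : (wr B F).natDegree ≤ n - 3 + n % 2 + 2 := by
    have := WSCurve_deg_le B F _ _ hBd hFd (by omega)
    omega
  obtain ⟨hT0, hT⟩ := WSCurve_deg_eq F A (n - 3) hFm hAm (by omega) (by omega)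
  have hmon : ∀ s t : ℂ, (F + C s * A + C t * B).Monic ∧ (F + C s * A + C t * B).natDegree = n :=
    fun s t => WSCurve_monic_add F A B s t hFm hFd (by omega) (by omega)
  obtain ⟨N, Ph, hPh⟩ := homog (wr A B) (wr B F) (wr F A) (PP n 0 f₀)
  have hPh0 : Ph ≠ 0 := by
    obtain ⟨K, hK⟩ := exists_good n hn
    obtain ⟨c, -, τ, hD, hP⟩ := hK (mem n f₀ x) (g1 n) (g2 n) hm hd hi hp (by omega) (by omega)
      (g_indep hn)
    have e : up ℂ (mem n f₀ x) + C τ * up ℂ (g1 n + C (c : ℤ) * g2 n) =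
        F + C ((x 0 : ℂ) + τ) * A + C ((x 1 : ℂ) + τ * c) * B := by
      rw [WSCurve_up_mem, up, up, up, up, Polynomial.map_add, Polynomial.map_mul, map_C]
      simp only [map_add, map_mul, map_natCast]
      ring
    rw [e] at hD hP
    obtain ⟨r, hr, hr'⟩ := (Dv_eq_zero_iff_double _ (hmon _ _).1 (hmon _ _).2).1 hD
    have hVr : (wr A B).eval r ≠ 0 := by
      intro h
      have h3 := double_wr F A B r _ _ hr hr'
      rw [h, mul_zero] at h3
      obtain ⟨a, b, hab⟩ := hc
      have := congrArg (eval r) hab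
      simp [h, ← h3] at this
    obtain ⟨hs, ht⟩ := (double_iff F A B r _ _ hVr).1 ⟨hr, hr'⟩
    intro h
    have h4 := hPh r hVr
    rw [← hs, ← ht, (WSCurve_ev n 0 f₀ _ _).2, h, eval_zero] at h4
    exact mul_ne_zero hP (pow_ne_zero _ hVr) h4
  intro k J u hdvd
  set v := n - 3 + n % 2 with hv
  let uu : ℕ → ℂ[X] := fun j => ∑ i : Fin (2 * (n - 3) + 3),
    if (i : ℕ) < v then monomial (ix n i) (u j i : ℂ) else 0
  let ww : ℕ → ℂ[X] := fun j => ∑ i : Fin (2 * (n - 3) + 3),
    if ¬ (i : ℕ) < v then monomial (ix n i) (u j i : ℂ) else 0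
  have hR : ∑ j ∈ Finset.Icc 2 J, (uu j * wr B F ^ j + ww j * wr F A ^ j) * wr A B ^ (J - j) = 0 := by
    have key : (∑ j ∈ Finset.Icc 2 J, (uu j * wr B F ^ j + ww j * wr F A ^ j) * wr A B ^ (J - j)) *
        (Ph * wr A B) = 0 := by
      apply Polynomial.funext
      intro r
      rw [eval_mul, eval_mul, eval_zero]
      by_cases hVr : (wr A B).eval r = 0
      · simp [hVr]
      by_cases hPr : Ph.eval r = 0
      · simp [hPr]
      set s := (wr B F).eval r / (wr A B).eval r with hs
      set t := (wr F A).eval r / (wr A B).eval r with ht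
      obtain ⟨hr, hr'⟩ := (double_iff F A B r s t hVr).2 ⟨hs, ht⟩
      have hD : Dv n (F + C s * A + C t * B) = 0 :=
        (Dv_eq_zero_iff_double _ (hmon _ _).1 (hmon _ _).2).2 ⟨r, hr, hr'⟩
      have hP : Phi n 0 (F + C s * A + C t * B) ≠ 0 := by
        intro h
        have h4 := hPh r hVr
        rw [(WSCurve_ev n 0 f₀ _ _).2, h, zero_mul] at h4
        exact hPr h4.symm
      have h5 := map_dvd (MvPolynomial.eval₂Hom (algebraMap ℚ ℂ) ![s, t]) hdvd
      simp only [map_mul, map_pow, map_sum, WSCurve_ev_toQ, MvPolynomial.eval₂Hom_C,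
        MvPolynomial.eval₂Hom_X'] at h5
      rw [(WSCurve_ev n 0 f₀ s t).1, (WSCurve_ev n 0 f₀ s t).2, hD, zero_dvd_iff] at h5
      have h6 := (mul_eq_zero.1 h5).resolve_left (pow_ne_zero _ hP)
      have h7 : ∀ i, MvPolynomial.eval₂ (Int.castRingHom ℂ) ![s, t] (PP n (ix n i) f₀) =
          r ^ ix n i * Phi n 0 (F + C s * A + C t * B) := fun i => by
        rw [(WSCurve_ev n _ f₀ s t).2]
        exact WSCurve_double _ (hmon _ _).1 (hmon _ _).2 r hr hr' _
      simp only [h7] at h6
      have h8 : eval r (∑ j ∈ Finset.Icc 2 J,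
          (uu j * wr B F ^ j + ww j * wr F A ^ j) * wr A B ^ (J - j)) *
          Phi n 0 (F + C s * A + C t * B) = (wr A B).eval r ^ J * 0 := by
        rw [← h6, eval_finsetSum, Finset.sum_mul, Finset.mul_sum]
        refine Finset.sum_congr rfl fun j hj => ?_
        have hjJ : j ≤ J := (Finset.mem_Icc.1 hj).2
        have eS : (wr B F).eval r = s * (wr A B).eval r := by rw [hs, div_mul_cancel₀ _ hVr]
        have eT : (wr F A).eval r = t * (wr A B).eval r := by rw [ht, div_mul_cancel₀ _ hVr]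
        have eJ : (wr A B).eval r ^ J = (wr A B).eval r ^ j * (wr A B).eval r ^ (J - j) := by
          rw [← pow_add, Nat.add_sub_cancel' hjJ]
        simp only [uu, ww, eval_mul, eval_add, eval_pow, eval_finsetSum, eS, eT, eJ, Finset.sum_mul,
          Finset.mul_sum, ← Finset.sum_add_distrib]
        refine Finset.sum_congr rfl fun i _ => ?_
        by_cases hi : (i : ℕ) < v
        · have : vv n i = 0 := if_pos hi
          simp only [hi, this, if_true, not_true, if_false, eval_monomial, eval_zero,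
            Matrix.cons_val_zero, eq_ratCast]
          ring
        · have : vv n i = 1 := if_neg hi
          simp only [hi, this, if_true, not_false_eq_true, if_false, eval_monomial, eval_zero,
            Matrix.cons_val_one, Matrix.cons_val_zero, eq_ratCast]
          ring
      rw [mul_zero] at h8
      rw [(mul_eq_zero.1 h8).resolve_right hP, zero_mul]
    exact (mul_eq_zero.1 key).resolve_right (mul_ne_zero hPh0 hV0)
  have hu : ∀ j, (uu j).degree < v := fun j =>
    WSCurve_deg_sum _ _ _ _ fun i hi => by rw [ix, if_pos hi]; exact hi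
  have hw : ∀ j, (ww j).degree < (n - n % 2 : ℕ) := fun j =>
    WSCurve_deg_sum _ _ _ _ fun i hi => by
      have := i.2
      rw [ix, if_neg hi]
      omega
  have hz := ind_poly (wr A B) (wr B F) (wr F A) v (n - n % 2) hV0 hVv hS hT0 (by omega) (by omega)
    hc uu ww hu hw J hR
  intro j hj i
  have : ((u j i : ℚ) : ℂ) = 0 := by
    by_cases hi : (i : ℕ) < v
    · refine WSCurve_coeff_sum (fun i => (u j i : ℂ)) (ix n) (fun i => (i : ℕ) < v) ?_ (hz j hj).1 i hi
      intro a b ha hb e
      rw [ix, ix, if_pos ha, if_pos hb] at e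
      exact Fin.ext e
    · refine WSCurve_coeff_sum (fun i => (u j i : ℂ)) (ix n) (fun i => ¬ (i : ℕ) < v) ?_
        (hz j hj).2 i hi
      intro a b ha hb e
      rw [ix, ix, if_neg ha, if_neg hb] at e
      exact Fin.ext (by omega)
  exact_mod_cast this

end Pool.Agent.VW
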