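import Pool.Agent.P.MP_b0ea37_nt.WSPl

namespace Pool.Agent.VW

open Polynomial

theorem wsodd_swap {n : ℕ} (T h : ℂ[X]) (hT : T.Monic) (hn : T.natDegree = n) :
    (T.roots.map h.eval).prod =
      (-1) ^ (n * h.natDegree) * h.leadingCoeff ^ n * (h.roots.map T.eval).prod := by
  have h1 := resultant_eq_prod_eval T h h.natDegree le_rfl (IsAlgClosed.splits T)
  have h2 := resultant_eq_prod_eval h T n hn.le (IsAlgClosed.splits h)
  rw [hT.leadingCoeff, one_pow, one_mul, resultant_comm, hn, h2] at h1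
  rw [← h1, mul_assoc]

theorem wsodd_wr {n : ℕ} (F g : ℂ[X]) (hF : F.Monic) (hn : F.natDegree = n) (hg : g ≠ 0)
    (hlt : g.natDegree < n) : wr F g ≠ 0 ∧ (wr F g).natDegree = n + g.natDegree - 1 := by
  obtain ⟨m, rfl⟩ : ∃ m, n = m + 1 := ⟨n - 1, by omega⟩
  have hF' : (derivative F).natDegree ≤ m := by
    have := natDegree_derivative_le F
    omega
  have hFc : F.coeff (m + 1) = 1 := hn ▸ hF.coeff_natDegree
  have hlc : g.coeff g.natDegree ≠ 0 := leadingCoeff_ne_zero.2 hg
  have c1 : (derivative F * g).coeff (m + g.natDegree) = (m + 1) * g.coeff g.natDegree := by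
    rw [coeff_mul_add_eq_of_natDegree_le hF' le_rfl, coeff_derivative, hFc, one_mul]
  have d1 : (derivative F * g).natDegree ≤ m + g.natDegree :=
    natDegree_mul_le.trans (Nat.add_le_add_right hF' _)
  have h2 : (F * derivative g).coeff (m + g.natDegree) = g.natDegree * g.coeff g.natDegree ∧
      (F * derivative g).natDegree ≤ m + g.natDegree := by
    rcases Nat.eq_zero_or_eq_succ_pred g.natDegree with h0 | h0
    · rw [derivative_of_natDegree_zero h0, h0]
      simp
    · obtain ⟨e, he⟩ : ∃ e, g.natDegree = e + 1 := ⟨_, h0⟩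
      have hg' : (derivative g).natDegree ≤ e := by
        have := natDegree_derivative_le g
        omega
      rw [he, show m + (e + 1) = m + 1 + e by omega]
      refine ⟨?_, natDegree_mul_le.trans (Nat.add_le_add hn.le hg')⟩
      rw [coeff_mul_add_eq_of_natDegree_le hn.le hg', coeff_derivative, hFc]
      push_cast
      ring
  have c3 : (wr F g).coeff (m + g.natDegree) ≠ 0 := by
    rw [wr, coeff_sub, c1, h2.1, ← sub_mul]
    refine mul_ne_zero (sub_ne_zero.2 ?_) hlc
    exact_mod_cast hlt.ne'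
  refine ⟨fun h => c3 (by rw [h, coeff_zero]), ?_⟩
  rw [show m + 1 + g.natDegree - 1 = m + g.natDegree by omega]
  exact natDegree_eq_of_le_of_coeff_ne_zero ((natDegree_sub_le _ _).trans (max_le d1 h2.2)) c3

theorem wsodd_eval {n : ℕ} (F g : ℂ[X]) (τ : ℂ) :
    (Dv n (F.map C + C X * g.map C)).eval τ = Dv n (F + C τ * g) := by
  have h := Dv_map (evalRingHom τ) n (F.map C + C X * g.map C)
  have hc : (evalRingHom τ).comp C = RingHom.id ℂ := RingHom.ext fun z => by simp
  rw [coe_evalRingHom] at h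
  rw [← h]
  simp [Polynomial.map_map, hc]

/-- degree of the discriminant along a line -/
theorem deg_line {n : ℕ} (F g : ℂ[X]) (hF : F.Monic) (hn : F.natDegree = n) (hg : g ≠ 0)
    (hlt : g.natDegree < n) (h1 : ∀ z, g.eval z = 0 → F.eval z ≠ 0 ∧ (derivative g).eval z ≠ 0) :
    (Dv n (F.map C + C X * g.map C)).natDegree = n + g.natDegree - 1 := by
  obtain ⟨hW0, hWd⟩ := wsodd_wr F g hF hn hg hlt
  have hc1 : (-1) ^ (n * g.natDegree) * g.leadingCoeff ^ n * (g.roots.map F.eval).prod ≠ 0 := by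
    refine mul_ne_zero (mul_ne_zero (pow_ne_zero _ (by norm_num))
      (pow_ne_zero _ (leadingCoeff_ne_zero.2 hg))) (Multiset.prod_ne_zero fun h => ?_)
    obtain ⟨z, hz, e⟩ := Multiset.mem_map.1 h
    exact (h1 z (isRoot_of_mem_roots hz)).1 e
  have hc2 : (-1) ^ (n * (wr F g).natDegree) * (wr F g).leadingCoeff ^ n ≠ 0 :=
    mul_ne_zero (pow_ne_zero _ (by norm_num)) (pow_ne_zero _ (leadingCoeff_ne_zero.2 hW0))
  have key : Dv n (F.map C + C X * g.map C) *
      C ((-1) ^ (n * g.natDegree) * g.leadingCoeff ^ n * (g.roots.map F.eval).prod) =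
      C ((-1) ^ (n * (wr F g).natDegree) * (wr F g).leadingCoeff ^ n) *
        ((wr F g).roots.map fun ρ => C (g.eval ρ) * X + C (F.eval ρ)).prod := by
    refine Polynomial.funext fun τ => ?_
    have hl : (C τ * g).natDegree < F.natDegree := by
      rw [hn]
      exact lt_of_le_of_lt (natDegree_C_mul_le _ _) hlt
    have hT : (F + C τ * g).Monic := hF.add_of_left (degree_lt_degree hl)
    have hTd : (F + C τ * g).natDegree = n := by
      rw [natDegree_add_eq_left_of_natDegree_lt hl, hn]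
    have e1 : Dv n (F + C τ * g) =
        ((F + C τ * g).roots.map (derivative (F + C τ * g)).eval).prod := by
      have h := resultant_eq_prod_eval (F + C τ * g) (derivative (F + C τ * g)) (n - 1)
        (hTd ▸ natDegree_derivative_le _) (IsAlgClosed.splits _)
      rwa [hT.leadingCoeff, one_pow, one_mul, hTd] at h
    have e2 := wsodd_swap (F + C τ * g) g hT hTd
    have e3 := wsodd_swap (F + C τ * g) (wr F g) hT hTd
    have e4 : g.roots.map (F + C τ * g).eval = g.roots.map F.eval := by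
      refine Multiset.map_congr rfl fun z hz => ?_
      rw [eval_add, eval_mul, (isRoot_of_mem_roots hz).eq_zero, mul_zero, add_zero]
    have e5 : (F + C τ * g).roots.map (wr F g).eval = (F + C τ * g).roots.map
        fun z => (derivative (F + C τ * g)).eval z * g.eval z := by
      refine Multiset.map_congr rfl fun z hz => ?_
      have h0 := (isRoot_of_mem_roots hz).eq_zero
      simp only [wr, derivative_add, derivative_C_mul, eval_add, eval_sub, eval_mul,
        eval_C] at h0 ⊢
      linear_combination (-(derivative g).eval z) * h0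
    have e6 : ((wr F g).roots.map fun ρ => C (g.eval ρ) * X + C (F.eval ρ)).map (eval τ)
        = (wr F g).roots.map (F + C τ * g).eval := by
      rw [Multiset.map_map]
      refine Multiset.map_congr rfl fun z _ => ?_
      simp only [Function.comp_apply, eval_add, eval_mul, eval_C, eval_X]
      ring
    rw [eval_mul, eval_mul, eval_C, eval_C, wsodd_eval, eval_multiset_prod, e6, ← e3, e5,
      Multiset.prod_map_mul, ← e4, ← e2, e1]
  have hρ : ∀ ρ ∈ (wr F g).roots, g.eval ρ ≠ 0 := by
    intro ρ hρ h0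
    have h := (isRoot_of_mem_roots hρ).eq_zero
    rw [wr, eval_sub, eval_mul, eval_mul, h0, mul_zero, zero_sub, neg_eq_zero] at h
    exact mul_ne_zero (h1 ρ h0).1 (h1 ρ h0).2 h
  have hd := congrArg natDegree key
  rw [natDegree_mul_C hc1, natDegree_C_mul hc2, natDegree_multiset_prod] at hd
  · have e : (wr F g).roots.map (natDegree ∘ fun ρ => C (g.eval ρ) * X + C (F.eval ρ))
        = (wr F g).roots.map fun _ => 1 :=
      Multiset.map_congr rfl fun ρ h => natDegree_linear (hρ ρ h)
    rw [hd, Multiset.map_map, e]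
    rw [Multiset.map_const', Multiset.sum_replicate, smul_eq_mul, mul_one,
      ← (IsAlgClosed.splits _).natDegree_eq_card_roots, hWd]
  · intro h
    obtain ⟨ρ, h2, e⟩ := Multiset.mem_map.1 h
    have h3 := natDegree_linear (b := F.eval ρ) (hρ ρ h2)
    rw [e, natDegree_zero] at h3
    omega

/-- rational members of the pencil of directions -/
theorem dir_sep {n : ℕ} (hn : 5 ≤ n) (w : Fin 2 → ℚ) (hw : w ≠ 0) :
    (C (w 0) * up ℚ (g1 n) + C (w 1) * up ℚ (g2 n)).Separable ∧
    (C (w 0) * up ℚ (g1 n) + C (w 1) * up ℚ (g2 n)).natDegree + 2 ≤ n ∧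
    Even (n + (C (w 0) * up ℚ (g1 n) + C (w 1) * up ℚ (g2 n)).natDegree) := by
  have h2 : n % 2 < 2 := Nat.mod_lt _ (by norm_num)
  have d1 : (up ℚ (g1 n)).natDegree = n - 2 := by
    rw [(g1_monic hn).1.natDegree_map, (g1_monic hn).2]
  have d2 : (up ℚ (g2 n)).natDegree = n % 2 := by
    rw [(g2_monic n).1.natDegree_map, (g2_monic n).2]
  by_cases h0 : w 0 = 0
  · have h1 : w 1 ≠ 0 := fun h => hw (funext fun i => by fin_cases i <;> assumption)
    rw [h0, C_0, zero_mul, zero_add, natDegree_C_mul h1, d2]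
    refine ⟨separable_X.of_dvd ⟨C (w 1)⁻¹ * X ^ (1 - n % 2), ?_⟩, by omega,
      Nat.even_iff.2 (by omega)⟩
    rw [g2, up, Polynomial.map_pow, map_X, mul_mul_mul_comm, ← C_mul, mul_inv_cancel₀ h1, C_1,
      one_mul, ← pow_add, Nat.add_sub_cancel' (by omega), pow_one]
  · have dG : (C (w 0) * up ℚ (g1 n) + C (w 1) * up ℚ (g2 n)).natDegree = n - 2 := by
      rw [natDegree_add_eq_left_of_natDegree_lt, natDegree_C_mul h0, d1]
      rw [natDegree_C_mul h0, d1]
      exact lt_of_le_of_lt (natDegree_C_mul_le _ _) (by omega)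
    refine ⟨?_, by omega, Nat.even_iff.2 (by omega)⟩
    obtain ⟨hV, hv⟩ := wr_g hn
    have dV : (up ℚ (wr (g1 n) (g2 n))).natDegree = n - 3 + n % 2 := by
      rw [natDegree_map_eq_of_injective (RingHom.injective_int _), hv]
    have eV : derivative (C (w 0) * up ℚ (g1 n) + C (w 1) * up ℚ (g2 n)) * up ℚ (g2 n) -
        (C (w 0) * up ℚ (g1 n) + C (w 1) * up ℚ (g2 n)) * derivative (up ℚ (g2 n)) =
        C (w 0) * up ℚ (wr (g1 n) (g2 n)) := by
      simp only [wr, up, derivative_add, derivative_C_mul, Polynomial.map_sub, Polynomial.map_mul,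
        derivative_map]
      ring
    unfold Irr at hV
    generalize up ℚ (wr (g1 n) (g2 n)) = V at hV dV eV
    generalize C (w 0) * up ℚ (g1 n) + C (w 1) * up ℚ (g2 n) = G at dG eV ⊢
    have hG0 : G ≠ 0 := fun h => by
      rw [h, natDegree_zero] at dG
      omega
    refine isCoprime_of_irreducible_dvd (fun h => hG0 h.1) fun z hz z1 z2 => ?_
    have z3 : z ∣ C (w 0) * V := eV ▸ dvd_sub (z2.mul_right _) (z1.mul_right _)
    have z4 : V ∣ z :=
      (hz.associated_of_dvd hV (((isUnit_C.2 (IsUnit.mk0 _ h0)).dvd_mul_left).1 z3)).symm.dvd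
    obtain ⟨k, rfl⟩ := z4.trans z1
    have z5 : V ∣ derivative V * k := by
      have h := z4.trans z2
      rw [derivative_mul] at h
      exact (dvd_add_left (dvd_mul_right _ _)).1 h
    have z6 : V ∣ k := IsCoprime.dvd_of_dvd_mul_left hV.separable z5
    have hk : k ≠ 0 := right_ne_zero_of_mul hG0
    have z7 := natDegree_le_of_dvd z6 hk
    rw [natDegree_mul hV.ne_zero hk] at dG
    omega

theorem oddAt {n : ℕ} (hn : 5 ≤ n) (f₀ : ℤ[X]) (x : Fin 2 → ℤ) (hm : (mem n f₀ x).Monic)
    (hd : (mem n f₀ x).natDegree = n) (hi : Irr (mem n f₀ x)) : OddAt (DD n f₀) x := by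
  intro w hw
  obtain ⟨hs, hd2, hev⟩ := dir_sep hn w hw
  obtain ⟨G, hG⟩ : ∃ G, G = C (w 0) * up ℚ (g1 n) + C (w 1) * up ℚ (g2 n) := ⟨_, rfl⟩
  rw [← hG] at hs hd2 hev
  have hinj : Function.Injective (algebraMap ℚ ℂ) := (algebraMap ℚ ℂ).injective
  have dg : (G.map (algebraMap ℚ ℂ)).natDegree = G.natDegree :=
    natDegree_map_eq_of_injective hinj G
  have hq : ∀ p : ℤ[X], (up ℚ p).map (algebraMap ℚ ℂ) = up ℂ p := fun p => by
    rw [up, up, Polynomial.map_map]
    exact congrArg (fun φ => p.map φ) (RingHom.ext_int _ _)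
  have hC : ∀ p : ℤ[X], (up ℂ p).map C = up ℂ[X] p := fun p => by
    rw [up, up, Polynomial.map_map]
    exact congrArg (fun φ => p.map φ) (RingHom.ext_int _ _)
  have hl := deg_line (n := n) (up ℂ (mem n f₀ x)) (G.map (algebraMap ℚ ℂ)) (hm.map _)
    (by rw [hm.natDegree_map, hd]) ((Polynomial.map_ne_zero_iff hinj).2 hs.ne_zero)
    (by omega) (by
      intro z hz
      rw [eval_map_algebraMap] at hz
      refine ⟨fun h0 => ?_, ?_⟩
      · rw [← hq, eval_map_algebraMap] at h0
        have h := natDegree_le_of_dvd (hi.dvd_of_root h0 hz) hs.ne_zero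
        rw [hm.natDegree_map, hd] at h
        omega
      · rw [derivative_map, eval_map_algebraMap]
        exact hs.aeval_derivative_ne_zero hz)
  obtain ⟨ψ, hψ⟩ : ∃ ψ : Z2 →+* ℂ[X], ∀ A, ψ A =
      (onLine (fun i => (x i : ℚ)) w (toQ A)).map (algebraMap ℚ ℂ) :=
    ⟨(mapRingHom (algebraMap ℚ ℂ)).comp ((onLine (fun i => (x i : ℚ)) w).toRingHom.comp
      (MvPolynomial.map (Int.castRingHom ℚ))), fun _ => rfl⟩
  have hX : ∀ i, ψ (MvPolynomial.X i) = C (x i : ℂ) + C (algebraMap ℚ ℂ (w i)) * X := fun i => by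
    rw [hψ, toQ, MvPolynomial.map_X, onLine, MvPolynomial.aeval_X, Polynomial.map_add,
      Polynomial.map_mul, map_C, map_C, map_X, map_intCast]
  have e : (fam n f₀).map ψ =
      (up ℂ (mem n f₀ x)).map C + C X * (G.map (algebraMap ℚ ℂ)).map C := by
    have em : up ℂ (mem n f₀ x) =
        up ℂ f₀ + C (x 0 : ℂ) * up ℂ (g1 n) + C (x 1 : ℂ) * up ℂ (g2 n) := by
      rw [mem, up, Polynomial.map_add, Polynomial.map_add, Polynomial.map_mul, Polynomial.map_mul,
        map_C, map_C]
      rfl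
    rw [map_fam, hX, hX, em, hG]
    simp only [Polynomial.map_add, Polynomial.map_mul, map_C, hq, hC, C_add, C_mul]
    ring
  rw [← natDegree_map_eq_of_injective hinj, ← hψ, DD, ← Dv_map, e, hl, dg]
  obtain ⟨k, hk⟩ := hev
  exact ⟨k - 1, by omega⟩

end Pool.Agent.VW
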