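import Pool.Agent.P.MP_b0ea37_nt.WSDefs

namespace Pool.Agent.VW

open Polynomial

theorem desc_zero {R : Type} [CommRing R] [IsDomain R] (Z : R) (hZ : Z ≠ 0) (p : ℕ → R) (K : ℕ)
    (hp : ∀ j, 1 ≤ j → Z ∣ p j → p j = 0) (h : ∑ j ∈ Finset.range (K + 1), p j * Z ^ (K - j) = 0) :
    ∀ j ≤ K, p j = 0 := by
  induction K with
  | zero =>
    intro j hj
    obtain rfl : j = 0 := by omega
    simpa using h
  | succ K ih =>
    have e : ∑ j ∈ Finset.range (K + 1), p j * Z ^ (K + 1 - j)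
        = Z * ∑ j ∈ Finset.range (K + 1), p j * Z ^ (K - j) := by
      rw [Finset.mul_sum]
      refine Finset.sum_congr rfl fun j hj => ?_
      have := Finset.mem_range.1 hj
      rw [show K + 1 - j = K - j + 1 by omega, pow_succ]
      ring
    rw [Finset.sum_range_succ, e, Nat.sub_self, pow_zero, mul_one] at h
    have h1 : p (K + 1) = 0 := hp _ (by omega) ⟨-_, by rw [mul_neg, eq_neg_iff_add_eq_zero, add_comm, h]⟩
    rw [h1, add_zero, mul_eq_zero, or_iff_right hZ] at h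
    intro j hj
    rcases Nat.lt_or_ge K j with hl | hl
    · obtain rfl : j = K + 1 := by omega
      exact h1
    · exact ih h j hl

theorem WSAlg_pair {R : Type} [AddCommMonoid R] (f : ℕ → R) (n : ℕ) :
    ∑ k ∈ Finset.range (2 * n), f k = ∑ j ∈ Finset.range n, (f (2 * j) + f (2 * j + 1)) := by
  induction n with
  | zero => simp
  | succ n ih =>
    rw [mul_add, mul_one, Finset.sum_range_succ, Finset.sum_range_succ, ih, Finset.sum_range_succ,
      add_assoc]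

theorem WSAlg_deg (p : ℕ → Q2) (Z : Q2) (K E : ℕ) (hp : ∀ j, (p j).totalDegree ≤ E)
    (hZ : Z.totalDegree ≤ E) :
    ((∑ j ∈ Finset.range (K + 1), p j * Z ^ (K - j)) ^ 2).totalDegree ≤ 2 * ((K + 1) * E) := by
  refine (MvPolynomial.totalDegree_pow _ _).trans (Nat.mul_le_mul_left _ ?_)
  refine MvPolynomial.totalDegree_finsetSum_le fun j _ => ?_
  refine (MvPolynomial.totalDegree_mul _ _).trans ?_
  have h1 := (MvPolynomial.totalDegree_pow Z (K - j)).trans
    (Nat.mul_le_mul (Nat.sub_le K j) hZ)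
  have h2 := hp j
  rw [add_mul, one_mul]
  omega

/-- from a linear relation to a plane curve -/
theorem alg_rel {κ : Type} [Fintype κ] (D : Z2) (q : ℤ) (hq : q ≠ 0) (K E : ℕ) (lev : κ → ℕ)
    (pol : κ → Z2) (hlev : ∀ i, lev i ≤ K) (hD : D.totalDegree ≤ E)
    (hpol : ∀ i, (pol i).totalDegree ≤ E)
    (hsq : ∀ (A O : Q2) (c : ℚ), toQ D * O ^ 2 = MvPolynomial.C c * A ^ 2 → O = 0)
    (hlow : ∀ (k : ℕ) (c : κ → ℚ), k ≤ 1 →
      ∑ i ∈ Finset.univ.filter (fun i => lev i = k), MvPolynomial.C (c i) * toQ (pol i) = 0 →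
      ∀ i, lev i = k → c i = 0)
    (hind : ∀ (k : ℕ) (c : κ → ℚ), 2 ≤ k →
      toQ D ∣ ∑ i ∈ Finset.univ.filter (fun i => lev i = k), MvPolynomial.C (c i) * toQ (pol i) →
      ∀ i, lev i = k → c i = 0) (c : κ → ℤ) (hc : c ≠ 0) :
    ∃ G : Q2, G ≠ 0 ∧ G.totalDegree ≤ (2 * K + 3) * E ∧ ∀ (x : Fin 2 → ℤ) (y : ℤ) (F : κ → ℤ),
      evz x D = q * y ^ 2 → y ≠ 0 → (∀ i, F i * y ^ lev i = y * evz x (pol i)) →
      ∑ i, c i * F i = 0 → ev2 x G = 0 := by
  have hq' : (q : ℚ) ≠ 0 := Int.cast_ne_zero.2 hq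
  obtain ⟨P, hP⟩ : ∃ P : ℕ → Q2, ∀ k, P k = ∑ i ∈ Finset.univ.filter (fun i => lev i = k),
    MvPolynomial.C (c i : ℚ) * toQ (pol i) := ⟨_, fun _ => rfl⟩
  obtain ⟨Z, hZ⟩ : ∃ Z : Q2, Z = MvPolynomial.C (q : ℚ)⁻¹ * toQ D := ⟨_, rfl⟩
  have hC : ∀ (a : ℚ) (A : Q2) (n : ℕ), A.totalDegree ≤ n →
      (MvPolynomial.C a * A).totalDegree ≤ n := fun a A n h =>
    (MvPolynomial.totalDegree_mul _ _).trans (by rwa [MvPolynomial.totalDegree_C, zero_add])
  have hD' : (toQ D).totalDegree ≤ E := (deg_toQ D).trans_le hD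
  have hPd : ∀ k, (P k).totalDegree ≤ E := fun k => hP k ▸
    MvPolynomial.totalDegree_finsetSum_le fun i _ => hC _ _ _ ((deg_toQ _).trans_le (hpol i))
  have hZd : Z.totalDegree ≤ E := hZ ▸ hC _ _ _ hD'
  refine ⟨MvPolynomial.C (q : ℚ) * (∑ j ∈ Finset.range (K + 1), P (2 * j + 1) * Z ^ (K - j)) ^ 2 -
    toQ D * (∑ j ∈ Finset.range (K + 1), P (2 * j) * Z ^ (K - j)) ^ 2, fun hG => hc ?_, ?_,
    fun x y F h1 _ h2 h3 => ?_⟩
  · have hO := hsq _ _ _ (sub_eq_zero.1 hG).symm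
    rw [hO, zero_pow two_ne_zero, mul_zero, sub_zero, mul_eq_zero,
      or_iff_right (MvPolynomial.C_ne_zero.2 hq'), pow_eq_zero_iff two_ne_zero] at hG
    have hZ0 : Z ≠ 0 := hZ ▸ mul_ne_zero (MvPolynomial.C_ne_zero.2 (inv_ne_zero hq')) fun h =>
      one_ne_zero (hsq 0 1 0 (by simp [h]))
    have hp : ∀ k, 2 ≤ k → Z ∣ P k → P k = 0 := fun k hk h => by
      have := hind k (fun i => c i) hk (hP k ▸ (hZ ▸ dvd_mul_left _ _ : toQ D ∣ Z).trans h)
      rw [hP]
      exact Finset.sum_eq_zero fun i hi => by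
        rw [this i (Finset.mem_filter.1 hi).2, map_zero, zero_mul]
    have e0 := desc_zero Z hZ0 (fun j => P (2 * j)) K (fun j hj => hp _ (by omega)) hO
    have e1 := desc_zero Z hZ0 (fun j => P (2 * j + 1)) K (fun j hj => hp _ (by omega)) hG
    funext i
    have hi := hlev i
    have e : P (lev i) = 0 := by
      rcases Nat.even_or_odd' (lev i) with ⟨j, h | h⟩
      · exact h ▸ e0 j (by omega)
      · exact h ▸ e1 j (by omega)
    rw [hP] at e
    rcases Nat.lt_or_ge 1 (lev i) with h | h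
    · exact Int.cast_eq_zero.1 (hind _ (fun i => c i) h (e ▸ dvd_zero _) i rfl)
    · exact Int.cast_eq_zero.1 (hlow _ (fun i => c i) h e i rfl)
  · have d1 := hC (q : ℚ) _ _ (WSAlg_deg (fun j => P (2 * j + 1)) Z K E (fun _ => hPd _) hZd)
    have d2 := (MvPolynomial.totalDegree_mul _ _).trans (add_le_add hD'
      (WSAlg_deg (fun j => P (2 * j)) Z K E (fun _ => hPd _) hZd))
    have e : (2 * K + 3) * E = E + 2 * ((K + 1) * E) := by ring
    exact (MvPolynomial.totalDegree_sub _ _).trans (max_le (by omega) (by omega))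
  · obtain ⟨φ, hφ0, hφC, hφ⟩ : ∃ φ : Q2 →+* ℚ, (∀ A, ev2 x A = φ A) ∧
        (∀ a, φ (MvPolynomial.C a) = a) ∧ ∀ A, φ (toQ A) = evz x A :=
      ⟨MvPolynomial.eval fun i => (x i : ℚ), fun _ => rfl, MvPolynomial.eval_C, ev2_toQ x⟩
    have eD : φ (toQ D) = q * (y : ℚ) ^ 2 := by rw [hφ, h1]; push_cast; rfl
    have eZ : φ Z = (y : ℚ) ^ 2 := by
      rw [hZ, map_mul, hφC, eD, inv_mul_cancel_left₀ hq']
    have e1 : ∑ k ∈ Finset.range (2 * (K + 1)), φ (P k) * (y : ℚ) ^ (2 * K + 1 - k) = 0 := by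
      have := congrArg (fun t : ℤ => (t : ℚ) * (y : ℚ) ^ (2 * K)) h3
      simp only [Int.cast_zero, zero_mul, Int.cast_sum, Finset.sum_mul] at this
      rw [← this, ← Finset.sum_fiberwise_of_maps_to (g := lev) (t := Finset.range (2 * (K + 1)))
        fun i _ => Finset.mem_range.2 (by have := hlev i; omega)]
      refine Finset.sum_congr rfl fun k _ => ?_
      rw [hP, map_sum, Finset.sum_mul]
      refine Finset.sum_congr rfl fun i hi => ?_
      obtain rfl := (Finset.mem_filter.1 hi).2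
      have h4 := congrArg (Int.cast : ℤ → ℚ) (h2 i)
      have h5 := hlev i
      push_cast at h4 ⊢
      rw [map_mul, hφC, hφ,
        show 2 * K + 1 - lev i = 2 * K - lev i + 1 by omega, pow_succ,
        ← pow_sub_mul_pow (y : ℚ) (show lev i ≤ 2 * K by omega)]
      linear_combination -((c i : ℚ) * (y : ℚ) ^ (2 * K - lev i)) * h4
    have e2 : φ (∑ j ∈ Finset.range (K + 1), P (2 * j + 1) * Z ^ (K - j))
        + y * φ (∑ j ∈ Finset.range (K + 1), P (2 * j) * Z ^ (K - j)) = 0 := by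
      rw [← e1, WSAlg_pair, map_sum, map_sum, Finset.mul_sum, ← Finset.sum_add_distrib]
      refine Finset.sum_congr rfl fun j hj => ?_
      have := Finset.mem_range.1 hj
      rw [map_mul, map_mul, map_pow, eZ, ← pow_mul,
        show 2 * K + 1 - 2 * j = 2 * (K - j) + 1 by omega,
        show 2 * K + 1 - (2 * j + 1) = 2 * (K - j) by omega]
      ring
    rw [hφ0, map_sub, map_mul, map_mul, map_pow, map_pow, hφC, eD,
      eq_neg_of_add_eq_zero_left e2]
    ring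

end Pool.Agent.VW
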