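import Pool.Agent.P.MP_b0ea37_nt.WSDefs

namespace Pool.Agent.VW

open Polynomial

theorem WSFac_deg_pos {A : Q2} (h : Irreducible A) : 1 ≤ A.totalDegree := by
  by_contra c
  have h0 : A.totalDegree = 0 := by omega
  refine h.not_isUnit (MvPolynomial.isUnit_iff_totalDegree_of_isReduced.2 ⟨?_, h0⟩)
  refine IsUnit.mk0 _ fun e => h.ne_zero ?_
  rw [MvPolynomial.totalDegree_eq_zero_iff_eq_C.1 h0, e, map_zero]

theorem WSFac_card (s : Multiset Q2) (hs : ∀ A ∈ s, Irreducible A) :
    s.card ≤ s.prod.totalDegree := by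
  induction s using Multiset.induction_on with
  | empty => simp
  | cons a s ih =>
    have ha := hs a (Multiset.mem_cons_self a s)
    have hs' : ∀ A ∈ s, Irreducible A := fun A hA => hs A (Multiset.mem_cons_of_mem hA)
    have h0 : s.prod ≠ 0 := Multiset.prod_ne_zero fun h => (hs' 0 h).ne_zero rfl
    rw [Multiset.card_cons, Multiset.prod_cons,
      MvPolynomial.totalDegree_mul_of_isDomain ha.ne_zero h0]
    have := ih hs'
    have := WSFac_deg_pos ha
    omega

/-- a coherent choice of irreducible factors -/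
theorem exists_fac : ∃ fac : Q2 → Finset Q2, (∀ G, G ≠ 0 → (fac G).card ≤ G.totalDegree) ∧
    (∀ G, G ≠ 0 → ∀ A ∈ fac G, Irreducible A ∧ A ∣ G ∧ A.totalDegree ≤ G.totalDegree) ∧
    (∀ G, G ≠ 0 → ∀ x : Fin 2 → ℤ, ev2 x G = 0 → ∃ A ∈ fac G, ev2 x A = 0) ∧
    ∀ G G' A, G ≠ 0 → G' ≠ 0 → A ∈ fac G → A ∣ G' → A ∈ fac G' := by
  classical
  refine ⟨fun G => (UniqueFactorizationMonoid.factors G).toFinset.image
    fun A => Quot.out (Associates.mk A), fun G hG => ?_, fun G hG A hA => ?_,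
    fun G hG x hx => ?_, fun G G' A hG hG' hA hd => ?_⟩
  · refine Finset.card_image_le.trans ((Multiset.toFinset_card_le _).trans ?_)
    exact (WSFac_card _ UniqueFactorizationMonoid.irreducible_of_factor).trans
      (MvPolynomial.totalDegree_le_of_dvd_of_isDomain
        (UniqueFactorizationMonoid.factors_prod hG).dvd hG)
  · obtain ⟨a, ha, rfl⟩ := Finset.mem_image.1 hA
    have ha' := Multiset.mem_toFinset.1 ha
    have h1 := Associates.mk_quot_out a
    have h2 := h1.dvd.trans (UniqueFactorizationMonoid.dvd_of_mem_factors ha')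
    exact ⟨h1.symm.irreducible (UniqueFactorizationMonoid.irreducible_of_factor a ha'), h2,
      MvPolynomial.totalDegree_le_of_dvd_of_isDomain h2 hG⟩
  · obtain ⟨u, hu⟩ := (UniqueFactorizationMonoid.factors_prod hG).symm.dvd
    have h1 : ev2 x (UniqueFactorizationMonoid.factors G).prod = 0 := by
      rw [hu, ev2, map_mul]
      exact mul_eq_zero_of_left hx _
    rw [ev2, map_multiset_prod, Multiset.prod_eq_zero_iff] at h1
    obtain ⟨a, ha, e⟩ := Multiset.mem_map.1 h1
    refine ⟨_, Finset.mem_image_of_mem _ (Multiset.mem_toFinset.2 ha), ?_⟩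
    obtain ⟨v, hv⟩ := (Associates.mk_quot_out a).symm.dvd
    rw [hv, ev2, map_mul, e, zero_mul]
  · obtain ⟨a, ha, rfl⟩ := Finset.mem_image.1 hA
    have h1 := Associates.mk_quot_out a
    obtain ⟨b, hb, e⟩ := UniqueFactorizationMonoid.exists_mem_factors_of_dvd hG'
      (h1.symm.irreducible (UniqueFactorizationMonoid.irreducible_of_factor a
        (Multiset.mem_toFinset.1 ha))) hd
    refine Finset.mem_image.2 ⟨b, Multiset.mem_toFinset.2 hb, ?_⟩
    rw [Associates.mk_eq_mk_iff_associated.2 (h1.symm.trans e)]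

/-- exchange one element at a time -/
theorem swap_chain (S : Finset ℕ) (r : ℕ) (P : Finset ℕ → Prop)
    (h : ∀ Q Q' : Finset ℕ, Q ⊆ S → Q' ⊆ S → Q.card = r → Q'.card = r → (Q ∪ Q').card ≤ r + 1 →
      P Q → P Q') {Q Q' : Finset ℕ} (hQ : Q ⊆ S) (hQ' : Q' ⊆ S) (hc : Q.card = r)
    (hc' : Q'.card = r) (hP : P Q) : P Q' := by
  obtain ⟨d, hd⟩ : ∃ d, (Q' \ Q).card = d := ⟨_, rfl⟩
  induction d generalizing Q with
  | zero =>
    have h1 : Q' ⊆ Q := Finset.sdiff_eq_empty_iff_subset.1 (Finset.card_eq_zero.1 hd)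
    rwa [Finset.eq_of_subset_of_card_le h1 (by omega)]
  | succ d ih =>
    obtain ⟨b, hb⟩ := Finset.card_pos.1 (show 0 < (Q' \ Q).card by omega)
    have h1 : (Q \ Q').card = (Q' \ Q).card := Finset.card_sdiff_comm (by omega)
    obtain ⟨a, ha⟩ := Finset.card_pos.1 (show 0 < (Q \ Q').card by omega)
    obtain ⟨hb1, hb2⟩ := Finset.mem_sdiff.1 hb
    obtain ⟨ha1, ha2⟩ := Finset.mem_sdiff.1 ha
    have h2 : insert b (Q.erase a) ⊆ S :=
      Finset.insert_subset (hQ' hb1) ((Finset.erase_subset a Q).trans hQ)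
    have h3 : (insert b (Q.erase a)).card = r := by
      rw [Finset.card_insert_of_notMem fun e => hb2 (Finset.mem_of_mem_erase e),
        Finset.card_erase_add_one ha1, hc]
    have h4 : Q ∪ insert b (Q.erase a) ⊆ insert b Q :=
      Finset.union_subset (Finset.subset_insert b Q)
        (Finset.insert_subset_insert b (Finset.erase_subset a Q))
    refine ih h2 h3 (h Q _ hQ h2 hc h3 ((Finset.card_le_card h4).trans
      (hc ▸ Finset.card_insert_le b Q)) hP) ?_
    have h5 : Q' \ insert b (Q.erase a) = (Q' \ Q).erase b := by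
      ext y
      simp only [Finset.mem_sdiff, Finset.mem_insert, Finset.mem_erase, not_or, not_and]
      constructor
      · rintro ⟨y1, y2, y3⟩
        exact ⟨y2, y1, y3 fun e => ha2 (e ▸ y1)⟩
      · rintro ⟨y1, y2, y3⟩
        exact ⟨y2, y1, fun _ => y3⟩
    rw [h5, Finset.card_erase_of_mem hb, hd]
    rfl

theorem onLine_eval (a w : Fin 2 → ℚ) (A : Q2) (τ : ℚ) :
    (onLine a w A).eval τ = MvPolynomial.eval (fun i => a i + w i * τ) A := by
  induction A using MvPolynomial.induction_on with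
  | C c => simp [onLine]
  | add p q hp hq => simp only [map_add, eval_add, hp, hq]
  | mul_X p i hp =>
    rw [map_mul, eval_mul, hp, map_mul]
    simp [onLine]

theorem odd_not_sq {B E O : ℚ[X]} {c : ℚ} (hB : Odd B.natDegree) (e : B * O ^ 2 = C c * E ^ 2) :
    O = 0 := by
  by_contra hO
  have hB0 : B ≠ 0 := by
    rintro rfl
    simp at hB
  have h1 : B * O ^ 2 ≠ 0 := mul_ne_zero hB0 (pow_ne_zero 2 hO)
  have hc : c ≠ 0 := by
    rintro rfl
    exact h1 (by simpa using e)
  have h2 := congrArg natDegree e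
  rw [natDegree_mul hB0 (pow_ne_zero 2 hO), natDegree_C_mul hc, natDegree_pow, natDegree_pow] at h2
  obtain ⟨k, hk⟩ := hB
  omega

theorem OddAt.not_sq {D : Z2} {x : Fin 2 → ℤ} (h : OddAt D x) (E O : Q2) (c : ℚ)
    (e : toQ D * O ^ 2 = MvPolynomial.C c * E ^ 2) : O = 0 := by
  by_contra hO
  have h1 : (MvPolynomial.X 0 - MvPolynomial.C (x 0 : ℚ) : Q2) ≠ 0 := by
    intro e1
    have := congrArg (MvPolynomial.eval fun _ => (x 0 : ℚ) + 1) e1
    simp at this
  obtain ⟨y, hy⟩ : ∃ y : Fin 2 → ℚ,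
      MvPolynomial.eval y (O * (MvPolynomial.X 0 - MvPolynomial.C (x 0 : ℚ))) ≠ 0 := by
    by_contra c1
    refine mul_ne_zero hO h1 (MvPolynomial.funext fun y => ?_)
    rw [map_zero]
    exact not_not.1 fun c2 => c1 ⟨y, c2⟩
  rw [map_mul] at hy
  have hw : (fun i => y i - (x i : ℚ)) ≠ 0 := by
    intro e1
    refine right_ne_zero_of_mul hy ?_
    simpa using congrFun e1 0
  have h2 := congrArg (onLine (fun i => (x i : ℚ)) fun i => y i - (x i : ℚ)) e
  rw [map_mul, map_mul, map_pow, map_pow] at h2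
  have h3 : onLine (fun i => (x i : ℚ)) (fun i => y i - (x i : ℚ)) (MvPolynomial.C c) = C c := by
    simp [onLine]
  rw [h3] at h2
  have h4 := congrArg (eval 1) (odd_not_sq (h _ hw) h2)
  rw [onLine_eval, eval_zero] at h4
  refine left_ne_zero_of_mul hy ?_
  simpa using h4

theorem WSFac_supp {R : Type} [CommSemiring R] {A : MvPolynomial (Fin 2) R} {j : Fin 2}
    {d : Fin 2 →₀ ℕ} (h : d ∈ (MvPolynomial.pderiv j A).support) :
    d 0 + d 1 + 1 ≤ A.totalDegree := by
  rw [MvPolynomial.mem_support_iff, MvPolynomial.coeff_pderiv] at h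
  have h1 := MvPolynomial.le_totalDegree (MvPolynomial.mem_support_iff.2 (left_ne_zero_of_mul h))
  rw [Finsupp.sum_fintype _ _ fun _ => rfl, Fin.sum_univ_two] at h1
  fin_cases j <;> simp at h1 <;> omega

theorem eval_growth (E c : ℕ) (C₀ : ℝ) : ∃ (a : ℕ) (H₀ : ℝ), ∀ H : ℝ, H₀ ≤ H → ∀ A : Z2,
    A.totalDegree ≤ E → (∀ m, |((A.coeff m : ℤ) : ℝ)| ≤ C₀ * H ^ c) → ∀ x : Fin 2 → ℤ,
    (∀ i, |(x i : ℝ)| ≤ H) → ∀ j, |(evz x (MvPolynomial.pderiv j A) : ℝ)| ≤ H ^ a := by
  classical
  refine ⟨c + E + 1, max 1 ((E + 1) ^ 2 * (|C₀| * (E + 1))), fun H hH A hA hc x hx j => ?_⟩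
  have h1 : 1 ≤ H := (le_max_left _ _).trans hH
  have h2 := (le_max_right _ _).trans hH
  have hcard : ((MvPolynomial.pderiv j A).support.card : ℝ) ≤ (E + 1) ^ 2 := by
    have h3 : (MvPolynomial.pderiv j A).support.card ≤
        (Finset.range (E + 1) ×ˢ Finset.range (E + 1)).card := by
      refine Finset.card_le_card_of_injOn (fun d => (d 0, d 1)) (fun d hd => ?_)
        fun d _ d' _ e => ?_
      · have := WSFac_supp (Finset.mem_coe.1 hd)
        simp only [Finset.coe_product, Finset.coe_range, Set.mem_prod, Set.mem_Iio]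
        omega
      · ext i
        fin_cases i
        · exact congrArg Prod.fst e
        · exact congrArg Prod.snd e
    rw [Finset.card_product, Finset.card_range, ← sq] at h3
    exact_mod_cast h3
  have hterm : ∀ d ∈ (MvPolynomial.pderiv j A).support,
      |(((MvPolynomial.pderiv j A).coeff d * ∏ i, x i ^ d i : ℤ) : ℝ)| ≤
        |C₀| * (E + 1) * H ^ (c + E) := by
    intro d hd
    have h3 := WSFac_supp hd
    have h4 : ((d j : ℝ) + 1) ≤ E + 1 := by
      have : d j ≤ E := by fin_cases j <;> simp <;> omega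
      exact_mod_cast Nat.succ_le_succ this
    have h5 : |(x 0 : ℝ)| ^ d 0 * |(x 1 : ℝ)| ^ d 1 ≤ H ^ E := by
      calc |(x 0 : ℝ)| ^ d 0 * |(x 1 : ℝ)| ^ d 1 ≤ H ^ d 0 * H ^ d 1 := by
            have := hx 0
            have := hx 1
            gcongr
        _ ≤ H ^ E := by
            rw [← pow_add]
            exact pow_le_pow_right₀ h1 (by omega)
    have h6 := (hc (d + Finsupp.single j 1)).trans
      (mul_le_mul_of_nonneg_right (le_abs_self C₀) (by positivity))
    rw [MvPolynomial.coeff_pderiv, Fin.prod_univ_two]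
    push_cast
    rw [abs_mul, abs_mul, abs_mul, abs_pow, abs_pow,
      abs_of_nonneg (show (0 : ℝ) ≤ d j + 1 by positivity)]
    calc _ ≤ |C₀| * H ^ c * (E + 1) * H ^ E := by gcongr
      _ = _ := by ring
  rw [evz, MvPolynomial.eval_eq', Int.cast_sum]
  refine (Finset.abs_sum_le_sum_abs _ _).trans ((Finset.sum_le_card_nsmul _ _ _ hterm).trans ?_)
  rw [nsmul_eq_mul]
  calc _ ≤ (E + 1) ^ 2 * (|C₀| * (E + 1) * H ^ (c + E)) := by gcongr
    _ = (E + 1) ^ 2 * (|C₀| * (E + 1)) * H ^ (c + E) := by ring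
    _ ≤ H * H ^ (c + E) := by gcongr
    _ = _ := by ring

/-- singular points -/
theorem cnt_sing (E : ℕ) : ∃ C : ℝ, 1 ≤ C ∧ ∀ A : Q2, Irreducible A → A.totalDegree ≤ E →
    Cnt (fun x : Fin 2 → ℤ => ev2 x A = 0 ∧ ∀ j, ev2 x (MvPolynomial.pderiv j A) = 0) C := by
  obtain ⟨C₀, hC, h⟩ := bezout E
  refine ⟨C₀, hC, fun A hA hE => ?_⟩
  have h1 := WSFac_deg_pos hA
  obtain ⟨m, hm, j, hj⟩ : ∃ m ∈ A.support, ∃ j, m j ≠ 0 := by
    by_contra c
    have h2 : A.totalDegree = 0 := (MvPolynomial.totalDegree_eq_zero_iff _ A).2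
      fun m hm j => not_not.1 fun c2 => c ⟨m, hm, j, c2⟩
    omega
  have h2 : MvPolynomial.pderiv j A ≠ 0 := by
    intro e
    have h3 := MvPolynomial.coeff_pderiv (i := j) A (m - Finsupp.single j 1)
    rw [e, MvPolynomial.coeff_zero, Finsupp.sub_add_single_one_cancel hj] at h3
    exact mul_ne_zero (MvPolynomial.mem_support_iff.1 hm) (by positivity) h3.symm
  have h3 : (MvPolynomial.pderiv j A).totalDegree < A.totalDegree := by
    refine (Finset.sup_lt_iff (show ⊥ < A.totalDegree from h1)).2 fun d hd => ?_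
    rw [Finsupp.sum_fintype _ _ fun _ => rfl, Fin.sum_univ_two]
    exact WSFac_supp hd
  exact (h A _ hA (fun hd => absurd (MvPolynomial.totalDegree_le_of_dvd_of_isDomain hd h2)
    (by omega)) hE (by omega)).mono (fun x hx => ⟨hx.1, hx.2 j⟩) le_rfl

end Pool.Agent.VW
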