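import Pool.Agent.P.MP_b0ea37_nt.WSDefs

namespace Pool.Agent.VW

open Polynomial

theorem WSNum_s1 (x : ℤ) (n : ℕ) :
    2 * ∑ b ∈ Finset.range n, (x - b) = n * (2 * x - n + 1) := by
  induction n with
  | zero => simp
  | succ n ih => rw [Finset.sum_range_succ, mul_add, ih]; push_cast; ring

theorem WSNum_s2 (x : ℤ) (n : ℕ) :
    3 * ∑ a ∈ Finset.range n, (x - a) * (x - a + 1) =
      x * (x + 1) * (x + 2) - (x - n) * (x - n + 1) * (x - n + 2) := by
  induction n with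
  | zero => simp
  | succ n ih => rw [Finset.sum_range_succ, mul_add, ih]; push_cast; ring

theorem WSNum_s3 (m y : ℤ) (n : ℕ) :
    6 * ∑ k ∈ Finset.range n, ((m * (y - k)) ^ 2 - 3 * (m * (y - k))) =
      m ^ 2 * (y * (y + 1) * (2 * y + 1) - (y - n) * (y - n + 1) * (2 * (y - n) + 1)) -
        9 * m * (n * (2 * y - n + 1)) := by
  induction n with
  | zero => simp
  | succ n ih => rw [Finset.sum_range_succ, mul_add, ih]; push_cast; ring

theorem WSNum_s4 (n : ℕ) :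
    6 * ∑ t ∈ Finset.range n, (((t + 2).choose 2 : ℕ) : ℤ) = n * (n + 1) * (n + 2) := by
  induction n with
  | zero => simp
  | succ n ih =>
    have h : 2 * (((n + 2).choose 2 : ℕ) : ℤ) = (n + 2) * (n + 1) := by
      have h1 := Nat.add_one_mul_choose_eq (n + 1) 1
      rw [Nat.choose_one_right] at h1
      have h2 : (((n + 1 + 1) * (n + 1) : ℕ) : ℤ) = (((n + 1 + 1).choose (1 + 1) * (1 + 1) : ℕ) : ℤ) :=
        congrArg _ h1
      push_cast at h2
      linarith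
    rw [Finset.sum_range_succ, mul_add, ih]
    push_cast
    linarith

theorem WSNum_tri (V : ℕ) :
    6 * ∑ p ∈ Tri V, ((V : ℤ) - p.1 - p.2) = V * (V + 1) * (V + 2) := by
  have h1 : ∑ p ∈ Tri V, ((V : ℤ) - p.1 - p.2) =
      ∑ a ∈ Finset.range (V + 1), ∑ b ∈ Finset.range (V + 1 - a), (((V : ℤ) - a) - b) := by
    unfold Tri
    rw [Finset.sum_filter, Finset.sum_product]
    refine Finset.sum_congr rfl fun a ha => ?_
    rw [← Finset.sum_filter]
    refine Finset.sum_congr ?_ fun _ _ => rfl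
    ext b
    simp only [Finset.mem_filter, Finset.mem_range] at ha ⊢
    omega
  have h2 : ∀ a ∈ Finset.range (V + 1), 2 * ∑ b ∈ Finset.range (V + 1 - a), (((V : ℤ) - a) - b) =
      ((V : ℤ) - a) * ((V : ℤ) - a + 1) := by
    intro a ha
    have ha' : a ≤ V + 1 := (Finset.mem_range.1 ha).le
    rw [WSNum_s1, Nat.cast_sub ha']
    push_cast
    ring
  have h3 := WSNum_s2 V (V + 1)
  rw [← Finset.sum_congr rfl h2, ← Finset.mul_sum, ← h1] at h3
  push_cast at h3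
  linarith

theorem WSNum_row (W c : ℕ) (hc : c ≤ W) :
    ((W : ℤ) - c) ^ 2 - 3 * ((W : ℤ) - c) ≤
      2 * ∑ j ∈ Finset.range (W + 1), if 2 ≤ j ∧ c + j ≤ W then (W : ℤ) - c - j else 0 := by
  obtain ⟨X, rfl⟩ := Nat.exists_eq_add_of_le hc
  have e : ((c + X : ℕ) : ℤ) - c = X := by push_cast; ring
  rw [e]
  have h1 : ∑ j ∈ Finset.range (X + 1), (if 2 ≤ j then (X : ℤ) - j else 0) ≤
      ∑ j ∈ Finset.range (c + X + 1), if 2 ≤ j ∧ c + j ≤ c + X then (X : ℤ) - j else 0 := by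
    rw [← Finset.sum_filter, ← Finset.sum_filter]
    refine le_of_eq (Finset.sum_congr ?_ fun _ _ => rfl)
    ext j
    simp only [Finset.mem_filter, Finset.mem_range]
    omega
  rcases Nat.eq_zero_or_pos X with rfl | hX
  · simp at h1 ⊢
    simpa using h1
  obtain ⟨Y, rfl⟩ := Nat.exists_eq_add_of_le' hX
  have h2 := WSNum_s1 ((Y : ℤ) - 1) Y
  have h3 : ∑ j ∈ Finset.range (Y + 1 + 1), (if 2 ≤ j then (((Y + 1 : ℕ) : ℤ)) - j else 0) =
      ∑ b ∈ Finset.range Y, ((Y : ℤ) - 1 - b) := by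
    rw [Finset.sum_range_succ', Finset.sum_range_succ']
    simp only [Nat.le_add_left, add_assoc, Nat.reduceAdd, if_true]
    push_cast
    simp only [add_zero]
    exact Finset.sum_congr rfl fun b _ => by ring
  rw [h3] at h1
  push_cast at h1 ⊢
  nlinarith

theorem WSNum_lev (m U : ℕ) (hm : 1 ≤ m) :
    (m : ℤ) ^ 2 * ((U - 1) * U * (2 * U - 1)) - 9 * m * (U * (U - 1)) ≤
      12 * ∑ p ∈ Lev m (m * U), (((m * U : ℕ) : ℤ) - ((p.1 + 1) * m + p.2 : ℕ)) := by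
  have h1 : ∑ p ∈ Lev m (m * U), (((m * U : ℕ) : ℤ) - ((p.1 + 1) * m + p.2 : ℕ)) =
      ∑ k ∈ Finset.range (m * U + 1), ∑ j ∈ Finset.range (m * U + 1),
        if 2 ≤ j ∧ (k + 1) * m + j ≤ m * U then
          ((m * U : ℕ) : ℤ) - ((k + 1) * m : ℕ) - j else 0 := by
    unfold Lev
    rw [Finset.sum_filter, Finset.sum_product]
    refine Finset.sum_congr rfl fun k _ => Finset.sum_congr rfl fun j _ => ?_
    split_ifs
    · push_cast; ring
    · rfl
  have hU : U ≤ m * U + 1 := (Nat.le_mul_of_pos_left U hm).trans (Nat.le_succ _)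
  have h2 : ∑ k ∈ Finset.range U, (∑ j ∈ Finset.range (m * U + 1),
        if 2 ≤ j ∧ (k + 1) * m + j ≤ m * U then
          ((m * U : ℕ) : ℤ) - ((k + 1) * m : ℕ) - j else 0) ≤
      ∑ k ∈ Finset.range (m * U + 1), ∑ j ∈ Finset.range (m * U + 1),
        if 2 ≤ j ∧ (k + 1) * m + j ≤ m * U then
          ((m * U : ℕ) : ℤ) - ((k + 1) * m : ℕ) - j else 0 := by
    refine Finset.sum_le_sum_of_subset_of_nonneg (Finset.range_subset_range.2 hU) fun k _ _ => ?_
    refine Finset.sum_nonneg fun j _ => ?_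
    split_ifs with h
    · have : (((k + 1) * m + j : ℕ) : ℤ) ≤ ((m * U : ℕ) : ℤ) := Nat.cast_le.2 h.2
      rw [Nat.cast_add] at this
      linarith
    · exact le_rfl
  have h3 : ∀ k ∈ Finset.range U,
      ((m : ℤ) * ((U - 1) - k)) ^ 2 - 3 * ((m : ℤ) * ((U - 1) - k)) ≤
        2 * ∑ j ∈ Finset.range (m * U + 1), if 2 ≤ j ∧ (k + 1) * m + j ≤ m * U then
          ((m * U : ℕ) : ℤ) - ((k + 1) * m : ℕ) - j else 0 := by
    intro k hk
    have hk' : (k + 1) * m ≤ m * U := by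
      rw [mul_comm]; exact Nat.mul_le_mul_left m (Finset.mem_range.1 hk)
    have e : (m : ℤ) * ((U - 1) - k) = ((m * U : ℕ) : ℤ) - ((k + 1) * m : ℕ) := by
      push_cast; ring
    rw [e]
    exact WSNum_row (m * U) ((k + 1) * m) hk'
  have h4 := Finset.sum_le_sum h3
  rw [← Finset.mul_sum] at h4
  have h5 := WSNum_s3 m ((U : ℤ) - 1) U
  rw [h1]
  linarith

theorem WSNum_sum (m W : ℕ) (h : m + 2 ≤ W) :
    ∑ i : Idx m W, ((W : ℤ) - wt m W i) = ∑ p ∈ Tri W, ((W : ℤ) - p.1 - p.2) +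
      (∑ p ∈ Tri (W - (m + 2)), (((W - (m + 2) : ℕ) : ℤ) - p.1 - p.2) +
        (2 * m + 3) * ∑ p ∈ Lev m W, ((W : ℤ) - ((p.1 + 1) * m + p.2 : ℕ))) := by
  rw [Fintype.sum_sum_type, Fintype.sum_sum_type, Fintype.sum_prod_type]
  simp only [wt, Finset.sum_const, Finset.card_univ, Fintype.card_fin, nsmul_eq_mul]
  rw [← Finset.mul_sum, Finset.sum_coe_sort (Tri W) fun p => (W : ℤ) - (p.1 + p.2 : ℕ),
    Finset.sum_coe_sort (Tri (W - (m + 2))) fun p => (W : ℤ) - (p.1 + p.2 + (m + 2) : ℕ),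
    Finset.sum_coe_sort (Lev m W) fun p => (W : ℤ) - ((p.1 + 1) * m + p.2 : ℕ), Nat.cast_sub h]
  congr 1
  · exact Finset.sum_congr rfl fun p _ => by push_cast; ring
  · refine congrArg₂ (· + ·) (Finset.sum_congr rfl fun p _ => by push_cast; ring) ?_
    rw [Nat.cast_add (2 * m), Nat.cast_mul 2 m, Nat.cast_ofNat, Nat.cast_ofNat]

/-- more than four times the plane -/
theorem surf_num (m : ℕ) (hm : 2 ≤ m) : ∃ W : ℕ, 2 * ∑ i : Idx m W, wt m W i <
    ∑ t ∈ Finset.range (2 * W), (Fintype.card (Idx m W) - (t + 2).choose 2) := by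
  refine ⟨m * (10 * m), ?_⟩
  have hW : m + 2 ≤ m * (10 * m) := by nlinarith
  have h1 := WSNum_sum m (m * (10 * m)) hW
  have h2 := WSNum_tri (m * (10 * m))
  have h3 := WSNum_tri (m * (10 * m) - (m + 2))
  have h4 := WSNum_lev m (10 * m) (by omega)
  have h5 := WSNum_s4 (2 * (m * (10 * m)))
  have h6 : ∑ t ∈ Finset.range (2 * (m * (10 * m))),
      ((Fintype.card (Idx m (m * (10 * m))) : ℤ) - (((t + 2).choose 2 : ℕ) : ℤ)) ≤
      ∑ t ∈ Finset.range (2 * (m * (10 * m))),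
        ((Fintype.card (Idx m (m * (10 * m))) - (t + 2).choose 2 : ℕ) : ℤ) :=
    Finset.sum_le_sum fun t _ => by omega
  rw [Finset.sum_sub_distrib, Finset.sum_const, Finset.card_range, nsmul_eq_mul] at h6
  rw [Finset.sum_sub_distrib, Finset.sum_const, Finset.card_univ, nsmul_eq_mul] at h1
  rw [← Nat.cast_lt (α := ℤ), Nat.cast_mul, Nat.cast_sum, Nat.cast_sum]
  generalize ∑ t ∈ Finset.range (2 * (m * (10 * m))),
    ((Fintype.card (Idx m (m * (10 * m))) - (t + 2).choose 2 : ℕ) : ℤ) = R at *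
  generalize ∑ t ∈ Finset.range (2 * (m * (10 * m))), (((t + 2).choose 2 : ℕ) : ℤ) = Cc at *
  generalize ∑ i : Idx m (m * (10 * m)), ((wt m (m * (10 * m)) i : ℕ) : ℤ) = S at *
  generalize (Fintype.card (Idx m (m * (10 * m))) : ℤ) = N at *
  generalize ∑ p ∈ Tri (m * (10 * m)), (((m * (10 * m) : ℕ) : ℤ) - p.1 - p.2) = A₁ at *
  generalize ∑ p ∈ Tri (m * (10 * m) - (m + 2)),
    (((m * (10 * m) - (m + 2) : ℕ) : ℤ) - p.1 - p.2) = A₂ at *
  generalize ∑ p ∈ Lev m (m * (10 * m)),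
    (((m * (10 * m) : ℕ) : ℤ) - ((p.1 + 1) * m + p.2 : ℕ)) = L at *
  rw [Nat.cast_sub hW] at h3
  obtain ⟨s, rfl⟩ := Nat.exists_eq_add_of_le' hm
  push_cast at *
  have hs : (0 : ℤ) ≤ s := Int.natCast_nonneg s
  have h7 := mul_le_mul_of_nonneg_left h4 (show (0 : ℤ) ≤ 2 * (s + 2) + 3 by positivity)
  have h8 : (0 : ℤ) < 4800 * ((s : ℤ) + 2) ^ 5 - 3820 * (s + 2) ^ 4 - 2372 * (s + 2) ^ 3 +
      304 * (s + 2) ^ 2 - 4 * (s + 2) := by
    ring_nf
    positivity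
  linarith

end Pool.Agent.VW
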