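import Pool.Agent.P.MP_b0ea37_nt.WSApx
import Pool.Agent.P.MP_b0ea37_nt.WSAlg
import Pool.Agent.P.MP_b0ea37_nt.WSNum
import Pool.Agent.P.MP_b0ea37_nt.WSFac

namespace Pool.Agent.VW

open Polynomial

open Pool.Agent.VT

def surfLev (m W : ℕ) : Idx m W → ℕ
  | .inl _ => 1
  | .inr (.inl _) => 0
  | .inr (.inr p) => p.1.1.1 + 2

noncomputable def surfPol (m W : ℕ) (Φ : Z2) (v : Fin (2 * m + 3) → Fin 2)
    (Ψ : Fin (2 * m + 3) → Z2) : Idx m W → Z2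
  | .inl p => MvPolynomial.X 0 ^ p.1.1 * MvPolynomial.X 1 ^ p.1.2
  | .inr (.inl p) => MvPolynomial.X 0 ^ p.1.1 * MvPolynomial.X 1 ^ p.1.2
  | .inr (.inr p) => Φ ^ p.1.1.1 * (MvPolynomial.X (v p.2) ^ p.1.1.2 * Ψ p.2)

def surfF (m W : ℕ) (v : Fin (2 * m + 3) → Fin 2) (x : Fin 2 → ℤ) (y c₀ : ℤ)
    (c : Fin (2 * m + 3) → ℤ) : Idx m W → ℤ
  | .inl p => x 0 ^ p.1.1 * x 1 ^ p.1.2
  | .inr (.inl p) => y * (x 0 ^ p.1.1 * x 1 ^ p.1.2)
  | .inr (.inr p) => c₀ ^ p.1.1.1 * (x (v p.2) ^ p.1.1.2 * c p.2)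

noncomputable def surfMon (p : ℕ × ℕ) : Fin 2 →₀ ℕ := Finsupp.single 0 p.1 + Finsupp.single 1 p.2

noncomputable def surfMu (m W : ℕ) : Idx m W → Fin 2 →₀ ℕ
  | .inl p => surfMon p.1
  | .inr (.inl p) => surfMon p.1
  | .inr (.inr _) => 0

def surfE (m W : ℕ) : Idx m W → ℕ × Fin (2 * m + 3)
  | .inl _ => (0, 0)
  | .inr (.inl _) => (0, 0)
  | .inr (.inr p) => (p.1.1.2, p.2)

theorem surf_tri {W : ℕ} (p : Tri W) : p.1.1 + p.1.2 ≤ W := (Finset.mem_filter.1 p.2).2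

theorem surf_lev {m W : ℕ} (p : Lev m W) : p.1.1 ≤ W ∧ 2 ≤ p.1.2 ∧ p.1.2 ≤ W := by
  obtain ⟨h1, h2, h3⟩ := Finset.mem_filter.1 p.2
  have h4 := Finset.mem_range.1 (Finset.mem_product.1 h1).1
  omega

theorem surf_mon_inj : Function.Injective surfMon := by
  intro p q h
  have h0 := congrArg (fun s : Fin 2 →₀ ℕ => s 0) h
  have h1 := congrArg (fun s : Fin 2 →₀ ℕ => s 1) h
  simp [surfMon] at h0 h1
  exact Prod.ext h0 h1

theorem surf_mon_eq (p : ℕ × ℕ) :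
    toQ (MvPolynomial.X 0 ^ p.1 * MvPolynomial.X 1 ^ p.2) = MvPolynomial.monomial (surfMon p) 1 := by
  simp only [map_mul, map_pow, MvPolynomial.map_X]
  rw [MvPolynomial.X_pow_eq_monomial, MvPolynomial.X_pow_eq_monomial, MvPolynomial.monomial_mul,
    one_mul, surfMon]

theorem surf_mono_indep {κ : Type} (S : Finset κ) (μ : κ → Fin 2 →₀ ℕ) (hμ : Set.InjOn μ S)
    (c : κ → ℚ) (h : ∑ i ∈ S, MvPolynomial.C (c i) * (MvPolynomial.monomial (μ i) 1 : Q2) = 0) :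
    ∀ i ∈ S, c i = 0 := by
  classical
  intro i hi
  have h1 := congrArg (MvPolynomial.coeff (μ i)) h
  rw [MvPolynomial.coeff_sum, Finset.sum_eq_single_of_mem i hi] at h1
  · simpa [MvPolynomial.C_mul_monomial] using h1
  · intro j hj hne
    rw [MvPolynomial.C_mul_monomial, MvPolynomial.coeff_monomial, if_neg fun e => hne (hμ hj hi e)]

theorem surf_low (m W : ℕ) (Φ : Z2) (v : Fin (2 * m + 3) → Fin 2) (Ψ : Fin (2 * m + 3) → Z2)
    (k : ℕ) (c : Idx m W → ℚ) (hk : k ≤ 1)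
    (h : ∑ i ∈ Finset.univ.filter (fun i => surfLev m W i = k),
      MvPolynomial.C (c i) * toQ (surfPol m W Φ v Ψ i) = 0) : ∀ i, surfLev m W i = k → c i = 0 := by
  intro i hi
  refine surf_mono_indep (Finset.univ.filter fun i => surfLev m W i = k) (surfMu m W) ?_ c ?_ i
    (Finset.mem_filter.2 ⟨Finset.mem_univ _, hi⟩)
  · intro a ha b hb e
    have ha' := (Finset.mem_filter.1 ha).2
    have hb' := (Finset.mem_filter.1 hb).2
    rcases a with a | a | a <;> rcases b with b | b | b <;> simp only [surfLev] at ha' hb' <;>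
      try omega
    · exact congrArg _ (Subtype.ext (surf_mon_inj e))
    · exact congrArg _ (congrArg _ (Subtype.ext (surf_mon_inj e)))
  · refine Eq.trans (Finset.sum_congr rfl fun a ha => ?_) h
    have ha' := (Finset.mem_filter.1 ha).2
    rcases a with a | a | a
    · exact congrArg _ (surf_mon_eq a.1).symm
    · exact congrArg _ (surf_mon_eq a.1).symm
    · simp only [surfLev] at ha'
      omega

theorem surf_ind (m W : ℕ) (D Φ : Z2) (v : Fin (2 * m + 3) → Fin 2) (Ψ : Fin (2 * m + 3) → Z2)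
    (hI : Ind D Φ v Ψ) (k : ℕ) (c : Idx m W → ℚ) (hk : 2 ≤ k)
    (h : toQ D ∣ ∑ i ∈ Finset.univ.filter (fun i => surfLev m W i = k),
      MvPolynomial.C (c i) * toQ (surfPol m W Φ v Ψ i)) : ∀ i, surfLev m W i = k → c i = 0 := by
  obtain ⟨k, rfl⟩ : ∃ k', k = k' + 2 := ⟨k - 2, by omega⟩
  let u : ℕ → Fin (2 * m + 3) → ℚ := fun j i =>
    if h : (k, j) ∈ Lev m W then c (.inr (.inr (⟨(k, j), h⟩, i))) else 0
  have hu : ∀ (p : Lev m W) (i : Fin (2 * m + 3)), p.1.1 = k →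
      u p.1.2 i = c (.inr (.inr (p, i))) := by
    rintro ⟨⟨a, b⟩, hp⟩ i rfl
    exact dif_pos hp
  have e : ∑ i ∈ Finset.univ.filter (fun i => surfLev m W i = k + 2),
      MvPolynomial.C (c i) * toQ (surfPol m W Φ v Ψ i) =
      ∑ z ∈ Finset.Icc 2 W ×ˢ (Finset.univ : Finset (Fin (2 * m + 3))), toQ Φ ^ k *
        (MvPolynomial.C (u z.1 z.2) * (MvPolynomial.X (v z.2) ^ z.1 * toQ (Ψ z.2))) := by
    refine Finset.sum_of_injOn (surfE m W) ?_ ?_ ?_ ?_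
    · intro a ha b hb e
      have ha' := (Finset.mem_filter.1 ha).2
      have hb' := (Finset.mem_filter.1 hb).2
      rcases a with a | a | a <;> rcases b with b | b | b <;> simp only [surfLev] at ha' hb' <;>
        try omega
      simp only [surfE, Prod.mk.injEq] at e
      exact congrArg _ (congrArg _ (Prod.ext (Subtype.ext (Prod.ext (by omega) e.1)) e.2))
    · intro a ha
      have ha' := (Finset.mem_filter.1 ha).2
      rcases a with a | a | a <;> simp only [surfLev] at ha' <;> try omega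
      exact Finset.mem_coe.2 (Finset.mem_product.2
        ⟨Finset.mem_Icc.2 (surf_lev a.1).2, Finset.mem_univ _⟩)
    · rintro ⟨j, i⟩ - hz
      have : u j i = 0 := dif_neg fun hj => hz ⟨.inr (.inr (⟨(k, j), hj⟩, i)),
        Finset.mem_coe.2 (Finset.mem_filter.2 ⟨Finset.mem_univ _, rfl⟩), rfl⟩
      simp [this]
    · intro a ha
      have ha' := (Finset.mem_filter.1 ha).2
      rcases a with a | a | a <;> simp only [surfLev] at ha' <;> try omega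
      have hk' : a.1.1.1 = k := by omega
      simp only [surfE, surfPol, hu a.1 a.2 hk', hk', map_mul, map_pow, MvPolynomial.map_X]
      ring
  rw [e, ← Finset.mul_sum, Finset.sum_product] at h
  have h2 := hI k W u h
  intro a ha
  rcases a with a | a | a <;> simp only [surfLev] at ha <;> try omega
  have hk' : a.1.1.1 = k := by omega
  rw [← h2 a.1.1.2 (Finset.mem_Icc.2 (surf_lev a.1).2) a.2, hu a.1 a.2 hk']

theorem surf_deg (m W E : ℕ) (Φ : Z2) (v : Fin (2 * m + 3) → Fin 2) (Ψ : Fin (2 * m + 3) → Z2)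
    (hΦ : Φ.totalDegree ≤ E) (hΨ : ∀ i, (Ψ i).totalDegree ≤ E) (i : Idx m W) :
    (surfPol m W Φ v Ψ i).totalDegree ≤ (W + 1) * E + W := by
  have hm : ∀ a b : ℕ, (MvPolynomial.X 0 ^ a * MvPolynomial.X 1 ^ b : Z2).totalDegree ≤ a + b :=
    fun a b => (MvPolynomial.totalDegree_mul _ _).trans
      (by rw [MvPolynomial.totalDegree_X_pow, MvPolynomial.totalDegree_X_pow])
  rcases i with p | p | p
  · have := surf_tri p
    exact (hm _ _).trans (by omega)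
  · have := surf_tri p
    exact (hm _ _).trans (by omega)
  · obtain ⟨h1, -, h3⟩ := surf_lev p.1
    have e1 := MvPolynomial.totalDegree_mul (Φ ^ p.1.1.1)
      (MvPolynomial.X (v p.2) ^ p.1.1.2 * Ψ p.2)
    have e2 := MvPolynomial.totalDegree_mul (MvPolynomial.X (v p.2) ^ p.1.1.2) (Ψ p.2)
    have e3 := MvPolynomial.totalDegree_pow Φ p.1.1.1
    have e4 : p.1.1.1 * Φ.totalDegree ≤ W * E := Nat.mul_le_mul h1 hΦ
    have e5 := hΨ p.2
    rw [MvPolynomial.totalDegree_X_pow] at e2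
    simp only [surfPol]
    rw [Nat.add_mul, Nat.one_mul]
    omega

theorem surf_eq (m W : ℕ) (Φ : Z2) (v : Fin (2 * m + 3) → Fin 2) (Ψ : Fin (2 * m + 3) → Z2)
    (x : Fin 2 → ℤ) (y c₀ : ℤ) (c : Fin (2 * m + 3) → ℤ) (h₀ : evz x Φ = y * c₀)
    (h : ∀ i, evz x (Ψ i) = y * c i) (i : Idx m W) :
    surfF m W v x y c₀ c i * y ^ surfLev m W i = y * evz x (surfPol m W Φ v Ψ i) := by
  rcases i with p | p | p <;>
    simp only [surfF, surfLev, surfPol, map_mul, map_pow, MvPolynomial.eval_X]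
  · ring
  · ring
  · rw [show MvPolynomial.eval x Φ = y * c₀ from h₀,
      show MvPolynomial.eval x (Ψ p.2) = y * c p.2 from h p.2]
    ring

theorem surf_bound (m W : ℕ) (hm : 2 ≤ m) (v : Fin (2 * m + 3) → Fin 2) {H η : ℝ} (hH : 1 ≤ H)
    (hη : 0 < η) (x : Fin 2 → ℤ) (y c₀ : ℤ) (c : Fin (2 * m + 3) → ℤ) (hx : ∀ i, |(x i : ℝ)| ≤ H)
    (hy : |(y : ℝ)| ≤ H ^ ((m : ℝ) + 2 + η)) (h₀ : |(c₀ : ℝ)| ≤ H ^ ((m : ℝ) + η))
    (h : ∀ i, |(c i : ℝ)| ≤ H ^ ((m : ℝ) + η)) (i : Idx m W) :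
    |(surfF m W v x y c₀ c i : ℝ)| ≤ H ^ ((1 + η) * wt m W i) := by
  have hH0 : 0 < H := by linarith
  have hp : ∀ (i : Fin 2) (a : ℕ), |(x i : ℝ)| ^ a ≤ H ^ (a : ℝ) := fun i a => by
    rw [Real.rpow_natCast]
    exact pow_le_pow_left₀ (abs_nonneg _) (hx i) a
  have hm' : (2 : ℝ) ≤ m := by exact_mod_cast hm
  rcases i with p | p | p <;> simp only [surfF, wt] <;> push_cast <;>
    simp only [abs_mul, abs_pow]
  · have a0 : (0 : ℝ) ≤ p.1.1 := Nat.cast_nonneg _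
    have b0 : (0 : ℝ) ≤ p.1.2 := Nat.cast_nonneg _
    refine (mul_le_mul (hp 0 _) (hp 1 _) (by positivity) (by positivity)).trans ?_
    rw [← Real.rpow_add hH0]
    exact Real.rpow_le_rpow_of_exponent_le hH (by nlinarith)
  · have a0 : (0 : ℝ) ≤ p.1.1 := Nat.cast_nonneg _
    have b0 : (0 : ℝ) ≤ p.1.2 := Nat.cast_nonneg _
    refine (mul_le_mul hy (mul_le_mul (hp 0 _) (hp 1 _) (by positivity) (by positivity))
      (by positivity) (by positivity)).trans ?_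
    rw [← Real.rpow_add hH0, ← Real.rpow_add hH0]
    exact Real.rpow_le_rpow_of_exponent_le hH (by nlinarith)
  · have a0 : (0 : ℝ) ≤ p.1.1.1 := Nat.cast_nonneg _
    have b0 : (0 : ℝ) ≤ p.1.1.2 := Nat.cast_nonneg _
    have e : |(c₀ : ℝ)| ^ p.1.1.1 ≤ H ^ (((m : ℝ) + η) * p.1.1.1) := by
      rw [Real.rpow_mul_natCast hH0.le]
      exact pow_le_pow_left₀ (abs_nonneg _) h₀ _
    refine (mul_le_mul e (mul_le_mul (hp _ _) (h _) (by positivity) (by positivity))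
      (by positivity) (by positivity)).trans ?_
    rw [← Real.rpow_add hH0, ← Real.rpow_add hH0]
    refine Real.rpow_le_rpow_of_exponent_le hH ?_
    have e1 : 0 ≤ η * (((p.1.1.1 : ℝ) + 1) * (m - 1)) :=
      mul_nonneg hη.le (mul_nonneg (by linarith) (by linarith))
    have e2 : 0 ≤ η * p.1.1.2 := mul_nonneg hη.le b0
    nlinarith

theorem surf_ineq (s ν N : ℕ) (h : 2 * s < ν) : ∃ H₀ : ℝ, 1 ≤ H₀ ∧ ∀ H : ℝ, H₀ ≤ H → ∀ M : ℕ,
    H ^ (((6 * ν : ℕ) : ℝ) / (2 * ((6 * ν : ℕ) : ℝ) + 3)) ≤ M →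
    (N : ℝ) * H ^ ((1 + 1 / (8 * ((s : ℝ) + 1))) * s) < (M : ℝ) ^ ν := by
  obtain ⟨H₀, h1, h2⟩ := exists_pow_ge ((N : ℝ) + 1) (1 / 4) (by norm_num)
  refine ⟨H₀, h1, fun H hH M hM => ?_⟩
  have hH1 : 1 ≤ H := h1.trans hH
  have hH0 : 0 < H := by linarith
  have hs : (0 : ℝ) ≤ s := Nat.cast_nonneg _
  have hν : 2 * (s : ℝ) + 1 ≤ ν := by exact_mod_cast h
  have e1 : (1 + 1 / (8 * ((s : ℝ) + 1))) * s ≤ s + 1 / 8 := by
    have : 1 / (8 * ((s : ℝ) + 1)) * s ≤ 1 / 8 := by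
      rw [div_mul_eq_mul_div, div_le_div_iff₀ (by positivity) (by norm_num)]
      linarith
    linarith
  have e2 : (s : ℝ) + 3 / 8 ≤ ((6 * ν : ℕ) : ℝ) / (2 * ((6 * ν : ℕ) : ℝ) + 3) * ν := by
    push_cast
    rw [div_mul_eq_mul_div, le_div_iff₀ (by linarith)]
    nlinarith
  calc (N : ℝ) * H ^ ((1 + 1 / (8 * ((s : ℝ) + 1))) * s)
      < H ^ (1 / 4 : ℝ) * H ^ ((1 + 1 / (8 * ((s : ℝ) + 1))) * s) :=
        mul_lt_mul_of_pos_right (by linarith [h2 H hH]) (Real.rpow_pos_of_pos hH0 _)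
    _ ≤ H ^ (((6 * ν : ℕ) : ℝ) / (2 * ((6 * ν : ℕ) : ℝ) + 3) * ν) := by
        rw [← Real.rpow_add hH0]
        exact Real.rpow_le_rpow_of_exponent_le hH1 (by linarith)
    _ ≤ (M : ℝ) ^ ν := by
        rw [Real.rpow_mul_natCast hH0.le]
        exact pow_le_pow_left₀ (by positivity) hM _

/-- the determinant on the double cover -/
theorem surf (m E a : ℕ) (hm : 2 ≤ m) : ∃ (r E' : ℕ) (η H₀ : ℝ), 0 < η ∧ ∀ H : ℝ, H₀ ≤ H →
    ∀ (D Φ : Z2) (v : Fin (2 * m + 3) → Fin 2) (Ψ : Fin (2 * m + 3) → Z2) (q : ℤ) (T : Pt → Prop),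
    D.totalDegree ≤ E → Φ.totalDegree ≤ E → (∀ i, (Ψ i).totalDegree ≤ E) → Ind D Φ v Ψ →
    (∀ z, T z → On D q H a z ∧ |(z.2 : ℝ)| ≤ H ^ ((m : ℝ) + 2 + η) ∧
      Quo (H ^ ((m : ℝ) + η)) z.2 (evz z.1 Φ) ∧ ∀ i, Quo (H ^ ((m : ℝ) + η)) z.2 (evz z.1 (Ψ i))) →
    Aux D T (H ^ ((r : ℝ) / (2 * r + 3))) E' := by
  obtain ⟨W, hW⟩ := surf_num m hm
  obtain ⟨H₀, h1, h2⟩ := surf_ineq _ _ (Fintype.card (Idx m W)).factorial hW
  refine ⟨6 * ∑ t ∈ Finset.range (2 * W), (Fintype.card (Idx m W) - (t + 2).choose 2),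
    (2 * (W + 2) + 3) * ((W + 1) * E + W), 1 / (8 * (((∑ i : Idx m W, wt m W i : ℕ) : ℝ) + 1)), H₀,
    by positivity, ?_⟩
  intro H hH D Φ v Ψ q T hD hΦ hΨ hI hT M z₀ hM hR
  have hH1 : 1 ≤ H := h1.trans hH
  have hH0 : 0 < H := by linarith
  by_cases hex : ∃ z, T z ∧ Cong M z z₀ ∧ Cop M (2 * evz z.1 D)
  swap
  · exact ⟨1, one_ne_zero, by simp, fun z a b c => (hex ⟨z, a, b, c⟩).elim⟩
  obtain ⟨z₁, hz₁, -, -⟩ := hex
  have hq : q ≠ 0 := fun e => (hT z₁ hz₁).1.2.2.1 (by rw [(hT z₁ hz₁).1.2.1, e, zero_mul])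
  let ι : Type := {z : Pt // T z ∧ Cong M z z₀ ∧ Cop M (2 * evz z.1 D)}
  choose c₀ hc₀ hb₀ using fun z : ι => (hT z.1 z.2.1).2.2.1
  choose c hc hb using fun (z : ι) i => (hT z.1 z.2.1).2.2.2 i
  have hcong : ∀ z w : ι, Cong M z.1 w.1 := fun z w => z.2.2.1.trans w.2.2.1.symm
  have hx : ∀ (z w : ι) k, z.1.1 k ≡ w.1.1 k [ZMOD M] := fun z w => (hcong z w).1
  have hy : Apx M (fun z : ι => z.1.1) fun z => z.1.2 :=
    apx_root hM hx (Apx.poly D) (fun z => (hT z.1 z.2.1).1.2.1) (fun z => z.2.2.2)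
      fun z w => (hcong z w).2
  have hu : ∀ z : ι, Cop M z.1.2 := fun z => z.2.2.2.of_dvd_right
    ⟨2 * q * z.1.2, by rw [(hT z.1 z.2.1).1.2.1]; ring⟩
  have ha₀ : Apx M (fun z : ι => z.1.1) c₀ := apx_div hM hx hy hu ((Apx.poly Φ).congr hc₀)
  have ha : ∀ i, Apx M (fun z : ι => z.1.1) fun z => c z i := fun i =>
    apx_div hM hx hy hu ((Apx.poly (Ψ i)).congr fun z => hc z i)
  have hF : ∀ i : Idx m W, Apx M (fun z : ι => z.1.1)
      fun z => surfF m W v z.1.1 z.1.2 (c₀ z) (c z) i := by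
    rintro (p | p | p)
    · exact ((Apx.coord 0).pow _).mul ((Apx.coord 1).pow _)
    · exact hy.mul (((Apx.coord 0).pow _).mul ((Apx.coord 1).pow _))
    · exact (ha₀.pow _).mul (((Apx.coord (v p.2)).pow _).mul (ha p.2))
  obtain ⟨d, hd, hrel⟩ := rel (2 * W) hx hF
    (fun i => H ^ ((1 + 1 / (8 * (((∑ i : Idx m W, wt m W i : ℕ) : ℝ) + 1))) * wt m W i))
    (fun i z => surf_bound m W hm v hH1 (by positivity) _ _ _ _ (hT z.1 z.2.1).1.1
      (hT z.1 z.2.1).2.1 (hb₀ z) (hb z) i)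
    (by
      rw [← Real.rpow_sum_of_pos hH0, ← Finset.mul_sum, ← Nat.cast_sum]
      exact h2 H hH M hR)
  obtain ⟨G, hG, hdeg, hev⟩ := alg_rel D q hq (W + 2) ((W + 1) * E + W) (surfLev m W)
    (surfPol m W Φ v Ψ)
    (by
      rintro (p | p | p) <;> simp only [surfLev]
      · omega
      · omega
      · have := (surf_lev p.1).1
        omega)
    (hD.trans (by nlinarith)) (surf_deg m W E Φ v Ψ hΦ hΨ)
    (hT z₁ hz₁).1.2.2.2.2.not_sq (surf_low m W Φ v Ψ) (surf_ind m W D Φ v Ψ hI) d hd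
  refine ⟨G, hG, hdeg, fun z a b e => ?_⟩
  refine hev z.1 z.2 _ (hT z a).1.2.1 (fun e0 => (hT z a).1.2.2.1 ?_)
    (surf_eq m W Φ v Ψ z.1 z.2 _ _ (hc₀ ⟨z, a, b, e⟩) (hc ⟨z, a, b, e⟩)) (hrel ⟨z, a, b, e⟩)
  rw [(hT z a).1.2.1, e0]
  ring

end Pool.Agent.VW
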