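import Pool.Agent.P.MP_b0ea37_nt.WCd
import Pool.Agent.P.MP_b0ea37_nt.WSChain
import Pool.Agent.P.MP_b0ea37_nt.WSSurf
import Pool.Agent.P.MP_b0ea37_nt.WSOdd
import Pool.Agent.P.MP_b0ea37_nt.WSCurve

namespace Pool.Agent.VW

open Polynomial

theorem Aux.mono {D : Z2} {T : Pt → Prop} {R : ℝ} {E E' : ℕ} (h : Aux D T R E) (hE : E ≤ E') :
    Aux D T R E' := fun M z₀ h1 h2 => (h M z₀ h1 h2).imp fun _ g => ⟨g.1, g.2.1.trans hE, g.2.2⟩

/-- points of one plane with a given cofactor -/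
theorem str_plane (n : ℕ) (hn : 5 ≤ n) : ∃ η γ C H₀ : ℝ, 0 < η ∧ 0 < γ ∧ 0 ≤ C ∧ ∀ H : ℝ, H₀ ≤ H →
    ∀ (f₀ : ℤ[X]) (q : ℤ), Cnt (fun f : ℤ[X] => f₀ = base n f ∧ Box n H f ∧ Bad n f ∧
      ¬ up ℚ (wr (g1 n) (g2 n)) ∣ up ℚ (wr (g2 n) f) ∧ ∃ y : ℤ, Dv n f = q * y ^ 2 ∧
        H ^ ((n : ℝ) - 1 - η) ≤ |(y : ℝ)| ∧ ∀ k : ℕ, y ∣ Phi n k f) (C * H ^ (1 - γ)) := by
  obtain ⟨E, hE⟩ := deg_DD_PP n
  obtain ⟨r, E', η, H1, hη, hs⟩ := surf (n - 3) E (2 * n) (by omega)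
  obtain ⟨C, H2, hC, hch⟩ := chain (max E E') (2 * n) r
  obtain ⟨C1, hC1, hDv⟩ := abs_Dv_le n
  obtain ⟨C2, hC2, hPhi⟩ := abs_Phi_le n
  obtain ⟨H3, hH3, h3⟩ := exists_pow_ge (max C1 C2) (min 1 (η / 2)) (by positivity)
  refine ⟨η / 2, 1 / (2 * (r : ℝ) + 3), C, max H1 (max H2 H3), by positivity, by positivity, hC,
    fun H hH f₀ q => ?_⟩
  simp only [max_le_iff] at hH
  have hH1 : 1 ≤ H := hH3.trans hH.2.2
  have hH0 : 0 < H := by linarith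
  have k1 := h3 H hH.2.2
  have k2 : max C1 C2 ≤ H := k1.trans ((Real.rpow_le_rpow_of_exponent_le hH1
    (min_le_left _ _)).trans (Real.rpow_one H).le)
  have k3 : max C1 C2 ≤ H ^ (η / 2) :=
    k1.trans (Real.rpow_le_rpow_of_exponent_le hH1 (min_le_right _ _))
  rw [max_le_iff] at k2 k3
  have hm : ((n - 3 : ℕ) : ℝ) = n - 3 := by rw [Nat.cast_sub (by omega)]; norm_num
  refine Cnt.of_mem (by positivity) fun f₁ hf₁ => ?_
  obtain ⟨e₁, -, b₁, v₁, -⟩ := hf₁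
  have e₂ : mem n f₀ (crd n f₁) = f₁ := by rw [e₁, mem_base]
  have hind := ind_plane hn f₀ (crd n f₁) (e₂.symm ▸ b₁.1) (e₂.symm ▸ b₁.2.1)
    (e₂.symm ▸ b₁.2.2.1) (e₂.symm ▸ b₁.2.2.2.1) (e₂.symm ▸ v₁)
  let T : Pt → Prop := fun z => (∀ i, |(z.1 i : ℝ)| ≤ H) ∧ Box n H (mem n f₀ z.1) ∧
    Bad n (mem n f₀ z.1) ∧ Dv n (mem n f₀ z.1) = q * z.2 ^ 2 ∧
      H ^ ((n : ℝ) - 1 - η / 2) ≤ |(z.2 : ℝ)| ∧ ∀ k : ℕ, z.2 ∣ Phi n k (mem n f₀ z.1)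
  have hD : ∀ z, T z → |((Dv n (mem n f₀ z.1) : ℤ) : ℝ)| ≤ C1 * H ^ (2 * n - 2) := fun z hz =>
    (hDv _ hz.2.1.1 hz.2.1.2.1).trans (by
      have := hz.2.1.2.2.2
      have := supNorm_nonneg (mem n f₀ z.1)
      gcongr)
  have hOn : ∀ z, T z → On (DD n f₀) q H (2 * n) z := fun z hz => by
    refine ⟨hz.1, ?_, ?_, ?_, oddAt hn f₀ z.1 hz.2.1.1 hz.2.1.2.1 hz.2.2.1.2.2.1⟩ <;> rw [evz_DD]
    · exact hz.2.2.2.1
    · exact hz.2.2.1.2.2.1.Dv_ne_zero hz.2.1.1 hz.2.1.2.1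
    · refine (hD z hz).trans ?_
      calc _ ≤ H ^ 2 * H ^ (2 * n - 2) := by gcongr; nlinarith
        _ = _ := by rw [← pow_add]; congr 1; omega
  have hQ : ∀ z, T z → ∀ k ≤ 2 * n - 4,
      Quo (H ^ (((n - 3 : ℕ) : ℝ) + η)) z.2 (evz z.1 (PP n k f₀)) := fun z hz k hk => by
    obtain ⟨c, hc⟩ := hz.2.2.2.2.2 k
    refine ⟨c, by rw [evz_PP, hc], ?_⟩
    have h1 : |((Phi n k (mem n f₀ z.1) : ℤ) : ℝ)| ≤ H ^ (η / 2) * H ^ (2 * n - 4) :=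
      (hPhi k hk _ hz.2.1.1 hz.2.1.2.1).trans (by
        have := hz.2.1.2.2.2
        have := supNorm_nonneg (mem n f₀ z.1)
        have := k3.2
        gcongr)
    rw [hc, Int.cast_mul, abs_mul] at h1
    have h2 : H ^ (η / 2) * H ^ (2 * n - 4)
        = H ^ ((n : ℝ) - 1 - η / 2) * H ^ (((n - 3 : ℕ) : ℝ) + η) := by
      rw [← Real.rpow_natCast, ← Real.rpow_add hH0, ← Real.rpow_add hH0, hm,
        Nat.cast_sub (by omega)]
      congr 1; push_cast; ring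
    have h4 : 0 < H ^ ((n : ℝ) - 1 - η / 2) := by positivity
    refine le_of_mul_le_mul_left ?_ h4
    rw [← h2]
    exact (mul_le_mul_of_nonneg_right hz.2.2.2.2.1 (abs_nonneg _)).trans h1
  have hy : ∀ z, T z → |(z.2 : ℝ)| ≤ H ^ (((n - 3 : ℕ) : ℝ) + 2 + η) := fun z hz => by
    have h1 := hD z hz
    have hq : q ≠ 0 := fun h0 => (hOn z hz).2.2.1 (by rw [(hOn z hz).2.1, h0, zero_mul])
    have h2 : (1 : ℝ) ≤ |(q : ℝ)| := by exact_mod_cast Int.one_le_abs hq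
    rw [hz.2.2.2.1, Int.cast_mul, Int.cast_pow, abs_mul, abs_pow] at h1
    refine (pow_le_pow_iff_left₀ (abs_nonneg _) (by positivity) two_ne_zero).1 ?_
    have h5 : (H ^ (((n - 3 : ℕ) : ℝ) + 2 + η)) ^ 2 = H ^ (2 * η) * H ^ (2 * n - 2) := by
      rw [← Real.rpow_natCast, ← Real.rpow_mul hH0.le, ← Real.rpow_natCast H (2 * n - 2),
        ← Real.rpow_add hH0, hm, Nat.cast_sub (by omega)]
      congr 1; push_cast; ring
    have h6 : C1 ≤ H ^ (2 * η) := k3.1.trans (Real.rpow_le_rpow_of_exponent_le hH1 (by linarith))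
    rw [h5]
    calc _ ≤ |(q : ℝ)| * |(z.2 : ℝ)| ^ 2 := le_mul_of_one_le_left (by positivity) h2
      _ ≤ _ := h1.trans (by gcongr)
  have hix : ∀ i, ix n i ≤ n - 1 := fun i => by
    have := i.2
    unfold ix
    split_ifs <;> omega
  have hA := hs H hH.1 (DD n f₀) (PP n 0 f₀) (vv n) (fun i => PP n (ix n i) f₀) q T (hE f₀).1
    ((hE f₀).2 0 (by omega)) (fun i => (hE f₀).2 _ ((hix i).trans (by omega))) hind
    fun z hz => ⟨hOn z hz, hy z hz, hQ z hz 0 (by omega),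
      fun i => hQ z hz _ ((hix i).trans (by omega))⟩
  refine ((hch H hH.2.1 (DD n f₀) q T ((hE f₀).1.trans (le_max_left _ _)) hOn
    (hA.mono (le_max_right _ _))).image fun z => mem n f₀ z.1).mono (fun f hf => ?_) le_rfl
  obtain ⟨e, hb, hbad, -, y, h1, h2, h3⟩ := hf
  have e' : mem n f₀ (crd n f) = f := by rw [e, mem_base]
  refine ⟨(crd n f, y), ⟨fun i => ?_, ?_⟩, e'⟩
  · have h4 : ∀ k, |((f.coeff k : ℤ) : ℝ)| ≤ H := fun k => by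
      simpa [Int.norm_eq_abs] using sup_le_iff.1 hb.2.2.2 k
    fin_cases i <;> exact h4 _
  · rw [e']
    exact ⟨hb, hbad, h1, h2, h3⟩

/-- PLANE, SURF, CLASS1, CHAIN -/
theorem ps_core (n : ℕ) (hn : 5 ≤ n) : ∃ η : ℝ, 0 < η ∧
    PS n fun H f => Bad n f ∧ Core n η H f := by
  obtain ⟨η, γ, C, H1, hη, hγ, hC, hpl⟩ := str_plane n hn
  obtain ⟨C1, hC1, hb⟩ := cnt_base n hn
  refine ⟨min η (γ / 2), by positivity, ?_⟩
  have hn' : (5 : ℝ) ≤ n := by exact_mod_cast hn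
  have p1 : PS n fun _ f => up ℚ (wr (g1 n) (g2 n)) ∣ up ℚ (wr (g2 n) f) :=
    PS.of_lt 3 27 1 (by linarith) fun H hH => (cnt_special n hn H (by linarith)).mono
      (fun f hf => ⟨hf.1.1, hf.1.2.1, hf.1.2.2.2, hf.2⟩) (by
        rw [show (3 : ℝ) = (3 : ℕ) by norm_num, Real.rpow_natCast]
        calc _ ≤ (3 * H) ^ 3 := by gcongr; linarith
          _ = _ := by ring)
  have p2 : PS n fun H f => Bad n f ∧ Core n (min η (γ / 2)) H f ∧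
      ¬ up ℚ (wr (g1 n) (g2 n)) ∣ up ℚ (wr (g2 n) f) := by
    refine PS.of_lt ((n : ℝ) - 1 - γ / 2) (C1 * 3 * C) (max 1 H1) (by linarith) fun H hH => ?_
    rw [max_le_iff] at hH
    have hH0 : 0 < H := by linarith
    have h1 : 1 ≤ H ^ (γ / 2) := Real.one_le_rpow hH.1 (by positivity)
    refine (Cnt.fibre ((hb H hH.1).prod (by positivity) fun _ _ =>
      cnt_int_abs (H ^ (γ / 2)) (by positivity)) (by positivity)
      fun p _ => hpl H hH.2 p.1 p.2).mono (fun f hf => ?_) ?_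
    · obtain ⟨hx, hbad, ⟨q, y, e1, e2, e3, e4⟩, hv⟩ := hf
      exact ⟨(base n f, q), ⟨⟨f, hx.1, hx.2.1, hx.2.2.2, rfl⟩,
        e2.trans (Real.rpow_le_rpow_of_exponent_le hH.1 (min_le_right _ _))⟩, rfl, hx, hbad, hv, y,
        e1, (Real.rpow_le_rpow_of_exponent_le hH.1 (by linarith [min_le_left η (γ / 2)])).trans e3,
        e4⟩
    · have h2 : H ^ ((n : ℝ) - 1 - γ / 2) = H ^ (n - 2) * H ^ (γ / 2) * H ^ (1 - γ) := by
        rw [← Real.rpow_natCast, ← Real.rpow_add hH0, ← Real.rpow_add hH0, Nat.cast_sub (by omega)]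
        congr 1; push_cast; ring
      rw [h2]
      calc _ ≤ C1 * H ^ (n - 2) * (3 * H ^ (γ / 2)) * (C * H ^ (1 - γ)) := by gcongr; linarith
        _ = _ := by ring
  exact (p1.or p2).mono 0 fun H _ f _ hf => (em _).imp id fun h => ⟨hf.1, hf.2, h⟩

end Pool.Agent.VW
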