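import Pool.Agent.P.MP_b0ea37_nt.Defs
import Pool.Agent.P.MP_b0ea37_nt.WGal
import Pool.Agent.P.MP_b0ea37_nt.WImp
import Pool.Agent.P.MP_b0ea37_nt.WFld
import Pool.Agent.P.MP_b0ea37_nt.WLat
import Pool.Agent.P.MP_b0ea37_nt.WMid
import Pool.Agent.P.MP_b0ea37_nt.WStr
import Pool.Agent.P.MP_b0ea37_nt.WCore

namespace Pool.Agent.VW

open Polynomial

theorem WMain_muL {n : ℕ} (hn : 5 ≤ n) : (9 / 10 : ℝ) + 9 / 10 ≤ muL n := by
  have h : (5 : ℝ) ≤ n := by exact_mod_cast hn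
  unfold muL
  have h1 : (1801 / 1000 : ℝ) ≤ n * (n - 2) / (2 * (n - 1)) := by
    rw [le_div_iff₀ (by linarith)]
    nlinarith
  linarith

theorem WMain_sqfree (T : Finset ℕ) (hT : ∀ p ∈ T, p.Prime) : Squarefree (∏ p ∈ T, p) := by
  refine Finset.squarefree_prod_of_pairwise_isCoprime ?_ fun p hp => (hT p hp).squarefree
  intro p hp q hq hne
  exact Nat.coprime_iff_isRelPrime.1 ((Nat.coprime_primes (hT p hp) (hT q hq)).2 hne)

/-- the product of all weak primes -/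
theorem WMain_weak {n : ℕ} {f : ℤ[X]} (hf : Bad n f) : ∃ T : Finset ℕ,
    (∀ p ∈ T, p.Prime ∧ Weak p f) ∧ WkIn (∏ p ∈ T, p) f := by
  classical
  obtain ⟨hm, hd, hi, -, -⟩ := hf
  refine ⟨(Dv n f).natAbs.primeFactors.filter fun p => Weak p f, fun p hp => ?_, fun p hp hw => ?_⟩
  · obtain ⟨h1, h2⟩ := Finset.mem_filter.1 hp
    exact ⟨Nat.prime_of_mem_primeFactors h1, h2⟩
  · refine Finset.dvd_prod_of_mem (fun p => p) (Finset.mem_filter.2 ⟨?_, hw⟩)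
    exact Nat.mem_primeFactors.2 ⟨hp, Int.natCast_dvd.1 (hw.dvd_Dv hp hm hd),
      Int.natAbs_ne_zero.2 (hi.Dv_ne_zero hm hd)⟩

theorem ps_bad (n : ℕ) (hn : 5 ≤ n) : PS n fun _ f => Bad n f := by
  classical
  obtain ⟨η, hη, h₁⟩ := ps_core n hn
  obtain ⟨δ, hδ, h₂⟩ := ps_not_core n hn η hη
  have hall := (h₁.or h₂).or (((ps_latA n hn _ hδ).or (ps_latB n hn)).or
    ((ps_mid n hn).or (ps_field n hn)))
  refine hall.mono 1 fun H hH f _ hf => ?_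
  obtain ⟨T, hT, hW⟩ := WMain_weak hf
  have hTp : ∀ p ∈ T, p.Prime := fun p hp => (hT p hp).1
  obtain ⟨r, hr⟩ := Wk.crt T hTp fun p hp => (hT p hp).2
  have hsq := WMain_sqfree T hTp
  have hM1 : 1 ≤ ∏ p ∈ T, p := Nat.one_le_iff_ne_zero.2 hsq.ne_zero
  by_cases c1 : ((∏ p ∈ T, p : ℕ) : ℝ) ≤ H ^ δ
  · have ht : Tiny δ H f := ⟨_, hM1, c1, hW⟩
    by_cases c : Core n η H f
    · exact Or.inl (Or.inl ⟨hf, c⟩)
    · exact Or.inl (Or.inr ⟨hf, ht, c⟩)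
  right
  by_cases c2 : ((∏ p ∈ T, p : ℕ) : ℝ) ≤ H ^ (9 / 10 : ℝ)
  · exact Or.inl (Or.inl ⟨hf, _, r, hsq, not_le.1 c1, c2, hW, hr⟩)
  have hH0 : 0 < H := by linarith
  by_cases c3 : ∃ p ∈ T, H ^ (9 / 10 : ℝ) < p
  · obtain ⟨p, hp, hp1⟩ := c3
    obtain ⟨hpp, s, hs⟩ := hT p hp
    by_cases c4 : (p : ℝ) ≤ H ^ muL n
    · exact Or.inl (Or.inr ⟨hf, p, s, hpp.squarefree, hp1, c4, hs⟩)
    right
    rcases le_total (p : ℝ) (H ^ ((n : ℝ) - 1 - cF n)) with c5 | c5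
    · exact Or.inl ⟨hf.2.2.1, hf.2.2.2.1, p, s, hpp, not_le.1 c4, c5, hs⟩
    · exact Or.inr ⟨hf.2.2.1, hf.2.2.2.1, p, s, c5, hs⟩
  · have h9 : 1 ≤ H ^ (9 / 10 : ℝ) := Real.one_le_rpow hH (by norm_num)
    have e : T.val.prod = ∏ p ∈ T, p := by simp
    obtain ⟨t, ht, h3, h4⟩ := exists_subprod T.val _ _ h9 h9
      (fun p hp => ⟨(hTp p hp).one_le, not_lt.1 fun h => c3 ⟨p, hp, h⟩⟩) (e ▸ not_le.1 c2)
    have hdv : t.prod ∣ ∏ p ∈ T, p := e ▸ Multiset.prod_dvd_prod_of_le ht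
    refine Or.inl (Or.inr ⟨hf, t.prod, r, hsq.squarefree_of_dvd hdv, h3, h4.trans ?_,
      hr.of_dvd hdv⟩)
    rw [← Real.rpow_add hH0]
    exact Real.rpow_le_rpow_of_exponent_le hH (WMain_muL hn)

/-- from dyadic boxes to the full box -/
theorem WMain_full {n : ℕ} (hn : 5 ≤ n) {P : ℤ[X] → Prop} (h : PS n fun _ f => P f) :
    ∃ c : ℝ, 0 < c ∧ ∃ C : ℝ, ∀ H : ℝ, 1 ≤ H →
      Cnt (fun f : ℤ[X] => f.Monic ∧ f.natDegree = n ∧ f.supNorm ≤ H ∧ P f)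
        (C * H ^ ((n : ℝ) - 1 - c)) := by
  obtain ⟨c, hc, C, H₀, h⟩ := h
  have h5 : (5 : ℝ) ≤ n := by exact_mod_cast hn
  obtain ⟨e, he⟩ : ∃ e : ℝ, e = (n : ℝ) - 1 - min c 1 := ⟨_, rfl⟩
  have he1 : 1 ≤ e := by have := min_le_right c 1; linarith
  have hec : (n : ℝ) - 1 - c ≤ e := by have := min_le_left c 1; linarith
  obtain ⟨H₁, hH₁⟩ : ∃ H₁ : ℝ, H₁ = max 1 H₀ := ⟨_, rfl⟩
  have h11 : 1 ≤ H₁ := hH₁ ▸ le_max_left _ _
  have h10 : H₀ ≤ H₁ := hH₁ ▸ le_max_right _ _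
  refine ⟨min c 1, lt_min hc one_pos, (2 * H₁ + 1) ^ n + 2 * |C|, fun H hH => ?_⟩
  rw [← he]
  have hH0 : 0 < H := by linarith
  have hHe : 1 ≤ H ^ e := Real.one_le_rpow hH (by linarith)
  have hk : ∀ k ∈ Finset.range (⌈H⌉₊ + 1), Cnt
      (fun f => H₁ ≤ H / 2 ^ k ∧ Box n (H / 2 ^ k) f ∧ P f) (|C| * H ^ e * (1 / 2) ^ k) := by
    intro k _
    by_cases c1 : H₁ ≤ H / 2 ^ k
    · refine (h _ (h10.trans c1)).mono (fun f hf => hf.2) ?_
      have h2 : (1 : ℝ) ≤ 2 ^ k := one_le_pow₀ one_le_two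
      have h3 : (H / 2 ^ k) ^ ((n : ℝ) - 1 - c) ≤ (H / 2 ^ k) ^ e :=
        Real.rpow_le_rpow_of_exponent_le (h11.trans c1) hec
      have h4 : (H / 2 ^ k) ^ e ≤ H ^ e * (1 / 2) ^ k := by
        rw [Real.div_rpow hH0.le (by positivity), one_div, inv_pow, ← div_eq_mul_inv]
        refine div_le_div_of_nonneg_left (by positivity) (by positivity) ?_
        simpa using Real.rpow_le_rpow_of_exponent_le h2 he1
      calc C * (H / 2 ^ k) ^ ((n : ℝ) - 1 - c) ≤ |C| * (H / 2 ^ k) ^ ((n : ℝ) - 1 - c) :=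
            mul_le_mul_of_nonneg_right (le_abs_self C) (by positivity)
        _ ≤ |C| * (H ^ e * (1 / 2) ^ k) :=
            mul_le_mul_of_nonneg_left (h3.trans h4) (abs_nonneg C)
        _ = _ := by ring
    · exact Cnt.empty (fun f hf => c1 hf.1) (by positivity)
  refine ((cnt_monic n H₁ (by linarith)).or (Cnt.sum _ hk)).mono ?_ ?_
  · rintro f ⟨hm, hd, hs, hP⟩
    by_cases c1 : f.supNorm ≤ H₁
    · exact Or.inl ⟨hm, hd, c1⟩
    have c2 : H₁ < f.supNorm := not_le.1 c1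
    have hs0 : 0 < f.supNorm := by linarith
    obtain ⟨k, k1, k2⟩ := exists_dyadic (H / f.supNorm) ((one_le_div hs0).2 hs)
    have h2 : (0 : ℝ) < 2 ^ k := by positivity
    rw [le_div_iff₀ hs0] at k1
    rw [div_lt_iff₀ hs0] at k2
    have k3 : f.supNorm ≤ H / 2 ^ k := by rw [le_div_iff₀ h2]; linarith
    refine Or.inr ⟨k, ?_, c2.le.trans k3, ⟨hm, hd, ?_, k3⟩, hP⟩
    · have k4 : (k : ℝ) < 2 ^ k := by exact_mod_cast Nat.lt_two_pow_self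
      have k5 : (k : ℝ) ≤ ⌈H⌉₊ := by nlinarith [Nat.le_ceil H]
      exact Finset.mem_range.2 (Nat.lt_succ_of_le (by exact_mod_cast k5))
    · rw [div_div, div_lt_iff₀ (by positivity)]
      linarith
  · rw [← Finset.mul_sum, add_mul]
    have h1 := sum_geometric_two_le (⌈H⌉₊ + 1)
    have h2 : (0 : ℝ) ≤ (2 * H₁ + 1) ^ n := by positivity
    have h3 : 0 ≤ |C| * H ^ e := by positivity
    nlinarith

/-- the integer polynomial with coefficient vector `a` -/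
noncomputable def WMain_F {n : ℕ} (a : Fin n → ℤ) : ℤ[X] :=
  X ^ n + ∑ i : Fin n, C (a i) * X ^ (n - 1 - (i : ℕ))

theorem WMain_F_up {n : ℕ} (a : Fin n → ℤ) : up ℚ (WMain_F a) = Pool.Agent.VDW.poly a := by
  simp [WMain_F, Pool.Agent.VDW.poly, Polynomial.map_sum]

theorem WMain_F_low {n : ℕ} (a : Fin n → ℤ) :
    (∑ i : Fin n, C (a i) * X ^ (n - 1 - (i : ℕ)) : ℤ[X]).degree < n := by
  refine (degree_sum_le _ _).trans_lt ((Finset.sup_lt_iff (WithBot.bot_lt_coe n)).2 fun i _ => ?_)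
  refine (degree_C_mul_X_pow_le _ _).trans_lt ?_
  have := i.2
  exact Nat.cast_lt.2 (by omega : n - 1 - (i : ℕ) < n)

theorem WMain_F_coeff {n : ℕ} (a : Fin n → ℤ) (i : Fin n) :
    (WMain_F a).coeff (n - 1 - (i : ℕ)) = a i := by
  have hi := i.2
  rw [WMain_F, coeff_add, coeff_X_pow, if_neg (by omega), zero_add, finsetSum_coeff,
    Finset.sum_eq_single i]
  · simp
  · intro j _ hj
    have := j.2
    rw [coeff_C_mul, coeff_X_pow, if_neg, mul_zero]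
    exact fun h => hj (Fin.ext (by omega))
  · simp

theorem WMain_F_monic {n : ℕ} (a : Fin n → ℤ) :
    (WMain_F a).Monic ∧ (WMain_F a).natDegree = n := by
  refine ⟨monic_X_pow_add (WMain_F_low a), natDegree_eq_of_degree_eq_some ?_⟩
  rw [WMain_F, degree_add_eq_left_of_degree_lt, degree_X_pow]
  rw [degree_X_pow]
  exact WMain_F_low a

theorem WMain_F_sup {n : ℕ} (a : Fin n → ℤ) {H : ℝ} (hH : 1 ≤ H) (ha : ∀ i, |(a i : ℝ)| ≤ H) :
    (WMain_F a).supNorm ≤ H := by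
  obtain ⟨j, hj⟩ := (WMain_F a).exists_eq_supNorm
  obtain ⟨hm, hd⟩ := WMain_F_monic a
  rw [hj]
  rcases lt_trichotomy j n with c | c | c
  · have e := WMain_F_coeff a ⟨n - 1 - j, by omega⟩
    rw [show n - 1 - ((⟨n - 1 - j, by omega⟩ : Fin n) : ℕ) = j by simp only; omega] at e
    rw [e]
    exact ha _
  · have e : (WMain_F a).coeff j = 1 := by rw [c, ← hm.leadingCoeff, leadingCoeff, hd]
    rw [e, norm_one]
    exact hH
  · rw [coeff_eq_zero_of_natDegree_lt (by omega), norm_zero]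
    linarith

theorem main (n : ℕ) (hn : 5 ≤ n) : ∃ c : ℝ, 0 < c ∧ ∃ C : ℝ, ∀ H : ℝ, 1 ≤ H →
    (Pool.Agent.VDW.N n H : ℝ) ≤ C * H ^ ((n : ℝ) - 1 - c) := by
  have h1 : PS n fun _ f => Irr f ∧ ¬ Nonempty ((up ℚ f).Gal ≃* Equiv.Perm (Fin n)) := by
    refine ((ps_bad n hn).or (ps_imprim n hn)).mono 1 fun H _ f hb hf => ?_
    by_cases c : Prim f
    · exact Or.inl (bad_of_gal hn hb.1 hb.2.1 hf.1 c hf.2)
    · exact Or.inr ⟨hf.1, c⟩
  obtain ⟨c, hc, C, h⟩ := WMain_full hn h1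
  refine ⟨c, hc, C, fun H hH => ?_⟩
  refine Cnt.ncard_le ((h H hH).inj WMain_F (fun a ha => ?_) fun a b _ _ e => ?_)
  · refine ⟨(WMain_F_monic a).1, (WMain_F_monic a).2, WMain_F_sup a hH ha.1, ?_⟩
    unfold Irr
    rw [WMain_F_up]
    exact ha.2
  · funext i
    rw [← WMain_F_coeff a i, e, WMain_F_coeff]

end Pool.Agent.VW
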