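import Pool.Agent.P.MP_b0ea37_nt.WMDefs
import Pool.Agent.P.MP_b0ea37_nt.WMaArch

namespace Pool.Agent.VW

open Polynomial

theorem arch (n d : ℕ) (hd : 1 ≤ d) (hn2 : 2 ≤ n) (hn : n ≤ 2 * d) :
    ∃ c₀ : ℝ, 0 < c₀ ∧ ∃ K : ℝ, 1 ≤ K ∧ ∀ (v f f' : ℤ[X]) (θ θ' : Fin n → ℂ) (m e : Fin n → ℝ)
      (T lam : ℝ), v.natDegree = d → 0 < T → T ≤ v.supNorm → v.supNorm ≤ 2 * T →
      Roots (up ℂ f) θ → Roots (up ℂ f') θ' →
      (∀ i, 1 ≤ m i ∧ ‖θ i‖ ≤ 2 * m i ∧ 0 < e i ∧ e i ≤ 1 ∧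
        e i * T * m i ^ d ≤ ‖aeval (θ i) v‖ ∧ ‖θ i - θ' i‖ ≤ lam * e i * m i) →
      0 ≤ lam → lam ≤ c₀ →
      Cl v f f' ∧ ArchZ n d v f f' (K * lam ^ 2 * (∏ i, m i) / T ^ 2) (K * lam ^ 2 * ∏ i, m i) := by
  obtain ⟨c1, K1, hc1, hK1, h1⟩ := archC n d hd hn
  obtain ⟨c2, K2, hc2, hK2, h2⟩ := arch_ratio n d hd
  have hp : (1 : ℝ) ≤ 2 ^ d := one_le_pow₀ one_le_two
  have hK : 0 < K1 * (2 ^ d) ^ 2 * 2 ^ n := by positivity
  refine ⟨min c1 (min c2 (1 / (100 * K2))) / 2 ^ d, by positivity, 1 + K1 * (2 ^ d) ^ 2 * 2 ^ n,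
    by linarith, ?_⟩
  intro v f f' θ θ' m e T lam hv hT hT1 hT2 hf hf' hm hl0 hl
  rw [le_div_iff₀ (by linarith), le_min_iff, le_min_iff, le_div_iff₀ (by linarith)] at hl
  obtain ⟨hl1, hl2, hl3⟩ := hl
  have hae : ∀ (p : ℤ[X]) (z : ℂ), aeval z p = (up ℂ p).eval z := fun p z => by
    rw [aeval_def, eval₂_eq_eval_map, algebraMap_int_eq]
  have hinj := RingHom.injective_int (Int.castRingHom ℂ)
  have hdeg : ∀ p : ℤ[X], (up ℂ p).natDegree = p.natDegree := fun p =>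
    natDegree_map_eq_of_injective hinj p
  have hlc : ∀ p : ℤ[X], ‖(up ℂ p).leadingCoeff‖ = |(p.leadingCoeff : ℝ)| := fun p => by
    rw [leadingCoeff_map_of_injective hinj]; simp
  have a1 : ∀ i, 1 ≤ 2 * m i := fun i => by linarith [(hm i).1]
  have a3 : ∀ i, 0 < e i / (2 * 2 ^ d) := fun i => div_pos (hm i).2.2.1 (by linarith)
  have a4 : ∀ i, e i / (2 * 2 ^ d) ≤ 1 := fun i => by
    rw [div_le_one (by linarith)]; linarith [(hm i).2.2.2.1]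
  have a5 : ∀ i, e i / (2 * 2 ^ d) * (up ℂ v).supNorm * (2 * m i) ^ d
      ≤ ‖(up ℂ v).eval (θ i)‖ := fun i => by
    rw [← hae, sup_up_complex]
    refine le_trans ?_ (hm i).2.2.2.2.1
    have := (a3 i).le
    have := a1 i
    calc _ ≤ e i / (2 * 2 ^ d) * (2 * T) * (2 * m i) ^ d := by gcongr
      _ = _ := by rw [mul_pow]; field_simp
  have a6 : 0 ≤ lam * 2 ^ d := by positivity
  have a7 : ∀ i, ‖θ i - θ' i‖ ≤ lam * 2 ^ d * (e i / (2 * 2 ^ d)) * (2 * m i) := fun i =>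
    (hm i).2.2.2.2.2.trans (le_of_eq (by field_simp))
  have h1 := fun g E => h1 (up ℂ v) g E θ θ' _ _ _ ((hdeg v).trans hv) a1 (fun i => (hm i).2.1)
    a3 a4 a5 a6 hl1 a7
  have h2 := h2 (up ℂ v) θ θ' _ _ _ ((hdeg v).trans hv) a1 (fun i => (hm i).2.1) a3 a4 a5 a6 hl2 a7
  unfold Roots at hf hf'
  rw [← hf, ← hf'] at h1 h2
  have hM : 0 < ∏ i, m i := Finset.prod_pos fun i _ => by linarith [(hm i).1]
  have hb : K1 * (lam * 2 ^ d) ^ 2 * ∏ i, 2 * m i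
      ≤ (1 + K1 * (2 ^ d) ^ 2 * 2 ^ n) * lam ^ 2 * ∏ i, m i := by
    rw [Finset.prod_mul_distrib, Finset.prod_const, Finset.card_univ, Fintype.card_fin]
    linarith [mul_nonneg (sq_nonneg lam) hM.le]
  generalize (1 + K1 * (2 ^ d) ^ 2 * 2 ^ n) * lam ^ 2 * ∏ i, m i = B at hb ⊢
  refine ⟨fun z hz => ?_, fun c G E hc hG hE => ?_⟩
  · rw [hae] at hz
    obtain ⟨b1, b2⟩ := h2 z hz
    rw [hae, hae]
    rw [div_sub_one b1, norm_div, div_le_iff₀ (norm_pos_iff.2 b1)] at b2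
    refine ⟨b1, b2.trans ?_⟩
    linarith [mul_le_mul_of_nonneg_right hl3 (norm_nonneg ((up ℂ f).eval z))]
  have hcR : (0 : ℝ) < c := by exact_mod_cast hc
  have hcC : (c : ℂ) ≠ 0 := by exact_mod_cast hc.ne'
  have hcn : ‖(c : ℂ)‖ = c := by rw [Complex.norm_intCast, abs_of_pos hcR]
  have hcc : C (c : ℂ) * C (c : ℂ)⁻¹ = (1 : ℂ[X]) := by rw [← C_mul, mul_inv_cancel₀ hcC, C_1]
  have hdE : (C (c : ℂ)⁻¹ * up ℂ E).natDegree = E.natDegree := by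
    rw [natDegree_C_mul (inv_ne_zero hcC), hdeg]
  have key := h1 (C (c : ℂ)⁻¹ * up ℂ G) (C (c : ℂ)⁻¹ * up ℂ E) ?_ (fun z hz => ?_) ?_
  · rw [hdE] at key
    refine ⟨fun b1 b2 => ?_, fun b1 => ?_⟩
    · have b3 := (key b2).2 (by omega)
      rw [leadingCoeff_mul, leadingCoeff_C, norm_mul, norm_inv, hcn, hlc, hlc, sq_abs,
        sup_up_complex] at b3
      have b4 := b3.trans (mul_le_mul_of_nonneg_right hb (sq_nonneg _))
      have b5 : T ^ 2 ≤ v.supNorm ^ 2 := pow_le_pow_left₀ hT.le hT1 2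
      have b6 := (mul_le_mul_of_nonneg_left b5
        (mul_nonneg (inv_pos.2 hcR).le (abs_nonneg _))).trans b4
      rw [mul_assoc, inv_mul_le_iff₀ hcR, ← le_div_iff₀ (by positivity)] at b6
      exact b6.trans (le_of_eq (by ring))
    · have b3 := (key (by omega)).1.trans hb
      have b4 := sup_C_mul_le (c : ℂ) (C (c : ℂ)⁻¹ * up ℂ E)
      rw [← mul_assoc, hcc, one_mul, sup_up_complex, hcn] at b4
      exact b4.trans (mul_le_mul_of_nonneg_left b3 hcR.le)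
  · obtain ⟨q, hq⟩ := hG.1
    have := congrArg (up ℂ) hq
    simp only [up, Polynomial.map_sub, Polynomial.map_mul, Polynomial.map_pow, map_C, map_pow,
      eq_intCast (Int.castRingHom ℂ)] at this
    refine ⟨C (c : ℂ)⁻¹ ^ 2 * up ℂ q, ?_⟩
    simp only [up]
    linear_combination C (c : ℂ)⁻¹ ^ 2 * this + (C (c : ℂ) * C (c : ℂ)⁻¹ + 1)
      * map (Int.castRingHom ℂ) f * map (Int.castRingHom ℂ) f' * hcc
  · have b1 := hG.2 z (by rwa [hae])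
    have b2 := (h2 z hz).1
    rw [hae, hae] at b1
    have b3 : ‖(C (c : ℂ)⁻¹ * up ℂ G).eval z / (up ℂ f).eval z - 1‖ ≤ 1 / 10 := by
      rw [eval_mul, eval_C, show (c : ℂ)⁻¹ * (up ℂ G).eval z / (up ℂ f).eval z - 1
        = ((up ℂ G).eval z - c * (up ℂ f).eval z) / (c * (up ℂ f).eval z) by field_simp,
        norm_div, norm_mul, hcn, div_le_iff₀ (mul_pos hcR (norm_pos_iff.2 b2))]
      linarith
    have b4 := (abs_le.1 ((Complex.abs_re_le_norm _).trans b3)).1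
    rw [Complex.sub_re, Complex.one_re] at b4
    linarith
  · obtain ⟨q, hq⟩ := hE
    have := congrArg (up ℂ) hq
    simp only [up, Polynomial.map_sub, Polynomial.map_mul, Polynomial.map_pow, map_C,
      Polynomial.map_add, Polynomial.map_ofNat, eq_intCast (Int.castRingHom ℂ)] at this
    refine ⟨-C (c : ℂ)⁻¹ * up ℂ q, ?_⟩
    simp only [up]
    linear_combination -C (c : ℂ)⁻¹ * this
      + (map (Int.castRingHom ℂ) f + map (Int.castRingHom ℂ) f') * hcc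

end Pool.Agent.VW
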