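import Pool.Agent.P.MP_b0ea37_nt.WDefs

namespace Pool.Agent.VW

open Polynomial

theorem cc1_res_prod {S : Type} [CommRing S] [Nontrivial S] {n : ℕ} (θ : Fin n → S) (G : S[X])
    (m : ℕ) (hm : G.natDegree ≤ m) :
    resultant (∏ i, (X - C (θ i))) G n m = ∏ i, G.eval (θ i) := by
  have h1 : (∏ i : Fin n, (X - C (θ i))).natDegree = n := by
    rw [natDegree_prod_of_monic _ _ (fun i _ => monic_X_sub_C (θ i))]
    simp
  have h2 := resultant_prod_left Finset.univ (fun i : Fin n => X - C (θ i)) G m (by simp) hm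
  rw [h1] at h2
  rw [h2]
  refine Finset.prod_congr rfl fun i _ => ?_
  rw [natDegree_X_sub_C, resultant_X_sub_C_left _ _ _ hm]

/-- the coefficients of the characteristic polynomial of `a + s q` are rational polynomials in `s` -/
theorem cc1_res {n : ℕ} {f : ℤ[X]} {θ : Fin n → ℂ} (h : Roots (up ℂ f) θ) (a q : ℚ[X]) :
    ∃ P : ℚ[X][X], ∀ (s : ℂ) (j : ℕ),
      (∏ i, (X - C (aeval (θ i) a + s * aeval (θ i) q))).coeff j = aeval s (P.coeff j) := by
  let ι : ℚ →+* ℚ[X][X] := (C : ℚ[X] →+* ℚ[X][X]).comp C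
  let G : ℚ[X][X][X] := C X - a.map ι - C (C X) * q.map ι
  refine ⟨resultant (up ℚ[X][X] f) G n G.natDegree, fun s j => ?_⟩
  let ψ : ℚ[X] →+* ℂ := (aeval s : ℚ[X] →ₐ[ℚ] ℂ).toRingHom
  let φ : ℚ[X][X] →+* ℂ[X] := mapRingHom ψ
  have e1 : (up ℚ[X][X] f).map φ = ∏ i, (X - C (C (θ i))) := by
    have : (up ℚ[X][X] f).map φ = (up ℂ f).map C := by
      simp only [up, Polynomial.map_map]
      congr 1
      exact Subsingleton.elim _ _
    rw [this, h, Polynomial.map_prod]
    simp
  have e2 : ∀ (b : ℚ[X]) (z : ℂ), ((b.map ι).map φ).eval (C z) = C (aeval z b) := by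
    intro b z
    have : φ.comp ι = (C : ℂ →+* ℂ[X]).comp (algebraMap ℚ ℂ) := Subsingleton.elim _ _
    rw [Polynomial.map_map, this, ← Polynomial.map_map, eval_map, eval₂_hom, eval_map_algebraMap]
  have e3 : φ (resultant (up ℚ[X][X] f) G n G.natDegree) =
      ∏ i, (X - C (aeval (θ i) a + s * aeval (θ i) q)) := by
    rw [← resultant_map_map, e1, cc1_res_prod _ _ _ natDegree_map_le]
    refine Finset.prod_congr rfl fun i _ => ?_
    simp only [G, Polynomial.map_sub, Polynomial.map_mul, map_C, eval_sub, eval_mul, eval_C, e2]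
    simp [φ, ψ]
    ring
  rw [← e3]
  simp [φ, ψ]

theorem cc1_int {ι : Type} (s : Finset ι) (u : ι → ℂ) (hu : ∀ i ∈ s, IsIntegral ℤ (u i)) (j : ℕ) :
    IsIntegral ℤ ((∏ i ∈ s, (X - C (u i))).coeff j) := by
  classical
  induction s using Finset.induction_on generalizing j with
  | empty =>
    simp only [Finset.prod_empty, coeff_one]
    split_ifs
    · exact isIntegral_one
    · exact isIntegral_zero
  | insert a s ha ih =>
    rw [Finset.prod_insert ha, coeff_mul]
    refine IsIntegral.sum _ fun x _ => IsIntegral.mul ?_ (ih (fun i hi => hu i (by simp [hi])) _)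
    rw [coeff_sub, coeff_X, coeff_C]
    refine IsIntegral.sub ?_ ?_
    · split_ifs
      · exact isIntegral_one
      · exact isIntegral_zero
    · split_ifs
      · exact hu a (by simp)
      · exact isIntegral_zero

theorem cc1_int_of_rat (r : ℚ) (h : IsIntegral ℤ (r : ℂ)) : ∃ z : ℤ, (z : ℂ) = r := by
  have h1 : IsIntegral ℤ r := by
    have : IsIntegral ℤ (algebraMap ℚ ℂ r) := by simpa using h
    exact (isIntegral_algebraMap_iff (algebraMap ℚ ℂ).injective).1 this
  obtain ⟨z, hz⟩ := (IsIntegrallyClosed.isIntegral_iff (R := ℤ) (K := ℚ)).1 h1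
  exact ⟨z, by rw [← hz]; simp⟩

theorem cc1_pm (P : ℚ[X]) (s : ℂ) (D : ℤ) (hs : s ^ 2 = D) :
    ∃ a b : ℚ, aeval s P = a + b * s ∧ aeval (-s) P = a - b * s := by
  induction P using Polynomial.induction_on' with
  | add p q hp hq =>
    obtain ⟨a, b, h1, h2⟩ := hp
    obtain ⟨a', b', h1', h2'⟩ := hq
    refine ⟨a + a', b + b', ?_, ?_⟩
    · rw [map_add, h1, h1']; push_cast; ring
    · rw [map_add, h2, h2']; push_cast; ring
  | monomial k c =>
    have hk : ∃ a b : ℚ, s ^ k = a + b * s ∧ (-s) ^ k = a - b * s := by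
      induction k with
      | zero => exact ⟨1, 0, by simp, by simp⟩
      | succ k ih =>
        obtain ⟨a, b, h1, h2⟩ := ih
        refine ⟨b * D, a, ?_, ?_⟩
        · rw [pow_succ, h1]; push_cast; rw [← hs]; ring
        · rw [pow_succ, h2]; push_cast; rw [← hs]; ring
    obtain ⟨a, b, h1, h2⟩ := hk
    refine ⟨c * a, c * b, ?_, ?_⟩
    · rw [aeval_monomial, h1]; push_cast; simp; ring
    · rw [aeval_monomial, h2]; push_cast; simp; ring

theorem cc1_reflect {ι : Type} (s : Finset ι) (u w : ι → ℂ) (D : ℂ) (h : ∀ i ∈ s, u i * w i = D) :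
    reflect s.card ((∏ i ∈ s, (X - C (w i))).comp (C D * X)) =
      C (∏ i ∈ s, (-w i)) * ∏ i ∈ s, (X - C (u i)) := by
  classical
  induction s using Finset.induction_on with
  | empty => simp
  | insert a s ha ih =>
    have hd : ((∏ i ∈ s, (X - C (w i))).comp (C D * X)).natDegree ≤ s.card := by
      refine natDegree_comp_le.trans ?_
      rw [natDegree_prod_of_monic _ _ (fun i _ => monic_X_sub_C (w i))]
      have : (C D * X : ℂ[X]).natDegree ≤ 1 := by compute_degree
      simpa using Nat.mul_le_mul_left s.card this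
    have hd1 : ((X - C (w a)).comp (C D * X) : ℂ[X]).natDegree ≤ 1 := by
      simp only [sub_comp, X_comp, C_comp]
      compute_degree
    rw [Finset.prod_insert ha, Finset.prod_insert ha, Finset.prod_insert ha, mul_comp,
      Finset.card_insert_of_notMem ha, add_comm, reflect_mul _ _ hd1 hd,
      ih fun i hi => h i (by simp [hi])]
    have : reflect 1 ((X - C (w a)).comp (C D * X) : ℂ[X]) = C (-w a) * (X - C (u a)) := by
      simp only [sub_comp, X_comp, C_comp, reflect_sub, reflect_C_mul, reflect_one_X, reflect_C]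
      rw [← h a (by simp)]
      simp only [map_mul, map_neg]
      ring
    rw [this, map_mul]
    ring

/-- low coefficients of one product from the high coefficients of the other -/
theorem cc1_sym {n : ℕ} (u w : Fin n → ℂ) (D : ℂ) (h : ∀ i, u i * w i = D) (j : ℕ) (hj : j ≤ n) :
    (∏ i, (X - C (w i))).coeff 0 * (∏ i, (X - C (u i))).coeff j =
      (∏ i, (X - C (w i))).coeff (n - j) * D ^ (n - j) := by
  have h1 := congrArg (fun p => coeff p j) (cc1_reflect Finset.univ u w D fun i _ => h i)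
  simp only [Finset.card_univ, Fintype.card_fin, coeff_reflect, revAt_le hj, coeff_C_mul,
    comp_C_mul_X_coeff] at h1
  rw [h1, coeff_zero_prod]
  simp

theorem cc1_transfer {n : ℕ} (u u' : Fin n → ℂ)
    (h : ∏ i, (X - C (u i)) = ∏ i, (X - C (u' i))) (φ : ℂ → ℂ) :
    ∏ i, (X - C (φ (u i))) = ∏ i, (X - C (φ (u' i))) := by
  have key : ∀ v : Fin n → ℂ, ∏ i, (X - C (φ (v i))) =
      (((∏ i, (X - C (v i))).roots).map fun z => X - C (φ z)).prod := by
    intro v
    have : (∏ i, (X - C (v i))) = ((Finset.univ.val.map v).map fun a => X - C a).prod := by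
      rw [Multiset.map_map]; rfl
    rw [this, roots_multiset_prod_X_sub_C, Multiset.map_map]
    rfl
  rw [key, key, h]

end Pool.Agent.VW
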