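import Pool.Agent.P.MP_b0ea37_nt.WHt
import Pool.Agent.P.MP_b0ea37_nt.WCnt
import Pool.Agent.P.MP_b0ea37_nt.WMcc1

namespace Pool.Agent.VW

open Polynomial

theorem cc2_near (a : ℤ) (z : ℂ) (R : ℝ) (h : ‖(a : ℂ) - z‖ ≤ R) : |(a : ℝ) - z.re| ≤ R := by
  have := Complex.abs_re_le_norm ((a : ℂ) - z)
  simp only [Complex.sub_re, Complex.intCast_re] at this
  exact this.trans h

theorem cc2_pair (s : ℂ) (S T₁ T₂ : ℝ) (hs : s ≠ 0) (hS : ‖s‖ ≤ S) (hS1 : 1 ≤ S) (h₁ : 1 ≤ T₁)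
    (h₂ : 1 ≤ T₂) :
    Cnt (fun z : ℤ × ℤ => ∃ e e' : ℂ, ‖e‖ ≤ T₁ ∧ ‖e'‖ ≤ T₂ ∧ (z.1 : ℂ) = s * (e - e') ∧
      (z.2 : ℂ) = e + e') (25 * S * (T₁ * T₂)) := by
  have hb : Cnt (fun b : ℤ => |(b : ℝ)| ≤ S * (T₁ + T₂)) (2 * (S * (T₁ + T₂)) + 1) :=
    cnt_int_abs _ (by positivity)
  have hz : ∀ (z : ℤ × ℤ) (e e' : ℂ), ‖e‖ ≤ T₁ → ‖e'‖ ≤ T₂ → (z.1 : ℂ) = s * (e - e') →
      |(z.1 : ℝ)| ≤ S * (T₁ + T₂) := by
    intro z e e' he he' h
    rw [← Complex.norm_intCast, h, norm_mul]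
    exact mul_le_mul hS ((norm_sub_le _ _).trans (add_le_add he he')) (norm_nonneg _) (by linarith)
  rcases le_total T₁ T₂ with h | h
  · refine (hb.prod (Q := fun b a : ℤ => |(a : ℝ) - (-(b : ℂ) / s).re| ≤ 2 * T₁)
      (B' := 2 * (2 * T₁) + 1) (by positivity)
      fun b _ => cnt_int_near _ _ (by positivity)).mono ?_ ?_
    · rintro z ⟨e, e', he, he', h1, h2⟩
      refine ⟨hz z e e' he he' h1, cc2_near _ _ _ ?_⟩
      have : (z.2 : ℂ) - -(z.1 : ℂ) / s = 2 * e := by rw [h1, h2]; field_simp; ring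
      rw [this, norm_mul]
      simp only [Complex.norm_ofNat]
      linarith
    · have a1 : 2 * (S * (T₁ + T₂)) + 1 ≤ 5 * (S * T₂) := by nlinarith
      have a2 : 2 * (2 * T₁) + 1 ≤ 5 * T₁ := by linarith
      calc _ ≤ (5 * (S * T₂)) * (5 * T₁) := mul_le_mul a1 a2 (by positivity) (by positivity)
        _ = _ := by ring
  · refine (hb.prod (Q := fun b a : ℤ => |(a : ℝ) - ((b : ℂ) / s).re| ≤ 2 * T₂)
      (B' := 2 * (2 * T₂) + 1) (by positivity)
      fun b _ => cnt_int_near _ _ (by positivity)).mono ?_ ?_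
    · rintro z ⟨e, e', he, he', h1, h2⟩
      refine ⟨hz z e e' he he' h1, cc2_near _ _ _ ?_⟩
      have : (z.2 : ℂ) - (z.1 : ℂ) / s = 2 * e' := by rw [h1, h2]; field_simp; ring
      rw [this, norm_mul]
      simp only [Complex.norm_ofNat]
      linarith
    · have a1 : 2 * (S * (T₁ + T₂)) + 1 ≤ 5 * (S * T₁) := by nlinarith
      have a2 : 2 * (2 * T₂) + 1 ≤ 5 * T₂ := by linarith
      calc _ ≤ (5 * (S * T₁)) * (5 * T₂) := mul_le_mul a1 a2 (by positivity) (by positivity)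
        _ = _ := by ring

theorem cc2_root {n : ℕ} {f : ℤ[X]} {θ : Fin n → ℂ} (h : Roots (up ℂ f) θ) (i : Fin n) :
    aeval (θ i) f = 0 := by
  have := (h.eval_eq_zero_iff (θ i)).2 ⟨i, rfl⟩
  rwa [up, ← algebraMap_int_eq, eval_map_algebraMap] at this

theorem cc2_up (z : ℂ) (g : ℤ[X]) : aeval z (up ℚ g) = aeval z g := by
  rw [up, ← algebraMap_int_eq, aeval_map_algebraMap]

theorem cc2_sq {n : ℕ} {f c : ℤ[X]} {θ : Fin n → ℂ} (h : Roots (up ℂ f) θ) {q : ℚ[X]}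
    (hq : up ℚ f ∣ q ^ 2 + up ℚ c) (i : Fin n) : (aeval (θ i) q) ^ 2 = -aeval (θ i) c := by
  obtain ⟨g, hg⟩ := hq
  have := congrArg (aeval (θ i)) hg
  rw [map_add, map_mul, map_pow, cc2_up, cc2_up, cc2_root h, zero_mul] at this
  linear_combination this

theorem cc2_coeff_le {n : ℕ} (u : Fin n → ℂ) (j : ℕ) :
    ‖(∏ i, (X - C (u i))).coeff j‖ ≤ 2 ^ n * ∏ i, max 1 ‖u i‖ := by
  have := sup_prod_X_sub_C Finset.univ u
  rw [Finset.card_univ, Fintype.card_fin] at this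
  exact (le_supNorm _ j).trans this

theorem cc2_one_le {n : ℕ} (u : Fin n → ℂ) : 1 ≤ ∏ i, max 1 ‖u i‖ :=
  Finset.one_le_prod fun _ _ => le_max_left _ _

theorem cc2_coeff_abs (c : ℤ[X]) (j : ℕ) : ‖((c.coeff j : ℤ) : ℂ)‖ ≤ c.supNorm := by
  rw [Complex.norm_intCast, ← Int.norm_eq_abs]
  exact le_supNorm _ j

theorem cc2_up_inj {f f' : ℤ[X]} (h : up ℂ f = up ℂ f') : f = f' :=
  Polynomial.map_injective _ (RingHom.injective_int _) h

/-- the linear case -/
theorem cc2_lin (n : ℕ) (c : ℤ[X]) (hc : c.natDegree = 1) (om H : ℝ) (hom : 1 ≤ om)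
    (hcom : c.supNorm ≤ om) (hH : 1 ≤ H) :
    Cnt (fun f : ℤ[X] => f.Monic ∧ f.natDegree = n ∧ f.supNorm ≤ H ∧
      ∃ q : ℚ[X], up ℚ f ∣ q ^ 2 + up ℚ c)
      ((2 * (2 ^ n * ((2 * om) ^ n * (n + 1) * √H)) + 1) ^ n) := by
  set T : ℝ := 2 ^ n * ((2 * om) ^ n * (n + 1) * √H) with hT
  have hc1 : ((c.coeff 1 : ℤ) : ℂ) ≠ 0 := by
    have : c ≠ 0 := by rintro rfl; simp at hc
    have h2 := leadingCoeff_ne_zero.2 this
    rw [leadingCoeff, hc] at h2
    exact_mod_cast h2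
  have hev : ∀ z : ℂ, aeval z c = c.coeff 0 + c.coeff 1 * z := by
    intro z
    rw [aeval_eq_sum_range' (n := 2) (by omega)]
    simp [Finset.sum_range_succ]
  have hpi := Cnt.pi (ι := Fin n) (P := fun _ (t : ℤ) => |(t : ℝ)| ≤ T) (B := fun _ => 2 * T + 1)
    fun _ => cnt_int_abs T (by positivity)
  rw [Finset.prod_const, Finset.card_univ, Fintype.card_fin] at hpi
  refine hpi.rel (fun f z => ∃ β : Fin n → ℂ,
    up ℂ f = ∏ i, (X - C ((fun b : ℂ => -(b ^ 2 + (c.coeff 0 : ℤ)) / (c.coeff 1 : ℤ)) (β i))) ∧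
      ∀ j : Fin n, (∏ i, (X - C (β i))).coeff j = ((z j : ℤ) : ℂ)) ?_ ?_
  · rintro f ⟨hm, hn, hf, q, hq⟩
    obtain ⟨θ, hθ⟩ := exists_roots (up ℂ f) (hm.map _) (by rw [hm.natDegree_map, hn])
    have hβ := cc2_sq hθ hq
    obtain ⟨P, hP⟩ := cc1_res hθ q 0
    have hint : ∀ j : Fin n, ∃ z : ℤ, (∏ i, (X - C (aeval (θ i) q))).coeff j = (z : ℂ) := by
      intro j
      have h0 := hP 0 j
      simp only [zero_mul, add_zero] at h0
      have h1 : IsIntegral ℤ ((∏ i, (X - C (aeval (θ i) q))).coeff j) := by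
        refine cc1_int _ _ (fun i _ => ?_) _
        have hθi : IsIntegral ℤ (θ i) := ⟨f, hm, cc2_root hθ i⟩
        refine IsIntegral.of_pow (n := 2) (by norm_num) ?_
        rw [hβ i, hev]
        exact ((isIntegral_algebraMap (x := c.coeff 0)).add
          ((isIntegral_algebraMap (x := c.coeff 1)).mul hθi)).neg
      have h2 : aeval (0 : ℂ) (P.coeff j) = (((P.coeff j).coeff 0 : ℚ) : ℂ) := by
        rw [← coeff_zero_eq_aeval_zero']; simp
      rw [h0, h2] at h1 ⊢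
      obtain ⟨z, hz⟩ := cc1_int_of_rat _ h1
      exact ⟨z, hz.symm⟩
    choose z hz using hint
    refine ⟨z, fun j => ?_, fun i => aeval (θ i) q, ?_, hz⟩
    · rw [← Complex.norm_intCast, ← hz j]
      refine (cc2_coeff_le _ _).trans (mul_le_mul_of_nonneg_left ?_ (by positivity))
      have h1 : (∏ i, max 1 ‖aeval (θ i) q‖) ^ 2 ≤ (2 * om) ^ n * ((n + 1) * H) := by
        rw [← Finset.prod_pow]
        calc _ ≤ ∏ i, (2 * om * max 1 ‖θ i‖) := by
              refine Finset.prod_le_prod (fun i _ => by positivity) fun i _ => ?_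
              have m1 := le_max_left 1 ‖θ i‖
              have m2 := le_max_right 1 ‖θ i‖
              rcases le_total 1 ‖aeval (θ i) q‖ with h | h
              · rw [max_eq_right h, ← norm_pow, hβ i, norm_neg, hev]
                have b0 := (cc2_coeff_abs c 0).trans hcom
                have b1 := (cc2_coeff_abs c 1).trans hcom
                refine (norm_add_le _ _).trans ?_
                rw [norm_mul]
                have : ‖((c.coeff 1 : ℤ) : ℂ)‖ * ‖θ i‖ ≤ om * max 1 ‖θ i‖ :=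
                  mul_le_mul b1 m2 (norm_nonneg _) (by linarith)
                nlinarith
              · rw [max_eq_left h]; nlinarith
          _ = (2 * om) ^ n * ∏ i, max 1 ‖θ i‖ := by
              rw [Finset.prod_mul_distrib, Finset.prod_const, Finset.card_univ, Fintype.card_fin]
          _ ≤ _ := by
              refine mul_le_mul_of_nonneg_left (hθ.prod_max_le.trans ?_) (by positivity)
              exact mul_le_mul_of_nonneg_left hf (by positivity)
      refine abs_le_of_sq_le_sq' (h1.trans ?_) (by positivity) |>.2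
      have a1 : (1 : ℝ) ≤ (2 * om) ^ n * (n + 1) :=
        one_le_mul_of_one_le_of_one_le (one_le_pow₀ (by linarith)) (by linarith [Nat.cast_nonneg (α := ℝ) n])
      rw [mul_pow _ √H, Real.sq_sqrt (by linarith), ← mul_assoc]
      exact mul_le_mul_of_nonneg_right (by nlinarith) (by linarith)
    · rw [hθ]
      refine Finset.prod_congr rfl fun i _ => ?_
      congr 2
      simp only
      rw [hβ i, hev]
      field_simp
      ring
  · rintro f f' z ⟨hm, hn, -⟩ ⟨hm', hn', -⟩ ⟨β, h1, h2⟩ ⟨β', h1', h2'⟩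
    apply cc2_up_inj
    rw [h1, h1']
    refine cc1_transfer β β' ?_ (fun b : ℂ => -(b ^ 2 + (c.coeff 0 : ℤ)) / (c.coeff 1 : ℤ))
    have md : ∀ b : Fin n → ℂ, (∏ i, (X - C (b i))).Monic ∧ (∏ i, (X - C (b i))).natDegree = n :=
      fun b => ⟨monic_prod_of_monic _ _ fun i _ => monic_X_sub_C _, by
        rw [natDegree_prod_of_monic _ _ (fun i _ => monic_X_sub_C (b i))]; simp⟩
    ext j
    rcases lt_trichotomy j n with hj | hj | hj
    · rw [h2 ⟨j, hj⟩, h2' ⟨j, hj⟩]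
    · have e1 := (md β).1.coeff_natDegree
      have e2 := (md β').1.coeff_natDegree
      rw [(md _).2] at e1 e2
      rw [hj, e1, e2]
    · rw [coeff_eq_zero_of_natDegree_lt (by rw [(md _).2]; exact hj),
        coeff_eq_zero_of_natDegree_lt (by rw [(md _).2]; exact hj)]

end Pool.Agent.VW
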