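import Pool.Agent.P.MP_b0ea37_nt.WMloc

namespace Pool.Agent.VW

open Polynomial Matrix

theorem wmeqv_mat {d : ℕ} {al : Fin d → ℂ} {E : Matrix (Fin d) (Fin d) ℂ}
    {A : Matrix (Fin d) (Fin d) ℤ} (h : ∀ a b, (A a b : ℂ) = ∑ k, al k * E a k * E b k) :
    A.map (Int.cast : ℤ → ℂ) = E * diagonal al * Eᵀ := by
  ext a b
  rw [map_apply, h, mul_apply]
  refine Finset.sum_congr rfl fun k _ => ?_
  rw [mul_diagonal, transpose_apply]
  ring

theorem wmeqv_map {d : ℕ} (U V : Matrix (Fin d) (Fin d) ℤ) : (U * V).map (Int.cast : ℤ → ℂ) =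
    U.map (Int.cast : ℤ → ℂ) * V.map (Int.cast : ℤ → ℂ) :=
  Matrix.map_mul (f := Int.castRingHom ℂ)

theorem wmeqv_conj {d : ℕ} {al al' : Fin d → ℂ} {E E' W : Matrix (Fin d) (Fin d) ℂ}
    {A A' U : Matrix (Fin d) (Fin d) ℤ} (h : ∀ a b, (A a b : ℂ) = ∑ k, al k * E a k * E b k)
    (h' : ∀ a b, (A' a b : ℂ) = ∑ k, al' k * E' a k * E' b k) (h₁ : U * A * Uᵀ = A')
    (hE : IsUnit E'.det) (hW : U.map (Int.cast : ℤ → ℂ) * E = E' * W) :
    W * diagonal al * Wᵀ = diagonal al' := by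
  have e := congrArg (fun M => M.map (Int.cast : ℤ → ℂ)) h₁
  simp only [wmeqv_map, wmeqv_mat h, wmeqv_mat h', transpose_map] at e
  have u1 : IsUnit E' := (isUnit_iff_isUnit_det _).2 hE
  have u2 : IsUnit E'ᵀ := (isUnit_iff_isUnit_det _).2 (by rwa [det_transpose])
  refine u1.mul_left_cancel (u2.mul_right_cancel ?_)
  rw [← e]
  calc E' * (W * diagonal al * Wᵀ) * E'ᵀ = (E' * W) * diagonal al * (E' * W)ᵀ := by
        simp only [transpose_mul, Matrix.mul_assoc]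
    _ = _ := by simp only [← hW, transpose_mul, Matrix.mul_assoc]

/-- a base change between two diagonal forms of the same pencil is diagonal -/
theorem eqv_diag {d : ℕ} {η al al' : Fin d → ℂ} (hη : Function.Injective η)
    {E E' : Matrix (Fin d) (Fin d) ℂ} {A B A' B' U : Matrix (Fin d) (Fin d) ℤ}
    (hG : Gr E al η A B) (hG' : Gr E' al' η A' B') (hA : A'.det ≠ 0) (h₁ : U * A * Uᵀ = A')
    (h₂ : U * B * Uᵀ = B') : ∃ κ : Fin d → ℂ, (∀ k, κ k ≠ 0 ∧ al' k = κ k ^ 2 * al k) ∧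
      U.map (Int.cast : ℤ → ℂ) * E = E' * Matrix.diagonal κ := by
  have d1 : (E' * diagonal al' * E'ᵀ).det ≠ 0 := by
    rw [← wmeqv_mat hG'.1]
    have e := (Int.castRingHom ℂ).map_det A'
    rw [RingHom.mapMatrix_apply] at e
    exact e ▸ Int.cast_ne_zero.2 hA
  rw [det_mul, det_mul] at d1
  have hE : IsUnit E'.det := (left_ne_zero_of_mul (left_ne_zero_of_mul d1)).isUnit
  have hD : (diagonal al').det ≠ 0 := right_ne_zero_of_mul (left_ne_zero_of_mul d1)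
  obtain ⟨W, hW⟩ : ∃ W, U.map (Int.cast : ℤ → ℂ) * E = E' * W :=
    ⟨E'⁻¹ * (U.map (Int.cast : ℤ → ℂ) * E), (mul_nonsing_inv_cancel_left _ _ hE).symm⟩
  have e1 := wmeqv_conj hG.1 hG'.1 h₁ hE hW
  have e2 := wmeqv_conj (al := fun k => al k * η k) (al' := fun k => al' k * η k) hG.2 hG'.2 h₂
    hE hW
  have u : IsUnit (diagonal al * Wᵀ) := by
    refine (isUnit_iff_isUnit_det _).2 (Ne.isUnit fun h0 => hD ?_)
    rw [← e1, Matrix.mul_assoc, det_mul, h0, mul_zero]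
  have e3 : W * diagonal η = diagonal η * W := by
    refine u.mul_right_cancel ?_
    calc W * diagonal η * (diagonal al * Wᵀ) = W * diagonal (fun k => al k * η k) * Wᵀ := by
          rw [Matrix.mul_assoc, Matrix.mul_assoc, ← Matrix.mul_assoc (diagonal η),
            diagonal_mul_diagonal]
          simp only [mul_comm]
      _ = diagonal η * diagonal al' := by
          rw [e2, diagonal_mul_diagonal]
          simp only [mul_comm]
      _ = _ := by rw [← e1]; simp only [Matrix.mul_assoc]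
  obtain ⟨κ, rfl⟩ : ∃ κ, W = diagonal κ := by
    refine ⟨fun k => W k k, Matrix.ext fun i j => ?_⟩
    by_cases hij : i = j
    · rw [hij, diagonal_apply_eq]
    · have e4 := congrFun (congrFun e3 i) j
      rw [mul_diagonal, diagonal_mul, mul_comm] at e4
      rw [diagonal_apply_ne _ hij]
      exact (mul_eq_mul_right_iff.1 e4).resolve_left fun e5 => hij (hη e5).symm
  rw [diagonal_transpose, diagonal_mul_diagonal, diagonal_mul_diagonal] at e1
  have e5 : ∀ k, al' k = κ k ^ 2 * al k := fun k => by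
    rw [← congrFun (diagonal_injective e1) k]
    ring
  refine ⟨κ, fun k => ⟨fun h0 => hD ?_, e5 k⟩, hW⟩
  rw [det_diagonal]
  exact Finset.prod_eq_zero (Finset.mem_univ k) (by rw [e5, h0]; ring)

theorem wmeqv_row {n d g : ℕ} (hd : 1 ≤ d) {v : ℤ[X]} {D₀ D D' : Dat} (h₀ : Ok n d D₀)
    (h : Ok n d D) (h' : Ok n d D') (e₀ : D₀.v = v) (e : D.v = v) (e' : D'.v = v)
    {η : Fin d → ℂ} (hη : Lst v η) {E E' : Matrix (Fin d) (Fin d) ℂ}
    (hE : Glued (fun p => Eloc d g p D₀ D η) E) (hE' : Glued (fun p => Eloc d g p D₀ D' η) E')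
    {U : Matrix (Fin d) (Fin d) ℤ} {κ : ℂ → ℂ}
    (hU : U.map (Int.cast : ℤ → ℂ) * E = E' * diagonal fun k => κ (η k)) {p : ℕ} (hp : p.Prime) :
    InR d p v fun z => κ z * pz d p D z / pz d p D' z := by
  have hv : VOk d v := e ▸ h.1
  have v0 : v ≠ 0 := leadingCoeff_ne_zero.1 hv.2.2.1.ne'
  obtain ⟨N, U₁, -, hN, a1, -⟩ := hE p hp
  obtain ⟨N', -, U₂, hN', -, a2⟩ := hE' p hp
  have key : ((N * N' : ℤ) : ℂ) • (Eloc d g p D₀ D' η * diagonal fun k => κ (η k)) =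
      (U₂ * U * U₁).map (Int.cast : ℤ → ℂ) * Eloc d g p D₀ D η := by
    rw [wmeqv_map, wmeqv_map, Matrix.mul_assoc, ← a1, Matrix.mul_smul, Matrix.mul_assoc, hU,
      ← Matrix.mul_assoc, ← a2, Matrix.smul_mul, smul_smul, Int.cast_mul]
  refine ⟨N * N', ∑ a : Fin d, C ((U₂ * U * U₁) ⟨0, hd⟩ a) * X ^ (a : ℕ), fun hdv => ?_,
    fun z hz => ?_⟩
  · exact ((Nat.prime_iff_prime_int.1 hp).dvd_or_dvd hdv).elim hN hN'
  obtain ⟨k, rfl⟩ := (hη.root_iff v0 z).1 hz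
  have p0 := pz_ne_zero (p := p) h₀ (e₀ ▸ hz)
  have p1 := pz_ne_zero (p := p) h (e ▸ hz)
  have p2 := pz_ne_zero (p := p) h' (e' ▸ hz)
  have z0 := pow_ne_zero g (zt_ne_zero hv hp hz)
  have k1 := congrFun (congrFun key ⟨0, hd⟩) k
  rw [Matrix.smul_apply, mul_diagonal, mul_apply] at k1
  simp only [Eloc, of_apply, e, e', map_apply, smul_eq_mul, pow_zero, mul_one] at k1
  simp only [map_sum, map_mul, map_pow, aeval_X, eq_intCast, map_intCast]
  refine mul_left_cancel₀ (div_ne_zero (div_ne_zero p0 p1) z0) ?_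
  rw [Finset.mul_sum]
  refine Eq.trans ?_ (k1.trans (Finset.sum_congr rfl fun a _ => by ring))
  field_simp

theorem eqv_sq {n d g : ℕ} (hd : 1 ≤ d) {D₀ D D' : Dat} (h₀ : Ok n d D₀) (h : Ok n d D)
    (h' : Ok n d D') (e : D₀.v = D.v) (e' : D.v = D'.v) {η : Fin d → ℂ} (hη : Lst D.v η)
    {E E' : Matrix (Fin d) (Fin d) ℂ} (hE : Glued (fun p => Eloc d g p D₀ D η) E)
    (hE' : Glued (fun p => Eloc d g p D₀ D' η) E') {A B A' B' U : Matrix (Fin d) (Fin d) ℤ}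
    (hG : Gr E (alf D₀ D η) η A B) (hG' : Gr E' (alf D₀ D' η) η A' B') (hA : A'.det ≠ 0)
    (hU : IsUnit U.det) (h₁ : U * A * Uᵀ = A') (h₂ : U * B * Uᵀ = B') :
    ∃ κ : ℂ → ℂ, Sq d D D' κ := by
  have hi := hη.injective h.1
  have v0 : D.v ≠ 0 := leadingCoeff_ne_zero.1 h.1.2.2.1.ne'
  obtain ⟨κ₀, k1, k2⟩ := eqv_diag hi hG hG' hA h₁ h₂
  obtain ⟨κ, hκ⟩ : ∃ κ : ℂ → ℂ, κ₀ = fun k => κ (η k) :=
    ⟨Function.extend η κ₀ 0, funext fun k => (hi.extend_apply _ _ k).symm⟩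
  subst hκ
  refine ⟨κ, e', fun z hz => ?_, fun p hp => ⟨wmeqv_row hd h₀ h h' e rfl e'.symm hη hE hE' k2 hp,
    ?_⟩⟩
  · obtain ⟨k, rfl⟩ := (hη.root_iff v0 z).1 hz
    have a1 := (k1 k).2
    have a2 : aeval (η k) D₀.f ≠ 0 := h₀.2.2.2.2.2.2.2.2 _ (e ▸ hz)
    have a3 : aeval (η k) (derivative D.v) ≠ 0 := by
      have := h.1.2.2.2.aeval_derivative_ne_zero (x := η k) (by simpa [up, aeval_def, eval_map] using hz)
      simpa [up, aeval_def, eval_map] using this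
    simp only [alf, ← e'] at a1
    field_simp at a1
    linear_combination a1
  · have k3 : U⁻¹.map (Int.cast : ℤ → ℂ) * E' = E * diagonal fun k => (κ (η k))⁻¹ := by
      have a1 : (diagonal fun k => κ (η k)) * (diagonal fun k => (κ (η k))⁻¹) = 1 := by
        rw [diagonal_mul_diagonal, ← diagonal_one]
        exact congrArg _ (funext fun k => mul_inv_cancel₀ (k1 k).1)
      rw [← Matrix.mul_one E', ← a1, ← Matrix.mul_assoc E', ← k2, ← Matrix.mul_assoc,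
        ← Matrix.mul_assoc, ← wmeqv_map, nonsing_inv_mul _ hU,
        Matrix.map_one _ Int.cast_zero Int.cast_one, Matrix.one_mul]
    obtain ⟨N, q, a1, a2⟩ := wmeqv_row (κ := fun z => (κ z)⁻¹) hd h₀ h' h e e'.symm rfl hη hE' hE
      k3 hp
    refine ⟨N, q, a1, fun z hz => Eq.trans ?_ (a2 z hz)⟩
    ring

end Pool.Agent.VW
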