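import Pool.Agent.P.MP_b0ea37_nt.WMloc

namespace Pool.Agent.VW

open Polynomial Matrix

/-- the lattice spanned by the rows -/
def glueL {d : ℕ} (F : Matrix (Fin d) (Fin d) ℂ) : Submodule ℤ (Fin d → ℂ) :=
  Submodule.span ℤ (Set.range fun a => F a)

theorem glue_row {d : ℕ} (F : Matrix (Fin d) (Fin d) ℂ) (a : Fin d) : F a ∈ glueL F :=
  Submodule.subset_span ⟨a, rfl⟩

theorem glue_ext {d : ℕ} {F G : Matrix (Fin d) (Fin d) ℂ} {N : ℤ} (h : ∀ a, N • F a ∈ glueL G)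
    {x : Fin d → ℂ} (hx : x ∈ glueL F) : N • x ∈ glueL G := by
  have : glueL F ≤ (glueL G).comap (LinearMap.lsmul ℤ (Fin d → ℂ) N) :=
    Submodule.span_le.2 (by rintro _ ⟨a, rfl⟩; exact h a)
  exact this hx

theorem glue_mat {d : ℕ} {F G : Matrix (Fin d) (Fin d) ℂ} {N : ℤ} (h : ∀ a, N • F a ∈ glueL G) :
    ∃ U : Matrix (Fin d) (Fin d) ℤ, (N : ℂ) • F = U.map (Int.cast : ℤ → ℂ) * G := by
  choose U hU using fun a => (Submodule.mem_span_range_iff_exists_fun ℤ).1 (h a)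
  refine ⟨Matrix.of U, ?_⟩
  ext a k
  have := congrFun (hU a) k
  simp only [Finset.sum_apply, Pi.smul_apply, zsmul_eq_mul] at this
  simp only [Matrix.smul_apply, smul_eq_mul, Matrix.mul_apply, Matrix.map_apply, Matrix.of_apply]
  exact this.symm

theorem glue_den {d : ℕ} (Q : Matrix (Fin d) (Fin d) ℚ) (G : Matrix (Fin d) (Fin d) ℂ) :
    ∃ N : ℤ, N ≠ 0 ∧ ∀ a, N • (Q.map (Rat.cast : ℚ → ℂ) * G) a ∈ glueL G := by
  refine ⟨Q.den, by exact_mod_cast Q.den_ne_zero, fun a => ?_⟩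
  refine (Submodule.mem_span_range_iff_exists_fun ℤ).2 ⟨Q.num a, ?_⟩
  ext k
  rw [Finset.sum_apply, Pi.smul_apply]
  simp only [Pi.smul_apply, Matrix.mul_apply, Matrix.map_apply, Finset.smul_sum]
  refine Finset.sum_congr rfl fun b _ => ?_
  have h0 : (Q.den : ℂ) ≠ 0 := by exact_mod_cast Q.den_ne_zero
  rw [← Q.num_div_den a b, zsmul_eq_mul, zsmul_eq_mul]
  push_cast
  field_simp

theorem glue_unif {α : Type} (S : Set α) (hS : S.Finite) (R : ℤ → α → Prop)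
    (hmul : ∀ N N' a, R N a → R (N' * N) a) (h : ∀ a ∈ S, ∃ N, N ≠ 0 ∧ R N a) :
    ∃ N, N ≠ 0 ∧ ∀ a ∈ S, R N a := by
  induction S, hS using Set.Finite.induction_on with
  | empty => exact ⟨1, one_ne_zero, fun a ha => absurd ha (Set.notMem_empty a)⟩
  | @insert a s _ _ ih =>
    obtain ⟨N, h0, h1⟩ := ih fun b hb => h b (Set.mem_insert_of_mem _ hb)
    obtain ⟨N', h2, h3⟩ := h a (Set.mem_insert _ _)
    refine ⟨N * N', mul_ne_zero h0 h2, fun b hb => ?_⟩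
    rcases hb with rfl | hb
    · exact hmul _ _ _ h3
    · exact mul_comm N' N ▸ hmul _ _ _ (h1 b hb)

/-- the vectors that lie in all localisations -/
def glueI {d : ℕ} (Ep : ℕ → Matrix (Fin d) (Fin d) ℂ) : Submodule ℤ (Fin d → ℂ) where
  carrier := {x | ∀ p : ℕ, p.Prime → ∃ N : ℤ, ¬ (p : ℤ) ∣ N ∧ N • x ∈ glueL (Ep p)}
  zero_mem' := fun p hp =>
    ⟨1, (Nat.prime_iff_prime_int.1 hp).not_dvd_one, by rw [smul_zero]; exact zero_mem _⟩
  add_mem' := by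
    intro x y hx hy p hp
    obtain ⟨N, h1, h2⟩ := hx p hp
    obtain ⟨N', h3, h4⟩ := hy p hp
    refine ⟨N * N', fun h => ((Nat.prime_iff_prime_int.1 hp).dvd_or_dvd h).elim h1 h3, ?_⟩
    rw [smul_add]
    refine add_mem ?_ ?_
    · rw [mul_comm, mul_smul]; exact Submodule.smul_mem _ _ h2
    · rw [mul_smul]; exact Submodule.smul_mem _ _ h4
  smul_mem' := by
    intro c x hx p hp
    obtain ⟨N, h1, h2⟩ := hx p hp
    exact ⟨N, h1, by rw [smul_comm]; exact Submodule.smul_mem _ _ h2⟩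

/-- a module squeezed between two multiples of a lattice has `d` generators -/
theorem glue_gen {d : ℕ} (E₀ : Matrix (Fin d) (Fin d) ℂ) (I : Submodule ℤ (Fin d → ℂ)) (N : ℤ)
    (hN : N ≠ 0) (h1 : ∀ x ∈ I, N • x ∈ glueL E₀) (h2 : ∀ x ∈ glueL E₀, N • x ∈ I) :
    ∃ E : Matrix (Fin d) (Fin d) ℂ, (∀ a, E a ∈ I) ∧ ∀ x ∈ I, x ∈ glueL E := by
  have hN' : (N : ℂ) ≠ 0 := Int.cast_ne_zero.2 hN
  obtain ⟨φ, hφ⟩ : ∃ φ : (Fin d → ℤ) →ₗ[ℤ] (Fin d → ℂ),
      ∀ c, N • φ c = ∑ a, c a • E₀ a := by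
    refine ⟨Fintype.linearCombination ℤ fun a => (N : ℂ)⁻¹ • E₀ a, fun c => ?_⟩
    rw [Fintype.linearCombination_apply, Finset.smul_sum]
    refine Finset.sum_congr rfl fun a _ => ?_
    rw [smul_comm, ← Int.cast_smul_eq_zsmul ℂ N, smul_inv_smul₀ hN']
  have hmem : ∀ c, N • N • c ∈ I.comap φ := fun c => by
    rw [Submodule.mem_comap, map_smul, map_smul, hφ]
    exact h2 _ ((Submodule.mem_span_range_iff_exists_fun ℤ).2 ⟨c, rfl⟩)
  have hr : Module.finrank ℤ (I.comap φ) = d := by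
    refine le_antisymm ((Submodule.finrank_le _).trans (by simp)) ?_
    have := LinearMap.finrank_le_finrank_of_injective (f := LinearMap.codRestrict (I.comap φ)
      ((LinearMap.lsmul ℤ (Fin d → ℤ) N).comp (LinearMap.lsmul ℤ (Fin d → ℤ) N)) hmem)
      fun c c' e => smul_right_injective _ hN (smul_right_injective _ hN (congrArg Subtype.val e))
    simpa using this
  obtain ⟨b⟩ : Nonempty (Module.Basis (Fin d) ℤ (I.comap φ)) :=
    ⟨Module.finBasisOfFinrankEq ℤ _ hr⟩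
  refine ⟨Matrix.of fun a => φ (b a), fun a => (b a).2, fun x hx => ?_⟩
  obtain ⟨c, hc⟩ := (Submodule.mem_span_range_iff_exists_fun ℤ).1 (h1 x hx)
  have e : φ c = x := smul_right_injective _ hN ((hφ c).trans hc)
  have hc' : c ∈ I.comap φ := by rw [Submodule.mem_comap, e]; exact hx
  refine (Submodule.mem_span_range_iff_exists_fun ℤ).2 ⟨b.repr ⟨c, hc'⟩, ?_⟩
  have e2 := congrArg (fun y : I.comap φ => φ y) (b.sum_repr ⟨c, hc'⟩)
  simp only [Submodule.coe_sum, Submodule.coe_smul, map_sum, map_smul] at e2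
  exact e2.trans e

/-- a lattice with finitely many prescribed localisations -/
theorem glue {d : ℕ} (E₀ : Matrix (Fin d) (Fin d) ℂ) (Ep : ℕ → Matrix (Fin d) (Fin d) ℂ)
    (hfin : (Ep '' {p | p.Prime}).Finite)
    (h : ∀ p : ℕ, p.Prime → (Ep p).det ≠ 0 ∧
      ∃ Q : Matrix (Fin d) (Fin d) ℚ, Ep p = Q.map (Rat.cast : ℚ → ℂ) * E₀) :
    ∃ E, Glued Ep E := by
  obtain ⟨N, hN, hR⟩ := glue_unif _ hfin
    (fun N F => (∀ a, N • F a ∈ glueL E₀) ∧ ∀ a, N • E₀ a ∈ glueL F)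
    (fun N N' F hF => ⟨fun a => by rw [mul_smul]; exact Submodule.smul_mem _ _ (hF.1 a),
      fun a => by rw [mul_smul]; exact Submodule.smul_mem _ _ (hF.2 a)⟩) (by
    rintro _ ⟨p, hp, rfl⟩
    obtain ⟨h0, Q, hQ⟩ := h p hp
    have hd : Q.det ≠ 0 := by
      intro e
      apply h0
      have e1 : (Q.map (Rat.cast : ℚ → ℂ)).det = (Q.det : ℂ) := ((Rat.castHom ℂ).map_det Q).symm
      rw [hQ, Matrix.det_mul, e1, e, Rat.cast_zero, zero_mul]
    have hinv : E₀ = (Q⁻¹).map (Rat.cast : ℚ → ℂ) * Ep p := by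
      have e1 : (Q⁻¹).map (Rat.cast : ℚ → ℂ) * Q.map (Rat.cast : ℚ → ℂ) = 1 := by
        have := (Matrix.map_mul (L := Q⁻¹) (M := Q) (f := Rat.castHom ℂ)).symm
        rw [Matrix.nonsing_inv_mul _ hd.isUnit, Matrix.map_one _ (map_zero _) (map_one _)] at this
        exact this
      rw [hQ, ← Matrix.mul_assoc, e1, Matrix.one_mul]
    obtain ⟨N₁, a1, a2⟩ := glue_den Q E₀
    obtain ⟨N₂, a3, a4⟩ := glue_den Q⁻¹ (Ep p)
    rw [← hQ] at a2
    rw [← hinv] at a4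
    refine ⟨N₁ * N₂, mul_ne_zero a1 a3, fun a => ?_, fun a => ?_⟩
    · rw [mul_comm, mul_smul]; exact Submodule.smul_mem _ _ (a2 a)
    · rw [mul_smul]; exact Submodule.smul_mem _ _ (a4 a))
  have hR' := fun (p : ℕ) (hp : p.Prime) => hR (Ep p) ⟨p, hp, rfl⟩
  obtain ⟨E, hE1, hE2⟩ := glue_gen E₀ (glueI Ep) N hN
    (fun x hx => mem_of_loc (glueL E₀).toAddSubgroup _ fun p hp => by
      obtain ⟨M, a1, a2⟩ := hx p hp
      exact ⟨M, a1, by rw [smul_comm]; exact glue_ext (hR' p hp).1 a2⟩)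
    (fun x hx p hp => ⟨1, (Nat.prime_iff_prime_int.1 hp).not_dvd_one, by
      rw [one_smul]; exact glue_ext (hR' p hp).2 hx⟩)
  refine ⟨E, fun p hp => ?_⟩
  have hp' := Nat.prime_iff_prime_int.1 hp
  obtain ⟨e, N₁, b1, b2⟩ := WfDvdMonoid.max_power_factor (mul_ne_zero hN hN) hp'.irreducible
  have hrow : ∀ a, N₁ • Ep p a ∈ glueI Ep := by
    intro a q hq
    have hq' := Nat.prime_iff_prime_int.1 hq
    by_cases hqp : q = p
    · exact ⟨1, hq'.not_dvd_one, by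
        rw [one_smul, hqp]; exact Submodule.smul_mem _ _ (glue_row _ a)⟩
    · refine ⟨(p : ℤ) ^ e, fun hd => hqp ((Nat.prime_dvd_prime_iff_eq hq hp).1
        (Int.natCast_dvd_natCast.1 (hq'.dvd_of_dvd_pow hd))), ?_⟩
      rw [← mul_smul, ← b2, mul_smul]
      exact glue_ext (hR' q hq).2 ((hR' p hp).1 a)
  choose M hM1 hM2 using fun a => hE1 a p hp
  have hnd : ¬ (p : ℤ) ∣ (∏ a, M a) * N₁ := fun hd => (hp'.dvd_or_dvd hd).elim (fun hd => by
    obtain ⟨a, _, ha⟩ := (hp'.dvd_finsetProd_iff M).1 hd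
    exact hM1 a ha) b1
  obtain ⟨U, hU⟩ := glue_mat (F := E) (G := Ep p) (N := (∏ a, M a) * N₁) fun a => by
    obtain ⟨k, hk⟩ := (Finset.dvd_prod_of_mem M (Finset.mem_univ a)).mul_right N₁
    rw [hk, mul_comm, mul_smul]
    exact Submodule.smul_mem _ _ (hM2 a)
  obtain ⟨U', hU'⟩ := glue_mat (F := Ep p) (G := E) (N := (∏ a, M a) * N₁) fun a => by
    rw [mul_smul]
    exact Submodule.smul_mem _ _ (hE2 _ (hrow a))
  exact ⟨_, U, U', hnd, hU, hU'⟩

end Pool.Agent.VW
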