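import Pool.Agent.P.MP_b0ea37_nt.WMgrI

namespace Pool.Agent.VW

open Polynomial Matrix

theorem WMgrD_aeval (z : ℂ) (g : ℤ[X]) : aeval z g = (up ℂ g).eval z := by
  rw [aeval_def, eval₂_eq_eval_map]
  rfl

theorem WMgrD_vdm {d : ℕ} {V : ℤ[X]} {ζ : Fin d → ℂ} (hV : Roots (up ℂ V) ζ) :
    ∃ s : ℤ, ∏ k, aeval (ζ k) (derivative V) = s * (vandermonde ζ).det ^ 2 := by
  refine ⟨∏ i : Fin d, ∏ _j ∈ Finset.Ioi i, (-1 : ℤ), ?_⟩
  have h1 : ∀ k, aeval (ζ k) (derivative V) = ∏ j ∈ ({k}ᶜ : Finset (Fin d)), (ζ k - ζ j) := by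
    intro k
    have e : up ℂ (derivative V) = derivative (Lagrange.nodal Finset.univ ζ) := by
      rw [Lagrange.nodal_eq, ← hV, derivative_map]
    rw [WMgrD_aeval, e, Lagrange.eval_nodal_derivative_eval_node_eq (Finset.mem_univ k),
      Lagrange.eval_nodal, Finset.compl_singleton]
  simp_rw [h1]
  rw [← Finset.prod_prod_Ioi_mul_eq_prod_prod_off_diag (fun j k => ζ k - ζ j), det_vandermonde]
  push_cast
  rw [← Finset.prod_pow, ← Finset.prod_mul_distrib]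
  refine Finset.prod_congr rfl fun i _ => ?_
  rw [← Finset.prod_pow, ← Finset.prod_mul_distrib]
  exact Finset.prod_congr rfl fun j _ => by ring

theorem WMgrD_norm {d : ℕ} {V : ℤ[X]} {ζ : Fin d → ℂ} (hV : Roots (up ℂ V) ζ) (w : ℤ[X]) :
    ∃ R : ℤ, ∏ k, aeval (ζ k) w = R := by
  refine ⟨resultant V w d w.natDegree, ?_⟩
  have h := resultant_roots (1 : ℂ) one_ne_zero ζ (up ℂ w) w.natDegree natDegree_map_le
  rw [C_1, one_mul, one_pow, one_mul, ← hV, resultant_map_map] at h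
  simp_rw [WMgrD_aeval]
  exact h.symm

theorem WMgrD_det {d : ℕ} {E : Matrix (Fin d) (Fin d) ℂ} {al : Fin d → ℂ}
    {A : Matrix (Fin d) (Fin d) ℤ} (h : ∀ a b, (A a b : ℂ) = ∑ k, al k * E a k * E b k) :
    (A.det : ℂ) = E.det ^ 2 * ∏ k, al k := by
  have e : A.map (Int.cast : ℤ → ℂ) = E * diagonal al * Eᵀ := by
    ext a b
    rw [map_apply, h, mul_apply]
    refine Finset.sum_congr rfl fun k _ => ?_
    rw [mul_diagonal, transpose_apply]
    ring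
  rw [Int.cast_det, e, det_mul, det_mul, det_transpose, det_diagonal]
  ring

theorem WMgrD_Eloc (d g p : ℕ) (D₀ D : Dat) (η : Fin d → ℂ) : (Eloc d g p D₀ D η).det =
    (vandermonde fun k => zt d p D.v (η k)).det *
      ∏ k, pz d p D₀ (η k) / pz d p D (η k) / zt d p D.v (η k) ^ g := by
  have e : Eloc d g p D₀ D η = (vandermonde fun k => zt d p D.v (η k))ᵀ *
      diagonal fun k => pz d p D₀ (η k) / pz d p D (η k) / zt d p D.v (η k) ^ g := by
    ext a k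
    rw [mul_diagonal, transpose_apply, vandermonde_apply, Eloc, of_apply]
    ring
  rw [e, det_mul, det_transpose, det_diagonal]

theorem WMgrD_loc {n d g : ℕ} (hd : d = 2 * g + 3) {D₀ D : Dat} (h₀ : Ok n d D₀) (h : Ok n d D)
    (hP : Pre d D D₀) {η : Fin d → ℂ} (hη : Lst D.v η) {E : Matrix (Fin d) (Fin d) ℂ}
    (hE : Glued (fun p => Eloc d g p D₀ D η) E) {A B : Matrix (Fin d) (Fin d) ℤ}
    (hG : Gr E (alf D₀ D η) η A B) {p : ℕ} (hp : p.Prime) :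
    ∃ N : ℤ, ¬ (p : ℤ) ∣ N ∧ A.det ∣ N * (cc d p D.v ^ (d - 1) * D.v.leadingCoeff) := by
  have hpi : Prime (p : ℤ) := Nat.prime_iff_prime_int.1 hp
  have hv := h.1
  have hv0 : D.v ≠ 0 := hv.2.1.ne_zero
  obtain ⟨N, U, U', hN, -, hU'⟩ := hE p hp
  obtain ⟨M, w, hM, hw⟩ := (hP.2 p hp).2
  have hr : ∀ k, aeval (η k) D.v = 0 := fun k => (hη.root_iff hv0 _).2 ⟨k, rfl⟩
  have hr₀ : ∀ k, aeval (η k) D₀.v = 0 := fun k => hP.1 ▸ hr k
  have hV := hη.roots_Vp hv hp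
  obtain ⟨s, hs⟩ := WMgrD_vdm hV
  obtain ⟨R, hR⟩ := WMgrD_norm hV w
  have h1 := WMgrD_det hG.1
  have h2 := congrArg det hU'
  rw [det_smul, det_mul, ← Int.cast_det, Fintype.card_fin, WMgrD_Eloc] at h2
  have h3 := hη.prod_zt hv hp (by omega)
  have h4 : ∀ k, (pz d p D₀ (η k) / pz d p D (η k) / zt d p D.v (η k) ^ g) ^ 2 * alf D₀ D η k *
      aeval (zt d p D.v (η k)) (derivative (Vp d p D.v)) * aeval (zt d p D.v (η k)) w =
      -(M : ℂ) * zt d p D.v (η k) := by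
    intro k
    have a1 := pz_ne_zero (p := p) h (hr k)
    have a2 := pz_ne_zero (p := p) h₀ (hr₀ k)
    have a3 := zt_ne_zero hv hp (hr k)
    have a4 := h.2.2.2.2.2.2.2.2 _ (hr k)
    have a5 := h₀.2.2.2.2.2.2.2.2 _ (hr₀ k)
    have a6 : aeval (η k) (derivative D.v) ≠ 0 := by
      have := hv.2.2.2.aeval_derivative_ne_zero (x := η k)
        (by rw [coe_aeval_eq_eval, ← WMgrD_aeval]; exact hr k)
      rwa [coe_aeval_eq_eval, derivative_map, ← WMgrD_aeval] at this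
    rw [← hw _ (hr k), deriv_Vp (by omega) hv hp (hr k), alf,
      (by omega : d - 2 = 2 * g + 1)]
    field_simp
    ring
  have h5 := Finset.prod_congr (s₁ := Finset.univ) rfl fun k _ => h4 k
  rw [Finset.prod_mul_distrib, Finset.prod_mul_distrib, Finset.prod_mul_distrib,
    Finset.prod_mul_distrib, Finset.prod_pow, hs, hR, h3, Finset.prod_const, Finset.card_univ,
    Fintype.card_fin] at h5
  refine ⟨N ^ (2 * d) * M ^ d, fun hdv => ?_, U'.det ^ 2 * s * R, ?_⟩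
  · exact (hpi.dvd_or_dvd hdv).elim (fun a => hN (hpi.dvd_of_dvd_pow a))
      fun a => hM (hpi.dvd_of_dvd_pow a)
  · have e : (-(M : ℂ)) ^ d * (-1) ^ d = (M : ℂ) ^ d := by
      rw [← mul_pow]
      congr 1
      ring
    apply Int.cast_injective (α := ℂ)
    simp only [Int.cast_mul, Int.cast_pow]
    rw [h1, ← e, pow_mul']
    have h6 := congrArg (· ^ 2) h2
    beta_reduce at h6
    generalize (N : ℂ) ^ d = x at h6 ⊢
    linear_combination (∏ k, alf D₀ D η k) * s * R * h6 - x ^ 2 * h5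

theorem gram_det {n d g : ℕ} (hd : d = 2 * g + 3) {D₀ D : Dat} (h₀ : Ok n d D₀) (h : Ok n d D)
    (hP : Pre d D D₀) {η : Fin d → ℂ} (hη : Lst D.v η) {E : Matrix (Fin d) (Fin d) ℂ}
    (hE : Glued (fun p => Eloc d g p D₀ D η) E) {A B : Matrix (Fin d) (Fin d) ℤ}
    (hG : Gr E (alf D₀ D η) η A B) :
    A.det ≠ 0 ∧ A.det ∣ D.v.leadingCoeff * (d.factorial : ℤ) ^ (d - 1) := by
  have h1 : A.det ∣ D.v.leadingCoeff * (d.factorial : ℤ) ^ (d - 1) := by
    refine dvd_of_loc _ _ fun p hp => ?_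
    have hpi : Prime (p : ℤ) := Nat.prime_iff_prime_int.1 hp
    obtain ⟨N, hN, hA⟩ := WMgrD_loc hd h₀ h hP hη hE hG hp
    obtain ⟨-, -, N₀, hN₀, e, he⟩ := goodT_tt h.1 hp
    refine ⟨N * N₀ ^ (d - 1), fun hdv => (hpi.dvd_or_dvd hdv).elim hN
      fun a => hN₀ (hpi.dvd_of_dvd_pow a), hA.trans ⟨e ^ (d - 1), ?_⟩⟩
    have h2 : N₀ ^ (d - 1) * (d.factorial : ℤ) ^ (d - 1) = cc d p D.v ^ (d - 1) * e ^ (d - 1) := by
      rw [← mul_pow, ← mul_pow, he, cc]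
    linear_combination N * D.v.leadingCoeff * h2
  refine ⟨fun h0 => ?_, h1⟩
  rw [h0, zero_dvd_iff] at h1
  exact mul_ne_zero h.1.2.2.1.ne' (pow_ne_zero _ (by exact_mod_cast d.factorial_ne_zero)) h1

end Pool.Agent.VW
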