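import Pool.Agent.P.MP_b0ea37_nt.WMloc

namespace Pool.Agent.VW

open Polynomial Matrix

theorem WMlat_fin {β γ : Type} (f : ℕ → γ) (key : ℕ → β) (s : Set ℕ) (h : (key '' s).Finite)
    (hf : ∀ a ∈ s, ∀ b ∈ s, key a = key b → f a = f b) : (f '' s).Finite := by
  refine (h.image fun κ => f (Function.invFunOn key s κ)).subset ?_
  rintro _ ⟨a, ha, rfl⟩
  exact ⟨key a, ⟨a, ha, rfl⟩, hf _ (Function.invFunOn_mem ⟨a, ha, rfl⟩) a ha
    (Function.invFunOn_eq ⟨a, ha, rfl⟩)⟩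

theorem WMlat_root {d : ℕ} {v : ℤ[X]} (hv : VOk d v) {η : Fin d → ℂ} (hη : Lst v η) (k : Fin d) :
    aeval (η k) v = 0 :=
  (hη.root_iff hv.2.1.ne_zero _).2 ⟨k, rfl⟩

theorem Eloc_finite (d g : ℕ) {D₀ D : Dat} (e : D₀.v = D.v) (hv : VOk d D.v) (η : Fin d → ℂ) :
    ((fun p => Eloc d g p D₀ D η) '' {p | p.Prime}).Finite := by
  refine WMlat_fin _ (fun p => (tt d p D.v, (p = D₀.P), (p = D.P))) _ ?_ ?_
  · refine ((Set.finite_Icc (0 : ℤ) d).prod Set.finite_univ).subset ?_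
    rintro _ ⟨p, hp, rfl⟩
    exact ⟨⟨(goodT_tt hv hp).1, (goodT_tt hv hp).2.1⟩, trivial⟩
  · intro p _ q _ h
    simp only [Prod.mk.injEq, eq_iff_iff] at h
    obtain ⟨h1, h2, h3⟩ := h
    have hz : ∀ z, zt d p D.v z = zt d q D.v z := fun z => by simp only [zt, cc, h1]
    have hp : ∀ D' : Dat, D'.v = D.v → (p = D'.P ↔ q = D'.P) → ∀ z, pz d p D' z = pz d q D' z :=
      fun D' e' h' z => by
        by_cases hq : q = D'.P
        · rw [h'.2 hq, hq]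
        · rw [pz_of_ne hq, pz_of_ne fun h0 => hq (h'.1 h0)]
    ext a k
    simp only [Eloc, Matrix.of_apply, hz, hp D₀ e h2, hp D rfl h3]

theorem Eloc_det_ne_zero {n d g p : ℕ} {D₀ D : Dat} (h₀ : Ok n d D₀) (h : Ok n d D)
    (e : D₀.v = D.v) {η : Fin d → ℂ} (hη : Lst D.v η) (hp : p.Prime) :
    (Eloc d g p D₀ D η).det ≠ 0 := by
  have hr := WMlat_root h.1 hη
  have e1 : Eloc d g p D₀ D η = (Matrix.vandermonde fun k => zt d p D.v (η k))ᵀ *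
      Matrix.diagonal fun k => pz d p D₀ (η k) / pz d p D (η k) / zt d p D.v (η k) ^ g := by
    ext a k
    rw [Matrix.mul_diagonal, Matrix.transpose_apply, Matrix.vandermonde_apply, Eloc,
      Matrix.of_apply]
    ring
  rw [e1, Matrix.det_mul, Matrix.det_transpose, Matrix.det_diagonal]
  refine mul_ne_zero (Matrix.det_vandermonde_ne_zero_iff.2 fun k j hkj => ?_)
    (Finset.prod_ne_zero_iff.2 fun k _ => ?_)
  · exact hη.injective h.1 (zt_inj h.1 hp (hr k) (hr j) hkj)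
  · exact div_ne_zero (div_ne_zero (pz_ne_zero h₀ (e ▸ hr k)) (pz_ne_zero h (hr k)))
      (pow_ne_zero _ (zt_ne_zero h.1 hp (hr k)))

/-- a function that is a rational polynomial on the roots of `v` -/
def WMlatR (v : ℤ[X]) (φ : ℂ → ℂ) : Prop :=
  ∃ q : ℚ[X], ∀ z : ℂ, aeval z v = 0 → φ z = aeval z q

theorem WMlatR.congr {v : ℤ[X]} {φ ψ : ℂ → ℂ} (h : WMlatR v φ)
    (e : ∀ z : ℂ, aeval z v = 0 → ψ z = φ z) : WMlatR v ψ := by
  obtain ⟨q, hq⟩ := h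
  exact ⟨q, fun z hz => (e z hz).trans (hq z hz)⟩

theorem WMlatR.mul {v : ℤ[X]} {φ ψ : ℂ → ℂ} (h : WMlatR v φ) (h' : WMlatR v ψ) :
    WMlatR v fun z => φ z * ψ z := by
  obtain ⟨q, hq⟩ := h
  obtain ⟨q', hq'⟩ := h'
  exact ⟨q * q', fun z hz => by rw [map_mul, ← hq z hz, ← hq' z hz]⟩

theorem WMlatR.pow {v : ℤ[X]} {φ : ℂ → ℂ} (h : WMlatR v φ) (m : ℕ) :
    WMlatR v fun z => φ z ^ m := by
  obtain ⟨q, hq⟩ := h
  exact ⟨q ^ m, fun z hz => by rw [map_pow, ← hq z hz]⟩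

theorem WMlat_const (v : ℤ[X]) (c : ℚ) : WMlatR v fun _ => (c : ℂ) :=
  ⟨C c, fun z _ => by simp⟩

theorem WMlat_lin (v : ℤ[X]) (s : ℤ) : WMlatR v fun z => z - s :=
  ⟨X - C (s : ℚ), fun z _ => by simp⟩

theorem WMlat_up (v : ℤ[X]) (z : ℂ) : aeval z (up ℚ v) = aeval z v :=
  aeval_map_algebraMap ℚ z v

theorem WMlat_inv {v : ℤ[X]} {s : ℤ} (hs : v.eval s ≠ 0) : WMlatR v fun z => (z - s)⁻¹ := by
  obtain ⟨w, hw⟩ := X_sub_C_dvd_sub_C_eval (p := v) (a := s)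
  refine ⟨C (-((v.eval s : ℤ) : ℚ)⁻¹) * up ℚ w, fun z hz => ?_⟩
  have h1 := congrArg (aeval z) hw
  have h2 : ((v.eval s : ℤ) : ℂ) ≠ 0 := Int.cast_ne_zero.2 hs
  simp only [map_sub, map_mul, aeval_X, map_intCast, hz, eq_intCast, zero_sub] at h1
  rw [map_mul, WMlat_up, aeval_C]
  refine inv_eq_of_mul_eq_one_right ?_
  simp only [eq_ratCast, Rat.cast_neg, Rat.cast_inv, Rat.cast_intCast]
  rw [mul_left_comm, ← h1, neg_mul_neg, inv_mul_cancel₀ h2]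

theorem WMlat_zt {d p : ℕ} {v : ℤ[X]} (hv : VOk d v) (hp : p.Prime) :
    WMlatR v (zt d p v) ∧ WMlatR v fun z => (zt d p v z)⁻¹ := by
  constructor
  · refine ((WMlat_const v (cc d p v)).mul (WMlat_inv (cc_ne_zero hv hp))).congr fun z _ => ?_
    rw [zt, div_eq_mul_inv, Rat.cast_intCast]
  · refine ((WMlat_lin v (tt d p v)).mul (WMlat_const v (cc d p v : ℚ)⁻¹)).congr fun z _ => ?_
    rw [zt, inv_div, div_eq_mul_inv, Rat.cast_inv, Rat.cast_intCast]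

theorem WMlat_pz {n d p : ℕ} {D : Dat} (h : Ok n d D) (hp : p.Prime) :
    WMlatR D.v (pz d p D) ∧ WMlatR D.v fun z => (pz d p D z)⁻¹ := by
  by_cases e : p = D.P
  · subst e
    have hr : D.v.eval D.r ≠ 0 := fun h0 => h.2.2.2.2.2.2.1 (h0 ▸ dvd_zero _)
    refine ⟨((WMlat_zt h.1 hp).1.mul (WMlat_lin _ D.r)).congr fun z hz => pz_eq h hz,
      ((WMlat_zt h.1 hp).2.mul (WMlat_inv hr)).congr fun z hz => ?_⟩
    rw [pz_eq h hz, mul_inv]
  · exact ⟨(WMlat_const _ 1).congr fun z _ => by rw [pz_of_ne e, Rat.cast_one],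
      (WMlat_const _ 1).congr fun z _ => by rw [pz_of_ne e, Rat.cast_one, inv_one]⟩

theorem WMlatR.coeffs {d : ℕ} {v : ℤ[X]} (hv : VOk d v) {φ : ℂ → ℂ} (h : WMlatR v φ) :
    ∃ c : Fin d → ℚ, ∀ z : ℂ, aeval z v = 0 → φ z = ∑ i, (c i : ℂ) * z ^ (i : ℕ) := by
  obtain ⟨q, hq⟩ := h
  have hi : Function.Injective (Int.castRingHom ℚ) := Int.cast_injective
  have h0 : up ℚ v ≠ 0 := (Polynomial.map_ne_zero_iff hi).2 hv.2.1.ne_zero
  have hd : (q % up ℚ v).degree < d := by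
    have := degree_mod_lt q h0
    rwa [degree_eq_natDegree h0, natDegree_map_eq_of_injective hi, hv.1] at this
  refine ⟨fun i => (q % up ℚ v).coeff i, fun z hz => ?_⟩
  have e1 : aeval z q = aeval z (q % up ℚ v) := by
    conv_lhs => rw [← EuclideanDomain.div_add_mod q (up ℚ v)]
    rw [map_add, map_mul, WMlat_up, hz, zero_mul, zero_add]
  rw [hq z hz, e1, aeval_def, eval₂_eq_sum,
    ← sum_fin (fun i a => algebraMap ℚ ℂ a * z ^ i) (fun i => by simp) hd]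
  simp only [eq_ratCast]

theorem Eloc_rat {n d g p : ℕ} {D₀ D : Dat} (h₀ : Ok n d D₀) (h : Ok n d D)
    (e : D₀.v = D.v) {η : Fin d → ℂ} (hη : Lst D.v η) (hp : p.Prime) :
    ∃ Q : Matrix (Fin d) (Fin d) ℚ,
      Eloc d g p D₀ D η = Q.map (Rat.cast : ℚ → ℂ) * (Matrix.vandermonde η)ᵀ := by
  have h1 : WMlatR D.v (pz d p D₀) := e ▸ (WMlat_pz h₀ hp).1
  have h2 : ∀ a : Fin d, WMlatR D.v fun z =>
      pz d p D₀ z / pz d p D z * zt d p D.v z ^ (a : ℕ) / zt d p D.v z ^ g := fun a =>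
    (((h1.mul (WMlat_pz h hp).2).mul ((WMlat_zt h.1 hp).1.pow a)).mul
      ((WMlat_zt h.1 hp).2.pow g)).congr fun z _ => by
        rw [div_eq_mul_inv, div_eq_mul_inv, inv_pow]
  choose c hc using fun a => (h2 a).coeffs h.1
  refine ⟨Matrix.of c, ?_⟩
  ext a k
  rw [Eloc, Matrix.of_apply, hc a _ (WMlat_root h.1 hη k), Matrix.mul_apply]
  simp only [Matrix.map_apply, Matrix.of_apply, Matrix.transpose_apply, Matrix.vandermonde_apply]

end Pool.Agent.VW
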