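import Pool.Agent.P.MP_b0ea37_nt.WDefs

namespace Pool.Agent.VW

open Matrix

variable {d : ℕ}

theorem wmoA_mat (E : Matrix (Fin d) (Fin d) ℂ) (c : Fin d → ℂ) (a b : Fin d) :
    (E * diagonal c * Eᵀ) a b = ∑ k, c k * E a k * E b k := by
  rw [Matrix.mul_apply]
  refine Finset.sum_congr rfl fun k _ => ?_
  rw [Matrix.mul_diagonal, Matrix.transpose_apply]
  ring

/-- a unipotent stabiliser is trivial -/
theorem wmoA_rigid (E₁ E₂ : Matrix (Fin d) (Fin d) ℂ) (al η : Fin d → ℂ)
    (hη : Function.Injective η) (hal : ∀ k, al k ≠ 0) (h1 : E₁.det ≠ 0) (h12 : (E₁ + E₂).det ≠ 0)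
    (hA : E₁ * diagonal al * E₁ᵀ = E₂ * diagonal al * E₂ᵀ)
    (hB : E₁ * diagonal (fun k => η k * al k) * E₁ᵀ = E₂ * diagonal (fun k => η k * al k) * E₂ᵀ) :
    E₁ = E₂ := by
  have hu : IsUnit E₁.det := isUnit_iff_ne_zero.2 h1
  obtain ⟨F, rfl⟩ : ∃ F, E₂ = E₁ * F :=
    ⟨E₁⁻¹ * E₂, by rw [← Matrix.mul_assoc, Matrix.mul_nonsing_inv _ hu, Matrix.one_mul]⟩
  have hU : IsUnit E₁ := (Matrix.isUnit_iff_isUnit_det _).2 hu
  have hUt : IsUnit E₁ᵀ := (Matrix.isUnit_iff_isUnit_det _).2 (by rwa [Matrix.det_transpose])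
  have canc : ∀ X : Matrix (Fin d) (Fin d) ℂ, E₁ * X * E₁ᵀ = E₁ * F * X * (E₁ * F)ᵀ →
      X = F * X * Fᵀ := by
    intro X h
    apply hU.mul_left_cancel
    apply hUt.mul_right_cancel
    rw [h, Matrix.transpose_mul]
    simp only [Matrix.mul_assoc]
  have hA' := canc _ hA
  have hB' := canc _ hB
  have hD : (diagonal al).det ≠ 0 := by
    rw [Matrix.det_diagonal]
    exact Finset.prod_ne_zero_iff.2 fun k _ => hal k
  have hF : F.det ≠ 0 := by
    intro h0
    apply hD
    rw [hA', Matrix.det_mul, Matrix.det_mul, h0, zero_mul, zero_mul]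
  have hDF : IsUnit (diagonal al * Fᵀ) := by
    rw [Matrix.isUnit_iff_isUnit_det, Matrix.det_mul, Matrix.det_transpose]
    exact isUnit_iff_ne_zero.2 (mul_ne_zero hD hF)
  have hcomm : diagonal η * F = F * diagonal η := by
    apply hDF.mul_right_cancel
    have e : diagonal (fun k => η k * al k) = diagonal η * diagonal al :=
      (Matrix.diagonal_mul_diagonal _ _).symm
    rw [e] at hB'
    calc diagonal η * F * (diagonal al * Fᵀ) = diagonal η * (F * diagonal al * Fᵀ) := by
          simp only [Matrix.mul_assoc]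
      _ = diagonal η * diagonal al := by rw [← hA']
      _ = F * diagonal η * (diagonal al * Fᵀ) := by
          conv_lhs => rw [hB']
          simp only [Matrix.mul_assoc]
  have hdiag : F = diagonal fun k => F k k := by
    ext i j
    by_cases hij : i = j
    · subst hij
      simp
    · rw [Matrix.diagonal_apply_ne _ hij]
      have := congrFun (congrFun hcomm i) j
      rw [Matrix.diagonal_mul, Matrix.mul_diagonal] at this
      have h2 : (η i - η j) * F i j = 0 := by linear_combination this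
      exact (mul_eq_zero.1 h2).resolve_left (sub_ne_zero.2 fun h => hij (hη h))
  have hsq : F * F = 1 := by
    have h3 : ∀ k, F k k * F k k = 1 := by
      intro k
      have := congrFun (congrFun hA' k) k
      rw [hdiag, Matrix.diagonal_transpose, Matrix.diagonal_mul_diagonal,
        Matrix.diagonal_mul_diagonal, Matrix.diagonal_apply_eq, Matrix.diagonal_apply_eq] at this
      apply mul_left_cancel₀ (hal k)
      linear_combination -this
    rw [hdiag, Matrix.diagonal_mul_diagonal, ← Matrix.diagonal_one]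
    exact congrArg diagonal (funext h3)
  have hS : IsUnit (E₁ + E₁ * F) :=
    (Matrix.isUnit_iff_isUnit_det _).2 (isUnit_iff_ne_zero.2 h12)
  have hF1 : F = 1 := by
    apply hS.mul_left_cancel
    rw [Matrix.add_mul, Matrix.mul_assoc, hsq, Matrix.mul_one, Matrix.mul_one, add_comm]
  rw [hF1, Matrix.mul_one]

/-- no large zero block -/
theorem wmoA_block (E : Matrix (Fin d) (Fin d) ℂ) (al η : Fin d → ℂ)
    (hη : Function.Injective η) (hal : ∀ k, al k ≠ 0) (hE : E.det ≠ 0) (i j : Fin d) (hij : i ≤ j)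
    (hd : d ≤ i + j + 2) (hA : ∀ a ≤ i, ∀ b ≤ j, ∑ k, al k * E a k * E b k = 0)
    (hB : ∀ a ≤ i, ∀ b ≤ j, ∑ k, η k * al k * E a k * E b k = 0) : False := by
  have hU : IsUnit E := (Matrix.isUnit_iff_isUnit_det _).2 (isUnit_iff_ne_zero.2 hE)
  have hli : LinearIndependent ℂ E.row := Matrix.linearIndependent_rows_iff_isUnit.2 hU
  let ψ : (Fin d → ℂ) →ₗ[ℂ] (Fin d → ℂ) := (E * diagonal al).mulVecLin
  have hψ : ∀ x b, ψ x b = ∑ k, al k * x k * E b k := by
    intro x b
    simp only [ψ, Matrix.mulVecLin_apply, Matrix.mulVec, dotProduct, Matrix.mul_diagonal]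
    exact Finset.sum_congr rfl fun k _ => by ring
  have hinj : Function.Injective ψ := by
    apply Matrix.mulVec_injective_iff_isUnit.2
    rw [Matrix.isUnit_iff_isUnit_det, Matrix.det_mul, Matrix.det_diagonal]
    exact isUnit_iff_ne_zero.2 (mul_ne_zero hE (Finset.prod_ne_zero_iff.2 fun k _ => hal k))
  let K : Submodule ℂ (Fin d → ℂ) :=
    { carrier := {x | ∀ b ≤ j, ψ x b = 0}
      add_mem' := fun {x y} hx hy b hb => by
        rw [map_add, Pi.add_apply, hx b hb, hy b hb, add_zero]
      zero_mem' := fun b _ => by simp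
      smul_mem' := fun c x hx b hb => by rw [map_smul, Pi.smul_apply, hx b hb, smul_zero] }
  have hK : ∀ x, x ∈ K ↔ ∀ b ≤ j, ψ x b = 0 := fun x => Iff.rfl
  let ρ : K →ₗ[ℂ] (Finset.Ioi j → ℂ) :=
    (LinearMap.funLeft ℂ ℂ (Subtype.val : Finset.Ioi j → Fin d)).comp (ψ.comp K.subtype)
  have hρ : Function.Injective ρ := by
    rw [injective_iff_map_eq_zero]
    intro x hx
    apply Subtype.ext
    apply hinj
    ext b
    rw [ZeroMemClass.coe_zero, map_zero, Pi.zero_apply]
    rcases le_or_gt b j with hb | hb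
    · exact x.2 b hb
    · exact congrFun hx ⟨b, Finset.mem_Ioi.2 hb⟩
  have hKd : Module.finrank ℂ K ≤ d - 1 - j := by
    have := LinearMap.finrank_le_finrank_of_injective hρ
    rwa [Module.finrank_fintype_fun_eq_card, Fintype.card_coe, Fin.card_Ioi] at this
  let U : Submodule ℂ (Fin d → ℂ) :=
    Submodule.span ℂ (Set.range fun a : Finset.Iic i => E.row a)
  have hUd : Module.finrank ℂ U = i + 1 := by
    have := finrank_span_eq_card (hli.comp (Subtype.val : Finset.Iic i → Fin d) Subtype.val_injective)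
    rwa [Fintype.card_coe, Fin.card_Iic] at this
  have hUK : U ≤ K := by
    rw [Submodule.span_le]
    rintro _ ⟨a, rfl⟩ b hb
    rw [hψ]
    exact hA a (Finset.mem_Iic.1 a.2) b hb
  have hUK' : U = K := Submodule.eq_of_le_of_finrank_le hUK (by omega)
  let T : (Fin d → ℂ) →ₗ[ℂ] (Fin d → ℂ) := (diagonal η).mulVecLin
  have hT : ∀ x k, T x k = η k * x k := fun x k => Matrix.mulVec_diagonal η x k
  have hTU : U ≤ K.comap T := by
    rw [Submodule.span_le]
    rintro _ ⟨a, rfl⟩ b hb
    rw [hψ, ← hB a (Finset.mem_Iic.1 a.2) b hb]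
    refine Finset.sum_congr rfl fun k _ => ?_
    rw [hT]
    change al k * (η k * E a k) * E b k = _
    ring
  have hpow : ∀ m : ℕ, (fun k => η k ^ m * E i k) ∈ U := by
    intro m
    induction m with
    | zero =>
      have : (fun k => η k ^ 0 * E i k) = E.row i := by
        ext k
        simp
      rw [this]
      exact Submodule.subset_span ⟨⟨i, Finset.mem_Iic.2 le_rfl⟩, rfl⟩
    | succ m ih =>
      have : (fun k => η k ^ (m + 1) * E i k) = T fun k => η k ^ m * E i k := by
        ext k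
        rw [hT]
        ring
      rw [this, hUK']
      exact hTU ih
  have hz : (fun k => al k * E i k * E i k) = 0 := by
    apply Matrix.eq_zero_of_forall_pow_sum_mul_pow_eq_zero hη
    intro m
    have := hUK (hpow m) i hij
    rw [hψ] at this
    rw [← this]
    exact Finset.sum_congr rfl fun k _ => by ring
  apply hli.ne_zero i
  ext k
  have := congrFun hz k
  simp only [Pi.zero_apply, mul_eq_zero, hal k, false_or, or_self] at this
  exact this

end Pool.Agent.VW
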