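import Pool.Agent.P.MP_b0ea37_nt.WCnt

namespace Pool.Agent.VW

open Matrix

variable {d : ℕ}

/-- symmetric, bounded, without unipotent stabiliser -/
def WMoRed (L : Fin d → ℝ) (A B : Matrix (Fin d) (Fin d) ℤ) : Prop :=
  Aᵀ = A ∧ Bᵀ = B ∧ (∀ a b, |(A a b : ℝ)| ≤ L a * L b) ∧ (∀ a b, |(B a b : ℝ)| ≤ L a * L b) ∧
    ∀ N N' : Matrix (Fin d) (Fin d) ℤ, N.det ≠ 0 → (N + N').det ≠ 0 →
      N * A * Nᵀ = N' * A * N'ᵀ → N * B * Nᵀ = N' * B * N'ᵀ → N = N'

theorem wmoB_box (R : Fin d → Fin d → ℝ) (hR : ∀ a b, 0 ≤ R a b) :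
    Cnt (fun p : Matrix (Fin d) (Fin d) ℤ × Matrix (Fin d) (Fin d) ℤ => p.1ᵀ = p.1 ∧ p.2ᵀ = p.2 ∧
      (∀ a b, |(p.1 a b : ℝ)| ≤ R a b) ∧ ∀ a b, |(p.2 a b : ℝ)| ≤ R a b)
      ((∏ a, ∏ b, (2 * R a b + 1)) * ∏ a, (2 * R a a + 1)) := by
  have h1 := Cnt.pi fun a => Cnt.pi fun b => cnt_int_abs (R a b) (hR a b)
  have h2 := Cnt.pi fun a => cnt_int_abs (R a a) (hR a a)
  refine (h1.prod h2.nonneg fun _ _ => h2).inj
    (fun p => (fun a b => if a ≤ b then p.1 a b else p.2 a b, fun a => p.2 a a)) ?_ ?_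
  · rintro p ⟨-, -, hA, hB⟩
    refine ⟨fun a b => ?_, fun a => hB a a⟩
    by_cases h : a ≤ b
    · simpa only [if_pos h] using hA a b
    · simpa only [if_neg h] using hB a b
  · rintro p q ⟨hp1, hp2, -⟩ ⟨hq1, hq2, -⟩ h
    have e1 := congrArg Prod.fst h
    have e2 := congrArg Prod.snd h
    have sp1 : ∀ a b, p.1 a b = p.1 b a := fun a b => (congrFun (congrFun hp1 a) b).symm
    have sp2 : ∀ a b, p.2 a b = p.2 b a := fun a b => (congrFun (congrFun hp2 a) b).symm
    have sq1 : ∀ a b, q.1 a b = q.1 b a := fun a b => (congrFun (congrFun hq1 a) b).symm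
    have sq2 : ∀ a b, q.2 a b = q.2 b a := fun a b => (congrFun (congrFun hq2 a) b).symm
    have k1 : ∀ a b, a ≤ b → p.1 a b = q.1 a b := fun a b hab => by
      simpa only [if_pos hab] using congrFun (congrFun e1 a) b
    have k2 : ∀ a b, ¬ a ≤ b → p.2 a b = q.2 a b := fun a b hab => by
      simpa only [if_neg hab] using congrFun (congrFun e1 a) b
    refine Prod.ext ?_ ?_
    · ext a b
      rcases le_total a b with hab | hab
      · exact k1 a b hab
      · rw [sp1, sq1, k1 b a hab]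
    · ext a b
      rcases lt_trichotomy a b with hab | hab | hab
      · rw [sp2, sq2, k2 b a (not_le.2 hab)]
      · subst hab
        exact congrFun e2 a
      · exact k2 a b (not_le.2 hab)

theorem wmoB_weight (L : Fin d → ℝ) (hpos : ∀ i, 0 < L i) (hmono : Monotone L)
    (hL : ∀ i j : Fin d, d ≤ i + j + 2 → 1 ≤ L i * L j) :
    (∏ a, ∏ b, max 1 (L a * L b)) * ∏ a, max 1 (L a * L a) ≤
      (∏ a, L a) ^ (2 * d + 2) * ∏ h, ∏ j, if j < h then L h / L j else 1 := by
  have hP : (∏ a, L a) ^ (2 * d + 2) = (∏ a, ∏ b, L a * L b) * ∏ a, L a * L a := by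
    simp only [Finset.prod_mul_distrib, Finset.prod_const, Finset.card_univ, Fintype.card_fin,
      Finset.prod_pow]
    ring
  rw [hP]
  have key : ∀ a b h : Fin d, d ≤ a + h + 2 →
      max 1 (L a * L b) ≤ L a * L b * if b < h then L h / L b else 1 := by
    intro a b h hd
    by_cases hb : b < h
    · have e : L a * L b * (L h / L b) = L a * L h := by
        have := (hpos b).ne'
        field_simp
      rw [if_pos hb, e]
      exact max_le (hL a h hd) (mul_le_mul_of_nonneg_left (hmono hb.le) (hpos a).le)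
    · rw [if_neg hb, mul_one]
      have : (h : ℕ) ≤ b := not_lt.1 hb
      exact max_le (hL a b (by omega)) le_rfl
  have h0 : ∀ a b, 0 ≤ max 1 (L a * L b) := fun a b => le_max_of_le_left zero_le_one
  cases d with
  | zero => simp
  | succ e =>
    have h1 : ∏ a : Fin e, ∏ b, max 1 (L a.castSucc * L b) ≤
        (∏ a : Fin e, ∏ b, L a.castSucc * L b) *
          ∏ h : Fin e, ∏ j, if j < h.castSucc then L h.castSucc / L j else 1 := by
      rw [← Equiv.prod_comp Fin.revPerm
        (fun h : Fin e => ∏ j, if j < h.castSucc then L h.castSucc / L j else 1),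
        ← Finset.prod_mul_distrib]
      refine Finset.prod_le_prod (fun a _ => Finset.prod_nonneg fun b _ => h0 _ _) fun a _ => ?_
      rw [← Finset.prod_mul_distrib]
      refine Finset.prod_le_prod (fun b _ => h0 _ _) fun b _ => key _ _ _ ?_
      have := a.2
      simp only [Fin.revPerm_apply, Fin.val_castSucc, Fin.val_rev]
      omega
    have h2 : ∏ b, max 1 (L (Fin.last e) * L b) ≤ ∏ b, L (Fin.last e) * L b :=
      Finset.prod_le_prod (fun b _ => h0 _ _) fun b _ =>
        max_le (hL _ _ (by simp only [Fin.val_last]; omega)) le_rfl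
    have h3 : ∏ a, max 1 (L a * L a) ≤
        (∏ a, L a * L a) * ∏ j, if j < Fin.last e then L (Fin.last e) / L j else 1 := by
      rw [← Finset.prod_mul_distrib]
      exact Finset.prod_le_prod (fun b _ => h0 _ _) fun b _ =>
        key _ _ _ (by simp only [Fin.val_last]; omega)
    rw [Fin.prod_univ_castSucc (fun a => ∏ b, max 1 (L a * L b)),
      Fin.prod_univ_castSucc (fun a => ∏ b, L a * L b),
      Fin.prod_univ_castSucc (fun h => ∏ j, if j < h then L h / L j else 1)]
    have n1 : 0 ≤ ∏ a : Fin e, ∏ b, max 1 (L a.castSucc * L b) :=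
      Finset.prod_nonneg fun a _ => Finset.prod_nonneg fun b _ => h0 _ _
    have n2 : 0 ≤ ∏ b, max 1 (L (Fin.last e) * L b) := Finset.prod_nonneg fun b _ => h0 _ _
    have n3 : 0 ≤ ∏ a, max 1 (L a * L a) := Finset.prod_nonneg fun b _ => h0 _ _
    refine (mul_le_mul (mul_le_mul h1 h2 n2 (n1.trans h1)) h3 n3
      (mul_nonneg (n1.trans h1) (n2.trans h2))).trans (le_of_eq ?_)
    ring

theorem wmoB_entry (L : Fin d → ℝ) (hpos : ∀ i, 0 < L i) (N A : Matrix (Fin d) (Fin d) ℤ)
    (hN : ∀ h j, |(N h j : ℝ)| ≤ L h / L j) (hA : ∀ a b, |(A a b : ℝ)| ≤ L a * L b) (i j : Fin d) :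
    |((N * A * Nᵀ) i j : ℝ)| ≤ d ^ 2 * (L i * L j) := by
  simp only [Matrix.mul_apply, Matrix.transpose_apply, Finset.sum_mul]
  push_cast
  have h : ∀ b a, |(N i a : ℝ) * A a b * N j b| ≤ L i * L j := by
    intro b a
    rw [abs_mul, abs_mul]
    have ha := hpos a
    have hb := hpos b
    have hi := hpos i
    refine (mul_le_mul (mul_le_mul (hN i a) (hA a b) (abs_nonneg _) (by positivity)) (hN j b)
      (abs_nonneg _) (by positivity)).trans (le_of_eq ?_)
    field_simp
  refine (Finset.abs_sum_le_sum_abs _ _).trans ?_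
  refine (Finset.sum_le_sum fun b _ => (Finset.abs_sum_le_sum_abs _ _).trans
    (Finset.sum_le_sum fun a _ => h b a)).trans (le_of_eq ?_)
  simp only [Finset.sum_const, Finset.card_univ, Fintype.card_fin, nsmul_eq_mul]
  ring

theorem wmoB_trans (L : Fin d → ℝ) (hpos : ∀ i, 0 < L i) :
    ∃ T : Finset (Matrix (Fin d) (Fin d) ℤ),
      (∏ h, ∏ j, if j < h then L h / L j else 1) ≤ (T.card : ℝ) ∧
      ∀ N ∈ T, (∀ h j, |(N h j : ℝ)| ≤ L h / L j) ∧ (∀ h j, h < j → N h j = 0) ∧ ∀ h, N h h = 1 := by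
  let I : Fin d → Fin d → Finset ℤ := fun h j =>
    if j < h then Finset.Icc 0 ⌊L h / L j⌋ else if j = h then {1} else {0}
  have hq : ∀ h j, 0 < L h / L j := fun h j => div_pos (hpos h) (hpos j)
  refine ⟨Fintype.piFinset fun h => Fintype.piFinset fun j => I h j, ?_, ?_⟩
  · erw [Fintype.card_piFinset]
    simp only [Fintype.card_piFinset]
    push_cast
    refine Finset.prod_le_prod (fun h _ => Finset.prod_nonneg fun j _ => ?_) fun h _ =>
      Finset.prod_le_prod (fun j _ => ?_) fun j _ => ?_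
    · split_ifs
      exacts [(hq h j).le, zero_le_one]
    · split_ifs
      exacts [(hq h j).le, zero_le_one]
    · by_cases hj : j < h
      · simp only [I, if_pos hj, Int.card_Icc, sub_zero]
        have h1 : (0 : ℤ) ≤ ⌊L h / L j⌋ + 1 := by
          have := Int.floor_nonneg.2 (hq h j).le
          omega
        have h2 : (((⌊L h / L j⌋ + 1).toNat : ℕ) : ℝ) = ((⌊L h / L j⌋ + 1 : ℤ) : ℝ) := by
          rw [← Int.cast_natCast, Int.toNat_of_nonneg h1]
        rw [h2]
        push_cast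
        exact (Int.lt_floor_add_one _).le
      · simp only [I, if_neg hj]
        split_ifs <;> simp
  · intro N hN
    have hI : ∀ h j, N h j ∈ I h j := fun h j =>
      Fintype.mem_piFinset.1 (Fintype.mem_piFinset.1 hN h) j
    have hz : ∀ h j, h < j → N h j = 0 := by
      intro h j hj
      simpa only [I, if_neg (not_lt.2 hj.le), if_neg hj.ne', Finset.mem_singleton] using hI h j
    have ho : ∀ h, N h h = 1 := by
      intro h
      simpa only [I, if_neg (lt_irrefl h), if_true, Finset.mem_singleton] using hI h h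
    refine ⟨fun h j => ?_, hz, ho⟩
    rcases lt_trichotomy h j with hj | hj | hj
    · rw [hz h j hj]
      simpa using (hq h j).le
    · subst hj
      rw [ho, div_self (hpos h).ne']
      simp
    · have := hI h j
      simp only [I, if_pos hj, Finset.mem_Icc] at this
      rw [abs_of_nonneg (by exact_mod_cast this.1)]
      exact Int.le_floor.1 this.2

theorem wmoB_det (N : Matrix (Fin d) (Fin d) ℤ) (h : ∀ h j, h < j → N h j = 0) :
    N.det = ∏ i, N i i :=
  Matrix.det_of_isLowerTriangular N fun i j hij => h i j hij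

theorem wmoB_core (L : Fin d → ℝ) (hpos : ∀ i, 0 < L i) (hmono : Monotone L)
    (hL : ∀ i j : Fin d, d ≤ i + j + 2 → 1 ≤ L i * L j) {α : Type} (P : α → Prop)
    (A B : α → Matrix (Fin d) (Fin d) ℤ) (hred : ∀ x, P x → WMoRed L (A x) (B x))
    (hin : ∀ x y, P x → P y → ∀ N N' : Matrix (Fin d) (Fin d) ℤ, N.det = 1 → N'.det = 1 →
      N * A x * Nᵀ = N' * A y * N'ᵀ → N * B x * Nᵀ = N' * B y * N'ᵀ → x = y) :
    Cnt P ((2 * (d : ℝ) ^ 2 + 1) ^ (d * d + d) * (∏ a, L a) ^ (2 * d + 2)) := by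
  classical
  obtain ⟨T, hT, hTm⟩ := wmoB_trans L hpos
  have hdet : ∀ N ∈ T, N.det = 1 := fun N hN => by
    rw [wmoB_det N (hTm N hN).2.1]
    exact Finset.prod_eq_one fun i _ => (hTm N hN).2.2 i
  have hw : 0 < ∏ h, ∏ j, if j < h then L h / L j else 1 := by
    refine Finset.prod_pos fun h _ => Finset.prod_pos fun j _ => ?_
    split_ifs
    exacts [div_pos (hpos h) (hpos j), zero_lt_one]
  have hLL : ∀ a b, 0 ≤ L a * L b := fun a b => (mul_pos (hpos a) (hpos b)).le
  have hQ := wmoB_box (fun a b => d ^ 2 * (L a * L b)) fun a b => mul_nonneg (by positivity) (hLL a b)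
  refine (Cnt.double (P := P) (fun x p => ∃ N ∈ T, p = (N * A x * Nᵀ, N * B x * Nᵀ)) hw zero_le_one
    hQ ?_ ?_).mono (fun _ h => h) ?_
  · intro x hx
    obtain ⟨sA, sB, bA, bB, hr⟩ := hred x hx
    refine ⟨T.image fun N => (N * A x * Nᵀ, N * B x * Nᵀ), ?_, ?_⟩
    · rw [Finset.card_image_of_injOn]
      · exact hT
      · intro N hN N' hN' h
        refine hr N N' (by rw [hdet N hN]; exact one_ne_zero) ?_ (congrArg Prod.fst h)
          (congrArg Prod.snd h)
        rw [wmoB_det]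
        · refine Finset.prod_ne_zero_iff.2 fun i _ => ?_
          rw [Matrix.add_apply, (hTm N hN).2.2, (hTm N' hN').2.2]
          exact two_ne_zero
        · intro i j hij
          rw [Matrix.add_apply, (hTm N hN).2.1 i j hij, (hTm N' hN').2.1 i j hij, add_zero]
    · intro p hp
      obtain ⟨N, hN, rfl⟩ := Finset.mem_image.1 hp
      refine ⟨⟨?_, ?_, wmoB_entry L hpos N _ (hTm N hN).1 bA, wmoB_entry L hpos N _ (hTm N hN).1 bB⟩,
        N, hN, rfl⟩
      · simp only [Matrix.transpose_mul, Matrix.transpose_transpose, sA, Matrix.mul_assoc]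
      · simp only [Matrix.transpose_mul, Matrix.transpose_transpose, sB, Matrix.mul_assoc]
  · intro p _
    refine Cnt.one ?_
    rintro x y ⟨hx, N, hN, e⟩ ⟨hy, N', hN', e'⟩
    have h := e.symm.trans e'
    exact hin x y hx hy N N' (hdet N hN) (hdet N' hN') (congrArg Prod.fst h) (congrArg Prod.snd h)
  · rw [mul_one, div_le_iff₀ hw, mul_assoc]
    have t : ∀ a b, 2 * ((d : ℝ) ^ 2 * (L a * L b)) + 1 ≤ (2 * (d : ℝ) ^ 2 + 1) * max 1 (L a * L b) := by
      intro a b
      have h1 := le_max_left 1 (L a * L b)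
      have h2 := mul_le_mul_of_nonneg_left (le_max_right 1 (L a * L b)) (sq_nonneg (d : ℝ))
      linarith
    have t0 : ∀ a b, 0 ≤ 2 * ((d : ℝ) ^ 2 * (L a * L b)) + 1 := fun a b => by
      have := hLL a b
      positivity
    have h1 : ∏ a, ∏ b, (2 * ((d : ℝ) ^ 2 * (L a * L b)) + 1) ≤
        ∏ a, ∏ b, (2 * (d : ℝ) ^ 2 + 1) * max 1 (L a * L b) :=
      Finset.prod_le_prod (fun a _ => Finset.prod_nonneg fun b _ => t0 a b) fun a _ =>
        Finset.prod_le_prod (fun b _ => t0 a b) fun b _ => t a b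
    have h2 : ∏ a, (2 * ((d : ℝ) ^ 2 * (L a * L a)) + 1) ≤
        ∏ a, (2 * (d : ℝ) ^ 2 + 1) * max 1 (L a * L a) :=
      Finset.prod_le_prod (fun a _ => t0 a a) fun a _ => t a a
    refine (mul_le_mul h1 h2 (Finset.prod_nonneg fun a _ => t0 a a)
      ((Finset.prod_nonneg fun a _ => Finset.prod_nonneg fun b _ => t0 a b).trans h1)).trans ?_
    refine le_trans (le_of_eq ?_) (mul_le_mul_of_nonneg_left (wmoB_weight L hpos hmono hL)
      (by positivity))
    simp only [Finset.prod_mul_distrib, Finset.prod_const, Finset.card_univ, Fintype.card_fin]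
    ring

end Pool.Agent.VW
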