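import Pool.Agent.P.MP_b0ea37_nt.WMDefs
import Pool.Agent.P.MP_b0ea37_nt.WHerm
import Pool.Agent.P.MP_b0ea37_nt.WMoA
import Pool.Agent.P.MP_b0ea37_nt.WMoB

namespace Pool.Agent.VW

open Matrix

variable {d : ℕ}

theorem wmorb_gram (E : Matrix (Fin d) (Fin d) ℂ) (q : Fin d → ℝ) (s : Equiv.Perm (Fin d))
    (hq : ∀ k, 0 < q k) (hqs : ∀ k, q (s k) = q k) (hs : ∀ k a, E a (s k) = starRingEnd ℂ (E a k))
    (hE : E.det ≠ 0) : ∃ G : Matrix (Fin d) (Fin d) ℝ, G.PosDef ∧ G.det = ‖E.det‖ ^ 2 * ∏ k, q k ∧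
      ∀ x : Fin d → ℝ, x ⬝ᵥ G *ᵥ x = ∑ k, q k * ‖∑ a, (x a : ℂ) * E a k‖ ^ 2 := by
  let G : Matrix (Fin d) (Fin d) ℝ :=
    Matrix.of fun a b => (∑ k, (q k : ℂ) * E a k * starRingEnd ℂ (E b k)).re
  have hc : ∀ a b, starRingEnd ℂ (∑ k, (q k : ℂ) * E a k * starRingEnd ℂ (E b k)) =
      ∑ k, (q k : ℂ) * E b k * starRingEnd ℂ (E a k) := by
    intro a b
    rw [map_sum]
    refine Finset.sum_congr rfl fun k _ => ?_
    rw [map_mul, map_mul, Complex.conj_ofReal, Complex.conj_conj]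
    ring
  have hsym : ∀ a b, ∑ k, (q k : ℂ) * E b k * starRingEnd ℂ (E a k) =
      ∑ k, (q k : ℂ) * E a k * starRingEnd ℂ (E b k) := by
    intro a b
    rw [← Equiv.sum_comp s]
    refine Finset.sum_congr rfl fun k _ => ?_
    rw [hqs, hs, hs, Complex.conj_conj]
    ring
  have hG : ∀ a b, (G a b : ℂ) = ∑ k, (q k : ℂ) * E a k * starRingEnd ℂ (E b k) := fun a b =>
    Complex.conj_eq_iff_re.1 ((hc a b).trans (hsym a b))
  have hquad : ∀ x : Fin d → ℝ, x ⬝ᵥ G *ᵥ x = ∑ k, q k * ‖∑ a, (x a : ℂ) * E a k‖ ^ 2 := by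
    intro x
    apply Complex.ofReal_injective
    simp only [dotProduct, Matrix.mulVec]
    push_cast
    simp only [hG, ← Complex.mul_conj', map_sum, map_mul, Complex.conj_ofReal, Finset.mul_sum,
      Finset.sum_mul]
    rw [Finset.sum_comm]
    conv_rhs => rw [Finset.sum_comm]
    refine Finset.sum_congr rfl fun b _ => ?_
    rw [Finset.sum_comm]
    refine Finset.sum_congr rfl fun k _ => Finset.sum_congr rfl fun a _ => ?_
    ring
  have hU : IsUnit E := (Matrix.isUnit_iff_isUnit_det _).2 (isUnit_iff_ne_zero.2 hE)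
  refine ⟨G, Matrix.PosDef.of_dotProduct_mulVec_pos ?_ fun x hx => ?_, ?_, hquad⟩
  · ext a b
    apply Complex.ofReal_injective
    rw [Matrix.conjTranspose_apply, star_trivial, hG, hG, hsym]
  · rw [star_trivial, hquad]
    have hne : (fun a => (x a : ℂ)) ᵥ* E ≠ 0 := by
      intro h
      apply hx
      have := Matrix.vecMul_injective_of_isUnit hU (h.trans (Matrix.zero_vecMul E).symm)
      ext a
      exact Complex.ofReal_eq_zero.1 (congrFun this a)
    obtain ⟨k, hk⟩ := Function.ne_iff.1 hne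
    refine Finset.sum_pos' (fun k _ => mul_nonneg (hq k).le (sq_nonneg _))
      ⟨k, Finset.mem_univ _, mul_pos (hq k) (pow_pos (norm_pos_iff.2 hk) 2)⟩
  · apply Complex.ofReal_injective
    have h1 : Complex.ofRealHom.mapMatrix G = E * diagonal (fun k => (q k : ℂ)) * Eᴴ := by
      ext a b
      rw [Matrix.mul_apply]
      refine (hG a b).trans (Finset.sum_congr rfl fun k _ => ?_)
      rw [Matrix.mul_diagonal, Matrix.conjTranspose_apply, mul_comm (E a k)]
      rfl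
    have h2 := Complex.ofRealHom.map_det G
    rw [h1, Matrix.det_mul, Matrix.det_mul, Matrix.det_diagonal, Matrix.det_conjTranspose] at h2
    refine h2.trans ?_
    push_cast
    rw [← Complex.mul_conj']
    change _ * starRingEnd ℂ E.det = _
    ring

theorem wmorb_cs (q : Fin d → ℝ) (c u v : Fin d → ℂ) (hq : ∀ k, ‖c k‖ ≤ q k) :
    ‖∑ k, c k * u k * v k‖ ≤ √(∑ k, q k * ‖u k‖ ^ 2) * √(∑ k, q k * ‖v k‖ ^ 2) := by
  have h0 : ∀ k, 0 ≤ q k := fun k => (norm_nonneg _).trans (hq k)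
  have h1 : ‖∑ k, c k * u k * v k‖ ≤ ∑ k, q k * ‖u k‖ * ‖v k‖ := by
    refine (norm_sum_le _ _).trans (Finset.sum_le_sum fun k _ => ?_)
    rw [norm_mul, norm_mul]
    exact mul_le_mul_of_nonneg_right (mul_le_mul_of_nonneg_right (hq k) (norm_nonneg _))
      (norm_nonneg _)
  refine h1.trans ?_
  rw [← Real.sqrt_mul (Finset.sum_nonneg fun k _ => mul_nonneg (h0 k) (sq_nonneg _))]
  refine Real.le_sqrt_of_sq_le (Finset.sum_sq_le_sum_mul_sum_of_sq_le_mul _
    (fun k _ => mul_nonneg (h0 k) (sq_nonneg _)) (fun k _ => mul_nonneg (h0 k) (sq_nonneg _))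
    fun k _ => le_of_eq ?_)
  ring

theorem wmorb_conj (U A : Matrix (Fin d) (Fin d) ℤ) (E : Matrix (Fin d) (Fin d) ℂ) (c : Fin d → ℂ)
    (h : (Int.castRingHom ℂ).mapMatrix A = E * diagonal c * Eᵀ) :
    (Int.castRingHom ℂ).mapMatrix (U * A * Uᵀ) = ((Int.castRingHom ℂ).mapMatrix U * E) *
      diagonal c * ((Int.castRingHom ℂ).mapMatrix U * E)ᵀ := by
  rw [map_mul, map_mul, h, Matrix.transpose_mul]
  simp only [Matrix.mul_assoc]
  rfl

theorem wmorb_det (U : Matrix (Fin d) (Fin d) ℤ) (h : U.det ≠ 0) :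
    ((Int.castRingHom ℂ).mapMatrix U).det ≠ 0 := by
  rw [← RingHom.map_det]
  exact Int.cast_ne_zero.2 h

theorem wmorb_red (d : ℕ) : ∃ C : ℝ, 1 ≤ C ∧ ∀ (Y : ℝ) (A B : Matrix (Fin d) (Fin d) ℤ),
    Adm Y A B → ∃ U : Matrix (Fin d) (Fin d) ℤ, IsUnit U.det ∧ ∃ lam : Fin d → ℝ,
      (∀ i, 0 < lam i) ∧ Monotone lam ∧ (∀ i j : Fin d, d ≤ i + j + 2 → 1 ≤ lam i * lam j) ∧
      (∏ i, lam i) ^ 2 ≤ C * Y ∧ WMoRed lam (U * A * Uᵀ) (U * B * Uᵀ) := by
  obtain ⟨C, hC, hH⟩ := hermite d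
  refine ⟨C, hC, ?_⟩
  rintro Y A B ⟨E, al, η, s, hη, hA0, hs, hA, hB, hY⟩
  have mA : (Int.castRingHom ℂ).mapMatrix A = E * diagonal al * Eᵀ := by
    ext a b
    rw [wmoA_mat]
    exact hA a b
  have mB : (Int.castRingHom ℂ).mapMatrix B = E * diagonal (fun k => η k * al k) * Eᵀ := by
    ext a b
    rw [wmoA_mat]
    exact (hB a b).trans (Finset.sum_congr rfl fun k _ => by ring)
  have dA : ((A.det : ℤ) : ℂ) = E.det * (∏ k, al k) * E.det := by
    have := (Int.castRingHom ℂ).map_det A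
    rwa [mA, Matrix.det_mul, Matrix.det_mul, Matrix.det_diagonal, Matrix.det_transpose] at this
  have dA0 : E.det * (∏ k, al k) * E.det ≠ 0 := dA ▸ Int.cast_ne_zero.2 hA0
  have hE : E.det ≠ 0 := right_ne_zero_of_mul dA0
  have hal : ∀ k, al k ≠ 0 := fun k => Finset.prod_ne_zero_iff.1
    (right_ne_zero_of_mul (left_ne_zero_of_mul dA0)) k (Finset.mem_univ _)
  let q : Fin d → ℝ := fun k => max 1 ‖η k‖ * ‖al k‖
  have hq : ∀ k, 0 < q k := fun k =>
    mul_pos (lt_max_of_lt_left zero_lt_one) (norm_pos_iff.2 (hal k))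
  obtain ⟨G, hG, hdet, hquad⟩ := wmorb_gram E q s hq
    (fun k => by simp only [q, (hs k).1, (hs k).2.1, Complex.norm_conj]) (fun k => (hs k).2.2) hE
  have hGY : G.det ≤ Y := by
    refine le_trans (le_of_eq ?_) hY
    rw [hdet, ← Complex.norm_intCast, dA, norm_mul, norm_mul, norm_prod]
    simp only [q, Finset.prod_mul_distrib]
    ring
  obtain ⟨U, hU, hprod, hmono⟩ := hH G hG
  set E' := (Int.castRingHom ℂ).mapMatrix U * E with hE'
  have hdiag : ∀ i, (U.map (Int.cast : ℤ → ℝ) * G * (U.map (Int.cast : ℤ → ℝ))ᵀ) i i =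
      ∑ k, q k * ‖E' i k‖ ^ 2 := by
    intro i
    have := hquad fun a => (U i a : ℝ)
    simp only [Complex.ofReal_intCast] at this
    rw [Matrix.mul_assoc]
    exact Eq.trans rfl (this.trans rfl)
  simp only [hdiag] at hprod hmono
  have hE0 : E'.det ≠ 0 := by
    rw [hE', Matrix.det_mul]
    exact mul_ne_zero (wmorb_det U hU.ne_zero) hE
  have mA' := wmorb_conj U A E _ mA
  have mB' := wmorb_conj U B E _ mB
  rw [← hE'] at mA' mB'
  have eA : ∀ a b, (((U * A * Uᵀ) a b : ℤ) : ℂ) = ∑ k, al k * E' a k * E' b k := fun a b =>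
    (congrFun (congrFun mA' a) b).trans (wmoA_mat _ _ a b)
  have eB : ∀ a b, (((U * B * Uᵀ) a b : ℤ) : ℂ) = ∑ k, η k * al k * E' a k * E' b k := fun a b =>
    (congrFun (congrFun mB' a) b).trans (wmoA_mat _ _ a b)
  let lam : Fin d → ℝ := fun i => √(∑ k, q k * ‖E' i k‖ ^ 2)
  have l0 : ∀ i, 0 ≤ lam i := fun i => Real.sqrt_nonneg _
  have lm : Monotone lam := fun i j h => Real.sqrt_le_sqrt (hmono h)
  have bA : ∀ a b, |(((U * A * Uᵀ) a b : ℤ) : ℝ)| ≤ lam a * lam b := by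
    intro a b
    rw [← Complex.norm_intCast, eA]
    exact wmorb_cs q al _ _ fun k => le_mul_of_one_le_left (norm_nonneg _) (le_max_left _ _)
  have bB : ∀ a b, |(((U * B * Uᵀ) a b : ℤ) : ℝ)| ≤ lam a * lam b := by
    intro a b
    rw [← Complex.norm_intCast, eB]
    refine wmorb_cs q (fun k => η k * al k) _ _ fun k => ?_
    rw [norm_mul]
    exact mul_le_mul_of_nonneg_right (le_max_right _ _) (norm_nonneg _)
  have hz : ∀ z : ℤ, |(z : ℝ)| < 1 → (z : ℂ) = 0 := fun z h => by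
    have : |z| < 1 := by exact_mod_cast h
    rw [Int.abs_lt_one_iff.1 this, Int.cast_zero]
  have hL' : ∀ i j : Fin d, i ≤ j → d ≤ i + j + 2 → 1 ≤ lam i * lam j := by
    intro i j hij hd
    by_contra hlt
    have hs : ∀ a ≤ i, ∀ b ≤ j, lam a * lam b < 1 := fun a ha b hb =>
      (mul_le_mul (lm ha) (lm hb) (l0 b) (l0 i)).trans_lt (not_le.1 hlt)
    exact wmoA_block E' al η hη hal hE0 i j hij hd
      (fun a ha b hb => (eA a b).symm.trans (hz _ ((bA a b).trans_lt (hs a ha b hb))))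
      fun a ha b hb => (eB a b).symm.trans (hz _ ((bB a b).trans_lt (hs a ha b hb)))
  have hL : ∀ i j : Fin d, d ≤ i + j + 2 → 1 ≤ lam i * lam j := by
    intro i j hd
    rcases le_total i j with h | h
    · exact hL' i j h hd
    · rw [mul_comm]
      exact hL' j i h (by omega)
  refine ⟨U, hU, lam, fun i => ?_, lm, hL, ?_, ?_, ?_, bA, bB, ?_⟩
  · refine (l0 i).lt_of_ne fun h => ?_
    have hi := i.2
    have := hL i ⟨d - 1, by omega⟩ (by simp only; omega)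
    rw [← h, zero_mul] at this
    exact absurd this (by norm_num)
  · rw [← Finset.prod_pow]
    refine le_trans (le_of_eq (Finset.prod_congr rfl fun i _ => Real.sq_sqrt ?_))
      (hprod.trans (mul_le_mul_of_nonneg_left hGY (zero_le_one.trans hC)))
    exact Finset.sum_nonneg fun k _ => mul_nonneg (hq k).le (sq_nonneg _)
  · ext a b
    apply Int.cast_injective (α := ℂ)
    rw [Matrix.transpose_apply, eA, eA]
    exact Finset.sum_congr rfl fun k _ => by ring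
  · ext a b
    apply Int.cast_injective (α := ℂ)
    rw [Matrix.transpose_apply, eB, eB]
    exact Finset.sum_congr rfl fun k _ => by ring
  · intro N N' hN hNN h1 h2
    have k1 := congrArg (Int.castRingHom ℂ).mapMatrix h1
    have k2 := congrArg (Int.castRingHom ℂ).mapMatrix h2
    rw [wmorb_conj N _ _ _ mA', wmorb_conj N' _ _ _ mA'] at k1
    rw [wmorb_conj N _ _ _ mB', wmorb_conj N' _ _ _ mB'] at k2
    have := wmoA_rigid _ _ al η hη hal
      (by rw [Matrix.det_mul]; exact mul_ne_zero (wmorb_det N hN) hE0)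
      (by rw [← Matrix.add_mul, ← map_add, Matrix.det_mul]
          exact mul_ne_zero (wmorb_det _ hNN) hE0) k1 k2
    have hu : IsUnit E' := (Matrix.isUnit_iff_isUnit_det _).2 (isUnit_iff_ne_zero.2 hE0)
    have e := hu.mul_right_cancel this
    ext a b
    exact Int.cast_injective (α := ℂ) (congrFun (congrFun e a) b)

theorem wmorb_range (lam : Fin d → ℝ) (Z : ℝ) (hpos : ∀ i, 0 < lam i) (hm : Monotone lam)
    (hL : ∀ i j : Fin d, d ≤ i + j + 2 → 1 ≤ lam i * lam j) (hZ : (∏ i, lam i) ^ 2 ≤ Z)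
    (i : Fin d) : lam i ≤ Z ∧ 1 ≤ lam i * Z := by
  cases d with
  | zero => exact i.elim0
  | succ e =>
    have h1 : 1 ≤ (∏ a : Fin e, lam a.castSucc) ^ 2 := by
      rw [sq]
      nth_rewrite 2 [← Equiv.prod_comp Fin.revPerm]
      rw [← Finset.prod_mul_distrib]
      refine le_trans (le_of_eq Finset.prod_const_one.symm)
        (Finset.prod_le_prod (fun _ _ => zero_le_one) fun a _ => hL _ _ ?_)
      have := a.2
      simp only [Fin.revPerm_apply, Fin.val_castSucc, Fin.val_rev]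
      omega
    have h2 := hL (Fin.last e) (Fin.last e) (by simp only [Fin.val_last]; omega)
    have h3 := hL i (Fin.last e) (by simp only [Fin.val_last]; omega)
    rw [Fin.prod_univ_castSucc, mul_pow] at hZ
    have h4 := hpos (Fin.last e)
    have h5 : 1 ≤ lam (Fin.last e) := by nlinarith
    have h6 : lam (Fin.last e) ≤ Z := by nlinarith
    exact ⟨(hm (Fin.le_last i)).trans h6, h3.trans (mul_le_mul_of_nonneg_left h6 (hpos i).le)⟩

theorem wmorb_equiv (V V' A A' : Matrix (Fin d) (Fin d) ℤ) (hV' : IsUnit V'.det)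
    (h : V * A * Vᵀ = V' * A' * V'ᵀ) : V'⁻¹ * V * A * (V'⁻¹ * V)ᵀ = A' := by
  have e : V'⁻¹ * V * A * (V'⁻¹ * V)ᵀ = V'⁻¹ * (V * A * Vᵀ) * V'⁻¹ᵀ := by
    simp only [Matrix.transpose_mul, Matrix.mul_assoc]
  have e' : V'⁻¹ * (V' * A' * V'ᵀ) * V'⁻¹ᵀ = V'⁻¹ * V' * A' * (V'⁻¹ * V')ᵀ := by
    simp only [Matrix.transpose_mul, Matrix.mul_assoc]
  rw [e, h, e', Matrix.nonsing_inv_mul _ hV', Matrix.transpose_one, Matrix.one_mul, Matrix.mul_one]

theorem orb (d : ℕ) (ε : ℝ) (hε : 0 < ε) : ∃ C : ℝ, 1 ≤ C ∧ ∀ Y : ℝ, 1 ≤ Y →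
    ∀ (α : Type) (S : Finset α) (A B : α → Matrix (Fin d) (Fin d) ℤ),
      (∀ x ∈ S, Adm Y (A x) (B x)) →
      (∀ x ∈ S, ∀ y ∈ S, ∀ U : Matrix (Fin d) (Fin d) ℤ, IsUnit U.det →
        U * A x * Uᵀ = A y → U * B x * Uᵀ = B y → x = y) →
      (S.card : ℝ) ≤ C * Y ^ ((d : ℝ) + 1 + ε) := by
  obtain ⟨C, hC, hred⟩ := wmorb_red d
  obtain ⟨C', hC', hdy⟩ := cnt_dyadic (ε / (2 * d + 2)) (by positivity)
  have hK : (1 : ℝ) ≤ (2 * (d : ℝ) ^ 2 + 1) ^ (d * d + d) * (4 ^ d) ^ (d + 1) :=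
    one_le_mul_of_one_le_of_one_le (one_le_pow₀ (by nlinarith [sq_nonneg (d : ℝ)]))
      (one_le_pow₀ (one_le_pow₀ (by norm_num)))
  refine ⟨C' ^ d * ((2 * (d : ℝ) ^ 2 + 1) ^ (d * d + d) * (4 ^ d) ^ (d + 1)) * C ^ ((d : ℝ) + 1 + ε),
    one_le_mul_of_one_le_of_one_le (one_le_mul_of_one_le_of_one_le (one_le_pow₀ hC') hK)
      (Real.one_le_rpow hC (by positivity)), ?_⟩
  intro Y hY α S A B hA hin
  choose! U hU lam hpos hmono hL hZ hR using fun x hx => hred Y (A x) (B x) (hA x hx)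
  set Z := C * Y with hZd
  have hZ1 : 1 ≤ Z := one_le_mul_of_one_le_of_one_le hC hY
  have hZ0 : 0 < Z := zero_lt_one.trans_le hZ1
  let L : (Fin d → ℕ) → Fin d → ℝ := fun κ i => 2 * 2 ^ κ i / Z
  have hL0 : ∀ κ i, 0 < L κ i := fun κ i => by positivity
  have h1 : Cnt (fun κ : Fin d → ℕ => (∀ i, (2 : ℝ) ^ κ i ≤ Z ^ 2) ∧ Monotone (L κ) ∧
      (∀ i j : Fin d, d ≤ i + j + 2 → 1 ≤ L κ i * L κ j) ∧ (∏ i, L κ i) ^ 2 ≤ 4 ^ d * Z) _ :=
    (Cnt.pi fun _ : Fin d => hdy (Z ^ 2) (one_le_pow₀ hZ1)).mono (fun _ h => h.1) le_rfl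
  have h2 := h1.fibre (P := fun κ x => x ∈ S ∧
      WMoRed (L κ) (U x * A x * (U x)ᵀ) (U x * B x * (U x)ᵀ))
    (B' := (2 * (d : ℝ) ^ 2 + 1) ^ (d * d + d) * (4 ^ d * Z) ^ (d + 1)) (by positivity) (by
      rintro κ ⟨-, m, l, z⟩
      refine (wmoB_core (L κ) (hL0 κ) m l _ (fun x => U x * A x * (U x)ᵀ)
        (fun x => U x * B x * (U x)ᵀ) (fun x hx => hx.2) ?_).mono (fun _ h => h) ?_
      · intro x y hx hy N N' hN hN' e1 e2
        have u1 : IsUnit (N * U x).det := by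
          rw [Matrix.det_mul, hN, one_mul]
          exact hU x hx.1
        have u2 : IsUnit (N' * U y).det := by
          rw [Matrix.det_mul, hN', one_mul]
          exact hU y hy.1
        refine hin x hx.1 y hy.1 ((N' * U y)⁻¹ * (N * U x)) ?_ (wmorb_equiv _ _ _ _ u2 ?_)
          (wmorb_equiv _ _ _ _ u2 ?_)
        · rw [Matrix.det_mul]
          exact (Matrix.isUnit_nonsing_inv_det _ u2).mul u1
        · simpa only [Matrix.transpose_mul, Matrix.mul_assoc] using e1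
        · simpa only [Matrix.transpose_mul, Matrix.mul_assoc] using e2
      · refine mul_le_mul_of_nonneg_left ?_ (by positivity)
        rw [show 2 * d + 2 = 2 * (d + 1) by ring, pow_mul]
        exact pow_le_pow_left₀ (sq_nonneg _) z _)
  refine (h2 S fun x hx => ?_).trans ?_
  · have hr := wmorb_range (lam x) Z (hpos x hx) (hmono x hx) (hL x hx) (hZ x hx)
    choose κ k1 k2 using fun i => exists_dyadic (lam x i * Z) (hr i).2
    have a1 : ∀ i, lam x i ≤ L κ i := fun i => (le_div_iff₀ hZ0).2 (k2 i).le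
    have a2 : ∀ i, L κ i ≤ 2 * lam x i := fun i => (div_le_iff₀ hZ0).2 (by linarith [k1 i])
    have a3 : ∀ i j, lam x i * lam x j ≤ L κ i * L κ j := fun i j =>
      mul_le_mul (a1 i) (a1 j) (hpos x hx j).le (hL0 κ i).le
    obtain ⟨r1, r2, r3, r4, r5⟩ := hR x hx
    refine ⟨κ, ⟨fun i => (k1 i).trans ?_, fun i j hij => ?_,
      fun i j h => (hL x hx i j h).trans (a3 i j), ?_⟩, hx, r1, r2,
      fun a b => (r3 a b).trans (a3 a b), fun a b => (r4 a b).trans (a3 a b), r5⟩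
    · rw [sq]
      exact mul_le_mul_of_nonneg_right (hr i).1 hZ0.le
    · have b1 : (2 : ℝ) ^ κ i < 2 ^ (κ j + 1) := by
        rw [pow_succ']
        exact ((k1 i).trans (mul_le_mul_of_nonneg_right (hmono x hx hij) hZ0.le)).trans_lt (k2 j)
      have b2 : κ i ≤ κ j := Nat.lt_succ_iff.1 ((pow_lt_pow_iff_right₀ one_lt_two).1 b1)
      exact div_le_div_of_nonneg_right (mul_le_mul_of_nonneg_left
        (pow_le_pow_right₀ one_le_two b2) zero_le_two) hZ0.le
    · have b1 : ∏ i, L κ i ≤ ∏ i, 2 * lam x i :=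
        Finset.prod_le_prod (fun i _ => (hL0 κ i).le) fun i _ => a2 i
      refine (pow_le_pow_left₀ (Finset.prod_nonneg fun i _ => (hL0 κ i).le) b1 2).trans ?_
      rw [Finset.prod_mul_distrib, Finset.prod_const, Finset.card_univ, Fintype.card_fin, mul_pow,
        ← pow_mul, mul_comm d 2, pow_mul, show (2 : ℝ) ^ 2 = 4 by norm_num]
      exact mul_le_mul_of_nonneg_left (hZ x hx) (by positivity)
  · rw [Finset.prod_const, Finset.card_univ, Fintype.card_fin, mul_assoc _ (C ^ _),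
      ← Real.mul_rpow (zero_le_one.trans hC) (zero_le_one.trans hY), ← hZd]
    have b1 : ((Z ^ 2) ^ (ε / (2 * d + 2))) ^ d ≤ Z ^ ε := by
      rw [← Real.rpow_natCast Z 2, ← Real.rpow_mul hZ0.le, ← Real.rpow_natCast, ← Real.rpow_mul hZ0.le]
      refine Real.rpow_le_rpow_of_exponent_le hZ1 ?_
      have hd : (0 : ℝ) < 2 * d + 2 := by positivity
      rw [show ((2 : ℕ) : ℝ) * (ε / (2 * d + 2)) * d = ε * (2 * d) / (2 * d + 2) by push_cast; ring,
        div_le_iff₀ hd]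
      nlinarith
    have b2 : Z ^ ((d : ℝ) + 1 + ε) = Z ^ (d + 1) * Z ^ ε := by
      rw [Real.rpow_add hZ0, ← Real.rpow_natCast]
      push_cast
      rfl
    rw [b2, mul_pow C', mul_pow (4 ^ d : ℝ)]
    calc C' ^ d * ((Z ^ 2) ^ (ε / (2 * d + 2))) ^ d *
          ((2 * (d : ℝ) ^ 2 + 1) ^ (d * d + d) * ((4 ^ d) ^ (d + 1) * Z ^ (d + 1)))
        ≤ C' ^ d * Z ^ ε * ((2 * (d : ℝ) ^ 2 + 1) ^ (d * d + d) * ((4 ^ d) ^ (d + 1) * Z ^ (d + 1))) := by
          have := zero_le_one.trans hC'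
          gcongr
      _ = _ := by ring

end Pool.Agent.VW
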