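import Pool.Agent.P.MP_b0ea37_nt.WMpreT
import Pool.Agent.P.MP_b0ea37_nt.WMglue
import Pool.Agent.P.MP_b0ea37_nt.WMlat
import Pool.Agent.P.MP_b0ea37_nt.WMgrD
import Pool.Agent.P.MP_b0ea37_nt.WMadm
import Pool.Agent.P.MP_b0ea37_nt.WMeqv
import Pool.Agent.P.MP_b0ea37_nt.WMorb

namespace Pool.Agent.VW

open Polynomial Matrix

theorem WMcls_adm {d : ℕ} {Y Y' : ℝ} {A B : Matrix (Fin d) (Fin d) ℤ} (h : Adm Y A B)
    (hY : Y ≤ Y') : Adm Y' A B := by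
  obtain ⟨E, al, η, s, h1, h2, h3, h4, h5, h6⟩ := h
  exact ⟨E, al, η, s, h1, h2, h3, h4, h5, h6.trans hY⟩

theorem WMcls_pair {n d g : ℕ} (hd : d = 2 * g + 3) {D₀ D : Dat} (h₀ : Ok n d D₀) (h : Ok n d D)
    (hP : Pre d D₀ D) {η : Fin d → ℂ} (hη : Lst D.v η) :
    ∃ (E : Matrix (Fin d) (Fin d) ℂ) (A B : Matrix (Fin d) (Fin d) ℤ),
      Glued (fun p => Eloc d g p D₀ D η) E ∧ Gr E (alf D₀ D η) η A B ∧ A.det ≠ 0 ∧
        Adm ((d.factorial : ℝ) ^ (d - 1) * (d + 1) * D.v.supNorm) A B := by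
  have e : D₀.v = D.v := hP.1
  obtain ⟨E, hE⟩ := glue (Matrix.vandermonde η)ᵀ (fun p => Eloc d g p D₀ D η)
    (Eloc_finite d g e h.1 η)
    fun p hp => ⟨Eloc_det_ne_zero h₀ h e hη hp, Eloc_rat h₀ h e hη hp⟩
  obtain ⟨A, B, hG⟩ := gram_int hd h₀ h hP.symm hη hE
  obtain ⟨h1, h2⟩ := gram_det hd h₀ h hP.symm hη hE hG
  exact ⟨E, A, B, hE, hG, h1, gram_adm h₀ h e hη hE hG h1 h2⟩

/-- the number of square classes -/
theorem cls (n d g : ℕ) (hn : 2 ≤ n) (hd : d = 2 * g + 3) (ε : ℝ) (hε : 0 < ε) :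
    ∃ K : ℝ, 1 ≤ K ∧ ∀ (Z T B : ℝ) (S : Finset Dat), 1 ≤ T → T ≤ Z → 1 ≤ B → B ≤ Z →
      (∀ D ∈ S, Ok n d D ∧ D.v.supNorm ≤ 2 * T ∧
        |((resultant D.v D.f d n : ℤ) : ℝ)| ≤ B * (D.P : ℝ) ^ 2) →
      (∀ D ∈ S, ∀ D' ∈ S, ∀ κ, Sq d D D' κ → D = D') →
      (S.card : ℝ) ≤ K * Z ^ ε * (T ^ (d + 1) * B) := by
  classical
  obtain ⟨K₁, hK₁, H₁⟩ := pre_tot n d hn (by omega) (ε / 2) (half_pos hε)
  obtain ⟨C, hC, H₂⟩ := orb d (ε / 2) (half_pos hε)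
  set c : ℝ := (d.factorial : ℝ) ^ (d - 1) * (d + 1) * 2 with hc
  have hc1 : 1 ≤ c := by
    have h1 : (1 : ℝ) ≤ (d.factorial : ℝ) ^ (d - 1) :=
      one_le_pow₀ (by exact_mod_cast Nat.factorial_pos d)
    have h2 : (0 : ℝ) ≤ d := Nat.cast_nonneg d
    nlinarith
  have hce : 1 ≤ c ^ ((d : ℝ) + 1 + ε / 2) := Real.one_le_rpow hc1 (by positivity)
  have h2e : (1 : ℝ) ≤ 2 ^ (ε / 2) := Real.one_le_rpow one_le_two (by positivity)
  refine ⟨K₁ * 2 ^ (ε / 2) * (C * c ^ ((d : ℝ) + 1 + ε / 2)),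
    one_le_mul_of_one_le_of_one_le (one_le_mul_of_one_le_of_one_le hK₁ h2e)
      (one_le_mul_of_one_le_of_one_le hC hce), fun Z T B S hT hTZ hB hBZ hS hinj => ?_⟩
  have hη : ∀ v : ℤ[X], ∃ η : Fin d → ℂ, v.natDegree = d → Lst v η := fun v => by
    by_cases hv : v.natDegree = d
    · obtain ⟨η, h⟩ := exists_lst hv
      exact ⟨η, fun _ => h⟩
    · exact ⟨fun _ => 0, fun h => absurd h hv⟩
  choose η hη using hη
  have hZ : 1 ≤ Z := hT.trans hTZ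
  have hcT : 1 ≤ c * T := one_le_mul_of_one_le_of_one_le hc1 hT
  have key := numb S Dat.v (Pre d) (fun x hx => Pre.refl (hS x hx).1) (fun x _ y _ h => h.symm)
    (K := K₁ * (2 * Z) ^ (ε / 2) * B) (M := C * (c * T) ^ ((d : ℝ) + 1 + ε / 2)) (by positivity)
    (fun b U hU hb hR => ?_) (fun U rep hU hrep => ?_)
  · refine key.trans ?_
    have e1 : (c * T) ^ ((d : ℝ) + 1 + ε / 2) =
        c ^ ((d : ℝ) + 1 + ε / 2) * (T ^ (d + 1) * T ^ (ε / 2)) := by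
      rw [Real.mul_rpow (by positivity) (by positivity), Real.rpow_add (by positivity : 0 < T),
        ← Real.rpow_natCast T (d + 1)]
      push_cast
      rfl
    have e2 : Z ^ ε = Z ^ (ε / 2) * Z ^ (ε / 2) := by
      rw [← Real.rpow_add (by positivity), add_halves]
    have e3 : T ^ (ε / 2) ≤ Z ^ (ε / 2) := Real.rpow_le_rpow (by positivity) hTZ (by positivity)
    rw [e1, e2, Real.mul_rpow (by positivity) (by positivity)]
    calc _ = K₁ * 2 ^ (ε / 2) * (C * c ^ ((d : ℝ) + 1 + ε / 2)) * (Z ^ (ε / 2) * T ^ (ε / 2)) *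
          (T ^ (d + 1) * B) := by ring
      _ ≤ _ := by gcongr
  · rcases U.eq_empty_or_nonempty with rfl | ⟨x, hx⟩
    · simp only [Finset.card_empty, Nat.cast_zero]
      positivity
    · refine H₁ (2 * Z) B b U hB (by linarith) ?_
        (fun D hD => ⟨(hS D (hU hD)).1, hb D hD, (hS D (hU hD)).2.2⟩) hR
      rw [← hb x hx]
      exact (hS x (hU hx)).2.1.trans (by linarith)
  · have h1 : ∀ x : Dat, ∃ (E : Matrix (Fin d) (Fin d) ℂ) (A B : Matrix (Fin d) (Fin d) ℤ),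
        x ∈ U → Glued (fun p => Eloc d g p (rep x.v) x (η x.v)) E ∧
          Gr E (alf (rep x.v) x (η x.v)) (η x.v) A B ∧ A.det ≠ 0 ∧
          Adm ((d.factorial : ℝ) ^ (d - 1) * (d + 1) * x.v.supNorm) A B := fun x => by
      by_cases hx : x ∈ U
      · obtain ⟨E, A, B, h⟩ := WMcls_pair hd (hS _ (hrep x hx).1).1 (hS x (hU hx)).1
          (hrep x hx).2.2 (hη _ (hS x (hU hx)).1.1.1)
        exact ⟨E, A, B, fun _ => h⟩
      · exact ⟨0, 0, 0, fun h => absurd h hx⟩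
    choose E A B' h1 using h1
    refine H₂ (c * T) hcT Dat U A B' (fun x hx => WMcls_adm (h1 x hx).2.2.2 ?_)
      fun x hx y hy W hW e₁ e₂ => ?_
    · have := (hS x (hU hx)).2.1
      calc _ ≤ (d.factorial : ℝ) ^ (d - 1) * (d + 1) * (2 * T) := by gcongr
        _ = _ := by rw [hc]; ring
    · have ox := (hS x (hU hx)).1
      have oy := (hS y (hU hy)).1
      obtain ⟨gx, rx, -, -⟩ := h1 x hx
      obtain ⟨gy, ry, dy, -⟩ := h1 y hy
      have e : x.v = y.v := same_v ox.1 oy.1 (hη _ ox.1.1) (hη _ oy.1.1) rx ry dy e₁ e₂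
      rw [← e] at gy ry
      obtain ⟨κ, hκ⟩ := eqv_sq (by omega) (hS _ (hrep x hx).1).1 ox oy (hrep x hx).2.1 e
        (hη _ ox.1.1) gx gy rx ry dy hW e₁ e₂
      exact hinj x (hU hx) y (hU hy) κ hκ

end Pool.Agent.VW
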