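import Pool.Agent.P.MP_b0ea37_nt.WMprt
import Pool.Agent.P.MP_b0ea37_nt.WMcls

namespace Pool.Agent.VW

open Polynomial

/-- one cell -/
theorem cell_cnt (n d j g : ℕ) (hd : d = 2 * g + 3) (hn : n = d + 1 + j) (hj : j = 1 ∨ j = 2)
    (hn5 : 5 ≤ n) (ε : ℝ) (hε : 0 < ε) : ∃ c₀ : ℝ, 0 < c₀ ∧ ∃ K : ℝ, 1 ≤ K ∧
    ∀ (Z H T P₀ B l om : ℝ) (Q : Dat → Prop), 1 ≤ H → 1 ≤ T → T ≤ Z → 1 ≤ B → B ≤ Z → 0 < l →
      l ≤ 1 → 1 ≤ om → l ^ 2 * H / T ^ 2 ≤ c₀ → 0 ≤ P₀ → K * (l * H / T) ^ n * H ^ j < P₀ ^ 2 →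
      (∀ D, Q D → Fam n d j K H T P₀ om D ∧
        |((resultant D.v D.f d n : ℤ) : ℝ)| ≤ B * (D.P : ℝ) ^ 2) →
      (∀ D D', Q D → Q D' → (D.f = D'.f → D = D') ∧ (D.f - D'.f).supNorm ≤ l * H ∧
        (D.v = D'.v → Cl D.v D.f D'.f ∧
          ArchZ n d D.v D.f D'.f (l ^ 2 * H / T ^ 2) (l ^ 2 * H))) →
      Cnt Q (K * Z ^ ε * (T ^ (d + 1) * B) * mu j H (l * H / T) om) := by
  obtain ⟨K₁, hK₁, h₁⟩ := cls n d g (by omega) hd (ε / 2) (by linarith)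
  obtain ⟨c₀, hc₀, K₂, hK₂, h₂⟩ := prt n d j hn hj hn5 (by omega) (ε / 2) (by linarith)
  have h2d : (1 : ℝ) ≤ 2 ^ d := one_le_pow₀ one_le_two
  have hK : K₂ ≤ K₁ * 2 ^ d * K₂ :=
    le_mul_of_one_le_left (by linarith) (one_le_mul_of_one_le_of_one_le hK₁ h2d)
  refine ⟨c₀, hc₀, K₁ * 2 ^ d * K₂, hK₂.trans hK,
    fun Z H T P₀ B l om Q hH hT hTZ hB hBZ hl hl1 hom hc hP hKP hF hQ => ?_⟩
  have hmu := one_le_mu j (H := H) (Sg := l * H / T) (om := om) (by linarith) (by positivity)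
  have hZ : 0 < Z := by linarith
  have hM : 0 ≤ K₂ * Z ^ (ε / 2) * mu j H (l * H / T) om := by positivity
  have hKP' : K₂ * (l * H / T) ^ n * H ^ j < P₀ ^ 2 := lt_of_le_of_lt (by gcongr) hKP
  refine (Cnt.greedy (fun D D' => ∃ κ, Sq d D D' κ) (B := K₁ * Z ^ (ε / 2) * (T ^ (d + 1) * B))
    (B' := 2 ^ d * (K₂ * Z ^ (ε / 2) * mu j H (l * H / T) om))
    (fun D hD => ⟨_, Sq.refl (hF D hD).1.1⟩)
    (fun D D' hD hD' ⟨_, h⟩ => ⟨_, Sq.symm (hF D hD).1.1 (hF D' hD').1.1 h⟩) (by positivity)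
    (fun S hS hsep => h₁ Z T B S hT hTZ hB hBZ
      (fun D hD => ⟨(hF D (hS D hD)).1.1, (hF D (hS D hD)).1.2.2.2.2.2.1, (hF D (hS D hD)).2⟩)
      fun D hD D' hD' κ h => by_contra fun hne => hsep D hD D' hD' hne ⟨κ, h⟩)
    fun D₀ hD₀ => ?_).mono (fun _ h => h) (le_of_eq ?_)
  · refine sign_split hM (hF D₀ hD₀).1.1 (fun D hD => ⟨(hF D hD.1).1.1, hD.2, ?_⟩)
      fun Q' hQ' hs => h₂ Z H T P₀ l om Q' hH hT hTZ hl hl1 hom hc hP hKP'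
        (fun D hD => (hF D (hQ' D hD).1).1.mono hK (by linarith) (by linarith) (by linarith))
        fun D D' hD hD' => ?_
    · obtain ⟨κ, hκ⟩ := hD.2
      exact ((hQ D₀ D hD₀ hD.1).2.2 hκ.1).1
    · obtain ⟨a1, a2, a3⟩ := hQ D D' (hQ' D hD).1 (hQ' D' hD').1
      obtain ⟨κ, hκ, hκ'⟩ := hs D D' hD hD'
      exact ⟨a1, ⟨κ, hκ, hκ'⟩, a2, a3 hκ.1⟩
  · have e : Z ^ ε = Z ^ (ε / 2) * Z ^ (ε / 2) := by rw [← Real.rpow_add hZ, add_halves]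
    rw [e]
    ring

end Pool.Agent.VW
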