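import Pool.Agent.P.MP_b0ea37_nt.WMuniq

namespace Pool.Agent.VW

open Polynomial

/-- the top coefficient of a multiple of `v ^ 2` -/
theorem WMdeg_top {v W : ℤ[X]} {m : ℕ} (h : v ^ 2 ∣ W) (hm : W.natDegree ≤ m) :
    v.leadingCoeff ^ 2 ∣ W.coeff m := by
  rcases hm.lt_or_eq with hm | hm
  · rw [coeff_eq_zero_of_natDegree_lt hm]; exact dvd_zero _
  · rw [← hm, ← leadingCoeff_pow]; exact leadingCoeff_dvd_leadingCoeff h

/-- a small multiple vanishes -/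
theorem WMdeg_small {M y : ℤ} {s : ℝ} (hM : 0 < M) (h : M ∣ y) (hy : |(y : ℝ)| ≤ s * M)
    (hs : s < 1) : y = 0 := by
  have hM' : (0 : ℝ) < M := by exact_mod_cast hM
  have h1 : |(y : ℝ)| < M := hy.trans_lt (by nlinarith)
  exact Int.eq_zero_of_abs_lt_dvd h (by exact_mod_cast h1)

theorem WMdeg_deg {n : ℕ} {f f' G : ℤ[X]} (c : ℤ) (hf : f.natDegree ≤ n) (hf' : f'.natDegree ≤ n)
    (hG : G.natDegree ≤ n) : (C c * (f + f') - 2 * G).natDegree ≤ n := by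
  refine (natDegree_sub_le _ _).trans (max_le ?_ ?_)
  · exact (natDegree_C_mul_le _ _).trans ((natDegree_add_le _ _).trans (max_le hf hf'))
  · exact (natDegree_C_mul_le (2 : ℤ) G).trans hG

theorem WMdeg_coeff (f f' G : ℤ[X]) (c : ℤ) (i : ℕ) :
    (C c * (f + f') - 2 * G).coeff i = c * (f.coeff i + f'.coeff i) - 2 * G.coeff i := by
  have e : (2 : ℤ[X]) = C 2 := rfl
  rw [coeff_sub, coeff_C_mul, coeff_add, e, coeff_C_mul]

/-- the first archimedean bound kills a top coefficient -/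
theorem WMdeg_kill {n d e : ℕ} {v f f' G : ℤ[X]} {c y : ℤ} {a L : ℝ} (hv : VOk d v) (hc : 0 < c)
    (hG : NR v c f f' G) (hA : ArchZ n d v f f' a L)
    (he : (C c * (f + f') - 2 * G).natDegree ≤ e) (h1 : n - 1 ≤ e) (h2 : e < 2 * d)
    (hy : 0 < y) (ha : y * (c * a) < 1)
    (hdvd : v.leadingCoeff ^ 2 ∣ y * (C c * (f + f') - 2 * G).coeff e) :
    (C c * (f + f') - 2 * G).coeff e = 0 := by
  by_contra hne
  have hd := natDegree_eq_of_le_of_coeff_ne_zero he hne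
  have h3 := (hA c G _ hc hG (by rw [sub_self]; exact dvd_zero _)).1 (by rwa [hd]) (by rwa [hd])
  rw [leadingCoeff, hd] at h3
  have hy' : (0 : ℝ) < y := by exact_mod_cast hy
  refine mul_ne_zero hy.ne' hne (WMdeg_small (pow_pos hv.2.2.1 2) hdvd ?_ ha)
  rw [Int.cast_mul, abs_mul, abs_of_pos hy', Int.cast_pow, mul_assoc]
  exact mul_le_mul_of_nonneg_left h3 hy'.le

theorem root_deg_le {n d : ℕ} {v f f' U : ℤ[X]} {c : ℤ} {a L : ℝ} (hv : VOk d v) (hc : 0 < c)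
    (hf : f.natDegree ≤ n) (hf' : f'.natDegree ≤ n) (hU : NR v c f f' U)
    (hd : U.natDegree ≤ max n (2 * d - 1))
    (hi : ∀ i : ℕ, i + n ≤ max n (2 * d - 1) →
      ∃ U' : ℤ[X], U'.natDegree ≤ max n (2 * d - 1) ∧ v ^ 2 ∣ X ^ i * U - U')
    (hA : ArchZ n d v f f' a L) (ha : c * a < 1) : U.natDegree ≤ n := by
  by_contra hlt
  have hlt : n < U.natDegree := not_le.1 hlt
  have hU0 : U ≠ 0 := by
    rintro rfl
    simp at hlt
  obtain ⟨U', hU', hdv⟩ := hi (2 * d - U.natDegree) (by omega)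
  have hdeg : (X ^ (2 * d - U.natDegree) * U - U').natDegree ≤ 2 * d := by
    refine (natDegree_sub_le _ _).trans (max_le ?_ (by omega))
    refine natDegree_mul_le.trans ?_
    rw [natDegree_X_pow]
    omega
  have h1 := WMdeg_top hdv hdeg
  have e : 2 * d = U.natDegree + (2 * d - U.natDegree) := by omega
  have h2 : (X ^ (2 * d - U.natDegree) * U - U').coeff (2 * d) = U.coeff U.natDegree := by
    rw [coeff_sub, coeff_eq_zero_of_natDegree_lt (p := U') (by omega), sub_zero]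
    conv_lhs => arg 2; rw [e]
    exact coeff_X_pow_mul _ _ _
  rw [h2] at h1
  have h3 : (C c * (f + f') - 2 * U).coeff U.natDegree = -2 * U.coeff U.natDegree := by
    rw [WMdeg_coeff, coeff_eq_zero_of_natDegree_lt (hf.trans_lt hlt),
      coeff_eq_zero_of_natDegree_lt (hf'.trans_lt hlt)]
    ring
  have h4 := WMdeg_kill (y := 1) hv hc hU hA (WMdeg_deg c (hf.trans hlt.le) (hf'.trans hlt.le) le_rfl)
    (by omega) (by omega) one_pos (by simpa using ha) (by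
      rw [one_mul, h3]; exact h1.mul_left _)
  rw [h3] at h4
  exact mul_ne_zero (by norm_num) (leadingCoeff_ne_zero.2 hU0) h4

/-- a good square root: top coefficient `c`, small defect -/
def Gd (n : ℕ) (v : ℤ[X]) (c : ℤ) (L : ℝ) (f f' G : ℤ[X]) : Prop :=
  NR v c f f' G ∧ G.natDegree ≤ n ∧ G.coeff n = c ∧ (C c * (f + f') - 2 * G).natDegree + 2 ≤ n ∧
    (C c * (f + f') - 2 * G).supNorm ≤ c * L

/-- two square roots of `c ^ 2` modulo `M` of the same type -/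
theorem WMdeg_same {M c Y₁ Y₂ : ℤ} (hM : 0 < M) (h₁ : M ∣ Y₁ * Y₁ - c ^ 2)
    (h₂ : M ∣ Y₂ * Y₂ - c ^ 2) (hg : Int.gcd (Y₁ - c) M = Int.gcd (Y₂ - c) M) :
    M ∣ 2 * c * (Y₁ - Y₂) := by
  have key : ∀ Y : ℤ, M ∣ Y * Y - c ^ 2 → ∀ M' : ℤ, M = (Int.gcd (Y - c) M : ℤ) * M' →
      M' ∣ Y + c := by
    intro Y hY M' hM'
    have hpos : 0 < Int.gcd (Y - c) M := Int.gcd_pos_of_ne_zero_right _ hM.ne'
    have hne : (Int.gcd (Y - c) M : ℤ) ≠ 0 := by exact_mod_cast hpos.ne'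
    have hb := Int.gcd_eq_gcd_ab (Y - c) M
    obtain ⟨k, hk⟩ := hY
    have h1 : M ∣ (Int.gcd (Y - c) M : ℤ) * (Y + c) :=
      ⟨k * Int.gcdA (Y - c) M + Int.gcdB (Y - c) M * (Y + c), by
        rw [hb]; linear_combination Int.gcdA (Y - c) M * hk⟩
    obtain ⟨g, hgd⟩ : ∃ g : ℤ, g = (Int.gcd (Y - c) M : ℤ) := ⟨_, rfl⟩
    rw [← hgd] at h1 hM' hne
    rw [hM'] at h1
    exact (mul_dvd_mul_iff_left hne).1 h1
  obtain ⟨M', hM'⟩ : (Int.gcd (Y₁ - c) M : ℤ) ∣ M := Int.gcd_dvd_right _ _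
  obtain ⟨s₁, hs₁⟩ := key Y₁ h₁ M' hM'
  obtain ⟨s₂, hs₂⟩ := key Y₂ h₂ M' (by rw [← hg]; exact hM')
  obtain ⟨u₁, hu₁⟩ : (Int.gcd (Y₁ - c) M : ℤ) ∣ Y₁ - c := Int.gcd_dvd_left _ _
  obtain ⟨u₂, hu₂⟩ : (Int.gcd (Y₂ - c) M : ℤ) ∣ Y₂ - c := Int.gcd_dvd_left _ _
  rw [← hg] at hu₂
  obtain ⟨g, hgd⟩ : ∃ g : ℤ, g = (Int.gcd (Y₁ - c) M : ℤ) := ⟨_, rfl⟩
  rw [← hgd] at hM' hu₁ hu₂
  refine ⟨s₁ * (u₁ - u₂) - u₁ * (s₁ - s₂), ?_⟩
  have e1 : Y₁ - Y₂ = g * (u₁ - u₂) := by linear_combination hu₁ - hu₂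
  have e2 : Y₁ - Y₂ = M' * (s₁ - s₂) := by linear_combination hs₁ - hs₂
  calc 2 * c * (Y₁ - Y₂) = (Y₁ + c) * (Y₁ - Y₂) - (Y₁ - c) * (Y₁ - Y₂) := by ring
    _ = M' * s₁ * (g * (u₁ - u₂)) - g * u₁ * (M' * (s₁ - s₂)) := by
      rw [← hs₁, ← hu₁, ← e1, ← e2]
    _ = _ := by rw [hM']; ring

/-- the top coefficient of a difference of two products -/
theorem WMdeg_two {n : ℕ} {v A B A' B' : ℤ[X]} {c : ℤ} (h : v ^ 2 ∣ A * B - C c * A' * B')
    (hA : A.natDegree ≤ n) (hB : B.natDegree ≤ n) (hA' : A'.natDegree ≤ n)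
    (hB' : B'.natDegree ≤ n) :
    v.leadingCoeff ^ 2 ∣ A.coeff n * B.coeff n - c * (A'.coeff n * B'.coeff n) := by
  have h1 := WMdeg_top (m := n + n) h (by
    refine (natDegree_sub_le _ _).trans (max_le (natDegree_mul_le.trans (add_le_add hA hB)) ?_)
    exact natDegree_mul_le.trans (add_le_add ((natDegree_C_mul_le _ _).trans hA') hB'))
  rwa [coeff_sub, mul_assoc, coeff_C_mul, coeff_mul_add_eq_of_natDegree_le hA hB,
    coeff_mul_add_eq_of_natDegree_le hA' hB'] at h1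

/-- from the right top coefficient to a small defect -/
theorem WMdeg_gd {n d : ℕ} (hn : 2 ≤ n) (hnd : n ≤ 2 * d) {v f f' G : ℤ[X]} {c : ℤ} {a L : ℝ}
    (hv : VOk d v) (hc : 0 < c) (hf : f.Monic ∧ f.natDegree = n)
    (hf' : f'.Monic ∧ f'.natDegree = n) (hG : NR v c f f' G) (hd : G.natDegree ≤ n)
    (hGc : G.coeff n = c) (hA : ArchZ n d v f f' a L) (ha : (c : ℝ) ^ 2 * a < 1) :
    Gd n v c L f f' G := by
  have c1 : f.coeff n = 1 := by rw [← hf.2]; exact hf.1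
  have c2 : f'.coeff n = 1 := by rw [← hf'.2]; exact hf'.1
  obtain ⟨m, rfl⟩ : ∃ m, n = m + 1 := ⟨n - 1, by omega⟩
  have hE : (C c * (f + f') - 2 * G).natDegree ≤ m :=
    natDegree_le_pred (WMdeg_deg c hf.2.le hf'.2.le hd) (by rw [WMdeg_coeff, c1, c2, hGc]; ring)
  have hD : (f - f').natDegree ≤ m :=
    natDegree_le_pred ((natDegree_sub_le _ _).trans (max_le hf.2.le hf'.2.le))
      (by rw [coeff_sub, c1, c2, sub_self])
  have hS : (f + f').natDegree ≤ m + 1 := (natDegree_add_le _ _).trans (max_le hf.2.le hf'.2.le)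
  have hz : (C c * (f + f') - 2 * G).coeff m = 0 := by
    refine WMdeg_kill (y := c) hv hc hG hA hE (by omega) (by omega) hc (by linarith) ?_
    obtain ⟨E, hEd⟩ : ∃ E, E = C c * (f + f') - 2 * G := ⟨_, rfl⟩
    rw [← hEd] at hE ⊢
    obtain ⟨W, hW⟩ : ∃ W, W = G ^ 2 - C (c ^ 2) * f * f' := ⟨_, rfl⟩
    have hid : C (4 : ℤ) * W =
        (C (c ^ 2) * ((f - f') * (f - f')) + E * E) - C (2 * c) * ((f + f') * E) := by
      have e4 : C (4 : ℤ) = 4 := rfl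
      have e2 : C (2 : ℤ) = 2 := rfl
      rw [hW, hEd, C_mul, C_pow, e4, e2]
      ring
    have d1 : (C (c ^ 2) * ((f - f') * (f - f')) + E * E).natDegree ≤ m + m :=
      (natDegree_add_le _ _).trans (max_le
        ((natDegree_C_mul_le _ _).trans (natDegree_mul_le.trans (add_le_add hD hD)))
        (natDegree_mul_le.trans (add_le_add hE hE)))
    have d2 : W.natDegree ≤ m + 1 + m := by
      rw [← natDegree_C_mul (p := W) (by norm_num : (4 : ℤ) ≠ 0), hid]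
      refine (natDegree_sub_le _ _).trans (max_le (d1.trans (by omega)) ?_)
      exact (natDegree_C_mul_le _ _).trans (natDegree_mul_le.trans (add_le_add hS hE))
    have h1 := WMdeg_top (hW ▸ hG.1) d2
    have h2 := congrArg (fun q : ℤ[X] => q.coeff (m + 1 + m)) hid
    simp only [coeff_sub, coeff_C_mul] at h2
    rw [coeff_eq_zero_of_natDegree_lt (d1.trans_lt (by omega)),
      coeff_mul_add_eq_of_natDegree_le hS hE, coeff_add, c1, c2] at h2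
    have h3 : c * E.coeff m = -W.coeff (m + 1 + m) := by linarith
    rw [h3]
    exact h1.neg_right
  have hE2 : (C c * (f + f') - 2 * G).natDegree + 2 ≤ m + 1 := by
    have := natDegree_le_pred hE hz
    omega
  exact ⟨hG, hd, hGc, hE2,
    (hA c G _ hc hG (by rw [sub_self]; exact dvd_zero _)).2 hE2⟩

theorem ysplit {n d : ℕ} (hn : 2 ≤ n) (hnd : n ≤ 2 * d) {v f f' f₀ G₁ G₂ G₃ : ℤ[X]} {c : ℤ}
    {a L : ℝ} (hv : VOk d v) (hc : 0 < c) (hf : f.Monic ∧ f.natDegree = n)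
    (hf' : f'.Monic ∧ f'.natDegree = n) (hf₀ : f₀.Monic ∧ f₀.natDegree = n)
    (h₁ : NR v c f f₀ G₁) (h₂ : NR v c f' f₀ G₂) (h₃ : NR v c f f' G₃) (d₁ : G₁.natDegree ≤ n)
    (d₂ : G₂.natDegree ≤ n) (d₃ : G₃.natDegree ≤ n) (k₁ : Cl v f f') (k₂ : Cl v f f₀)
    (hg : Int.gcd (G₁.coeff n - c) (v.leadingCoeff ^ 2) =
      Int.gcd (G₂.coeff n - c) (v.leadingCoeff ^ 2))
    (hA : ArchZ n d v f f' a L) (ha0 : 0 ≤ a) (ha : (2 * (c : ℝ) ^ 3) ^ 2 * a < 1) :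
    ∃ G, Gd n v (2 * c ^ 3) L f f' G := by
  have _ := ha0
  have c1 : f.coeff n = 1 := by rw [← hf.2]; exact hf.1
  have c2 : f'.coeff n = 1 := by rw [← hf'.2]; exact hf'.1
  have c0 : f₀.coeff n = 1 := by rw [← hf₀.2]; exact hf₀.1
  have hM : 0 < v.leadingCoeff ^ 2 := pow_pos hv.2.2.1 2
  have m1 := WMdeg_two (sq G₁ ▸ h₁.1) d₁ d₁ hf.2.le hf₀.2.le
  have m2 := WMdeg_two (sq G₂ ▸ h₂.1) d₂ d₂ hf'.2.le hf₀.2.le
  have m3 := WMdeg_two (NR.triple hv.2.1 hc h₁ h₂ h₃ k₁ k₂) d₁ d₂ hf₀.2.le d₃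
  rw [c1, c0, mul_one, mul_one] at m1
  rw [c2, c0, mul_one, mul_one] at m2
  rw [c0, one_mul] at m3
  have m4 := WMdeg_same hM m1 m2 hg
  obtain ⟨k, hk⟩ : v.leadingCoeff ^ 2 ∣ 2 * c ^ 2 * (G₃.coeff n - c) := by
    have e : 2 * c ^ 2 * (G₃.coeff n - c) =
        2 * c * (G₁.coeff n * G₁.coeff n - c ^ 2) - G₁.coeff n * (2 * c * (G₁.coeff n - G₂.coeff n))
          - 2 * c * (G₁.coeff n * G₂.coeff n - c * G₃.coeff n) := by ring
    rw [e]
    exact ((m1.mul_left _).sub (m4.mul_left _)).sub (m3.mul_left _)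
  have he : 0 < 2 * c ^ 2 := by positivity
  have hc3 : 0 < 2 * c ^ 3 := by positivity
  have e3 : 2 * c ^ 2 * c = 2 * c ^ 3 := by ring
  have ha' : ((2 * c ^ 3 : ℤ) : ℝ) ^ 2 * a < 1 := by push_cast; exact ha
  rcases hnd.lt_or_eq with hlt | heq
  · have hG := h₃.smul he 0
    rw [mul_zero, add_zero, e3] at hG
    have hd : (C (2 * c ^ 2) * G₃).natDegree ≤ n := (natDegree_C_mul_le _ _).trans d₃
    have h5 : (C (2 * c ^ 3) * (f + f') - 2 * (C (2 * c ^ 2) * G₃)).coeff n =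
        v.leadingCoeff ^ 2 * (-2 * k) := by
      rw [WMdeg_coeff, c1, c2, coeff_C_mul]
      linear_combination (-2) * hk
    have h6 := WMdeg_kill (y := 2 * c ^ 3) hv hc3 hG hA (WMdeg_deg _ hf.2.le hf'.2.le hd)
      (by omega) hlt hc3 (by linarith) (by rw [h5]; exact (dvd_mul_right _ _).mul_left _)
    refine ⟨_, WMdeg_gd hn hnd hv hc3 hf hf' hG hd ?_ hA ha'⟩
    rw [WMdeg_coeff, c1, c2] at h6
    linarith
  · have hG := h₃.smul he (C (-k))
    rw [e3] at hG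
    have hv2 : (v ^ 2).natDegree = n := by rw [natDegree_pow, hv.1, heq]
    refine ⟨_, WMdeg_gd hn hnd hv hc3 hf hf' hG ?_ ?_ hA ha'⟩
    · exact (natDegree_add_le _ _).trans (max_le ((natDegree_C_mul_le _ _).trans d₃)
        ((natDegree_mul_C_le _ _).trans hv2.le))
    · have h5 : (v ^ 2).coeff n = v.leadingCoeff ^ 2 := by
        rw [← leadingCoeff_pow, ← hv2]; rfl
      rw [coeff_add, coeff_C_mul, coeff_mul_C, h5]
      linear_combination hk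

end Pool.Agent.VW
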