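import Pool.Agent.P.MP_b0ea37_nt.WMloc

namespace Pool.Agent.VW

open Polynomial Matrix

theorem wmgrI_aeval (z : ℂ) (g : ℤ[X]) : aeval z g = (up ℂ g).eval z := by
  rw [up, eval_map, aeval_def]; rfl

/-- the coefficient functional of a monic polynomial -/
theorem trace_int {d : ℕ} {V : ℤ[X]} {ζ : Fin d → ℂ} (hV : Roots (up ℂ V) ζ)
    (hζ : Function.Injective ζ) (g : ℤ[X]) :
    ∃ z : ℤ, ∑ k, aeval (ζ k) g / aeval (ζ k) (derivative V) = z := by
  classical
  have hn : up ℂ V = Lagrange.nodal Finset.univ ζ := by rw [Lagrange.nodal_eq]; exact hV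
  have hinj : Function.Injective (Int.castRingHom ℂ) := (Int.castRingHom ℂ).injective_int
  have hm : V.Monic := monic_of_injective hinj (by
    have : (up ℂ V).Monic := by rw [hn]; exact Lagrange.nodal_monic
    exact this)
  have hdeg : (up ℂ (g %ₘ V)).degree < (Finset.univ : Finset (Fin d)).card := by
    rw [← Lagrange.degree_nodal (v := ζ), ← hn, up, up, degree_map_eq_of_injective hinj,
      degree_map_eq_of_injective hinj]
    exact degree_modByMonic_lt g hm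
  have hc := Lagrange.coeff_eq_sum (s := Finset.univ) (v := ζ) hζ.injOn hdeg
  refine ⟨(g %ₘ V).coeff ((Finset.univ : Finset (Fin d)).card - 1), ?_⟩
  rw [up, coeff_map, eq_intCast] at hc
  rw [hc]
  refine Finset.sum_congr rfl fun k _ => ?_
  have h0 : aeval (ζ k) V = 0 := by
    rw [wmgrI_aeval, hn]; exact Lagrange.eval_nodal_at_node (Finset.mem_univ k)
  have h1 : aeval (ζ k) g = aeval (ζ k) (g %ₘ V) := by
    conv_lhs => rw [← modByMonic_add_div g V]
    rw [map_add, map_mul, h0, zero_mul, add_zero]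
  have h2 : aeval (ζ k) (derivative V) = ∏ j ∈ Finset.univ.erase k, (ζ k - ζ j) := by
    rw [wmgrI_aeval, up, ← derivative_map, ← up, hn,
      Lagrange.eval_nodal_derivative_eval_node_eq (Finset.mem_univ k), Lagrange.eval_nodal]
  rw [h1, h2, wmgrI_aeval]

theorem deriv_Vp {d p : ℕ} (hd : 2 ≤ d) {v : ℤ[X]} (hv : VOk d v) (hp : p.Prime) {z : ℂ}
    (hz : aeval z v = 0) : aeval (zt d p v z) (derivative (Vp d p v)) =
      - zt d p v z ^ (d - 2) * aeval z (derivative v) := by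
  have hc : (cc d p v : ℂ) ≠ 0 := Int.cast_ne_zero.2 (cc_ne_zero hv hp)
  have hy := zt_ne_zero hv hp hz
  have hm := zt_mul hv hp hz
  set y := zt d p v z
  set c : ℂ := ((cc d p v : ℤ) : ℂ) with hcd
  set t : ℂ := ((tt d p v : ℤ) : ℂ) with htd
  have hzy : t + c / y = z := by rw [← hm]; field_simp; ring
  have h1 : HasDerivAt (fun w : ℂ => c * aeval w (Vp d p v))
      (c * aeval y (derivative (Vp d p v))) y := ((Vp d p v).hasDerivAt_aeval y).const_mul c
  have h2 : HasDerivAt (fun w : ℂ => t + c / w) (-c / y ^ 2) y := by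
    have := (((hasDerivAt_const y c).div (hasDerivAt_id y) hy)).const_add t
    simpa using this
  have h3 : HasDerivAt (fun w : ℂ => aeval (t + c / w) v)
      (aeval z (derivative v) * (-c / y ^ 2)) y := by
    have := (v.hasDerivAt_aeval (t + c / y)).comp y h2
    rw [hzy] at this
    exact this
  have h4 := (hasDerivAt_pow d y).mul h3
  have h5 : (fun w : ℂ => c * aeval w (Vp d p v)) =ᶠ[nhds y]
      (fun w : ℂ => w ^ d) * fun w : ℂ => aeval (t + c / w) v := by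
    filter_upwards [isOpen_ne.mem_nhds hy] with w hw
    have e := aeval_Tw (k := d) (t := tt d p v) (c := cc d p v) (g := v) hv.1.le
      (x := t + c / w) (y := w) (by rw [← htd, ← hcd]; field_simp; ring)
    have e2 := congrArg (aeval w) (C_mul_VV d (tt d p v) v)
    rw [map_mul, aeval_C, eq_intCast] at e2
    exact e2.trans e
  have h6 := h1.unique (h4.congr_of_eventuallyEq h5)
  rw [hzy, hz, mul_zero, zero_add] at h6
  obtain ⟨e, rfl⟩ := Nat.exists_eq_add_of_le hd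
  rw [Nat.add_sub_cancel_left]
  apply mul_left_cancel₀ hc
  rw [h6]
  field_simp
  ring

theorem wmgrI_glue {d : ℕ} {E Ep : Matrix (Fin d) (Fin d) ℂ} {U : Matrix (Fin d) (Fin d) ℤ}
    {N M : ℤ} (β : Fin d → ℂ) (hE : (N : ℂ) • E = U.map (Int.cast : ℤ → ℂ) * Ep)
    (h : ∀ a b, ∃ z : ℤ, (M : ℂ) * ∑ k, β k * Ep a k * Ep b k = z) (a b : Fin d) :
    ∃ z : ℤ, ((N * N * M : ℤ) : ℂ) * ∑ k, β k * E a k * E b k = z := by
  choose G hG using h
  have e : ∀ a k, (N : ℂ) * E a k = ∑ i, (U a i : ℂ) * Ep i k := fun a k => by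
    have := congrFun (congrFun hE a) k
    simpa [Matrix.mul_apply] using this
  refine ⟨∑ i, ∑ j, U a i * U b j * G i j, ?_⟩
  push_cast
  calc (N : ℂ) * N * M * ∑ k, β k * E a k * E b k
      = ∑ k, M * (β k * (N * E a k) * (N * E b k)) := by
        rw [Finset.mul_sum]; exact Finset.sum_congr rfl fun k _ => by ring
    _ = ∑ k, ∑ i, ∑ j, (U a i : ℂ) * U b j * (M * (β k * Ep i k * Ep j k)) := by
        refine Finset.sum_congr rfl fun k _ => ?_
        rw [e, e, mul_assoc, Finset.sum_mul_sum, Finset.mul_sum, Finset.mul_sum]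
        refine Finset.sum_congr rfl fun i _ => ?_
        rw [Finset.mul_sum, Finset.mul_sum]
        exact Finset.sum_congr rfl fun j _ => by ring
    _ = _ := by
        rw [Finset.sum_comm]
        refine Finset.sum_congr rfl fun i _ => ?_
        rw [Finset.sum_comm]
        refine Finset.sum_congr rfl fun j _ => ?_
        rw [← hG, Finset.mul_sum, Finset.mul_sum]

theorem wmgrI_term {g a b : ℕ} {f f₀ q q₀ y u s : ℂ} (hy : y ≠ 0) :
    f / (f₀ * u) * s * (q₀ / q * y ^ a / y ^ g) * (q₀ / q * y ^ b / y ^ g) =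
      -(f * q₀ ^ 2 / (f₀ * q ^ 2) * (y ^ (a + b) * (s * y))) / (-y ^ (2 * g + 1) * u) := by
  have h1 : y * y⁻¹ = 1 := mul_inv_cancel₀ hy
  simp only [neg_mul, div_eq_mul_inv, mul_inv, ← inv_pow]
  linear_combination
    (-(f * f₀⁻¹ * u⁻¹ * s * q₀ ^ 2 * q⁻¹ ^ 2 * y ^ (a + b) * y⁻¹ ^ (2 * g))) * h1

theorem wmgrI_loc {n d g p : ℕ} (hd : d = 2 * g + 3) {D₀ D : Dat} (h : Ok n d D)
    (hP : Pre d D D₀) {η : Fin d → ℂ} (hη : Lst D.v η) (hp : p.Prime) :
    ∃ M : ℤ, ¬ (p : ℤ) ∣ M ∧ ∀ (s : Fin d → ℂ) (σ : ℤ[X]),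
      (∀ k, s k * zt d p D.v (η k) = aeval (zt d p D.v (η k)) σ) → ∀ a b, ∃ z : ℤ,
        (M : ℂ) * ∑ k, alf D₀ D η k * s k * Eloc d g p D₀ D η a k * Eloc d g p D₀ D η b k = z := by
  obtain ⟨M, w, hM, hw⟩ := (hP.2 p hp).1
  refine ⟨M, hM, fun s σ hs a b => ?_⟩
  have hv := h.1
  have hr : ∀ k, aeval (η k) D.v = 0 := fun k => (hη.root_iff hv.2.1.ne_zero _).2 ⟨k, rfl⟩
  obtain ⟨z, hz⟩ := trace_int (hη.roots_Vp hv hp)
    (fun k j e => hη.injective hv (zt_inj hv hp (hr k) (hr j) e)) (-(w * (X ^ (a + b : ℕ) * σ)))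
  refine ⟨z, ?_⟩
  rw [← hz, Finset.mul_sum]
  refine Finset.sum_congr rfl fun k _ => ?_
  have e : d - 2 = 2 * g + 1 := by omega
  rw [deriv_Vp (by omega) hv hp (hr k), e, map_neg, map_mul, map_mul, map_pow, aeval_X,
    ← hw _ (hr k), ← hs k, alf, Eloc, Matrix.of_apply, Matrix.of_apply,
    wmgrI_term (zt_ne_zero hv hp (hr k))]
  ring

theorem gram_int {n d g : ℕ} (hd : d = 2 * g + 3) {D₀ D : Dat} (h₀ : Ok n d D₀) (h : Ok n d D)
    (hP : Pre d D D₀) {η : Fin d → ℂ} (hη : Lst D.v η) {E : Matrix (Fin d) (Fin d) ℂ}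
    (hE : Glued (fun p => Eloc d g p D₀ D η) E) : ∃ A B, Gr E (alf D₀ D η) η A B := by
  have _ := h₀
  have key : ∀ s : Fin d → ℂ, (∀ p : ℕ, p.Prime → ∃ σ : ℤ[X],
      ∀ k, s k * zt d p D.v (η k) = aeval (zt d p D.v (η k)) σ) → ∀ a b, ∃ z : ℤ,
        ∑ k, alf D₀ D η k * s k * E a k * E b k = z := by
    intro s hs a b
    refine int_of_loc _ fun p hp => ?_
    obtain ⟨N, U, U', hN, hU, -⟩ := hE p hp
    obtain ⟨M, hM, hl⟩ := wmgrI_loc hd h hP hη hp
    obtain ⟨σ, hσ⟩ := hs p hp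
    obtain ⟨z, hz⟩ := wmgrI_glue (fun k => alf D₀ D η k * s k) hU (hl s σ hσ) a b
    refine ⟨N * N * M, z, fun hdv => ?_, hz⟩
    have hpp := Nat.prime_iff_prime_int.1 hp
    rcases hpp.dvd_or_dvd hdv with h1 | h1
    · exact hN ((hpp.dvd_or_dvd h1).elim id id)
    · exact hM h1
  have hr : ∀ k, aeval (η k) D.v = 0 := fun k => (hη.root_iff h.1.2.1.ne_zero _).2 ⟨k, rfl⟩
  choose A hA using key (fun _ => 1) fun p _ => ⟨X, fun k => by rw [one_mul, aeval_X]⟩
  choose B hB using key η fun p hp => ⟨C (tt d p D.v) * X + C (cc d p D.v), fun k => by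
    have := zt_mul h.1 hp (hr k)
    rw [map_add, map_mul, aeval_C, aeval_C, aeval_X, eq_intCast, eq_intCast]
    linear_combination this⟩
  refine ⟨Matrix.of A, Matrix.of B, fun a b => ?_, fun a b => ?_⟩
  · rw [Matrix.of_apply, ← hA]; simp only [mul_one]
  · rw [Matrix.of_apply, ← hB]

end Pool.Agent.VW
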