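import Pool.Agent.P.MP_b0ea37_nt.WMuniq

namespace Pool.Agent.VW

open Polynomial

theorem WMintC_comp {S : Type} [CommRing S] (φ : ℚ[X] →+* S) (y : ℚ[X]) (g : ℤ[X]) :
    φ ((up ℚ g).comp y) = aeval (φ y) g := by
  rw [comp, hom_eval₂, up, eval₂_map, aeval_def]
  congr 1
  exact RingHom.ext_int _ _

theorem WMintC_mk {S : Type} [CommRing S] (φ : ℚ[X] →+* S) (g : ℤ[X]) :
    aeval (φ X) g = φ (up ℚ g) := by
  rw [← WMintC_comp, comp_X]

theorem WMintC_ev (z : ℂ) (g : ℤ[X]) : aeval z (up ℚ g) = aeval z g := by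
  rw [up, ← algebraMap_int_eq, aeval_map_algebraMap]

theorem WMintC_deg (k : ℕ) (t c : ℤ) (g : ℤ[X]) : (Tw k t c g).natDegree ≤ k :=
  natDegree_sum_le_of_forall_le _ _ fun i _ =>
    (natDegree_C_mul_X_pow_le _ _).trans (Nat.sub_le k i)

theorem WMintC_mod (G V : ℤ[X]) (hV : V.Monic) {m : ℕ} (h : V.natDegree ≤ m + 1) :
    (G %ₘ V).natDegree ≤ m := by
  by_cases h1 : V = 1
  · simp [h1]
  · exact Nat.le_of_lt_succ ((natDegree_modByMonic_lt G hV h1).trans_le h)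

/-- the local coordinate as a polynomial modulo `v ^ 2` -/
theorem WMintC_y (v : ℤ[X]) (t : ℤ) (hc : v.eval t ≠ 0) :
    ∃ y r : ℚ[X], (X - C (t : ℚ)) * y = C ((v.eval t : ℤ) : ℚ) + up ℚ v ^ 2 * r := by
  have e := modByMonic_add_div v (X - C t)
  rw [modByMonic_X_sub_C_eq_C_eval] at e
  have e1 := congrArg (up ℚ) e
  simp only [up, Polynomial.map_add, Polynomial.map_mul, Polynomial.map_sub, map_X,
    eq_intCast] at e1
  have hc' : ((v.eval t : ℤ) : ℚ) ≠ 0 := by exact_mod_cast hc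
  have e2 : C ((v.eval t : ℤ) : ℚ) * C ((v.eval t : ℤ) : ℚ)⁻¹ = 1 := by
    rw [← C_mul, mul_inv_cancel₀ hc', C_1]
  refine ⟨-(up ℚ (v /ₘ (X - C t))) * (C ((v.eval t : ℤ) : ℚ) + up ℚ v) * C ((v.eval t : ℤ) : ℚ)⁻¹,
    -C ((v.eval t : ℤ) : ℚ)⁻¹, ?_⟩
  simp only [up, eq_intCast, map_intCast, Polynomial.map_intCast] at e1 e2 ⊢
  linear_combination (-(((v.eval t : ℤ) : ℚ[X]) + v.map (Int.castRingHom ℚ)) *
    C ((v.eval t : ℤ) : ℚ)⁻¹) * e1 + ((v.eval t : ℤ) : ℚ[X]) * e2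

/-- back from the local coordinate -/
theorem loc_back {n d m p : ℕ} (hm : 2 * d ≤ m + 1) {v f f' : ℤ[X]} (hv : VOk d v) (hp : p.Prime)
    (hf : f.natDegree ≤ n) (hf' : f'.natDegree ≤ n) {g : ℚ[X]}
    (hg : up ℚ v ^ 2 ∣ g ^ 2 - up ℚ f * up ℚ f') (hg' : ∀ z : ℂ, aeval z v = 0 → aeval z g ≠ 0)
    {M : ℤ} {Γ : ℤ[X]} (hM : ¬ (p : ℤ) ∣ M)
    (hΓ : Vp d p v ^ 2 ∣ Γ ^ 2 - C ((2 * M) ^ 2) * Tw n (tt d p v) (cc d p v) f *
      Tw n (tt d p v) (cc d p v) f')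
    (hval : ∀ z : ℂ, aeval z v = 0 →
      aeval (zt d p v z) Γ = 2 * M * (zt d p v z ^ n * aeval z g)) (i : ℕ) (hi : i + n ≤ m) :
    ∃ (N : ℤ) (U : ℤ[X]), ¬ (p : ℤ) ∣ N ∧ U.natDegree ≤ m ∧
      up ℚ v ^ 2 ∣ C ((N * (2 * (d.factorial : ℤ) ^ m) : ℤ) : ℚ) * X ^ i * g - up ℚ U := by
  obtain ⟨-, -, N₀, hN₀, e, he⟩ := goodT_tt hv hp
  have hc : cc d p v ≠ 0 := cc_ne_zero hv hp
  have hzt := fun z hz => zt_mul (z := z) hv hp hz
  have hVm : (Vp d p v).Monic := VV_monic _ _ _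
  have hVd : (Vp d p v).natDegree = d := VV_natDegree _ _ _
  have hCV : C (cc d p v) * Vp d p v = Tw d (tt d p v) (cc d p v) v := C_mul_VV _ _ _
  obtain ⟨y₀, r, hy₀⟩ := WMintC_y v (tt d p v) hc
  change (X - C (tt d p v : ℚ)) * y₀ = C (cc d p v : ℚ) + _ at hy₀
  change N₀ * _ = cc d p v * e at he
  generalize cc d p v = c at *
  generalize tt d p v = t at *
  generalize Vp d p v = V at *
  have hM0 : M ≠ 0 := by
    rintro rfl
    exact hM (dvd_zero _)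
  have hcQ : (c : ℚ) ≠ 0 := by exact_mod_cast hc
  have hcC : (c : ℂ) ≠ 0 := by exact_mod_cast hc
  have hMC : (M : ℂ) ≠ 0 := by exact_mod_cast hM0
  obtain ⟨S, _, φ, hφ⟩ : ∃ (S : Type) (_ : CommRing S) (φ : ℚ[X] →+* S),
      ∀ a b, φ a = φ b ↔ up ℚ v ^ 2 ∣ a - b :=
    ⟨AdjoinRoot (up ℚ v ^ 2), inferInstance, AdjoinRoot.mk _, fun _ _ => AdjoinRoot.mk_eq_mk⟩
  obtain ⟨x, hx⟩ : ∃ x, x = φ X := ⟨_, rfl⟩
  obtain ⟨y, hy⟩ : ∃ y, y = φ y₀ := ⟨_, rfl⟩
  have hq0 : φ (up ℚ v ^ 2) = 0 := by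
    rw [← map_zero φ, hφ, sub_zero]
  have hxy : (x - t) * y = c := by
    have := congrArg φ hy₀
    rw [map_add, map_mul φ (up ℚ v ^ 2), hq0] at this
    simpa [hx, hy] using this
  have hv2 : aeval x v ^ 2 = 0 := by
    rw [hx, WMintC_mk, ← map_pow, hq0]
  have hV2 : aeval y (V ^ 2) = 0 := by
    have e1 := congrArg (aeval y) hCV
    rw [aeval_Tw hv.1.le hxy, map_mul, aeval_C, eq_intCast] at e1
    have hu : IsUnit (c : S) := by simpa using (Ne.isUnit hcQ).map (φ.comp C)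
    refine (hu.pow 2).mul_right_eq_zero.1 ?_
    rw [map_pow, ← mul_pow, e1, mul_pow, hv2, mul_zero]
  have hcomp : φ ((up ℚ Γ).comp y₀) = aeval y Γ := hy ▸ WMintC_comp φ y₀ Γ
  have hG : aeval y Γ ^ 2 = (2 * M) ^ 2 * (y ^ n * aeval x f) * (y ^ n * aeval x f') := by
    obtain ⟨w, hw⟩ := hΓ
    have e1 := congrArg (aeval y) hw
    rw [map_mul _ (V ^ 2), hV2, zero_mul, map_sub, map_mul, map_mul, aeval_Tw hf hxy,
      aeval_Tw hf' hxy, map_pow, aeval_C, eq_intCast, sub_eq_zero] at e1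
    rw [e1]
    push_cast
    ring
  have hg2 : φ g ^ 2 = aeval x f * aeval x f' := by
    rw [hx, WMintC_mk, WMintC_mk, ← map_pow, ← map_mul]
    exact (hφ _ _).2 hg
  have hkey : (x - t) ^ n * aeval y Γ = 2 * M * c ^ n * φ g := by
    have h1 : up ℚ v ^ 2 ∣
        (X - C (t : ℚ)) ^ n * (up ℚ Γ).comp y₀ - C ((2 * M * c ^ n : ℤ) : ℚ) * g := by
      refine sq_dvd_sub ((hφ _ _).1 ?_) fun z hz => ?_
      · rw [map_pow, map_pow, map_mul, map_mul, hcomp, mul_pow, mul_pow, hG, hg2]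
        simp only [map_pow, map_sub, map_intCast, ← hx]
        push_cast
        rw [← hxy, mul_pow (x - t)]
        ring
      · have hz' := (WMintC_ev z v).symm.trans hz
        have e1 := congrArg (aeval z) hy₀
        simp only [map_mul, map_sub, map_add, map_pow, aeval_X, map_intCast, hz] at e1
        have e2 := hzt z hz'
        have hzt0 : z - t ≠ 0 := fun h0 => hcC (by rw [← e2, h0, zero_mul])
        have e3 : aeval z y₀ = zt d p v z := mul_left_cancel₀ hzt0 (by rw [e1, e2]; simp)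
        rw [map_mul, map_mul, aeval_comp, WMintC_ev, e3, hval z hz']
        simp only [map_pow, map_sub, map_intCast, aeval_X]
        have e4 : (z - t) ^ n * zt d p v z ^ n = c ^ n := by rw [← mul_pow, e2]
        have e5 : (z - t) ^ n * (2 * M * (zt d p v z ^ n * aeval z g)) +
            ((2 * M * c ^ n : ℤ) : ℂ) * aeval z g = 4 * M * c ^ n * aeval z g := by
          push_cast
          linear_combination 2 * M * aeval z g * e4
        rw [e5]
        exact mul_ne_zero (mul_ne_zero (mul_ne_zero (by norm_num) hMC) (pow_ne_zero _ hcC))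
          (hg' z hz')
    have h2 := (hφ _ _).2 h1
    rw [map_mul, map_mul, hcomp] at h2
    simp only [map_pow, map_sub, map_intCast, ← hx] at h2
    rw [h2]
    push_cast
    ring
  obtain ⟨k, rfl⟩ := Nat.exists_eq_add_of_le hi
  set G := (Γ * X ^ k * (C t * X + C c) ^ i) %ₘ V ^ 2 with hGd
  have hGdeg : G.natDegree ≤ i + n + k :=
    WMintC_mod _ _ (hVm.pow 2) (by rw [natDegree_pow, hVd]; exact hm)
  have hGy : aeval y G = aeval y Γ * y ^ k * (x * y) ^ i := by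
    have e1 := congrArg (aeval y) (modByMonic_add_div (Γ * X ^ k * (C t * X + C c) ^ i) (V ^ 2))
    rw [map_add, map_mul, hV2, zero_mul, add_zero] at e1
    rw [e1]
    simp only [map_mul, map_pow, map_add, aeval_X, eq_intCast, map_intCast]
    rw [← hxy]
    ring
  refine ⟨M * N₀ ^ (i + n + k), C (e ^ (i + n + k)) * (Tw (i + n + k) 0 c G).comp (X - C t),
    fun hd => ?_, ?_, (hφ _ _).1 ?_⟩
  · have hp' : Prime (p : ℤ) := Nat.prime_iff_prime_int.1 hp
    exact (hp'.dvd_or_dvd hd).elim hM fun h => hN₀ (hp'.dvd_of_dvd_pow h)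
  · refine (natDegree_C_mul_le _ _).trans (natDegree_comp_le.trans ?_)
    rw [natDegree_X_sub_C, mul_one]
    exact WMintC_deg _ _ _ _
  · have e1 : (M * N₀ ^ (i + n + k) * (2 * (d.factorial : ℤ) ^ (i + n + k)) : ℤ) =
        e ^ (i + n + k) * (2 * M * c ^ (i + n + k)) := by
      rw [mul_mul_mul_comm, ← mul_pow, he, mul_pow]
      ring
    rw [← WMintC_mk, ← hx, map_mul (aeval x), aeval_comp, map_sub, aeval_X, aeval_C, aeval_C, eq_intCast,
      eq_intCast, aeval_Tw (x := y) hGdeg (by push_cast; linear_combination hxy), hGy, e1]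
    simp only [map_mul, map_pow, map_intCast, ← hx]
    push_cast
    have e2 : (c : S) ^ (i + n + k) = c ^ n * ((x - t) ^ (i + k) * y ^ (i + k)) := by
      rw [← mul_pow, hxy]
      ring
    rw [e2]
    linear_combination
      (-((e : S) ^ (i + n + k) * x ^ i * ((x - t) ^ (i + k) * y ^ (i + k)))) * hkey

end Pool.Agent.VW
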