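import Pool.Agent.P.MP_b0ea37_nt.WMintB
import Pool.Agent.P.MP_b0ea37_nt.WMintC

namespace Pool.Agent.VW

open Polynomial

/-- rational polynomials that are congruent to an integer polynomial of degree at most `m` -/
def WMintSub (w : ℚ[X]) (m : ℕ) : AddSubgroup ℚ[X] where
  carrier := {h | ∃ U : ℤ[X], U.natDegree ≤ m ∧ w ∣ h - up ℚ U}
  zero_mem' := ⟨0, by simp, by simp [up]⟩
  add_mem' := by
    rintro a b ⟨U, hU, ha⟩ ⟨U', hU', hb⟩
    refine ⟨U + U', (natDegree_add_le _ _).trans (max_le hU hU'), ?_⟩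
    have e : a + b - up ℚ (U + U') = (a - up ℚ U) + (b - up ℚ U') := by
      simp only [up, Polynomial.map_add]; ring
    rw [e]; exact dvd_add ha hb
  neg_mem' := by
    rintro a ⟨U, hU, ha⟩
    refine ⟨-U, by rwa [natDegree_neg], ?_⟩
    have e : -a - up ℚ (-U) = -(a - up ℚ U) := by
      simp only [up, Polynomial.map_neg]; ring
    rw [e]; exact (dvd_neg).2 ha

theorem WMint_aeval_up (z : ℂ) (U : ℤ[X]) : aeval z (up ℚ U) = aeval z U := by
  have e : (Int.castRingHom ℚ) = algebraMap ℤ ℚ := Subsingleton.elim _ _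
  rw [up, e, aeval_map_algebraMap]

theorem WMint_up_C (c : ℤ) : up ℚ (C c) = C (c : ℚ) := by
  rw [up, map_C]; rfl

theorem WMint_prim_sq {v : ℤ[X]} (hv : v.IsPrimitive) : (v ^ 2).IsPrimitive := by
  rw [pow_two]; exact hv.mul hv

theorem WMint_dvd {v g : ℤ[X]} (hv : v.IsPrimitive) (h : up ℚ v ^ 2 ∣ up ℚ g) : v ^ 2 ∣ g := by
  refine dvd_of_up_dvd (WMint_prim_sq hv) ?_
  rwa [up, Polynomial.map_pow]

/-- integrality of the square root -/
theorem int_root {n d m : ℕ} (hn : 2 ≤ n) (hnm : n ≤ m) (hm : 2 * d ≤ m + 1) {D D' : Dat}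
    (h : Ok n d D) (h' : Ok n d D') (hs : Sq1 d D D') : ∃ U : ℤ[X], U.natDegree ≤ m ∧
      NR D.v (2 * (d.factorial : ℤ) ^ m) D.f D'.f U ∧
      ∀ i : ℕ, i + n ≤ m → ∃ U' : ℤ[X], U'.natDegree ≤ m ∧ D.v ^ 2 ∣ X ^ i * U - U' := by
  obtain ⟨κ, hq, hκ⟩ := hs
  obtain ⟨g, hg, hgz⟩ := hq.exists_rat h h'
  have hvv : D.v = D'.v := hq.1
  have hv : VOk d D.v := h.1
  have hf : D.f.natDegree ≤ n := h.2.2.1.le
  have hf' : D'.f.natDegree ≤ n := h'.2.2.1.le
  have hg' : ∀ z : ℂ, aeval z D.v = 0 → aeval z g ≠ 0 := by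
    intro z hz
    rw [hgz z hz]
    refine mul_ne_zero ?_ (h.2.2.2.2.2.2.2.2 z hz)
    intro h0
    have := hκ z hz
    rw [h0] at this
    norm_num at this
  set c : ℤ := 2 * (d.factorial : ℤ) ^ m with hc
  have hc0 : 0 < c := by positivity
  have key : ∀ i : ℕ, i + n ≤ m → ∃ U : ℤ[X], U.natDegree ≤ m ∧
      up ℚ D.v ^ 2 ∣ C (c : ℚ) * X ^ i * g - up ℚ U := by
    intro i hi
    refine mem_of_loc (WMintSub (up ℚ D.v ^ 2) m) (C (c : ℚ) * X ^ i * g) ?_
    intro p hp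
    obtain ⟨M, Γ, hM, hΓ, hval⟩ := loc_root hn h h' hq hp
    have hΓ' : Vp d p D.v ^ 2 ∣ Γ ^ 2 - C ((2 * M) ^ 2) * Tw n (tt d p D.v) (cc d p D.v) D.f *
        Tw n (tt d p D.v) (cc d p D.v) D'.f := by
      have e : FF n d p D' = Tw n (tt d p D.v) (cc d p D.v) D'.f := by rw [FF, ← hvv]
      rw [← e]; exact hΓ
    have hval' : ∀ z : ℂ, aeval z D.v = 0 →
        aeval (zt d p D.v z) Γ = 2 * M * (zt d p D.v z ^ n * aeval z g) := by
      intro z hz
      rw [hval z hz, aeval_FF h hp hz, hgz z hz]; ring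
    obtain ⟨N, U, hN, hU, hd⟩ := loc_back hm hv hp hf hf' hg hg' hM hΓ' hval' i hi
    refine ⟨N, hN, U, hU, ?_⟩
    have e : N • (C (c : ℚ) * X ^ i * g) = C (((N * c : ℤ)) : ℚ) * X ^ i * g := by
      have e1 : C (((N * c : ℤ)) : ℚ) = (N : ℚ[X]) * C (c : ℚ) := by
        rw [Int.cast_mul N c, C_mul, C_eq_intCast N]
      rw [e1, zsmul_eq_mul]; ring
    rw [e]; exact hd
  obtain ⟨U, hU, hd⟩ := key 0 (by omega)
  rw [pow_zero, mul_one] at hd
  refine ⟨U, hU, ⟨?_, ?_⟩, ?_⟩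
  · refine WMint_dvd hv.2.1 ?_
    have e : up ℚ (U ^ 2 - C (c ^ 2) * D.f * D'.f) =
        C (c : ℚ) ^ 2 * (g ^ 2 - up ℚ D.f * up ℚ D'.f) -
          (C (c : ℚ) * g - up ℚ U) * (C (c : ℚ) * g + up ℚ U) := by
      rw [← WMint_up_C]
      simp only [up, Polynomial.map_sub, Polynomial.map_mul, Polynomial.map_pow, C_pow]
      ring
    rw [e]
    exact dvd_sub (hg.mul_left _) (hd.mul_right _)
  · intro z hz
    obtain ⟨w, hw⟩ := hd
    have h0 := congrArg (aeval z) hw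
    rw [map_sub, map_mul, map_mul, map_pow, WMint_aeval_up, WMint_aeval_up, hz, hgz z hz,
      aeval_C] at h0
    have h1 : aeval z U - (c : ℂ) * aeval z D.f = (c : ℂ) * aeval z D.f * (κ z - 1) := by
      have e : (algebraMap ℚ ℂ) (c : ℚ) = (c : ℂ) := by simp
      rw [e] at h0
      linear_combination -h0
    have hcr : (0 : ℝ) ≤ (c : ℝ) := by exact_mod_cast hc0.le
    rw [h1, norm_mul, norm_mul, Complex.norm_intCast, abs_of_nonneg hcr]
    have h2 := mul_le_mul_of_nonneg_left (hκ z hz) (mul_nonneg hcr (norm_nonneg (aeval z D.f)))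
    linarith
  · intro i hi
    obtain ⟨U', hU', hd'⟩ := key i hi
    refine ⟨U', hU', WMint_dvd hv.2.1 ?_⟩
    have e : up ℚ (X ^ i * U - U') =
        (C (c : ℚ) * X ^ i * g - up ℚ U') - X ^ i * (C (c : ℚ) * g - up ℚ U) := by
      simp only [up, Polynomial.map_sub, Polynomial.map_mul, Polynomial.map_pow, map_X]
      ring
    rw [e]
    exact dvd_sub hd' (hd.mul_left _)

end Pool.Agent.VW
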