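import Pool.Agent.P.MP_b0ea37_nt.WMlocA

namespace Pool.Agent.VW

open Polynomial

theorem WMintB_ring {R : Type} [CommRing R] {V F F' q q' u₀ u₁ u₀' u₁' w w' m m' N N' : R}
    (h1 : V ^ 2 ∣ N ^ 2 * F - q ^ 2 * u₀ - q * V * u₁)
    (h2 : V ^ 2 ∣ N' ^ 2 * F' - q' ^ 2 * u₀' - q' * V * u₁')
    (h3 : V ∣ m ^ 2 * N ^ 2 * u₀' - N' ^ 2 * w ^ 2 * u₀) (h4 : V ∣ w * w' - m * m') :
    ∃ s : R, V ^ 2 ∣ (2 * m * m' * N' ^ 2 * w * q * q' * u₀ + V * s) ^ 2 -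
      (2 * (m ^ 2 * m' * N ^ 2 * N' ^ 2)) ^ 2 * F * F' := by
  obtain ⟨a, h1⟩ := h1
  obtain ⟨a', h2⟩ := h2
  obtain ⟨b, h3⟩ := h3
  obtain ⟨g, h4⟩ := h4
  obtain ⟨S, hS⟩ : ∃ S, S = q * q' * b + q * u₁' * m ^ 2 * N ^ 2 + q' * u₁ * N' ^ 2 * w ^ 2 :=
    ⟨_, rfl⟩
  obtain ⟨B, hB⟩ : ∃ B, B = q' ^ 2 * b + m ^ 2 * N ^ 2 * q' * u₁' := ⟨_, rfl⟩
  have e : m ^ 2 * N ^ 2 * N' ^ 2 * F' =
      q' ^ 2 * N' ^ 2 * w ^ 2 * u₀ + V * B + V ^ 2 * (m ^ 2 * N ^ 2 * a') := by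
    rw [hB]
    linear_combination m ^ 2 * N ^ 2 * h2 + q' ^ 2 * h3
  refine ⟨w' * S, 4 * m * m' * N' ^ 2 * q * q' * u₀ * S * g + w' ^ 2 * S ^ 2 -
    4 * m ^ 2 * m' ^ 2 * N' ^ 2 * (q ^ 2 * u₀ * (m ^ 2 * N ^ 2 * a') + q * u₁ * B +
      a * (q' ^ 2 * N' ^ 2 * w ^ 2 * u₀) + V * (q * u₁ * (m ^ 2 * N ^ 2 * a') + a * B) +
      V ^ 2 * (a * (m ^ 2 * N ^ 2 * a'))), ?_⟩
  have e' : q * q' * u₀ * S = q ^ 2 * u₀ * B + q * u₁ * (q' ^ 2 * N' ^ 2 * w ^ 2 * u₀) := by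
    rw [hS, hB]
    ring
  linear_combination 4 * m * m' * N' ^ 2 * q * q' * u₀ * V * S * h4 -
    4 * m ^ 2 * m' ^ 2 * N' ^ 2 * ((q' ^ 2 * N' ^ 2 * w ^ 2 * u₀ + V * B +
      V ^ 2 * (m ^ 2 * N ^ 2 * a')) * h1 + N ^ 2 * F * e - V * e')

theorem WMintB_root {n d p : ℕ} {D : Dat} (h : Ok n d D) (hp : p.Prime) {N : ℤ} {u₀ u₁ : ℤ[X]}
    (e : Vp d p D.v ^ 2 ∣ C (N ^ 2) * FF n d p D - piP d p D ^ 2 * u₀ - piP d p D * Vp d p D.v * u₁)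
    {z : ℂ} (hz : aeval z D.v = 0) :
    (N : ℂ) ^ 2 * aeval (zt d p D.v z) (FF n d p D) = pz d p D z ^ 2 * aeval (zt d p D.v z) u₀ := by
  have h1 := map_dvd (aeval (zt d p D.v z)) e
  simp only [map_pow, map_sub, map_mul, aeval_zt_Vp h.1 hp hz, eq_intCast, map_intCast] at h1
  have h2 := zero_dvd_iff.1 ((zero_pow two_ne_zero).symm.dvd.trans h1)
  rw [pz]
  linear_combination h2

/-- the square root in the local coordinate -/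
theorem loc_root {n d p : ℕ} (hn : 2 ≤ n) {D D' : Dat} {κ : ℂ → ℂ} (h : Ok n d D)
    (h' : Ok n d D') (hs : Sq d D D' κ) (hp : p.Prime) : ∃ (M : ℤ) (Γ : ℤ[X]), ¬ (p : ℤ) ∣ M ∧
      Vp d p D.v ^ 2 ∣ Γ ^ 2 - C ((2 * M) ^ 2) * FF n d p D * FF n d p D' ∧
      ∀ z : ℂ, aeval z D.v = 0 → aeval (zt d p D.v z) Γ =
        2 * M * (κ z * aeval (zt d p D.v z) (FF n d p D)) := by
  obtain ⟨N, u₀, u₁, hN, e⟩ := loc_dec hn h hp
  obtain ⟨N', u₀', u₁', hN', e'⟩ := loc_dec hn h' hp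
  obtain ⟨hv, hκ, hR⟩ := hs
  obtain ⟨⟨m, w, hm, hw⟩, m', w', hm', hw'⟩ := hR p hp
  have r := fun z hz => WMintB_root h hp e (z := z) hz
  have r' := fun z (hz : aeval z D.v = 0) => WMintB_root h' hp e' (z := z) (hv ▸ hz)
  have q := fun z hz => pz_ne_zero (p := p) h (z := z) hz
  have q' := fun z (hz : aeval z D.v = 0) => pz_ne_zero (p := p) h' (z := z) (hv ▸ hz)
  have k0 : ∀ z, aeval z D.v = 0 → κ z ≠ 0 := fun z hz h0 =>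
    h'.2.2.2.2.2.2.2.2 z (hv ▸ hz) (by rw [hκ z hz, h0]; ring)
  have hF : ∀ z, aeval z D.v = 0 → aeval (zt d p D.v z) (FF n d p D') =
      κ z ^ 2 * aeval (zt d p D.v z) (FF n d p D) := fun z hz => by
    have := aeval_FF h' hp (hv ▸ hz)
    rw [← hv] at this
    rw [this, aeval_FF h hp hz, hκ z hz]
    ring
  have w1 : ∀ z, aeval z D.v = 0 →
      aeval (zt d p D.v z) w * pz d p D' z = m * (κ z * pz d p D z) := fun z hz => by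
    rw [← hw z hz, mul_assoc, div_mul_cancel₀ _ (q' z hz)]
  rw [← hv] at e' r'
  rw [C_pow] at e e'
  obtain ⟨s, hs⟩ := WMintB_ring (w := w) (w' := w') (m := C m) (m' := C m') e e'
    (Vp_dvd h.1 hp fun z hz => mul_left_cancel₀ (pow_ne_zero 2 (q' z hz)) (by
      simp only [map_pow, map_sub, map_mul, eq_intCast, map_intCast]
      linear_combination (-(m : ℂ) ^ 2 * N ^ 2) * r' z hz + (m : ℂ) ^ 2 * N ^ 2 * N' ^ 2 * hF z hz +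
        (m : ℂ) ^ 2 * N' ^ 2 * κ z ^ 2 * r z hz - (N' : ℂ) ^ 2 * aeval (zt d p D.v z) u₀ *
        (aeval (zt d p D.v z) w * pz d p D' z + m * (κ z * pz d p D z)) * w1 z hz))
    (Vp_dvd h.1 hp fun z hz => by
      have a1 := q z hz
      have a2 := q' z hz
      have a3 := k0 z hz
      simp only [map_sub, map_mul, eq_intCast, map_intCast]
      rw [← hw z hz, ← hw' z hz]
      field_simp
      ring)
  have hp' := Nat.prime_iff_prime_int.1 hp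
  refine ⟨m ^ 2 * m' * N ^ 2 * N' ^ 2, 2 * C m * C m' * C N' ^ 2 * w * piP d p D * piP d p D' * u₀ +
    Vp d p D.v * s, fun hd => ?_, hs.trans (dvd_of_eq ?_), fun z hz => ?_⟩
  · simp only [hp'.dvd_mul, hp'.dvd_pow_iff_dvd two_ne_zero] at hd
    tauto
  · simp only [map_pow, map_mul, map_ofNat]
  · have a1 : aeval (zt d p D.v z) (piP d p D') = pz d p D' z := by rw [pz, hv]
    have a2 : aeval (zt d p D.v z) (piP d p D) = pz d p D z := rfl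
    simp only [map_add, map_pow, map_mul, map_ofNat, eq_intCast, map_intCast, aeval_zt_Vp h.1 hp hz,
      a1, a2]
    push_cast
    linear_combination 2 * (m : ℂ) * m' * N' ^ 2 * pz d p D z * aeval (zt d p D.v z) u₀ * w1 z hz -
      2 * (m : ℂ) ^ 2 * m' * N' ^ 2 * κ z * r z hz

end Pool.Agent.VW
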