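import Pool.Agent.P.MP_b0ea37_nt.WMD2
import Pool.Agent.P.MP_b0ea37_nt.WHt

namespace Pool.Agent.VW

open Polynomial

theorem dvd_of_up_dvd {v g : ℤ[X]} (hv : v.IsPrimitive) (h : up ℚ v ∣ up ℚ g) : v ∣ g :=
  (IsPrimitive.Int.dvd_iff_map_cast_dvd_map_cast v g hv).2 h

theorem dvd_of_upC_dvd {v g : ℤ[X]} (hv : v.IsPrimitive) (h : up ℂ v ∣ up ℂ g) : v ∣ g := by
  refine dvd_of_up_dvd hv ((map_dvd_map' (algebraMap ℚ ℂ)).1 ?_)
  have e : (algebraMap ℚ ℂ).comp (Int.castRingHom ℚ) = Int.castRingHom ℂ := RingHom.ext_int _ _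
  rwa [Polynomial.map_map, Polynomial.map_map, e]

/-- local to global -/
theorem mem_of_loc {E : Type} [AddCommGroup E] (M : AddSubgroup E) (x : E)
    (h : ∀ p : ℕ, p.Prime → ∃ N : ℤ, ¬ (p : ℤ) ∣ N ∧ N • x ∈ M) : x ∈ M := by
  obtain ⟨a, ha⟩ := Int.subgroup_cyclic (M.comap (zmultiplesHom E x))
  have hm : ∀ N : ℤ, N • x ∈ M ↔ a ∣ N := fun N => by
    have : N ∈ M.comap (zmultiplesHom E x) ↔ N • x ∈ M := Iff.rfl
    rw [← this, ha, ← AddSubgroup.zmultiples_eq_closure, Int.mem_zmultiples_iff]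
  by_cases h1 : a.natAbs = 1
  · rw [← one_zsmul x, hm, ← Int.natAbs_dvd, h1]
    exact dvd_rfl
  · obtain ⟨p, hp, hd⟩ := Nat.exists_prime_and_dvd h1
    obtain ⟨N, hN, hx⟩ := h p hp
    exact absurd ((Int.natCast_dvd.2 hd).trans ((hm N).1 hx)) hN

theorem int_of_loc (x : ℂ)
    (h : ∀ p : ℕ, p.Prime → ∃ N z : ℤ, ¬ (p : ℤ) ∣ N ∧ (N : ℂ) * x = z) : ∃ z : ℤ, x = z := by
  obtain ⟨z, hz⟩ := mem_of_loc (Int.castAddHom ℂ).range x fun p hp => by
    obtain ⟨N, z, hN, e⟩ := h p hp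
    exact ⟨N, hN, z, by rw [zsmul_eq_mul, e]; rfl⟩
  exact ⟨z, hz.symm⟩

theorem dvd_of_loc (a b : ℤ) (h : ∀ p : ℕ, p.Prime → ∃ N : ℤ, ¬ (p : ℤ) ∣ N ∧ a ∣ N * b) :
    a ∣ b :=
  Int.mem_zmultiples_iff.1 (mem_of_loc (AddSubgroup.zmultiples a) b fun p hp => by
    obtain ⟨N, hN, e⟩ := h p hp
    exact ⟨N, hN, Int.mem_zmultiples_iff.2 e⟩)

theorem aeval_Tw {S : Type} [CommRing S] {k : ℕ} {t c : ℤ} {g : ℤ[X]} (hg : g.natDegree ≤ k)
    {x y : S} (h : (x - t) * y = c) : aeval y (Tw k t c g) = y ^ k * aeval x g := by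
  have e : aeval x g = aeval (x - t) (taylor t g) := by
    rw [taylor_apply, aeval_comp]
    simp
  rw [e, aeval_eq_sum_range' (n := k + 1) (p := taylor t g)
    (by rw [natDegree_taylor]; omega), Tw, map_sum, Finset.mul_sum]
  refine Finset.sum_congr rfl fun i hi => ?_
  obtain ⟨j, rfl⟩ := Nat.exists_eq_add_of_le (Nat.lt_succ_iff.1 (Finset.mem_range.1 hi))
  rw [map_mul, map_pow, aeval_X, aeval_C, Nat.add_sub_cancel_left, zsmul_eq_mul]
  simp only [eq_intCast, Int.cast_mul, Int.cast_pow]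
  rw [← h, mul_pow, pow_add]
  ring

theorem WMloc_deg (d : ℕ) (a : ℕ → ℤ) :
    (∑ i ∈ Finset.range d, C (a i) * X ^ (d - 1 - i)).degree < (d : WithBot ℕ) :=
  (degree_sum_le _ _).trans_lt ((Finset.sup_lt_iff (WithBot.bot_lt_coe _)).2 fun i hi =>
    (degree_C_mul_X_pow_le _ _).trans_lt (by
      have := Finset.mem_range.1 hi
      exact_mod_cast (by omega : d - 1 - i < d)))

theorem VV_monic (d : ℕ) (t : ℤ) (v : ℤ[X]) : (VV d t v).Monic :=
  monic_X_pow_add (WMloc_deg d _)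

theorem VV_natDegree (d : ℕ) (t : ℤ) (v : ℤ[X]) : (VV d t v).natDegree = d := by
  refine natDegree_eq_of_degree_eq_some ?_
  rw [VV, degree_add_eq_left_of_degree_lt, degree_X_pow]
  rw [degree_X_pow]
  exact WMloc_deg d _

theorem C_mul_VV (d : ℕ) (t : ℤ) (v : ℤ[X]) :
    C (v.eval t) * VV d t v = Tw d t (v.eval t) v := by
  rw [VV, Tw, Finset.sum_range_succ', mul_add, add_comm, Finset.mul_sum, taylor_coeff_zero,
    pow_zero, mul_one, Nat.sub_zero]
  congr 1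
  refine Finset.sum_congr rfl fun i _ => ?_
  rw [← mul_assoc, ← C_mul, Nat.sub_sub, add_comm 1 i]
  congr 2
  ring

theorem WMloc_fact (M : ℤ) (d : ℕ) (v : ℤ[X]) (hd : v.natDegree ≤ d)
    (h : ∀ t : ℕ, t ≤ d → M ∣ v.eval (t : ℤ)) :
    (∀ s : ℕ, M ∣ v.eval (s : ℤ)) ∧ ∀ i, M ∣ d.factorial * v.coeff i := by
  induction d generalizing v with
  | zero =>
    rw [eq_C_of_natDegree_le_zero hd] at h ⊢
    have h0 := h 0 le_rfl
    rw [eval_C] at h0
    refine ⟨fun s => by rwa [eval_C], fun i => Dvd.dvd.mul_left ?_ _⟩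
    rw [coeff_C]
    split_ifs
    · exact h0
    · exact dvd_zero _
  | succ d ih =>
    set P := descPochhammer ℤ (d + 1) with hP
    have hPd : P.natDegree = d + 1 := descPochhammer_natDegree _ _
    have hP1 : P.coeff (d + 1) = 1 := by
      rw [← hPd]
      exact (monic_descPochhammer ℤ (d + 1)).coeff_natDegree
    have hPe : ∀ s : ℕ, P.eval (s : ℤ) = (s.descFactorial (d + 1) : ℕ) := fun s =>
      descPochhammer_eval_eq_descFactorial ℤ s (d + 1)
    set c := v.coeff (d + 1) with hc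
    have hw : (v - C c * P).natDegree ≤ d := by
      rw [natDegree_le_iff_coeff_eq_zero]
      intro N hN
      rw [coeff_sub, coeff_C_mul]
      rcases (Nat.succ_le_of_lt hN).eq_or_lt with e | e
      · rw [← e, hP1, mul_one, sub_self]
      · rw [coeff_eq_zero_of_natDegree_lt (hd.trans_lt e),
          coeff_eq_zero_of_natDegree_lt (hPd.trans_lt e), mul_zero, sub_zero]
    have he : ∀ s : ℕ, v.eval (s : ℤ)
        = (v - C c * P).eval (s : ℤ) + c * (s.descFactorial (d + 1) : ℕ) := fun s => by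
      rw [eval_sub, eval_mul, eval_C, hPe, sub_add_cancel]
    obtain ⟨h1, h2⟩ := ih (v - C c * P) hw fun t ht => by
      have := h t (by omega)
      rwa [he, Nat.descFactorial_of_lt (by omega), Nat.cast_zero, mul_zero, add_zero] at this
    have h3 : M ∣ c * ((d + 1).factorial : ℕ) := by
      have := h (d + 1) le_rfl
      rw [he, Nat.descFactorial_self] at this
      exact (dvd_add_right (h1 _)).1 this
    refine ⟨fun s => ?_, fun i => ?_⟩
    · rw [he]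
      exact dvd_add (h1 s) (h3.trans (mul_dvd_mul_left c
        (Int.natCast_dvd_natCast.2 (Nat.factorial_dvd_descFactorial s (d + 1)))))
    · have e : (((d + 1).factorial : ℕ) : ℤ) * v.coeff i
          = (d + 1) * (d.factorial * (v - C c * P).coeff i)
            + c * ((d + 1).factorial : ℕ) * P.coeff i := by
        rw [coeff_sub, coeff_C_mul, Nat.factorial_succ]
        push_cast
        ring
      rw [e]
      exact dvd_add ((h2 i).mul_left _) (h3.mul_right _)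

theorem goodT_tt {d p : ℕ} {v : ℤ[X]} (hv : VOk d v) (hp : p.Prime) : GoodT d p v (tt d p v) := by
  refine Classical.epsilon_spec (p := GoodT d p v) ?_
  obtain ⟨a, u, hu, e⟩ := Nat.exists_eq_pow_mul_and_not_dvd d.factorial_ne_zero p hp.ne_one
  have hp' : Prime (p : ℤ) := Nat.prime_iff_prime_int.1 hp
  by_cases h : ∀ t : ℕ, t ≤ d → (p : ℤ) ^ (a + 1) ∣ v.eval (t : ℤ)
  · exfalso
    have h2 := (WMloc_fact _ d v hv.1.le h).2
    refine hp'.not_isUnit (hv.2.1 p ((C_dvd_iff_dvd_coeff _ _).2 fun i => ?_))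
    have h3 := h2 i
    rw [e, Nat.cast_mul, Nat.cast_pow, pow_succ, mul_assoc,
      mul_dvd_mul_iff_left (pow_ne_zero a hp'.ne_zero)] at h3
    exact (hp'.dvd_or_dvd h3).resolve_left fun h4 => hu (Int.natCast_dvd_natCast.1 h4)
  · push Not at h
    obtain ⟨t, ht, h⟩ := h
    have h0 : (v.eval (t : ℤ)).natAbs ≠ 0 := fun h0 => h (by
      rw [Int.natAbs_eq_zero.1 h0]
      exact dvd_zero _)
    obtain ⟨b, w, hw, e2⟩ := Nat.exists_eq_pow_mul_and_not_dvd h0 p hp.ne_one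
    have hb : b ≤ a := by
      by_contra hb
      refine h ?_
      rw [← Int.dvd_natAbs, e2, Nat.cast_mul, Nat.cast_pow]
      exact (pow_dvd_pow _ (by omega)).mul_right _
    refine ⟨t, Int.natCast_nonneg t, by exact_mod_cast ht, w,
      fun h4 => hw (Int.natCast_dvd_natCast.1 h4), ?_⟩
    rw [← Int.natAbs_dvd, e2, e, ← Nat.cast_mul, Int.natCast_dvd_natCast, mul_comm]
    exact mul_dvd_mul_left w ((pow_dvd_pow p hb).mul_right u)

theorem cc_ne_zero {d p : ℕ} {v : ℤ[X]} (hv : VOk d v) (hp : p.Prime) : cc d p v ≠ 0 := by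
  obtain ⟨-, -, N, hN, h⟩ := goodT_tt hv hp
  intro h0
  rw [show v.eval (tt d p v) = 0 from h0, zero_dvd_iff, mul_eq_zero] at h
  rcases h with h | h
  · exact hN (h ▸ dvd_zero _)
  · exact d.factorial_ne_zero (Nat.cast_eq_zero.1 h)

theorem not_dvd_cc {d p : ℕ} {v : ℤ[X]} (hv : VOk d v) (hp : p.Prime) (hd : d < p) :
    ¬ (p : ℤ) ∣ cc d p v := by
  obtain ⟨-, -, N, hN, h⟩ := goodT_tt hv hp
  intro h0
  rcases (Nat.prime_iff_prime_int.1 hp).dvd_or_dvd (h0.trans h) with h1 | h1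
  · exact hN h1
  · exact absurd (hp.dvd_factorial.1 (Int.natCast_dvd_natCast.1 h1)) (not_le.2 hd)


theorem wmloc_ev (z : ℂ) (g : ℤ[X]) : (up ℂ g).eval z = aeval z g := by
  rw [eval_map, aeval_def, algebraMap_int_eq]

theorem wmloc_int (t : ℤ) (g : ℤ[X]) : aeval (t : ℂ) g = ((g.eval t : ℤ) : ℂ) := by
  simpa using aeval_algebraMap_apply_eq_algebraMap_eval (A := ℂ) t g

theorem wmloc_cc {d p : ℕ} {v : ℤ[X]} (hv : VOk d v) (hp : p.Prime) : (cc d p v : ℂ) ≠ 0 :=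
  Int.cast_ne_zero.2 (cc_ne_zero hv hp)

theorem wmloc_ne {d : ℕ} {v : ℤ[X]} (hv : VOk d v) : v ≠ 0 :=
  leadingCoeff_ne_zero.1 hv.2.2.1.ne'

theorem zt_mul {d p : ℕ} {v : ℤ[X]} (hv : VOk d v) (hp : p.Prime) {z : ℂ} (hz : aeval z v = 0) :
    (z - (tt d p v : ℂ)) * zt d p v z = cc d p v := by
  have h : z - (tt d p v : ℂ) ≠ 0 := by
    intro e
    rw [sub_eq_zero.1 e, wmloc_int] at hz
    exact wmloc_cc hv hp hz
  exact mul_div_cancel₀ _ h

theorem zt_ne_zero {d p : ℕ} {v : ℤ[X]} (hv : VOk d v) (hp : p.Prime) {z : ℂ}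
    (hz : aeval z v = 0) : zt d p v z ≠ 0 := by
  intro e
  have h := zt_mul hv hp hz
  rw [e, mul_zero] at h
  exact wmloc_cc hv hp h.symm

theorem zt_inj {d p : ℕ} {v : ℤ[X]} (hv : VOk d v) (hp : p.Prime) {z w : ℂ} (hz : aeval z v = 0)
    (hw : aeval w v = 0) (h : zt d p v z = zt d p v w) : z = w := by
  have h1 := zt_mul hv hp hz
  have h2 := zt_mul hv hp hw
  rw [h, ← h2] at h1
  exact sub_left_injective (mul_right_cancel₀ (zt_ne_zero hv hp hw) h1)

theorem aeval_zt_Vp {d p : ℕ} {v : ℤ[X]} (hv : VOk d v) (hp : p.Prime) {z : ℂ}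
    (hz : aeval z v = 0) : aeval (zt d p v z) (Vp d p v) = 0 := by
  have h1 := aeval_Tw (k := d) hv.1.le (zt_mul hv hp hz)
  have h2 := congrArg (aeval (zt d p v z)) (C_mul_VV d (tt d p v) v)
  rw [map_mul, aeval_C, algebraMap_int_eq, eq_intCast] at h2
  rw [hz, mul_zero] at h1
  exact (mul_eq_zero.1 (h2.trans h1)).resolve_left (wmloc_cc hv hp)

theorem exists_lst {d : ℕ} {v : ℤ[X]} (hv : v.natDegree = d) : ∃ η : Fin d → ℂ, Lst v η := by
  have hi : Function.Injective (Int.castRingHom ℂ) := Int.cast_injective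
  obtain ⟨η, hη⟩ := exists_roots' (up ℂ v) ((natDegree_map_eq_of_injective hi v).trans hv)
  rw [leadingCoeff_map_of_injective hi, eq_intCast] at hη
  exact ⟨η, hη⟩

theorem Lst.root_iff {d : ℕ} {v : ℤ[X]} {η : Fin d → ℂ} (h : Lst v η) (hv : v ≠ 0) (z : ℂ) :
    aeval z v = 0 ↔ ∃ k, z = η k := by
  have hl : (v.leadingCoeff : ℂ) ≠ 0 := Int.cast_ne_zero.2 (leadingCoeff_ne_zero.2 hv)
  rw [← wmloc_ev, h, eval_mul, eval_C, mul_eq_zero, or_iff_right hl, eval_prod,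
    Finset.prod_eq_zero_iff]
  simp [sub_eq_zero]

theorem Lst.injective {d : ℕ} {v : ℤ[X]} {η : Fin d → ℂ} (h : Lst v η) (hv : VOk d v) :
    Function.Injective η := by
  have hs := hv.2.2.2
  rw [h] at hs
  exact hs.of_mul_right.injective_of_prod_X_sub_C

theorem Lst.roots_Vp {d p : ℕ} {v : ℤ[X]} {η : Fin d → ℂ} (h : Lst v η) (hv : VOk d v)
    (hp : p.Prime) : Roots (up ℂ (Vp d p v)) (fun k => zt d p v (η k)) := by
  have hr : ∀ k, aeval (η k) v = 0 := fun k => (h.root_iff (wmloc_ne hv) _).2 ⟨k, rfl⟩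
  have hm : (up ℂ (Vp d p v)).Monic := (VV_monic _ _ _).map _
  have hd : (up ℂ (Vp d p v)).degree = d := by
    rw [degree_eq_natDegree hm.ne_zero, Vp, (VV_monic _ _ _).natDegree_map, VV_natDegree]
  have hm' : (∏ k, (X - C (zt d p v (η k))) : ℂ[X]).Monic := monic_prod_of_monic _ _ fun _ _ =>
    monic_X_sub_C _
  have hd' : (∏ k, (X - C (zt d p v (η k))) : ℂ[X]).degree = (d : ℕ) := by
    rw [degree_eq_natDegree hm'.ne_zero, natDegree_finsetProd_X_sub_C_eq_card]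
    simp
  unfold Roots
  refine eq_of_degree_sub_lt_of_eval_index_eq (v := fun k => zt d p v (η k)) Finset.univ
    (fun k _ j _ e => h.injective hv (zt_inj hv hp (hr k) (hr j) e)) ?_ fun k _ => ?_
  · have := degree_sub_lt_left (hd.trans hd'.symm) hm.ne_zero
      (hm.leadingCoeff.trans hm'.leadingCoeff.symm)
    rw [hd] at this
    simpa using this
  · rw [wmloc_ev, aeval_zt_Vp hv hp (hr k), eval_prod]
    exact (Finset.prod_eq_zero (Finset.mem_univ k) (by simp)).symm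

theorem Vp_dvd {d p : ℕ} {v : ℤ[X]} (hv : VOk d v) (hp : p.Prime) {g : ℤ[X]}
    (h : ∀ z : ℂ, aeval z v = 0 → aeval (zt d p v z) g = 0) : Vp d p v ∣ g := by
  obtain ⟨η, hη⟩ := exists_lst hv.1
  have hr : ∀ k, aeval (η k) v = 0 := fun k => (hη.root_iff (wmloc_ne hv) _).2 ⟨k, rfl⟩
  have hi : Function.Injective (Int.castRingHom ℂ) := Int.cast_injective
  refine (map_dvd_map _ hi (VV_monic _ _ _)).1 ?_
  have e : (VV d (tt d p v) v).map (Int.castRingHom ℂ) = _ := hη.roots_Vp hv hp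
  rw [e]
  refine Fintype.prod_dvd_of_coprime (pairwise_coprime_X_sub_C (s := fun k => zt d p v (η k))
    fun k j e => hη.injective hv (zt_inj hv hp (hr k) (hr j) e)) fun k => ?_
  rw [dvd_iff_isRoot, IsRoot, wmloc_ev]
  exact h _ (hr k)

theorem Lst.prod_zt {d p : ℕ} {v : ℤ[X]} {η : Fin d → ℂ} (h : Lst v η) (hv : VOk d v)
    (hp : p.Prime) (hd : 1 ≤ d) :
    ∏ k, zt d p v (η k) = (-1) ^ d * (cc d p v : ℂ) ^ (d - 1) * (v.leadingCoeff : ℂ) := by
  have hr : ∀ k, aeval (η k) v = 0 := fun k => (h.root_iff (wmloc_ne hv) _).2 ⟨k, rfl⟩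
  have h1 : (cc d p v : ℂ) = v.leadingCoeff * ∏ k, ((tt d p v : ℂ) - η k) := by
    rw [cc, ← wmloc_int, ← wmloc_ev, h, eval_mul, eval_C, eval_prod]
    simp
  have h2 : (∏ k, ((tt d p v : ℂ) - η k)) * ∏ k, zt d p v (η k) =
      (-1) ^ d * (cc d p v : ℂ) ^ d := by
    rw [← Finset.prod_mul_distrib, ← mul_pow,
      Finset.prod_congr rfl (g := fun _ => -1 * (cc d p v : ℂ)) fun k _ => by
        rw [← zt_mul hv hp (hr k)]; ring]
    simp
  refine mul_left_cancel₀ (wmloc_cc hv hp) ?_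
  obtain ⟨e, rfl⟩ : ∃ e, d = e + 1 := ⟨d - 1, by omega⟩
  rw [Nat.add_sub_cancel]
  nth_rw 1 [h1]
  rw [mul_assoc, h2]
  ring

theorem pz_eq {n d : ℕ} {D : Dat} (h : Ok n d D) {z : ℂ} (hz : aeval z D.v = 0) :
    pz d D.P D z = zt d D.P D.v z * (z - D.r) := by
  have h1 := zt_mul h.1 h.2.2.2.1 hz
  rw [pz, piP, if_pos rfl, map_add, map_mul, aeval_C, aeval_C, aeval_X, algebraMap_int_eq,
    eq_intCast, eq_intCast, ← h1]
  push_cast
  ring

theorem pz_of_ne {d p : ℕ} {D : Dat} (h : p ≠ D.P) (z : ℂ) : pz d p D z = 1 := by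
  rw [pz, piP, if_neg h, map_one]

theorem pz_ne_zero {n d p : ℕ} {D : Dat} (h : Ok n d D) {z : ℂ} (hz : aeval z D.v = 0) :
    pz d p D z ≠ 0 := by
  by_cases hp : p = D.P
  · rw [hp, pz_eq h hz]
    refine mul_ne_zero (zt_ne_zero h.1 h.2.2.2.1 hz) fun e => h.2.2.2.2.2.2.1 ?_
    rw [sub_eq_zero.1 e, wmloc_int, Int.cast_eq_zero] at hz
    rw [hz]
    exact dvd_zero _
  · rw [pz_of_ne hp]
    exact one_ne_zero

theorem aeval_FF {n d p : ℕ} {D : Dat} (h : Ok n d D) (hp : p.Prime) {z : ℂ}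
    (hz : aeval z D.v = 0) :
    aeval (zt d p D.v z) (FF n d p D) = zt d p D.v z ^ n * aeval z D.f := 
  aeval_Tw h.2.2.1.le (zt_mul h.1 hp hz)

end Pool.Agent.VW
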