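import Pool.Agent.P.MP_b0ea37_nt.WMloc

namespace Pool.Agent.VW

open Polynomial

theorem wmlocA_ext {g h : ℤ[X]} (e : ∀ y : ℂ, y ≠ 0 → aeval y g = aeval y h) : g = h := by
  refine Polynomial.map_injective (algebraMap ℤ ℂ) (RingHom.injective_int _) ?_
  refine eq_of_infinite_eval_eq _ _ ((Set.finite_singleton (0 : ℂ)).infinite_compl.mono ?_)
  intro y hy
  rw [Set.mem_ofPred_eq, eval_map_algebraMap, eval_map_algebraMap]
  exact e y hy

theorem wmlocA_step {k : ℕ} (t c r : ℤ) {g : ℤ[X]} (hg : g.natDegree ≤ k + 1) :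
    ∃ g₁ : ℤ[X], g₁.natDegree ≤ k ∧ g₁.eval r = (derivative g).eval r ∧
      Tw (k + 1) t c g = (C c + C (t - r) * X) * Tw k t c g₁ + C (g.eval r) * X ^ (k + 1) := by
  have e : g = C (g.eval r) + (X - C r) * (g /ₘ (X - C r)) := by
    rw [← modByMonic_X_sub_C_eq_C_eval, modByMonic_add_div]
  have hd : (g /ₘ (X - C r)).natDegree ≤ k := by
    rw [natDegree_divByMonic _ (monic_X_sub_C r), natDegree_X_sub_C]
    omega
  generalize g /ₘ (X - C r) = g₁ at e hd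
  refine ⟨g₁, hd, ?_, wmlocA_ext fun y hy => ?_⟩
  · have h := congrArg (fun q => (derivative q).eval r) e
    simp only [derivative_add, derivative_C, derivative_mul, derivative_X_sub_C, eval_add,
      eval_mul, eval_sub, eval_X, eval_C, sub_self, zero_mul, one_mul,
      add_zero, zero_add] at h
    exact h.symm
  · have hx : ((t : ℂ) + c / y - t) * y = c := by
      field_simp
      ring
    have h := congrArg (aeval ((t : ℂ) + c / y)) e
    rw [map_add, map_mul, aeval_Tw hg hx, aeval_Tw hd hx, h]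
    simp only [map_add, map_mul, map_sub, map_pow, aeval_X, eq_intCast, map_intCast]
    field_simp
    ring

/-- the local shape of `f` modulo the square of `V` -/
theorem loc_dec {n d p : ℕ} (hn : 2 ≤ n) {D : Dat} (h : Ok n d D) (hp : p.Prime) :
    ∃ (N : ℤ) (u₀ u₁ : ℤ[X]), ¬ (p : ℤ) ∣ N ∧ Vp d p D.v ^ 2 ∣
      C (N ^ 2) * FF n d p D - piP d p D ^ 2 * u₀ - piP d p D * Vp d p D.v * u₁ := by
  by_cases hP : p = D.P
  swap
  · refine ⟨1, FF n d p D, 0, fun h1 => hp.one_lt.ne' ?_, ?_⟩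
    · exact_mod_cast Int.eq_one_of_dvd_one (Int.natCast_nonneg p) h1
    · simp [piP, hP]
  obtain ⟨hv, -, hf, -, hd, ⟨a, ha⟩, hna, ⟨⟨b₀, hb₀⟩, b₁, hb₁⟩, -⟩ := h
  rw [← hP] at hd ha hna hb₀ hb₁
  have hpi : Prime (p : ℤ) := Nat.prime_iff_prime_int.1 hp
  have hd0 : d ≠ 0 := by
    intro h0
    have e := eq_C_of_natDegree_eq_zero (hv.1.trans h0)
    rw [e, eval_C] at ha
    refine hpi.not_isUnit (hv.2.1 _ ⟨C a, ?_⟩)
    rw [e, ha, C_mul]
  obtain ⟨e, rfl⟩ : ∃ e, d = e + 1 := ⟨d - 1, by omega⟩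
  obtain ⟨m, rfl⟩ : ∃ m, n = m + 1 + 1 := ⟨n - 2, by omega⟩
  have hc := not_dvd_cc hv hp hd
  have hV := C_mul_VV (e + 1) (tt (e + 1) p D.v) D.v
  unfold piP FF Vp
  rw [if_pos hP]
  unfold cc at hc ⊢
  generalize tt (e + 1) p D.v = t at hc hV ⊢
  generalize D.v.eval t = c at hc hV ⊢
  generalize VV (e + 1) t D.v = V at hV ⊢
  obtain ⟨f₁, d1, e1, t1⟩ := wmlocA_step t c D.r hf.le
  obtain ⟨f₂, -, -, t2⟩ := wmlocA_step t c D.r d1
  obtain ⟨v₁, -, -, t3⟩ := wmlocA_step t c D.r hv.1.le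
  obtain ⟨s, hs⟩ := sub_dvd_pow_sub_pow (C c) (C (D.r - t) * X : ℤ[X]) (e + 1)
  have hπ : (C c - C (D.r - t) * X : ℤ[X]) = C c + C (t - D.r) * X := by
    rw [C_sub, C_sub]
    ring
  rw [hπ, mul_pow] at hs
  rw [t1, t2, e1, hb₀, hb₁]
  rw [t3, ha] at hV
  generalize (C c + C (t - D.r) * X : ℤ[X]) = π at hs hV ⊢
  generalize (C (D.r - t) : ℤ[X]) ^ (e + 1) = q at hs
  generalize Tw m t c f₂ = T₂
  generalize Tw e t c v₁ = V₁ at hV
  have key : C (a * c ^ (e + 1)) * C (p : ℤ) =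
      π * (C (p : ℤ) * C a * s - q * V₁) + V * (q * C c) := by
    rw [C_mul] at hV
    rw [C_mul, C_pow]
    linear_combination (C (p : ℤ) * C a) * hs - q * hV
  generalize C (p : ℤ) * C a * s - q * V₁ = al at key
  generalize q * C c = ga at key
  refine ⟨a * c ^ (e + 1), C b₀ * X ^ (m + 1 + 1) * al ^ 2 +
    C (a * c ^ (e + 1)) * C b₁ * X ^ (m + 1) * al + C (a * c ^ (e + 1)) ^ 2 * T₂,
    2 * C b₀ * X ^ (m + 1 + 1) * al * ga + C (a * c ^ (e + 1)) * C b₁ * X ^ (m + 1) * ga,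
    fun h1 => ?_, C b₀ * X ^ (m + 1 + 1) * ga ^ 2, ?_⟩
  · rcases hpi.dvd_or_dvd h1 with h2 | h2
    · exact hna (by rw [ha, sq]; exact mul_dvd_mul_left _ h2)
    · exact hc (hpi.dvd_of_dvd_pow h2)
  · rw [C_pow]
    generalize C (a * c ^ (e + 1)) = N at key ⊢
    rw [C_mul, C_mul, C_pow]
    generalize (X : ℤ[X]) ^ (m + 1 + 1) = Y₂
    generalize (X : ℤ[X]) ^ (m + 1) = Y₁
    linear_combination (C b₀ * Y₂ * (N * C (p : ℤ) + (π * al + V * ga)) +
      N * C b₁ * Y₁ * π) * key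

end Pool.Agent.VW
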