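import Pool.Agent.P.MP_b0ea37_nt.WMloc
import Pool.Agent.P.MP_b0ea37_nt.WRes

namespace Pool.Agent.VW

open Polynomial

lemma WMlocB_eval (g : ℤ[X]) (z : ℂ) : (up ℂ g).eval z = aeval z g := by
  rw [up, eval_map, aeval_def]; rfl

lemma WMlocB_res {n d : ℕ} {D : Dat} (h : Ok n d D) {η : Fin d → ℂ} (hη : Lst D.v η) :
    ((resultant D.v D.f d n : ℤ) : ℂ) = (D.v.leadingCoeff : ℂ) ^ n * ∏ k, aeval (η k) D.f := by
  have hl : (D.v.leadingCoeff : ℂ) ≠ 0 := by exact_mod_cast h.1.2.2.1.ne'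
  have e := resultant_map_map D.v D.f d n (Int.castRingHom ℂ)
  have e2 := resultant_roots (D.v.leadingCoeff : ℂ) hl η (up ℂ D.f) n
    (natDegree_map_le.trans h.2.2.1.le)
  rw [← hη] at e2
  simp only [WMlocB_eval] at e2
  rw [← e2]
  exact e.symm

lemma WMlocB_resV {d p : ℕ} {v : ℤ[X]} (hv : VOk d v) (hp : p.Prime) {η : Fin d → ℂ}
    (hη : Lst v η) (u : ℤ[X]) :
    ((resultant (Vp d p v) u : ℤ) : ℂ) = ∏ k, aeval (zt d p v (η k)) u := by
  have hd : (Vp d p v).natDegree = d := VV_natDegree _ _ _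
  have e := resultant_map_map (Vp d p v) u d u.natDegree (Int.castRingHom ℂ)
  have e2 := resultant_roots (1 : ℂ) one_ne_zero (fun k => zt d p v (η k)) (up ℂ u) u.natDegree
    natDegree_map_le
  have e3 : up ℂ (Vp d p v) = ∏ k, (X - C (zt d p v (η k))) := hη.roots_Vp hv hp
  rw [C_1, one_mul, ← e3, one_pow, one_mul] at e2
  simp only [WMlocB_eval] at e2
  rw [← e2, hd]
  exact e.symm

theorem Ok.exists_b {n d : ℕ} (hn : 2 ≤ n) {D : Dat} (h : Ok n d D) :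
    ∃ b : ℤ, b ≠ 0 ∧ resultant D.v D.f d n = (D.P : ℤ) ^ 2 * b := by
  obtain ⟨b, hb⟩ := res_one_two (M := D.P) h.2.2.2.1.one_le (g := D.v) (h := D.f) (m := d)
    (m' := n) h.1.1.le h.2.2.1.le (by omega) h.2.2.2.2.2.1 h.2.2.2.2.2.2.2.1
  refine ⟨b, ?_, hb⟩
  rintro rfl
  obtain ⟨η, hη⟩ := exists_lst h.1.1
  have e := WMlocB_res h hη
  have hl : D.v.leadingCoeff ≠ 0 := h.1.2.2.1.ne'
  have hl' : (D.v.leadingCoeff : ℂ) ≠ 0 := by exact_mod_cast hl
  rw [hb, mul_zero, Int.cast_zero] at e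
  refine mul_ne_zero (pow_ne_zero _ hl') (Finset.prod_ne_zero_iff.mpr fun k _ => ?_) e.symm
  exact h.2.2.2.2.2.2.2.2 _ ((hη.root_iff (leadingCoeff_ne_zero.mp hl) _).mpr ⟨k, rfl⟩)

theorem loc_norm {n d p : ℕ} (hd : 1 ≤ d) {D : Dat} (h : Ok n d D) (hp : p.Prime) {b N : ℤ}
    {u : ℤ[X]} (hb : resultant D.v D.f d n = (D.P : ℤ) ^ 2 * b) (hN : ¬ (p : ℤ) ∣ N)
    (hu : Vp d p D.v ∣ C (N ^ 2) * FF n d p D - piP d p D ^ 2 * u) :
    ∃ M : ℤ, ¬ (p : ℤ) ∣ M ∧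
      resultant (Vp d p D.v) u ∣ M * (b * (d.factorial : ℤ) ^ (n * d)) := by
  obtain ⟨η, hη⟩ := exists_lst h.1.1
  have hl : D.v.leadingCoeff ≠ 0 := h.1.2.2.1.ne'
  have hz : ∀ k, aeval (η k) D.v = 0 := fun k =>
    (hη.root_iff (leadingCoeff_ne_zero.mp hl) _).mpr ⟨k, rfl⟩
  have hpp : Prime (p : ℤ) := Nat.prime_iff_prime_int.mp hp
  have k1 : ∀ k, (N : ℂ) ^ 2 * (zt d p D.v (η k) ^ n * aeval (η k) D.f) =
      pz d p D (η k) ^ 2 * aeval (zt d p D.v (η k)) u := by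
    intro k
    obtain ⟨w, hw⟩ := hu
    have := congrArg (aeval (zt d p D.v (η k))) hw
    rw [map_mul, aeval_zt_Vp h.1 hp (hz k), zero_mul, map_sub, map_mul, map_mul, aeval_C, map_pow,
      map_pow, aeval_FF h hp (hz k)] at this
    simp only [algebraMap_int_eq, eq_intCast] at this
    exact sub_eq_zero.mp this
  have k2 := Finset.prod_congr (s₁ := Finset.univ) rfl fun k _ => k1 k
  simp only [Finset.prod_mul_distrib, Finset.prod_pow, Finset.prod_const, Finset.card_univ,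
    Fintype.card_fin] at k2
  rw [← WMlocB_resV h.1 hp hη u, hη.prod_zt h.1 hp hd] at k2
  have k3 := WMlocB_res h hη
  rw [hb] at k3
  push_cast at k3
  have k4 : ((N : ℂ) ^ 2) ^ d * (((-1) ^ d * (cc d p D.v : ℂ) ^ (d - 1)) ^ n * ((D.P : ℂ) ^ 2 * b)) =
      (∏ k, pz d p D (η k)) ^ 2 * (resultant (Vp d p D.v) u : ℤ) := by
    rw [← k2, k3, mul_pow _ (D.v.leadingCoeff : ℂ)]
    ring
  by_cases hP : p = D.P
  · have k5 : ∏ k, pz d p D (η k) = (cc d p D.v : ℂ) ^ (d - 1) * (D.v.eval D.r : ℤ) := by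
      have e1 : ∀ k, pz d p D (η k) = zt d p D.v (η k) * (η k - D.r) := fun k => by
        rw [hP]; exact pz_eq h (hz k)
      have e2 : ((D.v.eval D.r : ℤ) : ℂ) = (D.v.leadingCoeff : ℂ) * ∏ k, ((D.r : ℂ) - η k) := by
        have := congrArg (eval (D.r : ℂ)) hη
        rw [eval_mul, eval_C, eval_prod] at this
        simp only [eval_sub, eval_X, eval_C] at this
        rw [← this, up, eval_intCast_map]
        simp
      have e3 : ∏ k, (η k - D.r) = (-1) ^ d * ∏ k, ((D.r : ℂ) - η k) := by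
        have := Finset.prod_neg (s := Finset.univ) fun k => (D.r : ℂ) - η k
        simp only [neg_sub, Finset.card_univ, Fintype.card_fin] at this
        exact this
      have e4 : ((-1 : ℂ)) ^ d * (-1) ^ d = 1 := by rw [← mul_pow]; simp
      simp only [e1]
      rw [Finset.prod_mul_distrib, hη.prod_zt h.1 hp hd, e2, e3]
      linear_combination ((cc d p D.v : ℂ) ^ (d - 1) * (D.v.leadingCoeff : ℂ) *
        ∏ k, ((D.r : ℂ) - η k)) * e4
    obtain ⟨a, ha⟩ := h.2.2.2.2.2.1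
    rw [k5, ha] at k4
    have k6 : (N ^ 2) ^ d * (((-1) ^ d * cc d p D.v ^ (d - 1)) ^ n * ((D.P : ℤ) ^ 2 * b)) =
        (cc d p D.v ^ (d - 1) * (D.P * a)) ^ 2 * resultant (Vp d p D.v) u := by
      exact_mod_cast k4
    have hP0 : (D.P : ℤ) ^ 2 ≠ 0 := pow_ne_zero _ (by exact_mod_cast h.2.2.2.1.ne_zero)
    have k7 : (N ^ 2) ^ d * (((-1) ^ d * cc d p D.v ^ (d - 1)) ^ n * b) =
        (cc d p D.v ^ (d - 1) * a) ^ 2 * resultant (Vp d p D.v) u :=
      mul_left_cancel₀ hP0 (by linear_combination k6)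
    have hc := not_dvd_cc h.1 hp (hP ▸ h.2.2.2.2.1)
    refine ⟨(N ^ 2) ^ d * ((-1) ^ d * cc d p D.v ^ (d - 1)) ^ n, fun hM => ?_, ?_⟩
    · rcases hpp.dvd_or_dvd hM with h1 | h1
      · exact hN (hpp.dvd_of_dvd_pow (hpp.dvd_of_dvd_pow h1))
      · rcases hpp.dvd_or_dvd (hpp.dvd_of_dvd_pow h1) with h2 | h2
        · exact hpp.not_isUnit (isUnit_of_dvd_unit (hpp.dvd_of_dvd_pow h2) isUnit_one.neg)
        · exact hc (hpp.dvd_of_dvd_pow h2)
    · exact ⟨(cc d p D.v ^ (d - 1) * a) ^ 2 * (d.factorial : ℤ) ^ (n * d), by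
        linear_combination (d.factorial : ℤ) ^ (n * d) * k7⟩
  · simp only [pz_of_ne hP, Finset.prod_const_one, one_pow, one_mul] at k4
    have k6 : (N ^ 2) ^ d * (((-1) ^ d * cc d p D.v ^ (d - 1)) ^ n * ((D.P : ℤ) ^ 2 * b)) =
        resultant (Vp d p D.v) u := by
      exact_mod_cast k4
    obtain ⟨-, -, N0, hN0, hc⟩ := goodT_tt h.1 hp
    change cc d p D.v ∣ _ at hc
    refine ⟨(N ^ 2) ^ d * ((D.P : ℤ) ^ 2 * (N0 ^ (d - 1)) ^ n), fun hM => ?_, ?_⟩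
    · rcases hpp.dvd_or_dvd hM with h1 | h1
      · exact hN (hpp.dvd_of_dvd_pow (hpp.dvd_of_dvd_pow h1))
      · rcases hpp.dvd_or_dvd h1 with h2 | h2
        · have := Int.natCast_dvd_natCast.mp (hpp.dvd_of_dvd_pow h2)
          exact hP ((Nat.prime_dvd_prime_iff_eq hp h.2.2.2.1).mp this)
        · exact hN0 (hpp.dvd_of_dvd_pow (hpp.dvd_of_dvd_pow h2))
    · have d1 : ((-1) ^ d * cc d p D.v ^ (d - 1)) ^ n ∣
          (N0 ^ (d - 1)) ^ n * (d.factorial : ℤ) ^ (n * d) := by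
        rw [mul_comm n d, pow_mul, ← mul_pow]
        refine pow_dvd_pow_of_dvd ?_ n
        rw [(isUnit_one.neg.pow d).mul_left_dvd]
        refine (pow_dvd_pow_of_dvd hc _).trans ?_
        rw [mul_pow]
        exact mul_dvd_mul_left _ (pow_dvd_pow _ (by omega))
      obtain ⟨e, he⟩ := d1
      exact ⟨e, by rw [← k6]; linear_combination (N ^ 2) ^ d * (D.P : ℤ) ^ 2 * b * he⟩

end Pool.Agent.VW
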