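import Pool.Agent.P.MP_b0ea37_nt.WMuA
import Pool.Agent.P.MP_b0ea37_nt.WMDefs
import Pool.Agent.P.MP_b0ea37_nt.WPack

namespace Pool.Agent.VW

open Polynomial

theorem WMuC_ev (z : ℂ) (g : ℤ[X]) : aeval z (up ℚ g) = aeval z g := by
  rw [up, ← algebraMap_int_eq, aeval_map_algebraMap]

theorem WMuC_up_mul (g h : ℤ[X]) : up ℚ (g * h) = up ℚ g * up ℚ h := Polynomial.map_mul _

theorem WMuC_up_pow (g : ℤ[X]) (m : ℕ) : up ℚ (g ^ m) = up ℚ g ^ m := Polynomial.map_pow _ _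

/-- the shape of the elements that are degenerate against a fixed one -/
theorem mu_struct {n j : ℕ} {f v u₁ w₁ : ℤ[X]} {z : ℂ} (hz : MuRoot n (up ℚ f) z) (hq : NQ f)
    (hj : j ≤ 2) (hv : v.natDegree + j < n) (hV : aeval z v ≠ 0) (hu : u₁.natDegree < n)
    (hnd : ¬ up ℚ v ∣ up ℚ u₁) (hw : w₁.natDegree ≤ 2 * j)
    (he : aeval z v ^ 2 * aeval z w₁ + aeval z u₁ * aeval z u₁ = 0) :
    ∃ c h₁ : ℤ[X], w₁ ≠ 0 ∧ w₁ = c * h₁ ^ 2 ∧ Squarefree (up ℚ c) ∧ 1 ≤ c.natDegree ∧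
      c.natDegree + 2 * h₁.natDegree = w₁.natDegree ∧ (∃ q : ℚ[X], up ℚ f ∣ q ^ 2 + up ℚ c) ∧
      ∃ g₀ g₁ : ℚ[X], ∀ u w w₂ : ℤ[X], u.natDegree < n → w₂.natDegree ≤ 2 * j →
        aeval z v ^ 2 * aeval z w + aeval z u₁ * aeval z u = 0 → w₁ * w₂ = w ^ 2 →
        ∃ s t : ℚ, up ℚ u = s • g₀ + t • g₁ ∧ (2 * j < c.natDegree + 2 → t = 0) := by
  have hu0 : aeval z u₁ ≠ 0 := fun e => hnd (by
    rw [hz.eq_zero (q := up ℚ u₁) ((WMuA_deg _).trans_lt hu) ((WMuC_ev z _).trans e)]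
    exact dvd_zero _)
  have hw0 : aeval z w₁ ≠ 0 := fun e => by
    rw [e, mul_zero, zero_add] at he
    exact hu0 (mul_self_eq_zero.1 he)
  have hw1 : w₁ ≠ 0 := fun e => hw0 (by rw [e, map_zero])
  obtain ⟨c, h₁, e, hc⟩ := mu_sqfree w₁ hw1
  have hc0 : c ≠ 0 := fun h => hw1 (by rw [e, h, zero_mul])
  have hh0 : h₁ ≠ 0 := fun h => hw1 (by rw [e, h]; simp)
  have hdeg : c.natDegree + 2 * h₁.natDegree = w₁.natDegree := by
    rw [e, natDegree_mul hc0 (pow_ne_zero 2 hh0), natDegree_pow]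
  have ev : aeval z w₁ = aeval z c * aeval z h₁ ^ 2 := by rw [e, map_mul, map_pow]
  have hh : aeval z h₁ ≠ 0 := fun h => hw0 (by rw [ev, h]; simp)
  obtain ⟨q, -, hqe⟩ := hz.div (up ℚ u₁) (up ℚ (v * h₁))
    (by rw [WMuC_ev, map_mul]; exact mul_ne_zero hV hh)
  rw [WMuC_ev, WMuC_ev, map_mul] at hqe
  have hqc : up ℚ f ∣ q ^ 2 + up ℚ c := by
    rw [hz.dvd_iff, map_add, map_pow, WMuC_ev]
    refine mul_left_cancel₀ (pow_ne_zero 2 (mul_ne_zero hV hh)) ?_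
    rw [ev] at he
    linear_combination he + (aeval z q * (aeval z v * aeval z h₁) + aeval z u₁) * hqe
  have hc1 : 1 ≤ c.natDegree := by
    by_contra h0
    obtain ⟨t, rfl⟩ := natDegree_eq_zero.1 (Nat.eq_zero_of_not_pos h0)
    obtain ⟨b, hb⟩ := hq q (-(t : ℚ)) (by simpa [up] using hqc)
    rw [hz.dvd_iff, map_sub, aeval_C, sub_eq_zero] at hb
    refine hnd ⟨C b * up ℚ h₁, hz.eq_of ((WMuA_deg _).trans_lt hu) ?_ ?_⟩
    · refine natDegree_mul_le.trans_lt ?_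
      have := natDegree_C_mul_le b (up ℚ h₁)
      rw [WMuA_deg] at this
      rw [WMuA_deg]
      omega
    · rw [map_mul, map_mul, aeval_C, ← hb, WMuC_ev, WMuC_ev, WMuC_ev, ← hqe]
      ring
  obtain ⟨g₀, hd₀, hg₀⟩ := hz.div (up ℚ u₁) (up ℚ h₁) (by rwa [WMuC_ev])
  obtain ⟨g₁, hd₁, hg₁⟩ := hz.div (X * up ℚ u₁) (up ℚ h₁) (by rwa [WMuC_ev])
  rw [WMuC_ev, WMuC_ev] at hg₀
  rw [map_mul, aeval_X, WMuC_ev, WMuC_ev] at hg₁
  refine ⟨c, h₁, hw1, e, hc, hc1, hdeg, ⟨q, hqc⟩, g₀, g₁, fun u w w₂ hud hwd h1 h2 => ?_⟩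
  obtain ⟨h, e1, e2⟩ := mu_line (h₁ := up ℚ h₁) (w₁ := up ℚ w) (w₂ := up ℚ w₂) hc (WMuA_ne hh0)
    (by rw [← WMuC_up_pow, ← WMuC_up_mul, ← WMuC_up_mul, ← e, h2, WMuC_up_pow])
  have hdh : c.natDegree + 2 * h.natDegree ≤ 2 * j := by
    by_cases h0 : h = 0
    · rw [h0, natDegree_zero]
      omega
    · rw [← WMuA_deg, e2, natDegree_mul hc.ne_zero (pow_ne_zero 2 h0), natDegree_pow,
        WMuA_deg] at hwd
      exact hwd
  have eh := eq_X_add_C_of_natDegree_le_one (p := h) (by omega)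
  refine ⟨h.coeff 0, h.coeff 1, hz.eq_of ((WMuA_deg _).trans_lt hud) ?_ ?_, fun hlt =>
    coeff_eq_zero_of_natDegree_lt (by omega)⟩
  · exact (natDegree_add_le _ _).trans_lt (max_lt ((natDegree_smul_le _ _).trans_lt hd₀)
      ((natDegree_smul_le _ _).trans_lt hd₁))
  · have e3 := congrArg (aeval z) e1
    have e4 := congrArg (aeval z) eh
    rw [map_mul, map_mul, WMuC_ev, WMuC_ev, WMuC_ev] at e3
    rw [map_add, map_mul, aeval_C, aeval_C, aeval_X, eq_ratCast, eq_ratCast] at e4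
    rw [map_add, map_smul, map_smul, Rat.smul_def, Rat.smul_def, WMuC_ev]
    refine mul_left_cancel₀ (mul_ne_zero hu0 hh) ?_
    rw [ev] at he
    rw [e3, e4] at h1
    linear_combination aeval z h₁ * h1 - ((h.coeff 1 : ℂ) * z + (h.coeff 0 : ℂ)) * he -
      aeval z u₁ * (h.coeff 0 : ℂ) * hg₀ - aeval z u₁ * (h.coeff 1 : ℂ) * hg₁

/-- packing along one or two rational directions -/
theorem mu_pack {ρ : ℕ} (R : ℚ[X] →ₗ[ℚ] (Fin ρ → ℝ)) (S : Finset ℤ[X]) (g₀ g₁ : ℚ[X]) (r : ℕ)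
    (hr : r = 1 ∨ r = 2) {D l : ℝ} (hD : 0 ≤ D) (hl : 0 < l)
    (h : ∀ a ∈ S, ∀ b ∈ S, ∃ s t : ℚ, up ℚ (a - b) = s • g₀ + t • g₁ ∧ (r = 1 → t = 0))
    (hd : ∀ a ∈ S, ∀ b ∈ S, ‖R (up ℚ (a - b))‖ ≤ D)
    (hs : ∀ a ∈ S, ∀ b ∈ S, a ≠ b → l ≤ ‖R (up ℚ (a - b))‖) :
    (S.card : ℝ) ≤ (1 + 2 * D / l) ^ r := by
  have hsub : ∀ a b : ℤ[X], R (up ℚ a) - R (up ℚ b) = R (up ℚ (a - b)) := fun a b => by
    rw [← map_sub, up, up, up, Polynomial.map_sub]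
  let G : Fin r → (Fin ρ → ℝ) := fun i => if (i : ℕ) = 0 then R g₀ else R g₁
  have : Module.Finite ℝ (Submodule.span ℝ (Set.range G)) :=
    Module.Finite.span_of_finite ℝ (Set.finite_range G)
  refine pack_semi (normSeminorm ℝ (Fin ρ → ℝ)) (Submodule.span ℝ (Set.range G)) r
    ((finrank_range_le_card (R := ℝ) G).trans (Fintype.card_fin r).le) D l hD hl S (fun a => R (up ℚ a))
    (fun a ha b hb => ?_) (fun a ha b hb => ?_) fun a ha b hb hab => ?_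
  · obtain ⟨s, t, e, ht⟩ := h a ha b hb
    rw [hsub, e, map_add, map_smul, map_smul, ← Rat.cast_smul_eq_qsmul ℝ, ← Rat.cast_smul_eq_qsmul ℝ]
    refine add_mem (Submodule.smul_mem _ _ (Submodule.subset_span ⟨⟨0, by omega⟩, rfl⟩)) ?_
    rcases hr with h1 | h2
    · simp [ht h1]
    · exact Submodule.smul_mem _ _ (Submodule.subset_span ⟨⟨1, by omega⟩, rfl⟩)
  · rw [hsub]
    exact hd a ha b hb
  · rw [hsub]
    exact hs a ha b hb hab

/-- packing in the whole space -/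
theorem mu_pack_top {ρ : ℕ} (hρ : ρ ≤ 4) (R : ℚ[X] →ₗ[ℚ] (Fin ρ → ℝ)) (S : Finset ℤ[X])
    {l : ℝ} (hl : 0 < l) (hd : ∀ a ∈ S, ∀ b ∈ S, ‖R (up ℚ (a - b))‖ ≤ 2)
    (hs : ∀ a ∈ S, ∀ b ∈ S, a ≠ b → l ≤ ‖R (up ℚ (a - b))‖) :
    (S.card : ℝ) ≤ (1 + 2 * 2 / l) ^ 4 := by
  have hsub : ∀ a b : ℤ[X], R (up ℚ a) - R (up ℚ b) = R (up ℚ (a - b)) := fun a b => by
    rw [← map_sub, up, up, up, Polynomial.map_sub]
  refine pack_semi (normSeminorm ℝ (Fin ρ → ℝ)) ⊤ 4 (by simpa using hρ) 2 l zero_le_two hl S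
    (fun a => R (up ℚ a)) (fun _ _ _ _ => trivial) (fun a ha b hb => ?_) fun a ha b hb hab => ?_
  · rw [hsub]
    exact hd a ha b hb
  · rw [hsub]
    exact hs a ha b hb hab

theorem mu_num {N l τ : ℝ} (hl : 0 < l) (hl2 : l ≤ 2) (hτ : 0 < τ) (hτ2 : τ ≤ 2)
    (h1 : N ≤ (1 + 2 * 2 / τ) ^ 4 * (1 + 2 * (2 * τ) / l) ^ 2) (h2 : N ≤ (1 + 2 * 2 / l) ^ 4) :
    N ≤ 32400 / (τ * l) ^ 2 := by
  have key : ∀ x : ℝ, 0 < x → x ≤ 2 → 1 + 2 * 2 / x ≤ 6 / x := fun x hx hx2 => by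
    rw [le_div_iff₀ hx, add_mul, div_mul_cancel₀ _ hx.ne']
    linarith
  rcases le_total l τ with h | h
  · have e : 1 + 2 * (2 * τ) / l ≤ 5 * τ / l := by
      rw [le_div_iff₀ hl, add_mul, div_mul_cancel₀ _ hl.ne']
      linarith
    calc N ≤ (6 / τ) ^ 4 * (5 * τ / l) ^ 2 := h1.trans (by gcongr; exact key τ hτ hτ2)
      _ = _ := by field_simp; norm_num
  · calc N ≤ (6 / l) ^ 4 := h2.trans (by gcongr; exact key l hl hl2)
      _ = 1296 / (l * l) ^ 2 := by field_simp; norm_num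
      _ ≤ _ := by gcongr; norm_num

/-- the window equation from the shortest difference -/
theorem mu_cw {n : ℕ} (hn : 5 ≤ n) {K H T om : ℝ} (hK : 20 * (4 ^ (2 * n) * (n : ℝ) ^ 4) ≤ K)
    (hH : 0 < H) (hT : 0 < T) (hom : 0 ≤ om) {f v k w : ℤ[X]} (hm : f.Monic) (hf : f.natDegree = n)
    (hfH : H / 2 < f.supNorm) (hv : v.natDegree = n - 1 - 1) (hvT : v.supNorm ≤ 2 * T)
    (hk : k.natDegree < n) (hkT : k.supNorm ≤ n * (√om * T))
    (hw : w.natDegree = 1 ∨ w.natDegree = 2) (hsq : Squarefree (up ℚ w))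
    (hwT : w.supNorm ≤ n ^ 2 * om) (hd : f ∣ k ^ 2 + v ^ 2 * w) :
    CW n (K * om) (2 * T) (K * √om * T) (K * om * T ^ 2 / H) f := by
  obtain ⟨E, hE⟩ := hd
  have hn1 : (1 : ℝ) ≤ n := by exact_mod_cast (by omega : 1 ≤ n)
  have h4 : (1 : ℝ) ≤ 4 ^ (2 * n) := one_le_pow₀ (by norm_num)
  have hn4 : (n : ℝ) ^ 4 ≤ K := by nlinarith [pow_pos (zero_lt_one.trans_le hn1) 4]
  have hdeg : (f * E).natDegree ≤ 2 * n - 2 := by
    rw [← hE]
    refine (natDegree_add_le _ _).trans (max_le ?_ (natDegree_mul_le.trans ?_))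
    · rw [natDegree_pow]
      omega
    · rw [natDegree_pow]
      omega
  refine ⟨E, k, v, w, hE.symm, ?_, ?_, hk, by omega, hw, hsq, hwT.trans ?_, hvT, hkT.trans ?_, ?_⟩
  · rintro rfl
    rw [natDegree_zero] at hv
    omega
  · by_cases h0 : E = 0
    · rw [h0, natDegree_zero]
      omega
    · rw [natDegree_mul hm.ne_zero h0] at hdeg
      omega
  · exact mul_le_mul_of_nonneg_right ((pow_le_pow_right₀ hn1 (by norm_num)).trans hn4) hom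
  · rw [mul_assoc]
    exact mul_le_mul_of_nonneg_right ((le_self_pow₀ hn1 (by norm_num)).trans hn4) (by positivity)
  · have e1 := gelfond f E (m := 2 * n) (by omega)
    have e2 : (k ^ 2).supNorm ≤ 2 * n * (n * (√om * T)) ^ 2 := by
      rw [sq k]
      refine (sup_mul_le k k hk.le).trans ?_
      rw [← sq]
      have := k.supNorm_nonneg
      gcongr
      linarith
    have e3 : (v ^ 2).supNorm ≤ 2 * n * (2 * T) ^ 2 := by
      rw [sq v]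
      refine (sup_mul_le v v (m := n) (by omega)).trans ?_
      rw [← sq]
      have := v.supNorm_nonneg
      gcongr
      linarith
    have e4 : (v ^ 2 * w).supNorm ≤ 3 * (n ^ 2 * om * (2 * n * (2 * T) ^ 2)) := by
      rw [mul_comm (v ^ 2)]
      refine (sup_mul_le w _ (m := 2) (by omega)).trans ?_
      exact mul_le_mul (by norm_num) (mul_le_mul hwT e3 (supNorm_nonneg _) (by positivity))
        (mul_nonneg (supNorm_nonneg _) (supNorm_nonneg _)) (by norm_num)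
    have e5 : (f * E).supNorm ≤ 26 * (n ^ 3 * (om * T ^ 2)) := by
      rw [← hE]
      refine (sup_add_le _ _).trans ((add_le_add e2 e4).trans (le_of_eq ?_))
      rw [mul_pow, mul_pow, Real.sq_sqrt hom]
      ring
    have hn5 : (5 : ℝ) ≤ n := by exact_mod_cast hn
    have hE0 := E.supNorm_nonneg
    rw [le_div_iff₀ hH]
    calc E.supNorm * H ≤ 2 * (f.supNorm * E.supNorm) := by nlinarith
      _ ≤ 2 * (4 ^ (2 * n) * (26 * (n ^ 3 * (om * T ^ 2)))) :=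
        mul_le_mul_of_nonneg_left (e1.trans (by gcongr)) zero_le_two
      _ = 52 * (4 ^ (2 * n) * n ^ 3 * (om * T ^ 2)) := by ring
      _ ≤ 20 * n * (4 ^ (2 * n) * n ^ 3 * (om * T ^ 2)) := by
        gcongr
        linarith
      _ = 20 * (4 ^ (2 * n) * (n : ℝ) ^ 4) * (om * T ^ 2) := by ring
      _ ≤ K * (om * T ^ 2) := by gcongr
      _ = _ := by ring

end Pool.Agent.VW
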