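import Pool.Agent.P.MP_b0ea37_nt.WMuB
import Pool.Agent.P.MP_b0ea37_nt.WMuC

namespace Pool.Agent.VW

open Polynomial

theorem Prim.nq {f : ℤ[X]} (hm : f.Monic) (h3 : 3 ≤ f.natDegree) (hf : Irr f) (h : Prim f) :
    NQ f := by
  intro g a hg
  obtain ⟨z, hz⟩ := mu_root hm rfl hf
  obtain ⟨r, hr, e⟩ := hz.red g
  have h1 : up ℚ f ∣ r ^ 2 - C a := by
    rw [hz.dvd_iff] at hg ⊢
    rwa [map_sub, map_pow, e, ← map_pow, ← map_sub]
  obtain ⟨b, rfl⟩ := natDegree_eq_zero.1 (mu_prim_sq hm rfl h3 hf h hr h1)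
  exact ⟨b, by rw [hz.dvd_iff, map_sub, e, sub_self]⟩

/-- the Gram determinant of two short differences vanishes -/
theorem mu_gram {n j : ℕ} {f w₁ w w₂ : ℤ[X]} {z V u₁ u : ℂ} (hz : MuRoot n (up ℚ f) z)
    (hm : f.Monic) (hV : V ≠ 0) (hj : j ≤ 2) (h1 : w₁.natDegree ≤ 2 * j) (h : w.natDegree ≤ 2 * j)
    (h2 : w₂.natDegree ≤ 2 * j) (e1 : V ^ 2 * aeval z w₁ + u₁ * u₁ = 0)
    (e : V ^ 2 * aeval z w + u₁ * u = 0) (e2 : V ^ 2 * aeval z w₂ + u * u = 0) {A : ℝ}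
    (hA : w₁.supNorm * w₂.supNorm ≤ A) (hA' : w.supNorm * w.supNorm ≤ A)
    (hs : 4 * j < n ∨ 4 ^ 8 * (10 * A) < f.supNorm) : w₁ * w₂ = w ^ 2 := by
  have hd : (w₁ * w₂ - w ^ 2).natDegree ≤ 4 * j := by
    refine (natDegree_sub_le _ _).trans (max_le (natDegree_mul_le.trans (by omega)) ?_)
    rw [natDegree_pow]
    omega
  have hdv : f ∣ w₁ * w₂ - w ^ 2 := by
    rw [hz.int_dvd hm, map_sub, map_mul, map_pow]
    refine mul_left_cancel₀ (pow_ne_zero 4 hV) ?_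
    linear_combination V ^ 2 * aeval z w₂ * e1 - u₁ * u₁ * e2 -
      (V ^ 2 * aeval z w - u₁ * u) * e
  by_contra hne
  have hne' := sub_ne_zero.2 hne
  rcases hs with hs | hs
  · have := natDegree_le_of_dvd hdv hne'
    rw [← WMuA_deg, hz.deg] at this
    omega
  · have h3 := sup_le_of_dvd hne' hdv (m := 8) (by omega)
    have h4 := sup_sub_le (w₁ * w₂) (w ^ 2)
    have h5 := sup_mul_le w₁ w₂ (m := 4) (by omega)
    have h6 := sup_mul_le w w (m := 4) (by omega)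
    rw [← sq] at h6
    norm_num at h3 h5 h6 hs
    linarith

theorem mult (n j : ℕ) (hj : j = 1 ∨ j = 2) (hn : 5 ≤ n) (hn' : 2 * j + 2 ≤ n) :
    ∃ K : ℝ, 1 ≤ K ∧ ∀ (H T Sg om : ℝ) (f v : ℤ[X]) (S : Finset ℤ[X]), 1 ≤ H → 0 < T → 0 < Sg →
      1 ≤ om → f.Monic → f.natDegree = n → Irr f → NQ f → H / 2 < f.supNorm →
      v.natDegree = n - 1 - j → v.supNorm ≤ 2 * T →
      (∀ k ∈ S, k.natDegree < n ∧ k.supNorm ≤ Sg * T) →
      (∀ k ∈ S, ∀ k' ∈ S, ∃ W : ℤ[X], W.natDegree ≤ 2 * j ∧ W.supNorm ≤ Sg ^ 2 ∧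
        f ∣ v ^ 2 * W + k * k') →
      (∀ k ∈ S, ∀ k' ∈ S, up ℚ v ∣ up ℚ (k - k') → k = k') →
      (S.card : ℝ) ≤ K * (1 + Sg ^ j / √om + if j = 2 then Sg + Sg ^ 4 / H else 0) ∨
        (CC (K * om) f ∧
          (j = 1 → CW n (K * om) (2 * T) (K * √om * T) (K * om * T ^ 2 / H) f)) := by
  classical
  have hn1 : (1 : ℝ) ≤ n := by exact_mod_cast (by omega : 1 ≤ n)
  have h4 : (1 : ℝ) ≤ 4 ^ (2 * n) := one_le_pow₀ (by norm_num)
  have hp4 : (1 : ℝ) ≤ (n : ℝ) ^ 4 := one_le_pow₀ hn1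
  obtain ⟨K, hK1, hK2⟩ : ∃ K : ℝ, 20 * (4 ^ (2 * n) * (n : ℝ) ^ 4) ≤ K ∧
      32400 * (20 * 4 ^ 8 * (n : ℝ) ^ 4) ≤ K := ⟨max _ _, le_max_left _ _, le_max_right _ _⟩
  have hK3 : 256 * (n : ℝ) ^ 4 ≤ K := by linarith
  refine ⟨K, by linarith, fun H T Sg om f v S hH hT hSg hom hm hf hirr hq hfH hv hvT hk hw hsep =>
    ?_⟩
  have hso : 1 ≤ √om := Real.one_le_sqrt.2 hom
  have hif : (0 : ℝ) ≤ if j = 2 then Sg + Sg ^ 4 / H else 0 := by
    split_ifs
    · positivity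
    · exact le_rfl
  have hq0 : 0 ≤ Sg ^ j / √om := by positivity
  by_cases hS : S.card ≤ 1
  · left
    have : (S.card : ℝ) ≤ 1 := by exact_mod_cast hS
    nlinarith
  obtain ⟨z, hz⟩ := mu_root hm hf hirr
  have hV : aeval z v ≠ 0 := fun e => by
    have h0 := hz.eq_zero (q := up ℚ v) (by rw [WMuA_deg]; omega) ((WMuB_ev z v).trans e)
    have h1 := WMuA_deg v
    rw [h0, natDegree_zero] at h1
    omega
  obtain ⟨ρ, R, hρ, hR1, hRk, hRw⟩ := mu_coord hz hV (j := j) (by omega) S (B := Sg * T)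
    (Q := Sg ^ 2) (by positivity) (by positivity) hk fun k h k' h' => by
      obtain ⟨W, h1, h2, h3⟩ := hw k h k' h'
      refine ⟨W, h1, h2, ?_⟩
      rw [hz.int_dvd hm, map_add, map_mul, map_mul, map_pow] at h3
      exact h3
  have hsub : ∀ a b : ℤ[X], up ℚ (a - b) = up ℚ a - up ℚ b := fun a b => Polynomial.map_sub _
  have hd2 : ∀ a ∈ S, ∀ b ∈ S, ‖R (up ℚ (a - b))‖ ≤ 2 := fun a ha b hb => by
    rw [hsub, map_sub]
    linarith [norm_sub_le (R (up ℚ a)) (R (up ℚ b)), hR1 a ha, hR1 b hb]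
  obtain ⟨⟨a, b⟩, hab, hmin⟩ := S.offDiag.exists_min_image (fun p => ‖R (up ℚ (p.1 - p.2))‖) (by
    obtain ⟨a, ha, b, hb, hne⟩ := Finset.one_lt_card.1 (not_le.1 hS)
    exact ⟨(a, b), Finset.mem_offDiag.2 ⟨ha, hb, hne⟩⟩)
  obtain ⟨ha, hb, hne⟩ := Finset.mem_offDiag.1 hab
  dsimp only at ha hb hne hmin
  obtain ⟨l, hl⟩ : ∃ l, l = ‖R (up ℚ (a - b))‖ := ⟨_, rfl⟩
  have hs : ∀ x ∈ S, ∀ y ∈ S, x ≠ y → l ≤ ‖R (up ℚ (x - y))‖ := fun x hx y hy hxy =>
    hl ▸ hmin (x, y) (Finset.mem_offDiag.2 ⟨hx, hy, hxy⟩)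
  have hl2 : l ≤ 2 := hl ▸ hd2 a ha b hb
  have hdeg : ∀ x ∈ S, ∀ y ∈ S, (x - y).natDegree < n := fun x hx y hy =>
    (natDegree_sub_le _ _).trans_lt (max_lt (hk x hx).1 (hk y hy).1)
  obtain ⟨w₁, hw1, hw2, hw3⟩ := hRw a ha b hb a ha b hb
  obtain ⟨c, h₁, hw0, ew, hc, hc1, hcd, hcq, g₀, g₁, hg⟩ := mu_struct hz hq (j := j) (by omega)
    (by omega) hV (hdeg a ha b hb) (fun h => hne (hsep a ha b hb h)) hw1 hw3
  rw [← hl] at hw2
  have hw4 : w₁.supNorm ≤ n ^ 2 * (Sg * l) ^ 2 := hw2.trans (le_of_eq (by ring))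
  have hl0' : 0 ≤ l := hl ▸ norm_nonneg _
  have hl1 : 1 ≤ n * (Sg * l) := by
    have := (one_le_sup hw0).trans hw4
    rw [← mul_pow] at this
    exact (one_le_sq_iff₀ (by positivity)).1 this
  have hl0 : 0 < l := lt_of_le_of_ne hl0' fun e => by
    rw [← e] at hl1
    norm_num at hl1
  by_cases hex : c.natDegree ≤ 2 ∧ Sg * l ≤ √om
  · right
    have h1 : (Sg * l) ^ 2 ≤ om := by
      rw [← Real.sq_sqrt (zero_le_one.trans hom)]
      gcongr
      exact hex.2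
    have h2 : w₁.supNorm ≤ n ^ 2 * om := hw4.trans (by gcongr)
    refine ⟨⟨c, by omega, hc, ?_, hcq⟩, fun hj1 => ?_⟩
    · refine (sup_le_of_dvd hw0 ⟨_, ew⟩ (m := 4) (by omega)).trans ?_
      have h3 : (n : ℝ) ^ 2 ≤ n ^ 4 := pow_le_pow_right₀ hn1 (by norm_num)
      calc 4 ^ 4 * w₁.supNorm ≤ 4 ^ 4 * (n ^ 4 * om) := by
            gcongr
            exact h2.trans (by gcongr)
        _ = 256 * n ^ 4 * om := by ring
        _ ≤ _ := by gcongr
    · subst hj1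
      obtain ⟨t, rfl⟩ := natDegree_eq_zero.1 (by omega : h₁.natDegree = 0)
      have ht : (t : ℚ) ≠ 0 := by
        rintro ht
        have : t = 0 := by exact_mod_cast ht
        exact hw0 (by rw [ew, this]; simp)
      refine mu_cw hn hK1 (by linarith) hT (by linarith) hm hf hfH hv hvT (hdeg a ha b hb)
        ((hRk a ha b hb).trans ?_) (w := w₁) (by omega) ?_ h2 ?_
      · rw [← hl, ← mul_assoc l, mul_comm l]
        gcongr
        exact hex.2
      · rw [ew, WMuC_up_mul, WMuC_up_pow]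
        refine (Associated.squarefree_iff (associated_mul_unit_right _ _ ?_)).1 hc
        refine IsUnit.pow 2 ?_
        rw [up, map_C]
        exact isUnit_C.2 (Ne.isUnit ht)
      · rw [hz.int_dvd hm, map_add, map_mul, map_pow, map_pow]
        linear_combination hw3
  left
  obtain ⟨A, hA⟩ : ∃ A : ℝ, A = 20 * 4 ^ 8 * (n : ℝ) ^ 4 := ⟨_, rfl⟩
  have hA0 : 0 < A := by rw [hA]; positivity
  obtain ⟨τ, hτ⟩ : ∃ τ, τ = √(H / A) / (Sg ^ 2 * l) := ⟨_, rfl⟩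
  have hτ0 : 0 < τ := by rw [hτ]; positivity
  have hτ1 : (τ * l) ^ 2 = H / (A * Sg ^ 4) := by
    rw [mul_pow, hτ, div_pow, Real.sq_sqrt (by positivity)]
    field_simp
  have hnear : ∀ x ∈ S, ∀ y ∈ S, j = 1 ∨ ‖R (up ℚ (x - y))‖ ≤ τ → ∃ s t : ℚ,
      up ℚ (x - y) = s • g₀ + t • g₁ ∧ (2 * j < c.natDegree + 2 → t = 0) := fun x hx y hy h => by
    obtain ⟨w, d1, s1, e1⟩ := hRw a ha b hb x hx y hy
    obtain ⟨w₂, d2, s2, e2⟩ := hRw x hx y hy x hx y hy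
    rw [← hl] at s1
    have hN := norm_nonneg (R (up ℚ (x - y)))
    refine hg _ w w₂ (hdeg x hx y hy) d2 e1 (mu_gram hz hm hV (j := j) (by omega) hw1 d1 d2 hw3 e1
      e2 (A := n ^ 4 * Sg ^ 4 * (‖R (up ℚ (x - y))‖ * l) ^ 2) ?_ ?_ ?_)
    · exact (mul_le_mul hw2 s2 (supNorm_nonneg _) (by positivity)).trans (le_of_eq (by ring))
    · exact (mul_le_mul s1 s1 (supNorm_nonneg _) (by positivity)).trans (le_of_eq (by ring))
    · rcases h with h | h
      · left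
        omega
      · right
        refine lt_of_le_of_lt ?_ hfH
        calc 4 ^ 8 * (10 * (n ^ 4 * Sg ^ 4 * (‖R (up ℚ (x - y))‖ * l) ^ 2))
            ≤ 4 ^ 8 * (10 * (n ^ 4 * Sg ^ 4 * (τ * l) ^ 2)) := by gcongr
          _ = H / 2 := by
            rw [hτ1, hA]
            field_simp
            norm_num
  have hinv : ∀ y : ℝ, 0 < y → y ≤ Sg * l → 2 * 2 / l ≤ 4 * (Sg / y) := fun y hy h => by
    rw [div_le_iff₀ hl0, mul_assoc, div_mul_eq_mul_div]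
    have := (one_le_div hy).2 h
    linarith
  rcases hj with rfl | rfl
  · have h1 := mu_pack R S g₀ g₁ 1 (Or.inl rfl) zero_le_two hl0 (fun x hx y hy => by
      obtain ⟨s, t, e, ht⟩ := hnear x hx y hy (Or.inl rfl)
      exact ⟨s, t, e, fun _ => ht (by omega)⟩) hd2 hs
    have h2 := hinv _ (by linarith) (not_le.1 fun h => hex ⟨by omega, h⟩).le
    rw [pow_one] at h1 hq0 ⊢
    rw [if_neg (by omega), add_zero]
    nlinarith
  rw [if_pos rfl]
  have hpos : 0 ≤ Sg ^ 4 / H := by positivity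
  by_cases h2τ : 2 ≤ τ
  · by_cases hc2 : c.natDegree ≤ 2
    · have h1 := mu_pack R S g₀ g₁ 2 (Or.inr rfl) zero_le_two hl0 (fun x hx y hy => by
        obtain ⟨s, t, e, -⟩ := hnear x hx y hy (Or.inr ((hd2 x hx y hy).trans h2τ))
        exact ⟨s, t, e, fun h => absurd h (by omega)⟩) hd2 hs
      have h2 := hinv _ (by linarith) (not_le.1 fun h => hex ⟨hc2, h⟩).le
      have h3 : (Sg / √om) ^ 2 ≤ Sg ^ 2 / √om := by
        rw [div_pow]
        gcongr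
        exact le_self_pow₀ hso two_ne_zero
      have h5 : (S.card : ℝ) ≤ (1 + 4 * (Sg / √om)) ^ 2 := h1.trans (by gcongr)
      have h6 : (S.card : ℝ) ≤ 32 * (1 + Sg ^ 2 / √om) := by
        nlinarith [sq_nonneg (1 - 4 * (Sg / √om))]
      refine h6.trans (mul_le_mul (by linarith) (by linarith) (by positivity) (by linarith))
    · have h1 := mu_pack R S g₀ g₁ 1 (Or.inl rfl) zero_le_two hl0 (fun x hx y hy => by
        obtain ⟨s, t, e, ht⟩ := hnear x hx y hy (Or.inr ((hd2 x hx y hy).trans h2τ))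
        exact ⟨s, t, e, fun _ => ht (by omega)⟩) hd2 hs
      have h2 := hinv (1 / n) (by positivity) (by
        rw [div_le_iff₀ (by positivity)]
        linarith)
      rw [pow_one] at h1
      rw [div_div_eq_mul_div, div_one] at h2
      have h3 : (n : ℝ) ≤ n ^ 4 := le_self_pow₀ hn1 (by norm_num)
      have h6 : (S.card : ℝ) ≤ 4 * n * (1 + Sg) := by nlinarith
      refine h6.trans (mul_le_mul (by linarith) (by linarith) (by positivity) (by linarith))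
  · have hρ4 := hρ rfl (by omega)
    have h1 : Cnt (fun x => x ∈ S) ((1 + 2 * 2 / τ) ^ 4 * (1 + 2 * (2 * τ) / l) ^ 2) := by
      refine Cnt.greedy (fun x y => ‖R (up ℚ (x - y))‖ ≤ τ) (fun x _ => by simp [hτ0.le])
        (fun x y _ _ h => by rwa [hsub, map_sub, norm_sub_rev, ← map_sub, ← hsub]) (by positivity)
        (fun S' h1 h2 => mu_pack_top hρ4 R S' hτ0 (fun x hx y hy => hd2 x (h1 x hx) y (h1 y hy))
          fun x hx y hy hxy => (not_le.1 (h2 x hx y hy hxy)).le) fun e he S' hS' => ?_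
      have hsp : ∀ x y : ℤ[X], up ℚ (x - y) = up ℚ (e - y) - up ℚ (e - x) := fun x y => by
        rw [← hsub]
        congr 1
        ring
      refine mu_pack R S' g₀ g₁ 2 (Or.inr rfl) (by positivity) hl0 (fun x hx y hy => ?_)
        (fun x hx y hy => ?_) fun x hx y hy => hs x (hS' x hx).1 y (hS' y hy).1
      · obtain ⟨s, t, e1, -⟩ := hnear e he x (hS' x hx).1 (Or.inr (hS' x hx).2)
        obtain ⟨s', t', e2, -⟩ := hnear e he y (hS' y hy).1 (Or.inr (hS' y hy).2)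
        refine ⟨s' - s, t' - t, ?_, fun h => absurd h (by omega)⟩
        rw [hsp, e1, e2, sub_smul, sub_smul]
        ring
      · rw [hsp, map_sub]
        linarith [norm_sub_le (R (up ℚ (e - y))) (R (up ℚ (e - x))), (hS' x hx).2, (hS' y hy).2]
    have h2 := mu_num hl0 hl2 hτ0 (not_le.1 h2τ).le (h1 S fun _ h => h)
      (mu_pack_top hρ4 R S hl0 hd2 hs)
    have h3 : 32400 / (τ * l) ^ 2 = 32400 * A * (Sg ^ 4 / H) := by
      rw [hτ1]
      field_simp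
    rw [h3, hA] at h2
    exact h2.trans (mul_le_mul hK2 (by linarith) hpos (by linarith))

end Pool.Agent.VW
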