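import Pool.Agent.P.MP_b0ea37_nt.WMrel
import Pool.Agent.P.MP_b0ea37_nt.WMDefs
import Pool.Agent.P.MP_b0ea37_nt.WRes

namespace Pool.Agent.VW

open Polynomial

lemma WMnoc_wk {P : ℕ} {r r' : ℤ} {g : ℤ[X]} (h : Wk P r' g) (e : (P : ℤ) ∣ r - r') : Wk P r g := by
  obtain ⟨h1, h2⟩ := h
  obtain ⟨k, hk⟩ := g.binomExpansion r' (r - r')
  rw [add_sub_cancel] at hk
  refine ⟨?_, ?_⟩
  · rw [hk]
    refine dvd_add (dvd_add h1 ?_) (Dvd.dvd.mul_left (pow_dvd_pow_of_dvd e 2) _)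
    rw [sq]; exact mul_dvd_mul h2 e
  · have := (e.trans (sub_dvd_eval_sub r r' (derivative g))).add h2
    rwa [sub_add_cancel] at this

/-- two members of a class are incongruent modulo `v` -/
theorem noc {n d j : ℕ} (hn : n = d + 1 + j) (hn2 : 2 ≤ n) {D D' : Dat} (h : Ok n d D)
    (h' : Ok n d D') (hs : Sq1 d D D') (hf : Irr D.f) (hdvd : up ℚ D.v ∣ up ℚ (D.f - D'.f)) :
    D.f = D'.f ∨ (D.P : ℝ) ^ 2 ≤ (j + n).factorial *
      (4 ^ n * (D.f - D'.f).supNorm / D.v.supNorm) ^ n * D.f.supNorm ^ j := by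
  obtain ⟨κ, ⟨ev, hκ, hR⟩, hc⟩ := hs
  have H := h
  have H' := h'
  obtain ⟨⟨hvd, hvp, hvl, -⟩, hm, hdeg, hP, -, hv1, hv2, hw, hz⟩ := H
  obtain ⟨-, hm', hdeg', -, -, -, -, hw', -⟩ := H'
  obtain ⟨g, hg⟩ := dvd_of_up_dvd hvp hdvd
  have hk1 : ∀ z : ℂ, aeval z D.v = 0 → κ z = 1 := fun z hz0 => by
    have e : aeval z (D.f - D'.f) = 0 := by rw [hg, map_mul, hz0, zero_mul]
    rw [map_sub, hκ z hz0] at e
    have e2 : (κ z - 1) * (κ z + 1) = 0 :=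
      mul_right_cancel₀ (hz z hz0) (by linear_combination -e)
    rcases mul_eq_zero.1 e2 with e3 | e3
    · exact sub_eq_zero.1 e3
    · have h3 := hc z hz0
      rw [eq_neg_of_add_eq_zero_left e3] at h3
      norm_num at h3
  obtain ⟨eP, er⟩ := eq_of_inR h h' ev ((hR D.P hP).2.congr fun z hz0 => by
    simp only [hk1 z hz0, one_mul])
  rw [← eP] at hw'
  have hw2 := WMnoc_wk hw' er
  by_cases hg0 : g = 0
  · left; rw [hg0, mul_zero] at hg; exact sub_eq_zero.1 hg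
  right
  have hv0 : D.v ≠ 0 := fun e => by rw [e] at hvl; simp at hvl
  have hPi : Prime (D.P : ℤ) := Nat.prime_iff_prime_int.1 hP
  have hPg : (D.P : ℤ) ∣ g.eval D.r := by
    have e : (D.P : ℤ) ^ 2 ∣ D.v.eval D.r * g.eval D.r := by
      rw [← eval_mul, ← hg, eval_sub]; exact dvd_sub hw.1 hw2.1
    obtain ⟨a, ha⟩ := hv1
    rw [ha, sq] at e hv2
    rw [mul_assoc] at e
    rcases hPi.dvd_or_dvd ((mul_dvd_mul_iff_left hPi.ne_zero).1 e) with e | e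
    · exact absurd (mul_dvd_mul_left _ e) hv2
    · exact e
  have hlt : (D.v * g).natDegree < n := by
    rw [← hg, ← hdeg]
    refine natDegree_lt_natDegree (by rw [hg]; exact mul_ne_zero hv0 hg0) ?_
    refine degree_sub_lt_left ?_ hm.ne_zero (by rw [hm.leadingCoeff, hm'.leadingCoeff])
    rw [degree_eq_natDegree hm.ne_zero, degree_eq_natDegree hm'.ne_zero, hdeg, hdeg']
  have hgj : g.natDegree ≤ j := by
    rw [natDegree_mul hv0 hg0, hvd] at hlt; omega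
  have hres := res_one_two hP.one_le hgj hdeg.le (by omega) hPg hw
  have hne : resultant g D.f j n ≠ 0 := by
    obtain ⟨k, hk⟩ := Nat.exists_eq_add_of_le hgj
    have hc1 : D.f.coeff n = 1 := by rw [← hdeg]; exact hm.coeff_natDegree
    rw [hk, resultant_add_left_deg _ _ _ _ _ le_rfl, hc1, ← hdeg]
    exact mul_ne_zero (by simp) (hf.resultant_ne_zero hg0 (by omega))
  have h1 : (D.P : ℝ) ^ 2 ≤ ‖resultant g D.f j n‖ := by
    rw [Int.norm_eq_abs]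
    exact_mod_cast Int.le_of_dvd (abs_pos.2 hne) ((dvd_abs _ _).2 hres)
  have hvs : 0 < D.v.supNorm := lt_of_lt_of_le one_pos (one_le_sup hv0)
  have h2 : g.supNorm ≤ 4 ^ n * (D.f - D'.f).supNorm / D.v.supNorm := by
    rw [le_div_iff₀ hvs, mul_comm, hg]; exact gelfond _ _ hlt.le
  refine h1.trans ((norm_resultant_le _ _ _ _).trans ?_)
  have := g.supNorm_nonneg
  have := D.f.supNorm_nonneg
  gcongr

lemma WMnoc_near {k : ℂ} (h : ‖k ^ 2 - 1‖ ≤ 1 / 100) :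
    (0 < k.re → ‖k - 1‖ ≤ 1 / 100) ∧ (¬ 0 < k.re → ‖k + 1‖ ≤ 1 / 100) := by
  have e : ‖k - 1‖ * ‖k + 1‖ ≤ 1 / 100 := by
    rw [← norm_mul, show (k - 1) * (k + 1) = k ^ 2 - 1 by ring]; exact h
  constructor
  · intro hk
    have h1 : 1 ≤ ‖k + 1‖ := le_trans (by simp; linarith) (Complex.re_le_norm (k + 1))
    nlinarith [norm_nonneg (k - 1)]
  · intro hk
    have h1 : 1 ≤ ‖k - 1‖ := by
      rw [norm_sub_rev]
      exact le_trans (by simp; linarith) (Complex.re_le_norm (1 - k))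
    nlinarith [norm_nonneg (k + 1)]

lemma WMnoc_quot {a b s : ℂ} (hs : ‖s‖ = 1) (ha : ‖a - s‖ ≤ 1 / 100) (hb : ‖b - s‖ ≤ 1 / 100) :
    ‖a⁻¹ * b - 1‖ ≤ 1 / 10 := by
  have h1 : 99 / 100 ≤ ‖a‖ := by
    have := norm_sub_norm_le s a
    rw [norm_sub_rev] at this; linarith
  have h0 : a ≠ 0 := norm_pos_iff.1 (by linarith)
  have h2 : ‖b - a‖ ≤ 2 / 100 := by
    have := norm_sub_le (b - s) (a - s)
    rw [sub_sub_sub_cancel_right] at this; linarith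
  rw [show a⁻¹ * b - 1 = (b - a) / a by field_simp, norm_div, div_le_iff₀ (by linarith)]
  linarith

/-- splitting a square class by the signs at the complex roots -/
theorem sign_split {n d : ℕ} {Q : Dat → Prop} {D₀ : Dat} {M : ℝ} (hM : 0 ≤ M) (h₀ : Ok n d D₀)
    (hQ : ∀ D, Q D → Ok n d D ∧ (∃ κ, Sq d D₀ D κ) ∧ Cl D₀.v D₀.f D.f)
    (h : ∀ Q' : Dat → Prop, (∀ D, Q' D → Q D) → (∀ D D', Q' D → Q' D' → Sq1 d D D') → Cnt Q' M) :
    Cnt Q (2 ^ d * M) := by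
  obtain ⟨η, hη⟩ := exists_lst h₀.1.1
  have hv0 : D₀.v ≠ 0 := fun e => by
    have := h₀.1.2.2.1
    rw [e] at this; simp at this
  have near : ∀ D κ, Q D → Sq d D₀ D κ → ∀ z : ℂ, aeval z D₀.v = 0 → ‖κ z ^ 2 - 1‖ ≤ 1 / 100 := by
    intro D κ hD hκ z hz
    obtain ⟨h1, h2⟩ := (hQ D hD).2.2 z hz
    rw [hκ.2.1 z hz, ← sub_one_mul, norm_mul] at h2
    exact le_of_mul_le_mul_right (by linarith) (norm_pos_iff.2 h1)
  have hc := Cnt.fibre (Cnt.fintype fun _ : Fin d → Bool => True) hM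
    (P := fun s D => Q D ∧ ∃ κ, Sq d D₀ D κ ∧ ∀ k, s k = true ↔ 0 < (κ (η k)).re) fun s _ => by
      refine h _ (fun D hD => hD.1) ?_
      rintro D D' ⟨hD, κ, hκ, hs⟩ ⟨hD', κ', hκ', hs'⟩
      refine ⟨_, (hκ.symm h₀ (hQ D hD).1).trans h₀ hκ', fun z hz => ?_⟩
      rw [← hκ.1] at hz
      obtain ⟨k, rfl⟩ := (hη.root_iff hv0 z).1 hz
      have a := WMnoc_near (near D κ hD hκ _ hz)
      have b := WMnoc_near (near D' κ' hD' hκ' _ hz)
      by_cases hk : s k = true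
      · exact WMnoc_quot norm_one (a.1 ((hs k).1 hk)) (b.1 ((hs' k).1 hk))
      · refine WMnoc_quot (s := -1) (by simp) ?_ ?_ <;> rw [sub_neg_eq_add]
        · exact a.2 fun e => hk ((hs k).2 e)
        · exact b.2 fun e => hk ((hs' k).2 e)
  refine hc.mono (fun D hD => ?_) (by simp)
  obtain ⟨κ, hκ⟩ := (hQ D hD).2.1
  exact ⟨fun k => decide (0 < (κ (η k)).re), trivial, hD, κ, hκ, fun k => by simp⟩

end Pool.Agent.VW
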