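import Pool.Agent.P.MP_b0ea37_nt.WMD3

namespace Pool.Agent.VW

open Polynomial

theorem numA_mu (n : ℕ) (hn : 5 ≤ n) : (n : ℝ) / 2 - 5 / 8 - 1 / 1000 ≤ muL n := by
  have h : (5 : ℝ) ≤ n := by exact_mod_cast hn
  unfold muL
  have : (n : ℝ) / 2 - 5 / 8 ≤ n * (n - 2) / (2 * (n - 1)) := by
    rw [le_div_iff₀ (by linarith)]; nlinarith
  linarith

theorem numA_low (n d : ℕ) {c T s H P G u W A : ℝ} (hc : 0 < c) (hc1 : c ≤ 1) (hT : 0 < T)
    (hs : 0 < s) (hH : s * s = H) (hP : 0 < P) (hG : 0 < G) (hu : 0 < u) (hA : 1 ≤ A)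
    (h1 : T ^ (d + 1) ≤ A * P) (h2 : H ^ d * s ^ n ≤ 2 * W * P)
    (h3 : H ^ d * s ^ n * s ≤ W * (G * P * u)) :
    T ^ (n + d + 1) * H ^ d / ((c * (T / s)) ^ n * P ^ 2) * (1 + c * (T / s) * H / T / (u * G)) ≤
      3 * A ^ 3 / c ^ n * W := by
  have hH0 : 0 < H := hH ▸ mul_pos hs hs
  have e : T ^ (n + d + 1) * H ^ d / ((c * (T / s)) ^ n * P ^ 2) *
      (1 + c * (T / s) * H / T / (u * G)) =
      T ^ (d + 1) / P / c ^ n * (H ^ d * s ^ n / P + c * (H ^ d * s ^ n * s / (G * P * u))) := by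
    rw [mul_pow, div_pow, ← hH]
    field_simp
    ring
  have a1 : T ^ (d + 1) / P ≤ A ^ 3 :=
    ((div_le_iff₀ hP).2 h1).trans (le_self_pow₀ hA (by norm_num))
  have a2 : H ^ d * s ^ n / P ≤ 2 * W := (div_le_iff₀ hP).2 h2
  have a3 : H ^ d * s ^ n * s / (G * P * u) ≤ W := (div_le_iff₀ (by positivity)).2 h3
  rw [e]
  calc _ ≤ A ^ 3 / c ^ n * (2 * W + 1 * W) := by gcongr
    _ = _ := by ring

theorem numA_high (d : ℕ) {c T H P G u W A : ℝ} (hc : 0 < c) (hc1 : c ≤ 1) (hT : 0 < T)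
    (hH : 0 < H) (hP : 0 < P) (hG : 1 ≤ G) (hu : 0 < u) (hW : 0 ≤ W) (hA : 1 ≤ A)
    (h1 : T ^ (d + 1) ≤ A * P) (h2 : T * H ^ d ≤ A * W) (h3 : H ^ d * H ≤ W * u) :
    T ^ (d + 2 + d + 1) * H ^ d / (c ^ (d + 2) * P ^ 2) * (1 + c * H / T / (u * G)) ≤
      3 * A ^ 3 / c ^ (d + 2) * W := by
  have hG0 : 0 < G := by linarith
  have e : T ^ (d + 2 + d + 1) * H ^ d / (c ^ (d + 2) * P ^ 2) * (1 + c * H / T / (u * G)) =
      (T ^ (d + 1) / P) ^ 2 / c ^ (d + 2) * (T * H ^ d + c * (H ^ d * H / u / G)) := by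
    field_simp
    ring
  have a1 : T ^ (d + 1) / P ≤ A := (div_le_iff₀ hP).2 h1
  have a2 : H ^ d * H / u / G ≤ 2 * A * W := by
    have b1 : H ^ d * H / u ≤ W := (div_le_iff₀ hu).2 h3
    have b2 : H ^ d * H / u / G ≤ H ^ d * H / u := div_le_self (by positivity) hG
    nlinarith
  rw [e]
  calc _ ≤ A ^ 2 / c ^ (d + 2) * (A * W + 1 * (2 * A * W)) := by gcongr
    _ = _ := by ring

theorem num_one (n d j : ℕ) (hn : n = d + 1 + j) (hj : j = 1) (hd : 3 ≤ d) (δ : ℝ) (hδ : 0 < δ) :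
    ∃ c' : ℝ, 0 < c' ∧ ∀ c₁ A K : ℝ, 0 < c₁ → c₁ ≤ 1 → 1 ≤ A → 1 ≤ K → ∃ K' H₀ : ℝ, 1 ≤ K' ∧
      ∀ H T P₀ G : ℝ, H₀ ≤ H → 1 ≤ T → T ^ (d + 1) ≤ A * P₀ → H ^ muL n / 2 ≤ P₀ →
        P₀ ≤ H ^ ((d : ℝ) + 1 - 1 / 25) → 1 ≤ G → (j = 1 → H ^ (((n : ℝ) - 1) / 2) ≤ G * P₀) →
        ∃ lam : ℝ, 0 < lam ∧ lam ≤ c₁ ∧ lam ^ 2 * H / T ^ 2 ≤ c₁ ^ 2 ∧
          K * (lam * H / T) ^ n * H ^ j < P₀ ^ 2 ∧
          T ^ (n + d + 1) * H ^ d / (lam ^ n * P₀ ^ 2) * mu j H (lam * H / T) (H ^ δ * G ^ 2) ≤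
            K' * H ^ ((n : ℝ) - 1 - c') := by
  subst hj
  obtain rfl : n = d + 2 := hn
  have hd' : (3 : ℝ) ≤ d := by exact_mod_cast hd
  have hmu := numA_mu (d + 2) (by omega)
  obtain ⟨e, he, he1, he2⟩ : ∃ e : ℝ, 0 < e ∧ e ≤ 1 / 100 ∧ ((d : ℝ) + 1) * e = 1 / 25 :=
    ⟨1 / (25 * (d + 1)), by positivity, one_div_le_one_div_of_le (by norm_num) (by linarith),
      by field_simp⟩
  obtain ⟨c', hc', hc1, hc2⟩ : ∃ c' : ℝ, 0 < c' ∧ c' ≤ δ / 2 ∧ c' ≤ e :=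
    ⟨min (δ / 2) e, lt_min (by linarith) he, min_le_left _ _, min_le_right _ _⟩
  refine ⟨c', hc', fun c A K hc hc0 hA hK => ?_⟩
  obtain ⟨H₀, hH₀⟩ := Filter.eventually_atTop.1
    ((tendsto_rpow_atTop (show (0 : ℝ) < 1 / 5 by norm_num)).eventually_gt_atTop (4 * K))
  refine ⟨3 * A ^ 3 / c ^ (d + 2), max 1 H₀, ?_, fun H T P G hH hT h1 h2 h3 hG h4 => ?_⟩
  · rw [le_div_iff₀ (by positivity), one_mul]
    have := one_le_pow₀ (n := 3) hA
    have := pow_le_one₀ (n := d + 2) hc.le hc0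
    linarith
  have hH1 : 1 ≤ H := (le_max_left _ _).trans hH
  have hK5 := hH₀ H ((le_max_right _ _).trans hH)
  have hH0 : 0 < H := by linarith
  have hT0 : 0 < T := by linarith
  have hP : 0 < P := lt_of_lt_of_le (by positivity) h2
  replace h4 := h4 rfl
  push_cast at hmu h4 ⊢
  obtain ⟨s, hs⟩ : ∃ s : ℝ, s = H ^ (1 / 2 : ℝ) := ⟨_, rfl⟩
  have hs0 : 0 < s := hs ▸ Real.rpow_pos_of_pos hH0 _
  have hss : s * s = H := by rw [hs, ← Real.rpow_add hH0]; norm_num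
  have hsk : s ^ (d + 2) = H ^ (((d : ℝ) + 2) / 2) := by
    rw [hs, ← Real.rpow_natCast, ← Real.rpow_mul hH0.le]; push_cast; ring_nf
  have hHd : H ^ d = H ^ (d : ℝ) := (Real.rpow_natCast H d).symm
  have key : ∀ a b : ℝ, a ≤ b → H ^ a ≤ H ^ b := fun a b h =>
    Real.rpow_le_rpow_of_exponent_le hH1 h
  have hsq : √(H ^ δ * G ^ 2) = H ^ (δ / 2) * G := by
    rw [Real.sqrt_eq_iff_mul_self_eq (by positivity) (by positivity), mul_mul_mul_comm,
      ← Real.rpow_add hH0, add_halves, sq]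
  have hmu' : ∀ S : ℝ, mu 1 H S (H ^ δ * G ^ 2) = 1 + S / (H ^ (δ / 2) * G) := fun S => by
    rw [mu, if_neg (by norm_num), add_zero, pow_one, hsq]
  have hW : 0 < H ^ ((d : ℝ) + 2 - 1 - c') := by positivity
  have hl : 0 < min 1 (T / s) := lt_min one_pos (by positivity)
  have hSg : c * min 1 (T / s) * H / T ≤ c * s := by
    calc _ ≤ c * (T / s) * H / T := by gcongr; exact min_le_right _ _
      _ = c * s := by rw [← hss]; field_simp
  refine ⟨c * min 1 (T / s), by positivity, mul_le_of_le_one_right hc.le (min_le_left _ _),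
    ?_, ?_, ?_⟩
  · calc _ ≤ (c * (T / s)) ^ 2 * H / T ^ 2 := by gcongr; exact min_le_right _ _
      _ = c ^ 2 := by rw [← hss]; field_simp
  · have a1 : (c * min 1 (T / s) * H / T) ^ (d + 2) ≤ s ^ (d + 2) :=
      pow_le_pow_left₀ (by positivity) (hSg.trans (mul_le_of_le_one_left hs0.le hc0)) _
    have a2 : H ^ (1 / 5 : ℝ) * (s ^ (d + 2) * H ^ (1 : ℝ)) ≤ H ^ muL (d + 2) * H ^ muL (d + 2) := by
      rw [hsk, ← Real.rpow_add hH0, ← Real.rpow_add hH0, ← Real.rpow_add hH0]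
      exact key _ _ (by linarith)
    rw [Real.rpow_one] at a2
    have a3 : (H ^ muL (d + 2) / 2) ^ 2 ≤ P ^ 2 := pow_le_pow_left₀ (by positivity) h2 2
    have a4 : 4 * K * (s ^ (d + 2) * H) < H ^ (1 / 5 : ℝ) * (s ^ (d + 2) * H) :=
      mul_lt_mul_of_pos_right hK5 (by positivity)
    calc _ ≤ K * s ^ (d + 2) * H ^ 1 := by gcongr
      _ < _ := by rw [pow_one]; nlinarith
  · rw [hmu']
    rcases le_total (T / s) 1 with h | h
    · rw [min_eq_right h]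
      refine numA_low (d + 2) d hc hc0 hT0 hs0 hss hP (by linarith) (by positivity) hA h1 ?_ ?_
      · have a1 : H ^ d * s ^ (d + 2) ≤ H ^ ((d : ℝ) + 2 - 1 - c') * H ^ muL (d + 2) := by
          rw [hsk, hHd, ← Real.rpow_add hH0, ← Real.rpow_add hH0]
          exact key _ _ (by linarith)
        have a2 := mul_le_mul_of_nonneg_left h2 hW.le
        linarith
      · have a1 : H ^ d * s ^ (d + 2) * s ≤
            H ^ ((d : ℝ) + 2 - 1 - c') * (H ^ (((d : ℝ) + 2 - 1) / 2) * H ^ (δ / 2)) := by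
          rw [hsk, hHd, hs, ← Real.rpow_add hH0, ← Real.rpow_add hH0, ← Real.rpow_add hH0,
            ← Real.rpow_add hH0]
          exact key _ _ (by linarith)
        exact a1.trans (by gcongr)
    · rw [min_eq_left h, mul_one]
      refine numA_high d hc hc0 hT0 hH0 hP hG (by positivity) hW.le hA h1 ?_ ?_
      · have a1 : T ≤ A * H ^ (1 - e) := by
          refine le_of_pow_le_pow_left₀ (n := d + 1) (by omega) (by positivity) (h1.trans ?_)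
          have b1 : (H ^ (1 - e)) ^ (d + 1) = H ^ ((d : ℝ) + 1 - 1 / 25) := by
            rw [← Real.rpow_natCast, ← Real.rpow_mul hH0.le, ← he2]; push_cast; ring_nf
          rw [mul_pow, b1]
          exact mul_le_mul (le_self_pow₀ hA (by omega)) h3 hP.le (by positivity)
        have a2 : H ^ (1 - e) * H ^ d ≤ H ^ ((d : ℝ) + 2 - 1 - c') := by
          rw [hHd, ← Real.rpow_add hH0]
          exact key _ _ (by linarith)
        calc _ ≤ A * H ^ (1 - e) * H ^ d := by gcongr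
          _ ≤ _ := by rw [mul_assoc]; gcongr
      · have a1 : H ^ d * H ^ (1 : ℝ) ≤ H ^ ((d : ℝ) + 2 - 1 - c') * H ^ (δ / 2) := by
          rw [hHd, ← Real.rpow_add hH0, ← Real.rpow_add hH0]
          exact key _ _ (by linarith)
        rwa [Real.rpow_one] at a1

end Pool.Agent.VW
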