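import Pool.Agent.P.MP_b0ea37_nt.WMD3

namespace Pool.Agent.VW

open Polynomial

lemma WMnumB_mu {H Sg S om q : ℝ} (hH : 0 < H) (h0 : 0 ≤ Sg) (hS : Sg ≤ S) (hq : 0 < q)
    (hom : q ≤ √om) : mu 2 H Sg om ≤ 1 + S ^ 2 / q + (S + S ^ 4 / H) := by
  unfold mu
  rw [if_pos rfl]
  gcongr

lemma WMnumB_core (d : ℕ) {c A H T P s w q M om : ℝ} (hc : 0 < c) (hc1 : c ≤ 1) (hA : 1 ≤ A)
    (hT : 1 ≤ T) (hP : 0 < P) (hs : 1 ≤ s) (hw : 1 ≤ w) (hsw : s * w = H)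
    (hTP : T ^ (d + 1) ≤ A * P) (hwP : w ^ (d + 1) ≤ 2 * P) (hq : 0 < q) (hom : q ≤ √om)
    (h1 : w ^ 2 ≤ M) (h2 : H ^ 2 / q ≤ M) (h3 : w * H ≤ M) (h4 : s ^ 2 * H ≤ M)
    (h5 : T * H ≤ A * M) (h6 : T ^ 2 ≤ A ^ 2 * M) :
    T ^ (d + 1 + 2 + d + 1) * H ^ d / ((c * min 1 (T / w)) ^ (d + 1 + 2) * P ^ 2) *
      mu 2 H (c * min 1 (T / w) * H / T) om ≤ 8 * A ^ 4 / c ^ (d + 1 + 2) * (H ^ d * M) := by
  have hs0 : 0 < s := by linarith
  have hw0 : 0 < w := by linarith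
  have hT0 : 0 < T := by linarith
  have hA0 : 0 < A := by linarith
  have hH : 0 < H := by rw [← hsw]; positivity
  have hM : 0 ≤ M := le_trans (by positivity) h1
  have a1 : A ≤ A ^ 4 := by simpa using pow_le_pow_right₀ hA (show 1 ≤ 4 by norm_num)
  have a2 : 1 ≤ A ^ 2 := one_le_pow₀ hA
  have a3 : A ≤ A ^ 2 := by nlinarith
  rcases le_total T w with h | h
  · rw [min_eq_right ((div_le_one hw0).mpr h)]
    have e1 : c * (T / w) * H / T = c * s := by rw [← hsw]; field_simp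
    have m1 := WMnumB_mu (om := om) hH (by positivity : 0 ≤ c * s)
      (mul_le_of_le_one_left hs0.le hc1) hq hom
    have e2 : T ^ (d + 1 + 2 + d + 1) * H ^ d / ((c * (T / w)) ^ (d + 1 + 2) * P ^ 2) =
        T ^ (d + 1) / P * (w ^ (d + 1) / P) * (w ^ 2 * H ^ d / c ^ (d + 1 + 2)) := by
      rw [mul_pow, div_pow]; field_simp; ring
    have b1 : T ^ (d + 1) / P ≤ A := (div_le_iff₀ hP).mpr hTP
    have b2 : w ^ (d + 1) / P ≤ 2 := (div_le_iff₀ hP).mpr hwP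
    have b3 : w ^ 2 * (1 + s ^ 2 / q + (s + s ^ 4 / H)) ≤ 4 * M := by
      have : w ^ 2 * (1 + s ^ 2 / q + (s + s ^ 4 / H)) =
          w ^ 2 + H ^ 2 / q + w * H + s ^ 2 * H := by
        rw [← hsw]; field_simp; ring
      linarith
    rw [e1, e2]
    calc _ ≤ A * 2 * (w ^ 2 * H ^ d / c ^ (d + 1 + 2)) * (1 + s ^ 2 / q + (s + s ^ 4 / H)) := by
          have := (one_le_mu 2 (om := om) hH.le (by positivity : 0 ≤ c * s))
          gcongr
      _ = 2 * A / c ^ (d + 1 + 2) * (H ^ d * (w ^ 2 * (1 + s ^ 2 / q + (s + s ^ 4 / H)))) := by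
          ring
      _ ≤ 2 * A ^ 4 / c ^ (d + 1 + 2) * (H ^ d * (4 * M)) := by gcongr
      _ = _ := by ring
  · rw [min_eq_left ((one_le_div hw0).mpr h), mul_one]
    have m1 := WMnumB_mu (om := om) (S := H / T) hH (by positivity : 0 ≤ c * H / T)
      (by rw [mul_div_assoc]; exact mul_le_of_le_one_left (by positivity) hc1) hq hom
    have e2 : T ^ (d + 1 + 2 + d + 1) * H ^ d / (c ^ (d + 1 + 2) * P ^ 2) =
        (T ^ (d + 1) / P) ^ 2 * (T ^ 2 * H ^ d / c ^ (d + 1 + 2)) := by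
      field_simp; ring
    have b1 : T ^ (d + 1) / P ≤ A := (div_le_iff₀ hP).mpr hTP
    have b2 : H ^ 3 / T ^ 2 ≤ s ^ 2 * H := by
      calc H ^ 3 / T ^ 2 ≤ H ^ 3 / w ^ 2 := by gcongr
        _ = s ^ 2 * H := by rw [← hsw]; field_simp
    have b3 : T ^ 2 * (1 + (H / T) ^ 2 / q + (H / T + (H / T) ^ 4 / H)) ≤ 4 * A ^ 2 * M := by
      have : T ^ 2 * (1 + (H / T) ^ 2 / q + (H / T + (H / T) ^ 4 / H)) =
          T ^ 2 + H ^ 2 / q + T * H + H ^ 3 / T ^ 2 := by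
        field_simp; ring
      have c1 : M ≤ A ^ 2 * M := le_mul_of_one_le_left hM a2
      have c2 : A * M ≤ A ^ 2 * M := by gcongr
      linarith
    rw [e2]
    calc _ ≤ A ^ 2 * (T ^ 2 * H ^ d / c ^ (d + 1 + 2)) *
          (1 + (H / T) ^ 2 / q + (H / T + (H / T) ^ 4 / H)) := by
          have := (one_le_mu 2 (om := om) hH.le (by positivity : 0 ≤ c * H / T))
          gcongr
      _ = A ^ 2 / c ^ (d + 1 + 2) *
          (H ^ d * (T ^ 2 * (1 + (H / T) ^ 2 / q + (H / T + (H / T) ^ 4 / H)))) := by ring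
      _ ≤ A ^ 2 / c ^ (d + 1 + 2) * (H ^ d * (4 * A ^ 2 * M)) := by gcongr
      _ = 4 * A ^ 4 / c ^ (d + 1 + 2) * (H ^ d * M) := by ring
      _ ≤ _ := by gcongr; norm_num

theorem num_two (n d j : ℕ) (hn : n = d + 1 + j) (hj : j = 2) (hd : 3 ≤ d) (δ : ℝ) (hδ : 0 < δ) :
    ∃ c' : ℝ, 0 < c' ∧ ∀ c₁ A K : ℝ, 0 < c₁ → c₁ ≤ 1 → 1 ≤ A → 1 ≤ K → ∃ K' H₀ : ℝ, 1 ≤ K' ∧
      ∀ H T P₀ G : ℝ, H₀ ≤ H → 1 ≤ T → T ^ (d + 1) ≤ A * P₀ → H ^ muL n / 2 ≤ P₀ →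
        P₀ ≤ H ^ ((d : ℝ) + 1 - 1 / 25) → 1 ≤ G → (j = 1 → H ^ (((n : ℝ) - 1) / 2) ≤ G * P₀) →
        ∃ lam : ℝ, 0 < lam ∧ lam ≤ c₁ ∧ lam ^ 2 * H / T ^ 2 ≤ c₁ ^ 2 ∧
          K * (lam * H / T) ^ n * H ^ j < P₀ ^ 2 ∧
          T ^ (n + d + 1) * H ^ d / (lam ^ n * P₀ ^ 2) * mu j H (lam * H / T) (H ^ δ * G ^ 2) ≤
            K' * H ^ ((n : ℝ) - 1 - c') := by
  subst hj
  have hd' : (3 : ℝ) ≤ d := by exact_mod_cast hd
  have hN : (n : ℝ) = d + 3 := by rw [hn]; push_cast; ring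
  obtain ⟨x, hx⟩ : ∃ x : ℝ, x = 1 / ((d : ℝ) + 3) := ⟨_, rfl⟩
  have x0 : 0 < x := by rw [hx]; positivity
  have x1 : x * (d + 3) = 1 := by rw [hx]; field_simp
  have x2 : x ≤ 1 / 6 := by nlinarith
  have hmu : ((d : ℝ) + 2) / 2 - 1 / 10 - 1 / 1000 ≤ muL n := by
    unfold muL
    rw [hN]
    have : ((d : ℝ) + 2) / 2 - 1 / 10 ≤ (d + 3) * (d + 3 - 2) / (2 * (d + 3 - 1)) := by
      rw [le_div_iff₀ (by linarith)]; nlinarith
    linarith
  obtain ⟨c', hc'⟩ : ∃ c' : ℝ, c' = min (δ / 2) (x / 25) := ⟨_, rfl⟩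
  have c0 : 0 < c' := by rw [hc']; exact lt_min (by linarith) (by linarith)
  have c1 : c' ≤ δ / 2 := hc' ▸ min_le_left _ _
  have c2 : c' ≤ x / 25 := hc' ▸ min_le_right _ _
  refine ⟨c', c0, fun c A K hc hc1 hA hK => ?_⟩
  obtain ⟨H₁, hH₁⟩ := Filter.eventually_atTop.mp
    ((tendsto_rpow_atTop (by norm_num : (0 : ℝ) < 1 / 25)).eventually_gt_atTop (4 * K))
  refine ⟨8 * A ^ 4 / c ^ n, max 1 H₁, ?_, fun H T P G hH hT hTP hP1 hP2 hG _ => ?_⟩
  · rw [le_div_iff₀ (by positivity)]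
    have := pow_le_one₀ (n := n) hc.le hc1
    have := one_le_pow₀ (n := 4) hA
    linarith
  have hH1 : 1 ≤ H := (le_max_left _ _).trans hH
  have hK1 := hH₁ H ((le_max_right _ _).trans hH)
  have hH0 : 0 < H := by linarith
  have hT0 : 0 < T := by linarith
  have hP0 : 0 < P := lt_of_lt_of_le (by positivity) hP1
  have mono : ∀ {a b : ℝ}, a ≤ b → H ^ a ≤ H ^ b := fun h => Real.rpow_le_rpow_of_exponent_le hH1 h
  have pw : ∀ (a : ℝ) (m : ℕ), (H ^ a) ^ m = H ^ (a * m) := fun a m =>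
    (Real.rpow_mul_natCast hH0.le a m).symm
  have ad : ∀ a : ℝ, H ^ a * H = H ^ (a + 1) := fun a => (Real.rpow_add_one hH0.ne' a).symm
  obtain ⟨s, hs⟩ : ∃ s : ℝ, s = H ^ (1 / 2 - x / 4) := ⟨_, rfl⟩
  obtain ⟨w, hw⟩ : ∃ w : ℝ, w = H ^ (1 / 2 + x / 4) := ⟨_, rfl⟩
  have s1 : 1 ≤ s := hs ▸ Real.one_le_rpow hH1 (by linarith)
  have w1 : 1 ≤ w := hw ▸ Real.one_le_rpow hH1 (by linarith)
  have sw : s * w = H := by
    rw [hs, hw, ← Real.rpow_add hH0]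
    norm_num
  have w0 : 0 < w := by linarith
  have w2 : H ≤ w ^ 2 := by
    rw [hw, pw]
    calc H = H ^ (1 : ℝ) := (Real.rpow_one H).symm
      _ ≤ _ := mono (by push_cast; linarith)
  have l1 : min 1 (T / w) ≤ T / w := min_le_right _ _
  have l0 : 0 < min 1 (T / w) := lt_min one_pos (by positivity)
  refine ⟨c * min 1 (T / w), by positivity, mul_le_of_le_one_right hc.le (min_le_left _ _),
    ?_, ?_, ?_⟩
  · calc _ ≤ (c * (T / w)) ^ 2 * w ^ 2 / T ^ 2 := by gcongr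
      _ = c ^ 2 := by field_simp
  · have e1 : c * min 1 (T / w) * H / T ≤ s := by
      calc _ ≤ 1 * (T / w) * H / T := by gcongr
        _ = s := by rw [← sw]; field_simp
    have e2 : s ^ n * H ^ 2 * H ^ (1 / 25 : ℝ) ≤ (H ^ muL n) ^ 2 := by
      rw [hs, pw, pw, ← Real.rpow_natCast H 2, ← Real.rpow_add hH0, ← Real.rpow_add hH0]
      refine mono ?_
      rw [hN]
      push_cast
      nlinarith
    have e3 : (H ^ muL n / 2) ^ 2 ≤ P ^ 2 := by gcongr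
    have e4 : 0 < s ^ n * H ^ 2 := by positivity
    calc _ ≤ K * s ^ n * H ^ 2 := by gcongr
      _ = s ^ n * H ^ 2 * (4 * K) / 4 := by ring
      _ < s ^ n * H ^ 2 * H ^ (1 / 25 : ℝ) / 4 := by gcongr
      _ ≤ (H ^ muL n / 2) ^ 2 := by rw [div_pow]; linarith
      _ ≤ _ := e3
  · have eM : H ^ ((n : ℝ) - 1 - c') = H ^ d * H ^ (2 - c') := by
      rw [← Real.rpow_natCast H d, ← Real.rpow_add hH0, hN]
      congr 1; ring
    have hTt : T ≤ A * H ^ (1 - c') := by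
      refine le_of_pow_le_pow_left₀ (n := d + 1) (by omega) (by positivity) ?_
      rw [mul_pow, pw]
      have f1 : A ≤ A ^ (d + 1) := le_self_pow₀ hA (by omega)
      have f2 : P ≤ H ^ ((1 - c') * ((d + 1 : ℕ) : ℝ)) := by
        refine hP2.trans (mono ?_)
        push_cast
        nlinarith
      exact hTP.trans (by gcongr)
    have h5 : T * H ≤ A * H ^ (2 - c') := by
      calc T * H ≤ A * H ^ (1 - c') * H := by gcongr
        _ = _ := by rw [mul_assoc, ad]; congr 2; ring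
    rw [eM, hn]
    refine WMnumB_core d (s := s) (q := H ^ (δ / 2)) hc hc1 hA hT hP0 s1 w1 sw hTP ?_
      (by positivity) ?_ ?_ ?_ ?_ ?_ h5 ?_
    · have : w ^ (d + 1) ≤ H ^ muL n := by
        rw [hw, pw]
        refine mono ?_
        push_cast
        nlinarith
      linarith
    · refine Real.le_sqrt_of_sq_le ?_
      rw [pw]
      have : H ^ (δ / 2 * ((2 : ℕ) : ℝ)) = H ^ δ := by congr 1; push_cast; ring
      rw [this]
      exact le_mul_of_one_le_right (by positivity) (one_le_pow₀ hG)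
    · rw [hw, pw]; exact mono (by push_cast; linarith)
    · rw [← Real.rpow_natCast H 2, ← Real.rpow_sub hH0]; exact mono (by push_cast; linarith)
    · rw [hw, ad]; exact mono (by linarith)
    · rw [hs, pw, ad]; exact mono (by push_cast; linarith)
    · calc T ^ 2 ≤ (A * H ^ (1 - c')) ^ 2 := by gcongr
        _ = A ^ 2 * H ^ ((1 - c') * ((2 : ℕ) : ℝ)) := by rw [mul_pow, pw]
        _ ≤ _ := by
          have := mono (a := (1 - c') * ((2 : ℕ) : ℝ)) (b := 2 - c') (by push_cast; linarith)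
          gcongr

end Pool.Agent.VW
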