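import Pool.Agent.P.MP_b0ea37_nt.WCnt

namespace Pool.Agent.VW

open Polynomial

/-- a maximal family of unrelated points -/
theorem exists_reps {α : Type} {P : α → Prop} (R : α → α → Prop) (hrefl : ∀ x, P x → R x x)
    (hsymm : ∀ x y, P x → P y → R x y → R y x) {B : ℝ}
    (h : ∀ S : Finset α, (∀ x ∈ S, P x) → (∀ x ∈ S, ∀ y ∈ S, R x y → x = y) → (S.card : ℝ) ≤ B) :
    ∃ T : Finset α, (∀ y ∈ T, P y) ∧ (T.card : ℝ) ≤ B ∧ ∀ x, P x → ∃ y ∈ T, R y x := by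
  classical
  let Q : ℕ → Prop := fun k => ∃ S : Finset α, (∀ x ∈ S, P x) ∧
    (∀ x ∈ S, ∀ y ∈ S, R x y → x = y) ∧ S.card = k
  have h0 : Q 0 := ⟨∅, by simp, by simp, rfl⟩
  obtain ⟨T, h1, h2, h3⟩ : Q (Nat.findGreatest Q ⌊B⌋₊) := Nat.findGreatest_spec (Nat.zero_le _) h0
  refine ⟨T, h1, h T h1 h2, fun x hx => ?_⟩
  by_contra hc
  push Not at hc
  have hxT : x ∉ T := fun e => hc x e (hrefl x hx)
  have h4 : ∀ y ∈ insert x T, P y := by
    intro y hy
    rcases Finset.mem_insert.1 hy with rfl | hy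
    · exact hx
    · exact h1 y hy
  have h5 : ∀ y ∈ insert x T, ∀ z ∈ insert x T, R y z → y = z := by
    intro y hy z hz e
    rcases Finset.mem_insert.1 hy with rfl | hy' <;> rcases Finset.mem_insert.1 hz with rfl | hz'
    · rfl
    · exact absurd (hsymm _ _ hx (h1 z hz') e) (hc z hz')
    · exact absurd e (hc y hy')
    · exact h2 y hy' z hz' e
  have h6 := Nat.le_findGreatest (P := Q) (Nat.le_floor (h _ h4 h5)) ⟨_, h4, h5, rfl⟩
  rw [Finset.card_insert_of_notMem hxT, h3] at h6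
  omega

/-- number the classes in every fibre of `v` and count one number at a time -/
theorem numb {α β : Type} [Nonempty β] (S : Finset α) (v : α → β) (R : α → α → Prop)
    (hrefl : ∀ x ∈ S, R x x) (hsymm : ∀ x ∈ S, ∀ y ∈ S, R x y → R y x) {K M : ℝ} (hM : 0 ≤ M)
    (hK : ∀ (b : β) (U : Finset α), U ⊆ S → (∀ x ∈ U, v x = b) →
      (∀ x ∈ U, ∀ y ∈ U, R x y → x = y) → (U.card : ℝ) ≤ K)
    (hU : ∀ (U : Finset α) (rep : β → α), U ⊆ S →
      (∀ x ∈ U, rep (v x) ∈ S ∧ v (rep (v x)) = v x ∧ R (rep (v x)) x) → (U.card : ℝ) ≤ M) :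
    (S.card : ℝ) ≤ K * M := by
  classical
  have hK0 : 0 ≤ K := by
    simpa using hK (Classical.arbitrary β) ∅ (by simp) (by simp) (by simp)
  rcases S.eq_empty_or_nonempty with rfl | ⟨x0, -⟩
  · simpa using mul_nonneg hK0 hM
  have h1 : ∀ b : β, ∃ T : Finset α, (∀ y ∈ T, y ∈ S ∧ v y = b) ∧ (T.card : ℝ) ≤ K ∧
      ∀ x, x ∈ S ∧ v x = b → ∃ y ∈ T, R y x := fun b =>
    exists_reps R (fun x hx => hrefl x hx.1) (fun x y hx hy => hsymm x hx.1 y hy.1)
      fun U h1 h2 => hK b U (fun x hx => (h1 x hx).1) (fun x hx => (h1 x hx).2) h2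
  choose T hT hc hcov using h1
  let rep : ℕ → β → α := fun k b => (T b).toList.getD k x0
  have h2 : Cnt (fun x => ∃ k ∈ Finset.range ⌊K⌋₊, x ∈ S ∧ rep k (v x) ∈ S ∧
      v (rep k (v x)) = v x ∧ R (rep k (v x)) x) (∑ _k ∈ Finset.range ⌊K⌋₊, M) :=
    Cnt.sum _ fun k _ U hU' => hU U (rep k) (fun x hx => (hU' x hx).1) fun x hx => (hU' x hx).2
  refine (h2 S fun x hx => ?_).trans ?_
  · obtain ⟨y, hy, hR⟩ := hcov (v x) x ⟨hx, rfl⟩
    obtain ⟨k, hk, e⟩ := List.mem_iff_getElem.1 (Finset.mem_toList.2 hy)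
    have e' : rep k (v x) = y := by
      simp only [rep]
      rw [List.getD_eq_getElem _ _ hk, e]
    refine ⟨k, Finset.mem_range.2 (hk.trans_le ?_), hx, ?_⟩
    · rw [Finset.length_toList]
      exact Nat.le_floor (hc _)
    · rw [e']
      exact ⟨(hT _ y hy).1, (hT _ y hy).2, hR⟩
  · rw [Finset.sum_const, Finset.card_range, nsmul_eq_mul]
    exact mul_le_mul_of_nonneg_right (Nat.floor_le hK0) hM

end Pool.Agent.VW
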