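import Pool.Agent.P.MP_b0ea37_nt.WMdeg

namespace Pool.Agent.VW

open Polynomial

theorem wmpart_two (g : ℤ[X]) : (2 * g).supNorm = 2 * g.supNorm := by
  have h := sup_C_mul_int 2 g
  rw [show (C 2 : ℤ[X]) = 2 from rfl] at h
  rw [h]
  norm_num

theorem wmpart_two_deg (g : ℤ[X]) : (2 * g).natDegree = g.natDegree :=
  natDegree_C_mul (a := (2 : ℤ)) two_ne_zero

theorem wmpart_C {c : ℤ} (hc : 0 < c) (g : ℤ[X]) : (C c * g).supNorm = c * g.supNorm := by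
  rw [sup_C_mul_int, abs_of_pos (by exact_mod_cast hc)]

theorem part_size {n : ℕ} (hn : 1 ≤ n) {v f f₀ G : ℤ[X]} {c : ℤ} {L L' : ℝ} (hc : 0 < c)
    (hf : f.Monic ∧ f.natDegree = n) (hf₀ : f₀.Monic ∧ f₀.natDegree = n) (h : Gd n v c L f f₀ G)
    (hL : (f - f₀).supNorm ≤ L') : (G - C c * f₀).natDegree < n ∧
      (G - C c * f₀).supNorm ≤ c * (L + L') := by
  obtain ⟨-, h2, h3, -, h5⟩ := h
  constructor
  · have h6 : (G - C c * f₀).natDegree ≤ n :=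
      (natDegree_sub_le _ _).trans (max_le h2 ((natDegree_C_mul_le _ _).trans hf₀.2.le))
    have h7 : (G - C c * f₀).coeff n = 0 := by
      have h8 : f₀.coeff n = 1 := hf₀.2 ▸ hf₀.1.coeff_natDegree
      rw [coeff_sub, coeff_C_mul, h3, h8, mul_one, sub_self]
    refine lt_of_le_of_ne h6 fun e => ?_
    rw [← e, coeff_natDegree, leadingCoeff_eq_zero] at h7
    rw [h7, natDegree_zero] at e
    omega
  · have e : 2 * (G - C c * f₀) = C c * (f - f₀) - (C c * (f + f₀) - 2 * G) := by ring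
    have h6 := sup_sub_le (C c * (f - f₀)) (C c * (f + f₀) - 2 * G)
    rw [← e, wmpart_two, wmpart_C hc] at h6
    have h7 : (0 : ℝ) < c := by exact_mod_cast hc
    have h8 := mul_le_mul_of_nonneg_left hL h7.le
    have h9 := (G - C c * f₀).supNorm_nonneg
    linarith

theorem part_form (n d j : ℕ) (hn : n = d + 1 + j) : ∃ K : ℝ, 1 ≤ K ∧
    ∀ (v f f' f₀ G₁ G₂ G₃ : ℤ[X]) (c : ℤ) (l H T : ℝ), VOk d v → 0 < c → 0 < T → T ≤ v.supNorm →
      0 ≤ l → l ≤ 1 → f.Monic ∧ f.natDegree = n → f'.Monic ∧ f'.natDegree = n →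
      f₀.Monic ∧ f₀.natDegree = n → f₀.supNorm ≤ H → (f - f₀).supNorm ≤ l * H →
      (f' - f₀).supNorm ≤ l * H → Gd n v c (l ^ 2 * H) f f₀ G₁ → Gd n v c (l ^ 2 * H) f' f₀ G₂ →
      Gd n v c (l ^ 2 * H) f f' G₃ → Cl v f f' → Cl v f f₀ →
      ∃ W : ℤ[X], W.natDegree ≤ 2 * j ∧ W.supNorm ≤ (K * c * (l * H / T)) ^ 2 ∧
        f₀ ∣ v ^ 2 * W + (G₁ - C c * f₀) * (G₂ - C c * f₀) := by
  obtain ⟨K, hK⟩ : ∃ K : ℝ, K = 4 ^ (2 * n) * 4 ^ (2 * n) * (7 * (n + 1)) := ⟨_, rfl⟩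
  have hq : (1 : ℝ) ≤ 4 ^ (2 * n) := one_le_pow₀ (by norm_num)
  have hn0 : (0 : ℝ) ≤ n := Nat.cast_nonneg n
  have hK1 : 1 ≤ K := hK ▸ one_le_mul_of_one_le_of_one_le (one_le_mul_of_one_le_of_one_le hq hq)
    (by linarith)
  refine ⟨K, hK1, fun v f f' f₀ G₁ G₂ G₃ c l H T hv hc hT hTv hl0 hl1 hf hf' hf₀ hH d₁ d₂ g₁ g₂ g₃
    k₁ k₂ => ?_⟩
  obtain ⟨W, hW⟩ := NR.triple hv.2.1 hc g₁.1 g₂.1 g₃.1 k₁ k₂
  obtain ⟨a₁, b₁⟩ := part_size (by omega) hc hf hf₀ g₁ d₁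
  obtain ⟨a₂, b₂⟩ := part_size (by omega) hc hf' hf₀ g₂ d₂
  obtain ⟨E, hE⟩ : ∃ E, E = G₃ - G₁ - G₂ + C c * f₀ := ⟨_, rfl⟩
  have e1 : 2 * E = (C c * (f + f₀) - 2 * G₁) + (C c * (f' + f₀) - 2 * G₂) -
      (C c * (f + f') - 2 * G₃) := by rw [hE]; ring
  have e2 : v ^ 2 * -W = C c * (f₀ * E) - (G₁ - C c * f₀) * (G₂ - C c * f₀) := by
    rw [hE]; linear_combination hW
  have hc' : (0 : ℝ) < c := by exact_mod_cast hc
  have hH0 : 0 ≤ H := f₀.supNorm_nonneg.trans hH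
  have hv0 : v ≠ 0 := hv.2.1.ne_zero
  have dE : E.natDegree + 2 ≤ n := by
    have h1 := natDegree_sub_le ((C c * (f + f₀) - 2 * G₁) + (C c * (f' + f₀) - 2 * G₂))
      (C c * (f + f') - 2 * G₃)
    have h2 := natDegree_add_le (C c * (f + f₀) - 2 * G₁) (C c * (f' + f₀) - 2 * G₂)
    rw [← e1, wmpart_two_deg] at h1
    have h3 := g₁.2.2.2.1
    have h4 := g₂.2.2.2.1
    have h5 := g₃.2.2.2.1
    omega
  have sE : E.supNorm ≤ 3 * (c * (l ^ 2 * H)) := by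
    have h1 := sup_sub_le ((C c * (f + f₀) - 2 * G₁) + (C c * (f' + f₀) - 2 * G₂))
      (C c * (f + f') - 2 * G₃)
    have h2 := sup_add_le (C c * (f + f₀) - 2 * G₁) (C c * (f' + f₀) - 2 * G₂)
    rw [← e1, wmpart_two] at h1
    linarith [g₁.2.2.2.2, g₂.2.2.2.2, g₃.2.2.2.2, E.supNorm_nonneg]
  have dW : (v ^ 2 * -W).natDegree ≤ 2 * d + 2 * j := by
    have h1 := natDegree_C_mul_le c (f₀ * E)
    have h2 := natDegree_mul_le (p := f₀) (q := E)
    have h3 := natDegree_mul_le (p := G₁ - C c * f₀) (q := G₂ - C c * f₀)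
    have h4 := hf₀.2
    rw [e2]
    exact (natDegree_sub_le _ _).trans (max_le (by omega) (by omega))
  have sW : (v ^ 2 * -W).supNorm ≤ 7 * (n + 1) * (c * (l * H)) ^ 2 := by
    have h1 := sup_mul_le f₀ E hf₀.2.le
    have h2 := sup_mul_le (G₁ - C c * f₀) (G₂ - C c * f₀) a₁.le
    have h3 : c * (l ^ 2 * H + l * H) ≤ 2 * (c * (l * H)) := by
      have : l ^ 2 * H ≤ l * H := mul_le_mul_of_nonneg_right (by nlinarith) hH0
      nlinarith
    have h4 : f₀.supNorm * E.supNorm ≤ H * (3 * (c * (l ^ 2 * H))) :=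
      mul_le_mul hH sE E.supNorm_nonneg hH0
    have h5 : (G₁ - C c * f₀).supNorm * (G₂ - C c * f₀).supNorm ≤
        2 * (c * (l * H)) * (2 * (c * (l * H))) :=
      mul_le_mul (b₁.trans h3) (b₂.trans h3) (G₂ - C c * f₀).supNorm_nonneg (by positivity)
    rw [e2]
    refine (sup_sub_le _ _).trans ?_
    rw [wmpart_C hc]
    calc _ ≤ c * ((n + 1) * (H * (3 * (c * (l ^ 2 * H))))) +
          (n + 1) * (2 * (c * (l * H)) * (2 * (c * (l * H)))) :=
          add_le_add (mul_le_mul_of_nonneg_left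
            (h1.trans (mul_le_mul_of_nonneg_left h4 (by positivity))) hc'.le)
            (h2.trans (mul_le_mul_of_nonneg_left h5 (by positivity)))
      _ = _ := by ring
  refine ⟨-W, ?_, ?_, C c * E, by rw [e2]; ring⟩
  · by_cases h0 : -W = 0
    · rw [h0, natDegree_zero]
      omega
    · rw [natDegree_mul (pow_ne_zero 2 hv0) h0, natDegree_pow, hv.1] at dW
      omega
  · have h1 := gelfond (v ^ 2) (-W) (m := 2 * n) (by omega)
    have h2 := gelfond v v (m := 2 * n) (natDegree_mul_le.trans (by have := hv.1; omega))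
    rw [← sq v] at h2
    have h3 : T * T ≤ v.supNorm * v.supNorm := mul_le_mul hTv hTv hT.le v.supNorm_nonneg
    have h4 := (-W).supNorm_nonneg
    have h5 : T * T * (-W).supNorm ≤ K * (c * (l * H)) ^ 2 :=
      calc _ ≤ 4 ^ (2 * n) * (v ^ 2).supNorm * (-W).supNorm :=
            mul_le_mul_of_nonneg_right (h3.trans h2) h4
        _ ≤ 4 ^ (2 * n) * (4 ^ (2 * n) * (7 * (n + 1) * (c * (l * H)) ^ 2)) := by
            rw [mul_assoc]
            exact mul_le_mul_of_nonneg_left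
              (h1.trans (mul_le_mul_of_nonneg_left sW (by positivity))) (by positivity)
        _ = _ := by rw [hK]; ring
    have e3 : (K * c * (l * H / T)) ^ 2 = K * (K * (c * (l * H)) ^ 2) / (T * T) := by
      field_simp
    rw [e3, le_div_iff₀' (by positivity)]
    exact h5.trans (le_mul_of_one_le_left (by positivity) hK1)

theorem part_sep {v f f' f₀ G₁ G₂ : ℤ[X]} {c : ℤ} (hc : c ≠ 0) (hf₀ : Irr f₀) (hv : v ≠ 0)
    (hlt : v.natDegree < f₀.natDegree) (h₁ : NR v c f f₀ G₁) (h₂ : NR v c f' f₀ G₂)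
    (h : up ℚ v ∣ up ℚ ((G₁ - C c * f₀) - (G₂ - C c * f₀))) : up ℚ v ∣ up ℚ (f - f') := by
  have h1 : v ∣ G₁ ^ 2 - C (c ^ 2) * f * f₀ - (G₂ ^ 2 - C (c ^ 2) * f' * f₀) :=
    (dvd_pow_self v two_ne_zero).trans (dvd_sub h₁.1 h₂.1)
  have h2 := dvd_sub (h.mul_right (up ℚ (G₁ + G₂))) (map_dvd (mapRingHom (Int.castRingHom ℚ)) h1)
  have e : up ℚ ((G₁ - C c * f₀) - (G₂ - C c * f₀)) * up ℚ (G₁ + G₂) -
      mapRingHom (Int.castRingHom ℚ) (G₁ ^ 2 - C (c ^ 2) * f * f₀ - (G₂ ^ 2 - C (c ^ 2) * f' * f₀)) =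
      C ((c : ℚ) ^ 2) * (up ℚ (f - f') * up ℚ f₀) := by
    have e1 : up ℚ (C (c ^ 2)) = C ((c : ℚ) ^ 2) := by
      rw [up, map_C]
      simp
    rw [← e1, coe_mapRingHom, ← Polynomial.map_mul, ← Polynomial.map_sub, ← Polynomial.map_mul,
      ← Polynomial.map_mul]
    exact congrArg _ (by ring)
  have hi : Function.Injective (Int.castRingHom ℚ) := (Int.castRingHom ℚ).injective_int
  have h3 : IsCoprime (up ℚ f₀) (up ℚ v) := (Irreducible.coprime_iff_not_dvd hf₀).2 fun hd => by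
    have := natDegree_le_of_dvd hd ((Polynomial.map_ne_zero_iff hi).2 hv)
    rw [natDegree_map_eq_of_injective hi, natDegree_map_eq_of_injective hi] at this
    omega
  rw [e, (isUnit_C.2 (Ne.isUnit (pow_ne_zero 2 (Int.cast_ne_zero.2 hc)))).dvd_mul_left] at h2
  exact h3.symm.dvd_of_dvd_mul_right h2

end Pool.Agent.VW
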