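import Pool.Agent.P.MP_b0ea37_nt.WMD2
import Pool.Agent.P.MP_b0ea37_nt.WHt
import Pool.Agent.P.MP_b0ea37_nt.WCnt

namespace Pool.Agent.VW

open Polynomial

/-- the quotient of `ℤ[X]` by `V` and `q` -/
abbrev WMpreBR (q : ℕ) (V : ℤ[X]) : Type := AdjoinRoot (up (ZMod q) V)

noncomputable def wmpreBph (q : ℕ) (V : ℤ[X]) : ℤ[X] →+* WMpreBR q V :=
  (AdjoinRoot.mk (up (ZMod q) V)).comp (mapRingHom (Int.castRingHom (ZMod q)))

theorem wmpreB_up_surj (q : ℕ) (c : (ZMod q)[X]) : ∃ a : ℤ[X], up (ZMod q) a = c :=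
  map_surjective _ (ZMod.ringHom_surjective _) c

theorem wmpreB_surj (q : ℕ) (V : ℤ[X]) (x : WMpreBR q V) : ∃ g, wmpreBph q V g = x := by
  obtain ⟨c, rfl⟩ := AdjoinRoot.mk_surjective x
  obtain ⟨a, rfl⟩ := wmpreB_up_surj q c
  exact ⟨a, rfl⟩

theorem wmpreB_self (q : ℕ) (V : ℤ[X]) : wmpreBph q V V = 0 := AdjoinRoot.mk_self

theorem wmpreB_ker {q : ℕ} {V g : ℤ[X]} (h : wmpreBph q V g = 0) :
    ∃ a z : ℤ[X], g = V * a + C (q : ℤ) * z := by
  obtain ⟨c, hc⟩ : up (ZMod q) V ∣ up (ZMod q) g := AdjoinRoot.mk_eq_zero.1 h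
  obtain ⟨a, rfl⟩ := wmpreB_up_surj q c
  have h1 : up (ZMod q) (g - V * a) = 0 := by
    rw [up, Polynomial.map_sub, Polynomial.map_mul]
    exact sub_eq_zero.2 hc
  obtain ⟨z, hz⟩ : C (q : ℤ) ∣ g - V * a := by
    refine (C_dvd_iff_dvd_coeff _ _).2 fun i => ?_
    have h2 := congrArg (fun r => coeff r i) h1
    simp only [coeff_map, coeff_zero, eq_intCast] at h2
    exact (ZMod.intCast_zmod_eq_zero_iff_dvd _ _).1 h2
  exact ⟨a, z, by rw [← hz]; ring⟩

theorem wmpreB_card (q : ℕ) {V : ℤ[X]} (hV : V.Monic) :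
    Nat.card (WMpreBR q V) = q ^ (up (ZMod q) V).natDegree := by
  have e := (AdjoinRoot.powerBasisAux' (hV.map (Int.castRingHom (ZMod q)))).equivFun
  rw [Nat.card_congr e.toEquiv, Nat.card_fun, Nat.card_zmod, Nat.card_eq_fintype_card,
    Fintype.card_fin]

theorem wmpreB_finite {q : ℕ} (hq : q ≠ 0) {V : ℤ[X]} (hV : V.Monic) : Finite (WMpreBR q V) :=
  Nat.finite_of_card_ne_zero (by rw [wmpreB_card q hV]; exact pow_ne_zero _ hq)

theorem wmpreB_nil (p β : ℕ) (V : ℤ[X]) (z : WMpreBR (p ^ (β + 1)) V) :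
    IsUnit (1 + (p : WMpreBR (p ^ (β + 1)) V) * z) := by
  refine IsNilpotent.isUnit_one_add ⟨β + 1, ?_⟩
  have h1 : ((p ^ (β + 1) : ℕ) : WMpreBR (p ^ (β + 1)) V) = 0 := by
    rw [← map_natCast (algebraMap (ZMod (p ^ (β + 1))) (WMpreBR (p ^ (β + 1)) V)),
      ZMod.natCast_self, map_zero]
  rw [mul_pow, ← Nat.cast_pow, h1, zero_mul]

theorem wmpreB_C (q p : ℕ) (V : ℤ[X]) : wmpreBph q V (C (p : ℤ)) = p := by
  rw [← map_natCast (wmpreBph q V) p, map_natCast C p]

theorem wmpreB_index {M M' ι : Type} [AddCommGroup M] [AddCommGroup M'] [Fintype ι]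
    [DecidableEq ι] (b : Module.Basis ι ℤ M) (b' : Module.Basis ι ℤ M') (f : M' →ₗ[ℤ] M)
    (hf : Function.Injective f) :
    (LinearMap.range f).toAddSubgroup.index = (LinearMap.toMatrix b' b f).det.natAbs := by
  rw [AddSubgroup.index_eq_natAbs_det b _ (b'.map (LinearEquiv.ofInjective f hf)),
    Module.Basis.det_apply]
  refine congrArg (fun A : Matrix ι ι ℤ => A.det.natAbs) ?_
  ext i j
  rw [Module.Basis.toMatrix_apply, LinearMap.toMatrix_apply]
  rfl

/-- the annihilator is small -/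
theorem wmpreB_ann {p β : ℕ} (hp : p.Prime) {V u : ℤ[X]} (hV : V.Monic)
    (hu : ¬ (p : ℤ) ^ (β + 1) ∣ resultant V u) :
    Cnt (fun x : WMpreBR (p ^ (β + 1)) V => x * wmpreBph _ V u = 0) ((p : ℝ) ^ β) := by
  have := wmpreB_finite (pow_ne_zero (β + 1) hp.ne_zero) hV
  have hR : resultant V u ≠ 0 := fun h => hu (h ▸ dvd_zero _)
  let μ : WMpreBR (p ^ (β + 1)) V →+ WMpreBR (p ^ (β + 1)) V :=
    AddMonoidHom.mulRight (wmpreBph _ V u)
  let s := sylvesterMap V u (le_refl V.natDegree) (le_refl u.natDegree)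
  have hs : Function.Injective s := by
    intro x y hxy
    have h1 := adjSylvester_comp_sylveserMap V u (le_refl V.natDegree) (le_refl u.natDegree)
    have h2 := LinearMap.congr_fun h1 x
    have h3 := LinearMap.congr_fun h1 y
    simp only [LinearMap.comp_apply, LinearMap.smul_apply, LinearMap.id_apply] at h2 h3
    have h4 : resultant V u • x = resultant V u • y := by
      rw [← h2, ← h3]
      exact congrArg _ hxy
    exact smul_right_injective _ hR h4
  have h1 : (LinearMap.range s).toAddSubgroup.index = (resultant V u).natAbs := by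
    rw [wmpreB_index (degreeLT.basis ℤ _)
      (((degreeLT.basis ℤ _).prod (degreeLT.basis ℤ _)).reindex finSumFinEquiv) s hs,
      toMatrix_sylvesterMap']
    rfl
  let ψ : degreeLT ℤ (V.natDegree + u.natDegree) →+ WMpreBR (p ^ (β + 1)) V :=
    (wmpreBph _ V).toAddMonoidHom.comp (degreeLT ℤ _).subtype.toAddMonoidHom
  have hψ : Function.Surjective ψ := by
    intro x
    obtain ⟨g, rfl⟩ := wmpreB_surj _ V x
    refine ⟨⟨g %ₘ V, mem_degreeLT.2 ((degree_modByMonic_lt g hV).trans_le ?_)⟩, ?_⟩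
    · rw [degree_eq_natDegree hV.ne_zero]
      exact_mod_cast Nat.le_add_right _ _
    · change wmpreBph _ V (g %ₘ V) = _
      conv_rhs => rw [← modByMonic_add_div g V, map_add, map_mul, wmpreB_self, zero_mul, add_zero]
  have h2 : (LinearMap.range s).toAddSubgroup ≤ μ.range.comap ψ := by
    rintro _ ⟨x, rfl⟩
    refine ⟨wmpreBph _ V x.1, ?_⟩
    change wmpreBph (p ^ (β + 1)) V x.1 * wmpreBph (p ^ (β + 1)) V u =
      wmpreBph (p ^ (β + 1)) V (V * x.2 + u * x.1)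
    rw [map_add, map_mul, map_mul, wmpreB_self, zero_mul, zero_add, mul_comm]
  have h3 : μ.range.index ∣ (resultant V u).natAbs := by
    rw [← h1, ← AddSubgroup.index_comap_of_surjective μ.range hψ]
    exact AddSubgroup.index_dvd_of_le h2
  have h4 : Nat.card μ.ker = μ.range.index := by
    have e1 := μ.ker.card_mul_index
    have e2 := μ.range.card_mul_index
    rw [AddSubgroup.index_ker, ← e2, mul_comm] at e1
    exact Nat.eq_of_mul_eq_mul_left Nat.card_pos e1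
  have h5 : Nat.card μ.ker ∣ p ^ ((β + 1) * (up (ZMod (p ^ (β + 1))) V).natDegree) := by
    rw [pow_mul, ← wmpreB_card _ hV]
    exact ⟨_, μ.ker.card_mul_index.symm⟩
  obtain ⟨k, -, hk⟩ := (Nat.dvd_prime_pow hp).1 h5
  have h6 : k ≤ β := by
    by_contra hc
    refine hu ((pow_dvd_pow _ (show β + 1 ≤ k by omega)).trans ?_)
    rw [← h4, hk] at h3
    exact_mod_cast Int.natCast_dvd.2 h3
  intro S hS
  have h7 : S.card ≤ Nat.card μ.ker := by
    rw [← Nat.card_eq_finsetCard]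
    exact Nat.card_le_card_of_injective (fun x : S => (⟨x.1, hS x.1 x.2⟩ : μ.ker))
      fun x y e => Subtype.ext (congrArg (fun z : μ.ker => z.1) e)
  rw [hk] at h7
  exact_mod_cast h7.trans (Nat.pow_le_pow_right hp.pos h6)

/-- a multiple in the finite ring is a multiple in the localisation -/
theorem wmpreB_lift {p β : ℕ} (hp : p.Prime) {V u u' : ℤ[X]} (hV : V.Monic)
    (hu : ¬ (p : ℤ) ^ (β + 1) ∣ resultant V u) (x : WMpreBR (p ^ (β + 1)) V)
    (h : wmpreBph _ V u' = x * wmpreBph _ V u) :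
    ∃ (N : ℤ) (w : ℤ[X]), ¬ (p : ℤ) ∣ N ∧ V ∣ C N * u' - w * u := by
  have hp' : Prime (p : ℤ) := Nat.prime_iff_prime_int.1 hp
  by_cases hd : V.natDegree = 0
  · rw [eq_one_of_monic_natDegree_zero hV hd]
    exact ⟨1, 0, hp'.not_dvd_one, one_dvd _⟩
  have hR : resultant V u ≠ 0 := fun h => hu (h ▸ dvd_zero _)
  obtain ⟨g, rfl⟩ := wmpreB_surj _ V x
  obtain ⟨a, z, hz⟩ := wmpreB_ker (q := p ^ (β + 1)) (V := V) (g := u' - g * u)
    (by rw [map_sub, map_mul, h, sub_self])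
  obtain ⟨e, m, hm, hem⟩ := WfDvdMonoid.max_power_factor hR hp'.irreducible
  have he : e ≤ β + 1 := by
    by_contra hc
    exact hu (hem ▸ (pow_dvd_pow _ (by omega)).mul_right m)
  obtain ⟨j, hj⟩ := Nat.exists_eq_add_of_le he
  obtain ⟨s, t, -, -, hst⟩ := exists_mul_add_mul_eq_C_resultant V u le_rfl le_rfl (Or.inl hd)
  rw [hem, C_mul, C_pow] at hst
  rw [Nat.cast_pow, C_pow, hj, pow_add] at hz
  exact ⟨m, C m * g + C (p : ℤ) ^ j * z * t, hm, C m * a + C (p : ℤ) ^ j * z * s, by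
    linear_combination C m * hz - C (p : ℤ) ^ j * z * hst⟩

/-- small primes -/
theorem wmpreB_small {p β : ℕ} (hp : p.Prime) {V : ℤ[X]} (hV : V.Monic) {U : ℝ}
    (hU : Cnt (fun x : WMpreBR (p ^ (β + 1)) V => IsUnit x) U) :
    Cnt (fun _ : WMpreBR (p ^ (β + 1)) V => True) ((p : ℝ) ^ V.natDegree * U) := by
  have := wmpreB_finite hp.ne_zero hV
  have := Fintype.ofFinite (WMpreBR p V)
  choose σ hσ using wmpreB_surj (p ^ (β + 1)) V
  have h1 : Cnt (fun _ : WMpreBR p V => True) ((p : ℝ) ^ V.natDegree) := by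
    refine (Cnt.fintype _).mono (fun _ h => h) ?_
    rw [← Nat.card_eq_fintype_card, wmpreB_card p hV]
    exact_mod_cast Nat.pow_le_pow_right hp.pos natDegree_map_le
  refine (Cnt.fibre (P := fun y x => wmpreBph p V (σ x) = y) h1 hU.nonneg fun y _ => ?_).mono
    (fun x _ => ⟨_, trivial, rfl⟩) le_rfl
  refine Cnt.of_mem hU.nonneg fun x₀ h₀ => hU.inj (fun x => 1 + (x - x₀)) (fun x hx => ?_)
    fun x x' _ _ e => sub_left_injective (add_left_cancel e)
  obtain ⟨a, z, hz⟩ := wmpreB_ker (q := p) (V := V) (g := σ x - σ x₀)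
    (by rw [map_sub, hx, h₀, sub_self])
  have h2 := congrArg (wmpreBph (p ^ (β + 1)) V) hz
  rw [map_sub, hσ, hσ, map_add, map_mul, map_mul, wmpreB_self, zero_mul, zero_add, wmpreB_C] at h2
  show IsUnit (1 + (x - x₀))
  rw [h2]
  exact wmpreB_nil p β V _

theorem wmpreB_unit {p β : ℕ} {V g : ℤ[X]}
    (h : IsCoprime (up (ZMod p) V) (up (ZMod p) g)) : IsUnit (wmpreBph (p ^ (β + 1)) V g) := by
  obtain ⟨s, t, hst⟩ := h
  obtain ⟨t, rfl⟩ := wmpreB_up_surj p t
  obtain ⟨a, z, hz⟩ := wmpreB_ker (q := p) (V := V) (g := t * g - 1) (by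
    refine AdjoinRoot.mk_eq_zero.2 ⟨-s, ?_⟩
    rw [coe_mapRingHom, Polynomial.map_sub, Polynomial.map_mul, Polynomial.map_one]
    linear_combination hst)
  have h2 := congrArg (wmpreBph (p ^ (β + 1)) V) hz
  rw [map_sub, map_mul, map_one, map_add, map_mul, map_mul, wmpreB_self, zero_mul, zero_add,
    wmpreB_C, sub_eq_iff_eq_add'] at h2
  exact isUnit_of_mul_isUnit_right (h2 ▸ wmpreB_nil p β V _)

theorem wmpreB_shift {p β : ℕ} (hp : p.Prime) {V : ℤ[X]} (hV : V.Monic)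
    (x : WMpreBR (p ^ (β + 1)) V) :
    Cnt (fun a : ℕ => a < p ∧ ¬ IsUnit (x + a)) V.natDegree := by
  have := Fact.mk hp
  obtain ⟨g, rfl⟩ := wmpreB_surj _ V x
  let K := AlgebraicClosure (ZMod p)
  have hm : ((up (ZMod p) V).map (algebraMap (ZMod p) K)).Monic := (hV.map _).map _
  refine ((cnt_roots _ hm.ne_zero).rel (fun (a : ℕ) (z : K) => aeval z (up (ZMod p) g) + a = 0)
    ?_ ?_).mono (fun _ h => h) ?_
  · rintro a ⟨-, ha⟩
    have h1 : ¬ IsCoprime (up (ZMod p) V) (up (ZMod p) (g + C (a : ℤ))) := fun hc => ha (by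
      have := wmpreB_unit (β := β) hc
      rwa [map_add, wmpreB_C] at this)
    rw [isCoprime_iff_aeval_ne_zero_of_isAlgClosed (ZMod p) K] at h1
    push Not at h1
    obtain ⟨z, hz1, hz2⟩ := h1
    refine ⟨z, by rwa [eval_map_algebraMap], ?_⟩
    simpa using hz2
  · intro a a' z ha ha' e e'
    exact CharP.natCast_injOn_Iio K p ha.1 ha'.1 (add_left_cancel (e.trans e'.symm))
  · exact_mod_cast natDegree_map_le.trans natDegree_map_le

/-- large primes -/
theorem wmpreB_large {p β : ℕ} (hp : p.Prime) {V : ℤ[X]} (hV : V.Monic)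
    (hd : 2 * V.natDegree < p) {U : ℝ}
    (hU : Cnt (fun x : WMpreBR (p ^ (β + 1)) V => IsUnit x) U) :
    Cnt (fun _ : WMpreBR (p ^ (β + 1)) V => True) (2 * U) := by
  classical
  have hp0 : (0 : ℝ) < p := by exact_mod_cast hp.pos
  have h1 : Cnt (fun a : ℕ => a < p) p :=
    (Cnt.finset (Finset.range p)).mono (fun a ha => Finset.mem_range.2 ha) (by simp)
  have h2 := Cnt.prod (Q := fun _ (a : ℕ) => a < p) hU hp0.le fun _ _ => h1
  refine (Cnt.double (fun x (y : WMpreBR (p ^ (β + 1)) V × ℕ) => y.1 = x + (y.2 : ℕ))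
    (L := p / 2) (B' := 1) (by linarith) zero_le_one h2
    (fun x _ => ?_) fun y _ => Cnt.one fun x x' hx hx' =>
      add_right_cancel (hx.2.symm.trans hx'.2)).mono (fun _ h => h) (le_of_eq (by field_simp))
  refine ⟨((Finset.range p).filter fun a : ℕ => IsUnit (x + a)).image fun a : ℕ => (x + a, a),
    ?_, ?_⟩
  · rw [Finset.card_image_of_injective _ fun a a' e => congrArg Prod.snd e]
    have e := Finset.card_filter_add_card_filter_not (s := Finset.range p)
      fun a : ℕ => IsUnit (x + a)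
    have h3 := wmpreB_shift hp hV x ((Finset.range p).filter fun a : ℕ => ¬ IsUnit (x + a))
      fun a ha => ⟨Finset.mem_range.1 (Finset.mem_filter.1 ha).1, (Finset.mem_filter.1 ha).2⟩
    rw [Finset.card_range] at e
    have e' := congrArg (Nat.cast : ℕ → ℝ) e
    have hd' : 2 * (V.natDegree : ℝ) < p := by exact_mod_cast hd
    push_cast at e'
    linarith
  · intro y hy
    obtain ⟨a, ha, rfl⟩ := Finset.mem_image.1 hy
    exact ⟨⟨(Finset.mem_filter.1 ha).2, Finset.mem_range.1 (Finset.mem_filter.1 ha).1⟩, rfl⟩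

/-- principal ideals of bounded index, any prime -/
theorem pre_bad (d : ℕ) : ∃ K : ℝ, 1 ≤ K ∧ ∀ (p : ℕ) (V : ℤ[X]) (β : ℕ) (S : Finset ℤ[X]),
    p.Prime → V.Monic → V.natDegree = d → (∀ u ∈ S, ¬ (p : ℤ) ^ (β + 1) ∣ resultant V u) →
    (∀ u ∈ S, ∀ u' ∈ S, Asc p V u u' → u = u') → (S.card : ℝ) ≤ K * (p : ℝ) ^ β := by
  classical
  have hK : (0 : ℝ) ≤ (2 * d) ^ d := by positivity
  refine ⟨2 + (2 * d) ^ d, by linarith, fun p V β S hp hV hd hS hA => ?_⟩
  have := wmpreB_finite (pow_ne_zero (β + 1) hp.ne_zero) hV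
  have := Fintype.ofFinite (WMpreBR (p ^ (β + 1)) V)
  obtain ⟨Un, hUn⟩ : ∃ Un : Finset (WMpreBR (p ^ (β + 1)) V), ∀ x, x ∈ Un ↔ IsUnit x :=
    ⟨Finset.univ.filter IsUnit, by simp⟩
  have hU : Cnt (fun x : WMpreBR (p ^ (β + 1)) V => IsUnit x) Un.card :=
    (Cnt.finset Un).mono (fun x hx => (hUn x).2 hx) le_rfl
  have hU0 : (0 : ℝ) < Un.card := by
    exact_mod_cast Finset.card_pos.2 ⟨1, (hUn 1).2 isUnit_one⟩
  have hp0 : (0 : ℝ) < p := by exact_mod_cast hp.pos
  have hpβ : (0 : ℝ) < (p : ℝ) ^ β := by positivity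
  have hall : Cnt (fun _ : WMpreBR (p ^ (β + 1)) V => True) ((2 + (2 * d) ^ d) * Un.card) := by
    rcases Nat.lt_or_ge (2 * d) p with hlt | hge
    · exact (wmpreB_large hp hV (hd ▸ hlt) hU).mono (fun _ h => h)
        (mul_le_mul_of_nonneg_right (by linarith) hU0.le)
    · refine (wmpreB_small hp hV hU).mono (fun _ h => h) (mul_le_mul_of_nonneg_right ?_ hU0.le)
      have h1 : (p : ℝ) ≤ 2 * d := by exact_mod_cast hge
      have h2 := pow_le_pow_left₀ hp0.le h1 d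
      rw [hd]
      linarith
  have key := Cnt.double (P := fun u => u ∈ S)
    (fun u y => ∃ w, IsUnit w ∧ y = w * wmpreBph (p ^ (β + 1)) V u) (L := Un.card / (p : ℝ) ^ β)
    (B' := 1) (by positivity) zero_le_one hall (fun u hu => ?_) fun y _ => Cnt.one ?_
  · exact (key S fun _ h => h).trans (le_of_eq (by field_simp))
  · refine ⟨Un.image fun w => w * wmpreBph _ V u, ?_, fun y hy => ?_⟩
    · rw [div_le_iff₀ hpβ]
      refine Cnt.fibre (P := fun y w => w * wmpreBph _ V u = y)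
        (Cnt.finset (Un.image fun w => w * wmpreBph _ V u)) hpβ.le (fun y _ => ?_) Un
        fun w hw => ⟨_, Finset.mem_image_of_mem _ hw, rfl⟩
      exact Cnt.of_mem hpβ.le fun w₀ h₀ => (wmpreB_ann hp hV (hS u hu)).inj (fun w => w - w₀)
        (fun w hw => by rw [sub_mul, hw, h₀, sub_self]) fun w w' _ _ e => sub_left_injective e
    · obtain ⟨w, hw, rfl⟩ := Finset.mem_image.1 hy
      exact ⟨trivial, w, (hUn w).1 hw, rfl⟩
  · rintro u u' ⟨hu, w, ⟨w, rfl⟩, e⟩ ⟨hu', w', ⟨w', rfl⟩, e'⟩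
    refine hA u hu u' hu' ⟨wmpreB_lift hp hV (hS u hu) (↑w'⁻¹ * ↑w) ?_,
      wmpreB_lift hp hV (hS u' hu') (↑w⁻¹ * ↑w') ?_⟩
    · rw [mul_assoc, ← e, e', Units.inv_mul_cancel_left]
    · rw [mul_assoc, ← e', e, Units.inv_mul_cancel_left]

end Pool.Agent.VW
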