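import Pool.Agent.P.MP_b0ea37_nt.WMD2
import Pool.Agent.P.MP_b0ea37_nt.WHt
import Pool.Agent.P.MP_b0ea37_nt.WPad
import Pool.Agent.P.MP_b0ea37_nt.WCnt

namespace Pool.Agent.VW

open Polynomial

section aux

variable {p : ℕ} [Fact p.Prime] {d : ℕ} {V : ℤ[X]} {θ : Fin d → PadicAlgCl p}

theorem wmpreg_coeff (u : ℤ[X]) (i : ℕ) : ‖(up (PadicAlgCl p) u).coeff i‖ ≤ 1 := by
  rw [up, coeff_map]
  exact pn_int_le _

theorem wmpreg_root (hV : V.Monic) (hθ : Roots (up (PadicAlgCl p) V) θ) (k : Fin d) :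
    ‖θ k‖ ≤ 1 :=
  pn_root_le _ (wmpreg_coeff V) (by rw [(hV.map _).leadingCoeff, norm_one])
    ((hθ.eval_eq_zero_iff _).2 ⟨k, rfl⟩)

theorem wmpreg_res (hθ : Roots (up (PadicAlgCl p) V) θ) (u : ℤ[X]) (m : ℕ)
    (hm : u.natDegree ≤ m) :
    ((resultant V u d m : ℤ) : PadicAlgCl p) = ∏ k, (up (PadicAlgCl p) u).eval (θ k) := by
  have h1 := resultant_map_map V u d m (Int.castRingHom (PadicAlgCl p))
  have h2 := resultant_roots (1 : PadicAlgCl p) one_ne_zero θ (up (PadicAlgCl p) u) m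
    (natDegree_map_le.trans hm)
  rw [C_1, one_mul, one_pow, one_mul, ← hθ] at h2
  rw [← h2]
  exact h1.symm

theorem wmpreg_le (hV : V.Monic) (hθ : Roots (up (PadicAlgCl p) V) θ) (u : ℤ[X]) (m : ℕ)
    (hm : u.natDegree ≤ m) (k : Fin d) :
    ‖((resultant V u d m : ℤ) : PadicAlgCl p)‖ ≤ ‖(up (PadicAlgCl p) u).eval (θ k)‖ := by
  rw [wmpreg_res hθ u m hm, norm_prod]
  have := Finset.prod_le_prod_of_subset_of_le_one (s := {k}) (t := Finset.univ)
    (f := fun k => ‖(up (PadicAlgCl p) u).eval (θ k)‖) (Finset.subset_univ _)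
    (fun _ _ => norm_nonneg _) fun i _ _ => pn_eval_le _ (wmpreg_coeff u) (wmpreg_root hV hθ i)
  rwa [Finset.prod_singleton] at this

theorem wmpreg_sep (hV : V.Monic) (hd : V.natDegree = d) (hθ : Roots (up (PadicAlgCl p) V) θ)
    (hg : ¬ (p : ℤ) ∣ resultant V (derivative V) d (d - 1)) (k : Fin d) :
    1 ≤ ‖∏ j ∈ Finset.univ.erase k, (θ k - θ j)‖ := by
  have h1 := wmpreg_le hV hθ (derivative V) (d - 1) (hd ▸ natDegree_derivative_le V) k
  rw [(pn_int_eq_one _).2 hg] at h1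
  have h2 : up (PadicAlgCl p) (derivative V) = derivative (Lagrange.nodal Finset.univ θ) := by
    rw [up, ← derivative_map]
    exact congrArg derivative hθ
  rwa [h2, Lagrange.eval_nodal_derivative_eval_node_eq (Finset.mem_univ k),
    Lagrange.eval_nodal] at h1

theorem wmpreg_lag (h1 : ∀ k, ‖θ k‖ ≤ 1)
    (h2 : ∀ k, 1 ≤ ‖∏ j ∈ Finset.univ.erase k, (θ k - θ j)‖) (w : (PadicAlgCl p)[X])
    (hw : w.degree < d) {ρ : ℝ} (hρ : 0 ≤ ρ) (h : ∀ k, ‖w.eval (θ k)‖ ≤ ρ) (i : ℕ) :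
    ‖w.coeff i‖ ≤ ρ := by
  have hinj : Set.InjOn θ (Finset.univ : Finset (Fin d)) := by
    intro k _ j _ e
    by_contra hne
    have := h2 k
    rw [Finset.prod_eq_zero (i := j) (Finset.mem_erase.2 ⟨Ne.symm hne, Finset.mem_univ j⟩)
      (sub_eq_zero.2 e), norm_zero] at this
    linarith
  rw [Lagrange.eq_interpolate hinj (f := w) (by simpa using hw), Lagrange.interpolate_eq_sum,
    finsetSum_coeff]
  refine IsUltrametricDist.norm_sum_le_of_forall_le_of_nonneg hρ fun k _ => ?_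
  rw [coeff_C_mul, norm_mul, norm_div]
  exact (mul_le_of_le_one_right (by positivity) (pn_coeff_prod_le _ _ (fun j _ => h1 j) i)).trans
    ((div_le_self (norm_nonneg _) (h2 k)).trans (h k))

theorem wmpreg_asc (hV : V.Monic) (hd : V.natDegree = d) (hθ : Roots (up (PadicAlgCl p) V) θ)
    (hg : ¬ (p : ℤ) ∣ resultant V (derivative V) d (d - 1)) {u u' : ℤ[X]}
    (hu : resultant V u ≠ 0)
    (h : ∀ k, ‖(up (PadicAlgCl p) u').eval (θ k)‖ ≤ ‖(up (PadicAlgCl p) u).eval (θ k)‖) :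
    ∃ (N : ℤ) (w : ℤ[X]), ¬ (p : ℤ) ∣ N ∧ V ∣ C N * u' - w * u := by
  have hp : p.Prime := Fact.out
  by_cases h0 : V.natDegree = 0
  · rw [eq_one_of_monic_natDegree_zero hV h0]
    exact ⟨1, 0, fun e => hp.one_lt.ne' (by exact_mod_cast Int.eq_one_of_dvd_one (by positivity) e),
      one_dvd _⟩
  obtain ⟨a, b, -, -, hab⟩ := exists_mul_add_mul_eq_C_resultant V u le_rfl le_rfl (Or.inl h0)
  set R := resultant V u with hR
  have hdv : V ∣ C R * u' - ((b * u') %ₘ V) * u := by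
    refine ⟨a * u' + ((b * u') /ₘ V) * u, ?_⟩
    have := modByMonic_add_div (b * u') V
    linear_combination (-u') * hab - u * this
  have hR0 : 0 < ‖(R : PadicAlgCl p)‖ := norm_pos_iff.2 (by exact_mod_cast hu)
  have hw : ∀ k, ‖(up (PadicAlgCl p) ((b * u') %ₘ V)).eval (θ k)‖ ≤ ‖(R : PadicAlgCl p)‖ := by
    intro k
    have h1 : ‖(R : PadicAlgCl p)‖ ≤ ‖(up (PadicAlgCl p) u).eval (θ k)‖ := by
      have := wmpreg_le hV hθ u u.natDegree le_rfl k
      rwa [← hd] at this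
    obtain ⟨c, hc⟩ := hdv
    have h2 := congrArg (fun g => (up (PadicAlgCl p) g).eval (θ k)) hc
    simp only [up, Polynomial.map_sub, Polynomial.map_mul, map_C, eval_sub, eval_mul,
      eval_C] at h2
    rw [eq_intCast] at h2
    have h3 : (map (Int.castRingHom (PadicAlgCl p)) V).eval (θ k) = 0 :=
      (hθ.eval_eq_zero_iff _).2 ⟨k, rfl⟩
    rw [h3, zero_mul, sub_eq_zero] at h2
    have h4 := congrArg norm h2
    rw [norm_mul, norm_mul] at h4
    refine le_of_mul_le_mul_right ?_ (hR0.trans_le h1)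
    rw [← h4]
    exact mul_le_mul_of_nonneg_left (h k) hR0.le
  have hdeg : (up (PadicAlgCl p) ((b * u') %ₘ V)).degree < d := by
    refine degree_map_le.trans_lt ?_
    rw [← hd, ← degree_eq_natDegree hV.ne_zero]
    exact degree_modByMonic_lt _ hV
  have hco : C ((p : ℤ) ^ padicValInt p R) ∣ (b * u') %ₘ V := by
    refine (C_dvd_iff_dvd_coeff _ _).2 fun i => ?_
    have := wmpreg_lag (wmpreg_root hV hθ) (wmpreg_sep hV hd hθ hg) _ hdeg hR0.le hw i
    rw [pn_int_eq hu, up, coeff_map, eq_intCast] at this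
    exact (pn_int_le_iff _ _).1 this
  obtain ⟨w, hw'⟩ := hco
  obtain ⟨N, hN⟩ := padicValInt_dvd (p := p) R
  refine ⟨N, w, fun e => ?_, ?_⟩
  · have h1 : (p : ℤ) ^ (padicValInt p R + 1) ∣ R := by
      rw [pow_succ]
      exact (mul_dvd_mul_left _ e).trans (dvd_of_eq hN.symm)
    rcases (padicValInt_dvd_iff _ _).1 h1 with h2 | h2
    · exact hu h2
    · omega
  · have h1 : V ∣ ((p : ℤ) ^ padicValInt p R) • (C N * u' - w * u) := by
      refine hdv.trans (dvd_of_eq ?_)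
      rw [hw', ← C_mul']
      nth_rewrite 1 [hN]
      rw [C_mul]
      ring
    rw [← modByMonic_eq_zero_iff_dvd hV, smul_modByMonic, smul_eq_zero] at h1
    rw [← modByMonic_eq_zero_iff_dvd hV]
    exact h1.resolve_left (pow_ne_zero _ (by exact_mod_cast hp.ne_zero))

theorem wmpreg_val (hV : V.Monic) (hd : V.natDegree = d) (hθ : Roots (up (PadicAlgCl p) V) θ)
    {β : ℕ} {u : ℤ[X]} (hu : ¬ (p : ℤ) ^ (β + 1) ∣ resultant V u) (k : Fin d) :
    ∃ a : ℕ, a ≤ d.factorial * β ∧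
      ‖(up (PadicAlgCl p) u).eval (θ k)‖ ^ d.factorial = (p : ℝ)⁻¹ ^ a := by
  have hp : p.Prime := Fact.out
  have hp1 : (1 : ℝ) < p := by exact_mod_cast hp.one_lt
  have hR : resultant V u ≠ 0 := fun e => hu (e ▸ dvd_zero _)
  have h1 : ‖((resultant V u : ℤ) : PadicAlgCl p)‖ ≤ ‖(up (PadicAlgCl p) u).eval (θ k)‖ := by
    have := wmpreg_le hV hθ u u.natDegree le_rfl k
    rwa [← hd] at this
  have h2 : padicValInt p (resultant V u) ≤ β := by
    by_contra hlt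
    exact hu ((pow_dvd_pow _ (by omega)).trans (padicValInt_dvd _))
  have h3 : (p : ℝ)⁻¹ ^ β ≤ ‖(up (PadicAlgCl p) u).eval (θ k)‖ := by
    refine le_trans ?_ h1
    rw [pn_int_eq hR]
    exact pow_le_pow_of_le_one (by positivity) (inv_le_one_of_one_le₀ hp1.le) h2
  have hq : ∀ g : ℤ[X], aeval (θ k) (up ℚ g) = (up (PadicAlgCl p) g).eval (θ k) := fun g => by
    rw [up, up, eval_map, aeval_def, eval₂_map]
    exact congrArg (fun φ => eval₂ φ (θ k) g) (RingHom.ext_int _ _)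
  obtain ⟨e, he⟩ := pn_value (p := p) (v := up ℚ V) (hV.map _).ne_zero (d := d)
    (natDegree_map_le.trans hd.le) (z := θ k)
    (by rw [hq]; exact (hθ.eval_eq_zero_iff _).2 ⟨k, rfl⟩) (up ℚ u) (by
      rw [hq, ← norm_pos_iff]
      exact lt_of_lt_of_le (by positivity) h3)
  rw [hq] at he
  have h4 : (p : ℝ) ^ e ≤ (p : ℝ) ^ (0 : ℤ) := by
    rw [← he, zpow_zero]
    exact pow_le_one₀ (norm_nonneg _) (pn_eval_le _ (wmpreg_coeff u) (wmpreg_root hV hθ k))
  have h5 : (p : ℝ) ^ (-((d.factorial * β : ℕ) : ℤ)) ≤ (p : ℝ) ^ e := by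
    rw [← he, zpow_neg, zpow_natCast, ← inv_pow, mul_comm, pow_mul]
    exact pow_le_pow_left₀ (by positivity) h3 _
  rw [zpow_le_zpow_iff_right₀ hp1] at h4 h5
  refine ⟨(-e).toNat, by omega, ?_⟩
  rw [he, inv_pow, ← zpow_natCast, ← zpow_neg, Int.toNat_of_nonneg (by omega), neg_neg]

end aux

/-- principal ideals of bounded index, unramified prime -/
theorem pre_good (d p : ℕ) (V : ℤ[X]) (β : ℕ) (S : Finset ℤ[X]) (hp : p.Prime) (hV : V.Monic)
    (hd : V.natDegree = d) (hg : ¬ (p : ℤ) ∣ resultant V (derivative V) d (d - 1))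
    (hS : ∀ u ∈ S, ¬ (p : ℤ) ^ (β + 1) ∣ resultant V u)
    (h : ∀ u ∈ S, ∀ u' ∈ S, Asc p V u u' → u = u') :
    (S.card : ℝ) ≤ ((d.factorial : ℝ) * β + 1) ^ d := by
  have : Fact p.Prime := ⟨hp⟩
  obtain ⟨θ, hθ⟩ := exists_roots (n := d) (up (PadicAlgCl p) V) (hV.map _)
    (by rw [hV.natDegree_map, hd])
  have h1 := Cnt.pi (ι := Fin d) (P := fun _ (a : ℕ) => (a : ℝ) ≤ (d.factorial : ℝ) * β)
    fun _ => cnt_nat_le _ (by positivity)
  rw [Finset.prod_const, Finset.card_univ, Fintype.card_fin] at h1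
  refine h1.rel (P := fun u => u ∈ S) (fun u a => ∀ k,
    ‖(up (PadicAlgCl p) u).eval (θ k)‖ ^ d.factorial = (p : ℝ)⁻¹ ^ a k) (fun u hu => ?_)
    (fun u u' a hu hu' e e' => ?_) S fun _ hx => hx
  · choose a ha ha' using wmpreg_val hV hd hθ (hS u hu)
    exact ⟨a, fun k => by exact_mod_cast ha k, ha'⟩
  · have h2 : ∀ k, ‖(up (PadicAlgCl p) u).eval (θ k)‖ = ‖(up (PadicAlgCl p) u').eval (θ k)‖ :=
      fun k => (pow_left_inj₀ (norm_nonneg _) (norm_nonneg _) d.factorial_ne_zero).1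
        ((e k).trans (e' k).symm)
    exact h u hu u' hu'
      ⟨wmpreg_asc hV hd hθ hg (fun e => hS u hu (e ▸ dvd_zero _)) fun k => (h2 k).ge,
        wmpreg_asc hV hd hθ hg (fun e => hS u' hu' (e ▸ dvd_zero _)) fun k => (h2 k).le⟩

end Pool.Agent.VW
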