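import Pool.Agent.P.MP_b0ea37_nt.WMloc

namespace Pool.Agent.VW

open Polynomial

theorem WMpreN_sep {d : ℕ} {v : ℤ[X]} (hv : VOk d v) (t : ℤ) (hc : v.eval t ≠ 0) :
    (up ℂ (VV d t v)).Separable := by
  obtain ⟨η, hη⟩ := exists_lst hv.1
  have hv0 : v ≠ 0 := hv.2.1.ne_zero
  have hinj := hη.injective hv
  have hc' : ((v.eval t : ℤ) : ℂ) ≠ 0 := Int.cast_ne_zero.2 hc
  have hroot : ∀ k, aeval (η k) v = 0 := fun k => (hη.root_iff hv0 _).2 ⟨k, rfl⟩
  have hne : ∀ k, η k - (t : ℂ) ≠ 0 := by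
    intro k h
    have h1 := hroot k
    rw [sub_eq_zero.1 h, ← eq_intCast (algebraMap ℤ ℂ), aeval_algebraMap_apply_eq_algebraMap_eval,
      eq_intCast] at h1
    exact hc' h1
  have hz : Function.Injective fun k => ((v.eval t : ℤ) : ℂ) / (η k - t) := by
    intro k j h
    have h1 := (div_eq_div_iff (hne k) (hne j)).1 h
    exact hinj (sub_left_injective (mul_left_cancel₀ hc' h1)).symm
  have hm : (up ℂ (VV d t v)).Monic := (VV_monic d t v).map _
  have hd : (up ℂ (VV d t v)).natDegree = d := by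
    rw [(VV_monic d t v).natDegree_map, VV_natDegree]
  have hm' : (∏ k, (X - C (((v.eval t : ℤ) : ℂ) / (η k - t)))).Monic :=
    monic_prod_of_monic _ _ fun k _ => monic_X_sub_C _
  have hd' : (∏ k, (X - C (((v.eval t : ℤ) : ℂ) / (η k - t)))).natDegree = d := by
    rw [natDegree_prod_of_monic _ _ fun k _ => monic_X_sub_C _]
    simp only [natDegree_X_sub_C, Finset.sum_const, Finset.card_univ, Fintype.card_fin,
      smul_eq_mul, mul_one]
  have e : up ℂ (VV d t v) = ∏ k, (X - C (((v.eval t : ℤ) : ℂ) / (η k - t))) := by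
    refine eq_of_degree_sub_lt_of_eval_index_eq Finset.univ hz.injOn ?_ fun k _ => ?_
    · have h1 : (up ℂ (VV d t v)).degree = d := by rw [degree_eq_natDegree hm.ne_zero, hd]
      rw [Finset.card_univ, Fintype.card_fin, ← h1]
      exact degree_sub_lt_left (by rw [h1, degree_eq_natDegree hm'.ne_zero, hd']) hm.ne_zero
        (by rw [hm.leadingCoeff, hm'.leadingCoeff])
    · have h1 := aeval_Tw (S := ℂ) (k := d) (t := t) (c := v.eval t) (g := v) hv.1.le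
        (x := η k) (y := ((v.eval t : ℤ) : ℂ) / (η k - t)) (mul_div_cancel₀ _ (hne k))
      rw [hroot, mul_zero, ← C_mul_VV, map_mul, aeval_C, eq_intCast] at h1
      have h2 := (mul_eq_zero.1 h1).resolve_left hc'
      rw [eval_prod, Finset.prod_eq_zero (Finset.mem_univ k) (by simp)]
      rw [eval_map]
      exact h2
  rw [e]
  exact separable_prod_X_sub_C_iff.2 hz

theorem Nv_ne_zero {d : ℕ} (hd : 1 ≤ d) {v : ℤ[X]} (hv : VOk d v) : Nv d v ≠ 0 := by
  have _ := hd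
  unfold Nv
  refine Finset.prod_ne_zero_iff.2 fun t ht => Int.natAbs_ne_zero.2 fun h0 => ?_
  have h1 := resultant_ne_zero _ _ (WMpreN_sep hv t (Finset.mem_filter.1 ht).2)
  have h2 : (up ℂ (VV d t v)).natDegree = d := by
    rw [(VV_monic d t v).natDegree_map, VV_natDegree]
  rw [natDegree_derivative, h2, derivative_map, resultant_map_map, h0, map_zero] at h1
  exact h1 rfl

theorem WMpreN_taylor {d : ℕ} {v : ℤ[X]} (hv : v.natDegree = d) {t : ℕ} (ht : t < d + 1) (i : ℕ) :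
    ‖(taylor (t : ℤ) v).coeff i‖ ≤ (d + 1) * 2 ^ d * (d + 1) ^ d * v.supNorm := by
  have h0 := v.supNorm_nonneg
  have h1 : (hasseDeriv i v).supNorm ≤ 2 ^ d * v.supNorm := by
    refine sup_le_iff.2 fun j => ?_
    rw [hasseDeriv_coeff]
    by_cases hj : j + i ≤ d
    · rw [norm_mul, Int.norm_natCast]
      refine mul_le_mul ?_ (v.le_supNorm _) (norm_nonneg _) (by positivity)
      have h2 : (j + i).choose i ≤ 2 ^ d :=
        (Nat.choose_le_two_pow _ _).trans (Nat.pow_le_pow_right two_pos hj)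
      exact_mod_cast h2
    · rw [coeff_eq_zero_of_natDegree_lt (by omega), mul_zero, norm_zero]
      positivity
  have h2 := norm_eval_le (hasseDeriv i v) (m := d)
    ((natDegree_hasseDeriv_le v i).trans (by omega)) (t : ℤ)
  have h3 : max 1 ‖(t : ℤ)‖ ≤ (d : ℝ) + 1 := by
    rw [Int.norm_natCast]
    refine max_le (by simp) ?_
    exact_mod_cast ht.le
  rw [taylor_coeff]
  calc _ ≤ _ := h2
    _ ≤ (d + 1) * (2 ^ d * v.supNorm) * (d + 1) ^ d := by gcongr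
    _ = _ := by ring

theorem WMpreN_VV {d : ℕ} {v : ℤ[X]} {t : ℤ} {Y : ℝ} (hY : 1 ≤ Y)
    (h : ∀ i, ‖(taylor t v).coeff i‖ ≤ Y) : (VV d t v).supNorm ≤ (d + 1) * Y ^ d := by
  have hX : ∀ k : ℕ, (X ^ k : ℤ[X]).supNorm = 1 := fun k => by
    rw [X_pow_eq_monomial, supNorm_monomial, norm_one]
  have h0 : ‖v.eval t‖ ≤ Y := by rw [← taylor_coeff_zero]; exact h 0
  have h1 : ∀ i ∈ Finset.range d,
      (C ((taylor t v).coeff (i + 1) * v.eval t ^ i) * X ^ (d - 1 - i)).supNorm ≤ Y ^ d := by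
    intro i hi
    refine (sup_C_mul_le _ _).trans ?_
    rw [hX, mul_one, norm_mul, norm_pow]
    calc _ ≤ Y * Y ^ i := by gcongr; exact h _
      _ = Y ^ (i + 1) := by ring
      _ ≤ Y ^ d := pow_le_pow_right₀ hY (Finset.mem_range.1 hi)
  have h2 := (sup_sum_le _ _).trans (Finset.sum_le_sum h1)
  rw [Finset.sum_const, Finset.card_range, nsmul_eq_mul] at h2
  have h3 := one_le_pow₀ (n := d) hY
  unfold VV
  refine (sup_add_le _ _).trans ?_
  rw [hX]
  linarith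

theorem Nv_le (d : ℕ) : ∃ (K : ℝ) (A : ℕ), 1 ≤ K ∧ 1 ≤ A ∧ ∀ (v : ℤ[X]) (Z : ℝ), v.natDegree = d →
    1 ≤ Z → v.supNorm ≤ Z → (Nv d v : ℝ) ≤ K * Z ^ A := by
  obtain ⟨K₀, hK₀⟩ : ∃ K₀ : ℝ, K₀ = (d + 1) * 2 ^ d * (d + 1) ^ d := ⟨_, rfl⟩
  have hd1 : (1 : ℝ) ≤ d + 1 := by simp
  have h1 : 1 ≤ K₀ := hK₀ ▸ one_le_mul_of_one_le_of_one_le
    (one_le_mul_of_one_le_of_one_le hd1 (one_le_pow₀ one_le_two)) (one_le_pow₀ hd1)
  obtain ⟨K₁, hK₁⟩ : ∃ K₁ : ℝ, K₁ = (d + 1) * K₀ ^ d := ⟨_, rfl⟩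
  have h2 : 1 ≤ K₁ := hK₁ ▸ one_le_mul_of_one_le_of_one_le hd1 (one_le_pow₀ h1)
  obtain ⟨K₂, hK₂⟩ : ∃ K₂ : ℝ,
    K₂ = (d + (d - 1)).factorial * K₁ ^ (d - 1) * ((d + 1) * K₁) ^ d := ⟨_, rfl⟩
  have h3 : 1 ≤ K₂ := hK₂ ▸ one_le_mul_of_one_le_of_one_le (one_le_mul_of_one_le_of_one_le
    (Nat.one_le_cast.2 (Nat.factorial_pos _)) (one_le_pow₀ h2))
    (one_le_pow₀ (one_le_mul_of_one_le_of_one_le hd1 h2))
  refine ⟨K₂ ^ (d + 1), (d * (d - 1) + d * d) * (d + 1) + 1, one_le_pow₀ h3, by omega,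
    fun v Z hv hZ hvZ => ?_⟩
  have hZ0 : 0 ≤ Z := zero_le_one.trans hZ
  have h4 : ∀ t ∈ (Finset.range (d + 1)).filter (fun t : ℕ => v.eval (t : ℤ) ≠ 0),
      (((resultant (VV d t v) (derivative (VV d t v)) d (d - 1)).natAbs : ℕ) : ℝ) ≤
        K₂ * Z ^ (d * (d - 1) + d * d) := by
    intro t ht
    have h5 : (VV d t v).supNorm ≤ K₁ * Z ^ d := by
      have := WMpreN_VV (d := d) (v := v) (t := t) (one_le_mul_of_one_le_of_one_le h1 hZ) fun i =>
        (WMpreN_taylor hv (Finset.mem_range.1 (Finset.mem_filter.1 ht).1) i).trans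
          (by rw [← hK₀]; gcongr)
      rw [hK₁, mul_assoc, ← mul_pow]
      exact this
    have h6 : (derivative (VV d t v)).supNorm ≤ (d + 1) * K₁ * Z ^ d := by
      refine (sup_derivative_le _ (VV_natDegree d t v).le).trans ?_
      rw [mul_assoc]
      exact mul_le_mul (by simp) h5 (supNorm_nonneg _) (by positivity)
    rw [Nat.cast_natAbs, Int.cast_abs, ← Int.norm_eq_abs]
    have h7 := supNorm_nonneg (VV d t v)
    have h8 := supNorm_nonneg (derivative (VV d t v))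
    calc _ ≤ _ := norm_resultant_le _ _ d (d - 1)
      _ ≤ (d + (d - 1)).factorial * (K₁ * Z ^ d) ^ (d - 1) * ((d + 1) * K₁ * Z ^ d) ^ d := by gcongr
      _ = _ := by rw [hK₂, mul_pow K₁, mul_pow ((d + 1) * K₁), ← pow_mul, ← pow_mul, pow_add Z]; ring
  have h5 : 1 ≤ K₂ * Z ^ (d * (d - 1) + d * d) :=
    one_le_mul_of_one_le_of_one_le h3 (one_le_pow₀ hZ)
  have h6 : ((Finset.range (d + 1)).filter (fun t : ℕ => v.eval (t : ℤ) ≠ 0)).card ≤ d + 1 :=
    (Finset.card_filter_le _ _).trans (Finset.card_range _).le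
  unfold Nv
  rw [Nat.cast_prod]
  calc _ ≤ _ := Finset.prod_le_prod (fun _ _ => Nat.cast_nonneg _) h4
    _ ≤ (K₂ * Z ^ (d * (d - 1) + d * d)) ^ (d + 1) := by
      rw [Finset.prod_const]; exact pow_le_pow_right₀ h5 h6
    _ ≤ _ := by
      rw [mul_pow, ← pow_mul]
      exact mul_le_mul_of_nonneg_left (pow_le_pow_right₀ hZ (Nat.le_succ _)) (by positivity)

theorem not_dvd_res_of_Nv {d p : ℕ} {v : ℤ[X]} (hv : VOk d v) (hp : p.Prime) (h : ¬ p ∣ Nv d v) :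
    ¬ (p : ℤ) ∣ resultant (Vp d p v) (derivative (Vp d p v)) d (d - 1) := by
  intro hd
  obtain ⟨h0, h1, -⟩ := goodT_tt hv hp
  have hc := cc_ne_zero hv hp
  unfold cc at hc
  unfold Vp at hd
  obtain ⟨t, ht⟩ := Int.eq_ofNat_of_zero_le h0
  rw [ht] at hc hd h1
  refine h ((Int.natCast_dvd.1 hd).trans ?_)
  unfold Nv
  exact Finset.dvd_prod_of_mem
    (fun t : ℕ => (resultant (VV d t v) (derivative (VV d t v)) d (d - 1)).natAbs)
    (Finset.mem_filter.2 ⟨Finset.mem_range.2 (by omega), hc⟩)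

end Pool.Agent.VW
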