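import Pool.Agent.P.MP_b0ea37_nt.WMrel
import Pool.Agent.P.MP_b0ea37_nt.WMlocA
import Pool.Agent.P.MP_b0ea37_nt.WMlocB
import Pool.Agent.P.MP_b0ea37_nt.WMpreB
import Pool.Agent.P.MP_b0ea37_nt.WMpreG
import Pool.Agent.P.MP_b0ea37_nt.WMpreN
import Pool.Agent.P.MP_b0ea37_nt.WMnumb

namespace Pool.Agent.VW

open Polynomial

/-- `u` is the local cofactor of the datum `D` -/
def wmpreF_loc (n d p : ℕ) (D : Dat) (u : ℤ[X]) : Prop :=
  ∃ N : ℤ, ¬ (p : ℤ) ∣ N ∧ Vp d p D.v ∣ C (N ^ 2) * FF n d p D - piP d p D ^ 2 * u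

theorem wmpreF_ex {n d p : ℕ} (hn : 2 ≤ n) {D : Dat} (h : Ok n d D) (hp : p.Prime) :
    ∃ u, wmpreF_loc n d p D u := by
  obtain ⟨N, u₀, u₁, hN, hd⟩ := loc_dec hn h hp
  refine ⟨u₀, N, hN, ?_⟩
  have h1 := (dvd_pow_self _ two_ne_zero).trans hd
  have h2 : Vp d p D.v ∣ piP d p D * Vp d p D.v * u₁ := (Dvd.intro_left _ rfl).mul_right _
  have h3 := dvd_add h1 h2
  rwa [sub_add_cancel] at h3

theorem wmpreF_zero {d p : ℕ} {v g : ℤ[X]} (hv : VOk d v) (hp : p.Prime) (h : Vp d p v ∣ g) {z : ℂ}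
    (hz : aeval z v = 0) : aeval (zt d p v z) g = 0 := by
  obtain ⟨k, rfl⟩ := h
  rw [map_mul, aeval_zt_Vp hv hp hz, zero_mul]

theorem wmpreF_val {n d p : ℕ} {D : Dat} (h : Ok n d D) (hp : p.Prime) {N : ℤ} {u : ℤ[X]}
    (hu : Vp d p D.v ∣ C (N ^ 2) * FF n d p D - piP d p D ^ 2 * u) {z : ℂ}
    (hz : aeval z D.v = 0) : (N : ℂ) ^ 2 * (zt d p D.v z ^ n * aeval z D.f) =
      pz d p D z ^ 2 * aeval (zt d p D.v z) u := by
  have h1 := wmpreF_zero h.1 hp hu hz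
  rw [map_sub, map_mul, map_mul, aeval_FF h hp hz, aeval_C, sub_eq_zero] at h1
  simpa [pz] using h1

theorem wmpreF_inR {n d p : ℕ} {D D' : Dat} (h : Ok n d D) (h' : Ok n d D') (e : D'.v = D.v)
    (hp : p.Prime) {u u' : ℤ[X]} (hu : wmpreF_loc n d p D u) (hu' : wmpreF_loc n d p D' u')
    (ha : ∃ (N : ℤ) (w : ℤ[X]), ¬ (p : ℤ) ∣ N ∧ Vp d p D.v ∣ C N * u - w * u') :
    InR d p D.v fun z => aeval z D.f * pz d p D' z ^ 2 / (aeval z D'.f * pz d p D z ^ 2) := by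
  have hP : Prime (p : ℤ) := Nat.prime_iff_prime_int.1 hp
  obtain ⟨N₁, hN₁, h₁⟩ := hu
  obtain ⟨N₂, _, h₂⟩ := hu'
  obtain ⟨N, w, hN, h₃⟩ := ha
  refine ⟨N₁ ^ 2 * N, C (N₂ ^ 2) * w, fun hd => ?_, fun z hz => ?_⟩
  · exact (hP.dvd_or_dvd hd).elim (fun h => hN₁ (hP.dvd_of_dvd_pow h)) hN
  · have hz' : aeval z D'.v = 0 := by rw [e]; exact hz
    have e₁ := wmpreF_val h hp h₁ hz
    have e₂ := wmpreF_val h' hp h₂ hz'
    rw [e] at e₂
    have e₃ := wmpreF_zero h.1 hp h₃ hz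
    rw [map_sub, map_mul, map_mul, aeval_C, sub_eq_zero, eq_intCast] at e₃
    have hζ := pow_ne_zero n (zt_ne_zero h.1 hp hz)
    have hf' := h'.2.2.2.2.2.2.2.2 z hz'
    have hpz : pz d p D z ≠ 0 := pz_ne_zero h hz
    rw [map_mul, aeval_C, eq_intCast, ← mul_div_assoc,
      div_eq_iff (mul_ne_zero hf' (pow_ne_zero 2 hpz))]
    refine mul_left_cancel₀ hζ ?_
    push_cast
    linear_combination (N * pz d p D' z ^ 2) * e₁ + (pz d p D z ^ 2 * pz d p D' z ^ 2) * e₃ -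
      (pz d p D z ^ 2 * aeval (zt d p D.v z) w) * e₂

/-- preclasses with a given norm -/
theorem pre_fix (n d : ℕ) (hn : 2 ≤ n) (hd : 1 ≤ d) : ∃ K : ℝ, 1 ≤ K ∧
    ∀ (v : ℤ[X]) (b : ℤ) (S : Finset Dat), b ≠ 0 →
      (∀ D ∈ S, Ok n d D ∧ D.v = v ∧ resultant D.v D.f d n = (D.P : ℤ) ^ 2 * b) →
      (∀ D ∈ S, ∀ D' ∈ S, Pre d D D' → D = D') →
      (S.card : ℝ) ≤ wtM K d.factorial d (Nv d v) (b.natAbs * d.factorial ^ (n * d)) := by
  obtain ⟨K, hK, hbad⟩ := pre_bad d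
  refine ⟨K, hK, fun v b S hb hS hinj => ?_⟩
  obtain ⟨b', hb'⟩ : ∃ b', b' = b.natAbs * d.factorial ^ (n * d) := ⟨_, rfl⟩
  have hb0 : b' ≠ 0 := by
    rw [hb']
    exact mul_ne_zero (Int.natAbs_ne_zero.2 hb) (pow_ne_zero _ (Nat.factorial_ne_zero d))
  rw [← hb']
  obtain ⟨B, hB⟩ : ∃ B : ℕ → ℝ, B = fun p => if p ∣ Nv d v then K * (p : ℝ) ^ b'.factorization p
    else (((d.factorial : ℕ) : ℝ) * b'.factorization p + 1) ^ d := ⟨_, rfl⟩
  have hwt : wtM K d.factorial d (Nv d v) b' = ∏ p : b'.primeFactors, B p := by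
    rw [Finset.prod_coe_sort b'.primeFactors B, hB]
    rfl
  rw [hwt]
  rcases S.eq_empty_or_nonempty with rfl | ⟨D₀, hD₀⟩
  · rw [Finset.card_empty, Nat.cast_zero]
    refine Finset.prod_nonneg fun p _ => ?_
    rw [hB]
    have : 0 ≤ K := zero_le_one.trans hK
    dsimp only
    split_ifs <;> positivity
  have hv : VOk d v := (hS D₀ hD₀).2.1 ▸ (hS D₀ hD₀).1.1
  have hex : ∀ (p : ℕ) (D : Dat), ∃ u, p.Prime → D ∈ S → wmpreF_loc n d p D u := fun p D => by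
    by_cases h : p.Prime ∧ D ∈ S
    · obtain ⟨u, hu⟩ := wmpreF_ex hn (hS D h.2).1 h.1
      exact ⟨u, fun _ _ => hu⟩
    · exact ⟨0, fun h1 h2 => absurd ⟨h1, h2⟩ h⟩
  choose u hu using hex
  have hnorm : ∀ p : ℕ, p.Prime → ∀ D ∈ S,
      ¬ (p : ℤ) ^ (b'.factorization p + 1) ∣ resultant (Vp d p v) (u p D) := by
    intro p hp D hD hdv
    obtain ⟨N, hN, h1⟩ := hu p D hp hD
    obtain ⟨M, hM, h2⟩ := loc_norm hd (hS D hD).1 hp (hS D hD).2.2 hN h1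
    rw [(hS D hD).2.1] at h2
    have h3 := (Nat.prime_iff_prime_int.1 hp).pow_dvd_of_dvd_mul_left _ hM (hdv.trans h2)
    refine Nat.pow_succ_factorization_not_dvd hb0 hp ?_
    have h4 := Int.natAbs_dvd_natAbs.2 h3
    rw [Int.natAbs_pow, Int.natAbs_natCast, Int.natAbs_mul, Int.natAbs_pow,
      Int.natAbs_natCast, ← hb'] at h4
    exact h4
  have hT : ∀ p : ℕ, ∃ T : Finset ℤ[X], p.Prime → (T.card : ℝ) ≤ B p ∧ ∀ x,
      ¬ (p : ℤ) ^ (b'.factorization p + 1) ∣ resultant (Vp d p v) x →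
        ∃ y ∈ T, Asc p (Vp d p v) y x := fun p => by
    by_cases hp : p.Prime
    · obtain ⟨T, _, h2, h3⟩ := exists_reps
        (P := fun x => ¬ (p : ℤ) ^ (b'.factorization p + 1) ∣ resultant (Vp d p v) x)
        (Asc p (Vp d p v)) (fun x _ => Asc.refl hp _ x) (fun _ _ _ _ h => h.symm) (B := B p)
        fun U hU hU' => by
          rw [hB]
          dsimp only
          split_ifs with hN
          · exact hbad p _ _ U hp (VV_monic _ _ _) (VV_natDegree _ _ _) hU hU'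
          · exact pre_good d p _ _ U hp (VV_monic _ _ _) (VV_natDegree _ _ _)
              (not_dvd_res_of_Nv hv hp hN) hU hU'
      exact ⟨T, fun _ => ⟨h2, h3⟩⟩
    · exact ⟨∅, fun h => absurd h hp⟩
  choose T hT using hT
  have hrep : ∀ (p : ℕ) (D : Dat), ∃ y, p.Prime → D ∈ S →
      y ∈ T p ∧ Asc p (Vp d p v) y (u p D) := fun p D => by
    by_cases h : p.Prime ∧ D ∈ S
    · obtain ⟨y, hy⟩ := (hT p h.1).2 _ (hnorm p h.1 D h.2)
      exact ⟨y, fun _ _ => hy⟩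
    · exact ⟨0, fun h1 h2 => absurd ⟨h1, h2⟩ h⟩
  choose rep hrep using hrep
  have hpi := Cnt.pi (ι := b'.primeFactors) (P := fun p y => y ∈ T p) (B := fun p => B p)
    fun p => (Cnt.finset (T p)).mono (fun _ h => h) (hT p (Nat.prime_of_mem_primeFactors p.2)).1
  refine hpi.inj (P := fun D => D ∈ S) (fun D p => rep p D)
    (fun D hD p => (hrep p D (Nat.prime_of_mem_primeFactors p.2) hD).1)
    (fun D D' hD hD' e => hinj D hD D' hD' ?_) S fun _ h => h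
  have hv1 := (hS D hD).2.1
  have hv2 := (hS D' hD').2.1
  have hasc : ∀ p : ℕ, p.Prime → Asc p (Vp d p v) (u p D) (u p D') := fun p hp => by
    by_cases hpb : p ∣ b'
    · have h1 : rep p D = rep p D' :=
        congrFun e ⟨p, Nat.mem_primeFactors.2 ⟨hp, hpb, hb0⟩⟩
      have h2 := (hrep p D hp hD).2
      rw [h1] at h2
      exact h2.symm.trans hp (hrep p D' hp hD').2
    · have h1 := hnorm p hp D hD
      have h2 := hnorm p hp D' hD'
      rw [Nat.factorization_eq_zero_of_not_dvd hpb, zero_add, pow_one] at h1 h2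
      refine Asc.of_unit ?_ h1 h2
      have h3 : (Vp d p v).natDegree = d := VV_natDegree _ _ _
      omega
  refine ⟨hv1.trans hv2.symm, fun p hp => ⟨?_, ?_⟩⟩
  · exact wmpreF_inR (hS D hD).1 (hS D' hD').1 (hv2.trans hv1.symm) hp (hu p D hp hD)
      (hu p D' hp hD') (by rw [hv1]; exact (hasc p hp).2)
  · rw [hv1.trans hv2.symm]
    exact wmpreF_inR (hS D' hD').1 (hS D hD).1 (hv1.trans hv2.symm) hp (hu p D' hp hD')
      (hu p D hp hD) (by rw [hv2]; exact (hasc p hp).1)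

end Pool.Agent.VW
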