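import Pool.Agent.P.MP_b0ea37_nt.WMD2
import Pool.Agent.P.MP_b0ea37_nt.WDiv

namespace Pool.Agent.VW

open Polynomial

/-- the part of `b` built from the primes of `N` -/
def WMpreS_pt (N b : ℕ) : ℕ := ∏ p ∈ b.primeFactors with p ∣ N, p ^ b.factorization p

theorem WMpreS_dvd (N : ℕ) {b : ℕ} (hb : b ≠ 0) : WMpreS_pt N b ∣ b := by
  conv_rhs => rw [← Nat.prod_factorization_pow_eq_self hb]
  exact Finset.prod_dvd_prod_of_subset _ _ _ (Finset.filter_subset _ _)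

theorem WMpreS_prime {N b p : ℕ} (hp : p.Prime) (h : p ∣ WMpreS_pt N b) : p ∣ N := by
  obtain ⟨q, hq, h⟩ := (Prime.dvd_finsetProd_iff hp.prime _).1 h
  obtain ⟨h1, h2⟩ := Finset.mem_filter.1 hq
  rwa [(Nat.prime_dvd_prime_iff_eq hp (Nat.prime_of_mem_primeFactors h1)).1
    (hp.dvd_of_dvd_pow h)]

theorem WMpreS_mul (N : ℕ) {b D : ℕ} (hb : b ≠ 0) (hD : D ≠ 0) :
    WMpreS_pt N (b * D) ≤ WMpreS_pt N b * D := by
  refine Nat.le_of_dvd (Nat.mul_pos (Nat.pos_of_dvd_of_pos (WMpreS_dvd N hb) (Nat.pos_of_ne_zero hb))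
    (Nat.pos_of_ne_zero hD)) ?_
  rw [WMpreS_pt, Nat.factorization_mul hb hD]
  simp only [Finsupp.add_apply, pow_add, Finset.prod_mul_distrib]
  have key : ∀ c : ℕ, ∏ p ∈ (b * D).primeFactors with p ∣ N, p ^ c.factorization p
      ∣ WMpreS_pt N c := fun c => by
    rw [← Finset.prod_filter_of_ne (p := fun p => p ∈ c.primeFactors) fun p _ h => by
      by_contra h'
      rw [← Nat.support_factorization, Finsupp.notMem_support_iff] at h'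
      exact h (by rw [h', pow_zero])]
    exact Finset.prod_dvd_prod_of_subset _ _ _ fun p hp => by
      simp only [Finset.mem_filter] at hp ⊢
      exact ⟨hp.2, hp.1.2⟩
  exact mul_dvd_mul (key b) ((key D).trans (WMpreS_dvd N hD))

theorem WMpreS_wt {K : ℝ} (hK : 1 ≤ K) (A k N b : ℕ) :
    wtM K A k N b ≤ K ^ b.primeFactors.card *
      (∏ p ∈ b.primeFactors, ((A : ℝ) * b.factorization p + 1) ^ k) * WMpreS_pt N b := by
  rw [wtM, WMpreS_pt, Finset.prod_filter, Nat.cast_prod, ← Finset.prod_const,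
    ← Finset.prod_mul_distrib, ← Finset.prod_mul_distrib]
  refine Finset.prod_le_prod (fun p _ => by split_ifs <;> positivity) fun p _ => ?_
  have h1 : (1 : ℝ) ≤ ((A : ℝ) * b.factorization p + 1) ^ k :=
    one_le_pow₀ (le_add_of_nonneg_left (by positivity))
  split_ifs
  · push_cast
    exact mul_le_mul_of_nonneg_right (le_mul_of_one_le_right (by linarith) h1) (by positivity)
  · rw [Nat.cast_one, mul_one]
    exact le_mul_of_one_le_left (by linarith) hK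

theorem WMpreS_sum (N n : ℕ) : ∑ b ∈ Finset.Icc 1 n, WMpreS_pt N b
    ≤ ((Finset.Icc 1 n).image (WMpreS_pt N)).card * n := by
  rw [← Finset.sum_fiberwise_of_maps_to fun b hb => Finset.mem_image_of_mem (WMpreS_pt N) hb,
    ← smul_eq_mul]
  refine Finset.sum_le_card_nsmul _ _ _ fun m _ => ?_
  rw [Finset.sum_congr rfl fun b hb => (Finset.mem_filter.1 hb).2, Finset.sum_const, smul_eq_mul]
  refine le_trans (Nat.mul_le_mul_right m ?_) (Nat.div_mul_le_self n m)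
  rw [← Nat.Ioc_filter_dvd_card_eq_div]
  refine Finset.card_le_card fun b hb => ?_
  obtain ⟨h1, h2⟩ := Finset.mem_filter.1 hb
  obtain ⟨h3, h4⟩ := Finset.mem_Icc.1 h1
  exact Finset.mem_filter.2 ⟨Finset.mem_Ioc.2 ⟨h3, h4⟩, h2 ▸ WMpreS_dvd N (by omega)⟩

theorem sum_wt_le (K : ℝ) (hK : 1 ≤ K) (A k D₀ : ℕ) (hD : D₀ ≠ 0) (ε : ℝ) (hε : 0 < ε) :
    ∃ C : ℝ, 1 ≤ C ∧ ∀ (Z B : ℝ) (N : ℕ), N ≠ 0 → (N : ℝ) ≤ Z → 1 ≤ B → B ≤ Z →
      ∑ b ∈ Finset.Icc 1 ⌊B⌋₊, wtM K A k N (b * D₀) ≤ C * Z ^ ε * B := by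
  obtain ⟨δ, rfl⟩ : ∃ δ, ε = δ + δ + δ := ⟨ε / 3, by ring⟩
  have hδ : 0 < δ := by linarith
  obtain ⟨C1, a1, h1⟩ := pow_omega_le K hK δ hδ
  obtain ⟨C2, a2, h2⟩ := prod_fact_le A k δ hδ
  obtain ⟨C3, a3, h3⟩ := cnt_smooth δ hδ
  have hD1 : (1 : ℝ) ≤ D₀ := by exact_mod_cast Nat.pos_of_ne_zero hD
  have hD2 : (1 : ℝ) ≤ (D₀ : ℝ) ^ δ := Real.one_le_rpow hD1 hδ.le
  refine ⟨C1 * (D₀ : ℝ) ^ δ * (C2 * (D₀ : ℝ) ^ δ) * D₀ * C3, by
    repeat' apply one_le_mul_of_one_le_of_one_le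
    all_goals assumption, fun Z B N hN hZ hB hBZ => ?_⟩
  have hZ1 : 1 ≤ Z := hB.trans hBZ
  have hfl : (⌊B⌋₊ : ℝ) ≤ B := Nat.floor_le (by linarith)
  have hb : ∀ b ∈ Finset.Icc 1 ⌊B⌋₊, b ≠ 0 ∧ (b : ℝ) ≤ Z := fun b hb => by
    obtain ⟨h3, h4⟩ := Finset.mem_Icc.1 hb
    exact ⟨by omega, ((Nat.cast_le.2 h4).trans hfl).trans hBZ⟩
  have e1 : ∀ b ∈ Finset.Icc 1 ⌊B⌋₊, wtM K A k N (b * D₀) ≤
      C1 * (Z ^ δ * (D₀ : ℝ) ^ δ) * (C2 * (Z ^ δ * (D₀ : ℝ) ^ δ)) * D₀ * WMpreS_pt N b := by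
    intro b hb'
    obtain ⟨b0, b1⟩ := hb b hb'
    have c1 : ((b * D₀ : ℕ) : ℝ) ^ δ ≤ Z ^ δ * (D₀ : ℝ) ^ δ := by
      rw [Nat.cast_mul, Real.mul_rpow (by positivity) (by positivity)]
      gcongr
    have c2 := (h1 _ (mul_ne_zero b0 hD)).trans (mul_le_mul_of_nonneg_left c1 (by linarith))
    have c3 := (h2 _ (mul_ne_zero b0 hD)).trans (mul_le_mul_of_nonneg_left c1 (by linarith))
    have c4 : (WMpreS_pt N (b * D₀) : ℝ) ≤ D₀ * WMpreS_pt N b := by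
      rw [mul_comm (D₀ : ℝ)]
      exact_mod_cast WMpreS_mul N b0 hD
    rw [mul_assoc _ (D₀ : ℝ)]
    refine (WMpreS_wt hK A k N _).trans ?_
    gcongr
  have e2 := h3 Z hZ1 N hN hZ ((Finset.Icc 1 ⌊B⌋₊).image (WMpreS_pt N)) fun m hm => by
    obtain ⟨b, hb', rfl⟩ := Finset.mem_image.1 hm
    obtain ⟨b0, b1⟩ := hb b hb'
    exact ⟨ne_zero_of_dvd_ne_zero b0 (WMpreS_dvd N b0), (Nat.cast_le.2 (Nat.le_of_dvd
      (Nat.pos_of_ne_zero b0) (WMpreS_dvd N b0))).trans b1, fun p hp => WMpreS_prime hp⟩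
  have e3 : ∑ b ∈ Finset.Icc 1 ⌊B⌋₊, (WMpreS_pt N b : ℝ) ≤ C3 * Z ^ δ * B := by
    have : ∑ b ∈ Finset.Icc 1 ⌊B⌋₊, (WMpreS_pt N b : ℝ)
        ≤ ((Finset.Icc 1 ⌊B⌋₊).image (WMpreS_pt N)).card * (⌊B⌋₊ : ℝ) := by
      exact_mod_cast WMpreS_sum N ⌊B⌋₊
    exact this.trans (by gcongr)
  refine (Finset.sum_le_sum e1).trans ?_
  rw [← Finset.mul_sum, Real.rpow_add (by linarith), Real.rpow_add (by linarith)]
  exact (mul_le_mul_of_nonneg_left e3 (by positivity)).trans (le_of_eq (by ring))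

end Pool.Agent.VW
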