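import Pool.Agent.P.MP_b0ea37_nt.WMpreF
import Pool.Agent.P.MP_b0ea37_nt.WMpreS
import Pool.Agent.P.MP_b0ea37_nt.WCnt

namespace Pool.Agent.VW

open Polynomial

/-- all preclasses of one `v` -/
theorem pre_tot (n d : ℕ) (hn : 2 ≤ n) (hd : 1 ≤ d) (ε : ℝ) (hε : 0 < ε) : ∃ K : ℝ, 1 ≤ K ∧
    ∀ (Z B : ℝ) (v : ℤ[X]) (S : Finset Dat), 1 ≤ B → B ≤ Z → v.supNorm ≤ Z →
      (∀ D ∈ S, Ok n d D ∧ D.v = v ∧ |((resultant D.v D.f d n : ℤ) : ℝ)| ≤ B * (D.P : ℝ) ^ 2) →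
      (∀ D ∈ S, ∀ D' ∈ S, Pre d D D' → D = D') → (S.card : ℝ) ≤ K * Z ^ ε * B := by
  obtain ⟨K₁, hK₁, h1⟩ := pre_fix n d hn hd
  obtain ⟨K₂, A, hK₂, hA, h2⟩ := Nv_le d
  have hA' : (0 : ℝ) < A := by exact_mod_cast hA
  obtain ⟨C₀, hC, h3⟩ := sum_wt_le K₁ hK₁ d.factorial d (d.factorial ^ (n * d))
    (pow_ne_zero _ d.factorial_ne_zero) (ε / A) (by positivity)
  have hK : 1 ≤ K₂ ^ (ε / A) := Real.one_le_rpow hK₂ (by positivity)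
  refine ⟨2 * (C₀ * K₂ ^ (ε / A)), by nlinarith, fun Z B v S hB hBZ hv hS hP => ?_⟩
  have hZ : 1 ≤ Z := hB.trans hBZ
  rcases S.eq_empty_or_nonempty with rfl | ⟨D₀, hD₀⟩
  · rw [Finset.card_empty, Nat.cast_zero]
    positivity
  have hV : VOk d v := (hS D₀ hD₀).2.1 ▸ (hS D₀ hD₀).1.1
  have hZA : Z ≤ K₂ * Z ^ A :=
    (le_self_pow₀ hZ (by omega)).trans (le_mul_of_one_le_left (by positivity) hK₂)
  have h4 := h3 (K₂ * Z ^ A) B (Nv d v) (Nv_ne_zero hd hV) (h2 v Z hV.1 hZ hv) hB (hBZ.trans hZA)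
  have h5 : ∀ b : ℤ, b ≠ 0 → Cnt (fun D => D ∈ S ∧ resultant D.v D.f d n = (D.P : ℤ) ^ 2 * b)
      (wtM K₁ d.factorial d (Nv d v) (b.natAbs * d.factorial ^ (n * d))) := fun b hb T hT =>
    h1 v b T hb (fun D hD => ⟨(hS D (hT D hD).1).1, (hS D (hT D hD).1).2.1, (hT D hD).2⟩)
      fun D hD D' hD' => hP D (hT D hD).1 D' (hT D' hD').1
  have h6 := Cnt.sum (Finset.Icc 1 ⌊B⌋₊) fun (m : ℕ) hm =>
    (h5 m (by have := (Finset.mem_Icc.1 hm).1; omega)).or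
      (h5 (-m) (by have := (Finset.mem_Icc.1 hm).1; omega))
  refine (h6 S fun D hD => ?_).trans ?_
  · obtain ⟨hO, -, hr⟩ := hS D hD
    obtain ⟨b, hb, e⟩ := hO.exists_b hn
    have hp : (0 : ℝ) < (D.P : ℝ) ^ 2 := pow_pos (Nat.cast_pos.2 hO.2.2.2.1.pos) 2
    refine ⟨b.natAbs, Finset.mem_Icc.2 ⟨Int.natAbs_pos.2 hb, Nat.le_floor ?_⟩, ?_⟩
    · rw [e] at hr
      push_cast at hr
      rw [abs_mul, abs_of_pos hp, mul_comm] at hr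
      rw [Nat.cast_natAbs, Int.cast_abs]
      exact le_of_mul_le_mul_right hr hp
    · rcases Int.natAbs_eq b with h | h
      · exact Or.inl ⟨hD, h ▸ e⟩
      · exact Or.inr ⟨hD, h ▸ e⟩
  · simp only [Int.natAbs_neg, Int.natAbs_natCast]
    rw [Finset.sum_add_distrib]
    rw [Real.mul_rpow (by positivity) (by positivity), ← Real.rpow_natCast,
      ← Real.rpow_mul (by positivity), mul_div_cancel₀ _ hA'.ne'] at h4
    linarith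

end Pool.Agent.VW
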