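import Pool.Agent.P.MP_b0ea37_nt.WMD3
import Pool.Agent.P.MP_b0ea37_nt.WMint
import Pool.Agent.P.MP_b0ea37_nt.WMpart
import Pool.Agent.P.MP_b0ea37_nt.WMnoc
import Pool.Agent.P.MP_b0ea37_nt.WMmult
import Pool.Agent.P.MP_b0ea37_nt.WDiv

namespace Pool.Agent.VW

open Polynomial

/-- a class in which every pair has a good square root -/
theorem WMprt_cls (n d j : ℕ) (hn : n = d + 1 + j) (hj : j = 1 ∨ j = 2) (hn5 : 5 ≤ n)
    (hnd : n ≤ 2 * d) (c : ℤ) (hc : 0 < c) : ∃ K : ℝ, 1 ≤ K ∧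
    ∀ (H T P₀ l om : ℝ) (v : ℤ[X]) (Q : Dat → Prop), 1 ≤ H → 1 ≤ T → 0 < l → l ≤ 1 → 1 ≤ om →
      0 ≤ P₀ → K * (l * H / T) ^ n * H ^ j < P₀ ^ 2 →
      (∀ D, Q D → Fam n d j K H T P₀ om D ∧ D.v = v) →
      (∀ D D', Q D → Q D' → (D.f = D'.f → D = D') ∧ Sq1 d D D' ∧
        (D.f - D'.f).supNorm ≤ l * H ∧ Cl D.v D.f D'.f ∧
        ∃ G, Gd n v c (l ^ 2 * H) D.f D'.f G) →
      Cnt Q (K * mu j H (l * H / T) om) := by
  classical
  obtain ⟨K₁, hK₁, hform⟩ := part_form n d j hn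
  obtain ⟨K₂, hK₂, hmult⟩ := mult n j hj hn5 (by omega)
  have hc1 : (1 : ℝ) ≤ c := by exact_mod_cast hc
  obtain ⟨A, hA⟩ : ∃ A : ℝ, A = 2 * K₁ * c := ⟨_, rfl⟩
  have hA1 : 1 ≤ A := by rw [hA]; nlinarith
  obtain ⟨B, hB⟩ : ∃ B : ℝ, B = (j + n).factorial * (4 ^ n) ^ n := ⟨_, rfl⟩
  have hB1 : 1 ≤ B := by
    have h1 : (1 : ℝ) ≤ (j + n).factorial := by exact_mod_cast Nat.factorial_pos _
    rw [hB]
    exact one_le_mul_of_one_le_of_one_le h1 (one_le_pow₀ (one_le_pow₀ (by norm_num)))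
  have hA4 : 1 ≤ A ^ 4 := one_le_pow₀ hA1
  have e1 : K₂ ≤ K₂ * A ^ 4 := le_mul_of_one_le_right (by linarith) hA4
  have e2 : K₂ * A ^ 4 ≤ K₂ * A ^ 4 * B := le_mul_of_one_le_right (by linarith) hB1
  have e3 : B ≤ K₂ * A ^ 4 * B := le_mul_of_one_le_left (by linarith) (by linarith)
  refine ⟨K₂ * A ^ 4 * B, by linarith, ?_⟩
  intro H T P₀ l om v Q hH hT hl hl1 hom hP hK hQ hQQ
  have hT0 : 0 < T := by linarith
  have hS0 : 0 < l * H / T := by positivity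
  have hmu := one_le_mu j (H := H) (om := om) (by linarith) hS0.le
  refine Cnt.of_mem (by positivity) fun D₀ h₀ => ?_
  choose! G hG using fun D D' h h' => (hQQ D D' h h').2.2.2.2
  obtain ⟨⟨ok₀, irr₀, nq₀, box₀, t₀, t₀', -, exc₀⟩, hv₀⟩ := hQ D₀ h₀
  have hmon : ∀ D, Q D → D.f.Monic ∧ D.f.natDegree = n := fun D h =>
    ⟨(hQ D h).1.1.2.1, (hQ D h).1.1.2.2.1⟩
  have hvok : VOk d v := hv₀ ▸ ok₀.1
  have hv0 : v ≠ 0 := hvok.2.1.ne_zero
  obtain ⟨k, hk⟩ : ∃ k : Dat → ℤ[X], ∀ D, k D = G D D₀ - C c * D₀.f := ⟨_, fun _ => rfl⟩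
  have hsep : ∀ D D', Q D → Q D' → up ℚ v ∣ up ℚ (k D - k D') → D = D' := by
    intro D D' h h' hd
    rw [hk, hk] at hd
    have h1 := part_sep hc.ne' irr₀ hv0 (by rw [hvok.1, box₀.2.1]; omega) (hG D D₀ h h₀).1
      (hG D' D₀ h' h₀).1 hd
    obtain ⟨⟨ok, irr, -, box, t, -, p, -⟩, hv⟩ := hQ D h
    obtain ⟨a1, a2, a3, -⟩ := hQQ D D' h h'
    rcases noc hn (by omega) ok (hQ D' h').1.1 a2 irr (hv ▸ h1) with e | e
    · exact a1 e
    · exfalso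
      have b1 : P₀ ^ 2 ≤ (D.P : ℝ) ^ 2 := by gcongr
      have b2 : ((j + n).factorial : ℝ) *
          (4 ^ n * (D.f - D'.f).supNorm / D.v.supNorm) ^ n * D.f.supNorm ^ j ≤
          (j + n).factorial * (4 ^ n * (l * H) / T) ^ n * H ^ j := by
        have := (D.f - D'.f).supNorm_nonneg
        have := D.f.supNorm_nonneg
        have := D.v.supNorm_nonneg
        have := box.2.2.2
        gcongr
      have b3 : ((j + n).factorial : ℝ) * (4 ^ n * (l * H) / T) ^ n * H ^ j =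
          B * (l * H / T) ^ n * H ^ j := by
        rw [hB, mul_div_assoc, mul_pow]; ring
      have b4 : B * (l * H / T) ^ n * H ^ j ≤ K₂ * A ^ 4 * B * (l * H / T) ^ n * H ^ j := by
        gcongr
      linarith
  intro S hS
  have hcard : (S.image k).card = S.card := Finset.card_image_of_injOn fun x hx y hy e =>
    hsep x y (hS x hx) (hS y hy) (by rw [e, sub_self]; simp)
  have hm := hmult H T (A * (l * H / T)) om D₀.f v (S.image k) hH hT0 (by positivity) hom box₀.1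
    box₀.2.1 irr₀ nq₀ box₀.2.2.1 (by rw [hvok.1]; omega) (hv₀ ▸ t₀') (by
      intro x hx
      obtain ⟨D, hD, rfl⟩ := Finset.mem_image.1 hx
      obtain ⟨b1, b2⟩ := part_size (by omega) hc (hmon D (hS D hD)) (hmon D₀ h₀)
        (hG D D₀ (hS D hD) h₀) (hQQ D D₀ (hS D hD) h₀).2.2.1
      rw [hk]
      refine ⟨b1, b2.trans ?_⟩
      have b3 : A * (l * H / T) * T = K₁ * (2 * c * (l * H)) := by rw [hA]; field_simp
      have b4 : l ^ 2 * H ≤ l * H := by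
        have : l ^ 2 ≤ l := by nlinarith
        gcongr
      have b5 : (c : ℝ) * (l ^ 2 * H + l * H) ≤ 2 * c * (l * H) := by nlinarith
      rw [b3]
      exact b5.trans (le_mul_of_one_le_left (by positivity) hK₁)) (by
      intro x hx y hy
      obtain ⟨D, hD, rfl⟩ := Finset.mem_image.1 hx
      obtain ⟨D', hD', rfl⟩ := Finset.mem_image.1 hy
      have q := hS D hD
      have q' := hS D' hD'
      obtain ⟨W, b1, b2, b3⟩ := hform v D.f D'.f D₀.f _ _ _ c l H T hvok hc hT0 (hv₀ ▸ t₀) hl.le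
        hl1 (hmon D q) (hmon D' q') (hmon D₀ h₀) box₀.2.2.2 (hQQ D D₀ q h₀).2.2.1
        (hQQ D' D₀ q' h₀).2.2.1 (hG D D₀ q h₀) (hG D' D₀ q' h₀) (hG D D' q q')
        ((hQ D q).2 ▸ (hQQ D D' q q').2.2.2.1) ((hQ D q).2 ▸ (hQQ D D₀ q h₀).2.2.2.1)
      rw [hk, hk]
      refine ⟨W, b1, b2.trans ?_, b3⟩
      have : K₁ * c ≤ A := by rw [hA]; nlinarith
      gcongr) (by
      intro x hx y hy e
      obtain ⟨D, hD, rfl⟩ := Finset.mem_image.1 hx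
      obtain ⟨D', hD', rfl⟩ := Finset.mem_image.1 hy
      rw [hsep D D' (hS D hD) (hS D' hD') e])
  rcases hm with hm | hm
  · rw [hcard] at hm
    have b1 := mu_mul_le (j := j) (H := H) (om := om) (by omega) (by linarith) hS0.le hA1
    calc (S.card : ℝ) ≤ K₂ * mu j H (A * (l * H / T)) om := hm
      _ ≤ K₂ * (A ^ 4 * mu j H (l * H / T) om) := by gcongr
      _ = K₂ * A ^ 4 * mu j H (l * H / T) om := by ring
      _ ≤ _ := by gcongr
  · exact absurd (Exc.mono (n := n) (j := j) hm (e1.trans e2) (by linarith) hT0.le (by linarith))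
      exc₀

/-- one square class in one cell with fixed signs -/
theorem prt (n d j : ℕ) (hn : n = d + 1 + j) (hj : j = 1 ∨ j = 2) (hn5 : 5 ≤ n) (hnd : n ≤ 2 * d)
    (ε : ℝ) (hε : 0 < ε) : ∃ c₀ : ℝ, 0 < c₀ ∧ ∃ K : ℝ, 1 ≤ K ∧
    ∀ (Z H T P₀ l om : ℝ) (Q : Dat → Prop), 1 ≤ H → 1 ≤ T → T ≤ Z → 0 < l → l ≤ 1 → 1 ≤ om →
      l ^ 2 * H / T ^ 2 ≤ c₀ → 0 ≤ P₀ → K * (l * H / T) ^ n * H ^ j < P₀ ^ 2 →
      (∀ D, Q D → Fam n d j K H T P₀ om D) →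
      (∀ D D', Q D → Q D' → (D.f = D'.f → D = D') ∧ Sq1 d D D' ∧
        (D.f - D'.f).supNorm ≤ l * H ∧ Cl D.v D.f D'.f ∧
        ArchZ n d D.v D.f D'.f (l ^ 2 * H / T ^ 2) (l ^ 2 * H)) →
      Cnt Q (K * Z ^ ε * mu j H (l * H / T) om) := by
  obtain ⟨m, hm⟩ : ∃ m, m = max n (2 * d - 1) := ⟨_, rfl⟩
  obtain ⟨c, hc⟩ : ∃ c : ℤ, c = 2 * (d.factorial : ℤ) ^ m := ⟨_, rfl⟩
  have hc0 : 0 < c := by
    have := d.factorial_pos
    rw [hc]; positivity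
  have hc1 : (1 : ℝ) ≤ c := by exact_mod_cast hc0
  obtain ⟨K₀, hK₀, hcls⟩ := WMprt_cls n d j hn hj hn5 hnd (2 * c ^ 3) (by positivity)
  obtain ⟨Cd, hCd, hdiv⟩ := cnt_divisors (ε / 2) (by positivity)
  have h2 : (1 : ℝ) ≤ 2 ^ ε := Real.one_le_rpow (by norm_num) hε.le
  have h3 : 1 ≤ Cd * 2 ^ ε := one_le_mul_of_one_le_of_one_le hCd h2
  have h4 : K₀ ≤ K₀ * (Cd * 2 ^ ε) := le_mul_of_one_le_right (by linarith) h3
  refine ⟨1 / (2 * (2 * (c : ℝ) ^ 3) ^ 2), by positivity, K₀ * (Cd * 2 ^ ε), by linarith, ?_⟩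
  intro Z H T P₀ l om Q hH hT hZ hl hl1 hom ha hP hK hQ hQQ
  have hT0 : 0 < T := by linarith
  have hZ0 : 0 < Z := by linarith
  have hS0 : 0 < l * H / T := by positivity
  have hmu := one_le_mu j (H := H) (om := om) (by linarith) hS0.le
  refine Cnt.of_mem (by positivity) fun D₁ h₁ => ?_
  have ha0 : 0 ≤ l ^ 2 * H / T ^ 2 := by positivity
  have ha1 : (2 * (c : ℝ) ^ 3) ^ 2 * (l ^ 2 * H / T ^ 2) < 1 := by
    rw [le_div_iff₀ (by positivity)] at ha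
    nlinarith
  have ha2 : (c : ℝ) * (l ^ 2 * H / T ^ 2) < 1 := by
    refine lt_of_le_of_lt (mul_le_mul_of_nonneg_right ?_ ha0) ha1
    have b1 : (c : ℝ) ≤ c ^ 3 := le_self_pow₀ hc1 (by norm_num)
    have b2 : (2 * (c : ℝ) ^ 3) ≤ (2 * (c : ℝ) ^ 3) ^ 2 := le_self_pow₀ (by linarith) (by norm_num)
    linarith
  have hv : ∀ D, Q D → D.v = D₁.v := fun D h => by
    obtain ⟨κ, hκ, -⟩ := (hQQ D D₁ h h₁).2.1
    exact hκ.1
  have hmon : ∀ D, Q D → D.f.Monic ∧ D.f.natDegree = n := fun D h =>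
    ⟨(hQ D h).1.2.1, (hQ D h).1.2.2.1⟩
  have hvok : VOk d D₁.v := (hQ D₁ h₁).1.1
  have hex : ∀ D D', Q D → Q D' → ∃ U, NR D₁.v c D.f D'.f U ∧ U.natDegree ≤ n := by
    intro D D' h h'
    obtain ⟨-, a2, -, -, a5⟩ := hQQ D D' h h'
    obtain ⟨U, b1, b2, b3⟩ := int_root (m := m) (by omega) (by omega) (by omega) (hQ D h).1
      (hQ D' h').1 a2
    rw [← hc] at b2
    rw [hv D h] at b2 b3 a5
    subst hm
    exact ⟨U, b2, root_deg_le hvok hc0 (hmon D h).2.le (hmon D' h').2.le b2 b1 b3 a5 ha2⟩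
  choose! G hG using hex
  have hN : (D₁.v.leadingCoeff ^ 2).natAbs ≠ 0 :=
    Int.natAbs_ne_zero.2 (pow_ne_zero _ hvok.2.2.1.ne')
  have h5 := Cnt.fibre (P := fun (y : ℕ) (D : Dat) => Q D ∧
      Int.gcd ((G D D₁).coeff n - c) (D₁.v.leadingCoeff ^ 2) = y) (hdiv _ hN)
    (B' := K₀ * mu j H (l * H / T) om) (by positivity) fun y _ =>
      hcls H T P₀ l om D₁.v _ hH hT hl hl1 hom hP (lt_of_le_of_lt (by gcongr) hK)
        (fun D h => ⟨(hQ D h.1).mono h4 (by linarith) hT0.le (by linarith), hv D h.1⟩) (by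
          rintro D D' ⟨h, e⟩ ⟨h', e'⟩
          obtain ⟨a1, a2, a3, a4, a5⟩ := hQQ D D' h h'
          refine ⟨a1, a2, a3, a4, ?_⟩
          have a6 := (hQQ D D₁ h h₁).2.2.2.1
          rw [hv D h] at a4 a5 a6
          exact ysplit (by omega) hnd hvok hc0 (hmon D h) (hmon D' h') (hmon D₁ h₁)
            (hG D D₁ h h₁).1 (hG D' D₁ h' h₁).1 (hG D D' h h').1 (hG D D₁ h h₁).2
            (hG D' D₁ h' h₁).2 (hG D D' h h').2 a4 a6 (e.trans e'.symm) a5 ha0 ha1)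
  refine h5.mono (fun D h => ⟨_, Nat.gcd_dvd_right _ _, h, rfl⟩) ?_
  have b1 : |(D₁.v.leadingCoeff : ℝ)| ≤ 2 * Z := by
    have b2 := D₁.v.le_supNorm D₁.v.natDegree
    have b3 := (hQ D₁ h₁).2.2.2.2.2.1
    rw [Int.norm_eq_abs] at b2
    unfold leadingCoeff
    linarith
  have b2 : (((D₁.v.leadingCoeff ^ 2).natAbs : ℕ) : ℝ) ≤ (2 * Z) ^ 2 := by
    rw [Nat.cast_natAbs]
    push_cast
    rw [abs_pow]
    gcongr
  have b3 : (((D₁.v.leadingCoeff ^ 2).natAbs : ℕ) : ℝ) ^ (ε / 2) ≤ 2 ^ ε * Z ^ ε := by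
    calc _ ≤ ((2 * Z) ^ 2) ^ (ε / 2) := Real.rpow_le_rpow (Nat.cast_nonneg _) b2 (by positivity)
      _ = (2 * Z) ^ ε := by
        rw [← Real.rpow_natCast, ← Real.rpow_mul (by positivity)]
        congr 1
        push_cast
        ring
      _ = _ := Real.mul_rpow (by norm_num) hZ0.le
  calc _ ≤ Cd * (2 ^ ε * Z ^ ε) * (K₀ * mu j H (l * H / T) om) := by gcongr
    _ = _ := by ring

end Pool.Agent.VW
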