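import Pool.Agent.P.MP_b0ea37_nt.WMloc

namespace Pool.Agent.VW

open Polynomial

theorem wmrel_one {p : ℕ} (hp : p.Prime) : ¬ (p : ℤ) ∣ 1 :=
  (Nat.prime_iff_prime_int.1 hp).not_dvd_one

theorem wmrel_mul {p : ℕ} (hp : p.Prime) {N N' : ℤ} (h : ¬ (p : ℤ) ∣ N) (h' : ¬ (p : ℤ) ∣ N') :
    ¬ (p : ℤ) ∣ N * N' := fun hd => ((Nat.prime_iff_prime_int.1 hp).dvd_or_dvd hd).elim h h'

theorem wmrel_half {p : ℕ} (hp : p.Prime) {V u u' u'' : ℤ[X]}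
    (h : ∃ (N : ℤ) (w : ℤ[X]), ¬ (p : ℤ) ∣ N ∧ V ∣ C N * u' - w * u)
    (h' : ∃ (N : ℤ) (w : ℤ[X]), ¬ (p : ℤ) ∣ N ∧ V ∣ C N * u'' - w * u') :
    ∃ (N : ℤ) (w : ℤ[X]), ¬ (p : ℤ) ∣ N ∧ V ∣ C N * u'' - w * u := by
  obtain ⟨N, w, hN, a, ha⟩ := h
  obtain ⟨N', w', hN', a', ha'⟩ := h'
  refine ⟨N * N', w * w', wmrel_mul hp hN hN', C N * a' + w' * a, ?_⟩
  rw [C_mul]
  linear_combination C N * ha' + w' * ha

theorem wmrel_unit {p : ℕ} {V u : ℤ[X]} (hV : V.natDegree ≠ 0) (h : ¬ (p : ℤ) ∣ resultant V u)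
    (u' : ℤ[X]) : ∃ (N : ℤ) (w : ℤ[X]), ¬ (p : ℤ) ∣ N ∧ V ∣ C N * u' - w * u := by
  obtain ⟨a, b, -, -, hab⟩ := exists_mul_add_mul_eq_C_resultant V u le_rfl le_rfl (Or.inl hV)
  exact ⟨resultant V u, b * u', h, a * u', by rw [← hab]; ring⟩

theorem InR.congr {d p : ℕ} {v : ℤ[X]} {φ ψ : ℂ → ℂ} (h : InR d p v φ)
    (e : ∀ z : ℂ, aeval z v = 0 → φ z = ψ z) : InR d p v ψ := by
  obtain ⟨N, g, hN, h⟩ := h
  exact ⟨N, g, hN, fun z hz => by rw [← e z hz]; exact h z hz⟩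

theorem InR.one {d p : ℕ} {v : ℤ[X]} (hp : p.Prime) : InR d p v fun _ => 1 :=
  ⟨1, 1, wmrel_one hp, fun z _ => by simp⟩

theorem InR.mul {d p : ℕ} {v : ℤ[X]} (hp : p.Prime) {φ ψ : ℂ → ℂ} (h : InR d p v φ)
    (h' : InR d p v ψ) : InR d p v fun z => φ z * ψ z := by
  obtain ⟨N, g, hN, h⟩ := h
  obtain ⟨N', g', hN', h'⟩ := h'
  refine ⟨N * N', g * g', wmrel_mul hp hN hN', fun z hz => ?_⟩
  rw [map_mul, ← h z hz, ← h' z hz]
  push_cast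
  ring

theorem Pre.refl {n d : ℕ} {D : Dat} (h : Ok n d D) : Pre d D D := by
  have key : ∀ p : ℕ, p.Prime → InR d p D.v
      (fun z => aeval z D.f * pz d p D z ^ 2 / (aeval z D.f * pz d p D z ^ 2)) := fun p hp =>
    (InR.one hp).congr fun z hz => (div_self (mul_ne_zero (h.2.2.2.2.2.2.2.2 z hz)
      (pow_ne_zero _ (pz_ne_zero h hz)))).symm
  exact ⟨rfl, fun p hp => ⟨key p hp, key p hp⟩⟩

theorem Pre.symm {d : ℕ} {D D' : Dat} (h : Pre d D D') : Pre d D' D :=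
  ⟨h.1.symm, fun p hp => h.1 ▸ (h.2 p hp).symm⟩

theorem Pre.trans {n d : ℕ} {D D' D'' : Dat} (h' : Ok n d D') (h₁ : Pre d D D')
    (h₂ : Pre d D' D'') : Pre d D D'' := by
  refine ⟨h₁.1.trans h₂.1, fun p hp => ?_⟩
  have h3 := h₂.2 p hp
  rw [← h₁.1] at h3
  refine ⟨((h₁.2 p hp).1.mul hp h3.1).congr fun z hz => ?_,
    ((h₁.2 p hp).2.mul hp h3.2).congr fun z hz => ?_⟩
  all_goals
    rw [h₁.1] at hz
    have a1 := h'.2.2.2.2.2.2.2.2 z hz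
    have a2 := pz_ne_zero (p := p) h' hz
    field_simp

theorem Sq.refl {n d : ℕ} {D : Dat} (h : Ok n d D) : Sq d D D fun _ => 1 :=
  ⟨rfl, fun z _ => by simp, fun p hp =>
    ⟨(InR.one hp).congr fun z hz => by rw [one_mul, div_self (pz_ne_zero h hz)],
      (InR.one hp).congr fun z hz => by rw [one_mul, div_self (pz_ne_zero h hz)]⟩⟩

theorem Sq.symm {n d : ℕ} {D D' : Dat} {κ : ℂ → ℂ} (h : Ok n d D) (h' : Ok n d D')
    (h₁ : Sq d D D' κ) : Sq d D' D fun z => (κ z)⁻¹ := by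
  refine ⟨h₁.1.symm, fun z hz => ?_, fun p hp => ?_⟩
  · have a1 := h'.2.2.2.2.2.2.2.2 z hz
    rw [h₁.2.1 z (h₁.1 ▸ hz)] at a1 ⊢
    have a2 : κ z ≠ 0 := fun h0 => a1 (by simp [h0])
    field_simp
  · rw [← h₁.1]
    exact ⟨(h₁.2.2 p hp).2.congr fun z _ => by field_simp,
      (h₁.2.2 p hp).1.congr fun z _ => by field_simp⟩

theorem Sq.trans {n d : ℕ} {D D' D'' : Dat} {κ κ' : ℂ → ℂ} (h' : Ok n d D') (h₁ : Sq d D D' κ)
    (h₂ : Sq d D' D'' κ') : Sq d D D'' fun z => κ z * κ' z := by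
  refine ⟨h₁.1.trans h₂.1, fun z hz => ?_, fun p hp => ?_⟩
  · rw [h₂.2.1 z (h₁.1 ▸ hz), h₁.2.1 z hz]
    ring
  have h3 := h₂.2.2 p hp
  rw [← h₁.1] at h3
  refine ⟨((h₁.2.2 p hp).1.mul hp h3.1).congr fun z hz => ?_,
    ((h₁.2.2 p hp).2.mul hp h3.2).congr fun z hz => ?_⟩
  all_goals
    rw [h₁.1] at hz
    have a2 := pz_ne_zero (p := p) h' hz
    field_simp

theorem Asc.refl {p : ℕ} (hp : p.Prime) (V u : ℤ[X]) : Asc p V u u :=
  ⟨⟨1, 1, wmrel_one hp, by simp⟩, ⟨1, 1, wmrel_one hp, by simp⟩⟩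

theorem Asc.symm {p : ℕ} {V u u' : ℤ[X]} (h : Asc p V u u') : Asc p V u' u :=
  ⟨h.2, h.1⟩

theorem Asc.trans {p : ℕ} (hp : p.Prime) {V u u' u'' : ℤ[X]} (h : Asc p V u u')
    (h' : Asc p V u' u'') : Asc p V u u'' :=
  ⟨wmrel_half hp h.1 h'.1, wmrel_half hp h'.2 h.2⟩

theorem Asc.of_unit {p : ℕ} {V u u' : ℤ[X]} (hV : V.natDegree ≠ 0)
    (h : ¬ (p : ℤ) ∣ resultant V u) (h' : ¬ (p : ℤ) ∣ resultant V u') : Asc p V u u' :=
  ⟨wmrel_unit hV h u', wmrel_unit hV h' u⟩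

/-- the prime and the residue are determined by the local ideal -/
theorem eq_of_inR {n d : ℕ} {D D' : Dat} (h : Ok n d D) (h' : Ok n d D') (e : D.v = D'.v)
    (hR : InR d D.P D.v fun z => pz d D.P D' z / pz d D.P D z) :
    D.P = D'.P ∧ (D.P : ℤ) ∣ D.r - D'.r := by
  obtain ⟨N, g, hN, hg⟩ := hR
  have hp : D.P.Prime := h.2.2.2.1
  have : Fact D.P.Prime := ⟨hp⟩
  have hV : Vp d D.P D.v ∣ C N * piP d D.P D' - g * piP d D.P D := by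
    refine Vp_dvd h.1 hp fun z hz => ?_
    have a1 := hg z hz
    have a2 := pz_ne_zero (p := D.P) h hz
    beta_reduce at a1
    rw [← mul_div_assoc, div_eq_iff a2, pz, pz, ← e] at a1
    rw [map_sub, map_mul, map_mul, aeval_C, ← a1]
    simp
  have hc : (cc d D.P D.v : ZMod D.P) ≠ 0 := fun h0 =>
    not_dvd_cc h.1 hp h.2.2.2.2.1 ((ZMod.intCast_zmod_eq_zero_iff_dvd _ _).1 h0)
  have hev : ∀ x : ℤ, aeval (x : ZMod D.P) D.v = ((D.v.eval x : ℤ) : ZMod D.P) := fun x =>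
    aeval_algebraMap_apply_eq_algebraMap_eval x D.v
  have hr : aeval (D.r : ZMod D.P) D.v = 0 := by
    rw [hev]; exact (ZMod.intCast_zmod_eq_zero_iff_dvd _ _).2 h.2.2.2.2.2.1
  have hrt : (D.r : ZMod D.P) - (tt d D.P D.v : ℤ) ≠ 0 := fun h0 =>
    hc (by rw [cc, ← hev, ← sub_eq_zero.1 h0, hr])
  set y : ZMod D.P := (cc d D.P D.v : ZMod D.P) / ((D.r : ZMod D.P) - (tt d D.P D.v : ℤ)) with hy
  have hxy : ((D.r : ZMod D.P) - (tt d D.P D.v : ℤ)) * y = (cc d D.P D.v : ℤ) := by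
    rw [hy, mul_div_cancel₀ _ hrt]
  have hy0 : y ≠ 0 := div_ne_zero hc hrt
  have h1 : aeval y (Vp d D.P D.v) = 0 := by
    have a1 := aeval_Tw h.1.1.le hxy
    rw [hr, mul_zero, cc, ← C_mul_VV, map_mul, aeval_C] at a1
    exact (mul_eq_zero.1 a1).resolve_left hc
  have h2 : aeval y (piP d D.P D) = 0 := by
    rw [piP, if_pos rfl]
    simp only [map_add, map_mul, aeval_X, eq_intCast, map_intCast, Int.cast_sub, map_sub]
    linear_combination -hxy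
  have h3 : aeval y (piP d D.P D') = 0 := by
    obtain ⟨w, hw⟩ := hV
    have a1 := congrArg (aeval y) hw
    rw [map_sub, map_mul, map_mul, map_mul, h1, h2, aeval_C, mul_zero, zero_mul, sub_zero] at a1
    exact (mul_eq_zero.1 a1).resolve_left fun h0 =>
      hN ((ZMod.intCast_zmod_eq_zero_iff_dvd _ _).1 h0)
  by_cases hP : D.P = D'.P
  · refine ⟨hP, (ZMod.intCast_zmod_eq_zero_iff_dvd _ _).1 ?_⟩
    rw [piP, if_pos hP, ← e] at h3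
    simp only [map_add, map_mul, aeval_X, eq_intCast, map_intCast, Int.cast_sub, map_sub] at h3
    rw [Int.cast_sub]
    exact (mul_eq_zero.1 (show (_ - _) * y = 0 by linear_combination h3 + hxy)).resolve_right hy0
  · rw [piP, if_neg hP, map_one] at h3
    exact absurd h3 one_ne_zero

end Pool.Agent.VW
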