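import Pool.Agent.P.MP_b0ea37_nt.WMD2
import Pool.Agent.P.MP_b0ea37_nt.WHt
import Pool.Agent.P.MP_b0ea37_nt.WRes
import Pool.Agent.P.MP_b0ea37_nt.WRed
import Pool.Agent.P.MP_b0ea37_nt.WCnt

namespace Pool.Agent.VW

open Polynomial

theorem v_pigeon (d P : ℕ) (hP : P.Prime) (r : ℤ) : ∃ (L : ℕ) (g : ℤ[X]), L ^ (d + 1) ≤ P ∧
    P < (L + 1) ^ (d + 1) ∧ g ≠ 0 ∧ g.natDegree ≤ d ∧ (∀ i, |g.coeff i| ≤ L) ∧
    (P : ℤ) ∣ g.eval r := by
  classical
  have hex : ∃ L : ℕ, P < (L + 1) ^ (d + 1) :=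
    ⟨P, lt_of_lt_of_le (Nat.lt_succ_self P) (Nat.le_self_pow (by omega) _)⟩
  have h1 := Nat.find_spec hex
  set L := Nat.find hex with hL
  have h2 : L ^ (d + 1) ≤ P := by
    rcases Nat.eq_zero_or_pos L with h | h
    · rw [h]; simp
    · have := Nat.find_min hex (show L - 1 < Nat.find hex by omega)
      rw [show L - 1 + 1 = L by omega] at this
      omega
  have : NeZero P := ⟨hP.ne_zero⟩
  obtain ⟨a, b, hab, he⟩ := Fintype.exists_ne_map_eq_of_card_lt
    (fun a : Fin (d + 1) → Fin (L + 1) => ((∑ i, ((a i : ℕ) : ℤ) * r ^ (i : ℕ) : ℤ) : ZMod P))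
    (by simpa [ZMod.card] using h1)
  set g : ℤ[X] := ∑ i : Fin (d + 1), C (((a i : ℕ) : ℤ) - ((b i : ℕ) : ℤ)) * X ^ (i : ℕ) with hg
  have hc : ∀ j : ℕ, g.coeff j =
      if h : j < d + 1 then ((a ⟨j, h⟩ : ℕ) : ℤ) - ((b ⟨j, h⟩ : ℕ) : ℤ) else 0 := by
    intro j
    simp only [hg, finsetSum_coeff, coeff_C_mul, coeff_X_pow]
    split_ifs with h
    · rw [Finset.sum_eq_single ⟨j, h⟩]
      · simp
      · intro i _ hi
        rw [if_neg fun e => hi (Fin.ext e.symm), mul_zero]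
      · simp
    · refine Finset.sum_eq_zero fun i _ => ?_
      rw [if_neg (by have := i.2; omega), mul_zero]
  refine ⟨L, g, h2, h1, fun h0 => hab ?_, ?_, fun j => ?_, ?_⟩
  · funext i
    have := hc i
    rw [h0, coeff_zero, dif_pos i.2] at this
    apply Fin.ext
    have e : ((a i : ℕ) : ℤ) = ((b i : ℕ) : ℤ) := by
      simp only [Fin.eta] at this
      linarith
    exact_mod_cast e
  · rw [natDegree_le_iff_coeff_eq_zero]
    intro j hj
    rw [hc, dif_neg (by omega)]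
  · rw [hc]
    split_ifs with h
    · have := (a ⟨j, h⟩).2
      have := (b ⟨j, h⟩).2
      rw [abs_le]
      constructor <;> omega
    · simp
  · have := (ZMod.intCast_eq_intCast_iff_dvd_sub _ _ P).1 he.symm
    rw [← Finset.sum_sub_distrib] at this
    simpa [hg, eval_finsetSum, sub_mul] using this

theorem v_factor {P : ℕ} (hP : P.Prime) {r : ℤ} {g : ℤ[X]} (hg : ¬ C (P : ℤ) ∣ g)
    (hr : (P : ℤ) ∣ g.eval r) :
    ∃ h : ℤ[X], h ∣ g ∧ h.IsPrimitive ∧ Irr h ∧ (P : ℤ) ∣ h.eval r := by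
  have hP' : Prime (P : ℤ) := Nat.prime_iff_prime_int.1 hP
  have g0 : g ≠ 0 := by rintro rfl; exact hg (dvd_zero _)
  have key : ∀ (k : ℕ) (u : ℤ[X]), u.natDegree ≤ k → u ∣ g → (P : ℤ) ∣ u.eval r →
      ∃ h : ℤ[X], h ∣ g ∧ Irr h ∧ (P : ℤ) ∣ h.eval r := by
    intro k
    induction k with
    | zero =>
      intro u hu hd he
      rw [eq_C_of_natDegree_le_zero hu] at hd he
      rw [eval_C] at he
      exact absurd ((map_dvd C he).trans hd) hg
    | succ k ih =>
      intro u hu hd he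
      rcases Nat.lt_or_ge u.natDegree (k + 1) with h | h
      · exact ih u (by omega) hd he
      rcases irr_or_reducible u (by omega) with h1 | ⟨a, b, ha, hb, rfl⟩
      · exact ⟨u, hd, h1, he⟩
      have a0 : a ≠ 0 := by rintro rfl; simp at ha
      have b0 : b ≠ 0 := by rintro rfl; simp at hb
      rw [natDegree_mul a0 b0] at hu
      rw [eval_mul] at he
      rcases hP'.dvd_or_dvd he with h2 | h2
      · exact ih a (by omega) ((dvd_mul_right _ _).trans hd) h2
      · exact ih b (by omega) ((dvd_mul_left _ _).trans hd) h2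
  obtain ⟨h, hd, hi, he⟩ := key _ g le_rfl dvd_rfl hr
  have e := h.eq_C_content_mul_primPart
  have h0 : h ≠ 0 := by rintro rfl; exact g0 (zero_dvd_iff.1 hd)
  refine ⟨h.primPart, h.primPart_dvd.trans hd, h.isPrimitive_primPart, ?_, ?_⟩
  · have e2 : up ℚ h = C ((h.content : ℤ) : ℚ) * up ℚ h.primPart := by
      conv_lhs => rw [e]
      simp [up]
    have hu : IsUnit (C ((h.content : ℤ) : ℚ)) :=
      isUnit_C.2 (Ne.isUnit (by exact_mod_cast content_eq_zero_iff.not.2 h0))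
    unfold Irr at hi ⊢
    rw [e2] at hi
    exact (irreducible_isUnit_mul hu).1 hi
  · rw [e, eval_mul, eval_C] at he
    rcases hP'.dvd_or_dvd he with h2 | h2
    · exact absurd ((map_dvd C h2).trans ((C_content_dvd h).trans hd)) hg
    · exact h2

theorem v_fill (d : ℕ) {h : ℤ[X]} (hp : h.IsPrimitive) (hi : Irr h) (hd : h.natDegree ≤ d) :
    ∃ v : ℤ[X], VOk d v ∧ h ∣ v ∧ v.supNorm ≤ (d + 1) * (2 ^ d * (d + 1) ^ d) * h.supNorm := by
  classical
  have h0 : h ≠ 0 := hp.ne_zero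
  set T := (Finset.range (d + 1)).filter fun c : ℕ => h.eval (c : ℤ) ≠ 0 with hT
  have hcard : d - h.natDegree ≤ T.card := by
    have h1 := Finset.card_filter_add_card_filter_not (s := Finset.range (d + 1))
      (fun c : ℕ => h.eval (c : ℤ) ≠ 0)
    have h2 : ((Finset.range (d + 1)).filter fun c : ℕ => ¬ h.eval (c : ℤ) ≠ 0).card ≤
        h.roots.toFinset.card := by
      refine Finset.card_le_card_of_injOn (fun c : ℕ => (c : ℤ)) (fun c hc => ?_)
        fun a _ b _ e => Nat.cast_injective (R := ℤ) e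
      simp only [Finset.coe_filter, Set.mem_ofPred_eq, not_not] at hc
      simp [h0, hc.2]
    have h3 := (Multiset.toFinset_card_le h.roots).trans (card_roots' h)
    rw [Finset.card_range, ← hT] at h1
    omega
  obtain ⟨A, hA, hAc⟩ := Finset.exists_subset_card_eq hcard
  set q : ℤ[X] := ∏ c ∈ A, (X - C (c : ℤ)) with hq
  have qm : q.Monic := monic_prod_of_monic _ _ fun c _ => monic_X_sub_C _
  have qd : q.natDegree = d - h.natDegree := by
    rw [hq, natDegree_prod_of_monic _ _ (fun c _ => monic_X_sub_C _)]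
    simp only [natDegree_X_sub_C, Finset.sum_const, smul_eq_mul, mul_one, hAc]
  have qs : q.supNorm ≤ 2 ^ d * (d + 1) ^ d := by
    refine (sup_prod_X_sub_C A fun c : ℕ => (c : ℤ)).trans ?_
    have c1 : A.card ≤ d := by omega
    have d1 : (1 : ℝ) ≤ d + 1 := by linarith [Nat.cast_nonneg (α := ℝ) d]
    refine mul_le_mul (pow_le_pow_right₀ (by norm_num) c1) ?_ (by positivity) (by positivity)
    refine le_trans (Finset.prod_le_prod (g := fun _ => (d : ℝ) + 1) (fun c _ => by positivity)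
      fun c hc => ?_) ?_
    · have := Finset.mem_range.1 (Finset.mem_filter.1 (hA hc)).1
      refine max_le d1 ?_
      rw [Int.norm_natCast]
      exact_mod_cast this.le
    · rw [Finset.prod_const]
      exact pow_le_pow_right₀ d1 c1
  have hsep : (up ℂ (h * q)).Separable := by
    have s1 : (up ℂ h).Separable := by
      have : up ℂ h = (up ℚ h).map (algebraMap ℚ ℂ) := by
        simp only [up, Polynomial.map_map]; congr 1
      rw [this]
      exact (Irreducible.separable hi).map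
    have e : up ℂ q = ∏ c ∈ A, (X - C (c : ℂ)) := by
      simp [up, hq, Polynomial.map_prod]
    rw [up, Polynomial.map_mul]
    refine s1.mul ?_ ?_
    · show (up ℂ q).Separable
      rw [e, separable_prod_X_sub_C_iff']
      intro a _ b _ hab
      exact_mod_cast hab
    · show IsCoprime (up ℂ h) (up ℂ q)
      rw [e]
      refine IsCoprime.prod_right fun c hc => ?_
      refine ((irreducible_X_sub_C (c : ℂ)).coprime_iff_not_dvd.2 ?_).symm
      rw [dvd_iff_isRoot, IsRoot.def]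
      have := (Finset.mem_filter.1 (hA hc)).2
      have e2 : (up ℂ h).eval (c : ℂ) = ((h.eval (c : ℤ) : ℤ) : ℂ) := by
        rw [up, eval_map, ← Int.cast_natCast, ← eq_intCast (Int.castRingHom ℂ), eval₂_hom]
        simp
      rw [e2]
      exact_mod_cast this
  have hdeg : (h * q).natDegree = d := by rw [natDegree_mul h0 qm.ne_zero, qd]; omega
  have hprim : (h * q).IsPrimitive := hp.mul qm.isPrimitive
  have hsup : (h * q).supNorm ≤ (d + 1) * (2 ^ d * (d + 1) ^ d) * h.supNorm := by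
    refine (sup_mul_le h q hd).trans ?_
    rw [mul_assoc, mul_comm h.supNorm]
    have := h.supNorm_nonneg
    gcongr
  rcases lt_or_gt_of_ne (leadingCoeff_ne_zero.2 hprim.ne_zero) with hl | hl
  · refine ⟨-(h * q), ⟨by rw [natDegree_neg, hdeg], ?_, by rw [leadingCoeff_neg]; linarith, ?_⟩,
      (dvd_mul_right _ _).neg_right, by rw [sup_neg]; exact hsup⟩
    · intro a ha
      exact hprim a (dvd_neg.1 ha)
    · rw [up, Polynomial.map_neg]
      exact hsep.of_dvd (neg_dvd.2 dvd_rfl)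
  · exact ⟨h * q, ⟨hdeg, hprim, hl, hsep⟩, dvd_mul_right _ _, hsup⟩

theorem v_short (d : ℕ) (hd : 1 ≤ d) (P : ℕ) (r : ℤ) (hP : P.Prime) : ∃ (L : ℕ) (v : ℤ[X]),
    L ^ (d + 1) ≤ P ∧ P < (L + 1) ^ (d + 1) ∧ VOk d v ∧ (P : ℤ) ∣ v.eval r ∧
      v.supNorm ≤ (d + 1) * (2 ^ d * (d + 1) ^ d) * 4 ^ d * L := by
  obtain ⟨L, g, hL1, hL2, g0, gd, gc, gr⟩ := v_pigeon d P hP r
  have hLP : L < P := by
    rcases Nat.lt_or_ge L 2 with h | h
    · have := hP.two_le; omega
    · exact lt_of_lt_of_le (lt_self_pow₀ (by omega) (by omega)) hL1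
  have hg : ¬ C (P : ℤ) ∣ g := by
    intro h
    apply g0
    ext i
    have h1 := (C_dvd_iff_dvd_coeff _ _).1 h i
    exact Int.eq_zero_of_abs_lt_dvd h1 (lt_of_le_of_lt (gc i) (by exact_mod_cast hLP))
  obtain ⟨h, hdvd, hprim, hirr, hr⟩ := v_factor hP hg gr
  obtain ⟨v, hv, hhv, hs⟩ := v_fill d hprim hirr ((natDegree_le_of_dvd hdvd g0).trans gd)
  have gs : g.supNorm ≤ L := by
    rw [sup_le_iff]
    intro i
    rw [Int.norm_eq_abs]
    exact_mod_cast gc i
  refine ⟨L, v, hL1, hL2, hv, hr.trans (eval_dvd hhv), hs.trans ?_⟩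
  rw [mul_assoc _ ((4 : ℝ) ^ d)]
  refine mul_le_mul_of_nonneg_left ((sup_le_of_dvd g0 hdvd gd).trans ?_) (by positivity)
  gcongr

theorem v_const (d : ℕ) : (1 : ℝ) ≤ (d + 1) * (2 ^ d * (d + 1) ^ d) * 4 ^ d := by
  have d1 : (1 : ℝ) ≤ d + 1 := by linarith [Nat.cast_nonneg (α := ℝ) d]
  exact one_le_mul_of_one_le_of_one_le (one_le_mul_of_one_le_of_one_le d1
    (one_le_mul_of_one_le_of_one_le (one_le_pow₀ (by norm_num)) (one_le_pow₀ d1)))
    (one_le_pow₀ (by norm_num))

theorem exists_v (d : ℕ) (hd : 1 ≤ d) : ∃ A : ℝ, 1 ≤ A ∧ ∀ (P : ℕ) (r : ℤ), P.Prime → 4 < P →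
    ∃ v : ℤ[X], VOk d v ∧ (P : ℤ) ∣ v.eval r ∧ v.supNorm ^ (d + 1) ≤ A * P := by
  have k1 := v_const d
  refine ⟨_, one_le_pow₀ (n := d + 1) k1, fun P r hP _ => ?_⟩
  obtain ⟨L, v, hL1, -, hv, hr, vs⟩ := v_short d hd P r hP
  refine ⟨v, hv, hr, (pow_le_pow_left₀ v.supNorm_nonneg vs _).trans ?_⟩
  rw [mul_pow _ (L : ℝ)]
  exact mul_le_mul_of_nonneg_left (by exact_mod_cast hL1) (by positivity)

theorem exists_dat (n d : ℕ) (hd : 1 ≤ d) (hdn : d < n) : ∃ (A : ℝ) (P₁ : ℕ), 1 ≤ A ∧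
    ∀ (f : ℤ[X]) (P : ℕ) (r : ℤ), f.Monic → f.natDegree = n → Irr f → P.Prime → P₁ ≤ P →
      Wk P r f → ∃ D : Dat, D.f = f ∧ D.P = P ∧ Ok n d D ∧ D.v.supNorm ^ (d + 1) ≤ A * P := by
  have k1 := v_const d
  set K₀ : ℝ := (d + 1) * (2 ^ d * (d + 1) ^ d) * 4 ^ d with hK₀
  set K₁ : ℝ := (2 * d + 1).factorial * d ^ (d + 1) * K₀ ^ (2 * d + 1) with hK₁
  have k1' : 0 ≤ K₁ := by positivity
  refine ⟨K₀ ^ (d + 1), ⌈(K₁ + 2) ^ (d + 1)⌉₊ + d + 1, one_le_pow₀ k1,
    fun f P r hm hn hi hP hK hf => ?_⟩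
  obtain ⟨L, v, hL1, hL2, hv, vr, vs⟩ := v_short d hd P r hP
  have v0 := v.supNorm_nonneg
  have v1 : 1 ≤ v.supNorm := one_le_sup hv.2.1.ne_zero
  have hL1' : (L : ℝ) ^ (d + 1) ≤ P := by exact_mod_cast hL1
  have hsz : v.supNorm ^ (d + 1) ≤ K₀ ^ (d + 1) * P := by
    refine (pow_le_pow_left₀ v0 vs _).trans ?_
    rw [mul_pow _ (L : ℝ)]
    gcongr
  have hnw : ¬ Wk P r v := by
    intro hw
    have dd : (derivative v).natDegree ≤ d - 1 := hv.1 ▸ natDegree_derivative_le v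
    have hne : resultant (derivative v) v ≠ 0 := by
      refine resultant_ne_zero_of_coprime ?_
      have e : up ℂ v = (up ℚ v).map (algebraMap ℚ ℂ) := by
        simp only [up, Polynomial.map_map]; congr 1
      have s1 : (up ℚ v).Separable := (separable_map (algebraMap ℚ ℂ)).1 (e ▸ hv.2.2.2)
      have := (separable_def _).1 s1
      rw [up, derivative_map] at this
      exact this.symm
    obtain ⟨e, he⟩ := Nat.exists_eq_add_of_le (show (derivative v).natDegree ≤ d by omega)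
    have hne' : resultant (derivative v) v d d ≠ 0 := by
      have := resultant_add_left_deg (derivative v) v (derivative v).natDegree v.natDegree e le_rfl
      rw [← he, coeff_natDegree] at this
      conv_lhs at this => rw [hv.1]
      rw [this]
      exact mul_ne_zero (mul_ne_zero (pow_ne_zero _ (by norm_num))
        (pow_ne_zero _ hv.2.2.1.ne')) hne
    have h2 := res_one_two hP.one_le (g := derivative v) (h := v) (m := d) (m' := d) (by omega)
      hv.1.le (by omega) hw.2 hw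
    have h3 : (P : ℝ) ^ 2 ≤ ‖resultant (derivative v) v d d‖ := by
      rw [Int.norm_eq_abs]
      exact_mod_cast Int.le_of_dvd (abs_pos.2 hne') ((dvd_abs _ _).2 h2)
    have hKL : K₁ + 2 < L + 1 := by
      refine lt_of_pow_lt_pow_left₀ (d + 1) (by positivity) ((Nat.le_ceil _).trans_lt ?_)
      exact_mod_cast (by omega : ⌈(K₁ + 2) ^ (d + 1)⌉₊ < (L + 1) ^ (d + 1))
    have l1 : (1 : ℝ) ≤ L := by linarith
    have d1 : (1 : ℝ) ≤ d := by exact_mod_cast hd
    have h4 : ‖resultant (derivative v) v d d‖ ≤ K₁ * L ^ (2 * d + 1) := by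
      refine (norm_resultant_le _ _ _ _).trans ?_
      have a1 : ((d + d).factorial : ℝ) ≤ (2 * d + 1).factorial := by
        exact_mod_cast Nat.factorial_le (by omega)
      have a2 : (derivative v).supNorm ≤ d * v.supNorm := sup_derivative_le v hv.1.le
      have a3 := (derivative v).supNorm_nonneg
      calc _ ≤ (2 * d + 1).factorial * (d * v.supNorm) ^ d * v.supNorm ^ d := by gcongr
        _ = (2 * d + 1).factorial * d ^ d * v.supNorm ^ (2 * d) := by rw [mul_pow]; ring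
        _ ≤ (2 * d + 1).factorial * d ^ (d + 1) * v.supNorm ^ (2 * d + 1) := by gcongr <;> omega
        _ ≤ (2 * d + 1).factorial * d ^ (d + 1) * (K₀ * L) ^ (2 * d + 1) := by gcongr
        _ = _ := by rw [hK₁, mul_pow]; ring
    have h5 : (L : ℝ) * L ^ (2 * d + 1) ≤ (P : ℝ) ^ 2 := by
      calc _ = ((L : ℝ) ^ (d + 1)) ^ 2 := by ring
        _ ≤ _ := by gcongr
    have h6 : K₁ * L ^ (2 * d + 1) < (L : ℝ) * L ^ (2 * d + 1) :=
      mul_lt_mul_of_pos_right (by linarith) (by positivity)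
    linarith
  have hz : ∀ z : ℂ, aeval z v = 0 → aeval z f ≠ 0 := by
    intro z h1 h2
    have u : ∀ g : ℤ[X], aeval z (up ℚ g) = aeval z g := fun g => by
      rw [up, ← algebraMap_int_eq, aeval_map_algebraMap]
    have h3 := hi.dvd_of_root (K := ℂ) (z := z) ((u f).trans h2) ((u v).trans h1)
    have inj : Function.Injective (Int.castRingHom ℚ) := RingHom.injective_int _
    have h4 := natDegree_le_of_dvd h3 ((Polynomial.map_ne_zero_iff inj).2 hv.2.1.ne_zero)
    rw [natDegree_map_eq_of_injective inj, natDegree_map_eq_of_injective inj, hn, hv.1] at h4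
    omega
  by_cases h2 : (P : ℤ) ^ 2 ∣ v.eval r
  · obtain ⟨k, hk⟩ := binomExpansion v r (P : ℤ)
    obtain ⟨k', hk'⟩ := binomExpansion f r (P : ℤ)
    refine ⟨⟨f, v, P, r + P⟩, rfl, rfl, ⟨hv, hm, hn, hP, by show d < P; omega, ?_,
      fun h3 => hnw ⟨h2, ?_⟩, ⟨?_, ?_⟩, hz⟩, hsz⟩
    · show (P : ℤ) ∣ v.eval (r + P)
      rw [hk]
      exact (vr.add (dvd_mul_left _ _)).add (Dvd.intro_left (k * P) (by ring))
    · change (P : ℤ) ^ 2 ∣ v.eval (r + P) at h3
      rw [hk] at h3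
      have h4 : (P : ℤ) ^ 2 ∣ (derivative v).eval r * P := by
        have := (h3.sub (dvd_mul_left _ k)).sub h2
        simpa using this
      rw [pow_two] at h4
      exact (mul_dvd_mul_iff_right (by exact_mod_cast hP.ne_zero)).1 h4
    · show (P : ℤ) ^ 2 ∣ f.eval (r + P)
      rw [hk']
      refine (hf.1.add ?_).add (dvd_mul_left _ _)
      rw [pow_two]
      exact mul_dvd_mul hf.2 dvd_rfl
    · show (P : ℤ) ∣ (derivative f).eval (r + P)
      have := sub_dvd_eval_sub (r + P) r (derivative f)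
      rw [add_sub_cancel_left] at this
      simpa using this.add hf.2
  · exact ⟨⟨f, v, P, r⟩, rfl, rfl, ⟨hv, hm, hn, hP, by show d < P; omega, vr, h2, hf, hz⟩, hsz⟩

end Pool.Agent.VW
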