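import Pool.Agent.P.MP_b0ea37_nt.WMtyC
import Pool.Agent.P.MP_b0ea37_nt.WMv
import Pool.Agent.P.MP_b0ea37_nt.WMnumA
import Pool.Agent.P.MP_b0ea37_nt.WMnumB

namespace Pool.Agent.VW

open Polynomial

/-- the exceptional case of a dyadic class is an exceptional polynomial -/
theorem WMtop_exc {n d j : ℕ} (hn : n = d + 1 + j) {δ K A₁ A H T P₀ G : ℝ} {f : ℤ[X]}
    (hf : Irr f) (hH : 1 ≤ H) (hT : 1 ≤ T) (hK : 1 ≤ K) (hKA : K ≤ A) (h2 : 2 ≤ A)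
    (hA : 2 ^ n * A₁ ≤ A) (hP : 0 < P₀) (hTP : T ^ (d + 1) ≤ 2 * A₁ * P₀)
    (hmu : H ^ muL n / 2 ≤ P₀)
    (hG : G = 1 ∨ (j = 1 ∧ 1 ≤ G ∧ G = H ^ (((n : ℝ) - 1) / 2) / P₀))
    (h : Exc n j K H T (H ^ δ * G ^ 2) f) : Exq n δ A H f := by
  have hH0 : 0 < H := by linarith
  have hd : 0 < H ^ δ := Real.rpow_pos_of_pos hH0 _
  rcases hG with rfl | ⟨rfl, hG1, hG⟩
  · refine Or.inl (h.1.mono ?_)
    rw [one_pow, mul_one]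
    gcongr
  · have hs : √(H ^ δ * G ^ 2) = H ^ (δ / 2) * G := by
      rw [Real.sqrt_mul hd.le, Real.sqrt_sq (by linarith), Real.sqrt_eq_rpow,
        ← Real.rpow_mul hH0.le, mul_one_div]
    have hm : 0 < H ^ muL n := Real.rpow_pos_of_pos hH0 _
    have he : 0 < H ^ (((n : ℝ) - 1) / 2) := Real.rpow_pos_of_pos hH0 _
    have hh : 0 < H ^ (δ / 2) := Real.rpow_pos_of_pos hH0 _
    refine Or.inr ⟨hf, G, 2 * T, hG1, ?_, by linarith, ?_,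
      (h.2 rfl).mono' (by gcongr) le_rfl ?_ ?_⟩
    · rw [hG, Real.rpow_sub hH0, div_le_iff₀ hP]
      calc H ^ (((n : ℝ) - 1) / 2)
          = 2 * (H ^ (((n : ℝ) - 1) / 2) / H ^ muL n) * (H ^ muL n / 2) := by field_simp
        _ ≤ _ := by gcongr
    · have e : n - 1 = d + 1 := by omega
      have e2 : (2 : ℝ) ^ n = 2 ^ (d + 1) * 2 := by rw [hn, pow_succ]
      rw [e, hG, mul_pow, ← mul_div_assoc, div_le_iff₀ hP]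
      calc 2 ^ (d + 1) * T ^ (d + 1) * H ^ (((n : ℝ) - 1) / 2)
          ≤ 2 ^ (d + 1) * (2 * A₁ * P₀) * H ^ (((n : ℝ) - 1) / 2) := by gcongr
        _ = 2 ^ n * A₁ * H ^ (((n : ℝ) - 1) / 2) * P₀ := by rw [e2]; ring
        _ ≤ _ := by gcongr
    · rw [hs]
      gcongr
      linarith
    · gcongr
      linarith

theorem WMtop_muL {n : ℕ} (hn : 5 ≤ n) : 0 < muL n := by
  have h : (5 : ℝ) ≤ n := by exact_mod_cast hn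
  unfold muL
  rw [sub_pos, lt_div_iff₀ (by linarith)]
  nlinarith

theorem ps_top (n d j g : ℕ) (hd : d = 2 * g + 3) (hn : n = d + 1 + j) (hj : j = 1 ∨ j = 2)
    (δ : ℝ) (hδ : 0 < δ) : ∃ A : ℝ, PS n fun H f => (Irr f ∧ Prim f ∧ ∃ (P : ℕ) (r : ℤ), P.Prime ∧
      H ^ muL n < P ∧ (P : ℝ) ≤ H ^ ((d : ℝ) + 1 - 1 / 25) ∧ Wk P r f) ∧ ¬ Exq n δ A H f := by
  have hd3 : 3 ≤ d := by omega
  have hn5 : 5 ≤ n := by omega
  obtain ⟨c', hc', hnum⟩ := hj.elim (fun h => num_one n d j hn h hd3 δ hδ)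
    (fun h => num_two n d j hn h hd3 δ hδ)
  have hε : 0 < c' / 4 := by positivity
  have hn0 : (0 : ℝ) < n := by exact_mod_cast (by omega : 0 < n)
  obtain ⟨c₁, hc₁, hc₁', K, hK, hty⟩ := ty_all n d j g hd hn hj hn5 _ hε
  obtain ⟨A₁, P₁, hA₁, hdat⟩ := exists_dat n d (by omega) (by omega)
  obtain ⟨K', H₀, hK', hnum⟩ := hnum c₁ (2 * A₁) K hc₁ hc₁' (by linarith) hK
  obtain ⟨C₁, hC₁, hdy₁⟩ := cnt_dyadic _ hε
  obtain ⟨C₂, hC₂, hdy₂⟩ := cnt_dyadic _ (div_pos hε hn0)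
  obtain ⟨H₁, hH₁, hP₁⟩ := exists_pow_ge P₁ _ (WMtop_muL hn5)
  have hpw : (0 : ℝ) ≤ 2 ^ n * A₁ := by positivity
  refine ⟨K + 2 ^ n * A₁ + 2, PS.of_lt ((n : ℝ) - 1 - c' / 4)
    (C₁ * A₁ ^ (c' / 4) * C₂ * (K * A₁ ^ (c' / 4) * K')) (max H₀ H₁) (by linarith) fun H hH => ?_⟩
  have hH0 : H₀ ≤ H := (le_max_left _ _).trans hH
  have hH1 : H₁ ≤ H := (le_max_right _ _).trans hH
  have h1 : 1 ≤ H := hH₁.trans hH1
  have hp : 0 < H := by linarith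
  have hZ : H ≤ A₁ * H := le_mul_of_one_le_left hp.le hA₁
  obtain ⟨R, hR⟩ : ∃ R : ℤ[X] → Prop, ∀ f, R f ↔ Box n H f ∧ (Irr f ∧ Prim f ∧
      ∃ (P : ℕ) (r : ℤ), P.Prime ∧ H ^ muL n < P ∧ (P : ℝ) ≤ H ^ ((d : ℝ) + 1 - 1 / 25) ∧
        Wk P r f) ∧ ¬ Exq n δ (K + 2 ^ n * A₁ + 2) H f := ⟨_, fun _ => Iff.rfl⟩
  have hex : ∀ f, R f → ∃ D : Dat, D.f = f ∧ Ok n d D ∧ D.v.supNorm ^ (d + 1) ≤ A₁ * D.P ∧
      H ^ muL n < D.P ∧ (D.P : ℝ) ≤ H ^ ((d : ℝ) + 1 - 1 / 25) := by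
    intro f hf
    obtain ⟨hb, ⟨hi, -, P, r, hP, hl, hu, hw⟩, -⟩ := (hR f).1 hf
    obtain ⟨D, e1, e2, e3, e4⟩ := hdat f P r hb.1 hb.2.1 hi hP
      (by exact_mod_cast (hP₁ H hH1).trans hl.le) hw
    exact ⟨D, e1, e3, e2 ▸ e4, e2 ▸ hl, e2 ▸ hu⟩
  have _ : Nonempty Dat := ⟨⟨0, 0, 0, 0⟩⟩
  choose! sec hsec using hex
  have hup : H ^ ((d : ℝ) + 1 - 1 / 25) ≤ H ^ (d + 1) := by
    rw [← Real.rpow_natCast]
    exact Real.rpow_le_rpow_of_exponent_le h1 (by push_cast; linarith)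
  have hB : 0 ≤ K * (A₁ * H) ^ (c' / 4) * (K' * H ^ ((n : ℝ) - 1 - c')) := by positivity
  have hQ := Cnt.prod (Q := fun (_ : ℕ) (b : ℕ) => (2 : ℝ) ^ b ≤ H ^ n) (hdy₁ _ (h1.trans hZ))
    (by positivity) fun _ _ => hdy₂ (H ^ n) (one_le_pow₀ h1)
  refine (Cnt.fibre (P := fun (y : ℕ × ℕ) (f : ℤ[X]) => R f ∧ (2 : ℝ) ^ y.1 ≤ (sec f).v.supNorm ∧
    (sec f).v.supNorm < 2 * 2 ^ y.1 ∧ (2 : ℝ) ^ y.2 ≤ (sec f).P ∧ ((sec f).P : ℝ) < 2 * 2 ^ y.2)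
    hQ hB ?_).mono (fun f hf => ?_) (le_of_eq ?_)
  · rintro ⟨a, b⟩ ⟨ha, -⟩
    refine Cnt.of_mem hB ?_
    rintro f₀ ⟨hf₀, i1, -, i3, i4⟩
    obtain ⟨-, -, j1, j2, j3⟩ := hsec f₀ hf₀
    have hT : (1 : ℝ) ≤ 2 ^ a := one_le_pow₀ one_le_two
    have hP : (1 : ℝ) ≤ 2 ^ b := one_le_pow₀ one_le_two
    have hP' : (0 : ℝ) < 2 ^ b := by positivity
    have k1 : ((2 : ℝ) ^ a) ^ (d + 1) ≤ 2 * A₁ * 2 ^ b :=
      calc ((2 : ℝ) ^ a) ^ (d + 1) ≤ (sec f₀).v.supNorm ^ (d + 1) := by gcongr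
        _ ≤ A₁ * (2 * 2 ^ b) := j1.trans (by gcongr)
        _ = _ := by ring
    have k2 : H ^ muL n / 2 ≤ 2 ^ b := by linarith
    obtain ⟨G, hG1, hG2, hG3⟩ : ∃ G : ℝ, 1 ≤ G ∧
        (j = 1 → H ^ (((n : ℝ) - 1) / 2) ≤ G * 2 ^ b) ∧
        (G = 1 ∨ (j = 1 ∧ 1 ≤ G ∧ G = H ^ (((n : ℝ) - 1) / 2) / 2 ^ b)) := by
      by_cases hj1 : j = 1
      · rcases le_total (H ^ (((n : ℝ) - 1) / 2) / 2 ^ b) 1 with h | h
        · exact ⟨1, le_rfl, fun _ => (div_le_iff₀ hP').1 h, Or.inl rfl⟩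
        · exact ⟨_, h, fun _ => (div_mul_cancel₀ _ hP'.ne').ge, Or.inr ⟨hj1, h, rfl⟩⟩
      · exact ⟨1, le_rfl, fun h => absurd h hj1, Or.inl rfl⟩
    obtain ⟨lam, l1, l2, l3, l4, l5⟩ := hnum H (2 ^ a) (2 ^ b) G hH0 hT k1 k2 (i3.trans j3) hG1 hG2
    have hom : 1 ≤ H ^ δ * G ^ 2 :=
      one_le_mul_of_one_le_of_one_le (Real.one_le_rpow h1 hδ.le) (one_le_pow₀ hG1)
    have hc := hty (A₁ * H) H (2 ^ a) (2 ^ b) lam (H ^ δ * G ^ 2)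
      (fun D => ∃ f, (R f ∧ (2 : ℝ) ^ a ≤ (sec f).v.supNorm ∧ (sec f).v.supNorm < 2 * 2 ^ a ∧
        (2 : ℝ) ^ b ≤ (sec f).P ∧ ((sec f).P : ℝ) < 2 * 2 ^ b) ∧ sec f = D)
      h1 hZ hT ha hP l1 l2 hom l3 l4 (by
        rintro _ ⟨f, ⟨hf, m1, m2, m3, -⟩, rfl⟩
        obtain ⟨e1, e2, -⟩ := hsec f hf
        obtain ⟨hb, ⟨hi, hpr, -⟩, hne⟩ := (hR f).1 hf
        refine ⟨e2, ?_, ?_, ?_, m1, m2.le, m3, ?_⟩ <;> rw [e1]
        · exact hi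
        · exact hpr.nq hb.1 (by rw [hb.2.1]; omega) hi
        · exact hb
        · exact fun h => hne (WMtop_exc hn hi h1 hT hK (by linarith) (by linarith) (by linarith)
            hP' k1 k2 hG3 h)) (by
        rintro _ _ ⟨f, hf, rfl⟩ ⟨f', hf', rfl⟩ e
        rw [(hsec f hf.1).1, (hsec f' hf'.1).1] at e
        rw [e])
    refine (hc.inj sec (fun f hf => ⟨f, hf, rfl⟩) fun f f' hf hf' e => ?_).mono (fun _ h => h) ?_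
    · rw [← (hsec f hf.1).1, ← (hsec f' hf'.1).1, e]
    · rw [mul_assoc]
      exact mul_le_mul_of_nonneg_left l5 (by positivity)
  · have hf' := (hR f).2 hf
    obtain ⟨-, e2, j1, -, j3⟩ := hsec f hf'
    have hv : 1 ≤ (sec f).v.supNorm := one_le_sup (leadingCoeff_ne_zero.1 e2.1.2.2.1.ne')
    have hP : (1 : ℝ) ≤ (sec f).P := by exact_mod_cast e2.2.2.2.1.one_le
    obtain ⟨a, a1, a2⟩ := exists_dyadic _ hv
    obtain ⟨b, b1, b2⟩ := exists_dyadic _ hP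
    refine ⟨(a, b), ⟨a1.trans ?_, b1.trans (j3.trans (hup.trans ?_))⟩, hf', a1, a2, b1, b2⟩
    · refine le_of_pow_le_pow_left₀ (Nat.succ_ne_zero d) (by positivity) (j1.trans ?_)
      rw [mul_pow]
      exact mul_le_mul (le_self_pow₀ hA₁ (Nat.succ_ne_zero d)) (j3.trans hup) (by positivity)
        (by positivity)
    · exact pow_le_pow_right₀ h1 (by omega)
  · have e1 : (H ^ n) ^ (c' / 4 / n) = H ^ (c' / 4) := by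
      rw [← Real.rpow_natCast, ← Real.rpow_mul hp.le, mul_div_cancel₀ _ hn0.ne']
    have e2 : H ^ ((n : ℝ) - 1 - c' / 4) =
        H ^ (c' / 4) * H ^ (c' / 4) * H ^ (c' / 4) * H ^ ((n : ℝ) - 1 - c') := by
      rw [← Real.rpow_add hp, ← Real.rpow_add hp, ← Real.rpow_add hp]
      congr 1
      ring
    rw [e1, e2, Real.mul_rpow (by linarith) hp.le]
    ring

end Pool.Agent.VW
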