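import Pool.Agent.P.MP_b0ea37_nt.WMD2
import Pool.Agent.P.MP_b0ea37_nt.WHt
import Pool.Agent.P.MP_b0ea37_nt.WCnt

namespace Pool.Agent.VW

open Polynomial

theorem WMtyA_eval (v : ℤ[X]) (z : ℂ) : (up ℂ v).eval z = aeval z v := by
  rw [aeval_def, eval_map, algebraMap_int_eq]

theorem WMtyA_res {n d : ℕ} {f v : ℤ[X]} {θ : Fin n → ℂ} (h : Roots (up ℂ f) θ)
    (hv : v.natDegree ≤ d) : |((resultant v f d n : ℤ) : ℝ)| = ∏ i, ‖aeval (θ i) v‖ := by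
  have h1 : ((resultant v f d n : ℤ) : ℂ) = resultant (up ℂ v) (up ℂ f) d n := by
    rw [resultant_map_map]; simp
  have h2 := resultant_roots (1 : ℂ) one_ne_zero θ (up ℂ v) d (natDegree_map_le.trans hv)
  rw [C_1, one_mul, one_pow, one_mul, ← h] at h2
  rw [resultant_comm (up ℂ v), h2] at h1
  have h3 := congrArg (fun z : ℂ => ‖z‖) h1
  simp only [Complex.norm_intCast, norm_mul, norm_pow, norm_neg, norm_one, one_pow, one_mul,
    norm_prod, WMtyA_eval] at h3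
  exact h3

theorem WMtyA_single {n : ℕ} (x : Fin n → ℝ) (hx : ∀ i, 1 ≤ x i) (i : Fin n) :
    x i ≤ ∏ k, x k := by
  classical
  rw [← Finset.mul_prod_erase Finset.univ x (Finset.mem_univ i)]
  exact le_mul_of_one_le_right (zero_le_one.trans (hx i))
    (Finset.prod_induction _ (fun y : ℝ => 1 ≤ y)
      (fun _ _ => one_le_mul_of_one_le_of_one_le) le_rfl fun k _ => hx k)

theorem WMtyA_conj (v : ℤ[X]) (z : ℂ) : ‖aeval (starRingEnd ℂ z) v‖ = ‖aeval z v‖ := by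
  have : aeval (starRingEnd ℂ z) v = starRingEnd ℂ (aeval z v) :=
    aeval_algHom_apply (starRingEnd ℂ).toIntAlgHom z v
  rw [this, RCLike.norm_conj]

theorem ty_exists (n d : ℕ) (hdn : d < n) : ∃ (K : ℝ) (A : ℕ), 1 ≤ K ∧ 1 ≤ A ∧
    ∀ (Z T : ℝ) (f v : ℤ[X]), 1 ≤ T → T ≤ Z → f.Monic → f.natDegree = n → Irr f →
      f.supNorm ≤ Z → v.natDegree = d → T ≤ v.supNorm → v.supNorm ≤ 2 * T →
      ∃ (s : Equiv.Perm (Fin n)) (a b : Fin n → ℕ) (θ : Fin n → ℂ),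
        (∀ i, s (s i) = i ∧ a (s i) = a i ∧ b (s i) = b i ∧ (2 : ℝ) ^ a i ≤ K * Z ^ A ∧
          (2 : ℝ) ^ b i ≤ K * Z ^ A) ∧ Ty d T s a b f v θ := by
  obtain ⟨c, hc⟩ : ∃ c : ℝ, c = (d + 1) * 2 ^ (d + 1) := ⟨_, rfl⟩
  have hc2 : 2 ≤ c := by
    rw [hc, pow_succ]
    have h1 : (1 : ℝ) ≤ 2 ^ d := one_le_pow₀ one_le_two
    have h2 : (0 : ℝ) ≤ d := Nat.cast_nonneg d
    nlinarith
  have hn1 : (1 : ℝ) ≤ n + 1 := by have : (0 : ℝ) ≤ n := Nat.cast_nonneg n; linarith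
  have hK1 : 1 ≤ c ^ n * ((n : ℝ) + 1) ^ d :=
    one_le_mul_of_one_le_of_one_le (one_le_pow₀ (by linarith)) (one_le_pow₀ hn1)
  refine ⟨c ^ n * (n + 1) ^ d * (n + 1), n + d, one_le_mul_of_one_le_of_one_le hK1 hn1,
    by omega, ?_⟩
  intro Z T f v hT hTZ hm hn hirr hf hv hv1 hv2
  have hZ : 1 ≤ Z := hT.trans hTZ
  obtain ⟨θ, hθ⟩ := exists_roots (up ℂ f) (hm.map _) (by rw [hm.natDegree_map, hn])
  have hinj := hθ.injective hirr
  obtain ⟨s, hs1, hs2⟩ := exists_conj θ hinj (by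
    rw [← hθ, up, map_map,
      Subsingleton.elim ((starRingEnd ℂ).comp (Int.castRingHom ℂ)) (Int.castRingHom ℂ)])
  have hdy : ∀ x : ℝ, ∃ k : ℕ, 1 ≤ x → (2 : ℝ) ^ k ≤ x ∧ x < 2 * 2 ^ k := by
    intro x
    by_cases hx : 1 ≤ x
    · obtain ⟨k, hk⟩ := exists_dyadic x hx
      exact ⟨k, fun _ => hk⟩
    · exact ⟨0, fun h => absurd h hx⟩
  choose dy hdy using hdy
  obtain ⟨a, ha⟩ : ∃ a : Fin n → ℕ, ∀ i, a i = dy (max 1 ‖θ i‖) := ⟨_, fun _ => rfl⟩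
  have ha1 : ∀ i, (2 : ℝ) ^ a i ≤ max 1 ‖θ i‖ := fun i => ha i ▸ (hdy _ (le_max_left _ _)).1
  have ha2 : ∀ i, max 1 ‖θ i‖ < 2 * 2 ^ a i := fun i => ha i ▸ (hdy _ (le_max_left _ _)).2
  have has : ∀ i, a (s i) = a i := fun i => by rw [ha, ha, hs2, RCLike.norm_conj]
  have hv0 : v ≠ 0 := by
    rintro rfl
    rw [supNorm_zero] at hv1
    linarith
  have hres : 1 ≤ ∏ i, ‖aeval (θ i) v‖ := by
    rw [← WMtyA_res hθ hv.le]
    have h0 := hirr.resultant_ne_zero hv0 (by omega)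
    rw [hv, hn] at h0
    exact_mod_cast Int.one_le_abs h0
  have hpos : ∀ i, 0 < ‖aeval (θ i) v‖ := by
    intro i
    rcases (norm_nonneg (aeval (θ i) v)).lt_or_eq with h | h
    · exact h
    · rw [Finset.prod_eq_zero (Finset.mem_univ i) h.symm] at hres
      linarith
  obtain ⟨x, hx⟩ : ∃ x : Fin n → ℝ, ∀ i, x i = c * (T * (2 ^ a i) ^ d) / ‖aeval (θ i) v‖ :=
    ⟨_, fun _ => rfl⟩
  have hx1 : ∀ i, 1 ≤ x i := by
    intro i
    rw [hx, le_div_iff₀ (hpos i), one_mul, ← WMtyA_eval]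
    refine (norm_eval_le _ (natDegree_map_le.trans hv.le) _).trans ?_
    rw [sup_up_complex]
    have h1 : (max 1 ‖θ i‖) ^ d ≤ (2 * 2 ^ a i) ^ d :=
      pow_le_pow_left₀ (by positivity) (ha2 i).le d
    calc ((d : ℝ) + 1) * v.supNorm * (max 1 ‖θ i‖) ^ d
        ≤ (d + 1) * (2 * T) * (2 * 2 ^ a i) ^ d := by gcongr
      _ = c * (T * (2 ^ a i) ^ d) := by rw [hc, mul_pow]; ring
  have hxs : ∀ i, x (s i) = x i := fun i => by rw [hx, hx, has, hs2, WMtyA_conj]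
  have hpa : ∏ i, (2 : ℝ) ^ a i ≤ (n + 1) * Z := by
    refine (Finset.prod_le_prod (fun i _ => by positivity) fun i _ => ha1 i).trans ?_
    exact hθ.prod_max_le.trans (by gcongr)
  have hpx : ∏ i, x i ≤ c ^ n * (n + 1) ^ d * Z ^ (n + d) := by
    simp only [hx]
    rw [Finset.prod_div_distrib, Finset.prod_mul_distrib, Finset.prod_mul_distrib,
      Finset.prod_pow, Finset.prod_const, Finset.prod_const, Finset.card_univ, Fintype.card_fin]
    have hc0 : 0 ≤ c := by linarith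
    have hT0 : 0 ≤ T := by linarith
    refine (div_le_self (by positivity) hres).trans ?_
    calc c ^ n * (T ^ n * (∏ i, (2 : ℝ) ^ a i) ^ d) ≤ c ^ n * (Z ^ n * ((n + 1) * Z) ^ d) := by
          gcongr
      _ = c ^ n * (n + 1) ^ d * Z ^ (n + d) := by rw [mul_pow, pow_add]; ring
  have hZA : Z ≤ Z ^ (n + d) := le_self_pow₀ hZ (by omega)
  refine ⟨s, a, fun i => dy (x i), θ, fun i => ⟨hs1 i, has i, congrArg dy (hxs i), ?_, ?_⟩, hθ,
    fun i => ⟨hs2 i, ha1 i, (le_max_right _ _).trans (ha2 i).le, ?_, ?_⟩⟩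
  · have h1 := WMtyA_single (fun i => (2 : ℝ) ^ a i) (fun i => one_le_pow₀ one_le_two) i
    refine h1.trans (hpa.trans ?_)
    calc ((n : ℝ) + 1) * Z ≤ (n + 1) * Z ^ (n + d) := by gcongr
      _ = 1 * (n + 1) * Z ^ (n + d) := by ring
      _ ≤ _ := by gcongr
  · refine (hdy _ (hx1 i)).1.trans ((WMtyA_single x hx1 i).trans (hpx.trans ?_))
    have h0 : 0 ≤ c ^ n * ((n : ℝ) + 1) ^ d := by linarith
    exact mul_le_mul_of_nonneg_right (le_mul_of_one_le_right h0 hn1) (by positivity)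
  · have h1 := (hdy _ (hx1 i)).2
    beta_reduce
    generalize dy (x i) = k at h1 ⊢
    rw [hx, div_lt_iff₀ (hpos i)] at h1
    rw [div_le_iff₀ (by positivity)]
    have h2 : 0 ≤ T * ((2 : ℝ) ^ a i) ^ d := by positivity
    nlinarith
  · have h1 := (hdy _ (hx1 i)).1
    beta_reduce
    generalize dy (x i) = k at h1 ⊢
    rw [hx, le_div_iff₀ (hpos i)] at h1
    rw [← hc, ← mul_div_assoc, le_div_iff₀ (by positivity)]
    linarith

theorem Ty.prod_le {n d : ℕ} {T H : ℝ} {s : Equiv.Perm (Fin n)} {a b : Fin n → ℕ} {f v : ℤ[X]}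
    {θ : Fin n → ℂ} (h : Ty d T s a b f v θ) (hf : f.supNorm ≤ H) :
    ∏ i, (2 : ℝ) ^ a i ≤ (n + 1) * H := by
  refine (Finset.prod_le_prod (fun i _ => by positivity) fun i _ => (h.2 i).2.1).trans ?_
  exact h.1.prod_max_le.trans (by gcongr)

theorem Ty.res_le {n d : ℕ} {T H : ℝ} {s : Equiv.Perm (Fin n)} {a b : Fin n → ℕ} {f v : ℤ[X]}
    {θ : Fin n → ℂ} (h : Ty d T s a b f v θ) (hT : 0 ≤ T) (hv : v.natDegree ≤ d)
    (hf : f.supNorm ≤ H) : |((resultant v f d n : ℤ) : ℝ)| ≤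
      ((d + 1) * 2 ^ (d + 1)) ^ n * T ^ n * ((n + 1) * H) ^ d / ∏ i, (2 : ℝ) ^ b i := by
  rw [WMtyA_res h.1 hv]
  refine (Finset.prod_le_prod (fun i _ => norm_nonneg _) fun i _ => (h.2 i).2.2.2.2).trans ?_
  generalize hc : ((d : ℝ) + 1) * 2 ^ (d + 1) = c
  have hc0 : 0 ≤ c := by rw [← hc]; positivity
  rw [Finset.prod_mul_distrib, Finset.prod_div_distrib, Finset.prod_mul_distrib,
    Finset.prod_pow, Finset.prod_const, Finset.prod_const, Finset.card_univ, Fintype.card_fin,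
    ← mul_div_assoc, ← mul_assoc]
  have h1 := h.prod_le hf
  gcongr

end Pool.Agent.VW
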