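import Pool.Agent.P.MP_b0ea37_nt.WMcell
import Pool.Agent.P.MP_b0ea37_nt.WMtyA
import Pool.Agent.P.MP_b0ea37_nt.WMarch
import Pool.Agent.P.MP_b0ea37_nt.WPack

namespace Pool.Agent.VW

open Polynomial

theorem wmtyB_cells {n : ℕ} (a b : Fin n → ℕ) {lam : ℝ} (h0 : 0 < lam) (h1 : lam ≤ 1) :
    ∏ i, (3 + 8 * (2 * (2 : ℝ) ^ a i) / (lam * 2 ^ a i / 2 ^ b i)) ≤
      19 ^ n / lam ^ n * ∏ i, (2 : ℝ) ^ b i := by
  have e : (19 : ℝ) ^ n / lam ^ n * ∏ i, (2 : ℝ) ^ b i = ∏ i, (19 / lam * 2 ^ b i) := by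
    rw [Finset.prod_mul_distrib, Finset.prod_const, Finset.card_univ, Fintype.card_fin, div_pow]
  rw [e]
  refine Finset.prod_le_prod (fun i _ => by positivity) fun i _ => ?_
  have e2 : 8 * (2 * (2 : ℝ) ^ a i) / (lam * 2 ^ a i / 2 ^ b i) = 16 * (2 ^ b i / lam) := by
    field_simp; norm_num
  have h2 : (1 : ℝ) ≤ 2 ^ b i := one_le_pow₀ one_le_two
  have h3 : (1 : ℝ) ≤ 2 ^ b i / lam := by rw [le_div_iff₀ h0]; linarith
  have e3 : 19 / lam * (2 : ℝ) ^ b i = 19 * (2 ^ b i / lam) := by ring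
  rw [e2, e3]
  linarith

theorem wmtyB_close {n d : ℕ} {T H lam : ℝ} {s : Equiv.Perm (Fin n)} {a b : Fin n → ℕ}
    {f v f' v' : ℤ[X]} {θ θ' : Fin n → ℂ} (h : Ty d T s a b f v θ) (h' : Ty d T s a b f' v' θ')
    (h0 : 0 < lam) (h1 : lam ≤ 1) (hf : f.supNorm ≤ H)
    (hc : ∀ i, ‖θ i - θ' i‖ ≤ lam * 2 ^ a i / 2 ^ b i) :
    (f - f').supNorm ≤ n * 4 ^ n * (n + 1) * lam * H := by
  have e : up ℂ (f - f') = ∏ i, (X - C (θ i)) - ∏ i, (X - C (θ' i)) := by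
    rw [up, Polynomial.map_sub]
    exact congrArg₂ (· - ·) h.1 h'.1
  have h2 := sup_prod_sub_prod θ θ' lam h0.le h1 fun i => (hc i).trans (by
    have h3 : (1 : ℝ) ≤ 2 ^ b i := one_le_pow₀ one_le_two
    have h4 := (h.2 i).2.1
    calc lam * 2 ^ a i / 2 ^ b i ≤ lam * 2 ^ a i := div_le_self (by positivity) h3
      _ ≤ _ := by gcongr)
  have h3 := h.1.prod_max_le
  rw [← sup_up_complex, e]
  calc _ ≤ _ := h2
    _ ≤ n * 4 ^ n * lam * ((n + 1) * H) := by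
        refine mul_le_mul_of_nonneg_left (h3.trans ?_) (by positivity)
        gcongr
    _ = _ := by ring

/-- one type -/
theorem ty_fix (n d j g : ℕ) (hd : d = 2 * g + 3) (hn : n = d + 1 + j) (hj : j = 1 ∨ j = 2)
    (hn5 : 5 ≤ n) (ε : ℝ) (hε : 0 < ε) : ∃ c₁ : ℝ, 0 < c₁ ∧ c₁ ≤ 1 ∧ ∃ K : ℝ, 1 ≤ K ∧
    ∀ (Z H T P₀ lam om : ℝ) (s : Equiv.Perm (Fin n)) (a b : Fin n → ℕ) (Q : Dat → Prop),
      1 ≤ H → H ≤ Z → 1 ≤ T → T ≤ Z → 1 ≤ P₀ → 0 < lam → lam ≤ c₁ → 1 ≤ om →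
      lam ^ 2 * H / T ^ 2 ≤ c₁ ^ 2 → K * (lam * H / T) ^ n * H ^ j < P₀ ^ 2 →
      (∀ i, s (s i) = i ∧ a (s i) = a i ∧ b (s i) = b i) →
      (∀ D, Q D → Fam n d j K H T P₀ om D ∧ ∃ θ, Ty d T s a b D.f D.v θ) →
      (∀ D D', Q D → Q D' → D.f = D'.f → D = D') →
      Cnt Q (K * Z ^ ε * (T ^ (n + d + 1) * H ^ d / (lam ^ n * P₀ ^ 2)) *
        mu j H (lam * H / T) om) := by
  have hnd : (0 : ℝ) < (n + d : ℕ) := by exact_mod_cast (by omega : 0 < n + d)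
  obtain ⟨ca, hca, Ka, hKa, harch⟩ := arch n d (by omega) (by omega) (by omega)
  obtain ⟨cc, hcc, Kc, hKc, hcell⟩ := cell_cnt n d j g hd hn hj hn5 (ε / (n + d : ℕ))
    (div_pos hε hnd)
  obtain ⟨C₁, hC₁⟩ : ∃ C₁ : ℝ, C₁ = ((d + 1) * 2 ^ (d + 1)) ^ n * (n + 1) ^ d := ⟨_, rfl⟩
  obtain ⟨K₁, hK₁⟩ : ∃ K₁ : ℝ, K₁ = n * 4 ^ n := ⟨_, rfl⟩
  obtain ⟨K₂, hK₂⟩ : ∃ K₂ : ℝ, K₂ = K₁ * (n + 1) * Ka := ⟨_, rfl⟩
  obtain ⟨c, hc⟩ : ∃ c : ℝ, c = min ca (min 1 cc) := ⟨_, rfl⟩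
  have hn1 : (1 : ℝ) ≤ n := by exact_mod_cast (by omega : 1 ≤ n)
  have hd0 : (0 : ℝ) ≤ d := by positivity
  have hC1 : 1 ≤ C₁ := by
    rw [hC₁]
    exact one_le_mul_of_one_le_of_one_le (one_le_pow₀ (one_le_mul_of_one_le_of_one_le
      (by linarith) (one_le_pow₀ one_le_two))) (one_le_pow₀ (by linarith))
  have hK1 : 1 ≤ K₁ := by
    rw [hK₁]; exact one_le_mul_of_one_le_of_one_le hn1 (one_le_pow₀ (by norm_num))
  have hKa' : K₁ * (n + 1) ≤ K₂ := by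
    rw [hK₂]; exact le_mul_of_one_le_right (by positivity) hKa
  have hKb' : (n + 1) * Ka ≤ K₂ := by
    rw [hK₂, mul_assoc]; exact le_mul_of_one_le_left (by positivity) hK1
  have hK2 : 1 ≤ K₂ := (one_le_mul_of_one_le_of_one_le hK1 (by linarith)).trans hKa'
  have hc0 : 0 < c := by rw [hc]; exact lt_min hca (lt_min one_pos hcc)
  have hca' : c ≤ ca := by rw [hc]; exact min_le_left _ _
  have hc1 : c ≤ 1 := by rw [hc]; exact (min_le_right _ _).trans (min_le_left _ _)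
  have hcc' : c ≤ cc := by rw [hc]; exact (min_le_right _ _).trans (min_le_right _ _)
  have hcK : c / K₂ ≤ c := div_le_self hc0.le hK2
  have hCe : 1 ≤ C₁ ^ (ε / (n + d : ℕ)) := Real.one_le_rpow hC1 (div_pos hε hnd).le
  obtain ⟨K₃, hK₃⟩ : ∃ K₃ : ℝ, K₃ = 19 ^ n * C₁ ^ (ε / (n + d : ℕ)) * C₁ * K₂ ^ 4 := ⟨_, rfl⟩
  have hK3 : 1 ≤ K₃ := by
    rw [hK₃]
    exact one_le_mul_of_one_le_of_one_le (one_le_mul_of_one_le_of_one_le
      (one_le_mul_of_one_le_of_one_le (one_le_pow₀ (by norm_num)) hCe) hC1) (one_le_pow₀ hK2)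
  have hKn : 1 ≤ K₂ ^ n := one_le_pow₀ hK2
  have hKK : Kc * K₂ ^ n ≤ K₃ * (Kc * K₂ ^ n) := le_mul_of_one_le_left (by positivity) hK3
  have hKc' : Kc ≤ Kc * K₂ ^ n := le_mul_of_one_le_right (by positivity) hKn
  refine ⟨c / K₂, by positivity, hcK.trans hc1, K₃ * (Kc * K₂ ^ n), hKc.trans (hKc'.trans hKK), ?_⟩
  intro Z H T P₀ lam om s a b Q hH hHZ hT hTZ hP hlam hlc hom hsm hK hs hQ hinj
  have hZ : 1 ≤ Z := hH.trans hHZ
  have hl1 : lam ≤ 1 := hlc.trans (hcK.trans hc1)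
  have hmu : 1 ≤ mu j H (lam * H / T) om := one_le_mu j (by positivity) (by positivity)
  refine Cnt.of_mem (by positivity) fun D₀ hD₀ => ?_
  have hθ : ∀ D : Dat, ∃ θ : Fin n → ℂ, Q D → Ty d T s a b D.f D.v θ := fun D => by
    by_cases hD : Q D
    · exact (hQ D hD).2.imp fun θ h _ => h
    · exact ⟨0, fun h => absurd h hD⟩
  choose θ hθ using hθ
  obtain ⟨Pb, hPb⟩ : ∃ Pb : ℝ, Pb = ∏ i, (2 : ℝ) ^ b i := ⟨_, rfl⟩
  have hPb1 : 1 ≤ Pb := by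
    rw [hPb, Finset.prod_pow_eq_pow_sum]; exact one_le_pow₀ one_le_two
  obtain ⟨B, hB⟩ : ∃ B : ℝ, B = C₁ * (T ^ n * H ^ d) / (Pb * P₀ ^ 2) := ⟨_, rfl⟩
  have hres : ∀ D, Q D → |((resultant D.v D.f d n : ℤ) : ℝ)| ≤ B * P₀ ^ 2 := fun D hD => by
    obtain ⟨h1, -, -, h4, -⟩ := (hQ D hD).1
    refine ((hθ D hD).res_le (by positivity) h1.1.1.le h4.2.2.2).trans (le_of_eq ?_)
    rw [← hPb, hB, hC₁, mul_pow ((n : ℝ) + 1)]
    field_simp
  have hB1 : 1 ≤ B := by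
    obtain ⟨h1, -, -, -, -, -, h7, -⟩ := (hQ D₀ hD₀).1
    obtain ⟨b₀, hb0, hb⟩ := h1.exists_b (by omega)
    have h2 := hres D₀ hD₀
    rw [hb] at h2
    push_cast at h2
    rw [abs_mul, abs_of_nonneg (by positivity)] at h2
    have h3 : (1 : ℝ) ≤ |(b₀ : ℝ)| := by exact_mod_cast Int.one_le_abs hb0
    have h4 : P₀ ^ 2 ≤ (D₀.P : ℝ) ^ 2 := by gcongr
    have h5 : 1 * P₀ ^ 2 ≤ B * P₀ ^ 2 := by nlinarith [sq_nonneg (D₀.P : ℝ)]
    exact le_of_mul_le_mul_right h5 (by positivity)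
  have hZn : Z ≤ Z ^ (n + d) := le_self_pow₀ hZ (by omega)
  have hZC : Z ^ (n + d) ≤ C₁ * Z ^ (n + d) := le_mul_of_one_le_left (by positivity) hC1
  have hBZ : B ≤ C₁ * Z ^ (n + d) := by
    rw [hB, pow_add]
    refine (div_le_self (by positivity)
      (one_le_mul_of_one_le_of_one_le hPb1 (one_le_pow₀ hP))).trans ?_
    gcongr
  have hlK : K₂ * lam ≤ c := by rwa [le_div_iff₀' (by positivity)] at hlc
  have e1 : K₂ * lam * H / T = K₂ * (lam * H / T) := by ring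
  obtain ⟨cell, Qc, hQc, hin, hnear⟩ := grid s (fun i => (hs i).1) (fun i => 2 * (2 : ℝ) ^ a i)
    (fun i => lam * 2 ^ a i / 2 ^ b i) (fun i => by positivity) (fun i => by positivity)
    (fun i => by rw [(hs i).2.1, (hs i).2.2])
  have hone : ∀ y, Qc y → Cnt (fun D => Q D ∧ cell (θ D) = y)
      (Kc * (C₁ * Z ^ (n + d)) ^ (ε / (n + d : ℕ)) * (T ^ (d + 1) * B) *
        mu j H (K₂ * lam * H / T) om) := fun y _ => by
    refine hcell _ H T P₀ B (K₂ * lam) om _ hH hT (hTZ.trans (hZn.trans hZC)) hB1 hBZ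
      (by positivity) (hlK.trans hc1) hom ?_ (by positivity) ?_ (fun D hD => ⟨?_, ?_⟩) ?_
    · have h1 : K₂ ^ 2 * (lam ^ 2 * H / T ^ 2) ≤ K₂ ^ 2 * (c / K₂) ^ 2 := by gcongr
      have h2 : K₂ ^ 2 * (c / K₂) ^ 2 = c * c := by field_simp
      have h3 : (K₂ * lam) ^ 2 * H / T ^ 2 = K₂ ^ 2 * (lam ^ 2 * H / T ^ 2) := by ring
      rw [h3]
      nlinarith
    · refine lt_of_le_of_lt ?_ hK
      rw [e1, mul_pow, ← mul_assoc]
      gcongr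
    · exact (hQ D hD.1).1.mono (hKc'.trans hKK) (by positivity) (by positivity) (by positivity)
    · obtain ⟨-, -, -, -, -, -, h7, -⟩ := (hQ D hD.1).1
      refine (hres D hD.1).trans ?_
      gcongr
    · intro D D' hD hD'
      obtain ⟨h1, -, -, h4, h5, h6, -⟩ := (hQ D hD.1).1
      have t1 := hθ D hD.1
      have t2 := hθ D' hD'.1
      have hcl := hnear (θ D) (θ D') (fun i => (t1.2 i).1) (fun i => (t2.2 i).1)
        (hD.2.trans hD'.2.symm)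
      refine ⟨hinj D D' hD.1 hD'.1, (wmtyB_close t1 t2 hlam hl1 h4.2.2.2 hcl).trans ?_, fun _ => ?_⟩
      · rw [← hK₁]; gcongr
      · obtain ⟨k1, k2⟩ := harch D.v D.f D'.f (θ D) (θ D') (fun i => 2 ^ a i)
          (fun i => 1 / 2 ^ b i) T lam h1.1.1 (by positivity) h5 h6 t1.1 t2.1
          (fun i => ⟨one_le_pow₀ one_le_two, (t1.2 i).2.2.1, by positivity,
            (div_le_one (by positivity)).2 (one_le_pow₀ one_le_two),
            le_trans (le_of_eq (by ring)) (t1.2 i).2.2.2.1,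
            (hcl i).trans (le_of_eq (by ring))⟩) hlam.le (hlc.trans (hcK.trans hca'))
        have k3 : Ka * lam ^ 2 * ∏ i, (2 : ℝ) ^ a i ≤ (K₂ * lam) ^ 2 * H := by
          have k4 := t1.prod_le h4.2.2.2
          have k5 : K₂ ≤ K₂ ^ 2 := le_self_pow₀ hK2 two_ne_zero
          calc Ka * lam ^ 2 * ∏ i, (2 : ℝ) ^ a i ≤ Ka * lam ^ 2 * ((n + 1) * H) := by gcongr
            _ = (n + 1) * Ka * (lam ^ 2 * H) := by ring
            _ ≤ K₂ ^ 2 * (lam ^ 2 * H) := by gcongr; exact hKb'.trans k5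
            _ = _ := by ring
        exact ⟨k1, k2.mono (by gcongr) k3⟩
  have hmu2 : mu j H (K₂ * lam * H / T) om ≤ K₂ ^ 4 * mu j H (lam * H / T) om := by
    rw [e1]; exact mu_mul_le (by omega) (by positivity) (by positivity) hK2
  have hmu3 : 1 ≤ mu j H (K₂ * lam * H / T) om := one_le_mu j (by positivity) (by positivity)
  refine (Cnt.fibre hQc (by positivity) hone).mono
    (fun D hD => ⟨_, hin (θ D) fun i => ((hθ D hD).2 i).2.2.1, hD, rfl⟩) ?_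
  have e2 : (C₁ * Z ^ (n + d)) ^ (ε / (n + d : ℕ)) = C₁ ^ (ε / (n + d : ℕ)) * Z ^ ε := by
    rw [Real.mul_rpow (by positivity) (by positivity), ← Real.rpow_natCast Z,
      ← Real.rpow_mul (by positivity), mul_div_cancel₀ _ hnd.ne']
  have h9 := wmtyB_cells a b hlam hl1
  rw [← hPb] at h9
  rw [e2]
  calc _ ≤ 19 ^ n / lam ^ n * Pb * (Kc * (C₁ ^ (ε / (n + d : ℕ)) * Z ^ ε) * (T ^ (d + 1) * B) *
        (K₂ ^ 4 * mu j H (lam * H / T) om)) := by gcongr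
    _ = K₃ * Kc * Z ^ ε * (T ^ (n + d + 1) * H ^ d / (lam ^ n * P₀ ^ 2)) *
        mu j H (lam * H / T) om := by
        rw [hK₃, hB]
        field_simp
        ring
    _ ≤ _ := by gcongr

end Pool.Agent.VW
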