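import Pool.Agent.P.MP_b0ea37_nt.WMtyB

namespace Pool.Agent.VW

open Polynomial

/-- number of exponent vectors -/
theorem WMtyC_vec (n A : ℕ) (hn : 1 ≤ n) (hA : 1 ≤ A) (K : ℝ) (hK : 1 ≤ K) (ε : ℝ) (hε : 0 < ε) :
    ∃ C : ℝ, 1 ≤ C ∧ ∀ Z : ℝ, 1 ≤ Z →
      Cnt (fun a : Fin n → ℕ => ∀ i, (2 : ℝ) ^ a i ≤ K * Z ^ A) (C * Z ^ ε) := by
  have hn' : (0 : ℝ) < n := by exact_mod_cast hn
  have hA' : (0 : ℝ) < A := by exact_mod_cast hA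
  obtain ⟨C, hC, h⟩ := cnt_dyadic (ε / (n * A)) (by positivity)
  have hK1 : 1 ≤ K ^ (ε / (n * A)) := Real.one_le_rpow hK (by positivity)
  refine ⟨(C * K ^ (ε / (n * A))) ^ n, one_le_pow₀ (one_le_mul_of_one_le_of_one_le hC hK1),
    fun Z hZ => ?_⟩
  have hZ0 : 0 ≤ Z := by linarith
  have hZA : 1 ≤ K * Z ^ A := one_le_mul_of_one_le_of_one_le hK (one_le_pow₀ hZ)
  have h1 := Cnt.pi (ι := Fin n) (P := fun _ (k : ℕ) => (2 : ℝ) ^ k ≤ K * Z ^ A)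
    (B := fun _ => C * (K * Z ^ A) ^ (ε / (n * A))) fun _ => h _ hZA
  refine h1.mono (fun _ ha => ha) (le_of_eq ?_)
  rw [Finset.prod_const, Finset.card_univ, Fintype.card_fin,
    Real.mul_rpow (by linarith) (by positivity), ← mul_assoc, mul_pow]
  congr 1
  rw [← Real.rpow_natCast Z A, ← Real.rpow_mul hZ0, ← Real.rpow_natCast, ← Real.rpow_mul hZ0]
  congr 1
  field_simp

/-- all types of roots -/
theorem ty_all (n d j g : ℕ) (hd : d = 2 * g + 3) (hn : n = d + 1 + j) (hj : j = 1 ∨ j = 2)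
    (hn5 : 5 ≤ n) (ε : ℝ) (hε : 0 < ε) : ∃ c₁ : ℝ, 0 < c₁ ∧ c₁ ≤ 1 ∧ ∃ K : ℝ, 1 ≤ K ∧
    ∀ (Z H T P₀ lam om : ℝ) (Q : Dat → Prop),
      1 ≤ H → H ≤ Z → 1 ≤ T → T ≤ Z → 1 ≤ P₀ → 0 < lam → lam ≤ c₁ → 1 ≤ om →
      lam ^ 2 * H / T ^ 2 ≤ c₁ ^ 2 → K * (lam * H / T) ^ n * H ^ j < P₀ ^ 2 →
      (∀ D, Q D → Fam n d j K H T P₀ om D) → (∀ D D', Q D → Q D' → D.f = D'.f → D = D') →
      Cnt Q (K * Z ^ ε * (T ^ (n + d + 1) * H ^ d / (lam ^ n * P₀ ^ 2)) *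
        mu j H (lam * H / T) om) := by
  obtain ⟨K₁, A, hK₁, hA, hex⟩ := ty_exists n d (by omega)
  obtain ⟨c₁, hc0, hc1, K₂, hK₂, hfix⟩ := ty_fix n d j g hd hn hj hn5 (ε / 2) (by positivity)
  obtain ⟨C, hC, hvec⟩ := WMtyC_vec n A (by omega) hA K₁ hK₁ (ε / 4) (by positivity)
  obtain ⟨N, hN⟩ : ∃ N : ℝ, N = Fintype.card (Equiv.Perm (Fin n)) := ⟨_, rfl⟩
  have hN1 : 1 ≤ N := by
    rw [hN]
    exact_mod_cast Fintype.card_pos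
  have hM : 1 ≤ N * C * C :=
    one_le_mul_of_one_le_of_one_le (one_le_mul_of_one_le_of_one_le hN1 hC) hC
  have hKK : K₂ ≤ N * C * C * K₂ := le_mul_of_one_le_left (by linarith) hM
  refine ⟨c₁, hc0, hc1, N * C * C * K₂, hK₂.trans hKK, ?_⟩
  intro Z H T P₀ lam om Q hH hHZ hT hTZ hP hl hlc hom h1 h2 hQ hinj
  have hZ : 1 ≤ Z := hH.trans hHZ
  have hZ0 : 0 < Z := by linarith
  have hH0 : 0 < H := by linarith
  have hT0 : 0 < T := by linarith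
  have hP0 : 0 < P₀ := by linarith
  have hC0 : 0 < C := by linarith
  have hmu : 0 ≤ mu j H (lam * H / T) om :=
    zero_le_one.trans (one_le_mu j hH0.le (by positivity))
  have h2' : K₂ * (lam * H / T) ^ n * H ^ j < P₀ ^ 2 := by
    refine lt_of_le_of_lt ?_ h2
    gcongr
  have hs : Cnt (fun s : Equiv.Perm (Fin n) => True) N := hN ▸ Cnt.fintype _
  have hab := Cnt.prod (Q := fun (_ : Fin n → ℕ) (b : Fin n → ℕ) =>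
    ∀ i, (2 : ℝ) ^ b i ≤ K₁ * Z ^ A) (hvec Z hZ) (by positivity) fun _ _ => hvec Z hZ
  have hty := Cnt.prod (Q := fun (_ : Equiv.Perm (Fin n)) (z : (Fin n → ℕ) × (Fin n → ℕ)) =>
    (∀ i, (2 : ℝ) ^ z.1 i ≤ K₁ * Z ^ A) ∧ ∀ i, (2 : ℝ) ^ z.2 i ≤ K₁ * Z ^ A) hs
    (by positivity) fun _ _ => hab
  have hty' : Cnt (fun y : Equiv.Perm (Fin n) × (Fin n → ℕ) × (Fin n → ℕ) =>
      ((∀ i, (2 : ℝ) ^ y.2.1 i ≤ K₁ * Z ^ A) ∧ ∀ i, (2 : ℝ) ^ y.2.2 i ≤ K₁ * Z ^ A) ∧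
        ∀ i, y.1 (y.1 i) = i ∧ y.2.1 (y.1 i) = y.2.1 i ∧ y.2.2 (y.1 i) = y.2.2 i)
      (N * (C * Z ^ (ε / 4) * (C * Z ^ (ε / 4)))) :=
    hty.mono (fun y hy => ⟨trivial, hy.1⟩) le_rfl
  have hall := Cnt.fibre (P := fun y (D : Dat) => Q D ∧ ∃ θ, Ty d T y.1 y.2.1 y.2.2 D.f D.v θ)
    (B' := K₂ * Z ^ (ε / 2) * (T ^ (n + d + 1) * H ^ d / (lam ^ n * P₀ ^ 2)) *
      mu j H (lam * H / T) om) hty' (by positivity) fun y hy =>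
      hfix Z H T P₀ lam om y.1 y.2.1 y.2.2 _ hH hHZ hT hTZ hP hl hlc hom h1 h2' hy.2
        (fun D hD => ⟨(hQ D hD.1).mono hKK hH0.le hT0.le (by linarith), hD.2⟩)
        fun D D' hD hD' e => hinj D D' hD.1 hD'.1 e
  refine hall.mono (fun D hD => ?_) (le_of_eq ?_)
  · obtain ⟨o1, o2, -, o4, o5, o6, -⟩ := hQ D hD
    obtain ⟨s, a, b, θ, e1, e2⟩ := hex Z T D.f D.v hT hTZ o4.1 o4.2.1 o2 (o4.2.2.2.trans hHZ)
      o1.1.1 o5 o6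
    exact ⟨(s, a, b), ⟨⟨fun i => (e1 i).2.2.2.1, fun i => (e1 i).2.2.2.2⟩,
      fun i => ⟨(e1 i).1, (e1 i).2.1, (e1 i).2.2.1⟩⟩, hD, θ, e2⟩
  · have e : Z ^ ε = Z ^ (ε / 4) * Z ^ (ε / 4) * Z ^ (ε / 2) := by
      rw [← Real.rpow_add hZ0, ← Real.rpow_add hZ0]
      congr 1
      ring
    rw [e]
    ring

end Pool.Agent.VW
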