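import Pool.Agent.P.MP_b0ea37_nt.WHt

namespace Pool.Agent.VW

open Polynomial

theorem WMuA_up_inj {g h : ℤ[X]} (e : up ℚ g = up ℚ h) : g = h :=
  map_injective _ (Int.castRingHom ℚ).injective_int e

theorem WMuA_deg (g : ℤ[X]) : (up ℚ g).natDegree = g.natDegree :=
  natDegree_map_eq_of_injective (Int.castRingHom ℚ).injective_int g

theorem WMuA_ne {g : ℤ[X]} (h : g ≠ 0) : up ℚ g ≠ 0 := fun e =>
  h (WMuA_up_inj (by simpa using e))

/-- a primitive integer polynomial proportional to a rational one -/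
theorem WMuA_prim (q : ℚ[X]) (hq : q ≠ 0) :
    ∃ (p : ℤ[X]) (t : ℚ), p.IsPrimitive ∧ t ≠ 0 ∧ up ℚ p = C t * q := by
  obtain ⟨b, hb, e⟩ := IsLocalization.integerNormalization_spec (nonZeroDivisors ℤ) q
  set N := IsLocalization.integerNormalization (nonZeroDivisors ℤ) q
  have hb0 : (b : ℚ) ≠ 0 := by exact_mod_cast nonZeroDivisors.ne_zero hb
  have e1 : up ℚ N = C (b : ℚ) * q := by
    rw [← smul_eq_C_mul, Int.cast_smul_eq_zsmul]
    exact e
  have hN : N ≠ 0 := by
    intro h0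
    rw [h0] at e1
    exact mul_ne_zero (C_ne_zero.2 hb0) hq (by simpa using e1.symm)
  have hc : (N.content : ℚ) ≠ 0 := by exact_mod_cast fun h => hN (content_eq_zero_iff.1 h)
  refine ⟨N.primPart, (N.content : ℚ)⁻¹ * b, N.isPrimitive_primPart,
    mul_ne_zero (inv_ne_zero hc) hb0, ?_⟩
  have e2 : up ℚ N = C (N.content : ℚ) * up ℚ N.primPart := by
    conv_lhs => rw [N.eq_C_content_mul_primPart]
    simp
  rw [C_mul, mul_assoc, ← e1, e2, ← mul_assoc, ← C_mul, inv_mul_cancel₀ hc, C_1, one_mul]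

theorem WMuA_dvd {p g : ℤ[X]} (hp : p.IsPrimitive) (h : up ℚ p ∣ up ℚ g) : p ∣ g :=
  (IsPrimitive.Int.dvd_iff_map_cast_dvd_map_cast p g hp).2 h

/-- the squarefree part over the rationals inside the integer polynomials -/
theorem mu_sqfree (w : ℤ[X]) (hw : w ≠ 0) :
    ∃ c h : ℤ[X], w = c * h ^ 2 ∧ Squarefree (up ℚ c) := by
  induction hd : w.natDegree using Nat.strong_induction_on generalizing w with
  | _ m ih =>
    by_cases hs : Squarefree (up ℚ w)
    · exact ⟨w, 1, by simp, hs⟩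
    · simp only [Squarefree, not_forall] at hs
      obtain ⟨q, hq, hu⟩ := hs
      have hq0 : q ≠ 0 := by
        rintro rfl
        exact WMuA_ne hw (by simpa using hq)
      obtain ⟨p, t, hp, ht, e⟩ := WMuA_prim q hq0
      have h1 : up ℚ (p * p) ∣ up ℚ w := by
        obtain ⟨r, hr⟩ := hq
        refine ⟨C (t⁻¹ * t⁻¹) * r, ?_⟩
        have : C t * C t * C (t⁻¹ * t⁻¹) = 1 := by
          rw [← C_mul, ← C_mul, ← C_1]
          congr 1
          field_simp
        rw [hr, up, Polynomial.map_mul]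
        change _ = up ℚ p * up ℚ p * _
        rw [e]
        linear_combination (-(q * q * r)) * this
      obtain ⟨w', hw'⟩ := WMuA_dvd (hp.mul hp) h1
      have hw0 : w' ≠ 0 := by
        rintro rfl
        exact hw (by simpa using hw')
      have hp0 : p ≠ 0 := hp.ne_zero
      have hpd : 0 < p.natDegree := by
        rw [← WMuA_deg, e, natDegree_C_mul ht]
        by_contra h0
        exact hu (isUnit_iff_degree_eq_zero.2 (by
          rw [degree_eq_natDegree hq0, Nat.eq_zero_of_not_pos h0]; rfl))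
      have hlt : w'.natDegree < m := by
        rw [← hd, hw', natDegree_mul (mul_ne_zero hp0 hp0) hw0, natDegree_mul hp0 hp0]
        omega
      obtain ⟨c, h, e1, hc⟩ := ih _ hlt w' hw0 rfl
      exact ⟨c, p * h, by rw [hw', e1]; ring, hc⟩

/-- a vanishing Gram determinant -/
theorem mu_line {c h₁ w₁ w₂ : ℚ[X]} (hc : Squarefree c) (h0 : h₁ ≠ 0)
    (e : c * h₁ ^ 2 * w₂ = w₁ ^ 2) : ∃ h : ℚ[X], w₁ = c * h₁ * h ∧ w₂ = c * h ^ 2 := by
  have h1 : h₁ ∣ w₁ := (UniqueFactorizationMonoid.pow_dvd_pow_iff_dvd two_ne_zero).1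
    ⟨c * w₂, by rw [← e]; ring⟩
  obtain ⟨a, rfl⟩ := h1
  have e1 : c * w₂ = a ^ 2 := mul_left_cancel₀ (pow_ne_zero 2 h0) (by linear_combination e)
  obtain ⟨h, rfl⟩ := (hc.dvd_pow_iff_dvd two_ne_zero).1 ⟨w₂, e1.symm⟩
  exact ⟨h, by ring, mul_left_cancel₀ hc.ne_zero (by linear_combination e1)⟩

/-- `z` is a root of the monic irreducible polynomial `F` of degree `n` -/
structure MuRoot (n : ℕ) (F : ℚ[X]) (z : ℂ) : Prop where
  monic : F.Monic
  deg : F.natDegree = n
  irr : Irreducible F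
  root : aeval z F = 0

namespace MuRoot
variable {n : ℕ} {F : ℚ[X]} {z : ℂ}

theorem dvd_iff (h : MuRoot n F z) (q : ℚ[X]) : F ∣ q ↔ aeval z q = 0 := by
  constructor
  · rintro ⟨r, rfl⟩
    simp [h.root]
  · intro hq
    rw [minpoly.eq_of_irreducible_of_monic h.irr h.root h.monic]
    exact minpoly.dvd ℚ z hq

theorem eq_zero (h : MuRoot n F z) {q : ℚ[X]} (hd : q.natDegree < n) (hq : aeval z q = 0) :
    q = 0 := eq_zero_of_dvd_of_natDegree_lt ((h.dvd_iff q).2 hq) (h.deg ▸ hd)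

theorem eq_of (h : MuRoot n F z) {q r : ℚ[X]} (hq : q.natDegree < n) (hr : r.natDegree < n)
    (e : aeval z q = aeval z r) : q = r :=
  sub_eq_zero.1 (h.eq_zero ((natDegree_sub_le q r).trans_lt (max_lt hq hr)) (by simp [e]))

theorem pos (h : MuRoot n F z) : 0 < n := h.deg ▸ h.irr.natDegree_pos

theorem red (h : MuRoot n F z) (q : ℚ[X]) : ∃ r : ℚ[X], r.natDegree < n ∧ aeval z r = aeval z q := by
  refine ⟨q %ₘ F, ?_, ?_⟩
  · rw [← h.deg]
    exact natDegree_modByMonic_lt q h.monic h.irr.ne_one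
  · conv_rhs => rw [← modByMonic_add_div q F]
    simp [h.root]

/-- division in the field generated by the root -/
theorem div (h : MuRoot n F z) (q y : ℚ[X]) (hy : aeval z y ≠ 0) :
    ∃ r : ℚ[X], r.natDegree < n ∧ aeval z r * aeval z y = aeval z q := by
  obtain ⟨a, b, e⟩ := (h.irr.coprime_iff_not_dvd).2 fun hd => hy ((h.dvd_iff y).1 hd)
  obtain ⟨r, hr, e1⟩ := h.red (q * b)
  refine ⟨r, hr, ?_⟩
  have e2 := congrArg (aeval z) e
  simp only [map_add, map_mul, h.root, mul_zero, zero_add, map_one] at e2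
  rw [e1, map_mul, mul_assoc, e2, mul_one]

end MuRoot

theorem mu_root {n : ℕ} {f : ℤ[X]} (hm : f.Monic) (hn : f.natDegree = n) (hf : Irr f) :
    ∃ z : ℂ, MuRoot n (up ℚ f) z := by
  obtain ⟨z, hz⟩ := IsAlgClosed.exists_aeval_eq_zero ℂ (up ℚ f)
    (degree_pos_of_irreducible hf).ne'
  exact ⟨z, hm.map _, (WMuA_deg f).trans hn, hf, hz⟩

/-- an element with rational square is rational -/
theorem mu_prim_sq {n : ℕ} {f : ℤ[X]} (hm : f.Monic) (hn : f.natDegree = n) (h3 : 3 ≤ n)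
    (hf : Irr f) (hp : Prim f) {q : ℚ[X]} (hq : q.natDegree < n) {t : ℚ}
    (h : up ℚ f ∣ q ^ 2 - C t) : q.natDegree = 0 := by
  by_contra h0
  obtain ⟨θ, hθ⟩ := exists_roots (up ℂ f) (hm.map _)
    ((natDegree_map_eq_of_injective (Int.castRingHom ℂ).injective_int f).trans hn)
  have hinj := hθ.injective hf
  have hr : ∀ i, aeval (θ i) f = 0 := fun i => by
    have := (hθ.eval_eq_zero_iff (θ i)).2 ⟨i, rfl⟩
    rwa [up, eval_map, ← algebraMap_int_eq, ← aeval_def] at this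
  have hs : ∀ i, aeval (θ i) q ^ 2 = (t : ℂ) := fun i => by
    obtain ⟨r, e⟩ := h
    have e1 := congrArg (aeval (θ i)) e
    have e2 : aeval (θ i) (up ℚ f) = 0 := by
      rw [up, ← algebraMap_int_eq, aeval_map_algebraMap]
      exact hr i
    simp only [map_sub, map_pow, map_mul, e2, zero_mul, aeval_C, eq_ratCast] at e1
    exact sub_eq_zero.1 e1
  have hne : ∀ i l, i ≠ l → aeval (θ i) q = - aeval (θ l) q := fun i l hil => by
    rcases sq_eq_sq_iff_eq_or_eq_neg.1 ((hs i).trans (hs l).symm) with e | e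
    · exact absurd (hinj (hp q (Nat.pos_of_ne_zero h0) (hn ▸ hq) _ _ (hr i) (hr l) e)) hil
    · exact e
  have e1 := hne ⟨1, by omega⟩ ⟨0, by omega⟩ (by simp)
  have e2 := hne ⟨2, by omega⟩ ⟨0, by omega⟩ (by simp)
  have := hinj (hp q (Nat.pos_of_ne_zero h0) (hn ▸ hq) _ _ (hr _) (hr _) (e1.trans e2.symm))
  simp at this

end Pool.Agent.VW
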