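import Pool.Agent.P.MP_b0ea37_nt.WMuA
import Pool.Agent.P.MP_b0ea37_nt.WPack

namespace Pool.Agent.VW

open Polynomial

theorem WMuB_li_le {ρ m : ℕ} (u : Fin ρ → ℚ[X]) (hu : LinearIndependent ℚ u)
    (hd : ∀ i, (u i).natDegree < m) : ρ ≤ m := by
  have h1 : ∀ i, u i ∈ degreeLT ℚ m := fun i =>
    mem_degreeLT.2 (degree_le_natDegree.trans_lt (by exact_mod_cast hd i))
  have h2 : LinearIndependent ℚ fun i => (⟨u i, h1 i⟩ : degreeLT ℚ m) :=
    LinearIndependent.of_comp (degreeLT ℚ m).subtype hu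
  have : Module.Finite ℚ (degreeLT ℚ m) := Module.Finite.of_basis (degreeLT.basis ℚ m)
  have h3 := h2.fintype_card_le_finrank
  rwa [Module.finrank_eq_card_basis (degreeLT.basis ℚ m), Fintype.card_fin, Fintype.card_fin] at h3

theorem WMuB_deg_sum {ρ m : ℕ} (c : Fin ρ → ℚ) (u : Fin ρ → ℚ[X]) (hd : ∀ i, (u i).natDegree ≤ m) :
    (∑ i, c i • u i).natDegree ≤ m :=
  natDegree_sum_le_of_forall_le _ _ fun i _ => (natDegree_smul_le _ _).trans (hd i)

theorem WMuB_sup_sum {ρ : ℕ} (c : Fin ρ → ℚ) (u : Fin ρ → ℚ[X]) {N B : ℝ}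
    (hc : ∀ i, |(c i : ℝ)| ≤ N) (hu : ∀ i, (u i).supNorm ≤ B) :
    (∑ i, c i • u i).supNorm ≤ ρ * (N * B) := by
  refine (sup_sum_le _ _).trans ?_
  have : ∀ i ∈ Finset.univ, (c i • u i).supNorm ≤ N * B := fun i _ => by
    rw [smul_eq_C_mul]
    refine (sup_C_mul_le _ _).trans ?_
    rw [← Rat.norm_cast_real, Real.norm_eq_abs]
    exact mul_le_mul (hc i) (hu i) (supNorm_nonneg _) ((abs_nonneg _).trans (hc i))
  simpa using Finset.sum_le_card_nsmul _ _ _ this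

/-- the form attached to two coordinate vectors -/
theorem WMuB_form {ρ : ℕ} {z V : ℂ} (u : Fin ρ → ℚ[X]) (W : Fin ρ → Fin ρ → ℚ[X])
    (h : ∀ i l, V ^ 2 * aeval z (W i l) + aeval z (u i) * aeval z (u l) = 0) (c c' : Fin ρ → ℚ) :
    V ^ 2 * aeval z (∑ i, c i • ∑ l, c' l • W i l) +
      aeval z (∑ i, c i • u i) * aeval z (∑ l, c' l • u l) = 0 := by
  simp only [map_sum, map_smul, Finset.smul_sum]
  rw [Finset.sum_mul_sum]
  simp only [Finset.mul_sum, ← Finset.sum_add_distrib]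
  refine Finset.sum_eq_zero fun i _ => Finset.sum_eq_zero fun l _ => ?_
  simp only [Rat.smul_def]
  linear_combination (c i : ℂ) * (c' l : ℂ) * h i l

/-- the span has dimension at most four when the products have degree at most four -/
theorem mu_rank {n ρ : ℕ} {F : ℚ[X]} {z V : ℂ} (hz : MuRoot n F z) (hn : 6 ≤ n) (hV : V ≠ 0)
    (u : Fin ρ → ℚ[X]) (hu : LinearIndependent ℚ u) (hd : ∀ i, (u i).natDegree < n)
    (W : Fin ρ → Fin ρ → ℚ[X]) (hW : ∀ i l, (W i l).natDegree ≤ 4)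
    (h : ∀ i l, V ^ 2 * aeval z (W i l) + aeval z (u i) * aeval z (u l) = 0) : ρ ≤ 4 := by
  by_contra hρ
  have i0 : Fin ρ := ⟨0, by omega⟩
  have hu0 : aeval z (u i0) ≠ 0 := fun e => hu.ne_zero i0 (hz.eq_zero (hd i0) e)
  have hmem : ∀ q : ℚ[X], q.natDegree ≤ 4 → q ∈ degreeLT ℚ 5 := fun q hq =>
    mem_degreeLT.2 (degree_le_natDegree.trans_lt (by exact_mod_cast Nat.lt_succ_of_le hq))
  have hrow : ∀ c : Fin ρ → ℚ, V ^ 2 * aeval z (∑ l, c l • W i0 l) +
      aeval z (u i0) * aeval z (∑ l, c l • u l) = 0 := fun c => by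
    simp only [map_sum, map_smul, Finset.mul_sum, ← Finset.sum_add_distrib]
    refine Finset.sum_eq_zero fun l _ => ?_
    simp only [Rat.smul_def]
    linear_combination (c l : ℂ) * h i0 l
  have hli : LinearIndependent ℚ fun l => (⟨W i0 l, hmem _ (hW i0 l)⟩ : degreeLT ℚ 5) := by
    refine LinearIndependent.of_comp (degreeLT ℚ 5).subtype ?_
    rw [Fintype.linearIndependent_iff] at hu ⊢
    intro c hc
    have e := hrow c
    have hc' : ∑ l, c l • W i0 l = 0 := hc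
    rw [hc', map_zero, mul_zero, zero_add] at e
    exact hu c (hz.eq_zero ((WMuB_deg_sum c u (m := n - 1) fun i =>
      Nat.le_sub_one_of_lt (hd i)).trans_lt (by omega)) ((mul_eq_zero.1 e).resolve_left hu0))
  have : Module.Finite ℚ (degreeLT ℚ 5) := Module.Finite.of_basis (degreeLT.basis ℚ 5)
  have hfr : Module.finrank ℚ (degreeLT ℚ 5) = 5 := by
    rw [Module.finrank_eq_card_basis (degreeLT.basis ℚ 5), Fintype.card_fin]
  have hle := hli.fintype_card_le_finrank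
  rw [hfr, Fintype.card_fin] at hle
  have : Nonempty (Fin ρ) := ⟨i0⟩
  have htop := hli.span_eq_top_of_card_eq_finrank (by rw [hfr, Fintype.card_fin]; omega)
  have hex : ∀ m : ℕ, ∃ c : Fin ρ → ℚ, m ≤ 4 →
      aeval z (u i0) * aeval z (∑ l, c l • u l) = -(V ^ 2 * z ^ m) := fun m => by
    by_cases hm : m ≤ 4
    · have h1 : (⟨X ^ m, hmem _ (by simpa using hm)⟩ : degreeLT ℚ 5) ∈ Submodule.span ℚ
          (Set.range fun l => (⟨W i0 l, hmem _ (hW i0 l)⟩ : degreeLT ℚ 5)) := by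
        rw [htop]; trivial
      obtain ⟨c, hc⟩ := (Submodule.mem_span_range_iff_exists_fun ℚ).1 h1
      have hc' : ∑ l, c l • W i0 l = X ^ m := by simpa using congrArg Subtype.val hc
      have e := hrow c
      rw [hc', map_pow, aeval_X] at e
      exact ⟨c, fun _ => by linear_combination e⟩
    · exact ⟨0, fun h => absurd h hm⟩
  choose c hc using hex
  have hdeg : ∀ a b, (∑ i, c a i • ∑ l, c b l • W i l).natDegree ≤ 4 := fun a b =>
    WMuB_deg_sum _ _ fun i => WMuB_deg_sum _ _ (hW i)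
  have hval : ∀ a b, a ≤ 4 → b ≤ 4 → aeval z (u i0) ^ 2 *
      aeval z (∑ i, c a i • ∑ l, c b l • W i l) = -(V ^ 2 * z ^ (a + b)) := fun a b ha hb => by
    have e := WMuB_form u W h (c a) (c b)
    refine mul_left_cancel₀ (pow_ne_zero 2 hV) ?_
    have e1 := hc a ha
    have e2 := hc b hb
    rw [pow_add]
    linear_combination aeval z (u i0) ^ 2 * e -
      aeval z (u i0) * aeval z (∑ l, c b l • u l) * e1 + V ^ 2 * z ^ a * e2
  have hstep : ∀ a b a' b', a ≤ 4 → b ≤ 4 → a' ≤ 4 → b' ≤ 4 → a' + b' = a + b + 1 →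
      (∑ i, c a' i • ∑ l, c b' l • W i l) = X * ∑ i, c a i • ∑ l, c b l • W i l :=
    fun a b a' b' ha hb ha' hb' e => by
      refine hz.eq_of ((hdeg _ _).trans_lt (by omega)) (natDegree_mul_le.trans_lt ?_) ?_
      · have := hdeg a b
        rw [natDegree_X]
        omega
      · refine mul_left_cancel₀ (pow_ne_zero 2 hu0) ?_
        rw [hval a' b' ha' hb', map_mul, aeval_X, e, pow_succ]
        linear_combination (-z) * hval a b ha hb
  have e5 : (∑ i, c 1 i • ∑ l, c 4 l • W i l) = X ^ 5 * ∑ i, c 0 i • ∑ l, c 0 l • W i l := by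
    rw [hstep 0 4 1 4 (by omega) (by omega) (by omega) (by omega) rfl,
      hstep 0 3 0 4 (by omega) (by omega) (by omega) (by omega) rfl,
      hstep 0 2 0 3 (by omega) (by omega) (by omega) (by omega) rfl,
      hstep 0 1 0 2 (by omega) (by omega) (by omega) (by omega) rfl,
      hstep 0 0 0 1 (by omega) (by omega) (by omega) (by omega) rfl]
    ring
  have hne : (∑ i, c 0 i • ∑ l, c 0 l • W i l) ≠ 0 := fun e => by
    have := hval 0 0 (by omega) (by omega)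
    rw [e, map_zero, mul_zero] at this
    exact hV (by simpa using this)
  have := hdeg 1 4
  rw [e5, natDegree_X_pow_mul 5 hne] at this
  omega

theorem WMuB_ev (z : ℂ) (g : ℤ[X]) : aeval z (up ℚ g) = aeval z g := by
  rw [up, ← algebraMap_int_eq, aeval_map_algebraMap]

theorem MuRoot.int_dvd {n : ℕ} {f : ℤ[X]} {z : ℂ} (hz : MuRoot n (up ℚ f) z) (hm : f.Monic)
    (g : ℤ[X]) : f ∣ g ↔ aeval z g = 0 := by
  rw [← WMuB_ev, ← hz.dvd_iff]
  exact (map_dvd_map _ (Int.castRingHom ℚ).injective_int hm).symm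

/-- coordinates in which the family is bounded and the form is bounded -/
theorem mu_coord {n j : ℕ} {f v : ℤ[X]} {z : ℂ} (hz : MuRoot n (up ℚ f) z) (hV : aeval z v ≠ 0)
    (hj : 2 * j < n) (S : Finset ℤ[X]) {B Q : ℝ} (hB : 0 ≤ B) (hQ : 0 ≤ Q)
    (hk : ∀ k ∈ S, k.natDegree < n ∧ k.supNorm ≤ B)
    (hw : ∀ k ∈ S, ∀ k' ∈ S, ∃ W : ℤ[X], W.natDegree ≤ 2 * j ∧ W.supNorm ≤ Q ∧
      aeval z v ^ 2 * aeval z W + aeval z k * aeval z k' = 0) :
    ∃ (ρ : ℕ) (R : ℚ[X] →ₗ[ℚ] (Fin ρ → ℝ)), (j = 2 → 6 ≤ n → ρ ≤ 4) ∧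
      (∀ a ∈ S, ‖R (up ℚ a)‖ ≤ 1) ∧
      (∀ a ∈ S, ∀ b ∈ S, (a - b).supNorm ≤ n * (‖R (up ℚ (a - b))‖ * B)) ∧
      ∀ a ∈ S, ∀ b ∈ S, ∀ a' ∈ S, ∀ b' ∈ S, ∃ W : ℤ[X], W.natDegree ≤ 2 * j ∧
        W.supNorm ≤ n * (‖R (up ℚ (a - b))‖ * (n * (‖R (up ℚ (a' - b'))‖ * Q))) ∧
        aeval z v ^ 2 * aeval z W + aeval z (a - b) * aeval z (a' - b') = 0 := by
  obtain ⟨ρ, b, hbS, hli, hco⟩ := maxdet S fun k : ℤ[X] => up ℚ k
  choose! W hW using hw
  have hud : ∀ i, (up ℚ (b i)).natDegree < n := fun i => (WMuA_deg _).symm ▸ (hk _ (hbS i)).1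
  have hWd : ∀ i l, (up ℚ (W (b i) (b l))).natDegree ≤ 2 * j := fun i l =>
    (WMuA_deg _).symm ▸ (hW _ (hbS i) _ (hbS l)).1
  have hWe : ∀ i l, aeval z v ^ 2 * aeval z (up ℚ (W (b i) (b l))) +
      aeval z (up ℚ (b i)) * aeval z (up ℚ (b l)) = 0 := fun i l => by
    simpa only [WMuB_ev] using (hW _ (hbS i) _ (hbS l)).2.2
  have hρ : (ρ : ℝ) ≤ n := by exact_mod_cast WMuB_li_le _ hli hud
  obtain ⟨L, hL⟩ := (Fintype.linearCombination ℚ fun i => up ℚ (b i)).exists_leftInverse_of_injective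
    (LinearMap.ker_eq_bot.2 hli.fintypeLinearCombination_injective)
  have hL' : ∀ c : Fin ρ → ℚ, L (∑ i, c i • up ℚ (b i)) = c := fun c => by
    simpa [Fintype.linearCombination_apply] using LinearMap.congr_fun hL c
  let R : ℚ[X] →ₗ[ℚ] (Fin ρ → ℝ) :=
    (LinearMap.pi fun i => (Algebra.linearMap ℚ ℝ).comp (LinearMap.proj i)).comp L
  have hR : ∀ c : Fin ρ → ℚ, ∀ i, R (∑ i, c i • up ℚ (b i)) i = c i := fun c i => by
    change ((L (∑ i, c i • up ℚ (b i)) i : ℚ) : ℝ) = _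
    rw [hL']
  choose! c hc using hco
  have hdiff : ∀ a ∈ S, ∀ a' ∈ S, up ℚ (a - a') = ∑ i, (c a - c a') i • up ℚ (b i) :=
    fun a ha a' ha' => by
      simp only [Pi.sub_apply, sub_smul, Finset.sum_sub_distrib]
      rw [← (hc a ha).2, ← (hc a' ha').2]
      exact Polynomial.map_sub _
  have hco' : ∀ a ∈ S, ∀ a' ∈ S, ∀ i, |(((c a - c a') i : ℚ) : ℝ)| ≤ ‖R (up ℚ (a - a'))‖ :=
    fun a ha a' ha' i => by
      rw [← hR, ← hdiff a ha a' ha']
      exact norm_le_pi_norm (R (up ℚ (a - a'))) i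
  refine ⟨ρ, R, fun h2 h6 => mu_rank hz h6 hV _ hli hud _ (fun i l => ?_) hWe, fun a ha => ?_,
    fun a ha a' ha' => ?_, fun a ha a' ha' e he e' he' => ?_⟩
  · have := hWd i l
    omega
  · refine (pi_norm_le_iff_of_nonneg zero_le_one).2 fun i => ?_
    rw [(hc a ha).2, hR, Real.norm_eq_abs]
    exact_mod_cast (hc a ha).1 i
  · rw [← sup_up_rat]
    conv_lhs => rw [hdiff a ha a' ha']
    refine (WMuB_sup_sum _ _ (hco' a ha a' ha') fun i => ?_).trans (by gcongr)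
    rw [sup_up_rat]
    exact (hk _ (hbS i)).2
  · have hdg : (W a e - W a e' - W a' e + W a' e').natDegree ≤ 2 * j := by
      refine (natDegree_add_le _ _).trans (max_le ((natDegree_sub_le _ _).trans (max_le
        ((natDegree_sub_le _ _).trans (max_le ?_ ?_)) ?_)) ?_)
      exacts [(hW _ ha _ he).1, (hW _ ha _ he').1, (hW _ ha' _ he).1, (hW _ ha' _ he').1]
    have hev : aeval z v ^ 2 * aeval z (W a e - W a e' - W a' e + W a' e') +
        aeval z (a - a') * aeval z (e - e') = 0 := by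
      simp only [map_sub, map_add]
      linear_combination (hW _ ha _ he).2.2 - (hW _ ha _ he').2.2 - (hW _ ha' _ he).2.2 +
        (hW _ ha' _ he').2.2
    refine ⟨_, hdg, ?_, hev⟩
    have e1 := WMuB_form _ _ hWe (c a - c a') (c e - c e')
    rw [← hdiff a ha a' ha', ← hdiff e he e' he', WMuB_ev, WMuB_ev] at e1
    have e2 : up ℚ (W a e - W a e' - W a' e + W a' e') =
        ∑ i, (c a - c a') i • ∑ l, (c e - c e') l • up ℚ (W (b i) (b l)) := by
      refine hz.eq_of (((WMuA_deg _).trans_le hdg).trans_lt hj)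
        ((WMuB_deg_sum _ _ fun i => WMuB_deg_sum _ _ (hWd i)).trans_lt hj) ?_
      refine mul_left_cancel₀ (pow_ne_zero 2 hV) ?_
      rw [WMuB_ev]
      linear_combination hev - e1
    rw [← sup_up_rat, e2]
    refine (WMuB_sup_sum _ _ (B := n * (‖R (up ℚ (e - e'))‖ * Q))
      (hco' a ha a' ha') fun i => ?_).trans (by gcongr)
    refine (WMuB_sup_sum _ _ (hco' e he e' he') fun l => ?_).trans (by gcongr)
    rw [sup_up_rat]
    exact (hW _ (hbS i) _ (hbS l)).2.1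

end Pool.Agent.VW
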