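import Pool.Agent.P.MP_b0ea37_nt.WMloc
import Pool.Agent.P.MP_b0ea37_nt.WMDefs

namespace Pool.Agent.VW

open Polynomial

theorem WMuniq_aeval_up (g : ℤ[X]) (z : ℂ) : aeval z (up ℚ g) = aeval z g :=
  aeval_map_algebraMap ℚ z g

theorem WMuniq_up_up (g : ℤ[X]) : (up ℚ g).map (algebraMap ℚ ℂ) = up ℂ g := by
  rw [Polynomial.map_map]
  congr 1

theorem WMuniq_eval_map (g : ℚ[X]) (z : ℂ) : (g.map (algebraMap ℚ ℂ)).eval z = aeval z g := by
  rw [eval_map, aeval_def]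

theorem WMuniq_aeval_C (c : ℤ) (z : ℂ) : aeval z (C c : ℤ[X]) = (c : ℂ) := by
  rw [aeval_C, algebraMap_int_eq, eq_intCast]

theorem WMuniq_ne {u a b c d : ℂ} (hu : u ≠ 0) (ha : ‖a - u‖ ≤ ‖u‖ / 5) (hb : ‖b - u‖ ≤ ‖u‖ / 5)
    (hc : ‖c - u‖ ≤ ‖u‖ / 5) (hd : ‖d - u‖ ≤ ‖u‖ / 5) : a * b + c * d ≠ 0 := by
  intro h
  have hm : 0 < ‖u‖ := norm_pos_iff.2 hu
  have e : 2 * (u * u) = -(u * ((a - u) + (b - u) + (c - u) + (d - u)) +
      ((a - u) * (b - u) + (c - u) * (d - u))) := by linear_combination h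
  have h1 : ‖(2 : ℂ) * (u * u)‖ = 2 * (‖u‖ * ‖u‖) := by
    rw [norm_mul, norm_mul]; simp
  have h2 : ‖(a - u) + (b - u) + (c - u) + (d - u)‖ ≤ 4 * (‖u‖ / 5) := by
    have t1 := norm_add_le ((a - u) + (b - u) + (c - u)) (d - u)
    have t2 := norm_add_le ((a - u) + (b - u)) (c - u)
    have t3 := norm_add_le (a - u) (b - u)
    linarith
  have h3 : ‖(a - u) * (b - u)‖ ≤ ‖u‖ / 5 * (‖u‖ / 5) := by
    rw [norm_mul]; exact mul_le_mul ha hb (norm_nonneg _) (by positivity)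
  have h4 : ‖(c - u) * (d - u)‖ ≤ ‖u‖ / 5 * (‖u‖ / 5) := by
    rw [norm_mul]; exact mul_le_mul hc hd (norm_nonneg _) (by positivity)
  have h5 : ‖u * ((a - u) + (b - u) + (c - u) + (d - u))‖ ≤ ‖u‖ * (4 * (‖u‖ / 5)) := by
    rw [norm_mul]; exact mul_le_mul_of_nonneg_left h2 hm.le
  have h6 := norm_add_le (u * ((a - u) + (b - u) + (c - u) + (d - u)))
    ((a - u) * (b - u) + (c - u) * (d - u))
  have h7 := norm_add_le ((a - u) * (b - u)) ((c - u) * (d - u))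
  rw [e, norm_neg] at h1
  nlinarith [mul_pos hm hm]

/-- uniqueness of square roots modulo a square -/
theorem sq_dvd_sub {v g g' : ℚ[X]} (h : v ^ 2 ∣ g ^ 2 - g' ^ 2)
    (hz : ∀ z : ℂ, aeval z v = 0 → aeval z g + aeval z g' ≠ 0) : v ^ 2 ∣ g - g' := by
  have hc : IsCoprime v (g + g') := by
    rw [Polynomial.isCoprime_iff_aeval_ne_zero_of_isAlgClosed (k := ℚ) ℂ]
    intro z
    by_cases h0 : aeval z v = 0
    · right; rw [map_add]; exact hz z h0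
    · left; exact h0
  have e : g ^ 2 - g' ^ 2 = (g - g') * (g + g') := by ring
  rw [e] at h
  exact (hc.pow_left (m := 2)).dvd_of_dvd_mul_right h

theorem sq_dvd_sub_int {v g g' : ℤ[X]} (hv : v.IsPrimitive) (h : v ^ 2 ∣ g ^ 2 - g' ^ 2)
    (hz : ∀ z : ℂ, aeval z v = 0 → aeval z g + aeval z g' ≠ 0) : v ^ 2 ∣ g - g' := by
  have hv2 : (v ^ 2).IsPrimitive := by rw [pow_two]; exact hv.mul hv
  apply dvd_of_up_dvd hv2
  have h1 : up ℚ v ^ 2 ∣ up ℚ g ^ 2 - up ℚ g' ^ 2 := by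
    have := Polynomial.map_dvd (Int.castRingHom ℚ) h
    simpa only [Polynomial.map_sub, Polynomial.map_pow] using this
  have h2 := sq_dvd_sub h1 (fun z h0 => by
    rw [WMuniq_aeval_up] at h0
    rw [WMuniq_aeval_up, WMuniq_aeval_up]
    exact hz z h0)
  simpa only [Polynomial.map_sub, Polynomial.map_pow] using h2

theorem NR.triple {v f f' a G₁ G₂ G₃ : ℤ[X]} {c : ℤ} (hv : v.IsPrimitive) (hc : 0 < c)
    (h₁ : NR v c f a G₁) (h₂ : NR v c f' a G₂) (h₃ : NR v c f f' G₃) (k₁ : Cl v f f')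
    (k₂ : Cl v f a) : v ^ 2 ∣ G₁ * G₂ - C c * a * G₃ := by
  apply sq_dvd_sub_int hv
  · obtain ⟨x₁, e₁⟩ := h₁.1
    obtain ⟨x₂, e₂⟩ := h₂.1
    obtain ⟨x₃, e₃⟩ := h₃.1
    rw [C_pow] at e₁ e₂ e₃
    refine ⟨x₁ * G₂ ^ 2 + C c ^ 2 * f * a * x₂ - C c ^ 2 * a ^ 2 * x₃, ?_⟩
    linear_combination G₂ ^ 2 * e₁ + C c ^ 2 * f * a * e₂ - C c ^ 2 * a ^ 2 * e₃
  · intro z hz
    obtain ⟨hf, hf'⟩ := k₁ z hz
    obtain ⟨-, ha⟩ := k₂ z hz
    have b₁ := h₁.2 z hz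
    have b₂ := h₂.2 z hz
    have b₃ := h₃.2 z hz
    have hcR : (0 : ℝ) < c := by exact_mod_cast hc
    have hcC : (c : ℂ) ≠ 0 := by exact_mod_cast hc.ne'
    have hn : ‖(c : ℂ)‖ = c := by rw [Complex.norm_intCast, abs_of_pos hcR]
    have hu : ‖(c : ℂ) * aeval z f‖ = c * ‖aeval z f‖ := by rw [norm_mul, hn]
    have hF : 0 ≤ ‖aeval z f‖ := norm_nonneg _
    have hcF : 0 ≤ (c : ℝ) * ‖aeval z f‖ := mul_nonneg hcR.le hF
    have e : aeval z (G₁ * G₂) + aeval z (C c * a * G₃) =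
        aeval z G₁ * aeval z G₂ + ((c : ℂ) * aeval z a) * aeval z G₃ := by
      simp only [map_mul, WMuniq_aeval_C]
    rw [e]
    apply WMuniq_ne (mul_ne_zero hcC hf)
    · rw [hu]; linarith
    · rw [hu]
      have t1 : ‖aeval z f'‖ ≤ ‖aeval z f‖ + ‖aeval z f‖ / 100 := by
        have := norm_add_le (aeval z f) (aeval z f' - aeval z f)
        rw [add_sub_cancel] at this
        linarith
      have t2 : ‖(c : ℂ) * (aeval z f' - aeval z f)‖ ≤ c * (‖aeval z f‖ / 100) := by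
        rw [norm_mul, hn]; exact mul_le_mul_of_nonneg_left hf' hcR.le
      have t3 := norm_add_le (aeval z G₂ - c * aeval z f') ((c : ℂ) * (aeval z f' - aeval z f))
      have t4 : aeval z G₂ - c * aeval z f' + (c : ℂ) * (aeval z f' - aeval z f) =
          aeval z G₂ - c * aeval z f := by ring
      rw [t4] at t3
      have t5 := mul_le_mul_of_nonneg_left t1 hcR.le
      nlinarith
    · rw [hu, ← mul_sub, norm_mul, hn]
      have := mul_le_mul_of_nonneg_left ha hcR.le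
      nlinarith
    · rw [hu]; linarith

theorem NR.smul {v f f' G : ℤ[X]} {c : ℤ} (h : NR v c f f' G) {e : ℤ} (he : 0 < e) (w : ℤ[X]) :
    NR v (e * c) f f' (C e * G + v ^ 2 * w) := by
  refine ⟨?_, fun z hz => ?_⟩
  · obtain ⟨x, hx⟩ := h.1
    rw [C_pow] at hx
    rw [C_pow, C_mul]
    refine ⟨C e ^ 2 * x + 2 * C e * G * w + v ^ 2 * w ^ 2, ?_⟩
    linear_combination C e ^ 2 * hx
  · have heR : (0 : ℝ) < e := by exact_mod_cast he
    have hn : ‖(e : ℂ)‖ = e := by rw [Complex.norm_intCast, abs_of_pos heR]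
    have e1 : aeval z (C e * G + v ^ 2 * w) - ((e * c : ℤ) : ℂ) * aeval z f =
        (e : ℂ) * (aeval z G - c * aeval z f) := by
      simp only [map_add, map_mul, map_pow, WMuniq_aeval_C, hz]
      push_cast
      ring
    rw [e1, norm_mul, hn]
    have := mul_le_mul_of_nonneg_left (h.2 z hz) heR.le
    push_cast
    linarith

/-- a square root at the roots of `v` lifts modulo `v ^ 2` -/
theorem exists_rat_root {v f f' : ℤ[X]} (hv : (up ℂ v).Separable) (g₀ : ℚ[X])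
    (h : ∀ z : ℂ, aeval z v = 0 → aeval z g₀ ≠ 0 ∧ aeval z g₀ ^ 2 = aeval z f * aeval z f') :
    ∃ g : ℚ[X], up ℚ v ^ 2 ∣ g ^ 2 - up ℚ f * up ℚ f' ∧
      ∀ z : ℂ, aeval z v = 0 → aeval z g = aeval z g₀ := by
  classical
  have hd : up ℚ v ∣ g₀ ^ 2 - up ℚ f * up ℚ f' := by
    rw [← Polynomial.map_dvd_map' (algebraMap ℚ ℂ), WMuniq_up_up]
    by_cases h0 : (g₀ ^ 2 - up ℚ f * up ℚ f').map (algebraMap ℚ ℂ) = 0
    · rw [h0]; exact dvd_zero _
    apply (IsAlgClosed.splits _).dvd_of_roots_le_roots hv.ne_zero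
    rw [Multiset.le_iff_subset (nodup_roots hv)]
    intro z hz
    rw [mem_roots hv.ne_zero, IsRoot, ← WMuniq_up_up, WMuniq_eval_map, WMuniq_aeval_up] at hz
    rw [mem_roots h0, IsRoot, WMuniq_eval_map, map_sub, map_mul, map_pow, WMuniq_aeval_up,
      WMuniq_aeval_up, (h z hz).2, sub_self]
  have hc : IsCoprime (up ℚ v) (2 * g₀) := by
    rw [Polynomial.isCoprime_iff_aeval_ne_zero_of_isAlgClosed (k := ℚ) ℂ]
    intro z
    by_cases h0 : aeval z (up ℚ v) = 0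
    · right
      rw [WMuniq_aeval_up] at h0
      rw [two_mul, map_add, ← two_mul]
      exact mul_ne_zero two_ne_zero (h z h0).1
    · left; exact h0
  obtain ⟨a, s, hs⟩ := hc
  obtain ⟨k, hk⟩ := hd
  refine ⟨g₀ - up ℚ v * k * s, ⟨k * a + k ^ 2 * s ^ 2, ?_⟩, fun z hz => ?_⟩
  · linear_combination hk - up ℚ v * k * hs
  · rw [map_sub, map_mul, map_mul, WMuniq_aeval_up, hz, zero_mul, zero_mul, sub_zero]

theorem WMuniq_zt {d p : ℕ} {v : ℤ[X]} (hv : VOk d v) (hp : p.Prime) {z : ℂ}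
    (hz : aeval z v = 0) : aeval z (-(v /ₘ (X - C (tt d p v)))) = zt d p v z := by
  have h1 := zt_mul hv hp hz
  have h2 := congrArg (aeval z) (modByMonic_add_div v (X - C (tt d p v)))
  rw [modByMonic_X_sub_C_eq_C_eval, hz] at h2
  simp only [map_add, map_mul, map_sub, WMuniq_aeval_C, aeval_X] at h2
  have hc : ((cc d p v : ℤ) : ℂ) ≠ 0 := by exact_mod_cast cc_ne_zero hv hp
  have ht : z - (tt d p v : ℂ) ≠ 0 := by
    intro h0
    rw [h0, zero_mul] at h1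
    exact hc h1.symm
  apply mul_left_cancel₀ ht
  rw [h1, map_neg]
  unfold cc
  linear_combination -h2

theorem Sq.exists_rat {n d : ℕ} {D D' : Dat} {κ : ℂ → ℂ} (h : Ok n d D) (h' : Ok n d D')
    (hs : Sq d D D' κ) : ∃ g : ℚ[X], up ℚ D.v ^ 2 ∣ g ^ 2 - up ℚ D.f * up ℚ D'.f ∧
      ∀ z : ℂ, aeval z D.v = 0 → aeval z g = κ z * aeval z D.f := by
  obtain ⟨p, hp1, hp⟩ := Nat.exists_infinite_primes (D.P + D'.P + 1)
  have hP : p ≠ D.P := by omega
  have hP' : p ≠ D'.P := by omega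
  obtain ⟨N, w, hN, hw⟩ := (hs.2.2 p hp).1
  have hN0 : (N : ℂ) ≠ 0 := by
    have : N ≠ 0 := by rintro rfl; exact hN (dvd_zero _)
    exact_mod_cast this
  have hval : ∀ z : ℂ, aeval z D.v = 0 →
      aeval z (C ((N : ℚ)⁻¹) * up ℚ (D.f * w.comp (-(D.v /ₘ (X - C (tt d p D.v)))))) =
        κ z * aeval z D.f := by
    intro z hz
    have h1 := hw z hz
    simp only [pz_of_ne hP, pz_of_ne hP', mul_one, div_one] at h1
    rw [map_mul, WMuniq_aeval_up, map_mul, aeval_comp, WMuniq_zt h.1 hp hz, ← h1, aeval_C]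
    simp only [map_inv₀, map_intCast]
    field_simp
  obtain ⟨g, hg1, hg2⟩ := exists_rat_root (f := D.f) (f' := D'.f) h.1.2.2.2
    (C ((N : ℚ)⁻¹) * up ℚ (D.f * w.comp (-(D.v /ₘ (X - C (tt d p D.v)))))) (fun z hz => by
      have hf := h.2.2.2.2.2.2.2.2 z hz
      have hf' := h'.2.2.2.2.2.2.2.2 z (hs.1 ▸ hz)
      have e := hs.2.1 z hz
      rw [hval z hz]
      refine ⟨mul_ne_zero ?_ hf, ?_⟩
      · rintro h0
        rw [h0] at e
        exact hf' (by rw [e]; ring)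
      · rw [e]; ring)
  exact ⟨g, hg1, fun z hz => by rw [hg2 z hz, hval z hz]⟩

end Pool.Agent.VW
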