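import Pool.Agent.P.MP_b0ea37_nt.WHt
import Pool.Agent.P.MP_b0ea37_nt.WCnt

namespace Pool.Agent.VW

open Polynomial

theorem win_gcd (k v : ℤ[X]) (hv : v ≠ 0) : ∃ G k' v' : ℤ[X], k = G * k' ∧ v = G * v' ∧
    IsCoprime (up ℚ k') (up ℚ v') := by
  classical
  have hinj : Function.Injective (Int.castRingHom ℚ) := RingHom.injective_int _
  have hv' : up ℚ v ≠ 0 := (Polynomial.map_ne_zero_iff hinj).2 hv
  obtain ⟨q, hq⟩ : ∃ q : ℚ[X], q = EuclideanDomain.gcd (up ℚ k) (up ℚ v) := ⟨_, rfl⟩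
  have hq0 : q ≠ 0 := by
    rw [hq]
    exact fun h => hv' (EuclideanDomain.gcd_eq_zero_iff.1 h).2
  obtain ⟨b, hb, hb2⟩ := IsLocalization.integerNormalization_spec (nonZeroDivisors ℤ) q
  obtain ⟨G0, hG0⟩ : ∃ G0 : ℤ[X], G0 = IsLocalization.integerNormalization (nonZeroDivisors ℤ) q :=
    ⟨_, rfl⟩
  rw [← hG0] at hb2
  have hb0 : (b : ℚ) ≠ 0 := by exact_mod_cast nonZeroDivisors.ne_zero hb
  have h1 : C (G0.content : ℚ) * up ℚ G0.primPart = C (b : ℚ) * q := by
    have h2 : up ℚ G0 = C (G0.content : ℚ) * up ℚ G0.primPart := by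
      conv_lhs => rw [G0.eq_C_content_mul_primPart]
      simp [up]
    rw [← h2]
    have h3 : up ℚ G0 = b • q := hb2
    rw [h3, zsmul_eq_mul]
    simp
  have hc0 : (G0.content : ℚ) ≠ 0 := by
    intro h
    rw [h, C_0, zero_mul] at h1
    exact mul_ne_zero (C_ne_zero.2 hb0) hq0 h1.symm
  have h4 : q = up ℚ G0.primPart * C ((G0.content : ℚ) / b) := by
    apply mul_left_cancel₀ (C_ne_zero.2 hb0)
    rw [← h1, mul_left_comm, ← C_mul, mul_div_cancel₀ _ hb0, mul_comm]
  have hp := G0.isPrimitive_primPart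
  have hd : ∀ u : ℤ[X], q ∣ up ℚ u → G0.primPart ∣ u := fun u hu =>
    (IsPrimitive.Int.dvd_iff_map_cast_dvd_map_cast _ u hp).2 ((Dvd.intro _ h4.symm).trans hu)
  obtain ⟨k', hk'⟩ := hd k (by rw [hq]; exact EuclideanDomain.gcd_dvd_left _ _)
  obtain ⟨v', hv2⟩ := hd v (by rw [hq]; exact EuclideanDomain.gcd_dvd_right _ _)
  refine ⟨_, k', v', hk', hv2, ?_⟩
  have hG : up ℚ G0.primPart ≠ 0 := (Polynomial.map_ne_zero_iff hinj).2 hp.ne_zero
  have h5 := EuclideanDomain.gcd_eq_gcd_ab (up ℚ k) (up ℚ v)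
  rw [← hq] at h5
  generalize EuclideanDomain.gcdA (up ℚ k) (up ℚ v) = a at h5
  generalize EuclideanDomain.gcdB (up ℚ k) (up ℚ v) = a' at h5
  have h6 : up ℚ k = up ℚ G0.primPart * up ℚ k' := by
    conv_lhs => rw [hk']
    simp [up]
  have h7 : up ℚ v = up ℚ G0.primPart * up ℚ v' := by
    conv_lhs => rw [hv2]
    simp [up]
  have h8 : C ((G0.content : ℚ) / b) = up ℚ k' * a + up ℚ v' * a' := by
    apply mul_left_cancel₀ hG
    rw [← h4, h5, h6, h7]
    ring
  refine ⟨C ((b : ℚ) / G0.content) * a, C ((b : ℚ) / G0.content) * a', ?_⟩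
  have h9 : C ((b : ℚ) / G0.content) * C ((G0.content : ℚ) / b) = 1 := by
    rw [← C_mul, ← C_1]
    congr 1
    field_simp
  rw [← h9, h8]
  ring

theorem win_ne {k v w : ℤ[X]} (hc : IsCoprime (up ℚ k) (up ℚ v)) (hw : Squarefree (up ℚ w))
    (hd : 0 < w.natDegree) : k ^ 2 + v ^ 2 * w ≠ 0 := by
  intro h
  have hinj : Function.Injective (Int.castRingHom ℚ) := RingHom.injective_int _
  have h1 : up ℚ v * up ℚ v * up ℚ w = -(up ℚ k * up ℚ k) := by
    have := congrArg (up ℚ) h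
    simp only [up, Polynomial.map_add, Polynomial.map_mul, Polynomial.map_pow,
      Polynomial.map_zero] at this
    simp only [up]
    linear_combination this
  have h2 : up ℚ k * up ℚ k ∣ up ℚ w := by
    refine IsCoprime.dvd_of_dvd_mul_left (y := up ℚ v * up ℚ v)
      ((hc.mul_right hc).mul_left (hc.mul_right hc)) ?_
    rw [h1]
    exact dvd_neg.2 dvd_rfl
  have h3 : IsUnit (up ℚ k) := hw _ h2
  have h4 : IsUnit (up ℚ w) := by
    have : IsUnit (up ℚ v * up ℚ v * up ℚ w) := by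
      rw [h1]
      exact (h3.mul h3).neg
    exact isUnit_of_mul_isUnit_right this
  have h5 := natDegree_eq_zero_of_isUnit h4
  rw [natDegree_map_eq_of_injective hinj] at h5
  omega

/-- removal of the common factor of `k` and `v` -/
theorem win_red {n : ℕ} {f E k v w : ℤ[X]} (hm : f.Monic) (hn : f.natDegree = n) (hi : Irr f)
    (he : f * E = k ^ 2 + v ^ 2 * w) (hv : v ≠ 0) (hE : E.natDegree + 2 ≤ n)
    (hk : k.natDegree < n) (hvn : v.natDegree < n) (hw : 0 < w.natDegree)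
    (hs : Squarefree (up ℚ w)) : ∃ E' k' v' : ℤ[X], f * E' = k' ^ 2 + v' ^ 2 * w ∧ E' ≠ 0 ∧ v' ≠ 0 ∧
      IsCoprime (up ℚ k') (up ℚ v') ∧ E'.natDegree + 2 ≤ n ∧ k'.natDegree < n ∧
      E'.supNorm ≤ 4 ^ n * E.supNorm ∧ k'.supNorm ≤ 4 ^ n * k.supNorm ∧
      v'.supNorm ≤ 4 ^ n * v.supNorm := by
  obtain ⟨G, k', v', hk', hv', hc⟩ := win_gcd k v hv
  have hG : G ≠ 0 := by
    rintro rfl
    exact hv (by rw [hv', zero_mul])
  have hv0 : v' ≠ 0 := by
    rintro rfl
    exact hv (by rw [hv', mul_zero])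
  have hp : Prime f :=
    ((IsPrimitive.Int.irreducible_iff_irreducible_map_cast hm.isPrimitive).2 hi).prime
  have h1 : f * E = G ^ 2 * (k' ^ 2 + v' ^ 2 * w) := by
    rw [he, hk', hv']
    ring
  have hGn : G.natDegree < n := (natDegree_le_of_dvd ⟨v', hv'⟩ hv).trans_lt hvn
  have h2 : f ∣ k' ^ 2 + v' ^ 2 * w := by
    rcases hp.dvd_or_dvd (Dvd.intro _ h1) with h | h
    · have := natDegree_le_of_dvd (hp.dvd_of_dvd_pow h) hG
      omega
    · exact h
  obtain ⟨E', hE'⟩ := h2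
  have hE0 : E' ≠ 0 := by
    rintro rfl
    exact win_ne hc hs hw (by rw [hE', mul_zero])
  have h3 : E = G ^ 2 * E' := by
    apply mul_left_cancel₀ hm.ne_zero
    rw [h1, hE']
    ring
  have hE1 : E ≠ 0 := by
    rw [h3]
    exact mul_ne_zero (pow_ne_zero _ hG) hE0
  have hdE : E' ∣ E := Dvd.intro_left _ h3.symm
  have hdv : v' ∣ v := Dvd.intro_left _ hv'.symm
  have hdk : k' ∣ k := Dvd.intro_left _ hk'.symm
  refine ⟨E', k', v', hE'.symm, hE0, hv0, hc, ?_, ?_, sup_le_of_dvd hE1 hdE (by omega), ?_,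
    sup_le_of_dvd hv hdv hvn.le⟩
  · have := natDegree_le_of_dvd hdE hE1
    omega
  · by_cases h0 : k' = 0
    · rw [h0, natDegree_zero]
      omega
    · exact (natDegree_le_of_dvd hdk (by rw [hk']; exact mul_ne_zero hG h0)).trans_lt hk
  · by_cases h0 : k' = 0
    · rw [h0, supNorm_zero]
      exact mul_nonneg (by positivity) (supNorm_nonneg _)
    · exact sup_le_of_dvd (by rw [hk']; exact mul_ne_zero hG h0) hdk hk.le

/-- equal values at all roots of `E` give a congruence modulo `E` -/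
theorem win_loc {E k k' v w : ℂ[X]} (hE : E ≠ 0) (hc : IsCoprime k v) (hw : Squarefree w)
    (h1 : E ∣ k ^ 2 + v ^ 2 * w) (h2 : E ∣ k' ^ 2 + v ^ 2 * w)
    (h : ∀ z, E.eval z = 0 → k.eval z = k'.eval z) : E ∣ k - k' := by
  classical
  by_cases h0 : k - k' = 0
  · rw [h0]
    exact dvd_zero _
  refine (IsAlgClosed.splits E).dvd_of_roots_le_roots hE (Multiset.le_iff_count.2 fun z => ?_)
  rw [count_roots, count_roots, le_rootMultiplicity_iff h0]
  have hμ := pow_rootMultiplicity_dvd E z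
  generalize rootMultiplicity z E = μ at hμ
  rcases μ with _ | μ
  · simp
  have hz : E.eval z = 0 := dvd_iff_isRoot.1 ((dvd_pow_self _ μ.succ_ne_zero).trans hμ)
  have hkk := h z hz
  have hirr := irreducible_X_sub_C z
  by_cases hk : k.eval z = 0
  · have hvz : ¬ (X - C z) ∣ v := fun hd =>
      hirr.not_isUnit (hc.isUnit_of_dvd' (dvd_iff_isRoot.2 hk) hd)
    rcases μ with _ | μ
    · rw [zero_add, pow_one, dvd_iff_isRoot, IsRoot, eval_sub, hkk, sub_self]
    exfalso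
    have h3 : (X - C z) ^ 2 ∣ v ^ 2 * w :=
      (dvd_add_right (pow_dvd_pow_of_dvd (dvd_iff_isRoot.2 hk) 2)).1
        (((pow_dvd_pow _ (by omega)).trans hμ).trans h1)
    have h4 : (X - C z) ^ 2 ∣ w :=
      ((hirr.coprime_iff_not_dvd.2 hvz).pow (m := 2) (n := 2)).dvd_of_dvd_mul_left h3
    exact hirr.not_isUnit (hw _ (by rwa [sq] at h4))
  · have hs : ¬ (X - C z) ∣ k + k' := by
      rw [dvd_iff_isRoot, IsRoot, eval_add, ← hkk, ← two_mul]
      exact mul_ne_zero two_ne_zero hk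
    have h3 : E ∣ (k + k') * (k - k') := by
      have := dvd_sub h1 h2
      rwa [show k ^ 2 + v ^ 2 * w - (k' ^ 2 + v ^ 2 * w) = (k + k') * (k - k') by ring] at this
    exact ((hirr.coprime_iff_not_dvd.2 hs).pow_left).dvd_of_dvd_mul_left (hμ.trans h3)

theorem win_sq (a c : ℂ) (ha : a ≠ 0) : Cnt (fun z : ℂ => a * z ^ 2 = c) 2 := by
  have hd : (C a * X ^ 2 - C c : ℂ[X]).natDegree = 2 := by
    rw [natDegree_sub_C, natDegree_C_mul_X_pow _ _ ha]
  have h := cnt_roots (C a * X ^ 2 - C c : ℂ[X]) (by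
    intro h0
    rw [h0] at hd
    simp at hd)
  refine h.mono (fun z hz => ?_) (by rw [hd]; norm_num)
  simp [hz]

/-- the number of `k` for given `E`, `v`, `w` -/
theorem win_k (E v w : ℤ[X]) (e t : ℕ) (T : ℝ) (hT : 0 ≤ T) (P : ℤ[X] → Prop)
    (h1 : ∀ k, P k → E ≠ 0 ∧ E.natDegree = e ∧ Squarefree (up ℚ w) ∧
      IsCoprime (up ℚ k) (up ℚ v) ∧ E ∣ k ^ 2 + v ^ 2 * w ∧ k.supNorm ≤ T)
    (h2 : ∀ k k', P k → P k' → (k - k').degree < t) :
    Cnt P (2 ^ e * (2 * T + 1) ^ (t - e)) := by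
  refine Cnt.of_mem (by positivity) fun a ha => ?_
  obtain ⟨hE, he, hw, -, -, -⟩ := h1 a ha
  have hinj : Function.Injective (Int.castRingHom ℂ) := RingHom.injective_int _
  have hE' : up ℂ E ≠ 0 := (Polynomial.map_ne_zero_iff hinj).2 hE
  have he' : (up ℂ E).natDegree = e := by rw [natDegree_map_eq_of_injective hinj, he]
  have hup : ∀ u : ℤ[X], (up ℚ u).map (algebraMap ℚ ℂ) = up ℂ u := fun u => by
    rw [Polynomial.map_map]
    congr 1
  have hw' : Squarefree (up ℂ w) := by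
    rw [← hup]
    exact ((PerfectField.separable_iff_squarefree.2 hw).map).squarefree
  obtain ⟨θ, hθ⟩ := exists_roots' (up ℂ E) he'
  have hr : ∀ z, (up ℂ E).eval z = 0 ↔ ∃ i, z = θ i := fun z => by
    rw [hθ, eval_mul, eval_C, mul_eq_zero, eval_prod, Finset.prod_eq_zero_iff]
    simp only [leadingCoeff_eq_zero, hE', false_or, Finset.mem_univ, true_and, eval_sub, eval_X,
      eval_C, sub_eq_zero]
  have hdv : ∀ k, P k → up ℂ E ∣ up ℂ k ^ 2 + up ℂ v ^ 2 * up ℂ w := fun k hk => by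
    have := Polynomial.map_dvd (Int.castRingHom ℂ) (h1 k hk).2.2.2.2.1
    simpa only [Polynomial.map_add, Polynomial.map_mul, Polynomial.map_pow] using this
  have hA := Cnt.pi (ι := Fin e) (P := fun i (z : ℂ) =>
    1 * z ^ 2 = -((up ℂ v ^ 2 * up ℂ w).eval (θ i))) (B := fun _ => 2)
    (fun i => win_sq 1 _ one_ne_zero)
  have hB := Cnt.pi (ι := Fin (t - e)) (P := fun _ (z : ℤ) => |(z : ℝ)| ≤ T)
    (B := fun _ => 2 * T + 1) (fun _ => cnt_int_abs T hT)
  have hC := Cnt.prod (Q := fun _ (z : Fin (t - e) → ℤ) => ∀ i, |(z i : ℝ)| ≤ T) hA hB.nonneg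
    (fun _ _ => hB)
  simp only [Finset.prod_const, Finset.card_univ, Fintype.card_fin] at hC
  refine hC.inj (fun k => (fun i => (up ℂ k).eval (θ i), fun j => k.coeff (e + j))) ?_ ?_
  · intro k hk
    refine ⟨fun i => ?_, fun j => ?_⟩
    · have := eval_eq_zero_of_dvd_of_eval_eq_zero (hdv k hk) ((hr _).2 ⟨i, rfl⟩)
      rw [eval_add, eval_pow] at this
      linear_combination this
    · have := sup_le_iff.1 (h1 k hk).2.2.2.2.2 (e + j)
      simpa [Int.norm_eq_abs] using this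
  · intro k k' hk hk' h
    simp only [Prod.mk.injEq] at h
    have hc : IsCoprime (up ℂ k) (up ℂ v) := by
      rw [← hup, ← hup]
      exact (h1 k hk).2.2.2.1.map (mapRingHom (algebraMap ℚ ℂ))
    have h3 := win_loc hE' hc hw' (hdv k hk) (hdv k' hk') (fun z hz => by
      obtain ⟨i, rfl⟩ := (hr z).1 hz
      exact congrFun h.1 i)
    have h4 : (k - k').degree < e := by
      rw [degree_lt_iff_coeff_zero]
      intro m hm
      by_cases hmt : m < t
      · have := congrFun h.2 ⟨m - e, by omega⟩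
        simp only [show e + (m - e) = m by omega] at this
        rw [coeff_sub, this, sub_self]
      · exact (degree_lt_iff_coeff_zero _ _).1 (h2 k k' hk hk') m (by omega)
    have h5 : up ℂ (k - k') = 0 := by
      refine eq_zero_of_dvd_of_degree_lt (p := up ℂ E) (by simpa [up] using h3) ?_
      rw [degree_map_eq_of_injective hinj, degree_eq_natDegree hE', he']
      exact h4
    exact sub_eq_zero.1 ((Polynomial.map_eq_zero_iff hinj).1 h5)

end Pool.Agent.VW
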