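import Pool.Agent.P.MP_b0ea37_nt.WDefs

namespace Pool.Agent.VW

open Polynomial

theorem WOa_card_pow {Q : Type} [AddCommGroup Q] [Finite Q] {p : ℕ} (hp : p.Prime)
    (h : ∀ x : Q, p • x = 0) : ∃ k : ℕ, Nat.card Q = p ^ k := by
  refine ⟨_, Nat.eq_prime_pow_of_unique_prime_dvd Nat.card_pos.ne' fun {d} hd hdvd => ?_⟩
  have := Fact.mk hd
  obtain ⟨x, hx⟩ := exists_prime_addOrderOf_dvd_card' d hdvd
  have h1 := addOrderOf_dvd_of_nsmul_eq_zero (h x)
  rw [hx] at h1
  exact (Nat.prime_dvd_prime_iff_eq hd hp).1 h1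

/-- the chain_j of ideals generated by the powers of `p` in a finite ring -/
theorem chain_j {J : Type} [CommRing J] [Finite J] {p : ℕ} (hp : p.Prime) :
    ∃ (e : ℕ) (I : ℕ → Ideal J) (k : ℕ → ℕ) (D : ℕ),
      (∀ i z, z ∈ I i ↔ (p : J) ^ (i + 1) ∣ (p : J) ^ i * z) ∧
      (∀ i, Nat.card (J ⧸ I i) = p ^ k i) ∧ (∀ i, k (i + 1) ≤ k i) ∧ (∀ i < e, k i ≠ 0) ∧
      Nat.card J = p ^ (∑ i ∈ Finset.range e, k i) * D ∧ ¬ p ∣ D ∧ (p : J) ^ e * (D : J) = 0 := by
  classical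
  obtain ⟨S, hS⟩ : ∃ S : ℕ → Ideal J, ∀ i, S i = Ideal.span {(p : J) ^ i} := ⟨_, fun _ => rfl⟩
  obtain ⟨I, hI⟩ : ∃ I : ℕ → Ideal J, ∀ i z, z ∈ I i ↔ (p : J) ^ (i + 1) ∣ (p : J) ^ i * z :=
    ⟨fun i => Submodule.comap (LinearMap.mulLeft J ((p : J) ^ i)) (Ideal.span {(p : J) ^ (i + 1)}),
      fun i z => by simp [Ideal.mem_span_singleton]⟩
  have hS' : ∀ i z, z ∈ (S i).toAddSubgroup ↔ (p : J) ^ i ∣ z := fun i z => by
    rw [hS]; exact Ideal.mem_span_singleton
  have hk : ∀ i, ∃ k : ℕ, Nat.card (J ⧸ I i) = p ^ k := fun i => by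
    have : Finite (J ⧸ I i) := Finite.of_surjective _ Ideal.Quotient.mk_surjective
    refine WOa_card_pow hp fun x => ?_
    obtain ⟨x, rfl⟩ := Ideal.Quotient.mk_surjective x
    rw [← map_nsmul, Ideal.Quotient.eq_zero_iff_mem, hI, nsmul_eq_mul]
    exact ⟨x, by ring⟩
  choose k hk using hk
  have hk' : ∀ i, (I i).toAddSubgroup.index = p ^ k i := hk
  have hstep : ∀ i, (S (i + 1)).toAddSubgroup.index = p ^ k i * (S i).toAddSubgroup.index := by
    intro i
    have h1 : (S (i + 1)).toAddSubgroup ≤ (S i).toAddSubgroup := fun z hz =>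
      (hS' i z).2 ((pow_dvd_pow _ (Nat.le_succ i)).trans ((hS' _ z).1 hz))
    have h2 : (AddMonoidHom.mulLeft ((p : J) ^ i)).range = (S i).toAddSubgroup := by
      ext z
      rw [hS']
      exact ⟨fun ⟨y, hy⟩ => ⟨y, hy.symm⟩, fun ⟨y, hy⟩ => ⟨y, hy.symm⟩⟩
    have h3 : (S (i + 1)).toAddSubgroup.comap (AddMonoidHom.mulLeft ((p : J) ^ i)) =
        (I i).toAddSubgroup := by
      ext z
      rw [AddSubgroup.mem_comap, hS']
      exact (hI i z).symm
    rw [← AddSubgroup.relIndex_mul_index h1, ← hk', ← h3, AddSubgroup.index_comap, h2]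
  have hidx : ∀ i, (S i).toAddSubgroup.index = p ^ (∑ l ∈ Finset.range i, k l) := by
    intro i
    induction i with
    | zero =>
      rw [Finset.sum_range_zero, pow_zero, AddSubgroup.index_eq_one, eq_top_iff]
      intro z _
      rw [hS']
      simp
    | succ i ih => rw [hstep, ih, Finset.sum_range_succ, pow_add, mul_comm]
  have hex : ∃ e, k e = 0 := by
    by_contra hno
    have h1 : Nat.card J ≤ ∑ l ∈ Finset.range (Nat.card J), k l := by
      calc Nat.card J = ∑ _l ∈ Finset.range (Nat.card J), 1 := by simp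
        _ ≤ _ := Finset.sum_le_sum fun l _ => Nat.one_le_iff_ne_zero.2 fun h => hno ⟨l, h⟩
    have h2 := Nat.le_of_dvd Nat.card_pos (S (Nat.card J)).toAddSubgroup.index_dvd_card
    rw [hidx] at h2
    have h3 := Nat.lt_pow_self (n := ∑ l ∈ Finset.range (Nat.card J), k l) hp.one_lt
    omega
  have he := Nat.find_spec hex
  refine ⟨Nat.find hex, I, k, Nat.card (S (Nat.find hex)).toAddSubgroup, hI, hk, fun i => ?_,
    fun i hi => Nat.find_min hex hi, ?_, fun hd => ?_, ?_⟩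
  · have h1 : (I i).toAddSubgroup ≤ (I (i + 1)).toAddSubgroup := fun z hz => by
      obtain ⟨y, hy⟩ := (hI i z).1 hz
      exact (hI (i + 1) z).2 ⟨y, by linear_combination (p : J) * hy⟩
    have h2 := AddSubgroup.index_dvd_of_le h1
    rw [hk', hk'] at h2
    exact (Nat.pow_dvd_pow_iff_le_right hp.one_lt).1 h2
  · rw [← hidx, AddSubgroup.index_mul_card]
  · have := Fact.mk hp
    obtain ⟨x, hx⟩ := exists_prime_addOrderOf_dvd_card' p hd
    have h1 := hk' (Nat.find hex)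
    rw [he, pow_zero, AddSubgroup.index_eq_one] at h1
    have h2 : (1 : J) ∈ (I (Nat.find hex)).toAddSubgroup := by rw [h1]; trivial
    obtain ⟨u, hu⟩ := (hI _ 1).1 h2
    obtain ⟨y, hy⟩ := (hS' _ x.1).1 x.2
    have h3 : (p : J) * x.1 = 0 := by
      have h4 := congrArg Subtype.val (addOrderOf_nsmul_eq_zero x)
      rw [hx] at h4
      simpa using h4
    have h5 : x = 0 := Subtype.ext (by
      show x.1 = 0
      rw [hy] at h3 ⊢
      linear_combination y * hu + u * h3)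
    rw [h5, addOrderOf_zero] at hx
    exact hp.one_lt.ne hx
  · have h1 := congrArg Subtype.val (card_nsmul_eq_zero'
      (x := (⟨(p : J) ^ Nat.find hex, (hS' _ _).2 dvd_rfl⟩ : (S (Nat.find hex)).toAddSubgroup)))
    rw [mul_comm]
    simpa using h1

/-- a quotient with `p` elements gives a map to the prime field -/
theorem exists_hom_zmod {J : Type} [CommRing J] {p : ℕ} (hp : p.Prime) (I : Ideal J)
    (h : Nat.card (J ⧸ I) = p) : ∃ φ : J →+* ZMod p, ∀ z ∈ I, φ z = 0 := by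
  have : Finite (J ⧸ I) := Nat.finite_of_card_ne_zero (h ▸ hp.ne_zero)
  have := Fintype.ofFinite (J ⧸ I)
  rw [Nat.card_eq_fintype_card] at h
  refine ⟨(ZMod.ringEquivOfPrime (J ⧸ I) hp h).symm.toRingHom.comp (Ideal.Quotient.mk I),
    fun z hz => ?_⟩
  rw [RingHom.comp_apply, Ideal.Quotient.eq_zero_iff_mem.2 hz, map_zero]

end Pool.Agent.VW
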