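import Pool.Agent.P.MP_b0ea37_nt.WDefs

namespace Pool.Agent.VW

open Polynomial

theorem WOb_mod {n : ℕ} {f : ℤ[X]} (hm : f.Monic) (hn : f.natDegree = n) (h : ℤ[X]) :
    (h %ₘ f).degree < n := by
  rw [← hn, ← degree_eq_natDegree hm.ne_zero]
  exact degree_modByMonic_lt h hm

theorem WOb_ker {n m : ℕ} {f g h : ℤ[X]} (hm : f.Monic) (hn : f.natDegree = n)
    (hg : g.natDegree ≤ m) (hh : h.degree < (n + m : ℕ))
    (hI : h ∈ (Ideal.span {f, g} : Ideal ℤ[X])) :
    ∃ p q : ℤ[X], p.degree < n ∧ q.degree < m ∧ f * q + g * p = h := by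
  obtain ⟨a, b, e⟩ := Ideal.mem_span_pair.1 hI
  have hp := WOb_mod hm hn b
  have e2 : f * (a + g * (b /ₘ f)) + g * (b %ₘ f) = h := by
    rw [← e]
    conv_rhs => rw [← modByMonic_add_div b f]
    ring
  refine ⟨b %ₘ f, a + g * (b /ₘ f), hp, ?_, e2⟩
  have h1 : (g * (b %ₘ f)).degree < (n + m : ℕ) := by
    by_cases hg' : g = 0
    · rw [hg', zero_mul, degree_zero]
      exact WithBot.bot_lt_coe _
    · exact (degree_mul_le _ _).trans_lt ((WithBot.add_lt_add_of_le_of_lt (by simpa)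
        (degree_le_of_natDegree_le hg) hp).trans_eq (by rw [add_comm]; rfl))
  have h2 : (f * (a + g * (b /ₘ f))).degree < (n + m : ℕ) := by
    rw [eq_sub_of_add_eq e2]
    exact (degree_sub_le _ _).trans_lt (max_lt hh h1)
  rw [mul_comm, hm.degree_mul, degree_eq_natDegree hm.ne_zero, hn, add_comm n m, Nat.cast_add]
    at h2
  exact WithBot.add_lt_add_iff_right (WithBot.natCast_ne_bot n) |>.1 h2

/-- the index of the ideal `(f, g)` is the resultant -/
theorem card_quot_res {n m : ℕ} {f g : ℤ[X]} (hm : f.Monic) (hn : f.natDegree = n)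
    (hg : g.natDegree ≤ m) (h0 : resultant f g n m ≠ 0) :
    Nat.card (ℤ[X] ⧸ (Ideal.span {f, g} : Ideal ℤ[X])) = (resultant f g n m).natAbs := by
  let S := sylvesterMap f g hn.le hg
  let b₁ := ((degreeLT.basis ℤ n).prod (degreeLT.basis ℤ m)).reindex finSumFinEquiv
  let b₂ := degreeLT.basis ℤ (n + m)
  have hS : Function.Injective S := by
    rw [injective_iff_map_eq_zero]
    intro x hx
    have h1 : adjSylvester f g (S x) = resultant f g n m • x :=
      LinearMap.congr_fun (adjSylvester_comp_sylveserMap f g hn.le hg) x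
    rw [hx, map_zero] at h1
    exact (smul_eq_zero.1 h1.symm).resolve_left h0
  have : Module.Free ℤ (degreeLT ℤ (n + m)) := Module.Free.of_basis b₂
  have : Module.Finite ℤ (degreeLT ℤ (n + m)) := Module.Finite.of_basis b₂
  have h1 := Submodule.natAbs_det_basis_change b₂ (LinearMap.range S)
    (b₁.map (LinearEquiv.ofInjective S hS))
  have h2 : b₂.det ((↑) ∘ b₁.map (LinearEquiv.ofInjective S hS)) = resultant f g n m := by
    rw [Module.Basis.det_apply, resultant, ← toMatrix_sylvesterMap' f g hn.le hg]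
    congr 1
    ext i j
    rw [Module.Basis.toMatrix_apply, LinearMap.toMatrix_apply]
    rfl
  rw [← h2, h1]
  let φ : degreeLT ℤ (n + m) →ₗ[ℤ] ℤ[X] ⧸ (Ideal.span {f, g} : Ideal ℤ[X]) :=
    (Ideal.Quotient.mk (Ideal.span {f, g} : Ideal ℤ[X])).toAddMonoidHom.toIntLinearMap ∘ₗ
      (degreeLT ℤ (n + m)).subtype
  have hφ : ∀ x, φ x = Ideal.Quotient.mk (Ideal.span {f, g} : Ideal ℤ[X]) x.1 := fun _ => rfl
  have hs : Function.Surjective φ := fun y => by
    obtain ⟨h, rfl⟩ := Ideal.Quotient.mk_surjective y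
    refine ⟨⟨h %ₘ f, mem_degreeLT.2 ((WOb_mod hm hn h).trans_le ?_)⟩, ?_⟩
    · exact_mod_cast Nat.le_add_right n m
    · rw [hφ, Ideal.Quotient.eq]
      exact Ideal.mem_span_pair.2 ⟨-(h /ₘ f), 0, by
        change _ = h %ₘ f - h
        rw [modByMonic_eq_sub_mul_div h f]
        ring⟩
  have hk : LinearMap.ker φ = LinearMap.range S := by
    ext x
    rw [LinearMap.mem_ker, hφ, Ideal.Quotient.eq_zero_iff_mem, LinearMap.mem_range]
    constructor
    · intro hI
      obtain ⟨p, q, hp, hq, e⟩ := WOb_ker hm hn hg (mem_degreeLT.1 x.2) hI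
      exact ⟨(⟨p, mem_degreeLT.2 hp⟩, ⟨q, mem_degreeLT.2 hq⟩), Subtype.ext e⟩
    · rintro ⟨y, rfl⟩
      exact Ideal.mem_span_pair.2 ⟨y.2, y.1, by
        rw [mul_comm, mul_comm y.1.1]
        rfl⟩
  rw [← hk]
  exact (Nat.card_congr (φ.quotKerEquivOfSurjective hs).toEquiv).symm

end Pool.Agent.VW
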