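import Pool.Agent.P.MP_b0ea37_nt.WSym

namespace Pool.Agent.VW

open Polynomial

theorem WOc_split {R : Type} [CommRing R] {n : ℕ} (θ : Fin n → R) (i : Fin n) :
    ∏ j, ∏ l ∈ Finset.univ.erase j, (θ j - θ l) =
      (-1) ^ (n - 1) * (∏ j ∈ Finset.univ.erase i, (θ i - θ j)) ^ 2 *
        ∏ j ∈ Finset.univ.erase i, ∏ l ∈ (Finset.univ.erase i).erase j, (θ j - θ l) := by
  rw [← Finset.mul_prod_erase _ _ (Finset.mem_univ i)]
  have h1 : ∀ j ∈ Finset.univ.erase i, ∏ l ∈ Finset.univ.erase j, (θ j - θ l) =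
      (-1) * (θ i - θ j) * ∏ l ∈ (Finset.univ.erase i).erase j, (θ j - θ l) := by
    intro j hj
    have hi : i ∈ Finset.univ.erase j :=
      Finset.mem_erase.2 ⟨(Finset.mem_erase.1 hj).1.symm, Finset.mem_univ _⟩
    rw [← Finset.mul_prod_erase _ _ hi, Finset.erase_right_comm]
    ring
  rw [Finset.prod_congr rfl h1, Finset.prod_mul_distrib, Finset.prod_mul_distrib,
    Finset.prod_const, Finset.card_erase_of_mem (Finset.mem_univ i), Finset.card_univ,
    Fintype.card_fin]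
  ring

theorem WOc_der {K : Type} [Field K] {n : ℕ} (θ : Fin n → K) (i : Fin n) :
    (derivative (∏ j, (X - C (θ j)))).eval (θ i) = ∏ j ∈ Finset.univ.erase i, (θ i - θ j) := by
  have h := Lagrange.eval_nodal_derivative_eval_node_eq (s := Finset.univ) (v := θ)
    (Finset.mem_univ i)
  rw [Lagrange.eval_nodal] at h
  exact h

/-- if `Dv / s` lies in the ideal `(f, f')` then `s` divides every `Phi` -/
theorem dvd_Phi_of_mem {n : ℕ} (h1 : 1 ≤ n) {f : ℤ[X]} (hm : f.Monic) (hn : f.natDegree = n)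
    (h0 : Dv n f ≠ 0) {s c : ℤ} (hD : Dv n f = s * c)
    (hc : C c ∈ (Ideal.span {f, derivative f} : Ideal ℤ[X])) (k : ℕ) : s ∣ Phi n k f := by
  obtain ⟨θ, hθ⟩ := exists_roots (up ℂ f) (hm.map _) ((hm.natDegree_map _).trans hn)
  have hθ' : f.map (Int.castRingHom ℂ) = ∏ i, (X - C (θ i)) := hθ
  have hDC : ((Dv n f : ℤ) : ℂ) = Dv n (∏ i, (X - C (θ i))) := by
    rw [← hθ', Dv_map]; rfl
  have hinj : Function.Injective θ := by
    by_contra hni
    have := (Dv_eq_zero_iff θ).2 hni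
    rw [← hDC] at this
    exact h0 (by exact_mod_cast this)
  obtain ⟨u, w, huw⟩ := Ideal.mem_span_pair.1 hc
  have hroot : ∀ i, (f.map (Int.castRingHom ℂ)).eval (θ i) = 0 := by
    intro i
    rw [hθ', eval_prod]
    exact Finset.prod_eq_zero (Finset.mem_univ i) (by simp)
  have hd : ∀ i, ∏ j ∈ Finset.univ.erase i, (θ i - θ j) ≠ 0 := fun i =>
    Finset.prod_ne_zero_iff.2 fun j hj =>
      sub_ne_zero.2 fun h => (Finset.mem_erase.1 hj).1 (hinj h).symm
  have hw : ∀ i, (w.map (Int.castRingHom ℂ)).eval (θ i) *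
      ∏ j ∈ Finset.univ.erase i, (θ i - θ j) = (c : ℂ) := by
    intro i
    have h2 := congrArg (fun p : ℤ[X] => (p.map (Int.castRingHom ℂ)).eval (θ i)) huw
    simp only [Polynomial.map_add, Polynomial.map_mul, eval_add, eval_mul, hroot, mul_zero,
      zero_add, map_C, eval_C, ← derivative_map] at h2
    rw [hθ', WOc_der] at h2
    simpa using h2
  have hc0 : (c : ℂ) ≠ 0 := by
    have : c ≠ 0 := fun h => h0 (by rw [hD, h, mul_zero])
    exact_mod_cast this
  have heta : ∀ i, ∏ j ∈ Finset.univ.erase i, ∏ l ∈ (Finset.univ.erase i).erase j, (θ j - θ l) =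
      (-1) ^ (n - 1) * (s : ℂ) * ((w.map (Int.castRingHom ℂ)).eval (θ i) /
        ∏ j ∈ Finset.univ.erase i, (θ i - θ j)) := by
    intro i
    have h3 := WOc_split θ i
    rw [← Dv_roots, ← hDC, hD, Int.cast_mul, ← hw i] at h3
    have h4 : ((-1 : ℂ) ^ (n - 1)) * (-1) ^ (n - 1) = 1 := by
      rw [← mul_pow]; simp
    have h5 := hd i
    generalize ∏ j ∈ Finset.univ.erase i, (θ i - θ j) = d at h3 h5
    generalize ∏ j ∈ Finset.univ.erase i, ∏ l ∈ (Finset.univ.erase i).erase j, (θ j - θ l) = e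
      at h3
    generalize (w.map (Int.castRingHom ℂ)).eval (θ i) = a at h3
    generalize (-1 : ℂ) ^ (n - 1) = σ at h3 h4
    field_simp
    have h6 : d * (e * d - σ * s * a) = 0 := by
      linear_combination (-σ) * h3 - (d ^ 2 * e) * h4
    have h7 := (mul_eq_zero.1 h6).resolve_left h5
    linear_combination h7
  have hg : ((X ^ k * w) %ₘ f).degree < n := by
    have := degree_modByMonic_lt (X ^ k * w) hm
    rwa [degree_eq_natDegree hm.ne_zero, hn] at this
  have hgv : ∀ i, (((X ^ k * w) %ₘ f).map (Int.castRingHom ℂ)).eval (θ i) =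
      θ i ^ k * (w.map (Int.castRingHom ℂ)).eval (θ i) := by
    intro i
    have h2 := congrArg (fun p : ℤ[X] => (p.map (Int.castRingHom ℂ)).eval (θ i))
      (modByMonic_add_div (X ^ k * w) f)
    simpa [hroot] using h2
  have hL := Lagrange.coeff_eq_sum (s := Finset.univ) (v := θ) hinj.injOn
    (P := ((X ^ k * w) %ₘ f).map (Int.castRingHom ℂ))
    (by simpa using lt_of_le_of_lt degree_map_le hg)
  rw [Finset.card_univ, Fintype.card_fin, coeff_map] at hL
  refine ⟨(-1) ^ (n - 1) * ((X ^ k * w) %ₘ f).coeff (n - 1), ?_⟩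
  have hP : ((Phi n k f : ℤ) : ℂ) = Phi n k (∏ i, (X - C (θ i))) := by
    rw [← hθ', Phi_map]; rfl
  have hE : ((Phi n k f : ℤ) : ℂ) =
      (s : ℂ) * ((-1) ^ (n - 1) * ((((X ^ k * w) %ₘ f).coeff (n - 1) : ℤ) : ℂ)) := by
    rw [hP, Phi_roots]
    have h8 : ((((X ^ k * w) %ₘ f).coeff (n - 1) : ℤ) : ℂ) = _ := hL
    rw [h8, Finset.mul_sum, Finset.mul_sum]
    refine Finset.sum_congr rfl fun i _ => ?_
    rw [heta i, hgv i]
    ring
  exact_mod_cast hE

end Pool.Agent.VW
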