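import Pool.Agent.P.MP_b0ea37_nt.WDefs

namespace Pool.Agent.VW

open Polynomial

theorem WOd_lift {p : ℕ} (G : (ZMod p)[X]) : ∃ g : ℤ[X], up (ZMod p) g = G :=
  map_surjective _ (ZMod.ringHom_surjective _) G

theorem WOd_ker {p : ℕ} {g : ℤ[X]} (h : up (ZMod p) g = 0) : ∃ u : ℤ[X], g = C (p : ℤ) * u := by
  have : C (p : ℤ) ∣ g := by
    rw [C_dvd_iff_dvd_coeff]
    intro i
    have h2 := congrArg (fun q => coeff q i) h
    simp only [coeff_map, coeff_zero, eq_intCast] at h2
    exact (ZMod.intCast_zmod_eq_zero_iff_dvd _ _).1 h2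
  exact this

theorem WOd_eval {p : ℕ} (g : ℤ[X]) (r : ℤ) :
    (up (ZMod p) g).eval (r : ZMod p) = ((g.eval r : ℤ) : ZMod p) := by
  simp

/-- at a rational multiple root that is not weak, `p` times a unit lies in `(f, f')` -/
theorem exists_unit_mul {n p : ℕ} (hp : p.Prime) (hnp : n < p) {f : ℤ[X]} (hm : f.Monic)
    (hn : f.natDegree = n) {r : ℤ} (h1 : (p : ℤ) ∣ f.eval r) (h2 : (p : ℤ) ∣ (derivative f).eval r)
    (h3 : ¬ (p : ℤ) ^ 2 ∣ f.eval r) :
    ∃ z : ℤ[X], ¬ (p : ℤ) ∣ z.eval r ∧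
      C (p : ℤ) * z ∈ (Ideal.span {f, derivative f} : Ideal ℤ[X]) := by
  have _ := h2
  have : Fact p.Prime := ⟨hp⟩
  have hF : (up (ZMod p) f).Monic := hm.map _
  have hF0 : up (ZMod p) f ≠ 0 := hF.ne_zero
  have hdeg : (up (ZMod p) f).natDegree = n := by rw [hm.natDegree_map, hn]
  have hroot : (up (ZMod p) f).IsRoot (r : ZMod p) := by
    rw [IsRoot, WOd_eval, ZMod.intCast_zmod_eq_zero_iff_dvd]; exact h1
  have hpos : 0 < rootMultiplicity (r : ZMod p) (up (ZMod p) f) :=
    (rootMultiplicity_pos hF0).2 hroot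
  have hle : rootMultiplicity (r : ZMod p) (up (ZMod p) f) ≤ n := by
    have := natDegree_le_of_dvd (pow_rootMultiplicity_dvd (up (ZMod p) f) (r : ZMod p)) hF0
    rwa [natDegree_pow, natDegree_X_sub_C, mul_one, hdeg] at this
  obtain ⟨Hb, hHb, hnd⟩ := exists_eq_pow_rootMultiplicity_mul_and_not_dvd _ hF0 (r : ZMod p)
  obtain ⟨a, ha⟩ : ∃ a, rootMultiplicity (r : ZMod p) (up (ZMod p) f) = a + 1 :=
    ⟨_, (Nat.succ_pred_eq_of_pos hpos).symm⟩
  rw [ha] at hHb hle
  obtain ⟨h, rfl⟩ := WOd_lift Hb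
  have hz : up (ZMod p) (f - (X - C r) ^ (a + 1) * h) = 0 := by
    have : up (ZMod p) (f - (X - C r) ^ (a + 1) * h) =
        up (ZMod p) f - (X - C (r : ZMod p)) ^ (a + 1) * up (ZMod p) h := by
      simp [up, Polynomial.map_sub, Polynomial.map_mul, Polynomial.map_pow]
    rw [this, sub_eq_zero]; exact hHb
  obtain ⟨u, hu⟩ := WOd_ker hz
  have hf : f = (X - C r) ^ (a + 1) * h + C (p : ℤ) * u := by rw [← hu]; ring
  have hf' : derivative f = C ((a : ℤ) + 1) * (X - C r) ^ a * h +
      (X - C r) ^ (a + 1) * derivative h + C (p : ℤ) * derivative u := by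
    rw [hf, derivative_add, derivative_mul, derivative_X_sub_C_pow, derivative_C_mul]
    simp
  have hfr : f.eval r = p * u.eval r := by
    rw [hf]; simp
  have hpz : Prime (p : ℤ) := Nat.prime_iff_prime_int.1 hp
  refine ⟨u * (C ((a : ℤ) + 1) * h + (X - C r) * derivative h) -
    (X - C r) * h * derivative u, ?_, ?_⟩
  · have : eval r (u * (C ((a : ℤ) + 1) * h + (X - C r) * derivative h) -
        (X - C r) * h * derivative u) = u.eval r * (((a : ℤ) + 1) * h.eval r) := by simp
    rw [this]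
    intro hd
    rcases hpz.dvd_or_dvd hd with h4 | h4
    · apply h3
      rw [hfr, sq]; exact mul_dvd_mul_left _ h4
    · rcases hpz.dvd_or_dvd h4 with h5 | h5
      · have h6 : p ∣ a + 1 := by exact_mod_cast h5
        have := Nat.le_of_dvd (Nat.succ_pos a) h6
        omega
      · apply hnd
        rw [dvd_iff_isRoot, IsRoot, WOd_eval, ZMod.intCast_zmod_eq_zero_iff_dvd]; exact h5
  · rw [Ideal.mem_span_pair]
    refine ⟨C ((a : ℤ) + 1) * h + (X - C r) * derivative h, -((X - C r) * h), ?_⟩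
    rw [hf']
    nth_rewrite 1 [hf]
    ring

theorem WOd_mult {K : Type} [Field K] {n p : ℕ} [CharP K p] (hnp : n < p) {F d a b : K[X]}
    (hF0 : F ≠ 0) (hdeg : F.natDegree = n) (h1 : d ∣ F) (h2 : d ∣ derivative F)
    (h3 : d = F * a + derivative F * b) (t : K) :
    rootMultiplicity t d = rootMultiplicity t F - 1 := by
  have hd0 : d ≠ 0 := by
    rintro rfl
    exact hF0 (zero_dvd_iff.1 h1)
  apply le_antisymm
  · by_cases ht : F.IsRoot t
    · have hpos : 0 < rootMultiplicity t F := (rootMultiplicity_pos hF0).2 ht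
      have hle : rootMultiplicity t F ≤ n := by
        have := natDegree_le_of_dvd (pow_rootMultiplicity_dvd F t) hF0
        rwa [natDegree_pow, natDegree_X_sub_C, mul_one, hdeg] at this
      have hne : ((rootMultiplicity t F : ℕ) : K) ≠ 0 := by
        intro h
        have := Nat.le_of_dvd hpos ((CharP.cast_eq_zero_iff K p _).1 h)
        omega
      have hnK : ((n : ℕ) : K) ≠ 0 := by
        intro h
        have := Nat.le_of_dvd (by omega) ((CharP.cast_eq_zero_iff K p _).1 h)
        omega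
      have hF' : derivative F ≠ 0 := by
        intro h
        have h4 := congrArg (fun q => coeff q (n - 1)) h
        simp only [coeff_derivative, coeff_zero] at h4
        have h5 : n - 1 + 1 = n := by omega
        have h6 : ((n - 1 : ℕ) : K) + 1 = (n : K) := by
          rw [← Nat.cast_succ, Nat.succ_eq_add_one, h5]
        rw [h5, h6] at h4
        rcases mul_eq_zero.1 h4 with h7 | h7
        · rw [← hdeg] at h7
          exact hF0 (leadingCoeff_eq_zero.1 h7)
        · exact hnK h7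
      rw [← derivative_rootMultiplicity_of_root_of_mem_nonZeroDivisors ht
        (mem_nonZeroDivisors_of_ne_zero hne), le_rootMultiplicity_iff hF']
      exact (pow_rootMultiplicity_dvd d t).trans h2
    · have : ¬ d.IsRoot t := fun h => ht (h.dvd h1)
      rw [rootMultiplicity_eq_zero this]
      exact Nat.zero_le _
  · rw [le_rootMultiplicity_iff hd0, h3]
    refine dvd_add (Dvd.dvd.mul_right ?_ _) (Dvd.dvd.mul_right ?_ _)
    · exact (pow_dvd_pow _ (Nat.sub_le _ _)).trans (pow_rootMultiplicity_dvd F t)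
    · exact pow_sub_one_dvd_derivative_of_pow_dvd (pow_rootMultiplicity_dvd F t)

theorem WOd_deg {K : Type} [Field K] [DecidableEq K] {n p : ℕ} [CharP K p] (hnp : n < p)
    {F d a b : K[X]} {θ : Fin n → K} (hθ : Roots F θ) (h1 : d ∣ F) (h2 : d ∣ derivative F)
    (h3 : d = F * a + derivative F * b) :
    d.natDegree = n - (Finset.univ.image θ).card := by
  have hmon : F.Monic := by
    rw [hθ]; exact monic_prod_of_monic _ _ fun i _ => monic_X_sub_C _
  have hF0 : F ≠ 0 := hmon.ne_zero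
  have hdeg : F.natDegree = n := by
    rw [hθ, natDegree_prod_of_monic _ _ fun i _ => monic_X_sub_C _]
    simp
  have hs : F.Splits := by
    rw [hθ]; exact Splits.prod fun i _ => Splits.X_sub_C _
  have hd0 : d ≠ 0 := by
    rintro rfl
    exact hF0 (zero_dvd_iff.1 h1)
  have hsd : d.Splits := hs.of_dvd hF0 h1
  have himg : F.roots.toFinset = Finset.univ.image θ := by
    ext t
    rw [Multiset.mem_toFinset, mem_roots hF0, hθ, IsRoot, eval_prod, Finset.prod_eq_zero_iff]
    simp [sub_eq_zero, eq_comm]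
  have e1 : ∑ t ∈ F.roots.toFinset, d.roots.count t = d.roots.card :=
    Multiset.sum_count_eq_card fun t ht => by
      rw [Multiset.mem_toFinset, mem_roots hF0]
      exact ((mem_roots hd0).1 ht).dvd h1
  have e2 : ∑ t ∈ F.roots.toFinset, F.roots.count t = F.roots.card :=
    Multiset.toFinset_sum_count_eq _
  have e3 : ∑ t ∈ F.roots.toFinset, F.roots.count t =
      ∑ t ∈ F.roots.toFinset, (d.roots.count t + 1) := by
    refine Finset.sum_congr rfl fun t ht => ?_
    rw [Multiset.mem_toFinset, mem_roots hF0] at ht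
    have := (rootMultiplicity_pos hF0).2 ht
    rw [count_roots, count_roots, WOd_mult hnp hF0 hdeg h1 h2 h3 t]
    omega
  rw [Finset.sum_add_distrib, e1, e2, ← hs.natDegree_eq_card_roots, ← hsd.natDegree_eq_card_roots,
    hdeg, himg] at e3
  simp only [Finset.sum_const, smul_eq_mul, mul_one] at e3
  omega

/-- the size of the quotient by `(f, f', p)` counts the repeated roots -/
theorem card_mod_p {n p : ℕ} (hp : p.Prime) (hnp : n < p) {f : ℤ[X]} (hm : f.Monic)
    (hn : f.natDegree = n) {K : Type} [Field K] [DecidableEq K] [CharP K p] {θ : Fin n → K}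
    (hθ : Roots (up K f) θ) (I : Ideal (ℤ[X] ⧸ (Ideal.span {f, derivative f} : Ideal ℤ[X])))
    (hI : ∀ z, z ∈ I ↔ (p : ℤ[X] ⧸ (Ideal.span {f, derivative f} : Ideal ℤ[X])) ∣ z) :
    Nat.card ((ℤ[X] ⧸ (Ideal.span {f, derivative f} : Ideal ℤ[X])) ⧸ I) =
      p ^ (n - (Finset.univ.image θ).card) := by
  classical
  have _ := hn
  have : Fact p.Prime := ⟨hp⟩
  have hF0 : up (ZMod p) f ≠ 0 := (hm.map _).ne_zero
  obtain ⟨d, hd⟩ : ∃ d, d = EuclideanDomain.gcd (up (ZMod p) f) (derivative (up (ZMod p) f)) :=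
    ⟨_, rfl⟩
  have h1 : d ∣ up (ZMod p) f := hd ▸ EuclideanDomain.gcd_dvd_left _ _
  have h2 : d ∣ derivative (up (ZMod p) f) := hd ▸ EuclideanDomain.gcd_dvd_right _ _
  obtain ⟨a, b, h3⟩ : ∃ a b, d = up (ZMod p) f * a + derivative (up (ZMod p) f) * b :=
    ⟨_, _, hd.trans (EuclideanDomain.gcd_eq_gcd_ab _ _)⟩
  have hd0 : d ≠ 0 := by
    rintro rfl
    exact hF0 (zero_dvd_iff.1 h1)
  have hmapf : (up (ZMod p) f).map (ZMod.castHom (dvd_refl p) K) = up K f := by
    rw [up, up, map_map, Subsingleton.elim ((ZMod.castHom (dvd_refl p) K).comp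
      (Int.castRingHom (ZMod p))) (Int.castRingHom K)]
  have hdeg : d.natDegree = n - (Finset.univ.image θ).card := by
    rw [← natDegree_map (ZMod.castHom (dvd_refl p) K)]
    refine WOd_deg hnp hθ (a := a.map (ZMod.castHom (dvd_refl p) K))
      (b := b.map (ZMod.castHom (dvd_refl p) K)) ?_ ?_ ?_
    · rw [← hmapf]; exact Polynomial.map_dvd _ h1
    · rw [← hmapf, derivative_map]; exact Polynomial.map_dvd _ h2
    · rw [← hmapf, derivative_map, ← Polynomial.map_mul, ← Polynomial.map_mul,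
        ← Polynomial.map_add, ← h3]
  let ψ : ℤ[X] →+* AdjoinRoot d := (AdjoinRoot.mk d).comp (mapRingHom (Int.castRingHom (ZMod p)))
  have hψ : ∀ g, ψ g = AdjoinRoot.mk d (up (ZMod p) g) := fun g => rfl
  have hkill : ∀ g ∈ (Ideal.span {f, derivative f} : Ideal ℤ[X]), ψ g = 0 := by
    intro g hg
    obtain ⟨u, w, rfl⟩ := Ideal.mem_span_pair.1 hg
    have e1 : ψ f = 0 := by rw [hψ, AdjoinRoot.mk_eq_zero]; exact h1
    have e2 : ψ (derivative f) = 0 := by
      rw [hψ, AdjoinRoot.mk_eq_zero, up, ← derivative_map]; exact h2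
    rw [map_add, map_mul, map_mul, e1, e2]; simp
  let φ := Ideal.Quotient.lift (Ideal.span {f, derivative f} : Ideal ℤ[X]) ψ hkill
  have hφ : ∀ g, φ (Ideal.Quotient.mk _ g) = ψ g := fun g => rfl
  have hsurj : Function.Surjective φ := by
    intro y
    obtain ⟨G, rfl⟩ := AdjoinRoot.mk_surjective y
    obtain ⟨g, rfl⟩ := WOd_lift G
    exact ⟨Ideal.Quotient.mk _ g, rfl⟩
  have hker : RingHom.ker φ = I := by
    ext z
    rw [RingHom.mem_ker, hI]
    constructor
    · intro hz
      obtain ⟨g, rfl⟩ := Ideal.Quotient.mk_surjective z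
      rw [hφ, hψ, AdjoinRoot.mk_eq_zero] at hz
      obtain ⟨c, hc⟩ := hz
      obtain ⟨a', ha'⟩ := WOd_lift (a * c)
      obtain ⟨b', hb'⟩ := WOd_lift (b * c)
      have hz : up (ZMod p) (g - (a' * f + b' * derivative f)) = 0 := by
        have : up (ZMod p) (g - (a' * f + b' * derivative f)) = up (ZMod p) g -
            (up (ZMod p) a' * up (ZMod p) f + up (ZMod p) b' * derivative (up (ZMod p) f)) := by
          simp only [up, Polynomial.map_sub, Polynomial.map_add, Polynomial.map_mul,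
            derivative_map]
        rw [this, ha', hb', hc, h3]; ring
      obtain ⟨u, hu⟩ := WOd_ker hz
      refine ⟨Ideal.Quotient.mk _ u, ?_⟩
      have : (p : ℤ[X] ⧸ (Ideal.span {f, derivative f} : Ideal ℤ[X])) =
          Ideal.Quotient.mk _ (C (p : ℤ)) := by simp
      rw [this, ← map_mul, Ideal.Quotient.eq, Ideal.mem_span_pair]
      exact ⟨a', b', by rw [← hu]; ring⟩
    · rintro ⟨w, rfl⟩
      have : φ (p : ℤ[X] ⧸ (Ideal.span {f, derivative f} : Ideal ℤ[X])) = 0 := by
        rw [map_natCast, ← map_natCast (AdjoinRoot.of d), ZMod.natCast_self, map_zero]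
      rw [map_mul, this, zero_mul]
  rw [← hker, Nat.card_congr (RingHom.quotientKerEquivOfSurjective hsurj).toEquiv]
  have := (AdjoinRoot.powerBasis hd0).finite
  rw [Module.natCard_eq_pow_finrank (K := ZMod p), Nat.card_zmod,
    (AdjoinRoot.powerBasis hd0).finrank, AdjoinRoot.powerBasis_dim, hdeg]

end Pool.Agent.VW
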