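import Pool.Agent.P.MP_b0ea37_nt.WDefs

namespace Pool.Agent.VW

open Polynomial

/-- the integer point `a` lies on one of the parametrised sets over a field of characteristic `p` -/
def OnV {m N k : ℕ} (P : Fin m → Fin N → MvPolynomial (Fin k) ℤ) (p : ℕ) (a : Fin N → ℤ) : Prop :=
  ∃ (K : Type) (_ : Field K) (_ : CharP K p) (φ : Fin m) (z : Fin k → K),
    ∀ i, (a i : K) = MvPolynomial.eval₂ (Int.castRingHom K) z (P φ i)

/-- projection along the direction `(1, v)` -/
def shr {N : ℕ} (v : Fin N → ℤ) (a : Fin (N + 1) → ℤ) : Fin N → ℤ :=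
  fun i => a i.succ - v i * a 0

theorem OnV.congr {m N k : ℕ} {P : Fin m → Fin N → MvPolynomial (Fin k) ℤ} {p : ℕ}
    {a b : Fin N → ℤ} (h : OnV P p a) (hab : ∀ i, (p : ℤ) ∣ b i - a i) : OnV P p b := by
  obtain ⟨K, hK, hp, φ, z, hz⟩ := h
  refine ⟨K, hK, hp, φ, z, fun i => ?_⟩
  have := (CharP.intCast_eq_zero_iff K p _).2 (hab i)
  rw [Int.cast_sub, sub_eq_zero] at this
  rw [this, hz]

theorem wxa_rel {N k : ℕ} (hk : k < N) (P : Fin N → MvPolynomial (Fin k) ℤ) :
    ∃ R : MvPolynomial (Fin N) ℤ, R ≠ 0 ∧ MvPolynomial.aeval P R = 0 := by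
  by_contra h
  push Not at h
  have hi : AlgebraicIndependent ℤ P :=
    algebraicIndependent_iff.2 fun R hR => by_contra fun h0 => h R h0 hR
  have := hi.cardinalMk_le_trdeg
  rw [MvPolynomial.trdeg_of_isDomain] at this
  simp only [Cardinal.mk_fintype, Fintype.card_fin, Cardinal.lift_natCast, Nat.cast_le] at this
  omega

/-- more polynomials than variables satisfy a relation -/
theorem exists_rel {m N k : ℕ} (hk : k < N) (P : Fin m → Fin N → MvPolynomial (Fin k) ℤ) :
    ∃ R : MvPolynomial (Fin N) ℤ, R ≠ 0 ∧ ∀ φ, MvPolynomial.aeval (P φ) R = 0 := by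
  choose R h0 hR using fun φ => wxa_rel hk (P φ)
  refine ⟨∏ φ, R φ, Finset.prod_ne_zero_iff.2 fun φ _ => h0 φ, fun φ => ?_⟩
  rw [map_prod]
  exact Finset.prod_eq_zero (Finset.mem_univ φ) (hR φ)

theorem wxa_prod {ι : Type} (s : Finset ι) (l : ι → ℤ[X]) (hl : ∀ i, (l i).natDegree ≤ 1)
    (e : ι → ℕ) : (∏ i ∈ s, l i ^ e i).natDegree ≤ ∑ i ∈ s, e i ∧
      (∏ i ∈ s, l i ^ e i).coeff (∑ i ∈ s, e i) = ∏ i ∈ s, (l i).coeff 1 ^ e i := by
  classical
  induction s using Finset.induction_on with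
  | empty => simp
  | insert a s ha ih =>
    have h1 : (l a ^ e a).natDegree ≤ e a := by
      simpa using natDegree_pow_le_of_le (e a) (hl a)
    have h2 : (l a ^ e a).coeff (e a) = (l a).coeff 1 ^ e a := by
      simpa using coeff_pow_of_natDegree_le (m := e a) (hl a)
    rw [Finset.prod_insert ha, Finset.prod_insert ha, Finset.sum_insert ha]
    exact ⟨natDegree_mul_le_of_le h1 ih.1, by
      rw [coeff_mul_add_eq_of_natDegree_le h1 ih.1, h2, ih.2]⟩

theorem wxa_top {N : ℕ} (R : MvPolynomial (Fin (N + 1)) ℤ) (hR : R ≠ 0) :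
    ∃ (E : ℕ) (v : Fin N → ℤ), (∀ m ∈ R.support, ∑ i, m i ≤ E) ∧
      ∑ m ∈ R.support with ∑ i, m i = E, R.coeff m * ∏ i, v i ^ m i.succ ≠ 0 := by
  classical
  obtain ⟨m₀, hm₀, hmax⟩ := Finset.exists_max_image R.support (fun m => ∑ i, m i)
    (MvPolynomial.support_nonempty.2 hR)
  by_contra h
  push Not at h
  have hT : (∑ m ∈ R.support with ∑ i, m i = ∑ i, m₀ i,
      MvPolynomial.monomial m.tail (R.coeff m) : MvPolynomial (Fin N) ℤ) = 0 := by
    refine MvPolynomial.funext fun v => ?_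
    rw [map_sum, map_zero, ← h _ v hmax]
    refine Finset.sum_congr rfl fun m _ => ?_
    rw [MvPolynomial.eval_monomial, Finsupp.prod_fintype _ _ fun i => pow_zero _]
    simp only [Finsupp.tail_apply]
  have := congrArg (MvPolynomial.coeff m₀.tail) hT
  rw [MvPolynomial.coeff_sum, MvPolynomial.coeff_zero, Finset.sum_eq_single m₀] at this
  · rw [MvPolynomial.coeff_monomial, if_pos rfl] at this
    exact MvPolynomial.mem_support_iff.1 hm₀ this
  · intro m hm hne
    rw [MvPolynomial.coeff_monomial, if_neg]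
    intro ht
    have h1 : ∀ i : Fin N, m i.succ = m₀ i.succ := fun i => by
      simpa only [Finsupp.tail_apply] using DFunLike.congr_fun ht i
    have h2 := (Finset.mem_filter.1 hm).2
    rw [Fin.sum_univ_succ, Fin.sum_univ_succ, Finset.sum_congr rfl fun i _ => h1 i] at h2
    exact hne (Finsupp.ext fun i => Fin.cases (by omega) h1 i)
  · intro hn
    exact (hn (Finset.mem_filter.2 ⟨hm₀, rfl⟩)).elim

/-- after a shear the relation has a constant leading coefficient in the first coordinate -/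
theorem exists_shear {N : ℕ} (R : MvPolynomial (Fin (N + 1)) ℤ) (hR : R ≠ 0) :
    ∃ (v : Fin N → ℤ) (c : ℤ) (E : ℕ), c ≠ 0 ∧ ∀ b : Fin N → ℤ, ∃ g : ℤ[X],
      g.natDegree ≤ E ∧ g.coeff E = c ∧
      ∀ a : Fin (N + 1) → ℤ, shr v a = b → g.eval (a 0) = MvPolynomial.eval a R := by
  classical
  obtain ⟨E, v, hE, hc⟩ := wxa_top R hR
  refine ⟨v, _, E, hc, fun b => ?_⟩
  let l : Fin (N + 1) → ℤ[X] := Fin.cons X fun i => C (b i) + C (v i) * X
  have hl : ∀ i, (l i).natDegree ≤ 1 := fun i => by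
    refine Fin.cases ?_ (fun i => ?_) i
    · exact natDegree_X_le
    · show (C (b i) + C (v i) * X).natDegree ≤ 1
      compute_degree
  have h0 : (l 0).coeff 1 = 1 := coeff_X_one
  have h1 : ∀ i : Fin N, (l i.succ).coeff 1 = v i := fun i => by
    show (C (b i) + C (v i) * X).coeff 1 = v i
    rw [coeff_add, coeff_C_mul, coeff_X_one, coeff_C_succ, zero_add, mul_one]
  refine ⟨∑ m ∈ R.support, C (R.coeff m) * ∏ i, l i ^ m i, ?_, ?_, fun a ha => ?_⟩
  · exact natDegree_sum_le_of_forall_le _ _ fun m hm =>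
      (natDegree_C_mul_le _ _).trans ((wxa_prod _ l hl m).1.trans (hE m hm))
  · rw [finsetSum_coeff, Finset.sum_filter]
    refine Finset.sum_congr rfl fun m hm => ?_
    rw [coeff_C_mul]
    split_ifs with h
    · rw [← h, (wxa_prod _ l hl m).2, Fin.prod_univ_succ, h0, one_pow, one_mul]
      simp only [h1]
    · rw [coeff_eq_zero_of_natDegree_lt
        ((wxa_prod _ l hl m).1.trans_lt (lt_of_le_of_ne (hE m hm) h)), mul_zero]
  · have h2 : ∀ i, (l i).eval (a 0) = a i := fun i => by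
      refine Fin.cases ?_ (fun i => ?_) i
      · exact eval_X
      · show (C (b i) + C (v i) * X).eval (a 0) = a i.succ
        rw [← ha, eval_add, eval_mul, eval_C, eval_C, eval_X, shr, sub_add_cancel]
    rw [MvPolynomial.eval_eq', eval_finsetSum]
    simp only [eval_mul, eval_C, eval_prod, eval_pow, h2]

/-- one step of the elimination -/
theorem exists_step {m N k : ℕ} (hk : k ≤ N) (P : Fin m → Fin (N + 1) → MvPolynomial (Fin k) ℤ) :
    ∃ (P' : Fin m → Fin N → MvPolynomial (Fin k) ℤ) (R : MvPolynomial (Fin (N + 1)) ℤ)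
      (v : Fin N → ℤ) (c : ℤ) (E : ℕ), c ≠ 0 ∧
      (∀ p a, OnV P p a → OnV P' p (shr v a) ∧ (p : ℤ) ∣ MvPolynomial.eval a R) ∧
      ∀ b : Fin N → ℤ, ∃ g : ℤ[X], g.natDegree ≤ E ∧ g.coeff E = c ∧
        ∀ a : Fin (N + 1) → ℤ, shr v a = b → g.eval (a 0) = MvPolynomial.eval a R := by
  obtain ⟨R, hR, hP⟩ := exists_rel (Nat.lt_succ_of_le hk) P
  obtain ⟨v, c, E, hc, hg⟩ := exists_shear R hR
  refine ⟨fun φ i => P φ i.succ - MvPolynomial.C (v i) * P φ 0, R, v, c, E, hc, ?_, hg⟩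
  rintro p a ⟨K, hK, hp, φ, z, hz⟩
  refine ⟨⟨K, hK, hp, φ, z, fun i => ?_⟩, (CharP.intCast_eq_zero_iff K p _).1 ?_⟩
  · rw [MvPolynomial.eval₂_sub, MvPolynomial.eval₂_mul, MvPolynomial.eval₂_C, ← hz, ← hz, shr]
    simp
  · have e : ∀ Q : MvPolynomial (Fin (N + 1)) ℤ, ((MvPolynomial.eval a Q : ℤ) : K) =
        MvPolynomial.eval₂ (Int.castRingHom K) z (MvPolynomial.aeval (P φ) Q) := fun Q => by
      induction Q using MvPolynomial.induction_on with
      | C t =>
        rw [MvPolynomial.eval_C, MvPolynomial.aeval_C, MvPolynomial.algebraMap_eq,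
          MvPolynomial.eval₂_C, eq_intCast]
      | add f g hf hg => simp only [map_add, Int.cast_add, MvPolynomial.eval₂_add, hf, hg]
      | mul_X f i hf =>
        simp only [map_mul, Int.cast_mul, MvPolynomial.eval₂_mul, hf, MvPolynomial.eval_X,
          MvPolynomial.aeval_X, hz]
    rw [e, hP, MvPolynomial.eval₂_zero]

end Pool.Agent.VW
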