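import Pool.Agent.P.MP_b0ea37_nt.WOa
import Pool.Agent.P.MP_b0ea37_nt.WOb
import Pool.Agent.P.MP_b0ea37_nt.WOc
import Pool.Agent.P.MP_b0ea37_nt.WOd
import Pool.Agent.P.MP_b0ea37_nt.WXa

namespace Pool.Agent.VW

open Polynomial

/-- the chain_j for the ring of `(f, f')` at a prime that is not weak -/
theorem WOe_data {n p : ℕ} {f : ℤ[X]} (hm : f.Monic) (hn : f.natDegree = n)
    (h0 : Dv n f ≠ 0) (hp : p.Prime) (hnp : n < p) (hw : ¬ Weak p f) :
    ∃ (e D : ℕ) (k : ℕ → ℕ), (Dv n f).natAbs = p ^ (∑ i ∈ Finset.range e, k i) * D ∧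
      padicValInt p (Dv n f) = ∑ i ∈ Finset.range e, k i ∧
      C ((p : ℤ) ^ e * D) ∈ (Ideal.span {f, derivative f} : Ideal ℤ[X]) ∧
      (∀ i, k (i + 1) ≤ k i) ∧ (∀ i < e, k i ≠ 0) ∧ (∀ i, k (i + 1) ≠ 1) ∧
      ∀ (K : Type) [Field K] [DecidableEq K] [CharP K p] (θ : Fin n → K), Roots (up K f) θ →
        k 0 = n - (Finset.univ.image θ).card := by
  have hcard := card_quot_res hm hn (g := derivative f) (m := n - 1)
    (hn ▸ natDegree_derivative_le f) h0
  have : Finite (ℤ[X] ⧸ (Ideal.span {f, derivative f} : Ideal ℤ[X])) :=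
    Nat.finite_of_card_ne_zero (by rw [hcard]; exact Int.natAbs_ne_zero.2 h0)
  obtain ⟨e, I, k, D, hI, hk, hanti, hpos, hc, hD, hz⟩ :=
    chain_j (J := ℤ[X] ⧸ (Ideal.span {f, derivative f} : Ideal ℤ[X])) hp
  have hD0 : D ≠ 0 := fun h => hD (h ▸ dvd_zero p)
  have habs : (Dv n f).natAbs = p ^ (∑ i ∈ Finset.range e, k i) * D := by rw [← hc, hcard]; rfl
  have := Fact.mk hp
  refine ⟨e, D, k, habs, ?_, ?_, hanti, hpos, fun i hi => ?_, fun K _ _ _ θ hθ => ?_⟩
  · rw [padicValInt, habs, padicValNat.mul (pow_ne_zero _ hp.ne_zero) hD0, padicValNat.prime_pow,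
      padicValNat.eq_zero_of_not_dvd hD, add_zero]
  · rw [← Ideal.Quotient.eq_zero_iff_mem, ← hz]
    simp
  · have h2 := hk (i + 1)
    rw [hi, pow_one] at h2
    obtain ⟨φ, hφ⟩ := exists_hom_zmod hp _ h2
    obtain ⟨r, hr⟩ := ZMod.intCast_surjective (φ (Ideal.Quotient.mk _ X))
    have hev : ∀ g : ℤ[X], φ (Ideal.Quotient.mk _ g) = ((g.eval r : ℤ) : ZMod p) := by
      intro g
      have h3 : φ.comp (Ideal.Quotient.mk _) = (Int.castRingHom (ZMod p)).comp (evalRingHom r) :=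
        Polynomial.ringHom_ext' (RingHom.ext_int _ _) (by simpa using hr.symm)
      exact RingHom.congr_fun h3 g
    have hmem : ∀ g ∈ (Ideal.span {f, derivative f} : Ideal ℤ[X]), (p : ℤ) ∣ g.eval r := by
      intro g hg
      rw [← ZMod.intCast_zmod_eq_zero_iff_dvd, ← hev, Ideal.Quotient.eq_zero_iff_mem.2 hg, map_zero]
    have h3 := hmem f (Ideal.subset_span (by simp))
    have h4 := hmem (derivative f) (Ideal.subset_span (by simp))
    obtain ⟨z, hz1, hz2⟩ := exists_unit_mul hp hnp hm hn h3 h4 fun h => hw ⟨r, h, h4⟩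
    refine hz1 ?_
    rw [← ZMod.intCast_zmod_eq_zero_iff_dvd, ← hev]
    refine hφ _ ((hI _ _).2 ?_)
    have h5 := Ideal.Quotient.eq_zero_iff_mem.2 hz2
    rw [map_mul] at h5
    have h6 : Ideal.Quotient.mk (Ideal.span {f, derivative f} : Ideal ℤ[X]) (C (p : ℤ)) = p := by
      simp
    rw [h6] at h5
    rw [pow_succ _ i, mul_assoc, h5, mul_zero]
    exact dvd_zero _
  · have h2 := card_mod_p hp hnp hm hn hθ (I 0) fun z => by simpa using hI 0 z
    rw [hk] at h2
    exact Nat.pow_right_injective hp.two_le h2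

theorem loc_dvd' {n p : ℕ} (hn : 5 ≤ n) {f : ℤ[X]} (hf : Bad n f) (hp : p.Prime) (hnp : n < p)
    (hw : ¬ Weak p f) (k : ℕ) : (p : ℤ) ^ (padicValInt p (Dv n f) / 2) ∣ Phi n k f := by
  obtain ⟨hm, hd, hi, -, -⟩ := hf
  have h0 := Irr.Dv_ne_zero hm hd hi
  obtain ⟨e, D, κ, habs, hv, hmem, -, hpos, hne, -⟩ := WOe_data hm hd h0 hp hnp hw
  obtain ⟨v, hv'⟩ : ∃ v, v = ∑ i ∈ Finset.range e, κ i := ⟨_, rfl⟩
  rw [← hv'] at habs hv
  have h2 : 2 * e ≤ v + 1 := by
    rw [hv']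
    clear hv' habs hv hmem
    induction e with
    | zero => omega
    | succ e ih =>
      have h3 := ih fun i hi => hpos i (by omega)
      have h4 := hpos e (by omega)
      rw [Finset.sum_range_succ]
      rcases e with _ | e
      · omega
      · have := hne e
        omega
  rw [hv]
  refine dvd_Phi_of_mem (by omega) hm hd h0
    (c := (Dv n f).sign * (p : ℤ) ^ (v - v / 2 - e) * ((p : ℤ) ^ e * D)) ?_ ?_ k
  · have h3 : (p : ℤ) ^ v = p ^ (v / 2) * (p ^ (v - v / 2 - e) * p ^ e) := by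
      rw [← pow_add, ← pow_add]
      congr 1
      omega
    have h4 := Int.sign_mul_natAbs (Dv n f)
    rw [habs] at h4
    push_cast at h4
    rw [h3] at h4
    linear_combination -h4
  · rw [C_mul]
    exact Ideal.mul_mem_left _ _ hmem

theorem loc_odd {n p : ℕ} (hn : 5 ≤ n) {f : ℤ[X]} (hf : Bad n f) (hp : p.Prime) (hnp : n < p)
    (hw : ¬ Weak p f) (ho : Odd (padicValInt p (Dv n f))) {K : Type} [Field K] [DecidableEq K]
    [CharP K p] {θ : Fin n → K} (hθ : Roots (up K f) θ) :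
    (Finset.univ.image θ).card + 3 ≤ n := by
  obtain ⟨hm, hd, hi, -, hA⟩ := hf
  have h0 := Irr.Dv_ne_zero hm hd hi
  obtain ⟨e, D, κ, -, hv, -, hanti, -, hne, hk⟩ := WOe_data hm hd h0 hp hnp hw
  have hk0 := hk K θ hθ
  have hle : ∀ i, κ i ≤ κ 0 := fun i => antitone_nat_of_succ_le hanti (Nat.zero_le i)
  by_contra hlt
  by_cases h1 : κ 0 = 1
  · have := Fact.mk hp
    have hdv : (p : ℤ) ∣ Dv n f := by
      by_contra h
      rw [padicValInt.eq_zero_of_not_dvd h] at ho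
      exact absurd ho (by decide)
    refine hw (hA p hp hdv fun h => ?_).1
    have h2 : (2 : K) ≠ 0 := fun h2 => by
      have h3 := Nat.le_of_dvd two_pos ((CharP.cast_eq_zero_iff K p 2).1 (by exact_mod_cast h2))
      omega
    have h3 := Phi_ne_zero h2 θ (by omega)
    rw [← show up K f = _ from hθ, Phi_map] at h3
    exact h3 ((CharP.intCast_eq_zero_iff K p _).2 h)
  · rw [hv] at ho
    refine Nat.not_even_iff_odd.2 ho (Finset.even_sum _ fun i _ => ?_)
    have h2 := hle i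
    have h3 : κ i ≠ 1 := by
      rcases i with _ | i
      · exact h1
      · exact hne i
    have h4 : κ i = 0 ∨ κ i = 2 := by omega
    rcases h4 with h4 | h4 <;> rw [h4] <;> decide

/-- the polynomials with three repeated roots lie on a parametrised family -/
theorem exists_family (n : ℕ) (hn : 5 ≤ n) :
    ∃ (m : ℕ) (P : Fin m → Fin n → MvPolynomial (Fin (n - 3)) ℤ), ∀ (f : ℤ[X]) (p : ℕ), Bad n f →
      p.Prime → n < p → ¬ Weak p f → Odd (padicValInt p (Dv n f)) →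
      OnV P p fun i => f.coeff i := by
  classical
  obtain ⟨eq⟩ : Nonempty ((Fin n → Fin (n - 3)) ≃ Fin (Fintype.card (Fin n → Fin (n - 3)))) :=
    ⟨Fintype.equivFin _⟩
  refine ⟨_, fun φ i => (∏ j : Fin n, (X - C (MvPolynomial.X (eq.symm φ j))) :
    (MvPolynomial (Fin (n - 3)) ℤ)[X]).coeff i, fun f p hf hp hnp hw ho => ?_⟩
  have := Fact.mk hp
  obtain ⟨θ, hθ⟩ := exists_roots (n := n) (up (AlgebraicClosure (ZMod p)) f) (hf.1.map _)
    (by rw [hf.1.natDegree_map, hf.2.1])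
  have h1 := loc_odd hn hf hp hnp hw ho hθ
  obtain ⟨ι⟩ : Nonempty (↥(Finset.univ.image θ) ↪ Fin (n - 3)) :=
    Function.Embedding.nonempty_of_card_le (by rw [Fintype.card_coe, Fintype.card_fin]; omega)
  obtain ⟨ψ, hψ⟩ : ∃ ψ : Fin n → ↥(Finset.univ.image θ), ∀ j, (ψ j).1 = θ j :=
    ⟨fun j => ⟨θ j, Finset.mem_image_of_mem _ (Finset.mem_univ j)⟩, fun _ => rfl⟩
  obtain ⟨z, hz⟩ : ∃ z : Fin (n - 3) → AlgebraicClosure (ZMod p), ∀ t, z (ι t) = t.1 :=
    ⟨Function.extend ι Subtype.val fun _ => 0, fun t => ι.injective.extend_apply _ _ t⟩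
  refine ⟨AlgebraicClosure (ZMod p), inferInstance, inferInstance, eq fun j => ι (ψ j), z,
    fun i => ?_⟩
  have h2 : (∏ j : Fin n, (X - C (MvPolynomial.X (ι (ψ j)))) :
      (MvPolynomial (Fin (n - 3)) ℤ)[X]).map (MvPolynomial.eval₂Hom (Int.castRingHom _) z) =
      up (AlgebraicClosure (ZMod p)) f := by
    rw [show up (AlgebraicClosure (ZMod p)) f = _ from hθ, Polynomial.map_prod]
    refine Finset.prod_congr rfl fun j _ => ?_
    simp [hz, hψ]
  have h3 := congrArg (fun g => coeff g i) h2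
  simp only [coeff_map, Equiv.symm_apply_apply] at h3 ⊢
  exact h3.symm

end Pool.Agent.VW
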