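import Pool.Agent.P.MP_b0ea37_nt.WSDefs
import Pool.Agent.P.MP_b0ea37_nt.VTHens

namespace Pool.Agent.VW

open Polynomial

open Pool.Agent.VT

variable {ι σ : Type} {M : ℕ} {x : ι → σ → ℤ}

theorem apx_of_dvd {l : ℕ} {F : ι → ℤ} (h : Apx M x F) (hl : l ∣ M) : Apx l x F :=
  fun K => (h K).imp fun _ hP j =>
    (pow_dvd_pow_of_dvd (Int.natCast_dvd_natCast.2 hl) K).trans (hP j)

theorem WSApx_mul {a b : ℕ} {F : ι → ℤ} (hab : Nat.Coprime a b) (ha : Apx a x F)
    (hb : Apx b x F) : Apx (a * b) x F := fun K => by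
  obtain ⟨P, hP⟩ := ha K
  obtain ⟨Q, hQ⟩ := hb K
  obtain ⟨u, v, e⟩ := (Nat.isCoprime_iff_coprime.2 hab).pow (m := K) (n := K)
  refine ⟨MvPolynomial.C (v * (b : ℤ) ^ K) * P + MvPolynomial.C (u * (a : ℤ) ^ K) * Q, fun j => ?_⟩
  obtain ⟨s, hs⟩ := hP j
  obtain ⟨t, ht⟩ := hQ j
  refine ⟨v * s + u * t, ?_⟩
  rw [map_add, MvPolynomial.eval_mul, MvPolynomial.eval_mul, MvPolynomial.eval_C,
    MvPolynomial.eval_C, Nat.cast_mul, mul_pow]
  linear_combination (v * (b : ℤ) ^ K) * hs + (u * (a : ℤ) ^ K) * ht - F j * e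

theorem apx_sqfree (hM : Squarefree M) {F : ι → ℤ}
    (h : ∀ l : ℕ, l.Prime → l ∣ M → Apx l x F) : Apx M x F := by
  have key : ∀ T : Finset ℕ, (∀ p ∈ T, p.Prime ∧ Apx p x F) → Apx (∏ p ∈ T, p) x F := by
    intro T
    induction T using Finset.induction_on with
    | empty => exact fun _ K => ⟨0, fun j => by simp⟩
    | insert p T hp ih =>
      intro hT
      rw [Finset.prod_insert hp]
      have h1 := hT p (Finset.mem_insert_self _ _)
      refine WSApx_mul (Nat.Coprime.prod_right fun r hr => ?_) h1.2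
        (ih fun r hr => hT r (Finset.mem_insert_of_mem hr))
      exact (Nat.coprime_primes h1.1 (hT r (Finset.mem_insert_of_mem hr)).1).2
        fun e => hp (e ▸ hr)
  rw [← Nat.prod_primeFactors_of_squarefree hM]
  exact key _ fun p hp => ⟨Nat.prime_of_mem_primeFactors hp,
    h p (Nat.prime_of_mem_primeFactors hp) (Nat.dvd_of_mem_primeFactors hp)⟩

theorem apx_root (hM : Squarefree M) (hx : ∀ a b k, x a k ≡ x b k [ZMOD M]) {N y : ι → ℤ} {q : ℤ}
    (hN : Apx M x N) (hy : ∀ a, N a = q * y a ^ 2) (hc : ∀ a, Cop M (2 * N a))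
    (hyy : ∀ a b, y a ≡ y b [ZMOD M]) : Apx M x y := by
  refine apx_sqfree hM fun l hl hd => ?_
  have hd' : (l : ℤ) ∣ M := Int.natCast_dvd_natCast.2 hd
  refine Apx.hensel hl (fun a b k => (hx a b k).of_dvd hd') (D := 2)
    (c := fun a => C q * X ^ 2 - C (N a) * 1) (fun a => by compute_degree!) (fun n => ?_)
    (fun a => by simp [hy a]) (fun a b => (hyy a b).of_dvd hd') fun a e => hc a l hl hd ?_
  · exact ((Apx.const ((C q * X ^ 2 : ℤ[X]).coeff n)).sub
      ((apx_of_dvd hN hd).mul (Apx.const ((1 : ℤ[X]).coeff n)))).congr fun a => by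
        rw [coeff_sub, coeff_C_mul 1]
  · have e' : (l : ℤ) ∣ q * (2 * y a) := by simpa using e
    exact (e'.mul_right (y a)).trans (dvd_of_eq (by rw [hy a]; ring))

theorem apx_div (hM : Squarefree M) (hx : ∀ a b k, x a k ≡ x b k [ZMOD M]) {y G : ι → ℤ}
    (hy : Apx M x y) (hu : ∀ a, Cop M (y a)) (hG : Apx M x fun a => y a * G a) : Apx M x G :=
  apx_sqfree hM fun l hl hd =>
    Apx.div hl (fun a b k => (hx a b k).of_dvd (Int.natCast_dvd_natCast.2 hd)) (apx_of_dvd hy hd)
      (fun a => hu a l hl hd) (apx_of_dvd hG hd)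

/-- a plane polynomial as a polynomial in the variable `j` -/
noncomputable def WSApx_uni (j : Fin 2) : Z2 →+* (MvPolynomial (Fin 1) ℤ)[X] :=
  MvPolynomial.eval₂Hom (Int.castRingHom _) fun k => if k = j then X else C (MvPolynomial.X 0)

theorem WSApx_two {i j : Fin 2} (hij : i ≠ j) (k : Fin 2) : k = j ∨ k = i := by
  revert i j k
  decide

theorem WSApx_eval {i j : Fin 2} (hij : i ≠ j) (v : Fin 2 → ℤ) (A : Z2) :
    ((WSApx_uni j A).map (MvPolynomial.eval fun _ => v i)).eval (v j) = evz v A ∧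
    (derivative ((WSApx_uni j A).map (MvPolynomial.eval fun _ => v i))).eval (v j) =
      evz v (MvPolynomial.pderiv j A) := by
  induction A using MvPolynomial.induction_on with
  | C c => simp [WSApx_uni]
  | add p q hp hq =>
    simp only [map_add, Polynomial.map_add, eval_add, hp.1, hp.2, hq.1, hq.2, and_self]
  | mul_X p k hp =>
    have hX : WSApx_uni j (MvPolynomial.X k) = if k = j then X else C (MvPolynomial.X 0) := by
      simp [WSApx_uni]
    rw [map_mul, Polynomial.map_mul, derivative_mul, MvPolynomial.pderiv_mul, eval_add, eval_mul,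
      eval_mul, eval_mul, hp.1, hp.2, hX]
    rcases WSApx_two hij k with rfl | rfl
    · simp
    · simp [hij, MvPolynomial.pderiv_X_of_ne hij]

/-- on a curve everything is a function of one coordinate -/
theorem apx_curve (hM : Squarefree M) (A : Z2) {i j : Fin 2} (hij : i ≠ j) {u : ι → Fin 2 → ℤ}
    (hu : ∀ a b k, u a k ≡ u b k [ZMOD M]) (hA : ∀ a, evz (u a) A = 0)
    (hc : ∀ a, Cop M (evz (u a) (MvPolynomial.pderiv j A))) (P : Z2) :
    Apx M (fun a (_ : Fin 1) => u a i) fun a => evz (u a) P := by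
  have hj : Apx M (fun a (_ : Fin 1) => u a i) fun a => u a j := by
    refine apx_sqfree hM fun l hl hd => ?_
    have hd' : (l : ℤ) ∣ M := Int.natCast_dvd_natCast.2 hd
    refine Apx.hensel hl (fun a b _ => (hu a b i).of_dvd hd') (D := (WSApx_uni j A).natDegree)
      (c := fun a => (WSApx_uni j A).map (MvPolynomial.eval fun _ => u a i))
      (fun a => natDegree_map_le) (fun n => ?_) (fun a => ?_)
      (fun a b => (hu a b j).of_dvd hd') fun a => ?_
    · exact (Apx.poly ((WSApx_uni j A).coeff n)).congr fun a => by rw [coeff_map]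
    · rw [(WSApx_eval hij (u a) A).1, hA a]
    · rw [(WSApx_eval hij (u a) A).2]
      exact hc a l hl hd
  induction P using MvPolynomial.induction_on with
  | C c => exact (Apx.const c).congr fun a => by simp
  | add p q hp hq => exact (hp.add hq).congr fun a => by simp
  | mul_X p k hp =>
    rcases WSApx_two hij k with rfl | rfl
    · exact (hp.mul hj).congr fun a => by simp
    · exact (hp.mul (Apx.coord 0)).congr fun a => by simp

theorem WSApx_sum (W : ℕ) :
    ((∑ t ∈ Finset.range (2 * W), (2 * W - (t + 1).choose 1) : ℕ) : ℝ) = W * (2 * W - 1) := by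
  have h1 : ∑ t ∈ Finset.range (2 * W), (2 * W - (t + 1).choose 1) =
      ∑ t ∈ Finset.range (2 * W), t := by
    rw [← Finset.sum_range_reflect (fun t => t) (2 * W)]
    refine Finset.sum_congr rfl fun t _ => ?_
    rw [Nat.choose_one_right]
    omega
  have h2 : ∀ m : ℕ, ((∑ t ∈ Finset.range m, t : ℕ) : ℝ) = m * (m - 1) / 2 := by
    intro m
    induction m with
    | zero => simp
    | succ m ih =>
      rw [Finset.sum_range_succ, Nat.cast_add, ih]
      push_cast
      ring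
  rw [h1, h2]
  push_cast
  ring

theorem WSApx_sum' (W b : ℕ) :
    ((∑ p : Fin W × Fin 2, ((p.1 : ℕ) + b) : ℕ) : ℝ) = W * (W - 1) + 2 * W * b := by
  have h2 : ∀ m : ℕ, ((∑ t ∈ Finset.range m, 2 * (t + b) : ℕ) : ℝ) = m * (m - 1) + 2 * m * b := by
    intro m
    induction m with
    | zero => simp
    | succ m ih =>
      rw [Finset.sum_range_succ, Nat.cast_add, ih]
      push_cast
      ring
  rw [← h2, Fintype.sum_prod_type, ← Fin.sum_univ_eq_sum_range (fun t => 2 * (t + b))]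
  simp

/-- the numerical inequality of slope two -/
theorem slope_two (b : ℕ) (ε : ℝ) (hε : 0 < ε) : ∃ (W : ℕ) (H₀ : ℝ), 1 ≤ H₀ ∧ ∀ H : ℝ, H₀ ≤ H →
    ∀ M : ℕ, H ^ (1 / 2 + ε) ≤ M →
    ((Fintype.card (Fin W × Fin 2)).factorial : ℝ) * ∏ p : Fin W × Fin 2, H ^ ((p.1 : ℕ) + b) <
      (M : ℝ) ^ (∑ t ∈ Finset.range (2 * W), (Fintype.card (Fin W × Fin 2) - (t + 1).choose 1)) := by
  obtain ⟨V, hV⟩ := exists_nat_ge (2 * b / ε)
  rw [div_le_iff₀ hε] at hV
  obtain ⟨H₀, hH₀, hp⟩ := exists_pow_ge (((2 * (V + 1)).factorial : ℝ) + 1) (1 / 2) (by norm_num)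
  refine ⟨V + 1, H₀, hH₀, fun H hH M hM => ?_⟩
  have hH1 : 1 ≤ H := hH₀.trans hH
  have hH0 : 0 < H := by linarith
  have hc : Fintype.card (Fin (V + 1) × Fin 2) = 2 * (V + 1) := by simp [mul_comm]
  rw [hc, Finset.prod_pow_eq_pow_sum, ← Real.rpow_natCast H, WSApx_sum']
  refine lt_of_lt_of_le ?_ (pow_le_pow_left₀ (by positivity) hM _)
  rw [← Real.rpow_mul_natCast hH0.le, WSApx_sum]
  refine (mul_lt_mul_of_pos_right ((lt_add_one _).trans_le (hp H hH)) (by positivity)).trans_le ?_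
  rw [← Real.rpow_add hH0]
  refine Real.rpow_le_rpow_of_exponent_le hH1 ?_
  have hV0 : (0 : ℝ) ≤ V := Nat.cast_nonneg _
  have h1 : 2 * (b : ℝ) ≤ ε * (2 * (V + 1) - 1) := by nlinarith [mul_nonneg hV0 hε.le]
  have h2 := mul_le_mul_of_nonneg_left h1 (by positivity : (0 : ℝ) ≤ V + 1)
  push_cast
  nlinarith

end Pool.Agent.VW
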