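import Pool.Agent.P.MP_b0ea37_nt.WSApx

namespace Pool.Agent.VW

open Polynomial

theorem wsone_key (A : Q2) (hA : A ≠ 0) (a b : ℕ × Fin 2 → ℕ)
    (hi : ∀ p q, a p = a q → b p = b q → p = q) (hd : ∀ p, a p + b p ≤ p.1 + 1)
    (hl : ∀ p, a p < MonomialOrder.degLex.degree A 0 ∨ b p < MonomialOrder.degLex.degree A 1) :
    ∃ μ : ℕ × Fin 2 → (Fin 2 →₀ ℕ),
    (∀ p, μ p 0 + μ p 1 ≤ p.1 + 1) ∧ ∀ (W : ℕ) (c : Fin W × Fin 2 → ℚ), c ≠ 0 →
      ¬ A ∣ ∑ p : Fin W × Fin 2, MvPolynomial.monomial (μ (p.1, p.2)) (c p) := by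
  obtain ⟨μ, h0, h1⟩ : ∃ μ : ℕ × Fin 2 → (Fin 2 →₀ ℕ), (∀ p, μ p 0 = a p) ∧ ∀ p, μ p 1 = b p :=
    ⟨fun p => Finsupp.single 0 (a p) + Finsupp.single 1 (b p), fun p => by simp, fun p => by simp⟩
  refine ⟨μ, fun p => by rw [h0, h1]; exact hd p, ?_⟩
  rintro W c hc ⟨B, hB⟩
  obtain ⟨p, hp⟩ := Function.ne_iff.1 hc
  have hG : A * B ≠ 0 := by
    intro e
    have e1 := congrArg (MvPolynomial.coeff (μ (p.1, p.2))) (hB.trans e)
    rw [MvPolynomial.coeff_sum, Finset.sum_eq_single p, MvPolynomial.coeff_monomial,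
      if_pos rfl] at e1
    · exact hp e1
    · intro q _ hq
      rw [MvPolynomial.coeff_monomial, if_neg]
      intro e2
      have e3 := hi (q.1, q.2) (p.1, p.2) (by rw [← h0, ← h0, e2]) (by rw [← h1, ← h1, e2])
      exact hq (Prod.ext (Fin.ext (Prod.ext_iff.1 e3).1) (Prod.ext_iff.1 e3).2)
    · simp
  have h2 := MonomialOrder.degLex.degree_mem_support hG
  rw [MonomialOrder.degree_mul hA (right_ne_zero_of_mul hG), MvPolynomial.mem_support_iff, ← hB,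
    MvPolynomial.coeff_sum] at h2
  obtain ⟨q, -, hq⟩ := Finset.exists_ne_zero_of_sum_ne_zero h2
  rw [MvPolynomial.coeff_monomial] at hq
  have e := (ite_ne_right_iff.1 hq).1
  have e0 := h0 (q.1, q.2)
  have e1 := h1 (q.1, q.2)
  rw [e, Finsupp.add_apply] at e0 e1
  have := hl (q.1, q.2)
  omega

/-- two monomials in each degree, no combination of which is a multiple of `A` -/
theorem exists_monos (A : Q2) (hA : 2 ≤ A.totalDegree) : ∃ μ : ℕ × Fin 2 → (Fin 2 →₀ ℕ),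
    (∀ p, μ p 0 + μ p 1 ≤ p.1 + 1) ∧ ∀ (W : ℕ) (c : Fin W × Fin 2 → ℚ), c ≠ 0 →
      ¬ A ∣ ∑ p : Fin W × Fin 2, MvPolynomial.monomial (μ (p.1, p.2)) (c p) := by
  have h0 : A ≠ 0 := by
    rintro rfl
    simp at hA
  have h1 := MvPolynomial.degree_degLexDegree (f := A)
  rw [Finsupp.degree_eq_sum, Fin.sum_univ_two] at h1
  by_cases c0 : 2 ≤ MonomialOrder.degLex.degree A 0
  · refine wsone_key A h0 (fun p => p.2) (fun p => p.1) (fun p q e e' => Prod.ext e' (Fin.ext e))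
      (fun p => ?_) fun p => Or.inl (p.2.2.trans_le c0)
    have := p.2.2
    omega
  by_cases c1 : 2 ≤ MonomialOrder.degLex.degree A 1
  · refine wsone_key A h0 (fun p => p.1) (fun p => p.2) (fun p q e e' => Prod.ext e (Fin.ext e'))
      (fun p => ?_) fun p => Or.inr (p.2.2.trans_le c1)
    have := p.2.2
    omega
  refine wsone_key A h0 (fun p => if p.2 = 0 then p.1 + 1 else 0)
    (fun p => if p.2 = 0 then 0 else p.1) ?_ (fun p => ?_) fun p => ?_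
  · rintro ⟨k, s⟩ ⟨l, t⟩ e e'
    fin_cases s <;> fin_cases t <;> simp_all
  · split_ifs <;> omega
  · split_ifs <;> omega

/-- one class on a curve of degree at least two -/
theorem one_curve (ε : ℝ) (hε : 0 < ε) : ∃ (E' : ℕ) (H₀ : ℝ), ∀ H : ℝ, H₀ ≤ H →
    ∀ (M : ℕ) (A : Z2) (j : Fin 2) (T : Pt → Prop), Squarefree M → H ^ (1 / 2 + ε) ≤ M →
    2 ≤ A.totalDegree → (∀ z, T z → (∀ i, |(z.1 i : ℝ)| ≤ H) ∧ evz z.1 A = 0 ∧
      Cop M (evz z.1 (MvPolynomial.pderiv j A))) → (∀ z z', T z → T z' → Cong M z z') →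
    ∃ G : Q2, ¬ toQ A ∣ G ∧ G.totalDegree ≤ E' ∧ ∀ z, T z → ev2 z.1 G = 0 := by
  obtain ⟨W, H₀, h1, hs⟩ := slope_two 1 ε hε
  refine ⟨W, H₀, fun H hH M A j T hM hHM hA hT hc => ?_⟩
  obtain ⟨μ, hμ, hd⟩ := exists_monos (toQ A) (by rwa [deg_toQ])
  have hij : j.rev ≠ j := (by decide : ∀ j : Fin 2, j.rev ≠ j) j
  have hH1 : 1 ≤ H := h1.trans hH
  obtain ⟨c, hc0, hc1⟩ := VT.rel (l := M) (k := 1) (κ := Fin W × Fin 2) (2 * W)
    (x := fun (z : {z // T z}) (_ : Fin 1) => z.1.1 j.rev)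
    (fun z z' _ => (hc _ _ z.2 z'.2).1 _)
    (F := fun p z => evz z.1.1 (MvPolynomial.monomial (μ (p.1, p.2)) 1))
    (fun p => apx_curve hM A hij (u := fun z : {z // T z} => z.1.1)
      (fun z z' k => (hc _ _ z.2 z'.2).1 k) (fun z => (hT _ z.2).2.1) (fun z => (hT _ z.2).2.2) _)
    (fun p => H ^ ((p.1 : ℕ) + 1))
    (fun p z => by
      have a0 := (hT _ z.2).1 0
      have a1 := (hT _ z.2).1 1
      rw [evz, MvPolynomial.eval_monomial, one_mul, Finsupp.prod_fintype _ _ (by simp),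
        Fin.prod_univ_two]
      push_cast
      rw [abs_mul, abs_pow, abs_pow]
      refine le_trans ?_ (pow_le_pow_right₀ hH1 (hμ (p.1, p.2)))
      rw [pow_add]
      gcongr)
    (hs H hH M hHM)
  refine ⟨_, hd W (fun p => c p) (fun e => hc0 (funext fun p => ?_)), ?_, fun z hz => ?_⟩
  · exact Int.cast_eq_zero.1 (congrFun e p)
  · refine MvPolynomial.totalDegree_finsetSum_le fun p _ =>
      (MvPolynomial.totalDegree_monomial_le _ _).trans ?_
    rw [Finsupp.sum_fintype _ _ (by simp), Fin.sum_univ_two]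
    exact (hμ (p.1, p.2)).trans p.1.2
  · have e : ((∑ p : Fin W × Fin 2, c p * evz z.1 (MvPolynomial.monomial (μ (p.1, p.2)) 1) : ℤ) : ℚ)
        = 0 := by rw [hc1 ⟨z, hz⟩, Int.cast_zero]
    rw [← e, ev2, map_sum, Int.cast_sum]
    refine Finset.sum_congr rfl fun p _ => ?_
    rw [Int.cast_mul, ← ev2_toQ]
    simp [MvPolynomial.eval_monomial]

end Pool.Agent.VW
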