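import Pool.Agent.P.MP_b0ea37_nt.WSApx
import Pool.Agent.P.MP_b0ea37_nt.WSFac

namespace Pool.Agent.VW

open Polynomial

theorem wsoneb_shape0 (A : Z2) (hA : A.totalDegree ≤ 1) : ∃ g b c : ℤ, A = MvPolynomial.C g +
    MvPolynomial.C b * MvPolynomial.X 0 + MvPolynomial.C c * MvPolynomial.X 1 := by
  rw [A.as_sum]
  refine Finset.sum_induction _ (fun B : Z2 => ∃ g b c : ℤ, B = MvPolynomial.C g +
    MvPolynomial.C b * MvPolynomial.X 0 + MvPolynomial.C c * MvPolynomial.X 1) ?_ ?_ ?_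
  · rintro _ _ ⟨g, b, c, rfl⟩ ⟨g', b', c', rfl⟩
    exact ⟨g + g', b + b', c + c', by simp only [map_add]; ring⟩
  · exact ⟨0, 0, 0, by simp⟩
  · intro m hm
    have h1 := (MvPolynomial.le_totalDegree hm).trans hA
    rw [Finsupp.sum_fintype _ _ (fun _ => rfl), Fin.sum_univ_two] at h1
    rw [MvPolynomial.monomial_eq, Finsupp.prod_fintype _ _ (fun _ => pow_zero _),
      Fin.prod_univ_two]
    generalize A.coeff m = d
    have h2 : (m 0 = 0 ∧ m 1 = 0) ∨ (m 0 = 1 ∧ m 1 = 0) ∨ (m 0 = 0 ∧ m 1 = 1) := by omega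
    rcases h2 with ⟨e0, e1⟩ | ⟨e0, e1⟩ | ⟨e0, e1⟩ <;> rw [e0, e1]
    · exact ⟨d, 0, 0, by simp⟩
    · exact ⟨0, d, 0, by simp⟩
    · exact ⟨0, 0, d, by simp⟩

theorem wsoneb_shape (A : Z2) (hA : A.totalDegree ≤ 1) (j : Fin 2) : ∃ i : Fin 2, i ≠ j ∧
    ∃ g b c : ℤ, A = MvPolynomial.C g +
      MvPolynomial.C b * MvPolynomial.X i + MvPolynomial.C c * MvPolynomial.X j := by
  obtain ⟨g, b, c, h⟩ := wsoneb_shape0 A hA
  fin_cases j
  · exact ⟨1, by decide, g, c, b, by rw [h]; simp only [Fin.zero_eta]; ring⟩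
  · exact ⟨0, by decide, g, b, c, by rw [h]; simp only [Fin.mk_one]⟩

theorem wsoneb_ind {W : ℕ} (c : Fin W → ℚ) (r : ℚ)
    (h : ∑ k : Fin W, C (c k) * (C r + C 1 * X : ℚ[X]) ^ (k : ℕ) = 0) (k : Fin W) : c k = 0 := by
  have h1 := congrArg (fun p : ℚ[X] => (p.comp (X - C r)).coeff k) h
  simp only [sum_comp, mul_comp, C_comp, pow_comp, add_comp, X_comp, C_1, one_mul,
    add_sub_cancel, zero_comp, finsetSum_coeff, coeff_C_mul, coeff_X_pow, coeff_zero] at h1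
  rw [Finset.sum_eq_single k (fun l _ hl => by
    rw [if_neg (fun e => hl (Fin.ext e.symm)), mul_zero]) (by simp)] at h1
  simpa using h1

/-- a polynomial in one coordinate -/
noncomputable def wsoneb_pol {W : ℕ} (i : Fin 2) (c : Fin W → ℤ) : Q2 :=
  ∑ k : Fin W, MvPolynomial.C (c k : ℚ) * MvPolynomial.X i ^ (k : ℕ)

theorem wsoneb_deg {W : ℕ} (i : Fin 2) (c : Fin W → ℤ) : (wsoneb_pol i c).totalDegree ≤ W := by
  refine MvPolynomial.totalDegree_finsetSum_le fun k _ => ?_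
  refine (MvPolynomial.totalDegree_mul _ _).trans ?_
  rw [MvPolynomial.totalDegree_C, MvPolynomial.totalDegree_X_pow]
  omega

theorem wsoneb_ev {W : ℕ} (i : Fin 2) (c : Fin W → ℤ) (x : Fin 2 → ℤ) :
    ev2 x (wsoneb_pol i c) = ((∑ k : Fin W, c k * x i ^ (k : ℕ) : ℤ) : ℚ) := by
  simp [wsoneb_pol]

theorem wsoneb_line {W : ℕ} (i : Fin 2) (c : Fin W → ℤ) (a w : Fin 2 → ℚ) (hw : w i = 1)
    (h : onLine a w (wsoneb_pol i c) = 0) (k : Fin W) : c k = 0 := by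
  have h1 : ∑ k : Fin W, C (c k : ℚ) * (C (a i) + C 1 * X : ℚ[X]) ^ (k : ℕ) = 0 := by
    rw [← h, wsoneb_pol, map_sum]
    refine Finset.sum_congr rfl fun k _ => ?_
    rw [map_mul, map_pow, onLine, MvPolynomial.aeval_C, MvPolynomial.aeval_X, hw]
    rfl
  exact_mod_cast wsoneb_ind (fun k => (c k : ℚ)) (a i) h1 k

theorem wsoneb_not_dvd {W : ℕ} {i j : Fin 2} (hij : i ≠ j) {g b c q : ℤ} (hc : c ≠ 0)
    (hq : q ≠ 0) {D : Z2} {x : Fin 2 → ℤ} (hx : g + b * x i + c * x j = 0) (hD : OddAt D x)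
    (e o : Fin W → ℤ)
    (h : toQ (MvPolynomial.C g + MvPolynomial.C b * MvPolynomial.X i +
      MvPolynomial.C c * MvPolynomial.X j) ∣
        MvPolynomial.C (q : ℚ) * wsoneb_pol i e ^ 2 - toQ D * wsoneb_pol i o ^ 2) (k : Fin W) :
    e k = 0 ∧ o k = 0 := by
  set w : Fin 2 → ℚ := fun k => if k = j then -(b : ℚ) / c else 1 with hw
  have hwi : w i = 1 := if_neg hij
  have hwj : w j = -(b : ℚ) / c := if_pos rfl
  have hw0 : w ≠ 0 := fun h0 => by
    rw [h0] at hwi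
    simp at hwi
  have hA : onLine (fun i => (x i : ℚ)) w (toQ (MvPolynomial.C g +
      MvPolynomial.C b * MvPolynomial.X i + MvPolynomial.C c * MvPolynomial.X j)) = 0 := by
    apply Polynomial.funext
    intro τ
    rw [onLine_eval]
    have hc' : (c : ℚ) ≠ 0 := by exact_mod_cast hc
    have hx' : (g : ℚ) + b * x i + c * x j = 0 := by exact_mod_cast hx
    simp only [map_add, map_mul, MvPolynomial.map_X,
      MvPolynomial.eval_X, hwi, hwj, eval_zero, eq_intCast, map_intCast]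
    field_simp
    linear_combination hx'
  have h1 := map_dvd (onLine (fun i => (x i : ℚ)) w) h
  rw [hA, zero_dvd_iff, map_sub, map_mul, map_mul, map_pow, map_pow, sub_eq_zero] at h1
  have h2 : onLine (fun i => (x i : ℚ)) w (MvPolynomial.C (q : ℚ)) = C (q : ℚ) := by
    rw [onLine, MvPolynomial.aeval_C]
    rfl
  rw [h2] at h1
  have h3 := odd_not_sq (hD w hw0) h1.symm
  have hq' : (C (q : ℚ) : ℚ[X]) ≠ 0 := C_ne_zero.2 (by exact_mod_cast hq)
  rw [h3, zero_pow two_ne_zero, mul_zero, mul_eq_zero, pow_eq_zero_iff two_ne_zero] at h1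
  exact ⟨wsoneb_line i e _ w hwi (h1.resolve_left hq') k, wsoneb_line i o _ w hwi h3 k⟩

/-- one class on a line -/
theorem one_line (E a : ℕ) (ε : ℝ) (hε : 0 < ε) : ∃ (E' : ℕ) (H₀ : ℝ), ∀ H : ℝ, H₀ ≤ H →
    ∀ (M : ℕ) (A D : Z2) (q : ℤ) (j : Fin 2) (T : Pt → Prop), Squarefree M → H ^ (1 / 2 + ε) ≤ M →
    Irreducible (toQ A) → A.totalDegree ≤ 1 → D.totalDegree ≤ E →
    (∀ z, T z → On D q H a z ∧ Cop M (2 * evz z.1 D) ∧ evz z.1 A = 0 ∧
      Cop M (evz z.1 (MvPolynomial.pderiv j A))) → (∀ z z', T z → T z' → Cong M z z') →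
    ∃ G : Q2, ¬ toQ A ∣ G ∧ G.totalDegree ≤ E' ∧ ∀ z, T z → ev2 z.1 G = 0 := by
  obtain ⟨W, H₀, h1, hW⟩ := slope_two a ε hε
  refine ⟨E + 2 * W, max H₀ 2, fun H hH M A D q j T hM hHM hA hA1 hD hT hc => ?_⟩
  have hH0 : H₀ ≤ H := le_trans (le_max_left _ _) hH
  have hH2 : 2 ≤ H := le_trans (le_max_right _ _) hH
  by_cases hne : ∃ z, T z
  swap
  · exact ⟨1, fun h => hA.not_isUnit (isUnit_of_dvd_one h), by simp,
      fun z hz => (hne ⟨z, hz⟩).elim⟩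
  obtain ⟨z₀, hz₀⟩ := hne
  have hM1 : M ≠ 1 := by
    have : (1 : ℝ) < H ^ (1 / 2 + ε) := Real.one_lt_rpow (by linarith) (by linarith)
    rintro rfl
    rw [Nat.cast_one] at hHM
    linarith
  obtain ⟨l, hl, hlM⟩ := Nat.exists_prime_and_dvd hM1
  obtain ⟨i, hij, g, b, c, hsh⟩ := wsoneb_shape A hA1 j
  have hc0 : c ≠ 0 := by
    intro h0
    apply (hT z₀ hz₀).2.2.2 l hl hlM
    rw [hsh, h0]
    simp [MvPolynomial.pderiv_X, hij]
  have hq : q ≠ 0 := by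
    intro h0
    obtain ⟨-, e1, e2, -⟩ := (hT z₀ hz₀).1
    rw [h0, zero_mul] at e1
    exact e2 e1
  have hx₀ : g + b * z₀.1 i + c * z₀.1 j = 0 := by
    have := (hT z₀ hz₀).2.2.1
    rw [hsh] at this
    simpa using this
  have hu : ∀ (s t : {z // T z}) (k : Fin 2), s.1.1 k ≡ t.1.1 k [ZMOD M] :=
    fun s t k => (hc _ _ s.2 t.2).1 k
  have hx : ∀ (s t : {z // T z}) (k : Fin 1), (fun (s : {z // T z}) (_ : Fin 1) => s.1.1 i) s k ≡
      (fun (s : {z // T z}) (_ : Fin 1) => s.1.1 i) t k [ZMOD M] := fun s t _ => hu s t i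
  have hDa : VT.Apx M (fun (s : {z // T z}) (_ : Fin 1) => s.1.1 i) fun s => evz s.1.1 D :=
    apx_curve hM A hij (u := fun s : {z // T z} => s.1.1) hu (fun s => (hT _ s.2).2.2.1)
      (fun s => (hT _ s.2).2.2.2) D
  have hy : VT.Apx M (fun (s : {z // T z}) (_ : Fin 1) => s.1.1 i) fun s => s.1.2 :=
    apx_root hM hx hDa (q := q) (fun s => (hT _ s.2).1.2.1) (fun s => (hT _ s.2).2.1)
      fun s t => (hc _ _ s.2 t.2).2
  have hF : ∀ p : Fin W × Fin 2, VT.Apx M (fun (s : {z // T z}) (_ : Fin 1) => s.1.1 i)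
      fun s => s.1.1 i ^ (p.1 : ℕ) * s.1.2 ^ (p.2 : ℕ) := fun p =>
    ((VT.Apx.coord (x := fun (s : {z // T z}) (_ : Fin 1) => s.1.1 i) 0).pow _).mul (hy.pow _)
  have hB : ∀ (p : Fin W × Fin 2) (s : {z // T z}),
      |((s.1.1 i ^ (p.1 : ℕ) * s.1.2 ^ (p.2 : ℕ) : ℤ) : ℝ)| ≤ H ^ ((p.1 : ℕ) + a) := by
    rintro ⟨k, t⟩ s
    obtain ⟨e0, e1, e2, e3, -⟩ := (hT _ s.2).1
    have hy1 : |(s.1.2 : ℝ)| ≤ H ^ a := by
      refine le_trans ?_ e3
      have : |s.1.2| ≤ |evz s.1.1 D| :=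
        Int.le_of_dvd (abs_pos.2 e2) ((abs_dvd_abs _ _).2 ⟨q * s.1.2, by rw [e1]; ring⟩)
      exact_mod_cast this
    have hy2 : |(s.1.2 : ℝ)| ^ (t : ℕ) ≤ H ^ a := by
      fin_cases t
      · simpa using one_le_pow₀ (n := a) (show (1 : ℝ) ≤ H by linarith)
      · simpa using hy1
    push_cast
    rw [abs_mul, abs_pow, abs_pow, pow_add]
    exact mul_le_mul (pow_le_pow_left₀ (abs_nonneg _) (e0 i) _) hy2 (by positivity)
      (by positivity)
  obtain ⟨cf, hcf, hrel⟩ := VT.rel (2 * W) hx hF _ hB (hW H hH0 M hHM)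
  refine ⟨MvPolynomial.C (q : ℚ) * wsoneb_pol i (fun k => cf (k, 0)) ^ 2 -
    toQ D * wsoneb_pol i (fun k => cf (k, 1)) ^ 2, fun h => hcf ?_, ?_, fun z hz => ?_⟩
  · rw [hsh] at h
    funext p
    obtain ⟨k, t⟩ := p
    have := wsoneb_not_dvd hij hc0 hq hx₀ (hT z₀ hz₀).1.2.2.2.2 _ _ h k
    fin_cases t
    · exact this.1
    · exact this.2
  · have d2 : ∀ e : Fin W → ℤ, (wsoneb_pol i e ^ 2).totalDegree ≤ 2 * W := fun e =>
      (MvPolynomial.totalDegree_pow _ _).trans (Nat.mul_le_mul_left 2 (wsoneb_deg i e))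
    refine (MvPolynomial.totalDegree_sub _ _).trans (max_le ?_ ?_)
    · refine (MvPolynomial.totalDegree_mul _ _).trans ?_
      rw [MvPolynomial.totalDegree_C]
      exact add_le_add (Nat.zero_le _) (d2 _)
    · refine (MvPolynomial.totalDegree_mul _ _).trans ?_
      rw [deg_toQ]
      exact add_le_add hD (d2 _)
  · have r := hrel ⟨z, hz⟩
    rw [Fintype.sum_prod_type] at r
    simp only [Fin.sum_univ_two, Fin.val_zero, Fin.val_one, pow_zero, pow_one, mul_one,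
      Finset.sum_add_distrib, ← mul_assoc, ← Finset.sum_mul] at r
    have e1 := (hT z hz).1.2.1
    rw [ev2, map_sub, map_mul, map_mul, map_pow, map_pow, MvPolynomial.eval_C]
    have a1 := wsoneb_ev i (fun k => cf (k, 0)) z.1
    have a2 := wsoneb_ev i (fun k => cf (k, 1)) z.1
    have a3 := ev2_toQ z.1 D
    simp only [ev2] at a1 a2 a3
    rw [a1, a2, a3, e1, eq_neg_of_add_eq_zero_left r]
    push_cast
    ring

end Pool.Agent.VW
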