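import Pool.Agent.P.MP_b0ea37_nt.WSCls
import Pool.Agent.P.MP_b0ea37_nt.WSOne
import Pool.Agent.P.MP_b0ea37_nt.WSOneB

namespace Pool.Agent.VW

open Polynomial

/-- points of one class on a curve that is smooth to a larger modulus -/
theorem on_curve (E a : ℕ) (ε : ℝ) (hε : 0 < ε) : ∃ C H₀ : ℝ, 0 ≤ C ∧ ∀ H : ℝ, H₀ ≤ H →
    ∀ (M M' : ℕ) (A D : Z2) (q : ℤ) (j : Fin 2) (T : Pt → Prop), Squarefree M' → M ∣ M' →
    H ^ (1 / 2 + ε) ≤ M' → Irreducible (toQ A) → A.totalDegree ≤ E → D.totalDegree ≤ E →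
    (∀ z, T z → On D q H a z ∧ Cop M' (2 * evz z.1 D) ∧ evz z.1 A = 0 ∧
      Cop M' (evz z.1 (MvPolynomial.pderiv j A))) → (∀ z z', T z → T z' → Cong M z z') →
    Cnt T (2 * (M' : ℝ) / M * (2 * E) ^ M'.primeFactors.card * C) := by
  obtain ⟨E₁, H₁, h1⟩ := one_curve ε hε
  obtain ⟨E₂, H₂, h2⟩ := one_line E a ε hε
  obtain ⟨C, hC, hb⟩ := bezout (E + E₁ + E₂)
  refine ⟨C * 2, max H₁ H₂, by linarith, ?_⟩
  intro H hH M M' A D q j T hM' hMM hsz hA hE hD hT hc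
  refine cover_curve D A q j E hE M M' hM' hMM (by linarith)
    (fun z hz => ⟨(hT z hz).1.2.1, (hT z hz).2⟩) hc fun z₀ _ => ?_
  have hcong : ∀ z z', T z ∧ Cong M' z z₀ → T z' ∧ Cong M' z' z₀ → Cong M' z z' :=
    fun z z' h h' => h.2.trans h'.2.symm
  obtain ⟨G, hG, hdeg, hz⟩ : ∃ G : Q2, ¬ toQ A ∣ G ∧ G.totalDegree ≤ E + E₁ + E₂ ∧
      ∀ z, T z ∧ Cong M' z z₀ → ev2 z.1 G = 0 := by
    rcases le_or_gt 2 A.totalDegree with h | h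
    · obtain ⟨G, a1, a2, a3⟩ := h1 H ((le_max_left _ _).trans hH) M' A j
        (fun z => T z ∧ Cong M' z z₀) hM' hsz h
        (fun z hz => ⟨(hT z hz.1).1.1, (hT z hz.1).2.2⟩) hcong
      exact ⟨G, a1, by omega, a3⟩
    · obtain ⟨G, a1, a2, a3⟩ := h2 H ((le_max_right _ _).trans hH) M' A D q j
        (fun z => T z ∧ Cong M' z z₀) hM' hsz hA (by omega) hD (fun z hz => hT z hz.1) hcong
      exact ⟨G, a1, by omega, a3⟩
  refine cnt_lift D q (fun z h => ⟨⟨?_, hz z h⟩, (hT z h.1).1.2.1, (hT z h.1).1.2.2.1⟩)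
    (hb (toQ A) G hA hG (by rw [deg_toQ]; omega) hdeg)
  rw [ev2_toQ, (hT z h.1).2.2.1, Int.cast_zero]

end Pool.Agent.VW
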