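import Pool.Agent.P.MP_b0ea37_nt.WSDefs
import Pool.Agent.P.MP_b0ea37_nt.WDiv
import Pool.Agent.P.MP_b0ea37_nt.VTDet

namespace Pool.Agent.VW

open Polynomial

theorem cnt_two (q N : ℤ) (hN : N ≠ 0) : Cnt (fun y : ℤ => N = q * y ^ 2) 2 := by
  have h0 : (C q * X ^ 2 - C N : ℤ[X]) ≠ 0 := fun h => by
    have h1 := congrArg (eval 0) h
    simp at h1
    exact hN h1
  have h2 : (C q * X ^ 2 - C N : ℤ[X]).natDegree ≤ 2 := by compute_degree
  refine (cnt_roots _ h0).mono (fun y hy => ?_) (by exact_mod_cast h2)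
  simp [hy]

theorem cnt_lift (D : Z2) (q : ℤ) {T : Pt → Prop} {P : (Fin 2 → ℤ) → Prop} {B : ℝ}
    (hT : ∀ z, T z → P z.1 ∧ evz z.1 D = q * z.2 ^ 2 ∧ evz z.1 D ≠ 0) (h : Cnt P B) :
    Cnt T (B * 2) := by
  refine (Cnt.prod (Q := fun x y => evz x D = q * y ^ 2 ∧ evz x D ≠ 0) h zero_le_two
    fun x _ => ?_).mono hT le_rfl
  by_cases h0 : evz x D = 0
  · exact Cnt.empty (fun y hy => hy.2 h0) zero_le_two
  · exact (cnt_two q _ h0).mono (fun y hy => hy.1) le_rfl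

theorem WSCls_cop {M : ℕ} {N N' : ℤ} (h : Cop M N) (e : N ≡ N' [ZMOD M]) : Cop M N' :=
  fun l hl hd hN => h l hl hd (by
    have h1 : (l : ℤ) ∣ N' - N := (Int.natCast_dvd_natCast.2 hd).trans e.dvd
    have h2 := dvd_sub hN h1
    rwa [sub_sub_cancel] at h2)

theorem WSCls_sq (q N : ℤ) (M : ℕ) (hM : Squarefree M) :
    Cnt (fun c : ℤ => 0 ≤ c ∧ c < M ∧ Cop M N ∧ (M : ℤ) ∣ q * c ^ 2 - N)
      (2 ^ M.primeFactors.card) := by
  by_cases hc : Cop M N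
  · have h2 : (C q * X ^ 2 - C N : ℤ[X]).natDegree ≤ 2 := by compute_degree
    have h := cnt_roots_mod M hM (C q * X ^ 2 - C N) 2 h2 fun l hl hd hg => hc l hl hd (by
      have h1 := eval_dvd (x := 0) hg
      simpa using h1)
    refine h.mono (fun c hc' => ⟨hc'.1, hc'.2.1, ?_⟩) (by norm_num)
    simpa using hc'.2.2.2
  · exact Cnt.empty (fun c h => hc h.2.2.1) (by positivity)

theorem WSCls_cover (D : Z2) (q : ℤ) (M : ℕ) (hM : Squarefree M) {T : Pt → Prop} {A B : ℝ}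
    (hB : 0 ≤ B) (hT : ∀ z, T z → evz z.1 D = q * z.2 ^ 2 ∧ Cop M (2 * evz z.1 D))
    (h : ∀ z₀, T z₀ → Cnt (fun z => T z ∧ Cong M z z₀) B) {P : (Fin 2 → ℤ) → Prop}
    (hP : Cnt P A) (hTP : ∀ z, T z → P fun i => z.1 i % M) :
    Cnt T (A * 2 ^ M.primeFactors.card * B) := by
  have hM0 : (0 : ℤ) < M := by exact_mod_cast Nat.pos_of_ne_zero hM.ne_zero
  have hQ := Cnt.prod (Q := fun x (c : ℤ) => 0 ≤ c ∧ c < M ∧ Cop M (evz x D) ∧
    (M : ℤ) ∣ q * c ^ 2 - evz x D) (B' := 2 ^ M.primeFactors.card) hP (by positivity)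
    fun x _ => WSCls_sq q (evz x D) M hM
  refine (Cnt.fibre (P := fun (y : Pt) (z : Pt) => T z ∧ (fun i => z.1 i % M) = y.1 ∧
    z.2 % M = y.2) hQ hB fun y _ => ?_).mono (fun z hz => ?_) le_rfl
  · refine Cnt.of_mem hB fun a ha => (h a ha.1).mono (fun z hz => ⟨hz.1, fun i => ?_, ?_⟩) le_rfl
    · exact congrFun (hz.2.1.trans ha.2.1.symm) i
    · exact hz.2.2.trans ha.2.2.symm
  · have e : evz z.1 D ≡ evz (fun i => z.1 i % M) D [ZMOD M] :=
      VT.eval_modEq (fun i => (Int.mod_modEq _ _).symm) D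
    refine ⟨(fun i => z.1 i % M, z.2 % M), ⟨hTP z hz, Int.emod_nonneg _ hM0.ne',
      Int.emod_lt_of_pos _ hM0, ?_, ?_⟩, hz, rfl, rfl⟩
    · exact WSCls_cop ((hT z hz).2.of_dvd_right (Dvd.intro_left 2 rfl)) e
    · have e2 : q * z.2 ^ 2 ≡ q * (z.2 % M) ^ 2 [ZMOD M] :=
        ((Int.mod_modEq _ _).symm.pow 2).mul_left q
      rw [← (hT z hz).1] at e2
      exact (e.symm.trans e2).dvd

/-- classes on the double cover -/
theorem cover_plane (D : Z2) (q : ℤ) (M : ℕ) (hM : Squarefree M) {T : Pt → Prop} {B : ℝ}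
    (hB : 0 ≤ B) (hT : ∀ z, T z → evz z.1 D = q * z.2 ^ 2 ∧ Cop M (2 * evz z.1 D))
    (h : ∀ z₀, T z₀ → Cnt (fun z => T z ∧ Cong M z z₀) B) :
    Cnt T ((M : ℝ) ^ 2 * 2 ^ M.primeFactors.card * B) := by
  have hM0 : (0 : ℤ) < M := by exact_mod_cast Nat.pos_of_ne_zero hM.ne_zero
  have hP := Cnt.pi (ι := Fin 2) (P := fun _ (r : ℤ) => 0 ≤ r ∧ r < M) (B := fun _ => (M : ℝ))
    fun _ => cnt_res M
  rw [Finset.prod_const, Finset.card_univ, Fintype.card_fin] at hP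
  exact WSCls_cover D q M hM hB hT h hP fun z _ i =>
    ⟨Int.emod_nonneg _ hM0.ne', Int.emod_lt_of_pos _ hM0⟩

/-- the polynomial in the coordinate `j` -/
noncomputable def WSCls_g (j : Fin 2) (a : ℤ) : Z2 →ₐ[ℤ] ℤ[X] :=
  MvPolynomial.aeval fun k => if k = j then X else C a

theorem WSCls_g_eval (j : Fin 2) (a : ℤ) (x : Fin 2 → ℤ) (hx : ∀ k, k ≠ j → x k = a) (A : Z2) :
    (WSCls_g j a A).eval (x j) = evz x A ∧
      (derivative (WSCls_g j a A)).eval (x j) = evz x (MvPolynomial.pderiv j A) := by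
  induction A using MvPolynomial.induction_on with
  | C c => simp [WSCls_g]
  | add p q hp hq => simp only [map_add, eval_add, hp.1, hp.2, hq.1, hq.2, and_self]
  | mul_X p k hp =>
    have h1 : WSCls_g j a (MvPolynomial.X k) = if k = j then X else C a := by simp [WSCls_g]
    rw [map_mul, h1, Derivation.leibniz, derivative_mul, eval_add, eval_mul, eval_mul, eval_mul,
      hp.1, hp.2]
    by_cases hk : k = j
    · subst hk
      simp [mul_comm, add_comm]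
    · simp [hk, hx k hk, MvPolynomial.pderiv_X_of_ne hk, mul_comm]

theorem WSCls_g_deg (j : Fin 2) (a : ℤ) (A : Z2) {E : ℕ} (hE : A.totalDegree ≤ E) :
    (WSCls_g j a A).natDegree ≤ E := by
  have h := MvPolynomial.aeval_natDegree_le (n := 1) A hE
    (fun k => if k = j then (X : ℤ[X]) else C a) fun k => by
      split_ifs <;> simp
  rwa [mul_one] at h

/-- finer classes on a curve -/
theorem cover_curve (D A : Z2) (q : ℤ) (j : Fin 2) (E : ℕ) (hE : A.totalDegree ≤ E) (M M' : ℕ)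
    (hM' : Squarefree M') (hMM : M ∣ M') {T : Pt → Prop} {B : ℝ} (hB : 0 ≤ B)
    (hT : ∀ z, T z → evz z.1 D = q * z.2 ^ 2 ∧ Cop M' (2 * evz z.1 D) ∧ evz z.1 A = 0 ∧
      Cop M' (evz z.1 (MvPolynomial.pderiv j A)))
    (hc : ∀ z z', T z → T z' → Cong M z z')
    (h : ∀ z₀, T z₀ → Cnt (fun z => T z ∧ Cong M' z z₀) B) :
    Cnt T (2 * (M' : ℝ) / M * (2 * E) ^ M'.primeFactors.card * B) := by
  refine Cnt.of_mem (by positivity) fun z₀ hz₀ => ?_
  have hM'0 : 0 < M' := Nat.pos_of_ne_zero hM'.ne_zero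
  have hM0 : 0 < M := Nat.pos_of_dvd_of_pos hMM hM'0
  have hZ : (0 : ℤ) < M' := by exact_mod_cast hM'0
  have hR : (0 : ℝ) < M := by exact_mod_cast hM0
  have hle : (M : ℝ) ≤ M' := by exact_mod_cast Nat.le_of_dvd hM'0 hMM
  obtain ⟨i, hi⟩ : ∃ i : Fin 2, ∀ k, k ≠ j → k = i :=
    ⟨j.rev, (by decide : ∀ j k : Fin 2, k ≠ j → k = j.rev) j⟩
  have h1 : Cnt (fun a : ℤ => 0 ≤ a ∧ a < M' ∧ (M : ℤ) ∣ a - z₀.1 i) (2 * (M' : ℝ) / M) := by
    refine (cnt_class M hM0 (z₀.1 i) ((M' : ℝ) / 2) ((M' : ℝ) / 2) (by positivity)).mono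
      (fun a ha => ⟨?_, ha.2.2⟩) ?_
    · have h2 : (0 : ℝ) ≤ a := by exact_mod_cast ha.1
      have h3 : (a : ℝ) < M' := by exact_mod_cast ha.2.1
      rw [abs_le]
      constructor <;> linarith
    · have h2 : (1 : ℝ) ≤ M' / M := (one_le_div hR).2 hle
      have h3 : 2 * ((M' : ℝ) / 2) / M = M' / M := by ring
      have h4 : 2 * (M' : ℝ) / M = M' / M + M' / M := by ring
      rw [h3, h4]
      linarith
  have h2 : ∀ a : ℤ, Cnt (fun b : ℤ => 0 ≤ b ∧ b < M' ∧ (M' : ℤ) ∣ (WSCls_g j a A).eval b ∧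
      Cop M' ((derivative (WSCls_g j a A)).eval b)) ((E : ℝ) ^ M'.primeFactors.card) := fun a => by
    refine Cnt.of_mem (by positivity) fun b₀ hb₀ => ?_
    refine (cnt_roots_mod M' hM' (WSCls_g j a A) E (WSCls_g_deg j a A hE)
      fun l hl hd hg => hb₀.2.2.2 l hl hd ?_).mono (fun b hb => ⟨hb.1, hb.2.1, hb.2.2.1⟩) le_rfl
    obtain ⟨u, hu⟩ := hg
    rw [hu, derivative_C_mul, eval_mul, eval_C]
    exact Dvd.intro _ rfl
  have h3 := Cnt.prod h1 (by positivity) fun a _ => h2 a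
  have h4 : Cnt (fun x : Fin 2 → ℤ => (0 ≤ x i ∧ x i < M' ∧ (M : ℤ) ∣ x i - z₀.1 i) ∧ 0 ≤ x j ∧
      x j < M' ∧ (M' : ℤ) ∣ evz x A ∧ Cop M' (evz x (MvPolynomial.pderiv j A)))
      (2 * (M' : ℝ) / M * (E : ℝ) ^ M'.primeFactors.card) := by
    refine h3.inj (fun x => (x i, x j)) (fun x hx => ?_) fun x y _ _ e => ?_
    · have h5 := WSCls_g_eval j (x i) x (fun k hk => by rw [hi k hk]) A
      exact ⟨hx.1, hx.2.1, hx.2.2.1, by rw [h5.1]; exact hx.2.2.2.1, by rw [h5.2]; exact hx.2.2.2.2⟩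
    · funext k
      by_cases hk : k = j
      · rw [hk]; exact congrArg Prod.snd e
      · rw [hi k hk]; exact congrArg Prod.fst e
  refine (WSCls_cover D q M' hM' hB (fun z hz => ⟨(hT z hz).1, (hT z hz).2.1⟩) h h4
    fun z hz => ?_).mono (fun _ hz => hz) (le_of_eq (by rw [mul_pow]; ring))
  have e : ∀ G : Z2, evz z.1 G ≡ evz (fun k => z.1 k % M') G [ZMOD M'] := fun G =>
    VT.eval_modEq (fun k => (Int.mod_modEq _ _).symm) G
  refine ⟨⟨Int.emod_nonneg _ hZ.ne', Int.emod_lt_of_pos _ hZ, ?_⟩, Int.emod_nonneg _ hZ.ne',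
    Int.emod_lt_of_pos _ hZ, ?_, WSCls_cop (hT z hz).2.2.2 (e _)⟩
  · exact (((hc z₀ z hz₀ hz).1 i).trans
      ((Int.mod_modEq _ _).symm.of_dvd (Int.natCast_dvd_natCast.2 hMM))).dvd
  · have h5 := (e A).dvd
    rwa [(hT z hz).2.2.1, sub_zero] at h5

end Pool.Agent.VW
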