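import Pool.Agent.P.MP_b0ea37_nt.WBez

namespace Pool.Agent.VW

open Polynomial

abbrev Z2 : Type := MvPolynomial (Fin 2) ℤ

abbrev Q2 : Type := MvPolynomial (Fin 2) ℚ

/-- a point of the plane with a square root -/
abbrev Pt : Type := (Fin 2 → ℤ) × ℤ

noncomputable abbrev toQ (A : Z2) : Q2 := MvPolynomial.map (Int.castRingHom ℚ) A

noncomputable abbrev evz (x : Fin 2 → ℤ) (A : Z2) : ℤ := MvPolynomial.eval x A

/-- restriction to the line through `a` in direction `w` -/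
noncomputable def onLine (a w : Fin 2 → ℚ) : Q2 →ₐ[ℚ] ℚ[X] :=
  MvPolynomial.aeval fun i => C (a i) + C (w i) * X

/-- odd degree on every rational line through `x` -/
def OddAt (D : Z2) (x : Fin 2 → ℤ) : Prop :=
  ∀ w : Fin 2 → ℚ, w ≠ 0 → Odd (onLine (fun i => (x i : ℚ)) w (toQ D)).natDegree

def Cong (M : ℕ) (z z' : Pt) : Prop :=
  (∀ i, z.1 i ≡ z'.1 i [ZMOD M]) ∧ z.2 ≡ z'.2 [ZMOD M]

/-- no prime of `M` divides `N` -/
def Cop (M : ℕ) (N : ℤ) : Prop := ∀ l : ℕ, l.Prime → l ∣ M → ¬ (l : ℤ) ∣ N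

/-- points of the double cover in a box -/
def On (D : Z2) (q : ℤ) (H : ℝ) (a : ℕ) (z : Pt) : Prop :=
  (∀ i, |(z.1 i : ℝ)| ≤ H) ∧ evz z.1 D = q * z.2 ^ 2 ∧ evz z.1 D ≠ 0 ∧
    |(evz z.1 D : ℝ)| ≤ H ^ a ∧ OddAt D z.1

/-- every class to a large squarefree modulus lies on a curve -/
def Aux (D : Z2) (T : Pt → Prop) (R : ℝ) (E : ℕ) : Prop :=
  ∀ (M : ℕ) (z₀ : Pt), Squarefree M → R ≤ M → ∃ G : Q2, G ≠ 0 ∧ G.totalDegree ≤ E ∧
    ∀ z, T z → Cong M z z₀ → Cop M (2 * evz z.1 D) → ev2 z.1 G = 0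

/-- independence modulo `D` -/
def Ind {N : ℕ} (D Φ : Z2) (v : Fin N → Fin 2) (Ψ : Fin N → Z2) : Prop :=
  ∀ (k J : ℕ) (u : ℕ → Fin N → ℚ), toQ D ∣ toQ Φ ^ k * ∑ j ∈ Finset.Icc 2 J, ∑ i,
      MvPolynomial.C (u j i) * (MvPolynomial.X (v i) ^ j * toQ (Ψ i)) →
    ∀ j ∈ Finset.Icc 2 J, ∀ i, u j i = 0

/-- `N / y` is an integer of size at most `B` -/
def Quo (B : ℝ) (y N : ℤ) : Prop := ∃ c : ℤ, N = y * c ∧ |(c : ℝ)| ≤ B

noncomputable def wr {R : Type} [CommRing R] (a b : R[X]) : R[X] :=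
  derivative a * b - a * derivative b

noncomputable def g1 (n : ℕ) : ℤ[X] :=
  X ^ (n - 2) + C (2 * ((n : ℤ) - 2 - (n % 2 : ℕ))) * X ^ (1 - n % 2)

noncomputable def g2 (n : ℕ) : ℤ[X] := X ^ (n % 2)

/-- the member of the plane with coordinates `x` -/
noncomputable def mem (n : ℕ) (f₀ : ℤ[X]) (x : Fin 2 → ℤ) : ℤ[X] :=
  f₀ + C (x 0) * g1 n + C (x 1) * g2 n

/-- the general member of the plane -/
noncomputable def fam (n : ℕ) (f₀ : ℤ[X]) : Z2[X] :=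
  up Z2 f₀ + C (MvPolynomial.X 0) * up Z2 (g1 n) + C (MvPolynomial.X 1) * up Z2 (g2 n)

noncomputable def DD (n : ℕ) (f₀ : ℤ[X]) : Z2 := Dv n (fam n f₀)

noncomputable def PP (n k : ℕ) (f₀ : ℤ[X]) : Z2 := Phi n k (fam n f₀)

def crd (n : ℕ) (f : ℤ[X]) : Fin 2 → ℤ := ![f.coeff (n - 2), f.coeff (n % 2)]

noncomputable def base (n : ℕ) (f : ℤ[X]) : ℤ[X] :=
  f - C (f.coeff (n - 2)) * g1 n - C (f.coeff (n % 2)) * g2 n

def vv (n : ℕ) (i : Fin (2 * (n - 3) + 3)) : Fin 2 := if (i : ℕ) < n - 3 + n % 2 then 0 else 1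

def ix (n : ℕ) (i : Fin (2 * (n - 3) + 3)) : ℕ :=
  if (i : ℕ) < n - 3 + n % 2 then i else i - (n - 3 + n % 2)

def Tri (W : ℕ) : Finset (ℕ × ℕ) :=
  (Finset.range (W + 1) ×ˢ Finset.range (W + 1)).filter fun p => p.1 + p.2 ≤ W

def Lev (m W : ℕ) : Finset (ℕ × ℕ) :=
  (Finset.range (W + 1) ×ˢ Finset.range (W + 1)).filter fun p => 2 ≤ p.2 ∧ (p.1 + 1) * m + p.2 ≤ W

/-- the index set of the functions on the surface -/
abbrev Idx (m W : ℕ) : Type := Tri W ⊕ Tri (W - (m + 2)) ⊕ Lev m W × Fin (2 * m + 3)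

def wt (m W : ℕ) : Idx m W → ℕ
  | .inl p => p.1.1 + p.1.2
  | .inr (.inl p) => p.1.1 + p.1.2 + (m + 2)
  | .inr (.inr p) => (p.1.1.1 + 1) * m + p.1.1.2

theorem ev2_toQ (x : Fin 2 → ℤ) (A : Z2) : ev2 x (toQ A) = (evz x A : ℚ) := by
  induction A using MvPolynomial.induction_on with
  | C c => simp
  | add p q hp hq => simp only [map_add, hp, hq, Int.cast_add]
  | mul_X p i hp => simp only [map_mul, hp, MvPolynomial.map_X, MvPolynomial.eval_X, Int.cast_mul]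

theorem toQ_injective : Function.Injective (toQ : Z2 → Q2) :=
  MvPolynomial.map_injective _ Int.cast_injective

theorem deg_toQ (A : Z2) : (toQ A).totalDegree = A.totalDegree := by
  unfold MvPolynomial.totalDegree
  rw [MvPolynomial.support_map_of_injective _ Int.cast_injective]

theorem Cong.refl (M : ℕ) (z : Pt) : Cong M z z := ⟨fun _ => rfl, rfl⟩

theorem Cong.symm {M : ℕ} {z z' : Pt} (h : Cong M z z') : Cong M z' z :=
  ⟨fun i => (h.1 i).symm, h.2.symm⟩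

theorem Cong.trans {M : ℕ} {z z' z'' : Pt} (h : Cong M z z') (h' : Cong M z' z'') : Cong M z z'' :=
  ⟨fun i => (h.1 i).trans (h'.1 i), h.2.trans h'.2⟩

theorem Cong.of_dvd {M M' : ℕ} {z z' : Pt} (h : Cong M' z z') (hM : M ∣ M') : Cong M z z' :=
  ⟨fun i => (h.1 i).of_dvd (Int.natCast_dvd_natCast.2 hM), h.2.of_dvd (Int.natCast_dvd_natCast.2 hM)⟩

theorem Cop.of_dvd {M M' : ℕ} {N : ℤ} (h : Cop M' N) (hM : M ∣ M') : Cop M N :=
  fun l hl hd => h l hl (hd.trans hM)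

theorem Cop.of_dvd_right {M : ℕ} {N N' : ℤ} (h : Cop M N) (hN : N' ∣ N) : Cop M N' :=
  fun l hl hd e => h l hl hd (e.trans hN)

end Pool.Agent.VW
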