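import Pool.Agent.P.MP_b0ea37_nt.WHt

namespace Pool.Agent.VW

open Polynomial

/-- the product of the differences over ordered pairs inside `s` -/
def Es {R ι : Type} [CommRing R] [DecidableEq ι] (s : Finset ι) (θ : ι → R) : R :=
  ∏ j ∈ s, ∏ l ∈ s.erase j, (θ j - θ l)

section Es

variable {R ι : Type} [CommRing R] [DecidableEq ι]

theorem Es_insert {s : Finset ι} {a : ι} (ha : a ∉ s) (θ : ι → R) :
    Es (insert a s) θ = (∏ l ∈ s, (θ a - θ l)) * ((∏ j ∈ s, (θ j - θ a)) * Es s θ) := by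
  have h : ∀ j ∈ s, ∏ l ∈ (insert a s).erase j, (θ j - θ l) =
      (θ j - θ a) * ∏ l ∈ s.erase j, (θ j - θ l) := fun j hj => by
    have hja : a ≠ j := fun h => ha (h ▸ hj)
    rw [Finset.erase_insert_of_ne hja, Finset.prod_insert (fun h => ha (Finset.mem_of_mem_erase h))]
  unfold Es
  rw [Finset.prod_insert ha, Finset.erase_insert ha, Finset.prod_congr rfl h,
    Finset.prod_mul_distrib]

theorem Es_map {κ : Type} [DecidableEq κ] (e : κ ↪ ι) (s : Finset κ) (θ : ι → R) :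
    Es (s.map e) θ = Es s fun i => θ (e i) := by
  unfold Es
  rw [Finset.prod_map]
  exact Finset.prod_congr rfl fun j _ => by rw [← Finset.map_erase, Finset.prod_map]

theorem Es_eq_zero_iff [IsDomain R] (s : Finset ι) (θ : ι → R) :
    Es s θ = 0 ↔ ¬ Set.InjOn θ s := by
  unfold Es
  simp only [Finset.prod_eq_zero_iff, Finset.mem_erase, sub_eq_zero, Set.InjOn, Finset.mem_coe]
  constructor
  · rintro ⟨j, hj, l, ⟨hl, hl'⟩, h⟩ hi
    exact hl (hi hj hl' h).symm
  · intro h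
    by_contra hc
    refine h fun j hj l hl e => ?_
    by_contra hne
    exact hc ⟨j, hj, l, ⟨fun e' => hne e'.symm, hl⟩, e⟩

theorem norm_Es_le (s : Finset ι) (θ : ι → ℂ) :
    ‖Es s θ‖ * (∏ i ∈ s, max 1 ‖θ i‖) ^ 2 ≤
      4 ^ (s.card ^ 2) * (∏ i ∈ s, max 1 ‖θ i‖) ^ (2 * s.card) := by
  induction s using Finset.induction_on with
  | empty => simp [Es]
  | insert a s ha ih =>
    have key : ∀ i j, ‖θ i - θ j‖ ≤ 2 * max 1 ‖θ i‖ * max 1 ‖θ j‖ := fun i j => by
      have := norm_sub_le (θ i) (θ j)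
      have h1 := le_max_left 1 ‖θ i‖
      have h2 := le_max_right 1 ‖θ i‖
      have h3 := le_max_left 1 ‖θ j‖
      have h4 := le_max_right 1 ‖θ j‖
      nlinarith
    set P := ∏ i ∈ s, max 1 ‖θ i‖ with hP
    set m := max 1 ‖θ a‖ with hm
    have hP0 : 0 ≤ P := Finset.prod_nonneg fun i _ => by positivity
    have hm0 : 0 ≤ m := by positivity
    have h1 : ‖∏ l ∈ s, (θ a - θ l)‖ ≤ (2 * m) ^ s.card * P := by
      rw [norm_prod, hP, ← Finset.prod_const, ← Finset.prod_mul_distrib]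
      exact Finset.prod_le_prod (fun _ _ => norm_nonneg _) fun l _ => key a l
    have h2 : ‖∏ l ∈ s, (θ l - θ a)‖ ≤ (2 * m) ^ s.card * P := by
      refine le_trans (le_of_eq ?_) h1
      rw [norm_prod, norm_prod]
      exact Finset.prod_congr rfl fun l _ => norm_sub_rev _ _
    rw [Es_insert ha, Finset.prod_insert ha, Finset.card_insert_of_notMem ha, norm_mul, norm_mul,
      ← hP, ← hm]
    calc _ ≤ ((2 * m) ^ s.card * P) * (((2 * m) ^ s.card * P) * ‖Es s θ‖) * (m * P) ^ 2 := by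
          gcongr
      _ = 4 ^ s.card * m ^ (2 * (s.card + 1)) * P ^ 2 * (‖Es s θ‖ * P ^ 2) := by
          have e4 : (4 : ℝ) ^ s.card = 2 ^ s.card * 2 ^ s.card := by rw [← mul_pow]; norm_num
          rw [e4]; ring
      _ ≤ 4 ^ s.card * m ^ (2 * (s.card + 1)) * P ^ 2 *
          (4 ^ (s.card ^ 2) * P ^ (2 * s.card)) := by gcongr
      _ = 4 ^ (s.card ^ 2 + s.card) * (m * P) ^ (2 * (s.card + 1)) := by ring
      _ ≤ _ := by
          gcongr
          · norm_num
          · nlinarith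

theorem norm_Es_le' (s : Finset ι) (θ : ι → ℂ) :
    ‖Es s θ‖ ≤ 4 ^ (s.card ^ 2) * (∏ i ∈ s, max 1 ‖θ i‖) ^ (2 * s.card - 2) := by
  rcases s.eq_empty_or_nonempty with rfl | hs
  · simp [Es]
  have h := norm_Es_le s θ
  have hP : 0 < ∏ i ∈ s, max 1 ‖θ i‖ := Finset.prod_pos fun i _ => by positivity
  have hc := hs.card_pos
  rw [show 2 * s.card = (2 * s.card - 2) + 2 by omega, pow_add, ← mul_assoc] at h
  exact le_of_mul_le_mul_right h (by positivity)

end Es

theorem exists_univ {n : ℕ} (Q : MvPolynomial (Fin n) ℤ) (hQ : Q.IsSymmetric) :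
    ∃ P : MvPolynomial (Fin n) ℤ, MvPolynomial.eval₂ (Int.castRingHom (MvPolynomial (Fin n) ℤ))
      (fun i : Fin n => (∏ j : Fin n, (X - C (MvPolynomial.X j)) :
        (MvPolynomial (Fin n) ℤ)[X]).coeff i) P = Q := by
  obtain ⟨p, hp⟩ := MvPolynomial.esymmAlgHom_surjective (σ := Fin n) (n := n) ℤ (by simp) ⟨Q, hQ⟩
  have hp' : MvPolynomial.aeval (fun i : Fin n => MvPolynomial.esymm (Fin n) ℤ (i + 1)) p = Q := by
    rw [← MvPolynomial.esymmAlgHom_apply, hp]
  refine ⟨MvPolynomial.aeval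
    (fun i : Fin n => (-1) ^ ((i : ℕ) + 1) * MvPolynomial.X (Fin.rev i)) p, ?_⟩
  rw [← hp', ← algebraMap_int_eq, ← MvPolynomial.aeval_def, ← AlgHom.comp_apply,
    MvPolynomial.comp_aeval]
  congr 2
  funext i
  have hi := i.2
  have h1 := Multiset.prod_X_sub_C_coeff
    (Finset.univ.val.map (MvPolynomial.X : Fin n → MvPolynomial (Fin n) ℤ)) (k := n - (i + 1))
    (by simp)
  rw [Multiset.map_map] at h1
  have h2 : (∏ j : Fin n, (X - C (MvPolynomial.X j)) :
      (MvPolynomial (Fin n) ℤ)[X]).coeff (n - (i + 1)) = _ := h1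
  have h3 : n - (n - (i + 1)) = i + 1 := by omega
  simp only [map_mul, map_pow, map_neg, map_one, MvPolynomial.aeval_X, Fin.val_rev, h2,
    Multiset.card_map, Finset.card_val, Finset.card_univ, Fintype.card_fin, h3]
  rw [← mul_assoc, ← pow_add, ← two_mul, pow_mul, MvPolynomial.esymm_eq_multiset_esymm]
  simp

theorem phiS_symm (n k : ℕ) : (phiS n k).IsSymmetric := by
  intro e
  simp only [phiS, map_sum, map_mul, map_pow, map_prod, map_sub, MvPolynomial.rename_X]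
  refine Fintype.sum_equiv e _ _ fun i => ?_
  congr 1
  refine Finset.prod_equiv e (by simp) fun j _ => ?_
  exact Finset.prod_equiv e (by simp) fun l _ => rfl

theorem Phi_map {R S : Type} [CommRing R] [CommRing S] (φ : R →+* S) (n k : ℕ) (f : R[X]) :
    Phi n k (f.map φ) = φ (Phi n k f) := by
  unfold Phi
  rw [MvPolynomial.eval₂_comp_left, RingHom.ext_int (φ.comp _) (Int.castRingHom S)]
  simp only [coeff_map]
  rfl

theorem Dv_map {R S : Type} [CommRing R] [CommRing S] (φ : R →+* S) (n : ℕ) (f : R[X]) :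
    Dv n (f.map φ) = φ (Dv n f) := by
  unfold Dv
  rw [derivative_map, resultant_map_map]

theorem Phi_roots {R : Type} [CommRing R] {n : ℕ} (k : ℕ) (θ : Fin n → R) :
    Phi n k (∏ i, (X - C (θ i))) = ∑ i, θ i ^ k * ∏ j ∈ Finset.univ.erase i,
      ∏ l ∈ (Finset.univ.erase i).erase j, (θ j - θ l) := by
  have h : Phi n k (∏ j : Fin n, (X - C (MvPolynomial.X j)) : (MvPolynomial (Fin n) ℤ)[X]) =
      phiS n k := Classical.epsilon_spec (exists_univ _ (phiS_symm n k))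
  have h2 := Phi_map (MvPolynomial.eval₂Hom (Int.castRingHom R) θ) n k
    (∏ j : Fin n, (X - C (MvPolynomial.X j)))
  rw [h, Polynomial.map_prod] at h2
  simpa [phiS, map_sum, map_prod] using h2

theorem Dv_roots' {R : Type} [CommRing R] {n : ℕ} (θ : Fin n → R) :
    Dv n (∏ i, (X - C (θ i))) = ∏ i, (derivative (∏ i, (X - C (θ i)))).eval (θ i) := by
  nontriviality R
  have hd : (∏ j, (X - C (θ j))).natDegree = n := by
    rw [natDegree_prod_of_monic _ _ fun j _ => monic_X_sub_C _]; simp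
  have hd' : (derivative (∏ j, (X - C (θ j)))).natDegree ≤ n - 1 := by
    have := natDegree_derivative_le (∏ j, (X - C (θ j))); omega
  have := resultant_prod_left Finset.univ (fun j => X - C (θ j)) _ (n - 1) (by simp) hd'
  unfold Dv
  rw [hd] at this
  rw [this]
  exact Finset.prod_congr rfl fun i _ => by simp [hd']

theorem Dv_roots {R : Type} [CommRing R] {n : ℕ} (θ : Fin n → R) :
    Dv n (∏ i, (X - C (θ i))) = ∏ i, ∏ j ∈ Finset.univ.erase i, (θ i - θ j) := by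
  rw [Dv_roots']
  refine Finset.prod_congr rfl fun i _ => ?_
  rw [← Finset.mul_prod_erase Finset.univ _ (Finset.mem_univ i), derivative_mul]
  simp [eval_prod]

theorem Dv_eq_zero_iff {K : Type} [Field K] {n : ℕ} (θ : Fin n → K) :
    Dv n (∏ i, (X - C (θ i))) = 0 ↔ ¬ Function.Injective θ := by
  rw [Dv_roots, ← Set.injOn_univ, ← Finset.coe_univ]
  exact Es_eq_zero_iff Finset.univ θ

/-- at most `n - 2` distinct roots -/
theorem Phi_eq_zero {K : Type} [Field K] [DecidableEq K] {n : ℕ} (k : ℕ) (θ : Fin n → K)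
    (h : (Finset.univ.image θ).card + 2 ≤ n) : Phi n k (∏ i, (X - C (θ i))) = 0 := by
  rw [Phi_roots]
  refine Finset.sum_eq_zero fun i _ => mul_eq_zero_of_right _ ?_
  refine (Es_eq_zero_iff (Finset.univ.erase i) θ).2 fun hi => ?_
  have h1 := Finset.card_image_of_injOn hi
  have h2 := Finset.card_le_card (Finset.image_subset_image (f := θ)
    (Finset.erase_subset i Finset.univ))
  rw [Finset.card_erase_of_mem (Finset.mem_univ i), Finset.card_univ, Fintype.card_fin] at h1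
  omega

theorem Phi_pair {K : Type} [Field K] {n : ℕ} (k : ℕ) (θ : Fin n → K) {a b : Fin n} (hab : a ≠ b)
    (h : θ a = θ b) :
    Phi n k (∏ i, (X - C (θ i))) = 2 * θ a ^ k * Es (Finset.univ.erase a) θ := by
  rw [Phi_roots, Finset.sum_eq_add a b hab]
  · have e1 : Finset.univ.erase b = (Finset.univ.erase a).map (Equiv.swap a b).toEmbedding := by
      rw [Finset.map_erase]; simp
    have e2 : Es (Finset.univ.erase b) θ = Es (Finset.univ.erase a) θ := by
      rw [e1, Es_map]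
      congr 1
      funext i
      exact Equiv.apply_swap_eq_self h i
    change θ a ^ k * Es _ θ + θ b ^ k * Es _ θ = _
    rw [e2, ← h]; ring
  · rintro c - ⟨hca, hcb⟩
    refine mul_eq_zero_of_right _ ((Es_eq_zero_iff (Finset.univ.erase c) θ).2 fun hi => ?_)
    exact hab (hi (by simpa using hca.symm) (by simpa using hcb.symm) h)
  · simp
  · simp

/-- exactly `n - 1` distinct roots -/
theorem Phi_ne_zero {K : Type} [Field K] [DecidableEq K] (h2 : (2 : K) ≠ 0) {n : ℕ} (θ : Fin n → K)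
    (h : (Finset.univ.image θ).card + 1 = n) : Phi n 0 (∏ i, (X - C (θ i))) ≠ 0 := by
  have hni : ¬ Function.Injective θ := fun hi => by
    rw [Finset.card_image_of_injective _ hi, Finset.card_univ, Fintype.card_fin] at h
    omega
  obtain ⟨a, b, hab, hne⟩ := Function.not_injective_iff.1 hni
  rw [Phi_pair 0 θ hne hab, pow_zero, mul_one]
  refine mul_ne_zero h2 fun h0 => (Es_eq_zero_iff _ θ).1 h0 (Finset.card_image_iff.1 ?_)
  have e : (Finset.univ.erase a).image θ = Finset.univ.image θ := by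
    refine (Finset.image_subset_image (Finset.erase_subset _ _)).antisymm fun z hz => ?_
    obtain ⟨i, -, rfl⟩ := Finset.mem_image.1 hz
    by_cases hi : i = a
    · exact Finset.mem_image.2 ⟨b, by simpa using hne.symm, by rw [hi, hab]⟩
    · exact Finset.mem_image.2 ⟨i, by simpa using hi, rfl⟩
  rw [e, Finset.card_erase_of_mem (Finset.mem_univ a), Finset.card_univ, Fintype.card_fin]
  omega

/-- value at a polynomial with a double root -/
theorem Phi_double {K : Type} [Field K] {m : ℕ} (k : ℕ) (r : K) (G : K[X]) (hG : G.Monic)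
    (hm : G.natDegree = m) :
    Phi (m + 2) k ((X - C r) ^ 2 * G) = 2 * (-1) ^ m * r ^ k * (G.eval r) ^ 2 * Dv m G := by
  let φ := algebraMap K (AlgebraicClosure K)
  apply φ.injective
  obtain ⟨γ, hγ⟩ := exists_roots (n := m) (G.map φ) (hG.map φ) (by rw [hG.natDegree_map, hm])
  have hγ' : G.map φ = ∏ i, (X - C (γ i)) := hγ
  let θ : Fin (m + 2) → AlgebraicClosure K := Fin.cons (φ r) (Fin.cons (φ r) γ)
  have e1 : ((X - C r) ^ 2 * G).map φ = ∏ i, (X - C (θ i)) := by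
    rw [Fin.prod_univ_succ, Fin.prod_univ_succ, Polynomial.map_mul, hγ']
    simp [θ, sq, mul_assoc]
  have e2 : (Finset.univ : Finset (Fin (m + 2))).erase 0 = Finset.univ.map (Fin.succEmb _) := by
    ext i
    rcases Fin.eq_zero_or_eq_succ i with rfl | ⟨j, rfl⟩ <;> simp
  have e3 : (Finset.univ : Finset (Fin (m + 1))) = insert 0 (Finset.univ.map (Fin.succEmb _)) := by
    ext i
    rcases Fin.eq_zero_or_eq_succ i with rfl | ⟨j, rfl⟩ <;> simp
  have e4 : φ (G.eval r) = ∏ i, (φ r - γ i) := by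
    rw [← eval₂_at_apply, ← eval_map, hγ']; simp [eval_prod]
  have e5 : ∏ i, (γ i - φ r) = (-1) ^ m * ∏ i, (φ r - γ i) := by
    rw [show ((-1 : AlgebraicClosure K)) ^ m = ∏ _i : Fin m, (-1) by simp,
      ← Finset.prod_mul_distrib]
    exact Finset.prod_congr rfl fun i _ => by ring
  rw [← Phi_map, e1, Phi_pair k θ (a := 0) (b := 1) (by simp) rfl, e2, Es_map, e3,
    Es_insert (by simp), Es_map, Finset.prod_map, Finset.prod_map]
  simp only [map_mul, map_pow, map_neg, map_one, map_ofNat, ← Dv_map, hγ', Dv_roots, e4]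
  change 2 * φ r ^ k * ((∏ i, (φ r - γ i)) * ((∏ i, (γ i - φ r)) * Es Finset.univ γ)) =
    _ * Es Finset.univ γ
  rw [e5]; ring

theorem Dv_eq_zero_iff_double {K : Type} [Field K] [IsAlgClosed K] {n : ℕ} (f : K[X]) (hf : f.Monic)
    (hn : f.natDegree = n) :
    Dv n f = 0 ↔ ∃ r : K, f.eval r = 0 ∧ (derivative f).eval r = 0 := by
  obtain ⟨θ, hθ⟩ := exists_roots f hf hn
  have h : Dv n f = ∏ i, (derivative f).eval (θ i) := by
    have := Dv_roots' θ
    rwa [← show f = _ from hθ] at this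
  rw [h, Finset.prod_eq_zero_iff]
  constructor
  · rintro ⟨i, -, hi⟩
    exact ⟨θ i, (hθ.eval_eq_zero_iff _).2 ⟨i, rfl⟩, hi⟩
  · rintro ⟨r, h1, h2⟩
    obtain ⟨i, rfl⟩ := (hθ.eval_eq_zero_iff _).1 h1
    exact ⟨i, Finset.mem_univ _, h2⟩

theorem exists_roots_up {n : ℕ} {f : ℤ[X]} (hm : f.Monic) (hn : f.natDegree = n) :
    ∃ θ : Fin n → ℂ, Roots (up ℂ f) θ :=
  exists_roots _ (hm.map _) (by rw [hm.natDegree_map, hn])

theorem Irr.Dv_ne_zero {n : ℕ} {f : ℤ[X]} (hm : f.Monic) (hn : f.natDegree = n) (hf : Irr f) :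
    Dv n f ≠ 0 := by
  obtain ⟨θ, hθ⟩ := exists_roots_up hm hn
  intro h
  have h1 : Dv n (up ℂ f) = 0 := by rw [Dv_map, h, map_zero]
  rw [show up ℂ f = _ from hθ, Dv_eq_zero_iff] at h1
  exact h1 (hθ.injective hf)

theorem abs_Dv_le (n : ℕ) : ∃ C : ℝ, 1 ≤ C ∧ ∀ f : ℤ[X], f.Monic → f.natDegree = n →
    |((Dv n f : ℤ) : ℝ)| ≤ C * f.supNorm ^ (2 * n - 2) := by
  refine ⟨4 ^ (n ^ 2) * ((n : ℝ) + 1) ^ (2 * n - 2), one_le_mul_of_one_le_of_one_le
    (one_le_pow₀ (by norm_num)) (one_le_pow₀ (by linarith [Nat.cast_nonneg (α := ℝ) n])),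
    fun f hm hn => ?_⟩
  obtain ⟨θ, hθ⟩ := exists_roots_up hm hn
  have h1 : ((Dv n f : ℤ) : ℂ) = Es Finset.univ θ := by
    rw [← eq_intCast (Int.castRingHom ℂ), ← Dv_map, show f.map _ = _ from hθ, Dv_roots]; rfl
  have h2 := norm_Es_le' Finset.univ θ
  rw [← h1, Complex.norm_intCast, Finset.card_univ, Fintype.card_fin] at h2
  rw [mul_assoc, ← mul_pow]
  refine h2.trans ?_
  have := hθ.prod_max_le
  gcongr

theorem abs_Phi_le (n : ℕ) : ∃ C : ℝ, 1 ≤ C ∧ ∀ k : ℕ, k ≤ 2 * n - 4 → ∀ f : ℤ[X], f.Monic →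
    f.natDegree = n → |((Phi n k f : ℤ) : ℝ)| ≤ C * f.supNorm ^ (2 * n - 4) := by
  have hn1 : (1 : ℝ) ≤ n + 1 := by linarith [Nat.cast_nonneg (α := ℝ) n]
  refine ⟨((n : ℝ) + 1) * (4 ^ ((n - 1) ^ 2) * ((n : ℝ) + 1) ^ (2 * n - 4)),
    one_le_mul_of_one_le_of_one_le hn1 (one_le_mul_of_one_le_of_one_le
    (one_le_pow₀ (by norm_num)) (one_le_pow₀ hn1)), fun k hk f hm hn => ?_⟩
  obtain ⟨θ, hθ⟩ := exists_roots_up hm hn
  have h1 : ((Phi n k f : ℤ) : ℂ) = ∑ i, θ i ^ k * Es (Finset.univ.erase i) θ := by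
    rw [← eq_intCast (Int.castRingHom ℂ), ← Phi_map, show f.map _ = _ from hθ, Phi_roots]; rfl
  have h2 : ∀ i, ‖θ i ^ k * Es (Finset.univ.erase i) θ‖ ≤
      4 ^ ((n - 1) ^ 2) * (((n : ℝ) + 1) * f.supNorm) ^ (2 * n - 4) := fun i => by
    have h3 := norm_Es_le' (Finset.univ.erase i) θ
    rw [Finset.card_erase_of_mem (Finset.mem_univ i), Finset.card_univ, Fintype.card_fin,
      show 2 * (n - 1) - 2 = 2 * n - 4 by omega] at h3
    have h4 : ‖θ i‖ ^ k ≤ (max 1 ‖θ i‖) ^ (2 * n - 4) :=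
      (pow_le_pow_left₀ (norm_nonneg _) (le_max_right _ _) k).trans
        (pow_le_pow_right₀ (le_max_left _ _) hk)
    have h5 := hθ.prod_max_le
    rw [← Finset.mul_prod_erase _ _ (Finset.mem_univ i)] at h5
    rw [norm_mul, norm_pow]
    calc _ ≤ (max 1 ‖θ i‖) ^ (2 * n - 4) * (4 ^ ((n - 1) ^ 2) *
          (∏ j ∈ Finset.univ.erase i, max 1 ‖θ j‖) ^ (2 * n - 4)) := by gcongr
      _ = 4 ^ ((n - 1) ^ 2) *
          (max 1 ‖θ i‖ * ∏ j ∈ Finset.univ.erase i, max 1 ‖θ j‖) ^ (2 * n - 4) := by ring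
      _ ≤ _ := by gcongr
  rw [← Complex.norm_intCast, h1]
  refine (norm_sum_le _ _).trans ((Finset.sum_le_sum fun i _ => h2 i).trans ?_)
  have := f.supNorm_nonneg
  rw [Finset.sum_const, Finset.card_univ, Fintype.card_fin, nsmul_eq_mul, mul_pow, mul_assoc,
    mul_assoc]
  gcongr
  linarith

theorem Wk.add {M : ℕ} {r : ℤ} {g h : ℤ[X]} (hg : Wk M r g) (hh : Wk M r h) : Wk M r (g + h) :=
  ⟨by rw [eval_add]; exact hg.1.add hh.1, by rw [derivative_add, eval_add]; exact hg.2.add hh.2⟩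

theorem Wk.sub {M : ℕ} {r : ℤ} {g h : ℤ[X]} (hg : Wk M r g) (hh : Wk M r h) : Wk M r (g - h) :=
  ⟨by rw [eval_sub]; exact hg.1.sub hh.1, by rw [derivative_sub, eval_sub]; exact hg.2.sub hh.2⟩

theorem Wk.mul_left {M : ℕ} {r : ℤ} {g : ℤ[X]} (hg : Wk M r g) (h : ℤ[X]) : Wk M r (h * g) :=
  ⟨by rw [eval_mul]; exact hg.1.mul_left _, by
    rw [derivative_mul, eval_add, eval_mul, eval_mul]
    exact (((dvd_pow_self _ two_ne_zero).trans hg.1).mul_left _).add (hg.2.mul_left _)⟩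

theorem Wk.of_dvd {M M' : ℕ} {r : ℤ} {g : ℤ[X]} (hg : Wk M r g) (h : M' ∣ M) : Wk M' r g :=
  ⟨(pow_dvd_pow_of_dvd (Int.natCast_dvd_natCast.2 h) 2).trans hg.1,
    (Int.natCast_dvd_natCast.2 h).trans hg.2⟩

theorem Wk.congr {M : ℕ} {r r' : ℤ} {g : ℤ[X]} (hg : Wk M r g) (h : (M : ℤ) ∣ r - r') :
    Wk M r' g := by
  have h' : (M : ℤ) ∣ r' - r := dvd_sub_comm.1 h
  constructor
  · obtain ⟨c, hc⟩ := binomExpansion g r (r' - r)
    rw [add_sub_cancel] at hc
    rw [hc]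
    exact (hg.1.add (by rw [sq]; exact mul_dvd_mul hg.2 h')).add
      ((pow_dvd_pow_of_dvd h' 2).mul_left _)
  · have := (h'.trans (sub_dvd_eval_sub r' r (derivative g))).add hg.2
    rwa [sub_add_cancel] at this

theorem Wk.reduce {M : ℕ} (hM : 1 ≤ M) {r : ℤ} {g : ℤ[X]} (hg : Wk M r g) :
    ∃ r' : ℤ, 0 ≤ r' ∧ r' < M ∧ (M : ℤ) ∣ r - r' ∧ Wk M r' g :=
  ⟨r % M, Int.emod_nonneg _ (by omega), Int.emod_lt_of_pos _ (by omega), Int.dvd_self_sub_emod,
    hg.congr Int.dvd_self_sub_emod⟩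

theorem Wk.crt (T : Finset ℕ) (hT : ∀ p ∈ T, p.Prime) {g : ℤ[X]} (hg : ∀ p ∈ T, Weak p g) :
    ∃ r : ℤ, Wk (∏ p ∈ T, p) r g := by
  induction T using Finset.induction_on with
  | empty => exact ⟨0, by simp [Wk]⟩
  | insert a s ha ih =>
    obtain ⟨r, hr⟩ := ih (fun p hp => hT p (Finset.mem_insert_of_mem hp))
      fun p hp => hg p (Finset.mem_insert_of_mem hp)
    obtain ⟨r', hr'⟩ := hg a (Finset.mem_insert_self _ _)
    have hc : Nat.Coprime a (∏ p ∈ s, p) := Nat.Coprime.prod_right fun p hp =>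
      (Nat.coprime_primes (hT a (Finset.mem_insert_self _ _))
        (hT p (Finset.mem_insert_of_mem hp))).2 fun e => ha (e ▸ hp)
    have hc' : IsCoprime (a : ℤ) ((∏ p ∈ s, p : ℕ) : ℤ) := Nat.isCoprime_iff_coprime.2 hc
    obtain ⟨u, v, huv⟩ := id hc'
    have h1 := hr'.congr (r' := r' + u * a * (r - r')) ⟨-(u * (r - r')), by ring⟩
    have h2 := hr.congr (r' := r' + u * a * (r - r'))
      ⟨v * (r - r'), by linear_combination (r' - r) * huv⟩
    refine ⟨r' + u * a * (r - r'), ?_⟩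
    rw [Finset.prod_insert ha, Wk, Nat.cast_mul, mul_pow]
    exact ⟨hc'.pow.mul_dvd h1.1 h2.1, hc'.mul_dvd h1.2 h2.2⟩

theorem Weak.dvd_Dv {n p : ℕ} (hp : p.Prime) {f : ℤ[X]} (hm : f.Monic) (hn : f.natDegree = n)
    (h : Weak p f) : (p : ℤ) ∣ Dv n f := by
  obtain ⟨r, h1, h2⟩ := h
  have h1' : (p : ℤ) ∣ f.eval r := (dvd_pow_self _ two_ne_zero).trans h1
  rcases Nat.eq_zero_or_pos n with rfl | h0
  · rw [eq_one_of_monic_natDegree_zero hm hn, eval_one] at h1'
    exact absurd (Int.natCast_dvd_natCast.1 h1') hp.not_dvd_one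
  obtain ⟨a, b, -, -, e⟩ := exists_mul_add_mul_eq_C_resultant f (derivative f) hn.le
    (show _ ≤ n - 1 from hn ▸ natDegree_derivative_le f) (Or.inl h0.ne')
  have := congrArg (eval r) e
  rw [eval_C, eval_add, eval_mul, eval_mul] at this
  rw [Dv, ← this]
  exact (h1'.mul_right _).add (h2.mul_right _)

end Pool.Agent.VW
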