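import Pool.Agent.P.MP_b0ea37_nt.WSDefs
import Pool.Agent.P.MP_b0ea37_nt.WSym

namespace Pool.Agent.VW

open Polynomial

theorem WSPl_up_map {R S : Type} [CommRing R] [CommRing S] (φ : R →+* S) (f : ℤ[X]) :
    (up R f).map φ = up S f := by
  rw [Polynomial.map_map, Subsingleton.elim (φ.comp (Int.castRingHom R)) (Int.castRingHom S)]

theorem map_fam {R : Type} [CommRing R] (n : ℕ) (f₀ : ℤ[X]) (φ : Z2 →+* R) :
    (fam n f₀).map φ = up R f₀ + C (φ (MvPolynomial.X 0)) * up R (g1 n) +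
      C (φ (MvPolynomial.X 1)) * up R (g2 n) := by
  rw [fam, Polynomial.map_add, Polynomial.map_add, Polynomial.map_mul, Polynomial.map_mul,
    map_C, map_C, WSPl_up_map, WSPl_up_map, WSPl_up_map]

theorem WSPl_up_int (f : ℤ[X]) : up ℤ f = f := by
  ext i
  simp

theorem WSPl_map_eval (n : ℕ) (f₀ : ℤ[X]) (x : Fin 2 → ℤ) :
    (fam n f₀).map (MvPolynomial.eval x) = mem n f₀ x := by
  rw [map_fam, WSPl_up_int, WSPl_up_int, WSPl_up_int, MvPolynomial.eval_X, MvPolynomial.eval_X, mem]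

theorem evz_DD (n : ℕ) (f₀ : ℤ[X]) (x : Fin 2 → ℤ) : evz x (DD n f₀) = Dv n (mem n f₀ x) := by
  rw [← WSPl_map_eval, Dv_map, DD]

theorem evz_PP (n k : ℕ) (f₀ : ℤ[X]) (x : Fin 2 → ℤ) :
    evz x (PP n k f₀) = Phi n k (mem n f₀ x) := by
  rw [← WSPl_map_eval, Phi_map, PP]

theorem WSPl_deg_eval {σ : Type} (P : MvPolynomial σ ℤ) : ∃ E : ℕ, ∀ a : σ → Z2,
    (∀ i, (a i).totalDegree ≤ 1) →
      (MvPolynomial.eval₂ (Int.castRingHom Z2) a P).totalDegree ≤ E := by
  induction P using MvPolynomial.induction_on with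
  | C c =>
    refine ⟨0, fun a _ => ?_⟩
    rw [MvPolynomial.eval₂_C, ← Subsingleton.elim (MvPolynomial.C : ℤ →+* Z2) (Int.castRingHom Z2),
      MvPolynomial.totalDegree_C]
  | add p q hp hq =>
    obtain ⟨E, hE⟩ := hp
    obtain ⟨E', hE'⟩ := hq
    refine ⟨max E E', fun a ha => ?_⟩
    rw [MvPolynomial.eval₂_add]
    exact (MvPolynomial.totalDegree_add _ _).trans (max_le_max (hE a ha) (hE' a ha))
  | mul_X p i hp =>
    obtain ⟨E, hE⟩ := hp
    refine ⟨E + 1, fun a ha => ?_⟩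
    rw [MvPolynomial.eval₂_mul, MvPolynomial.eval₂_X]
    exact (MvPolynomial.totalDegree_mul _ _).trans (add_le_add (hE a ha) (ha i))

theorem WSPl_deg_det (ι : Type) [Fintype ι] [DecidableEq ι] : ∃ E : ℕ, ∀ M : Matrix ι ι Z2,
    (∀ i j, (M i j).totalDegree ≤ 1) → M.det.totalDegree ≤ E := by
  obtain ⟨E, hE⟩ := WSPl_deg_eval
    (Matrix.of fun i j : ι => (MvPolynomial.X (i, j) : MvPolynomial (ι × ι) ℤ)).det
  refine ⟨E, fun M hM => ?_⟩
  have h := hE (fun p => M p.1 p.2) fun p => hM p.1 p.2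
  rw [← MvPolynomial.coe_eval₂Hom, RingHom.map_det] at h
  have e : (MvPolynomial.eval₂Hom (Int.castRingHom Z2) fun p : ι × ι => M p.1 p.2).mapMatrix
      (Matrix.of fun i j : ι => (MvPolynomial.X (i, j) : MvPolynomial (ι × ι) ℤ)) = M := by
    ext1 i j
    simp
  rwa [e] at h

theorem WSPl_deg_mul (A : Z2) (c : ℤ) : (A * (c : Z2)).totalDegree ≤ A.totalDegree := by
  have e : ((c : ℤ) : Z2) = MvPolynomial.C c := by simp
  rw [e]
  exact (MvPolynomial.totalDegree_mul A (MvPolynomial.C c)).trans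
    (by rw [MvPolynomial.totalDegree_C, add_zero])

theorem WSPl_deg_coeff (n : ℕ) (f₀ : ℤ[X]) (i : ℕ) : ((fam n f₀).coeff i).totalDegree ≤ 1 := by
  have e : (fam n f₀).coeff i = 1 * ((f₀.coeff i : ℤ) : Z2) +
      MvPolynomial.X 0 * (((g1 n).coeff i : ℤ) : Z2) +
      MvPolynomial.X 1 * (((g2 n).coeff i : ℤ) : Z2) := by
    simp [fam]
  rw [e]
  refine (MvPolynomial.totalDegree_add _ _).trans (max_le
    ((MvPolynomial.totalDegree_add _ _).trans (max_le ?_ ?_)) ?_)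
  · exact (WSPl_deg_mul _ _).trans (by simp)
  · exact (WSPl_deg_mul _ _).trans (by simp)
  · exact (WSPl_deg_mul _ _).trans (by simp)

theorem WSPl_deg_der (n : ℕ) (f₀ : ℤ[X]) (i : ℕ) :
    ((derivative (fam n f₀)).coeff i).totalDegree ≤ 1 := by
  rw [coeff_derivative]
  have e : ((i : Z2) + 1) = (((i : ℤ) + 1 : ℤ) : Z2) := by push_cast; rfl
  rw [e]
  exact (WSPl_deg_mul _ _).trans (WSPl_deg_coeff n f₀ _)

theorem deg_DD_PP (n : ℕ) : ∃ E : ℕ, ∀ f₀ : ℤ[X], (DD n f₀).totalDegree ≤ E ∧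
    ∀ k ≤ n, (PP n k f₀).totalDegree ≤ E := by
  obtain ⟨E, hE⟩ := WSPl_deg_det (Fin (n + (n - 1)))
  choose F hF using fun k => WSPl_deg_eval (phiP n k)
  refine ⟨max E ((Finset.range (n + 1)).sup F), fun f₀ => ⟨le_max_of_le_left (hE _ ?_),
    fun k hk => le_max_of_le_right ((hF k _ fun i => WSPl_deg_coeff n f₀ i).trans
      (Finset.le_sup (f := F) (Finset.mem_range.2 (Nat.lt_succ_of_le hk))))⟩⟩
  intro i j
  rw [sylvester, Matrix.of_apply]
  induction j using Fin.addCases with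
  | left j =>
    rw [Fin.addCases_left]
    split_ifs
    · exact WSPl_deg_der n f₀ _
    · simp
  | right j =>
    rw [Fin.addCases_right]
    split_ifs
    · exact WSPl_deg_coeff n f₀ _
    · simp

theorem mem_base (n : ℕ) (f : ℤ[X]) : mem n (base n f) (crd n f) = f := by
  simp only [mem, base, crd, Matrix.cons_val_zero, Matrix.cons_val_one]
  ring

theorem WSPl_g1_coeff (n i : ℕ) : (g1 n).coeff i = (if i = n - 2 then 1 else 0) +
    2 * ((n : ℤ) - 2 - (n % 2 : ℕ)) * (if i = 1 - n % 2 then 1 else 0) := by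
  rw [g1, coeff_add, coeff_C_mul, coeff_X_pow, coeff_X_pow]

theorem WSPl_g2_coeff (n i : ℕ) : (g2 n).coeff i = if i = n % 2 then 1 else 0 := by
  rw [g2, coeff_X_pow]

theorem g1_monic {n : ℕ} (hn : 5 ≤ n) : (g1 n).Monic ∧ (g1 n).natDegree = n - 2 := by
  have h : (C (2 * ((n : ℤ) - 2 - (n % 2 : ℕ))) * X ^ (1 - n % 2) : ℤ[X]).degree <
      (X ^ (n - 2) : ℤ[X]).degree := by
    rw [degree_X_pow]
    exact (degree_C_mul_X_pow_le _ _).trans_lt (by exact_mod_cast (by omega))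
  refine ⟨(monic_X_pow _).add_of_left h, ?_⟩
  rw [g1, natDegree_add_eq_left_of_degree_lt h, natDegree_X_pow]

theorem g2_monic (n : ℕ) : (g2 n).Monic ∧ (g2 n).natDegree = n % 2 :=
  ⟨monic_X_pow _, natDegree_X_pow _⟩

theorem g_indep {n : ℕ} (hn : 5 ≤ n) : Indep (g1 n) (g2 n) := by
  intro a b h
  have h1 := congrArg (fun p : ℤ[X] => p.coeff (n - 2)) h
  have h2 := congrArg (fun p : ℤ[X] => p.coeff (n % 2)) h
  simp only [coeff_add, coeff_C_mul, WSPl_g1_coeff, WSPl_g2_coeff, coeff_zero] at h1 h2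
  rw [if_pos trivial, if_neg (by omega), if_neg (by omega)] at h1
  rw [if_neg (by omega), if_neg (by omega), if_pos trivial] at h2
  exact ⟨by simpa using h1, by simpa using h2⟩

theorem WSPl_eis (v : ℕ) (hv : 1 ≤ v) (c k : ℤ) (hc : c = 2 ∨ c = -2) (hk : k ≠ 0) :
    Irr (C k * (X ^ v + C c)) ∧ (C k * (X ^ v + C c) : ℤ[X]).natDegree = v := by
  have hm : (X ^ v + C c : ℤ[X]).Monic := monic_X_pow_add_C c (by omega)
  have hd : (X ^ v + C c : ℤ[X]).degree = v := degree_X_pow_add_C (by omega) c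
  have h1 : Irreducible (X ^ v + C c : ℤ[X]) := by
    refine irreducible_of_eisenstein_criterion (P := Ideal.span {(2 : ℤ)})
      ((Ideal.span_singleton_prime two_ne_zero).2 Int.prime_two) ?_ ?_ ?_ ?_ hm.isPrimitive
    · rw [hm.leadingCoeff, Ideal.mem_span_singleton]
      decide
    · intro m hlt
      rw [hd] at hlt
      have hlt' : m < v := by exact_mod_cast hlt
      rw [coeff_add, coeff_X_pow, if_neg hlt'.ne, zero_add, coeff_C, Ideal.mem_span_singleton]
      split_ifs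
      · rcases hc with rfl | rfl <;> decide
      · exact dvd_zero _
    · rw [hd]
      exact_mod_cast hv
    · rw [coeff_add, coeff_X_pow, if_neg (by omega), zero_add, coeff_C_zero,
        Ideal.span_singleton_pow, Ideal.mem_span_singleton]
      rcases hc with rfl | rfl <;> decide
  refine ⟨?_, ?_⟩
  · have h2 := (IsPrimitive.Int.irreducible_iff_irreducible_map_cast hm.isPrimitive).1 h1
    unfold Irr up
    rw [Polynomial.map_mul, map_C]
    refine (irreducible_isUnit_mul (isUnit_C.2 (IsUnit.mk0 _ ?_))).2 h2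
    simpa using hk
  · rw [natDegree_C_mul hk, natDegree_eq_of_degree_eq_some hd]

theorem wr_g {n : ℕ} (hn : 5 ≤ n) : Irr (wr (g1 n) (g2 n)) ∧
    (wr (g1 n) (g2 n)).natDegree = n - 3 + n % 2 := by
  obtain ⟨m, rfl⟩ : ∃ m, n = m + 3 := ⟨n - 3, by omega⟩
  have e1 : m + 3 - 2 = m + 1 := by omega
  have e2 : m + 3 - 3 = m := by omega
  rcases Nat.mod_two_eq_zero_or_one (m + 3) with h | h
  · have e : wr (g1 (m + 3)) (g2 (m + 3)) = C ((m : ℤ) + 1) * (X ^ m + C 2) := by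
      simp only [wr, g1, g2, h, e1, derivative_add, derivative_C_mul, derivative_X_pow_succ,
        Nat.sub_zero, pow_zero, pow_one, derivative_X, derivative_one]
      simp only [map_mul, map_sub, map_add, map_natCast, map_ofNat, map_one, Nat.cast_add,
        Nat.cast_ofNat, Nat.cast_zero, map_zero]
      ring
    rw [e, h, e2]
    exact WSPl_eis m (by omega) 2 _ (Or.inl rfl) (by omega)
  · have e : wr (g1 (m + 3)) (g2 (m + 3)) = C (m : ℤ) * (X ^ (m + 1) + C (-2)) := by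
      simp only [wr, g1, g2, h, e1, derivative_add, derivative_C_mul, derivative_X_pow_succ,
        Nat.sub_self, pow_zero, pow_one, derivative_X, derivative_one]
      simp only [map_mul, map_sub, map_add, map_natCast, map_ofNat, map_one, Nat.cast_add,
        Nat.cast_ofNat, Nat.cast_one, map_neg]
      ring
    rw [e, h, e2]
    exact WSPl_eis (m + 1) (by omega) (-2) _ (Or.inr rfl) (by omega)

theorem WSPl_abs_coeff {f : ℤ[X]} {H : ℝ} (h : f.supNorm ≤ H) (i : ℕ) :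
    |((f.coeff i : ℤ) : ℝ)| ≤ H := (f.le_supNorm i).trans h

theorem WSPl_base_coeff (n : ℕ) (f : ℤ[X]) (i : ℕ) : (base n f).coeff i =
    f.coeff i - f.coeff (n - 2) * ((if i = n - 2 then 1 else 0) +
      2 * ((n : ℤ) - 2 - (n % 2 : ℕ)) * (if i = 1 - n % 2 then 1 else 0)) -
      f.coeff (n % 2) * (if i = n % 2 then 1 else 0) := by
  rw [base, coeff_sub, coeff_sub, coeff_C_mul, coeff_C_mul, WSPl_g1_coeff, WSPl_g2_coeff]

theorem WSPl_top {n : ℕ} {f f' : ℤ[X]} (hm : f.Monic) (hd : f.natDegree = n) (hm' : f'.Monic)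
    (hd' : f'.natDegree = n) {i : ℕ} (hi : n ≤ i) : f.coeff i = f'.coeff i := by
  rcases hi.eq_or_lt with rfl | hi
  · rw [← hd, hm.coeff_natDegree, hd, ← hd', hm'.coeff_natDegree]
  · rw [coeff_eq_zero_of_natDegree_lt (hd ▸ hi), coeff_eq_zero_of_natDegree_lt (hd' ▸ hi)]

/-- number of planes -/
theorem cnt_base (n : ℕ) (hn : 5 ≤ n) : ∃ C : ℝ, 0 ≤ C ∧ ∀ H : ℝ, 1 ≤ H →
    Cnt (fun f₀ : ℤ[X] => ∃ f : ℤ[X], f.Monic ∧ f.natDegree = n ∧ f.supNorm ≤ H ∧ f₀ = base n f)
      (C * H ^ (n - 2)) := by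
  refine ⟨(4 * n + 3) ^ (n - 2), by positivity, fun H hH => ?_⟩
  obtain ⟨T, hT⟩ : ∃ T : Finset ℕ, T = ((Finset.range n).erase (n - 2)).erase (n % 2) := ⟨_, rfl⟩
  have hmem : ∀ i, i ∈ T ↔ i ≠ n % 2 ∧ i ≠ n - 2 ∧ i < n := fun i => by
    rw [hT, Finset.mem_erase, Finset.mem_erase, Finset.mem_range]
  have hcard : T.card = n - 2 := by
    rw [hT, Finset.card_erase_of_mem, Finset.card_erase_of_mem, Finset.card_range]
    · omega
    · rw [Finset.mem_range]; omega
    · rw [Finset.mem_erase, Finset.mem_range]; omega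
  have hn' : (5 : ℝ) ≤ n := by exact_mod_cast hn
  have h0 : (0 : ℝ) ≤ (2 * n + 1) * H := by positivity
  refine ((Cnt.pi (ι := T) (P := fun _ (t : ℤ) => |(t : ℝ)| ≤ (2 * n + 1) * H)
    (B := fun _ => 2 * ((2 * n + 1) * H) + 1) fun _ => cnt_int_abs _ h0).inj
    (fun g i => g.coeff i) ?_ ?_).mono (fun _ h => h) ?_
  · rintro _ ⟨f, -, -, hf, rfl⟩ ⟨i, hi⟩
    obtain ⟨h1, h2, -⟩ := (hmem i).1 hi
    have a1 := abs_le.1 (WSPl_abs_coeff hf i)
    have a2 := abs_le.1 (WSPl_abs_coeff hf (n - 2))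
    show |(((base n f).coeff i : ℤ) : ℝ)| ≤ _
    rw [WSPl_base_coeff, if_neg h1, if_neg h2]
    have hd : ((n % 2 : ℕ) : ℝ) ≤ 1 := by exact_mod_cast (by omega : n % 2 ≤ 1)
    have hd0 : (0 : ℝ) ≤ ((n % 2 : ℕ) : ℝ) := Nat.cast_nonneg _
    generalize n % 2 = d at hd hd0
    have k0 : (0 : ℝ) ≤ n - 2 - d := by linarith
    have k1 := mul_le_mul_of_nonneg_left a2.1 k0
    have k2 := mul_le_mul_of_nonneg_left a2.2 k0
    have k3 : (n - 2 - d) * H ≤ n * H := mul_le_mul_of_nonneg_right (by linarith) (by linarith)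
    have k4 : (0 : ℝ) ≤ n * H := by positivity
    split_ifs <;> push_cast <;> rw [abs_le] <;> constructor <;> linarith
  · rintro _ _ ⟨f, hm, hd, -, rfl⟩ ⟨f', hm', hd', -, rfl⟩ e
    ext i
    by_cases hi : i ∈ T
    · exact congrFun e ⟨i, hi⟩
    · rw [hmem] at hi
      rw [WSPl_base_coeff, WSPl_base_coeff]
      by_cases h1 : i = n % 2
      · rw [if_pos h1, if_neg (by omega), if_neg (by omega), h1]
        ring
      · by_cases h2 : i = n - 2
        · rw [if_pos h2, if_neg (by omega), if_neg h1, h2]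
          ring
        · rw [if_neg h2, if_neg (by omega), if_neg h1, WSPl_top hm hd hm' hd' (by omega)]
          ring
  · rw [Finset.prod_const, Finset.card_univ, Fintype.card_coe, hcard, ← mul_pow]
    exact pow_le_pow_left₀ (by positivity) (by linarith) _

theorem WSPl_wr_coeff (n : ℕ) (h : ℤ[X]) (i : ℕ) : (wr (g2 n) h).coeff i =
    h.coeff (i + 1 - n % 2) * (2 * ((n % 2 : ℕ) : ℤ) - 1 - i) := by
  rcases Nat.mod_two_eq_zero_or_one n with e | e
  · simp only [wr, g2, e, pow_zero, derivative_one, zero_mul, one_mul, zero_sub, coeff_neg,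
      coeff_derivative, Nat.sub_zero]
    push_cast
    ring
  · simp only [wr, g2, e, pow_one, derivative_X, one_mul, coeff_sub, Nat.add_sub_cancel]
    rcases i with _ | i
    · simp
    · rw [coeff_X_mul, coeff_derivative]
      push_cast
      ring

/-- the exceptional planes -/
theorem cnt_special (n : ℕ) (hn : 5 ≤ n) (H : ℝ) (hH : 0 ≤ H) :
    Cnt (fun f : ℤ[X] => f.Monic ∧ f.natDegree = n ∧ f.supNorm ≤ H ∧
      up ℚ (wr (g1 n) (g2 n)) ∣ up ℚ (wr (g2 n) f)) ((2 * H + 1) ^ 3) := by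
  refine ((Cnt.pi (ι := Fin 3) (P := fun _ (t : ℤ) => |(t : ℝ)| ≤ H)
    (B := fun _ => 2 * H + 1) fun _ => cnt_int_abs _ hH).inj
    (fun g j => g.coeff (![n - 1, n - 2, n % 2] j))
    (fun f hf j => WSPl_abs_coeff hf.2.2.1 _) ?_).mono (fun _ h => h) (by simp)
  rintro f f' ⟨hm, hd, -, hv⟩ ⟨hm', hd', -, hv'⟩ e
  have e0 : f.coeff (n - 1) = f'.coeff (n - 1) := congrFun e 0
  have e1 : f.coeff (n - 2) = f'.coeff (n - 2) := congrFun e 1
  have e2 : f.coeff (n % 2) = f'.coeff (n % 2) := congrFun e 2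
  have htop : ∀ i, n - 2 ≤ i → (f - f').coeff i = 0 := by
    intro i hi
    rw [coeff_sub, sub_eq_zero]
    rcases (by omega : i = n - 2 ∨ i = n - 1 ∨ n ≤ i) with rfl | rfl | h
    · exact e1
    · exact e0
    · exact WSPl_top hm hd hm' hd' h
  have hsub : wr (g2 n) (f - f') = wr (g2 n) f - wr (g2 n) f' := by
    simp only [wr, derivative_sub]
    ring
  have hdvd : up ℚ (wr (g1 n) (g2 n)) ∣ up ℚ (wr (g2 n) (f - f')) := by
    rw [hsub]
    unfold up
    rw [Polynomial.map_sub]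
    exact dvd_sub hv hv'
  have hinj : Function.Injective (Int.castRingHom ℚ) := Int.cast_injective
  have hz : up ℚ (wr (g2 n) (f - f')) = 0 := by
    refine eq_zero_of_dvd_of_degree_lt hdvd ?_
    rw [degree_eq_natDegree (wr_g hn).1.ne_zero, natDegree_map_eq_of_injective hinj, (wr_g hn).2,
      degree_lt_iff_coeff_zero]
    intro m hmn
    rw [coeff_map, WSPl_wr_coeff, htop _ (by omega), zero_mul, map_zero]
  have hz' : wr (g2 n) (f - f') = 0 := (Polynomial.map_eq_zero_iff hinj).1 hz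
  rw [← sub_eq_zero]
  ext i
  rw [coeff_zero]
  by_cases hi : i = n % 2
  · rw [hi, coeff_sub, e2, sub_self]
  · have h1 := WSPl_wr_coeff n (f - f') (i + n % 2 - 1)
    rw [hz', coeff_zero, (by omega : i + n % 2 - 1 + 1 - n % 2 = i)] at h1
    exact (mul_eq_zero.1 h1.symm).resolve_right (by omega)

end Pool.Agent.VW
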