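import Pool.Agent.P.MP_b0ea37_nt.WXa
import Pool.Agent.P.MP_b0ea37_nt.WDiv

namespace Pool.Agent.VW

open Polynomial

/-- a squarefree number all of whose primes divide `z` divides `z` -/
theorem WXb_sqf_dvd {Y : ℕ} (hY : Squarefree Y) {z : ℤ}
    (h : ∀ p : ℕ, p.Prime → p ∣ Y → (p : ℤ) ∣ z) : (Y : ℤ) ∣ z := by
  rw [Int.natCast_dvd]
  have h1 : (∏ p ∈ Y.primeFactors, p) ∣ z.natAbs :=
    Finset.prod_primes_dvd _ (fun p hp => (Nat.prime_of_mem_primeFactors hp).prime)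
      fun p hp => Int.natCast_dvd.1
        (h p (Nat.prime_of_mem_primeFactors hp) (Nat.dvd_of_mem_primeFactors hp))
  rwa [Nat.prod_primeFactors_of_squarefree hY] at h1

/-- the count in one fibre -/
theorem WXb_line {c : ℤ} (hc : c ≠ 0) {E : ℕ} (g : ℤ[X]) (hg : g.natDegree ≤ E)
    (hgc : g.coeff E = c) {B H : ℝ} (hB : 1 ≤ B) {Y : ℕ} (hY : Squarefree Y) (hH : (Y : ℝ) ≤ H) :
    Cnt (fun t : ℤ => |(t : ℝ)| ≤ B * H ∧ ∀ p : ℕ, p.Prime → p ∣ Y → (p : ℤ) ∣ g.eval t)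
      ((max (E : ℝ) 1) ^ Y.primeFactors.card * ((2 * B * |(c : ℝ)| + 1) * H / Y)) := by
  have hY0 : Y ≠ 0 := hY.ne_zero
  have hYr : (1 : ℝ) ≤ Y := by exact_mod_cast Nat.one_le_iff_ne_zero.2 hY0
  have hc0 : c.natAbs ≠ 0 := Int.natAbs_ne_zero.2 hc
  obtain ⟨Y1, hY1⟩ : ∃ Y1 : ℕ, Y1 = Y / Nat.gcd Y c.natAbs := ⟨_, rfl⟩
  have hmul : Y1 * Nat.gcd Y c.natAbs = Y := by
    rw [hY1]; exact Nat.div_mul_cancel (Nat.gcd_dvd_left _ _)
  have hdvd : Y1 ∣ Y := Dvd.intro _ hmul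
  have hsq : Squarefree Y1 := hY.squarefree_of_dvd hdvd
  have hco : Nat.Coprime Y1 c.natAbs := by
    rw [hY1]; exact Nat.coprime_div_gcd_of_squarefree hY hc0
  have h10 : 1 ≤ Y1 := Nat.one_le_iff_ne_zero.2 hsq.ne_zero
  have h1r : (1 : ℝ) ≤ Y1 := by exact_mod_cast h10
  have hle : (Y : ℝ) ≤ Y1 * |(c : ℝ)| := by
    have h2 : Y ≤ Y1 * c.natAbs := by
      conv_lhs => rw [← hmul]
      exact Nat.mul_le_mul_left _ (Nat.gcd_le_right _ (Nat.pos_of_ne_zero hc0))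
    have h3 : ((c.natAbs : ℕ) : ℝ) = |(c : ℝ)| := by
      rw [← Int.cast_abs, ← Int.cast_natCast, Int.natCast_natAbs]
    rw [← h3]
    exact_mod_cast h2
  have hH1 : 1 ≤ H := hYr.trans hH
  have hBH : 0 ≤ B * H := by positivity
  have hroots := cnt_roots_mod Y1 hsq g E hg (by
    intro p hp hpd hC
    have h2 : (p : ℤ) ∣ c := by
      rw [← hgc]; exact (C_dvd_iff_dvd_coeff _ _).1 hC E
    have h3 : p ∣ Nat.gcd Y1 c.natAbs := Nat.dvd_gcd hpd (Int.natCast_dvd.1 h2)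
    rw [hco] at h3
    exact hp.one_lt.ne' (Nat.dvd_one.1 h3))
  have hf := Cnt.fibre (P := fun (r t : ℤ) => |(t : ℝ) - 0| ≤ B * H ∧ (Y1 : ℤ) ∣ t - r) hroots
    (by positivity : (0 : ℝ) ≤ 2 * (B * H) / Y1 + 1) fun r _ => cnt_class Y1 h10 r 0 (B * H) hBH
  refine hf.mono (fun t ht => ?_) ?_
  · have hz : (0 : ℤ) < Y1 := by exact_mod_cast h10
    have hd : (Y1 : ℤ) ∣ t - t % Y1 := ⟨t / Y1, by rw [Int.emod_def]; ring⟩
    refine ⟨t % Y1, ⟨Int.emod_nonneg _ hz.ne', Int.emod_lt_of_pos _ hz, ?_⟩, by simpa using ht.1, hd⟩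
    have h2 : (Y1 : ℤ) ∣ g.eval t := WXb_sqf_dvd hsq fun p hp hpd => ht.2 p hp (hpd.trans hdvd)
    have h3 := hd.trans (sub_dvd_eval_sub t (t % Y1) g)
    simpa using h2.sub h3
  · refine mul_le_mul ?_ ?_ (by positivity) (by positivity)
    · exact (pow_le_pow_left₀ (Nat.cast_nonneg _) (le_max_left _ _) _).trans
        (pow_le_pow_right₀ (le_max_right _ _)
          (Finset.card_le_card (Nat.primeFactors_mono hdvd hY0)))
    · have h2 : 2 * (B * H) / Y1 ≤ 2 * B * |(c : ℝ)| * H / Y := by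
        rw [div_le_div_iff₀ (by linarith) (by linarith)]
        have := mul_le_mul_of_nonneg_left hle (by positivity : 0 ≤ 2 * (B * H))
        linarith
      have h3 : 1 ≤ H / Y := (one_le_div (by linarith)).2 hH
      have e : (2 * B * |(c : ℝ)| + 1) * H / Y = 2 * B * |(c : ℝ)| * H / Y + H / Y := by ring
      linarith

/-- points on the sets modulo all primes of a squarefree number -/
theorem ek_small (k j : ℕ) : ∀ N m : ℕ, k + j ≤ N →
    ∀ (P : Fin m → Fin N → MvPolynomial (Fin k) ℤ) (B : ℝ), 1 ≤ B → ∃ C A : ℝ, 1 ≤ C ∧ 1 ≤ A ∧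
    ∀ (H : ℝ) (Y : ℕ), Squarefree Y → (Y : ℝ) ≤ H →
      Cnt (fun a : Fin N → ℤ => (∀ i, |(a i : ℝ)| ≤ B * H) ∧
        ∀ p : ℕ, p.Prime → p ∣ Y → OnV P p a)
        (C * A ^ Y.primeFactors.card * H ^ N / (Y : ℝ) ^ j) := by
  induction j with
  | zero =>
    intro N m _ P B hB
    refine ⟨(3 * B) ^ N, 1, one_le_pow₀ (by linarith), le_rfl, fun H Y hY hH => ?_⟩
    have hYr : (1 : ℝ) ≤ Y := by exact_mod_cast Nat.one_le_iff_ne_zero.2 hY.ne_zero
    have hH1 : 1 ≤ H := hYr.trans hH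
    have hBH : 1 ≤ B * H := one_le_mul_of_one_le_of_one_le hB hH1
    refine (Cnt.pi (ι := Fin N) (P := fun _ (t : ℤ) => |(t : ℝ)| ≤ B * H)
      (B := fun _ => 2 * (B * H) + 1) fun _ => cnt_int_abs _ (by linarith)).mono
      (fun a ha => ha.1) ?_
    rw [Finset.prod_const, Finset.card_univ, Fintype.card_fin, one_pow, mul_one, pow_zero, div_one,
      ← mul_pow]
    exact pow_le_pow_left₀ (by linarith) (by linarith) _
  | succ j ih =>
    intro N m hN P B hB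
    obtain ⟨N, rfl⟩ : ∃ N', N = N' + 1 := ⟨N - 1, by omega⟩
    obtain ⟨P', R, v, c, E, hc, hP, hg⟩ := exists_step (by omega : k ≤ N) P
    have hs : (0 : ℝ) ≤ ∑ i, |(v i : ℝ)| := Finset.sum_nonneg fun i _ => abs_nonneg _
    obtain ⟨C, A, hC, hA, h⟩ := ih N m (by omega) P' (B * (1 + ∑ i, |(v i : ℝ)|))
      (one_le_mul_of_one_le_of_one_le hB (by linarith))
    have hcB : 0 ≤ 2 * B * |(c : ℝ)| := by positivity
    refine ⟨C * (2 * B * |(c : ℝ)| + 1), A * max (E : ℝ) 1,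
      one_le_mul_of_one_le_of_one_le hC (by linarith),
      one_le_mul_of_one_le_of_one_le hA (le_max_right _ _), fun H Y hY hH => ?_⟩
    have hYr : (1 : ℝ) ≤ Y := by exact_mod_cast Nat.one_le_iff_ne_zero.2 hY.ne_zero
    have hH1 : 1 ≤ H := hYr.trans hH
    have hf := Cnt.fibre (P := fun (b : Fin N → ℤ) (a : Fin (N + 1) → ℤ) => shr v a = b ∧
        |(a 0 : ℝ)| ≤ B * H ∧ ∀ p : ℕ, p.Prime → p ∣ Y → (p : ℤ) ∣ MvPolynomial.eval a R)
      (B' := (max (E : ℝ) 1) ^ Y.primeFactors.card * ((2 * B * |(c : ℝ)| + 1) * H / Y))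
      (h H Y hY hH) (by positivity) (by
        intro b _
        obtain ⟨g, hg1, hg2, hg3⟩ := hg b
        refine (WXb_line hc g hg1 hg2 hB hY hH).inj (fun a => a 0)
          (fun a ha => ⟨ha.2.1, fun p hp hpd => ?_⟩) fun a a' ha ha' e => ?_
        · rw [hg3 a ha.1]; exact ha.2.2 p hp hpd
        · have e0 : a 0 = a' 0 := e
          funext i
          refine Fin.cases e0 (fun i => ?_) i
          have e1 := congrFun (ha.1.trans ha'.1.symm) i
          simp only [shr] at e1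
          rw [e0] at e1
          linarith)
    refine hf.mono (fun a ha => ⟨shr v a, ⟨fun i => ?_, fun p hp hpd =>
      (hP p a (ha.2 p hp hpd)).1⟩, rfl, ha.1 0, fun p hp hpd => (hP p a (ha.2 p hp hpd)).2⟩)
      (le_of_eq ?_)
    · have h1 : |(v i : ℝ)| ≤ ∑ i, |(v i : ℝ)| :=
        Finset.single_le_sum (f := fun i => |(v i : ℝ)|) (fun i _ => abs_nonneg _)
          (Finset.mem_univ i)
      have h2 : |((shr v a i : ℤ) : ℝ)| ≤ |(a i.succ : ℝ)| + |(v i : ℝ)| * |(a 0 : ℝ)| := by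
        simp only [shr]
        push_cast
        rw [← abs_mul]
        exact abs_sub _ _
      have h3 : |(v i : ℝ)| * |(a 0 : ℝ)| ≤ (∑ i, |(v i : ℝ)|) * (B * H) :=
        mul_le_mul h1 (ha.1 0) (abs_nonneg _) hs
      have h4 := ha.1 i.succ
      linarith
    · have hY0 : (Y : ℝ) ≠ 0 := by linarith
      rw [mul_pow, pow_succ, pow_succ]
      field_simp

end Pool.Agent.VW
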